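import Pool.Agent.Work.MP_6bf1e5_an.Ell.Modes

/-!
Sizes of the parameters; elementary facts about the symmetry group.
-/

open Set Complex
open scoped InnerProductSpace ComplexConjugate Classical
open Pool.Agent.Work.MP_6bf1e5_an.B
open Pool.Agent.Work.MP_6bf1e5_an.Dec

namespace Pool.Agent.Work.MP_6bf1e5_an.Ell.Pd

noncomputable section

variable (G : Geo)

lemma t_big : (10 : ℝ) ^ 100 ≤ G.t := by
  unfold Geo.t; exact_mod_cast G.big

lemma t_pos : 0 < G.t := lt_of_lt_of_le (by positivity) (t_big G)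

lemma one_le_t : 1 ≤ G.t := le_trans (by norm_num) (t_big G)

lemma T_one : 1 ≤ G.T := le_trans (by norm_num) G.big

lemma T_le_pow {a : ℕ} (h : a ≠ 0) : G.T ≤ G.T ^ a := Nat.le_self_pow h _

lemma La_cast : (G.La : ℝ) = G.t ^ 21 := by
  simp [Geo.La, Geo.t]

lemma La_big : 10 ^ 100 ≤ G.La := by
  exact G.big.trans (T_le_pow G (by norm_num))

lemma kk_big : 10 ^ 100 ≤ G.kk := by
  exact G.big.trans (T_le_pow G (by norm_num))

lemma La_one : 1 ≤ G.La := le_trans (by norm_num) (La_big G)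

lemma La_pow_one (j : ℕ) : 1 ≤ G.La ^ j := Nat.one_le_pow _ _ (La_one G)

lemma n_pos (j : ℕ) : 10 ^ 100 ≤ G.n j := by
  exact (G.big.trans (T_le_pow G (by norm_num))).trans (Nat.le_mul_of_pos_right _ (La_pow_one G j))

lemma n_succ (j : ℕ) : G.n (j + 1) = G.La * G.n j := by
  simp only [Geo.n]; ring

lemma n_mono {i j : ℕ} (h : i ≤ j) : G.n i ≤ G.n j := by
  exact Nat.mul_le_mul_left _ (Nat.pow_le_pow_right (La_one G) h)

/-- A gap of one level gives a large ratio. -/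
lemma n_lt {i j : ℕ} (h : i < j) : 10 ^ 100 * G.n i ≤ G.n j := by
  refine le_trans ?_ (n_mono G (Nat.succ_le_of_lt h))
  rw [n_succ]
  exact Nat.mul_le_mul_right _ (La_big G)

lemma P_eq (j : ℕ) : G.P j = G.n (j + G.kk) := by
  simp only [Geo.P, Geo.n]; ring

lemma P_succ (j : ℕ) : G.P (j + 1) = G.La * G.P j := by
  simp only [Geo.P, Geo.n]; ring

lemma P_cast (j : ℕ) : (G.P j : ℝ) = G.n j * G.m0 := by
  simp [Geo.P, Geo.m0]

lemma lam_pos (j : ℕ) : 1 ≤ G.lam j := by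
  have h : (1 : ℝ) ≤ G.P j := by
    rw [P_eq]
    exact_mod_cast le_trans (by norm_num) (n_pos G _)
  have := Real.pi_gt_three
  unfold Geo.lam
  nlinarith

lemma lam_succ (j : ℕ) : G.lam (j + 1) = G.t ^ 21 * G.lam j := by
  unfold Geo.lam
  rw [P_succ, Nat.cast_mul, La_cast]; ring

lemma lam_pow (j : ℕ) : G.lam j = (G.La : ℝ) ^ j * G.lam 0 := by
  induction j with
  | zero => simp
  | succ j ih => rw [lam_succ, ih, La_cast]; ring

lemma m0_pos : 0 < G.m0 := pow_pos (by exact_mod_cast La_one G) _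

lemma lam_div (j : ℕ) : G.lam j / G.m0 = 2 * Real.pi * G.n j := by
  have := m0_pos G
  unfold Geo.lam
  rw [P_cast]; field_simp

lemma m0_big : G.t ^ 1000 ≤ G.m0 := by
  unfold Geo.m0
  rw [La_cast, ← pow_mul]
  refine pow_le_pow_right₀ (one_le_t G) ?_
  have := kk_big G
  omega

lemma C_big : G.t ^ 1000 * Real.exp (G.t ^ 81) ≤ G.C := by
  have h1 := one_le_t G
  have h2 := t_big G
  have a : G.t ^ 1000 ≤ Real.exp (1000 * G.t) := by
    have : G.t ≤ Real.exp G.t := by linarith [Real.add_one_le_exp G.t]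
    calc G.t ^ 1000 ≤ Real.exp G.t ^ 1000 := pow_le_pow_left₀ (by linarith) this _
      _ = Real.exp (1000 * G.t) := by rw [← Real.exp_nat_mul]; norm_num
  have b : 1000 * G.t + G.t ^ 81 ≤ G.t ^ 90 := by
    have c : G.t ≤ G.t ^ 81 := le_self_pow₀ h1 (by norm_num)
    have d : G.t * G.t ^ 81 ≤ G.t ^ 90 := by
      rw [← pow_succ']; exact pow_le_pow_right₀ h1 (by norm_num)
    have e : (1001 : ℝ) ≤ G.t := le_trans (by norm_num) h2
    nlinarith
  calc G.t ^ 1000 * Real.exp (G.t ^ 81) ≤ Real.exp (1000 * G.t) * Real.exp (G.t ^ 81) := by gcongr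
    _ = Real.exp (1000 * G.t + G.t ^ 81) := (Real.exp_add _ _).symm
    _ ≤ G.C := Real.exp_le_exp.mpr b

lemma C_pos : 0 < G.C := Real.exp_pos _

lemma t_le_C : G.t ≤ G.C := by
  have h1 := one_le_t G
  have a : G.t ≤ G.t ^ 1000 := le_self_pow₀ h1 (by norm_num)
  have b : 1 ≤ Real.exp (G.t ^ 81) := Real.one_le_exp (by positivity)
  have c := C_big G
  nlinarith

lemma one_le_C : 1 ≤ G.C := (one_le_t G).trans (t_le_C G)

lemma δ_pos : 0 < G.δ := by
  have := C_pos G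
  unfold Geo.δ; positivity

lemma δ_le : G.δ ≤ 1 / 10 := by
  have a : (10 : ℝ) ≤ G.C := le_trans (le_trans (by norm_num) (t_big G)) (t_le_C G)
  have b : G.C ≤ G.C ^ 4 := le_self_pow₀ (one_le_C G) (by norm_num)
  unfold Geo.δ
  rw [one_div]
  exact inv_anti₀ (by norm_num) (a.trans b)

lemma lam_mono (j : ℕ) : G.lam j ≤ G.lam (j + 1) := by
  rw [lam_succ]
  have := lam_pos G j
  have : 1 ≤ G.t ^ 21 := one_le_pow₀ (one_le_t G)
  nlinarith

lemma dd_le_Gc (F : Fam) : F.dd G ≤ G.Gc F.ix := by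
  have c := one_le_C G
  have l := lam_pos G F.ix
  have m : G.lam F.ix ^ 2 ≤ G.lam (F.ix + 1) ^ 2 := pow_le_pow_left₀ (by linarith) (lam_mono G _) 2
  have l2 : 0 ≤ G.lam F.ix ^ 2 := by positivity
  unfold Geo.Gc
  cases F with
  | b j => simp only [Fam.dd, Fam.ix, Geo.d] at *; nlinarith
  | c j => simp only [Fam.dd, Fam.ix, Geo.d] at *; nlinarith
  | y j i =>
    simp only [Fam.dd, Fam.ix, Geo.D] at *
    have e : Real.exp (G.t ^ 21 / 2) ≤ G.C := by
      refine Real.exp_le_exp.mpr ?_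
      have a : G.t ^ 21 ≤ G.t ^ 90 := pow_le_pow_right₀ (one_le_t G) (by norm_num)
      have b : 0 ≤ G.t ^ 21 := (pow_pos (t_pos G) _).le
      linarith
    have := mul_le_mul e m l2 (by linarith)
    nlinarith

lemma dd_pos (F : Fam) : 0 < F.dd G := by
  cases F with
  | b j => have := lam_pos G j; simp only [Fam.dd, Geo.d]; positivity
  | c j => have := lam_pos G (j + 1); simp only [Fam.dd, Geo.d]; positivity
  | y j i => have := lam_pos G j; simp only [Fam.dd, Geo.D]; positivity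

lemma w_one (j : ℕ) (i : Fin 3) : 1 ≤ G.w j i := by
  have a := La_pow_one G j
  have b := T_one G
  have c : 1 ≤ G.T ^ 5 := Nat.one_le_pow _ _ b
  fin_cases i <;> simp only [Geo.w] <;> exact Nat.mul_pos (by assumption) a

lemma w_le (j : ℕ) (i : Fin 3) : G.w j i ≤ G.T ^ 5 * G.La ^ j := by
  have c : G.T ≤ G.T ^ 5 := T_le_pow G (by norm_num)
  fin_cases i
  · exact le_rfl
  · exact Nat.mul_le_mul_right _ c
  · exact le_rfl

lemma rd_le (j : ℕ) (i : Fin 3) : G.rd j i ≤ G.n j := by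
  have c : G.T ^ 5 ≤ G.T ^ 9 := Nat.pow_le_pow_right (T_one G) (by norm_num)
  fin_cases i
  · exact le_rfl
  · exact Nat.mul_le_mul_right _ c
  · exact le_rfl

lemma rb_succ (j : ℕ) (i : Fin 3) : G.rb j i + 1 = G.w j i := by
  have := w_one G j i
  simp only [Geo.rb]; omega

lemma ry_succ (j : ℕ) (i : Fin 3) : 4 * (G.ry j i + 1) = G.n (j + 1) := by
  have a : 4 ∣ G.n (j + 1) := (G.four.trans (dvd_pow_self _ (by norm_num))).mul_right _
  have b := n_pos G (j + 1)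
  simp only [Geo.ry]; omega

lemma w_small (j : ℕ) (i : Fin 3) : 10000 * G.w j i ≤ G.n j := by
  have a := w_le G j i
  have b : 10000 ≤ G.T ^ 4 := le_trans (le_trans (by norm_num) G.big) (T_le_pow G (by norm_num))
  calc 10000 * G.w j i ≤ G.T ^ 4 * (G.T ^ 5 * G.La ^ j) := Nat.mul_le_mul b a
    _ = G.n j := by simp only [Geo.n]; ring

lemma rb_small (j : ℕ) (i : Fin 3) : 1000 * (G.rb j i + 1) ≤ G.n j := by
  have := w_small G j i
  rw [rb_succ]; omega

lemma rc_small (j : ℕ) (i : Fin 3) : 1000 * (G.rc j i + 1) ≤ G.n j := by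
  cases j with
  | zero => exact rb_small G 0 i
  | succ j =>
    have a := w_small G (j + 1) i
    have b := rd_le G j i
    have c := n_lt G (Nat.lt_add_one j)
    have d := rb_succ G (j + 1) i
    simp only [Geo.rc]; omega

lemma rb_le_rc (j : ℕ) (i : Fin 3) : G.rb j i ≤ G.rc j i := by
  cases j with
  | zero => exact le_rfl
  | succ j => exact Nat.le_add_right _ _

/-- The radii are exactly homogeneous. -/
lemma rb_hom (j : ℕ) (i : Fin 3) : G.rb j i + 1 = G.La ^ j * (G.rb 0 i + 1) := by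
  rw [rb_succ, rb_succ]
  fin_cases i <;> simp [Geo.w] <;> ring

lemma rc_hom (j : ℕ) (i : Fin 3) : G.rc (j + 1) i + 1 = G.La ^ j * (G.rc 1 i + 1) := by
  have a := rb_succ G (j + 1) i
  have b := rb_succ G 1 i
  have c : G.w (j + 1) i = G.La ^ j * G.w 1 i := by fin_cases i <;> simp [Geo.w] <;> ring
  have d : G.rd j i = G.La ^ j * G.rd 0 i := by
    fin_cases i <;> simp [Geo.rd, Geo.rB, rot3, Geo.n] <;> ring
  have e : G.rc 1 i + 1 = G.w 1 i + 2 * G.rd 0 i := by simp only [Geo.rc, zero_add]; omega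
  have f : G.rc (j + 1) i + 1 = G.w (j + 1) i + 2 * G.rd j i := by simp only [Geo.rc]; omega
  rw [e, f, c, d]; ring

lemma ry_hom (j : ℕ) (i : Fin 3) : G.ry j i + 1 = G.La ^ j * (G.ry 0 i + 1) := by
  have a := ry_succ G j i
  have b := ry_succ G 0 i
  have c : G.n (j + 1) = G.La ^ j * G.n (0 + 1) := by simp only [Geo.n]; ring
  rw [c, ← b] at a
  have : 4 * (G.ry j i + 1) = 4 * (G.La ^ j * (G.ry 0 i + 1)) := by rw [a]; ring
  omega

lemma N_sq (j : ℕ) : G.N j ^ 2 = G.t ^ 11 * ((G.La : ℝ) ^ j) ^ 3 := by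
  have h : ∀ i, (G.rb j i : ℝ) + 1 = G.w j i := fun i => by exact_mod_cast rb_succ G j i
  rw [Geo.N, Nn_sq, Fin.prod_univ_three, h, h, h]
  simp [Geo.w, Geo.t]; ring

lemma Nn_ry_sq (j : ℕ) : 64 * Nn (G.ry j) ^ 2 = G.t ^ 90 * ((G.La : ℝ) ^ j) ^ 3 := by
  have h : ∀ i, (G.ry j i : ℝ) + 1 = G.n (j + 1) / 4 := fun i => by
    have : (4 : ℝ) * (G.ry j i + 1) = G.n (j + 1) := by exact_mod_cast ry_succ G j i
    linarith
  have e : (G.n (j + 1) : ℝ) = G.t ^ 30 * (G.La : ℝ) ^ j := by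
    rw [n_succ, Nat.cast_mul, La_cast]; simp [Geo.n, Geo.t, Geo.La]; ring
  rw [Nn_sq, Fin.prod_univ_three, h, h, h, e]; ring

lemma N_nonneg (j : ℕ) : 0 ≤ G.N j := (Nn_pos _).le

lemma N_pos (j : ℕ) : 1 ≤ G.N j := by
  have a : (1 : ℝ) ≤ (G.La : ℝ) ^ j := by exact_mod_cast La_pow_one G j
  refine (one_le_sq_iff₀ (N_nonneg G j)).mp ?_
  rw [N_sq]
  exact one_le_mul_of_one_le_of_one_le (one_le_pow₀ (one_le_t G)) (one_le_pow₀ a)

lemma Nn_rc (j : ℕ) : Nn (G.rc j) ≤ 2 * G.N j := by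
  have key : ∀ i, (G.rc j i : ℝ) + 1 ≤ 3 / 2 * (G.rb j i + 1) := by
    intro i
    have : 2 * (G.rc j i + 1) ≤ 3 * (G.rb j i + 1) := by
      cases j with
      | zero => simp only [Geo.rc]; omega
      | succ j =>
        have a := rb_succ G (j + 1) i
        have b := rd_le G j i
        have c : G.T * G.La ^ (j + 1) ≤ G.w (j + 1) i := by
          have c : G.T ≤ G.T ^ 5 := T_le_pow G (by norm_num)
          fin_cases i
          · exact Nat.mul_le_mul_right _ c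
          · exact le_rfl
          · exact Nat.mul_le_mul_right _ c
        have d : 4 * G.n j ≤ G.T * G.La ^ (j + 1) := by
          have e : 4 ≤ G.T ^ 13 := le_trans (le_trans (by norm_num) G.big) (T_le_pow G (by norm_num))
          calc 4 * G.n j ≤ G.T ^ 13 * G.n j := Nat.mul_le_mul_right _ e
            _ = G.T * G.La ^ (j + 1) := by simp only [Geo.n, Geo.La]; ring
        simp only [Geo.rc]; omega
    have : (2 : ℝ) * (G.rc j i + 1) ≤ 3 * (G.rb j i + 1) := by exact_mod_cast this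
    linarith
  refine (pow_le_pow_iff_left₀ (Nn_pos _).le (mul_nonneg zero_le_two (N_nonneg G j)) two_ne_zero).mp ?_
  rw [mul_pow, Geo.N, Nn_sq, Nn_sq]
  calc ∏ i, ((G.rc j i : ℝ) + 1) ≤ ∏ i, 3 / 2 * ((G.rb j i : ℝ) + 1) :=
        Finset.prod_le_prod (fun i _ => by positivity) fun i _ => key i
    _ = (3 / 2) ^ 3 * ∏ i, ((G.rb j i : ℝ) + 1) := by
        simp only [Fin.prod_univ_three]; ring
    _ ≤ 2 ^ 2 * ∏ i, ((G.rb j i : ℝ) + 1) := by gcongr; norm_num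

lemma Nn_ry (j : ℕ) : Nn (G.ry j) ≤ G.t ^ 40 * G.N j := by
  have t0 := t_pos G
  refine (pow_le_pow_iff_left₀ (Nn_pos _).le (mul_nonneg (by positivity) (N_nonneg G j))
    two_ne_zero).mp ?_
  have a := Nn_ry_sq G j
  have b : G.t ^ 90 ≤ G.t ^ 91 := pow_le_pow_right₀ (one_le_t G) (by norm_num)
  have c : G.t ^ 90 * ((G.La : ℝ) ^ j) ^ 3 ≤ G.t ^ 91 * ((G.La : ℝ) ^ j) ^ 3 := by gcongr
  have d : (G.t ^ 40 * G.N j) ^ 2 = G.t ^ 91 * ((G.La : ℝ) ^ j) ^ 3 := by rw [mul_pow, N_sq]; ring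
  linarith [sq_nonneg (Nn (G.ry j))]

lemma Nn_ry' (j : ℕ) : 8 * (√G.La * Nn (G.ry j)) ≤ G.t ^ 50 * G.N j := by
  have t0 := t_pos G
  have := Nn_pos (G.ry j)
  refine (pow_le_pow_iff_left₀ (by positivity) (mul_nonneg (by positivity) (N_nonneg G j))
    two_ne_zero).mp (le_of_eq ?_)
  have a := Nn_ry_sq G j
  have b : √(G.La : ℝ) ^ 2 = G.t ^ 21 := by rw [Real.sq_sqrt (Nat.cast_nonneg _), La_cast]
  calc (8 * (√G.La * Nn (G.ry j))) ^ 2 = √(G.La : ℝ) ^ 2 * (64 * Nn (G.ry j) ^ 2) := by ring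
    _ = (G.t ^ 50 * G.N j) ^ 2 := by rw [a, b, mul_pow, N_sq]; ring

/-! The group -/

lemma gz_g1 (k : Z3) : gz g1 k = k := by
  ext i; simp [gz, g1]

lemma ge_g1 (v : E3) : ge g1 v = v := by
  ext i; simp [ge, g1]

lemma gz_gz (g g' : Gp) (k : Z3) : gz g (gz g' k) = gz (gm g g') k := by
  ext i; simp [gz, gm, sub_sub, mul_assoc]

lemma ge_ge (g g' : Gp) (v : E3) : ge g (ge g' v) = ge (gm g g') v := by
  ext i; simp [ge, gm, sub_sub, mul_assoc]

lemma exists_inv (g : Gp) : ∃ g', gm g g' = g1 ∧ gm g' g = g1 := by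
  revert g; decide

lemma gz_add (g : Gp) (k l : Z3) : gz g (k + l) = gz g k + gz g l := by
  ext i; simp [gz, mul_add]

lemma gz_sub (g : Gp) (k l : Z3) : gz g (k - l) = gz g k - gz g l := by
  ext i; simp [gz, mul_sub]

lemma gz_injective (g : Gp) : Function.Injective (gz g) := by
  exact (gzE g).symm.injective

lemma gz_neg_one (k : Z3) : gz (0, -1) k = -k := by
  ext i; simp [gz]

lemma ge_neg_one (v : E3) : ge (0, -1) v = -v := by
  ext i; simp [ge]

lemma ge_add (g : Gp) (u v : E3) : ge g (u + v) = ge g u + ge g v := by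
  ext i; simp [ge, mul_add]

lemma ge_sub (g : Gp) (u v : E3) : ge g (u - v) = ge g u - ge g v := by
  ext i; simp [ge, mul_sub]

lemma ge_smul (g : Gp) (c : ℝ) (v : E3) : ge g (c • v) = c • ge g v := by
  ext i; simp [ge, mul_left_comm]

lemma ge_zero (g : Gp) : ge g 0 = 0 := by
  ext i; simp [ge]

lemma inner_E3 (u v : E3) : ⟪u, v⟫_ℝ = ∑ i, u i * v i := by
  simp [PiLp.inner_apply, mul_comm]

lemma unit_sq (s : ℤˣ) : ((s : ℤ) : ℝ) * ((s : ℤ) : ℝ) = 1 := by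
  rcases Int.units_eq_one_or s with rfl | rfl <;> simp

lemma inner_ge (g : Gp) (u v : E3) : ⟪ge g u, ge g v⟫_ℝ = ⟪u, v⟫_ℝ := by
  rw [inner_E3, inner_E3, ← Equiv.sum_comp (Equiv.subRight g.1) fun i => u i * v i]
  refine Finset.sum_congr rfl fun i _ => ?_
  simp only [ge, Equiv.subRight_apply]
  linear_combination (u (i - g.1) * v (i - g.1)) * unit_sq g.2

lemma norm_ge (g : Gp) (v : E3) : ‖ge g v‖ = ‖v‖ := by
  rw [← sq_eq_sq₀ (norm_nonneg _) (norm_nonneg _), ← real_inner_self_eq_norm_sq,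
    ← real_inner_self_eq_norm_sq, inner_ge]

lemma xi_gz (g : Gp) (k : Z3) : xi (gz g k) = ge g (xi k) := by
  ext i; simp [xi, gz, ge]; ring

lemma ax_gz (g : Gp) (k : Z3) : ax (gz g k) = ax k := by
  rw [ax_eq_norm, ax_eq_norm, xi_gz, norm_ge]

lemma lp_ge (g : Gp) (ξ e : E3) : lp (ge g ξ) (ge g e) = ge g (lp ξ e) := by
  rw [lp, lp, inner_ge, norm_ge, ge_sub, ge_smul]

lemma ur_ge (g : Gp) (ξ e : E3) : ur (ge g ξ) (ge g e) = ge g (ur ξ e) := by
  rw [ur, ur, lp_ge, norm_ge, ge_smul]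

lemma coeff_tr (g : Gp) (f : V) (h : Z3) : (tr g f).coeff (gz g h) = f.coeff h := by
  rw [tr, coeff_prm]
  exact congrArg _ ((gzE g).right_inv h)

lemma norm_tr (g : Gp) (f : V) : ‖tr g f‖ = ‖f‖ := norm_prm _ _

lemma l1_tr (g : Gp) (f : V) : l1 (tr g f) = l1 f := l1_prm _ _

lemma tr_g1 (f : V) : tr g1 f = f := by
  ext h
  rw [← coeff_tr g1 f h, gz_g1]

lemma tr_tau (f : V) : tr (1, 1) f = tau f := by
  ext h
  rw [coeff_tau, tr, coeff_prm]
  congr 1
  ext i; fin_cases i <;> simp [gzE]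

lemma Rl_conj {f : V} (hf : Rl f) (h : Z3) : conj (f.coeff h) = f.coeff h :=
  conj_eq_iff_im.mpr (hf h)

lemma tr_dag_tau {f : V} (hf : Rl f) : tr (1, -1) f = dag (tau f) := by
  ext h
  rw [coeff_dag, coeff_tau, Rl_conj hf, tr, coeff_prm]
  congr 1
  ext i; fin_cases i <;> simp [gzE]

lemma tr_go {f : V} (hf : Rl f) (o : Fin 4) : tr (go o) f = rot o f := by
  fin_cases o
  · exact tr_tau f
  · exact tr_dag_tau hf
  · ext h
    simp only [rot, go, tr, coeff_prm, Fin.reduceFinMk, Matrix.cons_val, coeff_tau]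
    congr 1
    ext i; fin_cases i <;> simp [gzE]
  · ext h
    simp only [rot, go, tr, coeff_prm, Fin.reduceFinMk, Matrix.cons_val, coeff_tau, coeff_dag,
      Rl_conj hf]
    congr 1
    ext i; fin_cases i <;> simp [gzE]

lemma tr_sh (g : Gp) (k : Z3) : tr g (sh k) = sh (gz g k) := by
  simp only [tr, prm, sh, AddMonoidAlgebra.domCongr_single]
  rfl

lemma tr_mul (g : Gp) (f f' : V) : tr g (f * f') = tr g f * tr g f' := map_mul (prm _) f f'

lemma gz_go (j : ℕ) (o : Fin 4) : gz (go o) ![G.n j, 0, 0] = G.off j o := by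
  ext i; fin_cases o <;> fin_cases i <;> simp [gz, go, Geo.off]

/-! Projections -/

lemma inner_lp_left {ξ x : E3} (h : ⟪ξ, x⟫_ℝ = 0) (e : E3) : ⟪lp ξ e, x⟫_ℝ = ⟪e, x⟫_ℝ := by
  rw [lp, inner_sub_left, real_inner_smul_left, h, mul_zero, sub_zero]

lemma inner_lp_swap (ξ e x : E3) : ⟪e, lp ξ x⟫_ℝ = ⟪lp ξ e, x⟫_ℝ := by
  rw [lp, lp, inner_sub_left, inner_sub_right, real_inner_smul_left, real_inner_smul_right,
    real_inner_comm ξ e]
  ring

lemma inner_xi_lp (ξ e : E3) : ⟪ξ, lp ξ e⟫_ℝ = 0 := by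
  rw [lp, inner_sub_right, real_inner_smul_right, real_inner_self_eq_norm_sq]
  by_cases h : ξ = 0
  · simp [h]
  · have := norm_ne_zero_iff.mpr h
    field_simp; ring

lemma inner_xi_ur (ξ e : E3) : ⟪ξ, ur ξ e⟫_ℝ = 0 := by
  rw [ur, real_inner_smul_right, inner_xi_lp, mul_zero]

lemma inner_e_lp (ξ e : E3) : ⟪e, lp ξ e⟫_ℝ = ‖lp ξ e‖ ^ 2 := by
  rw [← inner_lp_left (inner_xi_lp ξ e), real_inner_self_eq_norm_sq]

lemma norm_lp_le (ξ e : E3) : ‖lp ξ e‖ ≤ ‖e‖ := by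
  have a := real_inner_le_norm e (lp ξ e)
  rw [inner_e_lp] at a
  rcases (norm_nonneg (lp ξ e)).eq_or_lt with h | h
  · rw [← h]; exact norm_nonneg _
  · nlinarith

lemma lp_of_orth {ξ x : E3} (h : ⟪ξ, x⟫_ℝ = 0) : lp ξ x = x := by
  rw [lp, h, zero_div, zero_smul, sub_zero]

lemma lp_add (ξ u v : E3) : lp ξ (u + v) = lp ξ u + lp ξ v := by
  rw [lp, lp, lp, inner_add_right, add_div, add_smul]; abel

lemma lp_sub (ξ u v : E3) : lp ξ (u - v) = lp ξ u - lp ξ v := by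
  rw [lp, lp, lp, inner_sub_right, sub_div, sub_smul]; abel

lemma Pj_add (k : Z3) (x y : E3) : Pj G k (x + y) = Pj G k x + Pj G k y := by
  rw [Pj, Pj, Pj, inner_add_right, add_smul]

lemma Pj_sub (k : Z3) (x y : E3) : Pj G k (x - y) = Pj G k x - Pj G k y := by
  rw [Pj, Pj, Pj, inner_sub_right, sub_smul]

lemma Pj_smul (k : Z3) (c : ℝ) (x : E3) : Pj G k (c • x) = c • Pj G k x := by
  rw [Pj, Pj, real_inner_smul_right, mul_smul]

lemma Pj_eq (k : Z3) (x : E3) : Pj G k x = x - lp (lp (xi k) (vec G k)) x := by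
  rw [Pj, ur]
  generalize lp (xi k) (vec G k) = l
  rw [lp, smul_smul, sub_sub_cancel, div_eq_mul_inv]

lemma Pj_Pj (k : Z3) (x : E3) : Pj G k (Pj G k x) = Pj G k x := by
  rw [Pj_eq G k x, Pj_sub, Pj, Pj, inner_xi_lp, zero_smul, sub_zero, ← Pj, Pj_eq]

lemma norm_sub_lp_le (l x : E3) : ‖x - lp l x‖ ≤ ‖x‖ := by
  have a : ⟪x - lp l x, lp l x⟫_ℝ = 0 := by
    rw [inner_sub_left, inner_e_lp, real_inner_self_eq_norm_sq, sub_self]
  have b := norm_add_sq_real (x - lp l x) (lp l x)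
  rw [sub_add_cancel, a] at b
  refine (pow_le_pow_iff_left₀ (norm_nonneg _) (norm_nonneg _) two_ne_zero).mp ?_
  linarith [sq_nonneg ‖lp l x‖]

lemma norm_Pj_le (k : Z3) (x : E3) : ‖Pj G k x‖ ≤ ‖x‖ := by
  rw [Pj_eq]; exact norm_sub_lp_le _ _

lemma norm_sub_Pj_le (k : Z3) (x : E3) : ‖x - Pj G k x‖ ≤ ‖x‖ := by
  rw [Pj_eq, sub_sub_cancel]; exact norm_lp_le _ _

lemma inner_xi_Pj (k : Z3) (x : E3) : ⟪xi k, Pj G k x⟫_ℝ = 0 := by
  rw [Pj, real_inner_smul_right, inner_xi_ur, mul_zero]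

lemma Pj_not {k : Z3} (h : ¬Act G k) (x : E3) : Pj G k x = 0 := by
  simp [Pj, vec, h, lp]

end

end Pool.Agent.Work.MP_6bf1e5_an.Ell.Pd
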