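import Pool.Agent.Work.MP_6bf1e5_an.Dec.Phi

/-!
Anisotropic boxes, their ground states, and normalised drivers.
-/

open Set Complex Filter Topology
open scoped InnerProductSpace ComplexConjugate
open Pool.Agent.Work.MP_6bf1e5_an.B (Z3 R3)
open Pool.Agent.Work.MP_6bf1e5_an.Dec

namespace Pool.Agent.Work.MP_6bf1e5_an.Ell

noncomputable section

/-- Radii of a box. -/
abbrev N3 := Fin 3 → ℕ

/-- The box with radii `n`. -/
def bx (n : N3) : Finset Z3 := Fintype.piFinset fun i => Finset.Icc (-(n i : ℤ)) (n i)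

/-- Support in the box with radii `n`. -/
def Sp (n : N3) (f : V) : Prop := ∀ h, h ∉ bx n → f.coeff h = 0

/-- The projection onto the box with radii `n`. -/
def pj (n : N3) : V →ₗ[ℂ] V := mulc fun h => if h ∈ bx n then 1 else 0

/-- The square root of the volume of the half box. -/
def Nn (n : N3) : ℝ := √(∏ i, ((n i : ℝ) + 1))

/-- The normalised ground state of the box. -/
def ph (n : N3) : V := mk (bx n) fun h => (((Nn n)⁻¹ * ∏ i, Real.cos (th (n i) * h i) : ℝ) : ℂ)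

/-- Real coefficients. -/
def Rl (f : V) : Prop := ∀ h, (f.coeff h).im = 0

/-- The inverse cyclic permutation of the coordinates. -/
def tauE : Z3 ≃+ Z3 where
  toFun h := ![h 1, h 2, h 0]
  invFun h := ![h 2, h 0, h 1]
  left_inv h := by ext i; fin_cases i <;> rfl
  right_inv h := by ext i; fin_cases i <;> rfl
  map_add' a b := by ext i; fin_cases i <;> rfl

/-- The envelope rotated by `(x, y, z) ↦ (z, x, y)`. -/
def tau (f : V) : V := prm tauE f

/-- The unit mass at `k`. -/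
def sh (k : Z3) : V := AddMonoidAlgebra.single k 1

/-- The rotated triple `(a 2, a 0, a 1)`. -/
def rot3 {α : Type} (a : Fin 3 → α) : Fin 3 → α := ![a 2, a 0, a 1]

/-- The scaled squared length. -/
def sqr (r : N3) (x : R3) : ℝ := ∑ i, ((r i : ℝ) * x i) ^ 2

/-- Damping concentrated on a thin layer. -/
structure Lay (n : N3) (l : ℝ) (v : Z3 → ℝ) : Prop where
  nonneg : ∀ h, 0 ≤ v h
  l0 : 0 ≤ l
  small : ∑ h ∈ bx n, v h ^ 2 ≤ (l * Nn n) ^ 2

/-- Normalised drivers of scale `r`. -/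
structure Drv (T : ℝ) (r : N3) (mv : Fin 3 → ℝ) (κ : ℝ) (p : V) : Prop where
  supp : Sp (fun i => 2 * r i) p
  real : Rl p
  one : ev 0 p = 1
  l1_le : l1 p ≤ 2
  far : ∀ x ∈ cube, ‖ev x p‖ ^ 2 ≤ 1 - 1 / 10 ^ 10 * min (T ^ 16)⁻¹ (sqr r x)
  mix : ∀ i j, i ≠ j → ‖ev 0 (mulr (fun k => (k i : ℝ) * k j) (dag p * p))‖ ≤ κ * (r i * r j)
  mom : ∀ i x, |(conj (ev x p) * ev x (mulr (fun k => (k i : ℝ)) p)).re| ≤ mv i

/-- The size of the loss at the ground state. -/
def mu (T : ℝ) : ℝ := (Real.pi / (2 * T ^ 17)) ^ 2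

/-- Spectral gap of the convolution with `p` on the box with radii `n`. -/
def Gap (n : N3) (μ η : ℝ) (p : V) : Prop :=
  ∃ μ' : ℝ, 0 ≤ μ' ∧ μ' ≤ 200 * μ ∧ Qf p (ph n) ≤ μ' + η * μ ∧
    ∀ y, Sp n y → μ' * ‖y‖ ^ 2 + 1 / 10 ^ 10 * μ * (‖y‖ ^ 2 - ‖⟪ph n, y⟫_ℂ‖ ^ 2) ≤ Qf p y

/-- The norm of a pair. -/
def nr (B C : V) : ℝ := √(‖B‖ ^ 2 + ‖C‖ ^ 2)

/-- The component of a pair along the unstable direction of the driver `p`. -/
def al (n : N3) (p B C : V) : ℝ := (⟪ph n, B⟫_ℂ).re + (⟪p * ph n, C⟫_ℂ).re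

/-! Boxes and supports -/

lemma mem_bx {n : N3} {k : Z3} : k ∈ bx n ↔ ∀ i, |k i| ≤ n i := by
  simp [bx, abs_le]

lemma card_bx (n : N3) : (bx n).card = ∏ i, (2 * n i + 1) := by
  rw [bx, Fintype.card_piFinset]
  refine Finset.prod_congr rfl fun i _ => ?_
  rw [Int.card_Icc]
  omega

lemma bx_mono {m n : N3} (h : ∀ i, m i ≤ n i) : bx m ⊆ bx n := by
  intro k hk
  rw [mem_bx] at *
  intro i
  have := hk i
  have := h i
  omega

lemma add_mem_bx {m n : N3} {a b : Z3} (ha : a ∈ bx m) (hb : b ∈ bx n) : a + b ∈ bx (m + n) := by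
  rw [mem_bx] at *
  intro i
  have := abs_add_le (a i) (b i)
  have := ha i
  have := hb i
  simp only [Pi.add_apply]; push_cast; linarith

lemma neg_mem_bx {n : N3} {a : Z3} : -a ∈ bx n ↔ a ∈ bx n := by simp [mem_bx]

lemma zero_mem_bx (n : N3) : (0 : Z3) ∈ bx n := by simp [mem_bx]

lemma Sp.subset {n : N3} {f : V} (H : Sp n f) : f.coeff.support ⊆ bx n := by
  intro h hh
  by_contra hn
  exact Finsupp.mem_support_iff.mp hh (H h hn)

lemma sp_of_subset {n : N3} {f : V} (H : f.coeff.support ⊆ bx n) : Sp n f := by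
  exact fun _ hn => Finsupp.notMem_support_iff.mp fun h' => hn (H h')

lemma Sp.mono {m n : N3} {f : V} (H : Sp m f) (h : ∀ i, m i ≤ n i) : Sp n f := by
  exact fun k hk => H k fun h' => hk (bx_mono h h')

lemma sp_zero (n : N3) : Sp n 0 := fun _ _ => rfl

lemma Sp.add {n : N3} {f g : V} (hf : Sp n f) (hg : Sp n g) : Sp n (f + g) := by
  exact fun k hk => by simp [hf k hk, hg k hk]

lemma Sp.sub {n : N3} {f g : V} (hf : Sp n f) (hg : Sp n g) : Sp n (f - g) := by
  exact fun k hk => by simp [hf k hk, hg k hk]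

lemma Sp.neg {n : N3} {f : V} (hf : Sp n f) : Sp n (-f) := by
  exact fun k hk => by simp [hf k hk]

lemma Sp.smul {n : N3} {f : V} (hf : Sp n f) (c : ℂ) : Sp n (c • f) := by
  exact fun k hk => by simp [hf k hk]

lemma Sp.sum {ι : Type} {n : N3} (s : Finset ι) {f : ι → V} (hf : ∀ i ∈ s, Sp n (f i)) :
    Sp n (∑ i ∈ s, f i) := by
  classical
  induction s using Finset.induction_on with
  | empty => simpa using sp_zero n
  | insert a s ha ih =>
    rw [Finset.sum_insert ha]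
    exact (hf a (Finset.mem_insert_self _ _)).add
      (ih fun i hi => hf i (Finset.mem_insert_of_mem hi))

lemma Sp.mul {m n : N3} {f g : V} (hf : Sp m f) (hg : Sp n g) : Sp (m + n) (f * g) := by
  intro h hh
  rw [coeff_mul_eq g hf.subset]
  refine Finset.sum_eq_zero fun k hk => ?_
  rw [hg (h - k) fun h' => hh (by simpa using add_mem_bx hk h'), mul_zero]

lemma sp_mk (n : N3) (g : Z3 → ℂ) : Sp n (mk (bx n) g) := by
  exact sp_of_subset (support_mk _ _)

lemma sp_sh {n : N3} {k : Z3} (hk : k ∈ bx n) : Sp n (sh k) := by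
  intro h hh
  have : k ≠ h := fun e => hh (e ▸ hk)
  simp [sh, this]

lemma Sp.mulc {n : N3} {f : V} (hf : Sp n f) (d : Z3 → ℂ) : Sp n (mulc d f) := by
  exact fun k hk => by simp [hf k hk]

lemma Sp.mulr {n : N3} {f : V} (hf : Sp n f) (d : Z3 → ℝ) : Sp n (mulr d f) := hf.mulc _

lemma Sp.wt {n : N3} {f : V} (hf : Sp n f) (ξ : R3) : Sp n (wt ξ f) := hf.mulc _

lemma Sp.dag {n : N3} {f : V} (hf : Sp n f) : Sp n (dag f) := by
  exact fun k hk => by rw [coeff_dag, hf _ fun h => hk (neg_mem_bx.mp h)]; simp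

lemma Sp.tau {n : N3} {f : V} (hf : Sp n f) : Sp (rot3 n) (tau f) := by
  intro h hh
  rw [Ell.tau, coeff_prm]
  refine hf _ fun h' => hh ?_
  rw [mem_bx] at *
  intro i
  fin_cases i
  · exact h' 2
  · exact h' 0
  · exact h' 1

lemma coeff_pj (n : N3) (f : V) (h : Z3) :
    (pj n f).coeff h = if h ∈ bx n then f.coeff h else 0 := by simp [pj]

lemma sp_pj (n : N3) (f : V) : Sp n (pj n f) := by
  exact fun h hh => by simp [coeff_pj, hh]

lemma Sp.pj_eq {n : N3} {f : V} (H : Sp n f) : pj n f = f := by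
  ext h
  rw [coeff_pj]
  split_ifs with hh
  · rfl
  · exact (H h hh).symm

lemma norm_pj_le (n : N3) (f : V) : ‖pj n f‖ ≤ ‖f‖ := by
  simpa [pj] using norm_mulc_le (d := fun h => if h ∈ bx n then 1 else 0) zero_le_one (f := f)
    fun h _ => by split_ifs <;> simp

lemma l1_pj_le (n : N3) (f : V) : l1 (pj n f) ≤ l1 f := by
  simpa using l1_le_of_coeff (f := pj n f) (g := f) zero_le_one fun h => by
    rw [coeff_pj]; split_ifs <;> simp

lemma inner_pj_left (n : N3) (f g : V) : ⟪pj n f, g⟫_ℂ = ⟪f, pj n g⟫_ℂ := by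
  rw [pj, inner_mulc_left]
  congr 3
  funext h
  split_ifs <;> simp

lemma Sp.inner_pj {n : N3} {f : V} (H : Sp n f) (g : V) : ⟪f, pj n g⟫_ℂ = ⟪f, g⟫_ℂ := by
  rw [← inner_pj_left, H.pj_eq]

lemma wt_pj (ξ : R3) (n : N3) (f : V) : wt ξ (pj n f) = pj n (wt ξ f) := by
  ext h; simp [coeff_wt, coeff_pj]

lemma Nn_pos (n : N3) : 0 < Nn n := Real.sqrt_pos.mpr (by positivity)

lemma Nn_sq (n : N3) : Nn n ^ 2 = ∏ i, ((n i : ℝ) + 1) := Real.sq_sqrt (by positivity)

lemma Nn_le {m n : N3} {c : ℝ} (hc : 0 ≤ c) (h : ∀ i, (m i : ℝ) + 1 ≤ c ^ 2 * (n i + 1)) :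
    Nn m ≤ c ^ 3 * Nn n := by
  refine Real.sqrt_le_iff.mpr ⟨by have := Nn_pos n; positivity, ?_⟩
  rw [mul_pow, Nn_sq]
  calc ∏ i, ((m i : ℝ) + 1) ≤ ∏ i, c ^ 2 * ((n i : ℝ) + 1) :=
        Finset.prod_le_prod (fun i _ => by positivity) fun i _ => h i
    _ = _ := by
      rw [Finset.prod_mul_distrib]
      simp only [Finset.prod_const, Finset.card_univ, Fintype.card_fin]
      ring

lemma sqrt_card_bx_le (n : N3) : √((bx n).card) ≤ 3 * Nn n := by
  refine Real.sqrt_le_iff.mpr ⟨by have := Nn_pos n; positivity, ?_⟩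
  rw [mul_pow, Nn_sq, card_bx]
  push_cast
  have h0 : 0 ≤ ∏ i, ((n i : ℝ) + 1) := by positivity
  calc ∏ i, (2 * (n i : ℝ) + 1) ≤ ∏ i, 2 * ((n i : ℝ) + 1) :=
        Finset.prod_le_prod (fun i _ => by positivity) fun i _ => by linarith
    _ = 8 * ∏ i, ((n i : ℝ) + 1) := by
      rw [Finset.prod_mul_distrib]
      simp only [Finset.prod_const, Finset.card_univ, Fintype.card_fin]
      ring
    _ ≤ _ := by linarith

lemma Sp.l1_le {n : N3} {f : V} (H : Sp n f) : l1 f ≤ 3 * Nn n * ‖f‖ := by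
  exact (l1_le_card H.subset).trans (by gcongr; exact sqrt_card_bx_le n)

lemma Sp.norm_le {n : N3} {f : V} (H : Sp n f) {c : ℝ} (hc : 0 ≤ c)
    (hf : ∀ h, ‖f.coeff h‖ ≤ c) : ‖f‖ ≤ 3 * Nn n * c := by
  exact (norm_le_of_card H.subset hc hf).trans (by gcongr; exact sqrt_card_bx_le n)

lemma abs_pr_le3 {n : N3} {h : Z3} (hh : h ∈ bx n) (x : R3) : |pr h x| ≤ ∑ i, n i * |x i| := by
  rw [pr]
  refine (Finset.abs_sum_le_sum_abs _ _).trans (Finset.sum_le_sum fun i _ => ?_)
  rw [abs_mul]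
  gcongr
  exact_mod_cast mem_bx.mp hh i

lemma Sp.norm_wt_le {n : N3} {f : V} (hf : Sp n f) (ξ : R3) :
    ‖Dec.wt ξ f‖ ≤ Real.exp (∑ i, n i * |ξ i|) * ‖f‖ := by
  exact norm_mulc_le (Real.exp_pos _).le fun h hh => by
    rw [Complex.norm_real, Real.norm_of_nonneg (Real.exp_pos _).le]
    exact Real.exp_le_exp.mpr ((le_abs_self _).trans (abs_pr_le3 (hf.subset hh) ξ))

lemma Sp.l1_wt_le {n : N3} {f : V} (hf : Sp n f) (ξ : R3) :
    l1 (Dec.wt ξ f) ≤ Real.exp (∑ i, n i * |ξ i|) * l1 f := by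
  exact l1_le_of_coeff (Real.exp_pos _).le fun h => by
    by_cases hh : h ∈ bx n
    · rw [coeff_wt, norm_mul, Complex.norm_real, Real.norm_of_nonneg (Real.exp_pos _).le]
      gcongr
      exact (le_abs_self _).trans (abs_pr_le3 hh ξ)
    · simp [coeff_wt, hf h hh]

lemma Sp.norm_ev_sub_le {m : N3} {f : V} (hf : Sp m f) (x : R3) :
    ‖ev x f - ev 0 f‖ ≤ l1 f * ∑ i, m i * |x i| := by
  rw [ev_eq x hf.subset, ev_zero_eq hf.subset, ← Finset.sum_sub_distrib, l1_eq hf.subset,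
    Finset.sum_mul]
  refine (norm_sum_le _ _).trans (Finset.sum_le_sum fun h hh => ?_)
  rw [← mul_sub_one, norm_mul]
  gcongr
  exact (Real.norm_exp_I_mul_ofReal_sub_one_le).trans (abs_pr_le3 hh x)

/-- Tails are controlled by weighted norms. -/
lemma norm_tail_le (n : N3) (g : V) {u : Fin 3 → ℝ} (hu : ∀ i, 0 ≤ u i) :
    ‖g - pj n g‖ ≤ ∑ i, Real.exp (-(u i * (n i + 1))) *
      (‖wt (Pi.single i (u i)) g‖ + ‖wt (Pi.single i (-u i)) g‖) := by
  have hp : ∀ (h : Z3) (i : Fin 3) (v : ℝ), pr h (Pi.single i v) = h i * v := fun h i v => by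
    rw [pr, Finset.sum_eq_single i (fun j _ hj => by simp [hj]) (by simp)]
    simp
  have hw : ∀ (h : Z3) (i : Fin 3) (v : ℝ), ‖(wt (Pi.single i v) g).coeff h‖ =
      Real.exp (h i * v) * ‖g.coeff h‖ := fun h i v => by
    rw [coeff_wt, norm_mul, Complex.norm_real, Real.norm_of_nonneg (Real.exp_pos _).le, hp]
  set G : V := ∑ i, ((Real.exp (-(u i * (n i + 1))) : ℝ) : ℂ) •
    (av (wt (Pi.single i (u i)) g) + av (wt (Pi.single i (-u i)) g)) with hG
  have cG : ∀ h, G.coeff h = ((∑ i, Real.exp (-(u i * (n i + 1))) *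
      (Real.exp (h i * u i) * ‖g.coeff h‖ + Real.exp (h i * -u i) * ‖g.coeff h‖) : ℝ) : ℂ) :=
    fun h => by
      simp only [hG, Fin.sum_univ_three, AddMonoidAlgebra.coeff_add, AddMonoidAlgebra.coeff_smul,
        Finsupp.add_apply, Finsupp.smul_apply, coeff_av, hw, smul_eq_mul]
      push_cast
      ring
  have h1 : ‖g - pj n g‖ ≤ 1 * ‖G‖ := norm_le_of_coeff zero_le_one fun h => by
    rw [one_mul, cG, Complex.norm_real, Real.norm_of_nonneg (by positivity),
      AddMonoidAlgebra.coeff_sub, Finsupp.sub_apply, coeff_pj]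
    split_ifs with hh
    · rw [sub_self, norm_zero]; positivity
    · obtain ⟨i, hi⟩ : ∃ i, ¬|h i| ≤ n i := by simpa [mem_bx] using hh
      rw [sub_zero]
      refine le_trans ?_ (Finset.single_le_sum (f := fun i => Real.exp (-(u i * (n i + 1))) *
        (Real.exp (h i * u i) * ‖g.coeff h‖ + Real.exp (h i * -u i) * ‖g.coeff h‖))
        (fun _ _ => by positivity) (Finset.mem_univ i))
      have u0 := hu i
      have g0 := norm_nonneg (g.coeff h)
      have key : 1 ≤ Real.exp (-(u i * (n i + 1))) *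
          (Real.exp (h i * u i) + Real.exp (h i * -u i)) := by
        rw [mul_add, ← Real.exp_add, ← Real.exp_add]
        rw [abs_le] at hi
        rcases (by omega : (n i : ℤ) + 1 ≤ h i ∨ h i ≤ -(n i + 1)) with e | e
        · have e' : (n i : ℝ) + 1 ≤ h i := by exact_mod_cast e
          have := Real.one_le_exp (x := -(u i * (n i + 1)) + h i * u i) (by nlinarith)
          linarith [Real.exp_pos (-(u i * (n i + 1)) + h i * -u i)]
        · have e' : (h i : ℝ) ≤ -(n i + 1) := by exact_mod_cast e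
          have := Real.one_le_exp (x := -(u i * (n i + 1)) + h i * -u i) (by nlinarith)
          linarith [Real.exp_pos (-(u i * (n i + 1)) + h i * u i)]
      have := mul_le_mul_of_nonneg_right key g0
      linarith
  rw [one_mul] at h1
  refine h1.trans ((norm_sum_le _ _).trans (Finset.sum_le_sum fun i _ => ?_))
  rw [norm_smul, Complex.norm_real, Real.norm_of_nonneg (Real.exp_pos _).le]
  gcongr
  exact (norm_add_le _ _).trans (by rw [norm_av, norm_av])

/-! Real families, rotation, shifts -/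

lemma Rl.add {f g : V} (hf : Rl f) (hg : Rl g) : Rl (f + g) := by
  exact fun h => by simp [hf h, hg h]

lemma Rl.sub {f g : V} (hf : Rl f) (hg : Rl g) : Rl (f - g) := by
  exact fun h => by simp [hf h, hg h]

lemma Rl.smul {f : V} (hf : Rl f) (c : ℝ) : Rl ((c : ℂ) • f) := by
  exact fun h => by simp [hf h]

lemma Rl.sum {ι : Type} (s : Finset ι) {f : ι → V} (hf : ∀ i ∈ s, Rl (f i)) :
    Rl (∑ i ∈ s, f i) := by
  classical
  induction s using Finset.induction_on with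
  | empty => exact fun h => by simp
  | insert a s ha ih =>
    rw [Finset.sum_insert ha]
    exact (hf a (Finset.mem_insert_self _ _)).add
      (ih fun i hi => hf i (Finset.mem_insert_of_mem hi))

lemma Rl.mul {f g : V} (hf : Rl f) (hg : Rl g) : Rl (f * g) := by
  intro h
  rw [coeff_mul_eq g (subset_refl _), Complex.im_sum]
  exact Finset.sum_eq_zero fun k _ => by simp [hf k, hg (h - k)]

lemma Rl.pj {f : V} (hf : Rl f) (n : N3) : Rl (pj n f) := by
  intro h
  rw [coeff_pj]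
  split_ifs
  · exact hf h
  · simp

lemma Rl.mulr {f : V} (hf : Rl f) (d : Z3 → ℝ) : Rl (mulr d f) := by
  exact fun h => by simp [hf h]

lemma Rl.dag {f : V} (hf : Rl f) : Rl (dag f) := by
  exact fun h => by simp [hf (-h)]

lemma Rl.tau {f : V} (hf : Rl f) : Rl (tau f) := by
  exact fun h => by rw [Ell.tau, coeff_prm]; exact hf _

lemma rl_sh (k : Z3) : Rl (sh k) := by
  intro h
  simp only [sh, AddMonoidAlgebra.coeff_single, Finsupp.single_apply]
  split_ifs <;> simp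

lemma Rl.ev_zero {f : V} (hf : Rl f) : ev 0 f = ((ev 0 f).re : ℂ) := by
  refine Complex.ext (by simp) ?_
  rw [Complex.ofReal_im, ev_zero_eq (subset_refl _), Complex.im_sum]
  exact Finset.sum_eq_zero fun k _ => hf k

lemma Rl.inner_im {f g : V} (hf : Rl f) (hg : Rl g) : (⟪f, g⟫_ℂ).im = 0 := by
  rw [inner_eq _ (subset_refl _), Complex.im_sum]
  exact Finset.sum_eq_zero fun k _ => by simp [hf k, hg k]

lemma Rl.ev_neg {f : V} (hf : Rl f) (x : R3) : ev (-x) f = conj (ev x f) := by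
  rw [ev_eq _ (subset_refl _), ev_eq _ (subset_refl _), map_sum]
  refine Finset.sum_congr rfl fun k _ => ?_
  rw [map_mul, Complex.conj_eq_iff_im.mpr (hf k), ← Complex.exp_conj, pr_neg']
  simp

lemma Rl.even {p : V} (hp : Rl p) (h : Z3) : (Dec.dag p * p).coeff (-h) = (Dec.dag p * p).coeff h := by
  have e : Dec.dag (Dec.dag p * p) = Dec.dag p * p := by rw [map_mul, dag_dag, mul_comm]
  have h1 := congrArg (fun f : V => f.coeff h) e
  simp only [coeff_dag] at h1
  rw [← h1, Complex.conj_eq_iff_im.mpr ((hp.dag.mul hp) _)]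

lemma coeff_tau (f : V) (h : Z3) : (tau f).coeff h = f.coeff ![h 1, h 2, h 0] := coeff_prm _ _ _

lemma norm_tau (f : V) : ‖tau f‖ = ‖f‖ := norm_prm _ _

lemma l1_tau (f : V) : l1 (tau f) = l1 f := l1_prm _ _

lemma tau_add (f g : V) : tau (f + g) = tau f + tau g := map_add (prm tauE) f g

lemma tau_sub (f g : V) : tau (f - g) = tau f - tau g := map_sub (prm tauE) f g

lemma tau_smul (c : ℂ) (f : V) : tau (c • f) = c • tau f := map_smul (prm tauE) c f

lemma tau_mul (f g : V) : tau (f * g) = tau f * tau g := map_mul (prm tauE) f g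

lemma ev_tau (x : R3) (f : V) : ev x (tau f) = ev ![x 1, x 2, x 0] f := by
  induction f using AddMonoidAlgebra.induction_linear with
  | zero => simp [tau]
  | add f g hf hg => rw [tau_add, map_add, map_add, hf, hg]
  | single k c =>
    have e : tau (AddMonoidAlgebra.single k c) = AddMonoidAlgebra.single (rot3 k) c := by
      ext h
      rw [coeff_tau]
      simp only [AddMonoidAlgebra.coeff_single, Finsupp.single_apply]
      refine if_congr ⟨fun e => ?_, fun e => ?_⟩ rfl rfl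
      · subst e; ext i; fin_cases i <;> rfl
      · subst e; ext i; fin_cases i <;> rfl
    rw [e, ev_single, ev_single]
    congr 4
    simp only [pr, rot3, Fin.sum_univ_three, Matrix.cons_val]
    ring

lemma ev_zero_tau (f : V) : ev 0 (tau f) = ev 0 f := ev_zero_prm _ _

lemma tau_sh (k : Z3) : tau (sh k) = sh (rot3 k) := by
  ext h
  rw [coeff_tau]
  simp only [sh, AddMonoidAlgebra.coeff_single, Finsupp.single_apply]
  refine if_congr ⟨fun e => ?_, fun e => ?_⟩ rfl rfl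
  · subst e; ext i; fin_cases i <;> rfl
  · subst e; ext i; fin_cases i <;> rfl

lemma coeff_sh_mul (k : Z3) (g : V) (h : Z3) : (sh k * g).coeff h = g.coeff (h - k) := by
  rw [sh, coeff_single_mul, one_mul]

lemma norm_sh_mul (k : Z3) (f : V) : ‖sh k * f‖ = ‖f‖ := norm_single_mul k f

lemma l1_sh_mul (k : Z3) (f : V) : l1 (sh k * f) = l1 f := l1_single_mul k f

lemma ev_zero_sh (k : Z3) : ev 0 (sh k) = 1 := by simp [sh, ev_single]

/-! The ground state -/

lemma coeff_ph (n : N3) (h : Z3) : (ph n).coeff h =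
    if h ∈ bx n then (((Nn n)⁻¹ * ∏ i, Real.cos (th (n i) * h i) : ℝ) : ℂ) else 0 := coeff_mk _ _ _

lemma coeff_ph' (n : N3) (h : Z3) :
    (ph n).coeff h = (((Nn n)⁻¹ * ∏ i, cb (n i) (h i) : ℝ) : ℂ) := by
  rw [coeff_ph]
  split_ifs with hh
  · simp only [cb_of_le (mem_bx.mp hh _)]
  · obtain ⟨i, hi⟩ : ∃ i, ¬|h i| ≤ n i := by simpa [mem_bx] using hh
    rw [Finset.prod_eq_zero (Finset.mem_univ i) (cb_of_gt hi)]; simp

lemma sp_ph (n : N3) : Sp n (ph n) := sp_mk _ _

lemma rl_ph (n : N3) : Rl (ph n) := by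
  exact fun h => by rw [coeff_ph', Complex.ofReal_im]

lemma norm_coeff_ph_le (n : N3) (h : Z3) : ‖(ph n).coeff h‖ ≤ (Nn n)⁻¹ := by
  have := Nn_pos n
  rw [coeff_ph]
  split_ifs
  · rw [Complex.norm_real, norm_mul, Real.norm_of_nonneg (by positivity), norm_prod]
    exact mul_le_of_le_one_right (by positivity)
      (Finset.prod_le_one (fun _ _ => norm_nonneg _) fun _ _ => Real.abs_cos_le_one _)
  · simp; positivity

lemma norm_ph (n : N3) : ‖ph n‖ = 1 := by
  refine (pow_left_inj₀ (norm_nonneg _) zero_le_one two_ne_zero).mp ?_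
  rw [norm_sq_eq (sp_ph n).subset]
  have : ∀ h ∈ bx n, ‖(ph n).coeff h‖ ^ 2 = (Nn n ^ 2)⁻¹ * ∏ i, Real.cos (th (n i) * h i) ^ 2 :=
    fun h hh => by
      rw [coeff_ph, if_pos hh, Complex.norm_real, Real.norm_eq_abs, sq_abs, mul_pow,
        Finset.prod_pow, inv_pow]
  rw [Finset.sum_congr rfl this, ← Finset.mul_sum, bx,
    ← Finset.prod_univ_sum (fun i => Finset.Icc (-(n i : ℤ)) (n i))
      (fun i k => Real.cos (th (n i) * k) ^ 2)]
  simp only [sum_cos_sq, Nn_sq]
  rw [inv_mul_cancel₀ (by positivity), one_pow]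

lemma dag_ph (n : N3) : dag (ph n) = ph n := by
  ext h
  simp only [coeff_dag, coeff_ph, neg_mem_bx]
  split_ifs
  · rw [Complex.conj_ofReal]; simp
  · simp

lemma ev_zero_ph (n : N3) : ev 0 (ph n) = (l1 (ph n) : ℂ) := by
  rw [ev_zero_eq (subset_refl _), l1]
  push_cast
  refine Finset.sum_congr rfl fun h _ => ?_
  rw [coeff_ph]
  split_ifs with hh
  · rw [Complex.norm_real, Real.norm_of_nonneg]
    exact mul_nonneg (inv_pos.mpr (Nn_pos n)).le (Finset.prod_nonneg fun i _ =>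
      cos_th_nonneg ((mem_bx.mp hh i).trans (by omega)))
  · simp

lemma le_l1_ph (n : N3) : Nn n ≤ l1 (ph n) := by
  have h1 : 1 ≤ (Nn n)⁻¹ * l1 (ph n) := by
    have := norm_inner_le_l1 (g := ph n) (norm_coeff_ph_le n)
    rw [inner_self_eq_norm_sq_to_K, norm_ph] at this
    simpa using this
  have := Nn_pos n
  rwa [inv_mul_eq_div, le_div_iff₀ this, one_mul] at h1

lemma l1_ph_le (n : N3) : l1 (ph n) ≤ 3 * Nn n := by
  simpa [norm_ph] using (sp_ph n).l1_le

lemma norm_mul_ph_sub {m n : N3} (hmn : ∀ i, m i ≤ n i) {q : V} (hq : Sp m q) :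
    ‖q * ph n - ev 0 q • ph n‖ ≤ l1 q * (10 * ∑ i, m i * th (n i)) := by
  have N0 := Nn_pos n
  have t0 := fun i => th_pos (n i)
  have S0 : 0 ≤ ∑ i, m i * th (n i) := Finset.sum_nonneg fun i _ => by have := t0 i; positivity
  have N2 : Nn (n + n) ≤ (29 / 20) ^ 3 * Nn n := Nn_le (by norm_num) fun i => by
    have : (0 : ℝ) ≤ n i := Nat.cast_nonneg _
    simp only [Pi.add_apply]
    push_cast
    linarith
  have shift : ∀ k ∈ bx m, ‖AddMonoidAlgebra.single k 1 * ph n - ph n‖ ≤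
      10 * ∑ i, m i * th (n i) := fun k hk => by
    have hs : Sp (n + n) (AddMonoidAlgebra.single k 1 * ph n - ph n) :=
      (((sp_sh hk).mul (sp_ph n)).mono fun i => by
        have := hmn i
        simp only [Pi.add_apply]; omega).sub ((sp_ph n).mono fun i => by simp)
    have := hs.norm_le (c := (Nn n)⁻¹ * ∑ i, m i * th (n i)) (by positivity) fun h => by
      rw [AddMonoidAlgebra.coeff_sub, Finsupp.sub_apply, coeff_single_mul, one_mul, coeff_ph',
        coeff_ph', ← Complex.ofReal_sub, Complex.norm_real, ← mul_sub, norm_mul,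
        Real.norm_of_nonneg (by positivity)]
      gcongr
      refine (abs_prod3_sub (fun _ => Real.abs_cos_le_one _)
        fun _ => Real.abs_cos_le_one _).trans ?_
      exact Finset.sum_le_sum fun i _ => (cb_lip _ _ _).trans (by
        have : |(k i : ℝ)| ≤ m i := by exact_mod_cast mem_bx.mp hk i
        simp only [Pi.sub_apply, Int.cast_sub, sub_sub_cancel_left, abs_neg]
        nlinarith [t0 i])
    refine this.trans ?_
    calc 3 * Nn (n + n) * ((Nn n)⁻¹ * ∑ i, m i * th (n i))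
        ≤ 3 * ((29 / 20) ^ 3 * Nn n) * ((Nn n)⁻¹ * ∑ i, m i * th (n i)) := by gcongr
      _ = 3 * (29 / 20) ^ 3 * ∑ i, m i * th (n i) := by field_simp
      _ ≤ _ := by linarith
  rw [mul_eq_sum, ev_zero_eq (subset_refl _), Finset.sum_smul, ← Finset.sum_sub_distrib, l1,
    Finset.sum_mul]
  refine (norm_sum_le _ _).trans (Finset.sum_le_sum fun k hk => ?_)
  rw [← smul_sub, norm_smul]
  gcongr
  exact shift k (hq.subset hk)

lemma corner_mem_cube3 {n : N3} {x : R3} (hx : ∀ i, |x i| = th (n i)) : x ∈ cube := by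
  have := fun i => th_le (n i)
  have := Real.pi_pos
  exact ⟨fun i => by linarith [neg_abs_le (x i), hx i, th_le (n i)],
    fun i => by linarith [le_abs_self (x i), hx i, th_le (n i)]⟩

/-- The component along the ground state is an average over the corner frequencies. -/
lemma norm_inner_ph_le {n : N3} (z : V) {S : ℝ}
    (hS : ∀ x : R3, (∀ i, |x i| = th (n i)) → ‖ev x z‖ ≤ S) :
    ‖⟪ph n, z⟫_ℂ‖ ≤ (Nn n)⁻¹ * (S + l1 (z - pj n z)) := by
  classical
  have t0 := fun i => th_pos (n i)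
  have N0 := Nn_pos n
  set C : Finset R3 := Fintype.piFinset fun i => ({th (n i), -th (n i)} : Finset ℝ) with hC
  have ne : ∀ i, th (n i) ≠ -th (n i) := fun i => by linarith [t0 i]
  have card : C.card = 8 := by simp [hC, Finset.card_pair (ne _)]
  have pc : ∀ h : Z3, ((∏ i, Real.cos (th (n i) * h i) : ℝ) : ℂ) =
      8⁻¹ * ∑ x ∈ C, Complex.exp (I * (pr h x : ℝ)) := fun h => by
    have : ∀ x : R3, Complex.exp (I * (pr h x : ℝ)) = ∏ i, Complex.exp (I * (h i * x i : ℝ)) :=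
      fun x => by rw [← Complex.exp_sum, pr]; push_cast; rw [Finset.mul_sum]
    simp only [this]
    rw [hC, ← Finset.prod_univ_sum (fun i => ({th (n i), -th (n i)} : Finset ℝ))
      (fun i (x : ℝ) => Complex.exp (I * (h i * x : ℝ)))]
    simp only [Finset.sum_pair (ne _), Fin.prod_univ_three]
    push_cast
    simp only [Complex.cos]
    ring_nf
  have e : ⟪ph n, z⟫_ℂ = ((Nn n)⁻¹ : ℝ) * (8⁻¹ * ∑ x ∈ C, ev x (pj n z)) := by
    rw [inner_eq _ (sp_ph n).subset]
    simp only [ev_eq _ (sp_pj n z).subset]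
    rw [Finset.sum_comm, Finset.mul_sum, Finset.mul_sum]
    refine Finset.sum_congr rfl fun h hh => ?_
    rw [coeff_ph, if_pos hh, Complex.conj_ofReal, Complex.ofReal_mul, pc, coeff_pj, if_pos hh,
      ← Finset.mul_sum]
    ring
  rw [e, norm_mul, Complex.norm_real, Real.norm_of_nonneg (by positivity), norm_mul]
  gcongr
  have : ∀ x ∈ C, ‖ev x (pj n z)‖ ≤ S + l1 (z - pj n z) := fun x hx => by
    rw [show pj n z = z - (z - pj n z) by abel, map_sub]
    refine (norm_sub_le _ _).trans (add_le_add (hS x fun i => ?_) ?_)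
    · have := Fintype.mem_piFinset.mp hx i
      simp only [Finset.mem_insert, Finset.mem_singleton] at this
      rcases this with h | h <;> simp [h, abs_of_pos (t0 i)]
    · simpa using norm_ev_le x (z - pj n z)
  have h2 := (norm_sum_le _ _).trans (Finset.sum_le_card_nsmul C _ _ this)
  rw [card, nsmul_eq_mul] at h2
  have : ‖(8 : ℂ)⁻¹‖ = 8⁻¹ := by simp
  rw [this]
  push_cast at h2
  linarith

lemma inner_ph_dl (n : N3) : ⟪ph n, dl⟫_ℂ = (((Nn n)⁻¹ : ℝ) : ℂ) := by
  rw [← inner_conj_symm, dl, inner_single, coeff_ph, if_pos (zero_mem_bx n)]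
  simp

/-! Layers -/

lemma Lay.l1_le {n : N3} {l : ℝ} {v : Z3 → ℝ} (h : Lay n l v) {y : V} (hy : Sp n y) :
    l1 (mulr v y) ≤ l * Nn n * ‖y‖ := by
  have N0 := Nn_pos n
  have l0 := h.l0
  refine (pow_le_pow_iff_left₀ (l1_nonneg _) (by positivity) two_ne_zero).mp ?_
  rw [l1_eq (hy.mulr v).subset, mul_pow, norm_sq_eq hy.subset]
  have e : ∀ k, ‖(mulr v y).coeff k‖ = v k * ‖y.coeff k‖ := fun k => by
    rw [coeff_mulr, norm_mul, Complex.norm_real, Real.norm_of_nonneg (h.nonneg k)]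
  simp only [e]
  refine (Finset.sum_mul_sq_le_sq_mul_sq _ _ _).trans ?_
  exact mul_le_mul_of_nonneg_right h.small (Finset.sum_nonneg fun _ _ => by positivity)

lemma Lay.norm_le {n : N3} {l : ℝ} {v : Z3 → ℝ} (h : Lay n l v) {y : V} (hy : Sp n y) {c : ℝ}
    (hc : ∀ k, ‖y.coeff k‖ ≤ c) : ‖mulr v y‖ ≤ l * Nn n * c := by
  have N0 := Nn_pos n
  have l0 := h.l0
  have c0 : 0 ≤ c := (norm_nonneg _).trans (hc 0)
  refine (pow_le_pow_iff_left₀ (norm_nonneg _) (by positivity) two_ne_zero).mp ?_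
  rw [norm_sq_eq (hy.mulr v).subset, mul_pow]
  refine le_trans ?_ (mul_le_mul_of_nonneg_right h.small (by positivity))
  rw [Finset.sum_mul]
  refine Finset.sum_le_sum fun k _ => ?_
  rw [coeff_mulr, norm_mul, Complex.norm_real, Real.norm_of_nonneg (h.nonneg k), mul_pow]
  gcongr
  exact hc k

lemma Lay.re_inner {n : N3} {l : ℝ} {v : Z3 → ℝ} (h : Lay n l v) (y : V) :
    0 ≤ (⟪y, mulr v y⟫_ℂ).re := by
  simpa using re_inner_mulr_ge (c := 0) h.nonneg y

lemma Lay.mono {n : N3} {l l' : ℝ} {v : Z3 → ℝ} (h : Lay n l v) (hl : l ≤ l') : Lay n l' v := by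
  have N0 := Nn_pos n
  have l0 := h.l0
  exact ⟨h.nonneg, l0.trans hl, h.small.trans (by gcongr)⟩

/-! Derivative rules and barriers -/

section rules

variable {f : ℝ → V} {f' : V} {t : ℝ}

lemma HD.sp {n : N3} (h : HD f f' t) (ht : 0 ≤ t) (hs : ∀ t, Sp n (f t)) : Sp n f' := by
  exact fun k hk => (h.coeff k).uniq (by
    simpa [hs _ k hk] using hasDerivWithinAt_const t (Ici 0) (0 : ℂ)) ht

lemma HD.pj (h : HD f f' t) (n : N3) : HD (fun t => pj n (f t)) (pj n f') t := by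
  exact Dec.HD.linc (Ell.pj n) (C := 1) (fun v => by simpa using norm_pj_le n v) h

lemma HD.tau (h : HD f f' t) : HD (fun t => tau (f t)) (tau f') t := Dec.HD.prm h tauE

lemma HD.ev3 {n : N3} (h : HD f f' t) (ht : 0 ≤ t) (hs : ∀ t, Sp n (f t)) (x : R3) :
    HD (fun t => ev x (f t)) (ev x f') t := by
  have N0 := Nn_pos n
  have := Dec.HD.linc ((Dec.ev x).toLinearMap.comp (Ell.pj n)) (C := 3 * Nn n) (fun v =>
    ((norm_ev_le x _).trans (sp_pj n v).l1_le).trans (by gcongr; exact norm_pj_le n v)) h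
  simpa [(hs _).pj_eq, (HD.sp h ht hs).pj_eq] using this

lemma HD.wt3 {n : N3} (h : HD f f' t) (ht : 0 ≤ t) (hs : ∀ t, Sp n (f t)) (ξ : R3) :
    HD (fun t => wt ξ (f t)) (wt ξ f') t := by
  have := Dec.HD.linc ((Dec.wt ξ).comp (Ell.pj n)) (C := Real.exp (∑ i, n i * |ξ i|)) (fun v =>
    ((sp_pj n v).norm_wt_le ξ).trans (by gcongr; exact norm_pj_le n v)) h
  simpa [(hs _).pj_eq, (HD.sp h ht hs).pj_eq] using this

lemma HD.const_mul' (h : HD f f' t) (q : V) : HD (fun t => q * f t) (q * f') t := by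
  simpa only [mul_comm q] using h.mul_const' q

end rules

/-- Mean value inequality for the sum norm. -/
theorem l1_sub_le_of_deriv {n : N3} {f : ℝ → V} {a b K : ℝ} (ha : 0 ≤ a) (hs : ∀ t, Sp n (f t))
    (H : ∀ t ∈ Icc a b, ∃ D, HD f D t ∧ l1 D ≤ K) :
    ∀ t ∈ Icc a b, l1 (f t - f a) ≤ K * (t - a) := by
  intro t ht
  set s : V := mk (bx n) fun h => (f t - f a).coeff h / ‖(f t - f a).coeff h‖ with hsd
  have s1 : ∀ h, ‖s.coeff h‖ ≤ 1 := fun h => by
    rw [hsd, coeff_mk]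
    split_ifs
    · rw [norm_div, Complex.norm_real, norm_norm]
      exact div_self_le_one _
    · simp
  have e : (⟪s, f t - f a⟫_ℂ).re = l1 (f t - f a) := by
    rw [inner_eq' _ ((hs t).sub (hs a)).subset, l1_eq ((hs t).sub (hs a)).subset, Complex.re_sum]
    refine Finset.sum_congr rfl fun h hh => ?_
    rw [hsd, coeff_mk, if_pos hh]
    generalize (f t - f a).coeff h = z
    rw [map_div₀, Complex.conj_ofReal, div_mul_eq_mul_div, Complex.conj_mul']
    norm_cast
    by_cases hz : ‖z‖ = 0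
    · simp [hz]
    · field_simp
  have := le_of_deriv_le (F := fun u => (⟪s, f u⟫_ℂ).re)
    (G := fun u => (⟪s, f a⟫_ℂ).re + K * (u - a)) (b := b) ha (by simp) (fun u hu => by
      obtain ⟨D, h1, h2⟩ := H u hu
      refine ⟨_, _, Dec.HD.re_inner (hasDerivWithinAt_const u _ s) h1,
        (((hasDerivWithinAt_id u _).sub_const a).const_mul K).const_add _, ?_⟩
      have := (Complex.re_le_norm _).trans (norm_inner_le_l1 (g := D) s1)
      simp only [inner_zero_left, Complex.zero_re]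
      linarith) t ht
  rw [← e, inner_sub_right, Complex.sub_re]
  linarith

/-- Barrier for a family all but finitely many members of which are harmless. -/
theorem family_barrier' {ι : Type} {H : ι → ℝ → ℝ} {a b : ℝ} {s : Set ι} (fin : s.Finite)
    (out : ∀ i, i ∉ s → ∀ t ∈ Icc a b, H i t ≤ 0)
    (hc : ∀ i, ContinuousOn (H i) (Icc a b)) (h0 : ∀ i, H i a ≤ 0)
    (step : ∀ t ∈ Ico a b, (∀ u ∈ Icc a t, ∀ i, H i u ≤ 0) → ∀ i, H i t = 0 →
      ∃ D < 0, HasDerivWithinAt (H i) D (Ici t) t) :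
    ∀ t ∈ Icc a b, ∀ i, H i t ≤ 0 := by
  have := fin.to_subtype
  have key := family_barrier (ι := s) (H := fun i => H i) (a := a) (b := b) (fun i => hc i)
    (fun i => h0 i) fun t ht past i e => step t ht (fun u hu j => by
      by_cases hj : j ∈ s
      · exact past u hu ⟨j, hj⟩
      · exact out j hj u ⟨hu.1, hu.2.trans ht.2.le⟩) i e
  intro t ht i
  by_cases hi : i ∈ s
  · exact key t ht ⟨i, hi⟩
  · exact out i hi t ht

/-- A function which crosses zero upwards has no negative derivative there. -/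
lemma not_cross {H : ℝ → ℝ} {c D : ℝ} (e : H c = 0) (fr : ∃ᶠ t in 𝓝[>] c, 0 < H t)
    (hD : HasDerivWithinAt H D (Ici c) c) : 0 ≤ D := by
  by_contra D0
  rw [not_le] at D0
  have h1 : Tendsto (slope H c) (𝓝[>] c) (𝓝 D) := by
    have := hasDerivWithinAt_iff_tendsto_slope.mp hD
    rwa [Ici_sdiff_left] at this
  have h2 := (h1.eventually (gt_mem_nhds D0)).and self_mem_nhdsWithin
  obtain ⟨s, s1, s2, s3⟩ := (fr.and_eventually h2).exists
  rw [slope_def_field, e, sub_zero] at s2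
  exact absurd (div_pos s1 (sub_pos.mpr s3)) (not_lt.mpr s2.le)

/-- Barrier for the norm of one function. -/
theorem bar1 {E : Type} [NormedAddCommGroup E] [InnerProductSpace ℂ E] [NormedSpace ℝ E]
    {a : ℝ → E} {U : ℝ → ℝ} {t1 t2 : ℝ} (h0 : 0 ≤ t1) (init : ‖a t1‖ ≤ U t1)
    (H : ∀ t ∈ Icc t1 t2, 0 < U t ∧ ∃ a' U', HD a a' t ∧ HD U U' t ∧
      (‖a t‖ = U t → (⟪a t, a'⟫_ℂ).re < U t * U')) :
    ∀ t ∈ Icc t1 t2, ‖a t‖ ≤ U t := by
  intro t ht
  have := barrier (F := fun t => ‖a t‖ ^ 2) (G := fun t => U t ^ 2) (b := t2) h0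
    (by have := norm_nonneg (a t1); gcongr) (fun s hs => by
      obtain ⟨u0, a', U', ha, hU, hlt⟩ := H s hs
      refine ⟨_, _, ha.normsq, hU.fun_pow 2, fun e => ?_⟩
      have := hlt ((pow_left_inj₀ (norm_nonneg _) u0.le two_ne_zero).mp e)
      simp only [Nat.cast_ofNat, Nat.add_one_sub_one, pow_one]
      linarith) t ht
  exact (pow_le_pow_iff_left₀ (norm_nonneg _) (H t ht).1.le two_ne_zero).mp this

/-- Barrier for the norm of a pair. -/
theorem bar2 {E : Type} [NormedAddCommGroup E] [InnerProductSpace ℂ E] [NormedSpace ℝ E]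
    {a b : ℝ → E} {U : ℝ → ℝ} {t1 t2 : ℝ} (h0 : 0 ≤ t1)
    (init : ‖a t1‖ ^ 2 + ‖b t1‖ ^ 2 ≤ U t1 ^ 2)
    (H : ∀ t ∈ Icc t1 t2, ∃ a' b' U', HD a a' t ∧ HD b b' t ∧ HD U U' t ∧
      (‖a t‖ ^ 2 + ‖b t‖ ^ 2 = U t ^ 2 →
        (⟪a t, a'⟫_ℂ).re + (⟪b t, b'⟫_ℂ).re < U t * U')) :
    ∀ t ∈ Icc t1 t2, ‖a t‖ ^ 2 + ‖b t‖ ^ 2 ≤ U t ^ 2 := by
  exact barrier (F := fun t => ‖a t‖ ^ 2 + ‖b t‖ ^ 2) (G := fun t => U t ^ 2) h0 init
    fun s hs => by
      obtain ⟨a', b', U', ha, hb, hU, hlt⟩ := H s hs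
      refine ⟨_, _, ha.normsq.fun_add hb.normsq, hU.fun_pow 2, fun e => ?_⟩
      have := hlt e
      simp only [Nat.cast_ofNat, Nat.add_one_sub_one, pow_one]
      linarith

lemma nr_sq (B C : V) : nr B C ^ 2 = ‖B‖ ^ 2 + ‖C‖ ^ 2 := Real.sq_sqrt (by positivity)

lemma nr_nonneg (B C : V) : 0 ≤ nr B C := Real.sqrt_nonneg _

lemma le_nr_1 (B C : V) : ‖B‖ ≤ nr B C := Real.le_sqrt_of_sq_le (by linarith [sq_nonneg ‖C‖])

lemma le_nr_2 (B C : V) : ‖C‖ ≤ nr B C := Real.le_sqrt_of_sq_le (by linarith [sq_nonneg ‖B‖])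

end

end Pool.Agent.Work.MP_6bf1e5_an.Ell
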