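import Pool.Agent.Work.MP_6bf1e5_an.Ell.Arith

/-!
The carriers of the clusters and their exact triads.
-/

open Set Complex
open scoped InnerProductSpace ComplexConjugate Classical
open Pool.Agent.Work.MP_6bf1e5_an.B
open Pool.Agent.Work.MP_6bf1e5_an.Dec

namespace Pool.Agent.Work.MP_6bf1e5_an.Ell.Pd

noncomputable section

/-- The carriers. -/
def car (G : Geo) (J i : ℕ) : Z3 := ![i * G.P J, G.P J, 0]

/-- The position of a family on its ladder. -/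
def ci (G : Geo) : Fam → ℕ
  | .b _ => 0
  | .c _ => G.La
  | .y _ i => i

/-- The rotation from the ladder to the standard position of the family. -/
def cg : Fam → Gp
  | .b _ => (2, 1)
  | _ => g1

/-- An unordered pair. -/
def UP {X : Type} (x y a b : X) : Prop := (x = a ∧ y = b) ∨ (x = b ∧ y = a)

variable {G : Geo}

/-- The normalised carriers. -/
def carU (i : ℕ) : Z3 := ![i, 1, 0]

lemma car_gz (g : Gp) (J i : ℕ) (l : Fin 3) :
    gz g (car G J i) l = G.P J * gz g (carU i) l := by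
  simp only [gz]
  generalize l - g.1 = r
  fin_cases r <;> simp [car, carU] <;> ring

lemma car_cases (g : Gp) (i : ℕ) :
    (g = (0, 1) ∧ gz g (carU i) 0 = i ∧ gz g (carU i) 1 = 1 ∧ gz g (carU i) 2 = 0) ∨
    (g = (0, -1) ∧ gz g (carU i) 0 = -i ∧ gz g (carU i) 1 = -1 ∧ gz g (carU i) 2 = 0) ∨
    (g = (1, 1) ∧ gz g (carU i) 0 = 0 ∧ gz g (carU i) 1 = i ∧ gz g (carU i) 2 = 1) ∨
    (g = (1, -1) ∧ gz g (carU i) 0 = 0 ∧ gz g (carU i) 1 = -i ∧ gz g (carU i) 2 = -1) ∨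
    (g = (2, 1) ∧ gz g (carU i) 0 = 1 ∧ gz g (carU i) 1 = 0 ∧ gz g (carU i) 2 = i) ∨
    (g = (2, -1) ∧ gz g (carU i) 0 = -1 ∧ gz g (carU i) 1 = 0 ∧ gz g (carU i) 2 = -i) := by
  obtain ⟨s, u⟩ := g
  have e01 : (0 : Fin 3) - 1 = 2 := by decide
  have e02 : (0 : Fin 3) - 2 = 1 := by decide
  have e12 : (1 : Fin 3) - 2 = 2 := by decide
  have e21 : (2 : Fin 3) - 1 = 1 := by decide
  have hs : s = 0 ∨ s = 1 ∨ s = 2 := by revert s; decide
  rcases Int.units_eq_one_or u with rfl | rfl <;> rcases hs with rfl | rfl | rfl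
  · exact Or.inl ⟨rfl, by simp [gz, carU]⟩
  · exact Or.inr (Or.inr (Or.inl ⟨rfl, by simp [gz, carU, e21]⟩))
  · exact Or.inr (Or.inr (Or.inr (Or.inr (Or.inl ⟨rfl, by simp [gz, carU, e12]⟩))))
  · exact Or.inr (Or.inl ⟨rfl, by simp [gz, carU]⟩)
  · exact Or.inr (Or.inr (Or.inr (Or.inl ⟨rfl, by simp [gz, carU, e21]⟩)))
  · exact Or.inr (Or.inr (Or.inr (Or.inr (Or.inr ⟨rfl, by simp [gz, carU, e12]⟩))))

lemma car_one (g : Gp) (i : ℕ) : ∃ l, |gz g (carU i) l| = 1 := by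
  rcases car_cases g i with h | h | h | h | h | h
  · exact ⟨1, by simp [h.2.2.1]⟩
  · exact ⟨1, by simp [h.2.2.1]⟩
  · exact ⟨2, by simp [h.2.2.2]⟩
  · exact ⟨2, by simp [h.2.2.2]⟩
  · exact ⟨0, by simp [h.2.1]⟩
  · exact ⟨0, by simp [h.2.1]⟩

lemma car_bd {L i : ℕ} (hL : 1 ≤ L) (hi : i ≤ L) (g : Gp) (l : Fin 3) :
    |gz g (carU i) l| ≤ L := by
  have hl : l = 0 ∨ l = 1 ∨ l = 2 := by revert l; decide
  rw [abs_le]
  rcases car_cases g i with h | h | h | h | h | h <;> obtain ⟨-, h0, h1, h2⟩ := h <;>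
    rcases hl with rfl | rfl | rfl <;> omega

lemma car_P_pos (J : ℕ) : 0 < G.P J := by
  rw [P_eq]
  exact lt_of_lt_of_le (by norm_num) (n_pos G _)

lemma car_La : 3 ≤ G.La := le_trans (by norm_num) (La_big G)

lemma car_kk : 10 ≤ G.kk := le_trans (by norm_num) (kk_big G)

lemma car_P_mono {J J' : ℕ} (h : J ≤ J') : G.P J ≤ G.P J' := by
  rw [P_eq, P_eq]
  exact n_mono G (by omega)

lemma car_P_dvd {J J' : ℕ} (h : J ≤ J') : G.P J ∣ G.P J' := by
  induction J', h using Nat.le_induction with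
  | base => exact dvd_rfl
  | succ k _ ih => rw [P_succ]; exact Dvd.dvd.mul_left ih _

lemma car_dvd {J J' : ℕ} (h : J ≤ J') (g : Gp) (i : ℕ) (l : Fin 3) :
    (G.P J : ℤ) ∣ gz g (car G J' i) l := by
  rw [car_gz]
  exact Dvd.dvd.mul_right (Int.natCast_dvd_natCast.2 (car_P_dvd h)) _

lemma car_not_dvd (g : Gp) (J i : ℕ) : ¬ ∀ l, (G.P (J + 1) : ℤ) ∣ gz g (car G J i) l := by
  intro H
  obtain ⟨l, hl⟩ := car_one g i
  have h1 := (dvd_abs _ _).2 (H l)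
  rw [car_gz, abs_mul, hl, mul_one, Nat.abs_cast, Int.natCast_dvd_natCast] at h1
  have h2 := Nat.le_of_dvd (car_P_pos J) h1
  have h3 := car_La (G := G)
  have h4 := car_P_pos (G := G) J
  rw [P_succ] at h2
  nlinarith

lemma ctr_eq (F : Fam) : F.ctr G = gz (cg F) (car G F.ix (ci G F)) := by
  have e02 : (0 : Fin 3) - 2 = 1 := by decide
  have e12 : (1 : Fin 3) - 2 = 2 := by decide
  cases F with
  | b j =>
    ext l
    fin_cases l <;> simp [Fam.ctr, cg, ci, Fam.ix, gz, car, e12]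
  | c j =>
    simp only [Fam.ctr, cg, ci, Fam.ix, gz_g1, car, P_succ]
    push_cast
    rfl
  | y j i => simp only [Fam.ctr, cg, ci, Fam.ix, gz_g1, car]

lemma ci_le {F : Fam} (hF : F.ok G) : ci G F ≤ G.La := by
  cases F with
  | b j => exact Nat.zero_le _
  | c j => exact le_rfl
  | y j i => exact hF.2

lemma sz_le (F : Fam) : F.sz G ≤ G.n (F.ix + 1) := by
  cases F with
  | b j => exact n_mono G (Nat.le_succ j)
  | c j => exact le_rfl
  | y j i => exact le_rfl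

/-- Some coordinate of a carrier is at least `P J`, all are at most `P (J + 1)`. -/
lemma car_size {J i : ℕ} (hi : i ≤ G.La) (g : Gp) :
    (∃ l, (G.P J : ℤ) ≤ |gz g (car G J i) l|) ∧ ∀ l, |gz g (car G J i) l| ≤ G.P (J + 1) := by
  constructor
  · obtain ⟨l, hl⟩ := car_one g i
    exact ⟨l, by rw [car_gz, abs_mul, hl, mul_one, Nat.abs_cast]⟩
  · intro l
    have h := car_bd (le_trans (by norm_num) (car_La (G := G))) hi g l
    rw [car_gz, abs_mul, Nat.abs_cast, P_succ]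
    push_cast
    rw [mul_comm]
    exact mul_le_mul_of_nonneg_right h (Nat.cast_nonneg _)

lemma car_small_unique {i i' : ℕ} {g g' : Gp}
    (H : ∀ l, gz g (carU i) l = gz g' (carU i') l) : i = i' ∧ g = g' := by
  have H0 := H 0
  have H1 := H 1
  have H2 := H 2
  rcases car_cases g i with h | h | h | h | h | h <;> obtain ⟨rfl, p0, p1, p2⟩ := h <;>
    rcases car_cases g' i' with h | h | h | h | h | h <;> obtain ⟨rfl, b0, b1, b2⟩ := h <;>
    first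
      | omega
      | exact ⟨by omega, rfl⟩

theorem car_unique {J J' i i' : ℕ} (hi : i ≤ G.La) (hi' : i' ≤ G.La) {g g' : Gp}
    (H : gz g (car G J i) = gz g' (car G J' i')) : J = J' ∧ i = i' ∧ g = g' := by
  have _ := hi
  have _ := hi'
  rcases lt_trichotomy J J' with h | rfl | h
  · exact absurd (fun l => H ▸ car_dvd h g' i' l) (car_not_dvd g J i)
  · refine ⟨rfl, car_small_unique fun l => ?_⟩
    have h := congrFun H l
    rw [car_gz, car_gz] at h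
    exact mul_left_cancel₀ (by exact_mod_cast (car_P_pos J).ne') h
  · exact absurd (fun l => H ▸ car_dvd h g i l) (car_not_dvd g' J' i')

lemma car_far {J J' i i' : ℕ} (hi : i ≤ G.La) (hi' : i' ≤ G.La) {g g' : Gp} (h : J' + 2 ≤ J)
    (H : ∀ l, 2 * |gz g (car G J i) l - gz g' (car G J' i') l| < G.P (J - 1)) : False := by
  obtain ⟨l, hl⟩ := (car_size (J := J) hi g).1
  have h1 := (car_size (J := J') hi' g').2 l
  have h2 : (G.P (J' + 1) : ℤ) ≤ G.P (J - 1) := by exact_mod_cast car_P_mono (by omega)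
  have h3 : G.P J = G.La * G.P (J - 1) := by
    rw [← P_succ]
    congr 1
    omega
  have h4 : 3 * G.P (J - 1) ≤ G.P J := h3 ▸ Nat.mul_le_mul_right _ car_La
  have h5 : 3 * (G.P (J - 1) : ℤ) ≤ G.P J := by exact_mod_cast h4
  have h6 := H l
  have h7 := abs_sub_abs_le_abs_sub (gz g (car G J i) l) (gz g' (car G J' i') l)
  have h8 := abs_nonneg (gz g (car G J i) l - gz g' (car G J' i') l)
  omega

lemma car_close' {J J' i i' : ℕ} (hi : i ≤ G.La) (hi' : i' ≤ G.La) {g g' : Gp}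
    (H : ∀ l, |gz g (car G J i) l - gz g' (car G J' i') l| ≤ 11 * G.n (max J J' + 2)) :
    gz g (car G J i) = gz g' (car G J' i') := by
  have hk := car_kk (G := G)
  have key : ∀ l, 2 * |gz g (car G J i) l - gz g' (car G J' i') l| < G.P (max J J' - 1) := by
    intro l
    have h1 := n_lt G (i := max J J' + 2) (j := max J J' - 1 + G.kk) (by omega)
    have h2 := n_pos G (max J J' + 2)
    rw [← P_eq] at h1
    have h3 : 22 * G.n (max J J' + 2) < G.P (max J J' - 1) := by omega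
    have h4 : 22 * (G.n (max J J' + 2) : ℤ) < G.P (max J J' - 1) := by exact_mod_cast h3
    have h5 := H l
    omega
  by_cases h1 : J' + 2 ≤ J
  · rw [max_eq_left (by omega)] at key
    exact (car_far hi hi' h1 key).elim
  by_cases h2 : J + 2 ≤ J'
  · rw [max_eq_right (by omega)] at key
    exact (car_far hi' hi h2 fun l => by rw [abs_sub_comm]; exact key l).elim
  ext l
  have h3 := dvd_sub (car_dvd (G := G) (J := max J J' - 1) (J' := J) (by omega) g i l)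
    (car_dvd (G := G) (J := max J J' - 1) (J' := J') (by omega) g' i' l)
  have h4 := key l
  have h5 := abs_nonneg (gz g (car G J i) l - gz g' (car G J' i') l)
  exact sub_eq_zero.1 (Int.eq_zero_of_abs_lt_dvd h3 (by omega))

theorem car_close {J J' i i' : ℕ} (hi : i ≤ G.La) (hi' : i' ≤ G.La) {g g' : Gp}
    (H : ∀ l, |gz g (car G J i) l - gz g' (car G J' i') l| ≤ 10 * G.n (max J J' + 1)) :
    gz g (car G J i) = gz g' (car G J' i') := by
  refine car_close' hi hi' fun l => (H l).trans ?_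
  have h : (G.n (max J J' + 1) : ℤ) ≤ G.n (max J J' + 2) := by
    exact_mod_cast n_mono G (Nat.le_succ _)
  omega

lemma car_low {J i M : ℕ} (hi : i ≤ G.La) (g : Gp) (h : J + G.kk ≤ M + 1) (l : Fin 3) :
    |gz g (car G J i) l| ≤ G.n (M + 2) := by
  refine ((car_size (J := J) hi g).2 l).trans ?_
  rw [P_eq]
  exact_mod_cast n_mono G (by omega)

/-- An approximate triad is exact, or two of its carriers cancel. -/
theorem triad {J1 J2 J3 i1 i2 i3 : ℕ} (h1 : i1 ≤ G.La) (h2 : i2 ≤ G.La) (h3 : i3 ≤ G.La)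
    {a1 a2 a3 : Gp} (H : ∀ l, |gz a1 (car G J1 i1) l + gz a2 (car G J2 i2) l -
      gz a3 (car G J3 i3) l| ≤ 10 * G.n (max J1 (max J2 J3) + 1)) :
    gz a1 (car G J1 i1) + gz a2 (car G J2 i2) = gz a3 (car G J3 i3) ∨
      gz a1 (car G J1 i1) = gz a3 (car G J3 i3) ∨ gz a2 (car G J2 i2) = gz a3 (car G J3 i3) ∨
      gz a1 (car G J1 i1) = -gz a2 (car G J2 i2) := by
  have hk := car_kk (G := G)
  obtain ⟨M, hM⟩ : ∃ M, M = max J1 (max J2 J3) := ⟨_, rfl⟩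
  rw [← hM] at H
  have hn : (G.n (M + 1) : ℤ) ≤ G.n (M + 2) := by exact_mod_cast n_mono G (Nat.le_succ _)
  by_cases c1 : J1 + G.kk ≤ M + 1
  · refine Or.inr (Or.inr (Or.inl (car_close' h2 h3 fun l => ?_)))
    have e : max J2 J3 = M := by omega
    have a := abs_le.1 (car_low h1 a1 c1 l)
    have b := abs_le.1 (H l)
    rw [e, abs_le]
    omega
  by_cases c2 : J2 + G.kk ≤ M + 1
  · refine Or.inr (Or.inl (car_close' h1 h3 fun l => ?_))
    have e : max J1 J3 = M := by omega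
    have a := abs_le.1 (car_low h2 a2 c2 l)
    have b := abs_le.1 (H l)
    rw [e, abs_le]
    omega
  by_cases c3 : J3 + G.kk ≤ M + 1
  · refine Or.inr (Or.inr (Or.inr ?_))
    rw [← gz_neg_one, gz_gz]
    refine car_close' h1 h2 fun l => ?_
    have e : max J1 J2 = M := by omega
    have a := abs_le.1 (car_low h3 a3 c3 l)
    have b := abs_le.1 (H l)
    rw [← gz_gz, gz_neg_one, Pi.neg_apply, e, abs_le]
    omega
  left
  obtain ⟨m, hm⟩ : ∃ m, m = min J1 (min J2 J3) := ⟨_, rfl⟩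
  ext l
  have d := dvd_sub (dvd_add (car_dvd (G := G) (J := m) (J' := J1) (by omega) a1 i1 l)
    (car_dvd (G := G) (J := m) (J' := J2) (by omega) a2 i2 l))
    (car_dvd (G := G) (J := m) (J' := J3) (by omega) a3 i3 l)
  have e1 := n_lt G (i := M + 1) (j := m + G.kk) (by omega)
  have e2 := n_pos G (M + 1)
  rw [← P_eq] at e1
  have e3 : 10 * G.n (M + 1) < G.P m := by omega
  have e4 : 10 * (G.n (M + 1) : ℤ) < G.P m := by exact_mod_cast e3
  exact sub_eq_zero.1 (Int.eq_zero_of_abs_lt_dvd d (lt_of_le_of_lt (H l) e4))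

lemma car_g1 (i : ℕ) :
    gz g1 (carU i) 0 = i ∧ gz g1 (carU i) 1 = 1 ∧ gz g1 (carU i) 2 = 0 := by
  simp [gz_g1, carU]

/-- Three carriers of the same level. -/
lemma car_small0 {i1 i2 i : ℕ} {a1 a2 : Gp}
    (H : ∀ l, gz a1 (carU i1) l + gz a2 (carU i2) l = gz g1 (carU i) l) :
    (a1 = g1 ∧ a2 = (2, 1) ∧ i2 = 0 ∧ i = i1 + 1) ∨
    (a2 = g1 ∧ a1 = (2, 1) ∧ i1 = 0 ∧ i = i2 + 1) ∨
    (a1 = g1 ∧ a2 = (2, -1) ∧ i2 = 0 ∧ i1 = i + 1) ∨
    (a2 = g1 ∧ a1 = (2, -1) ∧ i1 = 0 ∧ i2 = i + 1) ∨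
    (a1 = (1, 1) ∧ a2 = (1, -1) ∧ i = 0 ∧ i1 = i2 + 1) ∨
    (a2 = (1, 1) ∧ a1 = (1, -1) ∧ i = 0 ∧ i2 = i1 + 1) := by
  have H0 := H 0
  have H1 := H 1
  have H2 := H 2
  obtain ⟨c0, c1, c2⟩ := car_g1 i
  rcases car_cases a1 i1 with h | h | h | h | h | h <;> obtain ⟨rfl, p0, p1, p2⟩ := h <;>
    rcases car_cases a2 i2 with h | h | h | h | h | h <;> obtain ⟨rfl, b0, b1, b2⟩ := h <;>
    first
      | (exfalso; omega)
      | exact Or.inl ⟨rfl, rfl, by omega, by omega⟩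
      | exact Or.inr (Or.inl ⟨rfl, rfl, by omega, by omega⟩)
      | exact Or.inr (Or.inr (Or.inl ⟨rfl, rfl, by omega, by omega⟩))
      | exact Or.inr (Or.inr (Or.inr (Or.inl ⟨rfl, rfl, by omega, by omega⟩)))
      | exact Or.inr (Or.inr (Or.inr (Or.inr (Or.inl ⟨rfl, rfl, by omega, by omega⟩))))
      | exact Or.inr (Or.inr (Or.inr (Or.inr (Or.inr ⟨rfl, rfl, by omega, by omega⟩))))

lemma car_mul_cases (L i : ℕ) : (i = 0 ∧ (L : ℤ) * i = 0) ∨ (i = 1 ∧ (L : ℤ) * i = L) ∨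
    (i = 2 ∧ (L : ℤ) * i = 2 * L) ∨ 3 * (L : ℤ) ≤ L * i := by
  rcases i with _ | _ | _ | i
  · simp
  · simp
  · right; right; left
    exact ⟨rfl, by push_cast; ring⟩
  · right; right; right
    push_cast
    linarith [Nat.cast_nonneg (α := ℤ) L, Nat.cast_nonneg (α := ℤ) i,
      mul_nonneg (Nat.cast_nonneg (α := ℤ) L) (Nat.cast_nonneg (α := ℤ) i)]

/-- The target is one level higher. -/
lemma car_small1 {L i1 i2 i : ℕ} (hL : 3 ≤ L) (h1 : i1 ≤ L) (h2 : i2 ≤ L) {a1 a2 : Gp}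
    (H : ∀ l, gz a1 (carU i1) l + gz a2 (carU i2) l = L * gz g1 (carU i) l) :
    (a1 = (1, 1) ∧ a2 = (1, -1) ∧ i = 0 ∧ i1 = L ∧ i2 = 0) ∨
    (a2 = (1, 1) ∧ a1 = (1, -1) ∧ i = 0 ∧ i2 = L ∧ i1 = 0) := by
  have H0 := H 0
  have H1 := H 1
  have H2 := H 2
  obtain ⟨c0, c1, c2⟩ := car_g1 i
  rw [c0] at H0
  rw [c1, mul_one] at H1
  rw [c2, mul_zero] at H2
  have hm := car_mul_cases L i
  generalize (L : ℤ) * i = w at H0 hm
  clear c0 c1 c2 H
  rcases car_cases a1 i1 with h | h | h | h | h | h <;> obtain ⟨rfl, p0, p1, p2⟩ := h <;>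
    rcases car_cases a2 i2 with h | h | h | h | h | h <;> obtain ⟨rfl, b0, b1, b2⟩ := h <;>
    first
      | (exfalso; omega)
      | exact Or.inl ⟨rfl, rfl, by omega, by omega, by omega⟩
      | exact Or.inr ⟨rfl, rfl, by omega, by omega, by omega⟩

/-- The second carrier is one level higher. -/
lemma car_small2 {L i1 i2 i : ℕ} (hL : 3 ≤ L) (h1 : i1 ≤ L) (h3 : i ≤ L) {a1 a2 : Gp}
    (H : ∀ l, gz a1 (carU i1) l + L * gz a2 (carU i2) l = gz g1 (carU i) l) :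
    (a1 = g1 ∧ a2 = (2, -1) ∧ i = 0 ∧ i1 = L ∧ i2 = 0) ∨
    (a1 = g1 ∧ a2 = (2, 1) ∧ i = L ∧ i1 = 0 ∧ i2 = 0) := by
  have H0 := H 0
  have H1 := H 1
  have H2 := H 2
  obtain ⟨c0, c1, c2⟩ := car_g1 i
  rw [c0] at H0
  rw [c1] at H1
  rw [c2] at H2
  have hm := car_mul_cases L i2
  clear c0 c1 c2 H
  rcases car_cases a2 i2 with h | h | h | h | h | h <;> obtain ⟨rfl, b0, b1, b2⟩ := h <;>
    rw [b0] at H0 <;> rw [b1] at H1 <;> rw [b2] at H2 <;>
    simp only [mul_neg, mul_one, mul_zero] at H0 H1 H2 <;>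
    generalize (L : ℤ) * i2 = w at H0 H1 H2 hm <;>
    rcases car_cases a1 i1 with h | h | h | h | h | h <;> obtain ⟨rfl, p0, p1, p2⟩ := h <;>
    first
      | (exfalso; omega)
      | exact Or.inl ⟨rfl, rfl, by omega, by omega, by omega⟩
      | exact Or.inr ⟨rfl, rfl, by omega, by omega, by omega⟩

/-- A carrier which is a sum of two terms of size at most `P (m + 1)` has level at most `m + 1`. -/
lemma car_lev {J i m : ℕ} (hi : i ≤ G.La) {g : Gp}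
    (H : ∀ l, |gz g (car G J i) l| ≤ 2 * G.P (m + 1)) : J ≤ m + 1 := by
  by_contra h
  obtain ⟨l, hl⟩ := (car_size (J := J) hi g).1
  have h1 : G.P (m + 1 + 1) ≤ G.P J := car_P_mono (by omega)
  have h2 : 3 * G.P (m + 1) ≤ G.P (m + 1 + 1) := by
    rw [P_succ G (m + 1)]
    exact Nat.mul_le_mul_right _ car_La
  have h3 := car_P_pos (G := G) (m + 1)
  have h4 := H l
  omega

lemma car_up {J1 J2 i1 i2 i : ℕ} (h1 : i1 ≤ G.La) (h2 : i2 ≤ G.La) (h3 : i ≤ G.La)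
    {a1 a2 : Gp} (hJ : J1 < J2)
    (H : ∀ l, gz a1 (car G J1 i1) l + gz a2 (car G J2 i2) l = gz g1 (car G J1 i) l) :
    J2 = J1 + 1 ∧ ((a1 = g1 ∧ a2 = (2, -1) ∧ i = 0 ∧ i1 = G.La ∧ i2 = 0) ∨
      (a1 = g1 ∧ a2 = (2, 1) ∧ i = G.La ∧ i1 = 0 ∧ i2 = 0)) := by
  have e : J2 ≤ J1 + 1 := car_lev h2 (g := a2) fun l => by
    have a := abs_le.1 ((car_size (J := J1) h1 a1).2 l)
    have b := abs_le.1 ((car_size (J := J1) h3 g1).2 l)
    have c := H l
    rw [abs_le]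
    omega
  obtain rfl : J2 = J1 + 1 := by omega
  refine ⟨rfl, car_small2 car_La h1 h3 fun l => ?_⟩
  have h := H l
  rw [car_gz, car_gz, car_gz, P_succ] at h
  push_cast at h
  refine mul_left_cancel₀ (a := (G.P J1 : ℤ)) (by exact_mod_cast (car_P_pos J1).ne') ?_
  rw [← h]
  ring

/-- The exact triads. -/
theorem exact_triad {J1 J2 J i1 i2 i : ℕ} (h1 : i1 ≤ G.La) (h2 : i2 ≤ G.La) (h3 : i ≤ G.La)
    {a1 a2 : Gp} (H : gz a1 (car G J1 i1) + gz a2 (car G J2 i2) = car G J i) :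
    (∃ m, i = m + 1 ∧ UP (J1, i1, a1) (J2, i2, a2) (J, m, g1) (J, 0, (2, 1))) ∨
      UP (J1, i1, a1) (J2, i2, a2) (J, i + 1, g1) (J, 0, (2, -1)) ∨
      (i = 0 ∧ UP (J1, i1, a1) (J2, i2, a2) (J, G.La, g1) (J + 1, 0, (2, -1))) ∨
      (i = G.La ∧ UP (J1, i1, a1) (J2, i2, a2) (J, 0, g1) (J + 1, 0, (2, 1))) ∨
      (i = 0 ∧ ∃ m, UP (J1, i1, a1) (J2, i2, a2) (J, m + 1, (1, 1)) (J, m, (1, -1))) ∨
      (i = 0 ∧ ∃ J', J = J' + 1 ∧
        UP (J1, i1, a1) (J2, i2, a2) (J', G.La, (1, 1)) (J', 0, (1, -1))) := by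
  have K : ∀ l, gz a1 (car G J1 i1) l + gz a2 (car G J2 i2) l = gz g1 (car G J i) l := by
    intro l
    rw [gz_g1]
    exact congrFun H l
  have n1 : ¬ (J1 < J2 ∧ J1 < J) := fun h => car_not_dvd (G := G) a1 J1 i1 fun l => by
    rw [eq_sub_of_add_eq (K l)]
    exact dvd_sub (car_dvd h.2 _ _ _) (car_dvd h.1 _ _ _)
  have n2 : ¬ (J2 < J1 ∧ J2 < J) := fun h => car_not_dvd (G := G) a2 J2 i2 fun l => by
    rw [eq_sub_of_add_eq' (K l)]
    exact dvd_sub (car_dvd h.2 _ _ _) (car_dvd h.1 _ _ _)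
  have n3 : ¬ (J < J1 ∧ J < J2) := fun h => car_not_dvd (G := G) g1 J i fun l => by
    rw [← K l]
    exact dvd_add (car_dvd h.1 _ _ _) (car_dvd h.2 _ _ _)
  have hc : (J1 = J ∧ J2 = J) ∨ (J2 = J1 ∧ J1 < J) ∨ (J = J1 ∧ J1 < J2) ∨ (J = J2 ∧ J2 < J1) := by
    omega
  rcases hc with ⟨rfl, rfl⟩ | ⟨rfl, hJ⟩ | ⟨rfl, hJ⟩ | ⟨rfl, hJ⟩
  · have S := car_small0 (i1 := i1) (i2 := i2) (i := i) (a1 := a1) (a2 := a2) fun l => by
      have h := K l
      rw [car_gz, car_gz, car_gz, ← mul_add] at h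
      exact mul_left_cancel₀ (by exact_mod_cast (car_P_pos _).ne') h
    rcases S with ⟨rfl, rfl, rfl, rfl⟩ | ⟨rfl, rfl, rfl, rfl⟩ | ⟨rfl, rfl, rfl, rfl⟩ |
      ⟨rfl, rfl, rfl, rfl⟩ | ⟨rfl, rfl, rfl, rfl⟩ | ⟨rfl, rfl, rfl, rfl⟩
    · exact Or.inl ⟨_, rfl, Or.inl ⟨rfl, rfl⟩⟩
    · exact Or.inl ⟨_, rfl, Or.inr ⟨rfl, rfl⟩⟩
    · exact Or.inr (Or.inl (Or.inl ⟨rfl, rfl⟩))
    · exact Or.inr (Or.inl (Or.inr ⟨rfl, rfl⟩))
    · exact Or.inr (Or.inr (Or.inr (Or.inr (Or.inl ⟨rfl, _, Or.inl ⟨rfl, rfl⟩⟩))))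
    · exact Or.inr (Or.inr (Or.inr (Or.inr (Or.inl ⟨rfl, _, Or.inr ⟨rfl, rfl⟩⟩))))
  · have e : J ≤ J2 + 1 := car_lev h3 (g := g1) fun l => by
      have a := abs_le.1 ((car_size (J := J2) h1 a1).2 l)
      have b := abs_le.1 ((car_size (J := J2) h2 a2).2 l)
      have c := K l
      rw [abs_le]
      omega
    obtain rfl : J = J2 + 1 := by omega
    have S := car_small1 (i := i) (a1 := a1) (a2 := a2) car_La h1 h2 fun l => by
      have h := K l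
      rw [car_gz, car_gz, car_gz, P_succ] at h
      push_cast at h
      refine mul_left_cancel₀ (a := (G.P J2 : ℤ)) (by exact_mod_cast (car_P_pos J2).ne') ?_
      rw [mul_add, h]
      ring
    rcases S with ⟨rfl, rfl, rfl, rfl, rfl⟩ | ⟨rfl, rfl, rfl, rfl, rfl⟩
    · exact Or.inr (Or.inr (Or.inr (Or.inr (Or.inr ⟨rfl, _, rfl, Or.inl ⟨rfl, rfl⟩⟩))))
    · exact Or.inr (Or.inr (Or.inr (Or.inr (Or.inr ⟨rfl, _, rfl, Or.inr ⟨rfl, rfl⟩⟩))))
  · obtain ⟨rfl, ⟨rfl, rfl, rfl, rfl, rfl⟩ | ⟨rfl, rfl, rfl, rfl, rfl⟩⟩ := car_up h1 h2 h3 hJ K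
    · exact Or.inr (Or.inr (Or.inl ⟨rfl, Or.inl ⟨rfl, rfl⟩⟩))
    · exact Or.inr (Or.inr (Or.inr (Or.inl ⟨rfl, Or.inl ⟨rfl, rfl⟩⟩)))
  · obtain ⟨rfl, ⟨rfl, rfl, rfl, rfl, rfl⟩ | ⟨rfl, rfl, rfl, rfl, rfl⟩⟩ :=
      car_up h2 h1 h3 hJ fun l => (add_comm _ _).trans (K l)
    · exact Or.inr (Or.inr (Or.inl ⟨rfl, Or.inr ⟨rfl, rfl⟩⟩))
    · exact Or.inr (Or.inr (Or.inr (Or.inl ⟨rfl, Or.inr ⟨rfl, rfl⟩⟩)))

end

end Pool.Agent.Work.MP_6bf1e5_an.Ell.Pd
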