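import Pool.Agent.Work.MP_6bf1e5_an.Ell.CoefAX

/-!
The reference vectors and the interaction coefficients.
-/

open Set Complex
open scoped InnerProductSpace ComplexConjugate Classical
open Pool.Agent.Work.MP_6bf1e5_an.B
open Pool.Agent.Work.MP_6bf1e5_an.Dec

namespace Pool.Agent.Work.MP_6bf1e5_an.Ell.Pd

noncomputable section

attribute [local irreducible] Fam.S

variable (G : Geo)

lemma kp_pos : 0 < G.kp := by
  have h1 := coefA_mCpos G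
  have h2 := coefA_spos G
  unfold Geo.kp
  positivity

lemma kp_lo : 1 / 200 ≤ G.kp ^ 2 * G.t ^ 21 := by
  have h1 := coefA_kpsq G
  have h2 := coefA_epos G
  have h3 := coefA_ele G
  have h4 := coefA_D G
  have h5 : 0 ≤ G.kp ^ 2 * G.t ^ 21 := mul_nonneg (sq_nonneg _) (by linarith [coefA_L G])
  set D := 4 * G.ε ^ 2 + 4 + G.z ^ 2
  set X := G.kp ^ 2 * G.t ^ 21
  have a1 : X * (25 * D) ≤ X * (25 * (501 / 100)) :=
    mul_le_mul_of_nonneg_left (by linarith [h4.2]) h5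
  have a2 : 74 / 100 ≤ (3 - 4 * G.ε) * (1 / 4 + G.ε) := by nlinarith
  linarith

lemma kp_hi : G.kp ^ 2 * G.t ^ 21 ≤ 1 / 100 := by
  have h1 := coefA_kpsq G
  have h2 := coefA_epos G
  have h3 := coefA_ele G
  have h4 := coefA_D G
  have h5 : 0 ≤ G.kp ^ 2 * G.t ^ 21 := mul_nonneg (sq_nonneg _) (by linarith [coefA_L G])
  set D := 4 * G.ε ^ 2 + 4 + G.z ^ 2
  set X := G.kp ^ 2 * G.t ^ 21
  have a1 : X * (25 * (499 / 100)) ≤ X * (25 * D) :=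
    mul_le_mul_of_nonneg_left (by linarith [h4.1]) h5
  have a2 : (3 - 4 * G.ε) * (1 / 4 + G.ε) ≤ 76 / 100 := by nlinarith
  linarith

lemma om_lo : 7 ≤ G.om0 := by
  have h1 := coefA_W G
  have h2 := coefA_epos G
  have h3 : 0 ≤ G.ε ^ 2 := sq_nonneg _
  unfold Geo.om0
  rw [le_div_iff₀ (by linarith [h1.1])]
  linarith [h1.2, mul_nonneg h3 h2.le]

lemma om_hi : G.om0 ≤ 9 := by
  have h1 := coefA_W G
  have h2 := coefA_epos G
  have h3 : 0 ≤ G.ε ^ 2 := sq_nonneg _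
  have h4 := coefA_ele G
  have h5 := coefA_esq G
  unfold Geo.om0
  rw [div_le_iff₀ (by linarith [h1.1])]
  nlinarith [h1.1]

lemma om_bounds (o : Fin 4) : 1 ≤ G.om o ∧ G.om o ≤ 9 := by
  have h1 := om_lo G
  have h2 := om_hi G
  fin_cases o <;> simp [Geo.om] <;> constructor <;> linarith

lemma cy_lo (i : ℕ) : 1 / 3 ≤ G.cy i := by
  unfold Geo.cy
  split_ifs
  · norm_num
  · linarith [sq_nonneg G.ε]
  · have h1 := coefA_s5
    have h2 := coefA_s5pos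
    nlinarith

lemma cy_hi (i : ℕ) : G.cy i ≤ 1 := by
  unfold Geo.cy
  split_ifs
  · exact le_rfl
  · have h1 := coefA_esq G
    have h2 := coefA_ele G
    linarith
  · have h1 := coefA_s5
    have h2 := coefA_s5pos
    nlinarith

lemma cf_lo : 1 ≤ G.cf := by
  have h1 := coefA_W G
  have h2 := coefA_U G
  have h3 := (coefA_mC_bounds G).1
  have h4 := coefA_L G
  have h5 := coefA_mCpos G
  have h6 : 10 ≤ G.mC := by nlinarith
  unfold Geo.cf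
  rw [le_div_iff₀ (by linarith [h2.1])]
  nlinarith [h1.1, h2.2]

lemma cf_hi : G.cf ≤ G.t ^ 11 := by
  have h1 := coefA_W G
  have h2 := coefA_U G
  have h3 := (coefA_mC_bounds G).2
  have h4 := coefA_L G
  have h5 := coefA_mCpos G
  have h7 := coefA_t G
  have h8 : 0 ≤ G.t ^ 11 := by positivity
  have h6 : G.mC ≤ G.t ^ 11 := by
    refine (abs_le_of_sq_le_sq' ?_ h8).2
    have e : (G.t ^ 11) ^ 2 = G.t * G.t ^ 21 := by ring
    rw [e]; nlinarith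
  unfold Geo.cf
  rw [div_le_iff₀ (by linarith [h2.1])]
  nlinarith [h1.2, h2.1]

lemma cq_le (o : Fin 4) : G.cq o ^ 2 * G.t ^ 21 ≤ 1 := by
  have hM := coefA_mCpos G
  have hW : 0 < G.z * (G.z - 4 * G.ε) := by linarith [(coefA_W G).1]
  have hU : 0 < ‖G.eU‖ ^ 2 := by linarith [(coefA_U G).1]
  have hD : 0 < 4 * G.ε ^ 2 + 4 + G.z ^ 2 := by linarith [(coefA_D G).1]
  have hω : 0 < G.om o := by linarith [(om_bounds G o).1]
  have h7 := om_lo G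
  have hb := coefA_b G
  have hA0 := coefA_A0 G
  have hA2 := coefA_A2 G
  have key : ∃ b a : ℝ, ⟪G.eC, ge (go o) G.eC⟫_ℝ = G.mC ^ 2 * b ∧ b ^ 2 ≤ 41 / 10 ∧ 0 ≤ a ∧
      ⟪G.eU, ge (go o) (v3 1 G.ε 0)⟫_ℝ ^ 2 ≤ a ∧ 2 * a ≤ G.om o ^ 2 := by
    rw [Geo.eC, Geo.eU, ge_smul, coefA_ge, coefA_ge, real_inner_smul_left, real_inner_smul_left,
      real_inner_smul_right]
    fin_cases o
    · refine ⟨2 * G.ε * G.z - 4 * G.ε - 2 * G.z, 21 / 100, ?_, hb, by norm_num, ?_, ?_⟩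
      · simp only [Fin.zero_eta, Matrix.cons_val_zero, coefA_inner]; ring
      · simp only [Fin.zero_eta, Matrix.cons_val_zero, coefA_inner]
        convert hA0 using 3; ring
      · simp [Geo.om]; norm_num
    · refine ⟨-(2 * G.ε * G.z - 4 * G.ε - 2 * G.z), 21 / 100, ?_, by rw [neg_sq]; exact hb,
        by norm_num, ?_, ?_⟩
      · simp only [Fin.mk_one, Matrix.cons_val_one, Matrix.cons_val_zero, coefA_inner]; ring
      · simp only [Fin.mk_one, Matrix.cons_val_one, Matrix.cons_val_zero, coefA_inner]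
        rw [← neg_sq]
        convert hA0 using 2; ring
      · simp [Geo.om]; norm_num
    · refine ⟨2 * G.ε * G.z - 4 * G.ε - 2 * G.z, 1, ?_, hb, by norm_num, ?_, ?_⟩
      · simp only [Fin.reduceFinMk, Matrix.cons_val, coefA_inner]; ring
      · simp only [Fin.reduceFinMk, Matrix.cons_val, coefA_inner]
        convert hA2 using 3; ring
      · simp only [Geo.om, Fin.reduceFinMk, Matrix.cons_val]; nlinarith
    · refine ⟨-(2 * G.ε * G.z - 4 * G.ε - 2 * G.z), 1, ?_, by rw [neg_sq]; exact hb,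
        by norm_num, ?_, ?_⟩
      · simp only [Fin.reduceFinMk, Matrix.cons_val, coefA_inner]; ring
      · simp only [Fin.reduceFinMk, Matrix.cons_val, coefA_inner]
        rw [← neg_sq]
        convert hA2 using 2; ring
      · simp only [Geo.om, Fin.reduceFinMk, Matrix.cons_val]; nlinarith
  obtain ⟨b, a, e1, e2, e3, e4, e5⟩ := key
  rw [Geo.cq, e1, coefA_eCsq, Geo.cf]
  exact coefA_cq_aux hM hW hU hD hω (coefA_cq_fin G e4 e2 e3 e5)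

lemma norm_eB : ‖G.eB‖ = 1 := by
  have h : ‖G.eB‖ ^ 2 = 1 := by
    rw [Geo.eB, norm_smul, mul_pow, coefA_normsq, Real.norm_of_nonneg coefA_s5pos.le, coefA_s5]
    norm_num
  exact (pow_eq_one_iff_of_nonneg (norm_nonneg _) two_ne_zero).mp h

lemma coefA_norm_e3 : ‖v3 0 0 1‖ = 1 := by
  have h : ‖v3 0 0 1‖ ^ 2 = 1 := by rw [coefA_normsq]; norm_num
  exact (pow_eq_one_iff_of_nonneg (norm_nonneg _) two_ne_zero).mp h

lemma coefA_norm_y (j i : ℕ) : 9 / 10 ≤ ‖(Fam.y j i).e G‖ ∧ ‖(Fam.y j i).e G‖ ≤ 11 / 10 := by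
  have h := coefA_U G
  have h0 := norm_nonneg G.eU
  simp only [Fam.e]
  split_ifs
  · constructor <;> nlinarith [h.1, h.2]
  · rw [coefA_norm_e3]; norm_num

lemma norm_e_lo (F : Fam) : 9 / 10 ≤ ‖F.e G‖ := by
  cases F with
  | b j => simp only [Fam.e]; rw [norm_eB]; norm_num
  | c j =>
    simp only [Fam.e]
    refine (abs_le_of_sq_le_sq' ?_ (norm_nonneg _)).2
    have h1 := (coefA_mC_bounds G).1
    have h2 := (coefA_D G).1
    have h3 := coefA_L G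
    rw [coefA_eCsq]
    nlinarith
  | y j i => exact (coefA_norm_y G j i).1

lemma norm_e_hi (F : Fam) : ‖F.e G‖ ≤ G.t ^ 11 := by
  have h7 := coefA_t G
  have h8 : G.t ^ 1 ≤ G.t ^ 11 := pow_le_pow_right₀ (by linarith) (by norm_num)
  rw [pow_one] at h8
  cases F with
  | b j => simp only [Fam.e]; rw [norm_eB]; linarith
  | c j =>
    simp only [Fam.e]
    refine (abs_le_of_sq_le_sq' ?_ (by linarith)).2
    have h1 := (coefA_mC_bounds G).2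
    have h2 := (coefA_D G).2
    have h3 := coefA_L G
    have h4 : 0 ≤ G.mC ^ 2 := sq_nonneg _
    have e : (G.t ^ 11) ^ 2 = G.t * G.t ^ 21 := by ring
    rw [coefA_eCsq, e]
    have h5 := mul_le_mul_of_nonneg_left h2 h4
    nlinarith
  | y j i => linarith [(coefA_norm_y G j i).2]

lemma norm_e_y (j i : ℕ) : ‖(Fam.y j i).e G‖ ≤ 11 / 10 := (coefA_norm_y G j i).2

variable {G}

lemma e_orth {F : Fam} (hF : F.ok G) : ⟪xi (F.ctr G), F.e G⟫_ℝ = 0 := by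
  have h := coefA_eL G
  cases F with
  | b j =>
    simp only [Fam.e]
    rw [coefA_ctr_b, Geo.eB, real_inner_smul_right, coefA_inner]; ring
  | c j =>
    simp only [Fam.e]
    rw [coefA_ctr_c, Geo.eC, real_inner_smul_right, coefA_inner, lam_succ]
    linear_combination (2 * G.mC * G.lam j) * h
  | y j i =>
    simp only [Fam.e]
    rw [coefA_ctr_y]
    split_ifs with hi
    · rw [Geo.eU, real_inner_smul_right, coefA_inner, hi, La_cast]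
      linear_combination (-((√5)⁻¹ * G.lam j * G.z)) * h
    · rw [coefA_inner]; ring

lemma norm_xi_off {F : Fam} {h : Z3} (hh : h ∈ F.S G) : ‖xi h‖ ≤ 12 * F.sz G := by
  have h0 : ∀ i, (h i : ℝ) ^ 2 ≤ (101 / 100 * F.sz G) ^ 2 := fun i => by
    have h1 : (100 : ℝ) * |(h i : ℝ)| ≤ 101 * F.sz G := by exact_mod_cast S_le hh i
    rw [← sq_abs]
    exact pow_le_pow_left₀ (abs_nonneg _) (by linarith) 2
  refine (abs_le_of_sq_le_sq' ?_ (by positivity)).2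
  rw [← ax_eq_norm, ax_sq, Fin.sum_univ_three]
  have hp : Real.pi ^ 2 ≤ 10 := by nlinarith [Real.pi_lt_d2, Real.pi_pos]
  have e : ∀ i, (2 * Real.pi * (h i : ℝ)) ^ 2 ≤ 41 * (F.sz G : ℝ) ^ 2 := fun i => by
    have := h0 i
    calc (2 * Real.pi * (h i : ℝ)) ^ 2 = 4 * Real.pi ^ 2 * (h i : ℝ) ^ 2 := by ring
      _ ≤ 4 * 10 * (101 / 100 * (F.sz G : ℝ)) ^ 2 := by gcongr
      _ ≤ _ := by linarith [sq_nonneg (F.sz G : ℝ)]
  linarith [e 0, e 1, e 2, sq_nonneg (F.sz G : ℝ)]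

lemma coefA_off {F : Fam} {h : Z3} (hh : h ∈ F.S G) : ‖xi h‖ ≤ G.lam F.ix / 100 := by
  have h1 := norm_xi_off hh
  have h2 : (F.sz G : ℝ) ≤ G.n (F.ix + 1) := by exact_mod_cast sz_le F
  have h3 := coefA_n_le G F.ix
  linarith

lemma coefA_ax_lo (c h : Z3) : ‖xi c‖ - ‖xi h‖ ≤ ax (c + h) := by
  have h1 := norm_sub_le (xi c + xi h) (xi h)
  rw [add_sub_cancel_right] at h1
  rw [ax_eq_norm, xi_add]; linarith

lemma coefA_ax_hi (c h : Z3) : ax (c + h) ≤ ‖xi c‖ + ‖xi h‖ := by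
  rw [ax_eq_norm, xi_add]; exact norm_add_le _ _

lemma ax_lo {F : Fam} (hF : F.ok G) {h : Z3} (hh : h ∈ F.S G) :
    G.lam F.ix / 2 ≤ ax (F.ctr G + h) := by
  have h1 := coefA_ax_lo (F.ctr G) h
  have h2 := coefA_off hh
  have h3 := coefA_ctr_lo (G := G) F
  have h4 := lam_pos G F.ix
  linarith

lemma ax_hi {F : Fam} (hF : F.ok G) {h : Z3} (hh : h ∈ F.S G) :
    ax (F.ctr G + h) ≤ 11 / 10 * G.lam (F.ix + 1) := by
  have h1 := coefA_ax_hi (F.ctr G) h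
  have h2 := coefA_off hh
  have h3 := coefA_ctr_hi hF
  have h4 := lam_pos G F.ix
  have h5 := coefA_lam_le G F.ix
  linarith

lemma ax_b {j : ℕ} {h : Z3} (hh : h ∈ (Fam.b j).S G) :
    ax ((Fam.b j).ctr G + h) ≤ 11 / 10 * G.lam j := by
  have h1 := coefA_ax_hi ((Fam.b j).ctr G) h
  have h2 : ‖xi h‖ ≤ G.lam j / 100 := coefA_off (F := .b j) hh
  have h4 := lam_pos G j
  have h3 : ‖xi ((Fam.b j).ctr G)‖ ≤ G.lam j + 0 := by
    rw [coefA_ctr_b]; exact coefA_hi (by linarith) le_rfl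
  linarith

lemma ax_c {j : ℕ} {h : Z3} (hh : h ∈ (Fam.c j).S G) :
    G.lam (j + 1) / 2 ≤ ax ((Fam.c j).ctr G + h) := by
  have h1 := coefA_ax_lo ((Fam.c j).ctr G) h
  have h2 : ‖xi h‖ ≤ G.lam j / 100 := coefA_off (F := .c j) hh
  have h4 := lam_pos G j
  have h5 := coefA_lam_le G j
  have h3 : G.lam (j + 1) ≤ ‖xi ((Fam.c j).ctr G)‖ := by
    rw [coefA_ctr_c]; exact coefA_lo1 _ _ _
  linarith

/-! Perturbation of the projections -/

lemma lp_near {ξ δ e : E3} {η : ℝ} (h0 : ⟪ξ, e⟫_ℝ = 0) (h1 : ‖δ‖ ≤ η * ‖ξ‖) (h2 : η ≤ 1 / 10)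
    (h3 : ξ ≠ 0) : ‖lp (ξ + δ) e - e‖ ≤ 2 * η * ‖e‖ := by
  rw [coefA_lp_sub, norm_neg, norm_smul, Real.norm_eq_abs]
  exact coefA_coef h0 h1 h2 h3

lemma coefA_lp_lo {ξ δ e : E3} {η : ℝ} (h0 : ⟪ξ, e⟫_ℝ = 0) (h1 : ‖δ‖ ≤ η * ‖ξ‖) (h2 : η ≤ 1 / 10)
    (h3 : ξ ≠ 0) : 4 / 5 * ‖e‖ ≤ ‖lp (ξ + δ) e‖ := by
  have h4 := lp_near h0 h1 h2 h3
  have h5 := norm_sub_le (lp (ξ + δ) e) (lp (ξ + δ) e - e)
  rw [sub_sub_cancel] at h5
  have h6 := mul_le_mul_of_nonneg_right h2 (norm_nonneg e)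
  linarith

lemma norm_lp_lo {F : Fam} (hF : F.ok G) {h : Z3} (hh : h ∈ F.S G) :
    1 / 2 ≤ ‖lp (xi (F.ctr G + h)) (F.e G)‖ := by
  have h2 := coefA_off hh
  have h3 := coefA_ctr_lo (G := G) F
  have h4 := lam_pos G F.ix
  have h5 : xi (F.ctr G) ≠ 0 := norm_pos_iff.mp (by linarith)
  have h6 := coefA_lp_lo (η := 1 / 10) (δ := xi h) (e_orth hF) (by linarith) le_rfl h5
  have h7 := norm_e_lo G F
  rw [xi_add]; linarith

lemma norm_uv_le {F : Fam} (hF : F.ok G) (g : Gp) {h : Z3} (hh : h ∈ F.S G) :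
    ‖uv G F g h‖ ≤ 2 := by
  have h1 := norm_lp_lo hF hh
  rw [uv, norm_ge, ur, norm_smul, Real.norm_of_nonneg (by positivity)]
  set x := ‖lp (xi (F.ctr G + h)) (F.e G)‖
  have hx : 0 < x := by linarith
  rw [inv_mul_le_iff₀ (by positivity)]
  nlinarith

lemma inner_lp_ur {F : Fam} (hF : F.ok G) {h : Z3} (hh : h ∈ F.S G) :
    ⟪lp (xi (F.ctr G + h)) (F.e G), ur (xi (F.ctr G + h)) (F.e G)⟫_ℝ = 1 := by
  have h1 := norm_lp_lo hF hh
  rw [ur, real_inner_smul_right, real_inner_self_eq_norm_sq]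
  exact inv_mul_cancel₀ (pow_pos (by linarith) 2).ne'

lemma ur_near {ξ δ e : E3} {η : ℝ} (h0 : ⟪ξ, e⟫_ℝ = 0) (h1 : ‖δ‖ ≤ η * ‖ξ‖) (h2 : η ≤ 1 / 10)
    (h3 : ξ ≠ 0) (h4 : e ≠ 0) : ‖ur (ξ + δ) e - (‖e‖ ^ 2)⁻¹ • e‖ ≤ 10 * η / ‖e‖ := by
  have h5 := lp_near h0 h1 h2 h3
  have h6 := coefA_lp_lo h0 h1 h2 h3
  have he := norm_pos_iff.mpr h4
  have hη := coefA_eta h1 h3
  have h7 : 0 < ‖lp (ξ + δ) e‖ := by linarith
  have h8 := dist_div_norm_sq_smul (norm_pos_iff.mp h7) h4 1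
  rw [dist_eq_norm, dist_eq_norm, one_div, one_div, inv_pow, inv_pow] at h8
  rw [ur, h8, le_div_iff₀ he]
  set v := lp (ξ + δ) e
  have e1 : 1 ^ 2 / (‖v‖ * ‖e‖) * ‖v - e‖ * ‖e‖ = ‖v - e‖ / ‖v‖ := by field_simp
  rw [e1, div_le_iff₀ h7]
  nlinarith [mul_le_mul_of_nonneg_left h6 hη]

/-- Orthogonality is preserved to second order. -/
lemma inner_lp_lp {ξ δ δ' e e' : E3} {η : ℝ} (h0 : ⟪ξ, e⟫_ℝ = 0) (h0' : ⟪ξ, e'⟫_ℝ = 0)
    (h : ⟪e, e'⟫_ℝ = 0) (h1 : ‖δ‖ ≤ η * ‖ξ‖) (h1' : ‖δ'‖ ≤ η * ‖ξ‖) (h2 : η ≤ 1 / 10)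
    (h3 : ξ ≠ 0) : |⟪lp (ξ + δ) e, lp (ξ + δ') e'⟫_ℝ| ≤ 10 * η ^ 2 * (‖e‖ * ‖e'‖) := by
  have hη := coefA_eta h1 h3
  have key : ∀ {d x y : E3}, ⟪ξ, x⟫_ℝ = 0 → ⟪ξ, y⟫_ℝ = 0 → ‖d‖ ≤ η * ‖ξ‖ →
      |⟪lp (ξ + d) x - x, y⟫_ℝ| ≤ 3 * η ^ 2 * (‖x‖ * ‖y‖) := by
    intro d x y hx hy hd
    have a1 := coefA_coef hx hd h2 h3
    have a2 := coefA_add_lo hd h2
    rw [coefA_lp_sub, inner_neg_left, abs_neg, real_inner_smul_left, abs_mul, inner_add_left ξ d y,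
      hy, zero_add]
    set a := |⟪ξ + d, x⟫_ℝ / ‖ξ + d‖ ^ 2|
    have ha : 0 ≤ a := abs_nonneg _
    have a3 : |⟪d, y⟫_ℝ| ≤ η * ‖ξ‖ * ‖y‖ :=
      (abs_real_inner_le_norm _ _).trans (mul_le_mul_of_nonneg_right hd (norm_nonneg _))
    have a4 : a * ‖ξ‖ ≤ 3 * η * ‖x‖ := by
      have := mul_le_mul_of_nonneg_left a2 ha
      have := mul_nonneg hη (norm_nonneg x)
      linarith
    calc a * |⟪d, y⟫_ℝ| ≤ a * (η * ‖ξ‖ * ‖y‖) := mul_le_mul_of_nonneg_left a3 ha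
      _ = a * ‖ξ‖ * (η * ‖y‖) := by ring
      _ ≤ 3 * η * ‖x‖ * (η * ‖y‖) :=
          mul_le_mul_of_nonneg_right a4 (mul_nonneg hη (norm_nonneg _))
      _ = _ := by ring
  have b1 := key h0 h0' h1
  have b2 := key h0' h0 h1'
  have b3 : |⟪lp (ξ + δ) e - e, lp (ξ + δ') e' - e'⟫_ℝ| ≤ 2 * η * ‖e‖ * (2 * η * ‖e'‖) :=
    (abs_real_inner_le_norm _ _).trans (mul_le_mul (lp_near h0 h1 h2 h3) (lp_near h0' h1' h2 h3)
      (norm_nonneg _) (by positivity))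
  have e1 : ⟪lp (ξ + δ) e, lp (ξ + δ') e'⟫_ℝ = ⟪lp (ξ + δ) e - e, e'⟫_ℝ +
      ⟪lp (ξ + δ') e' - e', e⟫_ℝ + ⟪lp (ξ + δ) e - e, lp (ξ + δ') e' - e'⟫_ℝ := by
    rw [real_inner_comm e (lp (ξ + δ') e' - e')]
    simp only [inner_sub_left, inner_sub_right, h]
    ring
  rw [e1]
  have c1 := abs_add_three ⟪lp (ξ + δ) e - e, e'⟫_ℝ ⟪lp (ξ + δ') e' - e', e⟫_ℝ
    ⟪lp (ξ + δ) e - e, lp (ξ + δ') e' - e'⟫_ℝ
  linarith

end

end Pool.Agent.Work.MP_6bf1e5_an.Ell.Pd
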