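import Pool.Agent.Work.MP_6bf1e5_an.Ell.Sep

/-!
Elementary facts for the reference vectors.
-/

open Set Complex
open scoped InnerProductSpace ComplexConjugate Classical
open Pool.Agent.Work.MP_6bf1e5_an.B
open Pool.Agent.Work.MP_6bf1e5_an.Dec

namespace Pool.Agent.Work.MP_6bf1e5_an.Ell.Pd

noncomputable section

lemma coefA_inner (a b c x y z : ℝ) : ⟪v3 a b c, v3 x y z⟫_ℝ = a * x + b * y + c * z := by
  simp [v3, PiLp.inner_apply, Fin.sum_univ_three]; ring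

lemma coefA_normsq (x y z : ℝ) : ‖v3 x y z‖ ^ 2 = x ^ 2 + y ^ 2 + z ^ 2 := by
  rw [← real_inner_self_eq_norm_sq, coefA_inner]; ring

lemma coefA_ge (o : Fin 4) (x y z : ℝ) : ge (go o) (v3 x y z) =
    ![v3 z x y, v3 (-z) (-x) (-y), v3 y z x, v3 (-y) (-z) (-x)] o := by
  fin_cases o <;> ext i <;> fin_cases i <;> simp [ge, go, v3]

lemma coefA_xi (a b c : ℤ) :
    xi ![a, b, c] = v3 (2 * Real.pi * a) (2 * Real.pi * b) (2 * Real.pi * c) := by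
  ext i; fin_cases i <;> simp [xi, v3]

lemma coefA_smul (s x y z : ℝ) : s • v3 x y z = v3 (s * x) (s * y) (s * z) := by
  ext i; fin_cases i <;> simp [v3]

lemma coefA_s5 : ((√5 : ℝ)⁻¹) ^ 2 = 1 / 5 := by
  rw [inv_pow, Real.sq_sqrt (by norm_num)]; norm_num

lemma coefA_s5pos : (0 : ℝ) < (√5)⁻¹ := by positivity

variable (G : Geo)

lemma coefA_t : (10000 : ℝ) ≤ G.t := le_trans (by norm_num) (t_big G)

lemma coefA_L : (10000 : ℝ) ≤ G.t ^ 21 := by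
  have h : (10 : ℝ) ^ 100 ≤ G.La := by exact_mod_cast La_big G
  rw [La_cast] at h
  exact le_trans (by norm_num) h

lemma coefA_eL : G.ε * G.t ^ 21 = 1 := by
  have := coefA_L G
  rw [Geo.ε, La_cast]
  exact inv_mul_cancel₀ (by linarith)

lemma coefA_epos : 0 < G.ε := by
  have := coefA_L G
  rw [Geo.ε, La_cast]
  positivity

lemma coefA_ele : G.ε ≤ 1 / 10000 := by
  have h := coefA_L G
  have h1 := coefA_eL G
  have h2 := coefA_epos G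
  nlinarith

lemma coefA_esq : G.ε ^ 2 ≤ G.ε / 10000 := by
  have h1 := coefA_epos G
  have h2 := coefA_ele G
  nlinarith

lemma coefA_z : -1 ≤ G.z ∧ G.z ≤ -1 + G.ε := by
  have h1 := coefA_epos G
  have h2 := coefA_esq G
  unfold Geo.z
  constructor <;> linarith [sq_nonneg G.ε]

lemma coefA_zsq : 999 / 1000 ≤ G.z ^ 2 ∧ G.z ^ 2 ≤ 1 := by
  have h1 := coefA_epos G
  have h2 := coefA_ele G
  have h3 := coefA_z G
  constructor <;> nlinarith [h3.1, h3.2]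

lemma coefA_D : 499 / 100 ≤ 4 * G.ε ^ 2 + 4 + G.z ^ 2 ∧ 4 * G.ε ^ 2 + 4 + G.z ^ 2 ≤ 501 / 100 := by
  have h1 := coefA_epos G
  have h2 := coefA_ele G
  have h3 := coefA_zsq G
  have h4 := coefA_esq G
  constructor <;> linarith [h3.1, h3.2, sq_nonneg G.ε]

lemma coefA_W : 99 / 100 ≤ G.z * (G.z - 4 * G.ε) ∧ G.z * (G.z - 4 * G.ε) ≤ 101 / 100 := by
  have h1 := coefA_epos G
  have h2 := coefA_ele G
  have h3 := coefA_zsq G
  have h4 := coefA_z G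
  constructor <;> nlinarith [h3.1, h3.2, h4.1, h4.2]

lemma coefA_spos : 0 < G.ε / 4 + G.ε ^ 2 := by
  have h1 := coefA_epos G
  positivity

lemma coefA_mCpos : 0 < G.mC := by
  have h1 := coefA_spos G
  have h2 := coefA_ele G
  have h3 := (coefA_D G).1
  unfold Geo.mC
  refine Real.sqrt_pos.mpr (div_pos (by linarith) (mul_pos h1 (by linarith)))

/-- The defining equation of the normalisation. -/
lemma coefA_mCsq : G.mC ^ 2 * ((G.ε / 4 + G.ε ^ 2) * (4 * G.ε ^ 2 + 4 + G.z ^ 2)) = 3 - 4 * G.ε := by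
  have h1 := coefA_spos G
  have h2 := coefA_ele G
  have h3 := (coefA_D G).1
  have h4 : 0 < (G.ε / 4 + G.ε ^ 2) * (4 * G.ε ^ 2 + 4 + G.z ^ 2) := mul_pos h1 (by linarith)
  unfold Geo.mC
  rw [Real.sq_sqrt (div_pos (by linarith) h4).le]
  exact div_mul_cancel₀ _ h4.ne'

/-- The same after division by `ε`. -/
lemma coefA_mCL :
    G.mC ^ 2 * ((1 / 4 + G.ε) * (4 * G.ε ^ 2 + 4 + G.z ^ 2)) = (3 - 4 * G.ε) * G.t ^ 21 := by
  have h1 := coefA_mCsq G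
  have h2 := coefA_eL G
  rw [← h1]
  have : (G.ε / 4 + G.ε ^ 2) * G.t ^ 21 = 1 / 4 + G.ε := by
    calc (G.ε / 4 + G.ε ^ 2) * G.t ^ 21 = (1 / 4 + G.ε) * (G.ε * G.t ^ 21) := by ring
      _ = _ := by rw [h2, mul_one]
  rw [← this]; ring

lemma coefA_mC_bounds : 23 / 10 * G.t ^ 21 ≤ G.mC ^ 2 ∧ G.mC ^ 2 ≤ 5 / 2 * G.t ^ 21 := by
  have h1 := coefA_mCL G
  have h2 := coefA_epos G
  have h3 := coefA_ele G
  have h4 := coefA_D G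
  have h5 := coefA_L G
  have h6 : 0 ≤ G.mC ^ 2 := sq_nonneg _
  set D := 4 * G.ε ^ 2 + 4 + G.z ^ 2
  set M := G.mC ^ 2
  set L := G.t ^ 21
  have a1 : (1 / 4 + G.ε) * D ≤ 126 / 100 := by nlinarith [h4.1, h4.2]
  have a2 : 124 / 100 ≤ (1 / 4 + G.ε) * D := by nlinarith [h4.1, h4.2]
  have b1 : M * ((1 / 4 + G.ε) * D) ≤ M * (126 / 100) := mul_le_mul_of_nonneg_left a1 h6
  have b2 : M * (124 / 100) ≤ M * ((1 / 4 + G.ε) * D) := mul_le_mul_of_nonneg_left a2 h6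
  have c1 : (3 - 4 * G.ε) * L ≤ 3 * L := by nlinarith
  have c2 : 299 / 100 * L ≤ (3 - 4 * G.ε) * L := by nlinarith
  constructor <;> linarith

lemma coefA_kpsq : G.kp ^ 2 * G.t ^ 21 * (25 * (4 * G.ε ^ 2 + 4 + G.z ^ 2)) =
    (3 - 4 * G.ε) * (1 / 4 + G.ε) := by
  have h1 := coefA_mCsq G
  have h2 := coefA_eL G
  have : (G.ε / 4 + G.ε ^ 2) * G.t ^ 21 = 1 / 4 + G.ε := by
    calc (G.ε / 4 + G.ε ^ 2) * G.t ^ 21 = (1 / 4 + G.ε) * (G.ε * G.t ^ 21) := by ring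
      _ = _ := by rw [h2, mul_one]
  rw [← h1, ← this, Geo.kp]; ring

lemma coefA_eUsq : ‖G.eU‖ ^ 2 = ((G.ε * G.z) ^ 2 + G.z ^ 2 + 4 * (1 + G.ε ^ 2) ^ 2) / 5 := by
  rw [Geo.eU, norm_smul, mul_pow, coefA_normsq, Real.norm_of_nonneg coefA_s5pos.le, coefA_s5]
  ring

lemma coefA_U : 99 / 100 ≤ ‖G.eU‖ ^ 2 ∧ ‖G.eU‖ ^ 2 ≤ 101 / 100 := by
  have h1 := coefA_epos G
  have h2 := coefA_ele G
  have h3 := coefA_zsq G
  have h4 := coefA_esq G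
  have h5 : 0 ≤ G.ε ^ 2 := sq_nonneg _
  rw [coefA_eUsq, mul_pow]
  set a := G.ε ^ 2
  set b := G.z ^ 2
  have h6 : a ≤ 1 / 10000 := by linarith
  constructor <;> nlinarith [h3.1, h3.2]

lemma coefA_eCsq : ‖G.eC‖ ^ 2 = G.mC ^ 2 * (4 * G.ε ^ 2 + 4 + G.z ^ 2) := by
  rw [Geo.eC, norm_smul, mul_pow, coefA_normsq, Real.norm_of_nonneg (coefA_mCpos G).le]
  ring

lemma coefA_cq_aux {A b ω M W U D L : ℝ} (hM : 0 < M) (hW : 0 < W) (hU : 0 < U) (hD : 0 < D)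
    (hω : 0 < ω) (h : 25 * (A ^ 2 * b ^ 2 * L) ≤ ω ^ 2 * M ^ 2 * W ^ 2 * D ^ 2) :
    (A * (M ^ 2 * b) / (U * (M ^ 2 * D) * (ω * (M * W / (5 * U))))) ^ 2 * L ≤ 1 := by
  have e : A * (M ^ 2 * b) / (U * (M ^ 2 * D) * (ω * (M * W / (5 * U)))) =
      5 * A * b / (ω * M * W * D) := by
    field_simp
  rw [e, div_pow, div_mul_eq_mul_div, div_le_one (by positivity)]
  linarith

lemma coefA_b : (2 * G.ε * G.z - 4 * G.ε - 2 * G.z) ^ 2 ≤ 41 / 10 := by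
  have h1 := coefA_epos G
  have h2 := coefA_ele G
  have h4 := coefA_z G
  have a1 : 2 * G.ε * G.z - 4 * G.ε - 2 * G.z ≤ 2 := by nlinarith [h4.1, h4.2]
  have a2 : -2 ≤ 2 * G.ε * G.z - 4 * G.ε - 2 * G.z := by nlinarith [h4.1, h4.2]
  nlinarith

lemma coefA_A0 : ((√5)⁻¹ * (G.z + 2 * (1 + G.ε ^ 2) * G.ε)) ^ 2 ≤ 21 / 100 := by
  have h1 := coefA_epos G
  have h2 := coefA_ele G
  have h3 := coefA_esq G
  have h4 := coefA_z G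
  have h5 : 0 ≤ G.ε ^ 2 := sq_nonneg _
  have a1 : G.z + 2 * (1 + G.ε ^ 2) * G.ε ≤ 1 := by nlinarith [h4.1, h4.2]
  have a2 : -1 ≤ G.z + 2 * (1 + G.ε ^ 2) * G.ε := by nlinarith [h4.1, h4.2]
  rw [mul_pow, coefA_s5]
  nlinarith

lemma coefA_A2 : ((√5)⁻¹ * (-(G.ε * G.z) * G.ε + 2 * (1 + G.ε ^ 2))) ^ 2 ≤ 1 := by
  have h1 := coefA_epos G
  have h2 := coefA_ele G
  have h3 := coefA_esq G
  have h4 := coefA_z G
  have h5 : 0 ≤ G.ε ^ 2 := sq_nonneg _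
  have e : -(G.ε * G.z) * G.ε = -G.z * G.ε ^ 2 := by ring
  have a1 : -(G.ε * G.z) * G.ε + 2 * (1 + G.ε ^ 2) ≤ 21 / 10 := by
    rw [e]; nlinarith [h4.1, h4.2]
  have a2 : -(21 / 10) ≤ -(G.ε * G.z) * G.ε + 2 * (1 + G.ε ^ 2) := by
    rw [e]; nlinarith [h4.1, h4.2]
  rw [mul_pow, coefA_s5]
  nlinarith

lemma coefA_cq_fin {A b ω a : ℝ} (hA : A ^ 2 ≤ a) (hb : b ^ 2 ≤ 41 / 10) (ha : 0 ≤ a)
    (hω : 2 * a ≤ ω ^ 2) :
    25 * (A ^ 2 * b ^ 2 * G.t ^ 21) ≤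
      ω ^ 2 * G.mC ^ 2 * (G.z * (G.z - 4 * G.ε)) ^ 2 * (4 * G.ε ^ 2 + 4 + G.z ^ 2) ^ 2 := by
  have h1 := (coefA_mC_bounds G).1
  have h2 := (coefA_W G).1
  have h3 := (coefA_D G).1
  have h4 := coefA_L G
  set D := 4 * G.ε ^ 2 + 4 + G.z ^ 2
  set M := G.mC ^ 2
  set L := G.t ^ 21
  set W := G.z * (G.z - 4 * G.ε)
  have a1 : 98 / 100 ≤ W ^ 2 := by nlinarith
  have a2 : 24 ≤ D ^ 2 := by nlinarith
  calc 25 * (A ^ 2 * b ^ 2 * L) ≤ 25 * (a * (41 / 10) * L) := by gcongr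
    _ ≤ (2 * a) * (23 / 10 * L) * (98 / 100) * 24 := by linarith [mul_nonneg ha (by linarith : 0 ≤ L)]
    _ ≤ ω ^ 2 * M * W ^ 2 * D ^ 2 := by gcongr

lemma coefA_m0 : 1000 * G.t ^ 21 ≤ G.m0 := by
  have h := m0_big G
  have h1 := coefA_t G
  have h2 : G.t ^ 22 ≤ G.t ^ 1000 := pow_le_pow_right₀ (by linarith) (by norm_num)
  have h3 : 0 ≤ G.t ^ 21 := by positivity
  have h4 : 1000 * G.t ^ 21 ≤ G.t ^ 22 := by rw [pow_succ G.t 21]; nlinarith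
  linarith

lemma coefA_lam_le (j : ℕ) : 100 * G.lam j ≤ G.lam (j + 1) := by
  have h1 := lam_pos G j
  have h2 := coefA_L G
  rw [lam_succ]; nlinarith

lemma coefA_n_le (j : ℕ) : 12 * (G.n (j + 1) : ℝ) ≤ G.lam j / 100 := by
  have h1 := coefA_m0 G
  have h2 : (G.n (j + 1) : ℝ) = G.t ^ 21 * G.n j := by
    rw [n_succ]; push_cast; rw [La_cast]
  have h3 : (0 : ℝ) ≤ G.n j := Nat.cast_nonneg _
  have h4 := coefA_L G
  have h5 : 1000 * G.t ^ 21 * G.n j ≤ G.m0 * G.n j := mul_le_mul_of_nonneg_right h1 h3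
  have h6 : 0 ≤ G.m0 * G.n j := mul_nonneg (by linarith) h3
  rw [Geo.lam, P_cast, h2]
  nlinarith [Real.pi_gt_three]

variable {G}

lemma coefA_ctr_b (j : ℕ) : xi ((Fam.b j).ctr G) = v3 (G.lam j) 0 0 := by
  rw [Fam.ctr, coefA_xi, Geo.lam]; simp

lemma coefA_ctr_c (j : ℕ) : xi ((Fam.c j).ctr G) = v3 (G.lam (j + 1)) (G.lam j) 0 := by
  rw [Fam.ctr, coefA_xi, Geo.lam, Geo.lam]; simp

lemma coefA_ctr_y (j i : ℕ) : xi ((Fam.y j i).ctr G) = v3 (i * G.lam j) (G.lam j) 0 := by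
  rw [Fam.ctr, coefA_xi, Geo.lam]
  congr 1
  · push_cast; ring
  · simp

lemma coefA_lo1 (x y z : ℝ) : x ≤ ‖v3 x y z‖ := by
  refine (abs_le_of_sq_le_sq' ?_ (norm_nonneg _)).2
  rw [coefA_normsq]; linarith [sq_nonneg y, sq_nonneg z]

lemma coefA_lo2 (x y z : ℝ) : y ≤ ‖v3 x y z‖ := by
  refine (abs_le_of_sq_le_sq' ?_ (norm_nonneg _)).2
  rw [coefA_normsq]; linarith [sq_nonneg x, sq_nonneg z]

lemma coefA_hi {x y : ℝ} (hx : 0 ≤ x) (hy : 0 ≤ y) : ‖v3 x y 0‖ ≤ x + y := by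
  refine (abs_le_of_sq_le_sq' ?_ (by positivity)).2
  rw [coefA_normsq]; linarith [mul_nonneg hx hy]

lemma coefA_ctr_lo (F : Fam) : G.lam F.ix ≤ ‖xi (F.ctr G)‖ := by
  cases F with
  | b j => rw [coefA_ctr_b]; exact coefA_lo1 _ _ _
  | c j => rw [coefA_ctr_c]; exact coefA_lo2 _ _ _
  | y j i => rw [coefA_ctr_y]; exact coefA_lo2 _ _ _

lemma coefA_ctr_hi {F : Fam} (hF : F.ok G) :
    ‖xi (F.ctr G)‖ ≤ G.lam (F.ix + 1) + G.lam F.ix := by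
  cases F with
  | b j =>
    have h1 := lam_pos G j
    have h2 := lam_pos G (j + 1)
    rw [coefA_ctr_b]
    refine (coefA_hi (by linarith) le_rfl).trans ?_
    simp only [Fam.ix]; linarith
  | c j =>
    have h1 := lam_pos G j
    have h2 := lam_pos G (j + 1)
    rw [coefA_ctr_c]
    exact coefA_hi (by linarith) (by linarith)
  | y j i =>
    have h1 := lam_pos G j
    have h2 : (i : ℝ) ≤ G.t ^ 21 := by rw [← La_cast]; exact_mod_cast hF.2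
    rw [coefA_ctr_y]
    refine (coefA_hi (by positivity) (by linarith)).trans ?_
    simp only [Fam.ix]
    rw [lam_succ]
    nlinarith

lemma coefA_eta {ξ δ : E3} {η : ℝ} (h1 : ‖δ‖ ≤ η * ‖ξ‖) (h3 : ξ ≠ 0) : 0 ≤ η := by
  have h := norm_pos_iff.mpr h3
  by_contra hn
  have := mul_neg_of_neg_of_pos (not_le.mp hn) h
  linarith [norm_nonneg δ]

lemma coefA_add_lo {ξ δ : E3} {η : ℝ} (h1 : ‖δ‖ ≤ η * ‖ξ‖) (h2 : η ≤ 1 / 10) :
    9 / 10 * ‖ξ‖ ≤ ‖ξ + δ‖ := by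
  have h := norm_sub_le (ξ + δ) δ
  rw [add_sub_cancel_right] at h
  have := mul_le_mul_of_nonneg_right h2 (norm_nonneg ξ)
  linarith

/-- The coefficient of the projection is small. -/
lemma coefA_coef {ξ δ e : E3} {η : ℝ} (h0 : ⟪ξ, e⟫_ℝ = 0) (h1 : ‖δ‖ ≤ η * ‖ξ‖) (h2 : η ≤ 1 / 10)
    (h3 : ξ ≠ 0) : |⟪ξ + δ, e⟫_ℝ / ‖ξ + δ‖ ^ 2| * ‖ξ + δ‖ ≤ 2 * η * ‖e‖ := by
  have hξ := norm_pos_iff.mpr h3
  have hη := coefA_eta h1 h3
  have h4 := coefA_add_lo h1 h2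
  have h5 : 0 < ‖ξ + δ‖ := by linarith
  have h6 : |⟪ξ + δ, e⟫_ℝ| ≤ η * ‖ξ‖ * ‖e‖ := by
    rw [inner_add_left, h0, zero_add]
    exact (abs_real_inner_le_norm _ _).trans (mul_le_mul_of_nonneg_right h1 (norm_nonneg _))
  rw [abs_div, abs_of_pos (pow_pos h5 2), div_mul_eq_mul_div, div_le_iff₀ (pow_pos h5 2)]
  have h7 : 0 ≤ η * ‖e‖ := mul_nonneg hη (norm_nonneg _)
  calc |⟪ξ + δ, e⟫_ℝ| * ‖ξ + δ‖ ≤ η * ‖ξ‖ * ‖e‖ * ‖ξ + δ‖ :=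
        mul_le_mul_of_nonneg_right h6 h5.le
    _ = η * ‖e‖ * ‖ξ + δ‖ * ‖ξ‖ := by ring
    _ ≤ η * ‖e‖ * ‖ξ + δ‖ * (2 * ‖ξ + δ‖) :=
        mul_le_mul_of_nonneg_left (by linarith) (mul_nonneg h7 h5.le)
    _ = _ := by ring

lemma coefA_lp_sub (ξ e : E3) : lp ξ e - e = -((⟪ξ, e⟫_ℝ / ‖ξ‖ ^ 2) • ξ) := by
  rw [lp]; abel

end

end Pool.Agent.Work.MP_6bf1e5_an.Ell.Pd
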