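import Pool.Agent.Work.MP_6bf1e5_an.Ell.CoefA

/-!
The coefficients of the strain and of the ladder.
-/

open Set Complex
open scoped InnerProductSpace ComplexConjugate Classical
open Pool.Agent.Work.MP_6bf1e5_an.B
open Pool.Agent.Work.MP_6bf1e5_an.Dec

namespace Pool.Agent.Work.MP_6bf1e5_an.Ell.Pd

noncomputable section

attribute [local irreducible] Fam.S

variable {G : Geo}

lemma cb_inner_diff {a b a0 b0 : E3} {x y A B : ℝ} (ha : ‖a - a0‖ ≤ x) (hb : ‖b - b0‖ ≤ y)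
    (hA : ‖a‖ ≤ A) (hB : ‖b0‖ ≤ B) : |⟪a, b⟫_ℝ - ⟪a0, b0⟫_ℝ| ≤ A * y + x * B := by
  have e : ⟪a, b⟫_ℝ - ⟪a0, b0⟫_ℝ = ⟪a, b - b0⟫_ℝ + ⟪a - a0, b0⟫_ℝ := by
    rw [inner_sub_right, inner_sub_left]; ring
  rw [e]
  refine (abs_add_le _ _).trans (add_le_add ?_ ?_)
  · exact (abs_real_inner_le_norm _ _).trans
      (mul_le_mul hA hb (norm_nonneg _) ((norm_nonneg _).trans hA))
  · exact (abs_real_inner_le_norm _ _).trans
      (mul_le_mul ha hB (norm_nonneg _) ((norm_nonneg _).trans ha))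

lemma cb_prod {p q p0 q0 x y A B : ℝ} (hp : |p - p0| ≤ x) (hq : |q - q0| ≤ y) (hA : |p| ≤ A)
    (hB : |q0| ≤ B) : |p * q - p0 * q0| ≤ A * y + x * B := by
  have e : p * q - p0 * q0 = p * (q - q0) + (p - p0) * q0 := by ring
  rw [e]
  refine (abs_add_le _ _).trans (add_le_add ?_ ?_)
  · rw [abs_mul]; exact mul_le_mul hA hq (abs_nonneg _) ((abs_nonneg _).trans hA)
  · rw [abs_mul]; exact mul_le_mul hp hB (abs_nonneg _) ((abs_nonneg _).trans hp)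

lemma cb_inner_v3 (a b c x y z : ℝ) : ⟪v3 a b c, v3 x y z⟫_ℝ = a * x + b * y + c * z := by
  simp [v3, PiLp.inner_apply, Fin.sum_univ_three]; ring

lemma cb_norm_v3 {x y z B : ℝ} (hB : 0 ≤ B) (h : x ^ 2 + y ^ 2 + z ^ 2 ≤ B ^ 2) :
    ‖v3 x y z‖ ≤ B := by
  refine abs_le_of_sq_le_sq' ?_ hB |>.2
  rw [← real_inner_self_eq_norm_sq, cb_inner_v3]; linarith

lemma cb_le_norm_v3 {x y z : ℝ} : x ≤ ‖v3 x y z‖ := by
  refine abs_le_of_sq_le_sq' ?_ (norm_nonneg _) |>.2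
  rw [← real_inner_self_eq_norm_sq, cb_inner_v3]; linarith [sq_nonneg y, sq_nonneg z]

lemma cb_xi (a b c : ℤ) : xi ![a, b, c] = v3 (2 * Real.pi * a) (2 * Real.pi * b) (2 * Real.pi * c) := by
  ext i; fin_cases i <;> simp [xi, v3]

lemma cb_smul_v3 (s x y z : ℝ) : s • v3 x y z = v3 (s * x) (s * y) (s * z) := by
  ext i; fin_cases i <;> simp [v3]

lemma cb_m0 : 1000 ≤ G.m0 := by
  have h := m0_big G
  have h1 : (1000 : ℝ) ≤ G.t := le_trans (by norm_num) (t_big G)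
  have h2 : G.t ^ 1 ≤ G.t ^ 1000 := pow_le_pow_right₀ (by linarith) (by norm_num)
  rw [pow_one] at h2; linarith

lemma cb_lam (j : ℕ) : G.lam j = 2 * Real.pi * G.n j * G.m0 := by
  have h := lam_div G j
  have h0 : G.m0 ≠ 0 := by have := cb_m0 (G := G); linarith
  rw [← h]; field_simp

lemma cb_ctr_b (j : ℕ) : xi ((Fam.b j).ctr G) = G.lam j • v3 1 0 0 := by
  rw [Fam.ctr, cb_xi, cb_smul_v3, Geo.lam]
  congr 1 <;> simp

lemma cb_e_ne (F : Fam) : F.e G ≠ 0 := by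
  intro h
  have := norm_e_lo G F
  rw [h, norm_zero] at this; linarith

lemma cb_unit (F : Fam) : ‖(‖F.e G‖ ^ 2)⁻¹ • F.e G‖ ≤ 2 := by
  have h2 := norm_e_lo G F
  rw [norm_smul, norm_inv, norm_pow, norm_norm]
  have : (‖F.e G‖ ^ 2)⁻¹ * ‖F.e G‖ = ‖F.e G‖⁻¹ := by field_simp
  rw [this]
  exact inv_le_of_inv_le₀ (by norm_num) (by linarith)

lemma cb_sq5 : (√5 : ℝ)⁻¹ * (√5)⁻¹ = 1 / 5 := by
  rw [← mul_inv, Real.mul_self_sqrt (by norm_num)]; norm_num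

lemma cb_La : (10 : ℝ) ^ 100 ≤ G.La := by exact_mod_cast La_big G

lemma cb_ε : 0 < G.ε ∧ G.ε ≤ 1 / 2 ∧ G.ε * G.La = 1 := by
  have h1 : (2 : ℝ) ≤ G.La := le_trans (by norm_num) cb_La
  unfold Geo.ε
  refine ⟨by positivity, ?_, inv_mul_cancel₀ (by linarith)⟩
  exact inv_le_of_inv_le₀ (by norm_num) (by linarith)

lemma cb_lam_succ (j : ℕ) : G.lam (j + 1) = G.La * G.lam j := by rw [lam_succ, La_cast]

lemma cb_lam_le (j : ℕ) : G.lam j ≤ G.lam (j + 1) := by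
  have h1 : (1 : ℝ) ≤ G.La := le_trans (by norm_num) cb_La
  have := lam_pos G j
  rw [cb_lam_succ]; nlinarith

lemma cb_ge_p (x y z : ℝ) : ge (1, 1) (v3 x y z) = v3 z x y := by
  ext i; fin_cases i <;> simp [ge, v3]

lemma cb_ge_m (x y z : ℝ) : ge (1, -1) (v3 x y z) = v3 (-z) (-x) (-y) := by
  ext i; fin_cases i <;> simp [ge, v3]

lemma cb_ctr_y (j i : ℕ) : xi ((Fam.y j i).ctr G) = G.lam j • v3 i 1 0 := by
  rw [Fam.ctr, cb_xi, cb_smul_v3, Geo.lam]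
  congr 1
  · push_cast; ring
  · simp
  · simp

lemma cb_ctr_c (j : ℕ) : xi ((Fam.c j).ctr G) = G.lam j • v3 G.La 1 0 := by
  have hP : (G.P (j + 1) : ℤ) = G.La * G.P j := by exact_mod_cast P_succ G j
  rw [← cb_ctr_y]
  simp only [Fam.ctr, hP]

/-- The family `F` lives at the scales `J`, `J + 1`. -/
structure CbFit (G : Geo) (F : Fam) (J : ℕ) : Prop where
  ok : F.ok G
  sz : F.sz G ≤ G.n (J + 1)
  lo : G.lam J ≤ ‖xi (F.ctr G)‖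
  hi : ‖xi (F.ctr G)‖ ≤ 2 * G.lam (J + 1)

lemma cb_norm_row (j : ℕ) {i : ℕ} (i1 : 1 ≤ i) (i2 : i ≤ G.La) :
    G.lam j ≤ ‖G.lam j • v3 i 1 0‖ ∧ ‖G.lam j • v3 i 1 0‖ ≤ 2 * G.lam (j + 1) := by
  have hl : 0 ≤ G.lam j := le_trans zero_le_one (lam_pos G _)
  have a1 : (1 : ℝ) ≤ i := by exact_mod_cast i1
  have a2 : (i : ℝ) ≤ G.La := by exact_mod_cast i2
  rw [norm_smul, Real.norm_of_nonneg hl, cb_lam_succ]
  have h1 : (i : ℝ) ≤ ‖v3 i 1 0‖ := cb_le_norm_v3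
  have h2 : ‖v3 i 1 0‖ ≤ 2 * G.La := cb_norm_v3 (by linarith) (by nlinarith)
  constructor <;> nlinarith

lemma cb_fit_y (j : ℕ) {i : ℕ} (i1 : 1 ≤ i) (i2 : i ≤ G.La) : CbFit G (.y j i) j := by
  have := cb_norm_row (G := G) j i1 i2
  rw [← cb_ctr_y] at this
  exact ⟨⟨i1, i2⟩, le_rfl, this.1, this.2⟩

lemma cb_fit_c (j : ℕ) : CbFit G (.c j) j := by
  have := cb_norm_row (G := G) j (le_trans (by norm_num) (La_big G)) le_rfl
  rw [← cb_ctr_c] at this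
  exact ⟨trivial, le_rfl, this.1, this.2⟩

lemma cb_norm_b (j : ℕ) : ‖xi ((Fam.b j).ctr G)‖ = G.lam j := by
  have hl : 0 ≤ G.lam j := le_trans zero_le_one (lam_pos G _)
  rw [cb_ctr_b, norm_smul, Real.norm_of_nonneg hl]
  have h1 : (1 : ℝ) ≤ ‖v3 1 0 0‖ := cb_le_norm_v3
  have h2 : ‖v3 1 0 0‖ ≤ 1 := cb_norm_v3 (by norm_num) (by norm_num)
  rw [le_antisymm h2 h1, mul_one]

lemma cb_fit_b (j : ℕ) : CbFit G (.b j) j := by
  have := cb_lam_le (G := G) j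
  have := lam_pos G j
  exact ⟨trivial, n_mono G (Nat.le_succ j), (cb_norm_b j).ge, by rw [cb_norm_b]; linarith⟩

lemma cb_fit_b' (j : ℕ) : CbFit G (.b (j + 1)) j := by
  have := cb_lam_le (G := G) j
  have := lam_pos G j
  exact ⟨trivial, le_rfl, by rw [cb_norm_b]; linarith, by rw [cb_norm_b]; linarith⟩

lemma cb_rho : 0 ≤ 2 * G.t ^ 21 / G.m0 ∧ 2 * G.t ^ 21 / G.m0 ≤ 1 / 10 := by
  have h0 := cb_m0 (G := G)
  have t1 : (1000 : ℝ) ≤ G.t := le_trans (by norm_num) (t_big G)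
  have t2 : G.t ^ 22 ≤ G.t ^ 1000 := pow_le_pow_right₀ (by linarith) (by norm_num)
  have t3 : G.t ^ 22 = G.t * G.t ^ 21 := by ring
  have t4 : 0 < G.t ^ 21 := by positivity
  have t5 := m0_big G
  refine ⟨by positivity, ?_⟩
  rw [div_le_div_iff₀ (by linarith) (by norm_num)]
  nlinarith

/-- The offsets are small relative to the carriers. -/
lemma CbFit.off {F : Fam} {J : ℕ} (H : CbFit G F J) {h : Z3} (hh : h ∈ F.S G) :
    ‖xi h‖ ≤ 2 * G.t ^ 21 / G.m0 * G.lam J := by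
  have h1 := norm_xi_off hh
  have h0 := cb_m0 (G := G)
  have h2 : 2 * G.t ^ 21 / G.m0 * G.lam J = 4 * Real.pi * G.n (J + 1) := by
    have e : (G.n (J + 1) : ℝ) = G.La * G.n J := by exact_mod_cast n_succ G J
    rw [cb_lam, e, La_cast]; field_simp; ring
  have h3 : (F.sz G : ℝ) ≤ G.n (J + 1) := by exact_mod_cast H.sz
  have h4 : (0 : ℝ) ≤ G.n (J + 1) := Nat.cast_nonneg _
  rw [h2]
  nlinarith [Real.pi_gt_three]

lemma CbFit.off' {F : Fam} {J : ℕ} (H : CbFit G F J) {h : Z3} (hh : h ∈ F.S G) :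
    ‖xi h‖ ≤ 2 * G.t ^ 21 / G.m0 * ‖xi (F.ctr G)‖ :=
  (H.off hh).trans (mul_le_mul_of_nonneg_left H.lo cb_rho.1)

lemma CbFit.ne {F : Fam} {J : ℕ} (H : CbFit G F J) : xi (F.ctr G) ≠ 0 := by
  intro e
  have := H.lo
  rw [e, norm_zero] at this
  linarith [lam_pos G J]

lemma CbFit.lp_le {F : Fam} {J : ℕ} (H : CbFit G F J) {h : Z3} (hh : h ∈ F.S G) :
    ‖lp (xi (F.ctr G + h)) (F.e G) - F.e G‖ ≤ 2 * (2 * G.t ^ 21 / G.m0) * G.t ^ 11 := by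
  rw [xi_add]
  exact (lp_near (e_orth H.ok) (H.off' hh) cb_rho.2 H.ne).trans
    (mul_le_mul_of_nonneg_left (norm_e_hi G F) (by linarith [cb_rho (G := G).1]))

lemma CbFit.uv_le {F : Fam} {J : ℕ} (H : CbFit G F J) (g : Gp) {h : Z3} (hh : h ∈ F.S G) :
    ‖uv G F g h - ge g ((‖F.e G‖ ^ 2)⁻¹ • F.e G)‖ ≤ 12 * (2 * G.t ^ 21 / G.m0) := by
  rw [uv, ← ge_sub, norm_ge, xi_add]
  refine (ur_near (e_orth H.ok) (H.off' hh) cb_rho.2 H.ne (cb_e_ne F)).trans ?_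
  have h2 := norm_e_lo G F
  have := cb_rho (G := G).1
  rw [div_le_iff₀ (by linarith)]
  nlinarith

lemma CbFit.xi_le {F : Fam} {J : ℕ} (H : CbFit G F J) (g : Gp) {h : Z3} (hh : h ∈ F.S G) :
    ‖xi (pt G F g h) - ge g (xi (F.ctr G))‖ ≤ 2 * G.t ^ 21 / G.m0 * G.lam (J + 1) := by
  rw [pt, xi_gz, ← ge_sub, norm_ge, xi_add, add_sub_cancel_left]
  exact (H.off hh).trans (mul_le_mul_of_nonneg_left (cb_lam_le J) cb_rho.1)

lemma cb_half {w e u u0 η η0 v v0 : E3} {ρ L E : ℝ} (r1 : ρ ≤ 1 / 10) (L0 : 0 ≤ L)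
    (w1 : ‖w - e‖ ≤ 2 * ρ * E) (w2 : ‖w‖ ≤ E) (e2 : ‖e‖ ≤ E) (u1 : ‖u - u0‖ ≤ 12 * ρ)
    (u2 : ‖u‖ ≤ 2) (η1 : ‖η - η0‖ ≤ ρ * L) (η2 : ‖η0‖ ≤ 2 * L) (v1 : ‖v - v0‖ ≤ 12 * ρ)
    (v2 : ‖v0‖ ≤ 2) :
    |⟪u, η⟫_ℝ * ⟪w, v⟫_ℝ - ⟪u0, η0⟫_ℝ * ⟪e, v0⟫_ℝ| ≤ 148 * (ρ * L * E) := by
  have E0 : 0 ≤ E := (norm_nonneg _).trans e2
  have η3 : ‖η‖ ≤ 3 * L := by
    have := norm_add_le (η - η0) η0
    rw [sub_add_cancel] at this
    have e : ρ * L ≤ 1 * L := mul_le_mul_of_nonneg_right (by linarith) L0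
    linarith
  have p1 := cb_inner_diff u1 η1 u2 η2
  have p2 := cb_inner_diff w1 v1 w2 v2
  have p3 : |⟪u, η⟫_ℝ| ≤ 2 * (3 * L) := (abs_real_inner_le_norm _ _).trans
    (mul_le_mul u2 η3 (norm_nonneg _) (by norm_num))
  have p4 : |⟪e, v0⟫_ℝ| ≤ E * 2 :=
    (abs_real_inner_le_norm _ _).trans (mul_le_mul e2 v2 (norm_nonneg _) E0)
  exact (cb_prod p1 p2 p3 p4).trans (le_of_eq (by ring))

/-- The coefficients are close to their values at the carriers. -/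
lemma cb_main {F F1 F2 : Fam} {J : ℕ} (H : CbFit G F J) (H1 : CbFit G F1 J) (H2 : CbFit G F2 J)
    (g g' : Gp) {h h1 h2 : Z3} (hh : h ∈ F.S G) (a1 : h1 ∈ F1.S G) (a2 : h2 ∈ F2.S G) {x : ℝ}
    (hx : cfR (F.e G) (ge g (xi (F1.ctr G))) (ge g ((‖F1.e G‖ ^ 2)⁻¹ • F1.e G))
      (ge g' (xi (F2.ctr G))) (ge g' ((‖F2.e G‖ ^ 2)⁻¹ • F2.e G)) = x) :
    |CF G F h F1 g h1 F2 g' h2 - x| ≤ G.lam (J + 1) * G.tau0 := by
  have L0 : 0 ≤ G.lam (J + 1) := le_trans zero_le_one (lam_pos G _)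
  have w2 := (norm_lp_le (xi (F.ctr G + h)) (F.e G)).trans (norm_e_hi G F)
  have k1 := cb_half cb_rho.2 L0 (H.lp_le hh) w2 (norm_e_hi G F) (H1.uv_le g a1)
    (norm_uv_le H1.ok g a1) (H2.xi_le g' a2) (by rw [norm_ge]; exact H2.hi) (H2.uv_le g' a2)
    (by rw [norm_ge]; exact cb_unit F2)
  have k2 := cb_half cb_rho.2 L0 (H.lp_le hh) w2 (norm_e_hi G F) (H2.uv_le g' a2)
    (norm_uv_le H2.ok g' a2) (H1.xi_le g a1) (by rw [norm_ge]; exact H1.hi) (H1.uv_le g a1)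
    (by rw [norm_ge]; exact cb_unit F1)
  rw [← hx, CF, cfR, cfR, add_sub_add_comm]
  refine (abs_add_le _ _).trans ((add_le_add k1 k2).trans ?_)
  have h0 := cb_m0 (G := G)
  have e1 : 148 * (2 * G.t ^ 21 / G.m0 * G.lam (J + 1) * G.t ^ 11) +
      148 * (2 * G.t ^ 21 / G.m0 * G.lam (J + 1) * G.t ^ 11) =
      592 * G.t ^ 32 * (G.lam (J + 1) / G.m0) := by ring
  have e2 : G.lam (J + 1) * G.tau0 = G.t ^ 60 * (G.lam (J + 1) / G.m0) := by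
    rw [Geo.tau0]; ring
  rw [e1, e2]
  refine mul_le_mul_of_nonneg_right ?_ (by positivity)
  have t1 : (1000 : ℝ) ≤ G.t := le_trans (by norm_num) (t_big G)
  have t2 : G.t ^ 33 ≤ G.t ^ 60 := pow_le_pow_right₀ (by linarith) (by norm_num)
  have t3 : G.t ^ 33 = G.t * G.t ^ 32 := by ring
  have t4 : 0 < G.t ^ 32 := by positivity
  nlinarith

lemma cb_unit_b (j : ℕ) :
    (‖(Fam.b j).e G‖ ^ 2)⁻¹ • (Fam.b j).e G = (√5)⁻¹ • v3 0 1 (-2) := by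
  have eB : (Fam.b j).e G = G.eB := rfl
  rw [eB, norm_eB, one_pow, inv_one, one_smul, Geo.eB]

lemma cb_e_y (j : ℕ) {i : ℕ} (hi : i ≠ G.La) : (Fam.y j i).e G = v3 0 0 1 := if_neg hi

lemma cb_unit_y (j : ℕ) {i : ℕ} (hi : i ≠ G.La) :
    (‖(Fam.y j i).e G‖ ^ 2)⁻¹ • (Fam.y j i).e G = v3 0 0 1 := by
  rw [cb_e_y j hi, ← real_inner_self_eq_norm_sq, cb_inner_v3]
  norm_num

lemma cb_eC_sq : (‖G.eC‖ ^ 2)⁻¹ * (3 - 4 * G.ε) = G.ε / 4 + G.ε ^ 2 := by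
  obtain ⟨e0, e1, -⟩ := cb_ε (G := G)
  have p1 : 0 < G.ε / 4 + G.ε ^ 2 := by positivity
  have p2 : 0 < 4 * G.ε ^ 2 + 4 + G.z ^ 2 := by positivity
  have p3 : 0 < 3 - 4 * G.ε := by linarith
  have m : G.mC ^ 2 = (3 - 4 * G.ε) / ((G.ε / 4 + G.ε ^ 2) * (4 * G.ε ^ 2 + 4 + G.z ^ 2)) :=
    Real.sq_sqrt (by positivity)
  have n : ‖G.eC‖ ^ 2 = G.mC ^ 2 * (4 * G.ε ^ 2 + 4 + G.z ^ 2) := by
    rw [← real_inner_self_eq_norm_sq, Geo.eC, real_inner_smul_left, real_inner_smul_right,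
      cb_inner_v3]
    ring
  rw [n, m]
  field_simp

/-- Strain, seen from the first comb. -/
theorem cf_B {j : ℕ} {h h1 h2 : Z3} (hh : h ∈ (Fam.b (j + 1)).S G) (a1 : h1 ∈ (Fam.c j).S G)
    (a2 : h2 ∈ (Fam.b j).S G) :
    |CF G (.b (j + 1)) h (.c j) g1 h1 (.b j) (1, -1) h2 - G.kp * G.lam j| ≤
      G.lam (j + 1) * G.tau0 := by
  refine cb_main (cb_fit_b' j) (cb_fit_c j) (cb_fit_b j) _ _ hh a1 a2 ?_
  have eB : (Fam.b (j + 1)).e G = G.eB := rfl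
  have eC : (Fam.c j).e G = G.eC := rfl
  have h5 := cb_sq5
  have hc := cb_eC_sq (G := G)
  have he := (cb_ε (G := G)).2.2
  rw [cb_unit_b, eB, eC, cb_ctr_c, cb_ctr_b, ge_g1, ge_g1, ge_smul, ge_smul, cb_ge_m, cb_ge_m]
  generalize (‖G.eC‖ ^ 2)⁻¹ = N at hc
  simp only [cfR, Geo.eB, Geo.eC, Geo.kp, Geo.z, real_inner_smul_left, real_inner_smul_right,
    cb_inner_v3]
  generalize (√5 : ℝ)⁻¹ = s at h5
  linear_combination (G.lam j * G.mC * N * (4 - 4 * G.La * (G.ε / 4 + G.ε ^ 2))) * h5 +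
    G.lam j * G.mC / 5 * hc - G.lam j * G.mC * N / 5 * (1 + 4 * G.ε) * he

/-- Strain, seen from the second comb. -/
theorem cf_C {j : ℕ} {h h1 h2 : Z3} (hh : h ∈ (Fam.c j).S G) (a1 : h1 ∈ (Fam.b (j + 1)).S G)
    (a2 : h2 ∈ (Fam.b j).S G) :
    |CF G (.c j) h (.b (j + 1)) g1 h1 (.b j) (1, 1) h2 - G.kp * G.lam j| ≤
      G.lam (j + 1) * G.tau0 := by
  refine cb_main (cb_fit_c j) (cb_fit_b' j) (cb_fit_b j) _ _ hh a1 a2 ?_
  have eC : (Fam.c j).e G = G.eC := rfl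
  have h5 := cb_sq5
  have he := (cb_ε (G := G)).2.2
  rw [cb_unit_b, cb_unit_b, eC, cb_ctr_b, cb_ctr_b, ge_g1, ge_g1, ge_smul, ge_smul, cb_ge_p,
    cb_ge_p, cb_lam_succ]
  simp only [cfR, Geo.eC, Geo.kp, Geo.z, real_inner_smul_left, real_inner_smul_right,
    cb_inner_v3]
  generalize (√5 : ℝ)⁻¹ = s at h5
  linear_combination (G.lam j * G.mC * ((-1 + G.ε / 4 + G.ε ^ 2 - 4 * G.ε) +
    4 * G.La * (G.ε / 4 + G.ε ^ 2))) * h5 + G.lam j * G.mC / 5 * (1 + 4 * G.ε) * he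

/-- The first rung. -/
theorem cf_Y1 {j : ℕ} {h h1 h2 : Z3} (hh : h ∈ (Fam.y j 1).S G) (a1 : h1 ∈ (Fam.b j).S G)
    (a2 : h2 ∈ (Fam.b j).S G) :
    |CF G (.y j 1) h (.b j) g1 h1 (.b j) (1, 1) h2 - G.cy 1 * G.lam j| ≤
      G.lam (j + 1) * G.tau0 := by
  have l2 : 2 ≤ G.La := le_trans (by norm_num) (La_big G)
  refine cb_main (cb_fit_y j le_rfl (by omega)) (cb_fit_b j) (cb_fit_b j) _ _ hh a1 a2 ?_
  have h5 := cb_sq5
  rw [cb_unit_b, cb_e_y j (by omega), cb_ctr_b, ge_g1, ge_g1, ge_smul, ge_smul, cb_ge_p,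
    cb_ge_p, Geo.cy, if_pos le_rfl]
  simp only [cfR, real_inner_smul_left, real_inner_smul_right, cb_inner_v3]
  generalize (√5 : ℝ)⁻¹ = s at h5
  linear_combination (5 * G.lam j) * h5

/-- The other rungs. -/
theorem cf_Y {j i : ℕ} (i1 : 1 ≤ i) (i2 : i < G.La) {h h1 h2 : Z3}
    (hh : h ∈ (Fam.y j (i + 1)).S G) (a1 : h1 ∈ (Fam.b j).S G) (a2 : h2 ∈ (Fam.y j i).S G) :
    |CF G (.y j (i + 1)) h (.b j) g1 h1 (.y j i) g1 h2 - G.cy (i + 1) * G.lam j| ≤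
      G.lam (j + 1) * G.tau0 := by
  refine cb_main (cb_fit_y j (by omega) i2) (cb_fit_b j) (cb_fit_y j i1 i2.le) _ _ hh a1 a2 ?_
  have h5 := cb_sq5
  rw [cb_unit_b, cb_unit_y j i2.ne, cb_ctr_b, cb_ctr_y, ge_g1, ge_g1, ge_g1, ge_g1, Geo.cy,
    if_neg (by omega), Fam.e]
  split_ifs
  · simp only [cfR, Geo.eU, real_inner_smul_left, real_inner_smul_right, cb_inner_v3]
    generalize (√5 : ℝ)⁻¹ = s at h5
    linear_combination (2 * (1 + G.ε ^ 2) * G.lam j) * h5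
  · simp only [cfR, real_inner_smul_left, real_inner_smul_right, cb_inner_v3]
    ring

end

end Pool.Agent.Work.MP_6bf1e5_an.Ell.Pd
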