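import Pool.Agent.Work.MP_6bf1e5_an.Ell.CoefA

/-!
The coefficients of the seed.
-/

open Set Complex
open scoped InnerProductSpace ComplexConjugate Classical
open Pool.Agent.Work.MP_6bf1e5_an.B
open Pool.Agent.Work.MP_6bf1e5_an.Dec

namespace Pool.Agent.Work.MP_6bf1e5_an.Ell.Pd

noncomputable section

attribute [local irreducible] Fam.S

variable {G : Geo}

lemma cc_inner_diff {a b a0 b0 : E3} {x y A B : ℝ} (ha : ‖a - a0‖ ≤ x) (hb : ‖b - b0‖ ≤ y)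
    (hA : ‖a‖ ≤ A) (hB : ‖b0‖ ≤ B) : |⟪a, b⟫_ℝ - ⟪a0, b0⟫_ℝ| ≤ A * y + x * B := by
  have e : ⟪a, b⟫_ℝ - ⟪a0, b0⟫_ℝ = ⟪a, b - b0⟫_ℝ + ⟪a - a0, b0⟫_ℝ := by
    rw [inner_sub_right, inner_sub_left]; ring
  rw [e]
  refine (abs_add_le _ _).trans (add_le_add ?_ ?_)
  · exact (abs_real_inner_le_norm _ _).trans
      (mul_le_mul hA hb (norm_nonneg _) ((norm_nonneg _).trans hA))
  · exact (abs_real_inner_le_norm _ _).trans
      (mul_le_mul ha hB (norm_nonneg _) ((norm_nonneg _).trans ha))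

lemma cc_prod {p q p0 q0 x y A B : ℝ} (hp : |p - p0| ≤ x) (hq : |q - q0| ≤ y) (hA : |p| ≤ A)
    (hB : |q0| ≤ B) : |p * q - p0 * q0| ≤ A * y + x * B := by
  have e : p * q - p0 * q0 = p * (q - q0) + (p - p0) * q0 := by ring
  rw [e]
  refine (abs_add_le _ _).trans (add_le_add ?_ ?_)
  · rw [abs_mul]; exact mul_le_mul hA hq (abs_nonneg _) ((abs_nonneg _).trans hA)
  · rw [abs_mul]; exact mul_le_mul hp hB (abs_nonneg _) ((abs_nonneg _).trans hp)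

lemma cc_inner_v3 (a b c x y z : ℝ) : ⟪v3 a b c, v3 x y z⟫_ℝ = a * x + b * y + c * z := by
  simp [v3, PiLp.inner_apply, Fin.sum_univ_three]; ring

lemma cc_ge_go (o : Fin 4) (x y z : ℝ) : ge (go o) (v3 x y z) =
    ![v3 z x y, v3 (-z) (-x) (-y), v3 y z x, v3 (-y) (-z) (-x)] o := by
  fin_cases o <;> ext i <;> fin_cases i <;> simp [ge, go, v3]

lemma cc_norm_v3 {x y z B : ℝ} (hB : 0 ≤ B) (h : x ^ 2 + y ^ 2 + z ^ 2 ≤ B ^ 2) :
    ‖v3 x y z‖ ≤ B := by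
  refine abs_le_of_sq_le_sq' ?_ hB |>.2
  rw [← real_inner_self_eq_norm_sq, cc_inner_v3]; linarith

lemma cc_le_norm_v3 {x y z : ℝ} : x ≤ ‖v3 x y z‖ := by
  refine abs_le_of_sq_le_sq' ?_ (norm_nonneg _) |>.2
  rw [← real_inner_self_eq_norm_sq, cc_inner_v3]; linarith [sq_nonneg y, sq_nonneg z]

lemma cc_xi (a b c : ℤ) : xi ![a, b, c] = v3 (2 * Real.pi * a) (2 * Real.pi * b) (2 * Real.pi * c) := by
  ext i; fin_cases i <;> simp [xi, v3]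

lemma cc_smul_v3 (s x y z : ℝ) : s • v3 x y z = v3 (s * x) (s * y) (s * z) := by
  ext i; fin_cases i <;> simp [v3]

lemma cc_t : (10 : ℝ) ^ 100 ≤ G.t := t_big G

lemma cc_m0 : 1000 ≤ G.m0 := by
  have h := m0_big G
  have h1 : (1000 : ℝ) ≤ G.t := le_trans (by norm_num) (t_big G)
  have h2 : G.t ^ 1 ≤ G.t ^ 1000 := pow_le_pow_right₀ (by linarith) (by norm_num)
  rw [pow_one] at h2; linarith

lemma cc_lam (j : ℕ) : G.lam j = 2 * Real.pi * G.n j * G.m0 := by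
  have h := lam_div G j
  have h0 : G.m0 ≠ 0 := by have := cc_m0 (G := G); linarith
  rw [← h]; field_simp

lemma cc_ε : 0 < G.ε ∧ G.ε ≤ 1 ∧ G.ε * G.La = 1 := by
  have h : (10 : ℝ) ^ 100 ≤ G.La := by exact_mod_cast La_big G
  have h1 : (1 : ℝ) ≤ G.La := le_trans (by norm_num) h
  unfold Geo.ε
  refine ⟨by positivity, inv_le_one_of_one_le₀ h1, ?_⟩
  exact inv_mul_cancel₀ (by linarith)

lemma cc_ctr_c (j : ℕ) : xi ((Fam.c j).ctr G) = G.lam (j + 1) • v3 1 G.ε 0 := by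
  have h := (cc_ε (G := G)).2.2
  have hP : (G.P (j + 1) : ℝ) = G.La * G.P j := by exact_mod_cast P_succ G j
  rw [Fam.ctr, cc_xi, cc_smul_v3, Geo.lam]
  congr 1
  · simp
  · rw [hP]; push_cast
    calc 2 * Real.pi * (G.P j : ℝ) = 2 * Real.pi * (G.P j : ℝ) * (G.ε * G.La) := by rw [h, mul_one]
      _ = _ := by ring
  · simp

lemma cc_ctr_b (j : ℕ) : xi ((Fam.b j).ctr G) = G.lam j • v3 1 0 0 := by
  rw [Fam.ctr, cc_xi, cc_smul_v3, Geo.lam]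
  congr 1 <;> simp

lemma cc_ctr_y (j : ℕ) : (Fam.y j G.La).ctr G = (Fam.c j).ctr G := by
  have hP : (G.P (j + 1) : ℤ) = G.La * G.P j := by exact_mod_cast P_succ G j
  simp only [Fam.ctr, hP]

lemma cc_ok_y (j : ℕ) : (Fam.y j G.La).ok G :=
  ⟨le_trans (by norm_num) (La_big G), le_rfl⟩

/-- The offsets are small relative to the carriers. -/
lemma cc_off {F : Fam} {h : Z3} (hh : h ∈ F.S G) {m : ℕ} (hs : F.sz G = G.n m)
    (hX : G.lam m ≤ ‖xi (F.ctr G)‖) : ‖xi h‖ ≤ 2 / G.m0 * ‖xi (F.ctr G)‖ := by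
  have h1 := norm_xi_off hh
  have h0 := cc_m0 (G := G)
  rw [hs] at h1
  have h2 : 2 / G.m0 * G.lam m = 4 * Real.pi * G.n m := by
    rw [cc_lam]; field_simp; ring
  have h3 : 2 / G.m0 * G.lam m ≤ 2 / G.m0 * ‖xi (F.ctr G)‖ :=
    mul_le_mul_of_nonneg_left hX (by positivity)
  have h4 : (0 : ℝ) ≤ G.n m := Nat.cast_nonneg _
  nlinarith [Real.pi_gt_three]

lemma cc_norm_ctr_c (j : ℕ) : G.lam (j + 1) ≤ ‖xi ((Fam.c j).ctr G)‖ ∧
    ‖xi ((Fam.c j).ctr G)‖ ≤ 2 * G.lam (j + 1) := by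
  have h := cc_ε (G := G)
  have hl : 0 ≤ G.lam (j + 1) := le_trans zero_le_one (lam_pos G _)
  rw [cc_ctr_c, norm_smul, Real.norm_of_nonneg hl]
  have h1 : (1 : ℝ) ≤ ‖v3 1 G.ε 0‖ := cc_le_norm_v3
  have h2 : ‖v3 1 G.ε 0‖ ≤ 2 := cc_norm_v3 (by norm_num) (by nlinarith)
  constructor <;> nlinarith

lemma cc_norm_ctr_b (j : ℕ) : G.lam j ≤ ‖xi ((Fam.b j).ctr G)‖ ∧
    ‖xi ((Fam.b j).ctr G)‖ ≤ 2 * G.lam j := by
  have hl : 0 ≤ G.lam j := le_trans zero_le_one (lam_pos G _)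
  rw [cc_ctr_b, norm_smul, Real.norm_of_nonneg hl]
  have h1 : (1 : ℝ) ≤ ‖v3 1 0 0‖ := cc_le_norm_v3
  have h2 : ‖v3 1 0 0‖ ≤ 2 := cc_norm_v3 (by norm_num) (by norm_num)
  constructor <;> nlinarith

lemma cc_orth : ⟪G.eC, G.eU⟫_ℝ = 0 := by
  rw [Geo.eC, Geo.eU, real_inner_smul_left, real_inner_smul_right, cc_inner_v3]
  ring

lemma cc_e_ne (F : Fam) : F.e G ≠ 0 := by
  intro h
  have := norm_e_lo G F
  rw [h, norm_zero] at this; linarith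

lemma cc_ur_near {F : Fam} (hF : F.ok G) {h : Z3} (hh : h ∈ F.S G) {m : ℕ} (hs : F.sz G = G.n m)
    (hX : G.lam m ≤ ‖xi (F.ctr G)‖) :
    ‖ur (xi (F.ctr G + h)) (F.e G) - (‖F.e G‖ ^ 2)⁻¹ • F.e G‖ ≤ 24 / G.m0 := by
  have h0 := cc_m0 (G := G)
  have hρ : 2 / G.m0 ≤ 1 / 10 := by rw [div_le_div_iff₀ (by linarith) (by norm_num)]; linarith
  have hX0 : xi (F.ctr G) ≠ 0 := by
    intro e; rw [e, norm_zero] at hX; linarith [lam_pos G m]
  have h1 := ur_near (e_orth hF) (cc_off hh hs hX) hρ hX0 (cc_e_ne F)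
  rw [xi_add]
  refine h1.trans ?_
  have h2 := norm_e_lo G F
  rw [div_le_div_iff₀ (by linarith) (by linarith)]
  have : 10 * (2 / G.m0) * G.m0 = 20 := by field_simp; ring
  rw [this]; linarith

lemma cc_unit (F : Fam) : ‖(‖F.e G‖ ^ 2)⁻¹ • F.e G‖ ≤ 2 := by
  have h2 := norm_e_lo G F
  rw [norm_smul, norm_inv, norm_pow, norm_norm]
  have : (‖F.e G‖ ^ 2)⁻¹ * ‖F.e G‖ = ‖F.e G‖⁻¹ := by field_simp
  rw [this]
  exact inv_le_of_inv_le₀ (by norm_num) (by linarith)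

/-- The coefficient of the seed is close to its value at the carriers. -/
lemma cc_main {j m : ℕ} {F : Fam} (hF : F.ok G) (hs : F.sz G = G.n m) (hm : m + G.kk = j + 1)
    (hX : G.lam m ≤ ‖xi (F.ctr G)‖) (hX' : ‖xi (F.ctr G)‖ ≤ 2 * G.lam m) (g : Gp) {h h1 h2 : Z3}
    (hh : h ∈ (Fam.c j).S G) (a1 : h1 ∈ (Fam.y j G.La).S G) (a2 : h2 ∈ F.S G) :
    |CF G (.c j) h (.y j G.La) g1 h1 F g h2 -
      ⟪(‖G.eU‖ ^ 2)⁻¹ • G.eU, ge g (xi (F.ctr G))⟫_ℝ *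
        ⟪G.eC, ge g ((‖F.e G‖ ^ 2)⁻¹ • F.e G)⟫_ℝ| ≤ G.lam (j + 1) * (G.tau0 / G.m0) := by
  have h0 := cc_m0 (G := G)
  have hρ : 2 / G.m0 ≤ 1 / 10 := by rw [div_le_div_iff₀ (by linarith) (by norm_num)]; linarith
  have okc : (Fam.c j).ok G := trivial
  have oky := cc_ok_y (G := G) j
  have eU : (Fam.y j G.La).e G = G.eU := by simp [Fam.e]
  have eC : (Fam.c j).e G = G.eC := rfl
  set L := G.lam m with hL
  have L1 : 1 ≤ L := lam_pos G m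
  have hLj : G.lam (j + 1) = L * G.m0 := by
    have e1 : G.P m = G.n (j + 1) := by rw [P_eq, hm]
    rw [cc_lam, hL, Geo.lam, e1]
  set E := G.t ^ 11 with hE
  have hEC : ‖G.eC‖ ≤ E := norm_e_hi G (.c j)
  have E0 : 0 ≤ E := (norm_nonneg _).trans hEC
  have hXc := cc_norm_ctr_c (G := G) j
  have hXc0 : xi ((Fam.c j).ctr G) ≠ 0 := by
    intro e; rw [e, norm_zero] at hXc; linarith [lam_pos G (j + 1), hXc.1]
  have oc := cc_off hh (m := j + 1) rfl hXc.1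
  have oy := cc_off a1 (m := j + 1) rfl (by rw [cc_ctr_y]; exact hXc.1)
  have o2 := cc_off a2 hs hX
  -- the four vectors
  set w := lp (xi ((Fam.c j).ctr G + h)) ((Fam.c j).e G) with hw
  set u := uv G (.y j G.La) g1 h1 with hu
  set η := xi (pt G F g h2) with hη
  set v := uv G F g h2 with hv
  have w1 : ‖w - G.eC‖ ≤ 4 / G.m0 * E := by
    have := lp_near (e_orth okc) oc hρ hXc0
    rw [hw, xi_add]
    refine this.trans ?_
    rw [eC]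
    have e : 2 * (2 / G.m0) = 4 / G.m0 := by ring
    rw [e]; exact mul_le_mul_of_nonneg_left hEC (by positivity)
  have w2 : ‖w‖ ≤ E := (norm_lp_le _ _).trans hEC
  have u1 : ‖u - (‖G.eU‖ ^ 2)⁻¹ • G.eU‖ ≤ 24 / G.m0 := by
    have := cc_ur_near oky a1 (m := j + 1) rfl (by rw [cc_ctr_y]; exact hXc.1)
    rw [hu, uv, ge_g1]; rwa [eU] at this ⊢
  have u2 : ‖u‖ ≤ 2 := norm_uv_le oky _ a1
  have η1 : ‖η - ge g (xi (F.ctr G))‖ ≤ 4 / G.m0 * L := by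
    rw [hη, pt, xi_gz, ← ge_sub, norm_ge, xi_add, add_sub_cancel_left]
    refine o2.trans ?_
    have e : 4 / G.m0 * L = 2 / G.m0 * (2 * L) := by ring
    rw [e]; exact mul_le_mul_of_nonneg_left hX' (by positivity)
  have η2 : ‖ge g (xi (F.ctr G))‖ ≤ 2 * L := by rw [norm_ge]; exact hX'
  have η3 : ‖η‖ ≤ 3 * L := by
    have := norm_add_le (η - ge g (xi (F.ctr G))) (ge g (xi (F.ctr G)))
    rw [sub_add_cancel] at this
    have e : 4 / G.m0 * L ≤ 1 * L := mul_le_mul_of_nonneg_right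
      (by rw [div_le_one (by linarith)]; linarith) (by linarith)
    linarith
  have v1 : ‖v - ge g ((‖F.e G‖ ^ 2)⁻¹ • F.e G)‖ ≤ 24 / G.m0 := by
    rw [hv, uv, ← ge_sub, norm_ge]; exact cc_ur_near hF a2 hs hX
  have v2 : ‖v‖ ≤ 2 := norm_uv_le hF _ a2
  have v3' : ‖ge g ((‖F.e G‖ ^ 2)⁻¹ • F.e G)‖ ≤ 2 := by rw [norm_ge]; exact cc_unit F
  have p1 := cc_inner_diff u1 η1 u2 η2
  have p2 := cc_inner_diff w1 v1 w2 v3'
  have p3 : |⟪u, η⟫_ℝ| ≤ 2 * (3 * L) := (abs_real_inner_le_norm _ _).trans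
    (mul_le_mul u2 η3 (norm_nonneg _) (by norm_num))
  have p4 : |⟪G.eC, ge g ((‖F.e G‖ ^ 2)⁻¹ • F.e G)⟫_ℝ| ≤ E * 2 :=
    (abs_real_inner_le_norm _ _).trans (mul_le_mul hEC v3' (norm_nonneg _) E0)
  have p5 := cc_prod p1 p2 p3 p4
  -- the second order term
  set ξ := xi (pt G (.y j G.La) g1 h1) with hξ
  have q1 : ‖ξ‖ ≤ 11 / 10 * (L * G.m0) := by
    rw [hξ, pt, gz_g1, ← ax_eq_norm, ← hLj]; exact ax_hi oky a1
  have q2 : |⟪v, ξ⟫_ℝ| ≤ 2 * (11 / 10 * (L * G.m0)) := (abs_real_inner_le_norm _ _).trans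
    (mul_le_mul v2 q1 (norm_nonneg _) (by norm_num))
  have q3 : |⟪w, u⟫_ℝ| ≤ 4 * (10 * (2 / G.m0) ^ 2 * (E * (11 / 10))) := by
    have b1 := norm_lp_lo oky a1
    have o1 : ⟪xi ((Fam.c j).ctr G), G.eU⟫_ℝ = 0 := by
      have := e_orth oky; rwa [cc_ctr_y, eU] at this
    have b2 := inner_lp_lp (e_orth okc) o1 cc_orth oc (by rwa [cc_ctr_y] at oy) hρ hXc0
    have b3 : ‖G.eU‖ ≤ 11 / 10 := by have := norm_e_y G j G.La; rwa [eU] at this
    rw [hu, uv, ge_g1, ur, real_inner_smul_right, abs_mul]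
    refine mul_le_mul ?_ ?_ (abs_nonneg _) (by norm_num)
    · rw [abs_of_nonneg (by positivity)]
      exact inv_le_of_inv_le₀ (by norm_num)
        (le_trans (by norm_num) (pow_le_pow_left₀ (by norm_num) b1 2))
    · rw [hw, cc_ctr_y, eU, xi_add, xi_add]
      refine b2.trans (mul_le_mul_of_nonneg_left ?_ (by positivity))
      exact mul_le_mul hEC b3 (norm_nonneg _) E0
  have q4 : |⟪v, ξ⟫_ℝ * ⟪w, u⟫_ℝ| ≤
      2 * (11 / 10 * (L * G.m0)) * (4 * (10 * (2 / G.m0) ^ 2 * (E * (11 / 10)))) := by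
    rw [abs_mul]; exact mul_le_mul q2 q3 (abs_nonneg _) (by positivity)
  have e1 : CF G (.c j) h (.y j G.La) g1 h1 F g h2 = ⟪u, η⟫_ℝ * ⟪w, v⟫_ℝ + ⟪v, ξ⟫_ℝ * ⟪w, u⟫_ℝ := rfl
  rw [e1, add_sub_right_comm]
  refine (abs_add_le _ _).trans ((add_le_add p5 q4).trans ?_)
  have e2 : G.lam (j + 1) * (G.tau0 / G.m0) = G.t ^ 60 * (L / G.m0) := by
    rw [hLj, Geo.tau0]; field_simp
  have e3 : 2 * (3 * L) * (E * (24 / G.m0) + 4 / G.m0 * E * 2) +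
      (2 * (4 / G.m0 * L) + 24 / G.m0 * (2 * L)) * (E * 2) +
      2 * (11 / 10 * (L * G.m0)) * (4 * (10 * (2 / G.m0) ^ 2 * (E * (11 / 10)))) =
      (3456 / 5 * E) * (L / G.m0) := by
    field_simp; ring
  rw [e2, e3]
  refine mul_le_mul_of_nonneg_right ?_ (by positivity)
  have t1 : (1000 : ℝ) ≤ G.t := le_trans (by norm_num) (t_big G)
  have t2 : G.t ^ 12 ≤ G.t ^ 60 := pow_le_pow_right₀ (by linarith) (by norm_num)
  have t3 : G.t ^ 12 = G.t * E := by rw [hE]; ring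
  linarith [mul_le_mul_of_nonneg_right t1 E0]

lemma cc_sq5 : (√5 : ℝ)⁻¹ * (√5)⁻¹ = 1 / 5 := by
  rw [← mul_inv, Real.mul_self_sqrt (by norm_num)]; norm_num

lemma cc_val (o : Fin 4) : ⟪G.eU, ge (go o) (v3 1 0 0)⟫_ℝ * ⟪G.eC, ge (go o) G.eB⟫_ℝ =
    G.om o * (G.mC * (G.z * (G.z - 4 * G.ε)) / 5) := by
  have hz : G.z * (G.z - 4 * G.ε) ≠ 0 := by
    intro h
    have := om_lo G
    rw [Geo.om0, h, div_zero] at this; linarith
  have ho : G.om0 * (G.z * (G.z - 4 * G.ε)) = 4 * (1 + G.ε ^ 2) * (2 + G.ε) := by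
    rw [Geo.om0, div_mul_cancel₀ _ hz]
  have h5 := cc_sq5
  rw [Geo.eU, Geo.eC, Geo.eB, ge_smul, real_inner_smul_left, real_inner_smul_left,
    real_inner_smul_right, cc_ge_go, cc_ge_go]
  fin_cases o
  · simp only [Geo.om, Fin.zero_eta, Matrix.cons_val_zero, cc_inner_v3]
    linear_combination (G.mC * (G.z * (G.z - 4 * G.ε))) * h5
  · simp only [Geo.om, Fin.mk_one, Matrix.cons_val_one, Matrix.cons_val_zero, cc_inner_v3]
    linear_combination (G.mC * (G.z * (G.z - 4 * G.ε))) * h5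
  · simp only [Geo.om, Fin.reduceFinMk, Matrix.cons_val, cc_inner_v3]
    linear_combination (G.mC * (4 * (1 + G.ε ^ 2) * (2 + G.ε))) * h5 - G.mC / 5 * ho
  · simp only [Geo.om, Fin.reduceFinMk, Matrix.cons_val, cc_inner_v3]
    linear_combination (G.mC * (4 * (1 + G.ε ^ 2) * (2 + G.ε))) * h5 - G.mC / 5 * ho

/-- The seed, first comb. -/
theorem cf_S1 {j i : ℕ} (hi : i + G.kk = j + 1) (o : Fin 4) {h h1 h2 : Z3}
    (hh : h ∈ (Fam.c j).S G) (a1 : h1 ∈ (Fam.y j G.La).S G) (a2 : h2 ∈ (Fam.b i).S G) :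
    |CF G (.c j) h (.y j G.La) g1 h1 (.b i) (go o) h2 -
      G.om o * (G.cf * (2 * Real.pi * G.n (j + 1)))| ≤ G.lam (j + 1) * (G.tau0 / G.m0) := by
  have hX := cc_norm_ctr_b (G := G) i
  have H := cc_main (F := .b i) trivial rfl hi hX.1 hX.2 (go o) hh a1 a2
  have e1 : G.lam i = 2 * Real.pi * G.n (j + 1) := by rw [Geo.lam, P_eq, hi]
  have eB : (Fam.b i).e G = G.eB := rfl
  have hv := cc_val (G := G) o
  convert H using 3
  rw [cc_ctr_b, eB, norm_eB, ge_smul, ge_smul, real_inner_smul_left, real_inner_smul_right,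
    real_inner_smul_right, e1, Geo.cf]
  have e2 : G.mC * (G.z * (G.z - 4 * G.ε)) / (5 * ‖G.eU‖ ^ 2) =
      G.mC * (G.z * (G.z - 4 * G.ε)) / 5 * (‖G.eU‖ ^ 2)⁻¹ := by
    rw [← div_div, div_eq_mul_inv _ (‖G.eU‖ ^ 2)]
  rw [e2]
  linear_combination (-(‖G.eU‖ ^ 2)⁻¹ * (2 * Real.pi * G.n (j + 1))) * hv

/-- The seed, second comb. -/
theorem cf_S2 {j i : ℕ} (hi : i + 1 + G.kk = j + 1) (o : Fin 4) {h h1 h2 : Z3}
    (hh : h ∈ (Fam.c j).S G) (a1 : h1 ∈ (Fam.y j G.La).S G) (a2 : h2 ∈ (Fam.c i).S G) :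
    |CF G (.c j) h (.y j G.La) g1 h1 (.c i) (go o) h2 -
      G.om o * (G.cf * (2 * Real.pi * G.n (j + 1))) * G.cq o| ≤
      G.lam (j + 1) * (G.tau0 / G.m0) := by
  have hX := cc_norm_ctr_c (G := G) i
  have H := cc_main (F := .c i) trivial rfl hi hX.1 hX.2 (go o) hh a1 a2
  have e1 : G.lam (i + 1) = 2 * Real.pi * G.n (j + 1) := by rw [Geo.lam, P_eq, hi]
  have eC : (Fam.c i).e G = G.eC := rfl
  have h1 : G.om o ≠ 0 := by have := (om_bounds G o).1; linarith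
  have h2 : G.cf ≠ 0 := by have := cf_lo G; linarith
  have h3 : ‖G.eC‖ ≠ 0 := norm_ne_zero_iff.2 (cc_e_ne (G := G) (.c i))
  have h4 : ‖G.eU‖ ≠ 0 := by
    have := cc_e_ne (G := G) (.y j G.La)
    simp only [Fam.e, if_true] at this
    exact norm_ne_zero_iff.2 this
  convert H using 3
  rw [cc_ctr_c, eC, ge_smul, ge_smul, real_inner_smul_left, real_inner_smul_right,
    real_inner_smul_right, e1, Geo.cq]
  field_simp

end

end Pool.Agent.Work.MP_6bf1e5_an.Ell.Pd
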