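import Pool.Agent.Work.MP_6bf1e5_an.Ell.Drv

/-!
Moments and symbols of real families.
-/

open Set Complex Filter Topology
open scoped InnerProductSpace ComplexConjugate
open Pool.Agent.Work.MP_6bf1e5_an.B (Z3 R3)
open Pool.Agent.Work.MP_6bf1e5_an.Dec
open Pool.Agent.Work.MP_6bf1e5_an.Dec.Gap1Aux (DD sum_exp_eq DD_bound)

namespace Pool.Agent.Work.MP_6bf1e5_an.Ell.CombB

noncomputable section

/-- Multiplication by a coordinate. -/
def Dk (i : Fin 3) : V →ₗ[ℂ] V := mulr fun k => (k i : ℝ)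

lemma coeff_Dk (i : Fin 3) (f : V) (h : Z3) : (Dk i f).coeff h = (h i : ℂ) * f.coeff h := by
  simp [Dk]

lemma Dk_mul (i : Fin 3) (f g : V) : Dk i (f * g) = Dk i f * g + f * Dk i g := by
  ext h
  rw [AddMonoidAlgebra.coeff_add, Finsupp.add_apply, coeff_Dk, coeff_mul_eq g (subset_refl _),
    coeff_mul_eq (f := Dk i f) g (s := f.coeff.support) (fun k hk => by
      rw [Finsupp.mem_support_iff, coeff_Dk] at hk
      exact Finsupp.mem_support_iff.mpr (right_ne_zero_of_mul hk)),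
    coeff_mul_eq (Dk i g) (subset_refl _), Finset.mul_sum, ← Finset.sum_add_distrib]
  refine Finset.sum_congr rfl fun k _ => ?_
  rw [coeff_Dk, coeff_Dk]
  simp only [Pi.sub_apply, Int.cast_sub]
  ring

lemma Dk_dag (i : Fin 3) (f : V) : Dk i (dag f) = -dag (Dk i f) := by
  ext h
  simp [coeff_Dk]

lemma Dk_sh (i : Fin 3) (k : Z3) : Dk i (sh k) = (k i : ℂ) • sh k := by
  ext h
  rw [coeff_Dk]
  by_cases hh : k = h
  · simp [hh]
  · simp [sh, hh]

lemma mulr_two (i j : Fin 3) (f : V) :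
    mulr (fun k => (k i : ℝ) * k j) f = Dk i (Dk j f) := by
  ext h
  simp [coeff_Dk, mul_assoc]

lemma sp_Dk {m : N3} {f : V} (hf : Sp m f) (i : Fin 3) : Sp m (Dk i f) := hf.mulr _

lemma l1_Dk_le {m : N3} {f : V} (hf : Sp m f) (i : Fin 3) : l1 (Dk i f) ≤ m i * l1 f :=
  l1_le_of_coeff (Nat.cast_nonneg _) fun h => by
    by_cases hh : h ∈ bx m
    · rw [coeff_Dk, norm_mul]
      gcongr
      rw [Complex.norm_intCast]
      exact_mod_cast mem_bx.mp hh i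
    · simp [coeff_Dk, hf h hh]

lemma ev_sh (x : R3) (k : Z3) : ev x (sh k) = Complex.exp (I * (pr k x : ℝ)) := by
  rw [sh, ev_single, one_mul]

lemma dag_sh (k : Z3) : dag (sh k) = sh (-k) := by
  rw [sh, dag_single, map_one, sh]

/-- The first moment form. -/
def Mo (i : Fin 3) (x : R3) (f : V) : ℝ := (conj (ev x f) * ev x (Dk i f)).re

lemma Mo_of_dag {f : V} (h : dag f = f) (i : Fin 3) (x : R3) : Mo i x f = 0 := by
  have h1 : conj (ev x f) = ev x f := by rw [← ev_dag, h]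
  have h2 : conj (ev x (Dk i f)) = -ev x (Dk i f) := by
    rw [← ev_dag, ← map_neg, ← neg_eq_iff_eq_neg.mpr (Dk_dag i f), h]
  have h3 : (ev x f).im = 0 := Complex.conj_eq_iff_im.mp h1
  have h4 : (ev x (Dk i f)).re = 0 := by
    have := congrArg Complex.re h2
    simp only [Complex.conj_re, Complex.neg_re] at this
    linarith
  simp [Mo, Complex.mul_re, h3, h4]

lemma Mo_mul (i : Fin 3) (x : R3) (c g : V) :
    Mo i x (c * g) = Mo i x c * ‖ev x g‖ ^ 2 + ‖ev x c‖ ^ 2 * Mo i x g := by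
  simp only [Mo, Dk_mul, map_add, map_mul, Complex.sq_norm, Complex.normSq_apply, Complex.mul_re,
    Complex.mul_im, Complex.add_re, Complex.add_im, Complex.conj_re, Complex.conj_im]
  ring

lemma Mo_smul (i : Fin 3) (x : R3) (c : ℝ) (f : V) :
    Mo i x ((c : ℂ) • f) = c ^ 2 * Mo i x f := by
  simp only [Mo, map_smul, smul_eq_mul, map_mul, Complex.conj_ofReal, Complex.mul_re,
    Complex.mul_im, Complex.ofReal_re, Complex.ofReal_im, Complex.conj_re, Complex.conj_im]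
  ring

lemma Mo_add {m : N3} {f e : V} (hf : Sp m f) (he : Sp m e) (i : Fin 3) (x : R3) :
    |Mo i x (f + e) - Mo i x f| ≤ m i * l1 e * (l1 (f + e) + l1 f) := by
  have e1 : Mo i x (f + e) - Mo i x f =
      (conj (ev x (f + e)) * ev x (Dk i e) + conj (ev x e) * ev x (Dk i f)).re := by
    simp only [Mo, map_add, Complex.mul_re, Complex.add_re, Complex.add_im, Complex.conj_re,
      Complex.conj_im]
    ring
  rw [e1]
  refine (Complex.abs_re_le_norm _).trans ((norm_add_le _ _).trans ?_)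
  rw [norm_mul, norm_mul, Complex.norm_conj, Complex.norm_conj]
  have a1 := norm_ev_le x (f + e)
  have a2 := norm_ev_le x e
  have a3 := (norm_ev_le x _).trans (l1_Dk_le he i)
  have a4 := (norm_ev_le x _).trans (l1_Dk_le hf i)
  have b1 := l1_nonneg (f + e)
  have b2 := l1_nonneg e
  calc _ ≤ l1 (f + e) * (m i * l1 e) + l1 e * (m i * l1 f) := by gcongr
    _ = _ := by ring

/-- The mixed moment of `dag p * p`. -/
lemma mix_le {p : V} (h1 : ev 0 p = 1) (i j : Fin 3) :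
    ‖ev 0 (mulr (fun k => (k i : ℝ) * k j) (dag p * p))‖ ≤
      2 * ‖ev 0 (Dk i (Dk j p))‖ + 2 * (‖ev 0 (Dk i p)‖ * ‖ev 0 (Dk j p)‖) := by
  have e : ev 0 (mulr (fun k => (k i : ℝ) * k j) (dag p * p)) =
      (conj (ev 0 (Dk i (Dk j p))) + ev 0 (Dk i (Dk j p))) +
        (-(conj (ev 0 (Dk j p)) * ev 0 (Dk i p)) + -(conj (ev 0 (Dk i p)) * ev 0 (Dk j p))) := by
    simp only [mulr_two, Dk_mul, map_add, Dk_dag, map_neg, neg_neg, map_mul, ev_dag, h1, map_one]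
    ring
  rw [e]
  refine (norm_add_le _ _).trans (add_le_add ((norm_add_le _ _).trans ?_)
    ((norm_add_le _ _).trans ?_))
  · rw [Complex.norm_conj]; linarith
  · simp only [norm_neg, norm_mul, Complex.norm_conj]; linarith

/-! The symbol of the ground state -/

lemma ev_ph (n : N3) (x : R3) :
    ev x (ph n) = (((Nn n)⁻¹ * ∏ i, DD (th (n i)) (n i) (x i) : ℝ) : ℂ) := by
  rw [ev_eq x (sp_ph n).subset]
  push_cast
  simp only [← sum_exp_eq]
  rw [Finset.prod_univ_sum, Finset.mul_sum]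
  refine Finset.sum_congr rfl fun h hh => ?_
  have hh' : h ∈ bx n := hh
  rw [coeff_ph, if_pos hh', Finset.prod_mul_distrib, ← Complex.exp_sum, pr]
  push_cast
  rw [Finset.mul_sum, mul_assoc]

lemma min_add3 {a b c : ℝ} (ha : 0 ≤ a) (hb : 0 ≤ b) (hc : 0 ≤ c) :
    min 1 (a + b + c) ≤ min 1 a + min 1 b + min 1 c := by
  have h0 : 0 ≤ min 1 a := le_min zero_le_one ha
  have h1 : 0 ≤ min 1 b := le_min zero_le_one hb
  have h2 : 0 ≤ min 1 c := le_min zero_le_one hc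
  rcases min_cases 1 a with k0 | k0
  · exact (min_le_left _ _).trans (by linarith [k0.1])
  rcases min_cases 1 b with k1 | k1
  · exact (min_le_left _ _).trans (by linarith [k1.1])
  rcases min_cases 1 c with k2 | k2
  · exact (min_le_left _ _).trans (by linarith [k2.1])
  exact (min_le_right _ _).trans (by linarith [k0.1, k1.1, k2.1])

lemma ph_far {n w : N3} (hn : ∀ i, 100 ≤ n i) (hw : ∀ i, n i + 1 = w i) {x : R3} (hx : x ∈ cube) :
    ‖ev x (ph n)‖ ^ 2 ≤ (1 - 1 / (3 * 10 ^ 5) * min 1 (sqr w x)) * l1 (ph n) ^ 2 := by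
  have h0 : l1 (ph n) = (Nn n)⁻¹ * ∏ i, DD (th (n i)) (n i) 0 := by
    have := ev_zero_ph n
    rw [ev_ph] at this
    have := Complex.ofReal_injective this
    rw [← this]
    simp
  have hi : ∀ i, |x i| ≤ Real.pi := fun i => abs_le.mpr ⟨hx.1 i, hx.2 i⟩
  have hw' : ∀ i, ((w i : ℝ) * x i) ^ 2 = (n i + 1) ^ 2 * x i ^ 2 := fun i => by
    rw [← hw i]; push_cast; ring
  rw [ev_ph, Complex.norm_real, Real.norm_eq_abs, sq_abs, h0, Fin.prod_univ_three,
    Fin.prod_univ_three, sqr, Fin.sum_univ_three, hw', hw', hw']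
  have b0 := DD_bound (hn 0) (hi 0)
  have b1 := DD_bound (hn 1) (hi 1)
  have b2 := DD_bound (hn 2) (hi 2)
  have hs := min_add3 (a := ((n 0 : ℝ) + 1) ^ 2 * x 0 ^ 2) (b := ((n 1 : ℝ) + 1) ^ 2 * x 1 ^ 2)
    (c := ((n 2 : ℝ) + 1) ^ 2 * x 2 ^ 2) (by positivity) (by positivity) (by positivity)
  set t0 := min 1 ((n 0 + 1 : ℝ) ^ 2 * x 0 ^ 2)
  set t1 := min 1 ((n 1 + 1 : ℝ) ^ 2 * x 1 ^ 2)
  set t2 := min 1 ((n 2 + 1 : ℝ) ^ 2 * x 2 ^ 2)
  have ht0 : 0 ≤ t0 := le_min zero_le_one (by positivity)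
  have ht1 : 0 ≤ t1 := le_min zero_le_one (by positivity)
  have ht2 : 0 ≤ t2 := le_min zero_le_one (by positivity)
  have ht0' : t0 ≤ 1 := min_le_left _ _
  have ht1' : t1 ≤ 1 := min_le_left _ _
  have ht2' : t2 ≤ 1 := min_le_left _ _
  set s0 := 1 - 1 / 10 ^ 5 * t0
  set s1 := 1 - 1 / 10 ^ 5 * t1
  set s2 := 1 - 1 / 10 ^ 5 * t2
  have hs0 : 0 ≤ s0 ∧ s0 ≤ 1 := ⟨by simp only [s0]; linarith, by simp only [s0]; linarith⟩
  have hs1 : 0 ≤ s1 ∧ s1 ≤ 1 := ⟨by simp only [s1]; linarith, by simp only [s1]; linarith⟩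
  have hs2 : 0 ≤ s2 ∧ s2 ≤ 1 := ⟨by simp only [s2]; linarith, by simp only [s2]; linarith⟩
  have p0 : s0 * s1 * s2 ≤ s0 := by
    rw [mul_assoc]; exact mul_le_of_le_one_right hs0.1 (mul_le_one₀ hs1.2 hs2.1 hs2.2)
  have p1 : s0 * s1 * s2 ≤ s1 := by
    rw [mul_comm s0, mul_assoc]; exact mul_le_of_le_one_right hs1.1 (mul_le_one₀ hs0.2 hs2.1 hs2.2)
  have p2 : s0 * s1 * s2 ≤ s2 := mul_le_of_le_one_left hs2.1 (mul_le_one₀ hs0.2 hs1.1 hs1.2)
  set u := min 1 ((n 0 + 1 : ℝ) ^ 2 * x 0 ^ 2 + (n 1 + 1 : ℝ) ^ 2 * x 1 ^ 2 +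
    (n 2 + 1 : ℝ) ^ 2 * x 2 ^ 2)
  have p3 : s0 * s1 * s2 ≤ 1 - 1 / (3 * 10 ^ 5) * u := by
    simp only [s0, s1, s2] at p0 p1 p2 ⊢
    linarith
  set D0 := DD (th (n 0)) (n 0) 0
  set D1 := DD (th (n 1)) (n 1) 0
  set D2 := DD (th (n 2)) (n 2) 0
  set E0 := DD (th (n 0)) (n 0) (x 0)
  set E1 := DD (th (n 1)) (n 1) (x 1)
  set E2 := DD (th (n 2)) (n 2) (x 2)
  have hp : E0 ^ 2 * E1 ^ 2 * E2 ^ 2 ≤ (s0 * D0 ^ 2) * (s1 * D1 ^ 2) * (s2 * D2 ^ 2) := by
    have := hs0.1; have := hs1.1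
    gcongr
  calc _ = (Nn n)⁻¹ ^ 2 * (E0 ^ 2 * E1 ^ 2 * E2 ^ 2) := by ring
    _ ≤ (Nn n)⁻¹ ^ 2 * ((s0 * D0 ^ 2) * (s1 * D1 ^ 2) * (s2 * D2 ^ 2)) := by gcongr
    _ = (s0 * s1 * s2) * ((Nn n)⁻¹ * (D0 * D1 * D2)) ^ 2 := by ring
    _ ≤ _ := by gcongr

/-! The defect of a phase shifted symbol -/

lemma one_sub_cos_add (a b : ℝ) :
    1 - Real.cos (a + b) ≤ 2 * (1 - Real.cos a) + 2 * (1 - Real.cos b) := by
  have h1 := Real.sin_sq_add_cos_sq a
  have h2 := Real.sin_sq_add_cos_sq b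
  rw [Real.cos_add]
  linarith [sq_nonneg (Real.cos a + Real.cos b - 2), sq_nonneg (Real.sin a - Real.sin b),
    Real.cos_le_one a, Real.cos_le_one b]

/-- The defect. -/
def Df (ψ : ℝ) (x : R3) (q : V) : ℝ := (ev 0 q).re - (Complex.exp (I * ψ) * ev x q).re

lemma Df_add (ψ : ℝ) (x : R3) (q q' : V) : Df ψ x (q + q') = Df ψ x q + Df ψ x q' := by
  simp only [Df, map_add, mul_add, Complex.add_re]; ring

lemma abs_Df_le {n w : N3} (hw : ∀ i, n i + 1 = w i) {q : V} (hq : Sp (n + n) q) (hr : Rl q)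
    (ψ : ℝ) (x : R3) :
    |Df ψ x q| ≤ l1 q * (2 * (1 - Real.cos ψ) + 12 * min 1 (sqr w x)) := by
  have e : Df ψ x q = ∑ h ∈ bx (n + n), (q.coeff h).re * (1 - Real.cos (ψ + pr h x)) := by
    rw [Df, ev_zero_eq hq.subset, ev_eq x hq.subset, Finset.mul_sum, Complex.re_sum,
      Complex.re_sum, ← Finset.sum_sub_distrib]
    refine Finset.sum_congr rfl fun h _ => ?_
    rw [mul_left_comm, ← Complex.exp_add, ← mul_add, ← Complex.ofReal_add, Complex.mul_re, hr h,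
      mul_comm I, Complex.exp_ofReal_mul_I_re]
    ring
  rw [e, l1_eq hq.subset, Finset.sum_mul]
  refine (Finset.abs_sum_le_sum_abs _ _).trans (Finset.sum_le_sum fun h hh => ?_)
  rw [abs_mul, abs_of_nonneg (sub_nonneg.mpr (Real.cos_le_one _))]
  refine mul_le_mul (Complex.abs_re_le_norm _) ?_ (sub_nonneg.mpr (Real.cos_le_one _))
    (norm_nonneg _)
  have a1 := one_sub_cos_add ψ (pr h x)
  have a2 : 1 - Real.cos (pr h x) ≤ 6 * min 1 (sqr w x) := by
    rcases min_cases 1 (sqr w x) with k | k <;> rw [k.1]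
    · linarith [Real.neg_one_le_cos (pr h x)]
    · have b1 := abs_pr_le3 hh x
      have b2 : ∑ i, (((n + n) i : ℕ) : ℝ) * |x i| ≤ 2 * ∑ i, (w i : ℝ) * |x i| := by
        rw [Finset.mul_sum]
        refine Finset.sum_le_sum fun i _ => ?_
        rw [← hw i, Pi.add_apply]
        push_cast
        linarith [abs_nonneg (x i)]
      have b3 := sq_sum_le_sqr w x
      have b4 : pr h x ^ 2 ≤ (2 * ∑ i, (w i : ℝ) * |x i|) ^ 2 := by
        rw [← sq_abs]
        exact pow_le_pow_left₀ (abs_nonneg _) (b1.trans b2) 2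
      have b5 := Real.one_sub_sq_div_two_le_cos (x := pr h x)
      linarith
  linarith

lemma main_Df {n w : N3} (hn : ∀ i, 100 ≤ n i) (hw : ∀ i, n i + 1 = w i) {x : R3} (hx : x ∈ cube)
    (ψ a : ℝ) :
    (a * l1 (ph n)) ^ 2 * (1 / (6 * 10 ^ 5) * min 1 (sqr w x) + (1 - Real.cos ψ) / 4) ≤
      Df ψ x ((a : ℂ) • ph n * dag ((a : ℂ) • ph n)) := by
  have e : Df ψ x ((a : ℂ) • ph n * dag ((a : ℂ) • ph n)) =
      a ^ 2 * (l1 (ph n) ^ 2 - Real.cos ψ * ‖ev x (ph n)‖ ^ 2) := by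
    have k : ∀ y : R3, ev y ((a : ℂ) • ph n * dag ((a : ℂ) • ph n)) =
        ((a ^ 2 * ‖ev y (ph n)‖ ^ 2 : ℝ) : ℂ) := fun y => by
      rw [map_mul, ev_dag, Complex.mul_conj', map_smul, smul_eq_mul, norm_mul, Complex.norm_real,
        ← Complex.ofReal_pow, mul_pow, Real.norm_eq_abs, sq_abs]
    rw [Df, k, k, ev_zero_ph, Complex.norm_real, Real.norm_eq_abs, sq_abs, Complex.ofReal_re,
      Complex.re_mul_ofReal, mul_comm I, Complex.exp_ofReal_mul_I_re]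
    ring
  rw [e, mul_pow, mul_assoc]
  refine mul_le_mul_of_nonneg_left ?_ (sq_nonneg a)
  have h1 := ph_far hn hw hx
  have h2 : min 1 (sqr w x) ≤ 1 := min_le_left _ _
  have h3 : 0 ≤ min 1 (sqr w x) := le_min zero_le_one (sqr_nonneg _ _)
  have h4 := Real.cos_le_one ψ
  have h5 := Real.neg_one_le_cos ψ
  have h6 := sq_nonneg ‖ev x (ph n)‖
  have h7 := sq_nonneg (l1 (ph n))
  generalize ‖ev x (ph n)‖ ^ 2 = P at *
  generalize l1 (ph n) ^ 2 = Q at *
  generalize min 1 (sqr w x) = s at *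
  generalize Real.cos ψ = c at *
  have h8 : 0 ≤ s * Q := mul_nonneg h3 h7
  rcases le_total 0 c with k | k
  · have k1 : c * P ≤ P := mul_le_of_le_one_left h6 h4
    have k2 : c * P ≤ c * Q := mul_le_mul_of_nonneg_left (by linarith) k
    have k3 : 0 ≤ (1 - c) * Q := mul_nonneg (by linarith) h7
    linarith
  · have k1 : c * P ≤ 0 := mul_nonpos_of_nonpos_of_nonneg k h6
    have k2 : s * Q ≤ Q := mul_le_of_le_one_left h7 h2
    have k3 : 0 ≤ (1 + c) * Q := mul_nonneg (by linarith) h7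
    linarith

/-- The defect of the product of two teeth. -/
lemma tooth_Df {n w : N3} (hn : ∀ i, 100 ≤ n i) (hw : ∀ i, n i + 1 = w i) {x : R3} (hx : x ∈ cube)
    (ψ : ℝ) {a : ℝ} (ha : 0 < a) {g g' : V} (sg : Sp n g) (sg' : Sp n g') (rg : Rl g)
    (rg' : Rl g') (hg : l1 (g - (a : ℂ) • ph n) ≤ 1 / 10 ^ 14 * (a * l1 (ph n)))
    (hg' : l1 (g' - (a : ℂ) • ph n) ≤ 1 / 10 ^ 14 * (a * l1 (ph n))) :
    (a * l1 (ph n)) ^ 2 * (1 / 10 ^ 6 * min 1 (sqr w x) + (1 - Real.cos ψ) / 5) ≤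
      Df ψ x (g * dag g') := by
  set f : V := (a : ℂ) • ph n with hf
  have sf : Sp n f := (sp_ph n).smul _
  have rf : Rl f := (rl_ph n).smul a
  have lf : l1 f = a * l1 (ph n) := by
    rw [hf, l1_smul, Complex.norm_real, Real.norm_of_nonneg ha.le]
  have e : g * dag g' = f * dag f + ((g - f) * dag g' + f * dag (g' - f)) := by
    rw [map_sub]; ring
  have sq : Sp (n + n) ((g - f) * dag g' + f * dag (g' - f)) :=
    ((sg.sub sf).mul sg'.dag).add (sf.mul (sg'.sub sf).dag)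
  have rq : Rl ((g - f) * dag g' + f * dag (g' - f)) :=
    ((rg.sub rf).mul rg'.dag).add (rf.mul (rg'.sub rf).dag)
  have h1 := main_Df hn hw hx ψ a
  have h2 := abs_Df_le hw sq rq ψ x
  have u0 : 0 ≤ a * l1 (ph n) := mul_nonneg ha.le (l1_nonneg _)
  have lg' : l1 g' ≤ 2 * (a * l1 (ph n)) := by
    have := l1_add_le f (g' - f)
    rw [add_sub_cancel] at this
    linarith
  have h3 : l1 ((g - f) * dag g' + f * dag (g' - f)) ≤ 3 / 10 ^ 14 * (a * l1 (ph n)) ^ 2 := by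
    refine (l1_add_le _ _).trans ((add_le_add (l1_mul_le _ _) (l1_mul_le _ _)).trans ?_)
    rw [l1_dag, l1_dag, lf]
    have k1 : l1 (g - f) * l1 g' ≤ 1 / 10 ^ 14 * (a * l1 (ph n)) * (2 * (a * l1 (ph n))) :=
      mul_le_mul hg lg' (l1_nonneg _) (by positivity)
    have k2 : a * l1 (ph n) * l1 (g' - f) ≤ a * l1 (ph n) * (1 / 10 ^ 14 * (a * l1 (ph n))) :=
      mul_le_mul_of_nonneg_left hg' u0
    linarith
  have s0 : 0 ≤ min 1 (sqr w x) := le_min zero_le_one (sqr_nonneg _ _)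
  have c0 : 0 ≤ 1 - Real.cos ψ := sub_nonneg.mpr (Real.cos_le_one _)
  have h4 := h2.trans (mul_le_mul_of_nonneg_right h3 (by positivity))
  rw [e, Df_add]
  rw [← hf] at h1
  have h5 := (abs_le.mp h4).1
  have h6 := mul_nonneg (sq_nonneg (a * l1 (ph n))) s0
  have h7 := mul_nonneg (sq_nonneg (a * l1 (ph n))) c0
  generalize (a * l1 (ph n)) ^ 2 = U at *
  linarith

end

end Pool.Agent.Work.MP_6bf1e5_an.Ell.CombB
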