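import Pool.Agent.Work.MP_6bf1e5_an.Ell.Num
import Pool.Agent.Work.MP_6bf1e5_an.Ell.CombB1

/-!
A comb whose teeth are close to the ground state is a driver.
-/

open Set Complex Filter Topology
open scoped InnerProductSpace ComplexConjugate
open Pool.Agent.Work.MP_6bf1e5_an.B (Z3 R3)
open Pool.Agent.Work.MP_6bf1e5_an.Dec

namespace Pool.Agent.Work.MP_6bf1e5_an.Ell.CombB

noncomputable section

attribute [local irreducible] l1

variable {G : Geo} {R : Raw}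

/-! Geometry of the comb -/

lemma rB_0 (j : ℕ) : G.rB j 0 = G.w j 0 := rfl

lemma rB_1 (j : ℕ) : G.rB j 1 = G.n j := rfl

lemma rB_2 (j : ℕ) : G.rB j 2 = G.n j := rfl

lemma n_w1 (j : ℕ) : (G.n j : ℝ) = G.t ^ 8 * G.w j 1 := by
  simp [Geo.n, Geo.w, Geo.t]; ring

lemma n_w2 (j : ℕ) : (G.n j : ℝ) = G.t ^ 4 * G.w j 2 := by
  simp [Geo.n, Geo.w, Geo.t]; ring

lemma ww_le (j : ℕ) {i k : Fin 3} (h : i ≠ k) :
    (G.w j i : ℝ) * G.w j k ≤ (G.t ^ 4)⁻¹ * (G.rB j i * G.rB j k) := by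
  have t4 : 0 < G.t ^ 4 := pow_pos G.t_pos 4
  rw [le_inv_mul_iff₀ t4]
  have a1 : G.t ^ 4 * G.w j 1 ≤ G.rB j 1 := by
    rw [rB_1, n_w1]
    exact mul_le_mul_of_nonneg_right (G.pow_le (by norm_num)) (Nat.cast_nonneg _)
  have a2 : G.t ^ 4 * G.w j 2 ≤ G.rB j 2 := by rw [rB_2, n_w2]
  have b : ∀ i, (G.w j i : ℝ) ≤ G.rB j i := fun i => by exact_mod_cast G.w_le_rB j i
  have c : ∀ i k, G.t ^ 4 * G.w j k ≤ G.rB j k →
      G.t ^ 4 * ((G.w j i : ℝ) * G.w j k) ≤ G.rB j i * G.rB j k := fun i k hk => by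
    rw [mul_left_comm]
    exact mul_le_mul (b i) hk (by positivity) (Nat.cast_nonneg _)
  have c' : ∀ i k, G.t ^ 4 * G.w j i ≤ G.rB j i →
      G.t ^ 4 * ((G.w j i : ℝ) * G.w j k) ≤ G.rB j i * G.rB j k := fun i k hk => by
    rw [mul_comm (G.w j i : ℝ), mul_comm (G.rB j i : ℝ)]; exact c k i hk
  fin_cases i <;> fin_cases k
  · exact absurd rfl h
  · exact c 0 1 a1
  · exact c 0 2 a2
  · exact c' 1 0 a1
  · exact absurd rfl h
  · exact c 1 2 a2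
  · exact c' 2 0 a2
  · exact c 2 1 a1
  · exact absurd rfl h

lemma off_mem (j : ℕ) (o : Fin 4) : G.off j o ∈ bx (G.rB j) := by
  rw [mem_bx]
  intro i
  fin_cases o <;> fin_cases i <;> simp [Geo.off, Geo.rB] <;> positivity

lemma off_mul (j : ℕ) (o : Fin 4) {i k : Fin 3} (h : i ≠ k) :
    (G.off j o i : ℂ) * G.off j o k = 0 := by
  fin_cases o <;> fin_cases i <;> fin_cases k <;> simp [Geo.off] at h ⊢

lemma sp_comb (j : ℕ) {g : Fin 4 → V} (hg : ∀ o, Sp (G.rb j) (g o)) :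
    Sp (fun i => 2 * G.rB j i) (R.comb G j g) :=
  Sp.sum _ fun o _ => (((sp_sh (off_mem j o)).mul (hg o)).mono fun i => by
    have h1 := G.w_le_rB j i
    have h2 := G.rb_add_one j i
    simp only [Pi.add_apply]
    omega).smul _

lemma rl_comb (j : ℕ) {g : Fin 4 → V} (hg : ∀ o, Rl (g o)) : Rl (R.comb G j g) :=
  Rl.sum _ fun o _ => ((rl_sh _).mul (hg o)).smul _

lemma ev_comb (j : ℕ) (g : Fin 4 → V) (x : R3) : ev x (R.comb G j g) =
    ∑ o, (R.om o : ℂ) * (Complex.exp (I * (pr (G.off j o) x : ℝ)) * ev x (g o)) := by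
  simp only [Raw.comb, map_sum, map_smul, map_mul, smul_eq_mul, ev_sh]

lemma normsq_comb (j : ℕ) (g : Fin 4 → V) (x : R3) : ‖ev x (R.comb G j g)‖ ^ 2 =
    ∑ o, ∑ o', R.om o * R.om o' * (Complex.exp (I * (pr (G.off j o) x - pr (G.off j o') x : ℝ)) *
      ev x (g o * dag (g o'))).re := by
  have e : ((‖ev x (R.comb G j g)‖ ^ 2 : ℝ) : ℂ) = ∑ o, ∑ o', ((R.om o * R.om o' : ℝ) : ℂ) *
      (Complex.exp (I * (pr (G.off j o) x - pr (G.off j o') x : ℝ)) *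
        ev x (g o * dag (g o'))) := by
    rw [Complex.ofReal_pow, ← Complex.mul_conj', ev_comb, map_sum, Finset.sum_mul_sum]
    refine Finset.sum_congr rfl fun o _ => Finset.sum_congr rfl fun o' _ => ?_
    rw [map_mul, map_mul, map_mul, ev_dag, Complex.conj_ofReal, ← Complex.exp_conj, map_mul,
      Complex.conj_ofReal, Complex.conj_I, Complex.ofReal_sub, mul_sub, sub_eq_add_neg,
      Complex.exp_add, neg_mul]
    push_cast
    ring
  have := congrArg Complex.re e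
  rw [Complex.ofReal_re] at this
  rw [this, Complex.re_sum]
  refine Finset.sum_congr rfl fun o _ => ?_
  rw [Complex.re_sum]
  exact Finset.sum_congr rfl fun o' _ => Complex.re_ofReal_mul _ _

lemma defect_comb (j : ℕ) (g : Fin 4 → V) (x : R3) :
    ‖ev 0 (R.comb G j g)‖ ^ 2 - ‖ev x (R.comb G j g)‖ ^ 2 = ∑ o, ∑ o', R.om o * R.om o' *
      Df (pr (G.off j o) x - pr (G.off j o') x) x (g o * dag (g o')) := by
  rw [normsq_comb, normsq_comb, ← Finset.sum_sub_distrib]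
  refine Finset.sum_congr rfl fun o _ => ?_
  rw [← Finset.sum_sub_distrib]
  refine Finset.sum_congr rfl fun o' _ => ?_
  simp only [Df, pr_zero', sub_self, Complex.ofReal_zero, mul_zero, Complex.exp_zero, one_mul]
  ring

lemma cos_sum (j : ℕ) (x : R3) (A : ℝ) :
    ∑ o, ∑ o', R.om o * R.om o' *
      (A + (1 - Real.cos (pr (G.off j o) x - pr (G.off j o') x)) / 5) =
      R.Om ^ 2 * A + (R.Om ^ 2 -
        (2 * Real.cos (G.n j * x 1) + 2 * R.om0 * Real.cos (G.n j * x 2)) ^ 2) / 5 := by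
  have e0 : pr (G.off j 0) x = G.n j * x 1 := by simp [pr, Geo.off, Fin.sum_univ_three]
  have e1 : pr (G.off j 1) x = -(G.n j * x 1) := by simp [pr, Geo.off, Fin.sum_univ_three]
  have e2 : pr (G.off j 2) x = G.n j * x 2 := by simp [pr, Geo.off, Fin.sum_univ_three]
  have e3 : pr (G.off j 3) x = -(G.n j * x 2) := by simp [pr, Geo.off, Fin.sum_univ_three]
  have o0 : R.om 0 = 1 := rfl
  have o1 : R.om 1 = 1 := rfl
  have o2 : R.om 2 = R.om0 := rfl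
  have o3 : R.om 3 = R.om0 := rfl
  simp only [Fin.sum_univ_four, e0, e1, e2, e3, o0, o1, o2, o3, Real.cos_sub, Real.cos_neg,
    Real.sin_neg, Raw.Om]
  ring

lemma cos_small {y : ℝ} (hy : y ^ 2 ≤ 1) : Real.cos y ≤ 1 - y ^ 2 / 5 ∧ 0 ≤ Real.cos y := by
  have b1 : |y| ≤ 1 := by rwa [← sq_le_one_iff_abs_le_one]
  have b2 := Real.cos_le_one_sub_mul_cos_sq (x := y) (by linarith [Real.pi_gt_three])
  have b3 : 1 / 5 ≤ 2 / Real.pi ^ 2 := by
    rw [div_le_div_iff₀ (by norm_num) (by have := Real.pi_pos; positivity)]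
    nlinarith [Real.pi_lt_d2, Real.pi_pos]
  have b4 : 1 / 5 * y ^ 2 ≤ 2 / Real.pi ^ 2 * y ^ 2 := by gcongr
  exact ⟨by linarith, by linarith [Real.one_sub_sq_div_two_le_cos (x := y)]⟩

lemma far_num {ω T w0 w1 w2 n x0 x1 x2 : ℝ} (h1 : 7 ≤ ω) (h2 : ω ≤ 9) (hT : 1 ≤ T)
    (e1 : n = T ^ 8 * w1) (e2 : n = T ^ 4 * w2) :
    (2 + 2 * ω) ^ 2 * (1 / 10 ^ 6 *
        min (T ^ 16)⁻¹ ((w0 * x0) ^ 2 + (n * x1) ^ 2 + (n * x2) ^ 2)) ≤
      (2 + 2 * ω) ^ 2 * (1 / 10 ^ 6 * min 1 ((w0 * x0) ^ 2 + (w1 * x1) ^ 2 + (w2 * x2) ^ 2)) +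
        ((2 + 2 * ω) ^ 2 - (2 * Real.cos (n * x1) + 2 * ω * Real.cos (n * x2)) ^ 2) / 5 := by
  have T0 : 0 < T := by linarith
  have T16 : 1 ≤ T ^ 16 := one_le_pow₀ hT
  have i1 : (T ^ 16)⁻¹ ≤ 1 := inv_le_one_of_one_le₀ T16
  have c1 := Real.cos_le_one (n * x1)
  have c2 := Real.cos_le_one (n * x2)
  have c3 := Real.neg_one_le_cos (n * x1)
  have c4 := Real.neg_one_le_cos (n * x2)
  have p0 := sq_nonneg (w0 * x0)
  have p1 := sq_nonneg (w1 * x1)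
  have p2 := sq_nonneg (w2 * x2)
  have d0 : (2 * Real.cos (n * x1) + 2 * ω * Real.cos (n * x2)) ^ 2 ≤ (2 + 2 * ω) ^ 2 :=
    sq_le_sq' (by linarith [mul_nonneg (by linarith : 0 ≤ ω) (neg_le_iff_add_nonneg.mp c4)])
      (by linarith [mul_nonneg (by linarith : 0 ≤ ω) (sub_nonneg.mpr c2)])
  have big : (T ^ 16)⁻¹ ≤ (w0 * x0) ^ 2 + (w1 * x1) ^ 2 + (w2 * x2) ^ 2 →
      (2 + 2 * ω) ^ 2 * (1 / 10 ^ 6 *
        min (T ^ 16)⁻¹ ((w0 * x0) ^ 2 + (n * x1) ^ 2 + (n * x2) ^ 2)) ≤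
      (2 + 2 * ω) ^ 2 * (1 / 10 ^ 6 * min 1 ((w0 * x0) ^ 2 + (w1 * x1) ^ 2 + (w2 * x2) ^ 2)) +
        ((2 + 2 * ω) ^ 2 - (2 * Real.cos (n * x1) + 2 * ω * Real.cos (n * x2)) ^ 2) / 5 := by
    intro hb
    have k : min (T ^ 16)⁻¹ ((w0 * x0) ^ 2 + (n * x1) ^ 2 + (n * x2) ^ 2) ≤
        min 1 ((w0 * x0) ^ 2 + (w1 * x1) ^ 2 + (w2 * x2) ^ 2) :=
      (min_le_left _ _).trans (le_min i1 hb)
    have k2 : (2 + 2 * ω) ^ 2 * (1 / 10 ^ 6 *
        min (T ^ 16)⁻¹ ((w0 * x0) ^ 2 + (n * x1) ^ 2 + (n * x2) ^ 2)) ≤ (2 + 2 * ω) ^ 2 *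
        (1 / 10 ^ 6 * min 1 ((w0 * x0) ^ 2 + (w1 * x1) ^ 2 + (w2 * x2) ^ 2)) := by gcongr
    linarith
  rcases le_total 1 ((n * x1) ^ 2) with u1 | u1
  · refine big ?_
    have : (T ^ 16)⁻¹ ≤ (w1 * x1) ^ 2 := by
      rw [inv_le_iff_one_le_mul₀ (by positivity)]
      refine u1.trans (le_of_eq ?_)
      rw [e1]; ring
    linarith
  rcases le_total 1 ((n * x2) ^ 2) with u2 | u2
  · refine big ?_
    have : (T ^ 16)⁻¹ ≤ (w2 * x2) ^ 2 := by
      rw [inv_le_iff_one_le_mul₀ (by positivity)]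
      refine u2.trans ?_
      have : T ^ 8 ≤ T ^ 16 := pow_le_pow_right₀ hT (by norm_num)
      calc (n * x2) ^ 2 = (w2 * x2) ^ 2 * T ^ 8 := by rw [e2]; ring
        _ ≤ _ := by gcongr
    linarith
  generalize n * x1 = u at *
  generalize n * x2 = v at *
  obtain ⟨a1, a2⟩ := cos_small u1
  obtain ⟨a3, a4⟩ := cos_small u2
  have q1 := sq_nonneg u
  have q2 := sq_nonneg v
  have k0 : min (T ^ 16)⁻¹ ((w0 * x0) ^ 2 + u ^ 2 + v ^ 2) ≤
      min 1 ((w0 * x0) ^ 2 + (w1 * x1) ^ 2 + (w2 * x2) ^ 2) + (u ^ 2 + v ^ 2) := by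
    rcases min_cases 1 ((w0 * x0) ^ 2 + (w1 * x1) ^ 2 + (w2 * x2) ^ 2) with k | k <;> rw [k.1]
    · exact (min_le_left _ _).trans (by linarith)
    · exact (min_le_right _ _).trans (by linarith)
  have k1 : 2 / 5 * (u ^ 2 + v ^ 2) ≤ (2 + 2 * ω) - (2 * Real.cos u + 2 * ω * Real.cos v) := by
    linarith [mul_nonneg (by linarith : 0 ≤ ω - 1) (sub_nonneg.mpr c2)]
  have k2 : 16 ≤ (2 + 2 * ω) + (2 * Real.cos u + 2 * ω * Real.cos v) := by
    linarith [mul_nonneg (by linarith : 0 ≤ ω) a4]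
  have k3 : 2 / 5 * (u ^ 2 + v ^ 2) * 16 ≤ ((2 + 2 * ω) - (2 * Real.cos u + 2 * ω * Real.cos v)) *
      ((2 + 2 * ω) + (2 * Real.cos u + 2 * ω * Real.cos v)) :=
    mul_le_mul k1 k2 (by norm_num) (by linarith)
  have k4 : (2 + 2 * ω) ^ 2 ≤ 400 :=
    (pow_le_pow_left₀ (by linarith) (by linarith : 2 + 2 * ω ≤ 20) 2).trans (by norm_num)
  have k5 : (2 + 2 * ω) ^ 2 * (1 / 10 ^ 6 * min (T ^ 16)⁻¹ ((w0 * x0) ^ 2 + u ^ 2 + v ^ 2)) ≤
      (2 + 2 * ω) ^ 2 * (1 / 10 ^ 6 *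
        (min 1 ((w0 * x0) ^ 2 + (w1 * x1) ^ 2 + (w2 * x2) ^ 2) + (u ^ 2 + v ^ 2))) := by gcongr
  have k6 : (2 + 2 * ω) ^ 2 * (u ^ 2 + v ^ 2) ≤ 400 * (u ^ 2 + v ^ 2) := by gcongr
  linarith

lemma ev0_Dk_sh (i : Fin 3) (k : Z3) (g : V) :
    ev 0 (Dk i (sh k * g)) = k i * ev 0 g + ev 0 (Dk i g) := by
  simp only [Dk_mul, Dk_sh, map_add, map_mul, map_smul, ev_zero_sh, smul_eq_mul]
  ring

lemma ev0_Dk2_sh (i l : Fin 3) (k : Z3) (g : V) :
    ev 0 (Dk i (Dk l (sh k * g))) = k i * k l * ev 0 g +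
      (k l * ev 0 (Dk i g) + k i * ev 0 (Dk l g) + ev 0 (Dk i (Dk l g))) := by
  simp only [Dk_mul, Dk_sh, map_add, map_mul, map_smul, ev_zero_sh, smul_eq_mul]
  ring

section

variable (H : IsNet G R)

include H

lemma norm_sum_om {F : Fin 4 → ℂ} {δ : ℝ} (hF : ∀ o, ‖F o‖ ≤ δ) :
    ‖∑ o, (R.om o : ℂ) * F o‖ ≤ R.Om * δ := by
  rw [← IsNet.sum_om, Finset.sum_mul]
  refine (norm_sum_le _ _).trans (Finset.sum_le_sum fun o _ => ?_)
  have := (H.om_pos o).1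
  rw [norm_mul, Complex.norm_real, Real.norm_of_nonneg (by linarith)]
  exact mul_le_mul_of_nonneg_left (hF o) (by linarith)

lemma norm_sum_off (j : ℕ) (i : Fin 3) {F : Fin 4 → ℂ} {δ : ℝ} (hF : ∀ o o', ‖F o - F o'‖ ≤ δ) :
    ‖∑ o, (R.om o : ℂ) * (G.off j o i * F o)‖ ≤ R.Om * (G.rB j i * δ) := by
  have δ0 : 0 ≤ δ := (norm_nonneg _).trans (hF 0 0)
  have h1 := H.om_lo
  have h2 := H.Om_lo
  have n0 : (0 : ℝ) ≤ G.n j := Nat.cast_nonneg _
  fin_cases i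
  · have : ∑ o, (R.om o : ℂ) * (G.off j o 0 * F o) = 0 := by
      simp [Fin.sum_univ_four, Geo.off]
    simp only [Fin.zero_eta, this, norm_zero]
    positivity
  · have : ∑ o, (R.om o : ℂ) * (G.off j o 1 * F o) = (G.n j : ℝ) * (F 0 - F 1) := by
      simp [Fin.sum_univ_four, Geo.off, Raw.om]; ring
    simp only [Fin.mk_one, this, rB_1]
    rw [norm_mul, Complex.norm_real, Real.norm_of_nonneg n0]
    have := mul_le_mul_of_nonneg_left (hF 0 1) n0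
    nlinarith [mul_nonneg n0 δ0]
  · have : ∑ o, (R.om o : ℂ) * (G.off j o 2 * F o) = (R.om0 * G.n j : ℝ) * (F 2 - F 3) := by
      simp [Fin.sum_univ_four, Geo.off, Raw.om]; ring
    simp only [Fin.reduceFinMk, this, rB_2]
    rw [norm_mul, Complex.norm_real, Real.norm_of_nonneg (by positivity)]
    have := mul_le_mul_of_nonneg_left (hF 2 3) (by positivity : 0 ≤ R.om0 * G.n j)
    unfold Raw.Om
    nlinarith [mul_nonneg n0 δ0]

lemma l1_comb_le (j : ℕ) {g : Fin 4 → V} {c : ℝ} (hg : ∀ o, l1 (g o) ≤ c) :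
    l1 (R.comb G j g) ≤ R.Om * c := by
  rw [← IsNet.sum_om, Finset.sum_mul]
  refine (l1_sum_le _ _).trans (Finset.sum_le_sum fun o _ => ?_)
  have := (H.om_pos o).1
  rw [l1_smul, l1_sh_mul, Complex.norm_real, Real.norm_of_nonneg (by linarith)]
  exact mul_le_mul_of_nonneg_left (hg o) (by linarith)

lemma far_comb {j : ℕ} {g : Fin 4 → V} {a : ℝ} (ha : 0 < a) (sg : ∀ o, Sp (G.rb j) (g o))
    (rg : ∀ o, Rl (g o)) (hg : ∀ o, l1 (g o - (a : ℂ) • G.φ j) ≤ 1 / 10 ^ 14 * (a * l1 (G.φ j)))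
    {x : R3} (hx : x ∈ cube) :
    (R.Om * (a * l1 (G.φ j))) ^ 2 * (1 / 10 ^ 6 * min (G.t ^ 16)⁻¹ (sqr (G.rB j) x)) ≤
      ‖ev 0 (R.comb G j g)‖ ^ 2 - ‖ev x (R.comb G j g)‖ ^ 2 := by
  rw [defect_comb]
  have h1 : ∑ o, ∑ o', R.om o * R.om o' * ((a * l1 (G.φ j)) ^ 2 *
      (1 / 10 ^ 6 * min 1 (sqr (G.w j) x) +
        (1 - Real.cos (pr (G.off j o) x - pr (G.off j o') x)) / 5)) ≤
      ∑ o, ∑ o', R.om o * R.om o' *
        Df (pr (G.off j o) x - pr (G.off j o') x) x (g o * dag (g o')) :=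
    Finset.sum_le_sum fun o _ => Finset.sum_le_sum fun o' _ =>
      mul_le_mul_of_nonneg_left (tooth_Df (G.hundred_le_rb j) (G.rb_add_one j) hx _ ha (sg o)
        (sg o') (rg o) (rg o') (hg o) (hg o'))
        (mul_nonneg (by linarith [(H.om_pos o).1]) (by linarith [(H.om_pos o').1]))
  refine le_trans ?_ h1
  simp only [mul_left_comm _ ((a * l1 (G.φ j)) ^ 2), ← Finset.mul_sum]
  rw [cos_sum, mul_pow, mul_comm (R.Om ^ 2), mul_assoc]
  refine mul_le_mul_of_nonneg_left ?_ (sq_nonneg _)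
  simp only [sqr, Fin.sum_univ_three, rB_0, rB_1, rB_2, Raw.Om]
  exact far_num H.om_lo H.om_hi G.one_le_t (n_w1 j) (n_w2 j)

lemma mom_comb {j : ℕ} {g : Fin 4 → V} {a e1 e2 : ℝ} (ha : 0 < a) (sg : ∀ o, Sp (G.rb j) (g o))
    (h0 : 0 ≤ e1) (h1 : e1 ≤ 1) (h2 : 0 ≤ e2)
    (hg : ∀ o, l1 (g o - (a : ℂ) • G.φ j) ≤ e1 * (a * l1 (G.φ j)))
    (hd : ∀ o o', l1 (g o - g o') ≤ e2 * (a * l1 (G.φ j))) (i : Fin 3) (x : R3) :
    |Mo i x (R.comb G j g)| ≤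
      (R.Om * (a * l1 (G.φ j))) ^ 2 * (3 * e1 * G.w j i + 8 * e2 * G.rB j i) := by
  set U := a * l1 (G.φ j) with hU
  have U0 : 0 ≤ U := mul_nonneg ha.le (l1_nonneg _)
  have O0 : 0 ≤ R.Om := by linarith [H.Om_lo]
  have lf : l1 ((a : ℂ) • G.φ j) = U := by
    rw [l1_smul, Complex.norm_real, Real.norm_of_nonneg ha.le]
  have lg : ∀ o, l1 (g o) ≤ 2 * U := fun o => by
    have k := l1_add_le ((a : ℂ) • G.φ j) (g o - (a : ℂ) • G.φ j)
    rw [add_sub_cancel, lf] at k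
    linarith [hg o, mul_le_mul_of_nonneg_right h1 U0]
  set c : V := ∑ o, (R.om o : ℂ) • sh (G.off j o) with hc
  have ec : R.comb G j (fun _ => g 0) = c * g 0 := by
    simp only [hc, Raw.comb, Finset.sum_mul, smul_mul_assoc]
  have eB : R.comb G j g = R.comb G j (fun _ => g 0) + R.comb G j (fun o => g o - g 0) := by
    simp only [Raw.comb, ← Finset.sum_add_distrib, ← smul_add, ← mul_add, add_sub_cancel]
  have dc : dag c = c := by
    have o1 : -G.off j 0 = G.off j 1 := by ext i; fin_cases i <;> simp [Geo.off]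
    have o2 : -G.off j 1 = G.off j 0 := by rw [← o1, neg_neg]
    have o3 : -G.off j 2 = G.off j 3 := by ext i; fin_cases i <;> simp [Geo.off]
    have o4 : -G.off j 3 = G.off j 2 := by rw [← o3, neg_neg]
    have w1 : R.om 1 = R.om 0 := rfl
    have w3 : R.om 3 = R.om 2 := rfl
    simp only [hc, Fin.sum_univ_four, map_add, dag_smul, dag_sh, Complex.conj_ofReal, o1, o2, o3,
      o4, w1, w3]
    abel
  have lc : ‖ev x c‖ ≤ R.Om := by
    simp only [hc, map_sum, map_smul, smul_eq_mul]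
    simpa using norm_sum_om H (F := fun o => ev x (sh (G.off j o))) (δ := 1) fun o => by
      rw [ev_sh, Complex.norm_exp_I_mul_ofReal]
  have m0 : |Mo i x (g 0)| ≤ G.w j i * (e1 * U) * (3 * U) := by
    have k := Mo_add ((G.sp_φ j).smul a) ((sg 0).sub ((G.sp_φ j).smul a)) i x
    rw [add_sub_cancel, Mo_smul, Mo_of_dag (f := G.φ j) (dag_ph _), mul_zero, sub_zero, lf] at k
    refine k.trans ?_
    have r1 : (G.rb j i : ℝ) ≤ G.w j i := by
      rw [← G.rb_add_one j i]; push_cast; linarith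
    exact mul_le_mul (mul_le_mul r1 (hg 0) (l1_nonneg _) (Nat.cast_nonneg _)) (by linarith [lg 0])
      (add_nonneg (l1_nonneg _) U0) (mul_nonneg (Nat.cast_nonneg _) (mul_nonneg h0 U0))
  have m1 : |Mo i x (R.comb G j fun _ => g 0)| ≤ R.Om ^ 2 * (G.w j i * (e1 * U) * (3 * U)) := by
    rw [ec, Mo_mul, Mo_of_dag dc, zero_mul, zero_add, abs_mul, abs_of_nonneg (sq_nonneg _)]
    exact mul_le_mul (pow_le_pow_left₀ (norm_nonneg _) lc 2) m0 (abs_nonneg _) (sq_nonneg _)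
  have m2 := Mo_add (sp_comb (R := R) j fun _ => sg 0)
    (sp_comb (R := R) j fun o => (sg o).sub (sg 0)) i x
  rw [← eB] at m2
  have l1B := l1_comb_le H j lg
  have l1C := l1_comb_le H j fun _ => lg 0
  have l1E := l1_comb_le H j fun o => hd o 0
  have m3 : ((2 * G.rB j i : ℕ) : ℝ) * l1 (R.comb G j fun o => g o - g 0) *
      (l1 (R.comb G j g) + l1 (R.comb G j fun _ => g 0)) ≤
      ((2 * G.rB j i : ℕ) : ℝ) * (R.Om * (e2 * U)) * (R.Om * (2 * U) + R.Om * (2 * U)) :=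
    mul_le_mul (mul_le_mul_of_nonneg_left l1E (Nat.cast_nonneg _)) (add_le_add l1B l1C)
      (add_nonneg (l1_nonneg _) (l1_nonneg _))
      (mul_nonneg (Nat.cast_nonneg _) (mul_nonneg O0 (mul_nonneg h2 U0)))
  have m4 := abs_add_le (Mo i x (R.comb G j g) - Mo i x (R.comb G j fun _ => g 0))
    (Mo i x (R.comb G j fun _ => g 0))
  rw [sub_add_cancel] at m4
  refine m4.trans ((add_le_add (m2.trans m3) m1).trans (le_of_eq ?_))
  push_cast
  ring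

lemma first_comb {j : ℕ} {g : Fin 4 → V} {U e2 : ℝ} (sg : ∀ o, Sp (G.rb j) (g o))
    (lg : ∀ o, l1 (g o) ≤ 2 * U) (hd : ∀ o o', l1 (g o - g o') ≤ e2 * U) (i : Fin 3) :
    ‖ev 0 (Dk i (R.comb G j g))‖ ≤ R.Om * U * (e2 * G.rB j i + 2 * G.w j i) := by
  have r1 : (G.rb j i : ℝ) ≤ G.w j i := by
    rw [← G.rb_add_one j i]; push_cast; linarith
  simp only [Raw.comb, map_sum, map_smul, smul_eq_mul, ev0_Dk_sh, mul_add, Finset.sum_add_distrib]
  have h1 := norm_sum_off H j i (F := fun o => ev 0 (g o)) (δ := e2 * U) fun o o' => by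
    rw [← map_sub]; exact (norm_ev_le _ _).trans (hd o o')
  have h2 := norm_sum_om H (F := fun o => ev 0 (Dk i (g o))) (δ := G.w j i * (2 * U)) fun o =>
    (norm_ev_le _ _).trans ((l1_Dk_le (sg o) i).trans
      (mul_le_mul r1 (lg o) (l1_nonneg _) (Nat.cast_nonneg _)))
  refine (norm_add_le _ _).trans ((add_le_add h1 h2).trans (le_of_eq ?_))
  ring

lemma second_comb {j : ℕ} {g : Fin 4 → V} {U e2 : ℝ} (sg : ∀ o, Sp (G.rb j) (g o))
    (lg : ∀ o, l1 (g o) ≤ 2 * U) (hd : ∀ o o', l1 (g o - g o') ≤ e2 * U) {i k : Fin 3}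
    (hik : i ≠ k) :
    ‖ev 0 (Dk i (Dk k (R.comb G j g)))‖ ≤
      R.Om * U * (2 * e2 * (G.rB j i * G.rB j k) + 2 * (G.w j i * G.w j k)) := by
  have r1 : ∀ i, (G.rb j i : ℝ) ≤ G.w j i := fun i => by
    rw [← G.rb_add_one j i]; push_cast; linarith
  have r2 : ∀ i, (G.rb j i : ℝ) ≤ G.rB j i := fun i =>
    (r1 i).trans (by exact_mod_cast G.w_le_rB j i)
  simp only [Raw.comb, map_sum, map_smul, smul_eq_mul, ev0_Dk2_sh, off_mul j _ hik, zero_mul,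
    zero_add, mul_add, Finset.sum_add_distrib]
  have h1 : ∀ i k, ‖∑ o, (R.om o : ℂ) * (G.off j o k * ev 0 (Dk i (g o)))‖ ≤
      R.Om * (G.rB j k * (G.rB j i * (e2 * U))) := fun i k =>
    norm_sum_off H j k (F := fun o => ev 0 (Dk i (g o))) fun o o' => by
      rw [← map_sub, ← map_sub]
      exact (norm_ev_le _ _).trans ((l1_Dk_le ((sg o).sub (sg o')) i).trans
        (mul_le_mul (r2 i) (hd o o') (l1_nonneg _) (Nat.cast_nonneg _)))
  have h2 := norm_sum_om H (F := fun o => ev 0 (Dk i (Dk k (g o))))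
    (δ := G.w j i * (G.w j k * (2 * U))) fun o =>
    (norm_ev_le _ _).trans ((l1_Dk_le (sp_Dk (sg o) k) i).trans
      (mul_le_mul (r1 i) ((l1_Dk_le (sg o) k).trans
        (mul_le_mul (r1 k) (lg o) (l1_nonneg _) (Nat.cast_nonneg _))) (l1_nonneg _)
        (Nat.cast_nonneg _)))
  refine (norm_add_le _ _).trans ((add_le_add ((norm_add_le _ _).trans
    (add_le_add (h1 i k) (h1 k i))) h2).trans (le_of_eq ?_))
  ring

omit H in
lemma mix_num {e a τ ri rk wi wk : ℝ} (he : e = 3 * a) (a0 : 0 ≤ a) (a1 : a ≤ 1 / 10 ^ 14)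
    (τ0 : 0 ≤ τ) (wi0 : 0 ≤ wi) (wk0 : 0 ≤ wk) (hi : wi ≤ ri) (hk : wk ≤ rk)
    (hw : wi * wk ≤ τ * (ri * rk)) :
    2 * (2 * (2 * e * (ri * rk) + 2 * (wi * wk))) +
      2 * (2 * (e * ri + 2 * wi) * (2 * (e * rk + 2 * wk))) ≤ 10 ^ 4 * (τ + a) * (ri * rk) := by
  have ri0 : 0 ≤ ri := wi0.trans hi
  have rk0 : 0 ≤ rk := wk0.trans hk
  have p0 : 0 ≤ ri * rk := mul_nonneg ri0 rk0
  have p1 : a * (wi * rk) ≤ a * (ri * rk) := by gcongr
  have p2 : a * (ri * wk) ≤ a * (ri * rk) := by gcongr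
  have p3 : a * a * (ri * rk) ≤ a * (ri * rk) := by
    have : a * a ≤ a := mul_le_of_le_one_left a0 (by linarith)
    gcongr
  have p4 := mul_nonneg a0 p0
  have p5 := mul_nonneg τ0 p0
  subst he
  linarith

/-- A comb whose teeth are close to the ground state is a driver. -/
theorem drv_of_close {j : ℕ} {t a a1 a2 : ℝ} (ha : 0 < a) (h1 : a1 ≤ 1 / 10 ^ 15)
    (h2 : a2 ≤ 1 / 10 ^ 14)
    (hc : ∀ o, ‖R.b j o t - (a : ℂ) • G.φ j‖ ≤ a1 * a)
    (hd : ∀ o o', ‖R.b j o t - R.b j o' t‖ ≤ a2 * a) :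
    Drv G.t (G.rB j) (fun i => 10 ^ 3 * (a1 * G.w j i + a2 * G.rB j i))
      (10 ^ 4 * ((G.t ^ 4)⁻¹ + a2)) (R.pB G j t) := by
  have a10 : 0 ≤ a1 := nonneg_of_mul_nonneg_left ((norm_nonneg _).trans (hc 0)) ha
  have a20 : 0 ≤ a2 := nonneg_of_mul_nonneg_left ((norm_nonneg _).trans (hd 0 0)) ha
  have sg : ∀ o, Sp (G.rb j) (R.b j o t) := fun o => H.spb j o t
  have rg : ∀ o, Rl (R.b j o t) := fun o => H.rlb j o t
  have hN : 0 < Nn (G.rb j) := Nn_pos _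
  have hL : Nn (G.rb j) ≤ l1 (G.φ j) := le_l1_ph _
  set U := a * l1 (G.φ j) with hU
  have U0 : 0 < U := mul_pos ha (hN.trans_le hL)
  have key : ∀ {f : V} {c : ℝ}, Sp (G.rb j) f → 0 ≤ c → ‖f‖ ≤ c * a → l1 f ≤ 3 * c * U :=
    fun {f c} hf c0 hn => by
      refine hf.l1_le.trans ?_
      calc 3 * Nn (G.rb j) * ‖f‖ ≤ 3 * l1 (G.φ j) * (c * a) :=
            mul_le_mul (by linarith) hn (norm_nonneg _) (by linarith)
        _ = _ := by rw [hU]; ring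
  have hg : ∀ o, l1 (R.b j o t - (a : ℂ) • G.φ j) ≤ 3 * a1 * U := fun o =>
    key ((sg o).sub ((G.sp_φ j).smul _)) a10 (hc o)
  have hd' : ∀ o o', l1 (R.b j o t - R.b j o' t) ≤ 3 * a2 * U := fun o o' =>
    key ((sg o).sub (sg o')) a20 (hd o o')
  have hg' : ∀ o, l1 (R.b j o t - (a : ℂ) • G.φ j) ≤ 1 / 10 ^ 14 * U := fun o =>
    (hg o).trans (mul_le_mul_of_nonneg_right (by linarith) U0.le)
  have lf : l1 ((a : ℂ) • G.φ j) = U := by
    rw [l1_smul, Complex.norm_real, Real.norm_of_nonneg ha.le]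
  have lg : ∀ o, l1 (R.b j o t) ≤ (1 + 1 / 10 ^ 14) * U := fun o => by
    have k := l1_add_le ((a : ℂ) • G.φ j) (R.b j o t - (a : ℂ) • G.φ j)
    rw [add_sub_cancel, lf] at k
    linarith [hg' o]
  have lg2 : ∀ o, l1 (R.b j o t) ≤ 2 * U := fun o => (lg o).trans (by linarith)
  have O0 : 0 < R.Om := by linarith [H.Om_lo]
  set B : V := R.comb G j fun o => R.b j o t with hB
  have sB : Sp (fun i => 2 * G.rB j i) B := sp_comb j sg
  have rB : Rl B := rl_comb j rg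
  have lB : l1 B ≤ R.Om * ((1 + 1 / 10 ^ 14) * U) := l1_comb_le H j lg
  set W := R.Om * U with hW
  have W0 : 0 < W := mul_pos O0 U0
  set β := (ev 0 B).re with hβ
  have eβ : ev 0 B = (β : ℂ) := rB.ev_zero
  have b1 : ‖ev 0 B - (W : ℝ)‖ ≤ R.Om * (1 / 10 ^ 14 * U) := by
    have e : ev 0 B - (W : ℝ) = ∑ o, (R.om o : ℂ) * ev 0 (R.b j o t - (a : ℂ) • G.φ j) := by
      have e0 : ev 0 (G.φ j) = (l1 (G.φ j) : ℂ) := ev_zero_ph _
      simp only [hB, ev_comb, pr_zero', Complex.ofReal_zero, mul_zero, Complex.exp_zero, one_mul,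
        map_sub, map_smul, smul_eq_mul, e0, mul_sub, Finset.sum_sub_distrib, ← Finset.sum_mul,
        hW, hU, ← IsNet.sum_om]
      push_cast
      ring
    rw [e]
    exact norm_sum_om H fun o => (norm_ev_le _ _).trans (hg' o)
  rw [eβ, ← Complex.ofReal_sub, Complex.norm_real, Real.norm_eq_abs, abs_le] at b1
  have b2 : 9 / 10 * W ≤ β := by linarith [b1.1]
  have b3 : β ≤ 11 / 10 * W := by linarith [b1.2]
  have β0 : 0 < β := by linarith
  have hp : R.pB G j t = ((β⁻¹ : ℝ) : ℂ) • B := by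
    rw [Raw.pB, Complex.ofReal_inv, ← eβ]; rfl
  have hnb : ‖((β⁻¹ : ℝ) : ℂ)‖ = β⁻¹ := by
    rw [Complex.norm_real, Real.norm_of_nonneg (inv_nonneg.mpr β0.le)]
  have one : ev 0 (R.pB G j t) = 1 := by
    rw [hp, map_smul, eβ, smul_eq_mul, ← Complex.ofReal_mul, inv_mul_cancel₀ β0.ne']
    simp
  have nrm : ∀ {z : ℂ} {c : ℝ}, 0 ≤ c → ‖z‖ ≤ W * c → ‖((β⁻¹ : ℝ) : ℂ) * z‖ ≤ 2 * c :=
    fun {z c} c0 hz => by
      rw [norm_mul, hnb, inv_mul_le_iff₀ β0]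
      linarith [mul_le_mul_of_nonneg_right b2 c0, mul_nonneg W0.le c0]
  refine ⟨hp ▸ sB.smul _, hp ▸ rB.smul _, one, ?_, fun x hx => ?_, fun i k hik => ?_,
    fun i x => ?_⟩
  · rw [hp, l1_smul, hnb, inv_mul_le_iff₀ β0]
    linarith
  · have f1 := far_comb H ha sg rg hg' hx
    rw [← hB, ← hU, ← hW, eβ, Complex.norm_real, Real.norm_eq_abs, sq_abs] at f1
    rw [hp, map_smul, smul_eq_mul, norm_mul, hnb, mul_pow, inv_pow,
      inv_mul_le_iff₀ (pow_pos β0 2)]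
    have m0 : 0 ≤ min (G.t ^ 16)⁻¹ (sqr (G.rB j) x) :=
      le_min (inv_nonneg.mpr (pow_nonneg G.t_pos.le _)) (sqr_nonneg _ _)
    have f2 : β ^ 2 ≤ 2 * W ^ 2 := by linarith [pow_le_pow_left₀ β0.le b3 2, sq_nonneg W]
    have f3 := mul_le_mul_of_nonneg_right f2 m0
    have f4 := mul_nonneg (sq_nonneg W) m0
    linarith
  · refine (mix_le one i k).trans ?_
    have s1 := nrm (by positivity) (first_comb H sg lg2 hd' i)
    have s2 := nrm (by positivity) (first_comb H sg lg2 hd' k)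
    have s3 := nrm (by positivity) (second_comb H sg lg2 hd' hik)
    simp only [hp, map_smul, smul_eq_mul]
    refine le_trans ?_ (mix_num rfl a20 h2 (inv_nonneg.mpr (pow_nonneg G.t_pos.le 4))
      (Nat.cast_nonneg _) (Nat.cast_nonneg _) (by exact_mod_cast G.w_le_rB j i)
      (by exact_mod_cast G.w_le_rB j k) (ww_le j hik))
    gcongr
  · have s := mom_comb H ha sg (by positivity) (by linarith) (by positivity) hg hd' i x
    rw [← hB, ← hU, ← hW] at s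
    show |Mo i x (R.pB G j t)| ≤ _
    rw [hp, Mo_smul, abs_mul, abs_of_nonneg (sq_nonneg _), inv_pow,
      inv_mul_le_iff₀ (pow_pos β0 2)]
    refine s.trans ?_
    have f1 : W ^ 2 ≤ 2 * β ^ 2 := by
      linarith [pow_le_pow_left₀ (by linarith) b2 2, sq_nonneg W]
    have p1 : 0 ≤ a1 * G.w j i := mul_nonneg a10 (Nat.cast_nonneg _)
    have p2 : 0 ≤ a2 * G.rB j i := mul_nonneg a20 (Nat.cast_nonneg _)
    calc W ^ 2 * (3 * (3 * a1) * G.w j i + 8 * (3 * a2) * G.rB j i)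
        ≤ 2 * β ^ 2 * (3 * (3 * a1) * G.w j i + 8 * (3 * a2) * G.rB j i) :=
          mul_le_mul_of_nonneg_right f1 (by linarith)
      _ = β ^ 2 * (18 * (a1 * G.w j i) + 48 * (a2 * G.rB j i)) := by ring
      _ ≤ _ := mul_le_mul_of_nonneg_left (by linarith) (sq_nonneg _)

end

end

end Pool.Agent.Work.MP_6bf1e5_an.Ell.CombB
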