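import Pool.Agent.Work.MP_6bf1e5_an.Ell.CombA
import Pool.Agent.Work.MP_6bf1e5_an.Ell.CombB

/-!
Combs close to the ground state are drivers.
-/

open Pool.Agent.Work.MP_6bf1e5_an.Dec

namespace Pool.Agent.Work.MP_6bf1e5_an.Ell

/-- A comb whose teeth are close to the ground state is a driver. -/
theorem IsNet.drv_of_close {G : Geo} {R : Raw} (H : IsNet G R) {j : ℕ} {t a a1 a2 : ℝ}
    (ha : 0 < a) (h1 : a1 ≤ 1 / 10 ^ 15) (h2 : a2 ≤ 1 / 10 ^ 14)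
    (hc : ∀ o, ‖R.b j o t - (a : ℂ) • G.φ j‖ ≤ a1 * a)
    (hd : ∀ o o', ‖R.b j o t - R.b j o' t‖ ≤ a2 * a) :
    Drv G.t (G.rB j) (fun i => 10 ^ 3 * (a1 * G.w j i + a2 * G.rB j i))
      (10 ^ 4 * ((G.t ^ 4)⁻¹ + a2)) (R.pB G j t) :=
  CombB.drv_of_close H ha h1 h2 hc hd

end Pool.Agent.Work.MP_6bf1e5_an.Ell
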