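import Pool.Agent.Work.MP_6bf1e5_an.Ell.Box
import Pool.Agent.Work.MP_6bf1e5_an.Dec.Gap1
import Pool.Agent.Work.MP_6bf1e5_an.Dec.Phase1A

/-!
Properties of normalised drivers.
-/

open Set Complex Filter Topology MeasureTheory
open scoped InnerProductSpace ComplexConjugate
open Pool.Agent.Work.MP_6bf1e5_an.B (Z3 R3)
open Pool.Agent.Work.MP_6bf1e5_an.Dec

namespace Pool.Agent.Work.MP_6bf1e5_an.Ell

noncomputable section

lemma sqr_nonneg (r : N3) (x : R3) : 0 ≤ sqr r x := Finset.sum_nonneg fun _ _ => sq_nonneg _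

lemma sq_sum_le_sqr (r : N3) (x : R3) : (∑ i, r i * |x i|) ^ 2 ≤ 3 * sqr r x := by
  have e : ∀ i, ((r i : ℝ) * x i) ^ 2 = (r i * |x i|) ^ 2 := fun i => by
    rw [mul_pow, mul_pow, sq_abs]
  simp only [sqr, e, Fin.sum_univ_three]
  linarith [sq_nonneg ((r 0 : ℝ) * |x 0| - r 1 * |x 1|), sq_nonneg ((r 0 : ℝ) * |x 0| - r 2 * |x 2|),
    sq_nonneg ((r 1 : ℝ) * |x 1| - r 2 * |x 2|)]

namespace DrvAux

/-- First order Taylor expansion of a trigonometric polynomial. -/
lemma taylor {m : N3} {f : V} (hs : Sp m f) (x : R3) :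
    ‖ev x f - ev 0 f - I * ∑ i, (x i : ℂ) * ev 0 (mulr (fun k => (k i : ℝ)) f)‖ ≤
      l1 f * (2 * (∑ i, m i * |x i|) ^ 2) := by
  have e0 : ∑ i, (x i : ℂ) * ev 0 (mulr (fun k => (k i : ℝ)) f) =
      ∑ k ∈ bx m, f.coeff k * (pr k x : ℝ) := by
    have : ∀ i, ev 0 (mulr (fun k => (k i : ℝ)) f) =
        ∑ k ∈ bx m, (((k i : ℝ)) : ℂ) * f.coeff k := fun i => by
      rw [ev_zero_eq (hs.mulr _).subset]; rfl
    simp only [this, Finset.mul_sum]
    rw [Finset.sum_comm]
    refine Finset.sum_congr rfl fun k _ => ?_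
    rw [pr, Complex.ofReal_sum, Finset.mul_sum]
    exact Finset.sum_congr rfl fun i _ => by push_cast; ring
  have e : ev x f - ev 0 f - I * ∑ k ∈ bx m, f.coeff k * (pr k x : ℝ) =
      ∑ k ∈ bx m, f.coeff k * (Complex.exp (I * (pr k x : ℝ)) - 1 - I * (pr k x : ℝ)) := by
    rw [ev_eq x hs.subset, ev_zero_eq hs.subset, Finset.mul_sum, ← Finset.sum_sub_distrib,
      ← Finset.sum_sub_distrib]
    exact Finset.sum_congr rfl fun k _ => by ring
  rw [e0, e, l1_eq hs.subset, Finset.sum_mul]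
  refine (norm_sum_le _ _).trans (Finset.sum_le_sum fun k hk => ?_)
  rw [norm_mul]
  gcongr
  refine (Gap1Aux.norm_exp_taylor _).trans ?_
  have h1 := abs_pr_le3 hk x
  have h3 : pr k x ^ 2 ≤ (∑ i, m i * |x i|) ^ 2 := by
    rw [← sq_abs]; gcongr
  linarith

lemma sum_two_mul (r : N3) (x : R3) :
    ∑ i, ((2 * r i : ℕ) : ℝ) * |x i| = 2 * ∑ i, r i * |x i| := by
  rw [Finset.mul_sum]
  exact Finset.sum_congr rfl fun i _ => by push_cast; ring

lemma dag_tau (f : V) : dag (tau f) = tau (dag f) := by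
  ext h
  simp only [tau, coeff_dag, coeff_prm, map_neg]

lemma mulr_tau (d : Z3 → ℝ) (f : V) : mulr (fun h => d (tauE h)) (tau f) = tau (mulr d f) := by
  ext h
  simp only [tau, coeff_mulr, coeff_prm]

lemma rot3_eq {α : Type} (a : Fin 3 → α) (i : Fin 3) : rot3 a i = a (rot3 id i) := by
  fin_cases i <;> rfl

lemma tauE_rot (h : Z3) (i : Fin 3) : tauE h (rot3 id i) = h i := by
  fin_cases i <;> rfl

lemma rot3_ne {i j : Fin 3} (h : i ≠ j) : rot3 id i ≠ rot3 id j := by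
  revert i j; decide

lemma abs_second_diff1 (A B : ℝ) :
    |Real.cos A - (Real.cos (A - B) + Real.cos (A + B)) / 2| ≤ B ^ 2 / 2 := by
  have e : Real.cos A - (Real.cos (A - B) + Real.cos (A + B)) / 2 =
      Real.cos A * (1 - Real.cos B) := by rw [Real.cos_sub, Real.cos_add]; ring
  have h1 := Real.one_sub_sq_div_two_le_cos (x := B)
  have h2 := Real.cos_le_one B
  rw [e, abs_mul, abs_of_nonneg (by linarith : 0 ≤ 1 - Real.cos B)]
  have := Real.abs_cos_le_one A
  nlinarith [abs_nonneg (Real.cos A)]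

lemma cos3 (x y z : ℝ) : Real.cos x * Real.cos y * Real.cos z =
    (Real.cos (x + y + z) + Real.cos (x + y - z) + Real.cos (x - y + z) +
      Real.cos (x - y - z)) / 4 := by
  simp only [Real.cos_add, Real.cos_sub, Real.sin_add, Real.sin_sub]; ring

lemma abs_second_diff (a b : Fin 3 → ℝ) {d : ℝ} (hb : ∀ i, |b i| ≤ d) :
    |∏ i, Real.cos (a i) - (∏ i, Real.cos (a i - b i) + ∏ i, Real.cos (a i + b i)) / 2| ≤
      5 * d ^ 2 := by
  simp only [Fin.prod_univ_three, cos3]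
  have b0 := abs_le.mp (hb 0)
  have b1 := abs_le.mp (hb 1)
  have b2 := abs_le.mp (hb 2)
  have key : ∀ A B : ℝ, -(3 * d) ≤ B → B ≤ 3 * d →
      |Real.cos A - (Real.cos (A - B) + Real.cos (A + B)) / 2| ≤ 5 * d ^ 2 := fun A B h1 h2 => by
    refine (abs_second_diff1 A B).trans ?_
    have : B ^ 2 ≤ (3 * d) ^ 2 := sq_le_sq' h1 h2
    linarith [sq_nonneg d]
  have k1 := abs_le.mp (key (a 0 + a 1 + a 2) (b 0 + b 1 + b 2) (by linarith) (by linarith))
  have k2 := abs_le.mp (key (a 0 + a 1 - a 2) (b 0 + b 1 - b 2) (by linarith) (by linarith))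
  have k3 := abs_le.mp (key (a 0 - a 1 + a 2) (b 0 - b 1 + b 2) (by linarith) (by linarith))
  have k4 := abs_le.mp (key (a 0 - a 1 - a 2) (b 0 - b 1 - b 2) (by linarith) (by linarith))
  rw [show a 0 - b 0 + (a 1 - b 1) + (a 2 - b 2) = a 0 + a 1 + a 2 - (b 0 + b 1 + b 2) by ring,
    show a 0 - b 0 + (a 1 - b 1) - (a 2 - b 2) = a 0 + a 1 - a 2 - (b 0 + b 1 - b 2) by ring,
    show a 0 - b 0 - (a 1 - b 1) + (a 2 - b 2) = a 0 - a 1 + a 2 - (b 0 - b 1 + b 2) by ring,
    show a 0 - b 0 - (a 1 - b 1) - (a 2 - b 2) = a 0 - a 1 - a 2 - (b 0 - b 1 - b 2) by ring,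
    show a 0 + b 0 + (a 1 + b 1) + (a 2 + b 2) = a 0 + a 1 + a 2 + (b 0 + b 1 + b 2) by ring,
    show a 0 + b 0 + (a 1 + b 1) - (a 2 + b 2) = a 0 + a 1 - a 2 + (b 0 + b 1 - b 2) by ring,
    show a 0 + b 0 - (a 1 + b 1) + (a 2 + b 2) = a 0 - a 1 + a 2 + (b 0 - b 1 + b 2) by ring,
    show a 0 + b 0 - (a 1 + b 1) - (a 2 + b 2) = a 0 - a 1 - a 2 + (b 0 - b 1 - b 2) by ring,
    abs_le]
  constructor <;> linarith [k1.1, k1.2, k2.1, k2.2, k3.1, k3.2, k4.1, k4.2]

section big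

variable {T : ℝ} {r n : N3} (hT : (10 : ℝ) ^ 100 ≤ T) (hn : ∀ i, (n i : ℝ) + 1 = T ^ 17 * r i)

include hT in
lemma le_pow17 : (10 : ℝ) ^ 100 ≤ T ^ 17 :=
  hT.trans (le_self_pow₀ (le_trans (by norm_num) hT) (by norm_num))

include hn in
lemma one_le_r (i : Fin 3) : 1 ≤ r i := by
  rcases Nat.eq_zero_or_pos (r i) with h | h
  · have h1 := hn i
    rw [h, Nat.cast_zero, mul_zero] at h1
    have : (0 : ℝ) ≤ n i := Nat.cast_nonneg _
    linarith
  · exact h

include hT hn in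
lemma four_mul_le (i : Fin 3) : 4 * r i ≤ n i := by
  have h1 : (1 : ℝ) ≤ r i := by exact_mod_cast one_le_r hn i
  have h2 := le_pow17 hT
  have h3 := hn i
  have h4 : (5 : ℝ) * r i ≤ T ^ 17 * r i := by
    gcongr
    exact le_trans (by norm_num) h2
  have : (4 : ℝ) * r i ≤ n i := by linarith
  exact_mod_cast this

include hT hn in
lemma r_mul_th (i : Fin 3) : r i * th (n i) = Real.pi / 2 / T ^ 17 := by
  have h2 : 0 < T ^ 17 := lt_of_lt_of_le (by positivity) (le_pow17 hT)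
  have h3 := th_mul (n i)
  rw [hn i] at h3
  rw [eq_div_iff h2.ne', ← h3]; ring

include hT hn in
lemma card_strip : (((bx (fun i => n i + 4 * r i) \ bx (fun i => n i - 4 * r i)).card : ℕ) : ℝ) ≤
    300 / T ^ 17 * Nn n ^ 2 := by
  have h2 := le_pow17 hT
  have h0 : 0 < T ^ 17 := lt_of_lt_of_le (by positivity) h2
  set ε := (T ^ 17)⁻¹ with hε
  have e0 : 0 < ε := inv_pos.mpr h0
  have e1 : ε ≤ 1 / 100 := by
    rw [hε, one_div]
    exact inv_anti₀ (by norm_num) (le_trans (by norm_num) h2)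
  have hr : ∀ i, (r i : ℝ) = ε * (n i + 1) := fun i => by
    rw [hn i, hε, inv_mul_cancel_left₀ h0.ne']
  have sub : bx (fun i => n i - 4 * r i) ⊆ bx (fun i => n i + 4 * r i) := bx_mono fun i => by omega
  have c := Finset.card_sdiff_add_card_eq_card sub
  rw [card_bx, card_bx] at c
  have c' : (((bx (fun i => n i + 4 * r i) \ bx (fun i => n i - 4 * r i)).card : ℕ) : ℝ) +
      ∏ i, (2 * ((n i : ℝ) - 4 * r i) + 1) = ∏ i, (2 * ((n i : ℝ) + 4 * r i) + 1) := by
    have := congrArg (Nat.cast : ℕ → ℝ) c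
    push_cast at this
    rw [← this]
    congr 1
    exact Finset.prod_congr rfl fun i _ => by rw [Nat.cast_sub (four_mul_le hT hn i)]; push_cast; ring
  have u : ∏ i, (2 * ((n i : ℝ) + 4 * r i) + 1) ≤ ∏ i : Fin 3, ((2 + 8 * ε) * ((n i : ℝ) + 1)) :=
    Finset.prod_le_prod (fun i _ => by positivity) fun i _ => by linarith [hr i]
  have l : ∏ i : Fin 3, ((2 - 9 * ε) * ((n i : ℝ) + 1)) ≤ ∏ i, (2 * ((n i : ℝ) - 4 * r i) + 1) :=
    Finset.prod_le_prod (fun i _ => mul_nonneg (by linarith) (by positivity)) fun i _ => by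
      have h1 : (1 : ℝ) ≤ r i := by exact_mod_cast one_le_r hn i
      linarith [hr i]
  rw [Finset.prod_mul_distrib, Finset.prod_const, Finset.card_univ, Fintype.card_fin, ← Nn_sq] at u l
  have k : (2 + 8 * ε) ^ 3 - (2 - 9 * ε) ^ 3 ≤ 300 * ε := by
    have : ε ^ 2 ≤ (1 / 100) ^ 2 := by gcongr
    linarith [mul_nonneg e0.le (sub_nonneg.mpr this), sq_nonneg ε]
  have k2 := mul_le_mul_of_nonneg_right k (sq_nonneg (Nn n))
  rw [div_eq_mul_inv, ← hε]
  linarith

include hT hn in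
lemma norm_second_diff {k : Z3} (hk : k ∈ bx (fun i => 4 * r i)) :
    ‖ph n - (2⁻¹ : ℂ) • (sh k * ph n + sh (-k) * ph n)‖ ≤ (T ^ 25)⁻¹ / 4 := by
  have T0 : 0 < T := lt_of_lt_of_le (by positivity) hT
  have T1 : 1 ≤ T := le_trans (by norm_num) hT
  have N0 := Nn_pos n
  set D := ph n - (2⁻¹ : ℂ) • (sh k * ph n + sh (-k) * ph n) with hD
  set d := 2 * Real.pi / T ^ 17 with hd
  have d0 : 0 ≤ d := by have := Real.pi_pos; positivity
  have hki : ∀ i, |k i| ≤ 4 * r i := fun i => by simpa using mem_bx.mp hk i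
  have hb : ∀ i, |th (n i) * k i| ≤ d := fun i => by
    have h1 : |(k i : ℝ)| ≤ 4 * r i := by exact_mod_cast hki i
    rw [abs_mul, abs_of_pos (th_pos _)]
    calc th (n i) * |(k i : ℝ)| ≤ th (n i) * (4 * r i) := by gcongr; exact (th_pos _).le
      _ = 4 * (r i * th (n i)) := by ring
      _ = d := by rw [r_mul_th hT hn i, hd]; ring
  have cD : ∀ h, D.coeff h = (((Nn n)⁻¹ * (∏ i, cb (n i) (h i) -
      (∏ i, cb (n i) ((h - k) i) + ∏ i, cb (n i) ((h + k) i)) / 2) : ℝ) : ℂ) := fun h => by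
    rw [hD]
    simp only [AddMonoidAlgebra.coeff_sub, AddMonoidAlgebra.coeff_add, AddMonoidAlgebra.coeff_smul,
      Finsupp.sub_apply, Finsupp.add_apply, Finsupp.smul_apply, smul_eq_mul, coeff_sh_mul,
      coeff_ph', sub_neg_eq_add]
    push_cast; ring
  have sD : Sp (fun i => n i + 4 * r i) D := by
    have s1 : ∀ {k : Z3}, k ∈ bx (fun i => 4 * r i) → Sp (fun i => n i + 4 * r i) (sh k * ph n) :=
      fun hk => ((sp_sh hk).mul (sp_ph n)).mono fun i => by simp [add_comm]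
    exact ((sp_ph n).mono fun i => by omega).sub (((s1 hk).add (s1 (neg_mem_bx.mpr hk))).smul _)
  have all : ∀ h, ‖D.coeff h‖ ≤ (Nn n)⁻¹ * (3 * d) := fun h => by
    rw [cD, Complex.norm_real, norm_mul, Real.norm_of_nonneg (by positivity), Real.norm_eq_abs]
    gcongr
    have one : ∀ g : Z3, (∀ i, |(h i : ℝ) - g i| = |(k i : ℝ)|) →
        |∏ i, cb (n i) (h i) - ∏ i, cb (n i) (g i)| ≤ 3 * d := fun g hg => by
      refine (abs_prod3_sub (fun _ => Real.abs_cos_le_one _)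
        fun _ => Real.abs_cos_le_one _).trans ?_
      calc ∑ i, |cb (n i) (h i) - cb (n i) (g i)| ≤ ∑ _i : Fin 3, d :=
            Finset.sum_le_sum fun i _ => (cb_lip _ _ _).trans (by
              have := hb i
              rw [abs_mul, abs_of_pos (th_pos _)] at this
              rwa [hg i])
        _ = _ := by simp
    have o1 := abs_le.mp (one (h - k) fun i => by simp)
    have o2 := abs_le.mp (one (h + k) fun i => by simp)
    rw [abs_le]
    constructor <;> linarith [o1.1, o1.2, o2.1, o2.2]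
  have inner : ∀ h ∈ bx (fun i => n i - 4 * r i), ‖D.coeff h‖ ≤ (Nn n)⁻¹ * (5 * d ^ 2) :=
    fun h hh => by
    rw [cD, Complex.norm_real, norm_mul, Real.norm_of_nonneg (by positivity), Real.norm_eq_abs]
    gcongr
    have hhi : ∀ i, |h i| ≤ n i - 4 * r i := fun i => by
      have := mem_bx.mp hh i
      rwa [Nat.cast_sub (four_mul_le hT hn i), Nat.cast_mul] at this
    have c0 : ∀ i, cb (n i) (h i) = Real.cos (th (n i) * h i) := fun i =>
      cb_of_le (by have := hhi i; omega)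
    have c1 : ∀ i, cb (n i) ((h - k) i) = Real.cos (th (n i) * h i - th (n i) * k i) := fun i => by
      rw [cb_of_le (by
        have := abs_le.mp (hhi i); have := abs_le.mp (hki i)
        rw [Pi.sub_apply, abs_le]; omega)]
      simp [mul_sub]
    have c2 : ∀ i, cb (n i) ((h + k) i) = Real.cos (th (n i) * h i + th (n i) * k i) := fun i => by
      rw [cb_of_le (by
        have := abs_le.mp (hhi i); have := abs_le.mp (hki i)
        rw [Pi.add_apply, abs_le]; omega)]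
      simp [mul_add]
    simp only [c0, c1, c2]
    exact abs_second_diff (fun i => th (n i) * h i) (fun i => th (n i) * k i) hb
  have n1 : ‖pj (fun i => n i - 4 * r i) D‖ ≤ 15 * d ^ 2 := by
    have := (sp_pj (fun i => n i - 4 * r i) D).norm_le (c := (Nn n)⁻¹ * (5 * d ^ 2))
      (by positivity) fun h => by
        rw [coeff_pj]
        split_ifs with hh
        · exact inner h hh
        · rw [norm_zero]; positivity
    have le : Nn (fun i => n i - 4 * r i) ≤ Nn n := by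
      simpa using Nn_le (m := fun i => n i - 4 * r i) (n := n) zero_le_one fun i => by
        have : ((n i - 4 * r i : ℕ) : ℝ) ≤ n i := by exact_mod_cast Nat.sub_le _ _
        linarith
    calc _ ≤ _ := this
      _ ≤ 3 * Nn n * ((Nn n)⁻¹ * (5 * d ^ 2)) := by gcongr
      _ = _ := by field_simp; ring
  have n2 : ‖D - pj (fun i => n i - 4 * r i) D‖ ≤ (T ^ 8)⁻¹ / 1000 * (3 * d) := by
    have := norm_le_of_card (f := D - pj (fun i => n i - 4 * r i) D)
      (s := bx (fun i => n i + 4 * r i) \ bx (fun i => n i - 4 * r i))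
      (fun h hh => by
        rw [Finsupp.mem_support_iff, AddMonoidAlgebra.coeff_sub, Finsupp.sub_apply, coeff_pj] at hh
        refine Finset.mem_sdiff.mpr ⟨?_, fun h1 => hh (by rw [if_pos h1, sub_self])⟩
        by_contra h1
        exact hh (by simp [sD h h1]))
      (c := (Nn n)⁻¹ * (3 * d)) (by positivity) fun h => by
        rw [AddMonoidAlgebra.coeff_sub, Finsupp.sub_apply, coeff_pj]
        split_ifs with hh
        · rw [sub_self, norm_zero]; positivity
        · rw [sub_zero]; exact all h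
    have le : √((bx (fun i => n i + 4 * r i) \ bx (fun i => n i - 4 * r i)).card) ≤
        (T ^ 8)⁻¹ / 1000 * Nn n := by
      refine Real.sqrt_le_iff.mpr ⟨by positivity, (card_strip hT hn).trans ?_⟩
      rw [mul_pow]
      gcongr
      rw [div_le_iff₀ (by positivity), show ((T ^ 8)⁻¹ / 1000) ^ 2 * T ^ 17 = T / 10 ^ 6 by
        field_simp; norm_num, le_div_iff₀ (by positivity)]
      exact le_trans (by norm_num) hT
    calc _ ≤ _ := this
      _ ≤ (T ^ 8)⁻¹ / 1000 * Nn n * ((Nn n)⁻¹ * (3 * d)) := by gcongr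
      _ = _ := by field_simp
  have d1 : d ≤ 7 / T ^ 17 := by
    rw [hd]; gcongr; linarith [Real.pi_lt_d2]
  have a1 : (T ^ 8)⁻¹ / 1000 * (3 * d) ≤ (T ^ 25)⁻¹ / 8 := by
    calc (T ^ 8)⁻¹ / 1000 * (3 * d) ≤ (T ^ 8)⁻¹ / 1000 * (3 * (7 / T ^ 17)) := by gcongr
      _ = (T ^ 25)⁻¹ * (21 / 1000) := by field_simp; norm_num
      _ ≤ _ := by have : 0 < (T ^ 25)⁻¹ := by positivity
                  linarith
  have a2 : 15 * d ^ 2 ≤ (T ^ 25)⁻¹ / 8 := by
    have : (10 : ℝ) ^ 4 ≤ T ^ 9 :=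
      le_trans (le_trans (by norm_num) hT) (le_self_pow₀ T1 (by norm_num))
    calc 15 * d ^ 2 ≤ 15 * (7 / T ^ 17) ^ 2 := by gcongr
      _ = (T ^ 25)⁻¹ * (735 / T ^ 9) := by field_simp; norm_num
      _ ≤ (T ^ 25)⁻¹ * (735 / 10 ^ 4) := by gcongr
      _ ≤ _ := by have : 0 < (T ^ 25)⁻¹ := by positivity
                  linarith
  have := norm_add_le (pj (fun i => n i - 4 * r i) D) (D - pj (fun i => n i - 4 * r i) D)
  rw [add_sub_cancel] at this
  linarith

end big

end DrvAux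

open DrvAux

namespace Drv

variable {T κ : ℝ} {r : N3} {mv : Fin 3 → ℝ} {p : V} (h : Drv T r mv κ p)

include h

lemma mono {κ' : ℝ} {mv' : Fin 3 → ℝ} (h1 : ∀ i, mv i ≤ mv' i) (h2 : κ ≤ κ') :
    Drv T r mv' κ' p :=
  ⟨h.supp, h.real, h.one, h.l1_le, h.far,
    fun i j hij => (h.mix i j hij).trans (mul_le_mul_of_nonneg_right h2 (by positivity)),
    fun i x => (h.mom i x).trans (h1 i)⟩

lemma ev_le {x : R3} (hx : x ∈ cube) : ‖ev x p‖ ≤ 1 := by
  have h1 := h.far x hx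
  have h2 : 0 ≤ min (T ^ 16)⁻¹ (sqr r x) := le_min (by positivity) (sqr_nonneg r x)
  exact (sq_le_one_iff₀ (norm_nonneg _)).mp (by linarith)

lemma norm_mul_le (f : V) : ‖p * f‖ ≤ ‖f‖ := by
  simpa using norm_mul_le_of_symbol zero_le_one (fun x hx => h.ev_le hx) f

lemma norm_dag_mul_le (f : V) : ‖dag p * f‖ ≤ ‖f‖ := by
  rw [norm_dag_mul]; exact h.norm_mul_le f

lemma taylor' (x : R3) :
    ‖ev x p - 1 - I * ∑ i, (x i : ℂ) * ev 0 (mulr (fun k => (k i : ℝ)) p)‖ ≤ 48 * sqr r x := by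
  have h1 := taylor h.supp x
  rw [h.one, sum_two_mul] at h1
  have h2 := sq_sum_le_sqr r x
  have h3 : l1 p * (2 * (2 * ∑ i, r i * |x i|) ^ 2) ≤ 2 * (2 * (2 * ∑ i, r i * |x i|) ^ 2) :=
    mul_le_mul_of_nonneg_right h.l1_le (by positivity)
  linarith

lemma near (x : R3) : 1 - ‖ev x p‖ ^ 2 ≤ 100 * sqr r x := by
  have h1 := (Complex.abs_re_le_norm _).trans (h.taylor' x)
  have h2 : (∑ i, (x i : ℂ) * ev 0 (mulr (fun k => (k i : ℝ)) p)).im = 0 := by
    rw [Complex.im_sum]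
    exact Finset.sum_eq_zero fun i _ => by
      rw [(h.real.mulr _).ev_zero, ← Complex.ofReal_mul, Complex.ofReal_im]
  rw [Complex.sub_re, Complex.sub_re, Complex.mul_re, h2, Complex.one_re, Complex.I_re, zero_mul,
    mul_zero, sub_zero, sub_zero] at h1
  have f2 : (ev x p).re ^ 2 ≤ ‖ev x p‖ ^ 2 := by
    rw [← sq_abs]
    exact pow_le_pow_left₀ (abs_nonneg _) (Complex.abs_re_le_norm _) 2
  have := sqr_nonneg r x
  linarith [sq_nonneg ((ev x p).re - 1), (abs_le.mp h1).1]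

lemma norm_mom_le (i : Fin 3) : ‖ev 0 (mulr (fun k => (k i : ℝ)) p)‖ ≤ mv i := by
  have h1 := h.mom i 0
  rw [h.one, map_one, one_mul] at h1
  rwa [(h.real.mulr _).ev_zero, Complex.norm_real, Real.norm_eq_abs]

lemma mv_nonneg (i : Fin 3) : 0 ≤ mv i := (abs_nonneg _).trans (h.mom i 0)

lemma ev_sub_one (x : R3) : ‖ev x p - 1‖ ≤ ∑ i, |x i| * mv i + 50 * sqr r x := by
  have h1 := h.taylor' x
  have h2 : ‖I * ∑ i, (x i : ℂ) * ev 0 (mulr (fun k => (k i : ℝ)) p)‖ ≤ ∑ i, |x i| * mv i := by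
    rw [norm_mul, Complex.norm_I, one_mul]
    refine (norm_sum_le _ _).trans (Finset.sum_le_sum fun i _ => ?_)
    rw [norm_mul, Complex.norm_real, Real.norm_eq_abs]
    gcongr
    exact h.norm_mom_le i
  have h3 := norm_add_le (ev x p - 1 - I * ∑ i, (x i : ℂ) * ev 0 (mulr (fun k => (k i : ℝ)) p))
    (I * ∑ i, (x i : ℂ) * ev 0 (mulr (fun k => (k i : ℝ)) p))
  rw [sub_add_cancel] at h3
  have := sqr_nonneg r x
  linarith

protected lemma tau : Drv T (rot3 r) (rot3 mv) κ (tau p) := by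
  refine ⟨?_, h.real.tau, by rw [ev_zero_tau, h.one], by rw [l1_tau]; exact h.l1_le,
    fun x hx => ?_, fun i j hij => ?_, fun i x => ?_⟩
  · exact h.supp.tau.mono fun i => by fin_cases i <;> exact le_rfl
  · have h1 := h.far ![x 1, x 2, x 0] ⟨fun i => by fin_cases i <;> exact hx.1 _,
      fun i => by fin_cases i <;> exact hx.2 _⟩
    have e : sqr (rot3 r) x = sqr r ![x 1, x 2, x 0] := by
      simp only [sqr, rot3, Fin.sum_univ_three, Matrix.cons_val]
      ring
    rwa [ev_tau, e]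
  · have h1 := h.mix _ _ (rot3_ne hij)
    rw [← ev_zero_tau, ← mulr_tau, tau_mul, ← dag_tau] at h1
    simp only [tauE_rot] at h1
    rwa [rot3_eq r i, rot3_eq r j]
  · have h1 := h.mom (rot3 id i) ![x 1, x 2, x 0]
    rw [← ev_tau, ← ev_tau, ← mulr_tau] at h1
    simp only [tauE_rot] at h1
    rwa [rot3_eq mv i]

/-- The Nash type lower bound of the loss. -/
theorem nash (hr : ∀ i, 1 ≤ r i) {ω S : ℝ} (h0 : 0 < ω) (h1 : ω ≤ (T ^ 16)⁻¹) (y : V)
    (hS : ∀ x ∈ cube, ‖ev x y‖ ≤ S) :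
    1 / 10 ^ 10 * ω * (‖y‖ ^ 2 - √ω ^ 3 / (∏ i, (r i : ℝ)) * S ^ 2 / 30) ≤ Qf p y := by
  have rp : ∀ i, (0 : ℝ) < r i := fun i => by exact_mod_cast hr i
  set ρ : R3 := fun i => √ω / r i with hρ
  have r0 : ∀ i, 0 ≤ ρ i := fun i => div_nonneg (Real.sqrt_nonneg _) (rp i).le
  set v := √ω ^ 3 / ∏ i, (r i : ℝ) with hv
  have v0 : 0 ≤ v := div_nonneg (by positivity) (Finset.prod_nonneg fun i _ => (rp i).le)
  set K : Set R3 := Icc (fun i => -ρ i) ρ with hK
  have c : ∀ f : V, Continuous fun x : R3 => ‖ev x f‖ ^ 2 := fun f => (continuous_ev f).norm.pow 2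
  have iK : IntegrableOn (K.indicator fun _ => S ^ 2) cube :=
    (integrableOn_cube continuous_const).indicator measurableSet_Icc
  have h2 : ∫ x in cube, K.indicator (fun _ => S ^ 2) x ≤ 8 * v * S ^ 2 := by
    refine le_trans (setIntegral_le_integral ?_ (Filter.Eventually.of_forall fun x =>
      indicator_nonneg (fun _ _ => sq_nonneg _) x)) ?_
    · exact (integrable_indicator_iff measurableSet_Icc).mpr
        (continuous_const.continuousOn.integrableOn_compact isCompact_Icc)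
    · rw [integral_indicator measurableSet_Icc, setIntegral_const, smul_eq_mul, Measure.real,
        Real.volume_Icc_pi_toReal fun i => by simpa using r0 i]
      refine le_of_eq ?_
      congr 1
      have := rp 0
      have := rp 1
      have := rp 2
      simp only [hv, hρ, Fin.prod_univ_three]
      field_simp
      ring
  have h3 := setIntegral_mono_on
    (f := fun x => ‖ev x (p * y)‖ ^ 2 + 1 / 10 ^ 10 * ω * ‖ev x y‖ ^ 2)
    (g := fun x => ‖ev x y‖ ^ 2 + 1 / 10 ^ 10 * ω * K.indicator (fun _ => S ^ 2) x)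
    (integrableOn_cube ((c _).add (continuous_const.mul (c _))))
    ((integrableOn_cube (c _)).add (iK.const_mul _)) measurableSet_Icc fun x hx => by
      have f1 := h.far x hx
      have y0 := sq_nonneg ‖ev x y‖
      simp only [map_mul, norm_mul, mul_pow]
      by_cases xK : x ∈ K
      · rw [indicator_of_mem xK]
        have : ‖ev x p‖ ^ 2 ≤ 1 := (sq_le_one_iff₀ (norm_nonneg _)).mpr (h.ev_le hx)
        have : ‖ev x y‖ ^ 2 ≤ S ^ 2 := by gcongr; exact hS x hx
        nlinarith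
      · rw [indicator_of_notMem xK]
        have : ω ≤ min (T ^ 16)⁻¹ (sqr r x) := by
          refine le_min h1 ?_
          obtain ⟨i, hi⟩ : ∃ i, ρ i < |x i| := by
            by_contra hn
            push Not at hn
            exact xK ⟨fun i => (abs_le.mp (hn i)).1, fun i => (abs_le.mp (hn i)).2⟩
          have a1 : ((r i : ℝ) * x i) ^ 2 ≤ sqr r x :=
            Finset.single_le_sum (f := fun i => ((r i : ℝ) * x i) ^ 2) (fun _ _ => sq_nonneg _)
              (Finset.mem_univ i)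
          have a2 : ρ i ^ 2 ≤ x i ^ 2 := by
            rw [← sq_abs (x i)]; exact pow_le_pow_left₀ (r0 i) hi.le 2
          have a3 : (r i : ℝ) ^ 2 * ρ i ^ 2 = ω := by
            have := rp i
            simp only [hρ]
            rw [div_pow, Real.sq_sqrt h0.le]; field_simp
          rw [mul_pow] at a1
          rw [← a3]
          exact le_trans (by gcongr) a1
        nlinarith
  rw [integral_add (integrableOn_cube (c _)) (integrableOn_cube ((c _).const_mul _)),
    integral_add (integrableOn_cube (c _)) (iK.const_mul _), integral_const_mul, integral_const_mul,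
    parseval, parseval] at h3
  have pi3 : 240 ≤ (2 * Real.pi) ^ 3 := by
    calc (240 : ℝ) ≤ (2 * 3.14) ^ 3 := by norm_num
      _ ≤ _ := by gcongr; exact Real.pi_gt_d2.le
  rw [Qf]
  have h4 : 1 / 10 ^ 10 * ω * (8 * v * S ^ 2) ≤
      (2 * Real.pi) ^ 3 * (1 / 10 ^ 10 * ω * (v * S ^ 2 / 30)) := by
    have : 0 ≤ 1 / 10 ^ 10 * ω * (v * S ^ 2 / 30) := by positivity
    nlinarith
  have h5 := mul_le_mul_of_nonneg_left h2 (by positivity : 0 ≤ 1 / 10 ^ 10 * ω)
  refine le_of_mul_le_mul_left ?_ (by linarith : 0 < (2 * Real.pi) ^ 3)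
  linarith

/-- The symmetrised weighted driver. -/
lemma norm_sym_mul_le {ξ : R3} {x : ℝ} (hx : ∑ i, r i * |ξ i| ≤ x) (hx1 : x ≤ 1 / 4) (y : V) :
    ‖(wt (-ξ) p + wt ξ p) * y‖ ≤ 2 * (1 + 8 * x ^ 2) * ‖y‖ := by
  have hu : l1 (wt (-ξ) p + wt ξ p - (p + p)) ≤ 8 * x ^ 2 * l1 p := by
    refine l1_le_of_coeff (by positivity) fun k => ?_
    by_cases hh : k ∈ bx fun i => 2 * r i
    · have ha : |pr k ξ| ≤ 2 * x := by
        refine (abs_pr_le3 hh ξ).trans ?_
        rw [sum_two_mul]; linarith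
      have e : (wt (-ξ) p + wt ξ p - (p + p)).coeff k =
          ((Real.exp (-pr k ξ) + Real.exp (pr k ξ) - 2 : ℝ) : ℂ) * p.coeff k := by
        simp only [AddMonoidAlgebra.coeff_add, AddMonoidAlgebra.coeff_sub, Finsupp.coe_add,
          Finsupp.coe_sub, Pi.add_apply, Pi.sub_apply, coeff_wt, pr_neg']
        push_cast; ring
      rw [e, norm_mul, Complex.norm_real, Real.norm_eq_abs]
      gcongr
      have h1 := abs_le.mp (Real.abs_exp_sub_one_sub_id_le (x := pr k ξ) (by linarith))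
      have h2 := abs_le.mp (Real.abs_exp_sub_one_sub_id_le (x := -pr k ξ)
        (by rw [abs_neg]; linarith))
      have h3 : pr k ξ ^ 2 ≤ (2 * x) ^ 2 := by
        rw [← sq_abs]; gcongr
      rw [abs_le]
      constructor <;> linarith
    · simp [coeff_wt, h.supp k hh]
  have e : (wt (-ξ) p + wt ξ p) * y = p * y + p * y + (wt (-ξ) p + wt ξ p - (p + p)) * y := by
    ring
  rw [e]
  have h1 := h.norm_mul_le y
  have h2 := norm_mul_le_l1 (wt (-ξ) p + wt ξ p - (p + p)) y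
  have h3 := norm_add₃_le (a := p * y) (b := p * y) (c := (wt (-ξ) p + wt ξ p - (p + p)) * y)
  have h4 : l1 (wt (-ξ) p + wt ξ p - (p + p)) * ‖y‖ ≤ 8 * x ^ 2 * 2 * ‖y‖ := by
    gcongr
    exact hu.trans (by gcongr; exact h.l1_le)
  linarith

/-- The weighted driver. -/
lemma norm_wt_mul_le (i : Fin 3) {u : ℝ} (hu : |u| * r i ≤ 1 / 4) (y : V) :
    ‖wt (Pi.single i u) p * y‖ ≤ (1 + |u| * mv i + 50 * (u * r i) ^ 2) * ‖y‖ := by
  set m := mulr (fun k => (k i : ℝ)) p with hm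
  have mv0 := h.mv_nonneg i
  have hk : ∀ k : Z3, k ∈ bx (fun i => 2 * r i) → |(k i : ℝ)| ≤ 2 * r i := fun k hh => by
    exact_mod_cast mem_bx.mp hh i
  have lm : l1 m ≤ 2 * r i * 2 := by
    refine le_trans (l1_le_of_coeff (g := p) (c := 2 * r i) (by positivity) fun k => ?_)
      (by gcongr; exact h.l1_le)
    by_cases hh : k ∈ bx fun i => 2 * r i
    · rw [hm, coeff_mulr, norm_mul, Complex.norm_real, Real.norm_eq_abs]
      gcongr
      exact hk k hh
    · simp [hm, h.supp k hh]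
  have lR : l1 (wt (Pi.single i u) p - (p + (u : ℂ) • m)) ≤ 4 * (u * r i) ^ 2 * 2 := by
    refine le_trans (l1_le_of_coeff (g := p) (c := 4 * (u * r i) ^ 2) (by positivity) fun k => ?_)
      (by gcongr; exact h.l1_le)
    by_cases hh : k ∈ bx fun i => 2 * r i
    · have e : (wt (Pi.single i u) p - (p + (u : ℂ) • m)).coeff k =
          ((Real.exp (k i * u) - 1 - k i * u : ℝ) : ℂ) * p.coeff k := by
        simp only [AddMonoidAlgebra.coeff_add, AddMonoidAlgebra.coeff_sub,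
          AddMonoidAlgebra.coeff_smul, Finsupp.sub_apply, Finsupp.add_apply, Finsupp.smul_apply,
          smul_eq_mul, coeff_wt, Ph1.pr_single, hm, coeff_mulr]
        push_cast; ring
      have ha : |(k i : ℝ) * u| ≤ 2 * (|u| * r i) := by
        rw [abs_mul]
        nlinarith [hk k hh, abs_nonneg u]
      rw [e, norm_mul, Complex.norm_real, Real.norm_eq_abs]
      gcongr
      refine (Real.abs_exp_sub_one_sub_id_le (by linarith)).trans ?_
      calc ((k i : ℝ) * u) ^ 2 = |(k i : ℝ) * u| ^ 2 := (sq_abs _).symm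
        _ ≤ (2 * (|u| * r i)) ^ 2 := by gcongr
        _ = _ := by rw [mul_pow, mul_pow, mul_pow, sq_abs]; ring
    · simp [coeff_wt, hm, h.supp k hh]
  have sy : ∀ x ∈ cube, ‖ev x (wt (Pi.single i u) p)‖ ≤ 1 + |u| * mv i + 50 * (u * r i) ^ 2 :=
    fun x hx => by
    have e1 : ‖ev x (p + (u : ℂ) • m)‖ ^ 2 = ‖ev x p‖ ^ 2 + 2 * u * (conj (ev x p) * ev x m).re +
        u ^ 2 * ‖ev x m‖ ^ 2 := by
      rw [map_add, map_smul, smul_eq_mul]
      simp only [Complex.sq_norm, Complex.normSq_apply, Complex.add_re, Complex.add_im,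
        Complex.mul_re, Complex.mul_im, Complex.ofReal_re, Complex.ofReal_im, Complex.conj_re,
        Complex.conj_im]
      ring
    have a1 : ‖ev x p‖ ^ 2 ≤ 1 := (sq_le_one_iff₀ (norm_nonneg _)).mpr (h.ev_le hx)
    have a2 : u * (conj (ev x p) * ev x m).re ≤ |u| * mv i := by
      refine (le_abs_self _).trans ?_
      rw [abs_mul]
      gcongr
      exact h.mom i x
    have a3 : ‖ev x m‖ ^ 2 ≤ (2 * r i * 2) ^ 2 := by
      gcongr
      exact (norm_ev_le x m).trans lm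
    have a4 := mul_le_mul_of_nonneg_left a3 (sq_nonneg u)
    have a5 : ‖ev x (p + (u : ℂ) • m)‖ ≤ 1 + (|u| * mv i + 8 * (u * r i) ^ 2) := by
      refine (pow_le_pow_iff_left₀ (norm_nonneg _) (by positivity) two_ne_zero).mp ?_
      linarith [sq_nonneg (|u| * mv i + 8 * (u * r i) ^ 2)]
    have a6 := (norm_ev_le x _).trans lR
    have a7 := norm_add_le (ev x (p + (u : ℂ) • m))
      (ev x (wt (Pi.single i u) p - (p + (u : ℂ) • m)))
    rw [← map_add, add_sub_cancel] at a7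
    linarith [sq_nonneg (u * r i)]
  exact norm_mul_le_of_symbol (by positivity) sy y

lemma l1_wt_le (i : Fin 3) {u : ℝ} (hu : |u| * r i ≤ 1 / 4) : l1 (wt (Pi.single i u) p) ≤ 4 := by
  have h1 := h.supp.l1_wt_le (Pi.single i u)
  have e : ∑ j, ((2 * r j : ℕ) : ℝ) * |(Pi.single i u : R3) j| = 2 * (|u| * r i) := by
    rw [Finset.sum_eq_single i]
    · simp; ring
    · simp +contextual
    · simp
  rw [e] at h1
  have h2 : Real.exp (2 * (|u| * r i)) ≤ 2 := by
    calc Real.exp (2 * (|u| * r i)) ≤ Real.exp (1 / 2) := Real.exp_le_exp.mpr (by linarith)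
      _ ≤ 1 / (1 - 1 / 2) := Real.exp_bound_div_one_sub_of_interval (by norm_num) (by norm_num)
      _ = 2 := by norm_num
  have h3 : Real.exp (2 * (|u| * r i)) * l1 p ≤ 2 * 2 :=
    mul_le_mul h2 h.l1_le (l1_nonneg p) (by norm_num)
  linarith

omit h in
/-- A kernel of scale `r` acts on the ground state of a much larger box almost as a scalar. -/
lemma _root_.Pool.Agent.Work.MP_6bf1e5_an.Ell.norm_mul_ph_sub' {n : N3} (hT : (10 : ℝ) ^ 100 ≤ T)
    (hn : ∀ i, (n i : ℝ) + 1 = T ^ 17 * r i) {q : V} (hq : Sp (fun i => 2 * r i) q) :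
    ‖q * ph n - ev 0 q • ph n‖ ≤ l1 q * (100 / T ^ 17) := by
  have h0 : 0 < T ^ 17 := lt_of_lt_of_le (by positivity) (le_pow17 hT)
  refine (Ell.norm_mul_ph_sub (fun i => by have := four_mul_le hT hn i; omega) hq).trans ?_
  refine mul_le_mul_of_nonneg_left ?_ (l1_nonneg q)
  have e : ∀ i, ((2 * r i : ℕ) : ℝ) * th (n i) = Real.pi / T ^ 17 := fun i => by
    push_cast
    rw [mul_assoc, r_mul_th hT hn i]; ring
  simp only [e, Fin.sum_univ_three]
  rw [← add_div, ← add_div, ← mul_div_assoc]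
  gcongr
  linarith [Real.pi_lt_d2]

lemma norm_mul_ph_sub {n : N3} (hT : (10 : ℝ) ^ 100 ≤ T)
    (hn : ∀ i, (n i : ℝ) + 1 = T ^ 17 * r i) : ‖p * ph n - ph n‖ ≤ 200 / T ^ 17 := by
  have h0 : 0 < T ^ 17 := lt_of_lt_of_le (by positivity) (le_pow17 hT)
  have h1 := norm_mul_ph_sub' hT hn h.supp
  rw [h.one, one_smul] at h1
  refine h1.trans ((mul_le_mul_of_nonneg_right h.l1_le (by positivity)).trans (le_of_eq ?_))
  ring

lemma norm_dag_mul_ph_sub {n : N3} (hT : (10 : ℝ) ^ 100 ≤ T)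
    (hn : ∀ i, (n i : ℝ) + 1 = T ^ 17 * r i) : ‖dag p * ph n - ph n‖ ≤ 200 / T ^ 17 := by
  have h0 : 0 < T ^ 17 := lt_of_lt_of_le (by positivity) (le_pow17 hT)
  have h1 := norm_mul_ph_sub' hT hn h.supp.dag
  rw [ev_dag, h.one, map_one, one_smul, l1_dag] at h1
  refine h1.trans ((mul_le_mul_of_nonneg_right h.l1_le (by positivity)).trans (le_of_eq ?_))
  ring

/-- The loss at the ground state is concentrated near the boundary of the box. -/
theorem kink {n : N3} (hT : (10 : ℝ) ^ 100 ≤ T) (hn : ∀ i, (n i : ℝ) + 1 = T ^ 17 * r i) :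
    ‖ph n - dag p * (p * ph n)‖ ≤ (T ^ 25)⁻¹ := by
  have T0 : 0 < T := lt_of_lt_of_le (by positivity) hT
  set q := dag p * p with hq
  have sq : Sp (fun i => 4 * r i) q := (h.supp.dag.mul h.supp).mono fun i => by
    simp only [Pi.add_apply]; omega
  have lq : l1 q ≤ 4 := by
    refine (l1_mul_le _ _).trans ?_
    rw [l1_dag]
    have := mul_le_mul h.l1_le h.l1_le (l1_nonneg p) (by norm_num)
    linarith
  have oq : ∑ k ∈ bx (fun i => 4 * r i), q.coeff k = 1 := by
    rw [← ev_zero_eq sq.subset, hq, map_mul, ev_dag, h.one, map_one, one_mul]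
  have e1 : q * ph n = ∑ k ∈ bx (fun i => 4 * r i), q.coeff k • (sh k * ph n) := by
    conv_lhs => rw [eq_mk sq.subset, Dec.mk, Finset.sum_mul]
    refine Finset.sum_congr rfl fun k _ => ?_
    rw [← smul_mul_assoc, sh, AddMonoidAlgebra.smul_single, smul_eq_mul, mul_one]
  have e2 : ∑ k ∈ bx (fun i => 4 * r i), q.coeff k • (sh (-k) * ph n) =
      ∑ k ∈ bx (fun i => 4 * r i), q.coeff k • (sh k * ph n) := by
    refine Finset.sum_nbij' (fun k => -k) (fun k => -k) (fun k hk => neg_mem_bx.mpr hk)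
      (fun k hk => neg_mem_bx.mpr hk) (fun k _ => neg_neg k) (fun k _ => neg_neg k) fun k _ => ?_
    rw [hq, h.real.even k]
  have e3 : ph n - dag p * (p * ph n) = ∑ k ∈ bx (fun i => 4 * r i),
      q.coeff k • (ph n - (2⁻¹ : ℂ) • (sh k * ph n + sh (-k) * ph n)) := by
    simp only [smul_sub, Finset.sum_sub_distrib, smul_comm _ (2⁻¹ : ℂ), smul_add]
    rw [← Finset.sum_smul, oq, one_smul, Finset.sum_add_distrib, ← Finset.smul_sum,
      ← Finset.smul_sum, e2, ← e1, ← add_smul, ← mul_assoc, ← hq]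
    norm_num
  rw [e3]
  refine (norm_sum_le _ _).trans ?_
  calc ∑ k ∈ bx (fun i => 4 * r i),
        ‖q.coeff k • (ph n - (2⁻¹ : ℂ) • (sh k * ph n + sh (-k) * ph n))‖
      ≤ ∑ k ∈ bx (fun i => 4 * r i), ‖q.coeff k‖ * ((T ^ 25)⁻¹ / 4) :=
        Finset.sum_le_sum fun k hk => by
          rw [norm_smul]
          gcongr
          exact norm_second_diff hT hn hk
    _ = l1 q * ((T ^ 25)⁻¹ / 4) := by rw [l1_eq sq.subset, Finset.sum_mul]
    _ ≤ 4 * ((T ^ 25)⁻¹ / 4) := by gcongr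
    _ = _ := by ring

end Drv

end

end Pool.Agent.Work.MP_6bf1e5_an.Ell
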