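import Pool.Agent.Work.MP_6bf1e5_an.Ell.Num
import Pool.Agent.Work.MP_6bf1e5_an.Ell.Drv

/-!
Elementary properties of combs.
-/

open Set Complex Filter Topology
open scoped InnerProductSpace ComplexConjugate
open Pool.Agent.Work.MP_6bf1e5_an.B (Z3 R3)
open Pool.Agent.Work.MP_6bf1e5_an.Dec

namespace Pool.Agent.Work.MP_6bf1e5_an.Ell

noncomputable section

variable {G : Geo} {R : Raw}

lemma off_mem_bx (j : ℕ) (o : Fin 4) : G.off j o ∈ bx ![0, G.n j, G.n j] := by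
  rw [mem_bx]
  intro i
  fin_cases o <;> fin_cases i <;> simp [Geo.off]

lemma two_le_T : 2 ≤ G.T := le_trans (by norm_num) G.big

lemma two_w_le_n (j : ℕ) (i : Fin 3) : 2 * G.w j i ≤ G.n j := by
  have hT : 2 ≤ G.T := two_le_T
  have h1 : 2 * G.T ^ 5 ≤ G.T ^ 9 := by
    calc 2 * G.T ^ 5 ≤ G.T * G.T ^ 5 := Nat.mul_le_mul_right _ hT
      _ = G.T ^ 6 := by ring
      _ ≤ G.T ^ 9 := Nat.pow_le_pow_right (by omega) (by norm_num)
  have h2 : G.T ≤ G.T ^ 5 := by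
    calc G.T = G.T ^ 1 := (pow_one _).symm
      _ ≤ G.T ^ 5 := Nat.pow_le_pow_right (by omega) (by norm_num)
  have h3 : 2 * (G.T ^ 5 * G.La ^ j) ≤ G.n j := by
    rw [← mul_assoc]; exact Nat.mul_le_mul_right _ h1
  have h4 : 2 * (G.T * G.La ^ j) ≤ G.n j :=
    le_trans (Nat.mul_le_mul_left _ (Nat.mul_le_mul_right _ h2)) h3
  fin_cases i
  · exact h3
  · exact h4
  · exact h3

lemma rc_le_two_w (j : ℕ) (i : Fin 3) : G.rc j i ≤ 2 * G.w j i := by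
  cases j with
  | zero =>
    have := G.rb_add_one 0 i
    show G.rb 0 i ≤ _
    omega
  | succ j =>
    have h1 := G.rb_add_one (j + 1) i
    have h2 := G.rb_succ j i
    have h3 : (2 : ℝ) ≤ G.t ^ 17 :=
      le_trans (le_trans (by norm_num) G.t_big) (by simpa using G.pow_le (a := 1) (b := 17) (by norm_num))
    have h4 : (2 : ℝ) * G.rd j i ≤ (G.rb (j + 1) i : ℝ) + 1 := by
      rw [h2]; gcongr
    have h5 : 2 * G.rd j i ≤ G.rb (j + 1) i + 1 := by exact_mod_cast h4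
    show G.rb (j + 1) i + 2 * G.rd j i ≤ _
    omega

lemma sp_comb_of_le (j : ℕ) {m : N3} (hm : ∀ i, m i ≤ 2 * G.w j i) {g : Fin 4 → V}
    (hg : ∀ o, Sp m (g o)) : Sp (fun i => 2 * G.rB j i) (R.comb G j g) := by
  refine Sp.sum _ fun o _ => Sp.smul (((sp_sh (off_mem_bx j o)).mul (hg o)).mono fun i => ?_) _
  have h1 := hm i
  have h2 := two_w_le_n (G := G) j i
  have h3 := G.w_le_rB j i
  fin_cases i <;> simp [Geo.rB] at h1 h2 h3 ⊢ <;> omega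

lemma sp_comb (j : ℕ) {g : Fin 4 → V} (hg : ∀ o, Sp (G.rb j) (g o)) :
    Sp (fun i => 2 * G.rB j i) (R.comb G j g) :=
  sp_comb_of_le j (fun i => (G.rb_le_rc j i).trans (rc_le_two_w j i)) hg

lemma sp_comb' (j : ℕ) {g : Fin 4 → V} (hg : ∀ o, Sp (G.rc j) (g o)) :
    Sp (fun i => 2 * G.rB j i) (R.comb G j g) :=
  sp_comb_of_le j (rc_le_two_w j) hg

lemma rl_comb (j : ℕ) {g : Fin 4 → V} (hg : ∀ o, Rl (g o)) : Rl (R.comb G j g) :=
  Rl.sum _ fun o _ => ((rl_sh _).mul (hg o)).smul _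

lemma ev_zero_comb (j : ℕ) (g : Fin 4 → V) :
    ev 0 (R.comb G j g) = ∑ o, (R.om o : ℂ) * ev 0 (g o) := by
  rw [Raw.comb, map_sum]
  exact Finset.sum_congr rfl fun o _ => by
    rw [map_smul, map_mul, ev_zero_sh, one_mul, smul_eq_mul]

lemma comb_sub (j : ℕ) (g g' : Fin 4 → V) :
    R.comb G j g - R.comb G j g' = R.comb G j fun o => g o - g' o := by
  simp only [Raw.comb, ← Finset.sum_sub_distrib, mul_sub, smul_sub]

lemma hd_comb (j : ℕ) {g : Fin 4 → ℝ → V} {g' : Fin 4 → V} {t : ℝ} (h : ∀ o, HD (g o) (g' o) t) :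
    HD (fun t => R.comb G j fun o => g o t) (R.comb G j g') t := by
  simp only [Raw.comb]
  exact HasDerivWithinAt.fun_sum fun o _ =>
    (HD.const_mul' (h o) (sh (G.off j o))).const_smul (R.om o : ℂ)

namespace IsNet

variable (H : IsNet G R)

include H

lemma norm_om (o : Fin 4) : ‖(R.om o : ℂ)‖ = R.om o := by
  rw [Complex.norm_real, Real.norm_of_nonneg (by linarith [(H.om_pos o).1])]

lemma l1_comb_le' (j : ℕ) (g : Fin 4 → V) : l1 (R.comb G j g) ≤ ∑ o, R.om o * l1 (g o) :=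
  (l1_sum_le _ _).trans (le_of_eq (Finset.sum_congr rfl fun o _ => by
    rw [l1_smul, l1_sh_mul, H.norm_om]))

lemma norm_comb_le' (j : ℕ) (g : Fin 4 → V) : ‖R.comb G j g‖ ≤ ∑ o, R.om o * ‖g o‖ :=
  (norm_sum_le _ _).trans (le_of_eq (Finset.sum_congr rfl fun o _ => by
    rw [norm_smul, norm_sh_mul, H.norm_om]))

lemma sum_om_mul_le {x : Fin 4 → ℝ} {c : ℝ} (hx : ∀ o, x o ≤ c) :
    ∑ o, R.om o * x o ≤ R.Om * c := by
  rw [← sum_om, Finset.sum_mul]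
  exact Finset.sum_le_sum fun o _ =>
    mul_le_mul_of_nonneg_left (hx o) (by linarith [(H.om_pos o).1])

/-- The weighted sum of four numbers is controlled by their Euclidean norm. -/
lemma sum_om_mul_le_sqrt {x : Fin 4 → ℝ} {L : ℝ} (hL : 0 ≤ L) (hx : ∑ o, x o ^ 2 ≤ L ^ 2) :
    ∑ o, R.om o * x o ≤ 13 * L := by
  have h1 := Finset.sum_mul_sq_le_sq_mul_sq Finset.univ R.om x
  have h2 : ∑ o, R.om o ^ 2 ≤ 169 := by
    have := H.om_lo
    have := H.om_hi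
    simp [Raw.om, Fin.sum_univ_four]
    nlinarith
  refine le_trans (le_abs_self _) (abs_le_of_sq_le_sq' ?_ (by positivity)).2 |>.trans le_rfl
  rw [sq_abs]
  calc _ ≤ (∑ o, R.om o ^ 2) * ∑ o, x o ^ 2 := h1
    _ ≤ 169 * L ^ 2 := by gcongr
    _ = (13 * L) ^ 2 := by ring

omit H in
lemma sum_b_sq_le (j : ℕ) (t : ℝ) : ∑ o, ‖R.b j o t‖ ^ 2 ≤ R.lev j t ^ 2 := by
  rw [R.lev_sq]
  exact Finset.sum_le_sum fun o _ => le_add_of_nonneg_right (by positivity)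

omit H in
lemma sum_c_sq_le (j : ℕ) (t : ℝ) : ∑ o, ‖R.c j o t‖ ^ 2 ≤ R.lev j t ^ 2 := by
  rw [R.lev_sq]
  exact Finset.sum_le_sum fun o _ => le_add_of_nonneg_left (by positivity)

lemma l1_comb_le (j : ℕ) {g : Fin 4 → V} {c : ℝ} (hg : ∀ o, l1 (g o) ≤ c) :
    l1 (R.comb G j g) ≤ R.Om * c :=
  (H.l1_comb_le' j g).trans (H.sum_om_mul_le hg)

lemma norm_comb_le (j : ℕ) {g : Fin 4 → V} {c : ℝ} (hg : ∀ o, ‖g o‖ ≤ c) :
    ‖R.comb G j g‖ ≤ R.Om * c :=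
  (H.norm_comb_le' j g).trans (H.sum_om_mul_le hg)

lemma spB (j : ℕ) (t : ℝ) : Sp (fun i => 2 * G.rB j i) (R.B G j t) := sp_comb j (H.spb j · t)

lemma spC (j : ℕ) (t : ℝ) : Sp (fun i => 2 * G.rB j i) (R.Cc G j t) := sp_comb' j (H.spc j · t)

lemma spA (j : ℕ) (t : ℝ) : Sp (fun i => 2 * G.rd j i) (R.A G j t) :=
  (H.spB j t).tau.mono fun i => by fin_cases i <;> simp [rot3, Geo.rd]

lemma rlB (j : ℕ) (t : ℝ) : Rl (R.B G j t) := rl_comb j (H.rlb j · t)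

lemma ev_zero_B (j : ℕ) (t : ℝ) : ev 0 (R.B G j t) = ((R.bh G j * R.aa G j t : ℝ) : ℂ) := by
  rw [(H.rlB j t).ev_zero, Raw.aa, mul_div_cancel₀ _ (H.bh_pos j).ne']

lemma B_eq {j : ℕ} {t : ℝ} (h : 0 < R.aa G j t) :
    R.B G j t = ((R.bh G j * R.aa G j t : ℝ) : ℂ) • R.pB G j t := by
  have h0 : ((R.bh G j * R.aa G j t : ℝ) : ℂ) ≠ 0 :=
    Complex.ofReal_ne_zero.mpr (mul_pos (H.bh_pos j) h).ne'
  rw [Raw.pB, H.ev_zero_B, smul_smul, mul_inv_cancel₀ h0, one_smul]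

lemma kap_A {j : ℕ} {t : ℝ} (h : 0 < R.aa G j t) :
    (R.kap G j : ℂ) • R.A G j t = ((G.d (j + 1) * R.aa G j t : ℝ) : ℂ) • R.pp G j t := by
  rw [Raw.A, Raw.pp, ← H.kap_mul_bh]
  conv_lhs => rw [H.B_eq h]
  rw [tau_smul, smul_smul, ← Complex.ofReal_mul, mul_assoc]

lemma l1_comb_le_sqrt (j : ℕ) {m : N3} {g : Fin 4 → V} (hg : ∀ o, Sp m (g o)) {L : ℝ}
    (hL : 0 ≤ L) (hx : ∑ o, ‖g o‖ ^ 2 ≤ L ^ 2) : l1 (R.comb G j g) ≤ 39 * Nn m * L := by
  have hN := Nn_pos m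
  calc l1 (R.comb G j g) ≤ ∑ o, R.om o * l1 (g o) := H.l1_comb_le' j g
    _ ≤ ∑ o, R.om o * (3 * Nn m * ‖g o‖) := Finset.sum_le_sum fun o _ =>
        mul_le_mul_of_nonneg_left (hg o).l1_le (by linarith [(H.om_pos o).1])
    _ = 3 * Nn m * ∑ o, R.om o * ‖g o‖ := by
        rw [Finset.mul_sum]; exact Finset.sum_congr rfl fun o _ => by ring
    _ ≤ 3 * Nn m * (13 * L) := by
        gcongr; exact H.sum_om_mul_le_sqrt hL hx
    _ = 39 * Nn m * L := by ring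

lemma l1_B_le (j : ℕ) (t : ℝ) : l1 (R.B G j t) ≤ 40 * R.nl G j t := by
  have h := H.l1_comb_le_sqrt j (H.spb j · t) (R.lev_nonneg j t) (sum_b_sq_le j t)
  have h1 := R.nl_nonneg G j t
  have h2 : 39 * Nn (G.rb j) * R.lev j t = 39 * R.nl G j t := by
    simp only [Raw.nl, Geo.N]; ring
  exact h.trans (by linarith)

lemma l1_C_le (j : ℕ) (t : ℝ) : l1 (R.Cc G j t) ≤ 40 * R.nl G j t := by
  have h := H.l1_comb_le_sqrt j (H.spc j · t) (R.lev_nonneg j t) (sum_c_sq_le j t)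
  have h1 := R.nl_nonneg G j t
  have h2 : Nn (G.rc j) * R.lev j t ≤ 101 / 100 * G.N j * R.lev j t :=
    mul_le_mul_of_nonneg_right (G.Nn_rc j) (R.lev_nonneg j t)
  refine h.trans ?_
  simp only [Raw.nl] at h1 ⊢
  nlinarith

lemma norm_B_le (j : ℕ) (t : ℝ) : ‖R.B G j t‖ ≤ 13 * R.lev j t :=
  (H.norm_comb_le' j _).trans (H.sum_om_mul_le_sqrt (R.lev_nonneg j t) (sum_b_sq_le j t))

/-- The amplitude of a comb close to the ground state. -/
lemma aa_close {j : ℕ} {t a a1 : ℝ} (h1 : 0 ≤ a1)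
    (hc : ∀ o, ‖R.b j o t - ((a * R.un G j : ℝ) : ℂ) • G.φ j‖ ≤ a1 * R.un G j) :
    |R.aa G j t - a| ≤ 3 * a1 ∧ l1 (R.B G j t) ≤ (|a| + 3 * a1) * R.bh G j := by
  have hun := H.un_pos j
  have hbh := H.bh_pos j
  have hmul := H.un_mul j
  have hOm : 0 < R.Om := by linarith [H.Om_lo]
  -- the sum norm of the errors
  have he : ∀ o, l1 (R.b j o t - ((a * R.un G j : ℝ) : ℂ) • G.φ j) ≤
      3 * a1 * (R.un G j * l1 (G.φ j)) := fun o => by
    have h2 := ((H.spb j o t).sub ((G.sp_φ j).smul ((a * R.un G j : ℝ) : ℂ))).l1_le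
    have h3 : Nn (G.rb j) ≤ l1 (G.φ j) := le_l1_ph _
    have h4 := Nn_pos (G.rb j)
    have h5 := l1_nonneg (G.φ j)
    calc _ ≤ _ := h2
      _ ≤ 3 * l1 (G.φ j) * (a1 * R.un G j) := by gcongr; exact hc o
      _ = _ := by ring
  have hE : l1 (R.comb G j fun o => R.b j o t - ((a * R.un G j : ℝ) : ℂ) • G.φ j) ≤
      3 * a1 * R.bh G j := by
    refine (H.l1_comb_le j he).trans (le_of_eq ?_)
    rw [← hmul]; ring
  rw [← comb_sub] at hE
  have hM : ev 0 (R.comb G j fun _ => ((a * R.un G j : ℝ) : ℂ) • G.φ j) =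
      ((R.bh G j * a : ℝ) : ℂ) := by
    rw [ev_zero_comb, ← Finset.sum_mul, map_smul, Geo.φ, ev_zero_ph, ← Complex.ofReal_sum, sum_om,
      smul_eq_mul, ← Complex.ofReal_mul, ← Complex.ofReal_mul, ← hmul, Geo.φ]
    congr 1; ring
  have hL : l1 (R.comb G j fun _ => ((a * R.un G j : ℝ) : ℂ) • G.φ j) ≤ |a| * R.bh G j := by
    refine (H.l1_comb_le j (c := |a| * R.un G j * l1 (G.φ j)) fun _ => ?_).trans (le_of_eq ?_)
    · rw [l1_smul, Complex.norm_real, Real.norm_eq_abs, abs_mul, abs_of_pos hun]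
    · rw [← hmul]; ring
  constructor
  · have h5 := (norm_ev_le 0 _).trans hE
    rw [map_sub, hM] at h5
    have h6 : ev 0 (R.comb G j fun o => R.b j o t) = ((R.bh G j * R.aa G j t : ℝ) : ℂ) :=
      H.ev_zero_B j t
    rw [h6, ← Complex.ofReal_sub, Complex.norm_real, Real.norm_eq_abs, ← mul_sub, abs_mul,
      abs_of_pos hbh, mul_comm] at h5
    exact le_of_mul_le_mul_right h5 hbh
  · have h7 := l1_add_le (R.comb G j fun _ => ((a * R.un G j : ℝ) : ℂ) • G.φ j)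
      ((R.comb G j fun o => R.b j o t) - R.comb G j fun _ => ((a * R.un G j : ℝ) : ℂ) • G.φ j)
    rw [add_sub_cancel] at h7
    show l1 (R.comb G j fun o => R.b j o t) ≤ _
    linarith

end IsNet

end

end Pool.Agent.Work.MP_6bf1e5_an.Ell
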