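import Pool.Agent.Work.MP_6bf1e5_an.Ell.Cone
import Pool.Agent.Work.MP_6bf1e5_an.Ell.Comb

/-!
Linear combinations of teeth.
-/

open Set Complex Filter Topology
open scoped InnerProductSpace ComplexConjugate
open Pool.Agent.Work.MP_6bf1e5_an.B (Z3 R3)
open Pool.Agent.Work.MP_6bf1e5_an.Dec

namespace Pool.Agent.Work.MP_6bf1e5_an.Ell

noncomputable section

variable {G : Geo} {R : Raw}

lemma norm_cmb_le (m : Fin 4 → ℝ) {g : Fin 4 → V} {c : ℝ} (hg : ∀ o, ‖g o‖ ≤ c) :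
    ‖cmb m g‖ ≤ (∑ o, |m o|) * c := by
  rw [Finset.sum_mul]
  refine (norm_sum_le _ _).trans (Finset.sum_le_sum fun o _ => ?_)
  rw [norm_smul, Complex.norm_real, Real.norm_eq_abs]
  exact mul_le_mul_of_nonneg_left (hg o) (abs_nonneg _)

lemma sp_cmb (m : Fin 4 → ℝ) {n : N3} {g : Fin 4 → V} (hg : ∀ o, Sp n (g o)) : Sp n (cmb m g) :=
  Sp.sum _ fun o _ => (hg o).smul _

lemma rl_cmb (m : Fin 4 → ℝ) {g : Fin 4 → V} (hg : ∀ o, Rl (g o)) : Rl (cmb m g) :=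
  Rl.sum _ fun o _ => (hg o).smul _

lemma hd_smul {f : ℝ → V} {f' : V} {t : ℝ} (h : HD f f' t) (c : ℂ) :
    HD (fun t => c • f t) (c • f') t :=
  HD.linc (c • LinearMap.id (R := ℂ) (M := V)) (C := ‖c‖) (fun v => by simp [norm_smul]) h

lemma hd_cmb (m : Fin 4 → ℝ) {g : Fin 4 → ℝ → V} {g' : Fin 4 → V} {t : ℝ}
    (h : ∀ o, HD (g o) (g' o) t) : HD (fun t => cmb m fun o => g o t) (cmb m g') t :=
  HasDerivWithinAt.fun_sum fun o _ => hd_smul (h o) _

lemma map_cmb (L : V →ₗ[ℂ] V) (m : Fin 4 → ℝ) (g : Fin 4 → V) :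
    L (cmb m g) = cmb m fun o => L (g o) := by
  simp only [cmb, map_sum, map_smul]

lemma mul_cmb (q : V) (m : Fin 4 → ℝ) (g : Fin 4 → V) :
    q * cmb m g = cmb m fun o => q * g o := map_cmb (LinearMap.mulLeft ℂ q) m g

lemma cmb_add (m : Fin 4 → ℝ) (f g : Fin 4 → V) :
    (cmb m fun o => f o + g o) = cmb m f + cmb m g := by
  simp only [cmb, smul_add, Finset.sum_add_distrib]

lemma cmb_sub (m : Fin 4 → ℝ) (f g : Fin 4 → V) :
    (cmb m fun o => f o - g o) = cmb m f - cmb m g := by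
  simp only [cmb, smul_sub, Finset.sum_sub_distrib]

lemma cmb_smul (m : Fin 4 → ℝ) (c : ℂ) (f : Fin 4 → V) :
    (cmb m fun o => c • f o) = c • cmb m f := by
  simp only [cmb, Finset.smul_sum, smul_comm c]

/-- Combinations of the teeth solve the equations of a pair. -/
lemma IsNet.pair (H : IsNet G R) (j : ℕ) (m : Fin 4 → ℝ) {t : ℝ} (ht : 0 ≤ t)
    (ha : 0 < R.aa G j t) : ∃ e0 e1, ‖e0‖ ≤ (∑ o, |m o|) * R.eb G (j + 1) t ∧
      ‖e1‖ ≤ (∑ o, |m o|) * R.ec G j t ∧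
      Pair (G.rd j) (G.rb (j + 1)) (G.ell (j + 1)) (G.d (j + 1)) (G.d (j + 1) * R.aa G j t) t
        (R.vb (j + 1)) (R.vc (j + 1)) (R.pp G j t) (fun t => cmb m fun o => R.b (j + 1) o t)
        (fun t => cmb m fun o => R.c (j + 1) o t) e0 ((cmb m fun o => R.f G j o t) + e1) := by
  choose r0 h0 d0 using fun o => H.eqB j o t ht
  choose r1 h1 d1 using fun o => H.eqC j o t ht
  have k := H.kap_A ha
  have k0 : ∀ y, (R.kap G j : ℂ) • pj (G.rb (j + 1)) (dag (R.A G j t) * y) =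
      ((G.d (j + 1) * R.aa G j t : ℝ) : ℂ) • pj (G.rb (j + 1)) (dag (R.pp G j t) * y) := by
    intro y
    have := congrArg dag k
    rw [dag_smul, dag_smul, Complex.conj_ofReal, Complex.conj_ofReal] at this
    rw [← map_smul, ← map_smul, ← smul_mul_assoc, ← smul_mul_assoc, this]
  have k1 : ∀ y, (R.kap G j : ℂ) • (R.A G j t * y) =
      ((G.d (j + 1) * R.aa G j t : ℝ) : ℂ) • (R.pp G j t * y) := by
    intro y
    rw [← smul_mul_assoc, ← smul_mul_assoc, k]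
  refine ⟨cmb m r0, cmb m r1, norm_cmb_le m h0, norm_cmb_le m h1, ?_, ?_, H.layb _,
    H.layc (j + 1), fun t => sp_cmb m fun o => H.spb _ o t,
    fun t => sp_cmb m fun o => H.spc (j + 1) o t⟩
  · have := hd_cmb m d0
    simp only [k0] at this
    rw [cmb_add, cmb_sub, cmb_sub, cmb_smul, cmb_smul, ← map_cmb, ← map_cmb, ← mul_cmb] at this
    exact this
  · have := hd_cmb m d1
    simp only [k1] at this
    rw [cmb_add, cmb_add, cmb_sub, cmb_sub, cmb_smul, cmb_smul, ← map_cmb, ← mul_cmb,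
      add_assoc] at this
    exact this

lemma sp_f (j : ℕ) (m : Fin 4 → ℝ) (t : ℝ) :
    Sp (fun i => G.rb (j + 1) i + 2 * G.rd j i) (cmb m fun o => R.f G j o t) :=
  sp_cmb m fun _ => (sp_pj (G.rc (j + 1)) _).smul _

lemma Seed.mono {T N1 F X X' : ℝ} {n r : N3} {p f : V} (h : Seed T n r N1 p f F X) (h0 : 0 < N1)
    (hX : X ≤ X') : Seed T n r N1 p f F X' where
  wt i u hu := (h.wt i u hu).trans (by gcongr)
  sup x hx := (h.sup x hx).trans (by gcongr)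
  low := le_trans (by linarith) h.low

lemma Seed.norm_le {T N1 F X : ℝ} {n r : N3} {p f : V} (h : Seed T n r N1 p f F X) :
    ‖f‖ ≤ (Real.exp (T / 10 ^ 19) * F + X) / N1 := by
  have := h.wt 0 0 (by simp; positivity)
  have e : Dec.wt (Pi.single (0 : Fin 3) (0 : ℝ)) f = f := by
    ext k; simp [coeff_wt]
  rwa [e] at this

/-- The rotated comb is a slowly varying driver. -/
lemma Cur.pp {J : ℕ} {g0 t E : ℝ} (h : Cur G R J g0 t E) :
    Drv G.t (G.rd J) (rot3 (G.mv J)) (10 ^ 5 / G.t ^ 4) (R.pp G J t) ∧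
      ∃ p', HD (R.pp G J) p' t ∧ Sp (fun i => 2 * G.rd J i) p' ∧ ev 0 p' = 0 ∧
        l1 p' ≤ 10 ^ 3 * G.d J := by
  obtain ⟨p', h1, h2, h3, h4⟩ := h.dp
  refine ⟨h.drv.tau, tau p', HD.tau h1, ?_, by rw [ev_zero_tau, h3], by rwa [l1_tau]⟩
  refine h2.tau.mono fun i => ?_
  fin_cases i <;> exact le_rfl

lemma Geo.poly_exp (G : Geo) {k : ℕ} (hk : k ≤ 1000) {x y : ℝ} (h : x + G.t ≤ y) :
    G.t ^ k * Real.exp x ≤ Real.exp y := by
  have h1 := G.pow_le_exp hk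
  have h2 : G.t / 10 ^ 50 ≤ G.t := div_le_self G.t_pos.le (by norm_num)
  calc G.t ^ k * Real.exp x ≤ Real.exp (G.t / 10 ^ 50) * Real.exp x := by gcongr
    _ = Real.exp (G.t / 10 ^ 50 + x) := (Real.exp_add _ _).symm
    _ ≤ Real.exp y := Real.exp_le_exp.mpr (by linarith)

lemma Geo.cpoly_exp (G : Geo) {k : ℕ} (hk : k < 1000) {x y : ℝ} (h : x + G.t ≤ y) :
    1000 * G.t ^ k * Real.exp x ≤ Real.exp y := by
  have h1 := G.poly_exp (k := k + 1) hk h
  have h2 := G.pow_lt (a := k) (b := k + 1) (Nat.lt_succ_self k)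
  have h3 : 0 < G.t ^ k := pow_pos G.t_pos k
  refine le_trans ?_ h1
  gcongr
  linarith

end

end Pool.Agent.Work.MP_6bf1e5_an.Ell
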