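import Pool.Agent.Work.MP_6bf1e5_an.Ell.Phase1C

/-!
Concentration during the first phase.
-/

open Set Complex Filter Topology
open scoped InnerProductSpace ComplexConjugate
open Pool.Agent.Work.MP_6bf1e5_an.B (Z3 R3)
open Pool.Agent.Work.MP_6bf1e5_an.Dec

namespace Pool.Agent.Work.MP_6bf1e5_an.Ell

noncomputable section

lemma Q1.algE {s d g j A X w lam a U : ℝ} (hs : 0 < s) (hg : 0 < g) (hj : 0 ≤ j) (hA : 0 < A)
    (hX : 0 < X) (hw : 1 ≤ w) (hl : 0 < lam) (hU0 : 0 ≤ U) (ha : a ≤ lam * s * g)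
    (hU : U ^ 2 = g ^ 2 * (A * X + 10 * w)) :
    2 * ((s - d) * U ^ 2 - s * (10 * lam * (U ^ 2 / 3 - w * (4 * g ^ 2) / 30)) + U * a) <
      2 * g * ((s - d) * g + j) * (A * X + 10 * w) + g ^ 2 * (A * (X * (-lam * s))) := by
  have R0 : 0 < A * X := by positivity
  have a1 : 2 * g * ((s - d) * g + j) * (A * X + 10 * w) =
      2 * ((s - d) * U ^ 2) + 2 * g * j * (A * X + 10 * w) := by rw [hU]; ring
  have a1' : 0 ≤ 2 * g * j * (A * X + 10 * w) := by positivity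
  have a2 : lam * s * (g ^ 2 * (A * X)) ≤ lam * s * U ^ 2 := by
    rw [hU]; gcongr; linarith
  have gU : g ≤ U := by
    refine (le_abs_self g).trans (abs_le_of_sq_le_sq ?_ hU0)
    rw [hU]
    exact le_mul_of_one_le_right (by positivity) (by linarith)
  have U0 : 0 < U := hg.trans_le gU
  have a3 : U * a ≤ lam * s * U ^ 2 := by
    calc _ ≤ U * (lam * s * U) := by gcongr; exact ha.trans (by gcongr)
      _ = _ := by ring
  have a4 : lam * s * (10 * (w * g ^ 2)) ≤ lam * s * U ^ 2 := by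
    gcongr
    calc _ = g ^ 2 * (10 * w) := by ring
      _ ≤ _ := by rw [hU]; gcongr; linarith
  have a8 : 0 < lam * s * U ^ 2 := by positivity
  rw [a1]
  linarith

namespace F1

open Ph1 Q1

variable {T κ d l N1 t1 t2 : ℝ} {r n : N3} {mv : Fin 3 → ℝ} {vb vc : Z3 → ℝ}
  {p b c f : ℝ → V} {s F g τ : ℝ → ℝ}
  (H : F1 T κ d l N1 t1 t2 r n mv vb vc p b c f s F g τ) {t : ℝ}

include H

/-- Concentration. -/
theorem conc {t' : ℝ} (ha : t' ∈ Icc t1 t2) (hτ : T ^ 33 / 1000 ≤ τ t2 - τ t')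
    (hF : ∀ t ∈ Icc t' t2, F t ≤ Real.exp (-T ^ 2) * (s t * g t)) :
    nr (b t2) (c t2) ^ 2 ≤ 11 * T ^ 3 * (g t2 / Nn n) ^ 2 := by
  have T0 := H.T0
  have N0 := H.N0
  have hN := Nn_pos n
  have sub : ∀ {t}, t ∈ Icc t' t2 → t ∈ Icc t1 t2 := fun ht => ⟨ha.1.trans ht.1, ht.2⟩
  set K := Real.exp (T / 10 ^ 19) with hK
  have K1 : 1 ≤ K := Real.one_le_exp (by positivity)
  have T3 : 1 ≤ T ^ 3 := one_le_pow₀ H.T1
  have dv : ∀ y : ℝ, 0 ≤ y → y / N1 ≤ T ^ 32 * (y / Nn n) := fun y hy => by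
    rw [← mul_div_assoc, div_le_div_iff₀ N0 hN]
    linarith [mul_le_mul_of_nonneg_left H.nN1 hy]
  have main := barrier (F := fun t => ‖b t‖ ^ 2 + ‖c t‖ ^ 2)
    (G := fun t => (g t / Nn n) ^ 2 * ((4 * K * T ^ 32) ^ 2 *
      Real.exp (-(1 / 10 ^ 11 * (T ^ 32)⁻¹) * (τ t - τ t')) + 10 * T ^ 3))
    (a := t') (b := t2) (H.h0.trans ha.1) ?_ fun t ht => ?_
  · have h := main t2 ⟨ha.2, le_rfl⟩
    rw [nr_sq]
    refine h.trans ?_
    have x1 : Real.exp (-(1 / 10 ^ 11 * (T ^ 32)⁻¹) * (τ t2 - τ t')) ≤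
        Real.exp (-(T / 10 ^ 14)) := by
      rw [neg_mul]
      gcongr
      calc _ = 1 / 10 ^ 11 * (T ^ 32)⁻¹ * (T ^ 33 / 1000) := by field_simp; ring
        _ ≤ _ := by gcongr
    have x2 : 4 * K * T ^ 32 ≤ K * K := by
      calc _ = K * (4 * T ^ 32) := by ring
        _ ≤ _ := by
          gcongr
          exact le_trans (by linarith [H.Tpow 32 33 (by norm_num), pow_pos T0 32])
            (pow_le_exp19 H.hT (k := 33) (by norm_num))
    have x3 : (K * K) ^ 2 * Real.exp (-(T / 10 ^ 14)) ≤ 1 := by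
      rw [hK, sq]
      simp only [← Real.exp_add]
      exact Real.exp_le_one_iff.mpr (by linarith)
    have x4 : (4 * K * T ^ 32) ^ 2 *
        Real.exp (-(1 / 10 ^ 11 * (T ^ 32)⁻¹) * (τ t2 - τ t')) ≤ 1 :=
      le_trans (by gcongr) x3
    calc _ ≤ (g t2 / Nn n) ^ 2 * (11 * T ^ 3) := by gcongr; linarith
      _ = _ := by ring
  · have G0 := (H.hg t' ha).1
    simp only [sub_self, mul_zero, Real.exp_zero, mul_one]
    calc _ ≤ _ := H.nrm ha
      _ ≤ (4 * K * (T ^ 32 * (g t' / Nn n))) ^ 2 := by gcongr; exact dv _ G0.le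
      _ = (g t' / Nn n) ^ 2 * (4 * K * T ^ 32) ^ 2 := by ring
      _ ≤ _ := by gcongr; exact le_add_of_nonneg_right (by positivity)
  have ht' := sub ht
  obtain ⟨e0, e1, -, -, a0, a1, D0, D1⟩ := H.eq0 ht'
  obtain ⟨G0, F0, Dg⟩ := H.hg t ht'
  obtain ⟨s0, Dτ, -⟩ := H.hs t ht'
  refine ⟨_, _, D0.normsq.fun_add D1.normsq, ((Dg.div_const (Nn n)).fun_pow 2).fun_mul
    (((((Dτ.sub_const _).const_mul _).exp).const_mul _).add_const _), fun hY => ?_⟩
  have ω0 : 0 < (T ^ 32)⁻¹ := by positivity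
  have eps := H.eps
  have eta : K * Real.exp (-T ^ 2) ≤ (T ^ 200)⁻¹ := H.eta' (by linarith)
  have i0 := H.Tinv 0 200 (by norm_num)
  rw [pow_zero, inv_one] at i0
  set w := s t * g t / N1 with hw
  have w0 : 0 < w := by positivity
  have hj : F t / N1 ≤ Real.exp (-T ^ 2) * w := by
    rw [hw, ← mul_div_assoc]; gcongr; exact hF t ht
  have hj' : (F t + s t * g t) / N1 ≤ 2 * w := by
    rw [add_div, ← hw]
    have : Real.exp (-T ^ 2) * w ≤ 1 * w := by gcongr; linarith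
    linarith
  have b0 : ‖e0‖ ≤ (T ^ 200)⁻¹ * (2 * w) := a0.trans (by gcongr)
  have b1 : ‖e1‖ ≤ (T ^ 200)⁻¹ * (2 * w) := a1.trans (by gcongr)
  have b2 : ‖f t‖ ≤ (T ^ 200)⁻¹ * (2 * w) := by
    have := (H.hf t ht').2.wt 0 0 (by simp; positivity)
    rw [Pi.single_zero, wt_zero] at this
    calc _ ≤ _ := this
      _ = K * (F t / N1) + Real.exp (-T ^ 2) * w := by rw [hw]; ring
      _ ≤ K * (Real.exp (-T ^ 2) * w) + (T ^ 200)⁻¹ * w := by gcongr
      _ = K * Real.exp (-T ^ 2) * w + (T ^ 200)⁻¹ * w := by ring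
      _ ≤ (T ^ 200)⁻¹ * w + (T ^ 200)⁻¹ * w := by gcongr
      _ = _ := by ring
  have hst := stepE (d := d) (g0 := e0) (g1 := f t + e1) (U := nr (b t) (c t))
    (R := (T ^ 200)⁻¹ * (6 * w)) (H.hp t ht').1 H.r1 (H.sb t) s0.le H.lb.nonneg H.lc.nonneg
    (nr_nonneg _ _) (nr_sq _ _).symm (by linarith [norm_add_le (f t) e1]) ω0
    (by linarith [H.Tinv 16 32 (by norm_num)]) (inv_le_one_of_one_le₀ (one_le_pow₀ H.T1))
    (fun x hx => le1 (by positivity) (H.sup_le hx t ht'))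
  have q0 : ∏ i, (r i : ℝ) = Nn n ^ 2 / T ^ 51 := by
    rw [Nn_sq]
    simp only [H.hn, Fin.prod_univ_three]
    field_simp
  have q1 : √(T ^ 32)⁻¹ ^ 3 / (∏ i, (r i : ℝ)) * (2 * g t) ^ 2 =
      T ^ 3 * (4 * (g t / Nn n) ^ 2) := by
    rw [q0, Real.sqrt_inv, show T ^ 32 = (T ^ 16) ^ 2 by ring, Real.sqrt_sq (by positivity)]
    field_simp; ring
  have q2 : 1 / 10 ^ 10 * (T ^ 32)⁻¹ = 10 * (1 / 10 ^ 11 * (T ^ 32)⁻¹) := by ring
  rw [q1, q2] at hst
  rw [← nr_sq] at hY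
  have fin := algE (d := d) (j := F t / Nn n) (a := (T ^ 200)⁻¹ * (6 * w))
    (lam := 1 / 10 ^ 11 * (T ^ 32)⁻¹) s0 (by positivity) (by positivity) (by positivity)
    (Real.exp_pos _) T3 (by positivity) (nr_nonneg _ _) (by
      calc _ ≤ (T ^ 200)⁻¹ * (6 * (T ^ 32 * (s t * g t / Nn n))) := by
            gcongr; exact dv _ (by positivity)
        _ = 6 * (T ^ 168)⁻¹ * s t * (g t / Nn n) := by field_simp
        _ ≤ _ := by
            have i9 : 0 < (T ^ 168)⁻¹ := by positivity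
            gcongr ?_ * _ * _; linarith [H.Tinv 32 168 (by norm_num)]) hY
  rw [← mul_add]
  refine lt_of_le_of_lt (mul_le_mul_of_nonneg_left hst (by norm_num)) (fin.trans_eq ?_)
  simp only [Nat.cast_ofNat, Nat.add_one_sub_one, pow_one]
  ring

end F1

end

end Pool.Agent.Work.MP_6bf1e5_an.Ell
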