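import Pool.Agent.Work.MP_6bf1e5_an.Ell.Phase1D
import Pool.Agent.Work.MP_6bf1e5_an.Ell.Phase1E

/-!
The first phase: the seed takes over and concentrates.
-/

open Set Complex Filter Topology
open scoped InnerProductSpace ComplexConjugate
open Pool.Agent.Work.MP_6bf1e5_an.B (Z3 R3)
open Pool.Agent.Work.MP_6bf1e5_an.Dec

namespace Pool.Agent.Work.MP_6bf1e5_an.Ell

noncomputable section

theorem phase1 {T κ d l N1 t1 t' t2 : ℝ} {r n : N3} {mv : Fin 3 → ℝ} {vb vc : Z3 → ℝ}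
    {p b c f : ℝ → V} {s F g τ : ℝ → ℝ} (hT : (10 : ℝ) ^ 100 ≤ T)
    (hn : ∀ i, (n i : ℝ) + 1 = T ^ 17 * r i) (N0 : 0 < N1) (N1n : N1 ≤ Nn n)
    (nN1 : Nn n ≤ T ^ 32 * N1) (h0 : 0 ≤ t1) (h1 : t1 ≤ t') (h2 : t' ≤ t2)
    (hp : ∀ t ∈ Icc t1 t2, Drv T r mv κ (p t) ∧ ∃ p', HD p p' t ∧ Sp (fun i => 2 * r i) p' ∧
      ev 0 p' = 0 ∧ l1 p' ≤ s t / T ^ 38)
    (hs : ∀ t ∈ Icc t1 t2, 0 < s t ∧ HD τ (s t) t ∧ l ≤ Real.exp (-T ^ 2) * s t)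
    (τ1 : τ t2 - τ t1 ≤ 100 * T ^ 33) (τ2 : T ^ 33 / 1000 ≤ τ t2 - τ t')
    (hg : ∀ t ∈ Icc t1 t2, 0 < g t ∧ 0 ≤ F t ∧ HD g ((s t - d) * g t + F t) t)
    (hf : ∀ t ∈ Icc t1 t2, Sp (fun i => n i + 2 * r i) (f t) ∧
      Seed T n r N1 (p t) (f t) (F t) (Real.exp (-T ^ 2) * (s t * g t)))
    (he : ∀ t ∈ Icc t1 t2, ∃ e0 e1, ‖e0‖ ≤ Real.exp (-T ^ 2) * ((F t + s t * g t) / N1) ∧
      ‖e1‖ ≤ Real.exp (-T ^ 2) * ((F t + s t * g t) / N1) ∧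
      Pair r n l d (s t) t vb vc (p t) b c e0 (f t + e1))
    (init : nr (b t1) (c t1) ≤ Real.exp (-T ^ 2) * (g t1 / N1))
    (hg1 : g t1 * Real.exp (τ t2 - τ t1 - d * (t2 - t1)) ≤ g t2 / 100)
    (hF : ∀ t ∈ Icc t' t2, F t ≤ Real.exp (-T ^ 2) * (s t * g t)) :
    g t2 ≤ 2 * (Nn n * al n (p t2) (b t2) (c t2)) ∧
      nr (b t2) (c t2) ^ 2 ≤ 100 * T ^ 3 * al n (p t2) (b t2) (c t2) ^ 2 := by
  have H : F1 T κ d l N1 t1 t2 r n mv vb vc p b c f s F g τ :=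
    ⟨hT, hn, N0, nN1, h0, h1.trans h2, hp, hs, τ1, hg, hf, he, init⟩
  have T0 := H.T0
  have hN := Nn_pos n
  have G0 := (hg t2 H.m2).1
  have hal := H.al_ge hg1
  refine ⟨hal, (H.conc ⟨h1, h2⟩ τ2 hF).trans ?_⟩
  have a1 : g t2 / Nn n ≤ 2 * al n (p t2) (b t2) (c t2) := by
    rw [div_le_iff₀ hN]
    linarith
  calc _ ≤ 11 * T ^ 3 * (2 * al n (p t2) (b t2) (c t2)) ^ 2 := by gcongr
    _ = 44 * T ^ 3 * al n (p t2) (b t2) (c t2) ^ 2 := by ring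
    _ ≤ _ := by gcongr; norm_num

end

end Pool.Agent.Work.MP_6bf1e5_an.Ell
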