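import Pool.Agent.Work.MP_6bf1e5_an.Ell.Cone

/-!
The second phase: convergence to the ground state.
-/

open Set Complex Filter Topology
open scoped InnerProductSpace ComplexConjugate
open Pool.Agent.Work.MP_6bf1e5_an.B (Z3 R3)
open Pool.Agent.Work.MP_6bf1e5_an.Dec

namespace Pool.Agent.Work.MP_6bf1e5_an.Ell

noncomputable section

namespace P2

lemma big {T : ℝ} (hT : (10 : ℝ) ^ 100 ≤ T) {k : ℕ} (hk : 1 ≤ k) : (10 : ℝ) ^ 100 ≤ T ^ k :=
  hT.trans (le_self_pow₀ (le_trans (by norm_num) hT) (by omega))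

lemma exp_neg_le {T y : ℝ} (hT : (10 : ℝ) ^ 100 ≤ T) (hy : T ≤ y) :
    Real.exp (-y) ≤ 1 / T ^ 55 := by
  have T0 : 0 < T := lt_of_lt_of_le (by positivity) hT
  rw [Real.exp_neg, one_div]
  exact inv_anti₀ (by positivity) ((pow_le_exp hT (by norm_num)).trans (Real.exp_le_exp.2 hy))

lemma le_pow' {T : ℝ} (hT : (10 : ℝ) ^ 100 ≤ T) {k : ℕ} (hk : 1 ≤ k) : 4 * T ≤ T ^ (k + 1) := by
  have h := big hT hk
  have T0 : 0 < T := lt_of_lt_of_le (by positivity) hT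
  rw [pow_succ]
  have : (4 : ℝ) ≤ 10 ^ 100 := by norm_num
  nlinarith

/-- the loss in the growth rate -/
lemma num1 {T s G ε ω l : ℝ} (hT : (10 : ℝ) ^ 100 ≤ T) (hs : 0 < s) (hG : G ≤ 101 * T ^ 3)
    (hε : ε ≤ s / T ^ 55) (hω : ω ≤ 100 * (s / T ^ 55)) (hl : l ≤ s / T ^ 55) (ω0 : 0 ≤ ω)
    (l0 : 0 ≤ l) : √G * (s / T ^ 25 + ω + 5 * l) + 2 * ε + s / T ^ 30 < 1 / (400 * T ^ 23) * s := by
  have T0 : 0 < T := lt_of_lt_of_le (by positivity) hT
  have h1 : √G ≤ T ^ 2 / 10 ^ 6 := by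
    refine Real.sqrt_le_iff.2 ⟨by positivity, hG.trans ?_⟩
    have : (101 : ℝ) * 10 ^ 12 ≤ T := le_trans (by norm_num) hT
    have := mul_le_mul_of_nonneg_right this (by positivity : 0 ≤ T ^ 3)
    rw [div_pow, le_div_iff₀ (by positivity)]
    linarith
  obtain ⟨u, hu⟩ : ∃ u, u = s / T ^ 55 := ⟨_, rfl⟩
  have u0 : 0 < u := by rw [hu]; positivity
  have e1 : s / T ^ 25 = u * T ^ 30 := by rw [hu]; field_simp
  have e2 : s / T ^ 30 = u * T ^ 25 := by rw [hu]; field_simp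
  have e3 : 1 / (400 * T ^ 23) * s = u * T ^ 32 / 400 := by rw [hu]; field_simp
  rw [← hu] at hε hω hl
  rw [e1, e2, e3]
  have a1 := big hT (k := 30) (by norm_num)
  have a2 := big hT (k := 7) (by norm_num)
  have a3 := big hT (k := 25) (by norm_num)
  have a4 : u * T ^ 30 + ω + 5 * l ≤ 2 * (u * T ^ 30) := by
    have : u * 105 ≤ u * T ^ 30 := mul_le_mul_of_nonneg_left (le_trans (by norm_num) a1) u0.le
    linarith
  have a5 := mul_le_mul h1 a4 (by positivity) (by positivity)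
  have a6 : u * 1 ≤ u * T ^ 25 := mul_le_mul_of_nonneg_left (le_trans (by norm_num) a3) u0.le
  have a7 : u * T ^ 25 * 10 ^ 6 ≤ u * T ^ 25 * T ^ 7 :=
    mul_le_mul_of_nonneg_left (le_trans (by norm_num) a2) (by positivity)
  have a8 : 0 < u * T ^ 32 := by positivity
  have e4 : T ^ 2 / 10 ^ 6 * (2 * (u * T ^ 30)) = u * T ^ 32 * (2 / 10 ^ 6) := by ring
  have e5 : u * T ^ 25 * T ^ 7 = u * T ^ 32 := by ring
  rw [e4] at a5
  rw [e5] at a7
  linarith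

/-- the decay of the cone function -/
lemma num2 {T s μ X ε ω l : ℝ} (hT : (10 : ℝ) ^ 100 ≤ T) (hs : 0 < s) (μ1 : 2 / T ^ 34 ≤ μ)
    (μ2 : μ ≤ 4 / T ^ 34) (X0 : 0 ≤ X) (X1 : X ≤ 100 * T ^ 3)
    (hε : ε ≤ s / T ^ 55) (hω : ω ≤ 100 * (s / T ^ 55)) (hl : l ≤ s / T ^ 55) :
    -(1 / 10 ^ 11 * s * μ) * (1 / 2 + 1 / 10 ^ 62 / 2 + X - 1 / 2) +
      10 ^ 13 * s * μ * (10 ^ 25 / T ^ 4 + μ) * (1 + X) ^ 2 + 10 * (1 + X) ^ 2 * (ε + ω + l) <
      -(1 / 10 ^ 11 / 2 * μ * s * X) := by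
  have T0 : 0 < T := lt_of_lt_of_le (by positivity) hT
  have T1 : 1 ≤ T := le_trans (by norm_num) hT
  have μ0 : 0 < μ := lt_of_lt_of_le (by positivity) μ1
  have a1 : μ ≤ 1 / T ^ 4 := by
    refine μ2.trans ?_
    rw [div_le_div_iff₀ (by positivity) (by positivity)]
    have := mul_le_mul_of_nonneg_right (big hT (k := 30) (by norm_num)) (by positivity : 0 ≤ T ^ 4)
    have e : T ^ 30 * T ^ 4 = T ^ 34 := by ring
    have : 0 ≤ T ^ 4 := by positivity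
    linarith
  have a2 : ε + ω + l ≤ s * μ * (1 / T ^ 4) := by
    have b1 : 102 * (s / T ^ 55) ≤ s * (2 / T ^ 34) * (1 / T ^ 4) := by
      have e1 : s * (2 / T ^ 34) * (1 / T ^ 4) = 2 * T ^ 17 * (s / T ^ 55) := by field_simp
      rw [e1]
      have := big hT (k := 17) (by norm_num)
      exact mul_le_mul_of_nonneg_right (by linarith [show (102 : ℝ) ≤ 10 ^ 100 by norm_num])
        (by positivity)
    have b2 : s * (2 / T ^ 34) * (1 / T ^ 4) ≤ s * μ * (1 / T ^ 4) := by gcongr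
    linarith
  obtain ⟨v, hv⟩ : ∃ v, v = 1 / T ^ 4 := ⟨_, rfl⟩
  have v0 : 0 < v := by rw [hv]; positivity
  have e1 : (10 : ℝ) ^ 25 / T ^ 4 = 10 ^ 25 * v := by rw [hv]; ring
  rw [← hv] at a1 a2
  rw [e1]
  have v1 : v * T ^ 3 ≤ 1 / 10 ^ 100 := by
    have : v * T ^ 3 = 1 / T := by rw [hv]; field_simp
    rw [this]
    exact one_div_le_one_div_of_le (by positivity) hT
  have v2 : v ≤ 1 / 10 ^ 200 := by
    rw [hv]
    refine one_div_le_one_div_of_le (by positivity) ?_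
    have h1 := pow_le_pow_left₀ (by positivity) hT 2
    have h2 : T ^ 2 ≤ T ^ 4 := pow_le_pow_right₀ T1 (by norm_num)
    have e : ((10 : ℝ) ^ 100) ^ 2 = 10 ^ 200 := by norm_num
    linarith
  have a3 : v * (1 + X) ^ 2 ≤ 2 / 10 ^ 200 + 200 / 10 ^ 100 * X := by
    have b1 : (1 + X) ^ 2 ≤ 2 + 2 * (X * (100 * T ^ 3)) := by
      have := mul_le_mul_of_nonneg_left X1 X0
      linarith [sq_nonneg (1 - X)]
    have b2 := mul_le_mul_of_nonneg_left b1 v0.le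
    have b3 := mul_le_mul_of_nonneg_left v1 X0
    linarith
  obtain ⟨m, hm⟩ : ∃ m, m = s * μ := ⟨_, rfl⟩
  have m0 : 0 < m := by rw [hm]; positivity
  have a4 : 10 ^ 13 * s * μ * (10 ^ 25 * v + μ) * (1 + X) ^ 2 ≤
      2 * 10 ^ 38 * (m * (v * (1 + X) ^ 2)) := by
    have : s * μ * (1 + X) ^ 2 * μ ≤ s * μ * (1 + X) ^ 2 * v :=
      mul_le_mul_of_nonneg_left a1 (by positivity)
    have : 0 ≤ s * μ * (1 + X) ^ 2 * v := by positivity
    rw [hm]
    linarith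
  have a5 : 10 * (1 + X) ^ 2 * (ε + ω + l) ≤ 10 * (m * (v * (1 + X) ^ 2)) := by
    have := mul_le_mul_of_nonneg_left a2 (sq_nonneg (1 + X))
    rw [hm]
    linarith
  have a6 := mul_le_mul_of_nonneg_left a3 m0.le
  have a7 : 0 ≤ m * X := by positivity
  have e2 : -(1 / 10 ^ 11 * s * μ) * (1 / 2 + 1 / 10 ^ 62 / 2 + X - 1 / 2) =
      -(1 / 10 ^ 73 / 2 * m) - 1 / 10 ^ 11 * (m * X) := by rw [hm]; ring
  have e3 : -(1 / 10 ^ 11 / 2 * μ * s * X) = -(1 / 10 ^ 11 / 2 * (m * X)) := by rw [hm]; ring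
  rw [e2, e3]
  linarith

lemma num3 {T μ u : ℝ} (hT : (10 : ℝ) ^ 100 ≤ T) (μ1 : 2 / T ^ 34 ≤ μ) (hu : T ^ 42 / 20 ≤ u) :
    100 * T ^ 3 * Real.exp (-(1 / 10 ^ 11 / 2 * μ * u)) ≤ 1 / 10 ^ 62 / 2 := by
  have T0 : 0 < T := lt_of_lt_of_le (by positivity) hT
  have a1 : 2 / T ^ 34 * (T ^ 42 / 20) ≤ μ * u :=
    mul_le_mul μ1 hu (by positivity) (le_trans (by positivity) μ1)
  have e : 2 / T ^ 34 * (T ^ 42 / 20) = T ^ 7 * T / 10 := by field_simp; norm_num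
  have a2 := mul_le_mul_of_nonneg_right (big hT (k := 7) (by norm_num)) T0.le
  have a3 := exp_neg_le hT (y := 1 / 10 ^ 11 / 2 * μ * u) (by linarith)
  refine (mul_le_mul_of_nonneg_left a3 (by positivity)).trans ?_
  have e2 : 100 * T ^ 3 * (1 / T ^ 55) = 100 / T ^ 52 := by field_simp
  rw [e2, div_le_iff₀ (by positivity)]
  linarith [big hT (k := 52) (by norm_num)]

lemma two_le {T : ℝ} (hT : (10 : ℝ) ^ 100 ≤ T) : 2 * Real.exp (-(T ^ 19 / 4)) ≤ 1 := by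
  have h1 := Real.add_one_le_exp (T ^ 19 / 4)
  have h2 := big hT (k := 19) (by norm_num)
  rw [Real.exp_neg, ← div_eq_mul_inv, div_le_one (Real.exp_pos _)]
  linarith

end P2

open P2 Cn2

theorem phase2 {T κ d l t2 t3 : ℝ} {r n : N3} {mv : Fin 3 → ℝ} {vb vc : Z3 → ℝ}
    {p b c : ℝ → V} {s g τ : ℝ → ℝ} (hT : (10 : ℝ) ^ 100 ≤ T) (hκ : κ ≤ 10 ^ 5 / T ^ 4)
    (hn : ∀ i, (n i : ℝ) + 1 = T ^ 17 * r i) (h0 : 0 ≤ t2) (h1 : t2 ≤ t3)
    (hp : ∀ t ∈ Icc t2 t3, Drv T r mv κ (p t) ∧ ∃ p', HD p p' t ∧ Sp (fun i => 2 * r i) p' ∧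
      ev 0 p' = 0 ∧ l1 p' ≤ s t / T ^ 38)
    (hs : ∀ t ∈ Icc t2 t3, 0 < s t ∧ HD τ (s t) t ∧ l ≤ Real.exp (-T ^ 2) * s t)
    (τ1 : τ t3 - τ t2 ≤ 100 * T ^ 42) (τ2 : T ^ 42 / 20 ≤ τ t3 - τ t2)
    (hg : ∀ t ∈ Icc t2 t3, 0 < g t ∧ ∃ D, HD g D t ∧ D ≤ (s t - d + s t / T ^ 30) * g t)
    (he : ∀ t ∈ Icc t2 t3, Rl (b t) ∧ ∃ e0 e1, ‖e0‖ ≤ Real.exp (-T ^ 19) * (s t * g t / Nn n) ∧
      ‖e1‖ ≤ Real.exp (-T ^ 19) * (s t * g t / Nn n) ∧
      Pair r n l d (s t) t vb vc (p t) b c e0 e1)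
    (i1 : g t2 ≤ 2 * (Nn n * al n (p t2) (b t2) (c t2)))
    (i2 : nr (b t2) (c t2) ^ 2 ≤ 100 * T ^ 3 * al n (p t2) (b t2) (c t2) ^ 2) :
    Real.exp (-(T ^ 19 / 2)) * g t3 ≤ Nn n * al n (p t3) (b t3) (c t3) ∧
      nr (b t3) (c t3) ^ 2 ≤ (1 / 2 + 1 / 10 ^ 62) * al n (p t3) (b t3) (c t3) ^ 2 := by
  have T0 : 0 < T := lt_of_lt_of_le (by positivity) hT
  have T1 : 1 ≤ T := le_trans (by norm_num) hT
  have N0 := Nn_pos n
  have μ0 : 0 ≤ mu T := sq_nonneg _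
  obtain ⟨α, hα⟩ : ∃ α : ℝ → ℝ, α = fun t => al n (p t) (b t) (c t) := ⟨_, rfl⟩
  obtain ⟨E, hE⟩ : ∃ E : ℝ → ℝ, E = fun t => nr (b t) (c t) ^ 2 := ⟨_, rfl⟩
  obtain ⟨X, hX⟩ : ∃ X : ℝ → ℝ, X = fun t =>
    100 * T ^ 3 * Real.exp (-(1 / 10 ^ 11 / 2 * mu T * (τ t - τ t2))) := ⟨_, rfl⟩
  obtain ⟨Y, hY⟩ : ∃ Y : ℝ → ℝ, Y = fun t =>
    Real.exp (-(1 / (400 * T ^ 23) * (τ t - τ t2))) := ⟨_, rfl⟩
  have eα : ∀ t, al n (p t) (b t) (c t) = α t := fun t => by rw [hα]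
  have eE : ∀ t, nr (b t) (c t) ^ 2 = E t := fun t => by rw [hE]
  have mono : ∀ t ∈ Icc t2 t3, 0 ≤ τ t - τ t2 ∧ τ t - τ t2 ≤ 100 * T ^ 42 := fun t ht => by
    have H : ∀ t ∈ Icc t2 t3, ∃ D, HD τ D t ∧ 0 ≤ D := fun t ht =>
      ⟨_, (hs t ht).2.1, (hs t ht).1.le⟩
    have a1 := mono_of_deriv h0 H le_rfl ht.1 ht.2
    have a2 := mono_of_deriv h0 H ht.1 ht.2 le_rfl
    constructor <;> linarith
  have dX : ∀ t ∈ Icc t2 t3, HD X (-(1 / 10 ^ 11 / 2 * mu T * s t * X t)) t := fun t ht => by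
    rw [hX]
    convert ((((hs t ht).2.1.sub_const (τ t2)).const_mul (1 / 10 ^ 11 / 2 * mu T)).fun_neg.exp
      ).const_mul (100 * T ^ 3) using 1
    ring
  have dY : ∀ t ∈ Icc t2 t3, HD Y (-(1 / (400 * T ^ 23) * s t * Y t)) t := fun t ht => by
    rw [hY]
    convert (((hs t ht).2.1.sub_const (τ t2)).const_mul (1 / (400 * T ^ 23))).fun_neg.exp using 1
    ring
  have X0 : ∀ t, 0 ≤ X t := fun t => by rw [hX]; positivity
  have Y0 : ∀ t, 0 < Y t := fun t => by rw [hY]; positivity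
  have X1 : ∀ t ∈ Icc t2 t3, X t ≤ 100 * T ^ 3 := fun t ht => by
    rw [hX]
    refine mul_le_of_le_one_right (by positivity) (Real.exp_le_one_iff.2 ?_)
    have := (mono t ht).1
    have : 0 ≤ 1 / 10 ^ 11 / 2 * mu T * (τ t - τ t2) := by positivity
    linarith
  have Y1 : ∀ t ∈ Icc t2 t3, Real.exp (-(T ^ 19 / 4)) ≤ Y t := fun t ht => by
    rw [hY]
    refine Real.exp_le_exp.2 (neg_le_neg ?_)
    refine (mul_le_mul_of_nonneg_left (mono t ht).2 (by positivity)).trans (le_of_eq ?_)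
    field_simp
    norm_num
  have dα : ∀ t ∈ Icc t2 t3, ∃ D, HD α D t := fun t ht => by
    obtain ⟨-, p', dp, -⟩ := hp t ht
    obtain ⟨-, e0, e1, -, -, P⟩ := he t ht
    rw [hα]
    exact hd_al n dp P.eb P.ec
  have dE : ∀ t ∈ Icc t2 t3, ∃ D, HD E D t := fun t ht => by
    obtain ⟨-, e0, e1, -, -, P⟩ := he t ht
    rw [hE]
    exact ⟨_, hd_nr_sq P.eb P.ec⟩
  have key := family_barrier (ι := Bool) (a := t2) (b := t3)
    (H := fun i t => if i then E t - (1 / 2 + 1 / 10 ^ 62 / 2 + X t) * α t ^ 2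
      else g t / 2 * Y t - Nn n * α t) ?_ ?_ ?_
  · have k1 := key t3 ⟨h1, le_rfl⟩ true
    have k2 := key t3 ⟨h1, le_rfl⟩ false
    simp only [if_true, Bool.false_eq_true, if_false] at k1 k2
    rw [eα, eE]
    have g0 := (hg t3 ⟨h1, le_rfl⟩).1
    constructor
    · have a1 := Y1 t3 ⟨h1, le_rfl⟩
      have a2 : Real.exp (-(T ^ 19 / 2)) =
          Real.exp (-(T ^ 19 / 4)) * Real.exp (-(T ^ 19 / 4)) := by
        rw [← Real.exp_add]; congr 1; ring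
      have a3 := mul_le_mul (two_le hT) a1 (Real.exp_pos _).le zero_le_one
      have a4 := mul_le_mul_of_nonneg_right a3 g0.le
      rw [a2]
      linarith
    · have a1 : X t3 ≤ 1 / 10 ^ 62 / 2 := by rw [hX]; exact num3 hT (le_mu hT) τ2
      have a2 := mul_le_mul_of_nonneg_right a1 (sq_nonneg (α t3))
      linarith
  · intro i
    refine contOn_of_HD h0 fun t ht => ?_
    obtain ⟨D1, d1⟩ := dα t ht
    obtain ⟨D2, d2⟩ := dE t ht
    obtain ⟨-, D3, d3, -⟩ := hg t ht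
    cases i
    · exact ⟨_, ((d3.div_const 2).fun_mul (dY t ht)).fun_sub (d1.const_mul _)⟩
    · exact ⟨_, d2.fun_sub (((dX t ht).const_add _).fun_mul (d1.fun_pow 2))⟩
  · intro i
    rw [eα] at i1 i2
    rw [eE] at i2
    cases i
    · simp only [Bool.false_eq_true, if_false, hY, sub_self, mul_zero, neg_zero, Real.exp_zero]
      linarith
    · simp only [if_true, hX, sub_self, mul_zero, neg_zero, Real.exp_zero]
      linarith [sq_nonneg (α t2)]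
  · intro t ht' all i hi
    have ht := Ico_subset_Icc_self ht'
    have t0 : 0 ≤ t := h0.trans ht.1
    have k1 := all t ⟨ht.1, le_rfl⟩ true
    have k2 := all t ⟨ht.1, le_rfl⟩ false
    simp only [if_true, Bool.false_eq_true, if_false] at k1 k2
    obtain ⟨drv, p', dp, sp', ev', l1'⟩ := hp t ht
    obtain ⟨s0, -, hl⟩ := hs t ht
    obtain ⟨g0, D3, d3, hD3⟩ := hg t ht
    obtain ⟨rb, e0, e1, n0, n1, P⟩ := he t ht
    have gY : 0 < g t / 2 * Y t := by have := Y0 t; positivity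
    have pos : 0 < α t := (mul_pos_iff_of_pos_left N0).1 (by linarith)
    have hε : Real.exp (-T ^ 19) * (s t * g t / Nn n) ≤ s t / T ^ 55 * α t := by
      have a1 : g t / Nn n * Real.exp (-(T ^ 19 / 4)) ≤ 2 * α t := by
        have := mul_le_mul_of_nonneg_left (Y1 t ht) g0.le
        rw [div_mul_eq_mul_div, div_le_iff₀ N0]
        linarith
      have a2 : Real.exp (-T ^ 19) = Real.exp (-(T ^ 19 / 2)) *
          (Real.exp (-(T ^ 19 / 4)) * Real.exp (-(T ^ 19 / 4))) := by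
        rw [← Real.exp_add, ← Real.exp_add]; congr 1; ring
      have a3 := exp_neg_le hT (y := T ^ 19 / 2) (by
        have : 4 * T ≤ T ^ 19 := le_pow' hT (k := 18) (by norm_num)
        linarith)
      have a4 := mul_le_mul_of_nonneg_left a1 (Real.exp_pos (-(T ^ 19 / 4))).le
      have a5 := mul_le_mul_of_nonneg_right (two_le hT) pos.le
      have a6 : Real.exp (-(T ^ 19 / 4)) * (g t / Nn n * Real.exp (-(T ^ 19 / 4))) ≤ α t := by
        linarith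
      have a7 := mul_le_mul_of_nonneg_left (mul_le_mul a3 a6 (by positivity) (by positivity)) s0.le
      rw [a2]
      refine le_of_eq_of_le (by ring) (a7.trans (le_of_eq (by ring)))
    have hω : ‖p' * ph n‖ ≤ 100 * (s t / T ^ 55) := by
      have a1 := norm_mul_ph_sub' hT hn sp'
      rw [ev', zero_smul, sub_zero] at a1
      refine a1.trans ((mul_le_mul_of_nonneg_right l1' (by positivity)).trans (le_of_eq ?_))
      field_simp
    have hl' : l ≤ s t / T ^ 55 := by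
      have a3 := exp_neg_le hT (y := T ^ 2) (by
        have : 4 * T ≤ T ^ 2 := le_pow' hT (k := 1) le_rfl
        linarith)
      refine hl.trans ((mul_le_mul_of_nonneg_right a3 s0.le).trans (le_of_eq ?_))
      ring
    have T3 : 1 ≤ T ^ 3 := one_le_pow₀ T1
    have G1 : 1 + X t ≤ 101 * T ^ 3 := by linarith [X1 t ht]
    have G2 : 1 + X t ≤ T ^ 4 := by
      have : (101 : ℝ) * T ^ 3 ≤ T * T ^ 3 :=
        mul_le_mul_of_nonneg_right (le_trans (by norm_num) hT) (by positivity)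
      linarith [show T * T ^ 3 = T ^ 4 by ring]
    obtain ⟨⟨D1, d1, hD1⟩, D2, d2, hD2⟩ := cone_step (g := 1 + X t) (ε := s t / T ^ 55) hT drv hκ hn
      dp hω P rb s0 (by rwa [eα]) (by rw [eα]; exact n0.trans hε) (by rw [eα]; exact n1.trans hε)
      (by linarith [X0 t]) G2 (by rw [eα, eE]; linarith [sq_nonneg (α t)])
    simp only [eα, eE] at d1 hD1 d2 hD2
    cases i
    · simp only [Bool.false_eq_true, if_false] at hi ⊢
      refine ⟨_, ?_, HD.right (((d3.div_const 2).fun_mul (dY t ht)).fun_sub (d1.const_mul _)) t0⟩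
      have a1 := num1 hT s0 G1 le_rfl le_rfl hl' (by positivity) P.lb.l0
      have a2 := mul_lt_mul_of_pos_right a1 gY
      have a3 := mul_le_mul_of_nonneg_left hD1 N0.le
      have a4 := mul_le_mul_of_nonneg_right hD3 (Y0 t).le
      have a5 : Nn n * α t = g t / 2 * Y t := by linarith
      rw [mul_left_comm, a5] at a3
      linarith
    · simp only [if_true] at hi ⊢
      have e : E t / α t ^ 2 = 1 / 2 + 1 / 10 ^ 62 / 2 + X t := by
        rw [div_eq_iff (pow_pos pos 2).ne']; linarith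
      have d4 := (d2.fun_sub ((dX t ht).const_add (1 / 2 + 1 / 10 ^ 62 / 2))).fun_mul
        (d1.fun_pow 2)
      refine ⟨_, ?_, HD.right (d4.congr_of_eventuallyEq ?_ ?_) t0⟩
      · rw [e, sub_self, zero_mul, add_zero]
        refine mul_neg_of_neg_of_pos ?_ (pow_pos pos 2)
        rw [e] at hD2
        have := num2 hT s0 (le_mu hT) (mu_le hT) (X0 t) (X1 t ht) le_rfl le_rfl hl'
        linarith
      · filter_upwards [d1.continuousWithinAt.eventually (lt_mem_nhds pos)] with u hu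
        rw [sub_mul, div_mul_cancel₀ _ (pow_pos hu 2).ne']
      · rw [sub_mul, div_mul_cancel₀ _ (pow_pos pos 2).ne']

end

end Pool.Agent.Work.MP_6bf1e5_an.Ell
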