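import Pool.Agent.Work.MP_6bf1e5_an.Ell.Seed
import Pool.Agent.Work.MP_6bf1e5_an.Ell.Phase1
import Pool.Agent.Work.MP_6bf1e5_an.Ell.Phase2
import Pool.Agent.Work.MP_6bf1e5_an.Ell.ComboA

/-!
Linear combinations of the teeth of the new level converge to the ground state.
-/

open Set Complex Filter Topology
open scoped InnerProductSpace ComplexConjugate
open Pool.Agent.Work.MP_6bf1e5_an.B (Z3 R3)
open Pool.Agent.Work.MP_6bf1e5_an.Dec

namespace Pool.Agent.Work.MP_6bf1e5_an.Ell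

noncomputable section

variable {G : Geo} {R : Raw} {j : ℕ} {t0 c g0 : ℝ} {AA : ℕ → ℝ}

/-- The unstable component of a combination of the teeth of level `j + 1`. -/
def alm (G : Geo) (R : Raw) (j : ℕ) (m : Fin 4 → ℝ) (t : ℝ) : ℝ :=
  al (G.rb (j + 1)) (R.pp G j t) (cmb m fun o => R.b (j + 1) o t) (cmb m fun o => R.c (j + 1) o t)

lemma Geo.gap_pow (G : Geo) {a b : ℕ} (h0 : 1 ≤ a) (h : a < b) : 10 * G.t ^ a + G.t ≤ G.t ^ b := by
  have h1 := G.pow_lt h
  have h2 := G.pow_le h0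
  have h3 : 0 < G.t ^ a := pow_pos G.t_pos a
  rw [pow_one] at h2
  linarith

lemma combo_num1 {S e M x1 x2 F u w N : ℝ} (hS : S ≤ 3 * M) (e0 : 0 ≤ e) (M0 : 0 ≤ M)
    (x0 : 0 ≤ x1) (he : e ≤ x1 * ((F + u) / N)) (hN : 0 < N) (F0 : 0 ≤ F) (u0 : 0 ≤ u)
    (hu : u ≤ 2 * w) (hx : 1000 * M * x1 ≤ x2) : S * e ≤ x2 * ((F + w) / N) := by
  have h1 : (F + u) / N ≤ 2 * ((F + w) / N) := by
    rw [← mul_div_assoc]; gcongr; linarith
  have h2 : 0 ≤ (F + w) / N := div_nonneg (by linarith) hN.le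
  calc S * e ≤ (3 * M) * (x1 * (2 * ((F + w) / N))) := by
        gcongr
        exact he.trans (by gcongr)
    _ = (6 * M * x1) * ((F + w) / N) := by ring
    _ ≤ x2 * ((F + w) / N) := by
        gcongr
        linarith [mul_nonneg M0 x0]

lemma combo_num2 {S e M x1 x2 F u w N N' K : ℝ} (hS : S ≤ 3 * M) (e0 : 0 ≤ e) (M0 : 0 ≤ M)
    (x0 : 0 ≤ x1) (he : e ≤ x1 * ((F + u) / N)) (hN : 0 < N) (hN' : 0 < N') (hK : N' ≤ K * N)
    (w0 : 0 ≤ w) (hF : F + u ≤ 4 * w) (hx : 1000 * (M * K) * x1 ≤ x2) :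
    S * e ≤ x2 / 2 * (w / N') := by
  have K0 : 0 < K := by
    by_contra h
    linarith [mul_nonneg (neg_nonneg.mpr (not_lt.mp h)) hN.le]
  have h1 : (F + u) / N ≤ 4 * K * (w / N') := by
    rw [← mul_div_assoc, div_le_div_iff₀ hN hN']
    calc (F + u) * N' ≤ (4 * w) * (K * N) := by gcongr
      _ = 4 * K * w * N := by ring
  have h2 : 0 ≤ w / N' := div_nonneg w0 hN'.le
  calc S * e ≤ (3 * M) * (x1 * (4 * K * (w / N'))) := by
        gcongr
        exact he.trans (by gcongr)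
    _ = (12 * (M * K) * x1) * (w / N') := by ring
    _ ≤ x2 / 2 * (w / N') := by
        gcongr
        linarith [mul_nonneg (mul_nonneg M0 K0.le) x0]

theorem Run.combo (H : IsNet G R) (S : Run G R j AA t0 c g0) {g : ℝ → ℝ}
    (hg : Cmp G R (j + 1) (zz G R j AA) t0 c g) (ha : 21 / 10 ≤ R.aa G (j + 1) c)
    {m : Fin 4 → ℝ} (m1 : ∑ o, m o = 1) (m2 : ∑ o, |m o| ≤ 3 * G.t ^ 10) :
    Real.exp (-(G.t ^ 19 / 2)) * g c ≤ G.N (j + 2) * alm G R (j + 1) m c ∧
      nr (cmb m fun o => R.b (j + 2) o c) (cmb m fun o => R.c (j + 2) o c) ^ 2 ≤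
        (1 / 2 + 1 / 10 ^ 62) * alm G R (j + 1) m c ^ 2 := by
  have sc := S.sc H hg
  obtain ⟨t1, t', t2, g', τ, h01, h1, h2, h2c, ini, W, τ1, τ2, τ3, τ4, w1, w2⟩ := sc.window ha
  have ds : G.t ^ 42 * G.d (j + 1) = G.d (j + 2) := (G.d_succ (j + 1)).symm
  simp only [← R.Fs_eq G (j + 1), ds] at W w1 w2
  have T0 := G.t_pos
  have T1 := G.one_le_t
  have d1 := G.d_pos (j + 1)
  have d2 := G.d_pos (j + 2)
  have N1 := G.N_pos (j + 1)
  have N2 := G.N_pos (j + 2)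
  have z0 : 0 ≤ t0 := S.st.t0
  have sub : ∀ t ∈ Icc t1 c, t ∈ Icc t0 c := fun t ht => ⟨h01.trans ht.1, ht.2⟩
  have sub1 : ∀ t ∈ Icc t1 t2, t ∈ Icc t1 c := fun t ht => ⟨ht.1, ht.2.trans h2c⟩
  have sub2 : ∀ t ∈ Icc t2 c, t ∈ Icc t1 c := fun t ht => ⟨h1.trans (h2.trans ht.1), ht.2⟩
  have gpos : ∀ t ∈ Icc t1 c, 0 < g t := fun t ht =>
    lt_of_lt_of_le (mul_pos (Real.exp_pos _) (H.bh_pos _)) (sc.floor t (sub t ht))
  have gpos' : ∀ t ∈ Icc t1 c, 0 < g' t := fun t ht => (gpos t ht).trans_le (W t ht).2.1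
  have apos : ∀ t ∈ Icc t1 c, 0 < R.aa G (j + 1) t := fun t ht => by linarith [(W t ht).1]
  have Fpos : ∀ t ∈ Icc t1 c, 0 ≤ R.Fs G (j + 1) (zz G R j AA) (R.aa G (j + 1) t) := fun t ht => by
    rw [R.Fs_eq]
    have := H.bh_pos (j + 2)
    exact mul_nonneg (le_trans (by positivity) sc.F_lo) (pow_pos (apos t ht) _).le
  have dg : ∀ t ∈ Icc t1 c, G.d (j + 2) * g' t ≤ 2 * (G.d (j + 2) * R.aa G (j + 1) t * g' t) :=
    fun t ht => by
      have := (W t ht).1
      linarith [mul_le_mul_of_nonneg_left this (mul_pos d2 (gpos' t ht)).le]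
  have dg' : ∀ t ∈ Icc t1 c, G.d (j + 2) * g t ≤ G.d (j + 2) * g' t := fun t ht => by
    have := (W t ht).2.1
    gcongr
  have hp : ∀ t ∈ Icc t1 c, Drv G.t (G.rd (j + 1)) (rot3 (G.mv (j + 1))) (10 ^ 5 / G.t ^ 4)
      (R.pp G (j + 1) t) ∧ ∃ p', HD (R.pp G (j + 1)) p' t ∧ Sp (fun i => 2 * G.rd (j + 1) i) p' ∧
        ev 0 p' = 0 ∧ l1 p' ≤ G.d (j + 2) * R.aa G (j + 1) t / G.t ^ 38 := fun t ht => by
    obtain ⟨q1, p', q2, q3, q4, q5⟩ := (S.cur H t (sub t ht)).pp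
    refine ⟨q1, p', q2, q3, q4, q5.trans ?_⟩
    rw [le_div_iff₀ (by positivity), ← ds]
    have := (W t ht).1
    have h3 := G.pow_lt (a := 38) (b := 42) (by norm_num)
    have h4 : 0 < G.t ^ 38 := by positivity
    calc 10 ^ 3 * G.d (j + 1) * G.t ^ 38 = (2000 * G.t ^ 38) * G.d (j + 1) * (1 / 2) := by ring
      _ ≤ G.t ^ 42 * G.d (j + 1) * R.aa G (j + 1) t := by gcongr; linarith
  have hs : ∀ t ∈ Icc t1 c, 0 < G.d (j + 2) * R.aa G (j + 1) t ∧
      HD τ (G.d (j + 2) * R.aa G (j + 1) t) t ∧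
      G.ell (j + 2) ≤ Real.exp (-G.t ^ 2) * (G.d (j + 2) * R.aa G (j + 1) t) := fun t ht => by
    refine ⟨mul_pos d2 (apos t ht), (W t ht).2.2.1, ?_⟩
    have := (W t ht).1
    have h3 := G.pow_le (a := 2) (b := 80) (by norm_num)
    unfold Geo.ell Geo.d
    gcongr
    nlinarith [sq_nonneg (G.lam (j + 2))]
  have e20 : 1000 * Real.exp (-G.t ^ 20) ≤ Real.exp (-G.t ^ 2) := by
    have := G.cpoly_exp (k := 0) (x := -G.t ^ 20) (y := -G.t ^ 2) (by norm_num)
      (by linarith [G.gap_pow (a := 2) (b := 20) (by norm_num) (by norm_num), sq_nonneg G.t])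
    simpa using this
  have X1 : ∀ t ∈ Icc t1 c, Real.exp (-G.t ^ 20) * (G.d (j + 2) * g' t) ≤
      Real.exp (-G.t ^ 2) * (G.d (j + 2) * R.aa G (j + 1) t * g' t) := fun t ht => by
    have h3 := dg t ht
    have h4 := mul_pos (hs t ht).1 (gpos' t ht)
    have h5 := Real.exp_pos (-G.t ^ 20)
    calc _ ≤ Real.exp (-G.t ^ 20) * (2 * (G.d (j + 2) * R.aa G (j + 1) t * g' t)) := by gcongr
      _ = (2 * Real.exp (-G.t ^ 20)) * (G.d (j + 2) * R.aa G (j + 1) t * g' t) := by ring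
      _ ≤ _ := mul_le_mul_of_nonneg_right (by linarith) h4.le
  have P := fun t (ht : t ∈ Icc t1 c) =>
    H.pair (j + 1) m (z0.trans (sub t ht).1) (apos t ht)
  have U := fun t (ht : t ∈ Icc t1 c) => S.upp H hg t (sub t ht)
  have Sd := fun t (ht : t ∈ Icc t1 c) => S.seed H hg m1 m2 t (sub t ht)
  have M0 : 0 ≤ G.t ^ 10 := by positivity
  obtain ⟨i1, i2⟩ := phase1 (g := g') (τ := τ) (t' := t') (t2 := t2) (d := G.d (j + 2))
    (s := fun t => G.d (j + 2) * R.aa G (j + 1) t)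
    (F := fun t => R.Fs G (j + 1) (zz G R j AA) (R.aa G (j + 1) t))
    (b := fun t => cmb m fun o => R.b (j + 2) o t) (c := fun t => cmb m fun o => R.c (j + 2) o t)
    (f := fun t => cmb m fun o => R.f G (j + 1) o t) (vb := R.vb (j + 2)) (vc := R.vc (j + 2))
    G.t_big (G.rb_succ (j + 1)) N1 (G.N_mono (Nat.le_succ _)) (G.N_succ_hi (j + 1))
    (z0.trans h01) h1 h2 (fun t ht => hp t (sub1 t ht)) (fun t ht => hs t (sub1 t ht)) τ1 τ2
    (fun t ht => ⟨gpos' t (sub1 t ht), Fpos t (sub1 t ht), (W t (sub1 t ht)).2.2.2⟩)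
    (fun t ht => ⟨sp_f (j + 1) m t, (Sd t (sub1 t ht)).mono N1 (le_trans (by
      have := dg' t (sub1 t ht)
      gcongr) (X1 t (sub1 t ht)))⟩)
    (fun t ht => by
      have ht' := sub1 t ht
      obtain ⟨e0, e1, q0, q1, q⟩ := P t ht'
      have b0 := H.eb_nonneg (j + 2) t
      have c0 := H.ec_nonneg (j + 1) t
      have u := (U t ht').ebc
      have hx := G.cpoly_exp (k := 10) (x := -(2 * G.t ^ 19)) (y := -G.t ^ 2) (by norm_num)
        (by linarith [G.gap_pow (a := 2) (b := 19) (by norm_num) (by norm_num), sq_nonneg G.t])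
      have k := fun e (e0 : 0 ≤ e) he => combo_num1 (e := e) m2 e0 M0 (Real.exp_pos _).le he N1
        (Fpos t ht') (mul_pos d2 (gpos t ht')).le ((dg' t ht').trans (dg t ht')) hx
      exact ⟨e0, e1, q0.trans (k _ b0 (by linarith)), q1.trans (k _ c0 (by linarith)), q⟩)
    (by
      have ht : t1 ∈ Icc t1 c := ⟨le_rfl, h1.trans (h2.trans h2c)⟩
      have u := (U t1 ht).lev
      have l0 := R.lev_nonneg (j + 2) t1
      have gp := gpos t1 ht
      have q1 := norm_cmb_le m fun o => R.b_le_lev (j + 2) o t1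
      have q2 := norm_cmb_le m fun o => R.c_le_lev (j + 2) o t1
      have q3 : (∑ o, |m o|) * R.lev (j + 2) t1 ≤ 3 * G.t ^ 10 * (20 * g t1 / G.N (j + 1)) := by
        gcongr
      have hx := G.cpoly_exp (k := 10) (x := 0) (y := -G.t ^ 2 + G.t ^ 3) (by norm_num)
        (by linarith [G.gap_pow (a := 2) (b := 3) (by norm_num) (by norm_num), sq_nonneg G.t])
      rw [Real.exp_zero, mul_one, Real.exp_add] at hx
      have q4 : ∀ B C : V, nr B C ≤ ‖B‖ + ‖C‖ := fun B C =>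
        Real.sqrt_le_iff.mpr ⟨by positivity, by linarith [mul_nonneg (norm_nonneg B) (norm_nonneg C)]⟩
      refine (q4 _ _).trans ?_
      rw [ini]
      have q5 : 0 < g t1 / G.N (j + 1) := div_pos gp N1
      calc _ ≤ 2 * (3 * G.t ^ 10 * (20 * g t1 / G.N (j + 1))) := by linarith
        _ = (120 * G.t ^ 10) * (g t1 / G.N (j + 1)) := by ring
        _ ≤ (Real.exp (-G.t ^ 2) * Real.exp (G.t ^ 3)) * (g t1 / G.N (j + 1)) :=
          mul_le_mul_of_nonneg_right (by linarith) q5.le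
        _ = _ := by ring)
    w1 (fun t ht => (w2 t ⟨ht.1, ht.2.trans h2c⟩).trans (X1 t ⟨h1.trans ht.1, ht.2.trans h2c⟩))
  have sub3 : ∀ t ∈ Icc t2 c, t ∈ Icc t' c := fun t ht => ⟨h2.trans ht.1, ht.2⟩
  obtain ⟨o1, o2⟩ := phase2 (g := g') (τ := τ) (t3 := c) (d := G.d (j + 2))
    (s := fun t => G.d (j + 2) * R.aa G (j + 1) t) (vb := R.vb (j + 2)) (vc := R.vc (j + 2))
    (b := fun t => cmb m fun o => R.b (j + 2) o t) (c := fun t => cmb m fun o => R.c (j + 2) o t)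
    G.t_big le_rfl (G.rb_succ (j + 1)) (z0.trans (h01.trans (h1.trans h2))) h2c
    (fun t ht => hp t (sub2 t ht)) (fun t ht => hs t (sub2 t ht)) τ3 τ4
    (fun t ht => by
      have ht' := sub2 t ht
      refine ⟨gpos' t ht', _, (W t ht').2.2.2, ?_⟩
      have q1 := (w2 t (sub3 t ht)).trans (X1 t ht')
      have hx := G.poly_exp (k := 30) (x := -G.t ^ 2) (y := 0) (by norm_num)
        (by nlinarith)
      have q2 : Real.exp (-G.t ^ 2) ≤ 1 / G.t ^ 30 := by
        rw [le_div_iff₀ (by positivity), mul_comm]; simpa using hx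
      have q3 := mul_pos (hs t ht').1 (gpos' t ht')
      have q4 : Real.exp (-G.t ^ 2) * (G.d (j + 2) * R.aa G (j + 1) t * g' t) ≤
          1 / G.t ^ 30 * (G.d (j + 2) * R.aa G (j + 1) t * g' t) :=
        mul_le_mul_of_nonneg_right q2 q3.le
      have q5 : (G.d (j + 2) * R.aa G (j + 1) t - G.d (j + 2) +
          G.d (j + 2) * R.aa G (j + 1) t / G.t ^ 30) * g' t =
          (G.d (j + 2) * R.aa G (j + 1) t - G.d (j + 2)) * g' t +
            1 / G.t ^ 30 * (G.d (j + 2) * R.aa G (j + 1) t * g' t) := by ring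
      linarith)
    (fun t ht => by
      have ht' := sub2 t ht
      refine ⟨rl_cmb m fun o => H.rlb _ o t, ?_⟩
      obtain ⟨e0, e1, q0, q1, q⟩ := P t ht'
      have b0 := H.eb_nonneg (j + 2) t
      have c0 := H.ec_nonneg (j + 1) t
      have u := (U t ht').ebc
      have f1 := w2 t (sub3 t ht)
      have f2 := (Sd t ht').norm_le
      have a1 := dg t ht'
      have a2 := dg' t ht'
      have a3 := mul_pos (hs t ht').1 (gpos' t ht')
      have a4 := mul_pos d2 (gpos' t ht')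
      have a5 := mul_pos d2 (gpos t ht')
      have x1 : Real.exp (-G.t ^ 20) ≤ 1 := Real.exp_le_one_iff.mpr (by simp; positivity)
      have x2 := Real.exp_pos (-G.t ^ 20)
      have hx := G.cpoly_exp (k := 42) (x := -(2 * G.t ^ 19)) (y := -G.t ^ 19) (by norm_num)
        (by linarith [G.pow_le (a := 1) (b := 19) (by norm_num)])
      rw [show G.t ^ 42 = G.t ^ 10 * G.t ^ 32 by ring] at hx
      have k := fun e (e0 : 0 ≤ e) he => combo_num2 (e := e)
        (F := R.Fs G (j + 1) (zz G R j AA) (R.aa G (j + 1) t)) (u := G.d (j + 2) * g t)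
        m2 e0 M0 (Real.exp_pos _).le he N1 N2 (G.N_succ_hi (j + 1)) a3.le
        (by linarith [mul_le_mul_of_nonneg_right x1 a4.le]) hx
      have hy := G.cpoly_exp (k := 32) (x := G.t - G.t ^ 20) (y := -G.t ^ 19) (by norm_num)
        (by linarith [G.gap_pow (a := 19) (b := 20) (by norm_num) (by norm_num),
          G.pow_le (a := 1) (b := 19) (by norm_num)])
      rw [← one_mul (G.t ^ 32)] at hy
      have x3 : Real.exp (G.t / 10 ^ 19) ≤ Real.exp G.t :=
        Real.exp_le_exp.mpr (div_le_self T0.le (by norm_num))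
      have x4 : 1 ≤ Real.exp G.t := Real.one_le_exp T0.le
      have k' := combo_num2 (S := 1) (M := 1) (F := G.d (j + 2) * g' t) (u := G.d (j + 2) * g' t)
        (by norm_num) (norm_nonneg _) zero_le_one (Real.exp_pos (G.t - G.t ^ 20)).le
        (f2.trans (by
          rw [← mul_div_assoc, sub_eq_add_neg G.t, Real.exp_add]
          gcongr
          have F0 := Fpos t ht'
          have y1 : Real.exp (G.t / 10 ^ 19) * R.Fs G (j + 1) (zz G R j AA) (R.aa G (j + 1) t) ≤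
              Real.exp G.t * (Real.exp (-G.t ^ 20) * (G.d (j + 2) * g' t)) := by gcongr
          have y2 : Real.exp (-G.t ^ 20) * (G.d (j + 2) * g t) ≤
              Real.exp G.t * (Real.exp (-G.t ^ 20) * (G.d (j + 2) * g' t)) := by
            refine le_trans (by gcongr) (le_mul_of_one_le_left (by positivity) x4)
          linarith))
        N1 N2 (G.N_succ_hi (j + 1)) a3.le (by linarith) hy
      have k0 := k _ b0 (by linarith)
      have k1 := k _ c0 (by linarith)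
      have p0 : 0 ≤ Real.exp (-G.t ^ 19) * (G.d (j + 2) * R.aa G (j + 1) t * g' t / G.N (j + 2)) :=
        mul_nonneg (Real.exp_pos _).le (div_nonneg a3.le N2.le)
      refine ⟨e0, _, ?_, (norm_add_le _ _).trans ?_, q⟩
      · change _ ≤ Real.exp (-G.t ^ 19) * (G.d (j + 2) * R.aa G (j + 1) t * g' t / G.N (j + 2))
        linarith
      · change _ ≤ Real.exp (-G.t ^ 19) * (G.d (j + 2) * R.aa G (j + 1) t * g' t / G.N (j + 2))
        linarith)
    i1 i2
  refine ⟨le_trans ?_ o1, o2⟩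
  have := (W c ⟨h1.trans (h2.trans h2c), le_rfl⟩).2.1
  gcongr

end

end Pool.Agent.Work.MP_6bf1e5_an.Ell
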