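import Pool.Agent.Work.MP_6bf1e5_an.Ell.Gap
import Pool.Agent.Work.MP_6bf1e5_an.Dec.Cone

/-!
The cone estimate and the second phase.
-/

open Set Complex Filter Topology
open scoped InnerProductSpace ComplexConjugate
open Pool.Agent.Work.MP_6bf1e5_an.B (Z3 R3)
open Pool.Agent.Work.MP_6bf1e5_an.Dec

namespace Pool.Agent.Work.MP_6bf1e5_an.Ell

noncomputable section

namespace Cn2

open Cn

lemma pph_le {T κ : ℝ} {r : N3} {mv : Fin 3 → ℝ} {p : V} (hp : Drv T r mv κ p) (n : N3) :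
    ‖p * ph n‖ ≤ 1 := (hp.norm_mul_le _).trans (norm_ph n).le

lemma dist_eq (n : N3) (p B C : V) (c : ℝ) :
    ‖B - (c : ℂ) • ph n‖ ^ 2 + ‖C - (c : ℂ) • (p * ph n)‖ ^ 2 =
      nr B C ^ 2 - 2 * c * al n p B C + c ^ 2 * (1 + ‖p * ph n‖ ^ 2) := by
  rw [normsq_sub, normsq_sub, nr_sq, al, norm_ph]
  ring

lemma real_g {α g s d X q x z y μ η G ε ω l : ℝ} (hα : 0 < α) (hs : 0 < s) (g0 : 0 ≤ g)
    (gG : g ≤ G) (hG : 1 ≤ G) (ε0 : 0 ≤ ε) (ω0 : 0 ≤ ω) (l0 : 0 ≤ l) (y0 : 0 ≤ y)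
    (k2 : 2 * ((2 * X - g * α ^ 2) * α + g * α ^ 2 * q) ≤
      α * (-(1 / 10 ^ 11 * μ) * (g * α ^ 2 - α ^ 2 / 2) + 10 ^ 13 * μ * (η + μ) * (G * α) ^ 2))
    (zle : z ≤ 2 * (G * α) * (ε * α)) (xle : |x| ≤ (2 * ε + G * (ω + 5 * l)) * α) :
    (2 * (2 * s * X - d * (g * α ^ 2) - y + z) * α ^ 2 -
      g * α ^ 2 * (2 * α * ((s - d) * α - s * q + x))) / (α ^ 2) ^ 2 ≤
      -(1 / 10 ^ 11 * s * μ) * (g - 1 / 2) + 10 ^ 13 * s * μ * (η + μ) * G ^ 2 +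
        10 * G ^ 2 * (ε + ω + l) := by
  rw [div_le_iff₀ (by positivity)]
  have a1 := mul_le_mul_of_nonneg_left k2 (mul_pos hs hα).le
  have a2 := mul_le_mul_of_nonneg_left zle (sq_nonneg α)
  have a3 : -(g * x) ≤ G * ((2 * ε + G * (ω + 5 * l)) * α) := by
    have := mul_le_mul gG xle (abs_nonneg _) (g0.trans gG)
    linarith [mul_le_mul_of_nonneg_left (neg_abs_le x) g0]
  have a4 := mul_le_mul_of_nonneg_left a3 (pow_pos hα 3).le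
  have G0 : 0 ≤ G := g0.trans gG
  have a5 : 0 ≤ G * (G - 1) * (ε * α ^ 4) := by have := sub_nonneg.2 hG; positivity
  have a6 : 0 ≤ G ^ 2 * (ε * α ^ 4) := by positivity
  have a7 : 0 ≤ G ^ 2 * (ω * α ^ 4) := by positivity
  have a8 : 0 ≤ y * α ^ 2 := by positivity
  linear_combination a1 + 2 * a2 + 2 * a4 + 8 * a5 + 2 * a6 + 8 * a7 + 2 * a8

lemma real_main {α E nb β Qt μ' μ η G R b ρ : ℝ} (hα : 0 < α) (hG : 1 ≤ G) (μ0 : 0 ≤ μ)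
    (η0 : 0 ≤ η) (μs : μ ≤ 1 / 10 ^ 6) (μ'0 : 0 ≤ μ') (μ'1 : μ' ≤ 200 * μ) (R0 : 0 ≤ R)
    (nb0 : 0 ≤ nb) (h1 : E ≤ G * α ^ 2) (h2 : nb ^ 2 ≤ E) (h3 : E ≤ 2 * nb ^ 2 + 2 * nb * R + R ^ 2)
    (h4 : 2 * β - α = μ' * β + b - ρ) (h5 : |ρ| ≤ R) (h6 : b ^ 2 ≤ η * μ * Qt)
    (h7 : 1 / 10 ^ 10 * μ * (nb ^ 2 - β ^ 2) ≤ Qt) (h8 : |β| ≤ nb)
    (h9 : E - α ^ 2 / 2 ≤ 3 * (nb ^ 2 - β ^ 2) + 2 * R ^ 2 + (100 + η / 2) * μ * α ^ 2) :
    2 * (-(μ' * nb ^ 2 + Qt + R ^ 2) * α + E * (μ' * β + b)) ≤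
      α * (-(1 / 10 ^ 11 * μ) * (E - α ^ 2 / 2) + 10 ^ 13 * μ * (η + μ) * (G * α) ^ 2) := by
  obtain ⟨A, hA⟩ : ∃ A, A = G * α := ⟨_, rfl⟩
  rw [← hA]
  have αA : α ≤ A := hA ▸ le_mul_of_one_le_left hα.le hG
  have A0 : 0 ≤ A := by linarith
  have EA : E ≤ α * A := by rw [hA]; linarith
  have E0 : 0 ≤ E := (sq_nonneg _).trans h2
  have nA : nb ≤ A :=
    (pow_le_pow_iff_left₀ nb0 A0 two_ne_zero).mp (by linarith [mul_le_mul_of_nonneg_right αA A0])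
  have w0 : 0 ≤ nb ^ 2 - β ^ 2 := by
    linarith [sq_abs β, pow_le_pow_left₀ (abs_nonneg β) h8 2]
  have Q0 : 0 ≤ Qt := le_trans (by positivity) h7
  have b0 := abs_nonneg b
  have q1 : μ' * β + b ≤ 200 * μ * A + |b| := by
    have : μ' * β ≤ 200 * μ * A := (mul_le_mul_of_nonneg_left ((le_abs_self β).trans (h8.trans nA))
      μ'0).trans (mul_le_mul_of_nonneg_right μ'1 A0)
    linarith [le_abs_self b]
  have t1 : E * β - nb ^ 2 * α ≤ α * (3 / 2 * A * R + R ^ 2 / 2 + A * (200 * μ * A + |b|) / 2) := by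
    have e1 : E * (μ' * β + b - ρ) ≤ α * A * (200 * μ * A + |b| + R) :=
      (mul_le_mul_of_nonneg_left (by linarith [neg_abs_le ρ]) E0).trans
        (mul_le_mul_of_nonneg_right EA (by positivity))
    have e2 : α * (E / 2 - nb ^ 2) ≤ α * (A * R + R ^ 2 / 2) :=
      mul_le_mul_of_nonneg_left (by linarith [mul_le_mul_of_nonneg_right nA R0]) hα.le
    rw [← h4] at e1
    linarith
  have t2 : μ' * (E * β - nb ^ 2 * α) ≤
      200 * μ * (α * (3 / 2 * A * R + R ^ 2 / 2 + A * (200 * μ * A + |b|) / 2)) :=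
    (mul_le_mul_of_nonneg_left t1 μ'0).trans (mul_le_mul_of_nonneg_right μ'1 (by positivity))
  have t3 : E * b ≤ α * (A * |b|) := by
    rw [← mul_assoc]
    exact (mul_le_mul_of_nonneg_left (le_abs_self b) E0).trans (mul_le_mul_of_nonneg_right EA b0)
  have t4 : 101 / 100 * (A * |b|) ≤ Qt / 2 + 52 / 100 * (η * μ * A ^ 2) := by
    refine sqle ?_ (by positivity)
    have e1 : A ^ 2 * b ^ 2 ≤ A ^ 2 * (η * μ * Qt) := mul_le_mul_of_nonneg_left h6 (sq_nonneg _)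
    have e2 : 0 ≤ A ^ 2 * (η * μ * Qt) := by positivity
    rw [mul_pow, mul_pow, sq_abs]
    linarith [sq_nonneg (Qt / 2 - 52 / 100 * (η * μ * A ^ 2))]
  have t5 : 200 * μ * (3 / 2 * A * R + R ^ 2 / 2 + A * (200 * μ * A + |b|) / 2) + A * |b| ≤
      Qt / 2 + 26 / 100 * R ^ 2 + 110000 * (μ * A) ^ 2 + 52 / 100 * (η * μ * A ^ 2) := by
    have e1 : μ * R ^ 2 ≤ 1 / 10 ^ 6 * R ^ 2 := mul_le_mul_of_nonneg_right μs (sq_nonneg _)
    have e2 : μ * (A * |b|) ≤ 1 / 10 ^ 6 * (A * |b|) :=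
      mul_le_mul_of_nonneg_right μs (by positivity)
    have e3 : 0 ≤ A * |b| := by positivity
    linarith [sq_nonneg (R / 2 - 300 * (μ * A)), sq_nonneg R]
  have t6 : -(μ' * nb ^ 2 + Qt + R ^ 2) * α + E * (μ' * β + b) ≤
      α * (-(Qt / 2 + 74 / 100 * R ^ 2) + (110000 * (μ * A) ^ 2 + 52 / 100 * (η * μ * A ^ 2))) := by
    have := mul_le_mul_of_nonneg_left t5 hα.le
    linarith
  have t7 : 2 * (-(Qt / 2 + 74 / 100 * R ^ 2) +
      (110000 * (μ * A) ^ 2 + 52 / 100 * (η * μ * A ^ 2))) ≤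
      -(1 / 10 ^ 11 * μ) * (E - α ^ 2 / 2) + 10 ^ 13 * μ * (η + μ) * A ^ 2 := by
    have e3 := mul_le_mul_of_nonneg_left h9 μ0
    have e4 : μ * R ^ 2 ≤ 1 / 10 ^ 6 * R ^ 2 := mul_le_mul_of_nonneg_right μs (sq_nonneg _)
    have e5 : α ^ 2 ≤ A ^ 2 := pow_le_pow_left₀ hα.le αA 2
    have e6 : μ ^ 2 * α ^ 2 ≤ μ ^ 2 * A ^ 2 := mul_le_mul_of_nonneg_left e5 (sq_nonneg _)
    have e7 : μ * (η * μ * α ^ 2) ≤ 1 / 10 ^ 6 * (η * μ * A ^ 2) :=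
      mul_le_mul μs (mul_le_mul_of_nonneg_left e5 (by positivity)) (by positivity) (by positivity)
    have e8 : 0 ≤ η * μ * A ^ 2 := by positivity
    have e9 : 0 ≤ μ ^ 2 * A ^ 2 := by positivity
    linarith [sq_nonneg R]
  have := mul_le_mul_of_nonneg_left t7 hα.le
  linarith

/-- The static part of the cone estimate. -/
lemma static {T κ μ η G : ℝ} {r n : N3} {mv : Fin 3 → ℝ} {p B C : V} (hp : Drv T r mv κ p)
    (hg : Gap n μ η p) (μ0 : 0 ≤ μ) (η0 : 0 ≤ η) (sB : Sp n B) (sy : Rl B) (hG : 1 ≤ G)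
    (μs : μ ≤ 1 / 10 ^ 6) {α E q : ℝ} (hα : α = al n p B C)
    (hE : E = nr B C ^ 2) (hq : q = (⟪ph n, B⟫_ℂ).re - (⟪p * ph n, p * B⟫_ℂ).re)
    (pos : 0 < α) (le : E ≤ G * α ^ 2) :
      2 * ((2 * (⟪p * B, C⟫_ℂ).re - E) * α + E * q) ≤
        α * (-(1 / 10 ^ 11 * μ) * (E - α ^ 2 / 2) + 10 ^ 13 * μ * (η + μ) * (G * α) ^ 2) := by
  obtain ⟨μ', μ'0, μ'1, gφ, gap⟩ := hg
  obtain ⟨β, hβ⟩ : ∃ β, β = (⟪ph n, B⟫_ℂ).re := ⟨_, rfl⟩
  have β2 : ‖⟪ph n, B⟫_ℂ‖ ^ 2 = β ^ 2 := by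
    rw [Complex.sq_norm, normSq_apply, (rl_ph n).inner_im sy, hβ]; ring
  have βle : |β| ≤ ‖B‖ := by simpa [norm_ph, hβ] using abs_re_le (ph n) B
  have expand : ∀ c : ℝ, Qf p (B - (c : ℂ) • ph n) = Qf p B - 2 * c * q + c ^ 2 * Qf p (ph n) := by
    intro c
    simp only [Qf]
    rw [mul_sub, mul_smul_comm, normsq_sub, normsq_sub, hq]
    ring
  have Qn : ∀ y, 0 ≤ Qf p y := fun y =>
    sub_nonneg.mpr (pow_le_pow_left₀ (norm_nonneg _) (hp.norm_mul_le y) 2)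
  have Qφ : Qf p (ph n) = 1 - ‖p * ph n‖ ^ 2 := by rw [Qf, norm_ph, one_pow]
  have BE : ‖B‖ ^ 2 ≤ E := by rw [hE, nr_sq]; linarith [sq_nonneg ‖C‖]
  have b2 : (q - μ' * β) ^ 2 ≤ η * μ * (Qf p B - μ' * ‖B‖ ^ 2) := by
    have := discrim_le_zero (a := η * μ) (b := -(2 * (q - μ' * β)))
      (c := Qf p B - μ' * ‖B‖ ^ 2) fun c => by
      have h1 := gap _ (sB.sub ((sp_ph n).smul (c : ℂ)))
      have h2 : ‖⟪ph n, B - (c : ℂ) • ph n⟫_ℂ‖ ≤ ‖B - (c : ℂ) • ph n‖ := by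
        simpa only [norm_ph, one_mul] using
          norm_inner_le_norm (𝕜 := ℂ) (ph n) (B - (c : ℂ) • ph n)
      have h3 := mul_nonneg μ0 (sub_nonneg.mpr (pow_le_pow_left₀ (norm_nonneg _) h2 2))
      have h4 := mul_le_mul_of_nonneg_left gφ (sq_nonneg c)
      have h5 : μ' * ‖B - (c : ℂ) • ph n‖ ^ 2 ≤ Qf p (B - (c : ℂ) • ph n) := by linarith
      rw [expand, normsq_sub, norm_ph, ← hβ] at h5
      linarith
    rw [discrim] at this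
    linarith
  obtain ⟨Rv, hRv⟩ : ∃ Rv, Rv = C - p * B := ⟨_, rfl⟩
  have eP : C = p * B + Rv := by rw [hRv]; abel
  have pB := hp.norm_mul_le B
  have pφ : ‖p * ph n‖ ≤ 1 := pph_le hp n
  have en : 2 * (⟪p * B, C⟫_ℂ).re - E = -(Qf p B + ‖Rv‖ ^ 2) := by
    have := normsq_sub (p * B) C 1
    rw [ofReal_one, one_smul] at this
    rw [hRv, this, hE, nr_sq, Qf]
    ring
  have h3 : E ≤ 2 * ‖B‖ ^ 2 + 2 * ‖B‖ * ‖Rv‖ + ‖Rv‖ ^ 2 := by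
    have a1 : ‖C‖ ≤ ‖B‖ + ‖Rv‖ := by
      rw [eP]
      exact (norm_add_le _ _).trans (by rw [← eP] at *; linarith)
    have a3 := pow_le_pow_left₀ (norm_nonneg _) a1 2
    rw [hE, nr_sq]
    linarith
  have h4 : 2 * β - α = μ' * β + (q - μ' * β) - (⟪p * ph n, Rv⟫_ℂ).re := by
    rw [hα, al, hq, ← hβ]
    conv_lhs => rw [eP]
    simp only [inner_add_right, add_re]
    ring
  have h5 : |(⟪p * ph n, Rv⟫_ℂ).re| ≤ ‖Rv‖ :=
    (abs_re_le _ _).trans (mul_le_of_le_one_left (norm_nonneg _) pφ)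
  have h7 := gap B sB
  rw [β2] at h7
  have h9 : E - α ^ 2 / 2 ≤ 3 * (‖B‖ ^ 2 - β ^ 2) + 2 * ‖Rv‖ ^ 2 + (100 + η / 2) * μ * α ^ 2 := by
    have a0 := dist_eq n p B C β
    obtain ⟨w, hw⟩ : ∃ w, w = B - (β : ℂ) • ph n := ⟨_, rfl⟩
    have w2 : ‖w‖ ^ 2 = ‖B‖ ^ 2 - β ^ 2 := by rw [hw, normsq_sub, norm_ph, ← hβ]; ring
    have a1 : ‖C - (β : ℂ) • (p * ph n)‖ ^ 2 ≤ 2 * ‖w‖ ^ 2 + 2 * ‖Rv‖ ^ 2 := by
      have : C - (β : ℂ) • (p * ph n) = p * w + Rv := by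
        rw [hRv, hw, mul_sub, mul_smul_comm]
        abel
      rw [this]
      have b1 : ‖p * w + Rv‖ ≤ ‖w‖ + ‖Rv‖ :=
        (norm_add_le _ _).trans (by linarith [hp.norm_mul_le w])
      have b2 := pow_le_pow_left₀ (norm_nonneg _) b1 2
      linarith [add_sq_le' ‖w‖ ‖Rv‖]
    rw [← hw, ← hα, ← hE] at a0
    have a4 : 0 ≤ ‖p * ph n‖ ^ 2 * (β - α / 2) ^ 2 := by positivity
    have a5 := mul_nonneg (Qn (ph n)) (sq_nonneg (α - β))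
    have a6 := mul_le_mul_of_nonneg_right (gφ.trans (add_le_add_left μ'1 _)) (sq_nonneg α)
    rw [Qφ] at a5 a6
    linarith
  have := real_main pos hG μ0 η0 μs μ'0 μ'1 (norm_nonneg Rv) (norm_nonneg B) le BE h3 h4 h5 b2
    (by linarith) βle h9
  rw [en]
  convert this using 3 <;> ring

lemma re_inner_mulr (v : Z3 → ℝ) (f g : V) :
    (⟪f, mulr v g⟫_ℂ).re = (⟪mulr v f, g⟫_ℂ).re := by
  rw [mulr, inner_mulc_left]
  simp only [conj_ofReal]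

lemma mu_le {T : ℝ} (hT : (10 : ℝ) ^ 100 ≤ T) : mu T ≤ 4 / T ^ 34 := by
  have T0 : 0 < T := lt_of_lt_of_le (by positivity) hT
  rw [mu, div_pow, div_le_div_iff₀ (by positivity) (by positivity)]
  have h1 : Real.pi ^ 2 ≤ 16 := by nlinarith [Real.pi_le_four, Real.pi_pos]
  have h2 := mul_le_mul_of_nonneg_right h1 (by positivity : 0 ≤ T ^ 34)
  linarith

lemma le_mu {T : ℝ} (hT : (10 : ℝ) ^ 100 ≤ T) : 2 / T ^ 34 ≤ mu T := by
  have T0 : 0 < T := lt_of_lt_of_le (by positivity) hT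
  rw [mu, div_pow, div_le_div_iff₀ (by positivity) (by positivity)]
  have h1 : 9 ≤ Real.pi ^ 2 := by nlinarith [Real.pi_gt_three]
  have h2 := mul_le_mul_of_nonneg_right h1 (by positivity : 0 ≤ T ^ 34)
  have h3 : 0 ≤ T ^ 34 := by positivity
  linarith

lemma layer_le {T κ l : ℝ} {r n : N3} {mv : Fin 3 → ℝ} {vc : Z3 → ℝ} {p : V}
    (hT : (10 : ℝ) ^ 100 ≤ T) (hp : Drv T r mv κ p) (hn : ∀ i, (n i : ℝ) + 1 = T ^ 17 * r i)
    (lc : Lay (fun i => n i + 2 * r i) l vc) : ‖mulr vc (p * ph n)‖ ≤ 4 * l := by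
  have sp : Sp (fun i => n i + 2 * r i) (p * ph n) :=
    (hp.supp.mul (sp_ph n)).mono fun i => by simp [add_comm]
  have h1 := lc.norm_le sp (norm_coeff_mul_le_l1 p (norm_coeff_ph_le n))
  have T1 : (10 : ℝ) ≤ T ^ 17 :=
    le_trans (le_trans (by norm_num) hT) (le_self_pow₀ (le_trans (by norm_num) hT) (by norm_num))
  have h2 : Nn (fun i => n i + 2 * r i) ≤ (11 / 10) ^ 3 * Nn n := Nn_le (by norm_num) fun i => by
    have a1 := hn i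
    have a2 : (10 : ℝ) * r i ≤ T ^ 17 * r i := mul_le_mul_of_nonneg_right T1 (Nat.cast_nonneg _)
    have a3 : (0 : ℝ) ≤ n i := Nat.cast_nonneg _
    push_cast
    linarith
  have N0 := Nn_pos n
  have l0 := lc.l0
  refine h1.trans ?_
  calc _ ≤ l * ((11 / 10) ^ 3 * Nn n) * (2 * (Nn n)⁻¹) := by
        have := hp.l1_le
        have := l1_nonneg p
        gcongr
    _ = l * (2 * (11 / 10) ^ 3) := by field_simp
    _ ≤ 4 * l := by linarith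

end Cn2

open Cn Cn2

lemma abs_al_le {T κ : ℝ} {r : N3} {mv : Fin 3 → ℝ} {p : V} (hp : Drv T r mv κ p) (n : N3)
    (b c : V) : al n p b c ^ 2 ≤ 2 * nr b c ^ 2 := by
  have h := Cn2.dist_eq n p b c (al n p b c / 2)
  have h1 : ‖p * ph n‖ ^ 2 ≤ 1 := pow_le_one₀ (norm_nonneg _) (pph_le hp n)
  have h2 := mul_le_mul_of_nonneg_left h1 (sq_nonneg (al n p b c / 2))
  have h3 : 0 ≤ nr b c ^ 2 - 2 * (al n p b c / 2) * al n p b c +
      (al n p b c / 2) ^ 2 * (1 + ‖p * ph n‖ ^ 2) := by rw [← h]; positivity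
  linarith

lemma cone_close {T κ : ℝ} {r n : N3} {mv : Fin 3 → ℝ} {p b c : V} (hp : Drv T r mv κ p) {γ : ℝ}
    (h : nr b c ^ 2 ≤ (1 / 2 + γ) * al n p b c ^ 2) :
    ‖b - ((al n p b c / 2 : ℝ) : ℂ) • ph n‖ ^ 2 ≤ γ * al n p b c ^ 2 ∧
      ‖c - ((al n p b c / 2 : ℝ) : ℂ) • (p * ph n)‖ ^ 2 ≤ γ * al n p b c ^ 2 := by
  have h0 := Cn2.dist_eq n p b c (al n p b c / 2)
  have h1 : ‖p * ph n‖ ^ 2 ≤ 1 := pow_le_one₀ (norm_nonneg _) (pph_le hp n)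
  have h2 := mul_le_mul_of_nonneg_left h1 (sq_nonneg (al n p b c / 2))
  have a1 := sq_nonneg ‖b - ((al n p b c / 2 : ℝ) : ℂ) • ph n‖
  have a2 := sq_nonneg ‖c - ((al n p b c / 2 : ℝ) : ℂ) • (p * ph n)‖
  constructor <;> linarith

/-- A pair driven by `s • p`, damped by `d` and by layers of size `l`, with errors `e0`, `e1`. -/
structure Pair (r n : N3) (l d s t : ℝ) (vb vc : Z3 → ℝ) (p : V) (b c : ℝ → V) (e0 e1 : V) :
    Prop where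
  eb : HD b ((s : ℂ) • pj n (dag p * c t) - (d : ℂ) • b t - mulr vb (b t) + e0) t
  ec : HD c ((s : ℂ) • (p * b t) - (d : ℂ) • c t - mulr vc (c t) + e1) t
  lb : Lay n l vb
  lc : Lay (fun i => n i + 2 * r i) l vc
  sb : ∀ t, Sp n (b t)
  sc : ∀ t, Sp (fun i => n i + 2 * r i) (c t)

lemma hd_nr_sq {B C : ℝ → V} {B' C' : V} {t : ℝ} (dB : HD B B' t) (dC : HD C C' t) :
    HD (fun t => nr (B t) (C t) ^ 2) (2 * ((⟪B t, B'⟫_ℂ).re + (⟪C t, C'⟫_ℂ).re)) t := by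
  simp only [nr_sq]
  convert dB.normsq.fun_add dC.normsq using 1
  ring

lemma hd_al (n : N3) {p B C : ℝ → V} {p' B' C' : V} {t : ℝ} (dp : HD p p' t) (dB : HD B B' t)
    (dC : HD C C' t) : ∃ D, HD (fun t => al n (p t) (B t) (C t)) D t :=
  ⟨_, (HD.re_inner (hasDerivWithinAt_const t _ (ph n)) dB).fun_add
    ((dp.mul_const' _).re_inner dC)⟩

theorem cone_step {T κ s d l g ε ω t : ℝ} {r n : N3} {mv : Fin 3 → ℝ} {vb vc : Z3 → ℝ}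
    {p b c : ℝ → V} {p' e0 e1 : V} (hT : (10 : ℝ) ^ 100 ≤ T) (hp : Drv T r mv κ (p t))
    (hκ : κ ≤ 10 ^ 5 / T ^ 4) (hn : ∀ i, (n i : ℝ) + 1 = T ^ 17 * r i) (dp : HD p p' t)
    (hω : ‖p' * ph n‖ ≤ ω) (P : Pair r n l d s t vb vc (p t) b c e0 e1) (rb : Rl (b t))
    (hs : 0 < s) (pos : 0 < al n (p t) (b t) (c t)) (h0 : ‖e0‖ ≤ ε * al n (p t) (b t) (c t))
    (h1 : ‖e1‖ ≤ ε * al n (p t) (b t) (c t)) (g1 : 1 ≤ g) (g2 : g ≤ T ^ 4)
    (le : nr (b t) (c t) ^ 2 ≤ g * al n (p t) (b t) (c t) ^ 2) :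
    (∃ D, HD (fun t => al n (p t) (b t) (c t)) D t ∧
      (s - d - (√g * (s / T ^ 25 + ω + 5 * l) + 2 * ε)) * al n (p t) (b t) (c t) ≤ D) ∧
    ∃ D, HD (fun t => nr (b t) (c t) ^ 2 / al n (p t) (b t) (c t) ^ 2) D t ∧
      D ≤ -(1 / 10 ^ 11 * s * mu T) *
          (nr (b t) (c t) ^ 2 / al n (p t) (b t) (c t) ^ 2 - 1 / 2) +
        10 ^ 13 * s * mu T * (10 ^ 25 / T ^ 4 + mu T) * g ^ 2 + 10 * g ^ 2 * (ε + ω + l) := by
  have T0 : 0 < T := lt_of_lt_of_le (by positivity) hT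
  have dα : HD (fun t => al n (p t) (b t) (c t)) _ t :=
    (HD.re_inner (hasDerivWithinAt_const t _ (ph n)) P.eb).fun_add
      ((dp.mul_const' _).re_inner P.ec)
  have dE := hd_nr_sq P.eb P.ec
  obtain ⟨α, hα⟩ : ∃ α, α = al n (p t) (b t) (c t) := ⟨_, rfl⟩
  obtain ⟨E, hE'⟩ : ∃ E, E = nr (b t) (c t) ^ 2 := ⟨_, rfl⟩
  obtain ⟨q, hq⟩ : ∃ q, q = (⟪ph n, b t⟫_ℂ).re - (⟪p t * ph n, p t * b t⟫_ℂ).re := ⟨_, rfl⟩
  rw [← hα] at pos h0 h1 le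
  rw [← hE'] at le
  have μs : mu T ≤ 1 / 10 ^ 6 := by
    refine (mu_le hT).trans ?_
    rw [div_le_div_iff₀ (by positivity) (by positivity)]
    have : T ≤ T ^ 34 := le_self_pow₀ (le_trans (by norm_num) hT) (by norm_num)
    have : (10 : ℝ) ^ 7 ≤ 10 ^ 100 := by norm_num
    linarith
  have k2 := static hp (gap_of_drv hp hT hκ hn) (sq_nonneg _) (by positivity) (P.sb t) rb g1 μs
    hα hE' hq pos le
  have ε0 : 0 ≤ ε := nonneg_of_mul_nonneg_left ((norm_nonneg _).trans h1) pos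
  have ω0 : 0 ≤ ω := (norm_nonneg _).trans hω
  have l0 : 0 ≤ l := P.lb.l0
  have G0 : 0 ≤ g := by linarith
  have sG : √g ≤ g := Real.sqrt_le_self_iff.mpr (Or.inr g1)
  have pφ : ‖p t * ph n‖ ≤ 1 := pph_le hp n
  have nE : nr (b t) (c t) ≤ √g * α := by
    refine sqle ?_ (by positivity)
    rw [mul_pow, Real.sq_sqrt G0, ← hE']; exact le
  have nb : ‖b t‖ ≤ √g * α := (le_nr_1 _ _).trans nE
  have nc : ‖c t‖ ≤ √g * α := (le_nr_2 _ _).trans nE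
  have k1 : |q| ≤ (T ^ 25)⁻¹ * (√g * α) := by
    have e : q = (⟪ph n - dag (p t) * (p t * ph n), b t⟫_ℂ).re := by
      rw [hq, inner_sub_left, sub_re, inner_mul_right]
    rw [e]
    exact (abs_re_le _ _).trans (mul_le_mul (hp.kink hT hn) nb (norm_nonneg _) (by positivity))
  obtain ⟨x, hx⟩ : ∃ x, x = (⟪ph n, e0⟫_ℂ).re + (⟪p t * ph n, e1⟫_ℂ).re +
    ((⟪p' * ph n, c t⟫_ℂ).re - ((⟪mulr vb (ph n), b t⟫_ℂ).re +
      (⟪mulr vc (p t * ph n), c t⟫_ℂ).re)) := ⟨_, rfl⟩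
  obtain ⟨z, hz⟩ : ∃ z, z = (⟪b t, e0⟫_ℂ).re + (⟪c t, e1⟫_ℂ).re := ⟨_, rfl⟩
  obtain ⟨y, hy⟩ : ∃ y, y = (⟪b t, mulr vb (b t)⟫_ℂ).re + (⟪c t, mulr vc (c t)⟫_ℂ).re := ⟨_, rfl⟩
  have y0 : 0 ≤ y := by rw [hy]; exact add_nonneg (P.lb.re_inner _) (P.lc.re_inner _)
  have xle : |x| ≤ (2 * ε + √g * (ω + 5 * l)) * α := by
    have a1 : |(⟪ph n, e0⟫_ℂ).re| ≤ ε * α :=
      (abs_re_le _ _).trans (by rw [norm_ph, one_mul]; exact h0)
    have a2 : |(⟪p t * ph n, e1⟫_ℂ).re| ≤ ε * α :=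
      (abs_re_le _ _).trans ((mul_le_of_le_one_left (norm_nonneg _) pφ).trans h1)
    have a3 : |(⟪p' * ph n, c t⟫_ℂ).re| ≤ ω * (√g * α) :=
      (abs_re_le _ _).trans (mul_le_mul hω nc (norm_nonneg _) ω0)
    have a4 : ‖mulr vb (ph n)‖ ≤ l := by
      have := P.lb.norm_le (sp_ph n) (norm_coeff_ph_le n)
      rwa [mul_assoc, mul_inv_cancel₀ (Nn_pos n).ne', mul_one] at this
    have a5 : |(⟪mulr vb (ph n), b t⟫_ℂ).re| ≤ l * (√g * α) :=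
      (abs_re_le _ _).trans (mul_le_mul a4 nb (norm_nonneg _) l0)
    have a6 : |(⟪mulr vc (p t * ph n), c t⟫_ℂ).re| ≤ 4 * l * (√g * α) :=
      (abs_re_le _ _).trans (mul_le_mul (layer_le hT hp hn P.lc) nc (norm_nonneg _) (by positivity))
    rw [hx]
    rw [abs_le] at a1 a2 a3 a5 a6 ⊢
    constructor <;> linarith [a1.1, a1.2, a2.1, a2.2, a3.1, a3.2, a5.1, a5.2, a6.1, a6.2]
  have zle : z ≤ 2 * (g * α) * (ε * α) := by
    have a0 : √g * α ≤ g * α := mul_le_mul_of_nonneg_right sG pos.le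
    have a1 := (le_abs_self _).trans ((abs_re_le (b t) e0).trans
      (mul_le_mul (nb.trans a0) h0 (norm_nonneg _) (by positivity)))
    have a2 := (le_abs_self _).trans ((abs_re_le (c t) e1).trans
      (mul_le_mul (nc.trans a0) h1 (norm_nonneg _) (by positivity)))
    rw [hz]
    linarith
  obtain ⟨X, hX⟩ : ∃ X, X = (⟪p t * b t, c t⟫_ℂ).re := ⟨_, rfl⟩
  rw [← hX] at k2
  replace dα : HD (fun t => al n (p t) (b t) (c t)) ((s - d) * α - s * q + x) t := by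
    convert dα using 1
    rw [hα, hq, hx, al]
    simp only [inner_add_right, inner_sub_right, add_re, sub_re, re_smul_right, (sp_ph n).inner_pj,
      inner_zero_left, zero_re, inner_mul_right (dag (p t)) (ph n), dag_dag, re_inner_mulr]
    ring
  replace dE : HD (fun t => nr (b t) (c t) ^ 2) (2 * (2 * s * X - d * E - y + z)) t := by
    convert dE using 2
    have e1 : ∀ u : V, (⟪u, u⟫_ℂ).re = ‖u‖ ^ 2 := fun u => by
      simpa using inner_self_eq_norm_sq (𝕜 := ℂ) u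
    rw [hX, hz, hy, hE', nr_sq]
    simp only [inner_add_right, inner_sub_right, add_re, sub_re, re_smul_right, (P.sb t).inner_pj,
      inner_mul_right (dag (p t)) (b t), dag_dag, re_comm (c t) (p t * b t), e1]
    ring
  refine ⟨⟨_, dα, ?_⟩, (2 * (2 * s * X - d * E - y + z) * α ^ 2 -
    E * (2 * α * ((s - d) * α - s * q + x))) / (α ^ 2) ^ 2, ?_, ?_⟩
  · rw [← hα]
    have a1 := mul_le_mul_of_nonneg_left ((le_abs_self q).trans k1) hs.le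
    have a2 := (abs_le.1 xle).1
    rw [div_eq_mul_inv s]
    linarith
  · convert dE.fun_div (dα.fun_pow 2) (by rw [← hα]; exact (pow_pos pos 2).ne') using 1
    rw [← hα, ← hE']
    norm_num
  · rw [← hα, ← hE']
    have a6 : E / α ^ 2 * α ^ 2 = E := div_mul_cancel₀ _ (pow_pos pos 2).ne'
    have E0 : 0 ≤ E := by rw [hE']; positivity
    have g0 : 0 ≤ E / α ^ 2 := by positivity
    have gG : E / α ^ 2 ≤ g := by rwa [div_le_iff₀ (pow_pos pos 2)]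
    obtain ⟨u, hu⟩ : ∃ u, u = E / α ^ 2 := ⟨_, rfl⟩
    rw [← hu] at a6 g0 gG ⊢
    rw [← a6] at k2 ⊢
    refine Cn2.real_g pos hs g0 gG g1 ε0 ω0 l0 y0 k2 zle (xle.trans ?_)
    gcongr

end

end Pool.Agent.Work.MP_6bf1e5_an.Ell
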