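import Pool.Agent.Work.MP_6bf1e5_an.Ell.CrudeB

/-!
The crude description of a stage.
-/

open Set Complex Filter Topology
open scoped InnerProductSpace ComplexConjugate
open Pool.Agent.Work.MP_6bf1e5_an.B (Z3 R3)
open Pool.Agent.Work.MP_6bf1e5_an.Dec

namespace Pool.Agent.Work.MP_6bf1e5_an.Ell

noncomputable section

/-- The barrier functions of stage `J`. -/
def cr_FF (G : Geo) (R : Raw) (J : ℕ) (AA : ℕ → ℝ) (t0 g0 : ℝ) (k : Fin 7 × Fin 4) (i : ℕ) : ℝ → ℝ :=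
  ![fun t => ‖R.b i k.2 t - ((AA i * R.un G i : ℝ) : ℂ) • G.φ i‖ ^ 2 -
      (1 / 10 ^ 20 * cr_ww (J - i) t0 (G.Δ J) t * R.un G i) ^ 2,
    fun t => ‖R.c i k.2 t‖ ^ 2 - (30 * cr_ww (J - i) t0 (G.Δ J) t * R.un G i) ^ 2,
    fun t => R.nc G i t - 30 * cr_ww (J - i) t0 (G.Δ J) t * R.bh G i,
    fun t => R.lev J t - cr_Lc G R J t0 (AA J) g0 t,
    fun t => R.nc G J t - Ex t0 (AA J) g0 t * R.bh G J,
    fun t => R.nc G i t - G.θ ^ (i - J) * (G.xs * Ex t0 (AA J) g0 t * R.bh G (J + 1)),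
    fun t => G.Wc * R.nl G i t -
      G.θ ^ (i - J - 1) * (G.xs * Ex t0 (AA J) g0 t * R.bh G (J + 1))] k.1

/-- The range of the indices of the barrier functions. -/
def cr_PP (J : ℕ) (k : Fin 7 × Fin 4) (i : ℕ) : Prop :=
  ![i < J, i < J, i < J, i = 0, i = 0, J + 1 ≤ i, J + 2 ≤ i] k.1

variable {G : Geo} {R : Raw} {J : ℕ} {t0 g0 : ℝ} {AA : ℕ → ℝ}

lemma cr_le_of_sq_le_sq' {a b : ℝ} (h : a ^ 2 ≤ b ^ 2) (hb : 0 ≤ b) : a ≤ b :=
  le_trans (le_abs_self a) (abs_le_of_sq_le_sq h hb)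

lemma IsNet.cr_cont_nl (H : IsNet G R) (i : ℕ) : ContinuousOn (R.nl G i) (Ici 0) :=
  (H.cont_lev i).const_mul (G.N i)

lemma IsNet.cr_cont_nc (H : IsNet G R) (i : ℕ) : ContinuousOn (R.nc G i) (Ici 0) :=
  ((H.cont_ch i).const_mul G.Wc).const_mul (G.N i)

lemma cr_cont_FF (H : IsNet G R) (k : Fin 7 × Fin 4) (i : ℕ) :
    ContinuousOn (cr_FF G R J AA t0 g0 k i) (Ici 0) := by
  obtain ⟨k, o⟩ := k
  have hw := (cr_cont_ww (J - i) t0 (G.Δ J)).continuousOn (s := Ici 0)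
  have hE := (cr_cont_Ex t0 (AA J) g0).continuousOn (s := Ici 0)
  fin_cases k
  · exact (((H.cont_b i o).sub continuousOn_const).norm.pow 2).sub
      (((hw.const_mul _).mul_const _).pow 2)
  · exact ((H.cont_c i o).norm.pow 2).sub (((hw.const_mul _).mul_const _).pow 2)
  · exact (H.cr_cont_nc i).sub ((hw.const_mul _).mul_const _)
  · exact (H.cont_lev J).sub (((hE.mul_const _).const_mul 3).mul (cr_cont_Ex _ _ _).continuousOn)
  · exact (H.cr_cont_nc J).sub (hE.mul_const _)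
  · exact (H.cr_cont_nc i).sub (((hE.const_mul _).mul_const _).const_mul _)
  · exact ((H.cr_cont_nl i).const_mul _).sub (((hE.const_mul _).mul_const _).const_mul _)

lemma St.cr_lev_le (H : IsNet G R) (S : St G R J t0 AA) : R.lev J t0 ≤ 3 * (AA J * R.un G J) := by
  have hu := H.un_pos J
  have hA : 0 < AA J := G.xs_pos.trans_le S.curA.1
  have ha : 0 < AA J * R.un G J := by positivity
  have h2 : ‖((AA J * R.un G J : ℝ) : ℂ) • G.φ J‖ = AA J * R.un G J := by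
    rw [norm_smul, G.norm_φ, mul_one, Complex.norm_real, Real.norm_of_nonneg ha.le]
  have h3 : ∀ f : V, ‖f - ((AA J * R.un G J : ℝ) : ℂ) • G.φ J‖ ≤ 1 / 10 ^ 30 * (AA J * R.un G J) →
      ‖f‖ ^ 2 ≤ 9 / 8 * (AA J * R.un G J) ^ 2 := fun f hf => by
    have a1 := norm_le_insert' f (((AA J * R.un G J : ℝ) : ℂ) • G.φ J)
    have a2 : ‖f‖ ≤ 101 / 100 * (AA J * R.un G J) := by linarith
    have a3 := pow_le_pow_left₀ (norm_nonneg _) a2 2
    nlinarith
  refine cr_le_of_sq_le_sq' ?_ (by positivity)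
  rw [R.lev_sq, Fin.sum_univ_four]
  linarith [h3 _ (S.curb 0), h3 _ (S.curb 1), h3 _ (S.curb 2), h3 _ (S.curb 3),
    h3 _ (S.curc 0), h3 _ (S.curc 1), h3 _ (S.curc 2), h3 _ (S.curc 3)]

lemma St.cr_up_init (H : IsNet G R) (S : St G R J t0 AA) :
    20 * G.θ * G.xs * R.bh G J ≤ G.xs * AA J * R.bh G (J + 1) := by
  have hb := H.bh_pos J
  have hx := G.xs_pos
  have hT := G.t_pos
  have h1 : 20 * G.θ ≤ G.xs * G.t ^ 21 := by
    have := G.pow_lt (a := 30) (b := 31) (by norm_num)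
    have := pow_pos hT 30
    rw [Geo.θ, Geo.xs, ← div_eq_mul_inv, div_le_iff₀ (by positivity), mul_assoc,
      le_inv_mul_iff₀ (by positivity), ← pow_add, show 21 + 10 = 31 from rfl]
    linarith
  rw [H.bh_succ]
  calc 20 * G.θ * G.xs * R.bh G J ≤ G.xs * G.t ^ 21 * G.xs * R.bh G J := by gcongr
    _ = G.xs * G.xs * (G.t ^ 21 * R.bh G J) := by ring
    _ ≤ _ := by gcongr; exact S.curA.1

lemma Geo.cr_θ_le (G : Geo) : 20 * G.θ ≤ 1 := by
  have := G.pow_lt (a := 0) (b := 10) (by norm_num)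
  have hT := G.t_pos
  rw [pow_zero] at this
  rw [Geo.θ, ← div_eq_mul_inv, div_le_one (by positivity)]
  linarith

lemma St.cr_nw_init (H : IsNet G R) (S : St G R J t0 AA) :
    R.nl G (J + 1) t0 ≤ G.xs * AA J * R.bh G (J + 1) := by
  have h1 := S.upl (J + 1) le_rfl
  rw [Nat.add_sub_cancel_left, pow_one] at h1
  have h2 : 1 ≤ G.Wc := Real.one_le_exp (pow_pos G.t_pos 20).le
  exact (le_mul_of_one_le_left (R.nl_nonneg G _ _) h2).trans (h1.trans (S.cr_up_init H))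

lemma cr_init_FF (H : IsNet G R) (S : St G R J t0 AA) (k : Fin 7 × Fin 4) (i : ℕ) (hk : cr_PP J k i) :
    cr_FF G R J AA t0 g0 k i t0 ≤ 0 := by
  obtain ⟨k, o⟩ := k
  have hθ := G.θ_pos
  have hx := G.xs_pos
  fin_cases k
  · refine sub_nonpos.mpr (pow_le_pow_left₀ (norm_nonneg _) ?_ 2)
    rw [cr_ww_self]; exact S.oldb i hk o
  · refine sub_nonpos.mpr (pow_le_pow_left₀ (norm_nonneg _) ?_ 2)
    rw [cr_ww_self]; exact S.oldc i hk o
  · refine sub_nonpos.mpr ?_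
    rw [cr_ww_self]; exact S.oldy i hk
  · refine sub_nonpos.mpr ?_
    rw [cr_Lc, cr_Ex_self, cr_Ex_self, mul_one]; exact S.cr_lev_le H
  · refine sub_nonpos.mpr ?_
    rw [cr_Ex_self]
    have h1 := S.upy J le_rfl
    rw [Nat.sub_self, zero_add, pow_one] at h1
    have hb := H.bh_pos J
    have h2 := G.cr_θ_le
    have h3 := S.curA.1
    calc _ ≤ _ := h1
      _ ≤ 1 * AA J * R.bh G J := by gcongr
      _ = _ := by rw [one_mul]
  · refine sub_nonpos.mpr ?_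
    have hk' : J + 1 ≤ i := hk
    rw [cr_Ex_self]
    calc _ ≤ _ := S.upy i (by omega)
      _ = G.θ ^ (i - J) * (20 * G.θ * G.xs * R.bh G J) := by ring
      _ ≤ _ := mul_le_mul_of_nonneg_left (S.cr_up_init H) (by positivity)
  · refine sub_nonpos.mpr ?_
    have hk' : J + 2 ≤ i := hk
    rw [cr_Ex_self]
    calc _ ≤ _ := S.upl i (by omega)
      _ = G.θ ^ (i - J - 1) * (20 * G.θ * G.xs * R.bh G J) := by
          rw [show i - J = i - J - 1 + 1 by omega, Nat.add_sub_cancel]; ring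
      _ ≤ _ := mul_le_mul_of_nonneg_left (S.cr_up_init H) (by positivity)

/-- The barrier inequalities give the crude bounds. -/
lemma cr_bnd_of_FF (H : IsNet G R) (S : St G R J t0 AA) {u : ℝ} (h1 : t0 ≤ u) (h2 : u ≤ t0 + G.Δ J)
    (hg : 0 ≤ g0) (hE : Ex t0 (AA J) g0 u ≤ 21 / 2)
    (nw : R.nl G (J + 1) u ≤ G.xs * Ex t0 (AA J) g0 u * R.bh G (J + 1))
    (h : ∀ k i, cr_PP J k i → cr_FF G R J AA t0 g0 k i u ≤ 0) :
    Bnd G R J AA u (Ex t0 (AA J) g0 u) := by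
  have hΔ := G.Δ_pos J
  have hA : 0 < AA J := G.xs_pos.trans_le S.curA.1
  have hlo : G.xs ≤ Ex t0 (AA J) g0 u := S.curA.1.trans (cr_le_Ex hA.le hg h1)
  have w1 : ∀ i < J, 1 / 2 ≤ cr_ww (J - i) t0 (G.Δ J) u := fun i hi => cr_ww_lo (by omega) hΔ h1
  have w2 : ∀ i < J, cr_ww (J - i) t0 (G.Δ J) u ≤ 1 - (1 / 2) ^ (J + 1 - i) := fun i hi => by
    rw [show J + 1 - i = J - i + 1 by omega]; exact cr_ww_hi _ hΔ h2
  refine ⟨S.kJ, S.t0.trans h1, S.oldA, fun i hi o => ?_, fun i hi o => ?_, fun i hi => ?_, hlo, hE,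
    ?_, sub_nonpos.mp (h (4, 0) 0 rfl), nw, fun i hi => sub_nonpos.mp (h (5, 0) i hi),
    fun i hi => sub_nonpos.mp (h (6, 0) i hi)⟩
  · have hu := H.un_pos i
    have a1 := w1 i hi
    refine (cr_le_of_sq_le_sq' (sub_nonpos.mp (h (0, o) i hi)) (by positivity)).trans ?_
    gcongr; exact w2 i hi
  · have hu := H.un_pos i
    have a1 := w1 i hi
    refine (cr_le_of_sq_le_sq' (sub_nonpos.mp (h (1, o) i hi)) (by positivity)).trans ?_
    gcongr; exact w2 i hi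
  · have hb := H.bh_pos i
    refine (sub_nonpos.mp (h (2, 0) i hi)).trans ?_
    gcongr; exact w2 i hi
  · refine (sub_nonpos.mp (h (3, 0) 0 rfl)).trans ?_
    have hu := H.un_pos J
    have hT := G.t_pos
    have hd := G.d_pos J
    have hE0 : 0 < Ex t0 (AA J) g0 u := G.xs_pos.trans_le hlo
    have a1 : (G.t ^ 8)⁻¹ * G.d J * (u - t0) ≤ 1 / 10 := by
      have a2 := G.pow_lt (a := 1) (b := 8) (by norm_num)
      calc (G.t ^ 8)⁻¹ * G.d J * (u - t0) ≤ (G.t ^ 8)⁻¹ * G.d J * G.Δ J := by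
            gcongr; linarith
        _ = (G.t ^ 8)⁻¹ * (2 * G.t) := by rw [mul_assoc, G.d_mul_Δ]
        _ ≤ 1 / 10 := by rw [inv_mul_le_iff₀ (by positivity)]; linarith
    have a2 : Ex t0 1 ((G.t ^ 8)⁻¹ * G.d J) u ≤ 4 / 3 := by
      rw [Ex, one_mul]
      refine (Real.exp_le_exp.mpr a1).trans ?_
      have := Real.exp_bound_div_one_sub_of_interval' (x := 1 / 10) (by norm_num) (by norm_num)
      linarith
    calc cr_Lc G R J t0 (AA J) g0 u ≤ 3 * (Ex t0 (AA J) g0 u * R.un G J) * (4 / 3) := by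
          unfold cr_Lc; gcongr
      _ = _ := by ring

/-- The junk stays small as long as the crude bounds hold. -/
lemma St.cr_junk (H : IsNet G R) (S : St G R J t0 AA) {t1 : ℝ} {EE : ℝ → ℝ} (h1 : t1 ≤ t0 + G.Δ J)
    (hB : ∀ u ∈ Icc t0 t1, Bnd G R J AA u (EE u)) :
    ∀ t ∈ Icc t0 t1, Jb G R J t ∧ R.Fj t ≤ G.δ0 * G.lam (J + 1) ∧
      R.Hj t ≤ G.δ0 * (G.lam (J + 1) ^ 2 / G.N (J + 1)) :=
  junk_closure H S.t0 h1 S.Fj S.Hj (fun u hu => ((hB u hu).cr0 H).sum_nu H)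
    (fun u hu => ((hB u hu).cr0 H).sum_H H)

/-- The crude bounds hold as long as the new level is small. -/
theorem St.cr_bnd (H : IsNet G R) {j : ℕ} (S : St G R (j + 1) t0 AA) {c : ℝ}
    (hc : c ≤ t0 + G.Δ (j + 1)) (hg : 0 ≤ g0) (hg' : g0 = G.d (j + 1) * (R.aa G j t0 - 1))
    (hE : Ex t0 (AA (j + 1)) g0 c ≤ 21 / 2)
    (nw : ∀ u ∈ Icc t0 c, R.nl G (j + 2) u ≤ G.xs * Ex t0 (AA (j + 1)) g0 u * R.bh G (j + 2)) :
    ∀ u ∈ Icc t0 c, Bnd G R (j + 1) AA u (Ex t0 (AA (j + 1)) g0 u) := by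
  have hx := G.xs_pos
  have hθ := G.θ_pos
  have hb := H.bh_pos (j + 1 + 1)
  have hA : 0 < AA (j + 1) := hx.trans_le S.curA.1
  have bnd : ∀ u ∈ Icc t0 c, (∀ k i, cr_PP (j + 1) k i → cr_FF G R (j + 1) AA t0 g0 k i u ≤ 0) →
      Bnd G R (j + 1) AA u (Ex t0 (AA (j + 1)) g0 u) := fun u hu h =>
    cr_bnd_of_FF H S hu.1 (hu.2.trans hc) hg ((cr_Ex_mono hA.le hg hu.2).trans hE) (nw u hu) h
  obtain ⟨M, hM⟩ := H.high (j + 1) c (u := G.xs * AA (j + 1) * R.bh G (j + 1 + 1)) (by positivity)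
  have key := cr_fam_nat (F := cr_FF G R (j + 1) AA t0 g0) (P := cr_PP (j + 1)) (a := t0) (b := c)
    (M := M + (j + 1)) ?_ (fun k i => (cr_cont_FF H k i).mono fun u hu => S.t0.trans hu.1)
    (cr_init_FF H S) ?_
  · exact fun u hu => bnd u hu (key u hu)
  · rintro ⟨k, o⟩ i hk hi t ht
    have h1 := hM i (by omega) t ⟨S.t0.trans ht.1, ht.2⟩
    have h2 := cr_le_Ex hA.le hg ht.1
    fin_cases k
    · exact absurd (show i < j + 1 from hk) (by omega)
    · exact absurd (show i < j + 1 from hk) (by omega)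
    · exact absurd (show i < j + 1 from hk) (by omega)
    · exact absurd (show i = 0 from hk) (by omega)
    · exact absurd (show i = 0 from hk) (by omega)
    · exact sub_nonpos.mpr (h1.1.trans (by gcongr))
    · exact sub_nonpos.mpr (h1.2.trans (by gcongr))
  · rintro t ht hp ⟨k, o⟩ i hk e
    have hB : ∀ u ∈ Icc t0 t, Bnd G R (j + 1) AA u (Ex t0 (AA (j + 1)) g0 u) := fun u hu =>
      bnd u ⟨hu.1, hu.2.trans ht.2.le⟩ (hp u hu)
    have h1 : t ≤ t0 + G.Δ (j + 1) := ht.2.le.trans hc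
    have hj := fun u hu => (S.cr_junk H h1 hB u hu).1
    have tt : t ∈ Icc t0 t := ⟨ht.1, le_rfl⟩
    have h := hB t tt
    suffices hD : ∃ D < 0, HD (cr_FF G R (j + 1) AA t0 g0 (k, o) i) D t by
      obtain ⟨D, D0, hD⟩ := hD
      exact ⟨D, D0, hD.right h.t0⟩
    fin_cases k
    · exact h.cr_step_b H (hj t tt) ht.1 hk o e
    · exact h.cr_step_c H (hj t tt) ht.1 hk o e
    · exact h.cr_step_y H (hj t tt) ht.1 hk e
    · exact h.cr_step_lev H (hj t tt) ht.1 hg'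
        (cr_drift_le H S.t0 h1 hB hj (Nat.lt_succ_self j) t tt) e
    · exact h.cr_step_cury H (hj t tt) hg rfl e
    · exact h.cr_step_upy H (hj t tt) hg rfl hk e
    · exact h.cr_step_upl H (hj t tt) hg rfl hk e

theorem St.run {G : Geo} {R : Raw} (H : IsNet G R) {j : ℕ} {t0 : ℝ} {AA : ℕ → ℝ}
    (S : St G R (j + 1) t0 AA) : ∃ c g0, Run G R j AA t0 c g0 := by
  have hx := G.xs_pos
  have hT := G.t_pos
  have hd := G.d_pos (j + 1)
  have hΔ := G.Δ_pos (j + 1)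
  have hA : 0 < AA (j + 1) := hx.trans_le S.curA.1
  have hA' := S.oldA j (Nat.lt_succ_self j)
  have ha := (H.aa_close (j := j) (t := t0) (a := AA j) (a1 := 1 / 10 ^ 20) (by norm_num)
    (fun o => (S.oldb j (Nat.lt_succ_self j) o).trans (by
      have := H.un_pos j
      have : (0 : ℝ) < (1 / 2) ^ (j + 1 - j) := by positivity
      nlinarith))).1
  obtain ⟨g0, hg⟩ : ∃ g0, g0 = G.d (j + 1) * (R.aa G j t0 - 1) := ⟨_, rfl⟩
  have g1 : 99 / 100 * G.d (j + 1) ≤ g0 := by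
    rw [hg, mul_comm]; gcongr; linarith [(abs_le.mp ha).1]
  have g2 : g0 ≤ 901 / 100 * G.d (j + 1) := by
    rw [hg, mul_comm]; gcongr; linarith [(abs_le.mp ha).2]
  have g0p : 0 < g0 := lt_of_lt_of_le (by positivity) g1
  have hA2 : AA (j + 1) ≤ 21 / 2 := by
    have h1 := G.pow_lt (a := 0) (b := 30) (by norm_num)
    rw [pow_zero] at h1
    refine S.curA.2.trans ?_
    rw [Geo.xs, ← div_eq_mul_inv, div_le_iff₀ (by positivity)]
    linarith
  obtain ⟨te, hte⟩ : ∃ te, te = t0 + Real.log (21 / 2 / AA (j + 1)) / g0 := ⟨_, rfl⟩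
  have e1 : t0 ≤ te := by
    have := Real.log_nonneg (show 1 ≤ 21 / 2 / AA (j + 1) by rw [le_div_iff₀ hA]; linarith)
    rw [hte]; exact le_add_of_nonneg_right (by positivity)
  have e2 : te ≤ t0 + G.Δ (j + 1) := by
    rw [hte]
    gcongr
    rw [div_le_iff₀ g0p, Real.log_le_iff_le_exp (by positivity)]
    have h1 := G.pow_lt (a := 30) (b := 31) (by norm_num)
    have h2 := G.cr_pow_le_exp_pow (k := 31) (m := 1) (by norm_num) le_rfl
    have h3 := pow_pos hT 30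
    have h4 := G.d_mul_Δ (j + 1)
    have h5 : 1 ≤ AA (j + 1) * G.t ^ 30 := by
      have := S.curA.1
      rwa [Geo.xs, inv_le_iff_one_le_mul₀ h3] at this
    calc 21 / 2 / AA (j + 1) ≤ G.t ^ 31 := by
          rw [div_le_iff₀ hA]; nlinarith
      _ ≤ _ := h2
      _ ≤ _ := Real.exp_le_exp.mpr (by rw [pow_one]; nlinarith)
  have e3 : Ex t0 (AA (j + 1)) g0 te = 21 / 2 := by
    rw [Ex, hte, add_sub_cancel_left, mul_div_cancel₀ _ g0p.ne', Real.exp_log (by positivity),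
      mul_div_cancel₀ _ hA.ne']
  obtain ⟨c, hc, all, hit⟩ := first_hit (ι := Unit) (H := fun _ t =>
      R.nl G (j + 2) t - G.xs * Ex t0 (AA (j + 1)) g0 t * R.bh G (j + 2)) e1
    (fun _ => ((H.cr_cont_nl (j + 2)).mono fun u hu => S.t0.trans hu.1).sub
      (((cr_cont_Ex t0 (AA (j + 1)) g0).continuousOn.const_mul _).mul_const _))
    (fun _ => sub_nonpos.mpr (by rw [cr_Ex_self]; exact S.cr_nw_init H))
  have hc' : c ≤ t0 + G.Δ (j + 1) := hc.2.trans e2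
  have hB := S.cr_bnd H hc' g0p.le hg ((cr_Ex_mono hA.le g0p.le hc.2).trans e3.le)
    (fun u hu => sub_nonpos.mp (all u hu ()))
  have hj := S.cr_junk H hc' hB
  refine ⟨c, g0, S, hc.1, hc', hg, g1, g2, hB, fun u hu => (hj u hu).1,
    cr_drift_le H S.t0 hc' hB (fun u hu => (hj u hu).1) (Nat.lt_succ_self j),
    (hj c ⟨hc.1, le_rfl⟩).2.1, (hj c ⟨hc.1, le_rfl⟩).2.2, ?_⟩
  rcases hit with h | ⟨_, h1, h2⟩
  · exact Or.inl (h ▸ e3)
  · exact Or.inr ⟨sub_eq_zero.mp h1, h2.mono fun _ h => sub_pos.mp h⟩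

end

end Pool.Agent.Work.MP_6bf1e5_an.Ell
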