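import Pool.Agent.Work.MP_6bf1e5_an.Ell.Num

/-!
The junk stays small.
-/

open Set Complex Filter Topology
open scoped InnerProductSpace ComplexConjugate
open Pool.Agent.Work.MP_6bf1e5_an.B (Z3 R3)
open Pool.Agent.Work.MP_6bf1e5_an.Dec

namespace Pool.Agent.Work.MP_6bf1e5_an.Ell

noncomputable section

lemma Geo.junk_δ0_pos (G : Geo) : 0 < G.δ0 := Real.exp_pos _

lemma Geo.junk_δ0_le (G : Geo) : G.δ0 ≤ 1 := by
  have := G.t_pos
  unfold Geo.δ0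
  exact Real.exp_le_one_iff.mpr (neg_nonpos.mpr (by positivity))

/-- The Duhamel factor is tiny. -/
lemma Geo.junk_sqrt (G : Geo) (J : ℕ) {u : ℝ} (hu : u ≤ G.Δ J) :
    G.t ^ 160 * (G.lam J * √(u / G.C)) ≤ G.δ0 := by
  have T0 := G.t_pos
  have T1 := G.one_le_t
  have L0 := G.lam_pos J
  have C0 : 0 < G.C := Real.exp_pos _
  have e1 : Real.exp (-(G.t ^ 90 / 2)) ^ 2 * G.C = 1 := by
    unfold Geo.C
    rw [← Real.exp_nat_mul, ← Real.exp_add]
    have : ((2 : ℕ) : ℝ) * -(G.t ^ 90 / 2) + G.t ^ 90 = 0 := by push_cast; ring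
    rw [this, Real.exp_zero]
  have h1 : √(u / G.C) ≤ G.t * Real.exp (-(G.t ^ 90 / 2)) / G.lam J := by
    refine Real.sqrt_le_iff.mpr ⟨by positivity, ?_⟩
    rw [div_le_iff₀ C0, div_pow, mul_pow, div_mul_eq_mul_div, mul_assoc, e1, mul_one]
    refine hu.trans ?_
    unfold Geo.Δ
    exact div_le_div_of_nonneg_right (by nlinarith) (by positivity)
  rw [le_div_iff₀ L0] at h1
  have h2 : G.t ^ 161 ≤ Real.exp (G.t / 10 ^ 50) := G.pow_le_exp (by norm_num)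
  have h3 : 10 ^ 100 * G.t ^ 89 ≤ G.t ^ 90 := G.pow_lt (by norm_num)
  have h4 : G.t ^ 1 ≤ G.t ^ 89 := G.pow_le (by norm_num)
  have h5 : Real.exp (G.t / 10 ^ 50) * Real.exp (-(G.t ^ 90 / 2)) ≤ G.δ0 := by
    rw [← Real.exp_add]
    unfold Geo.δ0
    refine Real.exp_le_exp.mpr ?_
    rw [pow_one] at h4
    linarith
  calc G.t ^ 160 * (G.lam J * √(u / G.C))
      ≤ G.t ^ 160 * (G.t * Real.exp (-(G.t ^ 90 / 2))) :=
        mul_le_mul_of_nonneg_left (by linarith) (by positivity)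
    _ = G.t ^ 161 * Real.exp (-(G.t ^ 90 / 2)) := by ring
    _ ≤ Real.exp (G.t / 10 ^ 50) * Real.exp (-(G.t ^ 90 / 2)) :=
        mul_le_mul_of_nonneg_right h2 (by positivity)
    _ ≤ G.δ0 := h5

lemma Geo.junk_jb (G : Geo) : G.t ^ 101 * G.δ0 ≤ Real.exp (-G.t ^ 88) := by
  have T0 := G.t_pos
  have h2 : G.t ^ 101 ≤ Real.exp (G.t / 10 ^ 50) := G.pow_le_exp (by norm_num)
  have h3 : 10 ^ 100 * G.t ^ 88 ≤ G.t ^ 89 := G.pow_lt (by norm_num)
  have h4 : G.t ^ 1 ≤ G.t ^ 88 := G.pow_le (by norm_num)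
  refine (mul_le_mul_of_nonneg_right h2 G.junk_δ0_pos.le).trans ?_
  unfold Geo.δ0
  rw [← Real.exp_add]
  refine Real.exp_le_exp.mpr ?_
  rw [pow_one] at h4
  linarith

theorem junk_closure {G : Geo} {R : Raw} (H : IsNet G R) {J : ℕ} {t0 t1 : ℝ} (h0 : 0 ≤ t0)
    (h1 : t1 ≤ t0 + G.Δ J) (hF : R.Fj t0 ≤ G.δ0 * G.lam J)
    (hH : R.Hj t0 ≤ G.δ0 * (G.lam J ^ 2 / G.N J))
    (s1 : ∀ t ∈ Icc t0 t1, ∀ M, ∑ j ∈ Finset.range M, R.nu G j t ≤ G.t ^ 53 * G.lam J)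
    (s2 : ∀ t ∈ Icc t0 t1, ∀ M, ∑ j ∈ Finset.range M, G.lam (j + 1) * (R.lev j t + R.ch G j t) ≤
      G.t ^ 95 * (G.lam J ^ 2 / G.N J)) :
    ∀ t ∈ Icc t0 t1, Jb G R J t ∧ R.Fj t ≤ G.δ0 * G.lam (J + 1) ∧
      R.Hj t ≤ G.δ0 * (G.lam (J + 1) ^ 2 / G.N (J + 1)) := by
  intro t ht
  have t01 : t0 ≤ t1 := ht.1.trans ht.2
  have T0 := G.t_pos
  have T1 := G.one_le_t
  have L0 := G.lam_pos J
  have N0 := G.N_pos J
  have d0 := G.junk_δ0_pos
  have d1 := G.junk_δ0_le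
  have sub : Icc t0 t1 ⊆ Ici 0 := fun u hu => h0.trans hu.1
  obtain ⟨tm, htm, hmax⟩ := isCompact_Icc.exists_isMaxOn (nonempty_Icc.mpr t01)
    (H.contH.mono sub)
  have hmax' : ∀ u ∈ Icc t0 t1, R.H u ≤ R.H tm := fun u hu => hmax hu
  have sq : ∀ c ∈ Icc t0 t1, G.t ^ 160 * (G.lam J * √((c - t0) / G.C)) ≤ G.δ0 := fun c hc =>
    G.junk_sqrt J (by linarith [hc.2])
  -- the sum norm of the junk, as long as the solution is bounded
  have stepF : ∀ c ∈ Icc t0 t1, (∀ u ∈ Icc t0 c, R.U u ≤ G.t ^ 54 * G.lam J) →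
      R.Fj c ≤ 2 * (G.δ0 * G.lam J) := by
    intro c hc hU
    have a := (H.duh t0 c _ (R.H tm) h0 hc.1 hU
      fun u hu => hmax' u ⟨hu.1, hu.2.trans hc.2⟩).1
    have b := sq c hc
    have s0 : 0 ≤ G.lam J * √((c - t0) / G.C) := by positivity
    have p : 10 ^ 100 * G.t ^ 108 ≤ G.t ^ 160 := G.pow_lt (by norm_num)
    have p' : 2 * G.t ^ 108 ≤ G.t ^ 160 := by
      have : 0 ≤ G.t ^ 108 := by positivity
      linarith
    have e : 2 * (G.t ^ 54 * G.lam J) ^ 2 * √((c - t0) / G.C) =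
        (2 * G.t ^ 108 * (G.lam J * √((c - t0) / G.C))) * G.lam J := by ring
    have f : 2 * G.t ^ 108 * (G.lam J * √((c - t0) / G.C)) ≤ G.δ0 :=
      (mul_le_mul_of_nonneg_right p' s0).trans b
    have g := mul_le_mul_of_nonneg_right f L0.le
    linarith
  have p53 : 10 ^ 100 * G.t ^ 53 ≤ G.t ^ 54 := G.pow_lt (by norm_num)
  have o53 : 1 ≤ G.t ^ 53 := one_le_pow₀ T1
  have q53 : (10 ^ 4 * G.t ^ 53 + 2 * G.δ0) * G.lam J < G.t ^ 54 * G.lam J :=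
    mul_lt_mul_of_pos_right (by linarith) L0
  have dl : 0 ≤ G.δ0 * G.lam J := by positivity
  have hU : ∀ u ∈ Icc t0 t1, R.U u ≤ G.t ^ 54 * G.lam J := by
    obtain ⟨c, hc, h2, h3⟩ := first_hit (ι := Unit)
      (H := fun _ u => R.U u - G.t ^ 54 * G.lam J) t01
      (fun _ => (H.contU.mono sub).sub continuousOn_const)
      (fun _ => by
        have := H.U_le t0 _ h0 (s1 t0 ⟨le_rfl, t01⟩)
        show R.U t0 - G.t ^ 54 * G.lam J ≤ 0
        linarith)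
    have h2' : ∀ u ∈ Icc t0 c, R.U u ≤ G.t ^ 54 * G.lam J := fun u hu =>
      sub_nonpos.mp (h2 u hu ())
    rcases h3 with rfl | ⟨_, h3, -⟩
    · exact h2'
    · have a := stepF c hc h2'
      have b := H.U_le c _ (sub hc) (s1 c hc)
      have h3' : R.U c - G.t ^ 54 * G.lam J = 0 := h3
      linarith
  have hFj : ∀ c ∈ Icc t0 t1, R.Fj c ≤ 2 * (G.δ0 * G.lam J) := fun c hc =>
    stepF c hc fun u hu => hU u ⟨hu.1, hu.2.trans hc.2⟩
  -- the enstrophy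
  set Q := G.lam J ^ 2 / G.N J with hQ
  have Q0 : 0 < Q := by positivity
  have stepH : ∀ c ∈ Icc t0 t1, G.t ^ 100 * R.Hj c ≤ G.t ^ 100 * (G.δ0 * Q) + G.δ0 * R.H tm / 2 := by
    intro c hc
    have a := (H.duh t0 c _ (R.H tm) h0 hc.1 (fun u hu => hU u ⟨hu.1, hu.2.trans hc.2⟩)
      fun u hu => hmax' u ⟨hu.1, hu.2.trans hc.2⟩).2
    have b := sq c hc
    have s0 : 0 ≤ G.lam J * √((c - t0) / G.C) := by positivity
    have p : 10 ^ 100 * G.t ^ 154 ≤ G.t ^ 160 := G.pow_lt (by norm_num)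
    have p' : 4 * G.t ^ 154 ≤ G.t ^ 160 := by
      have : 0 ≤ G.t ^ 154 := by positivity
      linarith
    have f : 4 * G.t ^ 154 * (G.lam J * √((c - t0) / G.C)) ≤ G.δ0 :=
      (mul_le_mul_of_nonneg_right p' s0).trans b
    have g := mul_le_mul_of_nonneg_right f (H.H_nonneg tm)
    have a' := mul_le_mul_of_nonneg_left (a.trans (add_le_add_left hH _))
      (show 0 ≤ G.t ^ 100 by positivity)
    have e : G.t ^ 100 * (G.δ0 * Q + 2 * (G.t ^ 54 * G.lam J) * R.H tm * √((c - t0) / G.C)) =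
        G.t ^ 100 * (G.δ0 * Q) +
          4 * G.t ^ 154 * (G.lam J * √((c - t0) / G.C)) * R.H tm / 2 := by ring
    linarith
  have o100 : 1 ≤ G.t ^ 100 := one_le_pow₀ T1
  have hm : R.H tm ≤ G.t ^ 100 * Q := by
    have a := stepH tm htm
    have b := H.H_le tm _ (sub htm) (s2 tm htm)
    have m0 := H.H_nonneg tm
    have c1 : G.δ0 * R.H tm ≤ G.t ^ 100 * R.H tm :=
      mul_le_mul_of_nonneg_right (d1.trans o100) m0
    have c2 : R.Hj tm ≤ G.δ0 * Q + R.H tm / 2 := by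
      refine le_of_mul_le_mul_left ?_ (show 0 < G.t ^ 100 by positivity)
      linarith
    have p : 10 ^ 100 * G.t ^ 95 ≤ G.t ^ 100 := G.pow_lt (by norm_num)
    have o95 : 1 ≤ G.t ^ 95 := one_le_pow₀ T1
    have c3 : (2 * 10 ^ 4 * G.t ^ 95 + 2 * G.δ0) * Q ≤ G.t ^ 100 * Q :=
      mul_le_mul_of_nonneg_right (by linarith) Q0.le
    linarith
  have hHj : R.Hj t ≤ 2 * (G.δ0 * Q) := by
    have a := stepH t ht
    have c1 := mul_le_mul_of_nonneg_left hm d0.le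
    have c2 : 0 ≤ G.t ^ 100 * (G.δ0 * Q) := by positivity
    refine le_of_mul_le_mul_left ?_ (show 0 < G.t ^ 100 by positivity)
    linarith
  refine ⟨?_, ?_, ?_⟩
  · unfold Jb Raw.Jk
    have a1 : R.U t * R.Hj t ≤ (G.t ^ 54 * G.lam J) * (2 * (G.δ0 * Q)) :=
      mul_le_mul (hU t ht) hHj (H.Hj_nonneg t) (by positivity)
    have a2 : R.Fj t * R.H t ≤ (2 * (G.δ0 * G.lam J)) * (G.t ^ 100 * Q) :=
      mul_le_mul (hFj t ht) ((hmax' t ht).trans hm) (H.H_nonneg t) (by positivity)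
    have e : G.lam J ^ 3 / G.N J = G.lam J * Q := by rw [hQ]; ring
    rw [e]
    have p : 10 ^ 100 * G.t ^ 100 ≤ G.t ^ 101 := G.pow_lt (by norm_num)
    have p2 : G.t ^ 54 ≤ G.t ^ 100 := G.pow_le (by norm_num)
    have a3 : (2 * G.t ^ 54 + 2 * G.t ^ 100) * (G.δ0 * (G.lam J * Q)) ≤
        G.t ^ 101 * (G.δ0 * (G.lam J * Q)) :=
      mul_le_mul_of_nonneg_right (by linarith) (by positivity)
    have a4 := mul_le_mul_of_nonneg_right G.junk_jb (show 0 ≤ G.lam J * Q by positivity)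
    linarith
  · have p : 10 ^ 100 * G.t ^ 0 ≤ G.t ^ 21 := G.pow_lt (by norm_num)
    rw [pow_zero] at p
    have a : 2 * (G.δ0 * G.lam J) ≤ G.t ^ 21 * (G.δ0 * G.lam J) :=
      mul_le_mul_of_nonneg_right (by linarith) dl
    have := hFj t ht
    rw [G.lam_succ]
    linarith
  · refine hHj.trans ?_
    have N1 := G.N_pos (J + 1)
    have p : 10 ^ 100 * G.t ^ 32 ≤ G.t ^ 42 := G.pow_lt (by norm_num)
    have p0 : 0 ≤ G.t ^ 32 := by positivity
    have a : 2 * Q ≤ G.lam (J + 1) ^ 2 / G.N (J + 1) := by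
      rw [le_div_iff₀ N1, G.lam_succ]
      have b := mul_le_mul_of_nonneg_left (G.N_succ_hi J) (show 0 ≤ 2 * Q by positivity)
      have e : 2 * Q * (G.t ^ 32 * G.N J) = 2 * G.t ^ 32 * G.lam J ^ 2 := by
        rw [hQ]; field_simp
      have c : 2 * G.t ^ 32 * G.lam J ^ 2 ≤ G.t ^ 42 * G.lam J ^ 2 :=
        mul_le_mul_of_nonneg_right (by linarith) (by positivity)
      have e2 : (G.t ^ 21 * G.lam J) ^ 2 = G.t ^ 42 * G.lam J ^ 2 := by ring
      linarith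
    have := mul_le_mul_of_nonneg_left a d0.le
    linarith

end

end Pool.Agent.Work.MP_6bf1e5_an.Ell
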