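import Pool.Agent.Work.MP_6bf1e5_an.Ell.Upper
import Pool.Agent.Work.MP_6bf1e5_an.Ell.Junk

/-!
Estimates for the old levels during a stage.
-/

open Set Complex Filter Topology
open scoped InnerProductSpace ComplexConjugate
open Pool.Agent.Work.MP_6bf1e5_an.B (Z3 R3)
open Pool.Agent.Work.MP_6bf1e5_an.Dec

namespace Pool.Agent.Work.MP_6bf1e5_an.Ell

noncomputable section

namespace Geo

variable (G : Geo)

lemma cr_pow_le_exp_pow {k m : ℕ} (hk : k ≤ 1000) (hm : 1 ≤ m) : G.t ^ k ≤ Real.exp (G.t ^ m) := by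
  refine (G.pow_le_exp hk).trans (Real.exp_le_exp.mpr ?_)
  have h1 : G.t ^ 1 ≤ G.t ^ m := G.pow_le hm
  have := G.t_pos
  rw [pow_one] at h1
  have : G.t / 10 ^ 50 ≤ G.t := div_le_self this.le (by norm_num)
  linarith

lemma cr_d_old {i J : ℕ} (h : i < J) : G.t ^ 42 * G.d i ≤ 2 * (1 / 2) ^ (J - i) * G.d J := by
  induction J, h using Nat.le_induction with
  | base =>
    rw [show i + 1 - i = 1 by omega, G.d_succ]; linarith
  | succ J hJ ih =>
    rw [show J + 1 - i = (J - i) + 1 by omega, pow_succ _ (J - i), G.d_succ J]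
    have h1 : (2 : ℝ) ≤ G.t ^ 42 := by
      have := G.pow_lt (a := 0) (b := 42) (by norm_num)
      rw [pow_zero] at this; linarith
    have h2 := G.d_pos J
    have h3 : (0 : ℝ) < (1 / 2) ^ (J - i) := by positivity
    have h4 : (1 / 2) ^ (J - i) * G.d J * 2 ≤ (1 / 2) ^ (J - i) * G.d J * G.t ^ 42 :=
      mul_le_mul_of_nonneg_left h1 (by positivity)
    linarith

lemma cr_ell_le (i : ℕ) : G.ell i ≤ G.d i := by
  unfold ell d
  have h1 : Real.exp (-G.t ^ 80) ≤ 1 := Real.exp_le_one_iff.mpr (by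
    have := pow_pos G.t_pos 80; linarith)
  have := sq_nonneg (G.lam i)
  nlinarith

lemma cr_ell_nonneg (i : ℕ) : 0 ≤ G.ell i := by unfold ell; positivity

lemma cr_lam_sq_mul_Δ (J : ℕ) : G.lam J ^ 2 * G.Δ J = G.t := by
  have := G.lam_pos J
  unfold Δ; field_simp

end Geo

/-- The slowly growing weight of the old levels. -/
def cr_ww (m : ℕ) (t0 Δ t : ℝ) : ℝ := 1 - (1 / 2) ^ m + (1 / 2) ^ m / 2 * ((t - t0) / Δ)

lemma cr_ww_self (m : ℕ) (t0 Δ : ℝ) : cr_ww m t0 Δ t0 = 1 - (1 / 2) ^ m := by simp [cr_ww]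

lemma cr_ww_lo {m : ℕ} (hm : 1 ≤ m) {t0 Δ t : ℝ} (hΔ : 0 < Δ) (h : t0 ≤ t) : 1 / 2 ≤ cr_ww m t0 Δ t := by
  have h1 : ((1 : ℝ) / 2) ^ m ≤ (1 / 2) ^ 1 :=
    pow_le_pow_of_le_one (by norm_num) (by norm_num) hm
  have h2 : 0 ≤ ((1 : ℝ) / 2) ^ m / 2 * ((t - t0) / Δ) :=
    mul_nonneg (by positivity) (div_nonneg (by linarith) hΔ.le)
  unfold cr_ww; linarith

lemma cr_ww_hi (m : ℕ) {t0 Δ t : ℝ} (hΔ : 0 < Δ) (h : t ≤ t0 + Δ) :
    cr_ww m t0 Δ t ≤ 1 - (1 / 2) ^ (m + 1) := by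
  have h1 : (t - t0) / Δ ≤ 1 := by rw [div_le_one hΔ]; linarith
  have h2 : ((1 : ℝ) / 2) ^ m / 2 * ((t - t0) / Δ) ≤ (1 / 2) ^ m / 2 * 1 :=
    mul_le_mul_of_nonneg_left h1 (by positivity)
  unfold cr_ww; rw [pow_succ]; linarith

lemma cr_hd_ww (m : ℕ) (t0 Δ t : ℝ) : HD (cr_ww m t0 Δ) ((1 / 2) ^ m / 2 / Δ) t := by
  have h := ((((hasDerivWithinAt_id t (Ici (0 : ℝ))).sub_const t0).div_const Δ).const_mul
    (((1 : ℝ) / 2) ^ m / 2)).const_add (1 - (1 / 2) ^ m)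
  exact HasDerivWithinAt.congr_deriv h (by ring)

lemma cr_cont_ww (m : ℕ) (t0 Δ : ℝ) : Continuous (cr_ww m t0 Δ) := by unfold cr_ww; fun_prop

lemma cr_hd_Ex (t0 E0 g0 t : ℝ) : HD (Ex t0 E0 g0) (g0 * Ex t0 E0 g0 t) t := by
  have h := ((((hasDerivWithinAt_id t (Ici (0 : ℝ))).sub_const t0).const_mul g0).exp).const_mul E0
  exact HasDerivWithinAt.congr_deriv h (by simp only [Ex, id]; ring)

lemma cr_cont_Ex (t0 E0 g0 : ℝ) : Continuous (Ex t0 E0 g0) := by unfold Ex; fun_prop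

lemma cr_Ex_self (t0 E0 g0 : ℝ) : Ex t0 E0 g0 t0 = E0 := by simp [Ex]

lemma cr_le_Ex {t0 E0 g0 t : ℝ} (h0 : 0 ≤ E0) (hg : 0 ≤ g0) (ht : t0 ≤ t) : E0 ≤ Ex t0 E0 g0 t :=
  le_mul_of_one_le_right h0 (Real.one_le_exp (mul_nonneg hg (by linarith)))

lemma cr_Ex_mono {t0 E0 g0 s t : ℝ} (h0 : 0 ≤ E0) (hg : 0 ≤ g0) (ht : s ≤ t) :
    Ex t0 E0 g0 s ≤ Ex t0 E0 g0 t :=
  mul_le_mul_of_nonneg_left (Real.exp_le_exp.mpr (mul_le_mul_of_nonneg_left (by linarith) hg)) h0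

/-- One step of a barrier argument for a square. -/
lemma cr_sq_step {F W : ℝ → ℝ} {X K D W' t : ℝ} (hF : HD F D t) (hW : HD W W' t) (hX : F t = X ^ 2)
    (X0 : 0 ≤ X) (W0 : 0 < W t) (e : F t - W t ^ 2 = 0) (hD : D ≤ 2 * X * K) (hK : K < W') :
    ∃ D < 0, HD (fun t => F t - W t ^ 2) D t := by
  have hx : X = W t := by
    have : X ^ 2 = W t ^ 2 := by linarith
    exact (pow_left_inj₀ X0 W0.le two_ne_zero).mp this
  refine ⟨_, ?_, hF.sub (hW.pow 2)⟩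
  rw [hx] at hD
  have : W t * K < W t * W' := mul_lt_mul_of_pos_left hK W0
  simp only [Nat.cast_ofNat, Nat.add_one_sub_one, pow_one]
  linarith

variable {G : Geo} {R : Raw} {J : ℕ} {t E : ℝ} {AA : ℕ → ℝ}

/-- The bound of the errors acting on an old level. -/
def cr_Ko (G : Geo) (R : Raw) (i : ℕ) (t : ℝ) : ℝ :=
  G.t ^ 32 / 10 * (G.d i * R.un G i) + G.t ^ 12 * R.Jk t

lemma cr_Ko_small (H : IsNet G R) (hj : Jb G R J t) {i : ℕ} (hi : i < J) :
    G.t ^ 9 * (cr_Ko G R i t * G.Δ J) ≤ (1 / 2) ^ (J - i) * R.un G i := by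
  have h1 := G.cr_d_old hi
  have h2 := G.d_mul_Δ J
  have h3 := H.jk_old hj hi.le
  have h4 := G.cr_lam_sq_mul_Δ J
  have hΔ := G.Δ_pos J
  have hu := H.un_pos i
  have hT := G.t_pos
  have hJ := H.Jk_nonneg t
  set q : ℝ := (1 / 2) ^ (J - i)
  have hq : 0 < q := by positivity
  have a1 : G.t ^ 41 * (G.d i * G.Δ J) ≤ 4 * q := by
    have : G.t * (G.t ^ 41 * (G.d i * G.Δ J)) ≤ G.t * (4 * q) := by
      calc G.t * (G.t ^ 41 * (G.d i * G.Δ J)) = G.t ^ 42 * G.d i * G.Δ J := by ring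
        _ ≤ 2 * q * G.d J * G.Δ J := by gcongr
        _ = G.t * (4 * q) := by rw [mul_assoc, h2]; ring
    exact le_of_mul_le_mul_left this hT
  have a2 : 2 * G.t ^ 22 ≤ Real.exp (G.t ^ 30) := by
    have := G.pow_lt (a := 22) (b := 23) (by norm_num)
    have := G.cr_pow_le_exp_pow (k := 23) (m := 30) (by norm_num) (by norm_num)
    have := pow_pos hT 22
    linarith
  have a3 : 2 * G.t ^ 21 * (R.Jk t * G.Δ J) ≤ q * R.un G i := by
    have : G.t * (2 * G.t ^ 21 * (R.Jk t * G.Δ J)) ≤ G.t * (q * R.un G i) := by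
      calc G.t * (2 * G.t ^ 21 * (R.Jk t * G.Δ J)) = 2 * G.t ^ 22 * R.Jk t * G.Δ J := by ring
        _ ≤ Real.exp (G.t ^ 30) * R.Jk t * G.Δ J := by gcongr
        _ ≤ q * (R.un G i * G.lam J ^ 2) * G.Δ J := by gcongr
        _ = G.t * (q * R.un G i) := by rw [← h4]; ring
    exact le_of_mul_le_mul_left this hT
  have a4 : G.t ^ 41 * (G.d i * G.Δ J) * R.un G i ≤ 4 * q * R.un G i := by gcongr
  have a5 : 0 < q * R.un G i := by positivity
  unfold cr_Ko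
  linarith

/-- The errors acting on an old level are slower than the weight. -/
lemma cr_Ko_lt (H : IsNet G R) (hj : Jb G R J t) {i : ℕ} (hi : i < J) {c : ℝ} (hc : 1 / 10 ^ 20 ≤ c) :
    cr_Ko G R i t < c * ((1 / 2) ^ (J - i) / 2 / G.Δ J) * R.un G i := by
  have h1 := cr_Ko_small H hj hi
  have hΔ := G.Δ_pos J
  have hu := H.un_pos i
  have hT := G.pow_lt (a := 0) (b := 9) (by norm_num)
  rw [pow_zero] at hT
  set q : ℝ := (1 / 2) ^ (J - i)
  have hq : 0 < q := by positivity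
  have e : c * (q / 2 / G.Δ J) * R.un G i = c / 2 * (q * R.un G i) / G.Δ J := by ring
  rw [e, lt_div_iff₀ hΔ]
  have a5 : 0 < q * R.un G i := by positivity
  by_contra hn
  push Not at hn
  have a6 : 1 / 10 ^ 20 / 2 * (q * R.un G i) ≤ cr_Ko G R i t * G.Δ J :=
    le_trans (by gcongr) hn
  nlinarith

namespace Bnd

variable (H : IsNet G R) (h : Bnd G R J AA t E)

include H h

lemma cr_norm_b {i : ℕ} (hi : i < J) (o : Fin 4) : ‖R.b i o t‖ ≤ 11 * R.un G i := by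
  have h1 := h.oldb i hi o
  have hu := H.un_pos i
  have hA := h.oldA i hi
  have h2 : ‖((AA i * R.un G i : ℝ) : ℂ) • G.φ i‖ = AA i * R.un G i := by
    rw [norm_smul, G.norm_φ, mul_one, Complex.norm_real, Real.norm_of_nonneg (by nlinarith)]
  have h3 := norm_le_insert' (R.b i o t) (((AA i * R.un G i : ℝ) : ℂ) • G.φ i)
  have h4 : (0 : ℝ) < (1 / 2) ^ (J + 1 - i) := by positivity
  nlinarith

lemma cr_norm_c {i : ℕ} (hi : i < J) (o : Fin 4) : ‖R.c i o t‖ ≤ 30 * R.un G i := by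
  have h1 := h.oldc i hi o
  have hu := H.un_pos i
  have h4 : (0 : ℝ) < (1 / 2) ^ (J + 1 - i) := by positivity
  nlinarith

lemma cr_kap_l1 {i : ℕ} (hi : i < J) : R.kap G i * l1 (R.B G i t) ≤ 11 * G.d (i + 1) := by
  have h1 := (h.old H hi).2.1
  have h2 := H.kap_mul_bh i
  have h3 := H.kap_pos i
  nlinarith

lemma cr_kap_c {i : ℕ} (hi : i < J) (o : Fin 4) :
    R.kap G (i - 1) * l1 (R.B G (i - 1) t) * ‖R.c i o t‖ ≤ 330 * (G.d i * R.un G i) := by
  have hu := H.un_pos i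
  have hd := G.d_pos i
  rcases i with _ | i
  · rw [H.c0, norm_zero, mul_zero]; positivity
  · have h1 := h.cr_kap_l1 H (i := i) (by omega)
    have h2 := h.cr_norm_c H hi o
    rw [Nat.add_sub_cancel]
    calc _ ≤ 11 * G.d (i + 1) * (30 * R.un G (i + 1)) := by gcongr
      _ = _ := by ring

lemma cr_kap_c_l1 {i : ℕ} (hi : i < J) (o : Fin 4) :
    R.kap G (i - 1) * l1 (R.B G (i - 1) t) * l1 (R.c i o t) ≤
      1000 * (G.N i * (G.d i * R.un G i)) := by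
  have h1 := h.cr_kap_c H hi o
  have h2 := (H.spc i o t).l1_le
  have h3 := G.Nn_rc i
  have hN := G.N_pos i
  have hu := H.un_pos i
  have hd := G.d_pos i
  have hk := H.kap_pos (i - 1)
  have hl := l1_nonneg (R.B G (i - 1) t)
  calc _ ≤ R.kap G (i - 1) * l1 (R.B G (i - 1) t) * (3 * (101 / 100 * G.N i) * ‖R.c i o t‖) := by
        gcongr
        exact h2.trans (by gcongr)
    _ = 303 / 100 * G.N i * (R.kap G (i - 1) * l1 (R.B G (i - 1) t) * ‖R.c i o t‖) := by ring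
    _ ≤ 303 / 100 * G.N i * (330 * (G.d i * R.un G i)) := by gcongr
    _ ≤ _ := by have : 0 < G.N i * (G.d i * R.un G i) := by positivity
                linarith

lemma cr_Kb {i : ℕ} (hi : i < J) (o : Fin 4) :
    R.kap G (i - 1) * l1 (R.B G (i - 1) t) * ‖R.c i o t‖ + G.d i * ‖R.b i o t‖ +
      G.ell i * |AA i * R.un G i| + R.eb G i t ≤ cr_Ko G R i t := by
  have h1 := h.cr_kap_c H hi o
  have h2 := h.cr_norm_b H hi o
  have h3 := (h.cr0 H).eb_le H i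
  have hu := H.un_pos i
  have hd := G.d_pos i
  have hA := h.oldA i hi
  have hJ := H.Jk_nonneg t
  have h4 : G.ell i * |AA i * R.un G i| ≤ G.d i * (10 * R.un G i) := by
    rw [abs_of_nonneg (by nlinarith)]
    exact mul_le_mul (G.cr_ell_le i) (by nlinarith) (by nlinarith) hd.le
  have h5 : G.d i * ‖R.b i o t‖ ≤ G.d i * (11 * R.un G i) := by gcongr
  have h6 := G.pow_lt (a := 0) (b := 32) (by norm_num)
  have h7 := G.pow_lt (a := 0) (b := 12) (by norm_num)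
  rw [pow_zero] at h6 h7
  have h8 : 0 < G.d i * R.un G i := by positivity
  unfold cr_Ko
  nlinarith

lemma cr_Kc {i : ℕ} (hi : i + 1 < J) (o : Fin 4) :
    R.kap G i * l1 (R.B G i t) * ‖R.b (i + 1) o t‖ + ‖R.f G i o t‖ + R.ec G i t ≤
      cr_Ko G R (i + 1) t := by
  have h1 := h.cr_kap_l1 H (i := i) (by omega)
  have h2 := h.cr_norm_b H hi o
  have h3 := (h.cr0 H).ec_le H i
  have h4 := (h.cr0 H).f_le' H i o
  have hu := H.un_pos (i + 1)
  have hd := G.d_pos (i + 1)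
  have h5 : R.kap G i * l1 (R.B G i t) * ‖R.b (i + 1) o t‖ ≤
      11 * G.d (i + 1) * (11 * R.un G (i + 1)) := by gcongr
  have h6 := G.pow_lt (a := 0) (b := 32) (by norm_num)
  rw [pow_zero] at h6
  have h8 : 0 < G.d (i + 1) * R.un G (i + 1) := by positivity
  unfold cr_Ko
  nlinarith

lemma cr_Kl {i : ℕ} (hi : i < J) (o : Fin 4) :
    R.kap G (i - 1) * l1 (R.B G (i - 1) t) * l1 (R.c i o t) + G.d i * l1 (R.b i o t) +
      G.N i * (G.ell i * ‖R.b i o t‖ + 3 * R.eb G i t) ≤ G.N i * cr_Ko G R i t := by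
  have h1 := h.cr_kap_c_l1 H hi o
  have h2 := h.cr_norm_b H hi o
  have h3 := (h.cr0 H).eb_le H i
  have hu := H.un_pos i
  have hd := G.d_pos i
  have hN := G.N_pos i
  have hJ := H.Jk_nonneg t
  have h4 : G.ell i * ‖R.b i o t‖ ≤ G.d i * (11 * R.un G i) :=
    mul_le_mul (G.cr_ell_le i) h2 (norm_nonneg _) hd.le
  have h5 : G.d i * l1 (R.b i o t) ≤ G.d i * (3 * G.N i * (11 * R.un G i)) := by
    gcongr
    exact (H.spb i o t).l1_le.trans (by unfold Geo.N at *; gcongr)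
  have h6 := G.pow_lt (a := 0) (b := 32) (by norm_num)
  have h7 := G.pow_lt (a := 0) (b := 12) (by norm_num)
  rw [pow_zero] at h6 h7
  have h8 : 0 < G.d i * R.un G i := by positivity
  have h9 : 1033 * (G.d i * R.un G i) + (G.ell i * ‖R.b i o t‖ + 3 * R.eb G i t) ≤ cr_Ko G R i t := by
    unfold cr_Ko
    nlinarith
  have h10 := mul_le_mul_of_nonneg_left h9 hN.le
  linarith

end Bnd

/-- The amplitude of an old level hardly moves during a stage. -/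
theorem cr_drift_le (H : IsNet G R) {t0 t1 : ℝ} {EE : ℝ → ℝ} (h0 : 0 ≤ t0) (h1 : t1 ≤ t0 + G.Δ J)
    (hB : ∀ u ∈ Icc t0 t1, Bnd G R J AA u (EE u)) (hj : ∀ u ∈ Icc t0 t1, Jb G R J u)
    {i : ℕ} (hi : i < J) : ∀ t ∈ Icc t0 t1, |R.aa G i t - R.aa G i t0| ≤ (G.t ^ 9)⁻¹ := by
  intro t ht
  have hΔ := G.Δ_pos J
  have hu := H.un_pos i
  have hN := G.N_pos i
  have hb := H.bh_pos i
  have hT := pow_pos G.t_pos 9
  have hq : ((1 : ℝ) / 2) ^ (J - i) ≤ 1 := pow_le_one₀ (by norm_num) (by norm_num)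
  have a1 : ∀ o, l1 (R.b i o t - R.b i o t0) ≤ G.N i * ((G.t ^ 9)⁻¹ * R.un G i) := fun o => by
    have := l1_sub_le_of_deriv (K := G.N i * ((G.t ^ 9)⁻¹ * R.un G i / G.Δ J)) (b := t1) h0
      (H.spb i o) (fun u hu' => by
        obtain ⟨D, hD, hl⟩ := H.b_l1_deriv i o (h0.trans hu'.1)
        refine ⟨D, hD, hl.trans (((hB u hu').cr_Kl H hi o).trans ?_)⟩
        gcongr
        rw [le_div_iff₀ hΔ, le_inv_mul_iff₀ hT]
        have := cr_Ko_small H (hj u hu') hi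
        nlinarith) t ht
    refine this.trans ?_
    have h2 : (t - t0) / G.Δ J ≤ 1 := by rw [div_le_one hΔ]; linarith [ht.2]
    calc _ = G.N i * ((G.t ^ 9)⁻¹ * R.un G i) * ((t - t0) / G.Δ J) := by ring
      _ ≤ G.N i * ((G.t ^ 9)⁻¹ * R.un G i) * 1 := by gcongr
      _ = _ := mul_one _
  have a2 : l1 (R.B G i t - R.B G i t0) ≤ R.Om * (G.N i * ((G.t ^ 9)⁻¹ * R.un G i)) := by
    unfold Raw.B
    rw [comb_sub]
    exact H.l1_comb_le i a1
  have a3 : R.Om * (G.N i * R.un G i) ≤ R.bh G i := by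
    rw [← H.un_mul i]
    have h2 : G.N i ≤ l1 (G.φ i) := le_l1_ph _
    have h3 := H.Om_lo
    calc R.Om * (G.N i * R.un G i) = R.un G i * (R.Om * G.N i) := by ring
      _ ≤ _ := by gcongr
  have a4 : R.aa G i t - R.aa G i t0 = (ev 0 (R.B G i t - R.B G i t0)).re / R.bh G i := by
    simp only [Raw.aa, map_sub, Complex.sub_re]; ring
  rw [a4, abs_div, abs_of_pos hb, div_le_iff₀ hb]
  calc _ ≤ ‖ev 0 (R.B G i t - R.B G i t0)‖ := Complex.abs_re_le_norm _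
    _ ≤ _ := norm_ev_le _ _
    _ ≤ _ := a2
    _ = (G.t ^ 9)⁻¹ * (R.Om * (G.N i * R.un G i)) := by ring
    _ ≤ _ := by gcongr

end

end Pool.Agent.Work.MP_6bf1e5_an.Ell
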