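import Pool.Agent.Work.MP_6bf1e5_an.Ell.CrudeA

/-!
The single steps of the barrier argument of a stage.
-/

open Set Complex Filter Topology
open scoped InnerProductSpace ComplexConjugate
open Pool.Agent.Work.MP_6bf1e5_an.B (Z3 R3)
open Pool.Agent.Work.MP_6bf1e5_an.Dec

namespace Pool.Agent.Work.MP_6bf1e5_an.Ell

noncomputable section

variable {G : Geo} {R : Raw} {J : ℕ} {t t0 E : ℝ} {AA : ℕ → ℝ}

/-- The junk acting on a ladder. -/
lemma cr_jk_nc (H : IsNet G R) (hj : Jb G R J t) {i : ℕ} (hi : i ≤ J) :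
    G.t ^ 31 * (G.t ^ 11 * G.Wc * (G.N i * R.Jk t)) ≤
      (1 / 2) ^ (J - i) * (R.bh G i * G.lam J ^ 2) := by
  have h1 := H.jk_old hj hi
  have h2 := H.un_hi i
  have hJ := H.Jk_nonneg t
  have hN := G.N_pos i
  have hu := H.un_pos i
  have h3 : G.t ^ 42 * G.Wc ≤ Real.exp (G.t ^ 30) := by
    have a1 := G.cr_pow_le_exp_pow (k := 42) (m := 20) (by norm_num) (by norm_num)
    have a2 := G.pow_lt (a := 20) (b := 30) (by norm_num)
    have a3 := pow_pos G.t_pos 20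
    calc G.t ^ 42 * G.Wc ≤ Real.exp (G.t ^ 20) * Real.exp (G.t ^ 20) := by
          unfold Geo.Wc; gcongr
      _ = Real.exp (G.t ^ 20 + G.t ^ 20) := (Real.exp_add _ _).symm
      _ ≤ _ := Real.exp_le_exp.mpr (by linarith)
  have h4 : G.N i * R.un G i ≤ R.bh G i := by linarith [mul_pos hN hu]
  calc _ = G.N i * (G.t ^ 42 * G.Wc * R.Jk t) := by ring
    _ ≤ G.N i * (Real.exp (G.t ^ 30) * R.Jk t) := by gcongr
    _ ≤ G.N i * ((1 / 2) ^ (J - i) * (R.un G i * G.lam J ^ 2)) := by gcongr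
    _ = (1 / 2) ^ (J - i) * (G.N i * R.un G i * G.lam J ^ 2) := by ring
    _ ≤ _ := by gcongr

lemma Geo.cr_exp_le_xs (G : Geo) : Real.exp (-(G.t ^ 21 / 4)) ≤ G.xs / 4 := by
  have a1 := G.cr_pow_le_exp_pow (k := 31) (m := 20) (by norm_num) (by norm_num)
  have a2 := G.pow_lt (a := 20) (b := 21) (by norm_num)
  have a3 := pow_pos G.t_pos 20
  have a4 := G.pow_lt (a := 30) (b := 31) (by norm_num)
  have a5 := pow_pos G.t_pos 30
  have a6 : 4 * G.t ^ 30 ≤ Real.exp (G.t ^ 21 / 4) :=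
    le_trans (by linarith) (a1.trans (Real.exp_le_exp.mpr (by linarith)))
  rw [Real.exp_neg, Geo.xs, show (G.t ^ 30)⁻¹ / 4 = (4 * G.t ^ 30)⁻¹ by rw [mul_inv]; ring]
  exact inv_anti₀ (by positivity) a6

lemma Geo.cr_xs_le_one (G : Geo) : G.xs ≤ 1 := inv_le_one_of_one_le₀ (one_le_pow₀ G.one_le_t)

lemma Geo.cr_floor (G : Geo) : Real.exp (-G.t ^ 50) ≤ G.xs * G.xs := by
  have a1 := G.cr_pow_le_exp_pow (k := 60) (m := 50) (by norm_num) (by norm_num)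
  have := G.t_pos
  rw [Real.exp_neg, Geo.xs, ← mul_inv, ← pow_add]
  exact inv_anti₀ (by positivity) a1

namespace Bnd

variable (H : IsNet G R) (h : Bnd G R J AA t E) (hj : Jb G R J t)

include H h hj

lemma cr_step_b (ht : t0 ≤ t) {i : ℕ} (hi : i < J) (o : Fin 4)
    (e : ‖R.b i o t - ((AA i * R.un G i : ℝ) : ℂ) • G.φ i‖ ^ 2 -
      (1 / 10 ^ 20 * cr_ww (J - i) t0 (G.Δ J) t * R.un G i) ^ 2 = 0) :
    ∃ D < 0, HD (fun t => ‖R.b i o t - ((AA i * R.un G i : ℝ) : ℂ) • G.φ i‖ ^ 2 -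
      (1 / 10 ^ 20 * cr_ww (J - i) t0 (G.Δ J) t * R.un G i) ^ 2) D t := by
  obtain ⟨D, hD, hl⟩ := H.b_deriv i o h.t0 (AA i * R.un G i)
  have hw := cr_ww_lo (m := J - i) (by omega) (G.Δ_pos J) ht
  have hu := H.un_pos i
  refine cr_sq_step (K := cr_Ko G R i t) hD
    (((cr_hd_ww (J - i) t0 (G.Δ J) t).const_mul (1 / 10 ^ 20)).mul_const (R.un G i)) rfl
    (norm_nonneg _) (by positivity) e (hl.trans ?_) (cr_Ko_lt H hj hi le_rfl)
  gcongr
  exact h.cr_Kb H hi o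

lemma cr_step_c (ht : t0 ≤ t) {i : ℕ} (hi : i < J) (o : Fin 4)
    (e : ‖R.c i o t‖ ^ 2 - (30 * cr_ww (J - i) t0 (G.Δ J) t * R.un G i) ^ 2 = 0) :
    ∃ D < 0, HD (fun t => ‖R.c i o t‖ ^ 2 - (30 * cr_ww (J - i) t0 (G.Δ J) t * R.un G i) ^ 2) D t := by
  have hw := cr_ww_lo (m := J - i) (by omega) (G.Δ_pos J) ht
  have hu := H.un_pos i
  have W0 : 0 < 30 * cr_ww (J - i) t0 (G.Δ J) t * R.un G i := by positivity
  rcases i with _ | i
  · rw [H.c0, norm_zero] at e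
    nlinarith
  obtain ⟨D, hD, hl⟩ := H.c_deriv i o h.t0
  refine cr_sq_step (K := cr_Ko G R (i + 1) t) hD
    (((cr_hd_ww (J - (i + 1)) t0 (G.Δ J) t).const_mul 30).mul_const (R.un G (i + 1))) rfl
    (norm_nonneg _) W0 e (hl.trans ?_) (cr_Ko_lt H hj hi (by norm_num))
  gcongr
  exact h.cr_Kc H hi o

lemma cr_step_y (ht : t0 ≤ t) {i : ℕ} (hi : i < J)
    (e : R.nc G i t - 30 * cr_ww (J - i) t0 (G.Δ J) t * R.bh G i = 0) :
    ∃ D < 0, HD (fun t => R.nc G i t - 30 * cr_ww (J - i) t0 (G.Δ J) t * R.bh G i) D t := by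
  have hw := cr_ww_lo (m := J - i) (by omega) (G.Δ_pos J) ht
  have hb := H.bh_pos i
  have hΔ := G.Δ_pos J
  have h1 : 15 * R.bh G i ≤ R.nc G i t := by nlinarith
  obtain ⟨D, hD, hl⟩ := (h.cr0 H).nc_deriv H i (by linarith)
  refine ⟨_, ?_, hD.sub (((cr_hd_ww (J - i) t0 (G.Δ J) t).const_mul 30).mul_const (R.bh G i))⟩
  have h2 := cr_jk_nc H hj hi.le
  have h3 := G.cr_exp_le_xs
  have h4 := G.cr_xs_le_one
  have hDD := G.D_pos i
  have h5 : Real.exp (-(G.t ^ 21 / 4)) * (G.D i * R.bh G i) ≤ 1 * (G.D i * R.bh G i) := by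
    gcongr; linarith
  have h6 : G.D i / 2 * (15 * R.bh G i) ≤ G.D i / 2 * R.nc G i t := by gcongr
  have h7 : 0 < G.D i * R.bh G i := by positivity
  set X := G.t ^ 11 * G.Wc * (G.N i * R.Jk t)
  set q : ℝ := (1 / 2) ^ (J - i)
  have hq : 0 < q := by positivity
  have h8 : X ≤ q * R.bh G i / G.Δ J := by
    rw [le_div_iff₀ hΔ]
    have hX : 0 ≤ X := by
      have := G.t_pos; have := G.Wc_pos; have := G.N_pos i; have := H.Jk_nonneg t
      positivity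
    have a1 : G.t ^ 1 ≤ G.t ^ 31 := G.pow_le (by norm_num)
    have a2 := G.cr_lam_sq_mul_Δ J
    have : G.t * (X * G.Δ J) ≤ G.t * (q * R.bh G i) := by
      calc G.t * (X * G.Δ J) = G.t ^ 1 * X * G.Δ J := by ring
        _ ≤ G.t ^ 31 * X * G.Δ J := by gcongr
        _ ≤ q * (R.bh G i * G.lam J ^ 2) * G.Δ J := by gcongr
        _ = G.t * (q * R.bh G i) := by rw [← a2]; ring
    exact le_of_mul_le_mul_left this G.t_pos
  have h9 : 30 * (q / 2 / G.Δ J) * R.bh G i = 15 * (q * R.bh G i / G.Δ J) := by ring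
  have h10 : 0 < q * R.bh G i / G.Δ J := by positivity
  linarith

lemma cr_step_cury {E0 g0 : ℝ} (hg : 0 ≤ g0) (hE : E = Ex t0 E0 g0 t)
    (e : R.nc G J t - Ex t0 E0 g0 t * R.bh G J = 0) :
    ∃ D < 0, HD (fun t => R.nc G J t - Ex t0 E0 g0 t * R.bh G J) D t := by
  have hb := H.bh_pos J
  have hx := G.xs_pos
  have hE1 := h.Elo
  rw [hE] at hE1
  have h1 : G.xs * R.bh G J ≤ R.nc G J t := by nlinarith
  obtain ⟨D, hD, hl⟩ := (h.cr0 H).nc_deriv H J (lt_of_lt_of_le (by positivity) h1)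
  refine ⟨_, ?_, hD.sub ((cr_hd_Ex t0 E0 g0 t).mul_const (R.bh G J))⟩
  have h2 := cr_jk_nc H hj le_rfl
  have h3 := G.cr_exp_le_xs
  have hDD := G.D_pos J
  have h5 : Real.exp (-(G.t ^ 21 / 4)) * (G.D J * R.bh G J) ≤ G.xs / 4 * (G.D J * R.bh G J) := by
    gcongr
  have h6 : G.D J / 2 * (G.xs * R.bh G J) ≤ G.D J / 2 * R.nc G J t := by gcongr
  have h7 : 0 ≤ g0 * Ex t0 E0 g0 t * R.bh G J := by
    have : 0 ≤ Ex t0 E0 g0 t := by linarith
    positivity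
  set X := G.t ^ 11 * G.Wc * (G.N J * R.Jk t)
  have h8 : 8 * X ≤ G.xs * (G.D J * R.bh G J) := by
    have hX : 0 ≤ X := by
      have := G.t_pos; have := G.Wc_pos; have := G.N_pos J; have := H.Jk_nonneg t
      positivity
    have a1 := G.pow_lt (a := 30) (b := 31) (by norm_num)
    have a2 : G.lam J ^ 2 ≤ G.D J :=
      le_mul_of_one_le_left (sq_nonneg _) (Real.one_le_exp (by have := G.t_pos; positivity))
    have a3 := pow_pos G.t_pos 30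
    rw [Geo.xs, le_inv_mul_iff₀ a3]
    rw [Nat.sub_self, pow_zero, one_mul] at h2
    calc G.t ^ 30 * (8 * X) = 8 * G.t ^ 30 * X := by ring
      _ ≤ G.t ^ 31 * X := by gcongr; linarith
      _ ≤ R.bh G J * G.lam J ^ 2 := h2
      _ ≤ R.bh G J * G.D J := by gcongr
      _ = _ := mul_comm _ _
  have h9 : 0 < G.xs * (G.D J * R.bh G J) := by positivity
  linarith

omit hj in
lemma cr_fl : Real.exp (-G.t ^ 50) * R.bh G (J + 1) ≤ G.xs * E * R.bh G (J + 1) := by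
  have hb := H.bh_pos (J + 1)
  have hx := G.xs_pos
  have := h.Elo
  gcongr
  exact G.cr_floor.trans (by gcongr)

lemma cr_step_upy {E0 g0 : ℝ} (hg : 0 ≤ g0) (hE : E = Ex t0 E0 g0 t) {i : ℕ} (hi : J + 1 ≤ i)
    (e : R.nc G i t - G.θ ^ (i - J) * (G.xs * Ex t0 E0 g0 t * R.bh G (J + 1)) = 0) :
    ∃ D < 0, HD (fun t => R.nc G i t -
      G.θ ^ (i - J) * (G.xs * Ex t0 E0 g0 t * R.bh G (J + 1))) D t := by
  subst hE
  have hb := H.bh_pos (J + 1)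
  have hx := G.xs_pos
  have hθ := G.θ_pos
  have hd := G.d_pos (J + 1)
  have hE : 0 < Ex t0 E0 g0 t := hx.trans_le h.Elo
  obtain ⟨D, hD, hl⟩ := (h.cr0 H).up_y H h.up hj (h.cr_fl H) hi (by linarith)
  refine ⟨_, ?_, hD.sub
    ((((cr_hd_Ex t0 E0 g0 t).const_mul G.xs).mul_const (R.bh G (J + 1))).const_mul (G.θ ^ (i - J)))⟩
  have h1 : 0 < R.nc G i t := by
    rw [sub_eq_zero.mp e]; positivity
  have h2 : 0 < 10 * G.d (J + 1) * R.nc G i t := by positivity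
  have h3 : 0 ≤ G.θ ^ (i - J) * (G.xs * (g0 * Ex t0 E0 g0 t) * R.bh G (J + 1)) := by positivity
  linarith

lemma cr_step_upl {E0 g0 : ℝ} (hg : 0 ≤ g0) (hE : E = Ex t0 E0 g0 t) {i : ℕ} (hi : J + 2 ≤ i)
    (e : G.Wc * R.nl G i t - G.θ ^ (i - J - 1) * (G.xs * Ex t0 E0 g0 t * R.bh G (J + 1)) = 0) :
    ∃ D < 0, HD (fun t => G.Wc * R.nl G i t -
      G.θ ^ (i - J - 1) * (G.xs * Ex t0 E0 g0 t * R.bh G (J + 1))) D t := by
  subst hE
  have hb := H.bh_pos (J + 1)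
  have hx := G.xs_pos
  have hθ := G.θ_pos
  have hW := G.Wc_pos
  have hd := G.d_pos (J + 1)
  have hE : 0 < Ex t0 E0 g0 t := hx.trans_le h.Elo
  obtain ⟨D, hD, hl⟩ := (h.cr0 H).up_l H h.up hj (h.cr_fl H) hi (by linarith)
  refine ⟨_, ?_, (hD.const_mul G.Wc).sub ((((cr_hd_Ex t0 E0 g0 t).const_mul G.xs).mul_const
    (R.bh G (J + 1))).const_mul (G.θ ^ (i - J - 1)))⟩
  have h1 : 0 < G.Wc * R.nl G i t := by
    rw [sub_eq_zero.mp e]; positivity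
  have h2 : 0 < 10 * G.d (J + 1) * (G.Wc * R.nl G i t) := by positivity
  have h3 : 0 ≤ G.θ ^ (i - J - 1) * (G.xs * (g0 * Ex t0 E0 g0 t) * R.bh G (J + 1)) := by positivity
  have h4 := mul_le_mul_of_nonneg_left hl hW.le
  linarith

end Bnd

/-- The barrier of the current level. -/
def cr_Lc (G : Geo) (R : Raw) (J : ℕ) (t0 E0 g0 t : ℝ) : ℝ :=
  3 * (Ex t0 E0 g0 t * R.un G J) * Ex t0 1 ((G.t ^ 8)⁻¹ * G.d J) t

lemma Bnd.cr_step_lev (H : IsNet G R) {j : ℕ} {E0 g0 : ℝ} (h : Bnd G R (j + 1) AA t (Ex t0 E0 g0 t))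
    (hj : Jb G R (j + 1) t) (ht : t0 ≤ t) (hg : g0 = G.d (j + 1) * (R.aa G j t0 - 1))
    (dr : |R.aa G j t - R.aa G j t0| ≤ (G.t ^ 9)⁻¹)
    (e : R.lev (j + 1) t - cr_Lc G R (j + 1) t0 E0 g0 t = 0) :
    ∃ D < 0, HD (fun t => R.lev (j + 1) t - cr_Lc G R (j + 1) t0 E0 g0 t) D t := by
  have hu := H.un_pos (j + 1)
  have hd := G.d_pos (j + 1)
  have hT := G.t_pos
  have hE : 0 < Ex t0 E0 g0 t := G.xs_pos.trans_le h.Elo
  have h1 : 1 ≤ Ex t0 1 ((G.t ^ 8)⁻¹ * G.d (j + 1)) t := cr_le_Ex zero_le_one (by positivity) ht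
  have h2 : 3 * (Ex t0 E0 g0 t * R.un G (j + 1)) ≤ R.lev (j + 1) t := by
    rw [sub_eq_zero.mp e]
    exact le_mul_of_one_le_right (by positivity) h1
  obtain ⟨ha, -, mv, κ, hp⟩ := h.old H (Nat.lt_succ_self j)
  have hA := h.oldA j (Nat.lt_succ_self j)
  have ha0 : 0 < R.aa G j t := by have := (abs_le.mp ha).1; linarith
  have hσ : ∀ y, R.kap G j * ‖R.A G j t * y‖ ≤ G.d (j + 1) * R.aa G j t * ‖y‖ := fun y => by
    have e1 : R.kap G j * ‖R.A G j t * y‖ = ‖((R.kap G j : ℂ) • R.A G j t) * y‖ := by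
      rw [smul_mul_assoc, norm_smul, Complex.norm_real, Real.norm_of_nonneg (H.kap_pos j).le]
    rw [e1, H.kap_A ha0, smul_mul_assoc, norm_smul, Complex.norm_real,
      Real.norm_of_nonneg (by positivity)]
    exact mul_le_mul_of_nonneg_left (hp.tau.norm_mul_le y) (by positivity)
  set W := (G.t ^ 20)⁻¹ * (G.d (j + 1) * (Ex t0 E0 g0 t * R.un G (j + 1))) with hW
  obtain ⟨D, hD, hl⟩ := H.lev_deriv (F := W - R.eb G (j + 1) t - R.ec G j t) h.t0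
    (lt_of_lt_of_le (by positivity) h2) hσ (fun o => by have := h.err_cur H hj o; linarith)
  have hL : HD (cr_Lc G R (j + 1) t0 E0 g0)
      ((g0 + (G.t ^ 8)⁻¹ * G.d (j + 1)) * cr_Lc G R (j + 1) t0 E0 g0 t) t :=
    HasDerivWithinAt.congr_deriv ((((cr_hd_Ex t0 E0 g0 t).mul_const (R.un G (j + 1))).const_mul 3).mul
      (cr_hd_Ex t0 1 ((G.t ^ 8)⁻¹ * G.d (j + 1)) t)) (by simp only [cr_Lc]; ring)
  refine ⟨_, ?_, hD.sub hL⟩
  rw [← sub_eq_zero.mp e]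
  have a1 : 2 * (G.t ^ 9)⁻¹ ≤ (G.t ^ 8)⁻¹ := by
    have := G.pow_lt (a := 8) (b := 9) (by norm_num)
    have := pow_pos hT 8
    rw [← div_eq_mul_inv, div_le_iff₀ (by positivity), le_inv_mul_iff₀ (by positivity)]
    linarith
  have a2 : (G.t ^ 20)⁻¹ ≤ (G.t ^ 9)⁻¹ := inv_anti₀ (by positivity) (G.pow_le (by norm_num))
  have a3 : G.d (j + 1) * R.aa G j t - G.d (j + 1) - (g0 + (G.t ^ 8)⁻¹ * G.d (j + 1)) ≤
      -((G.t ^ 9)⁻¹ * G.d (j + 1)) := by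
    have := mul_le_mul_of_nonneg_left (show R.aa G j t - R.aa G j t0 + (G.t ^ 9)⁻¹ ≤ (G.t ^ 8)⁻¹ by
      linarith [(abs_le.mp dr).2]) hd.le
    rw [hg]; linarith
  have a4 := mul_le_mul_of_nonneg_right a3 (R.lev_nonneg (j + 1) t)
  have a5 : (G.t ^ 9)⁻¹ * G.d (j + 1) * (3 * (Ex t0 E0 g0 t * R.un G (j + 1))) ≤
      (G.t ^ 9)⁻¹ * G.d (j + 1) * R.lev (j + 1) t := by gcongr
  have a6 : W ≤ (G.t ^ 9)⁻¹ * (G.d (j + 1) * (Ex t0 E0 g0 t * R.un G (j + 1))) := by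
    rw [hW]; gcongr
  have a7 : 0 < (G.t ^ 9)⁻¹ * (G.d (j + 1) * (Ex t0 E0 g0 t * R.un G (j + 1))) := by positivity
  linarith

/-- Barrier for finitely many sequences of functions. -/
theorem cr_fam_nat {κ : Type} [Finite κ] {F : κ → ℕ → ℝ → ℝ} {P : κ → ℕ → Prop} {a b : ℝ} {M : ℕ}
    (out : ∀ k i, P k i → M ≤ i → ∀ t ∈ Icc a b, F k i t ≤ 0)
    (hc : ∀ k i, ContinuousOn (F k i) (Icc a b)) (h0 : ∀ k i, P k i → F k i a ≤ 0)
    (step : ∀ t ∈ Ico a b, (∀ u ∈ Icc a t, ∀ k i, P k i → F k i u ≤ 0) → ∀ k i, P k i →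
      F k i t = 0 → ∃ D < 0, HasDerivWithinAt (F k i) D (Ici t) t) :
    ∀ t ∈ Icc a b, ∀ k i, P k i → F k i t ≤ 0 := by
  have fin : Set.Finite {x : {x : κ × ℕ // P x.1 x.2} | x.1.2 < M} := by
    refine Set.Finite.subset (Set.Finite.preimage Subtype.val_injective.injOn
      ((Set.finite_univ (α := κ)).prod (Set.finite_lt_nat M))) fun x hx => ⟨trivial, hx⟩
  have := family_barrier' (H := fun x : {x : κ × ℕ // P x.1 x.2} => F x.1.1 x.1.2) fin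
    (fun x hx => out _ _ x.2 (not_lt.mp hx)) (fun x => hc _ _) (fun x => h0 _ _ x.2)
    (fun t ht hp x => step t ht (fun u hu k i hk => hp u hu ⟨(k, i), hk⟩) _ _ x.2)
  exact fun t ht k i hk => this t ht ⟨(k, i), hk⟩

end

end Pool.Agent.Work.MP_6bf1e5_an.Ell
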