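import Pool.Agent.Work.MP_6bf1e5_an.Ell.CurB

/-!
The current level keeps its shape.
-/

open Set Complex Filter Topology
open scoped InnerProductSpace ComplexConjugate
open Pool.Agent.Work.MP_6bf1e5_an.B (Z3 R3)
open Pool.Agent.Work.MP_6bf1e5_an.Dec

namespace Pool.Agent.Work.MP_6bf1e5_an.Ell

noncomputable section

variable {G : Geo} {R : Raw}

lemma cur_ev_comb (H : IsNet G R) (J : ℕ) (k : ℝ) :
    ev 0 (R.comb G J fun _ => ((k * R.un G J : ℝ) : ℂ) • G.φ J) = ((k * R.bh G J : ℝ) : ℂ) := by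
  rw [ev_zero_comb, ← Finset.sum_mul, map_smul, Geo.φ, ev_zero_ph, ← H.un_mul J,
    ← IsNet.sum_om, Geo.φ]
  push_cast
  simp only [smul_eq_mul]
  ring

/-- The derivative of the comb. -/
lemma cur_comb (H : IsNet G R) {J : ℕ} {t k η : ℝ} (h0 : 0 ≤ t)
    (h : ∀ o, ∃ D : V, HD (R.b J o) (D + ((k * R.un G J : ℝ) : ℂ) • G.φ J) t ∧
      l1 D ≤ η * R.un G J * l1 (G.φ J)) :
    ∃ (B' : V) (D : ℝ), HD (R.B G J) B' t ∧ HD (R.aa G J) D t ∧ Sp (fun i => 2 * G.rB J i) B' ∧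
      ev 0 B' = ((R.bh G J * D : ℝ) : ℂ) ∧ |D - k| ≤ η ∧ l1 B' ≤ (|k| + η) * R.bh G J := by
  choose D hD hl using h
  have hb := H.bh_pos J
  have hu := H.un_pos J
  have hB : HD (R.B G J) (R.comb G J fun o => D o + ((k * R.un G J : ℝ) : ℂ) • G.φ J) t :=
    hd_comb J hD
  set B' := R.comb G J fun o => D o + ((k * R.un G J : ℝ) : ℂ) • G.φ J with hB'
  have hev := HD.ev3 hB h0 (H.spB J) 0
  have haa : HD (R.aa G J) ((ev 0 B').re / R.bh G J) t := (HD.re hev).div_const _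
  have e1 : ev 0 B' = ((R.bh G J * ((ev 0 B').re / R.bh G J) : ℝ) : ℂ) := by
    refine HD.uniq hev ?_ h0
    simpa only [H.ev_zero_B] using HD.ofReal (haa.const_mul (R.bh G J))
  have e2 : B' - R.comb G J (fun _ => ((k * R.un G J : ℝ) : ℂ) • G.φ J) = R.comb G J D := by
    rw [hB', comb_sub]; simp
  have l2 : l1 (R.comb G J D) ≤ η * R.bh G J := by
    refine (H.l1_comb_le J hl).trans (le_of_eq ?_)
    rw [← H.un_mul J]; ring
  have l3 : l1 (R.comb G J fun _ => ((k * R.un G J : ℝ) : ℂ) • G.φ J) ≤ |k| * R.bh G J := by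
    refine (H.l1_comb_le J (c := |k| * R.un G J * l1 (G.φ J)) fun _ => ?_).trans (le_of_eq ?_)
    · rw [l1_smul, Complex.norm_real, Real.norm_eq_abs, abs_mul, abs_of_pos hu]
    · rw [← H.un_mul J]; ring
  refine ⟨B', _, hB, haa, HD.sp hB h0 (H.spB J), e1, ?_, ?_⟩
  · have e3 := congrArg (ev 0) e2
    rw [map_sub, cur_ev_comb H, e1, ← Complex.ofReal_sub] at e3
    have e4 := (norm_ev_le 0 (R.comb G J D)).trans l2
    rw [← e3, Complex.norm_real, Real.norm_eq_abs, mul_comm k, ← mul_sub, abs_mul, abs_of_pos hb,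
      mul_comm η] at e4
    exact le_of_mul_le_mul_left e4 hb
  · rw [← sub_add_cancel B' (R.comb G J fun _ => ((k * R.un G J : ℝ) : ℂ) • G.φ J), e2]
    refine (l1_add_le _ _).trans ?_
    linarith

/-- The derivative of the normalised comb. -/
lemma cur_dp (H : IsNet G R) {J : ℕ} {t D K : ℝ} {B' : V} (pos : 0 < R.aa G J t)
    (hB : HD (R.B G J) B' t) (hD : HD (R.aa G J) D t) (sp : Sp (fun i => 2 * G.rB J i) B')
    (e : ev 0 B' = ((R.bh G J * D : ℝ) : ℂ)) (h1 : |D| ≤ K * R.aa G J t)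
    (h2 : l1 B' ≤ K * (R.aa G J t * R.bh G J)) (h3 : l1 (R.B G J t) ≤ 2 * (R.aa G J t * R.bh G J)) :
    ∃ p', HD (R.pB G J) p' t ∧ Sp (fun i => 2 * G.rB J i) p' ∧ ev 0 p' = 0 ∧ l1 p' ≤ 3 * K := by
  have hb := H.bh_pos J
  have hab : 0 < R.bh G J * R.aa G J t := mul_pos hb pos
  have hi := HD.ofReal ((hD.const_mul (R.bh G J)).fun_inv hab.ne')
  have key := hi.fun_smul hB
  have ee : R.pB G J = fun t => (((R.bh G J * R.aa G J t)⁻¹ : ℝ) : ℂ) • R.B G J t := by
    funext s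
    rw [Raw.pB, H.ev_zero_B, Complex.ofReal_inv]
  rw [ee]
  refine ⟨_, key, (sp.smul _).add ((H.spB J t).smul _), ?_, ?_⟩
  · rw [map_add, map_smul, map_smul, e, H.ev_zero_B, smul_eq_mul, smul_eq_mul,
      ← Complex.ofReal_mul, ← Complex.ofReal_mul, ← Complex.ofReal_add, Complex.ofReal_eq_zero]
    field_simp
    ring
  · refine (l1_add_le _ _).trans ?_
    rw [l1_smul, l1_smul, Complex.norm_real, Complex.norm_real, Real.norm_eq_abs,
      Real.norm_eq_abs, abs_of_pos (inv_pos.mpr hab), abs_div, abs_neg, abs_mul, abs_of_pos hb,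
      abs_of_pos (pow_pos hab 2)]
    have m1 : (R.bh G J * R.aa G J t)⁻¹ * l1 B' ≤ K := by
      rw [inv_mul_le_iff₀ hab]; linarith
    have m2 : R.bh G J * |D| / (R.bh G J * R.aa G J t) ^ 2 * l1 (R.B G J t) ≤ 2 * K := by
      rw [div_mul_eq_mul_div, div_le_iff₀ (pow_pos hab 2)]
      have hK : 0 ≤ K * R.aa G J t := (abs_nonneg D).trans h1
      calc R.bh G J * |D| * l1 (R.B G J t)
          ≤ R.bh G J * (K * R.aa G J t) * (2 * (R.aa G J t * R.bh G J)) := by
            have := l1_nonneg (R.B G J t)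
            gcongr
        _ = 2 * K * (R.bh G J * R.aa G J t) ^ 2 := by ring
    linarith

theorem Run.cur {G : Geo} {R : Raw} (H : IsNet G R) {j : ℕ} {t0 c g0 : ℝ} {AA : ℕ → ℝ}
    (S : Run G R j AA t0 c g0) :
    ∀ t ∈ Icc t0 c, Cur G R (j + 1) g0 t (Ex t0 (AA (j + 1)) g0 t) := by
  obtain ⟨a, a0, ha⟩ := S.cur_amp H
  intro t ht
  have h0 : 0 ≤ t := S.st.t0.trans ht.1
  have hu := H.un_pos (j + 1)
  have hd := G.d_pos (j + 1)
  have hb := H.bh_pos (j + 1)
  have hι : 0 < G.ι := by have := G.t_pos; unfold Geo.ι; positivity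
  obtain ⟨apos, -, aE⟩ := ha t ht
  have hE := Run.cur_E_le ha ht
  have cl := fun o => S.cur_close H ha a0 ht o
  obtain ⟨k1, k2⟩ := H.aa_close (j := j + 1) (t := t) (a := a t) (a1 := 2 / 10 ^ 30 * a t)
    (by positivity) fun o => (cl o).1.trans (le_of_eq (by ring))
  rw [abs_of_pos apos] at k2
  obtain ⟨k3, k4⟩ := abs_le.mp k1
  obtain ⟨k5, k6⟩ := abs_le.mp aE
  have pos : 0 < R.aa G (j + 1) t := by linarith
  have sw : ∀ X : V, ‖X - ((a t * R.un G (j + 1) : ℝ) : ℂ) • G.φ (j + 1)‖ ≤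
      2 / 10 ^ 30 * (a t * R.un G (j + 1)) →
      ‖X - ((R.aa G (j + 1) t * R.un G (j + 1) : ℝ) : ℂ) • G.φ (j + 1)‖ ≤
      1 / 10 ^ 29 * (R.aa G (j + 1) t * R.un G (j + 1)) := fun X hX => by
    have e : X - ((R.aa G (j + 1) t * R.un G (j + 1) : ℝ) : ℂ) • G.φ (j + 1) =
        (X - ((a t * R.un G (j + 1) : ℝ) : ℂ) • G.φ (j + 1)) -
          (((R.aa G (j + 1) t - a t) * R.un G (j + 1) : ℝ) : ℂ) • G.φ (j + 1) := by
      push_cast; module
    rw [e]
    refine (norm_sub_le _ _).trans ?_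
    rw [norm_smul, G.norm_φ, mul_one, Complex.norm_real, Real.norm_eq_abs, abs_mul, abs_of_pos hu]
    have m1 := mul_le_mul_of_nonneg_right k1 hu.le
    have m2 := mul_le_mul_of_nonneg_right k3 hu.le
    have m3 := mul_pos apos hu
    linarith
  obtain ⟨B', D, hB, hD, sp, e, d1, d2⟩ := cur_comb H (J := j + 1) (t := t)
    (k := (G.d (j + 1) * R.aa G j t - G.d (j + 1)) * a t) (η := 1 / 10 ^ 27 * G.d (j + 1) * a t)
    h0 fun o => by
      obtain ⟨D, h1, h2⟩ := S.cur_der H ha a0 ht o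
      exact ⟨D, h1, h2.trans (le_of_eq (by ring))⟩
  obtain ⟨r1, r2⟩ := abs_le.mp ((S.cur_rate ht).trans
    (mul_le_mul_of_nonneg_right (cur_tinv G (k := 9) (by norm_num)) hd.le))
  obtain ⟨d3, d4⟩ := abs_le.mp d1
  have g1 := S.g0_lo
  have g2 := S.g0_hi
  have hda : 0 < G.d (j + 1) * a t := mul_pos hd apos
  have q1 := mul_le_mul_of_nonneg_right r1 apos.le
  have q2 := mul_le_mul_of_nonneg_right r2 apos.le
  have q3 := mul_le_mul_of_nonneg_right g1 apos.le
  have q4 := mul_le_mul_of_nonneg_right g2 apos.le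
  have g0p : 0 < g0 := by linarith
  have q5 := mul_le_mul_of_nonneg_left k3 g0p.le
  have q6 := mul_le_mul_of_nonneg_left k4 g0p.le
  have q7 := mul_le_mul_of_nonneg_left k3 hd.le
  refine ⟨?_, ⟨D, hD, by linarith, by linarith⟩, fun o => sw _ (cl o).1, fun o => sw _ (cl o).2,
    ?_, ?_⟩
  · rw [abs_le]; constructor <;> linarith
  · have t1 := cur_tinv G (k := 10) (by norm_num)
    have t2 := cur_tinv_succ G (show 4 < 10 by norm_num)
    have t3 : 0 < (G.t ^ 4)⁻¹ := inv_pos.mpr (pow_pos G.t_pos _)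
    refine (H.drv_of_close (a := R.aa G (j + 1) t * R.un G (j + 1)) (a1 := 1 / 10 ^ 29)
      (a2 := 2 * G.ι) (by positivity) (by norm_num) (by unfold Geo.ι; linarith)
      (fun o => sw _ (cl o).1) fun o o' => (S.cur_diff H ha a0 ht o o').trans ?_).mono
      (fun i => le_rfl) ?_
    · have m2 := mul_le_mul_of_nonneg_right k3 (mul_pos hι hu).le
      have m3 := mul_pos apos (mul_pos hι hu)
      linarith
    · rw [div_eq_mul_inv]
      unfold Geo.ι
      linarith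
  · have hk : |(G.d (j + 1) * R.aa G j t - G.d (j + 1)) * a t| ≤ 10 * (G.d (j + 1) * a t) := by
      rw [abs_le]; constructor <;> linarith
    obtain ⟨p', p1, p2, p3, p4⟩ := cur_dp H (K := 20 * G.d (j + 1)) pos hB hD sp e
      (by rw [abs_le]; constructor <;> linarith)
      (d2.trans (by
        rw [← mul_assoc]
        exact mul_le_mul_of_nonneg_right (by linarith) hb.le))
      (k2.trans (by
        rw [← mul_assoc 2]
        exact mul_le_mul_of_nonneg_right (by linarith) hb.le))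
    exact ⟨p', p1, p2, p3, by linarith⟩

end

end Pool.Agent.Work.MP_6bf1e5_an.Ell
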