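import Pool.Agent.Work.MP_6bf1e5_an.Ell.SumsA

/-!
Bounds of the errors.
-/

open Set Complex Filter Topology
open scoped InnerProductSpace ComplexConjugate
open Pool.Agent.Work.MP_6bf1e5_an.B (Z3 R3)
open Pool.Agent.Work.MP_6bf1e5_an.Dec

namespace Pool.Agent.Work.MP_6bf1e5_an.Ell

noncomputable section

namespace Geo

variable (G : Geo)

/-- A very small number. -/
def ss : ℝ := Real.exp (-(3 * G.t ^ 19)) / G.t ^ 300

lemma ss_pos : 0 < G.ss := by have := G.t_pos; unfold ss; positivity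

lemma ss_mul : G.t ^ 300 * G.ss = Real.exp (-(3 * G.t ^ 19)) := by
  have := G.t_pos; unfold ss; field_simp

lemma ss_mul_le : G.t ^ 300 * G.ss ≤ 1 := by
  rw [G.ss_mul, Real.exp_le_one_iff]
  have := pow_pos G.t_pos 19
  linarith

lemma pow_ss_le {k : ℕ} (hk : k ≤ 300) : G.t ^ k * G.ss ≤ 1 :=
  (mul_le_mul_of_nonneg_right (G.pow_le hk) G.ss_pos.le).trans G.ss_mul_le

lemma ss_le_one : G.ss ≤ 1 := by simpa using G.pow_ss_le (k := 0) (by norm_num)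

lemma exp_le_ss {a b : ℝ} (hab : a + 4 * G.t ^ 19 ≤ b) : Real.exp a ≤ G.ss * Real.exp b := by
  have ht := G.t_pos
  have h1 : G.t ^ 300 ≤ Real.exp (G.t ^ 19) := by
    refine (G.pow_le_exp (by norm_num)).trans (Real.exp_le_exp.2 ?_)
    have h2 : G.t ^ 1 ≤ G.t ^ 19 := G.pow_le (by norm_num)
    rw [pow_one] at h2
    exact (div_le_self ht.le (by norm_num)).trans h2
  unfold ss
  rw [div_mul_eq_mul_div, le_div_iff₀ (pow_pos ht _)]
  calc Real.exp a * G.t ^ 300 ≤ Real.exp a * Real.exp (G.t ^ 19) := by gcongr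
    _ = Real.exp (a + G.t ^ 19) := by rw [Real.exp_add]
    _ ≤ Real.exp (-(3 * G.t ^ 19) + b) := Real.exp_le_exp.2 (by linarith)
    _ = _ := by rw [Real.exp_add]

lemma tau0_le_ss : G.tau0 ≤ G.ss := by
  have h := G.exp_le_ss (a := -(99 * G.t ^ 19)) (b := 0) (by have := pow_pos G.t_pos 19; linarith)
  rw [Real.exp_zero, mul_one] at h
  exact G.tau0_le.trans h

lemma one_le_ss_m0 : 1 ≤ G.ss * G.m0 := by
  have h := G.exp_le_ss (a := 0) (b := 100 * G.t ^ 19) (by have := pow_pos G.t_pos 19; linarith)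
  rw [Real.exp_zero] at h
  exact h.trans (mul_le_mul_of_nonneg_left G.m0_lo G.ss_pos.le)

lemma sb_one_le_m0 : 1 ≤ G.m0 :=
  G.one_le_ss_m0.trans (by simpa using mul_le_mul_of_nonneg_right G.ss_le_one G.m0_pos.le)

lemma m0_le_ss_Wc : G.m0 ≤ G.ss * G.Wc := by
  refine G.m0_hi.trans (G.exp_le_ss ?_)
  have h1 : 10 ^ 100 * G.t ^ 19 ≤ G.t ^ 20 := G.pow_lt (by norm_num)
  have h2 := pow_pos G.t_pos 19
  linarith

lemma one_le_ss_Wc : 1 ≤ G.ss * G.Wc := G.sb_one_le_m0.trans G.m0_le_ss_Wc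

lemma sb_one_le_Wc : 1 ≤ G.Wc :=
  G.one_le_ss_Wc.trans (by simpa using mul_le_mul_of_nonneg_right G.ss_le_one G.Wc_pos.le)

lemma ss_fifty : Real.exp (G.t ^ 50) ≤ G.ss * Real.exp (G.t ^ 60) := by
  refine G.exp_le_ss ?_
  have h1 : 10 ^ 100 * G.t ^ 50 ≤ G.t ^ 60 := G.pow_lt (by norm_num)
  have h2 : G.t ^ 19 ≤ G.t ^ 50 := G.pow_le (by norm_num)
  have h3 := pow_pos G.t_pos 19
  linarith

lemma ss_thirty : 1 ≤ G.ss * Real.exp (G.t ^ 30) := by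
  have h1 : 10 ^ 100 * G.t ^ 19 ≤ G.t ^ 30 := G.pow_lt (by norm_num)
  have h3 := pow_pos G.t_pos 19
  have h := G.exp_le_ss (a := 0) (b := G.t ^ 30) (by linarith)
  rwa [Real.exp_zero] at h

lemma sb_θ_pow (k : ℕ) : G.θ ^ k ≤ 1 :=
  pow_le_one₀ G.θ_pos.le (inv_le_one_of_one_le₀ (one_le_pow₀ G.one_le_t))

end Geo

/-- Division by a huge number. -/
lemma sb_huge {s M x c : ℝ} (hs : 0 ≤ s) (hM : 1 ≤ s * M) (hx : 0 ≤ x) (h : M * x ≤ c) :
    x ≤ s * c :=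
  calc x ≤ s * M * x := le_mul_of_one_le_left hx hM
    _ = s * (M * x) := by ring
    _ ≤ s * c := mul_le_mul_of_nonneg_left h hs

lemma sb_eb_num {T s b u x y z p L E τ : ℝ} (hT : 10 ^ 100 ≤ T) (hs : 0 ≤ s) (hb : 0 ≤ b)
    (hu : 0 ≤ u) (hx0 : 0 ≤ x) (hy0 : 0 ≤ y) (hz0 : 0 ≤ z) (hp0 : 0 ≤ p)
    (hx : x ≤ u) (hx' : x ≤ 10 * b) (hy : y ≤ s * u) (hy' : y ≤ 30 * b) (hz : z ≤ 10 * b)
    (hp : p ≤ 11 * b) (hL : L ≤ s * (20 * b)) (hE : E ≤ 10 ^ 7 * T ^ 21 * (s * b * u))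
    (hτ : τ ≤ s) :
    τ * p * x + T ^ 50 * y * (y + x + z) + z * (z + y) + L * x + E ≤
      z ^ 2 + T ^ 51 * (s * b * u) := by
  have hT1 : 1 ≤ T := le_trans (by norm_num) hT
  have hT0 : 0 ≤ T := zero_le_one.trans hT1
  have hX : 0 ≤ s * b * u := by positivity
  have h1 : τ * p * x ≤ 11 * (s * b * u) :=
    calc τ * p * x ≤ s * (11 * b) * u := by gcongr
      _ = _ := by ring
  have h2 : T ^ 50 * y * (y + x + z) ≤ 50 * T ^ 50 * (s * b * u) :=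
    calc T ^ 50 * y * (y + x + z) ≤ T ^ 50 * (s * u) * (30 * b + 10 * b + 10 * b) := by gcongr
      _ = _ := by ring
  have h3 : z * y ≤ 10 * (s * b * u) :=
    calc z * y ≤ 10 * b * (s * u) := by gcongr
      _ = _ := by ring
  have h4 : L * x ≤ 20 * (s * b * u) :=
    calc L * x ≤ s * (20 * b) * u := by gcongr
      _ = _ := by ring
  have h5 : T ^ 21 * (s * b * u) ≤ T ^ 50 * (s * b * u) := by gcongr; norm_num
  have h6 : 1 * (s * b * u) ≤ T ^ 50 * (s * b * u) := by gcongr; exact one_le_pow₀ hT1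
  have h7 : 10 ^ 100 * (T ^ 50 * (s * b * u)) ≤ T ^ 51 * (s * b * u) :=
    calc 10 ^ 100 * (T ^ 50 * (s * b * u)) ≤ T * (T ^ 50 * (s * b * u)) := by gcongr
      _ = _ := by ring
  have h8 : 0 ≤ T ^ 50 * (s * b * u) := mul_nonneg (pow_nonneg hT0 _) hX
  have h9 : z * (z + y) = z ^ 2 + z * y := by ring
  linarith

lemma sb_ec_num {T s b u x p L E τ : ℝ} (hT : 10 ^ 100 ≤ T) (hs : 0 ≤ s) (hb : 0 ≤ b)
    (hu : 0 ≤ u) (hx0 : 0 ≤ x) (hp0 : 0 ≤ p) (hx : x ≤ u)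
    (hp : p ≤ 11 * b) (hL : L ≤ s * (20 * b)) (hE : E ≤ 10 ^ 7 * T ^ 21 * (s * b * u))
    (hτ : τ ≤ s) : τ * p * x + L * x + E ≤ T ^ 22 * (s * b * u) := by
  have hT1 : 1 ≤ T := le_trans (by norm_num) hT
  have hT0 : 0 ≤ T := zero_le_one.trans hT1
  have hX : 0 ≤ s * b * u := by positivity
  have h1 : τ * p * x ≤ 11 * (s * b * u) :=
    calc τ * p * x ≤ s * (11 * b) * u := by gcongr
      _ = _ := by ring
  have h4 : L * x ≤ 20 * (s * b * u) :=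
    calc L * x ≤ s * (20 * b) * u := by gcongr
      _ = _ := by ring
  have h6 : 1 * (s * b * u) ≤ T ^ 21 * (s * b * u) := by gcongr; exact one_le_pow₀ hT1
  have h7 : 10 ^ 100 * (T ^ 21 * (s * b * u)) ≤ T ^ 22 * (s * b * u) :=
    calc 10 ^ 100 * (T ^ 21 * (s * b * u)) ≤ T * (T ^ 21 * (s * b * u)) := by gcongr
      _ = _ := by ring
  linarith

variable {G : Geo} {R : Raw} {J : ℕ} {t : ℝ}

/-- The basic comparison of the quadratic terms with the damping. -/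
lemma IsNet.sb_lam_bh_sq (H : IsNet G R) (i : ℕ) :
    10 ^ 46 * (G.lam i * R.bh G i ^ 2) ≤ G.t ^ 53 * (G.N i * (G.d i * R.un G i)) := by
  have h1 := H.bh_hi i
  have h2 := H.un_lo i
  have h3 := G.lam_pos i
  have h4 := H.bh_pos i
  have h5 := G.t_pos
  have h6 := G.N_pos i
  have h7 := H.un_pos i
  have h8 : 10 ^ 48 * R.bh G i * (G.lam i * R.bh G i) ≤
      G.t ^ 53 * G.lam i * (G.lam i * (60 * (G.N i * R.un G i))) := by gcongr
  have h9 : 0 ≤ G.lam i * R.bh G i ^ 2 := by positivity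
  unfold Geo.d
  linarith

lemma IsNet.sb_bh_le_lam (H : IsNet G R) (i : ℕ) : R.bh G i ≤ G.t ^ 53 * G.lam i := by
  have h1 := H.bh_hi i
  have h4 := H.bh_pos i
  linarith

namespace Cr0

variable (H : IsNet G R) (h : Cr0 G R J t)

include h in
lemma sb_Nch (i : ℕ) : G.N i * R.ch G i t ≤ G.ss * (30 * R.bh G i) := by
  refine sb_huge G.ss_pos.le G.one_le_ss_Wc (mul_nonneg (G.N_pos i).le (R.ch_nonneg G i t)) ?_
  have := h.nc i
  unfold Raw.nc at this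
  linarith

omit h in
lemma sb_Nlev_sq (i : ℕ) : G.t ^ 63 * (G.N i * R.lev (i + 1) t) ^ 2 = R.nl G (i + 1) t ^ 2 := by
  unfold Raw.nl
  rw [mul_pow, mul_pow, G.N_succ_sq]; ring

include H h

lemma sb_Nch' (i : ℕ) : G.N i * R.ch G i t ≤ 30 * R.bh G i := by
  have := h.sb_Nch i
  have h1 := G.ss_le_one
  have h2 := H.bh_pos i
  nlinarith

lemma sb_Nlev_sq_le (i : ℕ) : G.t ^ 21 * (G.N i * R.lev (i + 1) t) ^ 2 ≤ 100 * R.bh G i ^ 2 := by
  have h1 := sb_Nlev_sq (G := G) (R := R) (t := t) i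
  have h2 := h.nl (i + 1)
  rw [H.bh_succ] at h2
  have h3 : R.nl G (i + 1) t ^ 2 ≤ (10 * (G.t ^ 21 * R.bh G i)) ^ 2 :=
    pow_le_pow_left₀ (R.nl_nonneg G _ t) h2 2
  have h4 : 0 < G.t ^ 42 := pow_pos G.t_pos _
  refine le_of_mul_le_mul_left ?_ h4
  calc G.t ^ 42 * (G.t ^ 21 * (G.N i * R.lev (i + 1) t) ^ 2)
      = G.t ^ 63 * (G.N i * R.lev (i + 1) t) ^ 2 := by ring
    _ ≤ (10 * (G.t ^ 21 * R.bh G i)) ^ 2 := h1 ▸ h3
    _ = _ := by ring

lemma sb_Nlev_le (i : ℕ) : G.N i * R.lev (i + 1) t ≤ 10 * R.bh G i := by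
  have h1 := h.sb_Nlev_sq_le H i
  have h2 : 1 ≤ G.t ^ 21 := one_le_pow₀ G.one_le_t
  have h3 := H.bh_pos i
  have h4 : (G.N i * R.lev (i + 1) t) ^ 2 ≤ (10 * R.bh G i) ^ 2 := by
    nlinarith [sq_nonneg (G.N i * R.lev (i + 1) t)]
  exact le_of_pow_le_pow_left₀ two_ne_zero (by positivity) h4

lemma sb_pv_le (i : ℕ) : 0 ≤ R.pv G i t ∧ R.pv G i t ≤ 11 * R.bh G i := by
  cases i with
  | zero => have := H.bh_pos 0; simp only [Raw.pv]; exact ⟨le_rfl, by positivity⟩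
  | succ i =>
    simp only [Raw.pv]
    have h1 := h.nu_le H i
    have h2 := H.bh_mono (Nat.le_succ i)
    exact ⟨R.nu_nonneg G i t, by linarith⟩

lemma sb_Low_le (i : ℕ) : R.Low G i t ≤ G.ss * (20 * R.bh G i) :=
  sb_huge G.ss_pos.le G.one_le_ss_m0 (R.Low_nonneg G i t) (h.Low_le H i)

lemma sb_ET_far (i : ℕ) : G.N i ^ 2 * R.ET (i + G.kk - 1) t ≤
    10 ^ 7 * G.t ^ 21 * (G.ss * R.bh G i * (30 * R.bh G i)) := by
  have h1 := sb_huge G.ss_pos.le G.one_le_ss_m0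
    (mul_nonneg (sq_nonneg _) (H.ET_nonneg _ t)) (h.ET_far H i)
  have h2 : 0 ≤ G.t ^ 21 * (G.ss * R.bh G i ^ 2) := by
    have := G.ss_pos; have := G.t_pos; positivity
  linarith

/-- The error in the equation of the first comb. -/
lemma sb_eb_core (i : ℕ) {u : ℝ} (hu : 0 ≤ u) (hx : R.nl G i t ≤ u)
    (hy : G.N i * R.ch G i t ≤ G.ss * u)
    (hE : G.N i ^ 2 * R.ET (i + G.kk - 1) t ≤ 10 ^ 7 * G.t ^ 21 * (G.ss * R.bh G i * u)) :
    G.N i * R.eb G i t ≤ 10 ^ 6 * G.lam i *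
      ((G.N i * R.lev (i + 1) t) ^ 2 + G.t ^ 51 * (G.ss * R.bh G i * u)) +
        10 * (G.N i * R.Jk t) := by
  have hN := G.N_pos i
  have h1 := sb_eb_num G.t_big G.ss_pos.le (H.bh_pos i).le hu (R.nl_nonneg G i t)
    (mul_nonneg hN.le (R.ch_nonneg G i t)) (mul_nonneg hN.le (R.lev_nonneg (i + 1) t))
    (h.sb_pv_le H i).1 hx (h.nl i) hy (h.sb_Nch' H i) (h.sb_Nlev_le H i) (h.sb_pv_le H i).2
    (h.sb_Low_le H i) hE G.tau0_le_ss
  have h2 := mul_le_mul_of_nonneg_left h1 (show 0 ≤ 10 ^ 6 * G.lam i by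
    have := G.lam_pos i; positivity)
  refine le_trans (le_of_eq ?_) (add_le_add h2 le_rfl)
  unfold Raw.eb Raw.nl
  ring

lemma sb_Low_mix (i : ℕ) : R.LowY G i t + G.tau0 / G.m0 * R.LowL G i t ≤
    G.t ^ 51 * (G.ss * (R.bh G i / G.m0 ^ 2)) := by
  have hm := G.m0_pos
  have hs := G.ss_pos
  have hb := H.bh_pos i
  have ht := G.t_pos
  have h1 := h.LowY_le H i
  have h2 := h.LowL_le H i
  have h3 := R.LowY_nonneg G i t
  have h4 := R.LowL_nonneg G i t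
  have h5 : G.m0 ^ 2 * R.LowY G i t ≤ G.ss * (40 * G.t ^ 50 * R.bh G i) :=
    calc G.m0 ^ 2 * R.LowY G i t = G.m0 * (G.m0 * R.LowY G i t) := by ring
      _ ≤ G.ss * G.Wc * (G.m0 * R.LowY G i t) := by gcongr; exact G.m0_le_ss_Wc
      _ = G.ss * (G.Wc * G.m0 * R.LowY G i t) := by ring
      _ ≤ _ := by gcongr
  have h6 : G.m0 ^ 2 * (G.tau0 / G.m0 * R.LowL G i t) ≤ G.ss * (20 * R.bh G i) :=
    calc G.m0 ^ 2 * (G.tau0 / G.m0 * R.LowL G i t) = G.tau0 * (G.m0 * R.LowL G i t) := by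
          field_simp
      _ ≤ _ := by gcongr; exact G.tau0_le_ss
  have h7 : 10 ^ 100 * G.t ^ 50 * (G.ss * R.bh G i) ≤ G.t ^ 51 * (G.ss * R.bh G i) := by
    gcongr; exact G.pow_lt (by norm_num)
  have h8 : 1 * (G.ss * R.bh G i) ≤ G.t ^ 50 * (G.ss * R.bh G i) := by
    gcongr; exact one_le_pow₀ G.one_le_t
  have h9 : 0 ≤ G.ss * R.bh G i := by positivity
  refine le_of_mul_le_mul_left ?_ (pow_pos hm 2)
  have h10 : G.m0 ^ 2 * (G.t ^ 51 * (G.ss * (R.bh G i / G.m0 ^ 2))) =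
      G.t ^ 51 * (G.ss * R.bh G i) := by field_simp
  rw [h10, mul_add]
  linarith

/-- The error in the equation of the second comb. -/
lemma sb_ec_core (i : ℕ) {u : ℝ} (hu : 0 ≤ u) (hx : R.nl G (i + 1) t ≤ u)
    (hE : G.N (i + 1) ^ 2 * R.ET (i + G.kk) t ≤
      10 ^ 7 * G.t ^ 21 * (G.ss * R.bh G (i + 1) * u)) :
    G.N (i + 1) * R.ec G i t ≤ G.t ^ 12 * G.lam (i + 1) *
      (G.t ^ 22 * (G.ss * R.bh G (i + 1) * u) +
        G.t ^ 51 * (G.ss * (R.bh G (i + 1) / G.m0 ^ 2)) * (G.N (i + 1) * ‖R.y i G.La t‖)) +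
        G.t ^ 12 * (G.N (i + 1) * R.Jk t) := by
  have hN := G.N_pos (i + 1)
  have h0 : R.nu G i t ≤ 11 * R.bh G (i + 1) := by
    have h1 := h.nu_le H i
    have h2 := H.bh_mono (Nat.le_succ i)
    linarith
  have h1 := sb_ec_num G.t_big G.ss_pos.le (H.bh_pos (i + 1)).le hu (R.nl_nonneg G (i + 1) t)
    (R.nu_nonneg G i t) hx h0 (h.sb_Low_le H (i + 1)) hE G.tau0_le_ss
  have h3 := mul_le_mul_of_nonneg_right (h.sb_Low_mix H (i + 1))
    (mul_nonneg hN.le (norm_nonneg (R.y i G.La t)))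
  have h2 := mul_le_mul_of_nonneg_left (add_le_add h1 h3) (show 0 ≤ G.t ^ 12 * G.lam (i + 1) by
    have := G.lam_pos (i + 1); have := G.t_pos; positivity)
  refine le_trans (le_of_eq ?_) (add_le_add h2 le_rfl)
  unfold Raw.ec Raw.nl
  ring

lemma sb_Ny_le (i : ℕ) :
    G.N (i + 1) * ‖R.y i G.La t‖ ≤ G.t ^ 32 * (G.ss * (30 * R.bh G (i + 1))) := by
  have h1 := R.y_le_ch G i (le_trans (by norm_num) G.ten_le_La) le_rfl t
  have h2 := h.sb_Nch i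
  have h3 := H.bh_mono (Nat.le_succ i)
  have h4 := G.N_succ_hi i
  have h5 := G.t_pos
  have h6 := G.N_pos i
  have h7 := G.ss_pos
  calc G.N (i + 1) * ‖R.y i G.La t‖ ≤ G.t ^ 32 * G.N i * R.ch G i t := by gcongr
    _ = G.t ^ 32 * (G.N i * R.ch G i t) := by ring
    _ ≤ G.t ^ 32 * (G.ss * (30 * R.bh G i)) := by gcongr
    _ ≤ _ := by gcongr

/-- The crude form of `sb_eb_core`. -/
lemma sb_eb_crude (i : ℕ) : G.N i * R.eb G i t ≤ 10 ^ 6 * G.lam i * (G.N i * R.lev (i + 1) t) ^ 2 +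
    G.N i * (G.t ^ 150 * G.ss * (G.d i * R.un G i) + 10 * R.Jk t) := by
  have hb := H.bh_pos i
  have hs := G.ss_pos
  have ht := G.t_pos
  have hl := G.lam_pos i
  have hX : 0 < G.N i * (G.d i * R.un G i) :=
    mul_pos (G.N_pos i) (mul_pos (G.d_pos i) (H.un_pos i))
  have h1 := h.sb_eb_core H i (u := 30 * R.bh G i) (by positivity) (by linarith [h.nl i])
    (h.sb_Nch i) (h.sb_ET_far H i)
  have h2 := mul_le_mul_of_nonneg_left (H.sb_lam_bh_sq i) (show 0 ≤ G.t ^ 51 * G.ss by positivity)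
  have h3 : G.t ^ 104 * (G.ss * (G.N i * (G.d i * R.un G i))) ≤
      G.t ^ 150 * (G.ss * (G.N i * (G.d i * R.un G i))) := by
    gcongr; exacts [G.one_le_t, by norm_num]
  have h4 : 0 ≤ G.t ^ 51 * G.ss * (G.lam i * R.bh G i ^ 2) := by positivity
  linarith

/-- The crude form of `sb_ec_core`. -/
lemma sb_ec_crude (i : ℕ) :
    R.ec G i t ≤ G.t ^ 150 * G.ss * (G.d (i + 1) * R.un G (i + 1)) + G.t ^ 12 * R.Jk t := by
  have hb := H.bh_pos (i + 1)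
  have hs := G.ss_pos
  have ht := G.t_pos
  have hl := G.lam_pos (i + 1)
  have hN := G.N_pos (i + 1)
  have hX : 0 < G.N (i + 1) * (G.d (i + 1) * R.un G (i + 1)) :=
    mul_pos hN (mul_pos (G.d_pos _) (H.un_pos _))
  have hk := G.ten_le_kk
  have hE := h.sb_ET_far H (i + 1)
  rw [show i + 1 + G.kk - 1 = i + G.kk by omega] at hE
  have h1 := h.sb_ec_core H i (u := 30 * R.bh G (i + 1)) (by positivity)
    (by linarith [h.nl (i + 1)]) hE
  have h5 : R.bh G (i + 1) / G.m0 ^ 2 ≤ R.bh G (i + 1) :=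
    div_le_self hb.le (one_le_pow₀ G.sb_one_le_m0)
  have h6 : G.N (i + 1) * ‖R.y i G.La t‖ ≤ G.t ^ 32 * (1 * (30 * R.bh G (i + 1))) :=
    (h.sb_Ny_le H i).trans (by gcongr; exact G.ss_le_one)
  have h7 : G.t ^ 51 * (G.ss * (R.bh G (i + 1) / G.m0 ^ 2)) * (G.N (i + 1) * ‖R.y i G.La t‖) ≤
      G.t ^ 51 * (G.ss * R.bh G (i + 1)) * (G.t ^ 32 * (1 * (30 * R.bh G (i + 1)))) := by gcongr
  have h8 : G.t ^ 22 * (G.ss * R.bh G (i + 1) * (30 * R.bh G (i + 1))) ≤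
      G.t ^ 83 * (G.ss * R.bh G (i + 1) * (30 * R.bh G (i + 1))) := by
    gcongr; exacts [G.one_le_t, by norm_num]
  have h9 := mul_le_mul_of_nonneg_left (add_le_add h8 h7)
    (show 0 ≤ G.t ^ 12 * G.lam (i + 1) by positivity)
  have h2 := mul_le_mul_of_nonneg_left (H.sb_lam_bh_sq (i + 1))
    (show 0 ≤ G.t ^ 95 * G.ss by positivity)
  have h3 : G.t ^ 148 * (G.ss * (G.N (i + 1) * (G.d (i + 1) * R.un G (i + 1)))) ≤
      G.t ^ 150 * (G.ss * (G.N (i + 1) * (G.d (i + 1) * R.un G (i + 1)))) := by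
    gcongr; exacts [G.one_le_t, by norm_num]
  have h4 : 0 ≤ G.t ^ 95 * G.ss * (G.lam (i + 1) * R.bh G (i + 1) ^ 2) := by positivity
  refine le_of_mul_le_mul_left ?_ hN
  linarith

/-- The crude bound of the seed. -/
lemma sb_f_crude (i : ℕ) (o : Fin 4) :
    ‖R.f G i o t‖ ≤ G.t ^ 150 * G.ss * (G.d (i + 1) * R.un G (i + 1)) := by
  have hb := H.bh_pos (i + 1)
  have hs := G.ss_pos
  have ht := G.t_pos
  have hl := G.lam_pos (i + 1)
  have hN := G.N_pos (i + 1)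
  have hX : 0 < G.N (i + 1) * (G.d (i + 1) * R.un G (i + 1)) :=
    mul_pos hN (mul_pos (G.d_pos _) (H.un_pos _))
  have h1 : ‖R.f G i o t‖ ≤
      10 ^ 3 * G.t ^ 11 * (G.lam (i + 1) * R.bh G (i + 1)) * ‖R.y i G.La t‖ :=
    (le_mul_of_one_le_left (norm_nonneg _) (one_le_pow₀ G.sb_one_le_m0)).trans (h.f_le H i o)
  have h5 := mul_le_mul_of_nonneg_left h1 hN.le
  have h6 := mul_le_mul_of_nonneg_left (h.sb_Ny_le H i)
    (show 0 ≤ 10 ^ 3 * G.t ^ 11 * (G.lam (i + 1) * R.bh G (i + 1)) by positivity)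
  have h2 := mul_le_mul_of_nonneg_left (H.sb_lam_bh_sq (i + 1))
    (show 0 ≤ G.t ^ 43 * G.ss by positivity)
  have h3 : G.t ^ 96 * (G.ss * (G.N (i + 1) * (G.d (i + 1) * R.un G (i + 1)))) ≤
      G.t ^ 150 * (G.ss * (G.N (i + 1) * (G.d (i + 1) * R.un G (i + 1)))) := by
    gcongr; exacts [G.one_le_t, by norm_num]
  have h4 : 0 ≤ G.t ^ 43 * G.ss * (G.lam (i + 1) * R.bh G (i + 1) ^ 2) := by positivity
  refine le_of_mul_le_mul_left ?_ hN
  linarith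

/-- Errors for arbitrary levels. -/
lemma eb_le (i : ℕ) : R.eb G i t ≤ G.t ^ 32 / 100 * (G.d i * R.un G i) + 10 * R.Jk t := by
  have ht := G.t_pos
  have hl := G.lam_pos i
  have hN := G.N_pos i
  have hX : 0 < G.N i * (G.d i * R.un G i) := mul_pos hN (mul_pos (G.d_pos i) (H.un_pos i))
  have h1 := h.sb_eb_crude H i
  have h2 := mul_le_mul_of_nonneg_left (h.sb_Nlev_sq_le H i) hl.le
  have h3 := H.sb_lam_bh_sq i
  have h4 : 10 ^ 44 * (G.lam i * (G.N i * R.lev (i + 1) t) ^ 2) ≤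
      G.t ^ 32 * (G.N i * (G.d i * R.un G i)) := by
    refine le_of_mul_le_mul_left ?_ (pow_pos ht 21)
    linarith
  have h5 : G.t ^ 150 * G.ss * (G.N i * (G.d i * R.un G i)) ≤ 1 * (G.N i * (G.d i * R.un G i)) :=
    mul_le_mul_of_nonneg_right (G.pow_ss_le (by norm_num)) hX.le
  have h6 : 10 ^ 100 * G.t ^ 0 * (G.N i * (G.d i * R.un G i)) ≤
      G.t ^ 32 * (G.N i * (G.d i * R.un G i)) :=
    mul_le_mul_of_nonneg_right (G.pow_lt (by norm_num)) hX.le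
  rw [pow_zero] at h6
  have h7 : 0 ≤ G.lam i * (G.N i * R.lev (i + 1) t) ^ 2 := by positivity
  refine le_of_mul_le_mul_left ?_ hN
  linarith

lemma ec_le (i : ℕ) : R.ec G i t ≤ G.d (i + 1) * R.un G (i + 1) + G.t ^ 12 * R.Jk t :=
  (h.sb_ec_crude H i).trans (add_le_add (mul_le_of_le_one_left
    (mul_pos (G.d_pos _) (H.un_pos _)).le (G.pow_ss_le (by norm_num))) le_rfl)

lemma f_le' (i : ℕ) (o : Fin 4) : ‖R.f G i o t‖ ≤ G.d (i + 1) * R.un G (i + 1) :=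
  (h.sb_f_crude H i o).trans (mul_le_of_le_one_left
    (mul_pos (G.d_pos _) (H.un_pos _)).le (G.pow_ss_le (by norm_num)))

/-- Errors for the new level. -/
lemma err_new {u : ℝ} (hu : Up G R J t u) (hj : Jb G R J t)
    (fl : Real.exp (-G.t ^ 50) * R.bh G (J + 1) ≤ u) :
    G.N (J + 1) * (R.eb G (J + 1) t + R.ec G J t) ≤ Real.exp (-(3 * G.t ^ 19)) *
      (G.d (J + 1) * u +
        G.N (J + 1) * (G.lam (J + 1) * R.bh G (J + 1) / G.m0 ^ 2) * ‖R.y J G.La t‖) := by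
  have hb := H.bh_pos (J + 1)
  have hs := G.ss_pos
  have ht := G.t_pos
  have hl := G.lam_pos (J + 1)
  have hN := G.N_pos (J + 1)
  have hm := G.m0_pos
  have hu0 : 0 ≤ u := (R.nl_nonneg G _ t).trans hu.nw
  have hk := G.ten_le_kk
  have hθ : ∀ k : ℕ, ∀ x : ℝ, 0 ≤ x → G.θ ^ k * x ≤ x := fun k x hx =>
    mul_le_of_le_one_left hx (G.sb_θ_pow k)
  have hy : G.N (J + 1) * R.ch G (J + 1) t ≤ G.ss * u := by
    refine sb_huge hs.le G.one_le_ss_Wc (mul_nonneg hN.le (R.ch_nonneg G _ t)) ?_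
    have h1 := (hu.y (J + 1) le_rfl).trans (hθ _ _ hu0)
    unfold Raw.nc at h1
    linarith
  have hz : G.N (J + 1) * R.lev (J + 1 + 1) t ≤ G.ss * u := by
    have h1 := sb_huge hs.le G.one_le_ss_Wc (R.nl_nonneg G (J + 2) t)
      ((hu.l (J + 2) le_rfl).trans (hθ _ _ hu0))
    exact (mul_le_mul_of_nonneg_right (G.N_mono (by omega)) (R.lev_nonneg _ t)).trans h1
  have hE : G.N (J + 1) ^ 2 * R.ET (J + G.kk) t ≤
      10 ^ 7 * G.t ^ 21 * (G.ss * R.bh G (J + 1) * u) := by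
    have h0 := H.ET_nonneg (J + G.kk) t
    have h1 := (h.ET_up H hu (m := J + G.kk) (by omega)).trans (hθ _ _ (by positivity))
    have h2 : G.Wc * (G.N (J + G.kk) ^ 2 * R.ET (J + G.kk) t) ≤
        G.Wc ^ 2 * (G.N (J + G.kk) ^ 2 * R.ET (J + G.kk) t) := by
      gcongr; exact le_self_pow₀ G.sb_one_le_Wc (by norm_num)
    have h3 := sb_huge hs.le G.one_le_ss_Wc (by positivity) (h2.trans h1)
    have h4 : G.N (J + 1) ^ 2 * R.ET (J + G.kk) t ≤ G.N (J + G.kk) ^ 2 * R.ET (J + G.kk) t := by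
      gcongr; exact G.N_mono (by omega)
    have h5 : 1 * (G.ss * R.bh G (J + 1) * u) ≤ G.t ^ 21 * (G.ss * R.bh G (J + 1) * u) := by
      gcongr; exact one_le_pow₀ G.one_le_t
    have h6 : 0 ≤ G.ss * R.bh G (J + 1) * u := by positivity
    linarith
  have hJ : G.N (J + 1) * R.Jk t ≤ G.ss * (G.lam (J + 1) ^ 2 * u) := by
    have h0 : 0 ≤ G.N (J + 1) * R.Jk t := mul_nonneg hN.le (H.Jk_nonneg t)
    have hb' := H.bh_pos J
    have h1 := (H.jk_up hj (Nat.le_succ J)).trans (hθ _ _ (by positivity))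
    have h2 : R.bh G (J + 1) ≤ Real.exp (G.t ^ 50) * u := by
      have h3 := mul_le_mul_of_nonneg_left fl (Real.exp_pos (G.t ^ 50)).le
      rwa [← mul_assoc, ← Real.exp_add, add_neg_cancel, Real.exp_zero, one_mul] at h3
    have h3 : R.bh G J ≤ G.ss * Real.exp (G.t ^ 60) * u :=
      (H.bh_mono (Nat.le_succ J)).trans (h2.trans (by gcongr; exact G.ss_fifty))
    have h4 : G.lam (J + 1) ^ 2 * R.bh G J ≤
        G.lam (J + 1) ^ 2 * (G.ss * Real.exp (G.t ^ 60) * u) := by gcongr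
    refine le_of_mul_le_mul_left ?_ (Real.exp_pos (G.t ^ 60))
    calc _ ≤ _ := h1.trans h4
      _ = _ := by ring
  have hE' := hE
  rw [show J + G.kk = J + 1 + G.kk - 1 by omega] at hE'
  have h1 := h.sb_eb_core H (J + 1) hu0 hu.nw hy hE'
  have h2 := h.sb_ec_core H J hu0 hu.nw hE
  have h3 : (G.N (J + 1) * R.lev (J + 1 + 1) t) ^ 2 ≤ G.ss * u * (10 * R.bh G (J + 1)) := by
    rw [sq]
    exact mul_le_mul hz (h.sb_Nlev_le H (J + 1)) (mul_nonneg hN.le (R.lev_nonneg _ t))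
      (by positivity)
  have h4 : G.lam (J + 1) * (G.ss * R.bh G (J + 1) * u) ≤
      G.t ^ 53 * (G.ss * (G.lam (J + 1) ^ 2 * u)) :=
    calc G.lam (J + 1) * (G.ss * R.bh G (J + 1) * u)
        ≤ G.lam (J + 1) * (G.ss * (G.t ^ 53 * G.lam (J + 1)) * u) := by
          gcongr; exact H.sb_bh_le_lam _
      _ = _ := by ring
  rw [← G.ss_mul]
  unfold Geo.d
  generalize hY : G.N (J + 1) * ‖R.y J G.La t‖ = Y at h2
  have hY0 : 0 ≤ Y := hY ▸ mul_nonneg hN.le (norm_nonneg _)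
  have e1 : G.N (J + 1) * (G.lam (J + 1) * R.bh G (J + 1) / G.m0 ^ 2) * ‖R.y J G.La t‖ =
      G.lam (J + 1) * (R.bh G (J + 1) / G.m0 ^ 2) * Y := by rw [← hY]; ring
  rw [e1]
  have hc : 0 ≤ R.bh G (J + 1) / G.m0 ^ 2 := by positivity
  generalize R.bh G (J + 1) / G.m0 ^ 2 = c at h2 hc ⊢
  have h5 : G.t ^ 63 * (G.ss * (G.lam (J + 1) * c * Y)) ≤
      G.t ^ 300 * (G.ss * (G.lam (J + 1) * c * Y)) := by
    gcongr; exacts [G.one_le_t, by norm_num]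
  have hP : 0 ≤ G.ss * (G.lam (J + 1) ^ 2 * u) := by positivity
  have hQ : 0 ≤ G.lam (J + 1) * (G.ss * R.bh G (J + 1) * u) := by positivity
  have h6 := mul_le_mul_of_nonneg_left h3 hl.le
  have h7 := mul_le_mul_of_nonneg_left hJ (pow_pos ht 12).le
  have h8 := mul_le_mul_of_nonneg_left h4 (pow_pos ht 51).le
  have h9 : ∀ {k : ℕ}, k ≤ 51 → G.t ^ k * (G.lam (J + 1) * (G.ss * R.bh G (J + 1) * u)) ≤
      G.t ^ 51 * (G.lam (J + 1) * (G.ss * R.bh G (J + 1) * u)) := fun hk =>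
    mul_le_mul_of_nonneg_right (G.pow_le hk) hQ
  have h10 : ∀ {k : ℕ}, k < 300 → 10 ^ 100 * G.t ^ k * (G.ss * (G.lam (J + 1) ^ 2 * u)) ≤
      G.t ^ 300 * (G.ss * (G.lam (J + 1) ^ 2 * u)) := fun hk =>
    mul_le_mul_of_nonneg_right (G.pow_lt hk) hP
  have a1 := h9 (k := 0) (by norm_num)
  have a2 := h9 (k := 34) (by norm_num)
  have a3 := h10 (k := 0) (by norm_num)
  have a4 := h10 (k := 12) (by norm_num)
  have a5 := h10 (k := 104) (by norm_num)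
  rw [pow_zero] at a1 a3
  have a6 : 0 ≤ G.t ^ 300 * (G.ss * (G.lam (J + 1) ^ 2 * u)) := mul_nonneg (pow_pos ht _).le hP
  linarith

end Cr0

/-- Errors for the current level. -/
lemma Bnd.err_cur (H : IsNet G R) {j : ℕ} {AA : ℕ → ℝ} {E : ℝ} (h : Bnd G R (j + 1) AA t E)
    (hj : Jb G R (j + 1) t) (o : Fin 4) :
    ‖R.f G j o t‖ + R.eb G (j + 1) t + R.ec G j t ≤
      (G.t ^ 20)⁻¹ * (G.d (j + 1) * (E * R.un G (j + 1))) := by
  have hc := h.cr0 H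
  have hb := H.bh_pos (j + 1)
  have hs := G.ss_pos
  have ht := G.t_pos
  have hl := G.lam_pos (j + 1)
  have hN := G.N_pos (j + 1)
  have hun := H.un_pos (j + 1)
  have hE0 : 0 < E := G.xs_pos.trans_le h.Elo
  have hX : 0 < G.d (j + 1) * R.un G (j + 1) := mul_pos (G.d_pos _) hun
  have hE1 : 1 ≤ G.t ^ 30 * E := by
    have h1 := mul_le_mul_of_nonneg_left h.Elo (pow_pos ht 30).le
    rwa [Geo.xs, mul_inv_cancel₀ (pow_pos ht 30).ne'] at h1
  have hz : G.t ^ 81 * (G.N (j + 1) * R.lev (j + 1 + 1) t) ^ 2 ≤ 11 * (E * R.bh G (j + 1) ^ 2) := by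
    have h1 := Cr0.sb_Nlev_sq (G := G) (R := R) (t := t) (j + 1)
    have h2 : G.t ^ 9 * R.nl G (j + 1 + 1) t ≤ E * R.bh G (j + 1) := by
      have h3 := mul_le_mul_of_nonneg_left h.up.nw (pow_pos ht 9).le
      rw [H.bh_succ (j + 1), Geo.xs] at h3
      refine h3.trans (le_of_eq ?_)
      field_simp
    have h3 := pow_le_pow_left₀ (mul_nonneg (pow_pos ht 9).le (R.nl_nonneg G _ t)) h2 2
    have h4 : E * (E * R.bh G (j + 1) ^ 2) ≤ 11 * (E * R.bh G (j + 1) ^ 2) := by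
      gcongr; linarith [h.Ehi]
    calc G.t ^ 81 * (G.N (j + 1) * R.lev (j + 1 + 1) t) ^ 2
        = G.t ^ 18 * (G.t ^ 63 * (G.N (j + 1) * R.lev (j + 1 + 1) t) ^ 2) := by ring
      _ = (G.t ^ 9 * R.nl G (j + 1 + 1) t) ^ 2 := by rw [h1]; ring
      _ ≤ (E * R.bh G (j + 1)) ^ 2 := h3
      _ = E * (E * R.bh G (j + 1) ^ 2) := by ring
      _ ≤ _ := h4
  have hz' : G.t ^ 28 * (10 ^ 6 * G.lam (j + 1) * (G.N (j + 1) * R.lev (j + 1 + 1) t) ^ 2) ≤
      G.N (j + 1) * (E * (G.d (j + 1) * R.un G (j + 1))) := by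
    have h1 := mul_le_mul_of_nonneg_left hz hl.le
    have h2 := mul_le_mul_of_nonneg_left (H.sb_lam_bh_sq (j + 1)) hE0.le
    have h3 : 0 ≤ E * (G.lam (j + 1) * R.bh G (j + 1) ^ 2) := by positivity
    refine le_of_mul_le_mul_left ?_ (pow_pos ht 53)
    linarith
  have hJ : R.Jk t ≤ G.ss * (G.d (j + 1) * R.un G (j + 1)) := by
    refine sb_huge hs.le G.ss_thirty (H.Jk_nonneg t) ((H.jk_old hj le_rfl).trans ?_)
    have h1 : 0 ≤ R.un G (j + 1) * G.lam (j + 1) ^ 2 := by positivity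
    rw [Nat.sub_self, pow_zero]
    unfold Geo.d
    linarith
  have hB : G.t ^ 28 * R.eb G (j + 1) t ≤ E * (G.d (j + 1) * R.un G (j + 1)) +
      G.t ^ 28 * (G.t ^ 150 * G.ss * (G.d (j + 1) * R.un G (j + 1)) + 10 * R.Jk t) := by
    have h1 := mul_le_mul_of_nonneg_left (hc.sb_eb_crude H (j + 1)) (pow_pos ht 28).le
    refine le_of_mul_le_mul_left ?_ hN
    linarith
  have hC := mul_le_mul_of_nonneg_left (hc.sb_ec_crude H j) (pow_pos ht 28).le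
  have hF := mul_le_mul_of_nonneg_left (hc.sb_f_crude H j o) (pow_pos ht 28).le
  have hP : ∀ {k : ℕ}, k ≤ 270 → G.t ^ k * (G.ss * (G.d (j + 1) * R.un G (j + 1))) ≤
      E * (G.d (j + 1) * R.un G (j + 1)) := fun {k} hk =>
    calc G.t ^ k * (G.ss * (G.d (j + 1) * R.un G (j + 1)))
        ≤ G.t ^ 30 * E * (G.t ^ k * (G.ss * (G.d (j + 1) * R.un G (j + 1)))) :=
          le_mul_of_one_le_left (by positivity) hE1
      _ = G.t ^ (k + 30) * G.ss * (E * (G.d (j + 1) * R.un G (j + 1))) := by ring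
      _ ≤ _ := mul_le_of_le_one_left (by positivity) (G.pow_ss_le (by omega))
  have a1 := hP (k := 178) (by norm_num)
  have a2 := (mul_le_mul_of_nonneg_left hJ (pow_pos ht 28).le).trans (hP (by norm_num))
  have a3 := (mul_le_mul_of_nonneg_left hJ (pow_pos ht 40).le).trans (hP (by norm_num))
  have hS : G.t ^ 28 * (‖R.f G j o t‖ + R.eb G (j + 1) t + R.ec G j t) ≤
      15 * (E * (G.d (j + 1) * R.un G (j + 1))) := by linarith
  have hS0 : 0 ≤ ‖R.f G j o t‖ + R.eb G (j + 1) t + R.ec G j t :=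
    add_nonneg (add_nonneg (norm_nonneg _) (H.eb_nonneg _ t)) (H.ec_nonneg _ t)
  have a4 := mul_le_mul_of_nonneg_right (G.pow_lt (a := 20) (b := 28) (by norm_num)) hS0
  have a5 : 0 ≤ G.t ^ 20 * (‖R.f G j o t‖ + R.eb G (j + 1) t + R.ec G j t) := by positivity
  rw [← div_eq_inv_mul, le_div_iff₀ (pow_pos ht 20)]
  linarith

end

end Pool.Agent.Work.MP_6bf1e5_an.Ell
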