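import Pool.Agent.Work.MP_6bf1e5_an.Ell.Deriv
import Pool.Agent.Work.MP_6bf1e5_an.Ell.Sums

/-!
The current level keeps its shape: barriers for pairs.
-/

open Set Complex Filter Topology
open scoped InnerProductSpace ComplexConjugate
open Pool.Agent.Work.MP_6bf1e5_an.B (Z3 R3)
open Pool.Agent.Work.MP_6bf1e5_an.Dec

namespace Pool.Agent.Work.MP_6bf1e5_an.Ell

noncomputable section

lemma cur_re_inner_le (x y : V) : (⟪x, y⟫_ℂ).re ≤ ‖x‖ * ‖y‖ :=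
  (Complex.re_le_norm _).trans (norm_inner_le_norm x y)

lemma cur_re_inner_self (x : V) : (⟪x, x⟫_ℂ).re = ‖x‖ ^ 2 := by
  have := @norm_sq_eq_re_inner ℂ V _ _ _ x
  rw [this]; rfl

lemma cur_pair_ineq {n : N3} {p x y e1 e2 : V} {vb vc : Z3 → ℝ} {s d : ℝ} (hs : 0 ≤ s)
    (hp : ∀ f, ‖p * f‖ ≤ ‖f‖) (hb : 0 ≤ (⟪x, mulr vb x⟫_ℂ).re) (hc : 0 ≤ (⟪y, mulr vc y⟫_ℂ).re) :
    (⟪x, (s : ℂ) • pj n (dag p * y) - (d : ℂ) • x - mulr vb x + e1⟫_ℂ).re +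
      (⟪y, (s : ℂ) • (p * x) - (d : ℂ) • y - mulr vc y + e2⟫_ℂ).re ≤
      (s - d) * (‖x‖ ^ 2 + ‖y‖ ^ 2) + ‖x‖ * ‖e1‖ + ‖y‖ * ‖e2‖ := by
  have h1 : (⟪x, pj n (dag p * y)⟫_ℂ).re ≤ ‖x‖ * ‖y‖ :=
    (cur_re_inner_le _ _).trans (mul_le_mul_of_nonneg_left
      ((norm_pj_le _ _).trans (by rw [norm_dag_mul]; exact hp y)) (norm_nonneg _))
  have h2 : (⟪y, p * x⟫_ℂ).re ≤ ‖y‖ * ‖x‖ :=
    (cur_re_inner_le _ _).trans (mul_le_mul_of_nonneg_left (hp x) (norm_nonneg _))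
  have h3 := cur_re_inner_le x e1
  have h4 := cur_re_inner_le y e2
  have h5 := cur_re_inner_self x
  have h6 := cur_re_inner_self y
  simp only [inner_add_right, inner_sub_right, inner_smul_right, Complex.add_re, Complex.sub_re,
    Complex.re_ofReal_mul, h5, h6]
  have h7 := mul_le_mul_of_nonneg_left h1 hs
  have h8 := mul_le_mul_of_nonneg_left h2 hs
  linarith [mul_nonneg hs (sq_nonneg (‖x‖ - ‖y‖))]

/-- Barrier for a pair solving the strain system up to small errors. -/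
theorem cur_pair_bar {n : N3} {x y : ℝ → V} {s a : ℝ → ℝ} {vb vc : Z3 → ℝ} {d ε c0 t1 t2 : ℝ}
    (h0 : 0 ≤ t1) (hd : 0 < d) (hε : 0 < ε) (hc0 : 0 < c0)
    (hb : ∀ x, 0 ≤ (⟪x, mulr vb x⟫_ℂ).re) (hc : ∀ y, 0 ≤ (⟪y, mulr vc y⟫_ℂ).re)
    (init : ‖x t1‖ ^ 2 + ‖y t1‖ ^ 2 ≤ (c0 * a t1) ^ 2)
    (H : ∀ t ∈ Icc t1 t2, 0 ≤ s t ∧ 0 < a t ∧ HD a ((s t - d) * a t) t ∧ ∃ p e1 e2 : V,
      (∀ f, ‖p * f‖ ≤ ‖f‖) ∧ ‖e1‖ + ‖e2‖ ≤ ε * d * a t ∧
      HD x ((s t : ℂ) • pj n (dag p * y t) - (d : ℂ) • x t - mulr vb (x t) + e1) t ∧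
      HD y ((s t : ℂ) • (p * x t) - (d : ℂ) • y t - mulr vc (y t) + e2) t) :
    ∀ t ∈ Icc t1 t2, ‖x t‖ ^ 2 + ‖y t‖ ^ 2 ≤ ((c0 + 2 * ε * d * (t - t1)) * a t) ^ 2 := by
  refine bar2 (U := fun t => (c0 + 2 * ε * d * (t - t1)) * a t) h0 (by simpa using init) ?_
  intro t ht
  obtain ⟨hs, ha, hA, p, e1, e2, hp, he, hx, hy⟩ := H t ht
  have hl : HD (fun t => c0 + 2 * ε * d * (t - t1)) (2 * ε * d) t := by
    simpa using ((((hasDerivWithinAt_id t (Ici 0)).sub_const t1).const_mul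
      (2 * ε * d)).const_add c0)
  refine ⟨_, _, _, hx, hy, hl.fun_mul hA, fun hU => ?_⟩
  refine (cur_pair_ineq hs hp (hb _) (hc _)).trans_lt ?_
  rw [hU]
  set U := (c0 + 2 * ε * d * (t - t1)) * a t with hUdef
  have ht1 : 0 ≤ t - t1 := sub_nonneg.mpr ht.1
  have hU0 : 0 < U := by positivity
  have hxU : ‖x t‖ ≤ U := by
    refine (pow_le_pow_iff_left₀ (norm_nonneg _) hU0.le two_ne_zero).mp ?_
    linarith [sq_nonneg ‖y t‖]
  have hyU : ‖y t‖ ≤ U := by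
    refine (pow_le_pow_iff_left₀ (norm_nonneg _) hU0.le two_ne_zero).mp ?_
    linarith [sq_nonneg ‖x t‖]
  have k1 : ‖x t‖ * ‖e1‖ + ‖y t‖ * ‖e2‖ ≤ U * (ε * d * a t) := by
    have := mul_le_mul_of_nonneg_right hxU (norm_nonneg e1)
    have := mul_le_mul_of_nonneg_right hyU (norm_nonneg e2)
    have := mul_le_mul_of_nonneg_left he hU0.le
    linarith
  have k2 : 0 < U * (ε * d * a t) := by positivity
  have k3 : U * (2 * ε * d * a t + (c0 + 2 * ε * d * (t - t1)) * ((s t - d) * a t)) =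
      (s t - d) * U ^ 2 + 2 * (U * (ε * d * a t)) := by rw [hUdef]; ring
  rw [k3]; linarith

variable {G : Geo} {R : Raw}

lemma cur_tinv (G : Geo) {k : ℕ} (hk : 1 ≤ k) : (G.t ^ k)⁻¹ ≤ 1 / 10 ^ 100 := by
  have h := G.pow_lt (a := 0) (b := k) hk
  rw [one_div]
  exact inv_anti₀ (by positivity) (by simpa using h)

lemma cur_tinv_succ (G : Geo) {a b : ℕ} (h : a < b) : (G.t ^ b)⁻¹ ≤ 1 / 10 ^ 100 * (G.t ^ a)⁻¹ := by
  have h1 := G.pow_lt h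
  have := G.t_pos
  rw [one_div, ← mul_inv]
  exact inv_anti₀ (by positivity) h1

lemma cur_ell_le (G : Geo) (j : ℕ) : G.ell j ≤ (G.t ^ 20)⁻¹ * G.d j := by
  have h1 : Real.exp (-G.t ^ 80) ≤ (G.t ^ 20)⁻¹ := by
    rw [Real.exp_neg]
    refine inv_anti₀ (pow_pos G.t_pos _) ?_
    have := G.pow_le (show 20 ≤ 80 by norm_num)
    linarith [Real.add_one_le_exp (G.t ^ 80)]
  have h2 : 0 < G.lam j ^ 2 := pow_pos (G.lam_pos j) 2
  have h3 : 0 < (G.t ^ 20)⁻¹ := inv_pos.mpr (pow_pos G.t_pos _)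
  unfold Geo.ell Geo.d
  nlinarith [mul_le_mul_of_nonneg_right h1 h2.le]

namespace Run

variable (H : IsNet G R) {j : ℕ} {t0 c g0 : ℝ} {AA : ℕ → ℝ} (S : Run G R j AA t0 c g0)

include H S

omit H in
lemma cur_AA_pos : 0 < AA (j + 1) := G.xs_pos.trans_le S.st.curA.1

omit H in
lemma cur_time {t : ℝ} (ht : t ∈ Icc t0 c) : G.d (j + 1) * (t - t0) ≤ 2 * G.t := by
  rw [← G.d_mul_Δ (j + 1)]
  exact mul_le_mul_of_nonneg_left (by linarith [ht.2, S.le']) (G.d_pos _).le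

omit H in
lemma cur_rate {t : ℝ} (ht : t ∈ Icc t0 c) :
    |G.d (j + 1) * R.aa G j t - G.d (j + 1) - g0| ≤ (G.t ^ 9)⁻¹ * G.d (j + 1) := by
  have hd := G.d_pos (j + 1)
  have : G.d (j + 1) * R.aa G j t - G.d (j + 1) - g0 =
      G.d (j + 1) * (R.aa G j t - R.aa G j t0) := by rw [S.g0_eq]; ring
  rw [this, abs_mul, abs_of_pos hd, mul_comm]
  exact mul_le_mul_of_nonneg_right (S.drift t ht) hd.le

omit H in
lemma cur_aa {t : ℝ} (ht : t ∈ Icc t0 c) : 1 ≤ R.aa G j t ∧ R.aa G j t ≤ 11 := by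
  have hd := G.d_pos (j + 1)
  have h1 := abs_le.mp (S.cur_rate ht)
  have h2 := mul_le_mul_of_nonneg_right (cur_tinv G (k := 9) (by norm_num)) hd.le
  have := S.g0_lo
  have := S.g0_hi
  constructor
  · refine le_of_mul_le_mul_left ?_ hd
    linarith [h1.1]
  · refine le_of_mul_le_mul_left ?_ hd
    linarith [h1.2]

/-- The comparison amplitude. -/
lemma cur_amp : ∃ a : ℝ → ℝ, a t0 = AA (j + 1) ∧ ∀ t ∈ Icc t0 c, 0 < a t ∧
    HD a ((G.d (j + 1) * R.aa G j t - G.d (j + 1)) * a t) t ∧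
    |a t - Ex t0 (AA (j + 1)) g0 t| ≤ 1 / 10 ^ 50 * Ex t0 (AA (j + 1)) g0 t := by
  have h0 := S.st.t0
  have hA := S.cur_AA_pos
  have hc : ContinuousOn (fun t => G.d (j + 1) * R.aa G j t - G.d (j + 1)) (Icc t0 c) :=
    (continuousOn_const.mul ((H.cont_aa j).mono fun t ht => h0.trans ht.1)).sub continuousOn_const
  obtain ⟨τ, τ0, hτ⟩ := exists_prim S.le hc
  have hl : ∀ (k t : ℝ), HD (fun t => k * (t - t0)) k t := fun k t => by
    simpa using ((hasDerivWithinAt_id t (Ici 0)).sub_const t0).const_mul k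
  have key := norm_sub_le_of_deriv (f := fun t => τ t - g0 * (t - t0))
    (G := fun t => (G.t ^ 9)⁻¹ * G.d (j + 1) * (t - t0)) (a := t0) (b := c) h0
    (fun t ht => ⟨_, _, (hτ t ht).fun_sub (hl g0 t), hl _ t, S.cur_rate ht⟩)
  refine ⟨fun t => AA (j + 1) * Real.exp (τ t), by simp [τ0], fun t ht =>
    ⟨by positivity, ?_, ?_⟩⟩
  · convert (hτ t ht).exp.const_mul (AA (j + 1)) using 1
    ring
  · have k1 := key t ht
    simp only [τ0, sub_self, mul_zero, sub_zero, Real.norm_eq_abs] at k1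
    have k2 : (G.t ^ 9)⁻¹ * G.d (j + 1) * (t - t0) ≤ 1 / 10 ^ 51 := by
      have := mul_le_mul_of_nonneg_left (S.cur_time ht)
        (inv_pos.mpr (pow_pos G.t_pos 9)).le
      have e : (G.t ^ 9)⁻¹ * (2 * G.t) = 2 * (G.t ^ 8)⁻¹ := by
        have := G.t_pos
        field_simp
      have := cur_tinv G (k := 8) (by norm_num)
      linarith
    have k3 := Real.abs_exp_sub_one_le (x := τ t - g0 * (t - t0)) (k1.trans (k2.trans (by norm_num)))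
    have e : AA (j + 1) * Real.exp (τ t) - Ex t0 (AA (j + 1)) g0 t =
        Ex t0 (AA (j + 1)) g0 t * (Real.exp (τ t - g0 * (t - t0)) - 1) := by
      unfold Ex
      rw [Real.exp_sub]
      field_simp
    have hE : 0 < Ex t0 (AA (j + 1)) g0 t := by unfold Ex; positivity
    rw [e, abs_mul, abs_of_pos hE, mul_comm]
    exact mul_le_mul_of_nonneg_right (by linarith) hE.le

/-- The equations of the current level in normalised form. -/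
lemma cur_eqs {t : ℝ} (ht : t ∈ Icc t0 c) : ∃ p : V, (∀ f, ‖p * f‖ ≤ ‖f‖) ∧
    ‖p * G.φ (j + 1) - G.φ (j + 1)‖ ≤ 200 / G.t ^ 17 ∧
    ‖dag p * G.φ (j + 1) - G.φ (j + 1)‖ ≤ 200 / G.t ^ 17 ∧ ∀ o, ∃ r1 r2 : V,
      ‖r1‖ + ‖r2‖ ≤ (G.t ^ 20)⁻¹ * (G.d (j + 1) * (Ex t0 (AA (j + 1)) g0 t * R.un G (j + 1))) ∧
      HD (R.b (j + 1) o) (((G.d (j + 1) * R.aa G j t : ℝ) : ℂ) •
        pj (G.rb (j + 1)) (dag p * R.c (j + 1) o t) - (G.d (j + 1) : ℂ) • R.b (j + 1) o t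
        - mulr (R.vb (j + 1)) (R.b (j + 1) o t) + r1) t ∧
      HD (R.c (j + 1) o) (((G.d (j + 1) * R.aa G j t : ℝ) : ℂ) • (p * R.b (j + 1) o t)
        - (G.d (j + 1) : ℂ) • R.c (j + 1) o t - mulr (R.vc (j + 1)) (R.c (j + 1) o t) + r2) t := by
  have h0 : 0 ≤ t := S.st.t0.trans ht.1
  obtain ⟨-, -, mv, κ, hD⟩ := (S.bnd t ht).old H (Nat.lt_succ_self j)
  have hp : Drv G.t (G.rd j) (rot3 mv) κ (R.pp G j t) := hD.tau
  have hA := H.kap_A (lt_of_lt_of_le one_pos (S.cur_aa ht).1)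
  have hA' : (R.kap G j : ℂ) • dag (R.A G j t) =
      ((G.d (j + 1) * R.aa G j t : ℝ) : ℂ) • dag (R.pp G j t) := by
    have := congrArg dag hA
    rwa [dag_smul, dag_smul, conj_ofReal, conj_ofReal] at this
  refine ⟨R.pp G j t, hp.norm_mul_le, hp.norm_mul_ph_sub G.t_big (G.rb_succ j),
    hp.norm_dag_mul_ph_sub G.t_big (G.rb_succ j), fun o => ?_⟩
  obtain ⟨r1, h1, e1⟩ := H.eqB j o t h0
  obtain ⟨r2, h2, e2⟩ := H.eqC j o t h0
  refine ⟨r1, R.f G j o t + r2, ?_, ?_, ?_⟩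
  · have := (S.bnd t ht).err_cur H (S.jb t ht) o
    linarith [norm_add_le (R.f G j o t) r2]
  · rwa [← map_smul, ← smul_mul_assoc, hA', smul_mul_assoc, map_smul] at e1
  · rwa [← smul_mul_assoc, hA, smul_mul_assoc, add_assoc] at e2

end Run

end

end Pool.Agent.Work.MP_6bf1e5_an.Ell
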