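import Pool.Agent.Work.MP_6bf1e5_an.Ell.CurA

/-!
The current level keeps its shape: distance to the ground state.
-/

open Set Complex Filter Topology
open scoped InnerProductSpace ComplexConjugate
open Pool.Agent.Work.MP_6bf1e5_an.B (Z3 R3)
open Pool.Agent.Work.MP_6bf1e5_an.Dec

namespace Pool.Agent.Work.MP_6bf1e5_an.Ell

noncomputable section

variable {G : Geo} {R : Raw}

lemma cur_layb (H : IsNet G R) (j : ℕ) : ‖mulr (R.vb j) (G.φ j)‖ ≤ (G.t ^ 20)⁻¹ * G.d j := by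
  have h := (H.layb j).norm_le (G.sp_φ j) (norm_coeff_ph_le (G.rb j))
  rw [mul_assoc, mul_inv_cancel₀ (Nn_pos _).ne', mul_one] at h
  exact h.trans (cur_ell_le G j)

lemma cur_layc (H : IsNet G R) (j : ℕ) : ‖mulr (R.vc j) (G.φ j)‖ ≤ 2 * ((G.t ^ 20)⁻¹ * G.d j) := by
  have h := (H.layc j).norm_le ((G.sp_φ j).mono (G.rb_le_rc j)) (norm_coeff_ph_le (G.rb j))
  have h1 : Nn (G.rc j) * (Nn (G.rb j))⁻¹ ≤ 2 := by
    rw [← div_eq_mul_inv, div_le_iff₀ (Nn_pos _)]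
    have := G.Nn_rc j
    have := G.N_pos j
    unfold Geo.N at *
    linarith
  have h2 := cur_ell_le G j
  have h3 := (H.layc j).l0
  rw [mul_assoc] at h
  linarith [mul_le_mul_of_nonneg_left h1 h3]

lemma cur_le_of_sq {x y U : ℝ} (hx : 0 ≤ x) (hU : 0 ≤ U) (h : x ^ 2 + y ^ 2 ≤ U ^ 2) : x ≤ U :=
  (pow_le_pow_iff_left₀ hx hU two_ne_zero).mp (by linarith [sq_nonneg y])

namespace Run

variable (H : IsNet G R) {j : ℕ} {t0 c g0 : ℝ} {AA : ℕ → ℝ} (S : Run G R j AA t0 c g0)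
  {a : ℝ → ℝ} (ha : ∀ t ∈ Icc t0 c, 0 < a t ∧
    HD a ((G.d (j + 1) * R.aa G j t - G.d (j + 1)) * a t) t ∧
    |a t - Ex t0 (AA (j + 1)) g0 t| ≤ 1 / 10 ^ 50 * Ex t0 (AA (j + 1)) g0 t)

include H S ha

omit H S in
lemma cur_E_le {t : ℝ} (ht : t ∈ Icc t0 c) : Ex t0 (AA (j + 1)) g0 t ≤ 2 * a t := by
  obtain ⟨h1, -, h3⟩ := ha t ht
  linarith [(abs_le.mp h3).1]

omit H ha in
lemma cur_slack {t : ℝ} (ht : t ∈ Icc t0 c) :
    2 * (G.t ^ 16)⁻¹ * G.d (j + 1) * (t - t0) ≤ 4 * (G.t ^ 15)⁻¹ := by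
  have := mul_le_mul_of_nonneg_left (S.cur_time ht) (inv_pos.mpr (pow_pos G.t_pos 16)).le
  have e : (G.t ^ 16)⁻¹ * (2 * G.t) = 2 * (G.t ^ 15)⁻¹ := by
    have := G.t_pos
    field_simp
  linarith

/-- The equations of the distance to the ground state. -/
lemma cur_eqs2 {t : ℝ} (ht : t ∈ Icc t0 c) (o : Fin 4) : ∃ p e1 e2 : V,
    (∀ f, ‖p * f‖ ≤ ‖f‖) ∧
    ‖e1‖ + ‖e2‖ ≤ (G.t ^ 16)⁻¹ * G.d (j + 1) * (a t * R.un G (j + 1)) ∧
    HD (fun t => R.b (j + 1) o t - ((a t * R.un G (j + 1) : ℝ) : ℂ) • G.φ (j + 1))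
      (((G.d (j + 1) * R.aa G j t : ℝ) : ℂ) • pj (G.rb (j + 1))
        (dag p * (R.c (j + 1) o t - ((a t * R.un G (j + 1) : ℝ) : ℂ) • G.φ (j + 1)))
        - (G.d (j + 1) : ℂ) • (R.b (j + 1) o t - ((a t * R.un G (j + 1) : ℝ) : ℂ) • G.φ (j + 1))
        - mulr (R.vb (j + 1)) (R.b (j + 1) o t - ((a t * R.un G (j + 1) : ℝ) : ℂ) • G.φ (j + 1))
        + e1) t ∧
    HD (fun t => R.c (j + 1) o t - ((a t * R.un G (j + 1) : ℝ) : ℂ) • G.φ (j + 1))
      (((G.d (j + 1) * R.aa G j t : ℝ) : ℂ) •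
        (p * (R.b (j + 1) o t - ((a t * R.un G (j + 1) : ℝ) : ℂ) • G.φ (j + 1)))
        - (G.d (j + 1) : ℂ) • (R.c (j + 1) o t - ((a t * R.un G (j + 1) : ℝ) : ℂ) • G.φ (j + 1))
        - mulr (R.vc (j + 1)) (R.c (j + 1) o t - ((a t * R.un G (j + 1) : ℝ) : ℂ) • G.φ (j + 1))
        + e2) t := by
  obtain ⟨p, hp, q1, q2, hq⟩ := S.cur_eqs H ht
  obtain ⟨r1, r2, hr, e1, e2⟩ := hq o
  obtain ⟨a0, hA, -⟩ := ha t ht
  have hE := cur_E_le ha ht
  obtain ⟨s1, s2⟩ := S.cur_aa ht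
  have hu := H.un_pos (j + 1)
  have hd := G.d_pos (j + 1)
  have lb := cur_layb H (j + 1)
  have lc := cur_layc H (j + 1)
  have hφ : pj (G.rb (j + 1)) (G.φ (j + 1)) = G.φ (j + 1) := (G.sp_φ _).pj_eq
  have hAφ := (HD.ofReal (hA.mul_const (R.un G (j + 1)))).smul_const (G.φ (j + 1))
  set φ := G.φ (j + 1)
  set d := G.d (j + 1)
  set u := R.un G (j + 1)
  set s := R.aa G j t
  refine ⟨p, ((d * s * (a t * u) : ℝ) : ℂ) • pj (G.rb (j + 1)) (dag p * φ - φ) -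
      ((a t * u : ℝ) : ℂ) • mulr (R.vb (j + 1)) φ + r1,
    ((d * s * (a t * u) : ℝ) : ℂ) • (p * φ - φ) - ((a t * u : ℝ) : ℂ) • mulr (R.vc (j + 1)) φ + r2,
    hp, ?_, ?_, ?_⟩
  · have hA0 : 0 < a t * u := by positivity
    have hs0 : 0 < d * s * (a t * u) := by positivity
    have n1 : ∀ (X Y Z : V), ‖((d * s * (a t * u) : ℝ) : ℂ) • X - ((a t * u : ℝ) : ℂ) • Y + Z‖ ≤
        d * s * (a t * u) * ‖X‖ + a t * u * ‖Y‖ + ‖Z‖ := fun X Y Z => by
      refine (norm_add_le _ _).trans (add_le_add ((norm_sub_le _ _).trans (le_of_eq ?_)) le_rfl)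
      rw [norm_smul, norm_smul, Complex.norm_real, Complex.norm_real, Real.norm_of_nonneg hs0.le,
        Real.norm_of_nonneg hA0.le]
    have m1 := n1 (pj (G.rb (j + 1)) (dag p * φ - φ)) (mulr (R.vb (j + 1)) φ) r1
    have m2 := n1 (p * φ - φ) (mulr (R.vc (j + 1)) φ) r2
    have m3 := mul_le_mul_of_nonneg_left ((norm_pj_le (G.rb (j + 1)) _).trans q2) hs0.le
    have m4 := mul_le_mul_of_nonneg_left q1 hs0.le
    have m5 := mul_le_mul_of_nonneg_left lb hA0.le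
    have m6 := mul_le_mul_of_nonneg_left lc hA0.le
    have t1 := cur_tinv_succ G (show 16 < 17 by norm_num)
    have t2 := cur_tinv_succ G (show 16 < 20 by norm_num)
    have t3 : 0 < (G.t ^ 20)⁻¹ := inv_pos.mpr (pow_pos G.t_pos _)
    have t4 : 0 < (G.t ^ 17)⁻¹ := inv_pos.mpr (pow_pos G.t_pos _)
    have t5 : 0 < (G.t ^ 16)⁻¹ := inv_pos.mpr (pow_pos G.t_pos _)
    have hdA : 0 < d * (a t * u) := by positivity
    have m7 : (G.t ^ 20)⁻¹ * (d * (Ex t0 (AA (j + 1)) g0 t * u)) ≤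
        (G.t ^ 20)⁻¹ * (2 * (d * (a t * u))) := by
      refine mul_le_mul_of_nonneg_left ?_ t3.le
      linarith [mul_le_mul_of_nonneg_right hE (mul_pos hd hu).le]
    have m8 : d * s * (a t * u) * (200 / G.t ^ 17) ≤ 2200 * ((G.t ^ 17)⁻¹ * (d * (a t * u))) := by
      rw [div_eq_mul_inv]
      linarith [mul_le_mul_of_nonneg_right s2 (mul_pos t4 hdA).le]
    have m9 := mul_le_mul_of_nonneg_right t1 hdA.le
    have m10 := mul_le_mul_of_nonneg_right t2 hdA.le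
    have m11 := mul_pos t5 hdA
    linarith
  · convert e1.fun_sub hAφ using 1
    simp only [mul_sub, map_sub, map_smul, mul_smul_comm, hφ, smul_sub, smul_smul]
    push_cast
    module
  · convert e2.fun_sub hAφ using 1
    simp only [mul_sub, map_sub, map_smul, mul_smul_comm, smul_sub, smul_smul]
    push_cast
    module

lemma cur_close (a0 : a t0 = AA (j + 1)) {t : ℝ} (ht : t ∈ Icc t0 c) (o : Fin 4) :
    ‖R.b (j + 1) o t - ((a t * R.un G (j + 1) : ℝ) : ℂ) • G.φ (j + 1)‖ ≤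
      2 / 10 ^ 30 * (a t * R.un G (j + 1)) ∧
    ‖R.c (j + 1) o t - ((a t * R.un G (j + 1) : ℝ) : ℂ) • G.φ (j + 1)‖ ≤
      2 / 10 ^ 30 * (a t * R.un G (j + 1)) := by
  have hu := H.un_pos (j + 1)
  have hd := G.d_pos (j + 1)
  have key := cur_pair_bar (n := G.rb (j + 1)) (t2 := c) (c0 := 3 / 2 / 10 ^ 30)
    (x := fun t => R.b (j + 1) o t - ((a t * R.un G (j + 1) : ℝ) : ℂ) • G.φ (j + 1))
    (y := fun t => R.c (j + 1) o t - ((a t * R.un G (j + 1) : ℝ) : ℂ) • G.φ (j + 1))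
    (s := fun t => G.d (j + 1) * R.aa G j t) (a := fun t => a t * R.un G (j + 1))
    S.st.t0 hd (inv_pos.mpr (pow_pos G.t_pos 16)) (by positivity)
    (H.layb (j + 1)).re_inner (H.layc (j + 1)).re_inner (by
      have h1 := S.st.curb o
      have h2 := S.st.curc o
      simp only [a0]
      have h3 := pow_le_pow_left₀ (norm_nonneg _) h1 2
      have h4 := pow_le_pow_left₀ (norm_nonneg _) h2 2
      linarith [sq_nonneg (AA (j + 1) * R.un G (j + 1))])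
    (fun t ht => by
      obtain ⟨h1, h2, -⟩ := ha t ht
      refine ⟨mul_nonneg hd.le (by linarith [(S.cur_aa ht).1]), by positivity, ?_,
        S.cur_eqs2 H ha ht o⟩
      convert h2.mul_const (R.un G (j + 1)) using 1
      ring) t ht
  have hA : 0 < a t * R.un G (j + 1) := mul_pos (ha t ht).1 hu
  have h1 := S.cur_slack ht
  have h2 := cur_tinv G (k := 15) (by norm_num)
  have h3 : 0 ≤ 2 * (G.t ^ 16)⁻¹ * G.d (j + 1) * (t - t0) :=
    mul_nonneg (by have := G.t_pos; positivity) (sub_nonneg.mpr ht.1)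
  have h4 : (3 / 2 / 10 ^ 30 + 2 * (G.t ^ 16)⁻¹ * G.d (j + 1) * (t - t0)) *
      (a t * R.un G (j + 1)) ≤ 2 / 10 ^ 30 * (a t * R.un G (j + 1)) :=
    mul_le_mul_of_nonneg_right (by linarith) hA.le
  exact ⟨(cur_le_of_sq (norm_nonneg _) (by positivity) key).trans h4,
    (cur_le_of_sq (norm_nonneg _) (by positivity) ((add_comm _ _).le.trans key)).trans h4⟩

lemma cur_diff (a0 : a t0 = AA (j + 1)) {t : ℝ} (ht : t ∈ Icc t0 c) (o o' : Fin 4) :
    ‖R.b (j + 1) o t - R.b (j + 1) o' t‖ ≤ 8 / 5 * G.ι * (a t * R.un G (j + 1)) := by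
  have hu := H.un_pos (j + 1)
  have hd := G.d_pos (j + 1)
  have hι : 0 < G.ι := by have := G.t_pos; unfold Geo.ι; positivity
  have key := cur_pair_bar (n := G.rb (j + 1)) (t2 := c) (c0 := 3 / 2 * G.ι)
    (x := fun t => R.b (j + 1) o t - R.b (j + 1) o' t)
    (y := fun t => R.c (j + 1) o t - R.c (j + 1) o' t)
    (s := fun t => G.d (j + 1) * R.aa G j t) (a := fun t => a t * R.un G (j + 1))
    S.st.t0 hd (inv_pos.mpr (pow_pos G.t_pos 16)) (by positivity)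
    (H.layb (j + 1)).re_inner (H.layc (j + 1)).re_inner (by
      have h1 := S.st.difb o o'
      have h2 := S.st.difc o o'
      simp only [a0]
      have h3 := pow_le_pow_left₀ (norm_nonneg _) h1 2
      have h4 := pow_le_pow_left₀ (norm_nonneg _) h2 2
      linarith [sq_nonneg (G.ι * (AA (j + 1) * R.un G (j + 1)))])
    (fun t ht => by
      obtain ⟨h1, h2, -⟩ := ha t ht
      refine ⟨mul_nonneg hd.le (by linarith [(S.cur_aa ht).1]), by positivity, ?_, ?_⟩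
      · convert h2.mul_const (R.un G (j + 1)) using 1
        ring
      obtain ⟨p, hp, -, -, hq⟩ := S.cur_eqs H ht
      obtain ⟨r1, r2, hr, e1, e2⟩ := hq o
      obtain ⟨r1', r2', hr', e1', e2'⟩ := hq o'
      refine ⟨p, r1 - r1', r2 - r2', hp, ?_, ?_, ?_⟩
      · have hE := cur_E_le ha ht
        have t2 := cur_tinv_succ G (show 16 < 20 by norm_num)
        have t3 : 0 < (G.t ^ 20)⁻¹ := inv_pos.mpr (pow_pos G.t_pos _)
        have t5 : 0 < (G.t ^ 16)⁻¹ := inv_pos.mpr (pow_pos G.t_pos _)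
        have hdA : 0 < G.d (j + 1) * (a t * R.un G (j + 1)) := by positivity
        have m7 : (G.t ^ 20)⁻¹ * (G.d (j + 1) * (Ex t0 (AA (j + 1)) g0 t * R.un G (j + 1))) ≤
            (G.t ^ 20)⁻¹ * (2 * (G.d (j + 1) * (a t * R.un G (j + 1)))) := by
          refine mul_le_mul_of_nonneg_left ?_ t3.le
          linarith [mul_le_mul_of_nonneg_right hE (mul_pos hd hu).le]
        have m10 := mul_le_mul_of_nonneg_right t2 hdA.le
        have m11 := mul_pos t5 hdA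
        have := norm_sub_le r1 r1'
        have := norm_sub_le r2 r2'
        linarith
      · convert e1.fun_sub e1' using 1
        simp only [mul_sub, map_sub, smul_sub]
        abel
      · convert e2.fun_sub e2' using 1
        simp only [mul_sub, map_sub, smul_sub]
        abel) t ht
  have hA : 0 < a t * R.un G (j + 1) := mul_pos (ha t ht).1 hu
  have h1 := S.cur_slack ht
  have h2 := cur_tinv_succ G (show 10 < 15 by norm_num)
  have h3 : 0 ≤ 2 * (G.t ^ 16)⁻¹ * G.d (j + 1) * (t - t0) :=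
    mul_nonneg (by have := G.t_pos; positivity) (sub_nonneg.mpr ht.1)
  have h4 : (3 / 2 * G.ι + 2 * (G.t ^ 16)⁻¹ * G.d (j + 1) * (t - t0)) *
      (a t * R.un G (j + 1)) ≤ 8 / 5 * G.ι * (a t * R.un G (j + 1)) := by
    refine mul_le_mul_of_nonneg_right ?_ hA.le
    unfold Geo.ι at hι ⊢
    linarith
  exact (cur_le_of_sq (norm_nonneg _) (by positivity) key).trans h4

/-- The derivative of a tooth in the sum norm. -/
lemma cur_der (a0 : a t0 = AA (j + 1)) {t : ℝ} (ht : t ∈ Icc t0 c) (o : Fin 4) :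
    ∃ D : V, HD (R.b (j + 1) o) (D + (((G.d (j + 1) * R.aa G j t - G.d (j + 1)) * a t *
      R.un G (j + 1) : ℝ) : ℂ) • G.φ (j + 1)) t ∧
      l1 D ≤ 1 / 10 ^ 27 * G.d (j + 1) * (a t * R.un G (j + 1)) * l1 (G.φ (j + 1)) := by
  have h0 : 0 ≤ t := S.st.t0.trans ht.1
  obtain ⟨p, e1, e2, hp, he, hx, -⟩ := S.cur_eqs2 H ha ht o
  obtain ⟨c1, c2⟩ := S.cur_close H ha a0 ht o
  obtain ⟨apos, hA, -⟩ := ha t ht
  obtain ⟨s1, s2⟩ := S.cur_aa ht
  have hu := H.un_pos (j + 1)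
  have hd := G.d_pos (j + 1)
  have hAφ := (HD.ofReal (hA.mul_const (R.un G (j + 1)))).smul_const (G.φ (j + 1))
  have spx : ∀ t, Sp (G.rb (j + 1))
      (R.b (j + 1) o t - ((a t * R.un G (j + 1) : ℝ) : ℂ) • G.φ (j + 1)) :=
    fun t => (H.spb _ _ _).sub ((G.sp_φ _).smul _)
  have spD := HD.sp hx h0 spx
  refine ⟨_, by simpa only [sub_add_cancel] using hx.fun_add hAφ, ?_⟩
  set x := R.b (j + 1) o t - ((a t * R.un G (j + 1) : ℝ) : ℂ) • G.φ (j + 1)
  set y := R.c (j + 1) o t - ((a t * R.un G (j + 1) : ℝ) : ℂ) • G.φ (j + 1)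
  set d := G.d (j + 1)
  set s := R.aa G j t
  set A := a t * R.un G (j + 1)
  have hA0 : 0 < A := by positivity
  set z := ((d * s : ℝ) : ℂ) • pj (G.rb (j + 1)) (dag p * y) - (d : ℂ) • x + e1 with hz
  have e : ((d * s : ℝ) : ℂ) • pj (G.rb (j + 1)) (dag p * y) - (d : ℂ) • x -
      mulr (R.vb (j + 1)) x + e1 = z - mulr (R.vb (j + 1)) x := by rw [hz]; abel
  rw [e] at spD ⊢
  have spz : Sp (G.rb (j + 1)) z := by
    have spv : Sp (G.rb (j + 1)) (mulr (R.vb (j + 1)) x) := (spx t).mulr (R.vb (j + 1))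
    simpa only [sub_add_cancel] using spD.add spv
  have nz : ‖z‖ ≤ d * s * ‖y‖ + d * ‖x‖ + ‖e1‖ := by
    refine (norm_add_le _ _).trans (add_le_add ((norm_sub_le _ _).trans ?_) le_rfl)
    rw [norm_smul, norm_smul, Complex.norm_real, Complex.norm_real,
      Real.norm_of_nonneg (by positivity), Real.norm_of_nonneg hd.le]
    refine add_le_add (mul_le_mul_of_nonneg_left ?_ (by positivity)) le_rfl
    exact (norm_pj_le _ _).trans (by rw [norm_dag_mul]; exact hp y)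
  have hdA : 0 < d * A := by positivity
  have t1 := cur_tinv G (k := 16) (by norm_num)
  have t2 := cur_tinv G (k := 20) (by norm_num)
  have nz2 : ‖z‖ ≤ 3 / 10 ^ 29 * (d * A) := by
    have m1 : d * s * ‖y‖ ≤ d * 11 * (2 / 10 ^ 30 * A) := by gcongr
    have m2 : d * ‖x‖ ≤ d * (2 / 10 ^ 30 * A) := by gcongr
    have m3 := mul_le_mul_of_nonneg_right t1 hdA.le
    linarith [norm_nonneg e2]
  have hN := Nn_pos (G.rb (j + 1))
  have l1z := spz.l1_le
  have l1v : l1 (mulr (R.vb (j + 1)) x) ≤ G.ell (j + 1) * Nn (G.rb (j + 1)) * ‖x‖ :=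
    (H.layb (j + 1)).l1_le (spx t)
  have hφ : Nn (G.rb (j + 1)) ≤ l1 (G.φ (j + 1)) := le_l1_ph _
  have el : G.ell (j + 1) ≤ d := by
    have := cur_ell_le G (j + 1)
    linarith [mul_le_mul_of_nonneg_right t2 hd.le]
  have l0 := (H.layb (j + 1)).l0
  have m4 : G.ell (j + 1) * Nn (G.rb (j + 1)) * ‖x‖ ≤ d * Nn (G.rb (j + 1)) * (2 / 10 ^ 30 * A) := by
    gcongr
  have m5 : 3 * Nn (G.rb (j + 1)) * ‖z‖ ≤ 3 * Nn (G.rb (j + 1)) * (3 / 10 ^ 29 * (d * A)) := by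
    gcongr
  have m6 := mul_le_mul_of_nonneg_left hφ hdA.le
  have m7 := mul_pos hdA hN
  refine (l1_sub_le _ _).trans ?_
  linarith

end Run

end

end Pool.Agent.Work.MP_6bf1e5_an.Ell
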