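import Pool.Agent.Work.MP_6bf1e5_an.Ell.Norms

/-!
The initial data.
-/

open Set Complex
open scoped InnerProductSpace ComplexConjugate Classical
open Pool.Agent.Work.MP_6bf1e5_an.B
open Pool.Agent.Work.MP_6bf1e5_an.Dec

namespace Pool.Agent.Work.MP_6bf1e5_an.Ell.Pd

noncomputable section

variable {G : Geo}

lemma Data_rapid {a : Z3 → E3} (fin : {k | a k ≠ 0}.Finite) : Rapid a := fun s => by
  have hs : Summable fun k => w k ^ s * ‖a k‖ := by
    refine summable_of_ne_finset_zero (s := fin.toFinset) fun k hk => ?_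
    have : a k = 0 := by simpa using hk
    simp [this]
  exact ⟨_, Bd.of_tsum hs le_rfl⟩

/-- The state with amplitudes `m`. -/
def Data_st (G : Geo) (m : Fam → Z3 → ℝ) (k : Z3) : E3 :=
  if H : Act G k then m H.choose.1 H.choose.2.2 • uv G H.choose.1 H.choose.2.1 H.choose.2.2 else 0

lemma Data_st_pt (m : Fam → Z3 → ℝ) {F : Fam} (hF : F.ok G) (g : Gp) {h : Z3}
    (hh : h ∈ F.S G) : Data_st G m (pt G F g h) = m F h • uv G F g h := by
  have H := Sep_act_pt hF g hh
  rw [Data_st, dif_pos H, Sep_choose hF hh H]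

lemma Data_st_not (m : Fam → Z3 → ℝ) {k : Z3} (H : ¬Act G k) : Data_st G m k = 0 := by
  rw [Data_st, dif_neg H]

lemma Data_st_inner (m : Fam → Z3 → ℝ) {F : Fam} (hF : F.ok G) {h : Z3} (hh : h ∈ F.S G) :
    ⟪F.e G, Data_st G m (F.ctr G + h)⟫_ℝ = m F h := by
  have e := Data_st_pt m hF g1 hh
  rw [pt_g1] at e
  rw [e, uv, ge_g1, inner_smul_right, ← inner_lp_left (inner_xi_ur _ _), inner_lp_ur hF hh, mul_one]

lemma Data_st_sym (m : Fam → Z3 → ℝ) (g : Gp) (k : Z3) :
    Data_st G m (gz g k) = ge g (Data_st G m k) := by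
  by_cases H : Act G k
  · obtain ⟨⟨F, g', h⟩, h1, h2, rfl⟩ := H
    simp only at h1 h2 ⊢
    rw [Sep_gz_pt, Data_st_pt m h1 _ h2, Data_st_pt m h1 _ h2, ge_smul, uv, uv, ge_ge]
  · rw [Data_st_not m H, Data_st_not m fun h => H ((Act_gz g k).mp h), ge_zero]

lemma Data_st_div (m : Fam → Z3 → ℝ) (k : Z3) : ⟪xi k, Data_st G m k⟫_ℝ = 0 := by
  by_cases H : Act G k
  · obtain ⟨⟨F, g', h⟩, h1, h2, rfl⟩ := H
    simp only at h1 h2 ⊢
    rw [Data_st_pt m h1 _ h2, inner_smul_right, pt, xi_gz, uv, inner_ge, inner_xi_ur, mul_zero]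
  · rw [Data_st_not m H, inner_zero_right]

/-- A symmetric state with prescribed envelopes on finitely many families. -/
theorem exists_state (s : Finset Fam) (hs : ∀ F ∈ s, F.ok G) (m : Fam → Z3 → ℝ) :
    ∃ β : Z3 → E3, Adm β ∧ {k | β k ≠ 0}.Finite ∧ (∀ k, jnk G β k = 0) ∧
      ∀ F, F.ok G → ∀ h ∈ F.S G, ⟪F.e G, β (F.ctr G + h)⟫_ℝ = if F ∈ s then m F h else 0 := by
  set m' : Fam → Z3 → ℝ := fun F h => if F ∈ s then m F h else 0 with hm'
  have fin : {k | Data_st G m' k ≠ 0}.Finite := by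
    refine (s.biUnion fun F => Finset.univ.biUnion fun g : Gp =>
      (F.S G).image (pt G F g)).finite_toSet.subset fun k hk => ?_
    by_cases H : Act G k
    · obtain ⟨⟨F, g', h⟩, h1, h2, rfl⟩ := H
      simp only at h1 h2 hk ⊢
      have hF : F ∈ s := by
        by_contra hn
        apply hk
        rw [Data_st_pt m' h1 _ h2, hm']
        simp [hn]
      simp only [Finset.coe_biUnion, Finset.mem_coe, mem_iUnion, Finset.coe_image]
      exact ⟨F, hF, g', Finset.mem_univ _, h, h2, rfl⟩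
    · exact absurd (Data_st_not m' H) hk
  have adm : Adm (Data_st G m') := ⟨Data_rapid fin, Data_st_sym m', Data_st_div m'⟩
  refine ⟨Data_st G m', adm, fin, fun k => ?_, fun F hF h hh => Data_st_inner m' hF hh⟩
  by_cases H : Act G k
  · obtain ⟨⟨F, g', h⟩, h1, h2, rfl⟩ := H
    simp only at h1 h2 ⊢
    rw [jnk, act_pt adm h1 _ h2, Data_st_inner m' h1 h2, Data_st_pt m' h1 _ h2, sub_self]
  · rw [jnk, act, Pj_not G H, Data_st_not m' H, sub_self]

/-- Two teeth of one family do not overlap. -/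
lemma Data_sep {F : Fam} (hF : F.ok G) {x x' h : Z3} (hx : x ∈ F.cens G) (hx' : x' ∈ F.cens G)
    (hh : h ∈ bx (F.rad G)) (hh' : x + h - x' ∈ bx (F.rad G)) : x = x' := by
  refine (sep hF hF (g := g1) (g' := g1) hx hx' fun i => ?_).2.2
  have e : i - g1.1 = i := sub_zero i
  have a := abs_le.mp (mem_bx.mp hh i)
  have b := abs_le.mp (mem_bx.mp hh' i)
  simp only [Pi.add_apply, Pi.sub_apply] at b
  rw [pt_g1, pt_g1, e, abs_lt]
  simp only [Pi.add_apply]
  push_cast
  constructor <;> omega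

lemma Data_tooth {F : Fam} (hF : F.ok G) {J : ℕ} (hc : F.cens G = Finset.univ.image (G.off J))
    {φ : V} (hs : Sp (F.rad G) φ) (hr : Rl φ) {β : Z3 → E3} {a : ℝ}
    (H : ∀ h ∈ F.S G, ⟪F.e G, β (F.ctr G + h)⟫_ℝ =
      ∑ o, G.om o * (a * (φ.coeff (h - G.off J o)).re)) (o : Fin 4) :
    tooth G F (G.off J o) (G.om o) β = (a : ℂ) • φ := by
  have mem : ∀ o, G.off J o ∈ F.cens G := fun o => by
    rw [hc]
    exact Finset.mem_image_of_mem _ (Finset.mem_univ _)
  ext h
  rw [tooth, coeff_mk]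
  have e0 : ((a : ℂ) • φ).coeff h = a * φ.coeff h := by simp
  rw [e0]
  split_ifs with hh
  · have hS : G.off J o + h ∈ F.S G := mem_S.mpr ⟨_, mem o, by simpa using hh⟩
    rw [H _ hS, Finset.sum_eq_single o]
    · have h1 : G.om o ≠ 0 := by linarith [(om_bounds G o).1]
      rw [add_sub_cancel_left, ← mul_assoc, inv_mul_cancel₀ h1, one_mul]
      have h2 : φ.coeff h = ((φ.coeff h).re : ℂ) := Complex.ext rfl (by simpa using hr h)
      rw [Complex.ofReal_mul, ← h2]
    · intro o' _ ho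
      have : G.off J o + h - G.off J o' ∉ bx (F.rad G) := fun h' =>
        ho (off_injective J (Data_sep hF (mem o) (mem o') hh h')).symm
      rw [hs _ this]
      simp
    · intro h'
      exact absurd (Finset.mem_univ _) h'
  · rw [hs _ hh, mul_zero]

/-- The level of the teeth of a family. -/
def Data_lv : Fam → ℕ
  | .b j => j
  | .c j => j + 1
  | .y _ _ => 0

/-- The initial amplitudes. -/
def Data_amp (G : Geo) : Fam → ℝ
  | .b j => Raw.AA0 G j * (rawOf G 0).un G j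
  | .c j => (if j + 1 = G.kk then Raw.AA0 G (j + 1) else 0) * (rawOf G 0).un G (j + 1)
  | .y _ _ => 0

theorem exists_data (G : Geo) : ∃ β : Z3 → E3, Adm β ∧ {k | β k ≠ 0}.Finite ∧
    ∀ α : ℝ → Z3 → E3, α 0 = β →
      (∀ j o, (rawOf G α).b j o 0 =
        ((Raw.AA0 G j * (rawOf G α).un G j : ℝ) : ℂ) • G.φ j) ∧
      (∀ j o, (rawOf G α).c j o 0 =
        (((if j = G.kk then Raw.AA0 G j else 0) * (rawOf G α).un G j : ℝ) : ℂ) • G.φ j) ∧
      (∀ j i, (rawOf G α).y j (i + 1) 0 = 0) ∧ (rawOf G α).Fj 0 = 0 ∧ (rawOf G α).Hj 0 = 0 := by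
  have hk : G.kk ≠ 0 := by
    have := kk_big G
    omega
  set s : Finset Fam := insert (.c (G.kk - 1)) ((Finset.range (G.kk + 1)).image Fam.b) with hs
  set m : Fam → Z3 → ℝ := fun F h => ∑ o, G.om o * (Data_amp G F *
    ((G.φ (Data_lv F)).coeff (h - G.off (Data_lv F) o)).re) with hm
  have hs1 : ∀ F ∈ s, F.ok G := by
    intro F hF
    rw [hs, Finset.mem_insert, Finset.mem_image] at hF
    rcases hF with rfl | ⟨j, -, rfl⟩ <;> trivial
  have hs2 : ∀ F, F ∉ s → Data_amp G F = 0 := by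
    intro F hF
    rw [hs, Finset.mem_insert, Finset.mem_image] at hF
    rcases F with j | j | ⟨j, i⟩
    · have h1 : ¬j < G.kk + 1 := fun h => hF (Or.inr ⟨j, Finset.mem_range.mpr h, rfl⟩)
      rw [Data_amp, Raw.AA0, if_neg (by omega), if_neg (by omega), zero_mul]
    · have h1 : ¬j + 1 = G.kk := fun h => hF (Or.inl (by rw [← h, Nat.add_sub_cancel]))
      rw [Data_amp, if_neg h1, zero_mul]
    · rfl
  obtain ⟨β, adm, fin, hj, hβ⟩ := exists_state s hs1 m
  have hβ' : ∀ F, F.ok G → ∀ h ∈ F.S G, ⟪F.e G, β (F.ctr G + h)⟫_ℝ = m F h := by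
    intro F hF h hh
    rw [hβ F hF h hh]
    split_ifs with h1
    · rfl
    · simp [hm, hs2 F h1]
  refine ⟨β, adm, fin, fun α hα => ⟨fun j o => ?_, fun j o => ?_, fun j i => ?_, ?_, ?_⟩⟩
  · change tooth G (.b j) (G.off j o) (G.om o) (α 0) = _
    rw [hα]
    exact Data_tooth (F := .b j) trivial rfl (sp_ph _) (rl_ph _) (hβ' (.b j) trivial) o
  · rcases j with _ | j
    · change (0 : V) = _
      rw [if_neg (Ne.symm hk)]
      simp
    · change tooth G (.c j) (G.off (j + 1) o) (G.om o) (α 0) = _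
      rw [hα]
      exact Data_tooth (F := .c j) trivial rfl ((sp_ph _).mono (rb_le_rc G (j + 1))) (rl_ph _)
        (hβ' (.c j) trivial) o
  · change (if i + 1 ≤ G.La then env G (.y j (i + 1)) (α 0) else 0) = 0
    split_ifs with h1
    · ext h
      rw [env, coeff_mk, hα]
      split_ifs with hh
      · rw [hβ' (.y j (i + 1)) ⟨Nat.le_add_left _ _, h1⟩ h hh]
        simp [hm, Data_amp]
      · rfl
    · rfl
  · change ∑' k, ‖jnk G (α 0) k‖ = 0
    simp [hα, hj]
  · change √(∑' k, (ax k * ‖jnk G (α 0) k‖) ^ 2) = 0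
    simp [hα, hj]

end

end Pool.Agent.Work.MP_6bf1e5_an.Ell.Pd
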