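import Pool.Agent.Work.MP_6bf1e5_an.Ell.Box

/-!
The parameters of the cascade and the envelope system.
-/

open Set Complex
open scoped InnerProductSpace ComplexConjugate
open Pool.Agent.Work.MP_6bf1e5_an.B (Z3 R3)
open Pool.Agent.Work.MP_6bf1e5_an.Dec

namespace Pool.Agent.Work.MP_6bf1e5_an.Ell

noncomputable section

/-- The large parameter. -/
structure Geo where
  /-- The large parameter. -/
  T : ℕ
  big : 10 ^ 100 ≤ T
  four : 4 ∣ T

namespace Geo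

variable (G : Geo)

/-- The large parameter as a real number. -/
def t : ℝ := G.T

/-- The ratio of consecutive frequencies. -/
def La : ℕ := G.T ^ 21

/-- The delay of the seed. -/
def kk : ℕ := G.T ^ 19

/-- The ratio of a carrier frequency to the comb spacing. -/
def m0 : ℝ := (G.La : ℝ) ^ G.kk

/-- The comb spacing. -/
def n (j : ℕ) : ℕ := G.T ^ 9 * G.La ^ j

/-- The carrier frequency. -/
def P (j : ℕ) : ℕ := G.n j * G.La ^ G.kk

/-- The wave number of level `j`. -/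
def lam (j : ℕ) : ℝ := 2 * Real.pi * G.P j

/-- The half widths of the teeth. -/
def w (j : ℕ) : N3 := ![G.T ^ 5 * G.La ^ j, G.T * G.La ^ j, G.T ^ 5 * G.La ^ j]

/-- The radii of the teeth `b`. -/
def rb (j : ℕ) : N3 := fun i => G.w j i - 1

/-- The scale of the comb. -/
def rB (j : ℕ) : N3 := ![G.T ^ 5 * G.La ^ j, G.n j, G.n j]

/-- The scale of the rotated comb. -/
def rd (j : ℕ) : N3 := rot3 (G.rB j)

/-- The radii of the teeth `c`. -/
def rc : ℕ → N3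
  | 0 => G.rb 0
  | j + 1 => fun i => G.rb (j + 1) i + 2 * G.rd j i

/-- The radii of the rungs. -/
def ry (j : ℕ) : N3 := fun _ => G.n (j + 1) / 4 - 1

/-- The positions of the teeth. -/
def off (j : ℕ) : Fin 4 → Z3 :=
  ![![0, G.n j, 0], ![0, -(G.n j : ℤ), 0], ![0, 0, G.n j], ![0, 0, -(G.n j : ℤ)]]

/-- The square root of the volume of a tooth. -/
def N (j : ℕ) : ℝ := Nn (G.rb j)

/-- The ground state of a tooth. -/
def φ (j : ℕ) : V := ph (G.rb j)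

/-- The damping of the teeth. -/
def d (j : ℕ) : ℝ := 2 * G.lam j ^ 2

/-- The damping of the rungs. -/
def D (j : ℕ) : ℝ := Real.exp (G.t ^ 21 / 2) * G.lam j ^ 2

/-- The ellipticity constant. -/
def C : ℝ := Real.exp (G.t ^ 90)

/-- The size of the layers. -/
def ell (j : ℕ) : ℝ := Real.exp (-G.t ^ 80) * G.lam j ^ 2

/-- The relative variation of the coefficients. -/
def tau0 : ℝ := G.t ^ 60 / G.m0

/-- The weight of the rungs. -/
def Wc : ℝ := Real.exp (G.t ^ 20)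

/-- The ratio of consecutive upper levels. -/
def θ : ℝ := (G.t ^ 10)⁻¹

/-- The relative size of a level when its stage begins. -/
def xs : ℝ := (G.t ^ 30)⁻¹

/-- The relative difference of two teeth. -/
def ι : ℝ := 10 * (G.t ^ 10)⁻¹

/-- The relative size of the junk. -/
def δ0 : ℝ := Real.exp (-G.t ^ 89)

/-- The maximal duration of stage `j`. -/
def Δ (j : ℕ) : ℝ := G.t / G.lam j ^ 2

end Geo

/-- The four rotations carrying the comb of a low level to the positions of the teeth. -/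
def rot (o : Fin 4) (f : V) : V := ![tau f, dag (tau f), tau (tau f), dag (tau (tau f))] o

/-- The unknowns of the envelope system. -/
structure Raw where
  /-- The strain coefficient. -/
  kp : ℝ
  /-- The weight of the vertical teeth. -/
  om0 : ℝ
  /-- The coefficients of the ladder. -/
  cy : ℕ → ℝ
  /-- The coefficient of the seed. -/
  cf : ℝ
  /-- The relative coefficients of the second comb in the seed. -/
  cq : Fin 4 → ℝ
  /-- The teeth of the first comb. -/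
  b : ℕ → Fin 4 → ℝ → V
  /-- The teeth of the second comb. -/
  c : ℕ → Fin 4 → ℝ → V
  /-- The rungs. -/
  y : ℕ → ℕ → ℝ → V
  /-- Layers. -/
  vb : ℕ → Z3 → ℝ
  /-- Layers. -/
  vc : ℕ → Z3 → ℝ
  /-- Layers. -/
  vy : ℕ → ℕ → Z3 → ℝ
  /-- The sum norm of the solution. -/
  U : ℝ → ℝ
  /-- The square root of the enstrophy of the solution. -/
  H : ℝ → ℝ
  /-- The sum norm of the junk. -/
  Fj : ℝ → ℝ
  /-- The square root of the enstrophy of the junk. -/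
  Hj : ℝ → ℝ
  /-- The energy of the levels and ladders of index at least `i`. -/
  ET : ℕ → ℝ → ℝ

namespace Raw

variable (R : Raw) (G : Geo)

/-- The weights of the teeth. -/
def om : Fin 4 → ℝ := ![1, 1, R.om0, R.om0]

/-- The total weight. -/
def Om : ℝ := 2 + 2 * R.om0

/-- The comb with teeth `g`. -/
def comb (j : ℕ) (g : Fin 4 → V) : V := ∑ o, (R.om o : ℂ) • (sh (G.off j o) * g o)

/-- The first comb. -/
def B (j : ℕ) (t : ℝ) : V := R.comb G j fun o => R.b j o t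

/-- The second comb. -/
def Cc (j : ℕ) (t : ℝ) : V := R.comb G j fun o => R.c j o t

/-- The driver of level `j + 1`. -/
def A (j : ℕ) (t : ℝ) : V := tau (R.B G j t)

/-- The strain coefficient of level `j`. -/
def kap (j : ℕ) : ℝ := R.kp * G.lam j

/-- The critical amplitude of level `j`. -/
def bh (j : ℕ) : ℝ := G.d (j + 1) / R.kap G j

/-- The critical amplitude of a tooth of level `j`. -/
def un (j : ℕ) : ℝ := R.bh G j / (R.Om * l1 (G.φ j))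

/-- The low modes sitting at the position of the tooth `o` of level `j`. -/
def Z (j : ℕ) (o : Fin 4) (t : ℝ) : V :=
  if G.kk ≤ j then rot o (R.B G (j - G.kk) t +
    (R.cq o : ℂ) • (sh ![0, G.P (j - G.kk - 1), 0] * R.Cc G (j - G.kk) t)) else 0

/-- The seed of level `j + 1`. -/
def f (j : ℕ) (o : Fin 4) (t : ℝ) : V :=
  ((R.cf * (2 * Real.pi * G.n (j + 1)) : ℝ) : ℂ) •
    pj (G.rc (j + 1)) (R.y j G.La t * R.Z G (j + 1) o t)

/-- The norm of level `j`. -/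
def lev (j : ℕ) (t : ℝ) : ℝ := √(∑ o, (‖R.b j o t‖ ^ 2 + ‖R.c j o t‖ ^ 2))

/-- The norm of ladder `j`. -/
def ch (j : ℕ) (t : ℝ) : ℝ := √(∑ i ∈ Finset.Icc 1 G.La, ‖R.y j i t‖ ^ 2)

/-- The scaled norm of level `j`. -/
def nl (j : ℕ) (t : ℝ) : ℝ := G.N j * R.lev j t

/-- The scaled norm of ladder `j`. -/
def ny (j : ℕ) (t : ℝ) : ℝ := G.N j * (G.t ^ 50 * R.ch G j t)

/-- The weighted norm of ladder `j`. -/
def nc (j : ℕ) (t : ℝ) : ℝ := G.N j * (G.Wc * R.ch G j t)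

/-- The scaled norm of level and ladder `j`. -/
def nu (j : ℕ) (t : ℝ) : ℝ := R.nl G j t + R.ny G j t

/-- The scaled norm of the previous level. -/
def pv : ℕ → ℝ → ℝ
  | 0, _ => 0
  | j + 1, t => R.nu G j t

/-- The low levels. -/
def LowL (j : ℕ) (t : ℝ) : ℝ := ∑ i ∈ Finset.range (j + 1 - G.kk), R.nl G i t

/-- The low ladders. -/
def LowY (j : ℕ) (t : ℝ) : ℝ := ∑ i ∈ Finset.range (j + 1 - G.kk), R.ny G i t

/-- The low modes. -/
def Low (j : ℕ) (t : ℝ) : ℝ := R.LowL G j t + R.LowY G j t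

/-- The interaction with the junk. -/
def Jk (t : ℝ) : ℝ := R.U t * R.Hj t + R.Fj t * R.H t

/-- The error in the equation of `b j`. -/
def eb (j : ℕ) (t : ℝ) : ℝ := 10 ^ 6 * G.lam j *
  (G.tau0 * R.pv G j t * R.lev j t +
    G.t ^ 50 * G.N j * R.ch G j t * (R.ch G j t + R.lev j t + R.lev (j + 1) t) +
    G.N j * R.lev (j + 1) t * (R.lev (j + 1) t + R.ch G j t) +
    R.Low G j t * R.lev j t + G.N j * R.ET (j + G.kk - 1) t) + 10 * R.Jk t

/-- The error in the equation of `c (j + 1)`. -/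
def ec (j : ℕ) (t : ℝ) : ℝ := G.t ^ 12 * (G.lam (j + 1) *
  (G.tau0 * R.nu G j t * R.lev (j + 1) t + R.Low G (j + 1) t * R.lev (j + 1) t +
    (R.LowY G (j + 1) t + G.tau0 / G.m0 * R.LowL G (j + 1) t) * ‖R.y j G.La t‖ +
    G.N (j + 1) * R.ET (j + G.kk) t) + R.Jk t)

/-- The error in the equation of `y j (i + 1)`. -/
def ey (j i : ℕ) (t : ℝ) : ℝ := 10 ^ 6 * G.lam (j + 1) *
  (G.tau0 * R.nl G j t * ‖R.y j i t‖ +
    (R.nl G j t + R.Low G (j + 1) t) * (‖R.y j (i + 2) t‖ + R.lev (j + 1) t) +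
    R.Low G j t * ‖R.y j (i + 1) t‖ + G.t ^ 40 * G.N j * R.ET (j + G.kk - 1) t) + 10 * R.Jk t

/-- The initial amplitudes in units of the critical amplitude. -/
def AA0 (G : Geo) (j : ℕ) : ℝ := if j < G.kk then 5 else if j = G.kk then 10 * G.xs else 0

end Raw

/-- The envelope system. -/
structure IsNet (G : Geo) (R : Raw) : Prop where
  kp_pos : 0 < R.kp
  kp_lo : 1 / 200 ≤ R.kp ^ 2 * G.t ^ 21
  kp_hi : R.kp ^ 2 * G.t ^ 21 ≤ 1 / 100
  om_lo : 7 ≤ R.om0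
  om_hi : R.om0 ≤ 9
  cy_lo : ∀ i, 1 / 3 ≤ R.cy i
  cy_hi : ∀ i, R.cy i ≤ 1
  cf_lo : 1 ≤ R.cf
  cf_hi : R.cf ≤ G.t ^ 11
  cq_le : ∀ o, R.cq o ^ 2 * G.t ^ 21 ≤ 1
  spb : ∀ j o t, Sp (G.rb j) (R.b j o t)
  spc : ∀ j o t, Sp (G.rc j) (R.c j o t)
  spy : ∀ j i t, Sp (G.ry j) (R.y j (i + 1) t)
  rlb : ∀ j o t, Rl (R.b j o t)
  rlc : ∀ j o t, Rl (R.c j o t)
  rly : ∀ j i t, Rl (R.y j i t)
  c0 : ∀ o t, R.c 0 o t = 0
  y0 : ∀ j t, R.y j 0 t = R.A G j t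
  yend : ∀ j t, R.y j (G.La + 1) t = 0
  layb : ∀ j, Lay (G.rb j) (G.ell j) (R.vb j)
  layc : ∀ j, Lay (G.rc j) (G.ell j) (R.vc j)
  layy : ∀ j i, Lay (G.ry j) (G.ell j) (R.vy j i)
  eqB0 : ∀ o t, 0 ≤ t → ∃ r, ‖r‖ ≤ R.eb G 0 t ∧ HD (R.b 0 o)
    (-((G.d 0 : ℂ) • R.b 0 o t) - mulr (R.vb 0) (R.b 0 o t) + r) t
  eqB : ∀ j o t, 0 ≤ t → ∃ r, ‖r‖ ≤ R.eb G (j + 1) t ∧ HD (R.b (j + 1) o)
    ((R.kap G j : ℂ) • pj (G.rb (j + 1)) (dag (R.A G j t) * R.c (j + 1) o t)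
      - (G.d (j + 1) : ℂ) • R.b (j + 1) o t - mulr (R.vb (j + 1)) (R.b (j + 1) o t) + r) t
  eqC : ∀ j o t, 0 ≤ t → ∃ r, ‖r‖ ≤ R.ec G j t ∧ HD (R.c (j + 1) o)
    ((R.kap G j : ℂ) • (R.A G j t * R.b (j + 1) o t)
      - (G.d (j + 1) : ℂ) • R.c (j + 1) o t - mulr (R.vc (j + 1)) (R.c (j + 1) o t)
      + R.f G j o t + r) t
  eqY : ∀ j i t, i < G.La → 0 ≤ t → ∃ r, ‖r‖ ≤ R.ey G j i t ∧ HD (R.y j (i + 1))
    (((R.cy (i + 1) * G.lam j : ℝ) : ℂ) • pj (G.ry j) (R.B G j t * R.y j i t)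
      - (G.D j : ℂ) • R.y j (i + 1) t - mulr (R.vy j (i + 1)) (R.y j (i + 1) t) + r) t
  U_nonneg : ∀ t, 0 ≤ R.U t
  H_nonneg : ∀ t, 0 ≤ R.H t
  Fj_nonneg : ∀ t, 0 ≤ R.Fj t
  Hj_nonneg : ∀ t, 0 ≤ R.Hj t
  ET_nonneg : ∀ i t, 0 ≤ R.ET i t
  U_le : ∀ t K, 0 ≤ t → (∀ M, ∑ j ∈ Finset.range M, R.nu G j t ≤ K) →
    R.U t ≤ 10 ^ 4 * K + R.Fj t
  H_le : ∀ t K, 0 ≤ t →
    (∀ M, ∑ j ∈ Finset.range M, G.lam (j + 1) * (R.lev j t + R.ch G j t) ≤ K) →
    R.H t ≤ 10 ^ 4 * K + R.Hj t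
  ET_le : ∀ i t K, 0 ≤ t → (∀ M, ∑ j ∈ Finset.Ico i M, (R.lev j t ^ 2 + R.ch G j t ^ 2) ≤ K) →
    R.ET i t ≤ 10 ^ 4 * K
  contU : ContinuousOn R.U (Ici 0)
  contH : ContinuousOn R.H (Ici 0)
  duh : ∀ t0 t1 U0 H0, 0 ≤ t0 → t0 ≤ t1 → (∀ s ∈ Icc t0 t1, R.U s ≤ U0) →
    (∀ s ∈ Icc t0 t1, R.H s ≤ H0) →
    R.Fj t1 ≤ R.Fj t0 + 2 * U0 ^ 2 * √((t1 - t0) / G.C) ∧
      R.Hj t1 ≤ R.Hj t0 + 2 * U0 * H0 * √((t1 - t0) / G.C)
  decay : ∀ (s : ℕ) (tb : ℝ), ∃ K, ∀ j, ∀ t ∈ Icc 0 tb, G.lam j ^ s * (R.lev j t + R.ch G j t) ≤ K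
  initb : ∀ j o, R.b j o 0 = ((Raw.AA0 G j * R.un G j : ℝ) : ℂ) • G.φ j
  initc : ∀ j o, R.c j o 0 = (((if j = G.kk then Raw.AA0 G j else 0) * R.un G j : ℝ) : ℂ) • G.φ j
  inity : ∀ j i, R.y j (i + 1) 0 = 0
  initF : R.Fj 0 = 0
  initH : R.Hj 0 = 0

end

end Pool.Agent.Work.MP_6bf1e5_an.Ell
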