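import Pool.Agent.Work.MP_6bf1e5_an.Ell.Comb

/-!
Derivatives of the norms of levels and ladders.
-/

open Set Complex Filter Topology
open scoped InnerProductSpace ComplexConjugate
open Pool.Agent.Work.MP_6bf1e5_an.B (Z3 R3)
open Pool.Agent.Work.MP_6bf1e5_an.Dec

namespace Pool.Agent.Work.MP_6bf1e5_an.Ell

noncomputable section

section aux

lemma dv_re_inner_le_mul (u v : V) : (⟪u, v⟫_ℂ).re ≤ ‖u‖ * ‖v‖ :=
  (Complex.re_le_norm _).trans (norm_inner_le_norm (𝕜 := ℂ) u v)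

lemma dv_re_inner_smul_self (d : ℝ) (u : V) : (⟪u, (d : ℂ) • u⟫_ℂ).re = d * ‖u‖ ^ 2 := by
  rw [inner_smul_right, inner_self_eq_norm_sq_to_K]
  simp [← Complex.ofReal_pow, ← Complex.ofReal_mul]

lemma dv_norm_rsmul {k : ℝ} (hk : 0 ≤ k) (v : V) : ‖(k : ℂ) • v‖ = k * ‖v‖ := by
  rw [norm_smul, Complex.norm_real, Real.norm_of_nonneg hk]

lemma dv_l1_rsmul {k : ℝ} (hk : 0 ≤ k) (v : V) : l1 ((k : ℂ) • v) = k * l1 v := by
  rw [l1_smul, Complex.norm_real, Real.norm_of_nonneg hk]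

/-- The basic energy inequality. -/
lemma dv_re_inner_damp {n : N3} {l d x : ℝ} {v : Z3 → ℝ} (h : Lay n l v) (u s : V) (hs : ‖s‖ ≤ x) :
    (⟪u, s - (d : ℂ) • u - mulr v u⟫_ℂ).re ≤ ‖u‖ * x - d * ‖u‖ ^ 2 := by
  rw [inner_sub_right, inner_sub_right, Complex.sub_re, Complex.sub_re, dv_re_inner_smul_self]
  have h1 := h.re_inner u
  have h2 := (dv_re_inner_le_mul u s).trans (mul_le_mul_of_nonneg_left hs (norm_nonneg u))
  linarith

lemma dv_hd_sqrt {S : ℝ → ℝ} {S' t X : ℝ} (h : HD S S' t) (pos : 0 < √(S t))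
    (hX : S' ≤ 2 * √(S t) * X) : ∃ D, HD (fun t => √(S t)) D t ∧ D ≤ X := by
  refine ⟨_, h.sqrt (Real.sqrt_pos.mp pos).ne', ?_⟩
  rw [div_le_iff₀ (by positivity)]
  linarith

lemma dv_sum_le_of_sq {ι : Type} (s : Finset ι) (a : ι → ℝ) {c x : ℝ} (hc : 0 ≤ c) (hx : 0 ≤ x)
    (h1 : (s.card : ℝ) ≤ c ^ 2) (h2 : ∑ i ∈ s, a i ^ 2 ≤ x ^ 2) : ∑ i ∈ s, a i ≤ c * x := by
  refine le_trans (le_abs_self _) (abs_le_of_sq_le_sq ?_ (by positivity))
  refine (sq_sum_le_card_mul_sum_sq (s := s) (f := a)).trans ?_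
  rw [mul_pow]
  exact mul_le_mul h1 h2 (Finset.sum_nonneg fun _ _ => sq_nonneg _) (sq_nonneg _)

end aux

namespace IsNet

variable {G : Geo} {R : Raw} (H : IsNet G R)

include H

lemma dv_hd_b (j : ℕ) (o : Fin 4) {t : ℝ} (ht : 0 ≤ t) : ∃ D, HD (R.b j o) D t := by
  rcases j with _ | j
  · obtain ⟨r, -, h⟩ := H.eqB0 o t ht
    exact ⟨_, h⟩
  · obtain ⟨r, -, h⟩ := H.eqB j o t ht
    exact ⟨_, h⟩

/-- The equation of a tooth in a form valid for every level. -/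
lemma dv_eqB' (j : ℕ) (o : Fin 4) {t : ℝ} (ht : 0 ≤ t) : ∃ s r, ‖r‖ ≤ R.eb G j t ∧
    Sp (G.rb j) s ∧ ‖s‖ ≤ R.kap G (j - 1) * l1 (R.B G (j - 1) t) * ‖R.c j o t‖ ∧
    l1 s ≤ R.kap G (j - 1) * l1 (R.B G (j - 1) t) * l1 (R.c j o t) ∧
    HD (R.b j o) (s - (G.d j : ℂ) • R.b j o t - mulr (R.vb j) (R.b j o t) + r) t := by
  have k0 := (H.kap_pos (j - 1)).le
  have l0 := l1_nonneg (R.B G (j - 1) t)
  rcases j with _ | j
  · obtain ⟨r, hr, h⟩ := H.eqB0 o t ht
    refine ⟨0, r, hr, sp_zero _, ?_, ?_, by simpa using h⟩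
    · rw [norm_zero]; positivity
    · have := l1_nonneg (R.c 0 o t)
      have e : l1 (0 : V) = 0 := by simp [l1]
      rw [e]; positivity
  · obtain ⟨r, hr, h⟩ := H.eqB j o t ht
    rw [Nat.add_sub_cancel] at k0 l0 ⊢
    have lA : l1 (R.A G j t) = l1 (R.B G j t) := l1_tau _
    refine ⟨_, r, hr, (sp_pj _ _).smul _, ?_, ?_, h⟩
    · rw [dv_norm_rsmul k0, mul_assoc]
      refine mul_le_mul_of_nonneg_left ((norm_pj_le _ _).trans ?_) k0
      rw [norm_dag_mul, ← lA]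
      exact norm_mul_le_l1 _ _
    · rw [dv_l1_rsmul k0, mul_assoc]
      refine mul_le_mul_of_nonneg_left ((l1_pj_le _ _).trans ?_) k0
      rw [← lA, ← l1_dag (R.A G j t)]
      exact l1_mul_le _ _

lemma cont_b (j : ℕ) (o : Fin 4) : ContinuousOn (R.b j o) (Ici 0) := by
  intro t ht
  obtain ⟨D, h⟩ := H.dv_hd_b j o ht
  exact h.continuousWithinAt

lemma cont_c (j : ℕ) (o : Fin 4) : ContinuousOn (R.c j o) (Ici 0) := by
  rcases j with _ | j
  · exact continuousOn_const.congr fun t _ => H.c0 o t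
  · intro t ht
    obtain ⟨r, -, h⟩ := H.eqC j o t ht
    exact h.continuousWithinAt

lemma cont_lev (j : ℕ) : ContinuousOn (R.lev j) (Ici 0) := by
  exact (continuousOn_finsetSum _ fun o _ =>
    ((H.cont_b j o).norm.pow 2).add ((H.cont_c j o).norm.pow 2)).sqrt

lemma cont_ch (j : ℕ) : ContinuousOn (R.ch G j) (Ici 0) := by
  refine (continuousOn_finsetSum _ fun i hi => (ContinuousOn.norm ?_).pow 2).sqrt
  obtain ⟨h1, h2⟩ := Finset.mem_Icc.mp hi
  obtain ⟨i, rfl⟩ : ∃ m, i = m + 1 := ⟨i - 1, by omega⟩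
  intro t ht
  obtain ⟨r, -, h⟩ := H.eqY j i t (by omega) ht
  exact h.continuousWithinAt

lemma cont_aa (j : ℕ) : ContinuousOn (R.aa G j) (Ici 0) := by
  intro t ht
  choose D hD using fun o => H.dv_hd_b j o ht
  have h1 : HD (R.B G j) _ t := hd_comb (G := G) (R := R) j hD
  exact ((HD.re (HD.ev3 h1 ht (H.spB j) 0)).div_const (R.bh G j)).continuousWithinAt

/-- The derivative of the norm of a level. -/
lemma lev_deriv {j : ℕ} {t σ F : ℝ} (ht : 0 ≤ t) (pos : 0 < R.lev (j + 1) t)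
    (hσ : ∀ y, R.kap G j * ‖R.A G j t * y‖ ≤ σ * ‖y‖) (hF : ∀ o, ‖R.f G j o t‖ ≤ F) :
    ∃ D, HD (R.lev (j + 1)) D t ∧ D ≤ (σ - G.d (j + 1)) * R.lev (j + 1) t +
      2 * (F + R.eb G (j + 1) t + R.ec G j t) := by
  choose rb hrb hb using fun o => H.eqB j o t ht
  choose rc hrc hc using fun o => H.eqC j o t ht
  have k0 := (H.kap_pos j).le
  have σ0 : 0 ≤ σ := by
    have := hσ dl
    rw [norm_dl, mul_one] at this
    exact le_trans (by positivity) this
  have F0 : 0 ≤ F := (norm_nonneg _).trans (hF 0)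
  have e1 := H.eb_nonneg (j + 1) t
  have e2 := H.ec_nonneg j t
  have hS := HasDerivWithinAt.fun_sum (u := Finset.univ) fun o _ =>
    (HD.normsq (hb o)).fun_add (HD.normsq (hc o))
  refine dv_hd_sqrt hS pos ?_
  change _ ≤ 2 * R.lev (j + 1) t * _
  have l0 := R.lev_nonneg (j + 1) t
  have l2 := R.lev_sq (j + 1) t
  have sb : ∑ o, ‖R.b (j + 1) o t‖ ≤ 2 * R.lev (j + 1) t :=
    dv_sum_le_of_sq _ _ (by norm_num) l0 (by norm_num) (by
      rw [l2]; exact Finset.sum_le_sum fun o _ => le_add_of_nonneg_right (sq_nonneg _))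
  have sc : ∑ o, ‖R.c (j + 1) o t‖ ≤ 2 * R.lev (j + 1) t :=
    dv_sum_le_of_sq _ _ (by norm_num) l0 (by norm_num) (by
      rw [l2]; exact Finset.sum_le_sum fun o _ => le_add_of_nonneg_left (sq_nonneg _))
  refine (Finset.sum_le_sum (g := fun o => 2 * (σ - G.d (j + 1)) *
    (‖R.b (j + 1) o t‖ ^ 2 + ‖R.c (j + 1) o t‖ ^ 2) +
      (2 * R.eb G (j + 1) t * ‖R.b (j + 1) o t‖ + 2 * (F + R.ec G j t) * ‖R.c (j + 1) o t‖))
      fun o _ => ?_).trans ?_
  · have x1 : ‖(R.kap G j : ℂ) • pj (G.rb (j + 1)) (dag (R.A G j t) * R.c (j + 1) o t) + rb o‖ ≤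
        σ * ‖R.c (j + 1) o t‖ + R.eb G (j + 1) t := by
      refine (norm_add_le _ _).trans (add_le_add ?_ (hrb o))
      rw [dv_norm_rsmul k0]
      refine le_trans (mul_le_mul_of_nonneg_left ((norm_pj_le _ _).trans ?_) k0) (hσ _)
      rw [norm_dag_mul]
    have x2 : ‖(R.kap G j : ℂ) • (R.A G j t * R.b (j + 1) o t) + R.f G j o t + rc o‖ ≤
        σ * ‖R.b (j + 1) o t‖ + F + R.ec G j t := by
      refine norm_add₃_le.trans (add_le_add (add_le_add ?_ (hF o)) (hrc o))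
      rw [dv_norm_rsmul k0]
      exact hσ _
    have y1 := dv_re_inner_damp (d := G.d (j + 1)) (H.layb (j + 1)) (R.b (j + 1) o t) _ x1
    have y2 := dv_re_inner_damp (d := G.d (j + 1)) (H.layc (j + 1)) (R.c (j + 1) o t) _ x2
    rw [show ∀ a b c e : V, a + e - b - c = a - b - c + e from fun _ _ _ _ => by abel] at y1
    rw [show ∀ a f b c e : V, a + f + e - b - c = a - b - c + f + e from
      fun _ _ _ _ _ => by abel] at y2
    linarith [mul_nonneg σ0 (sq_nonneg (‖R.b (j + 1) o t‖ - ‖R.c (j + 1) o t‖))]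
  · rw [Finset.sum_add_distrib, Finset.sum_add_distrib, ← Finset.mul_sum, ← Finset.mul_sum,
      ← Finset.mul_sum, ← l2]
    have z1 := mul_le_mul_of_nonneg_left sb e1
    have z2 := mul_le_mul_of_nonneg_left sc (add_nonneg F0 e2)
    linarith [mul_nonneg l0 e1, mul_nonneg l0 (add_nonneg F0 e2)]

/-- The derivative of the norm of a ladder. -/
lemma ch_deriv {j : ℕ} {t : ℝ} (ht : 0 ≤ t) (pos : 0 < R.ch G j t) :
    ∃ D, HD (R.ch G j) D t ∧ D ≤ -(G.D j * R.ch G j t) + 10 ^ 8 * G.lam (j + 1) *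
      ((R.nl G j t + R.Low G (j + 1) t) *
        (R.ch G j t + R.lev j t + G.t ^ 11 * R.lev (j + 1) t) +
        G.t ^ 51 * G.N j * R.ET (j + G.kk - 1) t) + G.t ^ 11 * R.Jk t := by
  choose r hr hy using fun i : Finset.range G.La =>
    H.eqY j i t (Finset.mem_range.mp i.2) ht
  have eS : ∀ t, ∑ i ∈ Finset.Icc 1 G.La, ‖R.y j i t‖ ^ 2 =
      ∑ i ∈ Finset.range G.La, ‖R.y j (i + 1) t‖ ^ 2 := fun t => by
    rw [Finset.range_eq_Ico, Finset.sum_Ico_add' (fun i => ‖R.y j i t‖ ^ 2), zero_add]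
    rfl
  have eF : R.ch G j = fun t => √(∑ i : Finset.range G.La, ‖R.y j (i + 1) t‖ ^ 2) := by
    funext t
    rw [Raw.ch, eS, Finset.sum_coe_sort _ fun i => ‖R.y j (i + 1) t‖ ^ 2]
  have hS := HasDerivWithinAt.fun_sum (u := Finset.univ) fun i _ => HD.normsq (hy i)
  have c2 : R.ch G j t ^ 2 = ∑ i ∈ Finset.range G.La, ‖R.y j (i + 1) t‖ ^ 2 := by
    rw [R.ch_sq, eS]
  suffices key : _ ≤ 2 * R.ch G j t * _ by
    rw [eF] at pos key ⊢
    exact dv_hd_sqrt hS pos key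
  have T1 := G.one_le_t
  have T0 := G.t_pos
  have c0 := pos.le
  have l0 := R.lev_nonneg j t
  have l1' := R.lev_nonneg (j + 1) t
  have n0 := R.nl_nonneg G j t
  have w0 := R.Low_nonneg G j t
  have w1 := R.Low_succ G j t
  have N0 := (G.N_pos j).le
  have E0 := H.ET_nonneg (j + G.kk - 1) t
  have J0 := H.Jk_nonneg t
  have m0 := (G.lam_pos j).le
  have m1 : G.lam j ≤ G.lam (j + 1) := G.lam_mono (Nat.le_succ j)
  have τ0 := G.tau0_pos.le
  have τ1 : G.tau0 ≤ 1 := G.tau0_le.trans (Real.exp_le_one_iff.mpr (neg_nonpos.mpr (by positivity)))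
  set a : ℕ → ℝ := fun i => ‖R.y j i t‖ with ha
  have a0 : ∀ i, 0 ≤ a i := fun i => norm_nonneg _
  have s1 : ∑ i ∈ Finset.range G.La, a (i + 1) ≤ G.t ^ 11 / 10 * R.ch G j t := by
    refine dv_sum_le_of_sq _ _ (by positivity) c0 ?_ c2.ge
    have := G.pow_lt (a := 21) (b := 22) (by norm_num)
    have p : 0 < G.t ^ 21 := by positivity
    rw [Finset.card_range, G.La_eq, div_pow, ← pow_mul]
    norm_num at this ⊢
    linarith
  have s2 : ∑ i ∈ Finset.range G.La, a (i + 1) * a (i + 2) ≤ R.ch G j t ^ 2 := by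
    have x1 : ∑ i ∈ Finset.range G.La, a (i + 2) ^ 2 ≤ R.ch G j t ^ 2 := by
      have x2 := Finset.sum_range_succ' (fun i => a (i + 1) ^ 2) G.La
      have x3 := Finset.sum_range_succ (fun i => a (i + 1) ^ 2) G.La
      have x4 : a (G.La + 1) = 0 := by simp [ha, H.yend]
      rw [x4] at x3
      have x5 := sq_nonneg (a (0 + 1))
      rw [c2]
      change ∑ i ∈ Finset.range G.La, a (i + 1 + 1) ^ 2 ≤ ∑ i ∈ Finset.range G.La, a (i + 1) ^ 2
      linarith
    refine (Finset.sum_le_sum (g := fun i => 1 / 2 * a (i + 1) ^ 2 + 1 / 2 * a (i + 2) ^ 2)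
      fun i _ => by linarith [sq_nonneg (a (i + 1) - a (i + 2))]).trans ?_
    rw [Finset.sum_add_distrib, ← Finset.mul_sum, ← Finset.mul_sum, ← c2]
    linarith
  have s3 : ∑ i ∈ Finset.range G.La, a (i + 1) * a i ≤
      R.ch G j t * (13 * R.lev j t) + R.ch G j t ^ 2 := by
    have x2 := Finset.sum_range_succ' (fun i => a (i + 1) * a i) G.La
    have x3 := Finset.sum_range_succ (fun i => a (i + 1) * a i) G.La
    have x4 := mul_nonneg (a0 (G.La + 1)) (a0 G.La)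
    have x5 : a 0 ≤ 13 * R.lev j t := by
      simp only [ha, H.y0, Raw.A, norm_tau]
      exact H.norm_B_le j t
    have x6 : a (0 + 1) ≤ R.ch G j t := R.y_le_ch G j le_rfl (by have := G.ten_le_La; omega) t
    have x7 := mul_le_mul x6 x5 (a0 _) c0
    have x8 : ∑ i ∈ Finset.range G.La, a (i + 1 + 1) * a (i + 1) =
        ∑ i ∈ Finset.range G.La, a (i + 1) * a (i + 2) :=
      Finset.sum_congr rfl fun i _ => mul_comm _ _
    linarith
  set K := 10 ^ 6 * G.lam (j + 1) with hK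
  have K0 : 0 ≤ K := by have := G.lam_pos (j + 1); positivity
  set W := R.nl G j t + R.Low G (j + 1) t with hW
  have W0 : 0 ≤ W := by linarith
  set X := K * (W * R.lev (j + 1) t + G.t ^ 40 * G.N j * R.ET (j + G.kk - 1) t) + 10 * R.Jk t
    with hX
  have X0 : 0 ≤ X := by positivity
  have kk : 40 * G.lam j * R.nl G j t + K * G.tau0 * R.nl G j t ≤ 2 * K * W := by
    have y1 : 40 * G.lam j ≤ K := by linarith
    have y2 : K * G.tau0 ≤ K := mul_le_of_le_one_right K0 τ1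
    have y3 : R.nl G j t ≤ W := by linarith
    linarith [mul_le_mul y1 y3 n0 K0, mul_le_mul y2 y3 n0 K0]
  refine (Finset.sum_le_sum (g := fun i : Finset.range G.La =>
    2 * (2 * K * W * (a (i + 1) * a i) + K * W * (a (i + 1) * a (i + 2)) +
      (K * W - G.D j) * a (i + 1) ^ 2 + X * a (i + 1))) fun i _ => ?_).trans ?_
  · have x1 : ‖((R.cy (i + 1) * G.lam j : ℝ) : ℂ) • pj (G.ry j) (R.B G j t * R.y j i t) + r i‖ ≤
        40 * G.lam j * R.nl G j t * a i + R.ey G j i t := by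
      refine (norm_add_le _ _).trans (add_le_add ?_ (hr i))
      have c1 := H.cy_lo (i + 1)
      have c3 := H.cy_hi (i + 1)
      rw [dv_norm_rsmul (mul_nonneg (by linarith) m0)]
      have x2 := (norm_pj_le (G.ry j) _).trans ((norm_mul_le_l1 (R.B G j t) (R.y j i t)).trans
        (mul_le_mul_of_nonneg_right (H.l1_B_le j t) (norm_nonneg _)))
      have x3 := mul_le_mul (mul_le_of_le_one_left m0 c3) x2 (norm_nonneg _) m0
      refine x3.trans (le_of_eq ?_)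
      simp only [ha]; ring
    have y1 := dv_re_inner_damp (d := G.D j) (H.layy j (i + 1)) (R.y j (i + 1) t) _ x1
    rw [show ∀ a b c e : V, a + e - b - c = a - b - c + e from fun _ _ _ _ => by abel] at y1
    have y2 : R.ey G j i t = K * G.tau0 * R.nl G j t * a i + K * W * a (i + 2) +
        K * R.Low G j t * a (i + 1) + X := by
      simp only [Raw.ey, hK, hW, hX, ha]; ring
    have y3 := mul_le_mul_of_nonneg_right kk (mul_nonneg (a0 (i + 1)) (a0 i))
    have y4 := mul_le_mul_of_nonneg_right (mul_le_mul_of_nonneg_left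
      (show R.Low G j t ≤ W by linarith) K0) (sq_nonneg (a (i + 1)))
    rw [y2] at y1
    change _ ≤ a (i + 1) * _ - _ * a (i + 1) ^ 2 at y1
    linarith
  · rw [Finset.sum_coe_sort _ fun i => 2 * (2 * K * W * (a (i + 1) * a i) +
      K * W * (a (i + 1) * a (i + 2)) + (K * W - G.D j) * a (i + 1) ^ 2 + X * a (i + 1)),
      ← Finset.mul_sum, Finset.sum_add_distrib, Finset.sum_add_distrib, Finset.sum_add_distrib,
      ← Finset.mul_sum, ← Finset.mul_sum, ← Finset.mul_sum, ← Finset.mul_sum, ← c2]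
    have KW : 0 ≤ K * W := mul_nonneg K0 W0
    have z1 := mul_le_mul_of_nonneg_left s1 X0
    have z2 := mul_le_mul_of_nonneg_left s2 KW
    have z3 := mul_le_mul_of_nonneg_left s3 KW
    have z4 : X * (G.t ^ 11 / 10 * R.ch G j t) = R.ch G j t * (K * W * (G.t ^ 11 * R.lev (j + 1) t) / 10
        + K * (G.t ^ 51 * G.N j * R.ET (j + G.kk - 1) t) / 10 + G.t ^ 11 * R.Jk t) := by
      rw [hX]; ring
    have z5 : 10 ^ 8 * G.lam (j + 1) = 100 * K := by rw [hK]; ring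
    rw [z5, ← eF]
    have p1 : 0 ≤ K * W * R.ch G j t ^ 2 := mul_nonneg KW (sq_nonneg _)
    have p2 : 0 ≤ K * W * (R.ch G j t * R.lev j t) := mul_nonneg KW (mul_nonneg c0 l0)
    have p3 : 0 ≤ R.ch G j t * (K * W * (G.t ^ 11 * R.lev (j + 1) t)) :=
      mul_nonneg c0 (mul_nonneg KW (mul_nonneg (pow_nonneg T0.le _) l1'))
    have p4 : 0 ≤ R.ch G j t * (K * (G.t ^ 51 * G.N j * R.ET (j + G.kk - 1) t)) :=
      mul_nonneg c0 (mul_nonneg K0 (mul_nonneg (mul_nonneg (pow_nonneg T0.le _) N0) E0))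
    clear_value X W K
    linarith

/-- The derivative of the distance of a tooth to a multiple of the ground state. -/
lemma b_deriv (j : ℕ) (o : Fin 4) {t : ℝ} (ht : 0 ≤ t) (a : ℝ) :
    ∃ D, HD (fun t => ‖R.b j o t - (a : ℂ) • G.φ j‖ ^ 2) D t ∧
      D ≤ 2 * ‖R.b j o t - (a : ℂ) • G.φ j‖ *
        (R.kap G (j - 1) * l1 (R.B G (j - 1) t) * ‖R.c j o t‖ + G.d j * ‖R.b j o t‖ +
          G.ell j * |a| + R.eb G j t) := by
  obtain ⟨s, r, hr, -, hs, -, h⟩ := H.dv_eqB' j o ht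
  refine ⟨_, HD.normsq (h.sub_const ((a : ℂ) • G.φ j)), ?_⟩
  set u := R.b j o t - (a : ℂ) • G.φ j with hu
  have e : s - (G.d j : ℂ) • R.b j o t - mulr (R.vb j) (R.b j o t) + r =
      s - (G.d j : ℂ) • R.b j o t - (a : ℂ) • mulr (R.vb j) (G.φ j) + r - mulr (R.vb j) u := by
    rw [hu, map_sub, map_smul]; abel
  have x1 : ‖mulr (R.vb j) (G.φ j)‖ ≤ G.ell j := by
    have := (H.layb j).norm_le (G.sp_φ j) (norm_coeff_ph_le _)
    rwa [mul_assoc, mul_inv_cancel₀ (Nn_pos _).ne', mul_one] at this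
  have x2 : ‖s - (G.d j : ℂ) • R.b j o t - (a : ℂ) • mulr (R.vb j) (G.φ j) + r‖ ≤
      R.kap G (j - 1) * l1 (R.B G (j - 1) t) * ‖R.c j o t‖ + G.d j * ‖R.b j o t‖ +
        G.ell j * |a| + R.eb G j t := by
    refine (norm_add_le _ _).trans (add_le_add ((norm_sub_le _ _).trans
      (add_le_add ((norm_sub_le _ _).trans (add_le_add hs ?_)) ?_)) hr)
    · rw [dv_norm_rsmul (G.d_pos j).le]
    · rw [norm_smul, Complex.norm_real, Real.norm_eq_abs, mul_comm]
      exact mul_le_mul_of_nonneg_right x1 (abs_nonneg _)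
  have x3 := (dv_re_inner_le_mul u _).trans (mul_le_mul_of_nonneg_left x2 (norm_nonneg u))
  have x4 := (H.layb j).re_inner u
  rw [e, inner_sub_right, Complex.sub_re]
  linarith

lemma c_deriv (j : ℕ) (o : Fin 4) {t : ℝ} (ht : 0 ≤ t) :
    ∃ D, HD (fun t => ‖R.c (j + 1) o t‖ ^ 2) D t ∧ D ≤ 2 * ‖R.c (j + 1) o t‖ *
      (R.kap G j * l1 (R.B G j t) * ‖R.b (j + 1) o t‖ + ‖R.f G j o t‖ + R.ec G j t) := by
  obtain ⟨r, hr, h⟩ := H.eqC j o t ht
  refine ⟨_, HD.normsq h, ?_⟩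
  have k0 := (H.kap_pos j).le
  have x2 : ‖(R.kap G j : ℂ) • (R.A G j t * R.b (j + 1) o t) + R.f G j o t + r‖ ≤
      R.kap G j * l1 (R.B G j t) * ‖R.b (j + 1) o t‖ + ‖R.f G j o t‖ + R.ec G j t := by
    refine norm_add₃_le.trans (add_le_add (add_le_add ?_ le_rfl) hr)
    rw [dv_norm_rsmul k0, mul_assoc, ← l1_tau (R.B G j t)]
    exact mul_le_mul_of_nonneg_left (norm_mul_le_l1 _ _) k0
  have y2 := dv_re_inner_damp (d := G.d (j + 1)) (H.layc (j + 1)) (R.c (j + 1) o t) _ x2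
  rw [show ∀ a f b c e : V, a + f + e - b - c = a - b - c + f + e from
    fun _ _ _ _ _ => by abel] at y2
  have := mul_nonneg (G.d_pos (j + 1)).le (sq_nonneg ‖R.c (j + 1) o t‖)
  linarith

/-- The derivative of a tooth in the sum norm. -/
lemma b_l1_deriv (j : ℕ) (o : Fin 4) {t : ℝ} (ht : 0 ≤ t) :
    ∃ D, HD (R.b j o) D t ∧ l1 D ≤
      R.kap G (j - 1) * l1 (R.B G (j - 1) t) * l1 (R.c j o t) + G.d j * l1 (R.b j o t) +
        G.N j * (G.ell j * ‖R.b j o t‖ + 3 * R.eb G j t) := by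
  obtain ⟨s, r, hr, sp, -, hs, h⟩ := H.dv_eqB' j o ht
  refine ⟨_, h, ?_⟩
  have x1 := HD.sp h ht (H.spb j o)
  have x2 : Sp (G.rb j) r := by
    have := x1.sub ((sp.sub ((H.spb j o t).smul (G.d j : ℂ))).sub ((H.spb j o t).mulr (R.vb j)))
    rwa [add_sub_cancel_left] at this
  have x3 := x2.l1_le.trans (mul_le_mul_of_nonneg_left hr
    (mul_nonneg (by norm_num) (Nn_pos _).le))
  have x4 := (H.layb j).l1_le (H.spb j o t)
  have x5 := dv_l1_rsmul (G.d_pos j).le (R.b j o t)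
  have x6 := (l1_add_le _ r).trans (add_le_add ((l1_sub_le _ (mulr (R.vb j) (R.b j o t))).trans
    (add_le_add ((l1_sub_le s _).trans (add_le_add hs x5.le)) x4)) x3)
  refine x6.trans (le_of_eq ?_)
  simp only [Geo.N]; ring

/-- High levels are small on bounded time intervals. -/
lemma high (J : ℕ) (tb : ℝ) {u : ℝ} (hu : 0 < u) : ∃ M, ∀ i, M ≤ i → ∀ t ∈ Icc 0 tb,
    R.nc G i t ≤ G.θ ^ (i - J) * u ∧ G.Wc * R.nl G i t ≤ G.θ ^ (i - J - 1) * u := by
  obtain ⟨K, hK⟩ := H.decay 3 tb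
  have T1 := G.one_le_t
  have T0 := G.t_pos
  have W0 := G.Wc_pos
  have N0 := G.N_pos 0
  have C0 : 0 < G.Wc * G.N 0 * (|K| + 1) := by positivity
  have q1 : (G.t ^ 21)⁻¹ < 1 := inv_lt_one_of_one_lt₀ (one_lt_pow₀
    (lt_of_lt_of_le (by norm_num) G.t_big) (by norm_num))
  obtain ⟨M, hM⟩ := exists_pow_lt_of_lt_one (div_pos hu C0) q1
  refine ⟨M, fun i hi t ht => ?_⟩
  have θ0 := G.θ_pos.le
  have θ1 : G.θ ≤ 1 := inv_le_one_of_one_le₀ (one_le_pow₀ T1)
  have l0 := R.lev_nonneg i t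
  have c0 := R.ch_nonneg G i t
  have hN : ∀ m, G.N m ≤ (G.t ^ 32) ^ m * G.N 0 := fun m => by
    induction m with
    | zero => simp
    | succ m ih =>
      refine (G.N_succ_hi m).trans ((mul_le_mul_of_nonneg_left ih (by positivity)).trans
        (le_of_eq (by ring)))
  have hl : (G.t ^ 21) ^ i ≤ G.lam i := by
    have := G.lam_add 0 i
    rw [zero_add] at this
    rw [this]
    exact le_mul_of_one_le_right (by positivity) (G.one_le_lam 0)
  have x1 : ((G.t ^ 21) ^ i) ^ 3 * (R.lev i t + R.ch G i t) ≤ |K| + 1 :=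
    (mul_le_mul_of_nonneg_right (pow_le_pow_left₀ (by positivity) hl 3) (by positivity)).trans
      ((hK i t ht).trans (by linarith [le_abs_self K]))
  have x2 : ((G.t ^ 21)⁻¹) ^ i * (G.Wc * G.N 0 * (|K| + 1)) ≤ u :=
    ((le_div_iff₀ C0).mp ((pow_le_pow_of_le_one (by positivity) q1.le hi).trans hM.le))
  have key : G.Wc * (G.N i * (R.lev i t + R.ch G i t)) ≤ G.θ ^ i * u := by
    refine le_trans ?_ (mul_le_mul_of_nonneg_left x2 (pow_nonneg θ0 i))
    have e : (G.t ^ 32) ^ i = G.θ ^ i * ((G.t ^ 21)⁻¹) ^ i * ((G.t ^ 21) ^ i) ^ 3 := by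
      rw [← pow_mul (G.t ^ 21), mul_comm i 3, pow_mul, ← mul_pow, ← mul_pow]
      congr 1
      unfold Geo.θ
      field_simp
    calc G.Wc * (G.N i * (R.lev i t + R.ch G i t))
        ≤ G.Wc * ((G.t ^ 32) ^ i * G.N 0 * (R.lev i t + R.ch G i t)) := by
          gcongr; exact hN i
      _ = G.θ ^ i * ((G.t ^ 21)⁻¹) ^ i * (G.Wc * G.N 0) *
          (((G.t ^ 21) ^ i) ^ 3 * (R.lev i t + R.ch G i t)) := by rw [e]; ring
      _ ≤ G.θ ^ i * ((G.t ^ 21)⁻¹) ^ i * (G.Wc * G.N 0) * (|K| + 1) := by gcongr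
      _ = _ := by ring
  have Ni := (G.N_pos i).le
  have p1 : 0 ≤ G.Wc * (G.N i * R.lev i t) := by positivity
  have p2 : 0 ≤ G.Wc * (G.N i * R.ch G i t) := by positivity
  have y1 := mul_le_mul_of_nonneg_right
    (pow_le_pow_of_le_one θ0 θ1 (show i - J ≤ i by omega)) hu.le
  have y2 := mul_le_mul_of_nonneg_right
    (pow_le_pow_of_le_one θ0 θ1 (show i - J - 1 ≤ i by omega)) hu.le
  simp only [Raw.nc, Raw.nl]
  constructor <;> linarith

end IsNet

end

end Pool.Agent.Work.MP_6bf1e5_an.Ell
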