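import Pool.Agent.Work.MP_6bf1e5_an.Ell.Young

/-!
The junk is small; continuity and decay.
-/

open Set Complex
open scoped InnerProductSpace ComplexConjugate Classical
open Pool.Agent.Work.MP_6bf1e5_an.B
open Pool.Agent.Work.MP_6bf1e5_an.Dec

namespace Pool.Agent.Work.MP_6bf1e5_an.Ell.Pd

noncomputable section

attribute [local irreducible] Fam.S

variable {G : Geo} {α : ℝ → Z3 → E3}

/-- The equation of the junk. -/
lemma hd_jnk (H : RSol G α) (k : Z3) {t : ℝ} (ht : 0 ≤ t) :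
    ∃ s, ‖s‖ ≤ ‖BR (α t) (α t) k‖ ∧
      HD (fun t => jnk G (α t) k) (s - sc G k • jnk G (α t) k) t := by
  have h1 := H.deriv k t ht
  have h2 : HD (fun t => Pj G k (α t k)) (Pj G k (rhs G (α t) k)) t :=
    ((innerSL ℝ (lp (xi k) (vec G k))).hasFDerivAt.comp_hasDerivWithinAt t h1).smul_const _
  refine ⟨lp (xi k) (BR (α t) (α t) k) - Pj G k (lp (xi k) (BR (α t) (α t) k)),
    (norm_sub_Pj_le _ _ _).trans (norm_lp_le _ _), ?_⟩
  have h3 := h1.sub h2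
  refine Eq.subst (motive := fun z => HD (fun t => jnk G (α t) k) z t) ?_ h3
  simp only [rhs, AR, jnk, act, Pj_sub, Pj_smul, Pj_Pj, smul_sub]
  abel

lemma Duh_gen {E : Type} [NormedAddCommGroup E] [NormedSpace ℝ E] {W W' : ℝ → E}
    {t0 t1 A C : ℝ} (h1 : t0 ≤ t1) (hC : 0 < C) (hc : ContinuousOn W (Icc t0 t1))
    (hd : ∀ τ ∈ Ico t0 t1, HasDerivWithinAt W (W' τ) (Ici τ) τ)
    (hb : ∀ τ ∈ Ico t0 t1, ‖W' τ‖ ≤ A / (C * √((t1 - τ) / C))) :
    ‖W t1‖ ≤ ‖W t0‖ + 2 * A * √((t1 - t0) / C) := by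
  have := image_norm_le_of_norm_deriv_right_le_deriv_boundary' hc hd
    (B := fun τ => ‖W t0‖ + 2 * A * (√((t1 - t0) / C) - √((t1 - τ) / C)))
    (B' := fun τ => A / (C * √((t1 - τ) / C))) (by simp) (by fun_prop) (fun τ hτ => by
      have p : 0 < (t1 - τ) / C := div_pos (sub_pos.mpr hτ.2) hC
      have d1 : HasDerivAt (fun τ => (t1 - τ) / C) (-1 / C) τ :=
        ((hasDerivAt_id τ).const_sub t1).div_const C
      have d2 := (((d1.sqrt p.ne').const_sub (√((t1 - t0) / C))).const_mul (2 * A)).const_add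
        ‖W t0‖
      have q := Real.sqrt_pos.mpr p
      refine Eq.subst (motive := fun z => HasDerivWithinAt _ z (Ici τ) τ) ?_ d2.hasDerivWithinAt
      field_simp) hb ⟨h1, le_rfl⟩
  simpa using this

lemma Duh_exp {x σ u C : ℝ} (hC : 0 < C) (hu : 0 < u) (hσ : C * x ^ 2 ≤ σ) :
    x * Real.exp (-(σ * u)) ≤ 1 / (C * √(u / C)) := by
  have q := Real.sqrt_pos.mpr (div_pos hu hC)
  have e : (x * (C * √(u / C))) ^ 2 = C * x ^ 2 * u := by
    rw [mul_pow, mul_pow, Real.sq_sqrt (div_pos hu hC).le]; field_simp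
  rw [le_div_iff₀ (by positivity), mul_right_comm, Real.exp_neg, mul_inv_le_iff₀ (Real.exp_pos _),
    one_mul]
  have h1 := Real.add_one_le_exp (σ * u)
  have h2 := mul_le_mul_of_nonneg_right hσ hu.le
  nlinarith [sq_nonneg (x * (C * √(u / C)) - 1)]

lemma Duh_sc_nonneg (k : Z3) : 0 ≤ sc G k :=
  le_trans (mul_nonneg (C_pos G).le (sq_nonneg _)) (sc_ge k)

lemma Duh_pi (H : RSol G α) (p : ENNReal) [Fact (1 ≤ p)] (K : Finset Z3) (ω : Z3 → ℝ)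
    {t0 t1 A : ℝ} (h0 : 0 ≤ t0) (h1 : t0 ≤ t1)
    (hb : ∀ τ ∈ Ico t0 t1, ∀ s : Z3 → E3, (∀ k, ‖s k‖ ≤ ‖BR (α τ) (α τ) k‖) →
      ‖(WithLp.toLp p fun k : K => (ω k * Real.exp (-(sc G k * (t1 - τ)))) • s k :
        PiLp p fun _ : K => E3)‖ ≤ A / (G.C * √((t1 - τ) / G.C))) :
    ‖(WithLp.toLp p fun k : K => ω k • jnk G (α t1) k : PiLp p fun _ : K => E3)‖ ≤
      ‖(WithLp.toLp p fun k : K => (ω k * Real.exp (-(sc G k * (t1 - t0)))) • jnk G (α t0) k :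
        PiLp p fun _ : K => E3)‖ + 2 * A * √((t1 - t0) / G.C) := by
  choose! s hs using fun k t ht => hd_jnk H k (t := t) ht
  have hd : ∀ τ, 0 ≤ τ → HD (fun τ => (WithLp.toLp p fun k : K =>
      (ω k * Real.exp (-(sc G k * (t1 - τ)))) • jnk G (α τ) k : PiLp p fun _ : K => E3))
      (WithLp.toLp p fun k : K => (ω k * Real.exp (-(sc G k * (t1 - τ)))) • s k τ) τ := by
    intro τ hτ
    refine (PiLp.continuousLinearEquiv p ℝ fun _ : K => E3).symm.hasFDerivAt.comp_hasDerivWithinAt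
      τ (hasDerivWithinAt_pi.mpr fun k => ?_)
    have d1 : HasDerivAt (fun τ => ω k * Real.exp (-(sc G k * (t1 - τ))))
        (ω k * (Real.exp (-(sc G k * (t1 - τ))) * -(sc G k * -1))) τ :=
      ((((hasDerivAt_id τ).const_sub t1).const_mul (sc G k)).neg.exp).const_mul (ω k)
    have d2 := d1.hasDerivWithinAt.smul (hs k τ hτ).2
    refine Eq.subst (motive := fun z => HasDerivWithinAt _ z (Ici 0) τ) ?_ d2
    module
  have := Duh_gen h1 (C_pos G) (contOn_of_HD h0 fun τ hτ => ⟨_, hd τ (h0.trans hτ.1)⟩)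
    (fun τ hτ => (hd τ (h0.trans hτ.1)).right (h0.trans hτ.1))
    (fun τ hτ => hb τ hτ (fun k => s k τ) fun k => (hs k τ (h0.trans hτ.1)).1)
  simpa using this

lemma Duh_exp_le_one (k : Z3) {u : ℝ} (hu : 0 ≤ u) : Real.exp (-(sc G k * u)) ≤ 1 :=
  Real.exp_le_one_iff.mpr (neg_nonpos.mpr (mul_nonneg (Duh_sc_nonneg k) hu))

theorem duh_F (H : RSol G α) {t0 t1 U0 : ℝ} (h0 : 0 ≤ t0) (h1 : t0 ≤ t1)
    (hU : ∀ s ∈ Icc t0 t1, (rawOf G α).U s ≤ U0) :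
    (rawOf G α).Fj t1 ≤ (rawOf G α).Fj t0 + 2 * U0 ^ 2 * √((t1 - t0) / G.C) := by
  refine (L1.tsum_le (fun _ => norm_nonneg _) fun K => ?_).2
  have h2 := Duh_pi H 1 K (fun _ => 1) (A := U0 ^ 2) h0 h1 fun τ hτ s hs => by
    have a := H.adm τ (h0.trans hτ.1)
    have q : 0 < G.C * √((t1 - τ) / G.C) :=
      mul_pos (C_pos G) (Real.sqrt_pos.mpr (div_pos (sub_pos.mpr hτ.2) (C_pos G)))
    have u0 : 0 ≤ ∑' k, ‖α τ k‖ := tsum_nonneg fun _ => norm_nonneg _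
    have u1 : ∑' k, ‖α τ k‖ ≤ U0 := hU τ ⟨hτ.1, hτ.2.le⟩
    rw [PiLp.norm_eq_of_L1]
    calc _ ≤ ∑ k : K, 1 / (G.C * √((t1 - τ) / G.C)) * ∑' p, ‖α τ p‖ * ‖α τ (k - p)‖ := by
          refine Finset.sum_le_sum fun k _ => ?_
          simp only [one_mul, norm_smul, Real.norm_of_nonneg (Real.exp_pos _).le]
          refine (mul_le_mul_of_nonneg_left ((hs k).trans (norm_BR_le a k))
            (Real.exp_pos _).le).trans ?_
          rw [← mul_assoc, mul_comm (Real.exp _)]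
          exact mul_le_mul_of_nonneg_right (Duh_exp (C_pos G) (sub_pos.mpr hτ.2) (sc_ge _))
            (tsum_nonneg fun _ => by positivity)
      _ = 1 / (G.C * √((t1 - τ) / G.C)) * ∑ k ∈ K, ∑' p, ‖α τ p‖ * ‖α τ (k - p)‖ := by
          rw [← Finset.mul_sum, Finset.sum_coe_sort K fun k => ∑' p, ‖α τ p‖ * ‖α τ (k - p)‖]
      _ ≤ 1 / (G.C * √((t1 - τ) / G.C)) * U0 ^ 2 := by
          gcongr
          exact (L1_conv a.rapid K).trans (by gcongr)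
      _ = _ := by ring
  rw [PiLp.norm_eq_of_L1, PiLp.norm_eq_of_L1] at h2
  simp only [one_smul, one_mul] at h2
  rw [Finset.sum_coe_sort K fun k => ‖jnk G (α t1) k‖] at h2
  refine h2.trans (add_le_add ?_ le_rfl)
  obtain ⟨M, hM⟩ := (adm_jnk (G := G) (H.adm t0 h0)).rapid 0
  refine le_trans ?_ (L1_tsum (fun _ => norm_nonneg _) hM.summable_norm K)
  rw [← Finset.sum_coe_sort K fun k => ‖jnk G (α t0) k‖]
  refine Finset.sum_le_sum fun k _ => ?_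
  rw [norm_smul, Real.norm_of_nonneg (Real.exp_pos _).le]
  exact mul_le_of_le_one_left (norm_nonneg _) (Duh_exp_le_one _ (sub_nonneg.mpr h1))

theorem duh_H (H : RSol G α) {t0 t1 U0 H0 : ℝ} (h0 : 0 ≤ t0) (h1 : t0 ≤ t1)
    (hU : ∀ s ∈ Icc t0 t1, (rawOf G α).U s ≤ U0) (hH : ∀ s ∈ Icc t0 t1, (rawOf G α).H s ≤ H0) :
    (rawOf G α).Hj t1 ≤ (rawOf G α).Hj t0 + 2 * U0 * H0 * √((t1 - t0) / G.C) := by
  have U00 : 0 ≤ U0 := le_trans (tsum_nonneg fun _ => norm_nonneg _) (hU t0 ⟨le_rfl, h1⟩)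
  have H00 : 0 ≤ H0 := le_trans (Real.sqrt_nonneg _) (hH t0 ⟨le_rfl, h1⟩)
  have J0 : 0 ≤ (rawOf G α).Hj t0 := Real.sqrt_nonneg _
  refine (L2.tsum_le ⟨by positivity, fun K => ?_⟩).2
  have h2 := Duh_pi H 2 K ax (A := U0 * H0) h0 h1 fun τ hτ s hs => by
    have a := H.adm τ (h0.trans hτ.1)
    have q : 0 < G.C * √((t1 - τ) / G.C) :=
      mul_pos (C_pos G) (Real.sqrt_pos.mpr (div_pos (sub_pos.mpr hτ.2) (C_pos G)))
    have u1 : ∑' k, ‖α τ k‖ ≤ U0 := hU τ ⟨hτ.1, hτ.2.le⟩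
    have u2 : √(∑' k, (ax k * ‖α τ k‖) ^ 2) ≤ H0 := hH τ ⟨hτ.1, hτ.2.le⟩
    have u3 := (L2_BR a.rapid a.rapid).mono (mul_le_mul u1 u2 (Real.sqrt_nonneg _) U00)
    rw [PiLp.norm_eq_of_L2]
    refine Real.sqrt_le_iff.mpr ⟨by positivity, ?_⟩
    calc _ ≤ ∑ k : K, (1 / (G.C * √((t1 - τ) / G.C))) ^ 2 * ‖BR (α τ) (α τ) k‖ ^ 2 := by
          refine Finset.sum_le_sum fun k _ => ?_
          rw [← mul_pow]
          refine pow_le_pow_left₀ (norm_nonneg _) ?_ 2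
          simp only [norm_smul]
          rw [Real.norm_of_nonneg (mul_nonneg (ax_nonneg _) (Real.exp_pos _).le)]
          exact mul_le_mul (Duh_exp (C_pos G) (sub_pos.mpr hτ.2) (sc_ge _)) (hs k)
            (norm_nonneg _) (by positivity)
      _ = (1 / (G.C * √((t1 - τ) / G.C))) ^ 2 * ∑ k ∈ K, ‖BR (α τ) (α τ) k‖ ^ 2 := by
          rw [← Finset.mul_sum, Finset.sum_coe_sort K fun k => ‖BR (α τ) (α τ) k‖ ^ 2]
      _ ≤ (1 / (G.C * √((t1 - τ) / G.C))) ^ 2 * (U0 * H0) ^ 2 := by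
          gcongr
          exact u3.2 K
      _ = _ := by ring
  rw [PiLp.norm_eq_of_L2, PiLp.norm_eq_of_L2] at h2
  have e1 : ∑ k : K, ‖ax k • jnk G (α t1) k‖ ^ 2 = ∑ k ∈ K, (ax k * ‖jnk G (α t1) k‖) ^ 2 := by
    rw [← Finset.sum_coe_sort K fun k => (ax k * ‖jnk G (α t1) k‖) ^ 2]
    exact Finset.sum_congr rfl fun k _ => by rw [norm_smul, Real.norm_of_nonneg (ax_nonneg _)]
  have e2 : √(∑ k : K, ‖(ax k * Real.exp (-(sc G k * (t1 - t0)))) • jnk G (α t0) k‖ ^ 2) ≤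
      (rawOf G α).Hj t0 := by
    refine Real.sqrt_le_iff.mpr ⟨J0, le_trans ?_
      ((L2_tsum (summable_sq_ax (adm_jnk (G := G) (H.adm t0 h0)).rapid)).2 K)⟩
    rw [← Finset.sum_coe_sort K fun k => (ax k * ‖jnk G (α t0) k‖) ^ 2]
    refine Finset.sum_le_sum fun k _ => pow_le_pow_left₀ (norm_nonneg _) ?_ 2
    rw [norm_smul, Real.norm_of_nonneg (mul_nonneg (ax_nonneg _) (Real.exp_pos _).le)]
    exact mul_le_mul_of_nonneg_right (mul_le_of_le_one_right (ax_nonneg _)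
      (Duh_exp_le_one _ (sub_nonneg.mpr h1))) (norm_nonneg _)
  simp only [e1] at h2
  refine (Real.sqrt_le_iff.mp (h2.trans ((add_le_add e2 le_rfl).trans (le_of_eq ?_)))).2
  ring

lemma Duh_cont {f : ℝ → ℝ} (h : ∀ T, ContinuousOn f (Icc 0 T)) : ContinuousOn f (Ici 0) :=
  fun x hx => (h (x + 1) x ⟨hx, by linarith⟩).mono_of_mem_nhdsWithin
    (inter_mem_nhdsWithin (Ici 0) (Iic_mem_nhds (lt_add_one x)))

lemma Duh_cont_mode (H : RSol G α) (k : Z3) (T : ℝ) : ContinuousOn (fun t => α t k) (Icc 0 T) :=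
  contOn_of_HD le_rfl fun t ht => ⟨_, H.deriv k t ht.1⟩

theorem contU (H : RSol G α) : ContinuousOn (rawOf G α).U (Ici 0) := by
  refine Duh_cont fun T => ?_
  obtain ⟨M, hM⟩ := H.bd 4 T
  refine continuousOn_tsum (fun k => (Duh_cont_mode H k T).norm) (summable_w_inv.mul_left M)
    fun k t ht => ?_
  rw [norm_norm, ← div_eq_mul_inv, le_div_iff₀ (pow_pos (w_pos k) 4), mul_comm]
  exact (hM t ht).pt k

theorem contH (H : RSol G α) : ContinuousOn (rawOf G α).H (Ici 0) := by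
  refine Duh_cont fun T => ContinuousOn.sqrt ?_
  obtain ⟨M, hM⟩ := H.bd 3 T
  refine continuousOn_tsum (fun k => (continuousOn_const.mul (Duh_cont_mode H k T).norm).pow 2)
    (summable_w_inv.mul_left (M ^ 2)) fun k t ht => ?_
  rw [Real.norm_of_nonneg (sq_nonneg _), ← div_eq_mul_inv, le_div_iff₀ (pow_pos (w_pos k) 4)]
  have h1 := (hM t ht).pt k
  have h2 := w_pos k
  have h3 := ax_nonneg k
  have h4 := ax_le_w k
  calc (ax k * ‖α t k‖) ^ 2 * w k ^ 4 ≤ (w k * ‖α t k‖) ^ 2 * w k ^ 4 := by gcongr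
    _ = (w k ^ 3 * ‖α t k‖) ^ 2 := by ring
    _ ≤ _ := by gcongr

lemma Duh_mk {S : Finset Z3} {φ : Z3 → Z3} (inj : Function.Injective φ) {c : Z3 → ℝ}
    {β : Z3 → E3} {l E M : ℝ} {s : ℕ} (l0 : 0 ≤ l) (E0 : 0 ≤ E)
    (hc : ∀ h ∈ S, |c h| ≤ E * ‖β (φ h)‖) (hl : ∀ h ∈ S, l / 2 ≤ ax (φ h)) (hB : Bd s β M) :
    l ^ s * ‖mk S fun h => (c h : ℂ)‖ ≤ 2 ^ s * E * M := by
  have h1 := hB (S.image φ)
  rw [Finset.sum_image fun a _ b _ h => inj h] at h1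
  refine (mul_le_mul_of_nonneg_left (norm_le_l1 _) (by positivity)).trans
    (le_trans ?_ (mul_le_mul_of_nonneg_left h1 (by positivity)))
  rw [l1_eq (support_mk _ _), Finset.mul_sum, Finset.mul_sum]
  refine Finset.sum_le_sum fun h hh => ?_
  rw [coeff_mk, if_pos hh, Complex.norm_real, Real.norm_eq_abs]
  have a : l ≤ 2 * w (φ h) := by linarith [hl h hh, ax_le_w (φ h)]
  calc l ^ s * |c h| ≤ (2 * w (φ h)) ^ s * (E * ‖β (φ h)‖) :=
        mul_le_mul (pow_le_pow_left₀ l0 a s) (hc h hh) (abs_nonneg _) (pow_nonneg (l0.trans a) s)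
    _ = _ := by rw [mul_pow]; ring

lemma Duh_inner (F : Fam) (x : E3) : |⟪F.e G, x⟫_ℝ| ≤ G.t ^ 11 * ‖x‖ :=
  (abs_real_inner_le_norm _ _).trans (mul_le_mul_of_nonneg_right (norm_e_hi G F) (norm_nonneg _))

lemma Duh_tooth {F : Fam} {x : Z3} (hx : x ∈ F.cens G) (o : Fin 4) {β : Z3 → E3} {l M : ℝ}
    {s : ℕ} (l0 : 0 ≤ l) (hl : ∀ h ∈ F.S G, l / 2 ≤ ax (F.ctr G + h)) (hB : Bd s β M) :
    l ^ s * ‖tooth G F x (G.om o) β‖ ≤ 2 ^ s * G.t ^ 11 * M := by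
  refine Duh_mk (φ := fun h => F.ctr G + (x + h)) (fun a b h => by simpa using h) l0
    (pow_nonneg (t_pos G).le _) (fun h _ => ?_)
    (fun h hh => hl _ (mem_S.mpr ⟨x, hx, by simpa using hh⟩)) hB
  have h1 := (om_bounds G o).1
  rw [abs_mul, abs_of_nonneg (inv_nonneg.mpr (by linarith))]
  exact (mul_le_of_le_one_left (abs_nonneg _) (inv_le_one_of_one_le₀ h1)).trans (Duh_inner F _)

lemma Duh_sqrt {ι : Type} (S : Finset ι) {f g : ι → ℝ} (g0 : ∀ i ∈ S, 0 ≤ g i)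
    (h : ∀ i ∈ S, f i ≤ g i ^ 2) : √(∑ i ∈ S, f i) ≤ ∑ i ∈ S, g i :=
  Real.sqrt_le_iff.mpr ⟨Finset.sum_nonneg g0,
    (Finset.sum_le_sum h).trans (Finset.sum_sq_le_sq_sum_of_nonneg g0)⟩

theorem decay (H : RSol G α) (s : ℕ) (tb : ℝ) : ∃ K, ∀ j, ∀ t ∈ Icc 0 tb,
    G.lam j ^ s * ((rawOf G α).lev j t + (rawOf G α).ch G j t) ≤ K := by
  obtain ⟨M, hM⟩ := H.bd s tb
  refine ⟨(8 + G.La) * (2 ^ s * G.t ^ 11 * M), fun j t ht => ?_⟩
  have hB := hM t ht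
  have l0 : 0 ≤ G.lam j := zero_le_one.trans (lam_pos G j)
  have X0 : 0 ≤ 2 ^ s * G.t ^ 11 * M := by
    have := hB.nonneg
    have := t_pos G
    positivity
  have hb : ∀ o, G.lam j ^ s * ‖(rawOf G α).b j o t‖ ≤ 2 ^ s * G.t ^ 11 * M := fun o =>
    Duh_tooth (F := .b j) (mem_cens_b.mpr ⟨o, rfl⟩) o l0
      (fun h hh => ax_lo (F := .b j) trivial hh) hB
  have hc : ∀ o, G.lam j ^ s * ‖(rawOf G α).c j o t‖ ≤ 2 ^ s * G.t ^ 11 * M := fun o => by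
    cases j with
    | zero => simpa [rawOf] using X0
    | succ j => exact Duh_tooth (F := .c j) (mem_cens_c.mpr ⟨o, rfl⟩) o l0 (fun h hh => ax_c hh) hB
  have hy : ∀ i ∈ Finset.Icc 1 G.La,
      G.lam j ^ s * ‖(rawOf G α).y j i t‖ ≤ 2 ^ s * G.t ^ 11 * M := fun i hi => by
    rw [Finset.mem_Icc] at hi
    have e : (rawOf G α).y j i t = env G (.y j i) (α t) := by
      simp only [rawOf, if_neg (by omega : ¬i = 0), if_pos hi.2]
    rw [e]
    exact Duh_mk (φ := fun h => (Fam.y j i).ctr G + h) (fun a b h => by simpa using h) l0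
      (pow_nonneg (t_pos G).le _) (fun h _ => Duh_inner _ _)
      (fun h hh => ax_lo (F := .y j i) hi hh) hB
  have a1 : (rawOf G α).lev j t ≤ ∑ o, (‖(rawOf G α).b j o t‖ + ‖(rawOf G α).c j o t‖) :=
    Duh_sqrt _ (fun _ _ => by positivity) fun o _ => by
      linarith [mul_nonneg (norm_nonneg ((rawOf G α).b j o t)) (norm_nonneg ((rawOf G α).c j o t))]
  have a2 : (rawOf G α).ch G j t ≤ ∑ i ∈ Finset.Icc 1 G.La, ‖(rawOf G α).y j i t‖ :=
    Duh_sqrt _ (fun _ _ => norm_nonneg _) fun _ _ => le_rfl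
  have b1 := Finset.sum_le_card_nsmul Finset.univ _ _ fun o _ => add_le_add (hb o) (hc o)
  have b2 := Finset.sum_le_card_nsmul _ _ _ hy
  simp only [← mul_add, ← Finset.mul_sum, Finset.card_univ, Fintype.card_fin, nsmul_eq_mul,
    Nat.card_Icc, Nat.add_sub_cancel, Nat.cast_ofNat] at b1 b2
  have c1 := mul_le_mul_of_nonneg_left a1 (pow_nonneg l0 s)
  have c2 := mul_le_mul_of_nonneg_left a2 (pow_nonneg l0 s)
  rw [mul_add]
  linarith

end

end Pool.Agent.Work.MP_6bf1e5_an.Ell.Pd
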