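import Pool.Agent.Work.MP_6bf1e5_an.Ell.CoefA

/-!
The layers, and the linear part of the equation of a tooth.
-/

open Set Complex
open scoped InnerProductSpace ComplexConjugate Classical
open Pool.Agent.Work.MP_6bf1e5_an.B
open Pool.Agent.Work.MP_6bf1e5_an.Dec

namespace Pool.Agent.Work.MP_6bf1e5_an.Ell.Pd

noncomputable section

variable {G : Geo}

lemma Layer_count (m : ℕ) {δ : ℝ} (hδ : 0 ≤ δ) :
    ∑ k ∈ Finset.Icc (-(m : ℤ)) m, (if (1 - δ) * (m + 1) < |(k : ℝ)| then (1 : ℝ) else 0) ≤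
      2 * δ * (m + 1) := by
  have h0 : (0 : ℝ) ≤ δ * (m + 1) := by positivity
  obtain ⟨u, hu⟩ : ∃ u : ℕ, u = ⌊δ * (m + 1)⌋₊ := ⟨_, rfl⟩
  have hu1 : (u : ℝ) ≤ δ * (m + 1) := hu ▸ Nat.floor_le h0
  have hu2 : δ * (m + 1) < u + 1 := hu ▸ Nat.lt_floor_add_one _
  rw [Finset.sum_boole]
  have hs : ((Finset.Icc (-(m : ℤ)) m).filter fun k : ℤ => (1 - δ) * (m + 1) < |(k : ℝ)|) ⊆
      Finset.Icc ((m : ℤ) + 1 - u) m ∪ Finset.Icc (-(m : ℤ)) (-((m : ℤ) + 1 - u)) := by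
    intro k hk
    obtain ⟨h1, h2⟩ := Finset.mem_filter.1 hk
    have h3 : (m : ℝ) - u < |(k : ℝ)| := by linarith
    have h4 : (m : ℤ) - u < |k| := by exact_mod_cast h3
    simp only [Finset.mem_union, Finset.mem_Icc] at h1 ⊢
    rcases abs_cases k with h | h <;> omega
  have h5 := (Finset.card_le_card hs).trans (Finset.card_union_le _ _)
  rw [Int.card_Icc, Int.card_Icc] at h5
  have h6 : ((Finset.Icc (-(m : ℤ)) m).filter
      fun k : ℤ => (1 - δ) * (m + 1) < |(k : ℝ)|).card ≤ 2 * u := by omega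
  have h7 : (((Finset.Icc (-(m : ℤ)) m).filter
      fun k : ℤ => (1 - δ) * (m + 1) < |(k : ℝ)|).card : ℝ) ≤ 2 * u := by exact_mod_cast h6
  linarith

lemma Layer_count3 (n : N3) {δ : ℝ} (hδ : 0 ≤ δ) (i : Fin 3) :
    ∑ h ∈ bx n, (if (1 - δ) * (n i + 1) < |(h i : ℝ)| then (1 : ℝ) else 0) ≤
      8 * δ * Nn n ^ 2 := by
  let a : Fin 3 → ℤ → ℝ := fun j k =>
    if j = i then (if (1 - δ) * (n j + 1) < |(k : ℝ)| then 1 else 0) else 1
  have e1 : ∀ h : Z3, (if (1 - δ) * (n i + 1) < |(h i : ℝ)| then (1 : ℝ) else 0) =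
      ∏ j, a j (h j) := by
    intro h
    rw [Finset.prod_eq_single i (fun j _ hj => by simp only [a, if_neg hj]) (by simp)]
    simp only [a, if_true]
  have e2 : ∀ j, ∑ k ∈ Finset.Icc (-(n j : ℤ)) (n j), a j k ≤
      (if j = i then δ else 1) * (2 * ((n j : ℝ) + 1)) := by
    intro j
    by_cases hj : j = i
    · simp only [a, if_pos hj]
      have := Layer_count (n j) hδ
      linarith
    · simp only [a, if_neg hj, Finset.sum_const, Int.card_Icc, nsmul_eq_mul]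
      have h1 : ((n j : ℤ) + 1 - -(n j : ℤ)).toNat = 2 * n j + 1 := by omega
      rw [h1]
      push_cast
      linarith
  simp only [e1]
  rw [bx, ← Finset.prod_univ_sum]
  refine (Finset.prod_le_prod (fun j _ => Finset.sum_nonneg fun k _ => ?_)
    fun j _ => e2 j).trans (le_of_eq ?_)
  · simp only [a]
    split_ifs <;> norm_num
  · rw [Finset.prod_mul_distrib, Finset.prod_mul_distrib, Nn_sq, Finset.prod_ite_eq']
    simp only [Finset.mem_univ, if_true, Finset.prod_const, Finset.card_univ, Fintype.card_fin]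
    ring

lemma Layer_num (G : Geo) (j : ℕ) : G.Gc j ^ 2 * (24 * G.δ) ≤ G.ell j ^ 2 := by
  have ht := t_big G
  have ht1 : (1 : ℝ) ≤ G.t := le_trans (by norm_num) ht
  have hC := C_big G
  have hC0 : 0 < G.C := Real.exp_pos _
  have h1 : Real.exp (G.t ^ 80) ≤ Real.exp (G.t ^ 81) :=
    Real.exp_le_exp.2 (pow_le_pow_right₀ ht1 (by norm_num))
  have h2 : 60 * G.t ^ 42 ≤ G.t ^ 1000 := by
    have a1 : G.t ^ 43 ≤ G.t ^ 1000 := pow_le_pow_right₀ ht1 (by norm_num)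
    have a2 : (60 : ℝ) ≤ G.t := le_trans (by norm_num) ht
    have a3 : 60 * G.t ^ 42 ≤ G.t * G.t ^ 42 := mul_le_mul_of_nonneg_right a2 (by positivity)
    calc 60 * G.t ^ 42 ≤ G.t * G.t ^ 42 := a3
      _ = G.t ^ 43 := by ring
      _ ≤ G.t ^ 1000 := a1
  have hE : 0 < Real.exp (G.t ^ 80) := Real.exp_pos _
  have h3 : 60 * G.t ^ 42 * Real.exp (G.t ^ 80) ≤ G.C :=
    le_trans (mul_le_mul h2 h1 hE.le (by positivity)) hC
  have hp : 0 ≤ G.t ^ 42 := by positivity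
  have e1 : G.Gc j = 12 * G.C * (G.t ^ 42 * G.lam j ^ 2) := by
    rw [Geo.Gc, lam_succ]; ring
  rw [e1, Geo.ell, Geo.δ, Real.exp_neg]
  generalize G.t ^ 42 = p at *
  generalize Real.exp (G.t ^ 80) = E at *
  generalize G.C = C at *
  generalize G.lam j ^ 2 = l at *
  have h4 : (60 * p * E) ^ 2 ≤ C ^ 2 := pow_le_pow_left₀ (by positivity) h3 2
  have e2 : (12 * C * (p * l)) ^ 2 * (24 * (C ^ 4)⁻¹) =
      3456 * (p * E) ^ 2 * (l ^ 2 / (C ^ 2 * E ^ 2)) := by field_simp; ring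
  have e3 : (E⁻¹ * l) ^ 2 = C ^ 2 * (l ^ 2 / (C ^ 2 * E ^ 2)) := by field_simp
  rw [e2, e3]
  refine mul_le_mul_of_nonneg_right ?_ (by positivity)
  linarith [sq_nonneg (p * E)]

lemma Layer_ell (G : Geo) (j : ℕ) : 0 ≤ G.ell j := by
  unfold Geo.ell
  positivity

theorem lay_tooth (F : Fam) : Lay (F.rad G) (G.ell F.ix) (lay G F) := by
  have d1 := dd_le_Gc G F
  have d2 := dd_pos G F
  have hδ := δ_pos G
  have nn : ∀ h, 0 ≤ lay G F h := by
    intro h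
    unfold lay
    split_ifs
    · exact mul_nonneg (sub_nonneg.2 (chi1_le_one _ _)) (sub_nonneg.2 d1)
    · exact le_rfl
  refine ⟨nn, Layer_ell G _, ?_⟩
  have key : ∀ h ∈ bx (F.rad G), lay G F h ^ 2 ≤ G.Gc F.ix ^ 2 *
      ∑ i, (if (1 - G.δ) * (F.rad G i + 1) < |(h i : ℝ)| then (1 : ℝ) else 0) := by
    intro h hh
    have s0 : ∀ i ∈ (Finset.univ : Finset (Fin 3)), (0 : ℝ) ≤
        if (1 - G.δ) * (F.rad G i + 1) < |(h i : ℝ)| then (1 : ℝ) else 0 := fun i _ => by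
      split_ifs <;> norm_num
    by_cases hb : ∃ i, (1 - G.δ) * (F.rad G i + 1) < |(h i : ℝ)|
    · obtain ⟨i, hi⟩ := hb
      have a1 := Finset.single_le_sum s0 (Finset.mem_univ i)
      rw [if_pos hi] at a1
      have a2 : lay G F h ≤ G.Gc F.ix := by
        unfold lay
        rw [if_pos hh]
        have := chi1_nonneg (G := G) (F.rad G) fun i => (h i : ℝ)
        nlinarith
      calc lay G F h ^ 2 ≤ G.Gc F.ix ^ 2 := pow_le_pow_left₀ (nn h) a2 2
        _ = G.Gc F.ix ^ 2 * 1 := (mul_one _).symm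
        _ ≤ _ := mul_le_mul_of_nonneg_left a1 (sq_nonneg _)
    · have a1 : chi1 G (F.rad G) (fun i => (h i : ℝ)) = 1 := by
        refine Finset.prod_eq_one fun i _ => bmp_one hδ ?_
        have p0 : (0 : ℝ) < F.rad G i + 1 := by positivity
        rw [abs_div, abs_of_pos p0, div_le_iff₀ p0]
        exact not_lt.1 fun hi => hb ⟨i, hi⟩
      have a2 : lay G F h = 0 := by
        unfold lay
        rw [if_pos hh, a1, sub_self, zero_mul]
      rw [a2]
      have := mul_nonneg (sq_nonneg (G.Gc F.ix)) (Finset.sum_nonneg s0)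
      simpa using this
  refine (Finset.sum_le_sum key).trans ?_
  rw [← Finset.mul_sum, Finset.sum_comm]
  have a3 := Finset.sum_le_sum fun i (_ : i ∈ (Finset.univ : Finset (Fin 3))) =>
    Layer_count3 (F.rad G) hδ.le i
  rw [Finset.sum_const, Finset.card_univ, Fintype.card_fin, nsmul_eq_mul] at a3
  calc _ ≤ G.Gc F.ix ^ 2 * ((3 : ℕ) * (8 * G.δ * Nn (F.rad G) ^ 2)) :=
        mul_le_mul_of_nonneg_left a3 (sq_nonneg _)
    _ = G.Gc F.ix ^ 2 * (24 * G.δ) * Nn (F.rad G) ^ 2 := by push_cast; ring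
    _ ≤ G.ell F.ix ^ 2 * Nn (F.rad G) ^ 2 :=
        mul_le_mul_of_nonneg_right (Layer_num G _) (sq_nonneg _)
    _ = _ := by ring

lemma lay_zero (n : N3) (j : ℕ) : Lay n (G.ell j) 0 := by
  refine ⟨fun _ => le_rfl, Layer_ell G j, ?_⟩
  simpa using sq_nonneg (G.ell j * Nn n)

lemma ell_mono (j : ℕ) : G.ell j ≤ G.ell (j + 1) := by
  have ht1 : (1 : ℝ) ≤ G.t := le_trans (by norm_num) (t_big G)
  have l0 : 0 ≤ G.lam j := zero_le_one.trans (lam_pos G j)
  have h1 : G.lam j ≤ G.lam (j + 1) := by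
    rw [lam_succ]
    exact le_mul_of_one_le_left l0 (one_le_pow₀ ht1)
  exact mul_le_mul_of_nonneg_left (pow_le_pow_left₀ l0 h1 2) (Real.exp_pos _).le

lemma env_eq_tooth (j i : ℕ) (β : Z3 → E3) : env G (.y j i) β = tooth G (.y j i) 0 1 β := by
  rw [env, tooth, S_y]
  simp only [inv_one, one_mul, zero_add]
  rfl

lemma Layer_rhs {β : Z3 → E3} (H : Adm β) {F : Fam} (hF : F.ok G) {x h : Z3}
    (hx : x ∈ F.cens G) (hh : h ∈ bx (F.rad G)) :
    ⟪F.e G, rhs G β (F.ctr G + (x + h))⟫_ℝ =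
      ⟪lp (xi (F.ctr G + x + h)) (F.e G), BR β β (F.ctr G + x + h)⟫_ℝ -
        F.dd G * ⟪F.e G, β (F.ctr G + (x + h))⟫_ℝ -
        lay G F h * ⟪F.e G, β (F.ctr G + (x + h))⟫_ℝ := by
  have hS : x + h ∈ F.S G := mem_S.2 ⟨x, hx, by simpa using hh⟩
  have e1 := sc_pt hF g1 hS
  have e2 := dm_pt hF g1 hS
  have e3 := vec_pt hF g1 hS
  rw [pt_g1] at e1 e2 e3
  rw [ge_g1] at e3
  have e4 := chi_tooth hF hx hh
  have e5 : ⟪F.e G, ur (xi (F.ctr G + (x + h))) (F.e G)⟫_ℝ = 1 := by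
    rw [← inner_lp_left (inner_xi_ur _ _)]
    exact inner_lp_ur hF hS
  rw [add_assoc, rhs, AR, Pj, e1, e2, e3, e4, inner_lp_left (H.div _), lay, if_pos hh]
  simp only [inner_sub_right, real_inner_smul_right, inner_lp_swap, e5]
  ring

/-- The equation of a tooth. -/
theorem hd_tooth {α : ℝ → Z3 → E3} (H : RSol G α) {F : Fam} (hF : F.ok G) {x : Z3}
    (hx : x ∈ F.cens G) (ω : ℝ) {t : ℝ} (ht : 0 ≤ t) :
    HD (fun t => tooth G F x ω (α t))
      (((ω⁻¹ : ℝ) : ℂ) • Tst (F.e G) (F.ctr G + x) (F.rad G) (BR (α t) (α t)) -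
        (F.dd G : ℂ) • tooth G F x ω (α t) - mulr (lay G F) (tooth G F x ω (α t))) t := by
  have h1 : HD (fun t => tooth G F x ω (α t)) (mk (bx (F.rad G)) fun h =>
      ((ω⁻¹ * ⟪F.e G, rhs G (α t) (F.ctr G + (x + h))⟫_ℝ : ℝ) : ℂ)) t := by
    refine hd_mk _ fun h _ => ?_
    have a1 : HD (fun t => ⟪F.e G, α t (F.ctr G + (x + h))⟫_ℝ)
        ⟪F.e G, rhs G (α t) (F.ctr G + (x + h))⟫_ℝ t :=
      (innerSL ℝ (F.e G)).hasFDerivAt.comp_hasDerivWithinAt t (H.deriv _ t ht)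
    exact (a1.const_mul ω⁻¹).ofReal_comp
  convert h1 using 1
  ext h
  by_cases hh : h ∈ bx (F.rad G)
  · simp only [AddMonoidAlgebra.coeff_sub, AddMonoidAlgebra.coeff_smul, Finsupp.coe_sub,
      Finsupp.coe_smul, Pi.sub_apply, Pi.smul_apply, smul_eq_mul, coeff_mulr, Tst, tooth,
      coeff_mk, if_pos hh, Layer_rhs (H.adm t ht) hF hx hh]
    push_cast
    ring
  · simp [Tst, tooth, coeff_mk, hh]

end

end Pool.Agent.Work.MP_6bf1e5_an.Ell.Pd
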