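import Pool.Agent.Work.MP_6bf1e5_an.Ell.Norms
import Pool.Agent.Work.MP_6bf1e5_an.Ell.Layer

/-!
Common steps in the equations of the teeth.
-/

open Set Complex
open scoped InnerProductSpace ComplexConjugate Classical
open Pool.Agent.Work.MP_6bf1e5_an.B
open Pool.Agent.Work.MP_6bf1e5_an.Dec

namespace Pool.Agent.Work.MP_6bf1e5_an.Ell.Pd

noncomputable section

variable {G : Geo}

lemma EqA_off (j : ℕ) {o o' : Fin 4} (h : o' ≠ o) :
    ∃ i, (G.n j : ℤ) ≤ |G.off j o i - G.off j o' i| := by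
  have h0 : (0 : ℤ) ≤ G.n j := Int.natCast_nonneg _
  have key : (G.n j : ℤ) ≤ |G.off j o 1 - G.off j o' 1| ∨
      (G.n j : ℤ) ≤ |G.off j o 2 - G.off j o' 2| := by
    fin_cases o <;> fin_cases o' <;> simp [Geo.off, le_abs] at h ⊢
  exact key.elim (fun a => ⟨1, a⟩) fun a => ⟨2, a⟩

/-- Only the tooth `o` of a comb contributes to the tooth `o`. -/
theorem pj_comb (R : Raw) (j : ℕ) (o : Fin 4) {f : Fin 4 → V} (hf : ∀ o, Sp (G.rc (j + 1)) (f o))
    {A : V} (hA : Sp (fun i => 2 * G.rd j i) A) {n : N3} (hn : ∀ i, n i ≤ G.rc (j + 1) i) :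
    pj n (sh (-G.off (j + 1) o) * (R.comb G (j + 1) f * A)) = (R.om o : ℂ) • pj n (f o * A) := by
  have key : ∀ o', pj n (sh (-G.off (j + 1) o) * (sh (G.off (j + 1) o') * (f o' * A))) =
      if o' = o then pj n (f o * A) else 0 := by
    intro o'
    ext h
    rw [coeff_pj, coeff_sh_mul, coeff_sh_mul]
    by_cases ho : o' = o
    · subst ho
      rw [if_pos rfl, coeff_pj]
      congr 2
      abel
    · rw [if_neg ho]
      by_cases hh : h ∈ bx n
      · rw [if_pos hh]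
        refine ((hf o').mul hA) _ fun hm => ?_
        obtain ⟨i, hi⟩ := EqA_off (G := G) (j + 1) ho
        have a1 := mem_bx.1 hh i
        have a2 := mem_bx.1 hm i
        have a3 := hn i
        have a4 := rc_small G (j + 1) i
        have a5 : 2 * G.rd j i ≤ G.rc (j + 1) i := Nat.le_add_left _ _
        simp only [Pi.sub_apply, Pi.neg_apply, Pi.add_apply] at a2
        rw [abs_le] at a1 a2
        rw [le_abs] at hi
        omega
      · rw [if_neg hh]
        rfl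
  rw [Raw.comb, Finset.sum_mul, Finset.mul_sum, map_sum]
  simp only [smul_mul_assoc, mul_smul_comm, map_smul, mul_assoc, key]
  rw [Finset.sum_eq_single o (fun o' _ ho => by rw [if_neg ho, smul_zero]) (by simp), if_pos rfl]

lemma sp_A (α : ℝ → Z3 → E3) (j : ℕ) (t : ℝ) :
    Sp (fun i => 2 * G.rd j i) ((rawOf G α).A G j t) := by
  have h1 : Sp (fun i => 2 * G.rB j i) ((rawOf G α).B G j t) := by
    rw [← env_b]
    exact sp_of_subset ((support_mk _ _).trans (S_b_subset j))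
  refine h1.tau.mono fun i => le_of_eq ?_
  fin_cases i <;> rfl

/-- The junk, in the form used in the equations. -/
lemma junk_Jk {α : ℝ → Z3 → E3} {t : ℝ} (H : Adm (α t)) (e : E3) (r0 : Z3) (n : N3) :
    ‖Tst e r0 n (BR (α t) (α t)) - Tst e r0 n (BR (act G (α t)) (act G (α t)))‖ ≤
      ‖e‖ * (rawOf G α).Jk t := junk_le H e r0 n

/-- The interaction of two tails. -/
lemma Cv_tail {α : ℝ → Z3 → E3} {t : ℝ} (H : Adm (α t)) (n : N3) (i : ℕ) :
    Cv n (nb (act G (α t)) (Tail G i)) (nb (act G (α t)) (Tail G i))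
      (3 * Nn n * (rawOf G α).ET i t) := by
  have h0 : 0 ≤ (rawOf G α).ET i t := tsum_nonneg fun _ => sq_nonneg _
  have := Cv_l2 n (nb_nonneg _ _) (nb_nonneg _ _) (L2_Tail (G := G) H i) (L2_Tail (G := G) H i)
  rwa [Real.mul_self_sqrt h0] at this

/-- Splitting of the tested transport operator. -/
lemma Tst_split {β : Z3 → E3} (H : Rapid β) (e : E3) (r0 : Z3) (n : N3) {P : Z3 → Z3 → Prop}
    {W1 W2 : Set Z3} (hd : ∀ k ∈ W1, k ∉ W2) (hP : ∀ p q, UPair W1 W2 p q → P p q) :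
    Tst e r0 n (RP β P) =
      Tst e r0 n (SB β W1 W2) + Tst e r0 n (RP β fun p q => P p q ∧ ¬UPair W1 W2 p q) := by
  rw [← Tst_add]
  congr 1
  funext r
  exact RP_split H hd hP r

lemma Jk_nonneg (α : ℝ → Z3 → E3) (t : ℝ) : 0 ≤ (rawOf G α).Jk t := by
  have h1 : 0 ≤ (rawOf G α).U t := tsum_nonneg fun _ => norm_nonneg _
  have h2 : 0 ≤ (rawOf G α).Fj t := tsum_nonneg fun _ => norm_nonneg _
  have h3 : 0 ≤ (rawOf G α).H t := Real.sqrt_nonneg _
  have h4 : 0 ≤ (rawOf G α).Hj t := Real.sqrt_nonneg _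
  exact add_nonneg (mul_nonneg h1 h4) (mul_nonneg h2 h3)

lemma nl_nonneg (α : ℝ → Z3 → E3) (j : ℕ) (t : ℝ) : 0 ≤ (rawOf G α).nl G j t := by
  exact mul_nonneg (zero_le_one.trans (N_pos G j)) (lev_nonneg j)

lemma ny_nonneg (α : ℝ → Z3 → E3) (j : ℕ) (t : ℝ) : 0 ≤ (rawOf G α).ny G j t := by
  have ht : (0 : ℝ) ≤ G.t := le_trans (by norm_num) (t_big G)
  exact mul_nonneg (zero_le_one.trans (N_pos G j)) (mul_nonneg (pow_nonneg ht _) (ch_nonneg j))

lemma LowL_nonneg (α : ℝ → Z3 → E3) (j : ℕ) (t : ℝ) : 0 ≤ (rawOf G α).LowL G j t := by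
  exact Finset.sum_nonneg fun i _ => nl_nonneg α i t

lemma LowY_nonneg (α : ℝ → Z3 → E3) (j : ℕ) (t : ℝ) : 0 ≤ (rawOf G α).LowY G j t := by
  exact Finset.sum_nonneg fun i _ => ny_nonneg α i t

lemma ET_nonneg (α : ℝ → Z3 → E3) (i : ℕ) (t : ℝ) : 0 ≤ (rawOf G α).ET i t := by
  exact tsum_nonneg fun _ => sq_nonneg _

lemma tau0_nonneg (G : Geo) : 0 ≤ G.tau0 := by
  have ht : (0 : ℝ) ≤ G.t := le_trans (by norm_num) (t_big G)
  exact div_nonneg (pow_nonneg ht _) ((pow_nonneg ht _).trans (m0_big G))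

end

end Pool.Agent.Work.MP_6bf1e5_an.Ell.Pd
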