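import Pool.Agent.Work.MP_6bf1e5_an.Ell.RowsA

/-!
Classification of the triads of active modes.
-/

open Set Complex
open scoped InnerProductSpace ComplexConjugate Classical
open Pool.Agent.Work.MP_6bf1e5_an.B
open Pool.Agent.Work.MP_6bf1e5_an.Dec

namespace Pool.Agent.Work.MP_6bf1e5_an.Ell.Pd

noncomputable section

attribute [local irreducible] Fam.S

variable {G : Geo}

lemma rows_upair_symm {W1 W2 : Set Z3} {p q : Z3} (h : UPair W1 W2 p q) : UPair W1 W2 q p :=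
  h.elim (fun h => Or.inr ⟨h.2, h.1⟩) fun h => Or.inl ⟨h.2, h.1⟩

lemma rows_mem_pt {F : Fam} (g : Gp) {a : Z3} (ha : a ∈ F.S G) : pt G F g a ∈ Pt G F g :=
  ⟨a, ha, rfl⟩

lemma rows_abs_gz (g : Gp) (k : Z3) (l : Fin 3) : |gz g k l| = |k (l - g.1)| := by
  obtain ⟨s, u⟩ := g
  rcases Int.units_eq_one_or u with rfl | rfl <;> simp [gz]

lemma rows_pt_eq (F : Fam) (g : Gp) (a : Z3) : pt G F g a = gz g (F.ctr G) + gz g a :=
  gz_add _ _ _

/-- The ordered form of the exact triads. -/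
def RowsOrd (L J i : ℕ) (x y : ℕ × ℕ × Gp) : Prop :=
  (∃ m, i = m + 1 ∧ x = (J, m, g1) ∧ y = (J, 0, (2, 1))) ∨
    (x = (J, i + 1, g1) ∧ y = (J, 0, (2, -1))) ∨
    (i = 0 ∧ x = (J, L, g1) ∧ y = (J + 1, 0, (2, -1))) ∨
    (i = L ∧ x = (J, 0, g1) ∧ y = (J + 1, 0, (2, 1))) ∨
    (i = 0 ∧ ∃ m, x = (J, m + 1, (1, 1)) ∧ y = (J, m, (1, -1))) ∨
    (i = 0 ∧ ∃ J', J = J' + 1 ∧ x = (J', L, (1, 1)) ∧ y = (J', 0, (1, -1)))

lemma rows_ord {F F1 F2 : Fam} (hF : F.ok G) (h1 : F1.ok G) (h2 : F2.ok G) {g g' c : Gp}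
    (hc : gm c (cg F) = g1) (H : gz g (F1.ctr G) + gz g' (F2.ctr G) = F.ctr G) :
    RowsOrd G.La F.ix (ci G F) (F1.ix, ci G F1, gm c (gm g (cg F1)))
        (F2.ix, ci G F2, gm c (gm g' (cg F2))) ∨
      RowsOrd G.La F.ix (ci G F) (F2.ix, ci G F2, gm c (gm g' (cg F2)))
        (F1.ix, ci G F1, gm c (gm g (cg F1))) := by
  have := exact_fam hF h1 h2 hc H
  unfold RowsOrd
  rcases this with ⟨m, e, h | h⟩ | (h | h) | ⟨e, h | h⟩ | ⟨e, h | h⟩ | ⟨e, m, h | h⟩ |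
    ⟨e, m, e', h | h⟩
  · exact .inl (.inl ⟨m, e, h⟩)
  · exact .inr (.inl ⟨m, e, h.symm⟩)
  · exact .inl (.inr (.inl h))
  · exact .inr (.inr (.inl h.symm))
  · exact .inl (.inr (.inr (.inl ⟨e, h⟩)))
  · exact .inr (.inr (.inr (.inl ⟨e, h.symm⟩)))
  · exact .inl (.inr (.inr (.inr (.inl ⟨e, h⟩))))
  · exact .inr (.inr (.inr (.inr (.inl ⟨e, h.symm⟩))))
  · exact .inl (.inr (.inr (.inr (.inr (.inl ⟨e, m, h⟩)))))
  · exact .inr (.inr (.inr (.inr (.inr (.inl ⟨e, m, h.symm⟩)))))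
  · exact .inl (.inr (.inr (.inr (.inr (.inr ⟨e, m, e', h⟩)))))
  · exact .inr (.inr (.inr (.inr (.inr (.inr ⟨e, m, e', h.symm⟩)))))

/-- The three ways in which a triad arises. -/
theorem rows_master {F : Fam} (hF : F.ok G) {h : Z3} (hh : h ∈ F.S G) {c : Gp}
    (hc : gm c (cg F) = g1) {C : Z3 → Z3 → Prop} (sy : ∀ p q, C p q → C q p)
    (tl : ∀ p q, p ∈ Tail G (lv F + G.kk - 1) → q ∈ Tail G (lv F + G.kk - 1) → C p q)
    (cr : ∀ (F1 F2 : Fam) (g' : Gp) (a b : Z3), F1.ok G → F2.ok G → a ∈ F1.S G → b ∈ F2.S G →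
      (F1 = F ∨ ∃ j, UP F1 F (.c j) (.y j G.La)) → pt G F2 g' b = h - a →
      C (pt G F1 g1 a) (pt G F2 g' b))
    (ex : ∀ (F1 F2 : Fam) (g g' : Gp) (a b : Z3), F1.ok G → F2.ok G → a ∈ F1.S G → b ∈ F2.S G →
      RowsOrd G.La F.ix (ci G F) (F1.ix, ci G F1, gm c (gm g (cg F1)))
        (F2.ix, ci G F2, gm c (gm g' (cg F2))) → gz g a + gz g' b = h →
      C (pt G F1 g a) (pt G F2 g' b))
    {F1 F2 : Fam} (h1 : F1.ok G) (h2 : F2.ok G) {g g' : Gp} {p q : Z3} (hp : p ∈ Pt G F1 g)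
    (hq : q ∈ Pt G F2 g') (H : p + q = F.ctr G + h) : C p q := by
  obtain ⟨a, ha, rfl⟩ := hp
  obtain ⟨b, hb, rfl⟩ := hq
  have key : ∀ (F1 F2 : Fam) (g g' : Gp) (a b : Z3), F1.ok G → F2.ok G → a ∈ F1.S G →
      b ∈ F2.S G → pt G F1 g a + pt G F2 g' b = F.ctr G + h → gz g (F1.ctr G) = F.ctr G →
      C (pt G F1 g a) (pt G F2 g' b) := fun F1 F2 g g' a b h1 h2 ha hb H e => by
    obtain ⟨rfl, hu⟩ := same_ctr h1 hF (g := g) (g' := g1) (by rw [gz_g1]; exact e)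
    refine cr F1 F2 g' a b h1 h2 ha hb hu ?_
    rw [gz_g1] at e
    rw [pt_g1, e, add_assoc, add_right_inj] at H
    rw [← H]; abel
  rcases tri_cases hF h1 h2 hh ha hb H with e | e | e | e
  · have hs : gz g a + gz g' b = h := by
      rw [rows_pt_eq, rows_pt_eq, ← e, add_add_add_comm, add_right_inj] at H
      exact H
    rcases rows_ord hF h1 h2 hc e with o | o
    · exact ex F1 F2 g g' a b h1 h2 ha hb o hs
    · exact sy _ _ (ex F2 F1 g' g b a h2 h1 hb ha o (by rw [add_comm]; exact hs))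
  · exact key F1 F2 g g' a b h1 h2 ha hb H e
  · exact sy _ _ (key F2 F1 g' g b a h2 h1 hb ha (by rw [add_comm]; exact H) e)
  · obtain ⟨t1, t2⟩ := tail_of_cancel hF h1 h2 hh ha hb H e
    exact tl _ _ (mem_tail h1 (rows_mem_pt g ha) t1) (mem_tail h2 (rows_mem_pt g' hb) t2)

lemma rows_zero {F : Fam} (hF : F.ok G) {J : ℕ} (hJ : F.ix = J) (h : ci G F = 0) : F = .b J := by
  have := La_big G
  cases F with
  | b j => rw [← hJ]; rfl
  | c j => simp only [ci] at h; omega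
  | y j i => simp only [ci] at h; have := hF.1; omega

lemma rows_pos {F : Fam} {J i : ℕ} (hJ : F.ix = J) (h : ci G F = i) (hi : 1 ≤ i) :
    (i = G.La ∧ F = .c J) ∨ F = .y J i := by
  cases F with
  | b j => simp only [ci] at h; omega
  | c j => exact .inl ⟨h.symm, by rw [← hJ]; rfl⟩
  | y j m => right; rw [← hJ, ← h]; rfl

/-- A comb offset is not the sum of a rung offset and an offset of the previous comb. -/
lemma rows_excl {F : Fam} (hF : ∀ j i, F ≠ .y j i) {J i : ℕ} (hs : F.sz G = G.n (J + 1))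
    {h a b : Z3} (hh : h ∈ F.S G) (ha : a ∈ (Fam.y J i).S G) (hb : b ∈ (Fam.b J).S G) {g g' : Gp}
    (H : gz g a + gz g' b = h) : False := by
  obtain ⟨l, hl⟩ := S_ge hF hh
  have h1 := S_y_le ha (l - g.1)
  have h2 := S_le hb (l - g'.1)
  have h3 : |h l| ≤ |a (l - g.1)| + |b (l - g'.1)| := by
    rw [← H, ← rows_abs_gz, ← rows_abs_gz]; exact abs_add_le _ _
  have h4 := n_lt G (Nat.lt_succ_self J)
  have h5 := n_pos G J
  rw [hs] at hl
  simp only [Fam.sz] at h2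
  generalize G.n (J + 1) = N at *
  generalize G.n J = n at *
  omega

lemma rows_sub_le {F F' : Fam} {h a : Z3} (hh : h ∈ F.S G) (ha : a ∈ F'.S G) {J : ℕ}
    (e : F.sz G = G.n J) (e' : F'.sz G = G.n J) (l : Fin 3) : |(h - a) l| ≤ 3 * G.n J := by
  have h1 := S_le hh l
  have h2 := S_le ha l
  have h3 : |(h - a) l| ≤ |h l| + |a l| := abs_sub _ _
  rw [e] at h1
  rw [e'] at h2
  omega

lemma rows_low {F F' F2 : Fam} (h2 : F2.ok G) {h a b : Z3} {g : Gp} (hh : h ∈ F.S G)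
    (ha : a ∈ F'.S G) (hb : b ∈ F2.S G) {J : ℕ} (e : F.sz G = G.n J) (e' : F'.sz G = G.n J)
    (H : pt G F2 g b = h - a) : lv F2 + G.kk ≤ J :=
  low_of_small h2 (rows_mem_pt g hb) fun l => by rw [H]; exact rows_sub_le hh ha e e' l

/-- The triads which feed a tooth of the first comb. -/
theorem rows_b {j : ℕ} {h : Z3} (hh : h ∈ (Fam.b j).S G) {F1 F2 : Fam} (h1 : F1.ok G)
    (h2 : F2.ok G) {g g' : Gp} {p q : Z3} (hp : p ∈ Pt G F1 g) (hq : q ∈ Pt G F2 g')
    (H : p + q = (Fam.b j).ctr G + h) :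
    (∃ i, j = i + 1 ∧ UPair (Pt G (.c i) g1) (Pt G (.b i) (1, -1)) p q) ∨
      UPair (LadS G j) (LadS G j ∪ (Lev G j ∪ Lev G (j + 1))) p q ∨
      UPair (Lev G (j + 1)) (Lev G (j + 1)) p q ∨ UPair (LowS G j) (Lev G j) p q ∨
      UPair (Tail G (j + G.kk - 1)) (Tail G (j + G.kk - 1)) p q := by
  have hL := La_big G
  refine rows_master (F := .b j) trivial hh (c := (1, 1))
    (show gm (1, 1) (2, 1) = g1 by decide)
    (C := fun p q => (∃ i, j = i + 1 ∧ UPair (Pt G (.c i) g1) (Pt G (.b i) (1, -1)) p q) ∨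
      UPair (LadS G j) (LadS G j ∪ (Lev G j ∪ Lev G (j + 1))) p q ∨
      UPair (Lev G (j + 1)) (Lev G (j + 1)) p q ∨ UPair (LowS G j) (Lev G j) p q ∨
      UPair (Tail G (j + G.kk - 1)) (Tail G (j + G.kk - 1)) p q) ?_ ?_ ?_ ?_ h1 h2 hp hq H
  · rintro p q (⟨i, e, h⟩ | h | h | h | h)
    · exact .inl ⟨i, e, rows_upair_symm h⟩
    · exact .inr (.inl (rows_upair_symm h))
    · exact .inr (.inr (.inl (rows_upair_symm h)))
    · exact .inr (.inr (.inr (.inl (rows_upair_symm h))))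
    · exact .inr (.inr (.inr (.inr (rows_upair_symm h))))
  · exact fun p q hp hq => .inr (.inr (.inr (.inr (.inl ⟨hp, hq⟩))))
  · rintro F1 F2 g' a b h1 h2 ha hb (rfl | ⟨j', ⟨-, e⟩ | ⟨-, e⟩⟩) H
    · exact .inr (.inr (.inr (.inl (.inr ⟨mem_lev_b (rows_mem_pt _ ha),
        mem_lowS h2 (rows_mem_pt _ hb) (rows_low h2 hh ha hb rfl rfl H)⟩))))
    · cases e
    · cases e
  · intro F1 F2 g g' a b h1 h2 ha hb o H'
    have c1 := ci_le h1
    simp only [RowsOrd, Prod.mk.injEq, ci, Fam.ix] at o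
    rcases o with ⟨m, e, -⟩ | ⟨⟨x1, x2, -⟩, y1, y2, -⟩ | ⟨-, ⟨x1, x2, -⟩, y1, y2, -⟩ | ⟨e, -⟩ |
      ⟨-, m, ⟨x1, x2, -⟩, y1, y2, -⟩ | ⟨-, J, e, ⟨x1, x2, x3⟩, y1, y2, y3⟩
    · omega
    · obtain rfl := rows_zero h2 y1 y2
      rcases rows_pos x1 x2 (by omega) with ⟨e, -⟩ | rfl
      · omega
      · exact .inr (.inl (.inl ⟨mem_lad h1 (rows_mem_pt _ ha),
          .inr (.inl (mem_lev_b (rows_mem_pt _ hb)))⟩))
    · obtain rfl := rows_zero h2 y1 y2
      rcases rows_pos x1 x2 (by omega) with ⟨-, rfl⟩ | rfl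
      · exact .inr (.inr (.inl (.inl ⟨mem_lev_c (rows_mem_pt _ ha),
          mem_lev_b (rows_mem_pt _ hb)⟩)))
      · exact .inr (.inl (.inl ⟨mem_lad h1 (rows_mem_pt _ ha),
          .inr (.inr (mem_lev_b (rows_mem_pt _ hb)))⟩))
    · omega
    · rcases rows_pos x1 x2 (by omega) with ⟨e, rfl⟩ | rfl
      · rcases rows_pos y1 y2 (by omega) with ⟨e', -⟩ | rfl
        · omega
        · exact .inr (.inl (.inr ⟨.inr (.inr (mem_lev_c (rows_mem_pt _ ha))),
            mem_lad h2 (rows_mem_pt _ hb)⟩))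
      · refine .inr (.inl (.inl ⟨mem_lad h1 (rows_mem_pt _ ha), ?_⟩))
        rcases Nat.eq_zero_or_pos m with rfl | hm
        · obtain rfl := rows_zero h2 y1 y2
          exact .inr (.inl (mem_lev_b (rows_mem_pt _ hb)))
        · rcases rows_pos y1 y2 hm with ⟨-, rfl⟩ | rfl
          · exact .inr (.inr (mem_lev_c (rows_mem_pt _ hb)))
          · exact .inl (mem_lad h2 (rows_mem_pt _ hb))
    · obtain rfl := rows_zero h2 y1 y2
      subst e
      rcases rows_pos x1 x2 (by omega) with ⟨-, rfl⟩ | rfl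
      · have e1 : g = g1 := by
          have : ∀ g : Gp, gm (1, 1) (gm g g1) = (1, 1) → g = g1 := by decide
          exact this g x3
        have e2 : g' = (1, -1) := by
          have : ∀ g : Gp, gm (1, 1) (gm g (2, 1)) = (1, -1) → g = (1, -1) := by decide
          exact this g' y3
        subst e1 e2
        exact .inl ⟨J, rfl, .inl ⟨rows_mem_pt _ ha, rows_mem_pt _ hb⟩⟩
      · exact (rows_excl (F := .b (J + 1)) (fun _ _ e => by cases e) rfl hh ha hb H').elim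

lemma rows_dir {g g' : Gp} {n : ℤ}
    (H : ∀ l, |gz g ![n, 0, 0] l - gz g' ![n, 0, 0] l| < n) : g = g' := by
  obtain ⟨s, u⟩ := g
  obtain ⟨s', u'⟩ := g'
  have h0 := abs_lt.mp (H 0)
  have h1 := abs_lt.mp (H 1)
  have h2 := abs_lt.mp (H 2)
  rcases Int.units_eq_one_or u with rfl | rfl <;> rcases Int.units_eq_one_or u' with rfl | rfl <;>
    fin_cases s <;> fin_cases s' <;> first | rfl | (exfalso; simp [gz] at h0 h1 h2 <;> omega)

/-- A low comb mode close to the centre of a tooth. -/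
lemma rows_seed {m J : ℕ} (hm : m + G.kk ≤ J) {g : Gp} {o : Fin 4} {r s : Z3}
    (hr : ∀ l, 100 * |r l| ≤ G.P m) (hs : ∀ l, 100 * |s l| ≤ 26 * G.n J)
    (H : gz g (![(G.P m : ℤ), 0, 0] + r) = G.off J o + s) : m + G.kk = J ∧ g = go o := by
  have h0 := n_pos G J
  have key : ∀ l, 100 * |gz g ![(G.P m : ℤ), 0, 0] l - gz (go o) ![(G.n J : ℤ), 0, 0] l| ≤
      26 * G.n J + G.P m := fun l => by
    have e : gz g ![(G.P m : ℤ), 0, 0] l - gz (go o) ![(G.n J : ℤ), 0, 0] l = s l - gz g r l := by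
      have := congrFun H l
      rw [gz_add, ← gz_go] at this
      simp only [Pi.add_apply] at this
      linarith
    have h1 : |s l - gz g r l| ≤ |s l| + |gz g r l| := abs_sub _ _
    rw [rows_abs_gz] at h1
    have h2 := hr (l - g.1)
    have h3 := hs l
    rw [e]; linarith
  have e : m + G.kk = J := by
    by_contra hne
    have h1 := n_lt G (lt_of_le_of_ne hm hne)
    rw [← P_eq] at h1
    have h2 := key (go o).1
    have h3 : |gz (go o) ![(G.n J : ℤ), 0, 0] (go o).1| = G.n J := by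
      rw [rows_abs_gz, sub_self]; simp
    have h4 : |gz g ![(G.P m : ℤ), 0, 0] (go o).1| ≤ G.P m := by
      rw [rows_abs_gz]
      generalize (go o).1 - g.1 = l
      fin_cases l <;> simp
    have h5 := abs_sub_abs_le_abs_sub (gz (go o) ![(G.n J : ℤ), 0, 0] (go o).1)
      (gz g ![(G.P m : ℤ), 0, 0] (go o).1)
    rw [abs_sub_comm] at h5
    omega
  refine ⟨e, rows_dir (n := G.n J) fun l => ?_⟩
  have h2 := key l
  rw [P_eq, e] at h2
  omega

lemma rows_n_le_P (m : ℕ) : 10 ^ 100 * G.n m ≤ G.P m := by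
  rw [P_eq]; exact n_lt G (by have := kk_big G; omega)

/-- The triads which feed the tooth `o` of the second comb. -/
theorem rows_c {j : ℕ} {o : Fin 4} {h : Z3} (hh : h ∈ bx (G.rc (j + 1))) {F1 F2 : Fam}
    (h1 : F1.ok G) (h2 : F2.ok G) {g g' : Gp} {p q : Z3} (hp : p ∈ Pt G F1 g)
    (hq : q ∈ Pt G F2 g') (H : p + q = (Fam.c j).ctr G + (G.off (j + 1) o + h)) :
    UPair (Pt G (.b (j + 1)) g1) (Pt G (.b j) (1, 1)) p q ∨
      (∃ i, i + G.kk = j + 1 ∧ UPair (Pt G (.y j G.La) g1) (Pt G (.b i) (go o)) p q) ∨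
      (∃ i, i + 1 + G.kk = j + 1 ∧ UPair (Pt G (.y j G.La) g1) (Pt G (.c i) (go o)) p q) ∨
      UPair (LowS G (j + 1)) (Lev G (j + 1)) p q ∨
      UPair (LowYS G (j + 1)) (Pt G (.y j G.La) g1) p q ∨
      UPair (Tail G (j + G.kk)) (Tail G (j + G.kk)) p q := by
  have hL := La_big G
  have hS : G.off (j + 1) o + h ∈ (Fam.c j).S G :=
    mem_S.mpr ⟨_, mem_cens_c.mpr ⟨o, rfl⟩, by rw [add_sub_cancel_left]; exact hh⟩
  refine rows_master (F := .c j) trivial hS (c := g1) (show gm g1 g1 = g1 by decide)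
    (C := fun p q => UPair (Pt G (.b (j + 1)) g1) (Pt G (.b j) (1, 1)) p q ∨
      (∃ i, i + G.kk = j + 1 ∧ UPair (Pt G (.y j G.La) g1) (Pt G (.b i) (go o)) p q) ∨
      (∃ i, i + 1 + G.kk = j + 1 ∧ UPair (Pt G (.y j G.La) g1) (Pt G (.c i) (go o)) p q) ∨
      UPair (LowS G (j + 1)) (Lev G (j + 1)) p q ∨
      UPair (LowYS G (j + 1)) (Pt G (.y j G.La) g1) p q ∨
      UPair (Tail G (j + G.kk)) (Tail G (j + G.kk)) p q) ?_ ?_ ?_ ?_ h1 h2 hp hq H
  · rintro p q (h | ⟨i, e, h⟩ | ⟨i, e, h⟩ | h | h | h)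
    · exact .inl (rows_upair_symm h)
    · exact .inr (.inl ⟨i, e, rows_upair_symm h⟩)
    · exact .inr (.inr (.inl ⟨i, e, rows_upair_symm h⟩))
    · exact .inr (.inr (.inr (.inl (rows_upair_symm h))))
    · exact .inr (.inr (.inr (.inr (.inl (rows_upair_symm h)))))
    · exact .inr (.inr (.inr (.inr (.inr (rows_upair_symm h)))))
  · intro p q hp hq
    rw [show lv (.c j) + G.kk - 1 = j + G.kk by simp only [lv]; omega] at hp hq
    exact .inr (.inr (.inr (.inr (.inr (.inl ⟨hp, hq⟩)))))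
  · rintro F1 F2 g' a b h1 h2 ha hb (rfl | ⟨j', ⟨-, e⟩ | ⟨rfl, e⟩⟩) H
    · exact .inr (.inr (.inr (.inl (.inr ⟨mem_lev_c (rows_mem_pt _ ha),
        mem_lowS h2 (rows_mem_pt _ hb) (rows_low h2 hS ha hb rfl rfl H)⟩))))
    · cases e
    · obtain rfl : j = j' := by cases e; rfl
      have lo := rows_low h2 hS ha hb rfl rfl H
      have hs : ∀ l, 100 * |(h - a) l| ≤ 26 * G.n (j + 1) := fun l => by
        have a1 := mem_bx.mp hh l
        have a2 := S_y_le ha l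
        have a3 := rc_small G (j + 1) l
        have a4 : |(h - a) l| ≤ |h l| + |a l| := abs_sub _ _
        omega
      rw [add_sub_assoc] at H
      cases F2 with
      | b i =>
        obtain ⟨e1, rfl⟩ := rows_seed (m := i) (r := b) lo (fun l => by
          have a1 := S_le hb l
          have a2 := rows_n_le_P (G := G) i
          simp only [Fam.sz] at a1
          omega) hs H
        exact .inr (.inl ⟨i, e1, .inl ⟨rows_mem_pt _ ha, rows_mem_pt _ hb⟩⟩)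
      | c i =>
        obtain ⟨e1, rfl⟩ := rows_seed (g := g') (o := o) (m := i + 1)
          (r := ![0, (G.P i : ℤ), 0] + b) lo (fun l => by
          have a1 := S_le hb l
          have a2 := rows_n_le_P (G := G) (i + 1)
          have a3 : 10 ^ 100 * G.P i ≤ G.P (i + 1) := by
            rw [P_eq, P_eq]; exact n_lt G (by omega)
          have a4 : |(![0, (G.P i : ℤ), 0] + b) l| ≤ |![0, (G.P i : ℤ), 0] l| + |b l| :=
            abs_add_le _ _
          have a5 : |![0, (G.P i : ℤ), 0] l| ≤ G.P i := by fin_cases l <;> simp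
          simp only [Fam.sz] at a1
          omega) hs (by
          rw [← H, pt, ← add_assoc]
          congr 2
          ext l; fin_cases l <;> simp [Fam.ctr])
        exact .inr (.inr (.inl ⟨i, e1, .inl ⟨rows_mem_pt _ ha, rows_mem_pt _ hb⟩⟩))
      | y i m =>
        refine .inr (.inr (.inr (.inr (.inl (.inr ⟨rows_mem_pt _ ha, i, ?_,
          mem_lad h2 (rows_mem_pt _ hb)⟩)))))
        simp only [lv] at lo
        omega
  · intro F1 F2 g g' a b h1 h2 ha hb o H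
    have c1 := ci_le h1
    simp only [RowsOrd, Prod.mk.injEq, Fam.ix] at o
    rcases o with ⟨m, e, ⟨x1, x2, -⟩, y1, y2, -⟩ | ⟨⟨-, x2, -⟩, -⟩ | ⟨e, -⟩ |
      ⟨-, ⟨x1, x2, x3⟩, y1, y2, y3⟩ | ⟨e, -⟩ | ⟨e, -⟩
    · change G.La = m + 1 at e
      obtain rfl := rows_zero h2 y1 y2
      rcases rows_pos x1 x2 (by omega) with ⟨e', -⟩ | rfl
      · omega
      · exact (rows_excl (F := .c j) (fun _ _ e => by cases e) rfl hS ha hb H).elim
    · change _ = G.La + 1 at x2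
      omega
    · change G.La = 0 at e
      omega
    · obtain rfl := rows_zero h1 x1 x2
      obtain rfl := rows_zero h2 y1 y2
      have e1 : g = (1, 1) := by
        have : ∀ g : Gp, gm g1 (gm g (2, 1)) = g1 → g = (1, 1) := by decide
        exact this g x3
      have e2 : g' = g1 := by
        have : ∀ g : Gp, gm g1 (gm g (2, 1)) = (2, 1) → g = g1 := by decide
        exact this g' y3
      subst e1 e2
      exact .inl (.inr ⟨rows_mem_pt _ ha, rows_mem_pt _ hb⟩)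
    · change G.La = 0 at e
      omega
    · change G.La = 0 at e
      omega

/-- The triads which feed a rung. -/
theorem rows_y {j i : ℕ} (hi : i < G.La) {h : Z3} (hh : h ∈ bx (G.ry j)) {F1 F2 : Fam}
    (h1 : F1.ok G) (h2 : F2.ok G) {g g' : Gp} {p q : Z3} (hp : p ∈ Pt G F1 g)
    (hq : q ∈ Pt G F2 g') (H : p + q = (Fam.y j (i + 1)).ctr G + h) :
    (i = 0 ∧ UPair (Pt G (.b j) g1) (Pt G (.b j) (1, 1)) p q) ∨
      (1 ≤ i ∧ UPair (Pt G (.b j) g1) (Pt G (.y j i) g1) p q) ∨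
      (i + 2 ≤ G.La ∧ UPair (Lev G j) (Pt G (.y j (i + 2)) g1) p q) ∨
      UPair (Lev G j ∪ LowS G (j + 1)) (Lev G (j + 1)) p q ∨
      UPair (LowS G j) (Pt G (.y j (i + 1)) g1) p q ∨
      UPair (Tail G (j + G.kk - 1)) (Tail G (j + G.kk - 1)) p q := by
  have hS : h ∈ (Fam.y j (i + 1)).S G := by rw [S_y]; exact hh
  have gg : ∀ g : Gp, gm g1 (gm g g1) = g1 → g = g1 := by decide
  refine rows_master (F := .y j (i + 1)) ⟨by omega, hi⟩ hS (c := g1)
    (show gm g1 g1 = g1 by decide)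
    (C := fun p q => (i = 0 ∧ UPair (Pt G (.b j) g1) (Pt G (.b j) (1, 1)) p q) ∨
      (1 ≤ i ∧ UPair (Pt G (.b j) g1) (Pt G (.y j i) g1) p q) ∨
      (i + 2 ≤ G.La ∧ UPair (Lev G j) (Pt G (.y j (i + 2)) g1) p q) ∨
      UPair (Lev G j ∪ LowS G (j + 1)) (Lev G (j + 1)) p q ∨
      UPair (LowS G j) (Pt G (.y j (i + 1)) g1) p q ∨
      UPair (Tail G (j + G.kk - 1)) (Tail G (j + G.kk - 1)) p q) ?_ ?_ ?_ ?_ h1 h2 hp hq H
  · rintro p q (⟨e, h⟩ | ⟨e, h⟩ | ⟨e, h⟩ | h | h | h)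
    · exact .inl ⟨e, rows_upair_symm h⟩
    · exact .inr (.inl ⟨e, rows_upair_symm h⟩)
    · exact .inr (.inr (.inl ⟨e, rows_upair_symm h⟩))
    · exact .inr (.inr (.inr (.inl (rows_upair_symm h))))
    · exact .inr (.inr (.inr (.inr (.inl (rows_upair_symm h)))))
    · exact .inr (.inr (.inr (.inr (.inr (rows_upair_symm h)))))
  · exact fun p q hp hq => .inr (.inr (.inr (.inr (.inr (.inl ⟨hp, hq⟩)))))
  · rintro F1 F2 g' a b h1 h2 ha hb (rfl | ⟨j', ⟨rfl, e⟩ | ⟨-, e⟩⟩) H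
    · refine .inr (.inr (.inr (.inr (.inl (.inr ⟨rows_mem_pt _ ha,
        mem_lowS h2 (rows_mem_pt _ hb) (low_of_small' h2 (rows_mem_pt g' hb) fun l => ?_)⟩)))))
      have a1 := S_y_le hS l
      have a2 := S_y_le ha l
      have a4 : |(h - a) l| ≤ |h l| + |a l| := abs_sub _ _
      rw [H]; omega
    · obtain rfl : j = j' := (Fam.y.inj e).1
      exact .inr (.inr (.inr (.inl (.inr ⟨mem_lev_c (rows_mem_pt _ ha),
        .inr (mem_lowS h2 (rows_mem_pt _ hb) (rows_low h2 hS ha hb rfl rfl H))⟩))))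
    · cases e
  · intro F1 F2 g g' a b h1 h2 ha hb o H
    have c1 := ci_le h1
    simp only [RowsOrd, Prod.mk.injEq, Fam.ix] at o
    rcases o with ⟨m, e, ⟨x1, x2, x3⟩, y1, y2, y3⟩ | ⟨⟨x1, x2, x3⟩, y1, y2, -⟩ | ⟨e, -⟩ |
      ⟨-, ⟨x1, x2, -⟩, y1, y2, -⟩ | ⟨e, -⟩ | ⟨e, -⟩
    · obtain rfl : i = m := Nat.succ_injective e
      obtain rfl := rows_zero h2 y1 y2
      have e2 : g' = g1 := by
        have : ∀ g : Gp, gm g1 (gm g (2, 1)) = (2, 1) → g = g1 := by decide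
        exact this g' y3
      subst e2
      rcases Nat.eq_zero_or_pos i with rfl | hm
      · obtain rfl := rows_zero h1 x1 x2
        have e1 : g = (1, 1) := by
          have : ∀ g : Gp, gm g1 (gm g (2, 1)) = g1 → g = (1, 1) := by decide
          exact this g x3
        subst e1
        exact .inl ⟨rfl, .inr ⟨rows_mem_pt _ ha, rows_mem_pt _ hb⟩⟩
      · rcases rows_pos x1 x2 hm with ⟨e', -⟩ | rfl
        · omega
        · obtain rfl := gg g x3
          exact .inr (.inl ⟨hm, .inr ⟨rows_mem_pt _ ha, rows_mem_pt _ hb⟩⟩)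
    · change _ = i + 2 at x2
      obtain rfl := rows_zero h2 y1 y2
      rcases rows_pos x1 x2 (by omega) with ⟨-, rfl⟩ | rfl
      · exact .inr (.inr (.inr (.inl (.inr ⟨mem_lev_c (rows_mem_pt _ ha),
          .inl (mem_lev_b (rows_mem_pt _ hb))⟩))))
      · obtain rfl := gg g x3
        exact .inr (.inr (.inl ⟨c1, .inr ⟨rows_mem_pt _ ha, mem_lev_b (rows_mem_pt _ hb)⟩⟩))
    · cases e
    · obtain rfl := rows_zero h1 x1 x2
      obtain rfl := rows_zero h2 y1 y2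
      exact .inr (.inr (.inr (.inl (.inl ⟨.inl (mem_lev_b (rows_mem_pt _ ha)),
        mem_lev_b (rows_mem_pt _ hb)⟩))))
    · cases e
    · cases e

end

end Pool.Agent.Work.MP_6bf1e5_an.Ell.Pd
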