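import Pool.Agent.Work.MP_6bf1e5_an.Ell.SepB

/-!
The active part of a symmetric state.
-/

open Set Complex
open scoped InnerProductSpace ComplexConjugate Classical
open Pool.Agent.Work.MP_6bf1e5_an.B
open Pool.Agent.Work.MP_6bf1e5_an.Dec

namespace Pool.Agent.Work.MP_6bf1e5_an.Ell.Pd

noncomputable section

variable {G : Geo}

lemma Sep_act_pt {F : Fam} (hF : F.ok G) (g : Gp) {h : Z3} (hh : h ∈ F.S G) :
    Act G (pt G F g h) := ⟨(F, g, h), hF, hh, rfl⟩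

lemma Sep_choose {F : Fam} (hF : F.ok G) {g : Gp} {h : Z3} (hh : h ∈ F.S G)
    (H : Act G (pt G F g h)) : H.choose = (F, g, h) := by
  obtain ⟨h1, h2, h3⟩ := H.choose_spec
  obtain ⟨e1, e2, e3⟩ := pt_unique hF h1 hh h2 h3
  exact Prod.ext e1.symm (Prod.ext e2.symm e3.symm)

lemma Sep_gz_pt (g g' : Gp) (F : Fam) (h : Z3) : gz g (pt G F g' h) = pt G F (gm g g') h :=
  gz_gz _ _ _

lemma Sep_rapid_of_le {a b : Z3 → E3} (ha : Rapid a) (h : ∀ k, ‖b k‖ ≤ ‖a k‖) : Rapid b := by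
  intro s
  obtain ⟨M, hM⟩ := ha s
  refine ⟨M, fun F => le_trans (Finset.sum_le_sum fun k _ => ?_) (hM F)⟩
  exact mul_le_mul_of_nonneg_left (h k) (pow_nonneg (w_pos k).le s)

lemma vec_pt {F : Fam} (hF : F.ok G) (g : Gp) {h : Z3} (hh : h ∈ F.S G) :
    vec G (pt G F g h) = ge g (F.e G) := by
  have H := Sep_act_pt hF g hh
  rw [vec, dif_pos H, Sep_choose hF hh H]

lemma dm_pt {F : Fam} (hF : F.ok G) (g : Gp) {h : Z3} (hh : h ∈ F.S G) :
    dm G (pt G F g h) = chi G F (fun i => h i) * (G.Gc F.ix - F.dd G) := by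
  have H := Sep_act_pt hF g hh
  rw [dm, dif_pos H, Sep_choose hF hh H]

lemma Act_gz (g : Gp) (k : Z3) : Act G (gz g k) ↔ Act G k := by
  have key : ∀ (g : Gp) (k : Z3), Act G k → Act G (gz g k) := by
    rintro g k ⟨⟨F, g', h⟩, h1, h2, rfl⟩
    exact ⟨(F, gm g g', h), h1, h2, Sep_gz_pt _ _ _ _⟩
  refine ⟨fun H => ?_, key g k⟩
  obtain ⟨g', -, hg⟩ := exists_inv g
  have := key g' _ H
  rwa [gz_gz, hg, gz_g1] at this

lemma vec_gz (g : Gp) (k : Z3) : vec G (gz g k) = ge g (vec G k) := by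
  by_cases H : Act G k
  · obtain ⟨⟨F, g', h⟩, h1, h2, rfl⟩ := H
    simp only at h1 h2 ⊢
    rw [Sep_gz_pt, vec_pt h1 _ h2, vec_pt h1 _ h2, ge_ge]
  · have H' : ¬Act G (gz g k) := fun h => H ((Act_gz g k).mp h)
    rw [vec, vec, dif_neg H, dif_neg H', ge_zero]

lemma dm_gz (g : Gp) (k : Z3) : dm G (gz g k) = dm G k := by
  by_cases H : Act G k
  · obtain ⟨⟨F, g', h⟩, h1, h2, rfl⟩ := H
    simp only at h1 h2 ⊢
    rw [Sep_gz_pt, dm_pt h1 _ h2, dm_pt h1 _ h2]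
  · have H' : ¬Act G (gz g k) := fun h => H ((Act_gz g k).mp h)
    rw [dm, dm, dif_neg H, dif_neg H']

lemma Pj_gz (g : Gp) (k : Z3) (x : E3) : Pj G (gz g k) (ge g x) = ge g (Pj G k x) := by
  rw [Pj, Pj, xi_gz, vec_gz, lp_ge, ur_ge, inner_ge, ge_smul]

lemma AR_gz (g : Gp) (k : Z3) (x : E3) : AR G (gz g k) (ge g x) = ge g (AR G k x) := by
  rw [AR, AR, sc_gz, dm_gz, Pj_gz, ge_sub, ge_smul, ge_smul]

/-- The active part of an admissible state is admissible. -/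
lemma adm_act {β : Z3 → E3} (H : Adm β) : Adm (act G β) := by
  refine ⟨Sep_rapid_of_le H.rapid fun k => norm_Pj_le G k _, fun g k => ?_,
    fun k => inner_xi_Pj G k _⟩
  rw [act, act, H.sym, Pj_gz]

lemma adm_jnk {β : Z3 → E3} (H : Adm β) : Adm (jnk G β) := by
  refine ⟨Sep_rapid_of_le H.rapid fun k => norm_sub_Pj_le G k _, fun g k => ?_, fun k => ?_⟩
  · rw [jnk, jnk, (adm_act H).sym, H.sym, ge_sub]
  · rw [jnk, inner_sub_right, H.div, (adm_act H).div, sub_zero]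

lemma exists_pt {β : Z3 → E3} {k : Z3} (h : act G β k ≠ 0) :
    ∃ F g, F.ok G ∧ k ∈ Pt G F g := by
  by_cases H : Act G k
  · obtain ⟨⟨F, g, x⟩, h1, h2, rfl⟩ := H
    exact ⟨F, g, h1, x, h2, rfl⟩
  · exact absurd (Pj_not G H _) h

lemma coeff_env {F : Fam} (β : Z3 → E3) {h : Z3} (hh : h ∈ F.S G) :
    (env G F β).coeff h = ((⟪F.e G, β (F.ctr G + h)⟫_ℝ : ℝ) : ℂ) := by
  rw [env, coeff_mk, if_pos hh]

lemma rl_env (F : Fam) (β : Z3 → E3) : Rl (env G F β) := by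
  intro h
  rw [env, coeff_mk]
  split_ifs
  · exact Complex.ofReal_im _
  · rfl

/-- The active part on the modes of a family. -/
lemma act_pt {β : Z3 → E3} (H : Adm β) {F : Fam} (hF : F.ok G) (g : Gp) {h : Z3}
    (hh : h ∈ F.S G) :
    act G β (pt G F g h) = ⟪F.e G, β (F.ctr G + h)⟫_ℝ • uv G F g h := by
  have e1 : vec G (F.ctr G + h) = F.e G := by
    rw [← pt_g1, vec_pt hF g1 hh, ge_g1]
  rw [act, pt, H.sym, Pj_gz, Pj, e1, inner_lp_left (H.div _), ge_smul, uv]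

end

end Pool.Agent.Work.MP_6bf1e5_an.Ell.Pd
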