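import Pool.Agent.Work.MP_6bf1e5_an.Ell.YoungA
import Pool.Agent.Work.MP_6bf1e5_an.Ell.Sep

/-!
The main interactions.
-/

open Set Complex
open scoped InnerProductSpace ComplexConjugate Classical
open Pool.Agent.Work.MP_6bf1e5_an.B
open Pool.Agent.Work.MP_6bf1e5_an.Dec

namespace Pool.Agent.Work.MP_6bf1e5_an.Ell.Pd

noncomputable section

variable {G : Geo} {β : Z3 → E3}

lemma YoungM_coeff_not {F : Fam} {h : Z3} (hh : h ∉ F.S G) : (env G F β).coeff h = 0 := by
  rw [env, coeff_mk, if_neg hh]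

lemma YoungM_gz_gzE (g : Gp) (q : Z3) : gz g (gzE g q) = q := (gzE g).left_inv q

lemma YoungM_supp (g : Gp) (F : Fam) :
    (tr g (env G F β)).coeff.support ⊆ (F.S G).image (gz g) := by
  intro q hq
  rw [Finsupp.mem_support_iff, ← YoungM_gz_gzE g q, coeff_tr] at hq
  refine Finset.mem_image.2 ⟨gzE g q, ?_, YoungM_gz_gzE g q⟩
  by_contra hn
  exact hq (YoungM_coeff_not hn)

lemma YoungM_conv (g : Gp) (F : Fam) (A B : V) (hA : A.coeff.support ⊆ (F.S G).image (gz g))
    (s h : Z3) : (sh s * (A * B)).coeff h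
      = ∑ a ∈ F.S G, A.coeff (gz g a) * B.coeff (h - s - gz g a) := by
  rw [coeff_sh_mul, coeff_mul_eq B hA, Finset.sum_image fun _ _ _ _ e => gz_injective g e]

lemma YoungM_SB (γ : Z3 → E3) (g : Gp) (F : Fam) (W : Set Z3) (r : Z3) :
    SB γ (Pt G F g) W r = ∑ a ∈ F.S G, if r - pt G F g a ∈ W then
      tm γ γ (pt G F g a) (r - pt G F g a) + tm γ γ (r - pt G F g a) (pt G F g a) else 0 := by
  rw [SB, tsum_eq_sum (s := (F.S G).image (pt G F g)), Finset.sum_image]
  · refine Finset.sum_congr rfl fun a ha => ?_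
    have : pt G F g a ∈ Pt G F g := ⟨a, ha, rfl⟩
    simp only [this, true_and]
  · intro a _ b _ e
    exact add_left_cancel (gz_injective g e)
  · intro p hp
    rw [if_neg]
    rintro ⟨⟨a, ha, rfl⟩, _⟩
    exact hp (Finset.mem_image_of_mem _ ha)

/-- The interaction of two families is almost a convolution of their envelopes. -/
theorem main_approx (H : Adm β) {F1 F2 : Fam} (h1 : F1.ok G) (h2 : F2.ok G) (g g' : Gp)
    (F : Fam) (x : Z3) {n : N3} {c0 η : ℝ} (η0 : 0 ≤ η)
    (hc : ∀ h ∈ bx n, ∀ a ∈ F1.S G, ∀ b ∈ F2.S G, |CF G F (x + h) F1 g a F2 g' b - c0| ≤ η) :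
    let E := Tst (F.e G) (F.ctr G + x) n (SB (act G β) (Pt G F1 g) (Pt G F2 g')) -
      (c0 : ℂ) • pj n (sh (gz g (F1.ctr G) + gz g' (F2.ctr G) - (F.ctr G + x)) *
        (tr g (env G F1 β) * tr g' (env G F2 β)))
    ‖E‖ ≤ η * (l1 (env G F1 β) * ‖env G F2 β‖) ∧ ‖E‖ ≤ η * (‖env G F1 β‖ * l1 (env G F2 β)) := by
  intro E
  set A := tr g (env G F1 β) with hA
  set B := tr g' (env G F2 β) with hB
  set s := gz g (F1.ctr G) + gz g' (F2.ctr G) - (F.ctr G + x) with hs
  have sA : A.coeff.support ⊆ (F1.S G).image (gz g) := YoungM_supp g F1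
  have sA' : (av A).coeff.support ⊆ (F1.S G).image (gz g) := fun q hq => sA (by
    rw [Finsupp.mem_support_iff] at hq ⊢
    intro e
    exact hq (by rw [coeff_av, e]; simp))
  have key : ∀ h, ‖E.coeff h‖ ≤ η * ‖(sh s * (av A * av B)).coeff h‖ := by
    intro h
    have hE : E.coeff h = (Tst (F.e G) (F.ctr G + x) n
        (SB (act G β) (Pt G F1 g) (Pt G F2 g'))).coeff h
        - c0 * (pj n (sh s * (A * B))).coeff h := by
      simp [E, hA, hB, hs]
    rw [hE, Tst, coeff_mk, coeff_pj]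
    split_ifs with hh
    swap
    · simp only [mul_zero, sub_zero, norm_zero]; positivity
    have e2 : ‖(sh s * (av A * av B)).coeff h‖
        = ∑ a ∈ F1.S G, ‖A.coeff (gz g a)‖ * ‖B.coeff (h - s - gz g a)‖ := by
      rw [YoungM_conv g F1 _ _ sA']
      simp only [coeff_av]
      norm_cast
      exact abs_of_nonneg (Finset.sum_nonneg fun _ _ => by positivity)
    rw [e2, YoungM_conv g F1 _ _ sA, YoungM_SB, inner_sum, Complex.ofReal_sum, Finset.mul_sum,
      ← Finset.sum_sub_distrib, Finset.mul_sum]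
    refine (norm_sum_le _ _).trans (Finset.sum_le_sum fun a ha => ?_)
    have e3 : F.ctr G + x + h - pt G F1 g a = gz g' (F2.ctr G) + (h - s - gz g a) := by
      rw [hs, pt, gz_add]; abel
    split_ifs with hm
    · obtain ⟨b, hb, e4⟩ := hm
      have e5 : h - s - gz g a = gz g' b := by
        rw [e3, pt, gz_add] at e4
        exact add_left_cancel e4
      rw [e4, e5, hA, hB, coeff_tr, coeff_tr, coeff_env β ha, coeff_env β hb]
      have e6 : ⟪lp (xi (F.ctr G + x + h)) (F.e G),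
          tm (act G β) (act G β) (pt G F1 g a) (pt G F2 g' b)
            + tm (act G β) (act G β) (pt G F2 g' b) (pt G F1 g a)⟫_ℝ
          = ⟪F1.e G, β (F1.ctr G + a)⟫_ℝ * ⟪F2.e G, β (F2.ctr G + b)⟫_ℝ *
            CF G F (x + h) F1 g a F2 g' b := by
        simp only [tm, act_pt H h1 g ha, act_pt H h2 g' hb, CF, cfR, inner_add_right,
          real_inner_smul_left, real_inner_smul_right, add_assoc]
        ring
      rw [e6]
      norm_cast
      rw [Real.norm_eq_abs, Real.norm_eq_abs, Real.norm_eq_abs, ← abs_mul, mul_comm c0, ← mul_sub,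
        abs_mul, mul_comm η]
      exact mul_le_mul_of_nonneg_left (hc h hh a ha b hb) (abs_nonneg _)
    · have : B.coeff (h - s - gz g a) = 0 := by
        rw [← YoungM_gz_gzE g' (h - s - gz g a), hB, coeff_tr]
        refine YoungM_coeff_not fun hb => hm ⟨_, hb, ?_⟩
        rw [e3, pt, gz_add, YoungM_gz_gzE]
      simp [this]
  have k2 := norm_le_of_coeff η0 key
  rw [norm_sh_mul] at k2
  refine ⟨k2.trans (mul_le_mul_of_nonneg_left ?_ η0), k2.trans (mul_le_mul_of_nonneg_left ?_ η0)⟩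
  · refine (norm_mul_le_l1 _ _).trans (le_of_eq ?_)
    rw [l1_av, norm_av, hA, hB, l1_tr, norm_tr]
  · refine (norm_mul_le_l1' _ _).trans (le_of_eq ?_)
    rw [l1_av, norm_av, hA, hB, l1_tr, norm_tr]

end

end Pool.Agent.Work.MP_6bf1e5_an.Ell.Pd
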