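import Pool.Agent.Work.MP_6bf1e5_an.Ell.Norms
import Pool.Agent.Work.MP_6bf1e5_an.Ell.Rows
import Pool.Agent.Work.MP_6bf1e5_an.Ell.YoungM
import Pool.Agent.Work.MP_6bf1e5_an.Ell.EqA
import Pool.Agent.Work.MP_6bf1e5_an.Ell.Layer
import Pool.Agent.Work.MP_6bf1e5_an.Ell.CoefB

/-!
The equation of a tooth with one main interaction.
-/

open Set Complex
open scoped InnerProductSpace ComplexConjugate Classical
open Pool.Agent.Work.MP_6bf1e5_an.B
open Pool.Agent.Work.MP_6bf1e5_an.Dec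

namespace Pool.Agent.Work.MP_6bf1e5_an.Ell.Pd

noncomputable section

variable {G : Geo} {α : ℝ → Z3 → E3}

theorem eqb_main (H : RSol G α) {F : Fam} (hF : F.ok G) {x : Z3} (hx : x ∈ F.cens G) {ω : ℝ}
    (hω : 1 ≤ ω) {t : ℝ} (ht : 0 ≤ t) {W1 W2 : Set Z3} (hd : ∀ k ∈ W1, k ∉ W2) {M : V}
    {e1 e2 : ℝ}
    (h1 : ‖Tst (F.e G) (F.ctr G + x) (F.rad G) (SB (act G (α t)) W1 W2) - (ω : ℂ) • M‖ ≤ e1)
    (h2 : ‖Tst (F.e G) (F.ctr G + x) (F.rad G)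
      (RP (act G (α t)) fun p q => True ∧ ¬UPair W1 W2 p q)‖ ≤ e2) :
    ∃ r, ‖r‖ ≤ e1 + e2 + ‖F.e G‖ * (rawOf G α).Jk t ∧ HD (fun t => tooth G F x ω (α t))
      (M - (F.dd G : ℂ) • tooth G F x ω (α t) - mulr (lay G F) (tooth G F x ω (α t)) + r) t := by
  have ha := H.adm t ht
  have h3 := junk_Jk (G := G) ha (F.e G) (F.ctr G + x) (F.rad G)
  have h4 := Tst_split (adm_act (G := G) ha).rapid (F.e G) (F.ctr G + x) (F.rad G)
    (P := fun _ _ => True) hd fun _ _ _ => trivial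
  rw [← BR_eq_RP] at h4
  have ω0 : 0 < ω := by linarith
  refine ⟨((ω⁻¹ : ℝ) : ℂ) • Tst (F.e G) (F.ctr G + x) (F.rad G) (BR (α t) (α t)) - M, ?_, ?_⟩
  · have e : ((ω⁻¹ : ℝ) : ℂ) • Tst (F.e G) (F.ctr G + x) (F.rad G) (BR (α t) (α t)) - M =
        ((ω⁻¹ : ℝ) : ℂ) • ((Tst (F.e G) (F.ctr G + x) (F.rad G) (SB (act G (α t)) W1 W2) -
          (ω : ℂ) • M) + Tst (F.e G) (F.ctr G + x) (F.rad G)
            (RP (act G (α t)) fun p q => True ∧ ¬UPair W1 W2 p q) +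
          (Tst (F.e G) (F.ctr G + x) (F.rad G) (BR (α t) (α t)) -
            Tst (F.e G) (F.ctr G + x) (F.rad G) (BR (act G (α t)) (act G (α t))))) := by
      have e2 : M = ((ω⁻¹ : ℝ) : ℂ) • ((ω : ℂ) • M) := by
        rw [smul_smul, ← Complex.ofReal_mul, inv_mul_cancel₀ ω0.ne', Complex.ofReal_one, one_smul]
      rw [h4]
      conv_lhs => rw [e2]
      rw [← smul_sub]
      congr 1
      abel
    rw [e, norm_smul, Complex.norm_real, Real.norm_of_nonneg (inv_pos.mpr ω0).le]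
    refine (mul_le_of_le_one_left (norm_nonneg _) (inv_le_one_of_one_le₀ hω)).trans ?_
    exact norm_add₃_le.trans (by linarith)
  · refine (hd_tooth H hF hx ω ht).congr_deriv ?_
    abel

lemma eqb_mem {F : Fam} {x h : Z3} (hx : x ∈ F.cens G) (hh : h ∈ bx (F.rad G)) : x + h ∈ F.S G :=
  mem_S.2 ⟨x, hx, by simpa using hh⟩

lemma eqb_sh0 (f : V) : sh 0 * f = f := by
  ext h
  rw [coeff_sh_mul, sub_zero]

end

end Pool.Agent.Work.MP_6bf1e5_an.Ell.Pd
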