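import Pool.Agent.Work.MP_6bf1e5_an.Ell.Norms
import Pool.Agent.Work.MP_6bf1e5_an.Ell.Rows
import Pool.Agent.Work.MP_6bf1e5_an.Ell.YoungM
import Pool.Agent.Work.MP_6bf1e5_an.Ell.EqA
import Pool.Agent.Work.MP_6bf1e5_an.Ell.Layer
import Pool.Agent.Work.MP_6bf1e5_an.Ell.CoefB
import Pool.Agent.Work.MP_6bf1e5_an.Ell.EqBA

/-!
The equation of the first comb.
-/

open Set Complex
open scoped InnerProductSpace ComplexConjugate Classical
open Pool.Agent.Work.MP_6bf1e5_an.B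
open Pool.Agent.Work.MP_6bf1e5_an.Dec

namespace Pool.Agent.Work.MP_6bf1e5_an.Ell.Pd

noncomputable section

variable {G : Geo} {α : ℝ → Z3 → E3}

/-- The remaining interactions of a tooth of the first comb. -/
lemma eqb_rest {t : ℝ} (ha : Adm (α t)) (j : ℕ) (o : Fin 4) {P : Z3 → Z3 → Prop}
    (hP : ∀ p q, P p q → ¬∃ i, j = i + 1 ∧ UPair (Pt G (.c i) g1) (Pt G (.b i) (1, -1)) p q) :
    ‖Tst ((Fam.b j).e G) ((Fam.b j).ctr G + G.off j o) ((Fam.b j).rad G)
      (RP (act G (α t)) P)‖ ≤ 2 * (11 / 10 * G.lam j) *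
      (10 * (rawOf G α).ny G j t * (10 * (rawOf G α).ch G j t +
          (100 * (rawOf G α).lev j t + 100 * (rawOf G α).lev (j + 1) t)) +
        3 * G.N j * (100 * (rawOf G α).lev (j + 1) t * (100 * (rawOf G α).lev (j + 1) t)) +
        2000 * (rawOf G α).Low G j t * (100 * (rawOf G α).lev j t) +
        3 * G.N j * (rawOf G α).ET (j + G.kk - 1) t) := by
  have hx : G.off j o ∈ (Fam.b j).cens G := mem_cens_b.2 ⟨o, rfl⟩
  have := rest_le (adm_act (G := G) ha) (ι := Fin 4)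
    (W1 := ![LadS G j, Lev G (j + 1), LowS G j, Tail G (j + G.kk - 1)])
    (W2 := ![LadS G j ∪ (Lev G j ∪ Lev G (j + 1)), Lev G (j + 1), Lev G j, Tail G (j + G.kk - 1)])
    (K := ![10 * (rawOf G α).ny G j t * (10 * (rawOf G α).ch G j t +
          (100 * (rawOf G α).lev j t + 100 * (rawOf G α).lev (j + 1) t)),
        3 * G.N j * (100 * (rawOf G α).lev (j + 1) t * (100 * (rawOf G α).lev (j + 1) t)),
        2000 * (rawOf G α).Low G j t * (100 * (rawOf G α).lev j t),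
        3 * G.N j * (rawOf G α).ET (j + G.kk - 1) t])
    (n := (Fam.b j).rad G) ?_ (P := P) (e := (Fam.b j).e G) (r0 := (Fam.b j).ctr G + G.off j o)
    (c := 11 / 10 * G.lam j) ?_ ?_
  · rwa [Fin.sum_univ_four] at this
  · intro i
    fin_cases i
    · exact Cv_l1 _ (nb_nonneg _ _) (nb_nonneg _ _) (L1_Lad ha j)
        ((L2_Lad ha j).union ((L2_Lev ha j).union (L2_Lev ha (j + 1))))
    · exact Cv_l2 _ (nb_nonneg _ _) (nb_nonneg _ _) (L2_Lev ha (j + 1)) (L2_Lev ha (j + 1))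
    · exact Cv_l1 _ (nb_nonneg _ _) (nb_nonneg _ _) (L1_LowS ha j) (L2_Lev ha j)
    · exact Cv_tail ha _ _
  · intro h hh
    have h1 : ‖(Fam.b j).e G‖ = 1 := norm_eB G
    rw [h1, one_mul, add_assoc]
    exact ax_b (eqb_mem hx hh)
  · intro h hh p q hpq hp p0 q0
    obtain ⟨F1, g, f1, m1⟩ := exists_pt p0
    obtain ⟨F2, g', f2, m2⟩ := exists_pt q0
    rcases rows_b (eqb_mem hx hh) f1 f2 m1 m2 (by rw [hpq, add_assoc]) with h1 | h1 | h1 | h1 | h1
    · exact absurd h1 (hP p q hp)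
    · exact ⟨0, h1⟩
    · exact ⟨1, h1⟩
    · exact ⟨2, h1⟩
    · exact ⟨3, h1⟩

lemma eqb_num {t : ℝ} (j : ℕ) {e1 : ℝ}
    (h : e1 ≤ 10 ^ 6 * G.lam j * (G.tau0 * (rawOf G α).pv G j t * (rawOf G α).lev j t)) :
    e1 + 2 * (11 / 10 * G.lam j) *
      (10 * (rawOf G α).ny G j t * (10 * (rawOf G α).ch G j t +
          (100 * (rawOf G α).lev j t + 100 * (rawOf G α).lev (j + 1) t)) +
        3 * G.N j * (100 * (rawOf G α).lev (j + 1) t * (100 * (rawOf G α).lev (j + 1) t)) +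
        2000 * (rawOf G α).Low G j t * (100 * (rawOf G α).lev j t) +
        3 * G.N j * (rawOf G α).ET (j + G.kk - 1) t) + ‖(Fam.b j).e G‖ * (rawOf G α).Jk t ≤
      (rawOf G α).eb G j t := by
  have h1 : ‖(Fam.b j).e G‖ = 1 := norm_eB G
  have h2 := Jk_nonneg (G := G) α t
  have h3 := ny_nonneg (G := G) α j t
  have h4 := ch_nonneg (G := G) (α := α) (t := t) j
  have h5 := lev_nonneg (G := G) (α := α) (t := t) j
  have h6 := lev_nonneg (G := G) (α := α) (t := t) (j + 1)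
  have h7 : 0 ≤ (rawOf G α).Low G j t := add_nonneg (LowL_nonneg α j t) (LowY_nonneg α j t)
  have h8 := ET_nonneg (G := G) α (j + G.kk - 1) t
  have h9 : 0 ≤ G.N j := zero_le_one.trans (N_pos G j)
  have h10 : 0 ≤ G.lam j := zero_le_one.trans (lam_pos G j)
  have e : G.t ^ 50 * G.N j * (rawOf G α).ch G j t = (rawOf G α).ny G j t := by
    unfold Raw.ny; ring
  rw [h1, Raw.eb, e]
  generalize (rawOf G α).ny G j t = ny at *
  generalize (rawOf G α).ch G j t = ch at *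
  generalize (rawOf G α).lev j t = l0 at *
  generalize (rawOf G α).lev (j + 1) t = l1 at *
  generalize (rawOf G α).Low G j t = Lo at *
  generalize (rawOf G α).ET (j + G.kk - 1) t = et at *
  generalize G.N j = N at *
  generalize G.lam j = lam at *
  have a1 : 0 ≤ lam * (ny * ch) := by positivity
  have a2 : 0 ≤ lam * (ny * l0) := by positivity
  have a3 : 0 ≤ lam * (ny * l1) := by positivity
  have a4 : 0 ≤ lam * (N * l1 * l1) := by positivity
  have a5 : 0 ≤ lam * (N * l1 * ch) := by positivity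
  have a6 : 0 ≤ lam * (Lo * l0) := by positivity
  have a7 : 0 ≤ lam * (N * et) := by positivity
  linarith

theorem eqB0 (H : RSol G α) (o : Fin 4) {t : ℝ} (ht : 0 ≤ t) :
    ∃ r, ‖r‖ ≤ (rawOf G α).eb G 0 t ∧ HD ((rawOf G α).b 0 o)
      (-((G.d 0 : ℂ) • (rawOf G α).b 0 o t) -
        mulr ((rawOf G α).vb 0) ((rawOf G α).b 0 o t) + r) t := by
  have ha := H.adm t ht
  have hx : G.off 0 o ∈ (Fam.b 0).cens G := mem_cens_b.2 ⟨o, rfl⟩
  have h2 := eqb_rest (G := G) ha 0 o (P := fun p q => True ∧ ¬UPair ∅ ∅ p q)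
    (fun p q _ ⟨i, hi, _⟩ => by omega)
  have h1 : ‖Tst ((Fam.b 0).e G) ((Fam.b 0).ctr G + G.off 0 o) ((Fam.b 0).rad G)
      (SB (act G (α t)) ∅ ∅) - ((G.om o : ℝ) : ℂ) • (0 : V)‖ ≤ 0 := by
    rw [smul_zero, sub_zero]
    refine (norm_Tst_le _ _ _ (K := 0) ⟨le_rfl, fun s => ?_⟩).trans (by simp)
    simp [SB]
  obtain ⟨r, r1, r2⟩ := eqb_main H (F := .b 0) trivial hx (om_bounds G o).1 ht
    (fun k hk => absurd hk (notMem_empty k)) h1 h2
  refine ⟨r, r1.trans (eqb_num 0 ?_), ?_⟩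
  · simp [Raw.pv]
  · rw [zero_sub] at r2
    exact r2

theorem eqB (H : RSol G α) (j : ℕ) (o : Fin 4) {t : ℝ} (ht : 0 ≤ t) :
    ∃ r, ‖r‖ ≤ (rawOf G α).eb G (j + 1) t ∧ HD ((rawOf G α).b (j + 1) o)
      (((rawOf G α).kap G j : ℂ) •
          pj (G.rb (j + 1)) (dag ((rawOf G α).A G j t) * (rawOf G α).c (j + 1) o t)
        - (G.d (j + 1) : ℂ) • (rawOf G α).b (j + 1) o t
        - mulr ((rawOf G α).vb (j + 1)) ((rawOf G α).b (j + 1) o t) + r) t := by
  have ha := H.adm t ht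
  have hx : G.off (j + 1) o ∈ (Fam.b (j + 1)).cens G := mem_cens_b.2 ⟨o, rfl⟩
  have h2 := eqb_rest (G := G) ha (j + 1) o
    (P := fun p q => True ∧ ¬UPair (Pt G (.c j) g1) (Pt G (.b j) (1, -1)) p q)
    (fun p q hp ⟨i, hi, h⟩ => by
      obtain rfl : j = i := by omega
      exact hp.2 h)
  have l0 : 0 ≤ G.lam (j + 1) := zero_le_one.trans (lam_pos G _)
  have η0 : 0 ≤ G.lam (j + 1) * G.tau0 := mul_nonneg l0 (tau0_nonneg G)
  have h1 := (main_approx ha (F1 := .c j) (F2 := .b j) trivial trivial g1 (1, -1) (.b (j + 1))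
    (G.off (j + 1) o) (n := (Fam.b (j + 1)).rad G) (c0 := G.kp * G.lam j) η0
    fun h hh a ha b hb => cf_B (eqb_mem hx hh) ha hb).2
  have e1 : gz g1 ((Fam.c j).ctr G) + gz (1, -1) ((Fam.b j).ctr G) -
      ((Fam.b (j + 1)).ctr G + G.off (j + 1) o) = -G.off (j + 1) o := by
    have : gz g1 ((Fam.c j).ctr G) + gz (1, -1) ((Fam.b j).ctr G) = (Fam.b (j + 1)).ctr G := by
      rw [gz_g1]
      ext i
      fin_cases i <;> simp [gz, Fam.ctr]
    rw [this]; abel
  rw [e1, tr_g1, tr_dag_tau (rl_env _ _), env_b, env_c] at h1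
  have e2 := pj_comb (G := G) (rawOf G α) j o (f := fun o => (rawOf G α).c (j + 1) o t)
    (fun o => sp_mk _ _) (sp_A α j t).dag (n := (Fam.b (j + 1)).rad G) (rb_le_rc G (j + 1))
  change pj _ (sh _ * ((rawOf G α).Cc G (j + 1) t * dag (tau ((rawOf G α).B G j t)))) = _ at e2
  rw [e2, smul_comm, mul_comm ((rawOf G α).c (j + 1) o t)] at h1
  obtain ⟨r, r1, r2⟩ := eqb_main H (F := .b (j + 1)) trivial hx (om_bounds G o).1 ht
    (fun k hk hk' => by cases (Pt_disjoint (F := .c j) (F' := .b j) trivial trivial hk hk').1) h1 h2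
  refine ⟨r, r1.trans (eqb_num (j + 1) ?_), r2⟩
  have b1 := norm_Cc_le (G := G) (α := α) (t := t) (j + 1)
  have b2 := l1_B_le (G := G) (α := α) (t := t) j
  have b3 := nl_nonneg (G := G) α j t
  have b4 := ny_nonneg (G := G) α j t
  have b5 := lev_nonneg (G := G) (α := α) (t := t) (j + 1)
  have b6 : ‖(rawOf G α).Cc G (j + 1) t‖ * l1 ((rawOf G α).B G j t) ≤
      18 * (rawOf G α).lev (j + 1) t * (54 * (rawOf G α).nl G j t) :=
    mul_le_mul b1 b2 (l1_nonneg _) (by positivity)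
  have b7 : 18 * (rawOf G α).lev (j + 1) t * (54 * (rawOf G α).nl G j t) ≤
      10 ^ 6 * (((rawOf G α).nl G j t + (rawOf G α).ny G j t) * (rawOf G α).lev (j + 1) t) := by
    linarith [mul_nonneg b3 b5, mul_nonneg b4 b5]
  refine (mul_le_mul_of_nonneg_left (b6.trans b7) η0).trans (le_of_eq ?_)
  simp only [Raw.pv, Raw.nu]
  ring

end

end Pool.Agent.Work.MP_6bf1e5_an.Ell.Pd
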