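import Pool.Agent.Work.MP_6bf1e5_an.Ell.Norms
import Pool.Agent.Work.MP_6bf1e5_an.Ell.Rows
import Pool.Agent.Work.MP_6bf1e5_an.Ell.YoungM
import Pool.Agent.Work.MP_6bf1e5_an.Ell.EqA
import Pool.Agent.Work.MP_6bf1e5_an.Ell.Layer
import Pool.Agent.Work.MP_6bf1e5_an.Ell.CoefB
import Pool.Agent.Work.MP_6bf1e5_an.Ell.CoefC

/-!
The equation of the second comb.
-/

open Set Complex
open scoped InnerProductSpace ComplexConjugate Classical
open Pool.Agent.Work.MP_6bf1e5_an.B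
open Pool.Agent.Work.MP_6bf1e5_an.Dec

namespace Pool.Agent.Work.MP_6bf1e5_an.Ell.Pd

noncomputable section

attribute [local irreducible] Fam.S

variable {G : Geo} {α : ℝ → Z3 → E3}

/-- The low first comb at the position of the tooth `o`. -/
def eqC_W4 (G : Geo) (j : ℕ) (o : Fin 4) : Set Z3 :=
  {k | ∃ i, i + G.kk = j + 1 ∧ k ∈ Pt G (.b i) (go o)}

/-- The low second comb at the position of the tooth `o`. -/
def eqC_W5 (G : Geo) (j : ℕ) (o : Fin 4) : Set Z3 :=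
  {k | ∃ i, i + 1 + G.kk = j + 1 ∧ k ∈ Pt G (.c i) (go o)}

lemma eqC_ok (j : ℕ) : (Fam.y j G.La).ok G :=
  ⟨le_trans (by norm_num) (La_big G), le_rfl⟩

lemma eqC_mem (j : ℕ) (o : Fin 4) {h : Z3} (hh : h ∈ bx (G.rc (j + 1))) :
    G.off (j + 1) o + h ∈ (Fam.c j).S G :=
  mem_S.mpr ⟨G.off (j + 1) o, mem_cens_c.mpr ⟨o, rfl⟩, by rwa [add_sub_cancel_left]⟩

lemma eqC_empty (β : Z3 → E3) (e : E3) (r0 : Z3) (n : N3) (W : Set Z3) :
    Tst e r0 n (SB β W ∅) = 0 := by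
  ext h
  simp [Tst, SB, coeff_mk]

lemma eqC_sh0 : sh 0 = 1 := rfl

lemma eqC_bb {i j : ℕ} {g g' : Gp} {k : Z3} (h : k ∈ Pt G (.b i) g) (h' : k ∈ Pt G (.b j) g') :
    i = j := Fam.b.inj (Pt_disjoint (F := .b i) (F' := .b j) trivial trivial h h').1

lemma eqC_yb {i j : ℕ} {g g' : Gp} {k : Z3} (h : k ∈ Pt G (.y j G.La) g) :
    k ∉ Pt G (.b i) g' := fun h' =>
  Fam.noConfusion (Pt_disjoint (F' := .b i) (eqC_ok j) trivial h h').1

lemma eqC_yc {i j : ℕ} {g g' : Gp} {k : Z3} (h : k ∈ Pt G (.y j G.La) g) :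
    k ∉ Pt G (.c i) g' := fun h' =>
  Fam.noConfusion (Pt_disjoint (F' := .c i) (eqC_ok j) trivial h h').1

lemma eqC_cb {i j : ℕ} {g g' : Gp} {k : Z3} (h : k ∈ Pt G (.c j) g) :
    k ∉ Pt G (.b i) g' := fun h' =>
  Fam.noConfusion (Pt_disjoint (F := .c j) (F' := .b i) trivial trivial h h').1

/-- The strain term. -/
lemma eqC_strain {t : ℝ} (H : Adm (α t)) (j : ℕ) (o : Fin 4) :
    ‖Tst G.eC ((Fam.c j).ctr G + G.off (j + 1) o) (G.rc (j + 1))
        (SB (act G (α t)) (Pt G (.b (j + 1)) g1) (Pt G (.b j) (1, 1))) -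
      (G.om o : ℂ) • (((rawOf G α).kap G j : ℂ) •
        ((rawOf G α).A G j t * (rawOf G α).b (j + 1) o t))‖ ≤
      G.lam (j + 1) * G.tau0 * (18 * (rawOf G α).lev (j + 1) t * (54 * (rawOf G α).nl G j t)) := by
  have η0 : 0 ≤ G.lam (j + 1) * G.tau0 :=
    mul_nonneg (zero_le_one.trans (lam_pos G _)) (tau0_nonneg G)
  have M := (main_approx H (F1 := .b (j + 1)) (F2 := .b j) trivial trivial g1 (1, 1) (.c j)
    (G.off (j + 1) o) (n := G.rc (j + 1)) η0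
    (fun h hh a ha b hb => cf_C (eqC_mem j o hh) ha hb)).2
  have s : gz g1 ((Fam.b (j + 1)).ctr G) + gz (1, 1) ((Fam.b j).ctr G) -
      ((Fam.c j).ctr G + G.off (j + 1) o) = -G.off (j + 1) o := by
    rw [gz_g1, ← sub_sub, sub_eq_neg_self, sub_eq_zero]
    ext i
    fin_cases i <;> simp [gz, Fam.ctr]
  have sb : Sp (G.rb (j + 1)) ((rawOf G α).b (j + 1) o t) := sp_mk _ _
  have p := pj_comb (rawOf G α) j o (f := fun o => (rawOf G α).b (j + 1) o t)
    (fun o => Sp.mono (sp_mk _ _) (rb_le_rc G (j + 1))) (sp_A α j t) (n := G.rc (j + 1))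
    fun _ => le_rfl
  have sp : Sp (G.rc (j + 1)) ((rawOf G α).b (j + 1) o t * (rawOf G α).A G j t) :=
    sb.mul (sp_A α j t)
  rw [sp.pj_eq] at p
  rw [s, tr_g1, tr_tau, env_b, env_b] at M
  change ‖Tst G.eC _ _ _ - (((rawOf G α).kap G j : ℝ) : ℂ) • pj _ (sh _ * ((rawOf G α).comb G (j + 1)
    (fun o => (rawOf G α).b (j + 1) o t) * (rawOf G α).A G j t))‖ ≤ _ at M
  rw [p, smul_comm, mul_comm ((rawOf G α).b (j + 1) o t)] at M
  refine M.trans (mul_le_mul_of_nonneg_left ?_ η0)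
  exact mul_le_mul (norm_B_le _) (l1_B_le _) (l1_nonneg _)
    (mul_nonneg (by norm_num) (lev_nonneg _))

lemma eqC_eta (G : Geo) (j : ℕ) : 0 ≤ G.lam (j + 1) * (G.tau0 / G.m0) :=
  mul_nonneg (zero_le_one.trans (lam_pos G _)) (div_nonneg (tau0_nonneg G)
    (le_trans (pow_nonneg (le_trans (by positivity) (t_big G)) _) (m0_big G)))

lemma eqC_seed1 {t : ℝ} (H : Adm (α t)) {j i : ℕ} (hi : i + G.kk = j + 1) (o : Fin 4) :
    ‖Tst G.eC ((Fam.c j).ctr G + G.off (j + 1) o) (G.rc (j + 1))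
        (SB (act G (α t)) (Pt G (.y j G.La) g1) (Pt G (.b i) (go o))) -
      ((G.om o * (G.cf * (2 * Real.pi * G.n (j + 1))) : ℝ) : ℂ) • pj (G.rc (j + 1))
        ((rawOf G α).y j G.La t * tr (go o) ((rawOf G α).B G i t))‖ ≤
      G.lam (j + 1) * (G.tau0 / G.m0) * (‖(rawOf G α).y j G.La t‖ * (54 * (rawOf G α).nl G i t)) := by
  have M := (main_approx H (F1 := .y j G.La) (F2 := .b i) (eqC_ok j) trivial g1 (go o) (.c j)
    (G.off (j + 1) o) (n := G.rc (j + 1)) (eqC_eta G j)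
    (fun h hh a ha b hb => cf_S1 hi o (eqC_mem j o hh) ha hb)).2
  have s : gz g1 ((Fam.y j G.La).ctr G) + gz (go o) ((Fam.b i).ctr G) -
      ((Fam.c j).ctr G + G.off (j + 1) o) = 0 := by
    have e1 : (Fam.b i).ctr G = ![(G.n (j + 1) : ℤ), 0, 0] := by simp only [Fam.ctr, P_eq G i, hi]
    have e2 : (Fam.y j G.La).ctr G = (Fam.c j).ctr G := by simp [Fam.ctr, P_succ G j]
    rw [gz_g1, e1, e2, gz_go, sub_self]
  rw [s, eqC_sh0, one_mul, tr_g1, env_b, env_y (eqC_ok j).1 le_rfl] at M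
  refine M.trans (mul_le_mul_of_nonneg_left ?_ (eqC_eta G j))
  exact mul_le_mul_of_nonneg_left (l1_B_le _) (norm_nonneg _)

lemma eqC_seed2 {t : ℝ} (H : Adm (α t)) {j i : ℕ} (hi : i + 1 + G.kk = j + 1) (o : Fin 4) :
    ‖Tst G.eC ((Fam.c j).ctr G + G.off (j + 1) o) (G.rc (j + 1))
        (SB (act G (α t)) (Pt G (.y j G.La) g1) (Pt G (.c i) (go o))) -
      ((G.om o * (G.cf * (2 * Real.pi * G.n (j + 1))) * G.cq o : ℝ) : ℂ) • pj (G.rc (j + 1))
        ((rawOf G α).y j G.La t * tr (go o) (sh ![0, G.P i, 0] * (rawOf G α).Cc G (i + 1) t))‖ ≤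
      G.lam (j + 1) * (G.tau0 / G.m0) *
        (‖(rawOf G α).y j G.La t‖ * (108 * (rawOf G α).nl G (i + 1) t)) := by
  have M := (main_approx H (F1 := .y j G.La) (F2 := .c i) (eqC_ok j) trivial g1 (go o) (.c j)
    (G.off (j + 1) o) (n := G.rc (j + 1)) (eqC_eta G j)
    (fun h hh a ha b hb => cf_S2 hi o (eqC_mem j o hh) ha hb)).2
  have s : gz g1 ((Fam.y j G.La).ctr G) + gz (go o) ((Fam.c i).ctr G) -
      ((Fam.c j).ctr G + G.off (j + 1) o) = gz (go o) ![0, G.P i, 0] := by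
    have e1 : (Fam.c i).ctr G = ![(G.n (j + 1) : ℤ), 0, 0] + ![0, (G.P i : ℤ), 0] := by
      simp only [Fam.ctr, P_eq G (i + 1), hi]
      ext l
      fin_cases l <;> simp
    have e2 : (Fam.y j G.La).ctr G = (Fam.c j).ctr G := by simp [Fam.ctr, P_succ G j]
    rw [gz_g1, e1, e2, gz_add, gz_go]
    abel
  rw [s, tr_g1, env_c, env_y (eqC_ok j).1 le_rfl, mul_left_comm (sh _), ← tr_sh, ← tr_mul] at M
  refine M.trans (mul_le_mul_of_nonneg_left ?_ (eqC_eta G j))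
  exact mul_le_mul_of_nonneg_left (l1_Cc_le _) (norm_nonneg _)

lemma eqC_low {t : ℝ} {j i : ℕ} (hi : i + G.kk = j + 1) :
    (rawOf G α).nl G i t ≤ (rawOf G α).LowL G (j + 1) t :=
  Finset.single_le_sum (f := fun i => (rawOf G α).nl G i t) (fun i _ => nl_nonneg α i t)
    (Finset.mem_range.mpr (by omega))

/-- The seed. -/
lemma eqC_seed {t : ℝ} (H : Adm (α t)) (j : ℕ) (o : Fin 4) :
    ‖Tst G.eC ((Fam.c j).ctr G + G.off (j + 1) o) (G.rc (j + 1))
        (SB (act G (α t)) (Pt G (.y j G.La) g1) (eqC_W4 G j o)) +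
      Tst G.eC ((Fam.c j).ctr G + G.off (j + 1) o) (G.rc (j + 1))
        (SB (act G (α t)) (Pt G (.y j G.La) g1) (eqC_W5 G j o)) -
      (G.om o : ℂ) • (rawOf G α).f G j o t‖ ≤
      G.lam (j + 1) * (G.tau0 / G.m0) *
        (‖(rawOf G α).y j G.La t‖ * (162 * (rawOf G α).LowL G (j + 1) t)) := by
  have η0 := eqC_eta G j
  have L0 := LowL_nonneg (G := G) α (j + 1) t
  by_cases hk : G.kk ≤ j + 1
  · obtain ⟨i, hi⟩ : ∃ i, i + G.kk = j + 1 := ⟨j + 1 - G.kk, by omega⟩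
    have e4 : eqC_W4 G j o = Pt G (.b i) (go o) := by
      ext k
      exact ⟨fun ⟨i', h1, h2⟩ => by rwa [show i = i' by omega], fun h => ⟨i, hi, h⟩⟩
    have rl : Rl ((rawOf G α).B G i t + (G.cq o : ℂ) •
        (sh ![0, G.P (i - 1), 0] * (rawOf G α).Cc G i t)) := by
      refine Rl.add (env_b (α := α) (t := t) i ▸ rl_env _ _) (Rl.smul ((rl_sh _).mul ?_) _)
      refine Rl.sum _ fun o _ => Rl.smul ((rl_sh _).mul fun h => ?_) _
      simp only [rawOf]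
      split_ifs
      · rfl
      · rw [tooth, coeff_mk]
        split_ifs
        · exact ofReal_im _
        · rfl
    have ef : (G.om o : ℂ) • (rawOf G α).f G j o t =
        ((G.om o * (G.cf * (2 * Real.pi * G.n (j + 1))) : ℝ) : ℂ) • pj (G.rc (j + 1))
          ((rawOf G α).y j G.La t * tr (go o) ((rawOf G α).B G i t)) +
        ((G.om o * (G.cf * (2 * Real.pi * G.n (j + 1))) * G.cq o : ℝ) : ℂ) • pj (G.rc (j + 1))
          ((rawOf G α).y j G.La t * tr (go o) (sh ![0, G.P (i - 1), 0] * (rawOf G α).Cc G i t)) := by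
      have e1 : j + 1 - G.kk = i := by omega
      have e2 : (rawOf G α).Z G (j + 1) o t = tr (go o) ((rawOf G α).B G i t) + (G.cq o : ℂ) •
          tr (go o) (sh ![0, G.P (i - 1), 0] * (rawOf G α).Cc G i t) := by
        rw [Raw.Z, if_pos hk, e1]
        exact (tr_go rl o).symm.trans ((map_add (prm _) _ _).trans (by rw [map_smul]; rfl))
      rw [Raw.f, e2, mul_add, mul_smul_comm, map_add, map_smul, smul_smul, smul_add, smul_smul]
      push_cast
      rfl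
    have h1 := eqC_seed1 H hi o
    have h3 := eqC_low (α := α) (t := t) hi
    have n0 := norm_nonneg ((rawOf G α).y j G.La t)
    have h2 : ‖Tst G.eC ((Fam.c j).ctr G + G.off (j + 1) o) (G.rc (j + 1))
        (SB (act G (α t)) (Pt G (.y j G.La) g1) (eqC_W5 G j o)) -
        ((G.om o * (G.cf * (2 * Real.pi * G.n (j + 1))) * G.cq o : ℝ) : ℂ) • pj (G.rc (j + 1))
          ((rawOf G α).y j G.La t * tr (go o) (sh ![0, G.P (i - 1), 0] * (rawOf G α).Cc G i t))‖ ≤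
        G.lam (j + 1) * (G.tau0 / G.m0) *
          (‖(rawOf G α).y j G.La t‖ * (108 * (rawOf G α).nl G i t)) := by
      cases i with
      | zero =>
        have e5 : eqC_W5 G j o = ∅ := Set.eq_empty_of_forall_notMem fun k ⟨i', h, _⟩ => by omega
        have e6 : (rawOf G α).Cc G 0 t = 0 := by simp [Raw.Cc, Raw.comb, rawOf]
        have e7 : tr (go o) 0 = 0 := map_zero (prm _)
        have := nl_nonneg (G := G) α 0 t
        rw [e5, e6, eqC_empty, mul_zero, e7, mul_zero, map_zero, smul_zero, sub_zero, norm_zero]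
        positivity
      | succ i =>
        have e5 : eqC_W5 G j o = Pt G (.c i) (go o) := by
          ext k
          exact ⟨fun ⟨i', h1, h2⟩ => by rwa [show i = i' by omega], fun h => ⟨i, hi, h⟩⟩
        rw [e5]
        exact eqC_seed2 H hi o
    rw [e4, ef, add_sub_add_comm]
    refine (norm_add_le _ _).trans ((add_le_add h1 h2).trans ?_)
    rw [← mul_add, ← mul_add]
    gcongr
    linarith
  · have e4 : eqC_W4 G j o = ∅ := Set.eq_empty_of_forall_notMem fun k ⟨i', h, _⟩ => by omega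
    have e5 : eqC_W5 G j o = ∅ := Set.eq_empty_of_forall_notMem fun k ⟨i', h, _⟩ => by omega
    rw [e4, e5, eqC_empty, Raw.f, Raw.Z, if_neg hk, mul_zero, map_zero, smul_zero, smul_zero,
      add_zero, sub_zero, norm_zero]
    positivity

/-- The remaining interactions. -/
lemma eqC_rest {t : ℝ} (H : Adm (α t)) (j : ℕ) (o : Fin 4) :
    ‖Tst G.eC ((Fam.c j).ctr G + G.off (j + 1) o) (G.rc (j + 1)) (RP (act G (α t)) fun p q =>
      ((True ∧ ¬UPair (Pt G (.b (j + 1)) g1) (Pt G (.b j) (1, 1)) p q) ∧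
        ¬UPair (Pt G (.y j G.La) g1) (eqC_W4 G j o) p q) ∧
        ¬UPair (Pt G (.y j G.La) g1) (eqC_W5 G j o) p q)‖ ≤
      2 * (G.t ^ 11 * (11 / 10 * G.lam (j + 1))) *
        (2000 * (rawOf G α).Low G (j + 1) t * (100 * (rawOf G α).lev (j + 1) t) +
          10 * (rawOf G α).LowY G (j + 1) t * (2 * ‖(rawOf G α).y j G.La t‖) +
          3 * Nn (G.rc (j + 1)) * (rawOf G α).ET (j + G.kk) t) := by
  have := rest_le (adm_act (G := G) H) (ι := Fin 3)
    (W1 := ![LowS G (j + 1), LowYS G (j + 1), Tail G (j + G.kk)])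
    (W2 := ![Lev G (j + 1), Pt G (.y j G.La) g1, Tail G (j + G.kk)])
    (K := ![2000 * (rawOf G α).Low G (j + 1) t * (100 * (rawOf G α).lev (j + 1) t),
      10 * (rawOf G α).LowY G (j + 1) t * (2 * ‖(rawOf G α).y j G.La t‖),
      3 * Nn (G.rc (j + 1)) * (rawOf G α).ET (j + G.kk) t]) (n := G.rc (j + 1))
    (P := fun p q => ((True ∧ ¬UPair (Pt G (.b (j + 1)) g1) (Pt G (.b j) (1, 1)) p q) ∧
        ¬UPair (Pt G (.y j G.La) g1) (eqC_W4 G j o) p q) ∧
        ¬UPair (Pt G (.y j G.La) g1) (eqC_W5 G j o) p q)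
    (e := G.eC) (r0 := (Fam.c j).ctr G + G.off (j + 1) o)
    (c := G.t ^ 11 * (11 / 10 * G.lam (j + 1))) ?_ ?_ ?_
  · rwa [Fin.sum_univ_three] at this
  · intro i
    fin_cases i
    · exact Cv_l1 _ (nb_nonneg _ _) (nb_nonneg _ _) (L1_LowS H _) (L2_Lev H _)
    · have := L2_Pt H (eqC_ok (G := G) j) g1
      rw [env_y (eqC_ok j).1 le_rfl] at this
      exact Cv_l1 _ (nb_nonneg _ _) (nb_nonneg _ _) (L1_LowYS H _) this
    · exact Cv_tail H _ _
  · intro h hh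
    rw [add_assoc]
    exact mul_le_mul (norm_e_hi G (.c j)) (ax_hi (F := .c j) trivial (eqC_mem j o hh))
      (ax_nonneg _) (pow_nonneg (le_trans (by positivity) (t_big G)) _)
  · rintro h hh p q e ⟨⟨⟨-, n1⟩, n2⟩, n3⟩ hp hq
    obtain ⟨F1, g, h1, hp⟩ := exists_pt hp
    obtain ⟨F2, g', h2, hq⟩ := exists_pt hq
    rw [add_assoc] at e
    rcases rows_c hh h1 h2 hp hq e with u | ⟨i, hi, u⟩ | ⟨i, hi, u⟩ | u | u | u
    · exact absurd u n1
    · exact absurd (u.imp (fun u => ⟨u.1, i, hi, u.2⟩) fun u => ⟨⟨i, hi, u.1⟩, u.2⟩) n2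
    · exact absurd (u.imp (fun u => ⟨u.1, i, hi, u.2⟩) fun u => ⟨⟨i, hi, u.1⟩, u.2⟩) n3
    · exact ⟨0, u⟩
    · exact ⟨1, u⟩
    · exact ⟨2, u⟩

lemma eqC_num {T lam τ μ nl ny lev Low LY LL y N Nc ET Jk : ℝ} (hT : 10 ^ 100 ≤ T) (h1 : 0 ≤ lam)
    (h2 : 0 ≤ τ) (h3 : 0 ≤ μ) (h4 : 0 ≤ nl) (h5 : 0 ≤ ny) (h6 : 0 ≤ lev) (h7 : 0 ≤ Low)
    (h8 : 0 ≤ LY) (h9 : 0 ≤ LL) (h10 : 0 ≤ y) (h11 : 0 ≤ N) (h12 : Nc ≤ 2 * N) (h13 : 0 ≤ ET)
    (h14 : 0 ≤ Jk) :
    T ^ 11 * Jk + lam * τ * (18 * lev * (54 * nl)) + lam * μ * (y * (162 * LL)) +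
      2 * (T ^ 11 * (11 / 10 * lam)) * (2000 * Low * (100 * lev) + 10 * LY * (2 * y) + 3 * Nc * ET) ≤
    T ^ 12 * (lam * (τ * (nl + ny) * lev + Low * lev + (LY + μ * LL) * y + N * ET) + Jk) := by
  have T1 : 1 ≤ T := le_trans (by norm_num) hT
  have p1 : 1 ≤ T ^ 11 := one_le_pow₀ T1
  have p2 : 10 ^ 6 * T ^ 11 ≤ T ^ 12 := by rw [pow_succ T 11]; nlinarith
  generalize T ^ 12 = X at *
  generalize T ^ 11 = Y at *
  have a1 : Y * Jk ≤ X * Jk := by gcongr; linarith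
  have a2 : 972 * (lam * τ * nl * lev) ≤ X * (lam * τ * nl * lev) := by gcongr; linarith
  have a3 : 162 * (lam * μ * LL * y) ≤ X * (lam * μ * LL * y) := by gcongr; linarith
  have a4 : 440000 * Y * (lam * Low * lev) ≤ X * (lam * Low * lev) := by gcongr; linarith
  have a5 : 44 * Y * (lam * LY * y) ≤ X * (lam * LY * y) := by gcongr; linarith
  have a6 : 7 * Y * (lam * (2 * N) * ET) ≤ X * (lam * N * ET) := by
    have : 14 * Y * (lam * N * ET) ≤ X * (lam * N * ET) := by gcongr; linarith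
    linarith
  have a7 : 33 / 5 * Y * (lam * Nc * ET) ≤ 33 / 5 * Y * (lam * (2 * N) * ET) := by gcongr
  have a8 : 0 ≤ Y * (lam * (2 * N) * ET) := by positivity
  have a9 : 0 ≤ X * (lam * τ * ny * lev) := by
    have : 0 ≤ X := by linarith
    positivity
  linarith

theorem eqC (H : RSol G α) (j : ℕ) (o : Fin 4) {t : ℝ} (ht : 0 ≤ t) :
    ∃ r, ‖r‖ ≤ (rawOf G α).ec G j t ∧ HD ((rawOf G α).c (j + 1) o)
      (((rawOf G α).kap G j : ℂ) • ((rawOf G α).A G j t * (rawOf G α).b (j + 1) o t)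
        - (G.d (j + 1) : ℂ) • (rawOf G α).c (j + 1) o t
        - mulr ((rawOf G α).vc (j + 1)) ((rawOf G α).c (j + 1) o t)
        + (rawOf G α).f G j o t + r) t := by
  have A := H.adm t ht
  have Ra := (adm_act (G := G) A).rapid
  have D : HD ((rawOf G α).c (j + 1) o) ((((G.om o)⁻¹ : ℝ) : ℂ) •
      Tst G.eC ((Fam.c j).ctr G + G.off (j + 1) o) (G.rc (j + 1)) (BR (α t) (α t)) -
      (G.d (j + 1) : ℂ) • (rawOf G α).c (j + 1) o t -
      mulr ((rawOf G α).vc (j + 1)) ((rawOf G α).c (j + 1) o t)) t := by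
    have e1 : (rawOf G α).c (j + 1) o =
      fun t => tooth G (.c j) (G.off (j + 1) o) (G.om o) (α t) := funext fun t => by simp [rawOf]
    have e2 : (rawOf G α).vc (j + 1) = lay G (.c j) := by simp [rawOf]
    rw [e1, e2]
    exact hd_tooth H (F := .c j) trivial (mem_cens_c.mpr ⟨o, rfl⟩) (G.om o) ht
  have o1 := (om_bounds G o).1
  have S1 := Tst_split Ra G.eC ((Fam.c j).ctr G + G.off (j + 1) o) (G.rc (j + 1))
    (P := fun _ _ => True) (W1 := Pt G (.b (j + 1)) g1) (W2 := Pt G (.b j) (1, 1))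
    (fun k h h' => by have := eqC_bb h h'; omega) fun _ _ _ => trivial
  have S2 := Tst_split Ra G.eC ((Fam.c j).ctr G + G.off (j + 1) o) (G.rc (j + 1))
    (P := fun p q => True ∧ ¬UPair (Pt G (.b (j + 1)) g1) (Pt G (.b j) (1, 1)) p q)
    (W1 := Pt G (.y j G.La) g1) (W2 := eqC_W4 G j o) (fun k h ⟨_, _, h'⟩ => eqC_yb h h')
    (by
      rintro p q (u | u)
      · exact ⟨trivial, fun v => v.elim (fun v => eqC_yb u.1 v.1) fun v => eqC_yb u.1 v.1⟩
      · exact ⟨trivial, fun v => v.elim (fun v => eqC_yb u.2 v.2) fun v => eqC_yb u.2 v.2⟩)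
  have S3 := Tst_split Ra G.eC ((Fam.c j).ctr G + G.off (j + 1) o) (G.rc (j + 1))
    (P := fun p q => (True ∧ ¬UPair (Pt G (.b (j + 1)) g1) (Pt G (.b j) (1, 1)) p q) ∧
      ¬UPair (Pt G (.y j G.La) g1) (eqC_W4 G j o) p q)
    (W1 := Pt G (.y j G.La) g1) (W2 := eqC_W5 G j o) (fun k h ⟨_, _, h'⟩ => eqC_yc h h')
    (by
      rintro p q (⟨u, _, _, u'⟩ | ⟨⟨_, _, u'⟩, u⟩)
      · exact ⟨⟨trivial, fun v => v.elim (fun v => eqC_yb u v.1) fun v => eqC_yb u v.1⟩,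
          fun v => v.elim (fun ⟨_, _, _, v⟩ => eqC_cb u' v) fun v => eqC_yc v.2 u'⟩
      · exact ⟨⟨trivial, fun v => v.elim (fun v => eqC_yb u v.2) fun v => eqC_yb u v.2⟩,
          fun v => v.elim (fun v => eqC_yc v.1 u') fun ⟨⟨_, _, v⟩, _⟩ => eqC_cb u' v⟩)
  have J := junk_Jk (G := G) A G.eC ((Fam.c j).ctr G + G.off (j + 1) o) (G.rc (j + 1))
  have J0 := Jk_nonneg (G := G) α t
  replace J := J.trans (mul_le_mul_of_nonneg_right (norm_e_hi G (.c j)) J0)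
  rw [BR_eq_RP (act G (α t)), S1, S2, S3] at J
  have E1 := eqC_strain (G := G) A j o
  have E2 := eqC_seed (G := G) A j o
  have E3 := eqC_rest (G := G) A j o
  have N := eqC_num (t_big G) (zero_le_one.trans (lam_pos G (j + 1))) (tau0_nonneg G)
    (div_nonneg (tau0_nonneg G)
      (le_trans (pow_nonneg (le_trans (by positivity) (t_big G)) _) (m0_big G)))
    (nl_nonneg (G := G) α j t) (ny_nonneg (G := G) α j t) (lev_nonneg (G := G) (α := α) (t := t) (j + 1))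
    (add_nonneg (LowL_nonneg (G := G) α (j + 1) t) (LowY_nonneg (G := G) α (j + 1) t))
    (LowY_nonneg (G := G) α (j + 1) t) (LowL_nonneg (G := G) α (j + 1) t)
    (norm_nonneg ((rawOf G α).y j G.La t)) (zero_le_one.trans (N_pos G (j + 1))) (Nn_rc G (j + 1))
    (ET_nonneg (G := G) α (j + G.kk) t) J0
  generalize Tst G.eC _ _ (BR (α t) (α t)) = X0 at D J
  generalize Tst G.eC _ _ (SB _ (Pt G (.b (j + 1)) g1) _) = X1 at J E1
  generalize Tst G.eC _ _ (SB _ _ (eqC_W4 G j o)) = X2 at J E2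
  generalize Tst G.eC _ _ (SB _ _ (eqC_W5 G j o)) = X3 at J E2
  generalize Tst G.eC _ _ (RP _ _) = X4 at J E3
  generalize ((rawOf G α).kap G j : ℂ) • ((rawOf G α).A G j t * (rawOf G α).b (j + 1) o t) = Y1
    at E1 ⊢
  generalize (rawOf G α).f G j o t = Y2 at E2 ⊢
  have o0 : (G.om o : ℂ) ≠ 0 := by exact_mod_cast (zero_lt_one.trans_le o1).ne'
  refine ⟨(((G.om o)⁻¹ : ℝ) : ℂ) • X0 - Y1 - Y2, ?_, by convert D using 1; abel⟩
  have e : (((G.om o)⁻¹ : ℝ) : ℂ) • X0 - Y1 - Y2 = (((G.om o)⁻¹ : ℝ) : ℂ) •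
      ((X0 - (X1 + (X2 + (X3 + X4)))) + (X1 - (G.om o : ℂ) • Y1) + (X2 + X3 - (G.om o : ℂ) • Y2) +
        X4) := by
    have : (X0 - (X1 + (X2 + (X3 + X4)))) + (X1 - (G.om o : ℂ) • Y1) +
        (X2 + X3 - (G.om o : ℂ) • Y2) + X4 = X0 - (G.om o : ℂ) • Y1 - (G.om o : ℂ) • Y2 := by abel
    rw [this, smul_sub, smul_sub, ofReal_inv, inv_smul_smul₀ o0, inv_smul_smul₀ o0]
  rw [e, norm_smul, Complex.norm_real, Real.norm_of_nonneg (by positivity)]
  refine (mul_le_of_le_one_left (norm_nonneg _) (inv_le_one_of_one_le₀ o1)).trans ?_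
  refine le_trans ?_ N
  refine (norm_add_le _ _).trans (add_le_add (norm_add₃_le.trans ?_) E3)
  exact add_le_add_three J E1 E2

end

end Pool.Agent.Work.MP_6bf1e5_an.Ell.Pd
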