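import Pool.Agent.Work.MP_6bf1e5_an.Ell.Norms
import Pool.Agent.Work.MP_6bf1e5_an.Ell.Rows
import Pool.Agent.Work.MP_6bf1e5_an.Ell.YoungM
import Pool.Agent.Work.MP_6bf1e5_an.Ell.EqA
import Pool.Agent.Work.MP_6bf1e5_an.Ell.Layer
import Pool.Agent.Work.MP_6bf1e5_an.Ell.CoefB
import Pool.Agent.Work.MP_6bf1e5_an.Ell.EqBA

/-!
The equation of the rungs.
-/

open Set Complex
open scoped InnerProductSpace ComplexConjugate Classical
open Pool.Agent.Work.MP_6bf1e5_an.B
open Pool.Agent.Work.MP_6bf1e5_an.Dec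

namespace Pool.Agent.Work.MP_6bf1e5_an.Ell.Pd

noncomputable section

variable {G : Geo} {α : ℝ → Z3 → E3}

/-- The remaining interactions of a rung. -/
lemma eqy_rest {t : ℝ} (ha : Adm (α t)) (j i : ℕ) (hi : i < G.La) {P : Z3 → Z3 → Prop}
    (hP : ∀ p q, P p q → ¬(i = 0 ∧ UPair (Pt G (.b j) g1) (Pt G (.b j) (1, 1)) p q) ∧
      ¬(1 ≤ i ∧ UPair (Pt G (.b j) g1) (Pt G (.y j i) g1) p q)) :
    ‖Tst ((Fam.y j (i + 1)).e G) ((Fam.y j (i + 1)).ctr G + 0) ((Fam.y j (i + 1)).rad G)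
      (RP (act G (α t)) P)‖ ≤ 2 * (11 / 10 * (11 / 10 * G.lam (j + 1))) *
      (2000 * (rawOf G α).nl G j t * (2 * ‖(rawOf G α).y j (i + 2) t‖) +
        (2000 * (rawOf G α).nl G j t + 2000 * (rawOf G α).Low G (j + 1) t) *
          (100 * (rawOf G α).lev (j + 1) t) +
        2000 * (rawOf G α).Low G j t * (2 * ‖(rawOf G α).y j (i + 1) t‖) +
        3 * Nn (G.ry j) * (rawOf G α).ET (j + G.kk - 1) t) := by
  have hF : (Fam.y j (i + 1)).ok G := ⟨by omega, hi⟩
  have hx : (0 : Z3) ∈ (Fam.y j (i + 1)).cens G := by simp [Fam.cens]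
  have := rest_le (adm_act (G := G) ha) (ι := Fin 4)
    (W1 := ![Lev G j, Lev G j ∪ LowS G (j + 1), LowS G j, Tail G (j + G.kk - 1)])
    (W2 := ![if i + 2 ≤ G.La then Pt G (.y j (i + 2)) g1 else ∅, Lev G (j + 1),
      Pt G (.y j (i + 1)) g1, Tail G (j + G.kk - 1)])
    (K := ![2000 * (rawOf G α).nl G j t * (2 * ‖(rawOf G α).y j (i + 2) t‖),
        (2000 * (rawOf G α).nl G j t + 2000 * (rawOf G α).Low G (j + 1) t) *
          (100 * (rawOf G α).lev (j + 1) t),
        2000 * (rawOf G α).Low G j t * (2 * ‖(rawOf G α).y j (i + 1) t‖),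
        3 * Nn (G.ry j) * (rawOf G α).ET (j + G.kk - 1) t])
    (n := (Fam.y j (i + 1)).rad G) ?_ (P := P) (e := (Fam.y j (i + 1)).e G)
    (r0 := (Fam.y j (i + 1)).ctr G + 0) (c := 11 / 10 * (11 / 10 * G.lam (j + 1))) ?_ ?_
  · rwa [Fin.sum_univ_four] at this
  · intro l
    fin_cases l
    · refine Cv_l1 _ (nb_nonneg _ _) (nb_nonneg _ _) (L1_Lev ha j) ?_
      change L2 (nb _ (if i + 2 ≤ G.La then Pt G (.y j (i + 2)) g1 else ∅)) _
      split_ifs with h
      · rw [← env_y (by omega) h]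
        exact L2_Pt ha (F := .y j (i + 2)) ⟨by omega, h⟩ g1
      · refine ⟨by positivity, fun s => ?_⟩
        simp only [nb, indicator_empty]
        simp only [ne_eq, OfNat.ofNat_ne_zero, not_false_eq_true, zero_pow, Finset.sum_const_zero]
        positivity
    · exact Cv_l1 _ (nb_nonneg _ _) (nb_nonneg _ _) ((L1_Lev ha j).union (L1_LowS ha (j + 1)))
        (L2_Lev ha (j + 1))
    · refine Cv_l1 _ (nb_nonneg _ _) (nb_nonneg _ _) (L1_LowS ha j) ?_
      rw [← env_y (by omega) hi]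
      exact L2_Pt ha hF g1
    · exact Cv_tail ha _ _
  · intro h hh
    rw [add_assoc]
    exact mul_le_mul (norm_e_y G j (i + 1)) (ax_hi hF (eqb_mem hx hh))
      (by unfold ax; positivity) (by norm_num)
  · intro h hh p q hpq hp p0 q0
    obtain ⟨F1, g, f1, m1⟩ := exists_pt p0
    obtain ⟨F2, g', f2, m2⟩ := exists_pt q0
    rcases rows_y hi hh f1 f2 m1 m2 (by rw [hpq, add_zero]) with h1 | h1 | h1 | h1 | h1 | h1
    · exact absurd h1 (hP p q hp).1
    · exact absurd h1 (hP p q hp).2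
    · refine ⟨0, ?_⟩
      change UPair _ (if i + 2 ≤ G.La then Pt G (.y j (i + 2)) g1 else ∅) p q
      rw [if_pos h1.1]
      exact h1.2
    · exact ⟨1, h1⟩
    · exact ⟨2, h1⟩
    · exact ⟨3, h1⟩

theorem eqY (H : RSol G α) (j i : ℕ) (hi : i < G.La) {t : ℝ} (ht : 0 ≤ t) :
    ∃ r, ‖r‖ ≤ (rawOf G α).ey G j i t ∧ HD ((rawOf G α).y j (i + 1))
      ((((rawOf G α).cy (i + 1) * G.lam j : ℝ) : ℂ) •
          pj (G.ry j) ((rawOf G α).B G j t * (rawOf G α).y j i t)
        - (G.D j : ℂ) • (rawOf G α).y j (i + 1) t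
        - mulr ((rawOf G α).vy j (i + 1)) ((rawOf G α).y j (i + 1) t) + r) t := by
  have ha := H.adm t ht
  have hF : (Fam.y j (i + 1)).ok G := ⟨by omega, hi⟩
  have hx : (0 : Z3) ∈ (Fam.y j (i + 1)).cens G := by simp [Fam.cens]
  have l0 : 0 ≤ G.lam (j + 1) := zero_le_one.trans (lam_pos G _)
  have η0 : 0 ≤ G.lam (j + 1) * G.tau0 := mul_nonneg l0 (tau0_nonneg G)
  have ey : (rawOf G α).y j (i + 1) = fun t => tooth G (.y j (i + 1)) 0 1 (α t) := by
    funext s
    rw [← env_y (by omega) hi, env_eq_tooth]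
  have key : ∃ W1 W2 : Set Z3, (∀ k ∈ W1, k ∉ W2) ∧
      ‖Tst ((Fam.y j (i + 1)).e G) ((Fam.y j (i + 1)).ctr G + 0) ((Fam.y j (i + 1)).rad G)
        (SB (act G (α t)) W1 W2) - ((1 : ℝ) : ℂ) • ((((rawOf G α).cy (i + 1) * G.lam j : ℝ) : ℂ) •
          pj (G.ry j) ((rawOf G α).B G j t * (rawOf G α).y j i t))‖ ≤
        G.lam (j + 1) * G.tau0 * (l1 ((rawOf G α).B G j t) * ‖(rawOf G α).y j i t‖) ∧
      ∀ p q, ¬UPair W1 W2 p q → ¬(i = 0 ∧ UPair (Pt G (.b j) g1) (Pt G (.b j) (1, 1)) p q) ∧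
        ¬(1 ≤ i ∧ UPair (Pt G (.b j) g1) (Pt G (.y j i) g1) p q) := by
    rw [Complex.ofReal_one, one_smul]
    rcases Nat.eq_zero_or_pos i with rfl | i1
    · refine ⟨Pt G (.b j) g1, Pt G (.b j) (1, 1), fun k hk hk' => ?_, ?_,
        fun p q h => ⟨fun h' => h h'.2, fun h' => by omega⟩⟩
      · exact absurd (Pt_disjoint (F := .b j) (F' := .b j) trivial trivial hk hk').2 (by decide)
      · have h1 := (main_approx ha (F1 := .b j) (F2 := .b j) trivial trivial g1 (1, 1) (.y j 1) 0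
          (n := (Fam.y j 1).rad G) (c0 := G.cy 1 * G.lam j) η0
          fun h hh a ha b hb => cf_Y1 (eqb_mem hx hh) ha hb).1
        have e1 : gz g1 ((Fam.b j).ctr G) + gz (1, 1) ((Fam.b j).ctr G) -
            ((Fam.y j 1).ctr G + 0) = 0 := by
          have : gz (1, 1) ((Fam.b j).ctr G) = ![0, (G.P j : ℤ), 0] := by
            ext l
            fin_cases l <;> simp [gz, Fam.ctr]
          rw [gz_g1, this]
          ext l
          fin_cases l <;> simp [Fam.ctr]
        rw [e1, eqb_sh0, tr_g1, tr_tau, env_b] at h1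
        rw [y_zero, Raw.A, norm_tau]
        exact h1
    · refine ⟨Pt G (.b j) g1, Pt G (.y j i) g1, fun k hk hk' => ?_, ?_,
        fun p q h => ⟨fun h' => by omega, fun h' => h h'.2⟩⟩
      · cases (Pt_disjoint (F := .b j) (F' := .y j i) trivial ⟨i1, hi.le⟩ hk hk').1
      · have h1 := (main_approx ha (F1 := .b j) (F2 := .y j i) trivial ⟨i1, hi.le⟩ g1 g1
          (.y j (i + 1)) 0 (n := (Fam.y j (i + 1)).rad G) (c0 := G.cy (i + 1) * G.lam j) η0
          fun h hh a ha b hb => cf_Y i1 hi (eqb_mem hx hh) ha hb).1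
        have e1 : gz g1 ((Fam.b j).ctr G) + gz g1 ((Fam.y j i).ctr G) -
            ((Fam.y j (i + 1)).ctr G + 0) = 0 := by
          rw [gz_g1, gz_g1]
          ext l
          fin_cases l <;> simp [Fam.ctr]
          ring
        rw [e1, eqb_sh0, tr_g1, tr_g1, env_b, env_y i1 hi.le] at h1
        exact h1
  obtain ⟨W1, W2, hd, h1, hW⟩ := key
  have h2 := eqy_rest (G := G) ha j i hi (P := fun p q => True ∧ ¬UPair W1 W2 p q)
    fun p q hp => hW p q hp.2
  obtain ⟨r, r1, r2⟩ := eqb_main H hF hx le_rfl ht hd h1 h2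
  refine ⟨r, r1.trans ?_, ?_⟩
  · have b1 := norm_e_y G j (i + 1)
    have b2 := l1_B_le (G := G) (α := α) (t := t) j
    have b3 := nl_nonneg (G := G) α j t
    have b4 := Jk_nonneg (G := G) α t
    have b5 := lev_nonneg (G := G) (α := α) (t := t) (j + 1)
    have b6 : 0 ≤ (rawOf G α).Low G j t := add_nonneg (LowL_nonneg α j t) (LowY_nonneg α j t)
    have b7 : 0 ≤ (rawOf G α).Low G (j + 1) t :=
      add_nonneg (LowL_nonneg α _ t) (LowY_nonneg α _ t)
    have b8 := ET_nonneg (G := G) α (j + G.kk - 1) t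
    have b9 := Nn_ry G j
    have b10 := (Nn_pos (G.ry j)).le
    have b11 := tau0_nonneg G
    have c1 : G.lam (j + 1) * G.tau0 * (l1 ((rawOf G α).B G j t) * ‖(rawOf G α).y j i t‖) ≤
        G.lam (j + 1) * G.tau0 * (54 * (rawOf G α).nl G j t * ‖(rawOf G α).y j i t‖) := by gcongr
    have c2 : ‖(Fam.y j (i + 1)).e G‖ * (rawOf G α).Jk t ≤ 11 / 10 * (rawOf G α).Jk t := by gcongr
    have c3 : G.lam (j + 1) * (Nn (G.ry j) * (rawOf G α).ET (j + G.kk - 1) t) ≤
        G.lam (j + 1) * (G.t ^ 40 * G.N j * (rawOf G α).ET (j + G.kk - 1) t) := by gcongr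
    have y0 := norm_nonneg ((rawOf G α).y j i t)
    have y1 := norm_nonneg ((rawOf G α).y j (i + 1) t)
    have y2 := norm_nonneg ((rawOf G α).y j (i + 2) t)
    rw [Raw.ey]
    generalize ‖(rawOf G α).y j i t‖ = z0 at *
    generalize ‖(rawOf G α).y j (i + 1) t‖ = z1 at *
    generalize ‖(rawOf G α).y j (i + 2) t‖ = z2 at *
    generalize (rawOf G α).nl G j t = nl at *
    generalize (rawOf G α).lev (j + 1) t = lv at *
    generalize (rawOf G α).Low G j t = Lo at *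
    generalize (rawOf G α).Low G (j + 1) t = Lo' at *
    generalize (rawOf G α).ET (j + G.kk - 1) t = et at *
    generalize G.t ^ 40 * G.N j = N at *
    generalize Nn (G.ry j) = N' at *
    generalize G.lam (j + 1) = lam at *
    generalize G.tau0 = τ at *
    have a1 : 0 ≤ lam * (τ * nl * z0) := by positivity
    have a2 : 0 ≤ lam * (nl * z2) := by positivity
    have a3 : 0 ≤ lam * (nl * lv) := by positivity
    have a4 : 0 ≤ lam * (Lo' * z2) := by positivity
    have a5 : 0 ≤ lam * (Lo' * lv) := by positivity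
    have a6 : 0 ≤ lam * (Lo * z1) := by positivity
    have a7 : 0 ≤ lam * (N' * et) := by positivity
    linarith
  · rw [ey]
    exact r2

end

end Pool.Agent.Work.MP_6bf1e5_an.Ell.Pd
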