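import Pool.Agent.Work.MP_6bf1e5_an.Ell.GapB

/-!
Comparison of the ground states of two boxes and the lower bound of the comparison form.
-/

open Set Complex
open scoped InnerProductSpace ComplexConjugate
open Pool.Agent.Work.MP_6bf1e5_an.B (Z3 R3)
open Pool.Agent.Work.MP_6bf1e5_an.Dec

namespace Pool.Agent.Work.MP_6bf1e5_an.Ell.Gp

noncomputable section

attribute [local irreducible] Hm

lemma norm_pj_ph_sub {n K : N3} {δ : ℝ} (h0 : 0 < δ) (h1 : δ ≤ 1 / 4)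
    (hK : ∀ i, (K i : ℝ) ≤ 2 * δ * (n i + 1)) : ‖pj n (ph (n + K)) - ph n‖ ≤ 48 * δ := by
  have hN := Nn_pos n
  have hN' := Nn_pos (n + K)
  have a1 : Nn n ≤ Nn (n + K) := by
    rw [Nn, Nn]
    gcongr with i
    exact le_add_n n K i
  have a2 : Nn (n + K) ≤ Nn n * (1 + 4 * δ) := by
    refine (pow_le_pow_iff_left₀ hN'.le (by positivity) two_ne_zero).mp ?_
    rw [mul_pow, Nn_sq, Nn_sq]
    calc ∏ i, ((((n + K) i : ℕ) : ℝ) + 1) ≤ ∏ i, (((n i : ℝ) + 1) * (1 + 2 * δ)) := by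
          gcongr with i
          simp only [Pi.add_apply]
          push_cast
          linarith [hK i]
      _ = (∏ i, ((n i : ℝ) + 1)) * (1 + 2 * δ) ^ 3 := by rw [Finset.prod_mul_distrib]; simp
      _ ≤ _ := by gcongr ?_ * ?_; nlinarith [sq_nonneg δ]
  have a3 : |(Nn (n + K))⁻¹ - (Nn n)⁻¹| ≤ (Nn n)⁻¹ * (4 * δ) := by
    have b1 : (Nn (n + K))⁻¹ ≤ (Nn n)⁻¹ := inv_anti₀ hN a1
    have b2 : (Nn n)⁻¹ ≤ (Nn (n + K))⁻¹ * (1 + 4 * δ) := by
      rw [← div_eq_inv_mul, inv_eq_one_div, div_le_div_iff₀ hN hN']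
      linarith
    rw [abs_sub_comm, abs_of_nonneg (by linarith)]
    nlinarith
  have := ((sp_pj n (ph (n + K))).sub (sp_ph n)).norm_le (c := (Nn n)⁻¹ * (16 * δ))
    (by positivity) fun h => by
      by_cases hh : h ∈ bx n
      · have e : (pj n (ph (n + K)) - ph n).coeff h =
            (((Nn (n + K))⁻¹ * ∏ i, Real.cos (th ((n + K) i) * h i) -
              (Nn n)⁻¹ * ∏ i, Real.cos (th (n i) * h i) : ℝ) : ℂ) := by
          simp only [AddMonoidAlgebra.coeff_sub, Finsupp.coe_sub, Pi.sub_apply, coeff_pj,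
            coeff_ph, if_pos hh, if_pos (bx_mono (le_add_n n K) hh), Complex.ofReal_sub]
        have c1 := abs_prod_sub_le (a := fun i => Real.cos (th ((n + K) i) * h i))
          (b := fun i => Real.cos (th (n i) * h i)) (c := 4 * δ) (fun _ => Real.abs_cos_le_one _)
          (fun _ => Real.abs_cos_le_one _) fun i => by
            refine (Real.abs_cos_sub_cos_le _ _).trans ?_
            have d1 : |(h i : ℝ)| ≤ n i := by exact_mod_cast mem_bx.mp hh i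
            rw [← sub_mul, abs_mul, abs_sub_comm, Pi.add_apply,
              abs_of_nonneg (sub_nonneg.mpr (th_add_le (n i) (K i)))]
            calc (th (n i) - th (n i + K i)) * |(h i : ℝ)| ≤ 2 * δ * th (n i) * (n i + 1) := by
                  have := th_pos (n i)
                  gcongr
                  · exact th_sub_le (hK i)
                  · linarith
              _ = δ * Real.pi := by rw [mul_assoc, th_mul]; ring
              _ ≤ _ := by nlinarith [Real.pi_le_four]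
        have c2 : |∏ i, Real.cos (th ((n + K) i) * h i)| ≤ 1 := by
          rw [Finset.abs_prod]
          exact Finset.prod_le_one (fun _ _ => abs_nonneg _) fun _ _ => Real.abs_cos_le_one _
        rw [e, Complex.norm_real, Real.norm_eq_abs, show
          (Nn (n + K))⁻¹ * ∏ i, Real.cos (th ((n + K) i) * h i) -
            (Nn n)⁻¹ * ∏ i, Real.cos (th (n i) * h i) =
          ((Nn (n + K))⁻¹ - (Nn n)⁻¹) * ∏ i, Real.cos (th ((n + K) i) * h i) + (Nn n)⁻¹ *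
            (∏ i, Real.cos (th ((n + K) i) * h i) - ∏ i, Real.cos (th (n i) * h i)) by ring]
        refine (abs_add_le _ _).trans ?_
        rw [abs_mul, abs_mul, abs_of_pos (inv_pos.mpr hN)]
        calc _ ≤ (Nn n)⁻¹ * (4 * δ) * 1 + (Nn n)⁻¹ * (3 * (4 * δ)) := by gcongr
          _ = _ := by ring
      · rw [(sp_pj n (ph (n + K))).sub (sp_ph n) h hh, norm_zero]
        positivity
  refine this.trans (le_of_eq ?_)
  field_simp
  ring

lemma inner_ph_sq_le {n m : N3} {y : V} (hy : Sp n y) {ε : ℝ} (hε : ‖pj n (ph m) - ph n‖ ≤ ε) :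
    ‖⟪ph m, y⟫_ℂ‖ ^ 2 ≤ ‖⟪ph n, y⟫_ℂ‖ ^ 2 + 2 * ε * ‖y‖ ^ 2 := by
  have h1 : ⟪ph m, y⟫_ℂ = ⟪ph n, y⟫_ℂ + ⟪pj n (ph m) - ph n, y⟫_ℂ := by
    rw [inner_sub_left, inner_pj_left, hy.pj_eq]; ring
  have h2 : ‖⟪ph m, y⟫_ℂ‖ ≤ ‖⟪ph n, y⟫_ℂ‖ + ε * ‖y‖ := by
    rw [h1]
    refine (norm_add_le _ _).trans ?_
    gcongr
    exact (norm_inner_le_norm _ _).trans (by gcongr)
  have h3 : ∀ k, ‖⟪ph k, y⟫_ℂ‖ ≤ ‖y‖ := fun k => by
    simpa [norm_ph] using norm_inner_le_norm (𝕜 := ℂ) (ph k) y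
  have h4 : 0 ≤ ε * ‖y‖ := mul_nonneg ((norm_nonneg _).trans hε) (norm_nonneg _)
  nlinarith [h3 n, h3 m, norm_nonneg ⟪ph n, y⟫_ℂ, norm_nonneg ⟪ph m, y⟫_ℂ]

lemma lower_form {m K : N3} {y : V} (hy : Sp m y) {c lam : Fin 3 → ℝ} {g : ℝ} (hK : ∀ i, 2 ≤ K i)
    (h1 : ∀ i, K i * th (m i) ≤ 1 / 100) (hl : ∀ i, lam i ≤ psi (K i) (th (m i)))
    (hl' : ∀ i, lam i ≤ th (m i) ^ 2) (hc : ∀ i, 0 ≤ c i)
    (hg : ∀ i, g ≤ 5 / 2 * th (m i) ^ 2 * c i) :
    (∑ i, lam i * c i) * ‖y‖ ^ 2 + g * (‖y‖ ^ 2 - ‖⟪ph m, y⟫_ℂ‖ ^ 2) ≤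
      ∑ l ∈ idx m, (∑ i, c i * psi (K i) (th (m i) * (l i + 1))) * ‖⟪sv m l, y⟫_ℂ‖ ^ 2 := by
  have h0 : (0 : Fin 3 → ℕ) ∈ idx m := by simp [idx]
  have hlo : ∀ i (l : ℕ), l < 2 * m i + 1 → lam i ≤ psi (K i) (th (m i) * (l + 1)) :=
    fun i l hl2 => by
      rcases Nat.eq_zero_or_pos l with rfl | h
      · simpa using hl i
      · linarith [le_psi_high (hK i) (h1 i) h hl2, sq_nonneg (th (m i)), hl' i]
  have e : ‖⟪ph m, y⟫_ℂ‖ ^ 2 = ∑ l ∈ idx m, if l = 0 then ‖⟪sv m l, y⟫_ℂ‖ ^ 2 else 0 := by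
    rw [Finset.sum_ite_eq', if_pos h0, sv_zero]
  rw [e, normsq_eq_sum_sv hy, ← Finset.sum_sub_distrib, Finset.mul_sum, Finset.mul_sum,
    ← Finset.sum_add_distrib]
  refine Finset.sum_le_sum fun l hl2 => ?_
  have hli : ∀ i, l i < 2 * m i + 1 := fun i =>
    Finset.mem_range.mp (Fintype.mem_piFinset.mp hl2 i)
  have hb : ∀ i, lam i * c i ≤ c i * psi (K i) (th (m i) * (l i + 1)) := fun i => by
    rw [mul_comm]; exact mul_le_mul_of_nonneg_left (hlo i _ (hli i)) (hc i)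
  split_ifs with h
  · rw [sub_self, mul_zero, add_zero]
    exact mul_le_mul_of_nonneg_right (Finset.sum_le_sum fun i _ => hb i) (sq_nonneg _)
  · rw [sub_zero, ← add_mul]
    refine mul_le_mul_of_nonneg_right ?_ (sq_nonneg _)
    obtain ⟨i, hi⟩ := Function.ne_iff.mp h
    have b1 := le_psi_high (hK i) (h1 i) (Nat.pos_of_ne_zero hi) (hli i)
    have b2 : lam i * c i + g ≤ c i * psi (K i) (th (m i) * (l i + 1)) := by
      linarith [hg i, mul_le_mul_of_nonneg_left b1 (hc i),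
        mul_le_mul_of_nonneg_left (hl' i) (hc i)]
    rw [← Finset.add_sum_erase _ _ (Finset.mem_univ i),
      ← Finset.add_sum_erase _ _ (Finset.mem_univ i)]
    linarith [Finset.sum_le_sum fun j (_ : j ∈ Finset.univ.erase i) => hb j]

/-- The spectral gap, with the small parameters isolated. -/
theorem gap_aux {T κ : ℝ} {r n K : N3} {mv : Fin 3 → ℝ} {p : V} (hp : Drv T r mv κ p)
    (hr : ∀ i, 1 ≤ r i) (hT : (10 : ℝ) ^ 100 ≤ T) {e δ ρ : ℝ} (he : e ≤ 1 / 10 ^ 30)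
    (hκ : κ ≤ 10 ^ 5 * e) (hTe : (T ^ 8)⁻¹ ≤ e) (d0 : 0 < δ) (d1 : δ ≤ e) (r0 : 0 < ρ)
    (r1 : ρ ≤ e) (hρ : ∀ i, r i * th (n i) = ρ) (k1 : ∀ i, 10 ^ 7 * T ^ 8 * r i ≤ K i)
    (k2 : ∀ i, (K i : ℝ) ≤ 2 * δ * (n i + 1)) : Gap n (ρ ^ 2) (10 ^ 25 * e) p := by
  have T1 : (1 : ℝ) ≤ T := le_trans (by norm_num) hT
  have T8 : (1 : ℝ) ≤ T ^ 8 := one_le_pow₀ T1
  have ha : ∀ i, (1 : ℝ) ≤ r i := fun i => by exact_mod_cast hr i
  have hK2 : ∀ i, 2 ≤ K i := fun i => by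
    have : (2 : ℝ) ≤ K i := le_trans (by linarith [one_le_mul_of_one_le_of_one_le T8 (ha i)]) (k1 i)
    exact_mod_cast this
  have e0 : 0 < e := d0.trans_le d1
  have ht := fun i => th_pos (n i)
  have ht' := fun i => th_pos ((n + K) i)
  have t1 : ∀ i, th ((n + K) i) ≤ th (n i) := fun i => th_add_le _ _
  have t2 : ∀ i, th (n i) - th ((n + K) i) ≤ 2 * δ * th (n i) := fun i => th_sub_le (k2 i)
  have t3 : ∀ i, K i * th ((n + K) i) ≤ 4 * δ := fun i =>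
    calc K i * th ((n + K) i) ≤ 2 * δ * (n i + 1) * th (n i) := by
          gcongr
          exacts [(ht' i).le, k2 i, t1 i]
      _ = δ * Real.pi := by linear_combination 2 * δ * th_mul (n i)
      _ ≤ _ := by linarith [mul_le_mul_of_nonneg_left Real.pi_le_four d0.le]
  have t5 : ∀ i, th ((n + K) i) ^ 2 ≤ th (n i) ^ 2 := fun i =>
    pow_le_pow_left₀ (ht' i).le (t1 i) 2
  have t6 : ∀ i, th (n i) ^ 2 * (1 - 4 * δ) ≤ th ((n + K) i) ^ 2 := fun i =>
    calc th (n i) ^ 2 * (1 - 4 * δ) ≤ (th (n i) * (1 - 2 * δ)) ^ 2 := by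
          linarith [sq_nonneg (th (n i) * δ)]
      _ ≤ _ := pow_le_pow_left₀ (mul_nonneg (ht i).le (by linarith)) (by linarith [t2 i]) 2
  have dd : δ ^ 2 ≤ δ / 10 := by
    linarith [mul_le_mul_of_nonneg_left (show δ ≤ 1 / 10 by linarith) d0.le]
  have m0 : 0 < ρ ^ 2 := by positivity
  have hlo := le_Hm hp hr hT (by linarith)
  have hH : ∀ i, 0 ≤ Hm r p i := fun i => le_trans (by positivity) (hlo i)
  have u1 : ∀ i, 9 / 10 ^ 11 * ρ ^ 2 ≤ Hm r p i * th (n i) ^ 2 := fun i => by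
    rw [← hρ i, mul_pow, ← mul_assoc]; gcongr; exact hlo i
  have u2 : ∀ i, Hm r p i * th (n i) ^ 2 ≤ 32 * ρ ^ 2 := fun i => by
    rw [← hρ i, mul_pow, ← mul_assoc]; gcongr; exact Hm_le hp i
  obtain ⟨S, hS⟩ : ∃ S, S = ∑ i, Hm r p i * th (n i) ^ 2 := ⟨_, rfl⟩
  have s1 : 27 / 10 ^ 11 * ρ ^ 2 ≤ S := by
    rw [hS, Fin.sum_univ_three]; linarith [u1 0, u1 1, u1 2]
  have s2 : S ≤ 96 * ρ ^ 2 := by rw [hS, Fin.sum_univ_three]; linarith [u2 0, u2 1, u2 2]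
  have e1 : 99 / 100 ≤ 1 - 2 * 10 ^ 15 * e := by linarith
  obtain ⟨Λ, hΛ⟩ : ∃ Λ : ℝ, Λ = ∑ i, th ((n + K) i) ^ 2 * (1 - 2 * δ ^ 2) *
    ((1 - 2 * 10 ^ 15 * e) * Hm r p i) := ⟨_, rfl⟩
  have l1 : Λ ≤ S := by
    rw [hΛ, hS]
    refine Finset.sum_le_sum fun i _ => ?_
    have := hH i
    calc _ ≤ th (n i) ^ 2 * 1 * (1 * Hm r p i) :=
          mul_le_mul (mul_le_mul (t5 i) (by linarith [sq_nonneg δ]) (by linarith) (sq_nonneg _))
            (mul_le_mul_of_nonneg_right (by linarith) this) (mul_nonneg (by linarith) this)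
            (by positivity)
      _ = _ := by ring
  have l2 : (1 - 3 * 10 ^ 15 * e) * S ≤ Λ := by
    rw [hΛ, hS, Finset.mul_sum]
    refine Finset.sum_le_sum fun i _ => ?_
    have := hH i
    have b1 : 1 - 3 * 10 ^ 15 * e ≤ (1 - 4 * δ) * (1 - δ) * (1 - 2 * 10 ^ 15 * e) := by
      have b2 : 1 - 5 * e ≤ (1 - 4 * δ) * (1 - δ) := by linarith [sq_nonneg δ]
      linarith [mul_le_mul_of_nonneg_right b2 (by linarith : 0 ≤ 1 - 2 * 10 ^ 15 * e),
        mul_pos e0 e0]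
    calc _ ≤ (1 - 4 * δ) * (1 - δ) * (1 - 2 * 10 ^ 15 * e) * (Hm r p i * th (n i) ^ 2) := by
          gcongr
      _ = th (n i) ^ 2 * (1 - 4 * δ) * (1 - δ) * ((1 - 2 * 10 ^ 15 * e) * Hm r p i) := by ring
      _ ≤ _ := by
          gcongr
          exacts [by linarith, t6 i, by linarith]
  have dm : δ * ρ ^ 2 ≤ e * ρ ^ 2 := by gcongr
  have em : e * ρ ^ 2 ≤ 1 / 10 ^ 30 * ρ ^ 2 := by gcongr
  have dm0 : 0 < δ * ρ ^ 2 := by positivity
  have ds : e * S ≤ e * (96 * ρ ^ 2) := by gcongr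
  refine ⟨Λ - 96 * δ * (1 / 10 ^ 10 * ρ ^ 2), by linarith, by linarith, ?_, fun y hy => ?_⟩
  · have q1 := Qf_ph_le hp (n := n) r0.le (by linarith) fun i => (hρ i).le
    have q2 : ρ ^ 3 ≤ e * ρ ^ 2 := by rw [pow_succ']; gcongr
    rw [← hS] at q1
    linarith
  · have q1 := le_Qf hp hr hT he hκ hTe k1 y
    rw [sum_sh_eq hy] at q1
    have q2 := lower_form (hy.mono (le_add_n n K))
      (c := fun i => (1 - 2 * 10 ^ 15 * e) * Hm r p i)
      (lam := fun i => th ((n + K) i) ^ 2 * (1 - 2 * δ ^ 2)) (g := 1 / 10 ^ 10 * ρ ^ 2) hK2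
      (fun i => by linarith [t3 i])
      (fun i => by
        refine le_trans ?_ (le_psi_small (by linarith [hK2 i]) (ht' i).le (by linarith [t3 i]))
        have : (K i * th ((n + K) i)) ^ 2 ≤ (4 * δ) ^ 2 :=
          pow_le_pow_left₀ (by have := ht' i; positivity) (t3 i) 2
        gcongr ?_ * ?_
        linarith [sq_nonneg δ])
      (fun i => by linarith [sq_nonneg (th ((n + K) i) * δ)])
      (fun i => mul_nonneg (by linarith) (hH i))
      fun i => by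
        have := hH i
        calc 1 / 10 ^ 10 * ρ ^ 2
            ≤ 5 / 2 * (th (n i) ^ 2 * (99 / 100)) * (99 / 100 * Hm r p i) := by
              linarith [u1 i]
          _ ≤ _ := by
              gcongr
              linarith [t6 i, mul_le_mul_of_nonneg_left (show 99 / 100 ≤ 1 - 4 * δ by linarith)
                (sq_nonneg (th (n i)))]
    rw [← hΛ] at q2
    have q3 := inner_ph_sq_le hy (norm_pj_ph_sub d0 (by linarith) k2)
    have q4 := mul_le_mul_of_nonneg_left q3 m0.le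
    refine le_trans ?_ (q2.trans q1)
    linarith

end

end Pool.Agent.Work.MP_6bf1e5_an.Ell.Gp
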