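import Pool.Agent.Work.MP_6bf1e5_an.Ell.Drv
import Pool.Agent.Work.MP_6bf1e5_an.Ell.GapC

/-!
The spectral gap.
-/

open Set Complex Filter Topology
open scoped InnerProductSpace ComplexConjugate
open Pool.Agent.Work.MP_6bf1e5_an.B (Z3 R3)
open Pool.Agent.Work.MP_6bf1e5_an.Dec

namespace Pool.Agent.Work.MP_6bf1e5_an.Ell

noncomputable section

theorem gap_of_drv {T κ : ℝ} {r n : N3} {mv : Fin 3 → ℝ} {p : V} (hp : Drv T r mv κ p)
    (hT : (10 : ℝ) ^ 100 ≤ T) (hκ : κ ≤ 10 ^ 5 / T ^ 4)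
    (hn : ∀ i, (n i : ℝ) + 1 = T ^ 17 * r i) : Gap n (mu T) (10 ^ 25 / T ^ 4) p := by
  have T1 : (1 : ℝ) ≤ T := le_trans (by norm_num) hT
  have T0 : (0 : ℝ) < T := by linarith
  have hr : ∀ i, 1 ≤ r i := fun i => by
    refine Nat.pos_of_ne_zero fun h => ?_
    have := hn i
    rw [h, Nat.cast_zero, mul_zero] at this
    exact absurd this (by positivity)
  have ha : ∀ i, (1 : ℝ) ≤ r i := fun i => by exact_mod_cast hr i
  have T8 : (1 : ℝ) ≤ T ^ 8 := one_le_pow₀ T1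
  have b1 : ∀ (c : ℝ) (k : ℕ), c ≤ 10 ^ 100 → c / T ^ (4 + (k + 1)) ≤ (T ^ 4)⁻¹ := fun c k hc => by
    rw [pow_add, div_le_iff₀ (by positivity), ← mul_assoc, inv_mul_cancel₀ (by positivity), one_mul]
    exact hc.trans (hT.trans (le_self_pow₀ T1 (by omega)))
  rw [div_eq_mul_inv] at hκ ⊢
  refine Gp.gap_aux hp hr hT (δ := 10 ^ 7 / T ^ 9) (K := fun i => ⌈10 ^ 7 * T ^ 8 * r i⌉₊) ?_ hκ
    (inv_anti₀ (by positivity) (pow_le_pow_right₀ T1 (by norm_num))) (by positivity)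
    (b1 _ 4 (by norm_num)) (by have := Real.pi_pos; positivity) ?_ (fun i => ?_)
    (fun i => Nat.le_ceil _) fun i => ?_
  · rw [inv_eq_one_div]
    gcongr
    exact le_trans (by norm_num) (hT.trans (le_self_pow₀ T1 (by norm_num)))
  · rw [← div_div]
    exact b1 _ 12 (by linarith [Real.pi_le_four])
  · have := ha i
    rw [th, hn i]
    field_simp
  · have h1 : (1 : ℝ) ≤ 10 ^ 7 * T ^ 8 * r i := by nlinarith [ha i]
    have h2 := Nat.ceil_lt_add_one (by linarith : (0 : ℝ) ≤ 10 ^ 7 * T ^ 8 * r i)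
    have h3 : 2 * (10 ^ 7 / T ^ 9) * (T ^ 17 * r i) = 2 * (10 ^ 7 * T ^ 8 * r i) := by field_simp
    rw [hn i, h3]
    linarith

end

end Pool.Agent.Work.MP_6bf1e5_an.Ell
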