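import Pool.Agent.Work.MP_6bf1e5_an.Ell.Box
import Pool.Agent.Work.MP_6bf1e5_an.Dec.Gap2

/-!
Second moments of the kernel `dag p * p`, the Taylor expansion of its symbol, and the symbol
inequality.
-/

open Set Complex
open scoped InnerProductSpace ComplexConjugate
open Pool.Agent.Work.MP_6bf1e5_an.B (Z3 R3)
open Pool.Agent.Work.MP_6bf1e5_an.Dec

namespace Pool.Agent.Work.MP_6bf1e5_an.Ell.Gp

noncomputable section

/-- The radii of the support of the kernel. -/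
def r4 (r : N3) : N3 := fun i => 4 * r i

/-- The second moments. -/
def Hm (r : N3) (p : V) (i : Fin 3) : ℝ :=
  ∑ k ∈ bx (r4 r), ((kq p).coeff k).re * ((k i : ℝ) ^ 2 / 2)

lemma abs_le_r4 {r : N3} {k : Z3} (hk : k ∈ bx (r4 r)) (i : Fin 3) : |(k i : ℝ)| ≤ 4 * r i := by
  have := mem_bx.mp hk i
  rw [r4] at this
  exact_mod_cast this

lemma sq_sum_le (r : N3) (x : R3) : (∑ i, r i * |x i|) ^ 2 ≤ 3 * sqr r x := by
  simp only [sqr, Fin.sum_univ_three, mul_pow]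
  rw [← sq_abs (x 0), ← sq_abs (x 1), ← sq_abs (x 2)]
  linarith [sq_nonneg (r 0 * |x 0| - r 1 * |x 1|), sq_nonneg (r 0 * |x 0| - r 2 * |x 2|),
    sq_nonneg (r 1 * |x 1| - r 2 * |x 2|)]

lemma re_sum_mom (r : N3) (p : V) (w : Fin 3 → ℝ) :
    (∑ k ∈ bx (r4 r), (kq p).coeff k * ((∑ i, w i * ((k i : ℝ) ^ 2 / 2) : ℝ) : ℂ)).re =
      ∑ i, Hm r p i * w i := by
  simp only [Hm, Finset.sum_mul]
  rw [Finset.sum_comm, Complex.re_sum]
  refine Finset.sum_congr rfl fun k _ => ?_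
  rw [Complex.re_mul_ofReal, Finset.mul_sum]
  exact Finset.sum_congr rfl fun i _ => by ring

variable {T κ : ℝ} {r : N3} {mv : Fin 3 → ℝ} {p : V} (hp : Drv T r mv κ p)

include hp

lemma kq_supp : Sp (r4 r) (kq p) :=
  (hp.supp.dag.mul hp.supp).mono fun i => by simp only [r4, Pi.add_apply]; omega

lemma kq_l1 : l1 (kq p) ≤ 4 := by
  refine (l1_mul_le _ _).trans ?_
  rw [l1_dag]
  nlinarith [hp.l1_le, l1_nonneg p]

lemma kq_sum : ∑ k ∈ bx (r4 r), (kq p).coeff k = 1 := by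
  rw [← ev_zero_eq (kq_supp hp).subset, ev_kq, hp.one]; simp

lemma kq_rl : Rl (kq p) := hp.real.dag.mul hp.real

lemma abs_re_sum_le {g : Z3 → ℂ} {c : ℝ} (hc : 0 ≤ c) (hg : ∀ k ∈ bx (r4 r), ‖g k‖ ≤ c) :
    |(∑ k ∈ bx (r4 r), (kq p).coeff k * g k).re| ≤ 4 * c := by
  refine (Complex.abs_re_le_norm _).trans ((norm_sum_le _ _).trans ?_)
  calc ∑ k ∈ bx (r4 r), ‖(kq p).coeff k * g k‖
      ≤ ∑ k ∈ bx (r4 r), ‖(kq p).coeff k‖ * c := Finset.sum_le_sum fun k hk => by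
        rw [norm_mul]; gcongr; exact hg k hk
    _ = l1 (kq p) * c := by rw [← Finset.sum_mul, l1_eq (kq_supp hp).subset]
    _ ≤ 4 * c := by gcongr; exact kq_l1 hp

lemma Hm_le (i : Fin 3) : Hm r p i ≤ 32 * (r i : ℝ) ^ 2 := by
  have h1 := abs_re_sum_le hp (g := fun k => (((k i : ℝ) ^ 2 / 2 : ℝ) : ℂ))
    (c := 8 * (r i : ℝ) ^ 2) (by positivity) fun k hk => by
      rw [Complex.norm_real, Real.norm_of_nonneg (by positivity)]
      have h3 : (k i : ℝ) ^ 2 ≤ (4 * r i) ^ 2 := by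
        rw [← sq_abs]; gcongr; exact abs_le_r4 hk i
      linarith
  have h2 : (∑ k ∈ bx (r4 r), (kq p).coeff k * (((k i : ℝ) ^ 2 / 2 : ℝ) : ℂ)).re = Hm r p i := by
    rw [Complex.re_sum, Hm]
    exact Finset.sum_congr rfl fun k _ => Complex.re_mul_ofReal _ _
  rw [h2] at h1
  linarith [le_abs_self (Hm r p i)]

lemma mix_le {i j : Fin 3} (hij : i ≠ j) (x : R3) :
    |(∑ k ∈ bx (r4 r), (kq p).coeff k * ((k i : ℂ) * k j)).re * (x i * x j)| ≤
      κ * (|r i * x i| * |r j * x j|) := by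
  have h1 := hp.mix i j hij
  rw [show dag p * p = kq p from rfl, ev_zero_eq ((kq_supp hp).mulr _).subset] at h1
  have h2 : ∑ k ∈ bx (r4 r), (mulr (fun k => (k i : ℝ) * k j) (kq p)).coeff k =
      ∑ k ∈ bx (r4 r), (kq p).coeff k * ((k i : ℂ) * k j) :=
    Finset.sum_congr rfl fun k _ => by rw [coeff_mulr]; push_cast; ring
  rw [h2] at h1
  rw [abs_mul, abs_mul, abs_mul, abs_mul, Nat.abs_cast, Nat.abs_cast]
  calc _ ≤ κ * (r i * r j) * (|x i| * |x j|) := by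
        gcongr; exact (Complex.abs_re_le_norm _).trans h1
    _ = _ := by ring

lemma kap_nonneg (hr : ∀ i, 1 ≤ r i) : 0 ≤ κ := by
  have h1 := (norm_nonneg _).trans (hp.mix 0 1 (by decide))
  have h2 : (0 : ℝ) < r 0 := by exact_mod_cast hr 0
  have h3 : (0 : ℝ) < r 1 := by exact_mod_cast hr 1
  exact nonneg_of_mul_nonneg_left h1 (by positivity)

/-- Taylor expansion of the symbol. -/
theorem taylor (hκ : 0 ≤ κ) {x : R3} (hx : 4 * ∑ i, r i * |x i| ≤ 1) :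
    |1 - ‖ev x p‖ ^ 2 - ∑ i, Hm r p i * x i ^ 2| ≤
      κ * sqr r x + 64 * (∑ i, r i * |x i|) ^ 3 := by
  have hs : 0 ≤ ∑ i, r i * |x i| := Finset.sum_nonneg fun _ _ => by positivity
  have hu : ∀ k ∈ bx (r4 r), |pr k x| ≤ 4 * ∑ i, r i * |x i| := fun k hk => by
    refine (abs_pr_le3 hk x).trans (le_of_eq ?_)
    rw [Finset.mul_sum]
    exact Finset.sum_congr rfl fun i _ => by simp only [r4]; push_cast; ring
  have h1 := abs_re_sum_le hp
    (g := fun k => Complex.exp (I * pr k x) - (1 + I * pr k x - (pr k x : ℂ) ^ 2 / 2))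
    (c := 16 * (∑ i, r i * |x i|) ^ 3) (by positivity) fun k hk => by
      refine (exp_taylor ((hu k hk).trans hx)).trans ?_
      calc |pr k x| ^ 3 / 4 ≤ (4 * ∑ i, r i * |x i|) ^ 3 / 4 := by
            gcongr; exact hu k hk
        _ = _ := by ring
  have z1 : (∑ k ∈ bx (r4 r), (kq p).coeff k * (I * pr k x)).re = 0 := by
    rw [Complex.re_sum]
    exact Finset.sum_eq_zero fun k _ => by simp [kq_rl hp k]
  have key : ∑ k ∈ bx (r4 r), (kq p).coeff k *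
      (Complex.exp (I * pr k x) - (1 + I * pr k x - (pr k x : ℂ) ^ 2 / 2)) =
      ev x (kq p) - ∑ k ∈ bx (r4 r), (kq p).coeff k + ∑ k ∈ bx (r4 r), (kq p).coeff k *
        ((∑ i, x i ^ 2 * ((k i : ℝ) ^ 2 / 2) : ℝ) : ℂ) -
        ∑ k ∈ bx (r4 r), (kq p).coeff k * (I * pr k x) +
        (∑ k ∈ bx (r4 r), (kq p).coeff k * ((k 0 : ℂ) * k 1)) * ((x 0 * x 1 : ℝ) : ℂ) +
        (∑ k ∈ bx (r4 r), (kq p).coeff k * ((k 0 : ℂ) * k 2)) * ((x 0 * x 2 : ℝ) : ℂ) +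
        (∑ k ∈ bx (r4 r), (kq p).coeff k * ((k 1 : ℂ) * k 2)) * ((x 1 * x 2 : ℝ) : ℂ) := by
    rw [ev_eq x (kq_supp hp).subset]
    simp only [Finset.sum_mul, ← Finset.sum_sub_distrib, ← Finset.sum_add_distrib]
    refine Finset.sum_congr rfl fun k _ => ?_
    simp only [pr, Fin.sum_univ_three]
    push_cast
    ring
  rw [key, kq_sum hp] at h1
  simp only [Complex.add_re, Complex.sub_re, re_sum_mom, ev_kq, z1, Complex.re_mul_ofReal,
    Complex.ofReal_re, Complex.one_re] at h1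
  have m1 := abs_le.mp (mix_le hp (i := 0) (j := 1) (by decide) x)
  have m2 := abs_le.mp (mix_le hp (i := 0) (j := 2) (by decide) x)
  have m3 := abs_le.mp (mix_le hp (i := 1) (j := 2) (by decide) x)
  have m4 : |r 0 * x 0| * |r 1 * x 1| + |r 0 * x 0| * |r 2 * x 2| + |r 1 * x 1| * |r 2 * x 2| ≤
      sqr r x := by
    simp only [sqr, Fin.sum_univ_three]
    rw [← sq_abs (r 0 * x 0), ← sq_abs (r 1 * x 1), ← sq_abs (r 2 * x 2)]
    linarith [sq_nonneg (|r 0 * x 0| - |r 1 * x 1|), sq_nonneg (|r 0 * x 0| - |r 2 * x 2|),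
      sq_nonneg (|r 1 * x 1| - |r 2 * x 2|)]
  have m5 := mul_le_mul_of_nonneg_left m4 hκ
  have h2 := abs_le.mp h1
  rw [abs_le]
  constructor <;> linarith [h2.1, h2.2, m1.1, m1.2, m2.1, m2.2, m3.1, m3.2]

lemma le_Hm (hr : ∀ i, 1 ≤ r i) (hT : (10 : ℝ) ^ 100 ≤ T) (hκ : κ ≤ 1 / 10 ^ 20) (i : Fin 3) :
    9 / 10 ^ 11 * (r i : ℝ) ^ 2 ≤ Hm r p i := by
  have ha : (1 : ℝ) ≤ r i := by exact_mod_cast hr i
  obtain ⟨τ, hτ⟩ : ∃ τ : ℝ, τ = (T ^ 8)⁻¹ := ⟨_, rfl⟩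
  have T1 : (1 : ℝ) ≤ T := le_trans (by norm_num) hT
  have τ0 : 0 < τ := by rw [hτ]; positivity
  have τ1 : τ ≤ 1 / 10 ^ 20 := by
    rw [hτ, inv_eq_one_div]
    gcongr
    exact le_trans (by norm_num) (hT.trans (le_self_pow₀ T1 (by norm_num)))
  have τ2 : (T ^ 16)⁻¹ = τ ^ 2 := by rw [hτ, inv_pow, ← pow_mul]
  obtain ⟨t, ht⟩ : ∃ t : ℝ, t = τ / r i := ⟨_, rfl⟩
  have ht0 : 0 < t := by rw [ht]; positivity
  have hat : r i * t = τ := by rw [ht]; field_simp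
  have ht1 : t ≤ 1 := by nlinarith
  have hs : ∑ j, r j * |(Pi.single i t : R3) j| = τ := by
    rw [Finset.sum_eq_single i (fun j _ hj => by simp [hj]) (by simp)]
    simp [abs_of_pos ht0, hat]
  have hq : sqr r (Pi.single i t) = τ ^ 2 := by
    rw [sqr, Finset.sum_eq_single i (fun j _ hj => by simp [hj]) (by simp)]
    simp [hat]
  have hH : ∑ j, Hm r p j * (Pi.single i t : R3) j ^ 2 = Hm r p i * t ^ 2 := by
    rw [Finset.sum_eq_single i (fun j _ hj => by simp [hj]) (by simp)]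
    simp
  have hc : (Pi.single i t : R3) ∈ cube := by
    constructor <;> intro j <;> by_cases hj : j = i <;> simp [hj] <;>
      linarith [Real.pi_gt_three]
  have h1 := taylor hp (kap_nonneg hp hr) (x := Pi.single i t) (by rw [hs]; linarith)
  have h2 := hp.far _ hc
  rw [hq, τ2, min_self] at h2
  rw [hs, hq, hH] at h1
  have h3 : 9 / 10 ^ 11 * (r i * t) ^ 2 ≤ Hm r p i * t ^ 2 := by
    rw [hat]
    have a1 := (abs_le.mp h1).2
    have a2 : κ * τ ^ 2 ≤ 1 / 10 ^ 20 * τ ^ 2 := by gcongr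
    have a3 : τ ^ 3 ≤ 1 / 10 ^ 20 * τ ^ 2 := by rw [pow_succ']; gcongr
    linarith [sq_nonneg τ]
  rw [mul_pow, ← mul_assoc] at h3
  exact le_of_mul_le_mul_right h3 (by positivity)

/-- The symbol inequality. -/
theorem symbol (hr : ∀ i, 1 ≤ r i) (hT : (10 : ℝ) ^ 100 ≤ T) {e : ℝ} (he : e ≤ 1 / 10 ^ 30)
    (hκ : κ ≤ 10 ^ 5 * e) (hTe : (T ^ 8)⁻¹ ≤ e) {K : N3} (hK : ∀ i, 10 ^ 7 * T ^ 8 * r i ≤ K i)
    {x : R3} (hx : x ∈ cube) :
    (1 - 2 * 10 ^ 15 * e) * ∑ i, Hm r p i * psi (K i) (x i) ≤ 1 - ‖ev x p‖ ^ 2 := by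
  have T1 : (1 : ℝ) ≤ T := le_trans (by norm_num) hT
  have T8 : (1 : ℝ) ≤ T ^ 8 := one_le_pow₀ T1
  have ha : ∀ i, (1 : ℝ) ≤ r i := fun i => by exact_mod_cast hr i
  have hK1 : ∀ i, 1 ≤ K i := fun i => by
    have : (1 : ℝ) ≤ K i := le_trans (by nlinarith [ha i]) (hK i)
    exact_mod_cast this
  obtain ⟨τ, hτ⟩ : ∃ τ : ℝ, τ = (T ^ 8)⁻¹ := ⟨_, rfl⟩
  have τ0 : 0 < τ := by rw [hτ]; positivity
  have τ2 : (T ^ 16)⁻¹ = τ ^ 2 := by rw [hτ, inv_pow, ← pow_mul]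
  have τ3 : τ * T ^ 8 = 1 := by rw [hτ]; field_simp
  rw [← hτ] at hTe
  have e0 : 0 < e := τ0.trans_le hTe
  have hlo := le_Hm hp hr hT (by linarith)
  have hH : ∀ i, 0 ≤ Hm r p i := fun i => le_trans (by positivity) (hlo i)
  have hs : 0 ≤ ∑ i, r i * |x i| := Finset.sum_nonneg fun _ _ => by positivity
  have hs2 := sq_sum_le r x
  have hq : 0 ≤ sqr r x := Finset.sum_nonneg fun _ _ => sq_nonneg _
  by_cases hc : sqr r x ≤ τ ^ 2
  · have t0 : ∑ i, r i * |x i| ≤ 2 * τ :=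
      (pow_le_pow_iff_left₀ hs (by positivity) two_ne_zero).mp (by linarith)
    have t1 := (abs_le.mp (taylor hp (kap_nonneg hp hr) (x := x) (by linarith))).1
    have t2 : ∑ i, Hm r p i * psi (K i) (x i) ≤ ∑ i, Hm r p i * x i ^ 2 :=
      Finset.sum_le_sum fun i _ => mul_le_mul_of_nonneg_left (psi_le_sq (hK1 i) _) (hH i)
    have t3 : 9 / 10 ^ 11 * sqr r x ≤ ∑ i, Hm r p i * x i ^ 2 := by
      rw [sqr, Finset.mul_sum]
      refine Finset.sum_le_sum fun i _ => ?_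
      rw [mul_pow, ← mul_assoc]
      exact mul_le_mul_of_nonneg_right (hlo i) (sq_nonneg _)
    have t4 : (∑ i, r i * |x i|) ^ 3 ≤ 2 * e * (3 * sqr r x) := by
      rw [pow_succ']; gcongr; linarith
    have t5 : (1 - 2 * 10 ^ 15 * e) * ∑ i, Hm r p i * psi (K i) (x i) ≤
        (1 - 2 * 10 ^ 15 * e) * ∑ i, Hm r p i * x i ^ 2 :=
      mul_le_mul_of_nonneg_left t2 (by linarith)
    have t6 : κ * sqr r x ≤ 10 ^ 5 * e * sqr r x := by gcongr
    linarith [mul_le_mul_of_nonneg_left t3 e0.le, mul_nonneg e0.le hq]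
  · have t1 := hp.far x hx
    rw [τ2, min_eq_left (not_le.mp hc).le] at t1
    have t4 : ∀ i, Hm r p i * psi (K i) (x i) ≤ 1 / 10 ^ 11 * τ ^ 2 := fun i => by
      have b1 : (r i : ℝ) ≤ τ / 10 ^ 7 * K i := by
        calc (r i : ℝ) = τ / 10 ^ 7 * (10 ^ 7 * T ^ 8 * r i) := by
              linear_combination (-(r i : ℝ)) * τ3
          _ ≤ _ := by gcongr; exact hK i
      calc Hm r p i * psi (K i) (x i) ≤ 32 * (τ / 10 ^ 7 * K i) ^ 2 * psi (K i) (x i) :=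
            mul_le_mul_of_nonneg_right ((Hm_le hp i).trans (by gcongr)) (psi_nonneg (hK1 i) _)
        _ = 32 / 10 ^ 14 * τ ^ 2 * (psi (K i) (x i) * K i ^ 2) := by ring
        _ ≤ 32 / 10 ^ 14 * τ ^ 2 * 24 := by gcongr; exact psi_le (hK1 i) _
        _ ≤ _ := by linarith [sq_nonneg τ]
    have t5 : ∑ i, Hm r p i * psi (K i) (x i) ≤ 3 / 10 ^ 11 * τ ^ 2 := by
      rw [Fin.sum_univ_three]; linarith [t4 0, t4 1, t4 2]
    have t6 : 0 ≤ ∑ i, Hm r p i * psi (K i) (x i) :=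
      Finset.sum_nonneg fun i _ => mul_nonneg (hH i) (psi_nonneg (hK1 i) _)
    linarith [mul_nonneg e0.le t6, sq_nonneg τ]

theorem le_Qf (hr : ∀ i, 1 ≤ r i) (hT : (10 : ℝ) ^ 100 ≤ T) {e : ℝ} (he : e ≤ 1 / 10 ^ 30)
    (hκ : κ ≤ 10 ^ 5 * e) (hTe : (T ^ 8)⁻¹ ≤ e) {K : N3} (hK : ∀ i, 10 ^ 7 * T ^ 8 * r i ≤ K i)
    (y : V) :
    ∑ i, ∑ k ∈ Finset.range (K i + 1), (1 - 2 * 10 ^ 15 * e) * Hm r p i / (2 * Wk (K i)) *
      ‖(Dec.sh i k - 1) * y‖ ^ 2 ≤ Qf p y := by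
  have := normsq_le_of_symbol (Finset.univ.sigma fun i : Fin 3 => Finset.range (K i + 1))
    Finset.univ
    (fun ik : (_ : Fin 3) × ℕ => (Dec.sh ik.1 ik.2 - 1) * y) (fun b : Bool => if b then y else p * y)
    (fun ik => (1 - 2 * 10 ^ 15 * e) * Hm r p ik.1 / (2 * Wk (K ik.1)))
    (fun b => if b then 1 else -1) fun x hx => by
      have h2 := mul_le_mul_of_nonneg_right (symbol hp hr hT he hκ hTe hK hx) (sq_nonneg ‖ev x y‖)
      simp only [Fintype.sum_bool, if_true, Bool.false_eq_true, if_false, map_mul, norm_mul,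
        mul_pow, norm_ev_sh_sub, Finset.sum_sigma]
      refine le_trans (le_of_eq ?_) (h2.trans (le_of_eq (by ring)))
      simp only [psi, Finset.mul_sum, Finset.sum_mul, Finset.sum_div]
      refine Finset.sum_congr rfl fun i _ => Finset.sum_congr rfl fun k _ => ?_
      push_cast
      ring
  rw [Finset.sum_sigma] at this
  simpa [Qf, sub_eq_add_neg] using this

end

end Pool.Agent.Work.MP_6bf1e5_an.Ell.Gp
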