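import Pool.Agent.Work.MP_6bf1e5_an.Ell.GapA

/-!
The loss at the ground state, and the product sine basis of a box.
-/

open Set Complex
open scoped InnerProductSpace ComplexConjugate
open Pool.Agent.Work.MP_6bf1e5_an.B (Z3 R3)
open Pool.Agent.Work.MP_6bf1e5_an.Dec

namespace Pool.Agent.Work.MP_6bf1e5_an.Ell.Gp

noncomputable section

lemma Nn_inv_sq (n : N3) : (Nn n)⁻¹ * (Nn n)⁻¹ = ∏ i, ((n i : ℝ) + 1)⁻¹ := by
  rw [← mul_inv, ← sq, Nn_sq, Finset.prod_inv_distrib]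

lemma inner_ph_shift (n : N3) (k : Z3) :
    ⟪ph n, AddMonoidAlgebra.single k 1 * ph n⟫_ℂ = ((∏ i, c1 (n i) (k i) : ℝ) : ℂ) := by
  rw [inner_eq _ (sp_ph n).subset]
  simp only [c1]
  rw [Finset.prod_mul_distrib, Finset.prod_univ_sum, Finset.mul_sum, Complex.ofReal_sum]
  refine Finset.sum_congr rfl fun h (hh : h ∈ bx n) => ?_
  rw [coeff_single_mul, one_mul, coeff_ph, if_pos hh, coeff_ph, Complex.conj_ofReal]
  by_cases hk : h - k ∈ bx n
  · rw [if_pos hk]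
    have : ∀ i, |h i - k i| ≤ n i := mem_bx.mp hk
    simp only [this, if_true, Pi.sub_apply, Finset.prod_mul_distrib]
    rw [← Complex.ofReal_mul, ← Nn_inv_sq]
    congr 1
    ring
  · rw [if_neg hk, mul_zero]
    rw [mem_bx, not_forall] at hk
    obtain ⟨i, hi⟩ := hk
    have hi' : ¬|h i - k i| ≤ n i := hi
    symm
    rw [Complex.ofReal_eq_zero]
    exact mul_eq_zero_of_right _
      (Finset.prod_eq_zero (Finset.mem_univ i) (by rw [if_neg hi', mul_zero]))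

/-- The loss at the ground state. -/
theorem Qf_ph_le {T κ : ℝ} {r n : N3} {mv : Fin 3 → ℝ} {p : V} (hp : Drv T r mv κ p) {ρ : ℝ}
    (h0 : 0 ≤ ρ) (h1 : ρ ≤ 1 / 24) (hL : ∀ i, r i * th (n i) ≤ ρ) :
    Qf p (ph n) ≤ ∑ i, Hm r p i * th (n i) ^ 2 + 3328 * ρ ^ 3 := by
  have h1 := abs_re_sum_le hp
    (g := fun k => ((1 - ∏ i, c1 (n i) (k i) - ∑ i, th (n i) ^ 2 * ((k i : ℝ) ^ 2 / 2) : ℝ) : ℂ))
    (c := 13 * (4 * ρ) ^ 3) (by positivity) fun k hk => by
      rw [Complex.norm_real, Real.norm_eq_abs]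
      have hk' : ∀ i, th (n i) * |(k i : ℝ)| ≤ 4 * ρ := fun i => by
        nlinarith [abs_le_r4 hk i, hL i, th_pos (n i)]
      refine prod_taylor (by positivity) (by linarith) (fun i => ⟨by positivity, ?_⟩)
        fun i => abs_c1_taylor (by linarith) (hk' i)
      have : (th (n i) * |(k i : ℝ)|) ^ 2 ≤ (4 * ρ) ^ 2 :=
        pow_le_pow_left₀ (by have := th_pos (n i); positivity) (hk' i) 2
      rw [mul_pow, sq_abs] at this
      linarith
  have key : ∑ k ∈ bx (r4 r), (kq p).coeff k *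
      ((1 - ∏ i, c1 (n i) (k i) - ∑ i, th (n i) ^ 2 * ((k i : ℝ) ^ 2 / 2) : ℝ) : ℂ) =
      ∑ k ∈ bx (r4 r), (kq p).coeff k - ⟪ph n, kq p * ph n⟫_ℂ -
        ∑ k ∈ bx (r4 r), (kq p).coeff k *
          ((∑ i, th (n i) ^ 2 * ((k i : ℝ) ^ 2 / 2) : ℝ) : ℂ) := by
    rw [mul_eq_sum' (kq_supp hp).subset, inner_sum, ← Finset.sum_sub_distrib,
      ← Finset.sum_sub_distrib]
    refine Finset.sum_congr rfl fun k _ => ?_
    rw [inner_smul_right, inner_ph_shift]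
    push_cast; ring
  rw [key, kq_sum hp, Complex.sub_re, re_sum_mom r p fun i => th (n i) ^ 2, Complex.sub_re,
    Complex.one_re] at h1
  rw [Qf_eq, norm_ph]
  have := (abs_le.mp h1).2
  linarith

/-- The product sine vectors. -/
def sv (n : N3) (l : Fin 3 → ℕ) : V :=
  mk (bx n) fun h => (((Nn n)⁻¹ * ∏ i, s1 (n i) (l i) (h i) : ℝ) : ℂ)

/-- The index set of the sine basis. -/
def idx (n : N3) : Finset (Fin 3 → ℕ) := Fintype.piFinset fun i => Finset.range (2 * n i + 1)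

lemma sum_sv {n : N3} {h h' : Z3} (a : h ∈ bx n) (b : h' ∈ bx n) :
    ∑ l ∈ idx n, ((Nn n)⁻¹ * ∏ i, s1 (n i) (l i) (h i)) *
      ((Nn n)⁻¹ * ∏ i, s1 (n i) (l i) (h' i)) = if h = h' then 1 else 0 := by
  have e : ∀ l : Fin 3 → ℕ,
      ((Nn n)⁻¹ * ∏ i, s1 (n i) (l i) (h i)) * ((Nn n)⁻¹ * ∏ i, s1 (n i) (l i) (h' i)) =
      (∏ i, ((n i : ℝ) + 1)⁻¹) * ∏ i, s1 (n i) (l i) (h i) * s1 (n i) (l i) (h' i) := fun l => by
    rw [Finset.prod_mul_distrib, ← Nn_inv_sq]; ring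
  simp only [e]
  rw [← Finset.mul_sum, idx,
    ← Finset.prod_univ_sum (fun i => Finset.range (2 * n i + 1))
      fun i l => s1 (n i) l (h i) * s1 (n i) l (h' i)]
  simp only [fun i => sum_s1 (mem_bx.mp a i) (mem_bx.mp b i)]
  split_ifs with hh
  · subst hh
    simp only [if_true]
    rw [← Finset.prod_mul_distrib]
    exact Finset.prod_eq_one fun i _ => inv_mul_cancel₀ (by positivity)
  · obtain ⟨i, hi⟩ := Function.ne_iff.mp hh
    exact mul_eq_zero_of_right _ (Finset.prod_eq_zero (Finset.mem_univ i) (if_neg hi))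

lemma coeff_sv (n : N3) (l : Fin 3 → ℕ) (h : Z3) : (sv n l).coeff h =
    if h ∈ bx n then (((Nn n)⁻¹ * ∏ i, s1 (n i) (l i) (h i) : ℝ) : ℂ) else 0 := coeff_mk _ _ _

lemma eq_sum_sv {n : N3} {g : V} (hg : Sp n g) : g = ∑ l ∈ idx n, ⟪sv n l, g⟫_ℂ • sv n l := by
  ext h
  have : (∑ l ∈ idx n, ⟪sv n l, g⟫_ℂ • sv n l).coeff h =
      ∑ l ∈ idx n, ⟪sv n l, g⟫_ℂ * (sv n l).coeff h := by simp
  rw [this]
  by_cases hh : h ∈ bx n
  · simp only [inner_eq' _ hg.subset, Finset.sum_mul]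
    rw [Finset.sum_comm]
    have : ∀ h' ∈ bx n, ∑ l ∈ idx n, conj ((sv n l).coeff h') * g.coeff h' * (sv n l).coeff h =
        if h = h' then g.coeff h' else 0 := fun h' hh' => by
      have h1 := congrArg (fun r : ℝ => (r : ℂ) * g.coeff h') (sum_sv hh hh')
      simp only [Complex.ofReal_sum, Finset.sum_mul] at h1
      refine Eq.trans (Finset.sum_congr rfl fun l _ => ?_) (h1.trans (by split_ifs <;> simp))
      rw [coeff_sv, coeff_sv, if_pos hh, if_pos hh', Complex.conj_ofReal]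
      push_cast; ring
    rw [Finset.sum_congr rfl this, Finset.sum_ite_eq, if_pos hh]
  · simp [hg h hh, coeff_sv, hh]

lemma inner_eq_sum_sv {n : N3} (f : V) {g : V} (hg : Sp n g) :
    ⟪f, g⟫_ℂ = ∑ l ∈ idx n, ⟪sv n l, g⟫_ℂ * conj ⟪sv n l, f⟫_ℂ := by
  conv_lhs => rw [eq_sum_sv hg, inner_sum]
  exact Finset.sum_congr rfl fun l _ => by rw [inner_smul_right, inner_conj_symm]

lemma normsq_eq_sum_sv {n : N3} {g : V} (hg : Sp n g) :
    ‖g‖ ^ 2 = ∑ l ∈ idx n, ‖⟪sv n l, g⟫_ℂ‖ ^ 2 := by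
  rw [@norm_sq_eq_re_inner ℂ, inner_eq_sum_sv g hg, RCLike.re_to_complex, Complex.re_sum]
  exact Finset.sum_congr rfl fun l _ => by rw [Complex.mul_conj']; norm_cast

lemma single_mem_bx {K : N3} (i : Fin 3) {k : ℤ} (hk : |k| ≤ K i) : (Pi.single i k : Z3) ∈ bx K :=
  mem_bx.mpr fun j => by by_cases hj : j = i <;> simp [hj, hk]

lemma le_add_n (n K : N3) (i : Fin 3) : n i ≤ (n + K) i := Nat.le_add_right _ _

lemma inner_sv_sh {n K : N3} {y : V} (hy : Sp n y) (l : Fin 3 → ℕ) (i : Fin 3) {k : ℤ}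
    (hk : |k| ≤ K i) : ⟪sv (n + K) l, Dec.sh i k * y + Dec.sh i (-k) * y⟫_ℂ =
      ((2 * Real.cos (k * (th ((n + K) i) * (l i + 1))) : ℝ) : ℂ) * ⟪sv (n + K) l, y⟫_ℂ := by
  rw [inner_add_right, inner_mul_right, inner_mul_right, dag_sh, dag_sh, neg_neg,
    inner_eq' _ hy.subset, inner_eq' _ hy.subset, inner_eq' _ hy.subset, ← Finset.sum_add_distrib,
    Finset.mul_sum]
  refine Finset.sum_congr rfl fun h hh => ?_
  have m1 : h - Pi.single i (-k) ∈ bx (n + K) := by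
    rw [Pi.single_neg, sub_neg_eq_add]; exact add_mem_bx hh (single_mem_bx i hk)
  have m2 : h - Pi.single i k ∈ bx (n + K) := by
    rw [sub_eq_add_neg]; exact add_mem_bx hh (neg_mem_bx.mpr (single_mem_bx i hk))
  rw [Dec.sh, Dec.sh, coeff_single_mul, coeff_single_mul, one_mul, one_mul, coeff_sv, coeff_sv,
    coeff_sv, if_pos m1, if_pos m2, if_pos (bx_mono (le_add_n n K) hh), Complex.conj_ofReal,
    Complex.conj_ofReal, Complex.conj_ofReal, ← add_mul, ← mul_assoc, ← Complex.ofReal_add,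
    ← Complex.ofReal_mul]
  congr 2
  have e := s1_add ((n + K) i) (l i) (h i) k
  have p : ∀ k' : ℤ, ∏ j, s1 ((n + K) j) (l j) ((h - Pi.single i k' : Z3) j) =
      s1 ((n + K) i) (l i) (h i - k') *
        ∏ j ∈ Finset.univ.erase i, s1 ((n + K) j) (l j) (h j) := fun k' => by
    rw [← Finset.mul_prod_erase _ _ (Finset.mem_univ i)]
    congr 1
    · simp
    · exact Finset.prod_congr rfl fun j hj => by simp [Finset.ne_of_mem_erase hj]
  rw [p, p, sub_neg_eq_add, ← Finset.mul_prod_erase _ _ (Finset.mem_univ i)]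
  linear_combination ((Nn (n + K))⁻¹ * ∏ j ∈ Finset.univ.erase i, s1 ((n + K) j) (l j) (h j)) * e

lemma normsq_sh_sub {n K : N3} {y : V} (hy : Sp n y) (i : Fin 3) {k : ℤ} (hk : |k| ≤ K i) :
    ‖(Dec.sh i k - 1) * y‖ ^ 2 = ∑ l ∈ idx (n + K),
      2 * (1 - Real.cos (k * (th ((n + K) i) * (l i + 1)))) * ‖⟪sv (n + K) l, y⟫_ℂ‖ ^ 2 := by
  have s1 : ∀ k : ℤ, |k| ≤ K i → Sp (n + K) (Dec.sh i k * y) := fun k hk => by
    rw [add_comm]; exact (sp_sh (single_mem_bx i hk)).mul hy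
  have h1 := inner_eq_sum_sv y ((s1 k hk).add (s1 (-k) (by rwa [abs_neg])))
  simp only [inner_sv_sh hy _ i hk] at h1
  have h2 := congrArg Complex.re h1
  rw [inner_add_right, Complex.add_re, ← dag_sh, ← inner_mul_left, Complex.re_sum] at h2
  have h3 : (⟪y, Dec.sh i k * y⟫_ℂ).re = (⟪Dec.sh i k * y, y⟫_ℂ).re := by
    rw [← inner_conj_symm, Complex.conj_re]
  have h4 := normsq_eq_sum_sv (hy.mono (le_add_n n K))
  have h5 : ∀ l ∈ idx (n + K), (((2 * Real.cos (k * (th ((n + K) i) * (l i + 1))) : ℝ) : ℂ) *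
      ⟪sv (n + K) l, y⟫_ℂ * conj ⟪sv (n + K) l, y⟫_ℂ).re =
      2 * Real.cos (k * (th ((n + K) i) * (l i + 1))) * ‖⟪sv (n + K) l, y⟫_ℂ‖ ^ 2 := fun l _ => by
    rw [mul_assoc, Complex.mul_conj']; norm_cast
  rw [Finset.sum_congr rfl h5] at h2
  have h6 : ‖Dec.sh i k * y‖ = ‖y‖ := norm_single_mul _ _
  rw [sub_mul, one_mul, @norm_sub_sq ℂ, h6, RCLike.re_to_complex]
  simp only [mul_sub, sub_mul, Finset.sum_sub_distrib, mul_one, ← Finset.mul_sum]
  linarith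

lemma sum_sh_eq {n K : N3} {y : V} (hy : Sp n y) (c : Fin 3 → ℝ) :
    ∑ i, ∑ k ∈ Finset.range (K i + 1), c i / (2 * Wk (K i)) * ‖(Dec.sh i k - 1) * y‖ ^ 2 =
      ∑ l ∈ idx (n + K), (∑ i, c i * psi (K i) (th ((n + K) i) * (l i + 1))) *
        ‖⟪sv (n + K) l, y⟫_ℂ‖ ^ 2 := by
  simp only [Finset.sum_mul]
  rw [Finset.sum_comm (s := idx (n + K))]
  refine Finset.sum_congr rfl fun i _ => ?_
  simp only [psi, Finset.sum_div, Finset.mul_sum, Finset.sum_mul]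
  rw [Finset.sum_comm]
  refine Finset.sum_congr rfl fun k hk => ?_
  rw [normsq_sh_sub (K := K) hy i (by
    rw [Int.abs_natCast]; exact_mod_cast Nat.lt_succ_iff.mp (Finset.mem_range.mp hk)),
    Finset.mul_sum]
  refine Finset.sum_congr rfl fun l _ => ?_
  push_cast
  ring

lemma sv_zero (n : N3) : sv n 0 = ph n := by
  rw [sv, ph]
  congr 1
  funext h
  congr 2
  refine Finset.prod_congr rfl fun i _ => ?_
  rw [s1, ← Real.sin_add_pi_div_two, ← th_mul (n i)]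
  congr 1
  simp; ring

end

end Pool.Agent.Work.MP_6bf1e5_an.Ell.Gp
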