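import Pool.Agent.Work.MP_6bf1e5_an.Ell.LadderA

/-!
The ladder.
-/

open Set Complex Filter Topology
open scoped InnerProductSpace ComplexConjugate
open Pool.Agent.Work.MP_6bf1e5_an.B (Z3 R3)
open Pool.Agent.Work.MP_6bf1e5_an.Dec

namespace Pool.Agent.Work.MP_6bf1e5_an.Ell

noncomputable section

/-- A strongly damped ladder driven by `β • p`; `Y` are the slaved amplitudes, `X` is a slack. -/
structure Lad (T κ D N l t0 t1 : ℝ) (L : ℕ) (r n : N3) (mv : Fin 3 → ℝ) (p : ℝ → V)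
    (y : ℕ → ℝ → V) (β X : ℝ → ℝ) (cf : ℕ → ℝ) (Y : ℕ → ℝ → ℝ) (v : ℕ → Z3 → ℝ) : Prop where
  hT : (10 : ℝ) ^ 100 ≤ T
  hL : (L : ℝ) ≤ T ^ 21
  h0 : 0 ≤ t0
  D0 : 0 < D
  N0 : 0 < N
  Nn_le : Nn (fun i => n i + 2 * r i) ≤ T ^ 40 * N
  hl : l ≤ Real.exp (-T ^ 19) * D
  drv : ∀ t ∈ Icc t0 t1, Drv T r mv κ (p t)
  β0 : ∀ t ∈ Icc t0 t1, 0 < β t
  cf0 : ∀ i, 0 < cf i
  small : ∀ i, ∀ t ∈ Icc t0 t1, cf i * β t ≤ Real.exp (-T ^ 19) * D
  Y0 : ∀ t, Y 0 t = β t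
  Ys : ∀ i t, D * Y (i + 1) t = cf (i + 1) * β t * Y i t
  dY : ∀ i ≤ L, ∀ t ∈ Icc t0 t1, ∃ Y', HD (Y i) Y' t ∧ 0 ≤ Y' ∧
    Y' ≤ Real.exp (-T ^ 19) * D * Y i t
  dX : ∀ t ∈ Icc t0 t1, 0 < X t ∧ ∃ X', HD X X' t ∧ -(D / 10 * X t) ≤ X'
  y0 : ∀ t ∈ Icc t0 t1, y 0 t = (β t : ℂ) • tau (p t)
  ny0 : ∀ t ∈ Icc t0 t1, ‖p t‖ ≤ 2 / N
  sp : ∀ i t, Sp n (y (i + 1) t)
  lay : ∀ i, Lay n l (v i)
  init : ∀ i < L, ‖y (i + 1) t0‖ ≤ X t0 / N
  eq : ∀ i < L, ∀ t ∈ Icc t0 t1, ∃ e,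
    ‖e‖ ≤ Real.exp (-T ^ 19) * (D * Y (i + 1) t / N) + D / 10 * (X t / N) ∧
    HD (y (i + 1)) (((cf (i + 1) * β t : ℝ) : ℂ) • pj n (p t * y i t) - (D : ℂ) • y (i + 1) t
      - mulr (v (i + 1)) (y (i + 1) t) + e) t

namespace Lad

variable {T κ D N l t0 t1 : ℝ} {L : ℕ} {r n : N3} {mv : Fin 3 → ℝ} {p : ℝ → V}
  {y : ℕ → ℝ → V} {β X : ℝ → ℝ} {cf : ℕ → ℝ} {Y : ℕ → ℝ → ℝ} {v : ℕ → Z3 → ℝ}
  (H : Lad T κ D N l t0 t1 L r n mv p y β X cf Y v)

include H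

open LadA

lemma Ypos (i : ℕ) {t : ℝ} (ht : t ∈ Icc t0 t1) : 0 < Y i t := by
  induction i with
  | zero => rw [H.Y0]; exact H.β0 t ht
  | succ i ih =>
    have h : 0 < D * Y (i + 1) t := by
      rw [H.Ys]; exact mul_pos (mul_pos (H.cf0 _) (H.β0 t ht)) ih
    exact (mul_pos_iff_of_pos_left H.D0).1 h

lemma hY {i : ℕ} (hi : i ≤ L) : ∀ t ∈ Icc t0 t1, 0 ≤ Y i t ∧ ∃ Y', HD (Y i) Y' t ∧ 0 ≤ Y' :=
  fun t ht => ⟨(H.Ypos i ht).le, (H.dY i hi t ht).imp fun _ h => ⟨h.1, h.2.1⟩⟩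

lemma Y_le (i : ℕ) {t : ℝ} (ht : t ∈ Icc t0 t1) : Y i t ≤ β t := by
  induction i with
  | zero => rw [H.Y0]
  | succ i ih =>
    refine le_trans (le_of_mul_le_mul_left ?_ H.D0) ih
    rw [H.Ys]
    refine mul_le_mul_of_nonneg_right ((H.small _ t ht).trans ?_) (H.Ypos i ht).le
    have := mul_le_mul_of_nonneg_right (exp19 H.hT) H.D0.le
    have := H.D0
    linarith

lemma cast_le {i : ℕ} (hi : i ≤ L) : (i : ℝ) ≤ T ^ 21 := le_trans (by exact_mod_cast hi) H.hL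

omit H in
lemma sp_err {f : ℝ → V} {t : ℝ} {c d : ℂ} {g e : V} {w : Z3 → ℝ} (ht : 0 ≤ t)
    (hs : ∀ t, Sp n (f t)) (h : HD f (c • pj n g - d • f t - mulr w (f t) + e) t) : Sp n e := by
  have := (HD.sp h ht hs).sub
    ((((sp_pj n g).smul c).sub ((hs t).smul d)).sub ((hs t).mulr w))
  rwa [add_sub_cancel_left] at this

lemma wt_le' (a : Fin 3) {u : ℝ} (h1 : |u| * r a ≤ (T ^ 12)⁻¹)
    (h1' : |u| * rot3 r a ≤ (T ^ 12)⁻¹) (h3 : |u| * n a ≤ T ^ 10) {δ : ℝ} (δ0 : 0 ≤ δ)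
    (δ1 : δ ≤ 1) (hδ : |u| * mv a + 50 * (u * r a) ^ 2 ≤ δ) :
    ∀ i ≤ L, ∀ t ∈ Icc t0 t1, ‖wt (Pi.single a u) (y i t)‖ ≤
      4 * (1 + δ + Real.exp (T ^ 10) * Real.exp (-T ^ 19)) ^ i * N⁻¹ * Y i t +
        Real.exp (2 * T ^ 10) * N⁻¹ * X t := by
  have hT := H.hT
  have M0 : 0 < N⁻¹ := inv_pos.2 H.N0
  have E12 : Real.exp (T ^ 10) ≤ Real.exp (2 * T ^ 10) :=
    Real.exp_le_exp.2 (by have := pow_pos (T0 hT) 10; linarith)
  have wn : ∀ f : V, Sp n f → ‖wt (Pi.single a u) f‖ ≤ Real.exp (T ^ 10) * ‖f‖ := fun f hf =>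
    (hf.norm_wt_le _).trans (mul_le_mul_of_nonneg_right
      (Real.exp_le_exp.2 (by rw [sum_single, mul_comm]; exact h3)) (norm_nonneg _))
  intro i
  induction i with
  | zero =>
    intro _ t ht
    have b0 := H.β0 t ht
    have x0 := (H.dX t ht).1
    have e1 := ((H.drv t ht).tau.supp.norm_wt_le (Pi.single a u))
    rw [sum_single, norm_tau] at e1
    have e2 : Real.exp (((2 * rot3 r a : ℕ) : ℝ) * |u|) ≤ 2 := by
      have := inv12 hT
      have h2 : ((2 * rot3 r a : ℕ) : ℝ) * |u| ≤ 1 / 2 := by push_cast; linarith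
      rw [← Real.le_log_iff_exp_le (by norm_num)]
      have := Real.log_two_gt_d9
      linarith
    have e3 : ‖wt (Pi.single a u) (tau (p t))‖ ≤ 2 * (2 / N) :=
      e1.trans (mul_le_mul e2 (H.ny0 t ht) (norm_nonneg _) (by norm_num))
    rw [H.y0 t ht, map_smul, norm_smul, Complex.norm_real, Real.norm_of_nonneg b0.le, H.Y0]
    have e4 := mul_le_mul_of_nonneg_left e3 b0.le
    have e5 : 0 ≤ Real.exp (2 * T ^ 10) * N⁻¹ * X t := by positivity
    rw [div_eq_mul_inv] at e4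
    linarith
  | succ i ih =>
    intro hi
    have ih := ih (Nat.le_of_succ_le hi)
    have ω0 : 0 ≤ Real.exp (T ^ 10) * Real.exp (-T ^ 19) := by positivity
    have P1 : 1 ≤ (1 + δ + Real.exp (T ^ 10) * Real.exp (-T ^ 19)) ^ i :=
      one_le_pow₀ (by linarith)
    have B0 : 0 < Real.exp (2 * T ^ 10) * N⁻¹ := by positivity
    refine step (B := 1 / 5 * (Real.exp (2 * T ^ 10) * N⁻¹)) H.h0 H.D0 (by positivity) B0
      (by linarith) ?_ (H.hY hi) H.dX fun t ht => ?_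
    · refine (wn _ (H.sp i t0)).trans ?_
      have := H.init i hi
      rw [div_eq_mul_inv, mul_comm] at this
      rw [mul_assoc]
      exact mul_le_mul E12 this (norm_nonneg _) (Real.exp_pos _).le
    obtain ⟨e, he, hd⟩ := H.eq i hi t ht
    have t0' : 0 ≤ t := H.h0.trans ht.1
    have c0 : 0 < cf (i + 1) * β t := mul_pos (H.cf0 _) (H.β0 t ht)
    refine ⟨((cf (i + 1) * β t : ℝ) : ℂ) •
        pj n (wt (Pi.single a u) (p t) * wt (Pi.single a u) (y i t)) + wt (Pi.single a u) e,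
      mulr (v (i + 1)) (wt (Pi.single a u) (y (i + 1) t)), ?_, (H.lay _).re_inner _, ?_⟩
    · refine (HD.wt3 hd t0' (H.sp i) _).congr_deriv ?_
      rw [map_add, map_sub, map_sub, map_smul, map_smul, wt_pj, wt_mul, wt_mulr]
      abel
    have f1 : ‖pj n (wt (Pi.single a u) (p t) * wt (Pi.single a u) (y i t))‖ ≤
        (1 + δ) * ‖wt (Pi.single a u) (y i t)‖ :=
      (norm_pj_le _ _).trans (((H.drv t ht).norm_wt_mul_le a (h1.trans (inv12 hT)) _).trans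
        (mul_le_mul_of_nonneg_right (by linarith) (norm_nonneg _)))
    have f2 := f1.trans (mul_le_mul_of_nonneg_left (ih t ht) (by linarith))
    have f3 := (wn e (sp_err t0' (H.sp i) hd)).trans
      (mul_le_mul_of_nonneg_left he (Real.exp_pos _).le)
    refine (norm_add_le _ _).trans ?_
    rw [norm_smul, Complex.norm_real, Real.norm_of_nonneg c0.le, pow_succ _ i]
    rw [div_eq_mul_inv (D * _), div_eq_mul_inv (X t)] at f3
    exact (add_le_add (mul_le_mul_of_nonneg_left f2 c0.le) f3).trans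
      (wt_arith H.D0 M0 (H.Ys i t) (H.Ypos _ ht).le (H.dX t ht).1.le (H.small _ t ht)
        (Real.exp_pos _).le (exp19 hT) δ0 δ1 (Real.exp_pos _).le E12 P1)

omit H in
lemma del_spec (hT : (10 : ℝ) ^ 100 ≤ T) {q : V} (hq : Drv T r mv κ q) (a : Fin 3) {u : ℝ}
    (h1 : |u| * r a ≤ (T ^ 12)⁻¹) (h2 : T ^ 21 * (|u| * mv a) ≤ T / 10 ^ 21) :
    0 ≤ |u| * mv a + 50 * (u * r a) ^ 2 ∧
      T ^ 21 * (|u| * mv a + 50 * (u * r a) ^ 2) ≤ T / 10 ^ 21 + 1 := by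
  have m0 : 0 ≤ mv a := (abs_nonneg _).trans (hq.mom a 0)
  refine ⟨by positivity, ?_⟩
  have := del_le hT (by positivity) h1 h2
  rwa [mul_pow |u|, sq_abs, ← mul_pow] at this

/-- The weighted estimate. -/
theorem wt_le (a : Fin 3) {u : ℝ} (h1 : |u| * r a ≤ (T ^ 12)⁻¹) (h1' : |u| * rot3 r a ≤ (T ^ 12)⁻¹)
    (h2 : T ^ 21 * (|u| * mv a) ≤ T / 10 ^ 21) (h3 : |u| * n a ≤ T ^ 10) :
    ∀ i ≤ L, ∀ t ∈ Icc t0 t1, ‖wt (Pi.single a u) (y i t)‖ ≤
      (Real.exp (T / 10 ^ 20) * Y i t + Real.exp (2 * T ^ 10) * X t) / N := by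
  intro i hi t ht
  have hT := H.hT
  obtain ⟨δ0, hδ⟩ := del_spec hT (H.drv t ht) a h1 h2
  refine (H.wt_le' a h1 h1' h3 δ0 (del_one hT hδ) le_rfl i hi t ht).trans ?_
  have ω := om_le hT
  have e := pow_le hT (x := |u| * mv a + 50 * (u * r a) ^ 2 +
    Real.exp (T ^ 10) * Real.exp (-T ^ 19)) (by positivity) (H.cast_le hi) (by linarith)
  rw [← add_assoc] at e
  have := mul_le_mul_of_nonneg_right e (mul_pos (inv_pos.2 H.N0) (H.Ypos i ht)).le
  rw [div_eq_mul_inv]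
  linarith

/-- Weights which see the boundary of the box. -/
def Wts (T : ℝ) (r n : N3) (mv u : Fin 3 → ℝ) : Prop := ∀ a, 0 ≤ u a ∧ u a * r a ≤ (T ^ 12)⁻¹ ∧
  u a * rot3 r a ≤ (T ^ 12)⁻¹ ∧ T ^ 21 * (u a * mv a) ≤ T / 10 ^ 21 ∧ u a * n a ≤ T ^ 10 ∧
  T ^ 5 / 20000 ≤ u a * (n a + 1)

lemma sp_y {u : Fin 3 → ℝ} (hu : Wts T r n mv u) (i : ℕ) {t : ℝ} (ht : t ∈ Icc t0 t1) :
    Sp n (y i t) := by
  rcases i with _ | i
  · rw [H.y0 t ht]
    refine (((H.drv t ht).tau.supp).mono fun a => ?_).smul _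
    obtain ⟨u0, -, u2, -, -, u5⟩ := hu a
    by_contra hc
    have h1 : (n a : ℝ) + 1 ≤ 2 * rot3 r a := by exact_mod_cast Nat.succ_le_of_lt (not_le.1 hc)
    have h2 := mul_le_mul_of_nonneg_left h1 u0
    have h3 := inv12 H.hT
    have h4 := pw' H.hT (a := 0) (b := 5) (by norm_num)
    rw [pow_zero] at h4
    linarith
  · exact H.sp i t

lemma Nn_le' : Nn n ≤ T ^ 40 * N := by
  refine le_trans ?_ H.Nn_le
  have := Ell.Nn_le (m := n) (n := fun i => n i + 2 * r i) (c := 1) zero_le_one fun i => by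
    push_cast
    have : (0 : ℝ) ≤ r i := Nat.cast_nonneg _
    linarith
  simpa using this

lemma norm_le {i : ℕ} (hi : i ≤ L) {t : ℝ} (ht : t ∈ Icc t0 t1) :
    ‖y i t‖ ≤ (Real.exp (T / 10 ^ 20) * Y i t + Real.exp (2 * T ^ 10) * X t) / N := by
  have t0' := T0 H.hT
  have := H.wt_le 0 (u := 0) (by simp; positivity) (by simp; positivity)
    (by simp; positivity) (by simp; positivity) i hi t ht
  rwa [wt_single_zero] at this

lemma wt_mul_le {i : ℕ} (hi : i ≤ L) {t : ℝ} (ht : t ∈ Icc t0 t1) (a : Fin 3) {u : ℝ}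
    (h1 : |u| * r a ≤ (T ^ 12)⁻¹) (h1' : |u| * rot3 r a ≤ (T ^ 12)⁻¹)
    (h2 : T ^ 21 * (|u| * mv a) ≤ T / 10 ^ 21) (h3 : |u| * n a ≤ T ^ 10) :
    ‖wt (Pi.single a u) (p t * y i t)‖ ≤
      2 * ((Real.exp (T / 10 ^ 20) * Y i t + Real.exp (2 * T ^ 10) * X t) / N) := by
  have hT := H.hT
  obtain ⟨-, hδ⟩ := del_spec hT (H.drv t ht) a h1 h2
  have := del_one hT hδ
  rw [wt_mul]
  exact ((H.drv t ht).norm_wt_mul_le a (h1.trans (inv12 hT)) _).trans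
    (mul_le_mul (by linarith) (H.wt_le a h1 h1' h2 h3 i hi t ht) (norm_nonneg _) (by norm_num))

lemma tail_le {u : Fin 3 → ℝ} (hu : Wts T r n mv u) {i : ℕ} (hi : i ≤ L) {t : ℝ}
    (ht : t ∈ Icc t0 t1) : l1 (p t * y i t - pj n (p t * y i t)) ≤
      36 * T ^ 40 * Real.exp (-(T ^ 5 / 20000)) *
        (Real.exp (T / 10 ^ 20) * Y i t + Real.exp (2 * T ^ 10) * X t) := by
  have t0' := T0 H.hT
  have N0 := H.N0
  have y0 := H.Ypos i ht
  have x0 := (H.dX t ht).1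
  set W := Real.exp (T / 10 ^ 20) * Y i t + Real.exp (2 * T ^ 10) * X t with hW
  have W0 : 0 < W := by positivity
  have s1 : Sp (fun i => n i + 2 * r i) (p t * y i t - pj n (p t * y i t)) :=
    (((H.drv t ht).supp.mul (H.sp_y hu i ht)).mono fun a => by simp [add_comm]).sub
      ((sp_pj _ _).mono fun a => Nat.le_add_right _ _)
  have s2 : ‖p t * y i t - pj n (p t * y i t)‖ ≤
      ∑ _a : Fin 3, Real.exp (-(T ^ 5 / 20000)) * (2 * (W / N) + 2 * (W / N)) := by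
    refine (norm_tail_le n _ fun a => (hu a).1).trans (Finset.sum_le_sum fun a _ => ?_)
    obtain ⟨u0, u1, u2, u3, u4, u5⟩ := hu a
    have e1 : |u a| = u a := abs_of_nonneg u0
    have e2 : |-u a| = u a := by rw [abs_neg, e1]
    refine mul_le_mul (Real.exp_le_exp.2 (by linarith)) (add_le_add ?_ ?_) (by positivity)
      (Real.exp_pos _).le
    · exact H.wt_mul_le hi ht a (by rwa [e1]) (by rwa [e1]) (by rwa [e1]) (by rwa [e1])
    · exact H.wt_mul_le hi ht a (by rwa [e2]) (by rwa [e2]) (by rwa [e2]) (by rwa [e2])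
  rw [Finset.sum_const, Finset.card_univ, Fintype.card_fin, nsmul_eq_mul] at s2
  refine s1.l1_le.trans ((mul_le_mul (mul_le_mul_of_nonneg_left H.Nn_le (by norm_num)) s2
    (norm_nonneg _) (by positivity)).trans (le_of_eq ?_))
  push_cast
  field_simp
  ring

/-- The equation of the symbols. -/
lemma sym_eq {u : Fin 3 → ℝ} (hu : Wts T r n mv u) (x : R3) {i : ℕ} (hi : i < L) {t : ℝ}
    (ht : t ∈ Icc t0 t1) : ∃ g : ℂ,
      ‖g‖ ≤ D * (Real.exp (-(2 * T ^ 4)) * Y (i + 1) t + 1 / 2 * Real.exp (3 * T ^ 10) * X t) ∧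
      HD (fun t => ev x (y (i + 1) t))
        (((cf (i + 1) * β t : ℝ) : ℂ) * (ev x (p t) * ev x (y i t)) -
          (D : ℂ) * ev x (y (i + 1) t) + g) t := by
  have hT := H.hT
  have t0' := T0 hT
  have N0 := H.N0
  have D0 := H.D0
  have y1 := H.Ypos (i + 1) ht
  have x0 := (H.dX t ht).1
  obtain ⟨e, he, hd⟩ := H.eq i hi t ht
  have t0'' : 0 ≤ t := H.h0.trans ht.1
  have c0 : 0 < cf (i + 1) * β t := mul_pos (H.cf0 _) (H.β0 t ht)
  refine ⟨ev x e - ((cf (i + 1) * β t : ℝ) : ℂ) * ev x (p t * y i t - pj n (p t * y i t))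
    - ev x (mulr (v (i + 1)) (y (i + 1) t)), ?_, ?_⟩
  swap
  · refine (HD.ev3 hd t0'' (H.sp i) x).congr_deriv ?_
    simp only [map_add, map_sub, map_smul, map_mul, smul_eq_mul]
    ring
  have hc := H.small (i + 1) t ht
  have hY := H.Ys i t
  have g1 : ‖ev x e‖ ≤
      3 * T ^ 40 * (Real.exp (-T ^ 19) * (D * Y (i + 1) t) + D / 10 * X t) := by
    refine (norm_ev_le _ _).trans ((sp_err t0'' (H.sp i) hd).l1_le.trans
      ((mul_le_mul (mul_le_mul_of_nonneg_left H.Nn_le' (by norm_num)) he (norm_nonneg _)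
        (by positivity)).trans (le_of_eq ?_)))
    field_simp
  have g2 := mul_le_mul_of_nonneg_left ((norm_ev_le x _).trans (H.tail_le hu hi.le ht)) c0.le
  have g3 : ‖ev x (mulr (v (i + 1)) (y (i + 1) t))‖ ≤ Real.exp (-T ^ 19) * D * T ^ 40 *
      (Real.exp (T / 10 ^ 20) * Y (i + 1) t + Real.exp (2 * T ^ 10) * X t) := by
    refine (norm_ev_le _ _).trans (((H.lay (i + 1)).l1_le (H.sp i t)).trans
      ((mul_le_mul (mul_le_mul H.hl H.Nn_le' (Nn_pos _).le (by positivity)) (H.norm_le hi ht)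
        (norm_nonneg _) (by positivity)).trans (le_of_eq ?_)))
    field_simp
  refine (norm_sub_le _ _).trans ((add_le_add_left (norm_sub_le _ _) _).trans ?_)
  rw [norm_mul, Complex.norm_real, Real.norm_of_nonneg c0.le]
  have k1 := mul_le_mul_of_nonneg_right (eps_le hT) (mul_pos D0 y1).le
  have k2 := mul_le_mul_of_nonneg_right (big_le hT) (mul_pos D0 x0).le
  have e19 := exp19 hT
  have ea : Real.exp (-(T ^ 5 / 20000)) ≤ 1 := Real.exp_le_one_iff.2 (neg_nonpos.2 (by positivity))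
  have eb : 1 ≤ Real.exp (2 * T ^ 10) := Real.one_le_exp (by positivity)
  have cD : cf (i + 1) * β t ≤ D := by
    have := mul_le_mul_of_nonneg_right e19 D0.le
    linarith
  have := g_arith (E := Real.exp (T / 10 ^ 20)) D0 hY x0.le cD (pow_pos t0' 40).le
    (Real.exp_pos _).le ea e19 eb
  linarith

lemma init_ev {i : ℕ} (hi : i < L) (h01 : t0 ≤ t1) (x : R3) :
    ‖ev x (y (i + 1) t0)‖ ≤ 1 / 2 * Real.exp (3 * T ^ 10) * X t0 := by
  have t0' := T0 H.hT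
  have N0 := H.N0
  have x0 := (H.dX t0 ⟨le_rfl, h01⟩).1
  have e1 : ‖ev x (y (i + 1) t0)‖ ≤ 3 * T ^ 40 * X t0 := by
    refine (norm_ev_le _ _).trans ((H.sp i t0).l1_le.trans
      ((mul_le_mul (mul_le_mul_of_nonneg_left H.Nn_le' (by norm_num)) (H.init i hi)
        (norm_nonneg _) (by positivity)).trans (le_of_eq ?_)))
    field_simp
  refine e1.trans (mul_le_mul_of_nonneg_right (le_trans ?_ (big_le H.hT)) x0.le)
  have eb : 1 ≤ Real.exp (2 * T ^ 10) := Real.one_le_exp (by positivity)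
  have := mul_le_mul_of_nonneg_left eb (pow_pos t0' 40).le
  have := pow_pos t0' 40
  linarith

lemma sup_le' {u : Fin 3 → ℝ} (hu : Wts T r n mv u) {x : R3} (hx : x ∈ cube) {ϑ : ℝ}
    (h0 : 0 ≤ ϑ) (h1 : ϑ ≤ 1) (hϑ : ∀ t ∈ Icc t0 t1, ‖ev x (p t)‖ ≤ ϑ) (h01 : t0 ≤ t1) :
    ∀ i ≤ L, ∀ t ∈ Icc t0 t1, ‖ev x (y i t)‖ ≤
      (ϑ ^ i + i * Real.exp (-(2 * T ^ 4))) * Y i t + Real.exp (3 * T ^ 10) * X t := by
  have E0 := Real.exp_pos (3 * T ^ 10)
  have ε0 := Real.exp_pos (-(2 * T ^ 4))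
  intro i
  induction i with
  | zero =>
    intro _ t ht
    have b0 := H.β0 t ht
    have x0 := (H.dX t ht).1
    rw [H.y0 t ht, map_smul, norm_smul, Complex.norm_real, Real.norm_of_nonneg b0.le, H.Y0]
    have e1 := mul_le_mul_of_nonneg_left ((H.drv t ht).tau.ev_le hx) b0.le
    have e2 := mul_pos E0 x0
    simp only [pow_zero, Nat.cast_zero, zero_mul, add_zero]
    linarith
  | succ i ih =>
    intro hi
    have ih := ih (Nat.le_of_succ_le hi)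
    refine step (B := 51 / 100 * Real.exp (3 * T ^ 10)) H.h0 H.D0 (by positivity) E0
      (by linarith) ?_ (H.hY hi) H.dX fun t ht => ?_
    · have := H.init_ev hi h01 x
      have := mul_pos E0 (H.dX t0 ⟨le_rfl, h01⟩).1
      linarith
    obtain ⟨g, hg, hd⟩ := H.sym_eq hu x hi ht
    have c0 : 0 < cf (i + 1) * β t := mul_pos (H.cf0 _) (H.β0 t ht)
    have y0 := H.Ypos i ht
    have x0 := (H.dX t ht).1
    refine ⟨((cf (i + 1) * β t : ℝ) : ℂ) * (ev x (p t) * ev x (y i t)) + g, 0,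
      hd.congr_deriv (by rw [smul_eq_mul]; ring), by simp, (norm_add_le _ _).trans ?_⟩
    rw [norm_mul, norm_mul, Complex.norm_real, Real.norm_of_nonneg c0.le]
    have f1 : ‖ev x (p t)‖ * ‖ev x (y i t)‖ ≤
        (ϑ ^ (i + 1) + i * Real.exp (-(2 * T ^ 4))) * Y i t + Real.exp (3 * T ^ 10) * X t := by
      refine (mul_le_mul (hϑ t ht) (ih t ht) (norm_nonneg _) h0).trans ?_
      have := mul_le_mul_of_nonneg_right h1 (show 0 ≤ i * Real.exp (-(2 * T ^ 4)) * Y i t +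
        Real.exp (3 * T ^ 10) * X t by positivity)
      rw [pow_succ ϑ]
      linarith
    have f2 := (mul_le_mul_of_nonneg_left f1 c0.le).trans
      (s_arith H.D0 (H.Ys i t) x0.le (H.small _ t ht) (exp19 H.hT) E0.le)
    push_cast
    linarith

/-- The upper bound of the symbols. -/
theorem sup_le {u : Fin 3 → ℝ} (hu : Wts T r n mv u) {x : R3} (hx : x ∈ cube) {ϑ : ℝ}
    (h1 : ϑ ≤ 1) (hϑ : ∀ t ∈ Icc t0 t1, ‖ev x (p t)‖ ≤ ϑ) :
    ∀ i ≤ L, ∀ t ∈ Icc t0 t1, ‖ev x (y i t)‖ ≤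
      (ϑ ^ i + Real.exp (-T ^ 4)) * Y i t + Real.exp (3 * T ^ 10) * X t := by
  intro i hi t ht
  refine (H.sup_le' hu hx ((norm_nonneg _).trans (hϑ t ht)) h1 hϑ (ht.1.trans ht.2) i hi t
    ht).trans (add_le_add_left (mul_le_mul_of_nonneg_right ?_ (H.Ypos i ht).le) _)
  have := eps_sum H.hT (H.cast_le hi)
  have : 0 ≤ i * Real.exp (-(2 * T ^ 4)) := by positivity
  linarith

lemma near_aux {u : Fin 3 → ℝ} (hu : Wts T r n mv u) {x : R3} (hx : x ∈ cube)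
    (hb : β t0 ≤ X t0) {η0 η : ℝ} (h0 : 0 ≤ η0) (h1 : 0 ≤ η) (h01 : t0 ≤ t1)
    (hη : ∀ t ∈ Icc t0 t1, ‖ev x (p t) - 1‖ ≤ η ∧ ‖ev x (tau (p t)) - 1‖ ≤ η0) :
    ∀ i ≤ L, ∀ t ∈ Icc t0 t1, ‖ev x (y i t) - Y i t‖ ≤
      (η0 + i * η + i * (2 * Real.exp (-(2 * T ^ 4)))) * Y i t +
        Real.exp (3 * T ^ 10) * X t := by
  have E0 := Real.exp_pos (3 * T ^ 10)
  have ε0 := Real.exp_pos (-(2 * T ^ 4))
  intro i
  induction i with
  | zero =>
    intro _ t ht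
    have b0 := H.β0 t ht
    have x0 := (H.dX t ht).1
    rw [H.y0 t ht, map_smul, H.Y0, smul_eq_mul, ← mul_sub_one, norm_mul, Complex.norm_real,
      Real.norm_of_nonneg b0.le]
    have e1 := mul_le_mul_of_nonneg_left (hη t ht).2 b0.le
    have e2 := mul_pos E0 x0
    simp only [Nat.cast_zero, zero_mul, add_zero]
    linarith
  | succ i ih =>
    intro hi
    have ih := ih (Nat.le_of_succ_le hi)
    refine step (a := fun t => ev x (y (i + 1) t) - Y (i + 1) t)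
      (B := 51 / 100 * Real.exp (3 * T ^ 10)) H.h0 H.D0 (by positivity) E0
      (by linarith) ?_ (H.hY hi) H.dX fun t ht => ?_
    · have ht : t0 ∈ Icc t0 t1 := ⟨le_rfl, h01⟩
      refine (norm_sub_le _ _).trans ?_
      rw [Complex.norm_real, Real.norm_of_nonneg (H.Ypos _ ht).le]
      have e1 := H.init_ev hi h01 x
      have e2 := H.Y_le (i + 1) ht
      have e3 : 2 ≤ Real.exp (3 * T ^ 10) := by
        have := Real.add_one_le_exp (3 * T ^ 10)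
        have := one_le_pow₀ (n := 10) (T1 H.hT)
        linarith
      have := mul_le_mul_of_nonneg_right e3 (H.dX t0 ht).1.le
      linarith
    obtain ⟨g, hg, hd⟩ := H.sym_eq hu x hi ht
    obtain ⟨Y', dY, Y0, Y1⟩ := H.dY (i + 1) hi t ht
    have c0 : 0 < cf (i + 1) * β t := mul_pos (H.cf0 _) (H.β0 t ht)
    have y1 := mul_pos H.D0 (H.Ypos (i + 1) ht)
    have x0 := (H.dX t ht).1
    refine ⟨((cf (i + 1) * β t : ℝ) : ℂ) * (ev x (p t) * (ev x (y i t) - Y i t)) +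
      ((D * Y (i + 1) t : ℝ) : ℂ) * (ev x (p t) - 1) + g - (Y' : ℂ), 0,
      (hd.fun_sub dY.ofReal).congr_deriv ?_, by simp, ?_⟩
    · have e : (D : ℂ) * (Y (i + 1) t : ℂ) = cf (i + 1) * β t * Y i t := by
        exact_mod_cast H.Ys i t
      rw [smul_eq_mul]
      push_cast
      linear_combination (-ev x (p t)) * e
    refine (norm_sub_le _ _).trans ((add_le_add_left norm_add₃_le _).trans ?_)
    rw [norm_mul, norm_mul, norm_mul, Complex.norm_real, Complex.norm_real, Complex.norm_real,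
      Real.norm_of_nonneg c0.le, Real.norm_of_nonneg y1.le, Real.norm_of_nonneg Y0]
    have f1 := (mul_le_of_le_one_left (norm_nonneg _) ((H.drv t ht).ev_le hx)).trans (ih t ht)
    have f2 := (mul_le_mul_of_nonneg_left f1 c0.le).trans
      (s_arith H.D0 (H.Ys i t) x0.le (H.small _ t ht) (exp19 H.hT) E0.le)
    have f3 := mul_le_mul_of_nonneg_left (hη t ht).1 y1.le
    have f4 := mul_le_mul_of_nonneg_right (eps_19 H.hT) y1.le
    push_cast
    linarith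

/-- The symbols at low frequencies. -/
theorem near_le' {u : Fin 3 → ℝ} (hu : Wts T r n mv u) {x : R3} (hx : x ∈ cube)
    (hb : β t0 ≤ X t0) {η0 η : ℝ}
    (hη : ∀ t ∈ Icc t0 t1, ‖ev x (p t) - 1‖ ≤ η ∧ ‖ev x (tau (p t)) - 1‖ ≤ η0) :
    ∀ i ≤ L, ∀ t ∈ Icc t0 t1, ‖ev x (y i t) - Y i t‖ ≤
      (η0 + i * η + Real.exp (-T ^ 4)) * Y i t + Real.exp (3 * T ^ 10) * X t := by
  intro i hi t ht
  refine (H.near_aux hu hx hb ((norm_nonneg _).trans (hη t ht).2)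
    ((norm_nonneg _).trans (hη t ht).1) (ht.1.trans ht.2) hη i hi t
    ht).trans (add_le_add_left (mul_le_mul_of_nonneg_right ?_ (H.Ypos i ht).le) _)
  have := eps_sum H.hT (H.cast_le hi)
  linarith

/-- The symbols at low frequencies. -/
theorem near_le {u : Fin 3 → ℝ} (hu : Wts T r n mv u) {x : R3} (hx : x ∈ cube)
    (hb : β t0 ≤ X t0) {η : ℝ}
    (hη : ∀ t ∈ Icc t0 t1, ‖ev x (p t) - 1‖ ≤ η ∧ ‖ev x (tau (p t)) - 1‖ ≤ η) :
    ∀ i ≤ L, ∀ t ∈ Icc t0 t1, ‖ev x (y i t) - Y i t‖ ≤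
      ((i + 1) * η + Real.exp (-T ^ 4)) * Y i t + Real.exp (3 * T ^ 10) * X t := by
  intro i hi t ht
  have := H.near_le' hu hx hb hη i hi t ht
  rwa [show η + i * η = (i + 1) * η by ring] at this

end Lad

end

end Pool.Agent.Work.MP_6bf1e5_an.Ell
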