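import Pool.Agent.Work.MP_6bf1e5_an.Ell.Drv

/-!
Auxiliary facts for the ladder.
-/

open Set Complex Filter Topology
open scoped InnerProductSpace ComplexConjugate
open Pool.Agent.Work.MP_6bf1e5_an.B (Z3 R3)
open Pool.Agent.Work.MP_6bf1e5_an.Dec

namespace Pool.Agent.Work.MP_6bf1e5_an.Ell.LadA

noncomputable section

section gen

variable {E : Type} [NormedAddCommGroup E] [InnerProductSpace ℂ E] [NormedSpace ℝ E]

omit [NormedSpace ℝ E] in
lemma re_le (a s d : E) (D : ℝ) (hd : 0 ≤ (⟪a, d⟫_ℂ).re) :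
    (⟪a, s - (D : ℂ) • a - d⟫_ℂ).re ≤ ‖a‖ * ‖s‖ - D * ‖a‖ ^ 2 := by
  have h1 : (⟪a, s⟫_ℂ).re ≤ ‖a‖ * ‖s‖ := (Complex.re_le_norm _).trans (norm_inner_le_norm _ _)
  have h2 : (⟪a, (D : ℂ) • a⟫_ℂ).re = D * ‖a‖ ^ 2 := by
    rw [inner_smul_right, Complex.re_ofReal_mul, @norm_sq_eq_re_inner ℂ, RCLike.re_to_complex]
  rw [inner_sub_right, inner_sub_right, Complex.sub_re, Complex.sub_re, h2]
  linarith

/-- One rung of the ladder. -/
theorem step {a : ℝ → E} {Y X : ℝ → ℝ} {A B B' D t0 t1 : ℝ} (h0 : 0 ≤ t0) (hD : 0 < D)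
    (hA : 0 ≤ A) (hB' : 0 < B') (hB : B < 9 / 10 * B') (init : ‖a t0‖ ≤ B' * X t0)
    (hY : ∀ t ∈ Icc t0 t1, 0 ≤ Y t ∧ ∃ Y', HD Y Y' t ∧ 0 ≤ Y')
    (hX : ∀ t ∈ Icc t0 t1, 0 < X t ∧ ∃ X', HD X X' t ∧ -(D / 10 * X t) ≤ X')
    (ha : ∀ t ∈ Icc t0 t1, ∃ s d, HD a (s - (D : ℂ) • a t - d) t ∧ 0 ≤ (⟪a t, d⟫_ℂ).re ∧
      ‖s‖ ≤ D * (A * Y t + B * X t)) :
    ∀ t ∈ Icc t0 t1, ‖a t‖ ≤ A * Y t + B' * X t := by
  intro t ht
  have h01 : t0 ≤ t1 := ht.1.trans ht.2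
  refine bar1 (U := fun t => A * Y t + B' * X t) h0 ?_ (fun t ht => ?_) t ht
  · have := mul_nonneg hA (hY t0 ⟨le_rfl, h01⟩).1
    linarith
  obtain ⟨y0, Y', dY, Y0⟩ := hY t ht
  obtain ⟨x0, X', dX, X0⟩ := hX t ht
  obtain ⟨s, d, da, d0, hs⟩ := ha t ht
  have U0 : 0 < A * Y t + B' * X t := add_pos_of_nonneg_of_pos (mul_nonneg hA y0) (mul_pos hB' x0)
  refine ⟨U0, _, A * Y' + B' * X', da, (dY.const_mul A).fun_add (dX.const_mul B'), fun e => ?_⟩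
  refine (re_le _ _ _ _ d0).trans_lt ?_
  rw [e]
  have h1 : D * (B * X t) < D * (9 / 10 * B' * X t) :=
    mul_lt_mul_of_pos_left (mul_lt_mul_of_pos_right hB x0) hD
  have h2 : B' * -(D / 10 * X t) ≤ B' * X' := mul_le_mul_of_nonneg_left X0 hB'.le
  have h3 : 0 ≤ A * Y' := mul_nonneg hA Y0
  have h4 : ‖s‖ - D * (A * Y t + B' * X t) < A * Y' + B' * X' := by linarith
  have := mul_lt_mul_of_pos_left h4 U0
  linarith

end gen

lemma sum_single (n : N3) (a : Fin 3) (u : ℝ) :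
    ∑ i, (n i : ℝ) * |(Pi.single a u : R3) i| = n a * |u| := by
  rw [Finset.sum_eq_single a] <;> simp +contextual

lemma wt_single_zero (a : Fin 3) (f : V) : wt (Pi.single a 0) f = f := by
  ext h; simp [coeff_wt, pr]

/-! Arithmetic -/

lemma wt_arith {c D M δ E1 E2 ε Y0 Y1 X P : ℝ} (hD : 0 < D) (hM : 0 < M) (hY : D * Y1 = c * Y0)
    (hY1 : 0 ≤ Y1) (hX : 0 ≤ X) (hc : c ≤ ε * D) (hε0 : 0 ≤ ε) (hε : ε ≤ 1 / 100) (hδ0 : 0 ≤ δ)
    (hδ : δ ≤ 1) (hE1 : 0 ≤ E1) (hE : E1 ≤ E2) (hP : 1 ≤ P) :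
    c * ((1 + δ) * (4 * P * M * Y0 + E2 * M * X)) +
        E1 * (ε * (D * Y1 * M) + D / 10 * (X * M)) ≤
      D * (4 * (P * (1 + δ + E1 * ε)) * M * Y1 + 1 / 5 * (E2 * M) * X) := by
  have hE2 : 0 ≤ E2 := hE1.trans hE
  have a1 : c * (1 + δ) ≤ D / 50 := by
    have : c ≤ D / 100 := hc.trans (by nlinarith)
    nlinarith
  have a2 : c * (1 + δ) * (E2 * M * X) ≤ D / 50 * (E2 * M * X) :=
    mul_le_mul_of_nonneg_right a1 (by positivity)
  have a3 : E1 * (D * (X * M)) ≤ E2 * (D * (X * M)) := by gcongr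
  have a4 : 1 * (E1 * ε * (D * Y1 * M)) ≤ 4 * P * (E1 * ε * (D * Y1 * M)) :=
    mul_le_mul_of_nonneg_right (by linarith) (by positivity)
  have a5 : 0 ≤ E2 * (D * (X * M)) := by positivity
  have e1 : c * ((1 + δ) * (4 * P * M * Y0)) = 4 * P * (1 + δ) * M * (D * Y1) := by
    rw [hY]; ring
  linarith

lemma g_arith {c D P a ε E E2 Y0 Y1 X : ℝ} (hD : 0 < D) (hY : D * Y1 = c * Y0) (hX : 0 ≤ X)
    (hc : c ≤ D) (hP : 0 ≤ P) (a0 : 0 ≤ a) (a1 : a ≤ 1) (hε : ε ≤ 1 / 100) (hE : 1 ≤ E2) :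
    3 * P * (ε * (D * Y1) + D / 10 * X) + c * (36 * P * a * (E * Y0 + E2 * X)) +
        ε * D * P * (E * Y1 + E2 * X) ≤
      (36 * P * a * E + ε * P * E + 3 * P * ε) * (D * Y1) + 40 * P * E2 * (D * X) := by
  have E0 : 0 ≤ E2 := by linarith
  have b1 : 1 * (P * D * X) ≤ E2 * (P * D * X) := by gcongr
  have b2 : c * a ≤ D * 1 := mul_le_mul hc a1 a0 hD.le
  have b3 : c * a * (P * E2 * X) ≤ D * 1 * (P * E2 * X) := by gcongr
  have b4 : ε * (D * P * E2 * X) ≤ 1 / 100 * (D * P * E2 * X) := by gcongr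
  have b5 : 0 ≤ D * P * E2 * X := by positivity
  have e1 : c * (36 * P * a * (E * Y0)) = 36 * P * a * E * (D * Y1) := by rw [hY]; ring
  linarith

lemma s_arith {c D ε A B Y0 Y1 X : ℝ} (hD : 0 < D) (hY : D * Y1 = c * Y0) (hX : 0 ≤ X)
    (hc : c ≤ ε * D) (hε : ε ≤ 1 / 100) (hB : 0 ≤ B) :
    c * (A * Y0 + B * X) ≤ D * (A * Y1 + 1 / 100 * B * X) := by
  have b1 : c ≤ 1 / 100 * D := hc.trans (by gcongr)
  have b2 : c * (B * X) ≤ 1 / 100 * D * (B * X) := by gcongr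
  have e1 : c * (A * Y0) = A * (D * Y1) := by rw [hY]; ring
  linarith

/-! Numerical facts -/

section num

variable {T : ℝ} (hT : (10 : ℝ) ^ 100 ≤ T)

include hT

lemma T10 : 10 ≤ T := le_trans (by norm_num) hT

lemma T1 : 1 ≤ T := le_trans (by norm_num) hT

lemma T0 : 0 < T := lt_of_lt_of_le (by norm_num) hT

lemma pw {a b : ℕ} (h : a ≤ b) : T ^ a ≤ T ^ b := pow_le_pow_right₀ (T1 hT) h

lemma pw' {a b : ℕ} (h : a < b) : 10 ^ 100 * T ^ a ≤ T ^ b :=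
  calc 10 ^ 100 * T ^ a ≤ T * T ^ a := by have := T0 hT; gcongr
    _ = T ^ (a + 1) := by ring
    _ ≤ T ^ b := pw hT h

lemma le_exp (c : ℝ) (hc : c ≤ 10 ^ 100) : c ≤ Real.exp T := by
  have := Real.add_one_le_exp T
  linarith

lemma exp19 : Real.exp (-T ^ 19) ≤ 1 / 100 := by
  rw [Real.exp_neg, one_div]
  refine inv_anti₀ (by norm_num) ((le_exp hT _ (by norm_num)).trans (Real.exp_le_exp.2 ?_))
  simpa using pw hT (a := 1) (b := 19) (by norm_num)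

lemma om_le : T ^ 21 * (Real.exp (T ^ 10) * Real.exp (-T ^ 19)) ≤ 1 := by
  refine (mul_le_mul_of_nonneg_right (pow_le_exp hT (by norm_num)) (by positivity)).trans ?_
  rw [← Real.exp_add, ← Real.exp_add, Real.exp_le_one_iff]
  have h1 := pw' hT (a := 10) (b := 19) (by norm_num)
  have h2 := pw hT (a := 1) (b := 10) (by norm_num)
  have h3 := pow_pos (T0 hT) 10
  rw [pow_one] at h2
  linarith

lemma inv12 : (T ^ 12)⁻¹ ≤ 1 / 4 := by
  rw [one_div]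
  refine inv_anti₀ (by norm_num) ?_
  have := pw hT (a := 1) (b := 12) (by norm_num)
  have := T10 hT
  rw [pow_one] at *
  linarith

lemma del_le {a b : ℝ} (hb0 : 0 ≤ b) (hb : b ≤ (T ^ 12)⁻¹) (ha : T ^ 21 * a ≤ T / 10 ^ 21) :
    T ^ 21 * (a + 50 * b ^ 2) ≤ T / 10 ^ 21 + 1 := by
  have t0 := T0 hT
  have h1 : T ^ 21 * (50 * b ^ 2) ≤ T ^ 21 * (50 * ((T ^ 12)⁻¹) ^ 2) := by gcongr
  have h2 : T ^ 21 * (50 * ((T ^ 12)⁻¹) ^ 2) = 50 / T ^ 3 := by field_simp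
  have h3 : 50 / T ^ 3 ≤ 1 := by
    rw [div_le_one (by positivity)]
    have := pw' hT (a := 0) (b := 3) (by norm_num)
    rw [pow_zero] at this
    linarith
  linarith

lemma del_one {δ : ℝ} (h : T ^ 21 * δ ≤ T / 10 ^ 21 + 1) : δ ≤ 1 := by
  have t0 := T0 hT
  refine le_of_mul_le_mul_left (h.trans ?_) (pow_pos t0 21)
  have h1 := pw' hT (a := 1) (b := 21) (by norm_num)
  have := T1 hT
  rw [pow_one] at h1
  linarith

lemma pow_le {x : ℝ} {i : ℕ} (x0 : 0 ≤ x) (hi : (i : ℝ) ≤ T ^ 21)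
    (h : T ^ 21 * x ≤ T / 10 ^ 21 + 2) : 4 * (1 + x) ^ i ≤ Real.exp (T / 10 ^ 20) := by
  have h1 : (1 + x) ^ i ≤ Real.exp x ^ i := by
    gcongr; have := Real.add_one_le_exp x; linarith
  have h2 : (4 : ℝ) ≤ Real.exp 3 := by have := Real.add_one_le_exp 3; linarith
  have h3 : (i : ℝ) * x ≤ T ^ 21 * x := by gcongr
  calc 4 * (1 + x) ^ i ≤ Real.exp 3 * Real.exp x ^ i := by gcongr
    _ = Real.exp (3 + i * x) := by rw [Real.exp_add, Real.exp_nat_mul]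
    _ ≤ _ := Real.exp_le_exp.2 (by linarith)

/-- The relative error of one rung. -/
lemma eps_le : 36 * T ^ 40 * Real.exp (-(T ^ 5 / 20000)) * Real.exp (T / 10 ^ 20) +
    Real.exp (-T ^ 19) * T ^ 40 * Real.exp (T / 10 ^ 20) + 3 * T ^ 40 * Real.exp (-T ^ 19) ≤
    Real.exp (-(2 * T ^ 4)) := by
  have t0 := T0 hT
  have t1 := T1 hT
  have h19 : Real.exp (-T ^ 19) ≤ Real.exp (-(T ^ 5 / 20000)) := by
    refine Real.exp_le_exp.2 ?_
    have := pw hT (a := 5) (b := 19) (by norm_num)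
    have := pow_pos t0 5
    linarith
  have he : 1 ≤ Real.exp (T / 10 ^ 20) := Real.one_le_exp (by positivity)
  have he' : Real.exp (T / 10 ^ 20) ≤ Real.exp T := Real.exp_le_exp.2 (by linarith)
  have h40 : T ^ 40 ≤ Real.exp T := pow_le_exp hT (by norm_num)
  have hc : (40 : ℝ) ≤ Real.exp T := le_exp hT _ (by norm_num)
  set a := Real.exp (-(T ^ 5 / 20000)) with ha
  have a0 : 0 < a := Real.exp_pos _
  have b1 : Real.exp (-T ^ 19) * T ^ 40 * Real.exp (T / 10 ^ 20) ≤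
      a * T ^ 40 * Real.exp (T / 10 ^ 20) := by gcongr
  have b2 : 3 * T ^ 40 * Real.exp (-T ^ 19) * 1 ≤ 3 * T ^ 40 * a * Real.exp (T / 10 ^ 20) := by
    gcongr
  have b3 : 40 * T ^ 40 * a * Real.exp (T / 10 ^ 20) ≤
      Real.exp T * Real.exp T * a * Real.exp T := by gcongr
  have b4 : Real.exp T * Real.exp T * a * Real.exp T ≤ Real.exp (-(2 * T ^ 4)) := by
    rw [ha, ← Real.exp_add, ← Real.exp_add, ← Real.exp_add]
    refine Real.exp_le_exp.2 ?_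
    have h1 := pw' hT (a := 4) (b := 5) (by norm_num)
    have h2 := pw hT (a := 1) (b := 4) (by norm_num)
    rw [pow_one] at h2
    linarith
  linarith

lemma eps_19 : Real.exp (-T ^ 19) ≤ Real.exp (-(2 * T ^ 4)) := by
  refine Real.exp_le_exp.2 ?_
  have := pw' hT (a := 4) (b := 19) (by norm_num)
  have := pow_pos (T0 hT) 4
  linarith

lemma eps_sum {i : ℕ} (hi : (i : ℝ) ≤ T ^ 21) :
    i * (2 * Real.exp (-(2 * T ^ 4))) ≤ Real.exp (-T ^ 4) := by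
  have t0 := T0 hT
  calc _ ≤ Real.exp T * (Real.exp T * Real.exp (-(2 * T ^ 4))) := by
        gcongr
        · exact hi.trans (pow_le_exp hT (by norm_num))
        · exact le_exp hT _ (by norm_num)
    _ ≤ _ := by
        rw [← Real.exp_add, ← Real.exp_add]
        refine Real.exp_le_exp.2 ?_
        have h1 := pw' hT (a := 1) (b := 4) (by norm_num)
        rw [pow_one] at h1
        linarith

lemma big_le : 40 * T ^ 40 * Real.exp (2 * T ^ 10) ≤ 1 / 2 * Real.exp (3 * T ^ 10) := by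
  have t0 := T0 hT
  have : 80 * T ^ 40 * Real.exp (2 * T ^ 10) ≤ Real.exp (3 * T ^ 10) :=
    calc _ ≤ Real.exp T * Real.exp T * Real.exp (2 * T ^ 10) := by
          gcongr
          · exact le_exp hT _ (by norm_num)
          · exact pow_le_exp hT (by norm_num)
      _ ≤ _ := by
          rw [← Real.exp_add, ← Real.exp_add]
          refine Real.exp_le_exp.2 ?_
          have h1 := pw' hT (a := 1) (b := 10) (by norm_num)
          rw [pow_one] at h1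
          linarith
  linarith

end num

end

end Pool.Agent.Work.MP_6bf1e5_an.Ell.LadA
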