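import Pool.Agent.Work.MP_6bf1e5_an.Ell.Defs
import Pool.Agent.Work.MP_6bf1e5_an.Sym.SDefs
import Pool.Agent.Work.MP_6bf1e5_an.B.Scheme

/-!
The active modes, the reference vectors, the amplitudes and the real form of the equation.
An odd flow has Fourier coefficients `a k = i α k` with real vectors `α k`.
-/

open Set Complex
open scoped InnerProductSpace ComplexConjugate Classical
open Pool.Agent.Work.MP_6bf1e5_an.B
open Pool.Agent.Work.MP_6bf1e5_an.Dec

namespace Pool.Agent.Work.MP_6bf1e5_an.Ell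

noncomputable section

/-- Real Euclidean vectors. -/
abbrev E3 := EuclideanSpace ℝ (Fin 3)

/-- The vector with given entries. -/
def v3 (x y z : ℝ) : E3 := WithLp.toLp 2 ![x, y, z]

/-- The symmetry group: cyclic permutations and signs. -/
abbrev Gp := Fin 3 × ℤˣ

/-- The action on frequencies; `(1, 1)` acts by `(x, y, z) ↦ (z, x, y)`. -/
def gz (g : Gp) (k : Z3) : Z3 := fun i => (g.2 : ℤ) * k (i - g.1)

/-- The action on vectors. -/
def ge (g : Gp) (v : E3) : E3 := WithLp.toLp 2 fun i => ((g.2 : ℤ) : ℝ) * v (i - g.1)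

/-- The identity. -/
def g1 : Gp := (0, 1)

/-- The product of two symmetries. -/
def gm (g g' : Gp) : Gp := (g.1 + g'.1, g.2 * g'.2)

/-- The inverse action as an additive equivalence. -/
def gzE (g : Gp) : Z3 ≃+ Z3 where
  toFun k := fun i => (g.2 : ℤ) * k (i + g.1)
  invFun := gz g
  left_inv k := by ext i; simp [gz, ← mul_assoc]
  right_inv k := by ext i; simp [gz, ← mul_assoc]
  map_add' a b := by ext i; simp [mul_add]

/-- The transported envelope: `(tr g f).coeff (gz g h) = f.coeff h`. -/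
def tr (g : Gp) (f : V) : V := prm (gzE g) f

/-- The symmetry carrying a low comb to the position of the tooth `o`. -/
def go : Fin 4 → Gp := ![(1, 1), (1, -1), (2, 1), (2, -1)]

/-- The component of `e` orthogonal to `ξ`. -/
def lp (ξ e : E3) : E3 := e - (⟪ξ, e⟫_ℝ / ‖ξ‖ ^ 2) • ξ

/-- The vector parallel to `lp ξ e` with unit amplitude. -/
def ur (ξ e : E3) : E3 := (‖lp ξ e‖ ^ 2)⁻¹ • lp ξ e

/-- The coefficient of the interaction of `u` at `ξ` and `v` at `η`, tested against `w`. -/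
def cfR (w ξ u η v : E3) : ℝ := ⟪u, η⟫_ℝ * ⟪w, v⟫_ℝ + ⟪v, ξ⟫_ℝ * ⟪w, u⟫_ℝ

/-- One term of the transport operator. -/
def tm (α β : Z3 → E3) (p q : Z3) : E3 := ⟪α p, xi q⟫_ℝ • β q

/-- The real form of the transport operator. -/
def BR (α β : Z3 → E3) (k : Z3) : E3 := ∑' p, tm α β p (k - p)

/-- Families of modes: `b j` is the first comb of level `j`, `c j` the second comb of level
`j + 1`, and `y j i` the `i`-th rung of ladder `j`. -/
inductive Fam where
  | b (j : ℕ) : Fam
  | c (j : ℕ) : Fam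
  | y (j i : ℕ) : Fam

variable (G : Geo)

namespace Geo

/-- The inverse ratio. -/
def ε : ℝ := (G.La : ℝ)⁻¹

/-- A component of the vectors. -/
def z : ℝ := -1 + G.ε / 4 + G.ε ^ 2

/-- The normalisation of the vector of the second comb. -/
def mC : ℝ := √((3 - 4 * G.ε) / ((G.ε / 4 + G.ε ^ 2) * (4 * G.ε ^ 2 + 4 + G.z ^ 2)))

/-- The vector of the first comb. -/
def eB (_ : Geo) : E3 := (√5)⁻¹ • v3 0 1 (-2)

/-- The vector of the second comb. -/
def eC : E3 := G.mC • v3 (2 * G.ε) (-2) G.z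

/-- The vector of the last rung. -/
def eU : E3 := (√5)⁻¹ • v3 (-(G.ε * G.z)) G.z (2 * (1 + G.ε ^ 2))

/-- The strain coefficient. -/
def kp : ℝ := G.mC * (G.ε / 4 + G.ε ^ 2) / 5

/-- The weight of the vertical teeth. -/
def om0 : ℝ := 4 * (1 + G.ε ^ 2) * (2 + G.ε) / (G.z * (G.z - 4 * G.ε))

/-- The weights of the teeth. -/
def om : Fin 4 → ℝ := ![1, 1, G.om0, G.om0]

/-- The coefficients of the ladder. -/
def cy (i : ℕ) : ℝ := if i ≤ 1 then 1 else if i = G.La then 2 / 5 * (1 + G.ε ^ 2) else (√5)⁻¹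

/-- The coefficient of the seed. -/
def cf : ℝ := G.mC * (G.z * (G.z - 4 * G.ε)) / (5 * ‖G.eU‖ ^ 2)

/-- The relative coefficients of the second comb in the seed. -/
def cq (o : Fin 4) : ℝ :=
  ⟪G.eU, ge (go o) (v3 1 G.ε 0)⟫_ℝ * ⟪G.eC, ge (go o) G.eC⟫_ℝ /
    (‖G.eU‖ ^ 2 * ‖G.eC‖ ^ 2 * (G.om o * G.cf))

/-- The relative thickness of the layers. -/
def δ : ℝ := (G.C ^ 4)⁻¹

/-- The constant damping near the teeth with scale index `j`. -/
def Gc (j : ℕ) : ℝ := 12 * G.C * G.lam (j + 1) ^ 2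

end Geo

namespace Fam

/-- The families which are used. -/
def ok : Fam → Prop
  | y _ i => 1 ≤ i ∧ i ≤ G.La
  | _ => True

/-- The carrier. -/
def ctr : Fam → Z3
  | b j => ![G.P j, 0, 0]
  | c j => ![G.P (j + 1), G.P j, 0]
  | y j i => ![i * G.P j, G.P j, 0]

/-- The centres of the teeth, relative to the carrier. -/
def cens : Fam → Finset Z3
  | b j => Finset.univ.image (G.off j)
  | c j => Finset.univ.image (G.off (j + 1))
  | y _ _ => {0}

/-- The radii of the teeth. -/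
def rad : Fam → N3
  | b j => G.rb j
  | c j => G.rc (j + 1)
  | y j _ => G.ry j

/-- The reference vector. -/
def e : Fam → E3
  | b _ => G.eB
  | c _ => G.eC
  | y _ i => if i = G.La then G.eU else v3 0 0 1

/-- The damping. -/
def dd : Fam → ℝ
  | b j => G.d j
  | c j => G.d (j + 1)
  | y j _ => G.D j

/-- The scale index. -/
def ix : Fam → ℕ
  | b j => j
  | c j => j
  | y j _ => j

/-- The scale of the offsets. -/
def sz : Fam → ℕ
  | b j => G.n j
  | c j => G.n (j + 1)
  | y j _ => G.n (j + 1)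

/-- The offsets of the modes of a family. -/
def S (F : Fam) : Finset Z3 := (F.cens G).biUnion fun x => (bx (F.rad G)).image (x + ·)

end Fam

/-- A smooth bump which is `1` on `[-1+δ, 1-δ]` and vanishes outside `(-1, 1)`. -/
def bmp (δ x : ℝ) : ℝ :=
  Real.smoothTransition ((1 - x) / δ) * Real.smoothTransition ((1 + x) / δ)

/-- The cutoff of one tooth. -/
def chi1 (n : N3) (x : R3) : ℝ := ∏ i, bmp G.δ (x i / (n i + 1))

/-- The cutoff of a family, as a function of the offset from the carrier. -/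
def chi (F : Fam) (x : R3) : ℝ := ∑ c ∈ F.cens G, chi1 G (F.rad G) fun i => x i - c i

/-- The wide cutoff of one tooth: `1` on the closed box, `0` outside the doubled box. -/
def wid1 (n : N3) (x : R3) : ℝ := ∏ i, bmp (1 / 2) (x i / (2 * (n i + 1)))

/-- The wide cutoff of a family. -/
def wid (F : Fam) (x : R3) : ℝ := ∑ c ∈ F.cens G, wid1 (F.rad G) fun i => x i - c i

/-- The mode of the family `F` with offset `h`, moved by `g`. -/
def pt (F : Fam) (g : Gp) (h : Z3) : Z3 := gz g (F.ctr G + h)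

/-- The modes of the family `F` moved by `g`. -/
def Pt (F : Fam) (g : Gp) : Set Z3 := {k | ∃ h ∈ F.S G, k = pt G F g h}

/-- The vector with unit amplitude at the mode `pt F g h`. -/
def uv (F : Fam) (g : Gp) (h : Z3) : E3 := ge g (ur (xi (F.ctr G + h)) (F.e G))

/-- The coefficient of the interaction of two modes tested at the mode `F.ctr + h`. -/
def CF (F : Fam) (h : Z3) (F1 : Fam) (g : Gp) (h1 : Z3) (F2 : Fam) (g' : Gp) (h2 : Z3) : ℝ :=
  cfR (lp (xi (F.ctr G + h)) (F.e G)) (xi (pt G F1 g h1)) (uv G F1 g h1)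
    (xi (pt G F2 g' h2)) (uv G F2 g' h2)

/-- The active modes. -/
def Act (k : Z3) : Prop := ∃ x : Fam × Gp × Z3, x.1.ok G ∧ x.2.2 ∈ x.1.S G ∧ k = pt G x.1 x.2.1 x.2.2

/-- The reference vector at a mode. -/
def vec (k : Z3) : E3 := if H : Act G k then ge H.choose.2.1 (H.choose.1.e G) else 0

/-- The amount of damping removed at a mode. -/
def dm (k : Z3) : ℝ := if H : Act G k then
  chi G H.choose.1 (fun i => H.choose.2.2 i) * (G.Gc H.choose.1.ix - H.choose.1.dd G) else 0

/-- The modes near a tooth. -/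
def Near (k : Z3) : Prop := ∃ x : Fam × Gp × Z3,
  x.1.ok G ∧ wid G x.1 (fun i => x.2.2 i) ≠ 0 ∧ k = pt G x.1 x.2.1 x.2.2

/-- The scalar damping. -/
def sc (k : Z3) : ℝ := G.C * ax k ^ 2 + if H : Near G k then
  wid G H.choose.1 (fun i => H.choose.2.2 i) * (G.Gc H.choose.1.ix - G.C * ax k ^ 2) else 0

/-- The projection onto the active direction. -/
def Pj (k : Z3) (x : E3) : E3 := ⟪lp (xi k) (vec G k), x⟫_ℝ • ur (xi k) (vec G k)

/-- The dissipation on divergence-free vectors. -/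
def AR (k : Z3) (x : E3) : E3 := sc G k • x - dm G k • Pj G k x

/-- The active part. -/
def act (α : Z3 → E3) (k : Z3) : E3 := Pj G k (α k)

/-- The junk. -/
def jnk (α : Z3 → E3) (k : Z3) : E3 := α k - act G α k

/-- All the modes of a family. -/
def Orb (F : Fam) : Set Z3 := {k | ∃ g, k ∈ Pt G F g}

/-- The teeth of level `j`. -/
def Lev : ℕ → Set Z3
  | 0 => Orb G (.b 0)
  | j + 1 => Orb G (.b (j + 1)) ∪ Orb G (.c j)

/-- The rungs of ladder `j`. -/
def LadS (j : ℕ) : Set Z3 := {k | ∃ i, 1 ≤ i ∧ i ≤ G.La ∧ k ∈ Orb G (.y j i)}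

/-- The low ladders. -/
def LowYS (j : ℕ) : Set Z3 := {k | ∃ i < j + 1 - G.kk, k ∈ LadS G i}

/-- The low modes. -/
def LowS (j : ℕ) : Set Z3 := {k | ∃ i < j + 1 - G.kk, k ∈ Lev G i ∪ LadS G i}

/-- The levels and ladders of index at least `i`. -/
def Tail (i : ℕ) : Set Z3 := {k | ∃ j, i ≤ j ∧ k ∈ Lev G j ∪ LadS G j}

/-- The envelope of a family. -/
def env (F : Fam) (α : Z3 → E3) : V :=
  mk (F.S G) fun h => ((⟪F.e G, α (F.ctr G + h)⟫_ℝ : ℝ) : ℂ)

/-- The envelope of the tooth with centre `x`, divided by the weight `ω`. -/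
def tooth (F : Fam) (x : Z3) (ω : ℝ) (α : Z3 → E3) : V :=
  mk (bx (F.rad G)) fun h => ((ω⁻¹ * ⟪F.e G, α (F.ctr G + (x + h))⟫_ℝ : ℝ) : ℂ)

/-- The layer of the teeth of a family. -/
def lay (F : Fam) (h : Z3) : ℝ :=
  if h ∈ bx (F.rad G) then (1 - chi1 G (F.rad G) fun i => h i) * (G.Gc F.ix - F.dd G) else 0

/-- The size of `β` on the set `W`. -/
def nb (β : Z3 → E3) (W : Set Z3) (k : Z3) : ℝ := W.indicator (fun k => ‖β k‖) k

/-- The envelope system attached to a solution. -/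
def rawOf (α : ℝ → Z3 → E3) : Raw where
  kp := G.kp
  om0 := G.om0
  cy := G.cy
  cf := G.cf
  cq := G.cq
  b j o t := tooth G (.b j) (G.off j o) (G.om o) (α t)
  c j o t := if j = 0 then 0 else tooth G (.c (j - 1)) (G.off j o) (G.om o) (α t)
  y j i t := if i = 0 then tau (env G (.b j) (α t)) else
    if i ≤ G.La then env G (.y j i) (α t) else 0
  vb j := lay G (.b j)
  vc j := if j = 0 then 0 else lay G (.c (j - 1))
  vy j i := lay G (.y j i)
  U t := ∑' k, ‖α t k‖
  H t := √(∑' k, (ax k * ‖α t k‖) ^ 2)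
  Fj t := ∑' k, ‖jnk G (α t) k‖
  Hj t := √(∑' k, (ax k * ‖jnk G (α t) k‖) ^ 2)
  ET i t := ∑' k, nb (act G (α t)) (Tail G i) k ^ 2

/-- Admissible states. -/
structure Adm (β : Z3 → E3) : Prop where
  rapid : Rapid β
  sym : ∀ g k, β (gz g k) = ge g (β k)
  div : ∀ k, ⟪xi k, β k⟫_ℝ = 0

/-- The right-hand side of the real system. -/
def rhs (β : Z3 → E3) (k : Z3) : E3 := lp (xi k) (BR β β k) - AR G k (β k)

/-- Global symmetric solutions of the real system. -/
structure RSol (α : ℝ → Z3 → E3) : Prop where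
  bd : ∀ (s : ℕ) (T : ℝ), ∃ M, ∀ t ∈ Icc 0 T, Bd s (α t) M
  adm : ∀ t, 0 ≤ t → Adm (α t)
  deriv : ∀ k t, 0 ≤ t → HD (fun t => α t k) (rhs G (α t) k) t

/-- The part of the transport operator over the pairs which satisfy `P`. -/
def RP (β : Z3 → E3) (P : Z3 → Z3 → Prop) (r : Z3) : E3 :=
  ∑' p, if P p (r - p) then tm β β p (r - p) else 0

/-- The symmetrised interaction of `W1` and `W2`. -/
def SB (β : Z3 → E3) (W1 W2 : Set Z3) (r : Z3) : E3 :=
  ∑' p, if p ∈ W1 ∧ r - p ∈ W2 then tm β β p (r - p) + tm β β (r - p) p else 0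

/-- The pair lies in `W1 × W2` in some order. -/
def UPair (W1 W2 : Set Z3) (p q : Z3) : Prop := (p ∈ W1 ∧ q ∈ W2) ∨ (p ∈ W2 ∧ q ∈ W1)

/-- The field `X` tested against `e` on the box with centre `r0`. -/
def Tst (e : E3) (r0 : Z3) (n : N3) (X : Z3 → E3) : V :=
  mk (bx n) fun h => ((⟪lp (xi (r0 + h)) e, X (r0 + h)⟫_ℝ : ℝ) : ℂ)

/-- The complex vector with real entries `x`. -/
def rc (x : E3) : C3 := WithLp.toLp 2 fun i => (x i : ℂ)

/-- The imaginary part. -/
def im3 (v : C3) : E3 := WithLp.toLp 2 fun i => (v i).im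

end

end Pool.Agent.Work.MP_6bf1e5_an.Ell
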