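import Pool.Agent.Work.MP_6bf1e5_an.Ell.SymbC

/-!
The symbol is invariant under a discrete scaling and preserves divergence-free vectors.
-/

open Set Complex
open scoped InnerProductSpace ComplexConjugate Classical
open Pool.Agent.Work.MP_6bf1e5_an.B
open Pool.Agent.Work.MP_6bf1e5_an.Dec

namespace Pool.Agent.Work.MP_6bf1e5_an.Ell.Pd

noncomputable section

variable {G : Geo}

theorem sig_scale : ∃ L R : ℝ, 1 < L ∧ ∀ ξ : R3, R ≤ ‖ξ‖ → sig G (L • ξ) = L ^ 2 • sig G ξ := by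
  have hL := SymbC_La (G := G)
  have ha := SymbC_a (G := G)
  have l1 := lam_pos G 1
  refine ⟨G.La, 2 * G.lam 1, by linarith, fun ξ hξ => ?_⟩
  have L0 : (0 : ℝ) < G.La := by linarith
  have nn : ‖(G.La : ℝ) • ξ‖ = G.La * ‖ξ‖ := by rw [norm_smul, Real.norm_of_nonneg L0.le]
  obtain ⟨J, hJ⟩ := pow_unbounded_of_one_lt (‖ξ‖ / (G.lam 0 / 4)) (by linarith : (1 : ℝ) < G.La)
  rw [div_lt_iff₀ ha, mul_comm] at hJ
  have hJ' : G.La * ‖ξ‖ < G.lam 0 / 4 * (G.La : ℝ) ^ (J + 1) := by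
    rw [pow_succ]; nlinarith
  have z : g0 G ((G.La : ℝ) • ξ) = 0 := by
    by_contra hc
    have := (SymbC_supp _ hc).2
    rw [nn] at this
    nlinarith
  have q : quad G.C ((G.La : ℝ) • ξ) = (G.La : ℝ) ^ 2 • quad G.C ξ := by
    funext i j
    simp only [quad, Pi.smul_apply, smul_eq_mul, Fin.sum_univ_three]
    split_ifs <;> ring
  unfold sig
  rw [ssum_eq ha hL SymbC_supp hJ le_rfl, ssum_eq ha hL SymbC_supp hJ' nn.le,
    Finset.sum_range_succ', smul_sub, q, Finset.smul_sum]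
  simp only [pow_zero, inv_one, one_smul, z, smul_zero, add_zero]
  congr 1
  refine Finset.sum_congr rfl fun j _ => ?_
  have e : ((G.La : ℝ) ^ (j + 1))⁻¹ * G.La = ((G.La : ℝ) ^ j)⁻¹ := by field_simp; ring
  rw [smul_smul, smul_smul, e]
  congr 1
  ring

theorem sig_div (ξ v : R3) (h : ∑ i, ξ i * v i = 0) : ∑ i, ξ i * ∑ j, sig G ξ i j * v j = 0 := by
  rcases sig_cases (G := G) ξ with ⟨e, -⟩ | ⟨F, g, -, -, e⟩
  · simp only [e, quad, Fin.sum_univ_three] at h ⊢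
    simp only [Fin.reduceEq, if_true, if_false]
    linear_combination (G.C * (ξ 0 ^ 2 + ξ 1 ^ 2 + ξ 2 ^ 2)) * h
  · have o := inner_xi_lp (WithLp.toLp 2 ξ) (ge g (F.e G))
    rw [inner_E3] at o
    simp only [e, quad, ct, Pi.sub_apply, Fin.sum_univ_three] at h o ⊢
    simp only [Fin.reduceEq, if_true, if_false]
    generalize lp (WithLp.toLp 2 ξ) (ge g (F.e G)) = l at o ⊢
    generalize ur (WithLp.toLp 2 ξ) (ge g (F.e G)) = u
    linear_combination (G.C * (ξ 0 ^ 2 + ξ 1 ^ 2 + ξ 2 ^ 2) - wid G F (ofs G F g ξ) *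
      (G.C * (ξ 0 ^ 2 + ξ 1 ^ 2 + ξ 2 ^ 2) - G.Gc F.ix)) * h -
      chi G F (ofs G F g ξ) * (G.Gc F.ix - F.dd G) * (u 0 * v 0 + u 1 * v 1 + u 2 * v 2) * o

end

end Pool.Agent.Work.MP_6bf1e5_an.Ell.Pd
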