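import Pool.Agent.Work.MP_6bf1e5_an.Ell.Modes
import Pool.Agent.Work.MP_6bf1e5_an.Sym.Classic

/-!
Symbols which act on the lattice as the damping operator.
-/

open Set Complex
open scoped InnerProductSpace ComplexConjugate Classical
open Pool.Agent.Work.MP_6bf1e5_an.B
open Pool.Agent.Work.MP_6bf1e5_an.Dec

namespace Pool.Agent.Work.MP_6bf1e5_an.Ell

noncomputable section

variable (G : Geo)

/-- The symbol acts on the lattice as `AR`. -/
structure Symb (σ : R3 → M3) : Prop where
  ell : IsEllipticSymbol σ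
  lat : ∀ (k : Z3) (x : E3) (i : Fin 3), ∑ j, σ (Sy.fq k) i j * x j = AR G k x i

end

end Pool.Agent.Work.MP_6bf1e5_an.Ell
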