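import Pool.Agent.Work.MP_6bf1e5_an.Ell.Sep
import Pool.Agent.Work.MP_6bf1e5_an.Ell.SymbDef

/-!
Odd symmetric data give a symmetric solution of the real system.
-/

open Set Complex
open scoped InnerProductSpace ComplexConjugate Classical
open Pool.Agent.Work.MP_6bf1e5_an.B
open Pool.Agent.Work.MP_6bf1e5_an.Dec

namespace Pool.Agent.Work.MP_6bf1e5_an.Ell.Pd

noncomputable section

variable {G : Geo}

/-- Multiplication of a real vector by `i`. -/
def irc : E3 →L[ℝ] C3 :=
  LinearMap.toContinuousLinearMap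
    { toFun := fun x => I • rc x
      map_add' := fun u v => by ext i; simp [rc, mul_add]
      map_smul' := fun c v => by ext i; simp [rc, mul_left_comm] }

/-- The imaginary part as a linear map. -/
def imL : C3 →L[ℝ] E3 :=
  LinearMap.toContinuousLinearMap
    { toFun := im3
      map_add' := fun u v => by ext i; simp [im3]
      map_smul' := fun c v => by ext i; simp [im3] }

/-- The action of the group as a linear map. -/
def geL (g : Gp) : E3 →L[ℝ] E3 :=
  LinearMap.toContinuousLinearMap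
    { toFun := ge g
      map_add' := ge_add g
      map_smul' := ge_smul g }

lemma irc_eq (x : E3) : I • rc x = irc x := rfl

lemma irc_apply (x : E3) (i : Fin 3) : irc x i = I * x i := rfl

lemma im3_irc (x : E3) : im3 (irc x) = x := by ext i; simp [im3, irc_apply]

lemma norm_irc (x : E3) : ‖irc x‖ = ‖x‖ := by
  simp [EuclideanSpace.norm_eq, irc_apply]

lemma dt_irc (x : E3) (k : Z3) : dt (irc x) k = I * (⟪xi k, x⟫_ℝ : ℝ) := by
  rw [dt_eq, inner_E3]
  simp only [irc_apply, xi, Fin.sum_univ_three]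
  push_cast; ring

lemma cj_irc (x : E3) : cj (irc x) = -irc x := by ext i; simp [irc_apply]

lemma eq_irc {v : C3} (h : -cj v = v) : v = irc (im3 v) := by
  ext i
  have : -conj (v i) = v i := congrArg (fun z : C3 => z i) h
  have e := congrArg Complex.re this
  simp only [neg_re, conj_re] at e
  apply Complex.ext <;> simp [irc_apply, im3]
  linarith

lemma LP_irc (k : Z3) (x : E3) : LP k (irc x) = irc (lp (xi k) x) := by
  rw [LP_apply, dt_irc, lp, ← ax_eq_norm]
  ext i
  simp [irc_apply, cxi, xi]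
  ring

lemma LP_cj' (k : Z3) (v : C3) : LP k (cj v) = cj (LP k v) := by
  rw [LP_apply, LP_apply, map_sub, cj_smul, cj_cxi, dt_cj, map_mul, map_inv₀, conj_ofReal]

lemma term_irc (β : Z3 → E3) (p q : Z3) :
    (I * dt (irc (β p)) q) • irc (β q) = -irc (tm β β p q) := by
  rw [dt_irc, tm, real_inner_comm, ← mul_assoc, I_mul_I, map_smul, neg_one_mul, neg_smul]
  rfl

lemma Bd_irc {s : ℕ} {β : Z3 → E3} {M : ℝ} : Bd s (fun k => irc (β k)) M ↔ Bd s β M := by
  simp only [Bd, norm_irc]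

lemma symm_summable {β : Z3 → E3} {M : ℝ} (H : Bd 1 β M) (k : Z3) :
    Summable fun p => tm β β p (k - p) := by
  have a := (summable_BB_term ((Bd_irc.mpr H).mono zero_le_one) (Bd_irc.mpr H) k).neg.map imL
    imL.continuous
  refine a.congr fun p => ?_
  simp only [Function.comp_apply, term_irc, neg_neg]
  exact im3_irc _

lemma BB_irc {β : Z3 → E3} {M : ℝ} (H : Bd 1 β M) (k : Z3) :
    BB (fun k => irc (β k)) (fun k => irc (β k)) k = -irc (BR β β k) := by
  simp only [BB, term_irc, BR, tsum_neg]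
  rw [irc.map_tsum (symm_summable H k)]

lemma mL_irc {σ : R3 → M3} (hσ : Symb G σ) (k : Z3) (x : E3) :
    Sy.mL (σ (Sy.fq k)) (irc x) = irc (AR G k x) := by
  ext i
  rw [Sy.mL_apply, irc_apply, ← hσ.lat]
  push_cast
  rw [Finset.mul_sum]
  exact Finset.sum_congr rfl fun j _ => by rw [irc_apply]; ring

lemma FF_irc {σ : R3 → M3} (hσ : Symb G σ) {β : Z3 → E3} {M : ℝ} (H : Bd 1 β M) {k : Z3}
    (dv : ⟪xi k, β k⟫_ℝ = 0) :
    FF (Sy.AS 1 σ) (fun k => irc (β k)) k = irc (rhs G β k) := by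
  have e : ⟪xi k, AR G k (β k)⟫_ℝ = 0 := by
    rw [AR, inner_sub_right, real_inner_smul_right, real_inner_smul_right, dv, inner_xi_Pj]
    ring
  rw [FF, BB_irc H, Sy.AS_apply, Sy.DS_apply, mL_irc hσ, ofReal_one, one_smul, map_neg, neg_neg,
    LP_irc, LP_irc, lp_of_orth e, rhs, map_sub]

lemma FF_theta (σ : R3 → M3) {a : Z3 → C3} {M : ℝ} (H : Bd 1 a M) (k : Z3) :
    FF (Sy.AS 1 σ) (fun k => -cj (a k)) k = -cj (FF (Sy.AS 1 σ) a k) := by
  have e : BB (fun k => -cj (a k)) (fun k => -cj (a k)) k = -cj (BB a a k) := by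
    rw [BB, BB, cj.map_tsum (summable_BB_term (H.mono zero_le_one) H k), ← tsum_neg]
    refine tsum_congr fun p => ?_
    rw [cj_smul, ← neg_one_smul ℂ (cj (a p)), dt_smul_left, dt_cj]
    simp
  rw [FF, FF, e, Sy.AS_apply, Sy.AS_apply, Sy.DS_apply, Sy.DS_apply, ofReal_one, one_smul, one_smul,
    map_neg, map_neg, map_neg, Sy.mL_cj, LP_cj', LP_cj', map_sub, map_neg]
  abel

lemma isSol_theta {σ : R3 → M3} {a : ℝ → Z3 → C3} {T : ℝ} (ha : IsSol (Sy.AS 1 σ) a 0 T) :
    IsSol (Sy.AS 1 σ) (fun t k => -cj (a t k)) 0 T where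
  bd s := (ha.bd s).imp fun M hM t ht => by simpa only [Bd, norm_neg, norm_cj] using hM t ht
  real t ht k := by simp only [ha.real t ht k, map_neg]
  div t ht k := by
    beta_reduce
    rw [← neg_one_smul ℂ (cj (a t k)), dt_smul_left, dt_cj, ha.div t ht k, map_zero, mul_zero]
  deriv k t ht := by
    obtain ⟨M, hM⟩ := ha.bd 1
    rw [FF_theta σ (hM t ht)]
    exact (cj.hasFDerivAt.comp_hasDerivWithinAt t (ha.deriv k t ht)).neg

lemma gz_gzE (g : Gp) (k : Z3) : gz g (gzE g k) = k := (gzE g).left_inv k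

lemma rhs_rot (g : Gp) {β : Z3 → E3} {M : ℝ} (H : Bd 1 β M) (k : Z3) :
    rhs G (fun k => ge g (β (gzE g k))) k = ge g (rhs G β (gzE g k)) := by
  have e : BR (fun k => ge g (β (gzE g k))) (fun k => ge g (β (gzE g k))) k =
      ge g (BR β β (gzE g k)) := by
    refine Eq.trans ?_ ((geL g).map_tsum (symm_summable H (gzE g k))).symm
    rw [BR, ← (gzE g).toEquiv.tsum_eq fun p => geL g (tm β β p (gzE g k - p))]
    refine tsum_congr fun p => ?_
    change _ = ge g (tm β β (gzE g p) (gzE g k - gzE g p))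
    rw [tm, tm, ge_smul, ← map_sub, ← inner_ge g (β (gzE g p)), ← xi_gz, gz_gzE]
  rw [rhs, rhs, e, ge_sub, ← lp_ge, ← AR_gz, ← xi_gz, gz_gzE]

lemma Bd_rot (g : Gp) {s : ℕ} {β : Z3 → E3} {M : ℝ} (H : Bd s β M) :
    Bd s (fun k => ge g (β (gzE g k))) M := fun F => by
  have := H (F.map (gzE g).toEquiv.toEmbedding)
  rw [Finset.sum_map] at this
  refine le_of_eq_of_le (Finset.sum_congr rfl fun k _ => ?_) this
  change _ = w (gzE g k) ^ s * ‖β (gzE g k)‖
  rw [norm_ge, w, w, ← ax_gz g (gzE g k), gz_gzE]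

theorem rsol_of_isSol {σ : R3 → M3} (hσ : Symb G σ) {β : Z3 → E3} (hβ : Adm β)
    {a : ℝ → Z3 → C3} (h0 : a 0 = fun k => I • rc (β k)) (ha : ∀ T, IsSol (Sy.AS 1 σ) a 0 T) :
    RSol G (fun t k => im3 (a t k)) ∧ (fun k => im3 (a 0 k)) = β := by
  have hA := Sy.diss_AS hσ.ell one_pos
  have i0 : (fun k => im3 (a 0 k)) = β := by
    funext k
    rw [h0]; exact im3_irc _
  set α : ℝ → Z3 → E3 := fun t k => im3 (a t k) with hα
  have odd : ∀ t, 0 ≤ t → a t = fun k => irc (α t k) := fun t ht => by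
    have := (isSol_theta (ha t)).unique hA (ha t) (by
      funext k
      simp only [h0, irc_eq, cj_irc, neg_neg]) t ⟨ht, le_rfl⟩
    funext k
    exact eq_irc (congrFun this k)
  have bd : ∀ (s : ℕ) (T : ℝ), ∃ M, ∀ t ∈ Icc 0 T, Bd s (α t) M := fun s T =>
    ((ha T).bd s).imp fun M hM t ht => Bd_irc.mp (odd t ht.1 ▸ hM t ht)
  have dv : ∀ t, 0 ≤ t → ∀ k, ⟪xi k, α t k⟫_ℝ = 0 := fun t ht k => by
    have := (ha t).div t ⟨ht, le_rfl⟩ k
    rw [odd t ht, dt_irc] at this
    exact_mod_cast (mul_eq_zero.mp this).resolve_left I_ne_zero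
  have ng : ∀ t, 0 ≤ t → ∀ k, α t (-k) = -α t k := fun t ht k => by
    have := (ha t).real t ⟨ht, le_rfl⟩ k
    rw [odd t ht] at this
    simp only [cj_irc, ← map_neg] at this
    rw [← im3_irc (α t (-k)), this, im3_irc]
  have de : ∀ T k, ∀ t ∈ Icc 0 T, HasDerivWithinAt (fun t => α t k) (rhs G (α t) k) (Icc 0 T) t :=
    fun T k t ht => by
      obtain ⟨M, hM⟩ := bd 1 T
      have := imL.hasFDerivAt.comp_hasDerivWithinAt t ((ha T).deriv k t ht)
      rw [odd t ht.1, FF_irc hσ (hM t ht) (dv t ht.1 k)] at this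
      exact this.congr_deriv (im3_irc _)
  have rot : ∀ g T, IsSol (Sy.AS 1 σ) (fun t k => irc (ge g (α t (gzE g k)))) 0 T := fun g T =>
    { bd := fun s => (bd s T).imp fun M hM t ht => Bd_irc.mpr (Bd_rot g (hM t ht))
      real := fun t ht k => by
        simp only [map_neg, ng t ht.1, cj_irc]
        rw [← map_neg]
        exact congrArg _ (map_neg (geL g) _)
      div := fun t ht k => by
        have := dv t ht.1 (gzE g k)
        rw [← inner_ge g, ← xi_gz, gz_gzE] at this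
        rw [dt_irc, this, ofReal_zero, mul_zero]
      deriv := fun k t ht => by
        obtain ⟨M, hM⟩ := bd 1 T
        have := dv t ht.1 (gzE g k)
        rw [← inner_ge g, ← xi_gz, gz_gzE] at this
        rw [FF_irc hσ (β := fun k => ge g (α t (gzE g k))) (Bd_rot g (hM t ht)) this,
          rhs_rot g (hM t ht)]
        exact (irc.comp (geL g)).hasFDerivAt.comp_hasDerivWithinAt t (de T _ t ht) }
  refine ⟨⟨bd, fun t ht => ⟨fun s => (bd s t).imp fun M hM => hM t ⟨ht, le_rfl⟩, fun g k => ?_,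
    dv t ht⟩, fun k t ht => ?_⟩, i0⟩
  · have := (rot g t).unique hA (ha t) (by
      funext k
      have e : α 0 = β := i0
      rw [h0, e, ← hβ.sym, gz_gzE]; rfl) t ⟨ht, le_rfl⟩
    have e := congrArg im3 (congrFun this (gz g k))
    rw [im3_irc, show gzE g (gz g k) = k from (gzE g).right_inv k] at e
    exact e.symm
  · refine (de (t + 1) k t ⟨ht, by linarith⟩).mono_of_mem_nhdsWithin ?_
    rw [← Ici_inter_Iic]
    exact inter_mem_nhdsWithin _ (Iic_mem_nhds (by linarith))

lemma isReal_of_adm {β : Z3 → E3} (hβ : Adm β) : IsReal fun k => I • rc (β k) := fun k => by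
  simp only [irc_eq]
  rw [← gz_neg_one, hβ.sym, ge_neg_one, map_neg, cj_irc]

lemma divFree_of_adm {β : Z3 → E3} (hβ : Adm β) : DivFree fun k => I • rc (β k) := fun k => by
  simp only [irc_eq]
  rw [dt_irc, hβ.div, ofReal_zero, mul_zero]

end

end Pool.Agent.Work.MP_6bf1e5_an.Ell.Pd
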