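import Pool.Agent.Work.MP_6bf1e5_an.Ell.EqB
import Pool.Agent.Work.MP_6bf1e5_an.Ell.EqC
import Pool.Agent.Work.MP_6bf1e5_an.Ell.EqY
import Pool.Agent.Work.MP_6bf1e5_an.Ell.Duh
import Pool.Agent.Work.MP_6bf1e5_an.Ell.Data
import Pool.Agent.Work.MP_6bf1e5_an.Ell.Symm
import Pool.Agent.Work.MP_6bf1e5_an.Ell.SymbD

/-!
A global solution gives an envelope system.
-/

open Set Complex
open scoped InnerProductSpace ComplexConjugate Classical
open Pool.Agent.Work.MP_6bf1e5_an.B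
open Pool.Agent.Work.MP_6bf1e5_an.Dec

namespace Pool.Agent.Work.MP_6bf1e5_an.Ell.Pd

noncomputable section

variable {G : Geo} {α : ℝ → Z3 → E3}

lemma rl_tooth (F : Fam) (x : Z3) (ω : ℝ) (β : Z3 → E3) : Rl (tooth G F x ω β) := fun h => by
  rw [tooth, coeff_mk]
  split_ifs
  · exact ofReal_im _
  · rfl

lemma rl_zero : Rl 0 := fun _ => rfl

theorem isNet (H : RSol G α)
    (ib : ∀ j o, (rawOf G α).b j o 0 = ((Raw.AA0 G j * (rawOf G α).un G j : ℝ) : ℂ) • G.φ j)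
    (ic : ∀ j o, (rawOf G α).c j o 0 =
      (((if j = G.kk then Raw.AA0 G j else 0) * (rawOf G α).un G j : ℝ) : ℂ) • G.φ j)
    (iy : ∀ j i, (rawOf G α).y j (i + 1) 0 = 0) (iF : (rawOf G α).Fj 0 = 0)
    (iH : (rawOf G α).Hj 0 = 0) : IsNet G (rawOf G α) where
  kp_pos := kp_pos G
  kp_lo := kp_lo G
  kp_hi := kp_hi G
  om_lo := om_lo G
  om_hi := om_hi G
  cy_lo := cy_lo G
  cy_hi := cy_hi G
  cf_lo := cf_lo G
  cf_hi := cf_hi G
  cq_le := cq_le G
  spb j o t := sp_mk _ _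
  spc j o t := by
    cases j with
    | zero => exact sp_zero _
    | succ j => exact sp_mk _ _
  spy j i t := by
    simp only [rawOf, Nat.add_eq_zero_iff, one_ne_zero, and_false, if_false]
    split_ifs
    · rw [env_eq_tooth]; exact sp_mk _ _
    · exact sp_zero _
  rlb j o t := rl_tooth _ _ _ _
  rlc j o t := by
    cases j with
    | zero => exact rl_zero
    | succ j => exact rl_tooth _ _ _ _
  rly j i t := by
    simp only [rawOf]
    split_ifs
    · exact (rl_env _ _).tau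
    · exact rl_env _ _
    · exact rl_zero
  c0 o t := rfl
  y0 j t := y_zero j
  yend j t := by simp [rawOf]
  layb j := lay_tooth (.b j)
  layc j := by
    cases j with
    | zero => exact lay_zero _ _
    | succ j =>
      have e : (rawOf G α).vc (j + 1) = lay G (.c j) := by simp [rawOf]
      rw [e]
      exact (lay_tooth (.c j)).mono (ell_mono j)
  layy j i := lay_tooth (.y j i)
  eqB0 o t ht := eqB0 H o ht
  eqB j o t ht := eqB H j o ht
  eqC j o t ht := eqC H j o ht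
  eqY j i t hi ht := eqY H j i hi ht
  U_nonneg t := tsum_nonneg fun _ => norm_nonneg _
  H_nonneg t := Real.sqrt_nonneg _
  Fj_nonneg t := tsum_nonneg fun _ => norm_nonneg _
  Hj_nonneg t := Real.sqrt_nonneg _
  ET_nonneg i t := tsum_nonneg fun _ => sq_nonneg _
  U_le t K ht hK := U_le (H.adm t ht) hK
  H_le t K ht hK := H_le (H.adm t ht) hK
  ET_le i t K ht hK := ET_le (H.adm t ht) i hK
  contU := contU H
  contH := contH H
  duh t0 t1 U0 H0 h0 h1 hU hH := ⟨duh_F H h0 h1 hU, duh_H H h0 h1 hU hH⟩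
  decay := decay H
  initb := ib
  initc := ic
  inity := iy
  initF := iF
  initH := iH

/-- The reduction of the blow-up theorem to the envelope system. -/
theorem blowup_of_noNet (G : Geo) (no : ∀ R, ¬IsNet G R) : ∃ D : R3 → M3, IsEllipticSymbol D ∧
    (∃ L R : ℝ, 1 < L ∧ ∀ ξ : R3, R ≤ ‖ξ‖ → D (L • ξ) = L ^ 2 • D ξ) ∧
    (∀ ξ v : R3, ∑ i, ξ i * v i = 0 → ∑ i, ξ i * ∑ j, D ξ i j * v j = 0) ∧
    ∀ ν : ℝ, 0 < ν → ∃ u0 : R3 → R3, IsData u0 ∧ {k | fc u0 k ≠ 0}.Finite ∧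
      (∃ T > 0, ∃ u p, IsSolutionOn (symDiss ν D) u0 (Ico 0 T) u p ∧
        (∀ t ∈ Ico 0 T, HasDerivWithinAt (fun s => energy fun x => u x s)
          (-(2 * ν * dissip D fun x => u x t)) (Ico 0 T) t) ∧
        ∀ M : ℝ, ∃ t ∈ Ico 0 T, ∃ x, M < ‖u x t‖) ∧
      ¬∃ u p, IsSolutionOn (symDiss ν D) u0 (Ici 0) u p := by
  obtain ⟨β, hβ, fin, hd⟩ := exists_data G
  refine ⟨sig G, symb_sig.ell, sig_scale, sig_div, Sy.blowup_all symb_sig.ell (a0 := fun k => I • rc (β k))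
    (fin.subset fun k hk h0 => hk ?_) (isReal_of_adm hβ) (divFree_of_adm hβ) ?_⟩
  · beta_reduce
    rw [h0]
    ext i
    simp [rc]
  · rintro ⟨a, a0, ha⟩
    obtain ⟨H, e⟩ := rsol_of_isSol symb_sig hβ a0 ha
    obtain ⟨i1, i2, i3, i4, i5⟩ := hd (fun t k => im3 (a t k)) e
    exact no _ (isNet H i1 i2 i3 i4 i5)

end

end Pool.Agent.Work.MP_6bf1e5_an.Ell.Pd
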