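import Pool.Agent.Work.MP_6bf1e5_an.Ell.Combo
import Pool.Agent.Work.MP_6bf1e5_an.Ell.Crude

/-!
The passage to the next stage.
-/

open Set Complex Filter Topology
open scoped InnerProductSpace ComplexConjugate
open Pool.Agent.Work.MP_6bf1e5_an.B (Z3 R3)
open Pool.Agent.Work.MP_6bf1e5_an.Dec

namespace Pool.Agent.Work.MP_6bf1e5_an.Ell

noncomputable section

/-- The coefficients of `g 0 + M (g 0 - g o)`. -/
def mm (M : ℝ) (o : Fin 4) : Fin 4 → ℝ :=
  fun k => (if k = 0 then 1 + M else 0) - if k = o then M else 0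

lemma mm_sum (M : ℝ) (o : Fin 4) : ∑ k, mm M o k = 1 := by
  simp [mm, Finset.sum_sub_distrib]

lemma mm_abs (M : ℝ) (o : Fin 4) : ∑ k, |mm M o k| ≤ 1 + 2 * |M| := by
  have : ∀ k, |mm M o k| ≤ (if k = 0 then 1 + |M| else 0) + if k = o then |M| else 0 := fun k => by
    refine (abs_sub _ _).trans (add_le_add ?_ ?_)
    · split_ifs
      · simpa using abs_add_le 1 M
      · simp
    · split_ifs <;> simp
  refine (Finset.sum_le_sum fun k _ => this k).trans (le_of_eq ?_)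
  simp [Finset.sum_add_distrib]; ring

lemma cmb_mm (M : ℝ) (o : Fin 4) (g : Fin 4 → V) :
    cmb (mm M o) g = g 0 + (M : ℂ) • (g 0 - g o) := by
  have : ∀ k, ((mm M o k : ℝ) : ℂ) • g k =
      (if k = 0 then (1 + M : ℂ) • g k else 0) - if k = o then (M : ℂ) • g k else 0 := fun k => by
    unfold mm; split_ifs <;> push_cast <;> module
  simp only [cmb, this, Finset.sum_sub_distrib, Finset.sum_ite_eq', Finset.mem_univ, if_true]
  module

lemma al_comb (n : N3) (p b c b' c' : V) (M : ℝ) :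
    al n p (b + (M : ℂ) • b') (c + (M : ℂ) • c') = al n p b c + M * al n p b' c' := by
  simp only [al, inner_add_right, inner_smul_right, add_re, re_ofReal_mul]; ring

lemma le_of_cone {B C : V} {x : ℝ} (hx : 0 ≤ x) (h : nr B C ^ 2 ≤ (1 / 2 + 1 / 10 ^ 62) * x ^ 2) :
    ‖B‖ ≤ x ∧ ‖C‖ ≤ x := by
  have : nr B C ≤ x := abs_le_of_sq_le_sq' (by linarith [sq_nonneg x]) hx |>.2
  exact ⟨(le_nr_1 B C).trans this, (le_nr_2 B C).trans this⟩

lemma norm_le_of_pm {b b' : V} {M x y : ℝ} (hM : 0 < M) (h1 : ‖b + (M : ℂ) • b'‖ ≤ x + y)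
    (h2 : ‖b + ((-M : ℝ) : ℂ) • b'‖ ≤ x - y) : ‖b'‖ ≤ x / M := by
  have e : ((2 * M : ℝ) : ℂ) • b' = (b + (M : ℂ) • b') - (b + ((-M : ℝ) : ℂ) • b') := by
    push_cast; module
  have := norm_sub_le (b + (M : ℂ) • b') (b + ((-M : ℝ) : ℂ) • b')
  rw [← e, norm_smul, Complex.norm_real, Real.norm_of_nonneg (by linarith)] at this
  rw [le_div_iff₀ hM]; linarith

variable {G : Geo} {R : Raw} {j : ℕ} {t0 c g0 : ℝ} {AA : ℕ → ℝ}

namespace Run

variable (H : IsNet G R) (S : Run G R j AA t0 c g0)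

include H S

lemma stop' (ha : R.aa G (j + 1) c < 10) :
    R.nl G (j + 2) c = G.xs * Ex t0 (AA (j + 1)) g0 c * R.bh G (j + 2) ∧
      ∃ᶠ t in 𝓝[>] c, G.xs * Ex t0 (AA (j + 1)) g0 t * R.bh G (j + 2) < R.nl G (j + 2) t := by
  refine S.stop.resolve_left fun e => ?_
  have := (S.cur H c ⟨S.le, le_rfl⟩).near
  rw [e] at this
  linarith [(abs_le.mp this).1]

lemma aa_lo : 21 / 10 ≤ R.aa G (j + 1) c := by
  by_contra h
  push Not at h
  obtain ⟨e, fr⟩ := S.stop' H (by linarith)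
  obtain ⟨g, hg⟩ := S.exists_cmp H
  have hc : c ∈ Icc t0 c := ⟨S.le, le_rfl⟩
  have h1 := (S.sc H hg).early hc (S.cross H e fr) h.le
  have h2 := (S.upp H hg c hc).lev
  have h3 := (S.bnd c hc).Elo
  have N1 := G.N_pos (j + 1)
  have T0 := G.t_pos
  have b0 := H.bh_pos (j + 2)
  have x0 := G.xs_pos
  have h4 : R.nl G (j + 2) c ≤ 20 * G.t ^ 32 * (Real.exp (-G.t ^ 41) * R.bh G (j + 2)) := by
    have l0 := R.lev_nonneg (j + 2) c
    rw [le_div_iff₀ N1] at h2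
    calc R.nl G (j + 2) c = G.N (j + 2) * R.lev (j + 2) c := rfl
      _ ≤ G.t ^ 32 * G.N (j + 1) * R.lev (j + 2) c := by gcongr; exact G.N_succ_hi (j + 1)
      _ = G.t ^ 32 * (R.lev (j + 2) c * G.N (j + 1)) := by ring
      _ ≤ G.t ^ 32 * (20 * (Real.exp (-G.t ^ 41) * R.bh G (j + 2))) := by
        exact mul_le_mul_of_nonneg_left (h2.trans (by linarith)) (by positivity)
      _ = _ := by ring
  have h5 : G.xs * G.xs * R.bh G (j + 2) ≤ R.nl G (j + 2) c := by rw [e]; gcongr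
  have h6 := G.cpoly_exp (k := 92) (x := -G.t ^ 41) (y := 0) (by norm_num)
    (by linarith [G.pow_le (a := 1) (b := 41) (by norm_num), pow_one G.t])
  have h7 : G.xs * G.xs ≤ 20 * G.t ^ 32 * Real.exp (-G.t ^ 41) :=
    le_of_mul_le_mul_right (by linarith) b0
  have h8 : G.t ^ 60 * (G.xs * G.xs) = 1 := by unfold Geo.xs; field_simp
  have h9 : G.t ^ 60 * (G.xs * G.xs) ≤ G.t ^ 60 * (20 * G.t ^ 32 * Real.exp (-G.t ^ 41)) := by
    gcongr
  rw [Real.exp_zero] at h6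
  linarith

lemma aa_hi : R.aa G (j + 1) c < 99 / 10 := by
  by_contra h
  push Not at h
  obtain ⟨g, hg⟩ := S.exists_cmp H
  have hc : c ∈ Icc t0 c := ⟨S.le, le_rfl⟩
  have T0 := G.t_pos
  have T1 := G.one_le_t
  have h1 := (S.sc H hg).late h
  have h2 := (S.combo H hg (S.aa_lo H) (mm_sum 0 0) ((mm_abs 0 0).trans (by
    have := one_le_pow₀ (n := 10) T1
    simp; linarith))).1
  have h3 := abs_al_le (S.cur H c hc).pp.1 (G.rb (j + 2)) (R.b (j + 2) 0 c) (R.c (j + 2) 0 c)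
  have h4 := R.nr_le_lev (j + 2) 0 c
  have h5 := (S.bnd c hc).up.nw
  have h6 := (S.bnd c hc).Ehi
  have N2 := G.N_pos (j + 2)
  have b0 := H.bh_pos (j + 2)
  have x0 := G.xs_pos
  have x1 : G.xs ≤ 1 := inv_le_one_of_one_le₀ (one_le_pow₀ T1)
  simp only [alm, cmb_mm, ofReal_zero, zero_smul, add_zero] at h2
  have n0 := nr_nonneg (R.b (j + 2) 0 c) (R.c (j + 2) 0 c)
  have h7 : al (G.rb (j + 2)) (R.pp G (j + 1) c) (R.b (j + 2) 0 c) (R.c (j + 2) 0 c) ≤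
      2 * R.lev (j + 2) c :=
    (abs_le_of_sq_le_sq' (by nlinarith) (by linarith)).2
  have h8 : G.xs * Ex t0 (AA (j + 1)) g0 c * R.bh G (j + 2) ≤ 1 * (21 / 2) * R.bh G (j + 2) := by
    have := (S.bnd c hc).Elo
    gcongr
    linarith
  have h9 : Real.exp (-(G.t ^ 19 / 2)) * (Real.exp (G.t ^ 41) * R.bh G (j + 2)) ≤
      21 * R.bh G (j + 2) :=
    calc _ ≤ Real.exp (-(G.t ^ 19 / 2)) * g c := by gcongr
      _ ≤ _ := h2
      _ ≤ G.N (j + 2) * (2 * R.lev (j + 2) c) := by gcongr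
      _ = 2 * R.nl G (j + 2) c := by unfold Raw.nl; ring
      _ ≤ _ := by linarith
  rw [← mul_assoc, ← Real.exp_add] at h9
  have h10 := le_of_mul_le_mul_right h9 b0
  have h11 := G.cpoly_exp (k := 0) (x := 0) (y := -(G.t ^ 19 / 2) + G.t ^ 41) (by norm_num)
    (by linarith [G.gap_pow (a := 19) (b := 41) (by norm_num) (by norm_num), pow_pos T0 19])
  simp only [pow_zero, Real.exp_zero] at h11
  linarith

/-- The shape of the new level at the end of the stage. -/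
lemma shape : ∃ x : ℝ, 0 < x ∧
    (∀ o, ‖R.b (j + 2) o c - (x : ℂ) • G.φ (j + 2)‖ ≤ 1 / 10 ^ 30 * x) ∧
    (∀ o, ‖R.c (j + 2) o c - (x : ℂ) • G.φ (j + 2)‖ ≤ 1 / 10 ^ 30 * x) ∧
    (∀ o o', ‖R.b (j + 2) o c - R.b (j + 2) o' c‖ ≤ G.ι * x) ∧
    ∀ o o', ‖R.c (j + 2) o c - R.c (j + 2) o' c‖ ≤ G.ι * x := by
  obtain ⟨g, hg⟩ := S.exists_cmp H
  have hc : c ∈ Icc t0 c := ⟨S.le, le_rfl⟩
  have T0 := G.t_pos
  have T1 := G.one_le_t
  have N2 := G.N_pos (j + 2)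
  have M1 := one_le_pow₀ (n := 10) T1
  have M0 : 0 < G.t ^ 10 := by positivity
  have gp : 0 < g c :=
    lt_of_lt_of_le (mul_pos (Real.exp_pos _) (H.bh_pos _)) ((S.sc H hg).floor c hc)
  have hp := (S.cur H c hc).pp.1
  set p := R.pp G (j + 1) c
  set b := fun o => R.b (j + 2) o c with hb
  set c' := fun o => R.c (j + 2) o c with hc'
  set A := al (G.rb (j + 2)) p (b 0) (c' 0) with hA
  have key : ∀ M o, |M| ≤ G.t ^ 10 →
      0 < A + M * al (G.rb (j + 2)) p (b 0 - b o) (c' 0 - c' o) ∧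
      nr (b 0 + (M : ℂ) • (b 0 - b o)) (c' 0 + (M : ℂ) • (c' 0 - c' o)) ^ 2 ≤ (1 / 2 + 1 / 10 ^ 62) *
        (A + M * al (G.rb (j + 2)) p (b 0 - b o) (c' 0 - c' o)) ^ 2 := fun M o hM => by
    have := S.combo H hg (S.aa_lo H) (mm_sum M o) ((mm_abs M o).trans (by linarith))
    simp only [alm, cmb_mm, al_comb] at this
    exact ⟨(mul_pos_iff_of_pos_left N2).mp ((mul_pos (Real.exp_pos _) gp).trans_le this.1), this.2⟩
  obtain ⟨A0, k0⟩ := key 0 0 (by simpa using M0.le)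
  simp only [ofReal_zero, zero_smul, add_zero, zero_mul] at A0 k0
  have dif : ∀ o, ‖b 0 - b o‖ ≤ A / G.t ^ 10 ∧ ‖c' 0 - c' o‖ ≤ A / G.t ^ 10 := fun o => by
    obtain ⟨p1, p2⟩ := key (G.t ^ 10) o (abs_of_pos M0).le
    obtain ⟨p3, p4⟩ := key (-G.t ^ 10) o (by rw [abs_neg, abs_of_pos M0])
    obtain ⟨q1, q2⟩ := le_of_cone p1.le p2
    obtain ⟨q3, q4⟩ := le_of_cone p3.le p4
    rw [neg_mul, ← sub_eq_add_neg] at q3 q4
    exact ⟨norm_le_of_pm M0 q1 q3, norm_le_of_pm M0 q2 q4⟩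
  obtain ⟨k1, k2⟩ := cone_close (n := G.rb (j + 2)) hp k0
  rw [← hA] at k1 k2
  have k3 : ‖b 0 - ((A / 2 : ℝ) : ℂ) • G.φ (j + 2)‖ ≤ 1 / 10 ^ 31 * A :=
    (abs_le_of_sq_le_sq' (k1.trans_eq (by ring)) (by positivity)).2
  have k4 : ‖c' 0 - ((A / 2 : ℝ) : ℂ) • (p * G.φ (j + 2))‖ ≤ 1 / 10 ^ 31 * A :=
    (abs_le_of_sq_le_sq' (k2.trans_eq (by ring)) (by positivity)).2
  have k5 : ‖p * G.φ (j + 2) - G.φ (j + 2)‖ ≤ 200 / G.t ^ 17 :=
    hp.norm_mul_ph_sub G.t_big (G.rb_succ (j + 1))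
  have s1 : A / G.t ^ 10 ≤ 1 / 10 ^ 31 * A := by
    rw [div_le_iff₀ M0]
    have := G.pow_lt (a := 0) (b := 10) (by norm_num)
    nlinarith
  have s2 : 200 / G.t ^ 17 ≤ 1 / 10 ^ 31 := by
    rw [div_le_iff₀ (by positivity)]
    have := G.pow_lt (a := 0) (b := 17) (by norm_num)
    linarith [pow_zero G.t]
  have s3 : G.ι * (A / 2) = 5 * (A / G.t ^ 10) := by unfold Geo.ι; field_simp; norm_num
  have s4 : 0 ≤ A / G.t ^ 10 := by positivity
  refine ⟨A / 2, by linarith, fun o => ?_, fun o => ?_, fun o o' => ?_, fun o o' => ?_⟩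
  · have := norm_sub_le_norm_sub_add_norm_sub (b o) (b 0) (((A / 2 : ℝ) : ℂ) • G.φ (j + 2))
    rw [norm_sub_rev (b o) (b 0)] at this
    linarith [(dif o).1]
  · have q1 := norm_sub_le_norm_sub_add_norm_sub (c' o) (c' 0) (((A / 2 : ℝ) : ℂ) • G.φ (j + 2))
    have q2 := norm_sub_le_norm_sub_add_norm_sub (c' 0) (((A / 2 : ℝ) : ℂ) • (p * G.φ (j + 2)))
      (((A / 2 : ℝ) : ℂ) • G.φ (j + 2))
    rw [norm_sub_rev (c' o) (c' 0)] at q1
    rw [← smul_sub, norm_smul, Complex.norm_real, Real.norm_of_nonneg (by linarith)] at q2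
    have q3 : A / 2 * ‖p * G.φ (j + 2) - G.φ (j + 2)‖ ≤ A / 2 * (1 / 10 ^ 31) := by
      gcongr; exact k5.trans s2
    linarith [(dif o).2]
  · have := norm_sub_le_norm_sub_add_norm_sub (b o) (b 0) (b o')
    rw [norm_sub_rev (b o) (b 0)] at this
    linarith [(dif o).1, (dif o').1]
  · have := norm_sub_le_norm_sub_add_norm_sub (c' o) (c' 0) (c' o')
    rw [norm_sub_rev (c' o) (c' 0)] at this
    linarith [(dif o).2, (dif o').2]

end Run

lemma norm_near {f φ : V} {x e : ℝ} (hφ : ‖φ‖ = 1) (hx : 0 ≤ x) (h : ‖f - (x : ℂ) • φ‖ ≤ e) :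
    x - e ≤ ‖f‖ ∧ ‖f‖ ≤ x + e := by
  have := abs_norm_sub_norm_le f ((x : ℂ) • φ)
  rw [norm_smul, hφ, Complex.norm_real, Real.norm_of_nonneg hx, mul_one] at this
  constructor <;> linarith [(abs_le.mp this).1, (abs_le.mp this).2]

theorem St.next {G : Geo} {R : Raw} (H : IsNet G R) {J : ℕ} {t0 : ℝ} {AA : ℕ → ℝ}
    (S : St G R J t0 AA) : ∃ t1 AA', t1 ≤ t0 + G.Δ J ∧ St G R (J + 1) t1 AA' := by
  obtain ⟨j, rfl⟩ : ∃ j, J = j + 1 := ⟨J - 1, by have := S.kJ; have := G.ten_le_kk; omega⟩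
  obtain ⟨c, g0, Q⟩ := S.run H
  have hc : c ∈ Icc t0 c := ⟨Q.le, le_rfl⟩
  have lo := Q.aa_lo H
  have hi := Q.aa_hi H
  obtain ⟨e, -⟩ := Q.stop' H (by linarith)
  obtain ⟨x, x0, s1, s2, s3, s4⟩ := Q.shape H
  have B := Q.bnd c hc
  have C := Q.cur H c hc
  have Eh := B.Ehi
  have El : 2 ≤ Ex t0 (AA (j + 1)) g0 c := by linarith [(abs_le.mp C.near).2]
  set E := Ex t0 (AA (j + 1)) g0 c
  have u1 := H.un_pos (j + 1)
  have u2 := H.un_pos (j + 2)
  have b1 := H.bh_pos (j + 1)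
  have b2 := H.bh_pos (j + 2)
  have N2 := G.N_pos (j + 2)
  have xs := G.xs_pos
  have th := G.θ_pos
  let AA' : ℕ → ℝ := fun i =>
    if i = j + 1 then R.aa G (j + 1) c else if i = j + 2 then x / R.un G (j + 2) else AA i
  have a0 : ∀ i < j + 1, AA' i = AA i := fun i hi => by
    simp only [AA']; rw [if_neg (by omega), if_neg (by omega)]
  have a1 : AA' (j + 1) = R.aa G (j + 1) c := by simp [AA']
  have a2 : AA' (j + 2) = x / R.un G (j + 2) := by simp [AA']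
  have a3 : AA' (j + 2) * R.un G (j + 2) = x := by rw [a2]; field_simp
  have hf : (1 - (1 / 2 : ℝ) ^ (j + 1 + 1 - (j + 1))) = 1 / 2 := by
    rw [Nat.add_sub_cancel_left]; norm_num
  have l1 : 9 / 10 * x ≤ R.lev (j + 2) c := by
    linarith [(norm_near (G.norm_φ _) x0.le (s1 0)).1, R.b_le_lev (j + 2) 0 c]
  have l2 : R.lev (j + 2) c ≤ 4 * x := by
    refine (abs_le_of_sq_le_sq' ?_ (by linarith)).2
    rw [R.lev_sq]
    have : ∀ o, ‖R.b (j + 2) o c‖ ^ 2 + ‖R.c (j + 2) o c‖ ^ 2 ≤ 4 * x ^ 2 := fun o => by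
      have q1 : ‖R.b (j + 2) o c‖ ≤ 11 / 10 * x := by
        linarith [(norm_near (G.norm_φ _) x0.le (s1 o)).2]
      have q2 : ‖R.c (j + 2) o c‖ ≤ 11 / 10 * x := by
        linarith [(norm_near (G.norm_φ _) x0.le (s2 o)).2]
      have q3 := pow_le_pow_left₀ (norm_nonneg _) q1 2
      have q4 := pow_le_pow_left₀ (norm_nonneg _) q2 2
      linarith [sq_nonneg x]
    refine (Finset.sum_le_sum fun o _ => this o).trans (le_of_eq ?_)
    simp; ring
  have e' : G.N (j + 2) * R.lev (j + 2) c = G.xs * E * R.bh G (j + 2) := e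
  have uh := H.un_hi (j + 2)
  have ul := H.un_lo (j + 2)
  refine ⟨c, AA', Q.le', by have := S.kJ; omega, B.t0, fun i hi' => ?_, fun i hi' o => ?_,
    fun i hi' o => ?_, fun i hi' => ?_, ?_, fun o => ?_, fun o => ?_, fun o o' => ?_,
    fun o o' => ?_, fun i hi' => ?_, fun i hi' => ?_, Q.Fj, Q.Hj⟩
  · rcases (Nat.lt_succ_iff.mp hi').eq_or_lt with rfl | h
    · rw [a1]; constructor <;> linarith
    · rw [a0 i h]; exact B.oldA i h
  · rcases (Nat.lt_succ_iff.mp hi').eq_or_lt with rfl | h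
    · rw [a1, hf]
      refine (C.clb o).trans ?_
      nlinarith
    · rw [a0 i h]; exact B.oldb i h o
  · rcases (Nat.lt_succ_iff.mp hi').eq_or_lt with rfl | h
    · rw [hf]
      have := (norm_near (G.norm_φ _) (by positivity) (C.clc o)).2
      nlinarith
    · exact B.oldc i h o
  · rcases (Nat.lt_succ_iff.mp hi').eq_or_lt with rfl | h
    · rw [hf]
      refine B.cury.trans ?_
      nlinarith
    · exact B.oldy i h
  · change G.xs ≤ AA' (j + 2) ∧ AA' (j + 2) ≤ 10 ^ 3 * G.xs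
    rw [a2, le_div_iff₀ u2, div_le_iff₀ u2]
    constructor
    · refine le_of_mul_le_mul_left ?_ N2
      have q1 : G.N (j + 2) * R.lev (j + 2) c ≤ G.N (j + 2) * (4 * x) := by gcongr
      have q2 : G.xs * 2 * (16 * (G.N (j + 2) * R.un G (j + 2))) ≤ G.xs * E * R.bh G (j + 2) := by
        gcongr
      linarith [mul_pos xs (mul_pos N2 u2)]
    · refine le_of_mul_le_mul_left ?_ N2
      have q1 : G.N (j + 2) * (9 / 10 * x) ≤ G.N (j + 2) * R.lev (j + 2) c := by gcongr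
      have q2 : G.xs * E * R.bh G (j + 2) ≤
          G.xs * (21 / 2) * (60 * (G.N (j + 2) * R.un G (j + 2))) := by gcongr
      linarith [mul_pos xs (mul_pos N2 u2)]
  · rw [a3]; exact s1 o
  · rw [a3]; exact s2 o
  · rw [a3]; exact s3 o o'
  · rw [a3]; exact s4 o o'
  · refine (B.up.y i hi').trans ?_
    rw [show i - (j + 1) = i - (j + 1 + 1) + 1 by omega]
    have := mul_pos (pow_pos th (i - (j + 1 + 1) + 1)) (mul_pos xs b2)
    nlinarith
  · refine (B.up.l i hi').trans ?_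
    rw [show i - (j + 1) - 1 = i - (j + 1 + 1) by omega]
    have := mul_pos (pow_pos th (i - (j + 1 + 1))) (mul_pos xs b2)
    nlinarith

end

end Pool.Agent.Work.MP_6bf1e5_an.Ell
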