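import Pool.Agent.Work.MP_6bf1e5_an.Ell.Next

/-!
The envelope system has no global solution.
-/

open Set Complex Filter Topology
open scoped InnerProductSpace ComplexConjugate
open Pool.Agent.Work.MP_6bf1e5_an.B (Z3 R3)
open Pool.Agent.Work.MP_6bf1e5_an.Dec

namespace Pool.Agent.Work.MP_6bf1e5_an.Ell

noncomputable section

lemma IsNet.nc_init {G : Geo} {R : Raw} (H : IsNet G R) (i : ℕ) : R.nc G i 0 = 0 := by
  have : ∑ m ∈ Finset.Icc 1 G.La, ‖R.y i m 0‖ ^ 2 = 0 := by
    refine Finset.sum_eq_zero fun m hm => ?_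
    obtain ⟨k, rfl⟩ := Nat.exists_eq_add_of_le' (Finset.mem_Icc.mp hm).1
    rw [H.inity, norm_zero]
    norm_num
  unfold Raw.nc Raw.ch
  rw [this, Real.sqrt_zero, mul_zero, mul_zero]

lemma IsNet.nl_init {G : Geo} {R : Raw} (H : IsNet G R) {i : ℕ} (hi : G.kk + 1 ≤ i) :
    R.nl G i 0 = 0 := by
  have e : Raw.AA0 G i = 0 := by
    unfold Raw.AA0
    rw [if_neg (by omega), if_neg (by omega)]
  have : ∑ o, (‖R.b i o 0‖ ^ 2 + ‖R.c i o 0‖ ^ 2) = 0 := by
    refine Finset.sum_eq_zero fun o _ => ?_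
    rw [H.initb, H.initc, e, if_neg (by omega)]
    simp
  unfold Raw.nl Raw.lev
  rw [this, Real.sqrt_zero, mul_zero]

theorem IsNet.st0 {G : Geo} {R : Raw} (H : IsNet G R) : St G R G.kk 0 (Raw.AA0 G) := by
  have half : ∀ m : ℕ, (0 : ℝ) ≤ 1 - (1 / 2) ^ m := fun m =>
    sub_nonneg.mpr (pow_le_one₀ (by norm_num) (by norm_num))
  have x0 := G.xs_pos
  have T0 := G.t_pos
  have θ0 := G.θ_pos
  have b0 := H.bh_pos G.kk
  have u0 := H.un_pos G.kk
  have ι0 : 0 < G.ι := by unfold Geo.ι; positivity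
  have δ0 : 0 < G.δ0 := Real.exp_pos _
  have L0 := G.lam_pos G.kk
  have N0 := G.N_pos G.kk
  have eA : Raw.AA0 G G.kk = 10 * G.xs := by
    unfold Raw.AA0
    rw [if_neg (lt_irrefl _), if_pos rfl]
  refine ⟨le_rfl, le_rfl, fun i hi => ?_, fun i _ o => ?_, fun i hi o => ?_, fun i _ => ?_, ?_,
    fun o => ?_, fun o => ?_, fun o o' => ?_, fun o o' => ?_, fun i _ => ?_, fun i hi => ?_,
    ?_, ?_⟩
  · unfold Raw.AA0
    rw [if_pos hi]
    norm_num
  · rw [H.initb, sub_self, norm_zero]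
    have := half (G.kk - i)
    have := H.un_pos i
    positivity
  · rw [H.initc, if_neg hi.ne, zero_mul, Complex.ofReal_zero, zero_smul, norm_zero]
    have := half (G.kk - i)
    have := H.un_pos i
    positivity
  · rw [H.nc_init]
    have := half (G.kk - i)
    have := H.bh_pos i
    positivity
  · rw [eA]
    constructor <;> linarith
  · rw [H.initb, sub_self, norm_zero, eA]
    positivity
  · rw [H.initc, if_pos rfl, sub_self, norm_zero, eA]
    positivity
  · rw [H.initb, H.initb, sub_self, norm_zero, eA]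
    positivity
  · rw [H.initc, H.initc, sub_self, norm_zero, eA]
    positivity
  · rw [H.nc_init]
    positivity
  · rw [H.nl_init hi, mul_zero]
    positivity
  · rw [H.initF]
    positivity
  · rw [H.initH]
    positivity

lemma IsNet.stages {G : Geo} {R : Raw} (H : IsNet G R) (m : ℕ) :
    ∃ t AA, t ≤ 2 * G.Δ G.kk - 2 * G.Δ (G.kk + m) ∧ St G R (G.kk + m) t AA := by
  induction m with
  | zero => exact ⟨0, _, by simp, H.st0⟩
  | succ m ih =>
    obtain ⟨t, AA, h1, S⟩ := ih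
    obtain ⟨t1, AA', h2, S'⟩ := S.next H
    have := G.Δ_succ (G.kk + m)
    exact ⟨t1, AA', by rw [← add_assoc]; linarith, S'⟩

lemma IsNet.grow_q {G : Geo} {R : Raw} (H : IsNet G R) (j m : ℕ) :
    2 ^ m * (G.lam j * R.bh G j / G.N j) ≤
      G.lam (j + m) * R.bh G (j + m) / G.N (j + m) := by
  induction m with
  | zero => simp
  | succ m ih =>
    rw [← add_assoc]
    have L0 := G.lam_pos (j + m)
    have b0 := H.bh_pos (j + m)
    have N0 := G.N_pos (j + m)
    have N1 := G.N_pos (j + m + 1)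
    have T0 := G.t_pos
    have p : 10 ^ 100 * G.t ^ 32 ≤ G.t ^ 42 := G.pow_lt (by norm_num)
    have p0 : 0 ≤ G.t ^ 32 := by positivity
    have a : 2 * (G.lam (j + m) * R.bh G (j + m) / G.N (j + m)) ≤
        G.lam (j + m + 1) * R.bh G (j + m + 1) / G.N (j + m + 1) := by
      rw [le_div_iff₀ N1, G.lam_succ, H.bh_succ]
      have b := mul_le_mul_of_nonneg_left (G.N_succ_hi (j + m))
        (show 0 ≤ 2 * (G.lam (j + m) * R.bh G (j + m) / G.N (j + m)) by positivity)
      have e : 2 * (G.lam (j + m) * R.bh G (j + m) / G.N (j + m)) * (G.t ^ 32 * G.N (j + m)) =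
          2 * G.t ^ 32 * (G.lam (j + m) * R.bh G (j + m)) := by
        field_simp
      have c : 2 * G.t ^ 32 * (G.lam (j + m) * R.bh G (j + m)) ≤
          G.t ^ 42 * (G.lam (j + m) * R.bh G (j + m)) :=
        mul_le_mul_of_nonneg_right (by linarith) (by positivity)
      have e2 : G.t ^ 21 * G.lam (j + m) * (G.t ^ 21 * R.bh G (j + m)) =
          G.t ^ 42 * (G.lam (j + m) * R.bh G (j + m)) := by ring
      linarith
    rw [pow_succ]
    linarith

theorem no_net {G : Geo} {R : Raw} (H : IsNet G R) : False := by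
  obtain ⟨K, hK⟩ := H.decay 1 (2 * G.Δ G.kk)
  have x0 := G.xs_pos
  have q0 : 0 < G.xs * (G.lam G.kk * R.bh G G.kk / G.N G.kk) / 120 := by
    have := G.lam_pos G.kk
    have := H.bh_pos G.kk
    have := G.N_pos G.kk
    positivity
  obtain ⟨m, hm⟩ := pow_unbounded_of_one_lt
    (K / (G.xs * (G.lam G.kk * R.bh G G.kk / G.N G.kk) / 120)) (show (1 : ℝ) < 2 by norm_num)
  rw [div_lt_iff₀ q0] at hm
  obtain ⟨t, AA, h1, S⟩ := H.stages m
  have g := H.grow_q G.kk m
  generalize G.kk + m = J at h1 S g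
  have k1 := hK J t ⟨S.t0, by linarith [G.Δ_pos J]⟩
  have L0 := G.lam_pos J
  have N0 := G.N_pos J
  have u0 := H.un_pos J
  have A0 : 0 < AA J * R.un G J := mul_pos (x0.trans_le S.curA.1) u0
  have n1 : ‖((AA J * R.un G J : ℝ) : ℂ) • G.φ J‖ = AA J * R.un G J := by
    rw [norm_smul, G.norm_φ, mul_one, Complex.norm_real, Real.norm_of_nonneg A0.le]
  have n2 := norm_sub_norm_le (((AA J * R.un G J : ℝ) : ℂ) • G.φ J) (R.b J 0 t)
  rw [n1, norm_sub_rev] at n2
  have n3 := S.curb 0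
  have n4 := R.b_le_lev J 0 t
  have n5 := R.ch_nonneg G J t
  have n6 : G.xs * R.un G J ≤ AA J * R.un G J := mul_le_mul_of_nonneg_right S.curA.1 u0.le
  have n7 : G.xs * R.un G J / 2 ≤ R.lev J t + R.ch G J t := by linarith
  have n8 := mul_le_mul_of_nonneg_left n7 L0.le
  have n9 : G.lam J * R.bh G J / G.N J ≤ 60 * (G.lam J * R.un G J) := by
    rw [div_le_iff₀ N0]
    have := mul_le_mul_of_nonneg_left (H.un_lo J) L0.le
    linarith
  have n10 := mul_le_mul_of_nonneg_left (g.trans n9) x0.le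
  rw [pow_one] at k1
  linarith

end

end Pool.Agent.Work.MP_6bf1e5_an.Ell
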