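import Pool.Agent.Work.MP_6bf1e5_an.Ell.Young

/-!
Norms of the active part in terms of the envelopes.
-/

open Set Complex
open scoped InnerProductSpace ComplexConjugate Classical
open Pool.Agent.Work.MP_6bf1e5_an.B
open Pool.Agent.Work.MP_6bf1e5_an.Dec

namespace Pool.Agent.Work.MP_6bf1e5_an.Ell.Pd

noncomputable section

attribute [local irreducible] Fam.S

variable {G : Geo} {α : ℝ → Z3 → E3} {t : ℝ}

lemma Norms_tooth_unique {F : Fam} (hF : F.ok G) {x x' h : Z3} (hx : x ∈ F.cens G)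
    (hx' : x' ∈ F.cens G) (a : h - x ∈ bx (F.rad G)) (a' : h - x' ∈ bx (F.rad G)) : x = x' := by
  refine (sep hF hF (g := g1) (g' := g1) hx hx' fun i => ?_).2.2
  have b := mem_bx.1 a i
  have b' := mem_bx.1 a' i
  have e : i - g1.1 = i := sub_zero i
  rw [pt_g1, pt_g1, e]
  simp only [Pi.add_apply, Pi.sub_apply, abs_le] at b b' ⊢
  push_cast
  rw [abs_lt]
  constructor <;> omega

lemma Norms_comb {F : Fam} (hF : F.ok G) (J : ℕ) (hc : F.cens G = Finset.univ.image (G.off J))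
    (β : Z3 → E3) : env G F β =
      ∑ o, (G.om o : ℂ) • (sh (G.off J o) * tooth G F (G.off J o) (G.om o) β) := by
  ext h
  have key : ∀ o, ((G.om o : ℂ) • (sh (G.off J o) * tooth G F (G.off J o) (G.om o) β)).coeff h =
      if h - G.off J o ∈ bx (F.rad G) then ((⟪F.e G, β (F.ctr G + h)⟫_ℝ : ℝ) : ℂ) else 0 := by
    intro o
    have ho : (G.om o : ℂ) ≠ 0 := by
      have := (om_bounds G o).1
      exact_mod_cast (by linarith : G.om o ≠ 0)
    rw [AddMonoidAlgebra.coeff_smul, Finsupp.smul_apply, coeff_sh_mul, tooth, coeff_mk,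
      add_sub_cancel]
    split_ifs
    · push_cast
      rw [smul_eq_mul, mul_inv_cancel_left₀ ho]
    · simp
  have mem : ∀ o, G.off J o ∈ F.cens G := fun o => by rw [hc]; simp
  rw [AddMonoidAlgebra.coeff_sum, Finsupp.finsetSum_apply, env, coeff_mk]
  simp only [key]
  split_ifs with hh
  · obtain ⟨x, hx, a⟩ := mem_S.1 hh
    rw [hc] at hx
    obtain ⟨o, -, rfl⟩ := Finset.mem_image.1 hx
    rw [Finset.sum_eq_single o, if_pos a]
    · intro o' _ ne
      exact if_neg fun a' => ne (off_injective J (Norms_tooth_unique hF (mem o') (mem o) a' a))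
    · simp
  · exact (Finset.sum_eq_zero fun o _ => if_neg fun a => hh (mem_S.2 ⟨_, mem o, a⟩)).symm

lemma env_b (j : ℕ) : env G (.b j) (α t) = (rawOf G α).B G j t := by
  exact Norms_comb (F := .b j) trivial j rfl (α t)

lemma env_c (j : ℕ) : env G (.c j) (α t) = (rawOf G α).Cc G (j + 1) t := by
  exact Norms_comb (F := .c j) trivial (j + 1) rfl (α t)

lemma env_y {j i : ℕ} (h1 : 1 ≤ i) (h2 : i ≤ G.La) :
    env G (.y j i) (α t) = (rawOf G α).y j i t := by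
  simp only [rawOf]
  rw [if_neg (by omega), if_pos h2]

lemma y_zero (j : ℕ) : (rawOf G α).y j 0 t = (rawOf G α).A G j t := by
  rw [Raw.A, ← env_b]
  rfl

lemma lev_nonneg (j : ℕ) : 0 ≤ (rawOf G α).lev j t := Real.sqrt_nonneg _

lemma ch_nonneg (j : ℕ) : 0 ≤ (rawOf G α).ch G j t := Real.sqrt_nonneg _

lemma Norms_om (o : Fin 4) : ‖(((rawOf G α).om o : ℝ) : ℂ)‖ ≤ 9 := by
  have := om_bounds G o
  change ‖((G.om o : ℝ) : ℂ)‖ ≤ 9
  rw [Complex.norm_real, Real.norm_eq_abs, abs_le]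
  constructor <;> linarith

lemma Norms_comb_norm (j : ℕ) (g : Fin 4 → V) :
    ‖(rawOf G α).comb G j g‖ ≤ 9 * ∑ o, ‖g o‖ := by
  rw [Finset.mul_sum]
  refine norm_sum_le_of_le _ fun o _ => ?_
  rw [norm_smul, norm_sh_mul]
  exact mul_le_mul_of_nonneg_right (Norms_om o) (norm_nonneg _)

lemma Norms_comb_l1 (j : ℕ) {n : N3} {g : Fin 4 → V} (hg : ∀ o, Sp n (g o)) :
    l1 ((rawOf G α).comb G j g) ≤ 27 * Nn n * ∑ o, ‖g o‖ := by
  rw [Finset.mul_sum]
  refine (l1_sum_le _ _).trans (Finset.sum_le_sum fun o _ => ?_)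
  rw [l1_smul, l1_sh_mul]
  have := mul_le_mul (Norms_om (G := G) (α := α) o) (hg o).l1_le (l1_nonneg _) (by norm_num)
  linarith

lemma Norms_sq4 (a : Fin 4 → ℝ) : (∑ o, a o) ^ 2 ≤ 4 * ∑ o, a o ^ 2 := by
  simpa using sq_sum_le_card_mul_sum_sq (s := Finset.univ) (f := a)

lemma Norms_lev_sq (j : ℕ) : (rawOf G α).lev j t ^ 2 =
    ∑ o, ‖(rawOf G α).b j o t‖ ^ 2 + ∑ o, ‖(rawOf G α).c j o t‖ ^ 2 := by
  rw [Raw.lev, Real.sq_sqrt (by positivity), Finset.sum_add_distrib]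

lemma Norms_sum_b (j : ℕ) : ∑ o, ‖(rawOf G α).b j o t‖ ≤ 2 * (rawOf G α).lev j t := by
  refine le_of_sq_le_sq ?_ (mul_nonneg zero_le_two (lev_nonneg j))
  have := Norms_sq4 fun o => ‖(rawOf G α).b j o t‖
  have h : 0 ≤ ∑ o, ‖(rawOf G α).c j o t‖ ^ 2 := by positivity
  rw [mul_pow, Norms_lev_sq]
  linarith

lemma Norms_sum_c (j : ℕ) : ∑ o, ‖(rawOf G α).c j o t‖ ≤ 2 * (rawOf G α).lev j t := by
  refine le_of_sq_le_sq ?_ (mul_nonneg zero_le_two (lev_nonneg j))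
  have := Norms_sq4 fun o => ‖(rawOf G α).c j o t‖
  have h : 0 ≤ ∑ o, ‖(rawOf G α).b j o t‖ ^ 2 := by positivity
  rw [mul_pow, Norms_lev_sq]
  linarith

lemma Norms_nl (j : ℕ) : 0 ≤ (rawOf G α).nl G j t :=
  mul_nonneg (Nn_pos _).le (lev_nonneg j)

lemma Norms_ny (j : ℕ) : 0 ≤ (rawOf G α).ny G j t :=
  mul_nonneg (Nn_pos _).le (mul_nonneg (pow_nonneg (Nat.cast_nonneg _) _) (ch_nonneg j))

lemma norm_B_le (j : ℕ) : ‖(rawOf G α).B G j t‖ ≤ 18 * (rawOf G α).lev j t := by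
  refine (Norms_comb_norm _ _).trans ?_
  linarith [Norms_sum_b (G := G) (α := α) (t := t) j]

lemma norm_Cc_le (j : ℕ) : ‖(rawOf G α).Cc G j t‖ ≤ 18 * (rawOf G α).lev j t := by
  refine (Norms_comb_norm _ _).trans ?_
  linarith [Norms_sum_c (G := G) (α := α) (t := t) j]

lemma normsq_B_Cc (j : ℕ) : ‖(rawOf G α).B G j t‖ ^ 2 + ‖(rawOf G α).Cc G j t‖ ^ 2 ≤
    324 * (rawOf G α).lev j t ^ 2 := by
  have a := pow_le_pow_left₀ (norm_nonneg _)
    (Norms_comb_norm (G := G) (α := α) j fun o => (rawOf G α).b j o t) 2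
  have b := pow_le_pow_left₀ (norm_nonneg _)
    (Norms_comb_norm (G := G) (α := α) j fun o => (rawOf G α).c j o t) 2
  have a' := Norms_sq4 fun o => ‖(rawOf G α).b j o t‖
  have b' := Norms_sq4 fun o => ‖(rawOf G α).c j o t‖
  rw [mul_pow] at a b
  rw [Norms_lev_sq, Raw.B, Raw.Cc]
  linarith

lemma l1_B_le (j : ℕ) : l1 ((rawOf G α).B G j t) ≤ 54 * (rawOf G α).nl G j t := by
  have sp : ∀ o, Sp (G.rb j) ((rawOf G α).b j o t) := fun o => sp_mk _ _
  refine (Norms_comb_l1 j sp).trans ?_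
  have := mul_le_mul_of_nonneg_left (Norms_sum_b (G := G) (α := α) (t := t) j)
    (Nn_pos (G.rb j)).le
  rw [Raw.nl, Geo.N]
  linarith

lemma l1_Cc_le (j : ℕ) : l1 ((rawOf G α).Cc G j t) ≤ 108 * (rawOf G α).nl G j t := by
  have sp : ∀ o, Sp (G.rc j) ((rawOf G α).c j o t) := fun o => by
    rcases j with _ | j
    · exact sp_zero _
    · exact sp_mk _ _
  refine (Norms_comb_l1 j sp).trans ?_
  have := mul_le_mul (Nn_rc G j) (Norms_sum_c (G := G) (α := α) (t := t) j) (by positivity)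
    (by linarith [N_pos G j])
  rw [Raw.nl]
  linarith

lemma Norms_sum_Pt (F : Fam) (g : Gp) {u : Z3 → ℝ} (h0 : ∀ k, 0 ≤ u k)
    (hz : ∀ k, k ∉ Pt G F g → u k = 0) (K : Finset Z3) :
    ∑ k ∈ K, u k ≤ ∑ h ∈ F.S G, u (pt G F g h) := by
  have inj : Function.Injective (pt G F g) := fun a b e => add_left_cancel (gz_injective g e)
  rw [← Finset.sum_image (f := u) fun a _ b _ e => inj e,
    ← Finset.sum_filter_ne_zero K]
  refine Finset.sum_le_sum_of_subset_of_nonneg (fun k hk => ?_) fun k _ _ => h0 k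
  by_contra c
  refine (Finset.mem_filter.1 hk).2 (hz k ?_)
  rintro ⟨h, hh, rfl⟩
  exact c (Finset.mem_image_of_mem _ hh)

lemma Norms_nb_pt {β : Z3 → E3} (H : Adm β) {F : Fam} (hF : F.ok G) (g : Gp) {h : Z3}
    (hh : h ∈ F.S G) : nb (act G β) (Pt G F g) (pt G F g h) ≤ 2 * ‖(env G F β).coeff h‖ := by
  rw [nb, Set.indicator_of_mem (show pt G F g h ∈ Pt G F g from ⟨h, hh, rfl⟩), act_pt H hF g hh,
    coeff_env β hh, norm_smul, Complex.norm_real, mul_comm]
  exact mul_le_mul_of_nonneg_right (norm_uv_le hF g hh) (norm_nonneg _)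

lemma L2_Pt {β : Z3 → E3} (H : Adm β) {F : Fam} (hF : F.ok G) (g : Gp) :
    L2 (nb (act G β) (Pt G F g)) (2 * ‖env G F β‖) := by
  refine ⟨by positivity, fun K => ?_⟩
  refine (Norms_sum_Pt (G := G) F g (fun k => sq_nonneg _)
    (fun k hk => by simp [nb, hk]) K).trans ?_
  have := sum_sq_le (env G F β) (F.S G)
  rw [mul_pow]
  refine le_trans ?_ (mul_le_mul_of_nonneg_left this (by norm_num))
  rw [Finset.mul_sum]
  refine Finset.sum_le_sum fun h hh => ?_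
  rw [← mul_pow]
  exact pow_le_pow_left₀ (nb_nonneg _ _ _) (Norms_nb_pt H hF g hh) 2

lemma L1_Pt {β : Z3 → E3} (H : Adm β) {F : Fam} (hF : F.ok G) (g : Gp) :
    L1 (nb (act G β) (Pt G F g)) (2 * l1 (env G F β)) := by
  intro K
  refine (Norms_sum_Pt (G := G) F g (nb_nonneg _ _) (fun k hk => by simp [nb, hk]) K).trans ?_
  refine le_trans ?_ (mul_le_mul_of_nonneg_left (sum_le_l1 (env G F β) (F.S G)) (by norm_num))
  rw [Finset.mul_sum]
  exact Finset.sum_le_sum fun h hh => Norms_nb_pt H hF g hh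

lemma Norms_card_Gp : (Finset.univ : Finset Gp).card = 6 := by decide

lemma Norms_L2_Orb {β : Z3 → E3} (H : Adm β) {F : Fam} (hF : F.ok G) :
    L2 (nb (act G β) (Orb G F)) (5 * ‖env G F β‖) := by
  refine (L2.biUnion Finset.univ (fun g _ => L2_Pt H hF g) (U := Orb G F)
    fun k ⟨g, hk⟩ => ⟨g, Finset.mem_univ _, hk⟩).mono ?_
  rw [Finset.sum_const, Norms_card_Gp, Real.sqrt_le_left (by positivity), nsmul_eq_mul]
  push_cast
  linarith [sq_nonneg ‖env G F β‖]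

lemma Norms_L1_Orb {β : Z3 → E3} (H : Adm β) {F : Fam} (hF : F.ok G) :
    L1 (nb (act G β) (Orb G F)) (12 * l1 (env G F β)) := by
  refine (L1.biUnion Finset.univ (fun g _ => L1_Pt H hF g) (U := Orb G F)
    fun k ⟨g, hk⟩ => ⟨g, Finset.mem_univ _, hk⟩).mono ?_
  rw [Finset.sum_const, Norms_card_Gp, nsmul_eq_mul]
  push_cast
  linarith

lemma Norms_L2_union {β : Z3 → E3} {W W' : Set Z3} {X Y : ℝ} (h : L2 (nb β W) X)
    (h' : L2 (nb β W') Y) : L2 (nb β (W ∪ W')) (√(X ^ 2 + Y ^ 2)) := by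
  have := L2.biUnion (β := β) (Finset.univ : Finset Bool) (W := fun b => cond b W W')
    (X := fun b => cond b X Y) (fun b _ => by cases b; exacts [h', h]) (U := W ∪ W')
    fun k hk => hk.elim (fun a => ⟨true, Finset.mem_univ _, a⟩)
      fun a => ⟨false, Finset.mem_univ _, a⟩
  simpa using this

lemma L2_Lev (H : Adm (α t)) (j : ℕ) :
    L2 (nb (act G (α t)) (Lev G j)) (100 * (rawOf G α).lev j t) := by
  have a := normsq_B_Cc (G := G) (α := α) (t := t) j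
  have l := lev_nonneg (G := G) (α := α) (t := t) j
  rcases j with _ | j
  · refine (Norms_L2_Orb H (F := .b 0) trivial).mono ?_
    rw [env_b]
    linarith [norm_B_le (G := G) (α := α) (t := t) 0]
  · refine (Norms_L2_union (Norms_L2_Orb H (F := .b (j + 1)) trivial)
      (Norms_L2_Orb H (F := .c j) trivial)).mono ?_
    rw [env_b, env_c, Real.sqrt_le_left (by positivity)]
    linarith [sq_nonneg ((rawOf G α).lev (j + 1) t)]

lemma L1_Lev (H : Adm (α t)) (j : ℕ) :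
    L1 (nb (act G (α t)) (Lev G j)) (2000 * (rawOf G α).nl G j t) := by
  have a := l1_B_le (G := G) (α := α) (t := t) j
  have b := l1_Cc_le (G := G) (α := α) (t := t) j
  have l := Norms_nl (G := G) (α := α) (t := t) j
  rcases j with _ | j
  · refine (Norms_L1_Orb H (F := .b 0) trivial).mono ?_
    rw [env_b]
    linarith
  · refine ((Norms_L1_Orb H (F := .b (j + 1)) trivial).union
      (Norms_L1_Orb H (F := .c j) trivial)).mono ?_
    rw [env_b, env_c]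
    linarith

lemma Norms_ch_sq (j : ℕ) : (rawOf G α).ch G j t ^ 2 =
    ∑ i ∈ Finset.Icc 1 G.La, ‖env G (.y j i) (α t)‖ ^ 2 := by
  rw [Raw.ch, Real.sq_sqrt (by positivity)]
  exact Finset.sum_congr rfl fun i hi => by
    rw [env_y (Finset.mem_Icc.1 hi).1 (Finset.mem_Icc.1 hi).2]

lemma L2_Lad (H : Adm (α t)) (j : ℕ) :
    L2 (nb (act G (α t)) (LadS G j)) (10 * (rawOf G α).ch G j t) := by
  refine (L2.biUnion (Finset.Icc 1 G.La) (W := fun i => Orb G (.y j i))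
    (fun i hi => Norms_L2_Orb H (F := .y j i) (Finset.mem_Icc.1 hi)) (U := LadS G j)
    fun k ⟨i, a, b, hk⟩ => ⟨i, Finset.mem_Icc.2 ⟨a, b⟩, hk⟩).mono ?_
  have c := ch_nonneg (G := G) (α := α) (t := t) j
  rw [Real.sqrt_le_left (by positivity), mul_pow, Norms_ch_sq, Finset.mul_sum]
  refine Finset.sum_le_sum fun i hi => ?_
  linarith [sq_nonneg ‖env G (.y j i) (α t)‖]

lemma L1_Lad (H : Adm (α t)) (j : ℕ) :
    L1 (nb (act G (α t)) (LadS G j)) (10 * (rawOf G α).ny G j t) := by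
  refine (L1.biUnion (Finset.Icc 1 G.La) (W := fun i => Orb G (.y j i))
    (fun i hi => Norms_L1_Orb H (F := .y j i) (Finset.mem_Icc.1 hi)) (U := LadS G j)
    fun k ⟨i, a, b, hk⟩ => ⟨i, Finset.mem_Icc.2 ⟨a, b⟩, hk⟩).mono ?_
  have c := ch_nonneg (G := G) (α := α) (t := t) j
  have a1 : ∑ i ∈ Finset.Icc 1 G.La, ‖env G (.y j i) (α t)‖ ≤ √G.La * (rawOf G α).ch G j t := by
    refine le_of_sq_le_sq ?_ (by positivity)
    rw [mul_pow, Real.sq_sqrt (Nat.cast_nonneg _), Norms_ch_sq]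
    simpa using sq_sum_le_card_mul_sum_sq (s := Finset.Icc 1 G.La)
      (f := fun i => ‖env G (.y j i) (α t)‖)
  have a2 : ∑ i ∈ Finset.Icc 1 G.La, 12 * l1 (env G (.y j i) (α t)) ≤
      36 * Nn (G.ry j) * ∑ i ∈ Finset.Icc 1 G.La, ‖env G (.y j i) (α t)‖ := by
    rw [Finset.mul_sum]
    refine Finset.sum_le_sum fun i _ => ?_
    have sp : Sp (G.ry j) (env G (.y j i) (α t)) := by
      rw [env, S_y]
      exact sp_mk _ _
    linarith [sp.l1_le]
  have a3 := mul_le_mul_of_nonneg_left a1 (Nn_pos (G.ry j)).le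
  have a4 := mul_le_mul_of_nonneg_right (Nn_ry' G j) c
  have a5 := Norms_ny (G := G) (α := α) (t := t) j
  rw [Raw.ny] at a5 ⊢
  linarith

lemma Norms_L1_both (H : Adm (α t)) (j : ℕ) :
    L1 (nb (act G (α t)) (Lev G j ∪ LadS G j)) (2000 * (rawOf G α).nu G j t) := by
  refine ((L1_Lev H j).union (L1_Lad H j)).mono ?_
  rw [Raw.nu]
  linarith [Norms_ny (G := G) (α := α) (t := t) j]

lemma L1_LowS (H : Adm (α t)) (j : ℕ) :
    L1 (nb (act G (α t)) (LowS G j)) (2000 * (rawOf G α).Low G j t) := by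
  refine (L1.biUnion (Finset.range (j + 1 - G.kk)) (W := fun i => Lev G i ∪ LadS G i)
    (fun i _ => Norms_L1_both H i) (U := LowS G j)
    fun k ⟨i, a, hk⟩ => ⟨i, Finset.mem_range.2 a, hk⟩).mono (le_of_eq ?_)
  rw [Raw.Low, Raw.LowL, Raw.LowY, ← Finset.sum_add_distrib, Finset.mul_sum]
  rfl

lemma L1_LowYS (H : Adm (α t)) (j : ℕ) :
    L1 (nb (act G (α t)) (LowYS G j)) (10 * (rawOf G α).LowY G j t) := by
  refine (L1.biUnion (Finset.range (j + 1 - G.kk)) (W := fun i => LadS G i)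
    (fun i _ => L1_Lad H i) (U := LowYS G j)
    fun k ⟨i, a, hk⟩ => ⟨i, Finset.mem_range.2 a, hk⟩).mono (le_of_eq ?_)
  rw [Raw.LowY, Finset.mul_sum]

lemma Norms_nb_le (β : Z3 → E3) (W : Set Z3) (k : Z3) : nb β W k ≤ ‖β k‖ :=
  Set.indicator_le_self' (fun _ _ => norm_nonneg _) k

lemma L2_Tail (H : Adm (α t)) (i : ℕ) :
    L2 (nb (act G (α t)) (Tail G i)) (√((rawOf G α).ET i t)) := by
  obtain ⟨M, hM⟩ := (adm_act (G := G) H).rapid 0
  refine L2_tsum (Summable.of_nonneg_of_le (fun k => sq_nonneg _) (fun k => ?_)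
    (hM.summable_norm.mul_left M))
  rw [pow_two]
  exact mul_le_mul ((Norms_nb_le _ _ k).trans (hM.norm_le k)) (Norms_nb_le _ _ k)
    (nb_nonneg _ _ _) hM.nonneg

lemma Norms_exh {U : Set Z3} {P : ℕ → Z3 → Prop} (h : ∀ k ∈ U, ∃ j, P j k) (Φ : Finset Z3) :
    ∃ M, ∀ k ∈ U ∩ Φ, ∃ j < M, P j k := by
  choose! f hf using h
  exact ⟨Φ.sup f + 1, fun k hk => ⟨f k, Nat.lt_succ_of_le (Finset.le_sup hk.2), hf k hk.1⟩⟩

lemma Norms_act {β : Z3 → E3} {k : Z3} (h : act G β k ≠ 0) : ∃ j, k ∈ Lev G j ∪ LadS G j := by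
  obtain ⟨F, g, hF, hk⟩ := exists_pt h
  rcases F with j | j | ⟨j, i⟩
  · refine ⟨j, Or.inl ?_⟩
    rcases j with _ | j
    · exact ⟨g, hk⟩
    · exact Or.inl ⟨g, hk⟩
  · exact ⟨j + 1, Or.inl (Or.inr ⟨g, hk⟩)⟩
  · exact ⟨j, Or.inr ⟨i, hF.1, hF.2, g, hk⟩⟩

lemma Norms_nb_supp {β γ : Z3 → E3} {Φ : Finset Z3} {k : Z3} (e : β k = 0 → γ k = 0)
    (hk : k ∈ Φ) : nb γ ({k | β k ≠ 0} ∩ Φ) k = ‖γ k‖ := by
  by_cases h : β k = 0
  · rw [nb, Set.indicator_of_notMem fun a => a.1 h, e h, norm_zero]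
  · exact Set.indicator_of_mem (show k ∈ {k | β k ≠ 0} ∩ (Φ : Set Z3) from ⟨h, hk⟩) _

lemma Norms_split (β : Z3 → E3) (k : Z3) : ‖β k‖ ≤ ‖act G β k‖ + ‖jnk G β k‖ := by
  refine le_trans (le_of_eq ?_) (norm_add_le _ _)
  rw [jnk, add_sub_cancel]

lemma Norms_ax {j : ℕ} {k : Z3} (h : k ∈ Lev G j ∪ LadS G j) :
    ax k ≤ 11 / 10 * G.lam (j + 1) := by
  have key : ∀ F : Fam, F.ok G → k ∈ Orb G F → ax k ≤ 11 / 10 * G.lam (F.ix + 1) := by
    rintro F hF ⟨g, h, hh, rfl⟩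
    rw [pt, ax_gz]
    exact ax_hi hF hh
  rcases h with h | ⟨i, a, b, h⟩
  · rcases j with _ | j
    · exact key (.b 0) trivial h
    · rcases h with h | h
      · exact key (.b (j + 1)) trivial h
      · refine (key (.c j) trivial h).trans ?_
        have a : (1 : ℝ) ≤ G.t ^ 21 := one_le_pow₀ (le_trans (by norm_num) (t_big G))
        have b := lam_pos G (j + 1)
        rw [lam_succ G (j + 1)]
        change 11 / 10 * G.lam (j + 1) ≤ _
        nlinarith
  · exact key (.y j i) ⟨a, b⟩ h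

lemma Norms_L2_scale {f g : Z3 → ℝ} {X c : ℝ} (h : L2 f X) (hc : 0 ≤ c) (g0 : ∀ k, 0 ≤ g k)
    (H : ∀ k, g k ≤ c * f k) : L2 g (c * X) := by
  refine ⟨mul_nonneg hc h.1, fun K => ?_⟩
  rw [mul_pow]
  refine le_trans ?_ (mul_le_mul_of_nonneg_left (h.2 K) (sq_nonneg c))
  rw [Finset.mul_sum]
  refine Finset.sum_le_sum fun k _ => ?_
  rw [← mul_pow]
  exact pow_le_pow_left₀ (g0 k) (H k) 2

theorem U_le (H : Adm (α t)) {K : ℝ}
    (hK : ∀ M, ∑ j ∈ Finset.range M, (rawOf G α).nu G j t ≤ K) :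
    (rawOf G α).U t ≤ 10 ^ 4 * K + (rawOf G α).Fj t := by
  have K0 : 0 ≤ K := by simpa using hK 0
  have a : L1 (fun k => ‖act G (α t) k‖) (10 ^ 4 * K) := fun Φ => by
    obtain ⟨M, hM⟩ := Norms_exh (U := {k | act G (α t) k ≠ 0})
      (P := fun j k => k ∈ Lev G j ∪ LadS G j) (fun k hk => Norms_act hk) Φ
    have b := L1.biUnion (Finset.range M) (W := fun i => Lev G i ∪ LadS G i)
      (fun i _ => Norms_L1_both H i) (U := {k | act G (α t) k ≠ 0} ∩ Φ)
      (fun k hk => by simpa only [Finset.mem_range] using hM k hk) Φ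
    rw [← Finset.mul_sum, Finset.sum_congr rfl fun k hk => Norms_nb_supp id hk] at b
    linarith [hK M]
  obtain ⟨M, hM⟩ := (adm_jnk (G := G) H).rapid 0
  have b := L1_tsum (fun k => norm_nonneg _) hM.summable_norm
  refine (L1.tsum_le (fun k => norm_nonneg _) ((a.add b).of_le fun k => ?_)).2
  exact Norms_split _ k

theorem H_le (H : Adm (α t)) {K : ℝ} (hK : ∀ M, ∑ j ∈ Finset.range M,
    G.lam (j + 1) * ((rawOf G α).lev j t + (rawOf G α).ch G j t) ≤ K) :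
    (rawOf G α).H t ≤ 10 ^ 4 * K + (rawOf G α).Hj t := by
  have K0 : 0 ≤ K := by simpa using hK 0
  have nm : ∀ k, ‖ax k • act G (α t) k‖ = ax k * ‖act G (α t) k‖ := fun k => by
    rw [norm_smul, Real.norm_of_nonneg (ax_nonneg k)]
  have c : ∀ j, L2 (nb (fun k => ax k • act G (α t) k) (Lev G j ∪ LadS G j))
      (110 * (G.lam (j + 1) * ((rawOf G α).lev j t + (rawOf G α).ch G j t))) := fun j => by
    have l := lam_pos G (j + 1)
    refine (Norms_L2_scale ((L2_Lev (G := G) H j).union (L2_Lad H j)) (c := 11 / 10 * G.lam (j + 1))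
      (by linarith) (nb_nonneg _ _) fun k => ?_).mono ?_
    · by_cases hk : k ∈ Lev G j ∪ LadS G j
      · rw [nb, nb, Set.indicator_of_mem hk, Set.indicator_of_mem hk, nm]
        exact mul_le_mul_of_nonneg_right (Norms_ax hk) (norm_nonneg _)
      · rw [nb, nb, Set.indicator_of_notMem hk, Set.indicator_of_notMem hk, mul_zero]
    · linarith [mul_nonneg (by linarith : 0 ≤ G.lam (j + 1))
        (ch_nonneg (G := G) (α := α) (t := t) j)]
  have a : L2 (fun k => ax k * ‖act G (α t) k‖) (10 ^ 4 * K) := ⟨by positivity, fun Φ => by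
    obtain ⟨M, hM⟩ := Norms_exh (U := {k | act G (α t) k ≠ 0})
      (P := fun j k => k ∈ Lev G j ∪ LadS G j) (fun k hk => Norms_act hk) Φ
    have b := (L2.biUnion (Finset.range M) (W := fun i => Lev G i ∪ LadS G i)
      (fun i _ => c i) (U := {k | act G (α t) k ≠ 0} ∩ Φ)
      (fun k hk => by simpa only [Finset.mem_range] using hM k hk)).2 Φ
    rw [Real.sq_sqrt (by positivity)] at b
    have b' := b.trans (Finset.sum_sq_le_sq_sum_of_nonneg fun i _ => (c i).1)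
    rw [← Finset.mul_sum] at b'
    refine le_trans (le_of_eq (Finset.sum_congr rfl fun k hk => ?_)) (b'.trans ?_)
    · rw [Norms_nb_supp (fun e => by rw [e, smul_zero]) hk, nm]
    · refine pow_le_pow_left₀ ?_ (by linarith [hK M]) 2
      rw [Finset.mul_sum]
      exact Finset.sum_nonneg fun i _ => (c i).1⟩
  have b := L2_tsum (summable_sq_ax (adm_jnk (G := G) H).rapid)
  refine (L2.tsum_le ((a.add b).of_le fun k => ?_)).2
  have x := ax_nonneg k
  rw [abs_of_nonneg (by positivity), abs_of_nonneg (by positivity), ← mul_add]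
  exact mul_le_mul_of_nonneg_left (Norms_split _ k) x

theorem ET_le (H : Adm (α t)) (i : ℕ) {K : ℝ} (hK : ∀ M, ∑ j ∈ Finset.Ico i M,
    ((rawOf G α).lev j t ^ 2 + (rawOf G α).ch G j t ^ 2) ≤ K) :
    (rawOf G α).ET i t ≤ 10 ^ 4 * K := by
  refine Real.tsum_le_of_sum_le (fun k => sq_nonneg _) fun Φ => ?_
  obtain ⟨M, hM⟩ := Norms_exh (U := Tail G i)
    (P := fun j k => i ≤ j ∧ k ∈ Lev G j ∪ LadS G j) (fun k hk => hk) Φ
  have b := (L2.biUnion (Finset.Ico i M) (W := fun j => Lev G j ∪ LadS G j)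
    (fun j _ => Norms_L2_union (L2_Lev H j) (L2_Lad H j)) (U := Tail G i ∩ Φ)
    (fun k hk => by
      obtain ⟨j, a, b, c⟩ := hM k hk
      exact ⟨j, Finset.mem_Ico.2 ⟨b, a⟩, c⟩)).2 Φ
  rw [Real.sq_sqrt (by positivity)] at b
  refine le_trans (le_of_eq (Finset.sum_congr rfl fun k hk => ?_)) (b.trans ?_)
  · congr 1
    by_cases h : k ∈ Tail G i
    · rw [nb, nb, Set.indicator_of_mem h,
        Set.indicator_of_mem (show k ∈ Tail G i ∩ (Φ : Set Z3) from ⟨h, hk⟩)]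
    · rw [nb, nb, Set.indicator_of_notMem h, Set.indicator_of_notMem fun a => h a.1]
  · refine le_trans ?_ (mul_le_mul_of_nonneg_left (hK M) (by norm_num))
    rw [Finset.mul_sum]
    refine Finset.sum_le_sum fun j _ => ?_
    rw [Real.sq_sqrt (by positivity)]
    linarith [sq_nonneg ((rawOf G α).ch G j t)]

end

end Pool.Agent.Work.MP_6bf1e5_an.Ell.Pd
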