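import Pool.Agent.Work.MP_6bf1e5_an.Ell.StDef

/-!
Numerical facts about the parameters.
-/

open Set Complex Filter Topology
open scoped InnerProductSpace ComplexConjugate
open Pool.Agent.Work.MP_6bf1e5_an.B (Z3 R3)
open Pool.Agent.Work.MP_6bf1e5_an.Dec

namespace Pool.Agent.Work.MP_6bf1e5_an.Ell

noncomputable section

namespace Geo

variable (G : Geo)

lemma t_big : (10 : ℝ) ^ 100 ≤ G.t := by unfold t; exact_mod_cast G.big

lemma t_pos : 0 < G.t := lt_of_lt_of_le (by positivity) G.t_big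

lemma one_le_t : 1 ≤ G.t := le_trans (by norm_num) G.t_big

/-- One more power of `t` beats any reasonable constant. -/
lemma pow_lt {a b : ℕ} (h : a < b) : 10 ^ 100 * G.t ^ a ≤ G.t ^ b := by
  have h1 := G.one_le_t
  calc 10 ^ 100 * G.t ^ a ≤ G.t * G.t ^ a := mul_le_mul_of_nonneg_right G.t_big (by positivity)
    _ = G.t ^ (a + 1) := (pow_succ' _ _).symm
    _ ≤ _ := pow_le_pow_right₀ h1 h

lemma pow_le {a b : ℕ} (h : a ≤ b) : G.t ^ a ≤ G.t ^ b := pow_le_pow_right₀ G.one_le_t h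

lemma pow_le_exp {k : ℕ} (hk : k ≤ 1000) : G.t ^ k ≤ Real.exp (G.t / 10 ^ 50) := by
  have t0 := G.t_pos
  obtain ⟨s, s0, hs⟩ : ∃ s : ℝ, 0 < s ∧ s ^ 4 = G.t := ⟨√(√G.t), by positivity, by
    rw [show 4 = 2 * 2 by norm_num, pow_mul, Real.sq_sqrt (by positivity), Real.sq_sqrt t0.le]⟩
  have s1 : (10 : ℝ) ^ 25 ≤ s := by
    refine le_of_pow_le_pow_left₀ (n := 4) (by norm_num) s0.le ?_
    rw [hs, ← pow_mul]
    exact G.t_big
  have s2 : (10 : ℝ) ^ 75 * s ≤ G.t := by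
    rw [← hs, pow_succ s 3, show 75 = 25 * 3 by norm_num, pow_mul]
    gcongr
  have s3 := Real.add_one_le_exp s
  calc G.t ^ k ≤ G.t ^ 1000 := G.pow_le hk
    _ = s ^ 4000 := by rw [← hs, ← pow_mul]
    _ ≤ Real.exp s ^ 4000 := pow_le_pow_left₀ s0.le (by linarith) _
    _ ≤ _ := by
      rw [← Real.exp_nat_mul, Real.exp_le_exp, le_div_iff₀ (by positivity)]
      push_cast
      linarith

lemma La_eq : (G.La : ℝ) = G.t ^ 21 := by simp [La, t]

lemma kk_eq : (G.kk : ℝ) = G.t ^ 19 := by simp [kk, t]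

lemma ten_le_kk : 10 ≤ G.kk := by
  exact le_trans (le_trans (by norm_num) G.big) (Nat.le_self_pow (by norm_num) _)

lemma ten_le_La : 10 ≤ G.La := by
  exact le_trans (le_trans (by norm_num) G.big) (Nat.le_self_pow (by norm_num) _)

lemma m0_lo : Real.exp (100 * G.t ^ 19) ≤ G.m0 := by
  have h1 : Real.exp 100 ≤ G.t ^ 21 := by
    have h2 : Real.exp 100 = Real.exp 1 ^ 100 := by
      rw [← Real.exp_nat_mul]
      norm_num
    rw [h2]
    refine le_trans (pow_le_pow_left₀ (Real.exp_pos _).le ?_ _)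
      (G.t_big.trans (le_self_pow₀ G.one_le_t (by norm_num)))
    linarith [Real.exp_one_lt_d9]
  rw [m0, La_eq, ← kk_eq, mul_comm, Real.exp_nat_mul]
  exact pow_le_pow_left₀ (Real.exp_pos _).le h1 _

lemma m0_hi : G.m0 ≤ Real.exp (G.t ^ 20 / 10 ^ 40) := by
  have t0 := G.t_pos
  rw [m0, La_eq]
  refine (pow_le_pow_left₀ (by positivity) (G.pow_le_exp (by norm_num)) _).trans ?_
  rw [← Real.exp_nat_mul, kk_eq, Real.exp_le_exp, ← mul_div_assoc, ← pow_succ]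
  gcongr <;> norm_num

lemma m0_pos : 0 < G.m0 := (Real.exp_pos _).trans_le G.m0_lo

lemma n_eq (j : ℕ) : (G.n j : ℝ) = G.t ^ 9 * (G.t ^ 21) ^ j := by simp [n, La, t]

lemma n_succ (j : ℕ) : G.n (j + 1) = G.La * G.n j := by simp only [n]; ring

lemma P_eq_n (j : ℕ) : G.P j = G.n (j + G.kk) := by simp only [P, n]; ring

lemma lam_eq (j : ℕ) : G.lam j = 2 * Real.pi * G.n j * G.m0 := by simp [lam, P, m0, mul_assoc]

lemma lam_pos (j : ℕ) : 0 < G.lam j := by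
  have := G.t_pos
  have := G.m0_pos
  have := Real.pi_pos
  rw [lam_eq, n_eq]
  positivity

lemma one_le_lam (j : ℕ) : 1 ≤ G.lam j := by
  have h1 := G.one_le_t
  have h2 : 1 ≤ G.m0 := le_trans (Real.one_le_exp (by positivity)) G.m0_lo
  rw [lam_eq, n_eq]
  exact one_le_mul_of_one_le_of_one_le (one_le_mul_of_one_le_of_one_le
    (by linarith [Real.pi_gt_three]) (one_le_mul_of_one_le_of_one_le (one_le_pow₀ h1)
      (one_le_pow₀ (one_le_pow₀ h1)))) h2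

lemma lam_succ (j : ℕ) : G.lam (j + 1) = G.t ^ 21 * G.lam j := by
  rw [lam_eq, lam_eq, n_eq, n_eq]
  ring

lemma lam_add (j m : ℕ) : G.lam (j + m) = (G.t ^ 21) ^ m * G.lam j := by
  rw [lam_eq, lam_eq, n_eq, n_eq, pow_add]
  ring

lemma lam_add_kk (j : ℕ) : G.lam (j + G.kk) = G.m0 * G.lam j := by
  rw [lam_add, m0, La_eq]

lemma lam_mono {i j : ℕ} (h : i ≤ j) : G.lam i ≤ G.lam j := by
  obtain ⟨m, rfl⟩ := Nat.exists_eq_add_of_le h
  rw [lam_add]
  exact le_mul_of_one_le_left (G.lam_pos i).le (one_le_pow₀ (one_le_pow₀ G.one_le_t))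

lemma d_pos (j : ℕ) : 0 < G.d j := by have := G.lam_pos j; unfold d; positivity

lemma d_succ (j : ℕ) : G.d (j + 1) = G.t ^ 42 * G.d j := by
  rw [d, d, lam_succ]
  ring

lemma D_pos (j : ℕ) : 0 < G.D j := by have := G.lam_pos j; unfold D; positivity

lemma d_mul_Δ (j : ℕ) : G.d j * G.Δ j = 2 * G.t := by
  have := G.lam_pos j
  unfold d Δ
  field_simp

lemma Δ_pos (j : ℕ) : 0 < G.Δ j := by have := G.lam_pos j; have := G.t_pos; unfold Δ; positivity

lemma Δ_succ (j : ℕ) : G.Δ (j + 1) ≤ G.Δ j / 2 := by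
  have h1 := G.lam_pos j
  have h2 := G.t_pos
  have h3 : (2 : ℝ) ≤ G.t ^ 42 := le_trans (by norm_num) (G.pow_lt (a := 0) (by norm_num))
  rw [Δ, Δ, lam_succ, div_div, mul_pow, ← pow_mul, mul_comm (G.lam j ^ 2) 2]
  gcongr

lemma rb_add_one (j : ℕ) (i : Fin 3) : G.rb j i + 1 = G.w j i := by
  have h1 : 0 < G.T := lt_of_lt_of_le (by norm_num) G.big
  have h2 : 0 < G.La := lt_of_lt_of_le (by norm_num) G.ten_le_La
  have : 0 < G.w j i := by fin_cases i <;> simp [w, h1, h2]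
  unfold rb
  omega

lemma hundred_le_rb (j : ℕ) (i : Fin 3) : 100 ≤ G.rb j i := by
  have h1 : 101 ≤ G.T := le_trans (by norm_num) G.big
  have h2 : 1 ≤ G.La ^ j := Nat.one_le_pow _ _ (lt_of_lt_of_le (by norm_num) G.ten_le_La)
  have h3 : G.T ≤ G.T ^ 5 := Nat.le_self_pow (by norm_num) _
  have h4 := Nat.mul_le_mul h1 h2
  have h5 := Nat.mul_le_mul (h1.trans h3) h2
  have : 101 ≤ G.w j i := by fin_cases i <;> simpa [w]
  unfold rb
  omega

lemma w_le_rB (j : ℕ) (i : Fin 3) : G.w j i ≤ G.rB j i := by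
  have h1 : 0 < G.T := lt_of_lt_of_le (by norm_num) G.big
  have h2 : G.T * G.La ^ j ≤ G.T ^ 9 * G.La ^ j :=
    Nat.mul_le_mul_right _ (Nat.le_self_pow (by norm_num) _)
  have h3 : G.T ^ 5 * G.La ^ j ≤ G.T ^ 9 * G.La ^ j :=
    Nat.mul_le_mul_right _ (Nat.pow_le_pow_right h1 (by norm_num))
  fin_cases i
  · exact le_rfl
  · exact h2
  · exact h3

lemma one_le_rB (j : ℕ) (i : Fin 3) : 1 ≤ G.rB j i := by
  have := G.w_le_rB j i
  have := G.rb_add_one j i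
  omega

lemma one_le_rd (j : ℕ) (i : Fin 3) : 1 ≤ G.rd j i := by
  fin_cases i
  · exact G.one_le_rB j 2
  · exact G.one_le_rB j 0
  · exact G.one_le_rB j 1

lemma rB_le_n (j : ℕ) (i : Fin 3) : G.rB j i ≤ G.n j := by
  fin_cases i
  · exact G.w_le_rB j 2
  · exact le_rfl
  · exact le_rfl

lemma rd_le_n (j : ℕ) (i : Fin 3) : G.rd j i ≤ G.n j := by
  fin_cases i
  · exact G.rB_le_n j 2
  · exact G.rB_le_n j 0
  · exact G.rB_le_n j 1

lemma rb_succ (j : ℕ) (i : Fin 3) : (G.rb (j + 1) i : ℝ) + 1 = G.t ^ 17 * G.rd j i := by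
  have h := G.rb_add_one (j + 1) i
  have h2 : G.w (j + 1) i = G.T ^ 17 * G.rd j i := by
    fin_cases i <;> simp [w, rd, rB, rot3, n, La] <;> ring
  rw [h2] at h
  unfold t
  exact_mod_cast h

lemma rb_le_rc (j : ℕ) (i : Fin 3) : G.rb j i ≤ G.rc j i := by
  cases j with
  | zero => exact le_rfl
  | succ j => exact Nat.le_add_right _ _

lemma ry_add_one (j : ℕ) (i : Fin 3) : (G.ry j i : ℝ) + 1 = G.t ^ 21 * G.n j / 4 := by
  have h1 : 4 ∣ G.n (j + 1) := (G.four.trans (dvd_pow_self _ (by norm_num))).mul_right _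
  have h2 : 0 < G.n (j + 1) := (G.one_le_rd (j + 1) 0).trans (G.rd_le_n (j + 1) 0)
  have h3 : 4 * (G.ry j i + 1) = G.La * G.n j := by
    rw [← n_succ]
    unfold ry
    omega
  have h4 := congrArg (Nat.cast : ℕ → ℝ) h3
  push_cast at h4
  rw [La_eq] at h4
  linarith

lemma N_pos (j : ℕ) : 0 < G.N j := Nn_pos _

lemma N_sq (j : ℕ) : G.N j ^ 2 = G.t ^ 11 * (G.t ^ 63) ^ j := by
  have h : ∀ i, (G.rb j i : ℝ) + 1 = G.w j i := fun i => by exact_mod_cast G.rb_add_one j i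
  rw [N, Nn_sq]
  simp only [h, Fin.prod_univ_three]
  simp [w, La, t]
  ring

lemma one_le_N (j : ℕ) : 1 ≤ G.N j := by
  have h1 := G.one_le_t
  refine le_of_pow_le_pow_left₀ (n := 2) (by norm_num) (G.N_pos j).le ?_
  rw [N_sq, one_pow]
  exact one_le_mul_of_one_le_of_one_le (one_le_pow₀ h1) (one_le_pow₀ (one_le_pow₀ h1))

lemma N_succ_sq (j : ℕ) : G.N (j + 1) ^ 2 = G.t ^ 63 * G.N j ^ 2 := by
  rw [N_sq, N_sq]
  ring

lemma N_succ_lo (j : ℕ) : G.t ^ 31 * G.N j ≤ G.N (j + 1) := by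
  refine le_of_pow_le_pow_left₀ (n := 2) (by norm_num) (G.N_pos _).le ?_
  rw [N_succ_sq, mul_pow, ← pow_mul]
  exact mul_le_mul_of_nonneg_right (G.pow_le (by norm_num)) (by positivity)

lemma N_succ_hi (j : ℕ) : G.N (j + 1) ≤ G.t ^ 32 * G.N j := by
  have := G.t_pos
  have := G.N_pos j
  refine le_of_pow_le_pow_left₀ (n := 2) (by norm_num) (by positivity) ?_
  rw [N_succ_sq, mul_pow, ← pow_mul]
  exact mul_le_mul_of_nonneg_right (G.pow_le (by norm_num)) (by positivity)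

lemma N_mono {i j : ℕ} (h : i ≤ j) : G.N i ≤ G.N j := by
  refine monotone_nat_of_le_succ (fun m => le_trans ?_ (G.N_succ_lo m)) h
  exact le_mul_of_one_le_left (G.N_pos m).le (one_le_pow₀ G.one_le_t)

lemma N_add_lo (j m : ℕ) : (G.t ^ 31) ^ m * G.N j ≤ G.N (j + m) := by
  induction m with
  | zero => simp
  | succ m ih =>
    refine le_trans ?_ (G.N_succ_lo (j + m))
    rw [pow_succ', mul_assoc]
    exact mul_le_mul_of_nonneg_left ih (pow_pos G.t_pos _).le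

lemma N_add_hi (j m : ℕ) : G.N (j + m) ≤ (G.t ^ 32) ^ m * G.N j := by
  induction m with
  | zero => simp
  | succ m ih =>
    refine (G.N_succ_hi (j + m)).trans ?_
    rw [pow_succ' (G.t ^ 32), mul_assoc]
    exact mul_le_mul_of_nonneg_left ih (pow_pos G.t_pos _).le

lemma Nn_rc (j : ℕ) : Nn (G.rc j) ≤ 101 / 100 * G.N j := by
  have h0 := G.N_pos j
  refine (Nn_le (n := G.rb j) (c := 1001 / 1000) (by norm_num) fun i => ?_).trans
    (mul_le_mul_of_nonneg_right (by norm_num) h0.le)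
  cases j with
  | zero =>
    have : (0 : ℝ) ≤ G.rb 0 i := Nat.cast_nonneg _
    change (G.rb 0 i : ℝ) + 1 ≤ _
    linarith
  | succ j =>
    have h1 := G.rb_succ j i
    have h2 := mul_le_mul_of_nonneg_right (G.pow_lt (a := 0) (b := 17) (by norm_num))
      (Nat.cast_nonneg (α := ℝ) (G.rd j i))
    have h3 : (0 : ℝ) ≤ G.rd j i := Nat.cast_nonneg _
    simp only [rc]
    push_cast
    linarith

/-- The cube of radius `n (j + 1)` is not much larger than a tooth of level `j`. -/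
lemma Nn_le_of_le_n {j : ℕ} {m : N3} (h : ∀ i, m i ≤ G.n (j + 1)) : Nn m ≤ G.t ^ 40 * G.N j := by
  have t0 := G.t_pos
  have h0 := G.N_pos j
  have h1 : (1 : ℝ) ≤ G.n (j + 1) := by
    exact_mod_cast (G.one_le_rd (j + 1) 0).trans (G.rd_le_n (j + 1) 0)
  have h2 : ∀ i, (m i : ℝ) + 1 ≤ 2 * G.n (j + 1) := fun i => by
    have : (m i : ℝ) ≤ G.n (j + 1) := Nat.cast_le.2 (h i)
    linarith
  refine le_of_pow_le_pow_left₀ (n := 2) (by norm_num) (by positivity) ?_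
  rw [Nn_sq, mul_pow, N_sq]
  calc _ ≤ ∏ _i : Fin 3, 2 * (G.n (j + 1) : ℝ) :=
        Finset.prod_le_prod (fun _ _ => by positivity) fun i _ => h2 i
    _ = 8 * G.t ^ 90 * (G.t ^ 63) ^ j := by
        rw [Fin.prod_const, n_eq]
        ring
    _ ≤ G.t ^ 91 * (G.t ^ 63) ^ j := by
        gcongr
        linarith [G.pow_lt (a := 90) (b := 91) (by norm_num), pow_pos t0 90]
    _ = _ := by ring

lemma θ_pos : 0 < G.θ := by have := G.t_pos; unfold θ; positivity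

lemma xs_pos : 0 < G.xs := by have := G.t_pos; unfold xs; positivity

lemma Wc_pos : 0 < G.Wc := Real.exp_pos _

lemma tau0_pos : 0 < G.tau0 := by have := G.t_pos; have := G.m0_pos; unfold tau0; positivity

lemma tau0_le : G.tau0 ≤ Real.exp (-(99 * G.t ^ 19)) := by
  have t0 := G.t_pos
  rw [tau0, div_le_iff₀ G.m0_pos]
  refine (G.pow_le_exp (by norm_num)).trans (le_trans ?_
    (mul_le_mul_of_nonneg_left G.m0_lo (Real.exp_pos _).le))
  rw [← Real.exp_add, Real.exp_le_exp]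
  linarith [G.pow_le (a := 1) (b := 19) (by norm_num)]

lemma exp_jk {R : Raw} {J k : ℕ} {t : ℝ} (hk : k ≤ 88) (hJ : Jb G R J t) :
    Real.exp (G.t ^ k) * R.Jk t ≤ G.lam J ^ 3 / G.N J := by
  have l0 := G.lam_pos J
  have n0 := G.N_pos J
  refine (mul_le_mul_of_nonneg_left hJ (Real.exp_pos _).le).trans ?_
  rw [← mul_assoc, ← Real.exp_add]
  exact mul_le_of_le_one_left (by positivity) (Real.exp_le_one_iff.2 (by linarith [G.pow_le hk]))

lemma sp_φ (j : ℕ) : Sp (G.rb j) (G.φ j) := sp_ph _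

lemma norm_φ (j : ℕ) : ‖G.φ j‖ = 1 := norm_ph _

end Geo

namespace IsNet

variable {G : Geo} {R : Raw} (H : IsNet G R)

include H

lemma kap_pos (j : ℕ) : 0 < R.kap G j := mul_pos H.kp_pos (G.lam_pos j)

lemma bh_pos (j : ℕ) : 0 < R.bh G j := div_pos (G.d_pos _) (H.kap_pos j)

lemma kap_mul_bh (j : ℕ) : R.kap G j * R.bh G j = G.d (j + 1) :=
  mul_div_cancel₀ _ (H.kap_pos j).ne'

lemma bh_eq (j : ℕ) : R.bh G j = 2 * G.t ^ 42 * G.lam j / R.kp := by
  have := H.kp_pos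
  have := G.lam_pos j
  rw [Raw.bh, Raw.kap, G.d_succ, Geo.d]
  field_simp

lemma bh_succ (j : ℕ) : R.bh G (j + 1) = G.t ^ 21 * R.bh G j := by
  rw [H.bh_eq, H.bh_eq, Geo.lam_succ]
  ring

lemma bh_add (j m : ℕ) : R.bh G (j + m) = (G.t ^ 21) ^ m * R.bh G j := by
  rw [H.bh_eq, H.bh_eq, Geo.lam_add]
  ring

lemma bh_add_kk (j : ℕ) : R.bh G (j + G.kk) = G.m0 * R.bh G j := by
  rw [H.bh_add, Geo.m0, Geo.La_eq]

lemma bh_mono {i j : ℕ} (h : i ≤ j) : R.bh G i ≤ R.bh G j := by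
  obtain ⟨m, rfl⟩ := Nat.exists_eq_add_of_le h
  rw [H.bh_add]
  exact le_mul_of_one_le_left (H.bh_pos i).le (one_le_pow₀ (one_le_pow₀ G.one_le_t))

lemma bh_sq_le (j : ℕ) : R.bh G j ^ 2 ≤ 800 * G.t ^ 105 * G.lam j ^ 2 := by
  have h1 := H.kp_pos
  have t0 := G.t_pos
  rw [H.bh_eq, div_pow, div_le_iff₀ (by positivity)]
  linarith [mul_le_mul_of_nonneg_left H.kp_lo
    (show 0 ≤ 800 * G.t ^ 84 * G.lam j ^ 2 by positivity)]

lemma bh_lo (j : ℕ) : 10 ^ 50 * G.t ^ 52 * G.lam j ≤ R.bh G j := by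
  have h1 := H.kp_pos
  have l0 := G.lam_pos j
  have t0 := G.t_pos
  refine le_of_pow_le_pow_left₀ (n := 2) (by norm_num) (H.bh_pos j).le ?_
  rw [H.bh_eq, div_pow, le_div_iff₀ (by positivity)]
  have h2 := mul_le_mul_of_nonneg_left H.kp_hi (show 0 ≤ G.t ^ 84 * G.lam j ^ 2 by positivity)
  have h3 := mul_le_mul_of_nonneg_right (G.pow_lt (a := 104) (b := 105) (by norm_num))
    (show 0 ≤ G.lam j ^ 2 * R.kp ^ 2 by positivity)
  have h4 : 0 ≤ G.t ^ 84 * G.lam j ^ 2 := by positivity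
  linarith

lemma bh_hi (j : ℕ) : 10 ^ 48 * R.bh G j ≤ G.t ^ 53 * G.lam j := by
  have t0 := G.t_pos
  have l0 := G.lam_pos j
  refine le_of_pow_le_pow_left₀ (n := 2) (by norm_num) (by positivity) ?_
  have h3 := mul_le_mul_of_nonneg_right (G.pow_lt (a := 105) (b := 106) (by norm_num))
    (sq_nonneg (G.lam j))
  have h4 : 0 ≤ G.t ^ 105 * G.lam j ^ 2 := by positivity
  linarith [H.bh_sq_le j]

lemma om_pos (o : Fin 4) : 1 ≤ R.om o ∧ R.om o ≤ 9 := by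
  have h1 := H.om_lo
  have h2 := H.om_hi
  fin_cases o <;> simp [Raw.om] <;> constructor <;> linarith

omit H in
lemma sum_om : ∑ o, R.om o = R.Om := by
  simp [Raw.om, Raw.Om, Fin.sum_univ_four]; ring

lemma Om_lo : 16 ≤ R.Om := by have := H.om_lo; unfold Raw.Om; linarith

lemma Om_hi : R.Om ≤ 20 := by have := H.om_hi; unfold Raw.Om; linarith

lemma un_pos (j : ℕ) : 0 < R.un G j := by
  exact div_pos (H.bh_pos j) (mul_pos (by linarith [H.Om_lo])
    ((G.N_pos j).trans_le (le_l1_ph _)))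

lemma un_mul (j : ℕ) : R.un G j * (R.Om * l1 (G.φ j)) = R.bh G j := by
  exact div_mul_cancel₀ _ (mul_pos (by linarith [H.Om_lo])
    ((G.N_pos j).trans_le (le_l1_ph _))).ne'

lemma un_hi (j : ℕ) : 16 * (G.N j * R.un G j) ≤ R.bh G j := by
  rw [← H.un_mul j, ← mul_assoc, mul_comm]
  exact mul_le_mul_of_nonneg_left (mul_le_mul H.Om_lo (le_l1_ph _) (G.N_pos j).le
    (by linarith [H.Om_lo])) (H.un_pos j).le

lemma un_lo (j : ℕ) : R.bh G j ≤ 60 * (G.N j * R.un G j) := by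
  have h1 : R.Om * l1 (G.φ j) ≤ 20 * (3 * G.N j) :=
    mul_le_mul H.Om_hi (l1_ph_le _) ((G.N_pos j).le.trans (le_l1_ph _)) (by norm_num)
  linarith [H.un_mul j, mul_le_mul_of_nonneg_left h1 (H.un_pos j).le]

lemma cq_le' (o : Fin 4) : 10 ^ 50 * G.t ^ 10 * |R.cq o| ≤ 1 := by
  refine le_of_pow_le_pow_left₀ (n := 2) (by norm_num) zero_le_one ?_
  rw [mul_pow, sq_abs]
  linarith [H.cq_le o, mul_le_mul_of_nonneg_right (G.pow_lt (a := 20) (b := 21) (by norm_num))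
    (sq_nonneg (R.cq o))]

end IsNet

namespace Raw

variable (R : Raw) (G : Geo)

lemma lev_nonneg (j : ℕ) (t : ℝ) : 0 ≤ R.lev j t := Real.sqrt_nonneg _

lemma lev_sq (j : ℕ) (t : ℝ) : R.lev j t ^ 2 = ∑ o, (‖R.b j o t‖ ^ 2 + ‖R.c j o t‖ ^ 2) :=
  Real.sq_sqrt (by positivity)

lemma ch_nonneg (j : ℕ) (t : ℝ) : 0 ≤ R.ch G j t := Real.sqrt_nonneg _

lemma ch_sq (j : ℕ) (t : ℝ) : R.ch G j t ^ 2 = ∑ i ∈ Finset.Icc 1 G.La, ‖R.y j i t‖ ^ 2 :=
  Real.sq_sqrt (by positivity)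

lemma nr_le_lev (j : ℕ) (o : Fin 4) (t : ℝ) : nr (R.b j o t) (R.c j o t) ≤ R.lev j t := by
  exact Real.sqrt_le_sqrt (Finset.single_le_sum (f := fun o => ‖R.b j o t‖ ^ 2 + ‖R.c j o t‖ ^ 2)
    (fun _ _ => by positivity) (Finset.mem_univ o))

lemma b_le_lev (j : ℕ) (o : Fin 4) (t : ℝ) : ‖R.b j o t‖ ≤ R.lev j t :=
  (le_nr_1 _ _).trans (R.nr_le_lev j o t)

lemma c_le_lev (j : ℕ) (o : Fin 4) (t : ℝ) : ‖R.c j o t‖ ≤ R.lev j t :=
  (le_nr_2 _ _).trans (R.nr_le_lev j o t)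

lemma y_le_ch (j : ℕ) {i : ℕ} (h1 : 1 ≤ i) (h2 : i ≤ G.La) (t : ℝ) : ‖R.y j i t‖ ≤ R.ch G j t := by
  exact Real.le_sqrt_of_sq_le (Finset.single_le_sum (f := fun i => ‖R.y j i t‖ ^ 2)
    (fun _ _ => by positivity) (Finset.mem_Icc.2 ⟨h1, h2⟩))

lemma nl_nonneg (j : ℕ) (t : ℝ) : 0 ≤ R.nl G j t := mul_nonneg (G.N_pos j).le (R.lev_nonneg j t)

lemma nc_nonneg (j : ℕ) (t : ℝ) : 0 ≤ R.nc G j t :=
  mul_nonneg (G.N_pos j).le (mul_nonneg G.Wc_pos.le (R.ch_nonneg G j t))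

lemma ny_eq (j : ℕ) (t : ℝ) : R.ny G j t = G.t ^ 50 / G.Wc * R.nc G j t := by
  have := G.Wc_pos
  unfold ny nc; field_simp

lemma ny_nonneg (j : ℕ) (t : ℝ) : 0 ≤ R.ny G j t :=
  mul_nonneg (G.N_pos j).le (mul_nonneg (pow_pos G.t_pos _).le (R.ch_nonneg G j t))

lemma nu_nonneg (j : ℕ) (t : ℝ) : 0 ≤ R.nu G j t := add_nonneg (R.nl_nonneg G j t) (R.ny_nonneg G j t)

lemma LowL_nonneg (j : ℕ) (t : ℝ) : 0 ≤ R.LowL G j t :=
  Finset.sum_nonneg fun i _ => R.nl_nonneg G i t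

lemma LowY_nonneg (j : ℕ) (t : ℝ) : 0 ≤ R.LowY G j t :=
  Finset.sum_nonneg fun i _ => R.ny_nonneg G i t

lemma Low_nonneg (j : ℕ) (t : ℝ) : 0 ≤ R.Low G j t :=
  add_nonneg (R.LowL_nonneg G j t) (R.LowY_nonneg G j t)

lemma Low_succ (j : ℕ) (t : ℝ) : R.Low G j t ≤ R.Low G (j + 1) t := by
  have h : Finset.range (j + 1 - G.kk) ⊆ Finset.range (j + 1 + 1 - G.kk) :=
    Finset.range_subset_range.2 (by omega)
  exact add_le_add (Finset.sum_le_sum_of_subset_of_nonneg h fun i _ _ => R.nl_nonneg G i t)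
    (Finset.sum_le_sum_of_subset_of_nonneg h fun i _ _ => R.ny_nonneg G i t)

lemma Yq_zero (j : ℕ) (a : ℝ) : R.Yq G j a 0 = R.bh G j * a := by simp [Yq]

lemma Yq_succ (j : ℕ) (a : ℝ) (i : ℕ) : G.D j * R.Yq G j a (i + 1) =
    R.cy (i + 1) * G.lam j * (R.bh G j * a) * R.Yq G j a i := by
  have := G.D_pos j
  simp only [Yq, Finset.prod_range_succ]
  generalize ∏ m ∈ Finset.range i, R.cy (m + 1) * G.lam j * (R.bh G j * a) / G.D j = X
  field_simp

lemma Yq_succ' (j : ℕ) (a : ℝ) (i : ℕ) : R.Yq G j a (i + 1) =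
    R.cy (i + 1) * G.lam j * R.bh G j / G.D j * a * R.Yq G j a i := by
  simp only [Yq, Finset.prod_range_succ]
  ring

lemma Yq_eq (j : ℕ) (a : ℝ) (i : ℕ) : R.Yq G j a i = R.Yq G j 1 i * a ^ (i + 1) := by
  induction i with
  | zero => simp [Yq]
  | succ i ih =>
    rw [R.Yq_succ' G j a, R.Yq_succ' G j 1, ih]
    ring

lemma Fs_eq (j : ℕ) (z a : ℝ) : R.Fs G j z a = R.Fs G j z 1 * a ^ (G.La + 1) := by
  simp only [Fs]; rw [R.Yq_eq G j a]; ring

end Raw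

namespace IsNet

variable {G : Geo} {R : Raw} (H : IsNet G R)

include H

lemma Jk_nonneg (t : ℝ) : 0 ≤ R.Jk t :=
  add_nonneg (mul_nonneg (H.U_nonneg t) (H.Hj_nonneg t)) (mul_nonneg (H.Fj_nonneg t) (H.H_nonneg t))

lemma eb_nonneg (j : ℕ) (t : ℝ) : 0 ≤ R.eb G j t := by
  have h1 := R.lev_nonneg j t
  have h2 := R.lev_nonneg (j + 1) t
  have h3 := R.ch_nonneg G j t
  have h4 := (G.N_pos j).le
  have h5 : 0 ≤ R.pv G j t := by
    cases j with
    | zero => exact le_rfl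
    | succ j => exact R.nu_nonneg G j t
  exact add_nonneg (mul_nonneg (mul_nonneg (by norm_num) (G.lam_pos j).le) (add_nonneg (add_nonneg
    (add_nonneg (add_nonneg (mul_nonneg (mul_nonneg G.tau0_pos.le h5) h1)
      (mul_nonneg (mul_nonneg (mul_nonneg (pow_pos G.t_pos _).le h4) h3)
        (add_nonneg (add_nonneg h3 h1) h2))) (mul_nonneg (mul_nonneg h4 h2) (add_nonneg h2 h3)))
    (mul_nonneg (R.Low_nonneg G j t) h1)) (mul_nonneg h4 (H.ET_nonneg _ t))))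
    (mul_nonneg (by norm_num) (H.Jk_nonneg t))

lemma ec_nonneg (j : ℕ) (t : ℝ) : 0 ≤ R.ec G j t := by
  have h2 := R.lev_nonneg (j + 1) t
  exact mul_nonneg (pow_pos G.t_pos _).le (add_nonneg (mul_nonneg (G.lam_pos _).le (add_nonneg
    (add_nonneg (add_nonneg (mul_nonneg (mul_nonneg G.tau0_pos.le (R.nu_nonneg G j t)) h2)
      (mul_nonneg (R.Low_nonneg G _ t) h2)) (mul_nonneg (add_nonneg (R.LowY_nonneg G _ t)
        (mul_nonneg (div_pos G.tau0_pos G.m0_pos).le (R.LowL_nonneg G _ t))) (norm_nonneg _)))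
    (mul_nonneg (G.N_pos _).le (H.ET_nonneg _ t)))) (H.Jk_nonneg t))

lemma ey_nonneg (j i : ℕ) (t : ℝ) : 0 ≤ R.ey G j i t := by
  have h1 := R.nl_nonneg G j t
  exact add_nonneg (mul_nonneg (mul_nonneg (by norm_num) (G.lam_pos _).le) (add_nonneg (add_nonneg
    (add_nonneg (mul_nonneg (mul_nonneg G.tau0_pos.le h1) (norm_nonneg _))
      (mul_nonneg (add_nonneg h1 (R.Low_nonneg G _ t))
        (add_nonneg (norm_nonneg _) (R.lev_nonneg _ t))))
      (mul_nonneg (R.Low_nonneg G j t) (norm_nonneg _)))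
    (mul_nonneg (mul_nonneg (pow_pos G.t_pos _).le (G.N_pos j).le) (H.ET_nonneg _ t))))
    (mul_nonneg (by norm_num) (H.Jk_nonneg t))

lemma Yq_pos (j : ℕ) {a : ℝ} (ha : 0 < a) (i : ℕ) : 0 < R.Yq G j a i := by
  have h1 := H.bh_pos j
  have h2 := G.lam_pos j
  have h3 := G.D_pos j
  refine mul_pos (mul_pos h1 ha) (Finset.prod_pos fun m _ => ?_)
  have : 0 < R.cy (m + 1) := lt_of_lt_of_le (by norm_num) (H.cy_lo _)
  positivity

lemma fac_lo (j i : ℕ) :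
    Real.exp (-(G.t ^ 21 / 2)) ≤ R.cy (i + 1) * G.lam j * R.bh G j / G.D j := by
  have l0 := G.lam_pos j
  have a1 : 3 * G.lam j ≤ R.bh G j := by
    have := mul_le_mul_of_nonneg_right (one_le_pow₀ (n := 52) G.one_le_t) l0.le
    linarith [H.bh_lo j]
  have a2 := H.cy_lo (i + 1)
  rw [le_div_iff₀ (G.D_pos j), Geo.D, ← mul_assoc, ← Real.exp_add, neg_add_cancel, Real.exp_zero]
  calc _ = 1 / 3 * G.lam j * (3 * G.lam j) := by ring
    _ ≤ _ := by gcongr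

lemma fac_hi (j i : ℕ) : R.cy (i + 1) * G.lam j * R.bh G j / G.D j ≤
    G.t ^ 53 / 10 ^ 48 * Real.exp (-(G.t ^ 21 / 2)) := by
  have l0 := G.lam_pos j
  have b0 := H.bh_pos j
  have a1 : R.bh G j ≤ G.t ^ 53 / 10 ^ 48 * G.lam j := by linarith [H.bh_hi j]
  have a2 := H.cy_hi (i + 1)
  rw [div_le_iff₀ (G.D_pos j), Geo.D, mul_assoc _ (Real.exp _), ← mul_assoc (Real.exp _),
    ← Real.exp_add, neg_add_cancel, Real.exp_zero]
  calc _ ≤ 1 * G.lam j * (G.t ^ 53 / 10 ^ 48 * G.lam j) := by gcongr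
    _ = _ := by ring

/-- The slaved amplitudes decrease very fast along the ladder. -/
lemma Yq_succ_le (j : ℕ) {a : ℝ} (h0 : 0 < a) (h1 : a ≤ 11) (i : ℕ) :
    R.Yq G j a (i + 1) ≤ Real.exp (-(G.t ^ 21 / 3)) * R.Yq G j a i := by
  have t0 := G.t_pos
  rw [R.Yq_succ']
  refine mul_le_mul_of_nonneg_right ((mul_le_mul (H.fac_hi j i) h1 h0.le
    (by positivity)).trans ?_) (H.Yq_pos j h0 i).le
  have h2 : G.t ^ 53 ≤ Real.exp (G.t ^ 21 / 6) := (G.pow_le_exp (by norm_num)).trans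
    (Real.exp_le_exp.2 (by linarith [G.pow_le (a := 1) (b := 21) (by norm_num)]))
  have h3 := mul_le_mul_of_nonneg_right h2 (Real.exp_pos (-(G.t ^ 21 / 2))).le
  rw [← Real.exp_add, show G.t ^ 21 / 6 + -(G.t ^ 21 / 2) = -(G.t ^ 21 / 3) by ring] at h3
  have h4 : 0 ≤ G.t ^ 53 * Real.exp (-(G.t ^ 21 / 2)) := by positivity
  linarith

/-- The size of the seed. -/
lemma Fs_bounds (j : ℕ) {z : ℝ} (h0 : 2 * R.bh G (j + 1) ≤ z * G.m0)
    (h1 : z * G.m0 ≤ 10 * R.bh G (j + 1)) :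
    Real.exp (-(G.t ^ 42 / 2) - G.t ^ 41) * (G.d (j + 1) * R.bh G (j + 1)) ≤ R.Fs G j z 1 ∧
      R.Fs G j z 1 ≤ Real.exp (-(G.t ^ 42 / 2) + G.t ^ 41) * (G.d (j + 1) * R.bh G (j + 1)) := by
  have t0 := G.t_pos
  have m0 := G.m0_pos
  have m1 : 1 ≤ G.m0 := le_trans (Real.one_le_exp (by positivity)) G.m0_lo
  have b0 := H.bh_pos j
  have b1 := H.bh_pos (j + 1)
  have l1 := G.lam_pos (j + 1)
  have c0 := H.cf_lo
  obtain ⟨Q, hQ, q1, q2⟩ : ∃ Q : ℝ, R.Yq G j 1 G.La = R.bh G j * Q ∧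
      Real.exp (-(G.t ^ 42 / 2)) ≤ Q ∧ Q ≤ Real.exp (G.t ^ 22 - G.t ^ 42 / 2) := by
    refine ⟨∏ m ∈ Finset.range G.La, R.cy (m + 1) * G.lam j * R.bh G j / G.D j,
      by simp [Raw.Yq], ?_, ?_⟩
    · refine le_trans (le_of_eq ?_) (Finset.prod_le_prod
        (fun _ _ => (Real.exp_pos (-(G.t ^ 21 / 2))).le) fun m _ => H.fac_lo j m)
      rw [Finset.prod_const, Finset.card_range, ← Real.exp_nat_mul, G.La_eq]
      congr 1
      ring
    · refine (Finset.prod_le_prod (g := fun _ => Real.exp (G.t - G.t ^ 21 / 2))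
        (fun m _ => (Real.exp_pos _).le.trans (H.fac_lo j m)) fun m _ =>
          (H.fac_hi j m).trans ?_).trans (le_of_eq ?_)
      · rw [sub_eq_add_neg, Real.exp_add]
        refine mul_le_mul_of_nonneg_right ((div_le_self (by positivity) (by norm_num)).trans
          ((G.pow_le_exp (by norm_num)).trans (Real.exp_le_exp.2 ?_))) (Real.exp_pos _).le
        linarith
      · rw [Finset.prod_const, Finset.card_range, ← Real.exp_nat_mul, G.La_eq]
        congr 1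
        ring
  have q0 : 0 < Q := (Real.exp_pos _).trans_le q1
  have e : R.Fs G j z 1 = R.cf * G.lam (j + 1) * (z * G.m0) * R.bh G j * Q / G.m0 ^ 2 := by
    rw [Raw.Fs, hQ, G.lam_eq (j + 1)]
    field_simp
  have a1 : G.lam (j + 1) ≤ R.bh G j := by
    rw [G.lam_succ]
    refine le_trans (mul_le_mul_of_nonneg_right ?_ (G.lam_pos j).le) (H.bh_lo j)
    linarith [G.pow_le (a := 21) (b := 52) (by norm_num), pow_pos t0 52]
  have a2 : R.bh G j ≤ G.t ^ 32 / 10 ^ 48 * G.lam (j + 1) := by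
    rw [G.lam_succ]
    linarith [H.bh_hi j]
  have a3 : G.m0 ^ 2 ≤ Real.exp (G.t ^ 41) := by
    refine (pow_le_pow_left₀ m0.le G.m0_hi 2).trans ?_
    rw [← Real.exp_nat_mul, Real.exp_le_exp]
    push_cast
    linarith [G.pow_le (a := 20) (b := 41) (by norm_num), pow_pos t0 20]
  rw [e, Geo.d]
  constructor
  · calc _ = 1 * G.lam (j + 1) * (2 * R.bh G (j + 1)) * G.lam (j + 1) *
          Real.exp (-(G.t ^ 42 / 2)) / Real.exp (G.t ^ 41) := by
          rw [Real.exp_sub]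
          ring
      _ ≤ _ := by
          have : 0 ≤ z * G.m0 := by linarith
          gcongr
  · have a4 : G.t ^ 43 ≤ Real.exp (G.t ^ 41 - G.t ^ 22) := (G.pow_le_exp (by norm_num)).trans
      (Real.exp_le_exp.2 (by
        have := G.pow_lt (a := 22) (b := 41) (by norm_num)
        linarith [G.pow_le (a := 1) (b := 22) (by norm_num), pow_pos t0 22]))
    calc _ ≤ G.t ^ 11 * G.lam (j + 1) * (10 * R.bh G (j + 1)) *
          (G.t ^ 32 / 10 ^ 48 * G.lam (j + 1)) * Real.exp (G.t ^ 22 - G.t ^ 42 / 2) / 1 ^ 2 := by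
          have : 0 ≤ z * G.m0 := by linarith
          have := H.cf_hi
          gcongr
      _ = 5 / 10 ^ 48 * G.t ^ 43 * Real.exp (G.t ^ 22 - G.t ^ 42 / 2) *
          (2 * G.lam (j + 1) ^ 2 * R.bh G (j + 1)) := by ring
      _ ≤ 1 * Real.exp (G.t ^ 41 - G.t ^ 22) * Real.exp (G.t ^ 22 - G.t ^ 42 / 2) *
          (2 * G.lam (j + 1) ^ 2 * R.bh G (j + 1)) := by
          gcongr
          norm_num
      _ = _ := by
          rw [one_mul, ← Real.exp_add]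
          congr 2
          ring

/-- The junk is negligible for the old levels. -/
lemma jk_old {J i : ℕ} {t : ℝ} (hJ : Jb G R J t) (hi : i ≤ J) :
    Real.exp (G.t ^ 30) * R.Jk t ≤ (1 / 2) ^ (J - i) * (R.un G i * G.lam J ^ 2) := by
  obtain ⟨m, rfl⟩ := Nat.exists_eq_add_of_le hi
  have t0 := G.t_pos
  have l0 := G.lam_pos i
  have l1 := G.lam_pos (i + m)
  have n0 := G.N_pos i
  have u0 := H.un_pos i
  have a1 : G.lam i ≤ G.N i * R.un G i := by
    have := mul_le_mul_of_nonneg_right (one_le_pow₀ (n := 52) G.one_le_t) l0.le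
    linarith [H.bh_lo i, H.un_lo i]
  have a2 : G.t ^ 21 ≤ 1 / 2 * G.t ^ 31 := by
    linarith [G.pow_lt (a := 21) (b := 31) (by norm_num), pow_pos t0 21]
  rw [Nat.add_sub_cancel_left]
  refine (G.exp_jk (by norm_num) hJ).trans ?_
  rw [div_le_iff₀ (G.N_pos _)]
  calc G.lam (i + m) ^ 3 = (G.t ^ 21) ^ m * G.lam i * G.lam (i + m) ^ 2 := by
        rw [← G.lam_add]
        ring
    _ ≤ (1 / 2 * G.t ^ 31) ^ m * (G.N i * R.un G i) * G.lam (i + m) ^ 2 := by gcongr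
    _ = (1 / 2) ^ m * (R.un G i * G.lam (i + m) ^ 2) * ((G.t ^ 31) ^ m * G.N i) := by
        rw [mul_pow]
        ring
    _ ≤ _ := mul_le_mul_of_nonneg_left (G.N_add_lo i m) (by positivity)

/-- The junk is negligible for the upper levels. -/
lemma jk_up {J i : ℕ} {t : ℝ} (hJ : Jb G R J t) (hi : J ≤ i) :
    Real.exp (G.t ^ 60) * (G.N i * R.Jk t) ≤ G.θ ^ (i - J) * (G.lam i ^ 2 * R.bh G J) := by
  obtain ⟨m, rfl⟩ := Nat.exists_eq_add_of_le hi
  have t0 := G.t_pos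
  have l0 := G.lam_pos J
  have n0 := G.N_pos J
  have n1 := G.N_pos (J + m)
  have a1 : G.lam J ≤ R.bh G J := by
    have := mul_le_mul_of_nonneg_right (one_le_pow₀ (n := 52) G.one_le_t) l0.le
    linarith [H.bh_lo J]
  rw [Nat.add_sub_cancel_left, mul_left_comm]
  calc _ ≤ G.N (J + m) * (G.lam J ^ 3 / G.N J) :=
        mul_le_mul_of_nonneg_left (G.exp_jk (by norm_num) hJ) n1.le
    _ ≤ (G.t ^ 32) ^ m * G.N J * (G.lam J ^ 3 / G.N J) :=
        mul_le_mul_of_nonneg_right (G.N_add_hi J m) (by positivity)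
    _ = (G.t ^ 32) ^ m * (G.lam J ^ 2 * G.lam J) := by field_simp
    _ ≤ (G.t ^ 32) ^ m * (G.lam J ^ 2 * R.bh G J) := by gcongr
    _ = _ := by
        rw [G.lam_add, Geo.θ, inv_pow]
        field_simp
        ring

end IsNet

end

end Pool.Agent.Work.MP_6bf1e5_an.Ell
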