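import Pool.Agent.Work.MP_6bf1e5_an.Ell.Defs

/-!
The stages of the cascade.
-/

open Set Complex Filter Topology
open scoped InnerProductSpace ComplexConjugate
open Pool.Agent.Work.MP_6bf1e5_an.B (Z3 R3)
open Pool.Agent.Work.MP_6bf1e5_an.Dec

namespace Pool.Agent.Work.MP_6bf1e5_an.Ell

noncomputable section

namespace Raw

variable (R : Raw) (G : Geo)

/-- The amplitude of level `j` in units of the critical amplitude. -/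
def aa (j : ℕ) (t : ℝ) : ℝ := (ev 0 (R.B G j t)).re / R.bh G j

/-- The normalised comb of level `j`. -/
def pB (j : ℕ) (t : ℝ) : V := (ev 0 (R.B G j t))⁻¹ • R.B G j t

/-- The normalised driver of level `j + 1`. -/
def pp (j : ℕ) (t : ℝ) : V := tau (R.pB G j t)

/-- The slaved amplitudes of the rungs of ladder `j` at amplitude `a`. -/
def Yq (j : ℕ) (a : ℝ) (i : ℕ) : ℝ :=
  R.bh G j * a * ∏ m ∈ Finset.range i, R.cy (m + 1) * G.lam j * (R.bh G j * a) / G.D j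

/-- The slaved seed of level `j + 1`. -/
def Fs (j : ℕ) (z a : ℝ) : ℝ := R.cf * (2 * Real.pi * G.n (j + 1)) * z * R.Yq G j a G.La

end Raw

/-- A linear combination of teeth. -/
def cmb (m : Fin 4 → ℝ) (g : Fin 4 → V) : V := ∑ o, (m o : ℂ) • g o

/-- The exponential comparison function of a stage. -/
def Ex (t0 E0 g0 t : ℝ) : ℝ := E0 * Real.exp (g0 * (t - t0))

/-- The first moments of the current comb. -/
def Geo.mv (G : Geo) (j : ℕ) (i : Fin 3) : ℝ :=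
  10 ^ 3 * (1 / 10 ^ 29 * G.w j i + 2 * G.ι * G.rB j i)

/-- The state at the beginning `t` of stage `J`. -/
structure St (G : Geo) (R : Raw) (J : ℕ) (t : ℝ) (AA : ℕ → ℝ) : Prop where
  kJ : G.kk ≤ J
  t0 : 0 ≤ t
  oldA : ∀ i < J, 2 ≤ AA i ∧ AA i ≤ 10
  oldb : ∀ i < J, ∀ o, ‖R.b i o t - ((AA i * R.un G i : ℝ) : ℂ) • G.φ i‖ ≤
    1 / 10 ^ 20 * (1 - (1 / 2) ^ (J - i)) * R.un G i
  oldc : ∀ i < J, ∀ o, ‖R.c i o t‖ ≤ 30 * (1 - (1 / 2) ^ (J - i)) * R.un G i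
  oldy : ∀ i < J, R.nc G i t ≤ 30 * (1 - (1 / 2) ^ (J - i)) * R.bh G i
  curA : G.xs ≤ AA J ∧ AA J ≤ 10 ^ 3 * G.xs
  curb : ∀ o, ‖R.b J o t - ((AA J * R.un G J : ℝ) : ℂ) • G.φ J‖ ≤ 1 / 10 ^ 30 * (AA J * R.un G J)
  curc : ∀ o, ‖R.c J o t - ((AA J * R.un G J : ℝ) : ℂ) • G.φ J‖ ≤ 1 / 10 ^ 30 * (AA J * R.un G J)
  difb : ∀ o o', ‖R.b J o t - R.b J o' t‖ ≤ G.ι * (AA J * R.un G J)
  difc : ∀ o o', ‖R.c J o t - R.c J o' t‖ ≤ G.ι * (AA J * R.un G J)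
  upy : ∀ i, J ≤ i → R.nc G i t ≤ 20 * G.θ ^ (i - J + 1) * G.xs * R.bh G J
  upl : ∀ i, J + 1 ≤ i → G.Wc * R.nl G i t ≤ 20 * G.θ ^ (i - J) * G.xs * R.bh G J
  Fj : R.Fj t ≤ G.δ0 * G.lam J
  Hj : R.Hj t ≤ G.δ0 * (G.lam J ^ 2 / G.N J)

/-- The levels above `J` have size `u`. -/
structure Up (G : Geo) (R : Raw) (J : ℕ) (t u : ℝ) : Prop where
  nw : R.nl G (J + 1) t ≤ u
  y : ∀ i, J + 1 ≤ i → R.nc G i t ≤ G.θ ^ (i - J) * u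
  l : ∀ i, J + 2 ≤ i → G.Wc * R.nl G i t ≤ G.θ ^ (i - J - 1) * u

/-- The crude bounds. -/
structure Cr0 (G : Geo) (R : Raw) (J : ℕ) (t : ℝ) : Prop where
  t0 : 0 ≤ t
  nl : ∀ i, R.nl G i t ≤ 10 * R.bh G i
  nc : ∀ i, R.nc G i t ≤ 30 * R.bh G i
  up : Up G R J t (11 * G.xs * R.bh G (J + 1))

/-- The bound of the interaction with the junk. -/
def Jb (G : Geo) (R : Raw) (J : ℕ) (t : ℝ) : Prop :=
  R.Jk t ≤ Real.exp (-G.t ^ 88) * (G.lam J ^ 3 / G.N J)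

/-- The bounds at time `t` of stage `J`, the current level having size `E`. -/
structure Bnd (G : Geo) (R : Raw) (J : ℕ) (AA : ℕ → ℝ) (t E : ℝ) : Prop where
  kJ : G.kk ≤ J
  t0 : 0 ≤ t
  oldA : ∀ i < J, 2 ≤ AA i ∧ AA i ≤ 10
  oldb : ∀ i < J, ∀ o, ‖R.b i o t - ((AA i * R.un G i : ℝ) : ℂ) • G.φ i‖ ≤
    1 / 10 ^ 20 * (1 - (1 / 2) ^ (J + 1 - i)) * R.un G i
  oldc : ∀ i < J, ∀ o, ‖R.c i o t‖ ≤ 30 * (1 - (1 / 2) ^ (J + 1 - i)) * R.un G i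
  oldy : ∀ i < J, R.nc G i t ≤ 30 * (1 - (1 / 2) ^ (J + 1 - i)) * R.bh G i
  Elo : G.xs ≤ E
  Ehi : E ≤ 21 / 2
  curl : R.lev J t ≤ 4 * (E * R.un G J)
  cury : R.nc G J t ≤ E * R.bh G J
  up : Up G R J t (G.xs * E * R.bh G (J + 1))

/-- The crude description of stage `j + 1` on the stopped interval `[t0, c]`. -/
structure Run (G : Geo) (R : Raw) (j : ℕ) (AA : ℕ → ℝ) (t0 c g0 : ℝ) : Prop where
  st : St G R (j + 1) t0 AA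
  le : t0 ≤ c
  le' : c ≤ t0 + G.Δ (j + 1)
  g0_eq : g0 = G.d (j + 1) * (R.aa G j t0 - 1)
  g0_lo : 99 / 100 * G.d (j + 1) ≤ g0
  g0_hi : g0 ≤ 901 / 100 * G.d (j + 1)
  bnd : ∀ t ∈ Icc t0 c, Bnd G R (j + 1) AA t (Ex t0 (AA (j + 1)) g0 t)
  jb : ∀ t ∈ Icc t0 c, Jb G R (j + 1) t
  drift : ∀ t ∈ Icc t0 c, |R.aa G j t - R.aa G j t0| ≤ (G.t ^ 9)⁻¹
  Fj : R.Fj c ≤ G.δ0 * G.lam (j + 2)
  Hj : R.Hj c ≤ G.δ0 * (G.lam (j + 2) ^ 2 / G.N (j + 2))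
  stop : Ex t0 (AA (j + 1)) g0 c = 21 / 2 ∨
    (R.nl G (j + 2) c = G.xs * Ex t0 (AA (j + 1)) g0 c * R.bh G (j + 2) ∧
      ∃ᶠ t in 𝓝[>] c, G.xs * Ex t0 (AA (j + 1)) g0 t * R.bh G (j + 2) < R.nl G (j + 2) t)

/-- The current level `J` at time `t`. -/
structure Cur (G : Geo) (R : Raw) (J : ℕ) (g0 t E : ℝ) : Prop where
  near : |R.aa G J t - E| ≤ 1 / 10 ^ 9 * E
  grow : ∃ D, HD (R.aa G J) D t ∧ 999 / 1000 * g0 * R.aa G J t ≤ D ∧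
    D ≤ 1001 / 1000 * g0 * R.aa G J t
  clb : ∀ o, ‖R.b J o t - ((R.aa G J t * R.un G J : ℝ) : ℂ) • G.φ J‖ ≤
    1 / 10 ^ 29 * (R.aa G J t * R.un G J)
  clc : ∀ o, ‖R.c J o t - ((R.aa G J t * R.un G J : ℝ) : ℂ) • G.φ J‖ ≤
    1 / 10 ^ 29 * (R.aa G J t * R.un G J)
  drv : Drv G.t (G.rB J) (G.mv J) (10 ^ 5 / G.t ^ 4) (R.pB G J t)
  dp : ∃ p', HD (R.pB G J) p' t ∧ Sp (fun i => 2 * G.rB J i) p' ∧ ev 0 p' = 0 ∧
    l1 p' ≤ 10 ^ 3 * G.d J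

/-- The upper bounds of the new level `J + 1` and of ladder `J` at time `t`; `z` is the amplitude
of the low comb, `g` the value of the comparison function. -/
structure Upp (G : Geo) (R : Raw) (J : ℕ) (z t g : ℝ) : Prop where
  lev : R.lev (J + 1) t ≤ 20 * g / G.N J
  y : ∀ i ≤ G.La, ‖R.y J i t‖ ≤
    3 * R.Yq G J (R.aa G J t) i / G.N J + Real.exp (-(G.t ^ 21 / 3)) * (20 * g / G.N J)
  ey : ∀ i < G.La, R.ey G J i t ≤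
    Real.exp (-G.t ^ 19) * (G.D J * R.Yq G J (R.aa G J t) (i + 1) / G.N J) +
      G.t ^ 110 * G.lam J ^ 2 * (g / G.N J)
  ebc : R.eb G (J + 1) t + R.ec G J t ≤
    Real.exp (-(2 * G.t ^ 19)) * ((R.Fs G J z (R.aa G J t) + G.d (J + 1) * g) / G.N J)

/-- The comparison function of the new level `J + 1`. -/
structure Cmp (G : Geo) (R : Raw) (J : ℕ) (z t0 c : ℝ) (g : ℝ → ℝ) : Prop where
  init : g t0 = Real.exp (G.t ^ 22) * R.bh G (J + 1)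
  ode : ∀ t ∈ Icc t0 c, HD g (G.d (J + 1) * (R.aa G J t - 1) * g t + R.Fs G J z (R.aa G J t)) t

/-- The three properties of a seed `f` of size `F` with slack `X`. -/
structure Seed (T : ℝ) (n r : N3) (N1 : ℝ) (p f : V) (F X : ℝ) : Prop where
  wt : ∀ (i : Fin 3) (u : ℝ), |u| * r i ≤ 1 / (3000 * T ^ 16) →
    ‖wt (Pi.single i u) f‖ ≤ (Real.exp (T / 10 ^ 19) * F + X) / N1
  sup : ∀ x ∈ cube, ‖ev x f‖ ≤ 11 / 10 * F + X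
  low : 4 / 5 * F - X ≤ Nn n * (⟪p * ph n, f⟫_ℂ).re

end

end Pool.Agent.Work.MP_6bf1e5_an.Ell
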