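import Pool.Agent.Work.MP_6bf1e5_an.Ell.Cone
import Pool.Agent.Work.MP_6bf1e5_an.Ell.StDef

/-!
Pointwise estimates for the first phase.
-/

open Set Complex Filter Topology
open scoped InnerProductSpace ComplexConjugate
open Pool.Agent.Work.MP_6bf1e5_an.B (Z3 R3)
open Pool.Agent.Work.MP_6bf1e5_an.Dec

namespace Pool.Agent.Work.MP_6bf1e5_an.Ell

noncomputable section

namespace Q1

open Ph1

lemma pow_le_exp19 {T : ℝ} (hT : (10 : ℝ) ^ 100 ≤ T) {k : ℕ} (hk : k ≤ 1000) :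
    T ^ k ≤ Real.exp (T / 10 ^ 19) := by
  have T0 : 0 < T := lt_of_lt_of_le (by positivity) hT
  have h1 : Real.log T ≤ 2 * √T := by
    have := Real.log_le_sub_one_of_pos (Real.sqrt_pos.mpr T0)
    rw [Real.log_sqrt T0.le] at this
    linarith
  have h2 : (10 : ℝ) ^ 50 ≤ √T := Real.le_sqrt_of_sq_le (by norm_num at hT ⊢; exact hT)
  have h3 : (k : ℝ) ≤ 1000 := by exact_mod_cast hk
  rw [← Real.exp_log (pow_pos T0 k), Real.log_pow]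
  refine Real.exp_le_exp.mpr ?_
  have h4 := Real.mul_self_sqrt T0.le
  have h5 : (0 : ℝ) ≤ k := Nat.cast_nonneg k
  have h6 : (k : ℝ) * Real.log T ≤ 1000 * (2 * √T) :=
    (mul_le_mul_of_nonneg_left h1 h5).trans (by gcongr)
  rw [le_div_iff₀ (by positivity)]
  nlinarith [Real.sqrt_nonneg T]

lemma le1 {a b U : ℝ} (hU : 0 ≤ U) (h : a ^ 2 + b ^ 2 ≤ U ^ 2) : a ≤ U :=
  (le_abs_self a).trans (abs_le_of_sq_le_sq (by linarith [sq_nonneg b]) hU)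

lemma le2 {a b U : ℝ} (hU : 0 ≤ U) (h : a ^ 2 + b ^ 2 ≤ U ^ 2) : b ≤ U :=
  le1 (b := a) hU (by linarith)

lemma wt_zero (f : V) : wt 0 f = f := by ext h; simp [coeff_wt]

lemma exp_half_le : Real.exp (1 / 2) ≤ 2 := by
  have := Real.exp_bound_div_one_sub_of_interval (x := 1 / 2) (by norm_num) (by norm_num)
  linarith [show (1 : ℝ) / (1 - 1 / 2) = 2 by norm_num]

lemma sum_single (m : N3) (i : Fin 3) (u : ℝ) :
    ∑ j, (m j : ℝ) * |(Pi.single i u : R3) j| = m i * |u| := by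
  rw [Finset.sum_eq_single i] <;> simp +contextual

lemma re_self (y : V) : (⟪y, y⟫_ℂ).re = ‖y‖ ^ 2 := by
  rw [← RCLike.re_to_complex, inner_self_eq_norm_sq]

/-- The energy inequality. -/
lemma energy2 {n : N3} {b : V} (hb : Sp n b) (c k1 k2 g0 g1 : V) {s : ℝ} (d : ℝ) (hs : 0 ≤ s)
    {v0 v1 : Z3 → ℝ} (h0 : ∀ h, 0 ≤ v0 h) (h1 : ∀ h, 0 ≤ v1 h) :
    (⟪b, (s : ℂ) • pj n (dag k1 * c) - (d : ℂ) • b - mulr v0 b + g0⟫_ℂ).re +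
      (⟪c, (s : ℂ) • (k2 * b) - (d : ℂ) • c - mulr v1 c + g1⟫_ℂ).re ≤
      s * (‖(k1 + k2) * b‖ * ‖c‖) - d * (‖b‖ ^ 2 + ‖c‖ ^ 2) + (‖b‖ * ‖g0‖ + ‖c‖ * ‖g1‖) := by
  simp only [inner_add_right, inner_sub_right, Complex.add_re, Complex.sub_re, re_inner_smul,
    re_self]
  rw [hb.inner_pj, inner_mul_right (dag k1), dag_dag, re_inner_comm c (k2 * b)]
  have e1 : (⟪k1 * b, c⟫_ℂ).re + (⟪k2 * b, c⟫_ℂ).re ≤ ‖(k1 + k2) * b‖ * ‖c‖ := by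
    rw [← Complex.add_re, ← inner_add_left, ← add_mul]; exact re_inner_le _ _
  have a0 := re_inner_mulr_ge h0 b
  have a1 := re_inner_mulr_ge h1 c
  have b0 := re_inner_le b g0
  have b1 := re_inner_le c g1
  have := mul_le_mul_of_nonneg_left e1 hs
  linarith

/-- The weighted energy inequality at one time. -/
lemma stepA {T κ : ℝ} {r n : N3} {mv : Fin 3 → ℝ} {p b c g0 g1 : V} {s d U x R : ℝ} {ξ : R3}
    {v0 v1 : Z3 → ℝ} (hp : Drv T r mv κ p) (hb : Sp n b) (hx : ∑ i, r i * |ξ i| ≤ x)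
    (hx1 : x ≤ 1 / 4) (hs : 0 ≤ s) (h0 : ∀ h, 0 ≤ v0 h) (h1 : ∀ h, 0 ≤ v1 h) (hU : 0 ≤ U)
    (hY : ‖wt ξ b‖ ^ 2 + ‖wt ξ c‖ ^ 2 = U ^ 2) (hR : ‖wt ξ g0‖ + ‖wt ξ g1‖ ≤ R) :
    (⟪wt ξ b, wt ξ ((s : ℂ) • pj n (dag p * c) - (d : ℂ) • b - mulr v0 b + g0)⟫_ℂ).re +
      (⟪wt ξ c, wt ξ ((s : ℂ) • (p * b) - (d : ℂ) • c - mulr v1 c + g1)⟫_ℂ).re ≤
      U * (((1 + 8 * x ^ 2) * s - d) * U + R) := by
  simp only [map_add, map_sub, map_smul, wt_pj, wt_mul, wt_dag, wt_mulr]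
  refine (energy2 (hb.wt ξ) _ _ _ _ _ d hs h0 h1).trans ?_
  have b0 := le1 hU hY.le
  have b1 := le2 hU hY.le
  have a1 := hp.norm_sym_mul_le hx hx1 (wt ξ b)
  have st : ‖(wt (-ξ) p + wt ξ p) * wt ξ b‖ * ‖wt ξ c‖ ≤ (1 + 8 * x ^ 2) * U ^ 2 := by
    calc _ ≤ 2 * (1 + 8 * x ^ 2) * ‖wt ξ b‖ * ‖wt ξ c‖ := by gcongr
      _ = (1 + 8 * x ^ 2) * (2 * ‖wt ξ b‖ * ‖wt ξ c‖) := by ring
      _ ≤ _ := by
        gcongr
        rw [← hY]; exact two_mul_le_add_sq _ _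
  have st' := mul_le_mul_of_nonneg_left st hs
  have g0' : ‖wt ξ b‖ * ‖wt ξ g0‖ ≤ U * ‖wt ξ g0‖ := by gcongr
  have g1' : ‖wt ξ c‖ * ‖wt ξ g1‖ ≤ U * ‖wt ξ g1‖ := by gcongr
  have g2 := mul_le_mul_of_nonneg_left hR hU
  rw [hY]
  linarith

lemma stepC {a b P g0 g1 : ℂ} {s d U η : ℝ} (hP : ‖P‖ ≤ 1) (hs : 0 ≤ s)
    (hU : 0 ≤ U) (hY : ‖a‖ ^ 2 + ‖b‖ ^ 2 = U ^ 2) (h0 : ‖g0‖ + ‖g1‖ ≤ η) :
    (⟪a, s * (conj P * b) - d * a + g0⟫_ℂ).re + (⟪b, s * (P * a) - d * b + g1⟫_ℂ).re ≤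
      U * ((s - d) * U + η) := by
  have ri : ∀ u v : ℂ, (⟪u, v⟫_ℂ).re ≤ ‖u‖ * ‖v‖ := fun u v =>
    (Complex.re_le_norm _).trans (norm_inner_le_norm _ _)
  have rs : ∀ (c : ℝ) (u v : ℂ), (⟪u, c * v⟫_ℂ).re = c * (⟪u, v⟫_ℂ).re := fun c u v => by
    rw [← smul_eq_mul, inner_smul_right, Complex.re_ofReal_mul]
  have rr : ∀ u : ℂ, (⟪u, u⟫_ℂ).re = ‖u‖ ^ 2 := fun u => by
    rw [← RCLike.re_to_complex, inner_self_eq_norm_sq]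
  have m1 : ‖P * a‖ ≤ ‖a‖ := by
    rw [norm_mul]; exact mul_le_of_le_one_left (norm_nonneg _) hP
  have m2 : ‖conj P * b‖ ≤ ‖b‖ := by
    rw [norm_mul, Complex.norm_conj]; exact mul_le_of_le_one_left (norm_nonneg _) hP
  simp only [inner_add_right, inner_sub_right, Complex.add_re, Complex.sub_re, rs, rr]
  have b0 := (ri a _).trans (mul_le_mul_of_nonneg_left m2 (norm_nonneg _))
  have b1 := (ri b _).trans (mul_le_mul_of_nonneg_left m1 (norm_nonneg _))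
  have c0 : (⟪a, conj P * b⟫_ℂ).re + (⟪b, P * a⟫_ℂ).re ≤ U ^ 2 := by
    linarith [two_mul_le_add_sq ‖a‖ ‖b‖]
  have c1 := mul_le_mul_of_nonneg_left c0 hs
  have d0 := (ri a g0).trans (mul_le_mul_of_nonneg_right (le1 hU hY.le) (norm_nonneg g0))
  have d1 := (ri b g1).trans (mul_le_mul_of_nonneg_right (le2 hU hY.le) (norm_nonneg g1))
  have d2 := mul_le_mul_of_nonneg_left h0 hU
  have e : d * ‖a‖ ^ 2 + d * ‖b‖ ^ 2 = d * U ^ 2 := by rw [← hY]; ring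
  linarith

/-- The energy inequality with the gain from the Nash type inequality. -/
lemma stepE {T κ : ℝ} {r n : N3} {mv : Fin 3 → ℝ} {p b c g0 g1 : V} {s d U R ω S : ℝ}
    {v0 v1 : Z3 → ℝ} (hp : Drv T r mv κ p) (hr : ∀ i, 1 ≤ r i) (hb : Sp n b) (hs : 0 ≤ s)
    (h0 : ∀ h, 0 ≤ v0 h) (h1 : ∀ h, 0 ≤ v1 h) (hU : 0 ≤ U)
    (hY : ‖b‖ ^ 2 + ‖c‖ ^ 2 = U ^ 2) (hR : ‖g0‖ + ‖g1‖ ≤ R) (ω0 : 0 < ω) (ω1 : ω ≤ (T ^ 16)⁻¹)
    (ω2 : ω ≤ 1) (hS : ∀ x ∈ cube, ‖ev x b‖ ≤ S) :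
    (⟪b, (s : ℂ) • pj n (dag p * c) - (d : ℂ) • b - mulr v0 b + g0⟫_ℂ).re +
      (⟪c, (s : ℂ) • (p * b) - (d : ℂ) • c - mulr v1 c + g1⟫_ℂ).re ≤
      (s - d) * U ^ 2 - s * (1 / 10 ^ 10 * ω *
        (U ^ 2 / 3 - √ω ^ 3 / (∏ i, (r i : ℝ)) * S ^ 2 / 30)) + U * R := by
  refine (energy2 hb c p p g0 g1 d hs h0 h1).trans ?_
  have b0 := le1 hU hY.le
  have b1 := le2 hU hY.le
  have g0' : ‖b‖ * ‖g0‖ ≤ U * ‖g0‖ := by gcongr
  have g1' : ‖c‖ * ‖g1‖ ≤ U * ‖g1‖ := by gcongr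
  have g2 := mul_le_mul_of_nonneg_left hR hU
  have st : ‖(p + p) * b‖ * ‖c‖ ≤
      U ^ 2 - 1 / 10 ^ 10 * ω * (U ^ 2 / 3 - √ω ^ 3 / (∏ i, (r i : ℝ)) * S ^ 2 / 30) := by
    have e : ‖(p + p) * b‖ = 2 * ‖p * b‖ := by
      rw [add_mul, ← two_smul ℂ, norm_smul]; simp
    have na := hp.nash hr ω0 ω1 b hS
    rw [Qf] at na
    have pb := hp.norm_mul_le b
    have pb2 : ‖p * b‖ ^ 2 ≤ ‖b‖ ^ 2 := by gcongr
    set a := ‖p * b‖ with ha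
    set X := (a - ‖c‖) ^ 2 with hX
    have X0 : 0 ≤ X := by positivity
    have e2 : 2 * a * ‖c‖ = U ^ 2 - (‖b‖ ^ 2 - a ^ 2) - X := by
      rw [← hY, hX]; ring
    have e3 : ‖c‖ ^ 2 ≤ 2 * X + 2 * a ^ 2 := by
      rw [hX]; linarith [sq_nonneg (2 * a - ‖c‖)]
    have e4 : 1 / 10 ^ 10 * ω * (U ^ 2 / 3) ≤ 1 / 10 ^ 10 * ω * (‖b‖ ^ 2 + X) := by
      gcongr; linarith [sq_nonneg ‖b‖]
    have e5 : 1 / 10 ^ 10 * ω * X ≤ X := mul_le_of_le_one_left X0 (by linarith)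
    rw [e, e2]
    linarith
  have st' := mul_le_mul_of_nonneg_left st hs
  rw [hY]
  linarith

/-- The rescaled product with the ground state. -/
def Ip (n : N3) (y : V) : ℝ := Nn n * (⟪ph n, y⟫_ℂ).re

lemma Ip_add (n : N3) (y w : V) : Ip n (y + w) = Ip n y + Ip n w := by
  simp only [Ip, inner_add_right, Complex.add_re, mul_add]

lemma Ip_sub (n : N3) (y w : V) : Ip n (y - w) = Ip n y - Ip n w := by
  simp only [Ip, inner_sub_right, Complex.sub_re, mul_sub]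

lemma Ip_smul (n : N3) (c : ℝ) (y : V) : Ip n ((c : ℂ) • y) = c * Ip n y := by
  rw [Ip, Ip, re_inner_smul]; ring

lemma Ip_pj (n : N3) (y : V) : Ip n (pj n y) = Ip n y := by
  rw [Ip, Ip, (sp_ph n).inner_pj]

lemma abs_Ip_le {n : N3} {y : V} {c : ℝ} (h : ‖⟪ph n, y⟫_ℂ‖ ≤ (Nn n)⁻¹ * c) : |Ip n y| ≤ c := by
  have := Nn_pos n
  rw [Ip, abs_mul, abs_of_pos this]
  calc _ ≤ Nn n * ((Nn n)⁻¹ * c) := by gcongr; exact (Complex.abs_re_le_norm _).trans h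
    _ = c := by field_simp

lemma abs_Ip_le_l1 (n : N3) (y : V) : |Ip n y| ≤ l1 y :=
  abs_Ip_le (norm_inner_le_l1 (norm_coeff_ph_le n))

lemma al_eq (n : N3) (p b c : V) : Nn n * al n p b c = Ip n b + Ip n (dag p * c) := by
  rw [al, inner_mul_left, Ip, Ip]; ring

lemma hd_al {n : N3} {p b c : ℝ → V} {p' b' c' : V} {t : ℝ} (hp : HD p p' t)
    (hb : HD b b' t) (hc : HD c c' t) :
    HD (fun t => Nn n * al n (p t) (b t) (c t))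
      (Ip n b' + (Ip n (dag (p t) * c') + Ip n (dag p' * c t))) t := by
  have h0 := HD.re_inner (f := fun _ => ph n) (hasDerivWithinAt_const t _ _) hb
  have h1 := HD.re_inner (hp.mul_const' (ph n)) hc
  refine ((h0.fun_add h1).const_mul (Nn n)).congr_deriv ?_
  simp only [inner_mul_left, Ip, inner_zero_left, Complex.zero_re]
  ring

lemma abs_al_le2 {T κ : ℝ} {r : N3} {mv : Fin 3 → ℝ} {p : V} (hp : Drv T r mv κ p) (n : N3)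
    (b c : V) : |al n p b c| ≤ 2 * nr b c := by
  have ri : ∀ u v : V, ‖u‖ ≤ 1 → |(⟪u, v⟫_ℂ).re| ≤ ‖v‖ := fun u v hu =>
    (Complex.abs_re_le_norm _).trans ((norm_inner_le_norm _ _).trans
      (mul_le_of_le_one_left (norm_nonneg _) hu))
  have h1 : ‖p * ph n‖ ≤ 1 := (hp.norm_mul_le _).trans (norm_ph n).le
  have a0 := (ri _ b (norm_ph n).le).trans (le_nr_1 b c)
  have a1 := (ri _ c h1).trans (le_nr_2 b c)
  refine (abs_add_le _ _).trans ?_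
  linarith

end Q1

end

end Pool.Agent.Work.MP_6bf1e5_an.Ell
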