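import Pool.Agent.Work.MP_6bf1e5_an.Ell.Phase1A

/-!
The setting of the first phase and the weighted estimate.
-/

open Set Complex Filter Topology
open scoped InnerProductSpace ComplexConjugate
open Pool.Agent.Work.MP_6bf1e5_an.B (Z3 R3)
open Pool.Agent.Work.MP_6bf1e5_an.Dec

namespace Pool.Agent.Work.MP_6bf1e5_an.Ell

noncomputable section

/-- The hypotheses of the first phase. -/
structure F1 (T κ d l N1 t1 t2 : ℝ) (r n : N3) (mv : Fin 3 → ℝ) (vb vc : Z3 → ℝ)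
    (p b c f : ℝ → V) (s F g τ : ℝ → ℝ) : Prop where
  hT : (10 : ℝ) ^ 100 ≤ T
  hn : ∀ i, (n i : ℝ) + 1 = T ^ 17 * r i
  N0 : 0 < N1
  nN1 : Nn n ≤ T ^ 32 * N1
  h0 : 0 ≤ t1
  h12 : t1 ≤ t2
  hp : ∀ t ∈ Icc t1 t2, Drv T r mv κ (p t) ∧ ∃ p', HD p p' t ∧ Sp (fun i => 2 * r i) p' ∧
    ev 0 p' = 0 ∧ l1 p' ≤ s t / T ^ 38
  hs : ∀ t ∈ Icc t1 t2, 0 < s t ∧ HD τ (s t) t ∧ l ≤ Real.exp (-T ^ 2) * s t
  τ1 : τ t2 - τ t1 ≤ 100 * T ^ 33
  hg : ∀ t ∈ Icc t1 t2, 0 < g t ∧ 0 ≤ F t ∧ HD g ((s t - d) * g t + F t) t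
  hf : ∀ t ∈ Icc t1 t2, Sp (fun i => n i + 2 * r i) (f t) ∧
    Seed T n r N1 (p t) (f t) (F t) (Real.exp (-T ^ 2) * (s t * g t))
  he : ∀ t ∈ Icc t1 t2, ∃ e0 e1, ‖e0‖ ≤ Real.exp (-T ^ 2) * ((F t + s t * g t) / N1) ∧
    ‖e1‖ ≤ Real.exp (-T ^ 2) * ((F t + s t * g t) / N1) ∧
    Pair r n l d (s t) t vb vc (p t) b c e0 (f t + e1)
  init : nr (b t1) (c t1) ≤ Real.exp (-T ^ 2) * (g t1 / N1)

namespace F1

open Ph1 Q1

variable {T κ d l N1 t1 t2 : ℝ} {r n : N3} {mv : Fin 3 → ℝ} {vb vc : Z3 → ℝ}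
  {p b c f : ℝ → V} {s F g τ : ℝ → ℝ}
  (H : F1 T κ d l N1 t1 t2 r n mv vb vc p b c f s F g τ) {t : ℝ}

include H

lemma Tbig : (10 : ℝ) ^ 20 ≤ T := le_trans (by norm_num) H.hT

lemma T0 : 0 < T := lt_of_lt_of_le (by norm_num) H.Tbig

lemma T1 : 1 ≤ T := le_trans (by norm_num) H.Tbig

lemma Tpow (i j : ℕ) (h : i < j) : 10 ^ 20 * T ^ i ≤ T ^ j := by
  have := H.T0
  calc 10 ^ 20 * T ^ i ≤ T * T ^ i := by gcongr; exact H.Tbig
    _ = T ^ (i + 1) := by ring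
    _ ≤ T ^ j := pow_le_pow_right₀ H.T1 h

lemma Tinv (i j : ℕ) (h : i < j) : 10 ^ 20 * (T ^ j)⁻¹ ≤ (T ^ i)⁻¹ := by
  have := H.T0
  rw [← div_eq_mul_inv, ← one_div, div_le_div_iff₀ (by positivity) (by positivity), one_mul]
  exact H.Tpow i j h

lemma eta : Real.exp (-T ^ 2) * Real.exp T ≤ (T ^ 200)⁻¹ := by
  have T0 := H.T0
  have h1 := pow_le_exp H.hT (k := 200) (by norm_num)
  have h2 := H.Tpow 1 2 (by norm_num)
  rw [← Real.exp_add]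
  calc _ ≤ Real.exp (-T) := by gcongr; linarith
    _ = (Real.exp T)⁻¹ := Real.exp_neg T
    _ ≤ _ := by gcongr

lemma eta' {a : ℝ} (ha : a ≤ T) : Real.exp a * Real.exp (-T ^ 2) ≤ (T ^ 200)⁻¹ := by
  refine le_trans ?_ H.eta
  rw [mul_comm]; gcongr

lemma eps : Real.exp (-T ^ 2) ≤ (T ^ 200)⁻¹ := by simpa using H.eta' H.T0.le

lemma m1 : t1 ∈ Icc t1 t2 := ⟨le_rfl, H.h12⟩

lemma m2 : t2 ∈ Icc t1 t2 := ⟨H.h12, le_rfl⟩

lemma τmono {x y : ℝ} (ha : t1 ≤ x) (hab : x ≤ y) (hb : y ≤ t2) : τ x ≤ τ y :=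
  mono_of_deriv H.h0 (fun t ht => ⟨_, (H.hs t ht).2.1, (H.hs t ht).1.le⟩) ha hab hb

lemma τ0 (ht : t ∈ Icc t1 t2) : 0 ≤ τ t - τ t1 := sub_nonneg.mpr (H.τmono le_rfl ht.1 ht.2)

lemma τle (ht : t ∈ Icc t1 t2) : τ t - τ t1 ≤ 100 * T ^ 33 := by
  linarith [H.τmono ht.1 ht.2 le_rfl, H.τ1]

lemma r1 (i : Fin 3) : 1 ≤ r i := by
  rcases Nat.eq_zero_or_pos (r i) with h | h
  · have := H.hn i
    rw [h, Nat.cast_zero, mul_zero] at this
    linarith [(Nat.cast_nonneg (n i) : (0 : ℝ) ≤ n i)]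
  · exact h

lemma r0 (i : Fin 3) : (0 : ℝ) < r i := by exact_mod_cast H.r1 i

lemma sb (t : ℝ) : Sp n (b t) := by
  obtain ⟨_, _, _, _, P⟩ := H.he t1 H.m1
  exact P.sb t

lemma sc (t : ℝ) : Sp (fun i => n i + 2 * r i) (c t) := by
  obtain ⟨_, _, _, _, P⟩ := H.he t1 H.m1
  exact P.sc t

lemma lb : Lay n l vb := by
  obtain ⟨_, _, _, _, P⟩ := H.he t1 H.m1
  exact P.lb

lemma lc : Lay (fun i => n i + 2 * r i) l vc := by
  obtain ⟨_, _, _, _, P⟩ := H.he t1 H.m1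
  exact P.lc

lemma NN {m : N3} (hm : ∀ i, m i ≤ n i + 6 * r i) : Nn m ≤ 4 * (T ^ 32 * N1) := by
  have h := Nn_le (m := m) (n := n) (c := 3 / 2) (by norm_num) fun i => by
    have h1 : (m i : ℝ) ≤ n i + 6 * r i := by exact_mod_cast hm i
    have h2 := H.hn i
    have h3 := mul_le_mul_of_nonneg_right (H.Tpow 0 17 (by norm_num)) (H.r0 i).le
    have h4 := H.r0 i
    linarith
  have := Nn_pos n
  linarith [H.nN1]

/-- The equations with supported errors. -/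
lemma eq0 (ht : t ∈ Icc t1 t2) : ∃ e0 e1, Sp n e0 ∧ Sp (fun i => n i + 2 * r i) e1 ∧
    ‖e0‖ ≤ Real.exp (-T ^ 2) * ((F t + s t * g t) / N1) ∧
    ‖e1‖ ≤ Real.exp (-T ^ 2) * ((F t + s t * g t) / N1) ∧
    HD b ((s t : ℂ) • pj n (dag (p t) * c t) - (d : ℂ) • b t - mulr vb (b t) + e0) t ∧
    HD c ((s t : ℂ) • (p t * b t) - (d : ℂ) • c t - mulr vc (c t) + (f t + e1)) t := by
  obtain ⟨e0, e1, a0, a1, P⟩ := H.he t ht
  have t0 := H.h0.trans ht.1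
  refine ⟨e0, e1, ?_, ?_, a0, a1, P.eb, P.ec⟩
  · have h1 := HD.sp P.eb t0 P.sb
    have h2 : Sp n ((s t : ℂ) • pj n (dag (p t) * c t) - (d : ℂ) • b t - mulr vb (b t)) :=
      (((sp_pj n _).smul _).sub ((P.sb t).smul _)).sub ((P.sb t).mulr _)
    simpa using h1.sub h2
  · have h1 := HD.sp P.ec t0 P.sc
    have h3 : Sp (fun i => n i + 2 * r i) (p t * b t) :=
      ((H.hp t ht).1.supp.mul (P.sb t)).mono fun i => by simp [add_comm]
    have h2 : Sp (fun i => n i + 2 * r i)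
        ((s t : ℂ) • (p t * b t) - (d : ℂ) • c t - mulr vc (c t)) :=
      ((h3.smul _).sub ((P.sc t).smul _)).sub ((P.sc t).mulr _)
    simpa using (h1.sub h2).sub (H.hf t ht).1

lemma wt_sp {i : Fin 3} {u : ℝ} (hu : |u| * r i ≤ 1 / (3000 * T ^ 16)) {y : V}
    (hy : Sp (fun i => n i + 2 * r i) y) : ‖wt (Pi.single i u) y‖ ≤ Real.exp T * ‖y‖ := by
  have T0 := H.T0
  refine (hy.norm_wt_le _).trans ?_
  rw [sum_single]
  gcongr
  have h1 := H.hn i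
  have h2 := H.r0 i
  have h3 := abs_nonneg u
  have h4 : ((n i + 2 * r i : ℕ) : ℝ) ≤ 3 * T ^ 17 * r i := by
    push_cast
    nlinarith [one_le_pow₀ (n := 17) H.T1]
  calc _ ≤ 3 * T ^ 17 * r i * |u| := by gcongr
    _ = 3 * T ^ 17 * (|u| * r i) := by ring
    _ ≤ 3 * T ^ 17 * (1 / (3000 * T ^ 16)) := by gcongr
    _ = T / 1000 := by field_simp; ring
    _ ≤ T := by linarith

/-- The weighted estimate. -/
theorem wt_le {i : Fin 3} {u x : ℝ} (hx : |u| * r i ≤ x) (hx1 : x ≤ 1 / (3000 * T ^ 16)) :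
    ∀ t ∈ Icc t1 t2, ‖wt (Pi.single i u) (b t)‖ ^ 2 + ‖wt (Pi.single i u) (c t)‖ ^ 2 ≤
      (2 * Real.exp (T / 10 ^ 19) / N1 * g t *
        Real.exp ((8 * x ^ 2 + (T ^ 40)⁻¹) * (τ t - τ t1))) ^ 2 := by
  have T0 := H.T0
  have N0 := H.N0
  have T16 : 1 ≤ T ^ 16 := one_le_pow₀ H.T1
  have hx2 : x ≤ 1 / 4 := hx1.trans (by gcongr; linarith)
  have hu := hx.trans hx1
  have nsub : ∀ i, n i ≤ n i + 2 * r i := fun i => Nat.le_add_right _ _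
  set K := Real.exp (T / 10 ^ 19) with hK
  have K1 : 1 ≤ K := Real.one_le_exp (by positivity)
  set k := 8 * x ^ 2 + (T ^ 40)⁻¹ with hk
  have k0 : 0 ≤ k := by positivity
  have eta := H.eta' le_rfl
  have eps := H.eps
  have i1 := H.Tinv 40 200 (by norm_num)
  have i2 := H.Tinv 0 200 (by norm_num)
  have i3 : 0 < (T ^ 200)⁻¹ := by positivity
  refine bar2 (a := fun t => wt (Pi.single i u) (b t)) (b := fun t => wt (Pi.single i u) (c t))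
    (U := fun t => 2 * K / N1 * g t * Real.exp (k * (τ t - τ t1))) H.h0 ?_ fun t ht => ?_
  · simp only [sub_self, mul_zero, Real.exp_zero, mul_one]
    have G0 := (H.hg t1 H.m1).1
    have w : ∀ {y : V}, Sp (fun i => n i + 2 * r i) y → ‖y‖ ≤ nr (b t1) (c t1) →
        ‖wt (Pi.single i u) y‖ ^ 2 ≤ (K / N1 * g t1) ^ 2 := fun {y} hy hy' => by
      gcongr
      calc _ ≤ Real.exp T * (Real.exp (-T ^ 2) * (g t1 / N1)) :=
            (H.wt_sp hu hy).trans (by gcongr; exact hy'.trans H.init)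
        _ = Real.exp T * Real.exp (-T ^ 2) * (g t1 / N1) := by ring
        _ ≤ K * (g t1 / N1) := by gcongr; simp at i2; linarith
        _ = _ := by ring
    have w0 := w ((H.sb t1).mono nsub) (le_nr_1 _ _)
    have w1 := w (H.sc t1) (le_nr_2 _ _)
    have : (2 * K / N1 * g t1) ^ 2 = 4 * (K / N1 * g t1) ^ 2 := by ring
    linarith [sq_nonneg (K / N1 * g t1)]
  obtain ⟨e0, e1, s0', s1', a0, a1, D0, D1⟩ := H.eq0 ht
  have t0 := H.h0.trans ht.1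
  obtain ⟨G0, F0, Dg⟩ := H.hg t ht
  obtain ⟨s0, Dτ, -⟩ := H.hs t ht
  have DU := (Dg.const_mul (2 * K / N1)).fun_mul ((Dτ.sub_const (τ t1)).const_mul k).exp
  refine ⟨_, _, _, HD.wt3 D0 t0 H.sb _, HD.wt3 D1 t0 H.sc _, DU, fun hY => ?_⟩
  have ex : 1 ≤ Real.exp (k * (τ t - τ t1)) := Real.one_le_exp (mul_nonneg k0 (H.τ0 ht))
  have U0 : 0 < 2 * K / N1 * g t * Real.exp (k * (τ t - τ t1)) := by positivity
  set w := s t * g t / N1 with hw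
  set j := F t / N1 with hj
  have w0 : 0 < w := by positivity
  have j0 : 0 ≤ j := by positivity
  have e : (F t + s t * g t) / N1 = j + w := by rw [hw, hj]; ring
  rw [e] at a0 a1
  have er : ∀ {y : V}, Sp (fun i => n i + 2 * r i) y → ‖y‖ ≤ Real.exp (-T ^ 2) * (j + w) →
      ‖wt (Pi.single i u) y‖ ≤ (T ^ 200)⁻¹ * (j + w) := fun {y} hy hy' => by
    calc _ ≤ Real.exp T * (Real.exp (-T ^ 2) * (j + w)) := (H.wt_sp hu hy).trans (by gcongr)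
      _ = Real.exp T * Real.exp (-T ^ 2) * (j + w) := by ring
      _ ≤ _ := by gcongr
  have ef : ‖wt (Pi.single i u) (f t)‖ ≤ K * j + (T ^ 200)⁻¹ * w := by
    calc _ ≤ _ := (H.hf t ht).2.wt i u hu
      _ = K * j + Real.exp (-T ^ 2) * w := by rw [hw, hj]; ring
      _ ≤ _ := by gcongr
  have hst := stepA (d := d) (g0 := e0) (g1 := f t + e1) (v0 := vb) (v1 := vc)
    (R := K * j + (T ^ 200)⁻¹ * w + 2 * ((T ^ 200)⁻¹ * (j + w)))
    (H.hp t ht).1 (H.sb t) (x := x) (by rw [sum_single, mul_comm]; exact hx) hx2 s0.le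
    H.lb.nonneg H.lc.nonneg U0.le hY (by
      have b0 := er (s0'.mono nsub) a0
      have b1 := er s1' a1
      rw [map_add]
      linarith [norm_add_le (wt (Pi.single i u) (f t)) (wt (Pi.single i u) e1)])
  refine hst.trans_lt (mul_lt_mul_of_pos_left ?_ U0)
  set X := Real.exp (k * (τ t - τ t1)) with hX
  have e2 : 2 * K / N1 * ((s t - d) * g t + F t) * X + 2 * K / N1 * g t * (X * (k * s t)) =
      ((1 + 8 * x ^ 2) * s t - d) * (2 * K / N1 * g t * X) +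
        (2 * (K * j) + 2 * ((T ^ 40)⁻¹ * (K * w))) * X := by
    rw [hj, hw, hk]; ring
  rw [e2]
  have a2 : 2 * (K * j) + 2 * ((T ^ 40)⁻¹ * (K * w)) ≤
      (2 * (K * j) + 2 * ((T ^ 40)⁻¹ * (K * w))) * X := le_mul_of_one_le_right (by positivity) ex
  have a3 : (T ^ 40)⁻¹ * w ≤ (T ^ 40)⁻¹ * (K * w) := by
    gcongr; exact le_mul_of_one_le_left w0.le K1
  have a4 : 10 ^ 20 * (T ^ 200)⁻¹ * w ≤ (T ^ 40)⁻¹ * w := by gcongr
  have a5 : 2 * (T ^ 200)⁻¹ * j ≤ K * j := by gcongr; simp at i2; linarith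
  have a6 : 0 < (T ^ 200)⁻¹ * w := by positivity
  linarith

end F1

end

end Pool.Agent.Work.MP_6bf1e5_an.Ell
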