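import Pool.Agent.Work.MP_6bf1e5_an.Ell.Phase1B

/-!
Tails, errors and the pointwise bound during the first phase.
-/

open Set Complex Filter Topology
open scoped InnerProductSpace ComplexConjugate
open Pool.Agent.Work.MP_6bf1e5_an.B (Z3 R3)
open Pool.Agent.Work.MP_6bf1e5_an.Dec

namespace Pool.Agent.Work.MP_6bf1e5_an.Ell

noncomputable section

namespace F1

open Ph1 Q1

variable {T κ d l N1 t1 t2 : ℝ} {r n : N3} {mv : Fin 3 → ℝ} {vb vc : Z3 → ℝ}
  {p b c f : ℝ → V} {s F g τ : ℝ → ℝ}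
  (H : F1 T κ d l N1 t1 t2 r n mv vb vc p b c f s F g τ) {t : ℝ}

include H

lemma eps_tau (ht : t ∈ Icc t1 t2) : (T ^ 40)⁻¹ * (τ t - τ t1) ≤ 1 / 2 := by
  have T0 := H.T0
  have h1 := H.Tpow 33 40 (by norm_num)
  calc _ ≤ (T ^ 40)⁻¹ * (100 * T ^ 33) := by gcongr; exact H.τle ht
    _ = 100 * T ^ 33 / T ^ 40 := by ring
    _ ≤ _ := by rw [div_le_iff₀ (by positivity)]; linarith [pow_pos T0 33]

lemma nrm (ht : t ∈ Icc t1 t2) :
    ‖b t‖ ^ 2 + ‖c t‖ ^ 2 ≤ (4 * Real.exp (T / 10 ^ 19) * (g t / N1)) ^ 2 := by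
  have T0 := H.T0
  have N0 := H.N0
  have G0 := (H.hg t ht).1
  have := H.wt_le (i := 0) (u := 0) (x := 0) (by simp) (by positivity) t ht
  simp only [Pi.single_zero, wt_zero] at this
  refine this.trans ?_
  have h1 : Real.exp ((8 * 0 ^ 2 + (T ^ 40)⁻¹) * (τ t - τ t1)) ≤ 2 :=
    le_trans (Real.exp_le_exp.mpr (by linarith [H.eps_tau ht])) exp_half_le
  gcongr ?_ ^ 2
  calc _ ≤ 2 * Real.exp (T / 10 ^ 19) / N1 * g t * 2 := by gcongr
    _ = _ := by ring

lemma wt2 (ht : t ∈ Icc t1 t2) {i : Fin 3} {u : ℝ} (hu : |u| * r i ≤ 1 / (3000 * T ^ 16)) :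
    ‖wt (Pi.single i u) (b t)‖ ^ 2 + ‖wt (Pi.single i u) (c t)‖ ^ 2 ≤
      (g t / N1 * Real.exp (T / 10000)) ^ 2 := by
  have T0 := H.T0
  have N0 := H.N0
  have G0 := (H.hg t ht).1
  refine (H.wt_le hu le_rfl t ht).trans ?_
  have h1 : (8 * (1 / (3000 * T ^ 16)) ^ 2 + (T ^ 40)⁻¹) * (τ t - τ t1) ≤ T / 11250 + 1 / 2 := by
    have : 8 * (1 / (3000 * T ^ 16)) ^ 2 * (τ t - τ t1) ≤ T / 11250 := by
      calc _ ≤ 8 * (1 / (3000 * T ^ 16)) ^ 2 * (100 * T ^ 33) := by gcongr; exact H.τle ht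
        _ = _ := by field_simp; ring
    linarith [H.eps_tau ht]
  gcongr ?_ ^ 2
  calc _ ≤ Real.exp 1 * Real.exp (T / 10 ^ 19) / N1 * g t * Real.exp (T / 11250 + 1 / 2) := by
        gcongr; linarith [Real.add_one_le_exp 1]
    _ = g t / N1 * Real.exp (1 + T / 10 ^ 19 + (T / 11250 + 1 / 2)) := by
        simp only [Real.exp_add]; ring
    _ ≤ _ := by gcongr; linarith [H.Tbig]

lemma tail_le (ht : t ∈ Icc t1 t2) {q y : V} (hq : Sp (fun i => 4 * r i) q)
    (hy : Sp (fun i => n i + 2 * r i) y)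
    (hw : ∀ (i : Fin 3) (u : ℝ), |u| * r i ≤ 1 / (3000 * T ^ 16) →
      ‖wt (Pi.single i u) y‖ ≤ g t / N1 * Real.exp (T / 10000)) :
    l1 (q * y - pj n (q * y)) ≤ l1 q * (g t / T ^ 50) := by
  have T0 := H.T0
  have N0 := H.N0
  have G0 := (H.hg t ht).1
  have q0 := l1_nonneg q
  have T16 : 1 ≤ T ^ 16 := one_le_pow₀ H.T1
  have key : ∀ (i : Fin 3) (u : ℝ), |u| * r i ≤ 1 / (3000 * T ^ 16) →
      ‖wt (Pi.single i u) (q * y)‖ ≤ 2 * l1 q * (g t / N1 * Real.exp (T / 10000)) := by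
    intro i u hu
    rw [wt_mul]
    refine (norm_mul_le_l1 _ _).trans (mul_le_mul ((hq.l1_wt_le _).trans ?_) (hw i u hu)
      (norm_nonneg _) (by positivity))
    gcongr
    refine le_trans (Real.exp_le_exp.mpr ?_) exp_half_le
    rw [sum_single]
    have : 1 / (3000 * T ^ 16) ≤ 1 / 8 := by gcongr; linarith
    push_cast
    linarith
  have h1 := norm_tail_le n (q * y) (u := fun i => 1 / (3000 * T ^ 16) / r i) fun i => by
    have := H.r0 i
    positivity
  have h2 : ∀ i : Fin 3, Real.exp (-(1 / (3000 * T ^ 16) / r i * (n i + 1))) *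
      (‖wt (Pi.single i (1 / (3000 * T ^ 16) / r i)) (q * y)‖ +
        ‖wt (Pi.single i (-(1 / (3000 * T ^ 16) / r i))) (q * y)‖) ≤
      Real.exp (-(T / 3000)) * (4 * l1 q * (g t / N1 * Real.exp (T / 10000))) := by
    intro i
    have r0 := H.r0 i
    have e1 : 1 / (3000 * T ^ 16) / r i * (n i + 1) = T / 3000 := by
      rw [H.hn i]; field_simp
    have e2 : |1 / (3000 * T ^ 16) / (r i : ℝ)| * r i ≤ 1 / (3000 * T ^ 16) := by
      rw [abs_of_pos (by positivity), div_mul_cancel₀ _ r0.ne']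
    rw [e1]
    gcongr
    linarith [key i _ e2, key i (-(1 / (3000 * T ^ 16) / r i)) (by rwa [abs_neg])]
  have h3 : ‖q * y - pj n (q * y)‖ ≤
      3 * (Real.exp (-(T / 3000)) * (4 * l1 q * (g t / N1 * Real.exp (T / 10000)))) := by
    refine h1.trans ?_
    rw [Fin.sum_univ_three]
    linarith [h2 0, h2 1, h2 2]
  have h4 : T ^ 83 * (Real.exp (-(T / 3000)) * Real.exp (T / 10000)) ≤ 1 := by
    calc _ ≤ Real.exp (T / 10 ^ 19) * (Real.exp (-(T / 3000)) * Real.exp (T / 10000)) := by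
          gcongr; exact pow_le_exp19 H.hT (by norm_num)
      _ ≤ _ := by
          rw [← Real.exp_add, ← Real.exp_add]
          exact Real.exp_le_one_iff.mpr (by linarith)
  have hs : Sp (fun i => n i + 6 * r i) (q * y - pj n (q * y)) :=
    ((hq.mul hy).mono fun i => by simp only [Pi.add_apply]; omega).sub
      ((sp_pj n _).mono fun i => Nat.le_add_right _ _)
  calc _ ≤ 3 * (4 * (T ^ 32 * N1)) * (3 * (Real.exp (-(T / 3000)) *
        (4 * l1 q * (g t / N1 * Real.exp (T / 10000))))) := by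
        refine hs.l1_le.trans ?_
        gcongr
        exact H.NN fun i => le_rfl
    _ = l1 q * (g t / T ^ 50) * (144 / T *
        (T ^ 83 * (Real.exp (-(T / 3000)) * Real.exp (T / 10000)))) := by field_simp; ring
    _ ≤ l1 q * (g t / T ^ 50) * (1 * 1) := by
        gcongr
        rw [div_le_one T0]; linarith [H.Tbig]
    _ = _ := by ring

lemma tailB (ht : t ∈ Icc t1 t2) {q : V} (hq : Sp (fun i => 4 * r i) q) :
    l1 (q * b t - pj n (q * b t)) ≤ l1 q * (g t / T ^ 50) := by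
  have N0 := H.N0
  have G0 := (H.hg t ht).1
  exact H.tail_le ht hq ((H.sb t).mono fun i => Nat.le_add_right _ _) fun i u hu =>
    le1 (by positivity) (H.wt2 ht hu)

lemma tailC (ht : t ∈ Icc t1 t2) {q : V} (hq : Sp (fun i => 2 * r i) q) :
    l1 (q * c t - pj n (q * c t)) ≤ l1 q * (g t / T ^ 50) := by
  have N0 := H.N0
  have G0 := (H.hg t ht).1
  exact H.tail_le ht (hq.mono fun i => by omega) (H.sc t) fun i u hu =>
    le2 (by positivity) (H.wt2 ht hu)

lemma l1_small {m : N3} (hm : ∀ i, m i ≤ n i + 6 * r i) {y : V} (hy : Sp m y) {a : ℝ}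
    (a0 : 0 ≤ a) (ha : ‖y‖ ≤ Real.exp (-T ^ 2) * (a / N1)) : l1 y ≤ a / T ^ 50 := by
  have T0 := H.T0
  have N0 := H.N0
  calc _ ≤ 3 * (4 * (T ^ 32 * N1)) * ((T ^ 200)⁻¹ * (a / N1)) := by
        refine hy.l1_le.trans ?_
        gcongr
        · exact H.NN hm
        · exact ha.trans (by gcongr; exact H.eps)
    _ = a / T ^ 50 * (12 / T ^ 118) := by field_simp; ring
    _ ≤ _ := mul_le_of_le_one_right (by positivity) (by
        rw [div_le_one (by positivity)]; linarith [H.Tpow 0 118 (by norm_num)])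

lemma err_le (ht : t ∈ Icc t1 t2) {m : N3} (hm : ∀ i, m i ≤ n i + 6 * r i) {v : Z3 → ℝ}
    (hv : Lay m l v) {y e : V} (hy : Sp m y)
    (hy' : ‖y‖ ≤ 4 * Real.exp (T / 10 ^ 19) * (g t / N1)) (se : Sp m e)
    (he : ‖e‖ ≤ Real.exp (-T ^ 2) * ((F t + s t * g t) / N1)) :
    l1 (-mulr v y + e) ≤ (F t + s t * g t) / T ^ 45 := by
  have T0 := H.T0
  have N0 := H.N0
  obtain ⟨G0, F0, -⟩ := H.hg t ht
  obtain ⟨s0, -, hl⟩ := H.hs t ht
  have l0 := hv.l0
  have a1 : l1 (-mulr v y) ≤ (F t + s t * g t) / T ^ 50 := by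
    rw [l1_neg]
    calc _ ≤ Real.exp (-T ^ 2) * s t * (4 * (T ^ 32 * N1)) *
          (4 * Real.exp (T / 10 ^ 19) * (g t / N1)) := by
          refine (hv.l1_le hy).trans ?_
          have := Nn_pos m
          gcongr
          exact H.NN hm
      _ = Real.exp (T / 10 ^ 19) * Real.exp (-T ^ 2) * (16 * T ^ 32 * (s t * g t)) := by
          field_simp; ring
      _ ≤ (T ^ 200)⁻¹ * (16 * T ^ 32 * (F t + s t * g t)) := by
          gcongr
          · exact H.eta' (by linarith)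
          · linarith
      _ = (F t + s t * g t) / T ^ 50 * (16 / T ^ 118) := by field_simp
      _ ≤ _ := mul_le_of_le_one_right (by positivity) (by
          rw [div_le_one (by positivity)]; linarith [H.Tpow 0 118 (by norm_num)])
  have a2 := H.l1_small hm se (by positivity) he
  have a3 : 2 * ((F t + s t * g t) / T ^ 50) ≤ (F t + s t * g t) / T ^ 45 := by
    calc _ = (F t + s t * g t) / (T ^ 50 / 2) := by field_simp
      _ ≤ _ := by gcongr; linarith [H.Tpow 45 50 (by norm_num), pow_pos T0 45]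
  linarith [l1_add_le (-mulr v y) e]

/-- The equations with all errors collected. -/
lemma eqs (ht : t ∈ Icc t1 t2) : ∃ g0 g1 : V,
    l1 g0 ≤ (F t + s t * g t) / T ^ 45 ∧ l1 g1 ≤ (F t + s t * g t) / T ^ 45 ∧
    HD b ((s t : ℂ) • pj n (dag (p t) * c t) - (d : ℂ) • b t + g0) t ∧
    HD c ((s t : ℂ) • (p t * b t) - (d : ℂ) • c t + (f t + g1)) t := by
  obtain ⟨e0, e1, s0, s1, a0, a1, D0, D1⟩ := H.eq0 ht
  have N0 := H.N0
  have G0 := (H.hg t ht).1
  have h := H.nrm ht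
  exact ⟨_, _, H.err_le ht (fun i => Nat.le_add_right _ _) H.lb (H.sb t) (le1 (by positivity) h)
    s0 a0, H.err_le ht (fun i => by omega) H.lc (H.sc t) (le2 (by positivity) h) s1 a1,
    D0.congr_deriv (by abel), D1.congr_deriv (by abel)⟩

/-- The pointwise bound. -/
theorem sup_le {x : R3} (hx : x ∈ cube) : ∀ t ∈ Icc t1 t2,
    ‖ev x (b t)‖ ^ 2 + ‖ev x (c t)‖ ^ 2 ≤ (2 * g t) ^ 2 := by
  have T0 := H.T0
  have main := bar2 (a := fun t => ev x (b t)) (b := fun t => ev x (c t)) (t2 := t2)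
    (U := fun t => (6 / 5 + (T ^ 40)⁻¹ * (τ t - τ t1)) * g t) H.h0 ?_ fun t ht => ?_
  · intro t ht
    refine (main t ht).trans ?_
    have := (H.hg t ht).1
    have := H.τ0 ht
    gcongr
    linarith [H.eps_tau ht]
  · simp only [sub_self, mul_zero, add_zero]
    have G0 := (H.hg t1 H.m1).1
    have w : ∀ {y : V}, Sp (fun i => n i + 2 * r i) y → ‖y‖ ≤ nr (b t1) (c t1) →
        ‖ev x y‖ ^ 2 ≤ (g t1 / 2) ^ 2 := fun {y} hy hy' => by
      gcongr
      refine (norm_ev_le _ _).trans ((H.l1_small (fun i => by omega) hy G0.le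
        (hy'.trans H.init)).trans ?_)
      gcongr
      linarith [H.Tpow 0 50 (by norm_num)]
    have w0 := w ((H.sb t1).mono fun i => Nat.le_add_right _ _) (le_nr_1 _ _)
    have w1 := w (H.sc t1) (le_nr_2 _ _)
    linarith [sq_nonneg (g t1)]
  obtain ⟨g0, g1, l0, l1', D0, D1⟩ := H.eqs ht
  have t0 := H.h0.trans ht.1
  have hp := (H.hp t ht).1
  obtain ⟨G0, F0, Dg⟩ := H.hg t ht
  obtain ⟨s0, Dτ, -⟩ := H.hs t ht
  have τ0 := H.τ0 ht
  set y := dag (p t) * c t with hy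
  have tl : l1 (y - pj n y) ≤ 2 * (g t / T ^ 50) := by
    have a1 := H.tailC ht hp.supp.dag
    rw [l1_dag] at a1
    exact a1.trans (by gcongr; exact hp.l1_le)
  have E0 : HD (fun t => ev x (b t)) (s t * (conj (ev x (p t)) * ev x (c t)) - d * ev x (b t) +
      ev x (g0 - (s t : ℂ) • (y - pj n y))) t :=
    (HD.ev3 D0 t0 H.sb x).congr_deriv (by
      simp only [hy, map_add, map_sub, map_smul, map_mul, ev_dag, smul_eq_mul]; ring)
  have E1 : HD (fun t => ev x (c t)) (s t * (ev x (p t) * ev x (b t)) - d * ev x (c t) +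
      (ev x (f t) + ev x g1)) t :=
    (HD.ev3 D1 t0 H.sc x).congr_deriv (by
      simp only [map_add, map_sub, map_smul, map_mul, smul_eq_mul])
  have DU := (((Dτ.sub_const (τ t1)).const_mul (T ^ 40)⁻¹).const_add (6 / 5)).fun_mul Dg
  refine ⟨_, _, _, E0, E1, DU, fun hY => ?_⟩
  set k := 6 / 5 + (T ^ 40)⁻¹ * (τ t - τ t1) with hk
  have k0 : 6 / 5 ≤ k := by rw [hk]; exact le_add_of_nonneg_right (by positivity)
  have U0 : 0 < k * g t := by positivity
  set w := s t * g t with hw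
  have w0 : 0 < w := by positivity
  have b0 : ‖ev x (g0 - (s t : ℂ) • (y - pj n y))‖ ≤ (F t + w) / T ^ 45 + 2 * (w / T ^ 50) := by
    refine (norm_ev_le _ _).trans ((l1_sub_le _ _).trans ?_)
    rw [l1_smul, Complex.norm_real, Real.norm_of_nonneg s0.le]
    have : s t * l1 (y - pj n y) ≤ 2 * (w / T ^ 50) := by
      calc _ ≤ s t * (2 * (g t / T ^ 50)) := by gcongr
        _ = _ := by rw [hw]; ring
    linarith
  have b1 : ‖ev x (f t) + ev x g1‖ ≤ 11 / 10 * F t + (T ^ 200)⁻¹ * w + (F t + w) / T ^ 45 := by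
    refine (norm_add_le _ _).trans (add_le_add (((H.hf t ht).2.sup x hx).trans ?_)
      ((norm_ev_le _ _).trans l1'))
    gcongr
    exact H.eps
  have hst := stepC (d := d) (hp.ev_le hx) s0.le U0.le hY (add_le_add b0 b1)
  refine hst.trans_lt (mul_lt_mul_of_pos_left ?_ U0)
  have a2 : 6 / 5 * F t ≤ k * F t := by gcongr
  have i1 := mul_le_mul_of_nonneg_right (H.Tinv 40 45 (by norm_num)) w0.le
  have i2 := mul_le_mul_of_nonneg_right (H.Tinv 40 50 (by norm_num)) w0.le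
  have i3 := mul_le_mul_of_nonneg_right (H.Tinv 40 200 (by norm_num)) w0.le
  have i4 := mul_le_mul_of_nonneg_right (H.Tinv 0 45 (by norm_num)) F0
  have i5 : 0 < (T ^ 40)⁻¹ * w := by positivity
  have e : (T ^ 40)⁻¹ * s t * g t + k * ((s t - d) * g t + F t) =
      (s t - d) * (k * g t) + ((T ^ 40)⁻¹ * w + k * F t) := by rw [hw]; ring
  rw [e]
  simp only [div_eq_mul_inv, pow_zero, inv_one] at *
  linarith

end F1

end

end Pool.Agent.Work.MP_6bf1e5_an.Ell
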