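import Pool.Agent.Work.MP_6bf1e5_an.Ell.Phase1C

/-!
Growth of the component along the unstable direction during the first phase.
-/

open Set Complex Filter Topology
open scoped InnerProductSpace ComplexConjugate
open Pool.Agent.Work.MP_6bf1e5_an.B (Z3 R3)
open Pool.Agent.Work.MP_6bf1e5_an.Dec

namespace Pool.Agent.Work.MP_6bf1e5_an.Ell

noncomputable section

namespace F1

open Ph1 Q1

variable {T κ d l N1 t1 t2 : ℝ} {r n : N3} {mv : Fin 3 → ℝ} {vb vc : Z3 → ℝ}
  {p b c f : ℝ → V} {s F g τ : ℝ → ℝ}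
  (H : F1 T κ d l N1 t1 t2 r n mv vb vc p b c f s F g τ) {t : ℝ}

include H

lemma sqr_corner {x : R3} (hx : ∀ i, |x i| = th (n i)) : sqr r x ≤ 12 / T ^ 34 := by
  have T0 := H.T0
  have key : ∀ i, ((r i : ℝ) * x i) ^ 2 ≤ 4 / T ^ 34 := fun i => by
    have r0 := H.r0 i
    rw [← sq_abs, abs_mul, hx, th, H.hn i, abs_of_pos r0]
    calc _ = (Real.pi / (2 * T ^ 17)) ^ 2 := by field_simp
      _ ≤ (4 / (2 * T ^ 17)) ^ 2 := by gcongr; exact Real.pi_le_four
      _ = _ := by field_simp; ring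
  rw [sqr, Fin.sum_univ_three]
  have : 12 / T ^ 34 = 4 / T ^ 34 + 4 / T ^ 34 + 4 / T ^ 34 := by ring
  linarith [key 0, key 1, key 2]

lemma loss_le (ht : t ∈ Icc t1 t2) :
    Ip n (b t) - Ip n (dag (p t) * (p t * b t)) ≤ 2500 * (g t / T ^ 34) := by
  have T0 := H.T0
  have G0 := (H.hg t ht).1
  have hp := (H.hp t ht).1
  have hq : Sp (fun i => 4 * r i) (dl - dag (p t) * p t) :=
    Sp.sub (sp_sh (zero_mem_bx _)) ((hp.supp.dag.mul hp.supp).mono fun i => by
      simp only [Pi.add_apply]; omega)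
  have e : b t - dag (p t) * (p t * b t) = (dl - dag (p t) * p t) * b t := by
    rw [dl_eq_one]; ring
  rw [← Ip_sub, e]
  have lq : l1 (dl - dag (p t) * p t) ≤ 5 := by
    refine (l1_sub_le _ _).trans ?_
    have h1 := l1_mul_le (dag (p t)) (p t)
    rw [l1_dag] at h1
    have h2 : l1 (p t) * l1 (p t) ≤ 2 * 2 :=
      mul_le_mul hp.l1_le hp.l1_le (l1_nonneg _) (by norm_num)
    rw [l1_dl]; linarith
  have h := abs_Ip_le (norm_inner_ph_le (n := n) ((dl - dag (p t) * p t) * b t)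
    (S := 2400 * (g t / T ^ 34)) fun x hx => by
      have hc := corner_mem_cube3 hx
      have h1 : ev x (dl - dag (p t) * p t) = ((1 - ‖ev x (p t)‖ ^ 2 : ℝ) : ℂ) := by
        rw [map_sub, map_mul, ev_dl, ev_dag, Complex.conj_mul']; push_cast; ring
      have h2 : 0 ≤ 1 - ‖ev x (p t)‖ ^ 2 := by
        nlinarith [hp.ev_le hc, norm_nonneg (ev x (p t))]
      have h4 : 1 - ‖ev x (p t)‖ ^ 2 ≤ 100 * (12 / T ^ 34) :=
        (hp.near x).trans (by gcongr; exact H.sqr_corner hx)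
      rw [map_mul, norm_mul, h1, Complex.norm_real, Real.norm_of_nonneg h2]
      calc _ ≤ 100 * (12 / T ^ 34) * (2 * g t) := by
            gcongr
            exact le1 (by positivity) (H.sup_le hc t ht)
        _ = _ := by ring)
  have h2 := H.tailB ht hq
  have h3 : l1 (dl - dag (p t) * p t) * (g t / T ^ 50) ≤ 5 * (g t / T ^ 34) := by
    gcongr
    · exact H.T1
    · norm_num
  have : 0 < g t / T ^ 34 := by positivity
  linarith [le_abs_self (Ip n ((dl - dag (p t) * p t) * b t))]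

lemma drift_le (ht : t ∈ Icc t1 t2) {q : V} (hq : Sp (fun i => 2 * r i) q)
    (ql : l1 q ≤ s t / T ^ 38) : |Ip n (q * c t)| ≤ 3 * (s t * g t / T ^ 38) := by
  have T0 := H.T0
  have G0 := (H.hg t ht).1
  have l0 := l1_nonneg q
  have h := abs_Ip_le (norm_inner_ph_le (n := n) (q * c t) (S := l1 q * (2 * g t))
    fun x hx => by
      rw [map_mul, norm_mul]
      gcongr
      · exact norm_ev_le _ _
      · exact le2 (by positivity) (H.sup_le (corner_mem_cube3 hx) t ht))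
  have h3 : l1 q * (g t / T ^ 50) ≤ l1 q * g t := by
    gcongr
    exact div_le_self G0.le (one_le_pow₀ H.T1)
  have h4 : l1 q * g t ≤ s t * g t / T ^ 38 := by
    calc _ ≤ s t / T ^ 38 * g t := by gcongr
      _ = _ := by ring
  linarith [H.tailC ht hq]

lemma beta_deriv (ht : t ∈ Icc t1 t2) :
    ∃ D, HD (fun t => Nn n * al n (p t) (b t) (c t)) D t ∧
      (s t - d) * (Nn n * al n (p t) (b t) (c t)) + 3 / 4 * F t -
        3000 * (T ^ 34)⁻¹ * (s t * g t) ≤ D := by
  have T0 := H.T0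
  obtain ⟨g0, g1, l0, l1', D0, D1⟩ := H.eqs ht
  obtain ⟨hp, p', Dp, sp', p0, lp⟩ := H.hp t ht
  obtain ⟨G0, F0, -⟩ := H.hg t ht
  have s0 := (H.hs t ht).1
  refine ⟨_, Q1.hd_al Dp D0 D1, ?_⟩
  rw [al_eq]
  simp only [mul_add (dag (p t)), mul_sub (dag (p t)), mul_smul_comm, Ip_add, Ip_sub,
    Ip_smul, Ip_pj]
  have a2 := (abs_le.mp (H.drift_le ht sp'.dag (by rwa [l1_dag]))).1
  have a4 : 4 / 5 * F t - (T ^ 200)⁻¹ * (s t * g t) ≤ Ip n (dag (p t) * f t) := by
    have := (H.hf t ht).2.low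
    rw [inner_mul_left] at this
    refine le_trans ?_ this
    gcongr
    exact H.eps
  have a6 := (abs_le.mp ((abs_Ip_le_l1 n g0).trans l0)).1
  have a7 := (abs_le.mp ((abs_Ip_le_l1 n _).trans ((l1_mul_le _ _).trans
    (mul_le_mul ((l1_dag _).trans_le hp.l1_le) l1' (l1_nonneg _) (by norm_num))))).1
  have a8 := mul_le_mul_of_nonneg_left (H.loss_le ht) s0.le
  have e : s t * (2500 * (g t / T ^ 34)) = 2500 * (T ^ 34)⁻¹ * (s t * g t) := by ring
  rw [e] at a8
  set w := s t * g t with hw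
  have w0 : 0 < w := by positivity
  have i1 := mul_le_mul_of_nonneg_right (H.Tinv 34 45 (by norm_num)) w0.le
  have i2 := mul_le_mul_of_nonneg_right (H.Tinv 34 38 (by norm_num)) w0.le
  have i3 := mul_le_mul_of_nonneg_right (H.Tinv 34 200 (by norm_num)) w0.le
  have i4 := mul_le_mul_of_nonneg_right (H.Tinv 0 45 (by norm_num)) F0
  have i5 : 0 < (T ^ 34)⁻¹ * w := by positivity
  simp only [div_eq_mul_inv, pow_zero, inv_one] at *
  linarith

/-- Lower bound for the unstable component. -/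
theorem al_ge (hg1 : g t1 * Real.exp (τ t2 - τ t1 - d * (t2 - t1)) ≤ g t2 / 100) :
    g t2 ≤ 2 * (Nn n * al n (p t2) (b t2) (c t2)) := by
  have T0 := H.T0
  have hn := Nn_pos n
  have N0 := H.N0
  have G1 := (H.hg t1 H.m1).1
  have main := exp_le_of_deriv (τ := fun t => τ t - τ t1 - d * (t - t1)) (b := t2)
    (F := fun t => (3000 * (T ^ 34)⁻¹ * (τ t - τ t1) - 3 / 4) * g t +
      2 * g t1 * Real.exp (τ t - τ t1 - d * (t - t1)) +
      Nn n * al n (p t) (b t) (c t)) H.h0 fun t ht => ?_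
  · have h := main t2 H.m2
    simp only [sub_self, mul_zero, Real.exp_zero, mul_one] at h
    have i1 : Nn n * |al n (p t1) (b t1) (c t1)| ≤ g t1 := by
      calc _ ≤ T ^ 32 * N1 * (2 * ((T ^ 200)⁻¹ * (g t1 / N1))) := by
            gcongr
            · exact H.nN1
            · refine (abs_al_le2 (H.hp t1 H.m1).1 n _ _).trans ?_
              gcongr
              exact H.init.trans (by gcongr; exact H.eps)
        _ = g t1 / (T ^ 168 / 2) := by field_simp
        _ ≤ _ := div_le_self G1.le (by linarith [H.Tpow 0 168 (by norm_num)])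
    have i2 := mul_le_mul_of_nonneg_left (neg_abs_le (al n (p t1) (b t1) (c t1))) hn.le
    have h' := le_trans (mul_nonneg (by linarith) (Real.exp_pos _).le) h
    have G0 := (H.hg t2 H.m2).1
    have c1 : 3000 * (T ^ 34)⁻¹ * (τ t2 - τ t1) ≤ 1 / 8 := by
      calc _ ≤ 3000 * (T ^ 34)⁻¹ * (100 * T ^ 33) := by gcongr; exact H.τ1
        _ = 300000 / T := by field_simp; ring
        _ ≤ _ := by rw [div_le_iff₀ T0]; linarith [H.Tbig]
    have c3 : (3000 * (T ^ 34)⁻¹ * (τ t2 - τ t1) - 3 / 4) * g t2 ≤ -(5 / 8) * g t2 := by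
      gcongr; linarith
    linarith
  obtain ⟨D, hD', hle⟩ := H.beta_deriv ht
  obtain ⟨G0, F0, Dg⟩ := H.hg t ht
  obtain ⟨s0, Dτ, -⟩ := H.hs t ht
  have τ0 := H.τ0 ht
  have Dl : HD (fun t => τ t - τ t1 - d * (t - t1)) (s t - d) t := by
    simpa using (Dτ.sub_const (τ t1)).fun_sub
      (((hasDerivWithinAt_id t (Ici 0)).sub_const t1).const_mul d)
  refine ⟨_, _, (((((Dτ.sub_const (τ t1)).const_mul _).sub_const (3 / 4)).fun_mul Dg).fun_add
    (Dl.exp.const_mul _)).fun_add hD', Dl, ?_⟩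
  have b7 : 0 ≤ 3000 * (T ^ 34)⁻¹ * (τ t - τ t1) * F t := by positivity
  linarith only [hle, b7]

end F1

end

end Pool.Agent.Work.MP_6bf1e5_an.Ell
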