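import Pool.Agent.Work.MP_6bf1e5_an.Ell.SepA

/-!
Tools for the classification of the triads.
-/

open Set Complex
open scoped InnerProductSpace ComplexConjugate Classical
open Pool.Agent.Work.MP_6bf1e5_an.B
open Pool.Agent.Work.MP_6bf1e5_an.Dec

namespace Pool.Agent.Work.MP_6bf1e5_an.Ell.Pd

noncomputable section

variable {G : Geo}

/-- The index of the level or ladder which contains a family. -/
def lv : Fam → ℕ
  | .b j => j
  | .c j => j + 1
  | .y j _ => j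

lemma RowsA_abs (g : Gp) (k : Z3) (l : Fin 3) : |gz g k l| = |k (l - g.1)| := by
  obtain ⟨s, u⟩ := g
  rcases Int.units_eq_one_or u with rfl | rfl <;> simp [gz]

lemma RowsA_ix_le (F : Fam) : F.ix ≤ lv F := by
  cases F <;> simp [Fam.ix, lv]

lemma RowsA_ctr (F : Fam) : ∃ l, F.ctr G l = G.P (lv F) := by
  cases F with
  | b j => exact ⟨0, rfl⟩
  | c j => exact ⟨0, rfl⟩
  | y j i => exact ⟨1, rfl⟩

lemma RowsA_sz (F : Fam) : 10 ^ 100 * F.sz G ≤ G.P (lv F) := by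
  have hk := kk_big G
  rw [P_eq]
  cases F with
  | b j => exact n_lt G (by simp only [lv]; omega)
  | c j => exact n_lt G (by simp only [lv]; omega)
  | y j i => exact n_lt G (by simp only [lv]; omega)

lemma RowsA_off {F : Fam} {h : Z3} (hh : h ∈ F.S G) (g : Gp) (l : Fin 3) {J : ℕ}
    (hJ : F.ix ≤ J) : 100 * |gz g h l| ≤ 101 * (G.n (J + 1) : ℤ) := by
  rw [RowsA_abs]
  have h1 := S_le hh (l - g.1)
  have h2 : F.sz G ≤ G.n (J + 1) := (sz_le F).trans (n_mono G (by omega))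
  omega

lemma RowsA_gz_ctr (g : Gp) (F : Fam) :
    gz g (F.ctr G) = gz (gm g (cg F)) (car G F.ix (ci G F)) := by
  rw [ctr_eq, gz_gz]

lemma RowsA_cancel {g g' c : Gp} (h : gm g c = gm g' c) : g = g' := by
  simp only [gm, Prod.mk.injEq] at h
  exact Prod.ext (add_right_cancel h.1) (mul_right_cancel h.2)

lemma RowsA_comb {j : ℕ} {ρ : N3} (hρ : ∀ i, 1000 * (ρ i + 1) ≤ G.n j) {h : Z3} {o : Fin 4}
    (hh : h - G.off j o ∈ bx ρ) : ∃ l, 99 * (G.n j : ℤ) ≤ 100 * |h l| := by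
  rw [mem_bx] at hh
  have k1 := hh 1
  have k2 := hh 2
  have r1 := hρ 1
  have r2 := hρ 2
  rw [Pi.sub_apply, abs_le] at k1 k2
  have a1 := le_abs_self (h 1)
  have a2 := le_abs_self (h 2)
  have b1 := neg_abs_le (h 1)
  have b2 := neg_abs_le (h 2)
  fin_cases o
  · have e : G.off j 0 1 = G.n j := rfl
    exact ⟨1, by simp only [Fin.zero_eta] at k1; omega⟩
  · have e : G.off j 1 1 = -(G.n j : ℤ) := rfl
    exact ⟨1, by simp only [Fin.mk_one] at k1; omega⟩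
  · have e : G.off j 2 2 = G.n j := rfl
    exact ⟨2, by simp only [Fin.reduceFinMk] at k2; omega⟩
  · have e : G.off j 3 2 = -(G.n j : ℤ) := rfl
    exact ⟨2, by simp only [Fin.reduceFinMk] at k2; omega⟩

lemma mem_lev_b {j : ℕ} {g : Gp} {k : Z3} (h : k ∈ Pt G (.b j) g) : k ∈ Lev G j := by
  cases j with
  | zero => exact ⟨g, h⟩
  | succ j => exact Or.inl ⟨g, h⟩

lemma mem_lev_c {j : ℕ} {g : Gp} {k : Z3} (h : k ∈ Pt G (.c j) g) : k ∈ Lev G (j + 1) := by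
  exact Or.inr ⟨g, h⟩

lemma mem_lad {j i : ℕ} (hF : (Fam.y j i).ok G) {g : Gp} {k : Z3} (h : k ∈ Pt G (.y j i) g) :
    k ∈ LadS G j := by
  exact ⟨i, hF.1, hF.2, g, h⟩

lemma mem_lv {F : Fam} (hF : F.ok G) {g : Gp} {k : Z3} (h : k ∈ Pt G F g) :
    k ∈ Lev G (lv F) ∪ LadS G (lv F) := by
  cases F with
  | b j => exact Or.inl (mem_lev_b h)
  | c j => exact Or.inl (mem_lev_c h)
  | y j i => exact Or.inr (mem_lad hF h)

/-- A mode is about as large as its carrier. -/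
lemma pt_size {F : Fam} (hF : F.ok G) {g : Gp} {k : Z3} (h : k ∈ Pt G F g) :
    ∃ l, 9 * (G.P (lv F) : ℤ) ≤ 10 * |k l| := by
  obtain ⟨a, ha, rfl⟩ := h
  obtain ⟨l, hl⟩ := RowsA_ctr (G := G) F
  refine ⟨l + g.1, ?_⟩
  rw [pt, RowsA_abs, add_sub_cancel_right, Pi.add_apply, hl]
  have h1 := S_le ha l
  have h2 := RowsA_sz (G := G) F
  have h3 := le_abs_self ((G.P (lv F) : ℤ) + a l)
  have h4 := neg_abs_le (a l)
  omega

lemma low_of_small {F : Fam} (hF : F.ok G) {g : Gp} {k : Z3} (h : k ∈ Pt G F g) {J : ℕ}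
    (H : ∀ l, |k l| ≤ 3 * G.n J) : lv F + G.kk ≤ J := by
  obtain ⟨l, hl⟩ := pt_size hF h
  by_contra hn
  have h1 := n_lt G (not_le.1 hn)
  have h2 := n_pos G J
  have h3 := H l
  rw [P_eq] at hl
  omega

lemma low_of_small' {F : Fam} (hF : F.ok G) {g : Gp} {k : Z3} (h : k ∈ Pt G F g) {J : ℕ}
    (H : ∀ l, 2 * |k l| ≤ G.n (J + 1)) : lv F + G.kk ≤ J := by
  obtain ⟨l, hl⟩ := pt_size hF h
  by_contra hn
  have h1 := n_mono G (show J + 1 ≤ lv F + G.kk by omega)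
  have h2 := n_pos G (J + 1)
  have h3 := H l
  rw [P_eq] at hl
  omega

lemma mem_lowS {F : Fam} (hF : F.ok G) {g : Gp} {k : Z3} (h : k ∈ Pt G F g) {J : ℕ}
    (H : lv F + G.kk ≤ J) : k ∈ LowS G J := by
  exact ⟨lv F, by omega, mem_lv hF h⟩

lemma mem_tail {F : Fam} (hF : F.ok G) {g : Gp} {k : Z3} (h : k ∈ Pt G F g) {J : ℕ}
    (H : J ≤ lv F) : k ∈ Tail G J := by
  exact ⟨lv F, H, mem_lv hF h⟩

/-- The offsets of a comb are not small. -/
lemma S_ge {F : Fam} (hF : ∀ j i, F ≠ .y j i) {h : Z3} (hh : h ∈ F.S G) :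
    ∃ l, 99 * (F.sz G : ℤ) ≤ 100 * |h l| := by
  obtain ⟨x, hx, hh⟩ := mem_S.1 hh
  cases F with
  | b j =>
    obtain ⟨o, rfl⟩ := mem_cens_b.1 hx
    exact RowsA_comb (rb_small G j) hh
  | c j =>
    obtain ⟨o, rfl⟩ := mem_cens_c.1 hx
    exact RowsA_comb (rc_small G (j + 1)) hh
  | y j i => exact absurd rfl (hF j i)

/-- The offsets of a rung are small. -/
lemma S_y_le {j i : ℕ} {h : Z3} (hh : h ∈ (Fam.y j i).S G) (l : Fin 3) :
    4 * |h l| ≤ G.n (j + 1) := by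
  rw [S_y, mem_bx] at hh
  have h1 := hh l
  have h2 := ry_succ G j l
  omega

/-- Families with the same carrier. -/
theorem same_ctr {F F' : Fam} (hF : F.ok G) (hF' : F'.ok G) {g g' : Gp}
    (H : gz g (F.ctr G) = gz g' (F'.ctr G)) :
    g = g' ∧ (F = F' ∨ ∃ j, UP F F' (.c j) (.y j G.La)) := by
  rw [RowsA_gz_ctr, RowsA_gz_ctr] at H
  obtain ⟨h1, h2, h3⟩ := car_unique (ci_le hF) (ci_le hF') H
  have hL := La_big G
  cases F with
  | b j =>
    cases F' with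
    | b j' => exact ⟨RowsA_cancel h3, Or.inl (congrArg Fam.b h1)⟩
    | c j' => simp only [ci] at h2; omega
    | y j' i' => have := hF'.1; simp only [ci] at h2; omega
  | c j =>
    cases F' with
    | b j' => simp only [ci] at h2; omega
    | c j' => exact ⟨RowsA_cancel h3, Or.inl (congrArg Fam.c h1)⟩
    | y j' i' =>
      simp only [ci, Fam.ix] at h1 h2
      subst h1 h2
      exact ⟨RowsA_cancel h3, Or.inr ⟨j, Or.inl ⟨rfl, rfl⟩⟩⟩
  | y j i =>
    cases F' with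
    | b j' => have := hF.1; simp only [ci] at h2; omega
    | c j' =>
      simp only [ci, Fam.ix] at h1 h2
      subst h1 h2
      exact ⟨RowsA_cancel h3, Or.inr ⟨j, Or.inr ⟨rfl, rfl⟩⟩⟩
    | y j' i' =>
      simp only [ci, Fam.ix] at h1 h2
      subst h1 h2
      exact ⟨RowsA_cancel h3, Or.inl rfl⟩

/-- The carriers of a triad form an exact triad, or two of them cancel. -/
theorem tri_cases {F F1 F2 : Fam} (hF : F.ok G) (h1 : F1.ok G) (h2 : F2.ok G) {g g' : Gp}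
    {h a b : Z3} (hh : h ∈ F.S G) (ha : a ∈ F1.S G) (hb : b ∈ F2.S G)
    (H : pt G F1 g a + pt G F2 g' b = F.ctr G + h) :
    gz g (F1.ctr G) + gz g' (F2.ctr G) = F.ctr G ∨ gz g (F1.ctr G) = F.ctr G ∨
      gz g' (F2.ctr G) = F.ctr G ∨ gz g (F1.ctr G) = -gz g' (F2.ctr G) := by
  rw [RowsA_gz_ctr g, RowsA_gz_ctr g', ctr_eq F]
  refine triad (ci_le h1) (ci_le h2) (ci_le hF) fun l => ?_
  rw [← RowsA_gz_ctr g, ← RowsA_gz_ctr g', ← ctr_eq F]
  have e := congrFun H l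
  simp only [pt, gz_add, Pi.add_apply] at e
  have a1 := RowsA_off ha g l (le_max_left F1.ix (max F2.ix F.ix))
  have a2 := RowsA_off hb g' l ((le_max_left F2.ix F.ix).trans (le_max_right F1.ix _))
  have a3 := RowsA_off hh g1 l ((le_max_right F2.ix F.ix).trans (le_max_right F1.ix _))
  rw [gz_g1] at a3
  have b1 := abs_le.1 (le_refl |gz g a l|)
  have b2 := abs_le.1 (le_refl |gz g' b l|)
  have b3 := abs_le.1 (le_refl |h l|)
  rw [abs_le]
  omega

/-- If two carriers cancel, both modes are much higher than their sum. -/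
theorem tail_of_cancel {F F1 F2 : Fam} (hF : F.ok G) (h1 : F1.ok G) (h2 : F2.ok G) {g g' : Gp}
    {h a b : Z3} (hh : h ∈ F.S G) (ha : a ∈ F1.S G) (hb : b ∈ F2.S G)
    (H : pt G F1 g a + pt G F2 g' b = F.ctr G + h)
    (hc : gz g (F1.ctr G) = -gz g' (F2.ctr G)) :
    lv F + G.kk - 1 ≤ lv F1 ∧ lv F + G.kk - 1 ≤ lv F2 := by
  have hc' := hc
  rw [← gz_neg_one, gz_gz, RowsA_gz_ctr, RowsA_gz_ctr] at hc'
  have e1 := (car_unique (ci_le h1) (ci_le h2) hc').1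
  obtain ⟨l, hl⟩ := pt_size hF (g := g1) ⟨h, hh, rfl⟩
  rw [pt_g1, ← H, P_eq] at hl
  have e := congrFun hc l
  simp only [pt, gz_add, Pi.add_apply] at hl
  rw [Pi.neg_apply] at e
  have a1 := RowsA_off ha g l le_rfl
  have a2 := RowsA_off hb g' l e1.ge
  have e2 : gz g (F1.ctr G) l + gz g a l + (gz g' (F2.ctr G) l + gz g' b l) =
      gz g a l + gz g' b l := by rw [e]; ring
  rw [e2] at hl
  have a3 := abs_add_le (gz g a l) (gz g' b l)
  have i1 := RowsA_ix_le F1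
  have i2 := RowsA_ix_le F2
  have key : lv F + G.kk ≤ F1.ix + 1 := by
    by_contra hn
    have b1 := n_lt G (not_le.1 hn)
    have b2 := n_pos G (F1.ix + 1)
    omega
  omega

/-- The family with given position on a ladder. -/
def At (G : Geo) (F : Fam) (J i : ℕ) : Prop :=
  (i = 0 ∧ F = .b J) ∨ (i = G.La ∧ F = .c J) ∨ (1 ≤ i ∧ i ≤ G.La ∧ F = .y J i)

lemma at_self {F : Fam} (hF : F.ok G) : At G F F.ix (ci G F) := by
  cases F with
  | b j => exact Or.inl ⟨rfl, rfl⟩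
  | c j => exact Or.inr (Or.inl ⟨rfl, rfl⟩)
  | y j i => exact Or.inr (Or.inr ⟨hF.1, hF.2, rfl⟩)

/-- The exact triads, with the target in the position of its ladder. -/
theorem exact_fam {F F1 F2 : Fam} (hF : F.ok G) (h1 : F1.ok G) (h2 : F2.ok G) {g g' c : Gp}
    (hc : gm c (cg F) = g1) (H : gz g (F1.ctr G) + gz g' (F2.ctr G) = F.ctr G) :
    let x := (F1.ix, ci G F1, gm c (gm g (cg F1)))
    let y := (F2.ix, ci G F2, gm c (gm g' (cg F2)))
    (∃ m, ci G F = m + 1 ∧ UP x y (F.ix, m, g1) (F.ix, 0, (2, 1))) ∨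
      UP x y (F.ix, ci G F + 1, g1) (F.ix, 0, (2, -1)) ∨
      (ci G F = 0 ∧ UP x y (F.ix, G.La, g1) (F.ix + 1, 0, (2, -1))) ∨
      (ci G F = G.La ∧ UP x y (F.ix, 0, g1) (F.ix + 1, 0, (2, 1))) ∨
      (ci G F = 0 ∧ ∃ m, UP x y (F.ix, m + 1, (1, 1)) (F.ix, m, (1, -1))) ∨
      (ci G F = 0 ∧ ∃ J', F.ix = J' + 1 ∧ UP x y (J', G.La, (1, 1)) (J', 0, (1, -1))) := by
  have H' := congrArg (gz c) H
  rw [gz_add, RowsA_gz_ctr g, RowsA_gz_ctr g', RowsA_gz_ctr c, hc, gz_g1, gz_gz, gz_gz] at H'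
  exact exact_triad (ci_le h1) (ci_le h2) (ci_le hF) H'

end

end Pool.Agent.Work.MP_6bf1e5_an.Ell.Pd
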