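import Pool.Agent.Work.MP_6bf1e5_an.Ell.Box

/-!
The scalar comparison functions.
-/

open Set Complex Filter Topology
open scoped InnerProductSpace ComplexConjugate
open Pool.Agent.Work.MP_6bf1e5_an.B (Z3 R3)
open Pool.Agent.Work.MP_6bf1e5_an.Dec

namespace Pool.Agent.Work.MP_6bf1e5_an.Ell

noncomputable section

/-- The amplitude `a` of the current level and the comparison function `g` of the new level. -/
structure Sc (T d g0 F0 bb t0 c : ℝ) (L : ℕ) (a g : ℝ → ℝ) : Prop where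
  hT : (10 : ℝ) ^ 100 ≤ T
  hL : (L : ℝ) = T ^ 21
  d0 : 0 < d
  bb0 : 0 < bb
  h0 : 0 ≤ t0
  le : t0 ≤ c
  dur : d * (c - t0) ≤ 2 * T
  g0_lo : 99 / 100 * d ≤ g0
  g0_hi : g0 ≤ 901 / 100 * d
  a0_lo : (T ^ 30)⁻¹ / 2 ≤ a t0
  a0_hi : a t0 ≤ 2000 * (T ^ 30)⁻¹
  a_hi : a c ≤ 11
  da : ∀ t ∈ Icc t0 c, 0 < a t ∧ ∃ D, HD a D t ∧ 999 / 1000 * g0 * a t ≤ D ∧
    D ≤ 1001 / 1000 * g0 * a t
  F_lo : Real.exp (-(T ^ 42 / 2) - T ^ 41) * (T ^ 42 * d * bb) ≤ F0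
  F_hi : F0 ≤ Real.exp (-(T ^ 42 / 2) + T ^ 41) * (T ^ 42 * d * bb)
  init : g t0 = Real.exp (T ^ 22) * bb
  dg : ∀ t ∈ Icc t0 c, HD g (T ^ 42 * d * (a t - 1) * g t + F0 * a t ^ (L + 1)) t

namespace Sc

/-- The comparison function. -/
def psi (x : ℝ) : ℝ := x - 1 - Real.log x

lemma psi_one : psi 1 = 0 := by simp [psi]

lemma psi_lo {x : ℝ} (h0 : 0 < x) (h1 : x ≤ 16) : (x - 1) ^ 2 / 25 ≤ psi x := by
  have a := Real.log_le_sub_one_of_pos (Real.sqrt_pos.mpr h0)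
  rw [Real.log_sqrt h0.le] at a
  have b : √x ≤ 4 := Real.sqrt_le_iff.2 ⟨by norm_num, by linarith⟩
  have c := Real.sqrt_nonneg x
  have e := Real.sq_sqrt h0.le
  set y := √x
  have : (x - 1) ^ 2 = (y - 1) ^ 2 * (y + 1) ^ 2 := by rw [← e]; ring
  have f : (y + 1) ^ 2 ≤ 25 := by linarith
  have g := mul_le_mul_of_nonneg_left f (sq_nonneg (y - 1))
  unfold psi
  linarith

lemma psi_nonneg {x : ℝ} (h0 : 0 < x) : 0 ≤ psi x := by
  have := Real.log_le_sub_one_of_pos h0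
  unfold psi
  linarith

lemma psi_hi {x : ℝ} (h1 : 1 ≤ x) : psi x ≤ (x - 1) ^ 2 := by
  have a := Real.one_sub_inv_le_log_of_pos (show 0 < x by linarith)
  have b : x * x⁻¹ = 1 := mul_inv_cancel₀ (by linarith)
  have c : x⁻¹ ≤ 1 := inv_le_one_of_one_le₀ h1
  have : x - 1 - (1 - x⁻¹) = (x - 1) ^ 2 * x⁻¹ := by linear_combination (2 - x) * b
  have := mul_le_mul_of_nonneg_left c (sq_nonneg (x - 1))
  unfold psi
  linarith

lemma psi_le {x : ℝ} (h1 : 1 ≤ x) (h2 : x ≤ 21 / 10) : psi x ≤ 2 / 5 := by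
  have a := Real.le_log_one_add_of_nonneg (show 0 ≤ x - 1 by linarith)
  rw [add_sub_cancel, div_le_iff₀ (by linarith)] at a
  unfold psi
  nlinarith

lemma psi_ge {x : ℝ} (h1 : 99 / 10 ≤ x) (h2 : x ≤ 11) : 59 / 10 ≤ psi x := by
  have : Real.log x ≤ 3 := by
    rw [Real.log_le_iff_le_exp (by linarith), show (3 : ℝ) = (3 : ℕ) * 1 by norm_num,
      Real.exp_nat_mul]
    have := pow_le_pow_left₀ (by norm_num) Real.exp_one_gt_d9.le 3
    linarith
  unfold psi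
  linarith

lemma sub_le {F G : ℝ → ℝ} {s t : ℝ} (hs : 0 ≤ s) (hst : s ≤ t)
    (h : ∀ u ∈ Icc s t, ∃ D D', HD F D u ∧ HD G D' u ∧ D ≤ D') : F t - F s ≤ G t - G s := by
  have := mono_of_deriv (F := fun u => G u - F u) (b := t) hs (fun u hu => by
    obtain ⟨D, D', h1, h2, h3⟩ := h u hu
    exact ⟨_, h2.sub h1, by linarith⟩) le_rfl hst le_rfl
  linarith

lemma hd_mul (k t : ℝ) : HD (fun s => k * s) k t := by
  simpa using (hasDerivWithinAt_id t (Ici 0)).const_mul k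

variable {T d g0 F0 bb t0 c : ℝ} {L : ℕ} {a g : ℝ → ℝ} (H : Sc T d g0 F0 bb t0 c L a g)

include H

lemma T1 : 1 ≤ T := le_trans (by norm_num) H.hT

lemma T0 (k : ℕ) : 0 < T ^ k := pow_pos (by linarith [H.T1]) k

lemma pw {m n : ℕ} (h : m < n) : 10 ^ 100 * T ^ m ≤ T ^ n :=
  calc 10 ^ 100 * T ^ m ≤ T * T ^ m := mul_le_mul_of_nonneg_right H.hT (H.T0 m).le
    _ = T ^ (m + 1) := by ring
    _ ≤ T ^ n := pow_le_pow_right₀ H.T1 h

lemma F0_pos : 0 < F0 := by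
  have := H.T0 42
  have := H.d0
  have := H.bb0
  exact lt_of_lt_of_le (by positivity) H.F_lo

lemma rho {t : ℝ} (ht : t ∈ Icc t0 c) : 0 < a t ∧ ∃ ρ, HD a (ρ * a t) t ∧ 989 / 1000 * d ≤ ρ ∧
    ρ ≤ 902 / 100 * d := by
  obtain ⟨h0, D, h1, h2, h3⟩ := H.da t ht
  have := H.g0_lo
  have := H.g0_hi
  have := H.d0
  refine ⟨h0, D / a t, by rwa [div_mul_cancel₀ _ h0.ne'], ?_, ?_⟩
  · rw [le_div_iff₀ h0]
    nlinarith
  · rw [div_le_iff₀ h0]
    nlinarith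

lemma pos {t : ℝ} (ht : t ∈ Icc t0 c) : 0 < a t := (H.rho ht).1

lemma mono {s t : ℝ} (hs : t0 ≤ s) (hst : s ≤ t) (ht : t ≤ c) : a s ≤ a t :=
  mono_of_deriv H.h0 (fun u hu => by
    obtain ⟨h0, ρ, h1, h2, -⟩ := H.rho hu
    have := H.d0
    exact ⟨_, h1, mul_nonneg (by linarith) h0.le⟩) hs hst ht

lemma le_of_lt' {s t : ℝ} (hs : s ∈ Icc t0 c) (ht : t ∈ Icc t0 c) (h : a s < a t) : s ≤ t :=
  le_of_not_gt fun e => absurd (H.mono ht.1 e.le hs.2) (not_le.2 h)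

lemma level {s t x : ℝ} (hs : t0 ≤ s) (hst : s ≤ t) (ht : t ≤ c) (h1 : a s ≤ x) (h2 : x ≤ a t) :
    ∃ u ∈ Icc s t, a u = x :=
  exists_level hst (contOn_of_HD (H.h0.trans hs) fun u hu => by
    obtain ⟨-, ρ, h1, -⟩ := H.rho ⟨hs.trans hu.1, hu.2.trans ht⟩
    exact ⟨_, h1⟩) h1 h2

lemma a0_le : a t0 ≤ 1 / 10 ^ 6 := by
  have h1 := H.pw (show 0 < 30 by norm_num)
  have h2 : (T ^ 30)⁻¹ ≤ (10 ^ 100)⁻¹ := inv_anti₀ (by norm_num) (by simpa using h1)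
  have := H.a0_hi
  linarith

lemma time {s t : ℝ} (hs : t0 ≤ s) (hst : s ≤ t) (ht : t ≤ c) :
    Real.log (a t) - Real.log (a s) ≤ 902 / 100 * (d * (t - s)) := by
  have := sub_le (F := fun u => Real.log (a u)) (G := fun u => 902 / 100 * d * u)
    (H.h0.trans hs) hst fun u hu => by
      obtain ⟨h0, ρ, h1, -, h3⟩ := H.rho ⟨hs.trans hu.1, hu.2.trans ht⟩
      exact ⟨_, _, h1.log h0.ne', hd_mul _ _, by rwa [mul_div_cancel_right₀ _ h0.ne']⟩
  linarith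

lemma hd_psi {u : ℝ} (hu : u ∈ Icc t0 c) : ∃ ρ, 989 / 1000 * d ≤ ρ ∧ ρ ≤ 902 / 100 * d ∧
    ∀ k, HD (fun t => k * psi (a t)) (k * ((a u - 1) * ρ)) u := by
  obtain ⟨h0, ρ, h1, h2, h3⟩ := H.rho hu
  refine ⟨ρ, h2, h3, fun k => ?_⟩
  have := ((h1.sub_const 1).sub (h1.log h0.ne')).const_mul k
  rw [mul_div_cancel_right₀ _ h0.ne'] at this
  rw [show (a u - 1) * ρ = ρ * a u - ρ by ring]
  exact this

lemma ex_phi : ∃ φ : ℝ → ℝ, ∀ t ∈ Icc t0 c, HD φ (T ^ 42 * d * (a t - 1)) t := by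
  have : ContinuousOn a (Icc t0 c) := contOn_of_HD H.h0 fun u hu => by
    obtain ⟨-, ρ, h1, -⟩ := H.rho hu
    exact ⟨_, h1⟩
  obtain ⟨φ, -, h⟩ := exists_prim (g := fun t => T ^ 42 * d * (a t - 1)) H.le (by fun_prop)
  exact ⟨φ, h⟩

section phi

variable {φ : ℝ → ℝ} (hφ : ∀ t ∈ Icc t0 c, HD φ (T ^ 42 * d * (a t - 1)) t)

include hφ

lemma phi_hi {s t : ℝ} (hs : t0 ≤ s) (hst : s ≤ t) (ht : t ≤ c) (h : 1 ≤ a s) :
    φ t - φ s ≤ 1000 / 989 * T ^ 42 * (psi (a t) - psi (a s)) := by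
  have := sub_le (F := φ) (G := fun u => 1000 / 989 * T ^ 42 * psi (a u))
    (H.h0.trans hs) hst fun u hu => by
      have hu' : u ∈ Icc t0 c := ⟨hs.trans hu.1, hu.2.trans ht⟩
      obtain ⟨ρ, h2, -, h1⟩ := H.hd_psi hu'
      refine ⟨_, _, hφ u hu', h1 _, ?_⟩
      have := mul_nonneg (H.T0 42).le (sub_nonneg.2 (h.trans (H.mono hs hu.1 hu'.2)))
      nlinarith
  linarith

lemma phi_lo {s t : ℝ} (hs : t0 ≤ s) (hst : s ≤ t) (ht : t ≤ c) (h : 1 ≤ a s) :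
    100 / 902 * T ^ 42 * (psi (a t) - psi (a s)) ≤ φ t - φ s := by
  have := sub_le (G := φ) (F := fun u => 100 / 902 * T ^ 42 * psi (a u))
    (H.h0.trans hs) hst fun u hu => by
      have hu' : u ∈ Icc t0 c := ⟨hs.trans hu.1, hu.2.trans ht⟩
      obtain ⟨ρ, -, h2, h1⟩ := H.hd_psi hu'
      refine ⟨_, _, h1 _, hφ u hu', ?_⟩
      have := mul_nonneg (H.T0 42).le (sub_nonneg.2 (h.trans (H.mono hs hu.1 hu'.2)))
      nlinarith
  linarith

lemma phi_dn {s t : ℝ} (hs : t0 ≤ s) (hst : s ≤ t) (ht : t ≤ c) (h : a t ≤ 1) :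
    φ t - φ s ≤ 100 / 902 * T ^ 42 * (psi (a t) - psi (a s)) := by
  have := sub_le (F := φ) (G := fun u => 100 / 902 * T ^ 42 * psi (a u))
    (H.h0.trans hs) hst fun u hu => by
      have hu' : u ∈ Icc t0 c := ⟨hs.trans hu.1, hu.2.trans ht⟩
      obtain ⟨ρ, -, h2, h1⟩ := H.hd_psi hu'
      refine ⟨_, _, hφ u hu', h1 _, ?_⟩
      have := mul_nonneg (H.T0 42).le (sub_nonneg.2 ((H.mono hu'.1 hu.2 ht).trans h))
      nlinarith
  linarith

lemma phi_lin {s t x : ℝ} (hs : t0 ≤ s) (hst : s ≤ t) (ht : t ≤ c) (h : a t ≤ x) :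
    φ t - φ s ≤ T ^ 42 * (x - 1) * (d * (t - s)) := by
  have := sub_le (F := φ) (G := fun u => T ^ 42 * d * (x - 1) * u)
    (H.h0.trans hs) hst fun u hu => by
      have hu' : u ∈ Icc t0 c := ⟨hs.trans hu.1, hu.2.trans ht⟩
      refine ⟨_, _, hφ u hu', hd_mul _ _, ?_⟩
      exact mul_le_mul_of_nonneg_left (sub_le_sub_right ((H.mono hu'.1 hu.2 ht).trans h) _)
        (mul_pos (H.T0 42) H.d0).le
  linarith

lemma phi_up {s t K : ℝ} (hs : t0 ≤ s) (hst : s ≤ t) (ht : t ≤ c) (K0 : 0 ≤ K)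
    (h : 1 ≤ a t → 1000 / 989 * T ^ 42 * psi (a t) ≤ K) : φ t - φ s ≤ K := by
  rcases le_total (a t) 1 with h1 | h1
  · have := H.phi_lin hφ hs hst ht h1
    linarith
  rcases le_total 1 (a s) with h2 | h2
  · have := H.phi_hi hφ hs hst ht h2
    have := mul_nonneg (H.T0 42).le (psi_nonneg (H.pos ⟨hs, hst.trans ht⟩))
    linarith [h h1]
  · obtain ⟨r, hr, e⟩ := H.level hs hst ht h2 h1
    have := H.phi_lin hφ hs hr.1 (hr.2.trans ht) e.le
    have := H.phi_hi hφ (hs.trans hr.1) hr.2 ht e.ge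
    rw [e, psi_one] at this
    linarith [h h1]

lemma decay {t K : ℝ} (ht : t ∈ Icc t0 c) (h1 : 2 / 5 ≤ a t) (K0 : 0 ≤ K)
    (h : 1 ≤ a t → 1000 / 989 * T ^ 42 * psi (a t) ≤ K) : φ t - φ t0 ≤ K - 3 / 5 * T ^ 42 := by
  have a0 := H.a0_le
  obtain ⟨s, hs, e⟩ := H.level le_rfl ht.1 ht.2 (by linarith) h1
  have h2 := H.time le_rfl hs.1 (hs.2.trans ht.2)
  have h3 := H.phi_lin hφ le_rfl hs.1 (hs.2.trans ht.2) e.le
  have h4 := H.phi_up hφ hs.1 hs.2 ht.2 K0 h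
  have p0 := H.pos ⟨le_rfl, H.le⟩
  have h5 : 10 ≤ Real.log (a s) - Real.log (a t0) := by
    rw [← Real.log_div (by rw [e]; norm_num) p0.ne', Real.le_log_iff_exp_le (by rw [e]; positivity),
      show (10 : ℝ) = (10 : ℕ) * 1 by norm_num, Real.exp_nat_mul, e, le_div_iff₀ p0]
    have := pow_le_pow_left₀ (Real.exp_pos 1).le
      (Real.exp_one_lt_d9.le.trans (by norm_num : (2.7182818286 : ℝ) ≤ 3)) 10
    nlinarith
  have := mul_le_mul_of_nonneg_left (show 1 ≤ d * (s - t0) by linarith) (H.T0 42).le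
  linarith

lemma duh {t Fm K : ℝ} (ht : t ∈ Icc t0 c) (hF : ∀ u ∈ Icc t0 t, F0 * a u ^ (L + 1) ≤ Fm)
    (hK : ∀ u ∈ Icc t0 t, φ t - φ u ≤ K) :
    g t ≤ g t0 * Real.exp (φ t - φ t0) + Fm * Real.exp K * (t - t0) := by
  have := sub_le (F := fun u => g u * Real.exp (φ t - φ u)) (G := fun u => Fm * Real.exp K * u)
    H.h0 ht.1 fun u hu => by
      have hu' : u ∈ Icc t0 c := ⟨hu.1, hu.2.trans ht.2⟩
      refine ⟨_, _, (H.dg u hu').mul ((hφ u hu').const_sub _).exp, hd_mul _ _, ?_⟩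
      have S0 : 0 ≤ F0 * a u ^ (L + 1) := mul_nonneg H.F0_pos.le (pow_pos (H.pos hu') _).le
      have := mul_le_mul (hF u hu) (Real.exp_le_exp.2 (hK u hu)) (Real.exp_pos _).le
        (S0.trans (hF u hu))
      linarith
  simp only [sub_self, Real.exp_zero, mul_one] at this
  linarith

lemma grow {h : ℝ → ℝ} {r : ℝ} (hr : t0 ≤ r)
    (dh : ∀ t ∈ Icc r c, HD h (T ^ 42 * d * (a t - 1) * h t + F0 * a t ^ (L + 1)) t) :
    ∀ t ∈ Icc r c, h r * Real.exp (φ t - φ r) ≤ h t :=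
  exp_le_of_deriv (H.h0.trans hr) fun u hu => ⟨_, _, dh u hu, hφ u ⟨hr.trans hu.1, hu.2⟩,
    le_add_of_nonneg_right (mul_nonneg H.F0_pos.le (pow_pos (H.pos ⟨hr.trans hu.1, hu.2⟩) _).le)⟩

lemma low {h : ℝ → ℝ} {r p s : ℝ} (hr : t0 ≤ r) (hp : r ≤ p) (hs : p ≤ s) (hc : s ≤ c)
    (dh : ∀ t ∈ Icc r c, HD h (T ^ 42 * d * (a t - 1) * h t + F0 * a t ^ (L + 1)) t)
    (h0 : 0 ≤ h r) (ep : a p = 1) (es : a s = 1 + (T ^ 21)⁻¹) :
    ∀ t ∈ Icc s c, F0 / (T ^ 42 * d) * Real.exp (φ t - φ s) ≤ h t := by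
  have nn : ∀ t ∈ Icc r c, 0 ≤ h t := fun t ht =>
    (mul_nonneg h0 (Real.exp_pos _).le).trans (H.grow hφ hr dh t ht)
  have F0p := H.F0_pos
  have dp := mul_pos (H.T0 42) H.d0
  have h1 := sub_le (F := fun u => F0 * u) (G := h) (H.h0.trans (hr.trans hp)) hs fun u hu => by
    have hu' : u ∈ Icc r c := ⟨hp.trans hu.1, hu.2.trans hc⟩
    refine ⟨_, _, hd_mul _ _, dh u hu', ?_⟩
    have a1 : 1 ≤ a u := ep ▸ H.mono (hr.trans hp) hu.1 hu'.2
    have := mul_nonneg (mul_nonneg dp.le (sub_nonneg.2 a1)) (nn u hu')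
    have := mul_le_mul_of_nonneg_left (one_le_pow₀ (n := L + 1) a1) F0p.le
    linarith
  have h2 := H.time (hr.trans hp) hs hc
  rw [ep, es, Real.log_one] at h2
  have e0 := inv_pos.2 (H.T0 21)
  have e1 : (T ^ 21)⁻¹ ≤ 1 := inv_le_one_of_one_le₀ (one_le_pow₀ H.T1)
  have h3 := Real.le_log_one_add_of_nonneg e0.le
  rw [div_le_iff₀ (by linarith)] at h3
  have h4 : (T ^ 21)⁻¹ / 20 ≤ d * (s - p) := by
    have := Real.log_nonneg (show 1 ≤ 1 + (T ^ 21)⁻¹ by linarith)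
    nlinarith
  have h5 : 1 ≤ T ^ 42 * d * (s - p) := by
    have e2 : T ^ 42 * (T ^ 21)⁻¹ = T ^ 21 := by
      have := (H.T0 21).ne'
      field_simp
    have := mul_le_mul_of_nonneg_left h4 (H.T0 42).le
    have := H.pw (show 0 < 21 by norm_num)
    linarith
  have h6 : F0 / (T ^ 42 * d) ≤ h s := by
    rw [div_le_iff₀ dp]
    have := nn p ⟨hp, hs.trans hc⟩
    have k : F0 * (s - p) ≤ h s := by linarith
    linarith [mul_le_mul_of_nonneg_left k dp.le, mul_le_mul_of_nonneg_left h5 F0p.le]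
  intro t ht
  exact (mul_le_mul_of_nonneg_right h6 (Real.exp_pos _).le).trans
    (H.grow hφ (hr.trans (hp.trans hs)) (fun u hu => dh u ⟨hp.trans (hs.trans hu.1), hu.2⟩) t ht)

end phi

lemma g_pos {t : ℝ} (ht : t ∈ Icc t0 c) : 0 < g t := by
  obtain ⟨φ, hφ⟩ := H.ex_phi
  refine lt_of_lt_of_le ?_ (H.grow hφ le_rfl H.dg t ht)
  rw [H.init]
  have := H.bb0
  positivity

lemma eta : 0 < (T ^ 21)⁻¹ ∧ (T ^ 21)⁻¹ ≤ 1 / 10 ^ 100 ∧ T ^ 42 * psi (1 + (T ^ 21)⁻¹) ≤ 1 := by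
  have e0 := inv_pos.2 (H.T0 21)
  refine ⟨e0, by
    rw [one_div]
    exact inv_anti₀ (by norm_num) (by simpa using H.pw (show 0 < 21 by norm_num)), ?_⟩
  refine (mul_le_mul_of_nonneg_left (psi_hi (by linarith)) (H.T0 42).le).trans_eq ?_
  have : T ≠ 0 := by linarith [H.T1]
  rw [add_sub_cancel_left]
  field_simp

lemma F_lo' : Real.exp (-(T ^ 42 / 2) - T ^ 41) * bb ≤ F0 / (T ^ 42 * d) := by
  rw [le_div_iff₀ (mul_pos (H.T0 42) H.d0)]
  linarith [H.F_lo]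

theorem floor : ∀ t ∈ Icc t0 c, Real.exp (-T ^ 44) * bb ≤ g t := by
  intro t ht
  have dp := mul_pos (H.T0 42) H.d0
  have h1 := exp_le_of_deriv (F := g) (τ := fun u => -(T ^ 42 * d) * u) H.h0 (fun u hu =>
    ⟨_, _, H.dg u hu, hd_mul _ _, by
      have := mul_pos (mul_pos dp (H.pos hu)) (H.g_pos hu)
      have := mul_pos H.F0_pos (pow_pos (H.pos hu) (L + 1))
      linarith⟩) t ht
  refine le_trans ?_ h1
  rw [H.init, mul_right_comm, ← Real.exp_add]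
  refine mul_le_mul_of_nonneg_right (Real.exp_le_exp.2 ?_) H.bb0.le
  have h2 : d * (t - t0) ≤ 2 * T :=
    (mul_le_mul_of_nonneg_left (sub_le_sub_right ht.2 _) H.d0.le).trans H.dur
  have h3 := mul_le_mul_of_nonneg_left h2 (H.T0 42).le
  have := H.pw (show 43 < 44 by norm_num)
  have := H.T0 43
  have := H.T0 22
  linarith

theorem early {t : ℝ} (ht : t ∈ Icc t0 c) (h1 : 2 / 5 ≤ a t) (h2 : a t ≤ 21 / 10) :
    g t ≤ Real.exp (-T ^ 41) * bb := by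
  obtain ⟨φ, hφ⟩ := H.ex_phi
  have p42 := H.T0 42
  have hK : 1 ≤ a t → 1000 / 989 * T ^ 42 * psi (a t) ≤ 41 / 100 * T ^ 42 := fun h => by
    have := mul_le_mul_of_nonneg_left (psi_le h h2) p42.le
    linarith
  have k1 := H.decay hφ ht h1 (by linarith) hK
  have k2 := H.duh hφ (Fm := F0 * Real.exp (T ^ 21 + 1)) ht (fun u hu => by
    refine mul_le_mul_of_nonneg_left ?_ H.F0_pos.le
    have : Real.exp (T ^ 21 + 1) = Real.exp 1 ^ (L + 1) := by
      rw [← Real.exp_nat_mul, ← H.hL]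
      simp
    rw [this]
    refine pow_le_pow_left₀ (H.pos ⟨hu.1, hu.2.trans ht.2⟩).le ?_ _
    linarith [H.mono hu.1 hu.2 ht.2, Real.exp_one_gt_d9])
    fun u hu => H.phi_up hφ hu.1 hu.2 ht.2 (by linarith) hK
  have q1 := H.pw (show 41 < 42 by norm_num)
  have q2 := H.pw (show 22 < 41 by norm_num)
  have q3 := H.pw (show 21 < 41 by norm_num)
  have q4 := H.pw (show 1 < 41 by norm_num)
  have q5 := H.T1
  have := H.T0 21
  have := H.T0 22
  rw [pow_one] at q4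
  have e2 : 2 * Real.exp (-1) ≤ 1 := by
    rw [Real.exp_neg, ← div_eq_mul_inv, div_le_one (Real.exp_pos _)]
    linarith [Real.exp_one_gt_d9]
  have k3 : g t0 * Real.exp (φ t - φ t0) ≤ Real.exp (-T ^ 41) * Real.exp (-1) * bb := by
    rw [H.init, mul_right_comm, ← Real.exp_add, ← Real.exp_add]
    exact mul_le_mul_of_nonneg_right (Real.exp_le_exp.2 (by linarith)) H.bb0.le
  have k4 : F0 * Real.exp (T ^ 21 + 1) * Real.exp (41 / 100 * T ^ 42) * (t - t0) ≤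
      Real.exp (-T ^ 41) * Real.exp (-1) * bb := by
    have h2 : d * (t - t0) ≤ 2 * T :=
      (mul_le_mul_of_nonneg_left (sub_le_sub_right ht.2 _) H.d0.le).trans H.dur
    have h3 : T ^ 42 * (d * (t - t0)) ≤ Real.exp T := by
      refine le_trans ?_ (pow_le_exp H.hT (k := 44) (by norm_num))
      have := mul_le_mul_of_nonneg_left h2 p42.le
      have := H.pw (show 43 < 44 by norm_num)
      have := H.T0 43
      linarith
    have := H.bb0
    calc _ ≤ Real.exp (-(T ^ 42 / 2) + T ^ 41) * (T ^ 42 * d * bb) * Real.exp (T ^ 21 + 1) *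
          Real.exp (41 / 100 * T ^ 42) * (t - t0) := by
          have := sub_nonneg.2 ht.1
          have := H.F_hi
          gcongr
      _ = Real.exp (-(T ^ 42 / 2) + T ^ 41) * Real.exp (T ^ 21 + 1) *
          Real.exp (41 / 100 * T ^ 42) * (T ^ 42 * (d * (t - t0))) * bb := by ring
      _ ≤ Real.exp (-(T ^ 42 / 2) + T ^ 41) * Real.exp (T ^ 21 + 1) *
          Real.exp (41 / 100 * T ^ 42) * Real.exp T * bb := by gcongr
      _ ≤ _ := by
          simp only [← Real.exp_add]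
          exact mul_le_mul_of_nonneg_right (Real.exp_le_exp.2 (by linarith)) H.bb0.le
  have := mul_le_mul_of_nonneg_left e2 (mul_pos (Real.exp_pos (-T ^ 41)) H.bb0).le
  linarith

theorem late (h : 99 / 10 ≤ a c) : Real.exp (T ^ 41) * bb ≤ g c := by
  obtain ⟨φ, hφ⟩ := H.ex_phi
  obtain ⟨e0, e1, e2⟩ := H.eta
  have a0 := H.a0_le
  obtain ⟨p, hp, ep⟩ := H.level (x := 1) le_rfl H.le le_rfl (by linarith) (by linarith)
  obtain ⟨s, hs, es⟩ := H.level (x := 1 + (T ^ 21)⁻¹) hp.1 hp.2 le_rfl (by linarith) (by linarith)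
  have k1 := H.low hφ le_rfl hp.1 hs.1 hs.2 H.dg (H.g_pos ⟨le_rfl, H.le⟩).le ep es c ⟨hs.2, le_rfl⟩
  have k2 := H.phi_lo hφ (hp.1.trans hs.1) hs.2 le_rfl (by linarith)
  rw [es] at k2
  have k3 := mul_le_mul_of_nonneg_left (psi_ge h H.a_hi) (H.T0 42).le
  refine le_trans ?_ ((mul_le_mul_of_nonneg_right H.F_lo' (Real.exp_pos _).le).trans k1)
  rw [mul_right_comm, ← Real.exp_add]
  refine mul_le_mul_of_nonneg_right (Real.exp_le_exp.2 ?_) H.bb0.le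
  have q1 := H.pw (show 41 < 42 by norm_num)
  have q2 := H.pw (show 0 < 41 by norm_num)
  linarith

/-- The window around the time at which the new level becomes unstable. -/
theorem window (h : 21 / 10 ≤ a c) : ∃ t1 t' t2 : ℝ, ∃ g' τ : ℝ → ℝ,
    t0 ≤ t1 ∧ t1 ≤ t' ∧ t' ≤ t2 ∧ t2 ≤ c ∧ g' t1 = Real.exp (T ^ 3) * g t1 ∧
    (∀ t ∈ Icc t1 c, 1 / 2 ≤ a t ∧ g t ≤ g' t ∧ HD τ (T ^ 42 * d * a t) t ∧
      HD g' ((T ^ 42 * d * a t - T ^ 42 * d) * g' t + F0 * a t ^ (L + 1)) t) ∧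
    τ t2 - τ t1 ≤ 100 * T ^ 33 ∧ T ^ 33 / 1000 ≤ τ t2 - τ t' ∧
    τ c - τ t2 ≤ 100 * T ^ 42 ∧ T ^ 42 / 20 ≤ τ c - τ t2 ∧
    g' t1 * Real.exp (τ t2 - τ t1 - T ^ 42 * d * (t2 - t1)) ≤ g' t2 / 100 ∧
    (∀ t ∈ Icc t' c, F0 * a t ^ (L + 1) ≤ Real.exp (-T ^ 20) * (T ^ 42 * d * g' t)) := by
  obtain ⟨φ, hφ⟩ := H.ex_phi
  obtain ⟨e0, e1, e2⟩ := H.eta
  have a0 := H.a0_le
  have dp := mul_pos (H.T0 42) H.d0
  have p42 := H.T0 42
  set ε := (T ^ 9)⁻¹ with hε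
  have n9 : T ≠ 0 := by linarith [H.T1]
  have nd := H.d0.ne'
  have ε0 : 0 < ε := inv_pos.2 (H.T0 9)
  have ε1 : ε ≤ 1 / 10 ^ 100 := by
    rw [one_div]
    exact inv_anti₀ (by norm_num) (by simpa using H.pw (show 0 < 9 by norm_num))
  have ε2 : (T ^ 21)⁻¹ ≤ ε / 2 := by
    rw [hε, div_eq_mul_inv, ← mul_inv]
    have := H.pw (show 9 < 21 by norm_num)
    have := H.T0 9
    exact inv_anti₀ (by positivity) (by linarith)
  have ε33 : T ^ 42 * ε = T ^ 33 := by rw [hε]; field_simp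
  have ε24 : T ^ 33 * ε = T ^ 24 := by rw [hε]; field_simp
  obtain ⟨t1, h1, a1⟩ := H.level (x := 1 - ε) le_rfl H.le le_rfl (by linarith) (by linarith)
  obtain ⟨p, hp, ep⟩ := H.level (x := 1) h1.1 h1.2 le_rfl (by linarith) (by linarith)
  have p0 := h1.1.trans hp.1
  obtain ⟨s, hs, es⟩ := H.level (x := 1 + (T ^ 21)⁻¹) p0 hp.2 le_rfl (by linarith) (by linarith)
  have s0 := p0.trans hs.1
  obtain ⟨t', h', a'⟩ := H.level (x := 1 + ε / 2) s0 hs.2 le_rfl (by linarith) (by linarith)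
  have t'0 := s0.trans h'.1
  obtain ⟨t2, h2, a2⟩ := H.level (x := 1 + ε) t'0 h'.2 le_rfl (by linarith) (by linarith)
  have t20 := t'0.trans h2.1
  have ca : ContinuousOn a (Icc t1 c) := contOn_of_HD (H.h0.trans h1.1) fun u hu => by
    obtain ⟨-, ρ, h, -⟩ := H.rho ⟨h1.1.trans hu.1, hu.2⟩
    exact ⟨_, h⟩
  obtain ⟨g', i', dg'⟩ := exists_lin (s := fun t => T ^ 42 * d * (a t - 1))
    (g := fun t => F0 * a t ^ (L + 1)) (H.h0.trans h1.1) h1.2 (by fun_prop) (by fun_prop)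
    (Real.exp (T ^ 3) * g t1)
  have g1 := H.g_pos h1
  have g'1 : g t1 ≤ g' t1 := by
    rw [i']
    exact le_mul_of_one_le_left g1.le (Real.one_le_exp (H.T0 3).le)
  have lo := H.low hφ h1.1 hp.1 hs.1 hs.2 dg' (g1.le.trans g'1) ep es
  have dτ : ∀ t ∈ Icc t0 c, HD (fun u => φ u + T ^ 42 * d * u) (T ^ 42 * d * a t) t :=
    fun t ht => by
      rw [show T ^ 42 * d * a t = T ^ 42 * d * (a t - 1) + T ^ 42 * d by ring]
      exact (hφ t ht).add (hd_mul (T ^ 42 * d) t)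
  have τhi : ∀ u v, t0 ≤ u → u ≤ v → v ≤ c → φ v + T ^ 42 * d * v - (φ u + T ^ 42 * d * u) ≤
      2 * T ^ 42 * (a v - a u) := fun u v hu huv hv => by
    have := sub_le (F := fun u => φ u + T ^ 42 * d * u) (G := fun u => 2 * T ^ 42 * a u)
      (H.h0.trans hu) huv fun w hw => by
        have hw' : w ∈ Icc t0 c := ⟨hu.trans hw.1, hw.2.trans hv⟩
        obtain ⟨h0, ρ, k1, k2, -⟩ := H.rho hw'
        refine ⟨_, _, dτ w hw', k1.const_mul _, ?_⟩
        linarith [mul_le_mul_of_nonneg_left k2 (mul_pos p42 h0).le, mul_pos dp h0]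
    linarith
  have τlo : ∀ u v, t0 ≤ u → u ≤ v → v ≤ c → 1 / 10 * T ^ 42 * (a v - a u) ≤
      φ v + T ^ 42 * d * v - (φ u + T ^ 42 * d * u) := fun u v hu huv hv => by
    have := sub_le (G := fun u => φ u + T ^ 42 * d * u) (F := fun u => 1 / 10 * T ^ 42 * a u)
      (H.h0.trans hu) huv fun w hw => by
        have hw' : w ∈ Icc t0 c := ⟨hu.trans hw.1, hw.2.trans hv⟩
        obtain ⟨h0, ρ, k1, -, k2⟩ := H.rho hw'
        refine ⟨_, _, k1.const_mul _, dτ w hw', ?_⟩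
        linarith [mul_le_mul_of_nonneg_left k2 (mul_pos p42 h0).le, mul_pos dp h0]
    linarith
  have p33 := H.T0 33
  have X0 : 0 < F0 / (T ^ 42 * d) := div_pos H.F0_pos dp
  refine ⟨t1, t', t2, g', fun u => φ u + T ^ 42 * d * u, h1.1, hp.1.trans (hs.1.trans h'.1), h2.1,
    h2.2, i', fun t ht => ⟨?_, ?_, dτ t ⟨h1.1.trans ht.1, ht.2⟩, ?_⟩, ?_, ?_, ?_, ?_, ?_,
    fun t ht => ?_⟩
  · linarith [H.mono h1.1 ht.1 ht.2]
  · have := exp_le_of_deriv (F := fun u => g' u - g u) (τ := φ) (H.h0.trans h1.1) (fun u hu =>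
      ⟨_, _, (dg' u hu).sub (H.dg u ⟨h1.1.trans hu.1, hu.2⟩), hφ u ⟨h1.1.trans hu.1, hu.2⟩,
        le_of_eq (by ring)⟩) t ht
    have := mul_nonneg (sub_nonneg.2 g'1) (Real.exp_pos (φ t - φ t1)).le
    linarith
  · convert dg' t ht using 1
    ring
  · have := τhi t1 t2 h1.1 (hp.1.trans (hs.1.trans (h'.1.trans h2.1))) h2.2
    rw [a1, a2] at this
    linarith
  · have := τlo t' t2 t'0 h2.1 h2.2
    rw [a', a2] at this
    linarith
  · have := τhi t2 c t20 h2.2 le_rfl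
    have := mul_le_mul_of_nonneg_left (show a c - a t2 ≤ 10 by linarith [H.a_hi]) p42.le
    linarith
  · have := τlo t2 c t20 h2.2 le_rfl
    have := mul_le_mul_of_nonneg_left (show 1 ≤ a c - a t2 by linarith) p42.le
    linarith
  · have k0 : ∀ u ∈ Icc t0 t1, φ t1 - φ u ≤ 0 := fun u hu =>
      H.phi_up hφ hu.1 hu.2 h1.2 le_rfl fun h => by linarith
    have k1 := H.decay hφ h1 (by linarith) le_rfl fun h => by linarith
    have k2 := H.duh hφ (Fm := F0) h1 (fun u hu => mul_le_of_le_one_right H.F0_pos.le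
      (pow_le_one₀ (H.pos ⟨hu.1, hu.2.trans h1.2⟩).le (by linarith [H.mono hu.1 hu.2 h1.2]))) k0
    have q1 := H.pw (show 41 < 42 by norm_num)
    have q2 := H.pw (show 22 < 41 by norm_num)
    have := H.T0 22
    have k3 : g t0 * Real.exp (φ t1 - φ t0) ≤ F0 / (T ^ 42 * d) := by
      refine le_trans ?_ H.F_lo'
      rw [H.init, mul_right_comm, ← Real.exp_add]
      exact mul_le_mul_of_nonneg_right (Real.exp_le_exp.2 (by linarith)) H.bb0.le
    have k4 : F0 * (t1 - t0) = F0 / (T ^ 42 * d) * (T ^ 42 * (d * (t1 - t0))) := by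
      field_simp
    have k5 : 1 + T ^ 42 * (d * (t1 - t0)) ≤ Real.exp T := by
      refine le_trans ?_ (pow_le_exp H.hT (k := 44) (by norm_num))
      have := mul_le_mul_of_nonneg_left ((mul_le_mul_of_nonneg_left (sub_le_sub_right h1.2 t0)
        H.d0.le).trans H.dur) p42.le
      have := H.pw (show 43 < 44 by norm_num)
      have := one_le_pow₀ (n := 43) H.T1
      linarith
    have k6 : g t1 ≤ F0 / (T ^ 42 * d) * Real.exp T := by
      have := mul_le_mul_of_nonneg_left k5 X0.le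
      rw [Real.exp_zero, mul_one, k4] at k2
      linarith
    have k7 := H.phi_dn hφ h1.1 hp.1 hp.2 ep.le
    have k8 := H.phi_hi hφ p0 hs.1 hs.2 ep.ge
    have k9 := mul_le_mul_of_nonneg_left (psi_lo (x := 1 - ε) (by linarith) (by linarith)) p42.le
    rw [ep, psi_one] at k7 k8
    rw [a1] at k7
    rw [es] at k8
    have k10 : T ^ 42 * ((1 - ε - 1) ^ 2 / 25) = T ^ 24 / 25 := by
      rw [← ε24, ← ε33]
      ring
    have q3 := H.pw (show 3 < 24 by norm_num)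
    have q4 := H.pw (show 1 < 3 by norm_num)
    have q5 := H.hT
    rw [pow_one] at q4
    have e100 : 100 * Real.exp (-99) ≤ 1 := by
      rw [Real.exp_neg, ← div_eq_mul_inv, div_le_one (Real.exp_pos _)]
      linarith [Real.add_one_le_exp 99]
    have k11 := lo t2 ⟨h'.1.trans h2.1, h2.2⟩
    calc _ = Real.exp (T ^ 3) * g t1 * Real.exp (φ t2 - φ t1) := by
          rw [i']
          congr 2
          ring
      _ ≤ Real.exp (T ^ 3) * (F0 / (T ^ 42 * d) * Real.exp T) * Real.exp (φ t2 - φ t1) := by gcongr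
      _ = F0 / (T ^ 42 * d) * Real.exp (T ^ 3 + T + (φ t2 - φ t1)) := by
          simp only [Real.exp_add]
          ring
      _ ≤ F0 / (T ^ 42 * d) * Real.exp (φ t2 - φ s + -99) :=
          mul_le_mul_of_nonneg_left (Real.exp_le_exp.2 (by linarith)) X0.le
      _ ≤ _ := by
          rw [Real.exp_add, ← mul_assoc]
          have := mul_le_mul_of_nonneg_left e100 (mul_pos X0 (Real.exp_pos (φ t2 - φ s))).le
          linarith
  · have ht' : t ∈ Icc t0 c := ⟨t'0.trans ht.1, ht.2⟩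
    have k1 := lo t ⟨h'.1.trans ht.1, ht.2⟩
    have k2 := H.phi_lo hφ s0 (h'.1.trans ht.1) ht.2 (by linarith)
    have y1 : ε / 2 ≤ a t - 1 := by linarith [H.mono t'0 ht.1 ht.2]
    have y2 : a t ≤ 16 := by linarith [H.mono ht'.1 ht.2 le_rfl, H.a_hi]
    have k3 := mul_le_mul_of_nonneg_left (psi_lo (H.pos ht') y2) p42.le
    rw [es] at k2
    have k4 : a t ^ (L + 1) ≤ Real.exp ((T ^ 21 + 1) * (a t - 1)) := by
      have : Real.exp ((T ^ 21 + 1) * (a t - 1)) = Real.exp (a t - 1) ^ (L + 1) := by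
        rw [← Real.exp_nat_mul, ← H.hL]
        simp
      rw [this]
      exact pow_le_pow_left₀ (H.pos ht').le (by linarith [Real.add_one_le_exp (a t - 1)]) _
    set y := a t - 1
    have y0 : 0 ≤ y := by linarith
    have k5 : T ^ 33 / 2 * y ≤ T ^ 42 * y ^ 2 := by
      have := mul_le_mul_of_nonneg_left y1 (mul_nonneg p42.le y0)
      rw [← ε33]
      linarith
    have k6 : T ^ 24 / 2 ≤ T ^ 33 * y := by
      have := mul_le_mul_of_nonneg_left y1 p33.le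
      rw [← ε24]
      linarith
    have k7 := mul_le_mul_of_nonneg_right (H.pw (show 21 < 33 by norm_num)) y0
    have k8 := mul_le_mul_of_nonneg_right (one_le_pow₀ (n := 21) H.T1) y0
    have q1 := H.pw (show 20 < 24 by norm_num)
    have q2 := one_le_pow₀ (n := 20) H.T1
    calc F0 * a t ^ (L + 1) ≤ F0 * Real.exp (-T ^ 20 + (φ t - φ s)) :=
          mul_le_mul_of_nonneg_left (k4.trans (Real.exp_le_exp.2 (by linarith))) H.F0_pos.le
      _ = Real.exp (-T ^ 20) * (T ^ 42 * d * (F0 / (T ^ 42 * d) * Real.exp (φ t - φ s))) := by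
          rw [Real.exp_add]
          field_simp
      _ ≤ _ := by gcongr

end Sc

end

end Pool.Agent.Work.MP_6bf1e5_an.Ell
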