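import Pool.Agent.Work.MP_6bf1e5_an.Ell.SeedC

/-!
The seeds.
-/

open Set Complex Filter Topology
open scoped InnerProductSpace ComplexConjugate
open Pool.Agent.Work.MP_6bf1e5_an.B (Z3 R3)
open Pool.Agent.Work.MP_6bf1e5_an.Dec

namespace Pool.Agent.Work.MP_6bf1e5_an.Ell

noncomputable section

/-- The three properties of a seed from the bounds of the unprojected product `q`. -/
lemma Geo.sd_core (G : Geo) (J : ℕ) {q p : V} {s : N3} {mv : Fin 3 → ℝ} {κ c0 z Y Xl X : ℝ}
    (c00 : 0 ≤ c0) (z0 : 0 ≤ z) (Y0 : 0 ≤ Y) (X0 : 0 ≤ Xl)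
    (slack : c0 * z * (G.t ^ 20 * (Real.exp (3 * G.t ^ 10) * Xl)) ≤ X)
    (sq : Sp s q) (hs : ∀ i, s i ≤ G.n (J + 1))
    (hwt : ∀ (i : Fin 3) (u : ℝ), |u| * G.rd J i ≤ 1 / (3000 * G.t ^ 16) →
      ‖wt (Pi.single i u) q‖ ≤
        Real.exp (G.t / (2 * 10 ^ 19)) * (z * (Y + Real.exp (2 * G.t ^ 10) * Xl)) / G.N J)
    (hsup : ∀ x ∈ cube, ‖ev x q‖ ≤
      z * (101 / 100 * Y + 4 * G.t ^ 10 * (Real.exp (3 * G.t ^ 10) * Xl)))
    (hlow : ∀ x : R3, (∀ i, |x i| = th (G.rb (J + 1) i)) → ‖ev x q - ((z * Y : ℝ) : ℂ)‖ ≤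
      z * (Y / 100 + 2 * (Real.exp (3 * G.t ^ 10) * Xl)))
    (hp : Drv G.t (G.rd J) mv κ p)
    (hp1 : ∀ x : R3, (∀ i, |x i| = th (G.rb (J + 1) i)) → ‖ev x p - 1‖ ≤ 1 / 1000) :
    Seed G.t (G.rb (J + 1)) (G.rd J) (G.N J) p ((c0 : ℂ) • pj (G.rc (J + 1)) q) (c0 * z * Y) X := by
  have hT := G.t_pos
  have hN := G.N_pos J
  set E := Real.exp (3 * G.t ^ 10) * Xl with hE
  have E0 : 0 ≤ E := by positivity
  have p10 := G.sd_t_le (show 1 ≤ 10 by norm_num)
  have e23 : Real.exp (G.t / (2 * 10 ^ 19)) * (Real.exp (2 * G.t ^ 10) * Xl) ≤ E := by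
    rw [← mul_assoc, ← Real.exp_add]
    exact mul_le_mul_of_nonneg_right (Real.exp_le_exp.mpr (by linarith)) X0
  have x1 : 1 ≤ Real.exp (G.t / (2 * 10 ^ 19)) := Real.one_le_exp (by positivity)
  have e23' : Real.exp (2 * G.t ^ 10) * Xl ≤ E :=
    (le_mul_of_one_le_left (by positivity) x1).trans e23
  have x4 : 4 * Real.exp (G.t / (2 * 10 ^ 19)) ≤ Real.exp (G.t / 10 ^ 19) := by
    have h1 : Real.exp (G.t / 10 ^ 19) =
        Real.exp (G.t / (2 * 10 ^ 19)) * Real.exp (G.t / (2 * 10 ^ 19)) := by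
      rw [← Real.exp_add]; congr 1; ring
    have h2 := Real.add_one_le_exp (G.t / (2 * 10 ^ 19))
    have h3 := G.t_big
    rw [h1]
    gcongr
    linarith
  have cz0 : 0 ≤ c0 * z * E := by positivity
  have sl : (10 + 5 * G.t ^ 10) * (c0 * z * E) ≤ X := by
    have h1 := G.pow_lt (show 10 < 20 by norm_num)
    have h2 := one_le_pow₀ (n := 10) G.one_le_t
    refine le_trans ?_ slack
    rw [show c0 * z * (G.t ^ 20 * E) = G.t ^ 20 * (c0 * z * E) by ring]
    gcongr
    linarith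
  have t10 : 0 ≤ G.t ^ 10 * (c0 * z * E) := by positivity
  have W0 : 0 ≤ z * (Y + Real.exp (2 * G.t ^ 10) * Xl) := by positivity
  have F0 : 0 ≤ c0 * z * Y := by positivity
  -- the weighted bound of the seed
  have wf : ∀ (i : Fin 3) (u : ℝ), |u| * G.rd J i ≤ 1 / (3000 * G.t ^ 16) →
      ‖wt (Pi.single i u) ((c0 : ℂ) • pj (G.rc (J + 1)) q)‖ ≤
        Real.exp (G.t / (2 * 10 ^ 19)) * (c0 * (z * (Y + Real.exp (2 * G.t ^ 10) * Xl))) /
          G.N J := fun i u hu => by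
    rw [map_smul, norm_smul, Complex.norm_real, Real.norm_of_nonneg c00, wt_pj]
    refine (mul_le_mul_of_nonneg_left ((norm_pj_le _ _).trans (hwt i u hu)) c00).trans
      (le_of_eq (by ring))
  -- the tail of the product
  have tl : l1 (q - pj (G.rc (J + 1)) q) ≤ z * (Y + Real.exp (2 * G.t ^ 10) * Xl) / 1000 :=
    G.sd_tail J W0 sq hs (G.rb_le_rc (J + 1)) fun i u hu => (hwt i u hu).trans (by
      gcongr; linarith)
  have evf : ∀ x : R3, ‖ev x ((c0 : ℂ) • pj (G.rc (J + 1)) q) - c0 * ev x q‖ ≤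
      (c0 * z * Y + c0 * z * E) / 1000 := fun x => by
    have e : ev x ((c0 : ℂ) • pj (G.rc (J + 1)) q) - c0 * ev x q =
        -(c0 * ev x (q - pj (G.rc (J + 1)) q)) := by
      rw [map_smul, map_sub, smul_eq_mul]; ring
    rw [e, norm_neg, norm_mul, Complex.norm_real, Real.norm_of_nonneg c00]
    calc _ ≤ c0 * (z * (Y + E) / 1000) := by
          gcongr
          refine (norm_ev_le _ _).trans (tl.trans ?_)
          gcongr
      _ = _ := by ring
  refine ⟨fun i u hu => (wf i u hu).trans ?_, fun x hx => ?_, ?_⟩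
  · refine div_le_div_of_nonneg_right ?_ hN.le
    have h1 := mul_le_mul_of_nonneg_left e23 (mul_nonneg c00 z0)
    have h2 : Real.exp (G.t / (2 * 10 ^ 19)) * (c0 * z * Y) ≤
        Real.exp (G.t / 10 ^ 19) * (c0 * z * Y) := by gcongr; linarith
    linarith
  · have h1 := norm_le_norm_sub_add (ev x ((c0 : ℂ) • pj (G.rc (J + 1)) q)) (c0 * ev x q)
    have h2 := evf x
    have h3 := mul_le_mul_of_nonneg_left (hsup x hx) c00
    rw [norm_mul, Complex.norm_real, Real.norm_of_nonneg c00] at h1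
    linarith
  · set f := (c0 : ℂ) • pj (G.rc (J + 1)) q with hf
    have sw : Sp (fun i => 2 * G.rd J i + G.rc (J + 1) i) (dag p * f) :=
      hp.supp.dag.mul ((sp_pj _ _).smul _)
    have tw : l1 (dag p * f - pj (G.rb (J + 1)) (dag p * f)) ≤
        c0 * (z * (Y + Real.exp (2 * G.t ^ 10) * Xl)) / 1000 := by
      refine G.sd_tail J (by positivity) sw (G.sd_supp J) (fun _ => le_rfl) fun i u hu => ?_
      have a1 := (G.sd_wt_hyp J i (abs_nonneg u) hu).2.1
      have a2 : l1 (wt (Pi.single i u) (dag p)) ≤ 4 := by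
        rw [wt_dag, l1_dag, ← Pi.single_neg]
        exact hp.l1_wt_le i (by rwa [abs_neg])
      rw [wt_mul]
      calc _ ≤ _ := norm_mul_le_l1 _ _
        _ ≤ 4 * (Real.exp (G.t / (2 * 10 ^ 19)) *
            (c0 * (z * (Y + Real.exp (2 * G.t ^ 10) * Xl))) / G.N J) := by
          gcongr
          exact wf i u hu
        _ = 4 * Real.exp (G.t / (2 * 10 ^ 19)) *
            (c0 * (z * (Y + Real.exp (2 * G.t ^ 10) * Xl))) / G.N J := by ring
        _ ≤ _ := by gcongr
    have tw' : c0 * (z * (Y + Real.exp (2 * G.t ^ 10) * Xl)) ≤ c0 * z * Y + c0 * z * E := by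
      have := mul_le_mul_of_nonneg_left e23' (mul_nonneg c00 z0)
      linarith
    have hS : ∀ x : R3, (∀ i, |x i| = th (G.rb (J + 1) i)) →
        ‖ev x (dag p * f - ((c0 * z * Y : ℝ) : ℂ) • dl)‖ ≤
          c0 * z * Y / 50 + 3 * (c0 * z * E) := fun x hx => by
      have e : ev x (dag p * f - ((c0 * z * Y : ℝ) : ℂ) • dl) =
          conj (ev x p) * ((ev x f - c0 * ev x q) + c0 * (ev x q - ((z * Y : ℝ) : ℂ))) +
            ((c0 * z * Y : ℝ) : ℂ) * conj (ev x p - 1) := by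
        rw [map_sub, map_mul, map_smul (ev x) _ dl, ev_dag, ev_dl, map_sub, map_one]
        push_cast
        simp only [smul_eq_mul]
        ring
      have b1 := hp.ev_le (corner_mem_cube3 hx)
      have b2 := evf x
      have b3 := mul_le_mul_of_nonneg_left (hlow x hx) c00
      have b4 := mul_le_mul_of_nonneg_left (hp1 x hx) F0
      have b5 := norm_add_le (ev x f - c0 * ev x q) (c0 * (ev x q - ((z * Y : ℝ) : ℂ)))
      rw [norm_mul, Complex.norm_real, Real.norm_of_nonneg c00] at b5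
      rw [e]
      refine (norm_add_le _ _).trans ?_
      rw [norm_mul, norm_mul, RCLike.norm_conj, RCLike.norm_conj, Complex.norm_real,
        Real.norm_of_nonneg F0]
      have b6 := mul_le_of_le_one_left
        (norm_nonneg ((ev x f - c0 * ev x q) + c0 * (ev x q - ((z * Y : ℝ) : ℂ)))) b1
      linarith
    have h1 := norm_inner_ph_le _ hS
    have d0 : pj (G.rb (J + 1)) dl = dl := (sp_sh (zero_mem_bx _)).pj_eq
    have e1 : dag p * f - ((c0 * z * Y : ℝ) : ℂ) • dl -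
        pj (G.rb (J + 1)) (dag p * f - ((c0 * z * Y : ℝ) : ℂ) • dl) =
        dag p * f - pj (G.rb (J + 1)) (dag p * f) := by
      rw [map_sub, map_smul, d0]; abel
    rw [e1, inner_sub_right, inner_smul_right, inner_ph_dl, ← inner_mul_left,
      ← Complex.ofReal_mul] at h1
    have n0 := Nn_pos (G.rb (J + 1))
    have h2 := (abs_le.mp ((Complex.abs_re_le_norm _).trans h1)).1
    rw [Complex.sub_re, Complex.ofReal_re] at h2
    have h3 := mul_le_mul_of_nonneg_left h2 n0.le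
    rw [mul_neg, mul_inv_cancel_left₀ n0.ne', mul_sub, mul_comm (c0 * z * Y),
      mul_inv_cancel_left₀ n0.ne'] at h3
    linarith

variable {G : Geo} {R : Raw} {j : ℕ} {t0 c g0 : ℝ} {AA : ℕ → ℝ}

namespace Run

variable (H : IsNet G R) (S : Run G R j AA t0 c g0)

include H S

theorem lad {g : ℝ → ℝ} (hg : Cmp G R (j + 1) (zz G R j AA) t0 c g) :
    Lad G.t (10 ^ 5 / G.t ^ 4) (G.D (j + 1)) (G.N (j + 1)) (G.ell (j + 1)) t0 c G.La (G.rB (j + 1))
      (G.ry (j + 1)) (G.mv (j + 1)) (R.pB G (j + 1)) (R.y (j + 1))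
      (fun t => R.bh G (j + 1) * R.aa G (j + 1) t) (fun t => Real.exp (-(G.t ^ 21 / 3)) * (20 * g t))
      (fun i => R.cy i * G.lam (j + 1)) (fun i t => R.Yq G (j + 1) (R.aa G (j + 1) t) i)
      (R.vy (j + 1)) :=
  S.sd_lad H hg

theorem seed {g : ℝ → ℝ} (hg : Cmp G R (j + 1) (zz G R j AA) t0 c g) {m : Fin 4 → ℝ}
    (m1 : ∑ o, m o = 1) (m2 : ∑ o, |m o| ≤ 3 * G.t ^ 10) : ∀ t ∈ Icc t0 c,
    Seed G.t (G.rb (j + 2)) (G.rd (j + 1)) (G.N (j + 1)) (R.pp G (j + 1) t)
      (cmb m fun o => R.f G (j + 1) o t) (R.Fs G (j + 1) (zz G R j AA) (R.aa G (j + 1) t))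
      (Real.exp (-G.t ^ 20) * (G.d (j + 2) * g t)) := by
  intro t ht
  have hT := G.t_pos
  have hz := S.sd_zz_pos H
  have hgt := S.sd_g_pos H hg ht
  have hY := H.Yq_pos (j + 1) (S.aa_bounds H ht).1 G.La
  have hcf := H.cf_lo
  have L := S.lad H hg
  have e4 := G.sd_exp4
  have e4' := G.sd_exp4'
  have p10 := one_le_pow₀ (n := 10) G.one_le_t
  have hZ : ∀ x : R3, (∀ i, |x i| * G.n (j + 1) ≤ G.t) →
      ‖ev x (cmb m fun o => R.Z G (j + 2) o t)‖ ≤ 1001 / 1000 * zz G R j AA := fun x hx => by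
    have h1 := norm_le_norm_sub_add (ev x (cmb m fun o => R.Z G (j + 2) o t)) (zz G R j AA : ℂ)
    have h2 := S.sd_ev_Zm H m1 m2 ht hx
    rw [Complex.norm_real, Real.norm_of_nonneg hz.le] at h1
    linarith
  rw [sd_cmb_f]
  set Y := R.Yq G (j + 1) (R.aa G (j + 1) t) G.La with hYd
  set E := Real.exp (3 * G.t ^ 10) * (Real.exp (-(G.t ^ 21 / 3)) * (20 * g t)) with hE
  have E0 : 0 < E := by positivity
  refine G.sd_core (j + 1) (Xl := Real.exp (-(G.t ^ 21 / 3)) * (20 * g t)) (by positivity) hz.le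
    hY.le (by positivity) (S.sd_slack H hgt.le) ((sd_sp_y H t).mul (S.sd_sp_Zm H m t))
    (fun i => ?_) (fun i u hu => S.sd_wt H hg m2 ht i hu) (fun x hx => ?_) (fun x hx => ?_)
    (S.cur H t ht).drv.tau (fun x hx => (G.sd_corner_ev (j + 1) (S.cur H t ht).drv hx).2)
  · have := G.sd_ten_n (j + 1)
    simp only [Pi.add_apply, Geo.ry]
    omega
  · rw [map_mul, norm_mul]
    rcases le_total (sqr (G.rB (j + 1)) x) (G.t ^ 16)⁻¹ with hr | hr
    · have h1 := L.sup_le (G.sd_Wts (j + 1)) hx le_rfl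
        (fun s hs => (S.cur H s hs).drv.ev_le hx) G.La le_rfl t ht
      have h2 := hZ x (G.sd_near_box (j + 1) hr)
      rw [one_pow] at h1
      have h3 : ‖ev x (R.y (j + 1) G.La t)‖ ≤ 1001 / 1000 * Y + E := by
        refine h1.trans (add_le_add ?_ le_rfl)
        gcongr
        linarith
      calc _ ≤ (1001 / 1000 * Y + E) * (1001 / 1000 * zz G R j AA) := by gcongr
        _ = zz G R j AA * (1001 / 1000 * (1001 / 1000) * Y + 1001 / 1000 * E) := by ring
        _ ≤ _ := by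
          gcongr
          · norm_num
          · linarith
    · have i16 : 0 < (G.t ^ 16)⁻¹ := by positivity
      have h1 := L.sup_le (G.sd_Wts (j + 1)) hx (ϑ := 1 - (G.t ^ 16)⁻¹ / (2 * 10 ^ 10))
        (by linarith [div_pos i16 (show (0 : ℝ) < 2 * 10 ^ 10 by positivity)])
        (fun s hs => G.sd_far (S.cur H s hs).drv hx hr) G.La le_rfl t ht
      have h2 := (norm_ev_le x _).trans (S.sd_l1_Zm H m2 ht)
      have h3 : ‖ev x (R.y (j + 1) G.La t)‖ ≤ 2 * Real.exp (-G.t ^ 4) * Y + E := by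
        refine h1.trans (add_le_add ?_ le_rfl)
        have := G.sd_far_pow
        gcongr
        linarith
      calc _ ≤ (2 * Real.exp (-G.t ^ 4) * Y + E) * (4 * G.t ^ 10 * zz G R j AA) := by gcongr
        _ = zz G R j AA * (8 * G.t ^ 10 * Real.exp (-G.t ^ 4) * Y + 4 * G.t ^ 10 * E) := by ring
        _ ≤ _ := by
          gcongr
          linarith
  · have hn : ∀ i, |x i| * G.n (j + 1) ≤ G.t := fun i => by
      have a1 := (G.sd_scale (j + 1) i (abs_nonneg _) (G.sd_corner hx i)).1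
      have a2 : G.t ^ 4 * (2 / G.t ^ 17) ≤ 1 := by
        have := G.pow_lt (show 4 < 17 by norm_num)
        have : 0 < G.t ^ 4 := by positivity
        rw [← mul_div_assoc, div_le_one (by positivity)]
        linarith
      have := G.one_le_t
      linarith
    have hb : R.bh G (j + 1) * R.aa G (j + 1) t0 ≤ Real.exp (-(G.t ^ 21 / 3)) * (20 * g t0) := by
      have b1 := (S.aa_bounds H (left_mem_Icc.mpr S.le)).2
      have b2 := H.bh_mono (show j + 1 ≤ j + 1 + 1 by omega)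
      have b3 := H.bh_pos (j + 1)
      have b4 : 1 ≤ Real.exp (-(G.t ^ 21 / 3)) * Real.exp (G.t ^ 22) := by
        rw [← Real.exp_add]
        refine Real.one_le_exp ?_
        have := G.pow_le (show 21 ≤ 22 by norm_num)
        have : 0 < G.t ^ 21 := by positivity
        linarith
      rw [hg.init]
      nlinarith
    have h1 := L.near_le' (G.sd_Wts (j + 1)) (corner_mem_cube3 hx) hb
      (fun s hs => G.sd_corner_ev (j + 1) (S.cur H s hs).drv hx) G.La le_rfl t ht
    have e1 : (G.La : ℝ) * ((G.t ^ 21)⁻¹ / 1000) = 1 / 1000 := by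
      rw [G.La_eq]; field_simp
    rw [e1] at h1
    have h2 := hZ x hn
    have h3 := S.sd_ev_Zm H m1 m2 ht hn
    have h4 : ‖ev x (R.y (j + 1) G.La t) - (Y : ℂ)‖ ≤ 3 / 1000 * Y + E := by
      refine h1.trans (add_le_add ?_ le_rfl)
      gcongr
      linarith
    have e2 : ev x (R.y (j + 1) G.La t * cmb m fun o => R.Z G (j + 1 + 1) o t) -
        ((zz G R j AA * Y : ℝ) : ℂ) =
        (ev x (R.y (j + 1) G.La t) - (Y : ℂ)) * ev x (cmb m fun o => R.Z G (j + 2) o t) +
          (Y : ℂ) * (ev x (cmb m fun o => R.Z G (j + 2) o t) - (zz G R j AA : ℂ)) := by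
      rw [map_mul]; push_cast; ring
    rw [e2]
    refine (norm_add_le _ _).trans ?_
    rw [norm_mul, norm_mul, Complex.norm_real, Real.norm_of_nonneg hY.le]
    calc _ ≤ (3 / 1000 * Y + E) * (1001 / 1000 * zz G R j AA) + Y * (zz G R j AA / 1000) := by
          gcongr
      _ = zz G R j AA * ((3 / 1000 * (1001 / 1000) + 1 / 1000) * Y + 1001 / 1000 * E) := by ring
      _ ≤ _ := by
        gcongr
        · linarith
        · norm_num

end Run

end

end Pool.Agent.Work.MP_6bf1e5_an.Ell
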