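import Pool.Agent.Work.MP_6bf1e5_an.Ell.Upp
import Pool.Agent.Work.MP_6bf1e5_an.Ell.Ladder

/-!
The current ladder satisfies the hypotheses of the ladder estimates.
-/

open Set Complex Filter Topology
open scoped InnerProductSpace ComplexConjugate
open Pool.Agent.Work.MP_6bf1e5_an.B (Z3 R3)
open Pool.Agent.Work.MP_6bf1e5_an.Dec

namespace Pool.Agent.Work.MP_6bf1e5_an.Ell

noncomputable section

namespace Geo

variable (G : Geo)

lemma sd_pow_exp {k : ℕ} (hk : k ≤ 1000) {y : ℝ} (hy : G.t / 10 ^ 50 ≤ y) :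
    G.t ^ k ≤ Real.exp y :=
  (G.pow_le_exp hk).trans (Real.exp_le_exp.mpr hy)

lemma sd_t_le {k : ℕ} (hk : 1 ≤ k) : G.t ≤ G.t ^ k := by
  simpa using G.pow_le hk

lemma sd_gap : G.t ≤ G.t ^ 21 / 2 - G.t ^ 19 := by
  have h1 := G.pow_lt (show 19 < 21 by norm_num)
  have h2 := G.sd_t_le (show 1 ≤ 19 by norm_num)
  have := G.t_pos
  linarith

lemma sd_expD (j : ℕ) : Real.exp (-G.t ^ 19) * G.D j =
    Real.exp (G.t ^ 21 / 2 - G.t ^ 19) * G.lam j ^ 2 := by
  rw [D, ← mul_assoc, ← Real.exp_add]; congr 2; ring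

lemma sd_pow_D {k : ℕ} (hk : k ≤ 1000) (j : ℕ) :
    G.t ^ k * G.lam j ^ 2 ≤ Real.exp (-G.t ^ 19) * G.D j := by
  rw [sd_expD]
  have := G.t_pos
  gcongr
  exact G.sd_pow_exp hk (le_trans (by linarith) G.sd_gap)

lemma sd_ten_n (j : ℕ) : 10 * G.n j ≤ G.n (j + 1) := by
  rw [G.n_succ]; exact Nat.mul_le_mul_right _ G.ten_le_La

lemma sd_θ_le : G.θ ≤ 1 := inv_le_one_of_one_le₀ (one_le_pow₀ G.one_le_t)

lemma sd_xs_le : G.xs ≤ 1 := inv_le_one_of_one_le₀ (one_le_pow₀ G.one_le_t)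

lemma sd_one_le_Wc : 1 ≤ G.Wc := Real.one_le_exp (pow_pos G.t_pos _).le

end Geo

variable {G : Geo} {R : Raw} {j : ℕ} {t0 c g0 : ℝ} {AA : ℕ → ℝ}

namespace Run

variable (H : IsNet G R) (S : Run G R j AA t0 c g0)

include H S

lemma sd_zz_pos : 0 < zz G R j AA := by
  have h := (S.zz_bounds H).1
  have h1 := H.bh_pos (j + 2)
  have h2 := G.m0_pos
  by_contra hn
  push Not at hn
  nlinarith

lemma sd_g_pos {g : ℝ → ℝ} (hg : Cmp G R (j + 1) (zz G R j AA) t0 c g) {t : ℝ}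
    (ht : t ∈ Icc t0 c) : 0 < g t :=
  lt_of_lt_of_le (mul_pos (Real.exp_pos _) (H.bh_pos _)) ((S.sc H hg).floor t ht)

lemma sd_Fs_nonneg {t : ℝ} (ht : t ∈ Icc t0 c) :
    0 ≤ R.Fs G (j + 1) (zz G R j AA) (R.aa G (j + 1) t) := by
  have h1 := S.sd_zz_pos H
  have h2 := H.Yq_pos (j + 1) (S.aa_bounds H ht).1 G.La
  have h3 := H.cf_lo
  unfold Raw.Fs
  positivity

lemma sd_norm_pB {t : ℝ} (ht : t ∈ Icc t0 c) : ‖R.pB G (j + 1) t‖ ≤ 2 / G.N (j + 1) := by
  have ha := (S.aa_bounds H ht).1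
  have hb := H.bh_pos (j + 1)
  have hu := H.un_pos (j + 1)
  have hN := G.N_pos (j + 1)
  have hO := H.Om_lo
  have h1 : ‖R.B G (j + 1) t‖ ≤ R.Om * (2 * (R.aa G (j + 1) t * R.un G (j + 1))) := by
    refine H.norm_comb_le (j + 1) fun o => ?_
    have e := (S.cur H t ht).clb o
    have e2 := norm_le_norm_sub_add (R.b (j + 1) o t)
      (((R.aa G (j + 1) t * R.un G (j + 1) : ℝ) : ℂ) • G.φ (j + 1))
    rw [norm_smul, G.norm_φ, Complex.norm_real, Real.norm_of_nonneg (by positivity)] at e2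
    have : 0 < R.aa G (j + 1) t * R.un G (j + 1) := by positivity
    linarith
  have h2 : R.un G (j + 1) * (R.Om * G.N (j + 1)) ≤ R.bh G (j + 1) := by
    rw [← H.un_mul (j + 1)]
    gcongr
    exact le_l1_ph _
  rw [H.B_eq ha, norm_smul, Complex.norm_real, Real.norm_of_nonneg (by positivity)] at h1
  rw [le_div_iff₀ hN]
  have h3 : R.aa G (j + 1) t * (R.bh G (j + 1) * (‖R.pB G (j + 1) t‖ * G.N (j + 1))) ≤
      R.aa G (j + 1) t * (R.bh G (j + 1) * 2) := by
    have := mul_le_mul_of_nonneg_right h1 hN.le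
    nlinarith
  exact le_of_mul_le_mul_left (le_of_mul_le_mul_left h3 ha) hb

theorem sd_lad {g : ℝ → ℝ} (hg : Cmp G R (j + 1) (zz G R j AA) t0 c g) :
    Lad G.t (10 ^ 5 / G.t ^ 4) (G.D (j + 1)) (G.N (j + 1)) (G.ell (j + 1)) t0 c G.La (G.rB (j + 1))
      (G.ry (j + 1)) (G.mv (j + 1)) (R.pB G (j + 1)) (R.y (j + 1))
      (fun t => R.bh G (j + 1) * R.aa G (j + 1) t) (fun t => Real.exp (-(G.t ^ 21 / 3)) * (20 * g t))
      (fun i => R.cy i * G.lam (j + 1)) (fun i t => R.Yq G (j + 1) (R.aa G (j + 1) t) i)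
      (R.vy (j + 1)) := by
  have hT := G.t_pos
  have hl := G.lam_pos (j + 1)
  have hb := H.bh_pos (j + 1)
  have hN := G.N_pos (j + 1)
  have hcy : ∀ i, 0 < R.cy i := fun i => lt_of_lt_of_le (by norm_num) (H.cy_lo i)
  refine
    { hT := G.t_big
      hL := G.La_eq.le
      h0 := S.st.t0
      D0 := G.D_pos _
      N0 := hN
      Nn_le := G.Nn_le_of_le_n fun i => ?_
      hl := ?_
      drv := fun t ht => (S.cur H t ht).drv
      β0 := fun t ht => mul_pos hb (S.aa_bounds H ht).1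
      cf0 := fun i => mul_pos (hcy i) hl
      small := fun i t ht => ?_
      Y0 := fun t => R.Yq_zero G _ _
      Ys := fun i t => R.Yq_succ G _ _ i
      dY := fun i hi t ht => ?_
      dX := fun t ht => ?_
      y0 := fun t ht => ?_
      ny0 := fun t ht => S.sd_norm_pB H ht
      sp := fun i t => H.spy _ i t
      lay := fun i => H.layy _ i
      init := fun i hi => ?_
      eq := fun i hi t ht => ?_ }
  · have h1 := G.sd_ten_n (j + 1)
    have h2 := G.rB_le_n (j + 1) i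
    simp only [Geo.ry]
    omega
  · rw [G.sd_expD, Geo.ell]
    gcongr
    have := G.sd_gap
    have : 0 < G.t ^ 80 := by positivity
    linarith
  · refine le_trans ?_ (G.sd_pow_D (k := 53) (by norm_num) (j + 1))
    obtain ⟨a0, a1⟩ := S.aa_bounds H ht
    have h1 := H.bh_hi (j + 1)
    have h2 := H.cy_hi i
    have h3 := hcy i
    calc R.cy i * G.lam (j + 1) * (R.bh G (j + 1) * R.aa G (j + 1) t)
        ≤ 1 * G.lam (j + 1) * (R.bh G (j + 1) * 10 ^ 48) := by
          gcongr; linarith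
      _ ≤ G.t ^ 53 * G.lam (j + 1) ^ 2 := by nlinarith
  · obtain ⟨a0, a1⟩ := S.aa_bounds H ht
    obtain ⟨D, hD, D1, D2⟩ := (S.cur H t ht).grow
    have hd := G.d_pos (j + 1)
    have g1 := S.g0_lo
    have g2 := S.g0_hi
    have hY := H.Yq_pos (j + 1) one_pos i
    have hD0 : 0 ≤ D := le_trans (by have : 0 < g0 := by linarith
                                     positivity) D1
    refine ⟨R.Yq G (j + 1) 1 i * (((i + 1 : ℕ) : ℝ) * R.aa G (j + 1) t ^ i * D), ?_,
      by positivity, ?_⟩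
    · have e : (fun t => R.Yq G (j + 1) (R.aa G (j + 1) t) i) =
          fun t => R.Yq G (j + 1) 1 i * R.aa G (j + 1) t ^ (i + 1) :=
        funext fun t => R.Yq_eq G _ _ i
      show HD (fun t => R.Yq G (j + 1) (R.aa G (j + 1) t) i) _ t
      rw [e]
      exact (hD.pow (i + 1)).const_mul _
    · show _ ≤ _ * R.Yq G (j + 1) (R.aa G (j + 1) t) i
      rw [R.Yq_eq G (j + 1) (R.aa G (j + 1) t) i]
      have hi' : ((i + 1 : ℕ) : ℝ) ≤ 2 * G.t ^ 21 := by
        have : (i : ℝ) ≤ G.t ^ 21 := by rw [← G.La_eq]; exact_mod_cast hi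
        have := one_le_pow₀ (n := 21) G.one_le_t
        push_cast; linarith
      have h1 : D ≤ 20 * G.lam (j + 1) ^ 2 * R.aa G (j + 1) t := by
        have : G.d (j + 1) = 2 * G.lam (j + 1) ^ 2 := rfl
        nlinarith
      have h2 := G.sd_pow_D (k := 22) (by norm_num) (j + 1)
      have h3 := G.pow_lt (show 21 < 22 by norm_num)
      calc R.Yq G (j + 1) 1 i * (((i + 1 : ℕ) : ℝ) * R.aa G (j + 1) t ^ i * D)
          ≤ R.Yq G (j + 1) 1 i * ((2 * G.t ^ 21) * R.aa G (j + 1) t ^ i *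
            (20 * G.lam (j + 1) ^ 2 * R.aa G (j + 1) t)) := by gcongr
        _ = (40 * G.t ^ 21 * G.lam (j + 1) ^ 2) *
            (R.Yq G (j + 1) 1 i * R.aa G (j + 1) t ^ (i + 1)) := by ring
        _ ≤ _ := by
          refine mul_le_mul_of_nonneg_right (le_trans ?_ h2) (by positivity)
          gcongr
          have : 0 < G.t ^ 21 := by positivity
          linarith
  · have g1 := S.sd_g_pos H hg ht
    refine ⟨by positivity, _, ((hg.ode t ht).const_mul 20).const_mul _, ?_⟩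
    have a0 := (S.aa_bounds H ht).1
    have F0 := S.sd_Fs_nonneg H ht
    have hd := G.d_pos (j + 1 + 1)
    have h1 : G.d (j + 1 + 1) ≤ G.D (j + 1) / 10 := by
      have h2 := G.sd_pow_D (k := 43) (by norm_num) (j + 1)
      have h3 := G.pow_lt (show 42 < 43 by norm_num)
      have h4 : Real.exp (-G.t ^ 19) ≤ 1 := Real.exp_le_one_iff.mpr (by
        have : 0 < G.t ^ 19 := by positivity
        linarith)
      have h5 := G.D_pos (j + 1)
      have h6 : 0 < G.t ^ 42 := by positivity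
      rw [G.d_succ, Geo.d]
      have h7 : 20 * G.t ^ 42 * G.lam (j + 1) ^ 2 ≤ G.t ^ 43 * G.lam (j + 1) ^ 2 := by
        gcongr; linarith
      nlinarith
    have h2 : -(G.D (j + 1) / 10 * g t) ≤
        G.d (j + 1 + 1) * (R.aa G (j + 1) t - 1) * g t +
          R.Fs G (j + 1) (zz G R j AA) (R.aa G (j + 1) t) := by
      have : 0 ≤ G.d (j + 1 + 1) * R.aa G (j + 1) t * g t := by positivity
      nlinarith
    have h3 := Real.exp_pos (-(G.t ^ 21 / 3))
    nlinarith
  · show R.y (j + 1) 0 t = _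
    rw [H.y0, Raw.A, H.B_eq (S.aa_bounds H ht).1, tau_smul]
  · show _ ≤ Real.exp (-(G.t ^ 21 / 3)) * (20 * g t0) / G.N (j + 1)
    rw [le_div_iff₀ hN, hg.init]
    have h1 := S.st.upy (j + 1) le_rfl
    have h2 := R.y_le_ch G (j + 1) (i := i + 1) (by omega) (by omega) t0
    have h3 := R.ch_nonneg G (j + 1) t0
    have h4 : G.N (j + 1) * R.ch G (j + 1) t0 ≤ R.nc G (j + 1) t0 := by
      unfold Raw.nc
      gcongr
      exact le_mul_of_one_le_left h3 G.sd_one_le_Wc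
    have h5 : G.θ ^ (j + 1 - (j + 1) + 1) * G.xs ≤ 1 :=
      mul_le_one₀ (pow_le_one₀ G.θ_pos.le G.sd_θ_le) G.xs_pos.le G.sd_xs_le
    have h6 := H.bh_mono (show j + 1 ≤ j + 1 + 1 by omega)
    have h7 : 1 ≤ Real.exp (-(G.t ^ 21 / 3)) * Real.exp (G.t ^ 22) := by
      rw [← Real.exp_add]
      refine Real.one_le_exp ?_
      have := G.pow_le (show 21 ≤ 22 by norm_num)
      have : 0 < G.t ^ 21 := by positivity
      linarith
    have h8 := H.bh_pos (j + 1 + 1)
    calc ‖R.y (j + 1) (i + 1) t0‖ * G.N (j + 1) ≤ G.N (j + 1) * R.ch G (j + 1) t0 := by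
          rw [mul_comm]; gcongr
      _ ≤ 20 * (G.θ ^ (j + 1 - (j + 1) + 1) * G.xs) * R.bh G (j + 1) := by linarith
      _ ≤ 20 * 1 * R.bh G (j + 1 + 1) := by gcongr
      _ ≤ _ := by nlinarith
  · have t00 : 0 ≤ t := S.st.t0.trans ht.1
    obtain ⟨r, hr, hd⟩ := H.eqY (j + 1) i t hi t00
    refine ⟨r, hr.trans (((S.upp H hg t ht).ey i hi).trans ?_), ?_⟩
    · have g1 := S.sd_g_pos H hg ht
      have h1 : G.t ^ 110 ≤ Real.exp (G.t ^ 21 / 2) * Real.exp (-(G.t ^ 21 / 3)) := by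
        rw [← Real.exp_add]
        refine G.sd_pow_exp (by norm_num) ?_
        have := G.sd_t_le (show 1 ≤ 21 by norm_num)
        linarith
      have h2 : G.t ^ 110 * G.lam (j + 1) ^ 2 * (g t / G.N (j + 1)) ≤
          G.D (j + 1) / 10 * (Real.exp (-(G.t ^ 21 / 3)) * (20 * g t) / G.N (j + 1)) := by
        calc _ ≤ (2 * (Real.exp (G.t ^ 21 / 2) * Real.exp (-(G.t ^ 21 / 3)))) *
            G.lam (j + 1) ^ 2 * (g t / G.N (j + 1)) := by
              gcongr
              have : 0 < G.t ^ 110 := by positivity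
              linarith
          _ = _ := by rw [Geo.D]; ring
      linarith
    · have e : ((R.cy (i + 1) * G.lam (j + 1) : ℝ) : ℂ) •
          pj (G.ry (j + 1)) (R.B G (j + 1) t * R.y (j + 1) i t) =
          ((R.cy (i + 1) * G.lam (j + 1) * (R.bh G (j + 1) * R.aa G (j + 1) t) : ℝ) : ℂ) •
            pj (G.ry (j + 1)) (R.pB G (j + 1) t * R.y (j + 1) i t) := by
        rw [H.B_eq (S.aa_bounds H ht).1, smul_mul_assoc, map_smul, smul_smul, ← Complex.ofReal_mul]
      rw [e] at hd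
      exact hd

end Run

end

end Pool.Agent.Work.MP_6bf1e5_an.Ell
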