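import Pool.Agent.Work.MP_6bf1e5_an.Ell.SeedA

/-!
Weights, corner frequencies and the low modes which carry the seed.
-/

open Set Complex Filter Topology
open scoped InnerProductSpace ComplexConjugate
open Pool.Agent.Work.MP_6bf1e5_an.B (Z3 R3)
open Pool.Agent.Work.MP_6bf1e5_an.Dec

namespace Pool.Agent.Work.MP_6bf1e5_an.Ell

noncomputable section

namespace Geo

variable (G : Geo)

lemma sd_n_rB (j : ℕ) (i : Fin 3) : (G.n j : ℝ) ≤ G.t ^ 4 * G.rB j i := by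
  have h1 : (G.n j : ℝ) ≤ G.t ^ 4 * G.n j :=
    le_mul_of_one_le_left (Nat.cast_nonneg _) (one_le_pow₀ G.one_le_t)
  have h2 : (G.n j : ℝ) ≤ G.t ^ 4 * G.rB j 0 := by
    simp only [rB, n, La, t, Matrix.cons_val_zero]
    push_cast
    exact le_of_eq (by ring)
  fin_cases i
  exacts [h2, h1, h1]

lemma sd_n_rd (j : ℕ) (i : Fin 3) : (G.n j : ℝ) ≤ G.t ^ 4 * G.rd j i := by
  fin_cases i
  exacts [G.sd_n_rB j 2, G.sd_n_rB j 0, G.sd_n_rB j 1]

lemma sd_w_rd (j : ℕ) (i : Fin 3) : G.t ^ 4 * G.w j i = G.rd j i := by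
  fin_cases i <;> simp [rd, rB, rot3, n, w, La, t] <;> ring

lemma sd_rot_mv (j : ℕ) (i : Fin 3) : rot3 (G.mv j) i ≤ 1 / 10 ^ 25 * G.rd j i := by
  have hι : G.ι ≤ 1 / 10 ^ 30 := by
    have h1 := G.pow_lt (show 0 < 10 by norm_num)
    have h2 : 0 < G.t ^ 10 := pow_pos G.t_pos _
    rw [ι, ← div_eq_mul_inv, div_le_div_iff₀ h2 (by positivity)]
    linarith
  have key : ∀ k, G.mv j k ≤ 1 / 10 ^ 25 * G.rB j k := fun k => by
    have h1 : (G.w j k : ℝ) ≤ G.rB j k := by exact_mod_cast G.w_le_rB j k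
    have h2 : (0 : ℝ) ≤ G.rB j k := Nat.cast_nonneg _
    unfold mv
    nlinarith
  fin_cases i
  exacts [key 2, key 0, key 1]

lemma sd_rd_pos (j : ℕ) (i : Fin 3) : (0 : ℝ) < G.rd j i := by
  exact_mod_cast G.one_le_rd j i

/-- Products of a frequency of size `s / rd` with the other scales. -/
lemma sd_scale (j : ℕ) (a : Fin 3) {v s : ℝ} (hv : 0 ≤ v) (h : v * G.rd j a ≤ s) :
    v * G.n j ≤ G.t ^ 4 * s ∧ v * G.rB j a ≤ G.t ^ 4 * s ∧
      G.t ^ 6 * (v * G.mv j a) ≤ (G.t ^ 2 / 10 ^ 26 + 10 ^ 5) * s := by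
  have hT := G.t_pos
  have h1 : v * G.n j ≤ G.t ^ 4 * s := by
    have := mul_le_mul_of_nonneg_left (G.sd_n_rd j a) hv
    have := mul_le_mul_of_nonneg_left h (pow_pos hT 4).le
    linarith
  have h2 : v * G.rB j a ≤ G.t ^ 4 * s :=
    le_trans (mul_le_mul_of_nonneg_left (by exact_mod_cast G.rB_le_n j a) hv) h1
  refine ⟨h1, h2, ?_⟩
  have s0 : 0 ≤ s := le_trans (mul_nonneg hv (Nat.cast_nonneg _)) h
  have e : G.t ^ 6 * (v * G.mv j a) = G.t ^ 2 / 10 ^ 26 * (v * (G.t ^ 4 * G.w j a)) +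
      2 * 10 ^ 4 * ((G.t ^ 4)⁻¹ * (v * G.rB j a)) := by
    unfold mv ι; field_simp
  have h3 : (G.t ^ 4)⁻¹ * (v * G.rB j a) ≤ s := by
    rw [inv_mul_le_iff₀ (pow_pos hT 4)]; exact h2
  rw [e, G.sd_w_rd]
  have := mul_le_mul_of_nonneg_left h (show 0 ≤ G.t ^ 2 / 10 ^ 26 by positivity)
  linarith

/-- The admissible weights. -/
lemma sd_wt_hyp (j : ℕ) (a : Fin 3) {v : ℝ} (hv : 0 ≤ v)
    (h : v * G.rd j a ≤ 1 / (3000 * G.t ^ 16)) :
    v * G.n j ≤ 1 / 3000 ∧ v * G.rd j a ≤ 1 / 4 ∧ v * G.rB j a ≤ (G.t ^ 12)⁻¹ ∧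
      v * rot3 (G.rB j) a ≤ (G.t ^ 12)⁻¹ ∧ G.t ^ 21 * (v * G.mv j a) ≤ G.t / 10 ^ 21 ∧
      v * G.ry j a ≤ G.t ^ 10 := by
  have hT := G.t_pos
  have h1 := G.one_le_t
  obtain ⟨a1, a2, a3⟩ := G.sd_scale j a hv h
  have e1 : G.t ^ 4 * (1 / (3000 * G.t ^ 16)) = (G.t ^ 12)⁻¹ / 3000 := by field_simp
  have i12 : (G.t ^ 12)⁻¹ ≤ 1 := inv_le_one_of_one_le₀ (one_le_pow₀ h1)
  have p12 : 0 < (G.t ^ 12)⁻¹ := by positivity
  have s4 : 1 / (3000 * G.t ^ 16) ≤ G.t ^ 4 * (1 / (3000 * G.t ^ 16)) :=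
    le_mul_of_one_le_left (by positivity) (one_le_pow₀ h1)
  rw [e1] at a1 a2 s4
  refine ⟨by linarith, by linarith, by linarith, ?_, ?_, ?_⟩
  · show v * G.rd j a ≤ _
    linarith
  · have e2 : G.t ^ 21 * (v * G.mv j a) = G.t ^ 15 * (G.t ^ 6 * (v * G.mv j a)) := by ring
    have e3 : G.t ^ 15 * ((G.t ^ 2 / 10 ^ 26 + 10 ^ 5) * (1 / (3000 * G.t ^ 16))) =
        G.t / (3000 * 10 ^ 26) + 10 ^ 5 / 3000 * G.t⁻¹ := by field_simp
    have h2 := mul_le_mul_of_nonneg_left a3 (pow_pos hT 15).le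
    have h3 : G.t⁻¹ ≤ 1 := inv_le_one_of_one_le₀ h1
    have h4 := G.t_big
    rw [e2]; rw [e3] at h2
    linarith
  · have e2 := G.ry_add_one j a
    have h2 : v * G.ry j a ≤ G.t ^ 21 * (v * G.n j) := by
      have : (G.ry j a : ℝ) ≤ G.t ^ 21 * G.n j := by
        have : 0 ≤ G.t ^ 21 * G.n j := by positivity
        linarith
      nlinarith
    have h3 := mul_le_mul_of_nonneg_left a1 (pow_pos hT 21).le
    have e3 : G.t ^ 21 * ((G.t ^ 12)⁻¹ / 3000) = G.t ^ 9 / 3000 := by field_simp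
    have h4 := G.pow_le (show 9 ≤ 10 by norm_num)
    have h5 : 0 < G.t ^ 9 := by positivity
    linarith

/-- The standard weights. -/
def sdu (j : ℕ) (a : Fin 3) : ℝ := 1 / (3000 * G.t ^ 16) / G.rd j a

lemma sdu_pos (j : ℕ) (a : Fin 3) : 0 < G.sdu j a := by
  have := G.t_pos; have := G.sd_rd_pos j a; unfold sdu; positivity

lemma sdu_mul (j : ℕ) (a : Fin 3) : G.sdu j a * G.rd j a = 1 / (3000 * G.t ^ 16) :=
  div_mul_cancel₀ _ (G.sd_rd_pos j a).ne'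

lemma sdu_rb (j : ℕ) (a : Fin 3) : G.sdu j a * (G.rb (j + 1) a + 1) = G.t / 3000 := by
  have := G.t_pos
  rw [G.rb_succ, mul_left_comm, sdu_mul]; field_simp

lemma sd_Wts (j : ℕ) : Lad.Wts G.t (G.rB j) (G.ry j) (G.mv j) (G.sdu j) := fun a => by
  have hT := G.t_pos
  obtain ⟨-, -, a3, a4, a5, a6⟩ := G.sd_wt_hyp j a (G.sdu_pos j a).le (G.sdu_mul j a).le
  refine ⟨(G.sdu_pos j a).le, a3, a4, a5, a6, ?_⟩
  rw [G.ry_add_one]
  have h1 : (G.rd j a : ℝ) ≤ G.n j := by exact_mod_cast G.rd_le_n j a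
  have h2 := mul_le_mul_of_nonneg_left h1 (G.sdu_pos j a).le
  rw [sdu_mul] at h2
  have h3 := mul_le_mul_of_nonneg_left h2 (pow_pos hT 21).le
  have e : G.t ^ 21 * (1 / (3000 * G.t ^ 16)) = G.t ^ 5 / 3000 := by field_simp
  have : 0 < G.t ^ 5 := by positivity
  linarith

/-- The corner frequencies. -/
lemma sd_corner {j : ℕ} {x : R3} (hx : ∀ i, |x i| = th (G.rb (j + 1) i)) (i : Fin 3) :
    |x i| * G.rd j i ≤ 2 / G.t ^ 17 := by
  have hT := G.t_pos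
  have h1 := th_mul (G.rb (j + 1) i)
  rw [G.rb_succ, ← hx] at h1
  rw [le_div_iff₀ (by positivity)]
  have := Real.pi_le_four
  linarith

end Geo

/-! The rotations -/

lemma sp_rot (o : Fin 4) {k : ℕ} {f : V} (hf : Sp (fun _ => k) f) : Sp (fun _ => k) (rot o f) := by
  have ht : ∀ {g : V}, Sp (fun _ => k) g → Sp (fun _ => k) (tau g) := fun hg =>
    hg.tau.mono fun i => by fin_cases i <;> simp [rot3]
  fin_cases o
  exacts [ht hf, (ht hf).dag, ht (ht hf), (ht (ht hf)).dag]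

lemma sd_l1_rot (o : Fin 4) (f : V) : l1 (rot o f) = l1 f := by
  fin_cases o <;> simp [rot, l1_tau, l1_dag]

lemma sd_rot_add (o : Fin 4) (f g : V) : rot o (f + g) = rot o f + rot o g := by
  fin_cases o <;> simp [rot, tau_add]

lemma sd_ev_zero_rot (o : Fin 4) {f : V} (hf : Rl f) : ev 0 (rot o f) = ev 0 f := by
  have e : conj (ev 0 f) = ev 0 f := by rw [hf.ev_zero]; simp
  fin_cases o <;> simp [rot, ev_zero_tau, ev_dag, e]

lemma sd_l1_cmb {m : Fin 4 → ℝ} {g : Fin 4 → V} {c : ℝ} (hg : ∀ o, l1 (g o) ≤ c) :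
    l1 (cmb m g) ≤ (∑ o, |m o|) * c := by
  rw [cmb, Finset.sum_mul]
  refine (l1_sum_le _ _).trans (Finset.sum_le_sum fun o _ => ?_)
  rw [l1_smul, Complex.norm_real, Real.norm_eq_abs]
  exact mul_le_mul_of_nonneg_left (hg o) (abs_nonneg _)

lemma sd_ev_cmb {m : Fin 4 → ℝ} (m1 : ∑ o, m o = 1) {g : Fin 4 → V} {x : R3} {b : ℂ} {c : ℝ}
    (hg : ∀ o, ‖ev x (g o) - b‖ ≤ c) : ‖ev x (cmb m g) - b‖ ≤ (∑ o, |m o|) * c := by
  have e : ev x (cmb m g) - b = ∑ o, (m o : ℂ) * (ev x (g o) - b) := by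
    have : ∑ o, (m o : ℂ) = 1 := by exact_mod_cast m1
    simp only [cmb, map_sum, map_smul, smul_eq_mul, mul_sub, Finset.sum_sub_distrib,
      ← Finset.sum_mul, this, one_mul]
  rw [e, Finset.sum_mul]
  refine (norm_sum_le _ _).trans (Finset.sum_le_sum fun o _ => ?_)
  rw [norm_mul, Complex.norm_real, Real.norm_eq_abs]
  exact mul_le_mul_of_nonneg_left (hg o) (abs_nonneg _)

variable {G : Geo} {R : Raw} {j : ℕ} {t0 c g0 : ℝ} {AA : ℕ → ℝ}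

lemma sd_cmb_f (G : Geo) (R : Raw) (J : ℕ) (m : Fin 4 → ℝ) (t : ℝ) :
    (cmb m fun o => R.f G J o t) = ((R.cf * (2 * Real.pi * G.n (J + 1)) : ℝ) : ℂ) •
      pj (G.rc (J + 1)) (R.y J G.La t * cmb m fun o => R.Z G (J + 1) o t) := by
  simp only [cmb, Raw.f, Finset.mul_sum, map_sum, Finset.smul_sum, mul_smul_comm, map_smul]
  exact Finset.sum_congr rfl fun o _ => smul_comm _ _ _

namespace Run

variable (H : IsNet G R) (S : Run G R j AA t0 c g0)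

include H S

omit H in
lemma sd_idx : j + 2 - G.kk < j + 1 ∧ j + 2 - G.kk - 1 + G.kk = j + 1 ∧ G.kk ≤ j + 2 := by
  have h1 := S.st.kJ
  have h2 := G.ten_le_kk
  omega

omit H in
lemma sd_n_low : G.La * G.n (j + 2 - G.kk) ≤ G.n (j + 1) := by
  rw [← G.n_succ]
  have h := S.sd_idx.1
  have hL : 0 < G.La := lt_of_lt_of_le (by norm_num) G.ten_le_La
  exact Nat.mul_le_mul_left _ (Nat.pow_le_pow_right hL h)

lemma sd_sp_Z (o : Fin 4) (t : ℝ) : Sp (fun _ => 2 * G.n (j + 1)) (R.Z G (j + 2) o t) := by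
  obtain ⟨i1, i2, i3⟩ := S.sd_idx
  have h1 := S.sd_n_low
  have h2 := Nat.mul_le_mul_right (G.n (j + 2 - G.kk)) G.ten_le_La
  rw [Raw.Z, if_pos i3]
  refine sp_rot o (((H.spB _ t).mono fun i => ?_).add (Sp.smul ?_ _))
  · have := G.rB_le_n (j + 2 - G.kk) i
    omega
  · have h3 : Sp (fun _ => G.n (j + 1)) (sh ![0, G.P (j + 2 - G.kk - 1), 0]) := by
      refine sp_sh (mem_bx.mpr fun i => ?_)
      rw [G.P_eq_n, i2]
      fin_cases i <;> simp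
    refine (h3.mul (H.spC _ t)).mono fun i => ?_
    have := G.rB_le_n (j + 2 - G.kk) i
    simp only [Pi.add_apply]
    omega

lemma sd_sp_Zm (m : Fin 4 → ℝ) (t : ℝ) :
    Sp (fun _ => 2 * G.n (j + 1)) (cmb m fun o => R.Z G (j + 2) o t) :=
  Sp.sum _ fun o _ => (S.sd_sp_Z H o t).smul _

lemma sd_l1_Zm {m : Fin 4 → ℝ} (m2 : ∑ o, |m o| ≤ 3 * G.t ^ 10) {t : ℝ} (ht : t ∈ Icc t0 c) :
    l1 (cmb m fun o => R.Z G (j + 2) o t) ≤ 4 * G.t ^ 10 * zz G R j AA := by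
  have h1 := S.sd_zz_pos H
  have h2 : 0 < G.t ^ 10 := pow_pos G.t_pos _
  refine (sd_l1_cmb fun o => S.l1_Z_le H ht o).trans ?_
  have := mul_le_mul_of_nonneg_right m2 h1.le
  have : 0 < G.t ^ 10 * zz G R j AA := by positivity
  linarith

/-- At low frequencies the symbol of the low modes is almost constant. -/
lemma sd_ev_Zm {m : Fin 4 → ℝ} (m1 : ∑ o, m o = 1) (m2 : ∑ o, |m o| ≤ 3 * G.t ^ 10) {t : ℝ}
    (ht : t ∈ Icc t0 c) {x : R3} (hx : ∀ i, |x i| * G.n (j + 1) ≤ G.t) :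
    ‖ev x (cmb m fun o => R.Z G (j + 2) o t) - (zz G R j AA : ℂ)‖ ≤ zz G R j AA / 1000 := by
  obtain ⟨i1, i2, i3⟩ := S.sd_idx
  have hT := G.t_pos
  set i0 := j + 2 - G.kk with hi0
  have hb := H.bh_pos i0
  obtain ⟨o1, o2, -⟩ := (S.bnd t ht).old H i1
  have hA := (S.st.oldA i0 i1).1
  have hn : ∀ i, G.t ^ 20 * (G.n i0 * |x i|) ≤ 1 := fun i => by
    have h1 : G.t ^ 21 * G.n i0 ≤ G.n (j + 1) := by
      rw [← G.La_eq]; exact_mod_cast S.sd_n_low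
    have h2 := mul_le_mul_of_nonneg_left h1 (abs_nonneg (x i))
    have h3 : G.t * (G.t ^ 20 * (G.n i0 * |x i|)) ≤ G.t * 1 := by
      have := hx i
      linarith
    exact le_of_mul_le_mul_left h3 hT
  have hC : l1 (R.Cc G i0 t) ≤ 400 * R.bh G i0 := by
    have := H.l1_C_le i0 t
    have := ((S.bnd t ht).cr0 H).nl i0
    linarith
  have key : ∀ o, ‖ev x (R.Z G (j + 2) o t) - ev 0 (R.B G i0 t)‖ ≤
      (G.t ^ 10)⁻¹ * (R.bh G i0 / 10 ^ 4) := fun o => by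
    rw [Raw.Z, if_pos i3, sd_rot_add, map_add, ← sd_ev_zero_rot o (H.rlB i0 t), add_sub_right_comm]
    have s1 : Sp (fun _ => 2 * G.n i0) (rot o (R.B G i0 t)) :=
      sp_rot o ((H.spB i0 t).mono fun i => Nat.mul_le_mul_left _ (G.rB_le_n i0 i))
    have e1 := s1.norm_ev_sub_le x
    rw [sd_l1_rot] at e1
    have e2 := norm_ev_le x (rot o ((R.cq o : ℂ) • (sh ![0, G.P (i0 - 1), 0] * R.Cc G i0 t)))
    rw [sd_l1_rot, l1_smul, l1_sh_mul, Complex.norm_real, Real.norm_eq_abs] at e2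
    have e3 : G.t ^ 20 * ∑ i, ((2 * G.n i0 : ℕ) : ℝ) * |x i| ≤ 6 := by
      have := hn 0; have := hn 1; have := hn 2
      rw [Fin.sum_univ_three]; push_cast; linarith
    have e4 := H.cq_le' o
    have e5 := G.pow_lt (show 10 < 20 by norm_num)
    have e6 : 0 ≤ ∑ i, ((2 * G.n i0 : ℕ) : ℝ) * |x i| := by positivity
    have e7 : G.t ^ 10 * ∑ i, ((2 * G.n i0 : ℕ) : ℝ) * |x i| ≤ 1 / 10 ^ 10 := by
      have := mul_le_mul_of_nonneg_right e5 e6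
      linarith
    refine (norm_add_le _ _).trans ?_
    rw [le_inv_mul_iff₀ (pow_pos hT 10)]
    have e8 : G.t ^ 10 * (l1 (R.B G i0 t) * ∑ i, ((2 * G.n i0 : ℕ) : ℝ) * |x i|) ≤
        11 * R.bh G i0 * (1 / 10 ^ 10) := by
      rw [mul_left_comm]
      gcongr
    have e9 : G.t ^ 10 * (|R.cq o| * l1 (R.Cc G i0 t)) ≤ 1 / 10 ^ 50 * (400 * R.bh G i0) := by
      rw [← mul_assoc]
      have := l1_nonneg (R.Cc G i0 t)
      gcongr
      linarith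
    have e10 := mul_le_mul_of_nonneg_left (add_le_add e1 e2) (pow_pos hT 10).le
    linarith
  have k1 := (sd_ev_cmb m1 key).trans (mul_le_mul_of_nonneg_right m2 (by positivity))
  have k2 : 3 * G.t ^ 10 * ((G.t ^ 10)⁻¹ * (R.bh G i0 / 10 ^ 4)) = 3 * (R.bh G i0 / 10 ^ 4) := by
    field_simp
  have k3 : ‖ev 0 (R.B G i0 t) - (zz G R j AA : ℂ)‖ ≤ R.bh G i0 * (1 / 10 ^ 19) := by
    rw [H.ev_zero_B, ← Complex.ofReal_sub, Complex.norm_real, Real.norm_eq_abs, zz, ← hi0,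
      mul_comm (AA i0), ← mul_sub, abs_mul, abs_of_pos hb]
    gcongr
  have k4 := norm_sub_le_norm_sub_add_norm_sub (ev x (cmb m fun o => R.Z G (j + 2) o t))
    (ev 0 (R.B G i0 t)) (zz G R j AA : ℂ)
  have k5 : 2 * R.bh G i0 ≤ zz G R j AA := by
    rw [zz, ← hi0]; gcongr
  linarith

end Run

end

end Pool.Agent.Work.MP_6bf1e5_an.Ell
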