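import Pool.Agent.Work.MP_6bf1e5_an.Ell.SeedB

/-!
Weighted bounds and tails of the seed.
-/

open Set Complex Filter Topology
open scoped InnerProductSpace ComplexConjugate
open Pool.Agent.Work.MP_6bf1e5_an.B (Z3 R3)
open Pool.Agent.Work.MP_6bf1e5_an.Dec

namespace Pool.Agent.Work.MP_6bf1e5_an.Ell

noncomputable section

namespace Geo

variable (G : Geo)

/-- Tails beyond the teeth of the next level. -/
lemma sd_tail (J : ℕ) {g : V} {s n : N3} {W : ℝ} (hW : 0 ≤ W) (hg : Sp s g)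
    (hs : ∀ i, s i ≤ G.n (J + 1)) (hn : ∀ i, G.rb (J + 1) i ≤ n i)
    (hw : ∀ (i : Fin 3) (u : ℝ), |u| * G.rd J i ≤ 1 / (3000 * G.t ^ 16) →
      ‖wt (Pi.single i u) g‖ ≤ Real.exp (G.t / 10 ^ 19) * W / G.N J) :
    l1 (g - pj n g) ≤ W / 1000 := by
  have hT := G.t_pos
  have hN := G.N_pos J
  have h1 : Sp s (g - pj n g) := hg.sub (hg.mulc _)
  have h2 := norm_tail_le n g fun i => (G.sdu_pos J i).le
  have h3 : ∀ i, Real.exp (-(G.sdu J i * (n i + 1))) *
      (‖wt (Pi.single i (G.sdu J i)) g‖ + ‖wt (Pi.single i (-G.sdu J i)) g‖) ≤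
      Real.exp (-(G.t / 3000)) * (2 * (Real.exp (G.t / 10 ^ 19) * W / G.N J)) := fun i => by
    have a1 := hw i (G.sdu J i) (by rw [abs_of_pos (G.sdu_pos J i), sdu_mul])
    have a2 := hw i (-G.sdu J i) (by rw [abs_neg, abs_of_pos (G.sdu_pos J i), sdu_mul])
    have a3 : G.t / 3000 ≤ G.sdu J i * (n i + 1) := by
      rw [← G.sdu_rb J i]
      have := G.sdu_pos J i
      gcongr
      exact hn i
    gcongr
    linarith
  have h4 := h2.trans (Finset.sum_le_sum fun i _ => h3 i)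
  rw [Finset.sum_const, Finset.card_univ, Fintype.card_fin, nsmul_eq_mul] at h4
  have h5 : G.t ^ 41 * (Real.exp (-(G.t / 3000)) * Real.exp (G.t / 10 ^ 19)) ≤ 1 := by
    have := G.sd_pow_exp (k := 41) (by norm_num) (y := G.t / 3000 - G.t / 10 ^ 19) (by linarith)
    refine (mul_le_mul_of_nonneg_right this (by positivity)).trans (le_of_eq ?_)
    rw [← Real.exp_add, ← Real.exp_add]; simp
  have h6 := G.pow_lt (show 40 < 41 by norm_num)
  have h7 : 0 < Real.exp (-(G.t / 3000)) * Real.exp (G.t / 10 ^ 19) := by positivity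
  calc l1 (g - pj n g) ≤ 3 * Nn s * ‖g - pj n g‖ := h1.l1_le
    _ ≤ 3 * (G.t ^ 40 * G.N J) * (((3 : ℕ) : ℝ) *
        (Real.exp (-(G.t / 3000)) * (2 * (Real.exp (G.t / 10 ^ 19) * W / G.N J)))) := by
      gcongr
      exact G.Nn_le_of_le_n hs
    _ = (18 * G.t ^ 40 * (Real.exp (-(G.t / 3000)) * Real.exp (G.t / 10 ^ 19))) * W := by
      push_cast; field_simp; ring
    _ ≤ 1 / 1000 * W := by
      gcongr
      have : 0 < G.t ^ 40 := by positivity
      nlinarith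
    _ = W / 1000 := by ring

lemma sd_exp4 : 8 * G.t ^ 10 * Real.exp (-G.t ^ 4) ≤ 1 / 1000 := by
  have hT := G.t_pos
  have h1 := G.sd_pow_exp (k := 11) (by norm_num) (y := G.t ^ 4)
    (by have := G.sd_t_le (show 1 ≤ 4 by norm_num); linarith)
  have h2 := G.pow_lt (show 10 < 11 by norm_num)
  have h3 : Real.exp (G.t ^ 4) * Real.exp (-G.t ^ 4) = 1 := by rw [← Real.exp_add]; simp
  have h4 := Real.exp_pos (-G.t ^ 4)
  have : 0 < G.t ^ 10 := by positivity
  nlinarith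

lemma sd_exp4' : Real.exp (-G.t ^ 4) ≤ 1 / 1000 := by
  have h1 := G.sd_exp4
  have h2 := one_le_pow₀ (n := 10) G.one_le_t
  have h4 := Real.exp_pos (-G.t ^ 4)
  nlinarith

lemma sd_supp (J : ℕ) (i : Fin 3) : 2 * G.rd J i + G.rc (J + 1) i ≤ G.n (J + 1) := by
  have h1 := G.rb_succ J i
  have h2 : (G.rd J i : ℝ) ≤ G.n J := by exact_mod_cast G.rd_le_n J i
  have h3 := G.pow_lt (show 17 < 21 by norm_num)
  have h4 := one_le_pow₀ (n := 17) G.one_le_t
  have h5 : (0 : ℝ) ≤ G.n J := Nat.cast_nonneg _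
  have h6 : ((2 * G.rd J i + G.rc (J + 1) i : ℕ) : ℝ) ≤ (G.n (J + 1) : ℕ) := by
    rw [G.n_succ]
    simp only [rc]
    push_cast
    rw [G.La_eq]
    nlinarith
  exact_mod_cast h6

/-- Away from the origin the powers of the symbol of a driver are tiny. -/
lemma sd_far {κ : ℝ} {r : N3} {mv : Fin 3 → ℝ} {p : V} (h : Drv G.t r mv κ p) {x : R3}
    (hx : x ∈ cube) (hr : (G.t ^ 16)⁻¹ ≤ sqr r x) :
    ‖ev x p‖ ≤ 1 - (G.t ^ 16)⁻¹ / (2 * 10 ^ 10) := by
  have h1 := h.far x hx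
  rw [min_eq_left hr] at h1
  have h2 : (G.t ^ 16)⁻¹ ≤ 1 := inv_le_one_of_one_le₀ (one_le_pow₀ G.one_le_t)
  refine (abs_le_of_sq_le_sq' ?_ (by linarith)).2
  linarith [sq_nonneg ((G.t ^ 16)⁻¹ / (2 * 10 ^ 10))]

lemma sd_far_pow : (1 - (G.t ^ 16)⁻¹ / (2 * 10 ^ 10)) ^ G.La ≤ Real.exp (-G.t ^ 4) := by
  have hT := G.t_pos
  have h2 : (G.t ^ 16)⁻¹ ≤ 1 := inv_le_one_of_one_le₀ (one_le_pow₀ G.one_le_t)
  calc _ ≤ Real.exp (-((G.t ^ 16)⁻¹ / (2 * 10 ^ 10))) ^ G.La := by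
        gcongr
        · linarith
        · exact Real.one_sub_le_exp_neg _
    _ = Real.exp (-(G.t ^ 5 / (2 * 10 ^ 10))) := by
        rw [← Real.exp_nat_mul, G.La_eq]; congr 1; field_simp
    _ ≤ _ := by
        have := G.pow_lt (show 4 < 5 by norm_num)
        have : 0 < G.t ^ 4 := by positivity
        gcongr
        linarith

lemma sd_near_box (J : ℕ) {x : R3} (hr : sqr (G.rB J) x ≤ (G.t ^ 16)⁻¹) (i : Fin 3) :
    |x i| * G.n J ≤ G.t := by
  have hT := G.t_pos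
  have h1 : ((G.rB J i : ℝ) * x i) ^ 2 ≤ ((G.t ^ 8)⁻¹) ^ 2 := by
    refine le_trans (Finset.single_le_sum (f := fun i => ((G.rB J i : ℝ) * x i) ^ 2)
      (fun _ _ => sq_nonneg _) (Finset.mem_univ i)) (hr.trans (le_of_eq ?_))
    rw [inv_pow, ← pow_mul]
  have h2 := abs_le_of_sq_le_sq' h1 (by positivity)
  have h3 : |x i| * G.rB J i ≤ (G.t ^ 8)⁻¹ := by
    have := abs_le.mpr h2
    rwa [abs_mul, Nat.abs_cast, mul_comm] at this
  have h4 := mul_le_mul_of_nonneg_left (G.sd_n_rB J i) (abs_nonneg (x i))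
  have h5 := mul_le_mul_of_nonneg_left h3 (pow_pos hT 4).le
  have h6 : G.t ^ 4 * (G.t ^ 8)⁻¹ ≤ 1 := by
    rw [← div_eq_mul_inv, div_le_one (by positivity)]
    exact G.pow_le (by norm_num)
  have := G.one_le_t
  linarith

/-- The symbols of the current driver at the corner frequencies. -/
lemma sd_corner_ev (J : ℕ) {κ : ℝ} {p : V} (h : Drv G.t (G.rB J) (G.mv J) κ p) {x : R3}
    (hx : ∀ i, |x i| = th (G.rb (J + 1) i)) :
    ‖ev x p - 1‖ ≤ (G.t ^ 21)⁻¹ / 1000 ∧ ‖ev x (tau p) - 1‖ ≤ 1 / 1000 := by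
  have hT := G.t_pos
  have hc := G.sd_corner hx
  have i2 : (G.t ^ 2)⁻¹ ≤ 1 / 10 ^ 100 := by
    have := G.pow_lt (show 0 < 2 by norm_num)
    rw [inv_eq_one_div]
    exact one_div_le_one_div_of_le (by positivity) (by linarith)
  constructor
  · have a : ∀ i, G.t ^ 21 * (|x i| * G.mv J i) ≤ 1 / 10 ^ 10 ∧
        G.t ^ 21 * ((G.rB J i : ℝ) * x i) ^ 2 ≤ 1 / 10 ^ 10 := fun i => by
      obtain ⟨-, a2, a3⟩ := G.sd_scale J i (abs_nonneg _) (hc i)
      constructor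
      · have e : G.t ^ 15 * ((G.t ^ 2 / 10 ^ 26 + 10 ^ 5) * (2 / G.t ^ 17)) =
            2 / 10 ^ 26 + 2 * 10 ^ 5 * (G.t ^ 2)⁻¹ := by field_simp
        have := mul_le_mul_of_nonneg_left a3 (pow_pos hT 15).le
        rw [e] at this
        linarith
      · have e0 : ((G.rB J i : ℝ) * x i) ^ 2 = (|x i| * G.rB J i) ^ 2 := by
          rw [mul_pow, mul_pow, sq_abs, mul_comm]
        have e : G.t ^ 21 * (G.t ^ 4 * (2 / G.t ^ 17)) ^ 2 = 4 * (G.t ^ 5)⁻¹ := by
          field_simp; ring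
        have i5 : (G.t ^ 5)⁻¹ ≤ (G.t ^ 2)⁻¹ :=
          inv_anti₀ (by positivity) (G.pow_le (by norm_num))
        rw [e0]
        calc _ ≤ G.t ^ 21 * (G.t ^ 4 * (2 / G.t ^ 17)) ^ 2 := by gcongr
          _ ≤ _ := by rw [e]; linarith
    refine (h.ev_sub_one x).trans ?_
    rw [inv_eq_one_div, div_div, le_div_iff₀ (by positivity), sqr, Fin.sum_univ_three,
      Fin.sum_univ_three]
    have := a 0; have := a 1; have := a 2
    linarith
  · have s : 2 / G.t ^ 17 ≤ 1 / 10 ^ 10 := by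
      have := G.pow_lt (show 0 < 17 by norm_num)
      rw [div_le_div_iff₀ (by positivity) (by positivity)]
      linarith
    have a : ∀ i, |x i| * rot3 (G.mv J) i ≤ 1 / 10 ^ 10 ∧
        ((rot3 (G.rB J) i : ℕ) * x i) ^ 2 ≤ (1 / 10 ^ 10 : ℝ) := fun i => by
      have b := (hc i).trans s
      have b0 : 0 ≤ |x i| * G.rd J i := by positivity
      constructor
      · have := mul_le_mul_of_nonneg_left (G.sd_rot_mv J i) (abs_nonneg (x i))
        linarith
      · have e0 : (((rot3 (G.rB J) i : ℕ) : ℝ) * x i) ^ 2 = (|x i| * G.rd J i) ^ 2 := by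
          rw [mul_pow, mul_pow, sq_abs, mul_comm]; rfl
        rw [e0]
        nlinarith
    refine (h.tau.ev_sub_one x).trans ?_
    rw [sqr, Fin.sum_univ_three, Fin.sum_univ_three]
    have := a 0; have := a 1; have := a 2
    linarith

end Geo

variable {G : Geo} {R : Raw} {j : ℕ} {t0 c g0 : ℝ} {AA : ℕ → ℝ}

namespace Run

variable (H : IsNet G R) (S : Run G R j AA t0 c g0)

include H S

/-- The slack of the ladder is absorbed by the slack of the seed. -/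
lemma sd_slack {y : ℝ} (hy : 0 ≤ y) :
    R.cf * (2 * Real.pi * G.n (j + 2)) * zz G R j AA * (G.t ^ 20 * (Real.exp (3 * G.t ^ 10) *
      (Real.exp (-(G.t ^ 21 / 3)) * (20 * y)))) ≤ Real.exp (-G.t ^ 20) * (G.d (j + 2) * y) := by
  have hT := G.t_pos
  have hl := G.lam_pos (j + 2)
  have hz := S.sd_zz_pos H
  have m1 : 1 ≤ G.m0 := (Real.one_le_exp (by positivity)).trans G.m0_lo
  have h1 : 2 * Real.pi * G.n (j + 2) ≤ G.lam (j + 2) := by
    rw [G.lam_eq]
    exact le_mul_of_one_le_right (by positivity) m1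
  have h2 : zz G R j AA ≤ G.t ^ 53 * G.lam (j + 2) := by
    have := (S.zz_bounds H).2
    have := H.bh_hi (j + 2)
    have := H.bh_pos (j + 2)
    nlinarith
  have h3 : G.t ^ 85 * (Real.exp (3 * G.t ^ 10) * Real.exp (-(G.t ^ 21 / 3))) ≤
      Real.exp (-G.t ^ 20) := by
    have a1 := G.pow_lt (show 20 < 21 by norm_num)
    have a2 := G.pow_le (show 10 ≤ 20 by norm_num)
    have a3 := G.sd_t_le (show 1 ≤ 20 by norm_num)
    have := G.sd_pow_exp (k := 85) (by norm_num) (y := G.t ^ 21 / 3 - 3 * G.t ^ 10 - G.t ^ 20)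
      (by linarith)
    refine (mul_le_mul_of_nonneg_right this (by positivity)).trans (le_of_eq ?_)
    rw [← Real.exp_add, ← Real.exp_add]; congr 1; ring
  have h4 := G.pow_lt (show 84 < 85 by norm_num)
  calc _ ≤ G.t ^ 11 * G.lam (j + 2) * (G.t ^ 53 * G.lam (j + 2)) * (G.t ^ 20 *
        (Real.exp (3 * G.t ^ 10) * (Real.exp (-(G.t ^ 21 / 3)) * (20 * y)))) := by
        gcongr
        exact H.cf_hi
    _ = (10 * G.t ^ 84) * (Real.exp (3 * G.t ^ 10) * Real.exp (-(G.t ^ 21 / 3))) *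
        (G.d (j + 2) * y) := by rw [Geo.d]; ring
    _ ≤ G.t ^ 85 * (Real.exp (3 * G.t ^ 10) * Real.exp (-(G.t ^ 21 / 3))) *
        (G.d (j + 2) * y) := by
        have := G.d_pos (j + 2)
        have : 0 < G.t ^ 84 := by positivity
        gcongr
        linarith
    _ ≤ _ := by
        have := G.d_pos (j + 2)
        gcongr

omit S in
lemma sd_sp_y (t : ℝ) : Sp (G.ry (j + 1)) (R.y (j + 1) G.La t) := by
  have h := H.spy (j + 1) (G.La - 1) t
  have := G.ten_le_La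
  rwa [show G.La - 1 + 1 = G.La by omega] at h

/-- The weighted bound of the product of the last rung and the low modes. -/
lemma sd_wt {g : ℝ → ℝ} (hg : Cmp G R (j + 1) (zz G R j AA) t0 c g) {m : Fin 4 → ℝ}
    (m2 : ∑ o, |m o| ≤ 3 * G.t ^ 10) {t : ℝ} (ht : t ∈ Icc t0 c) (i : Fin 3) {u : ℝ}
    (hu : |u| * G.rd (j + 1) i ≤ 1 / (3000 * G.t ^ 16)) :
    ‖wt (Pi.single i u) (R.y (j + 1) G.La t * cmb m fun o => R.Z G (j + 2) o t)‖ ≤
      Real.exp (G.t / (2 * 10 ^ 19)) * (zz G R j AA *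
        (R.Yq G (j + 1) (R.aa G (j + 1) t) G.La +
          Real.exp (2 * G.t ^ 10) * (Real.exp (-(G.t ^ 21 / 3)) * (20 * g t)))) / G.N (j + 1) := by
  have hT := G.t_pos
  have hN := G.N_pos (j + 1)
  have hz := S.sd_zz_pos H
  have hgt := S.sd_g_pos H hg ht
  have hY := H.Yq_pos (j + 1) (S.aa_bounds H ht).1 G.La
  obtain ⟨a1, -, a3, a4, a5, a6⟩ := G.sd_wt_hyp (j + 1) i (abs_nonneg u) hu
  have h1 := (S.sd_lad H hg).wt_le i a3 a4 a5 a6 G.La le_rfl t ht
  have h2 := (S.sd_sp_Zm H m t).l1_wt_le (Pi.single i u)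
  have h3 : ∑ k, ((2 * G.n (j + 1) : ℕ) : ℝ) * |(Pi.single i u : R3) k| ≤ 1 := by
    rw [Finset.sum_eq_single i (fun k _ hk => by simp [Pi.single_eq_of_ne hk]) (by simp)]
    simp only [Pi.single_eq_same]
    push_cast
    linarith
  have h4 : l1 (wt (Pi.single i u) (cmb m fun o => R.Z G (j + 2) o t)) ≤
      3 * (4 * G.t ^ 10 * zz G R j AA) := by
    refine h2.trans ?_
    have := l1_nonneg (cmb m fun o => R.Z G (j + 2) o t)
    gcongr
    · exact (Real.exp_le_exp.mpr h3).trans (Real.exp_one_lt_d9.le.trans (by norm_num))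
    · exact S.sd_l1_Zm H m2 ht
  have h5 : 12 * G.t ^ 10 * Real.exp (G.t / 10 ^ 20) ≤ Real.exp (G.t / (2 * 10 ^ 19)) := by
    have b1 := G.sd_pow_exp (k := 11) (by norm_num) (y := G.t / (2 * 10 ^ 19) - G.t / 10 ^ 20)
      (by linarith)
    have b2 := G.pow_lt (show 10 < 11 by norm_num)
    have : 0 < G.t ^ 10 := by positivity
    calc _ ≤ Real.exp (G.t / (2 * 10 ^ 19) - G.t / 10 ^ 20) * Real.exp (G.t / 10 ^ 20) := by
          gcongr; linarith
      _ = _ := by rw [← Real.exp_add]; simp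
  have h6 : 1 ≤ Real.exp (G.t / 10 ^ 20) := Real.one_le_exp (by positivity)
  rw [wt_mul]
  calc _ ≤ _ := norm_mul_le_l1' _ _
    _ ≤ (Real.exp (G.t / 10 ^ 20) * R.Yq G (j + 1) (R.aa G (j + 1) t) G.La +
          Real.exp (G.t / 10 ^ 20) * (Real.exp (2 * G.t ^ 10) *
            (Real.exp (-(G.t ^ 21 / 3)) * (20 * g t)))) / G.N (j + 1) *
          (3 * (4 * G.t ^ 10 * zz G R j AA)) := by
        have := l1_nonneg (wt (Pi.single i u) (cmb m fun o => R.Z G (j + 2) o t))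
        gcongr
        refine h1.trans ?_
        have : 0 ≤ Real.exp (2 * G.t ^ 10) * (Real.exp (-(G.t ^ 21 / 3)) * (20 * g t)) := by
          positivity
        exact div_le_div_of_nonneg_right (add_le_add le_rfl (le_mul_of_one_le_left this h6)) hN.le
    _ = 12 * G.t ^ 10 * Real.exp (G.t / 10 ^ 20) * (zz G R j AA *
        (R.Yq G (j + 1) (R.aa G (j + 1) t) G.La +
          Real.exp (2 * G.t ^ 10) * (Real.exp (-(G.t ^ 21 / 3)) * (20 * g t)))) / G.N (j + 1) := by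
        ring
    _ ≤ _ := by gcongr

end Run

end

end Pool.Agent.Work.MP_6bf1e5_an.Ell
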