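import Pool.Agent.Work.MP_6bf1e5_an.Ell.Car

/-!
The teeth are disjoint.
-/

open Set Complex
open scoped InnerProductSpace ComplexConjugate Classical
open Pool.Agent.Work.MP_6bf1e5_an.B
open Pool.Agent.Work.MP_6bf1e5_an.Dec

namespace Pool.Agent.Work.MP_6bf1e5_an.Ell.Pd

noncomputable section

variable {G : Geo}

lemma mem_S {F : Fam} {h : Z3} : h ∈ F.S G ↔ ∃ x ∈ F.cens G, h - x ∈ bx (F.rad G) := by
  simp only [Fam.S, Finset.mem_biUnion, Finset.mem_image]
  refine exists_congr fun x => and_congr_right fun _ => ⟨?_, fun H => ⟨h - x, H, by simp⟩⟩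
  rintro ⟨a, ha, rfl⟩
  simpa using ha

lemma mem_cens_b {j : ℕ} {x : Z3} : x ∈ (Fam.b j).cens G ↔ ∃ o, G.off j o = x := by
  simp [Fam.cens]

lemma mem_cens_c {j : ℕ} {x : Z3} : x ∈ (Fam.c j).cens G ↔ ∃ o, G.off (j + 1) o = x := by
  simp [Fam.cens]

lemma S_y (j i : ℕ) : (Fam.y j i).S G = bx (G.ry j) := by
  ext h
  simp [mem_S, Fam.cens, Fam.rad]

lemma sepA_off (j : ℕ) {o o' : Fin 4} (h : o ≠ o') :
    ∃ i, (G.n j : ℤ) ≤ |G.off j o i - G.off j o' i| := by
  have h0 : (0 : ℤ) ≤ G.n j := Nat.cast_nonneg _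
  have h1 : (G.n j : ℤ) ≤ |(G.n j : ℤ) + G.n j| := by rw [abs_of_nonneg (by omega)]; omega
  have h2 : (G.n j : ℤ) ≤ |-(G.n j : ℤ) - G.n j| := by rw [abs_of_nonpos (by omega)]; omega
  fin_cases o <;> fin_cases o' <;> first
    | exact absurd rfl h
    | (refine ⟨1, ?_⟩; simp [Geo.off, h1, h2]; done)
    | (refine ⟨2, ?_⟩; simp [Geo.off, h1, h2])

lemma sepA_off_le (j : ℕ) (o : Fin 4) (i : Fin 3) : |G.off j o i| ≤ G.n j := by
  fin_cases o <;> fin_cases i <;> simp [Geo.off]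

lemma sepA_off_ge (j : ℕ) (o : Fin 4) : ∃ i, (G.n j : ℤ) ≤ |G.off j o i| := by
  fin_cases o
  exacts [⟨1, by simp [Geo.off]⟩, ⟨1, by simp [Geo.off]⟩, ⟨2, by simp [Geo.off]⟩,
    ⟨2, by simp [Geo.off]⟩]

lemma sepA_cens_le {F : Fam} {x : Z3} (hx : x ∈ F.cens G) (i : Fin 3) : |x i| ≤ F.sz G := by
  cases F with
  | b j => obtain ⟨o, rfl⟩ := mem_cens_b.mp hx; exact sepA_off_le j o i
  | c j => obtain ⟨o, rfl⟩ := mem_cens_c.mp hx; exact sepA_off_le _ o i
  | y j l => rw [Finset.mem_singleton.mp hx]; simp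

lemma sepA_rad (F : Fam) (i : Fin 3) : 4 * (F.rad G i + 1) ≤ F.sz G := by
  cases F with
  | b j => have := rb_small G j i; simp only [Fam.rad, Fam.sz]; omega
  | c j => have := rc_small G (j + 1) i; simp only [Fam.rad, Fam.sz]; omega
  | y j l => exact (ry_succ G j i).le

/-- Two centres of the same family are far apart. -/
lemma sepA_cens {F : Fam} {x x' : Z3} (hx : x ∈ F.cens G) (hx' : x' ∈ F.cens G) (h : x ≠ x') :
    ∃ i, (F.sz G : ℤ) ≤ |x i - x' i| := by
  cases F with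
  | b j =>
    obtain ⟨o, rfl⟩ := mem_cens_b.mp hx
    obtain ⟨o', rfl⟩ := mem_cens_b.mp hx'
    exact sepA_off j fun e => h (by rw [e])
  | c j =>
    obtain ⟨o, rfl⟩ := mem_cens_c.mp hx
    obtain ⟨o', rfl⟩ := mem_cens_c.mp hx'
    exact sepA_off _ fun e => h (by rw [e])
  | y j l => exact absurd ((Finset.mem_singleton.mp hx).trans (Finset.mem_singleton.mp hx').symm) h

lemma sepA_abs_gz (g : Gp) (x : Z3) (i : Fin 3) : |gz g x i| = |x (i - g.1)| := by
  rw [gz, abs_mul, Int.isUnit_iff_abs_eq.mp g.2.isUnit, one_mul]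

lemma sepA_gm_cancel {g g' a : Gp} (h : gm g a = gm g' a) : g = g' :=
  Prod.ext (add_right_cancel (congrArg Prod.fst h)) (mul_right_cancel (congrArg Prod.snd h))

lemma sepA_pt (F : Fam) (g : Gp) (x : Z3) :
    pt G F g x = gz (gm g (cg F)) (car G F.ix (ci G F)) + gz g x := by
  rw [pt, gz_add, ctr_eq, gz_gz]

lemma off_injective (j : ℕ) : Function.Injective (G.off j) := by
  intro o o' h
  by_contra e
  obtain ⟨i, hi⟩ := sepA_off (G := G) j e
  have := n_pos G j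
  rw [h, sub_self, abs_zero] at hi
  omega

/-- The offsets are at most slightly larger than the comb spacing. -/
lemma S_le {F : Fam} {h : Z3} (hh : h ∈ F.S G) (i : Fin 3) : 100 * |h i| ≤ 101 * F.sz G := by
  obtain ⟨x, hx, hb⟩ := mem_S.mp hh
  have h1 := mem_bx.mp hb i
  have h2 := sepA_cens_le hx i
  have h3 : |h i| ≤ |x i| + |(h - x) i| := by simpa using abs_add_le (x i) (h i - x i)
  cases F with
  | b j => have := rb_small G j i; simp only [Fam.rad, Fam.sz] at *; omega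
  | c j => have := rc_small G (j + 1) i; simp only [Fam.rad, Fam.sz] at *; omega
  | y j l =>
    have := ry_succ G j i
    rw [Finset.mem_singleton.mp hx] at h1
    simp only [Fam.rad, Fam.sz, sub_zero] at *
    omega

/-- The first comb lies in the box of scale `rB`. -/
lemma S_b_subset (j : ℕ) : (Fam.b j).S G ⊆ bx fun i => 2 * G.rB j i := by
  intro h hh
  refine mem_bx.mpr fun i => ?_
  have h0 := S_le hh i
  obtain ⟨x, hx, hb⟩ := mem_S.mp hh
  obtain ⟨o, rfl⟩ := mem_cens_b.mp hx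
  fin_cases i
  · have h1 := mem_bx.mp hb 0
    have h2 := rb_succ G j 0
    have h3 : G.off j o 0 = 0 := by fin_cases o <;> rfl
    have h4 : G.w j 0 = G.rB j 0 := rfl
    simp only [Fam.rad, Pi.sub_apply, h3, sub_zero] at h1
    show |h 0| ≤ ((2 * G.rB j 0 : ℕ) : ℤ)
    omega
  · show |h 1| ≤ ((2 * G.n j : ℕ) : ℤ)
    have : 100 * |h 1| ≤ 101 * (G.n j : ℤ) := h0
    omega
  · show |h 2| ≤ ((2 * G.n j : ℕ) : ℤ)
    have : 100 * |h 2| ≤ 101 * (G.n j : ℤ) := h0
    omega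

/-- Teeth whose doubled open boxes meet coincide. -/
theorem sep {F F' : Fam} (hF : F.ok G) (hF' : F'.ok G) {g g' : Gp} {x x' : Z3}
    (hx : x ∈ F.cens G) (hx' : x' ∈ F'.cens G)
    (H : ∀ i, |pt G F g x i - pt G F' g' x' i| <
      2 * (F.rad G (i - g.1) + 1 : ℕ) + 2 * (F'.rad G (i - g'.1) + 1 : ℕ)) :
    F = F' ∧ g = g' ∧ x = x' := by
  simp only [sepA_pt, Pi.add_apply] at H
  have hc := car_close (J := F.ix) (J' := F'.ix) (ci_le hF) (ci_le hF') (g := gm g (cg F))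
      (g' := gm g' (cg F')) fun l => by
    have a1 := sepA_cens_le hx (l - g.1)
    have a2 := sepA_cens_le hx' (l - g'.1)
    rw [← sepA_abs_gz] at a1 a2
    have a3 := sepA_rad (G := G) F (l - g.1)
    have a4 := sepA_rad (G := G) F' (l - g'.1)
    have a5 := (sz_le (G := G) F).trans (n_mono G (Nat.succ_le_succ (le_max_left F.ix F'.ix)))
    have a6 := (sz_le (G := G) F').trans (n_mono G (Nat.succ_le_succ (le_max_right F.ix F'.ix)))
    have a7 := abs_lt.mp (H l)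
    rw [abs_le] at a1 a2 ⊢
    simp only [Nat.succ_eq_add_one] at a5 a6
    omega
  obtain ⟨e1, e2, e3⟩ := car_unique (ci_le hF) (ci_le hF') hc
  have La := La_big G
  have hcg : cg F = cg F' := by
    cases F <;> cases F' <;> simp only [ci, cg, Fam.ok] at * <;> omega
  rw [hcg] at e3
  obtain rfl := sepA_gm_cancel e3
  have H' : ∀ l, |x l - x' l| < 2 * (F.rad G l + 1 : ℕ) + 2 * (F'.rad G l + 1 : ℕ) := fun l => by
    have := H (l + g.1)
    rwa [hc, add_sub_add_left_eq_sub, ← Pi.sub_apply, ← gz_sub, sepA_abs_gz, add_sub_cancel_right]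
      at this
  have cy : ∀ {j i : ℕ} {x x' : Z3}, x ∈ (Fam.c j).cens G → x' ∈ (Fam.y j i).cens G →
      ¬∀ l, |x l - x' l| < 2 * (G.rc (j + 1) l + 1 : ℕ) + 2 * (G.ry j l + 1 : ℕ) := by
    intro j i x x' hx hx' H
    obtain ⟨o, rfl⟩ := mem_cens_c.mp hx
    obtain ⟨l, hl⟩ := sepA_off_ge (G := G) (j + 1) o
    have a1 := H l
    have a2 := rc_small G (j + 1) l
    have a3 := ry_succ G j l
    rw [Finset.mem_singleton.mp hx', Pi.zero_apply, sub_zero] at a1
    omega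
  have hFF : F = F' := by
    cases F <;> cases F' <;> simp only [ci, Fam.ix, Fam.ok] at e1 e2 hF hF' <;> subst e1
    · rfl
    · omega
    · omega
    · omega
    · rfl
    · exact absurd H' (cy hx hx')
    · omega
    · exact absurd (fun l => by rw [abs_sub_comm, add_comm]; exact H' l) (cy hx' hx)
    · rw [e2]
  subst hFF
  refine ⟨rfl, rfl, by_contra fun e => ?_⟩
  obtain ⟨l, hl⟩ := sepA_cens hx hx' e
  have a1 := H' l
  have a2 := sepA_rad (G := G) F l
  omega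

/-- Points of doubled open boxes determine the tooth. -/
lemma sepA_unique {F F' : Fam} (hF : F.ok G) (hF' : F'.ok G) {g g' : Gp} {x x' h h' : Z3}
    (hx : x ∈ F.cens G) (hx' : x' ∈ F'.cens G)
    (hh : ∀ i, |h i - x i| < 2 * (F.rad G i + 1 : ℕ))
    (hh' : ∀ i, |h' i - x' i| < 2 * (F'.rad G i + 1 : ℕ)) (H : pt G F g h = pt G F' g' h') :
    F = F' ∧ g = g' ∧ h = h' := by
  obtain ⟨rfl, rfl, -⟩ := sep hF hF' (g := g) (g' := g') hx hx' fun i => by
    have a1 := hh (i - g.1)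
    have a2 := hh' (i - g'.1)
    rw [← Pi.sub_apply, ← sepA_abs_gz, gz_sub, Pi.sub_apply, abs_lt] at a1 a2
    have a3 := congrFun H i
    simp only [sepA_pt, Pi.add_apply] at a3 ⊢
    rw [abs_lt]
    omega
  exact ⟨rfl, rfl, add_left_cancel (gz_injective _ H)⟩

theorem pt_unique {F F' : Fam} (hF : F.ok G) (hF' : F'.ok G) {g g' : Gp} {h h' : Z3}
    (hh : h ∈ F.S G) (hh' : h' ∈ F'.S G) (H : pt G F g h = pt G F' g' h') :
    F = F' ∧ g = g' ∧ h = h' := by
  obtain ⟨x, hx, hb⟩ := mem_S.mp hh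
  obtain ⟨x', hx', hb'⟩ := mem_S.mp hh'
  refine sepA_unique hF hF' hx hx' (fun i => ?_) (fun i => ?_) H
  · have : |h i - x i| ≤ F.rad G i := mem_bx.mp hb i
    omega
  · have : |h' i - x' i| ≤ F'.rad G i := mem_bx.mp hb' i
    omega

lemma Pt_disjoint {F F' : Fam} (hF : F.ok G) (hF' : F'.ok G) {g g' : Gp} {k : Z3}
    (h : k ∈ Pt G F g) (h' : k ∈ Pt G F' g') : F = F' ∧ g = g' := by
  obtain ⟨_, a, rfl⟩ := h
  obtain ⟨_, b, e⟩ := h'
  exact ⟨(pt_unique hF hF' a b e).1, (pt_unique hF hF' a b e).2.1⟩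

lemma pt_g1 (F : Fam) (h : Z3) : pt G F g1 h = F.ctr G + h := gz_g1 _

end

end Pool.Agent.Work.MP_6bf1e5_an.Ell.Pd
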