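import Pool.Agent.Work.MP_6bf1e5_an.Ell.SepA

/-!
The cutoffs and the scalar damping.
-/

open Set Complex
open scoped InnerProductSpace ComplexConjugate Classical
open Pool.Agent.Work.MP_6bf1e5_an.B
open Pool.Agent.Work.MP_6bf1e5_an.Dec

namespace Pool.Agent.Work.MP_6bf1e5_an.Ell.Pd

noncomputable section

variable {G : Geo}

lemma bmp_nonneg (δ x : ℝ) : 0 ≤ bmp δ x := by
  exact mul_nonneg (Real.smoothTransition.nonneg _) (Real.smoothTransition.nonneg _)

lemma bmp_le_one (δ x : ℝ) : bmp δ x ≤ 1 := by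
  exact mul_le_one₀ (Real.smoothTransition.le_one _) (Real.smoothTransition.nonneg _)
    (Real.smoothTransition.le_one _)

lemma bmp_zero {δ x : ℝ} (hδ : 0 < δ) (hx : 1 ≤ |x|) : bmp δ x = 0 := by
  rcases le_abs.mp hx with h | h
  · rw [bmp, Real.smoothTransition.zero_of_nonpos
      (div_nonpos_of_nonpos_of_nonneg (by linarith) hδ.le), zero_mul]
  · rw [bmp, Real.smoothTransition.zero_of_nonpos (x := (1 + x) / δ)
      (div_nonpos_of_nonpos_of_nonneg (by linarith) hδ.le), mul_zero]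

lemma bmp_one {δ x : ℝ} (hδ : 0 < δ) (hx : |x| ≤ 1 - δ) : bmp δ x = 1 := by
  have := abs_le.mp hx
  rw [bmp, Real.smoothTransition.one_of_one_le ((one_le_div hδ).mpr (by linarith)),
    Real.smoothTransition.one_of_one_le ((one_le_div hδ).mpr (by linarith)), mul_one]

lemma chi1_nonneg (n : N3) (x : R3) : 0 ≤ chi1 G n x := by
  exact Finset.prod_nonneg fun _ _ => bmp_nonneg _ _

lemma chi1_le_one (n : N3) (x : R3) : chi1 G n x ≤ 1 := by
  exact Finset.prod_le_one (fun _ _ => bmp_nonneg _ _) fun _ _ => bmp_le_one _ _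

lemma chi1_ne_zero {n : N3} {x : R3} (h : chi1 G n x ≠ 0) (i : Fin 3) : |x i| < n i + 1 := by
  refine lt_of_not_ge fun H => h (Finset.prod_eq_zero (Finset.mem_univ i) (bmp_zero (δ_pos G) ?_))
  have : (0 : ℝ) < n i + 1 := by positivity
  rwa [abs_div, abs_of_pos this, one_le_div this]

lemma wid1_nonneg (n : N3) (x : R3) : 0 ≤ wid1 n x := by
  exact Finset.prod_nonneg fun _ _ => bmp_nonneg _ _

lemma wid1_le_one (n : N3) (x : R3) : wid1 n x ≤ 1 := by
  exact Finset.prod_le_one (fun _ _ => bmp_nonneg _ _) fun _ _ => bmp_le_one _ _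

lemma wid1_ne_zero {n : N3} {x : R3} (h : wid1 n x ≠ 0) (i : Fin 3) : |x i| < 2 * (n i + 1) := by
  refine lt_of_not_ge fun H => h (Finset.prod_eq_zero (Finset.mem_univ i) (bmp_zero (by norm_num) ?_))
  have : (0 : ℝ) < 2 * (n i + 1) := by positivity
  rwa [abs_div, abs_of_pos this, one_le_div this]

lemma wid1_one {n : N3} {x : R3} (h : ∀ i, |x i| ≤ n i + 1) : wid1 n x = 1 := by
  refine Finset.prod_eq_one fun i _ => bmp_one (by norm_num) ?_
  have : (0 : ℝ) < 2 * (n i + 1) := by positivity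
  rw [abs_div, abs_of_pos this, div_le_iff₀ this]
  linarith [h i]

lemma wid_nonneg (F : Fam) (x : R3) : 0 ≤ wid G F x := by
  exact Finset.sum_nonneg fun _ _ => wid1_nonneg _ _

/-- Where the wide cutoff does not vanish the offset lies in the doubled box of a tooth. -/
lemma wid_ne_zero {F : Fam} {x : R3} (h : wid G F x ≠ 0) :
    ∃ c ∈ F.cens G, ∀ i, |x i - c i| < 2 * (F.rad G i + 1) := by
  obtain ⟨c, hc, h1⟩ := Finset.exists_ne_zero_of_sum_ne_zero h
  exact ⟨c, hc, wid1_ne_zero h1⟩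

/-- In the doubled box of a tooth only its own cutoffs are active. -/
lemma wid_tooth {F : Fam} (hF : F.ok G) {c : Z3} (hc : c ∈ F.cens G) {x : R3}
    (h : ∀ i, |x i - c i| < 2 * (F.rad G i + 1)) :
    wid G F x = (wid1 (F.rad G) fun i => x i - c i) ∧
      chi G F x = chi1 G (F.rad G) fun i => x i - c i := by
  have key : ∀ c' ∈ F.cens G, c' ≠ c → ¬∀ i, |x i - c' i| < 2 * (F.rad G i + 1) :=
    fun c' hc' hne H => by
      obtain ⟨i, hi⟩ := sepA_cens hc' hc hne
      have a1 : (F.sz G : ℝ) ≤ |(c' i : ℝ) - c i| := by exact_mod_cast hi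
      have a2 : 4 * ((F.rad G i : ℝ) + 1) ≤ F.sz G := by exact_mod_cast sepA_rad F i
      have a3 := abs_sub_le (c' i : ℝ) (x i) (c i)
      rw [abs_sub_comm _ (x i)] at a3
      linarith [H i, h i]
  refine ⟨Finset.sum_eq_single_of_mem c hc fun c' hc' hne => by_contra fun e =>
    key c' hc' hne (wid1_ne_zero e), Finset.sum_eq_single_of_mem c hc fun c' hc' hne =>
    by_contra fun e => key c' hc' hne fun i => (chi1_ne_zero e i).trans ?_⟩
  linarith [(Nat.cast_nonneg (F.rad G i) : (0 : ℝ) ≤ F.rad G i)]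

/-- On a tooth only its own cutoff is active. -/
lemma chi_tooth {F : Fam} (hF : F.ok G) {x h : Z3} (hx : x ∈ F.cens G) (hh : h ∈ bx (F.rad G)) :
    chi G F (fun i => (x + h) i) = chi1 G (F.rad G) fun i => h i := by
  have e : ∀ i, (((x + h) i : ℤ) : ℝ) - x i = h i := fun i => by simp
  rw [(wid_tooth hF hx fun i => ?_).2]
  · simp only [e]
  · have : |(h i : ℝ)| ≤ F.rad G i := by exact_mod_cast mem_bx.mp hh i
    rw [e]
    linarith [abs_nonneg (h i : ℝ)]

lemma wid_S {F : Fam} (hF : F.ok G) {h : Z3} (hh : h ∈ F.S G) : wid G F (fun i => h i) = 1 := by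
  obtain ⟨x, hx, hb⟩ := mem_S.mp hh
  have a : ∀ i, |(h i : ℝ) - x i| ≤ F.rad G i := fun i => by
    have : |h i - x i| ≤ F.rad G i := mem_bx.mp hb i
    exact_mod_cast this
  rw [(wid_tooth hF hx fun i => by linarith [a i, abs_nonneg ((h i : ℝ) - x i)]).1]
  exact wid1_one fun i => by linarith [a i]

theorem near_unique {F F' : Fam} (hF : F.ok G) (hF' : F'.ok G) {g g' : Gp} {h h' : Z3}
    (hh : wid G F (fun i => h i) ≠ 0) (hh' : wid G F' (fun i => h' i) ≠ 0)
    (H : pt G F g h = pt G F' g' h') : F = F' ∧ g = g' ∧ h = h' := by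
  obtain ⟨x, hx, a⟩ := wid_ne_zero hh
  obtain ⟨x', hx', a'⟩ := wid_ne_zero hh'
  exact sepA_unique hF hF' hx hx' (fun i => by exact_mod_cast a i)
    (fun i => by exact_mod_cast a' i) H

lemma sc_near {F : Fam} (hF : F.ok G) (g : Gp) {h : Z3} (hh : wid G F (fun i => h i) ≠ 0) :
    sc G (pt G F g h) = G.C * ax (F.ctr G + h) ^ 2 +
      wid G F (fun i => h i) * (G.Gc F.ix - G.C * ax (F.ctr G + h) ^ 2) := by
  have H : Near G (pt G F g h) := ⟨(F, g, h), hF, hh, rfl⟩
  obtain ⟨a, b, c⟩ := H.choose_spec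
  obtain ⟨e1, -, e3⟩ := near_unique hF a hh b c
  rw [sc, dif_pos H, ← e3, ← e1, pt, ax_gz]

lemma sc_pt {F : Fam} (hF : F.ok G) (g : Gp) {h : Z3} (hh : h ∈ F.S G) :
    sc G (pt G F g h) = G.Gc F.ix := by
  rw [sc_near hF g (by rw [wid_S hF hh]; exact one_ne_zero), wid_S hF hh]
  ring

lemma sc_ge (k : Z3) : G.C * ax k ^ 2 ≤ sc G k := by
  by_cases H : Near G k
  · obtain ⟨⟨F, g, h⟩, hF, hh, rfl⟩ := H
    rw [sc_near hF g hh, pt, ax_gz, le_add_iff_nonneg_right]
    refine mul_nonneg (wid_nonneg _ _) (sub_nonneg.mpr ?_)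
    obtain ⟨x, hx, a⟩ := wid_ne_zero hh
    have b : ∀ l, (2 * Real.pi * ((F.ctr G + h) l : ℝ)) ^ 2 ≤ (2 * G.lam (F.ix + 1)) ^ 2 := fun l => by
      have a1 : |h l - x l| < 2 * (F.rad G l + 1 : ℕ) := by exact_mod_cast a l
      have a2 := sepA_cens_le (F := F) hx l
      have a3 := sepA_rad (G := G) F l
      have a4 := sz_le (G := G) F
      have a5 := (car_size (J := F.ix) (ci_le hF) (cg F)).2 l
      have a6 := n_lt G (i := F.ix + 1) (j := F.ix + 1 + G.kk) (by have := kk_big G; omega)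
      rw [← ctr_eq] at a5
      rw [← P_eq] at a6
      have a7 : |(F.ctr G + h) l| ≤ 2 * G.P (F.ix + 1) := by
        rw [Pi.add_apply]
        rw [abs_lt] at a1
        rw [abs_le] at a2 a5 ⊢
        omega
      have a8 : |((F.ctr G + h) l : ℝ)| ≤ 2 * G.P (F.ix + 1) := by exact_mod_cast a7
      have := Real.pi_pos
      rw [← sq_abs, abs_mul, abs_of_pos (by positivity : 0 < 2 * Real.pi), Geo.lam, mul_left_comm 2]
      gcongr
    have hC : 0 < G.C := Real.exp_pos _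
    rw [Geo.Gc, mul_comm 12, mul_assoc, ax_sq, Fin.sum_univ_three]
    gcongr
    linarith [b 0, b 1, b 2]
  · rw [sc, dif_neg H, add_zero]

lemma sc_gz (g : Gp) (k : Z3) : sc G (gz g k) = sc G k := by
  by_cases H : Near G k
  · obtain ⟨⟨F, g', h⟩, hF, hh, rfl⟩ := H
    rw [sc_near hF g' hh, pt, gz_gz]
    exact sc_near hF _ hh
  · have H' : ¬Near G (gz g k) := by
      rintro ⟨⟨F, g', h⟩, hF, hh, e⟩
      obtain ⟨a, -, ha⟩ := exists_inv g
      refine H ⟨(F, gm a g', h), hF, hh, ?_⟩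
      rw [pt, ← gz_gz, ← pt, ← e, gz_gz, ha, gz_g1]
    rw [sc, sc, dif_neg H, dif_neg H', ax_gz]

end

end Pool.Agent.Work.MP_6bf1e5_an.Ell.Pd
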