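import Pool.Agent.Work.MP_6bf1e5_an.Ell.Comb

/-!
Consequences of the crude bounds: sums over the levels.
-/

open Set Complex Filter Topology
open scoped InnerProductSpace ComplexConjugate
open Pool.Agent.Work.MP_6bf1e5_an.B (Z3 R3)
open Pool.Agent.Work.MP_6bf1e5_an.Dec

namespace Pool.Agent.Work.MP_6bf1e5_an.Ell

noncomputable section

variable {G : Geo} {R : Raw} {J : ℕ} {t : ℝ}

namespace SumsA

lemma low_sum (J M : ℕ) (h : M ≤ J) :
    ∑ j ∈ Finset.range M, (1 / 2 : ℝ) ^ (J - j) ≤ (1 / 2) ^ (J - M) := by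
  induction M with
  | zero => simp
  | succ M ih =>
    rw [Finset.sum_range_succ]
    have h1 := ih (by omega)
    rw [show J - M = J - (M + 1) + 1 by omega, pow_succ] at h1 ⊢
    linarith

lemma high_sum (a M : ℕ) : ∑ j ∈ Finset.Ico a M, (1 / 2 : ℝ) ^ (j - a) ≤ 2 := by
  rw [Finset.sum_Ico_eq_sum_range]
  simpa using sum_geometric_two_le (M - a)

lemma high_le {f : ℕ → ℝ} {a M : ℕ} {C : ℝ} (hC : 0 ≤ C)
    (h : ∀ j, a ≤ j → f j ≤ C * (1 / 2) ^ (j - a)) : ∑ j ∈ Finset.Ico a M, f j ≤ 2 * C := by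
  calc ∑ j ∈ Finset.Ico a M, f j ≤ ∑ j ∈ Finset.Ico a M, C * (1 / 2 : ℝ) ^ (j - a) :=
        Finset.sum_le_sum fun j hj => h j (Finset.mem_Ico.1 hj).1
    _ = C * ∑ j ∈ Finset.Ico a M, (1 / 2 : ℝ) ^ (j - a) := (Finset.mul_sum _ _ _).symm
    _ ≤ C * 2 := mul_le_mul_of_nonneg_left (high_sum a M) hC
    _ = 2 * C := mul_comm _ _

lemma two_sided {f : ℕ → ℝ} {J M : ℕ} {C : ℝ} (hC : 0 ≤ C) (h0 : ∀ j, 0 ≤ f j)
    (h1 : ∀ j < J, f j ≤ C * (1 / 2) ^ (J - j)) (h2 : ∀ j, J ≤ j → f j ≤ C * (1 / 2) ^ (j - J)) :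
    ∑ j ∈ Finset.range M, f j ≤ 3 * C := by
  have e1 : ∑ j ∈ Finset.range M, f j ≤ ∑ j ∈ Finset.range (max J M), f j :=
    Finset.sum_le_sum_of_subset_of_nonneg (Finset.range_mono (le_max_right _ _))
      fun j _ _ => h0 j
  rw [← Finset.sum_range_add_sum_Ico f (le_max_left J M)] at e1
  have e2 := high_le (M := max J M) hC h2
  have e3 : ∑ j ∈ Finset.range J, f j ≤ C := by
    calc ∑ j ∈ Finset.range J, f j ≤ ∑ j ∈ Finset.range J, C * (1 / 2 : ℝ) ^ (J - j) :=
          Finset.sum_le_sum fun j hj => h1 j (Finset.mem_range.1 hj)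
      _ = C * ∑ j ∈ Finset.range J, (1 / 2 : ℝ) ^ (J - j) := (Finset.mul_sum _ _ _).symm
      _ ≤ C * 1 := mul_le_mul_of_nonneg_left (by simpa using low_sum J J le_rfl) hC
      _ = C := mul_one _
  linarith

/-- A sequence that at least doubles. -/
lemma grow {X : ℕ → ℝ} (h : ∀ j, 2 * X j ≤ X (j + 1)) {i j : ℕ} (hij : i ≤ j) :
    X i ≤ X j * (1 / 2) ^ (j - i) := by
  induction j, hij using Nat.le_induction with
  | base => simp
  | succ n hn ih =>
    rw [show n + 1 - i = n - i + 1 by omega, pow_succ]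
    have h1 := h n
    have h2 : (0 : ℝ) ≤ (1 / 2) ^ (n - i) := by positivity
    nlinarith

/-- A sequence that at least halves. -/
lemma fall {X : ℕ → ℝ} (h : ∀ j, 2 * X (j + 1) ≤ X j) {i j : ℕ} (hij : i ≤ j) :
    X j ≤ X i * (1 / 2) ^ (j - i) := by
  induction j, hij using Nat.le_induction with
  | base => simp
  | succ n hn ih =>
    rw [show n + 1 - i = n - i + 1 by omega, pow_succ]
    have h1 := h n
    linarith

lemma big (G : Geo) {k : ℕ} (hk : 0 < k) : (10 : ℝ) ^ 100 ≤ G.t ^ k := by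
  simpa using G.pow_lt hk

lemma pow_le_Wc (G : Geo) {k : ℕ} (hk : k ≤ 1000) : G.t ^ k ≤ G.Wc := by
  refine (G.pow_le_exp hk).trans (Real.exp_le_exp.2 ?_)
  have h1 : G.t ^ 1 ≤ G.t ^ 20 := G.pow_le (by norm_num)
  have h2 := G.t_pos
  rw [pow_one] at h1
  have : G.t / 10 ^ 50 ≤ G.t := div_le_self h2.le (by norm_num)
  linarith

lemma big_Wc (G : Geo) : (10 : ℝ) ^ 100 ≤ G.Wc :=
  (big G one_pos).trans (pow_le_Wc G (by norm_num))

lemma θ_le (G : Geo) : G.θ ≤ 1 / 2 := by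
  have := big G (k := 10) (by norm_num)
  unfold Geo.θ
  rw [one_div]
  exact inv_anti₀ (by norm_num) (by linarith)

lemma θ_pow_le (G : Geo) (k : ℕ) : G.θ ^ k ≤ (1 / 2) ^ k :=
  pow_le_pow_left₀ G.θ_pos.le (θ_le G) k

lemma θ_pow_le_one (G : Geo) (k : ℕ) : G.θ ^ k ≤ 1 :=
  pow_le_one₀ G.θ_pos.le ((θ_le G).trans (by norm_num))

lemma θ_anti (G : Geo) {a b : ℕ} (h : a ≤ b) : G.θ ^ b ≤ G.θ ^ a :=
  pow_le_pow_of_le_one G.θ_pos.le ((θ_le G).trans (by norm_num)) h

lemma xs_le (G : Geo) : G.xs ≤ 1 / 10 ^ 100 := by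
  have := big G (k := 30) (by norm_num)
  unfold Geo.xs
  rw [one_div]
  exact inv_anti₀ (by norm_num) this

lemma xs_bh (H : IsNet G R) (J : ℕ) : 10 ^ 100 * (G.xs * R.bh G (J + 1)) ≤ R.bh G J := by
  have h1 := G.pow_lt (a := 21) (b := 30) (by norm_num)
  have h2 := H.bh_pos J
  have h3 := G.t_pos
  rw [H.bh_succ]
  unfold Geo.xs
  calc 10 ^ 100 * ((G.t ^ 30)⁻¹ * (G.t ^ 21 * R.bh G J))
      = (10 ^ 100 * G.t ^ 21) / G.t ^ 30 * R.bh G J := by ring
    _ ≤ 1 * R.bh G J := by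
        gcongr
        exact div_le_one_of_le₀ h1 (by positivity)
    _ = R.bh G J := one_mul _

lemma ny_le_nc (i : ℕ) : 30 * R.ny G i t ≤ R.nc G i t := by
  have h1 := pow_le_Wc G (k := 51) (by norm_num)
  have h2 := G.pow_lt (a := 50) (b := 51) (by norm_num)
  have h3 : 0 < G.t ^ 50 := pow_pos G.t_pos _
  have h4 := G.N_pos i
  have h5 := R.ch_nonneg G i t
  unfold Raw.ny Raw.nc
  calc 30 * (G.N i * (G.t ^ 50 * R.ch G i t)) = G.N i * ((30 * G.t ^ 50) * R.ch G i t) := by ring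
    _ ≤ G.N i * (G.Wc * R.ch G i t) := by
        gcongr
        linarith

lemma ch_le_nc (i : ℕ) : 30 * (G.N i * R.ch G i t) ≤ R.nc G i t := by
  have h1 := big_Wc G
  have h4 := G.N_pos i
  have h5 := R.ch_nonneg G i t
  unfold Raw.nc
  calc 30 * (G.N i * R.ch G i t) = G.N i * (30 * R.ch G i t) := by ring
    _ ≤ G.N i * (G.Wc * R.ch G i t) := by
        gcongr
        linarith

lemma up_nl {u : ℝ} (hu : Up G R J t u) {j : ℕ} (hj : J + 1 ≤ j) :
    R.nl G j t ≤ G.θ ^ (j - J - 1) * u := by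
  rcases hj.eq_or_lt with rfl | hj
  · simpa using hu.nw
  · have h1 := hu.l j hj
    have h2 := big_Wc G
    have h3 := R.nl_nonneg G j t
    nlinarith

lemma up_nc {u : ℝ} (hu : Up G R J t u) {j : ℕ} (hj : J + 1 ≤ j) :
    R.nc G j t ≤ G.θ ^ (j - J - 1) * u :=
  (hu.y j hj).trans (mul_le_mul_of_nonneg_right (θ_anti G (by omega))
    ((R.nl_nonneg G _ t).trans hu.nw))

/-- The upper levels in terms of the current critical amplitude. -/
lemma up_sum (H : IsNet G R) (h : Cr0 G R J t) {j : ℕ} (hj : J + 1 ≤ j) :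
    R.nl G j t + R.nc G j t ≤ R.bh G J * (1 / 2) ^ (j - J) := by
  have h1 := up_nl h.up hj
  have h2 := up_nc h.up hj
  have h3 := θ_pow_le G (j - J - 1)
  have h4 := xs_bh H J
  have h5 : 0 ≤ G.xs * R.bh G (J + 1) := (mul_pos G.xs_pos (H.bh_pos _)).le
  have h6 : (0 : ℝ) ≤ (1 / 2) ^ (j - J - 1) := by positivity
  have h7 : G.θ ^ (j - J - 1) * (11 * G.xs * R.bh G (J + 1)) ≤
      (1 / 2) ^ (j - J - 1) * (R.bh G J / 4) := by
    refine mul_le_mul h3 (by linarith) (by linarith) h6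
  rw [show j - J = j - J - 1 + 1 by omega, pow_succ]
  linarith

lemma sum_bh (H : IsNet G R) (n : ℕ) :
    ∑ j ∈ Finset.range (n + 1), R.bh G j ≤ 4 / 3 * R.bh G n := by
  induction n with
  | zero =>
    have := H.bh_pos 0
    simp only [zero_add, Finset.range_one, Finset.sum_singleton]
    linarith
  | succ n ih =>
    rw [Finset.sum_range_succ]
    have h1 := H.bh_succ n
    have h2 := big G (k := 21) (by norm_num)
    have h3 := H.bh_pos n
    nlinarith

lemma low_bh (H : IsNet G R) (i : ℕ) :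
    G.m0 * ∑ j ∈ Finset.range (i + 1 - G.kk), R.bh G j ≤ 4 / 3 * R.bh G i := by
  by_cases hi : G.kk ≤ i
  · obtain ⟨i0, rfl⟩ := Nat.exists_eq_add_of_le' hi
    rw [show i0 + G.kk + 1 - G.kk = i0 + 1 by omega, H.bh_add_kk]
    have h1 := sum_bh H i0
    have h2 := G.m0_pos
    nlinarith
  · rw [show i + 1 - G.kk = 0 by omega]
    have := H.bh_pos i
    simp only [Finset.range_zero, Finset.sum_empty, mul_zero]
    linarith

lemma low_le (H : IsNet G R) {f : ℕ → ℝ} {c : ℝ} (hc : 0 ≤ c) (hf : ∀ j, f j ≤ c * R.bh G j)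
    (i : ℕ) : G.m0 * ∑ j ∈ Finset.range (i + 1 - G.kk), f j ≤ c * (4 / 3 * R.bh G i) := by
  have h1 : ∑ j ∈ Finset.range (i + 1 - G.kk), f j ≤
      c * ∑ j ∈ Finset.range (i + 1 - G.kk), R.bh G j := by
    rw [Finset.mul_sum]
    exact Finset.sum_le_sum fun j _ => hf j
  calc G.m0 * ∑ j ∈ Finset.range (i + 1 - G.kk), f j
      ≤ G.m0 * (c * ∑ j ∈ Finset.range (i + 1 - G.kk), R.bh G j) :=
        mul_le_mul_of_nonneg_left h1 G.m0_pos.le
    _ = c * (G.m0 * ∑ j ∈ Finset.range (i + 1 - G.kk), R.bh G j) := by ring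
    _ ≤ c * (4 / 3 * R.bh G i) := mul_le_mul_of_nonneg_left (low_bh H i) hc

lemma Y_succ (H : IsNet G R) (j : ℕ) :
    G.t ^ 21 * (R.bh G (j + 1) ^ 2 / G.N (j + 1) ^ 2) = R.bh G j ^ 2 / G.N j ^ 2 := by
  have h1 := G.t_pos
  have h2 := G.N_pos j
  rw [H.bh_succ, G.N_succ_sq]
  field_simp

lemma Y_add (H : IsNet G R) (j k : ℕ) :
    (G.t ^ 21) ^ k * (R.bh G (j + k) ^ 2 / G.N (j + k) ^ 2) = R.bh G j ^ 2 / G.N j ^ 2 := by
  induction k with
  | zero => simp
  | succ k ih => rw [pow_succ, mul_assoc, ← add_assoc, Y_succ H, ih]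

lemma l1_rot (o : Fin 4) (f : V) : l1 (rot o f) = l1 f := by
  fin_cases o <;> simp [rot, l1_tau, l1_dag]

end SumsA

open SumsA

lemma Up.mono {u u' : ℝ} (h : Up G R J t u) (hu : u ≤ u') : Up G R J t u' :=
  ⟨h.nw.trans hu,
    fun i hi => (h.y i hi).trans (mul_le_mul_of_nonneg_left hu (pow_pos G.θ_pos _).le),
    fun i hi => (h.l i hi).trans (mul_le_mul_of_nonneg_left hu (pow_pos G.θ_pos _).le)⟩

lemma Bnd.cr0 (H : IsNet G R) {AA : ℕ → ℝ} {E : ℝ} (h : Bnd G R J AA t E) : Cr0 G R J t := by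
  have hx := G.xs_pos
  have hx' := xs_le G
  have hb := H.bh_pos (J + 1)
  have hE := h.Ehi
  have hup : Up G R J t (11 * G.xs * R.bh G (J + 1)) := h.up.mono (by
    have : 0 < G.xs * R.bh G (J + 1) := mul_pos hx hb
    nlinarith)
  have hu : ∀ i, J + 1 ≤ i → G.θ ^ (i - J - 1) * (11 * G.xs * R.bh G (J + 1)) ≤ R.bh G i := by
    intro i hi
    have h1 := θ_pow_le_one G (i - J - 1)
    have h2 := H.bh_mono hi
    have h3 : 11 * G.xs * R.bh G (J + 1) ≤ 1 * R.bh G (J + 1) := by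
      gcongr
      linarith
    have h4 : 0 ≤ 11 * G.xs * R.bh G (J + 1) := by positivity
    nlinarith
  have hhalf : ∀ k : ℕ, (0 : ℝ) ≤ (1 / 2) ^ k := fun k => by positivity
  refine ⟨h.t0, fun i => ?_, fun i => ?_, hup⟩
  · have hbi := H.bh_pos i
    have hun := H.un_pos i
    have hN := G.N_pos i
    have hhi := H.un_hi i
    rcases lt_trichotomy i J with hi | rfl | hi
    · have hlev : R.lev i t ≤ 64 * R.un G i := by
        refine Real.sqrt_le_iff.2 ⟨by positivity, ?_⟩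
        have hb : ∀ o, ‖R.b i o t‖ ^ 2 + ‖R.c i o t‖ ^ 2 ≤ 1024 * R.un G i ^ 2 := by
          intro o
          have h1 := h.oldb i hi o
          have h2 := h.oldc i hi o
          have h3 := h.oldA i hi
          have h4 := hhalf (J + 1 - i)
          have h5 := norm_le_norm_sub_add (R.b i o t) (((AA i * R.un G i : ℝ) : ℂ) • G.φ i)
          rw [norm_smul, G.norm_φ, Complex.norm_real, Real.norm_eq_abs,
            abs_of_nonneg (mul_nonneg (by linarith) hun.le)] at h5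
          have h6 : ‖R.b i o t‖ ≤ 11 * R.un G i := by nlinarith
          have h7 : ‖R.c i o t‖ ≤ 30 * R.un G i := by nlinarith
          have h8 := pow_le_pow_left₀ (norm_nonneg _) h6 2
          have h9 := pow_le_pow_left₀ (norm_nonneg _) h7 2
          nlinarith
        have := Finset.sum_le_sum fun o (_ : o ∈ Finset.univ) => hb o
        simp only [Finset.sum_const, Finset.card_univ, Fintype.card_fin, nsmul_eq_mul] at this
        push_cast at this
        linarith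
      have := mul_le_mul_of_nonneg_left hlev hN.le
      unfold Raw.nl
      linarith
    · have h1 : R.lev i t ≤ 42 * R.un G i := by
        have := h.curl
        nlinarith
      have := mul_le_mul_of_nonneg_left h1 hN.le
      unfold Raw.nl
      linarith
    · have := (up_nl hup hi).trans (hu i hi)
      linarith
  · have hbi := H.bh_pos i
    rcases lt_trichotomy i J with hi | rfl | hi
    · have h1 := h.oldy i hi
      have h4 := hhalf (J + 1 - i)
      nlinarith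
    · have := h.cury
      nlinarith
    · have := (up_nc hup hi).trans (hu i hi)
      linarith

namespace Cr0

variable (H : IsNet G R) (h : Cr0 G R J t)

include H h

lemma nu_le (i : ℕ) : R.nu G i t ≤ 11 * R.bh G i := by
  have h1 := h.nl i
  have h2 := h.nc i
  have h3 := ny_le_nc (G := G) (R := R) (t := t) i
  have := H.bh_pos i
  unfold Raw.nu
  linarith

lemma sum_nu (M : ℕ) : ∑ j ∈ Finset.range M, R.nu G j t ≤ G.t ^ 53 * G.lam J := by
  have hb := H.bh_pos J
  have h1 := two_sided (f := fun j => R.nu G j t) (J := J) (M := M) (C := 11 * R.bh G J)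
    (by positivity) (fun j => R.nu_nonneg G j t) (fun j hj => ?_) (fun j hj => ?_)
  · have := H.bh_hi J
    linarith
  · have h2 := grow (X := R.bh G) (fun j => by
      have h1 := H.bh_succ j
      have h2 := big G (k := 21) (by norm_num)
      have h3 := H.bh_pos j
      nlinarith) hj.le
    have h3 := nu_le H h j
    linarith
  · rcases hj.eq_or_lt with rfl | hj
    · simpa using nu_le H h J
    · have h2 := up_sum H h hj
      have h3 := ny_le_nc (G := G) (R := R) (t := t) j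
      have h4 := R.ny_nonneg G j t
      have h5 : 0 ≤ R.bh G J * (1 / 2) ^ (j - J) := by positivity
      unfold Raw.nu
      linarith

lemma sum_H (M : ℕ) : ∑ j ∈ Finset.range M, G.lam (j + 1) * (R.lev j t + R.ch G j t) ≤
    G.t ^ 95 * (G.lam J ^ 2 / G.N J) := by
  have ht := G.t_pos
  have key : ∀ j, G.lam (j + 1) * (R.lev j t + R.ch G j t) ≤
      G.lam (j + 1) / G.N j * (R.nl G j t + R.nc G j t) := by
    intro j
    have h1 := ch_le_nc (G := G) (R := R) (t := t) j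
    have h2 := G.N_pos j
    have h3 := G.lam_pos (j + 1)
    have h4 := mul_nonneg h2.le (R.ch_nonneg G j t)
    calc G.lam (j + 1) * (R.lev j t + R.ch G j t)
        = G.lam (j + 1) / G.N j * (G.N j * R.lev j t + G.N j * R.ch G j t) := by field_simp
      _ ≤ G.lam (j + 1) / G.N j * (R.nl G j t + R.nc G j t) := by
          unfold Raw.nl
          gcongr
          linarith
  have hpos : ∀ j, 0 < G.lam (j + 1) / G.N j := fun j => div_pos (G.lam_pos _) (G.N_pos _)
  have hlo : ∀ j, 2 * (G.lam (j + 1) / G.N j * R.bh G j) ≤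
      G.lam (j + 1 + 1) / G.N (j + 1) * R.bh G (j + 1) := by
    intro j
    have h1 := G.N_succ_hi j
    have h2 := G.N_pos j
    have h3 := G.N_pos (j + 1)
    have h4 := G.lam_pos (j + 1)
    have h5 := H.bh_pos j
    have h6 := big G (k := 10) (by norm_num)
    rw [G.lam_succ (j + 1), H.bh_succ]
    calc 2 * (G.lam (j + 1) / G.N j * R.bh G j)
        ≤ G.t ^ 10 * (G.lam (j + 1) / G.N j * R.bh G j) := by
          gcongr
          linarith
      _ = G.t ^ 21 * G.lam (j + 1) / (G.t ^ 32 * G.N j) * (G.t ^ 21 * R.bh G j) := by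
          field_simp
      _ ≤ G.t ^ 21 * G.lam (j + 1) / G.N (j + 1) * (G.t ^ 21 * R.bh G j) := by gcongr
  have hhi : ∀ j, 2 * (G.lam (j + 1 + 1) / G.N (j + 1)) ≤ G.lam (j + 1) / G.N j := by
    intro j
    have h1 := G.N_succ_lo j
    have h2 := G.N_pos j
    have h3 := G.N_pos (j + 1)
    have h4 := G.lam_pos (j + 1)
    have h6 := big G (k := 10) (by norm_num)
    rw [G.lam_succ (j + 1)]
    calc 2 * (G.t ^ 21 * G.lam (j + 1) / G.N (j + 1))
        ≤ G.t ^ 10 * (G.t ^ 21 * G.lam (j + 1) / (G.t ^ 31 * G.N j)) := by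
          gcongr
          linarith
      _ = G.lam (j + 1) / G.N j := by field_simp
  have hb := H.bh_pos J
  have hJ := hpos J
  have crude : ∀ j, G.lam (j + 1) * (R.lev j t + R.ch G j t) ≤
      40 * (G.lam (j + 1) / G.N j * R.bh G j) := by
    intro j
    have h1 := key j
    have h2 := h.nl j
    have h3 := h.nc j
    have h4 := hpos j
    nlinarith
  have h1 := two_sided (f := fun j => G.lam (j + 1) * (R.lev j t + R.ch G j t)) (J := J) (M := M)
    (C := 40 * (G.lam (J + 1) / G.N J * R.bh G J)) (by positivity)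
    (fun j => mul_nonneg (G.lam_pos _).le (add_nonneg (R.lev_nonneg j t) (R.ch_nonneg G j t)))
    (fun j hj => ?_) (fun j hj => ?_)
  · refine h1.trans ?_
    have h2 := H.bh_hi J
    have h3 := G.lam_pos J
    have h4 := G.N_pos J
    rw [G.lam_succ]
    calc 3 * (40 * (G.t ^ 21 * G.lam J / G.N J * R.bh G J))
        = G.t ^ 21 * G.lam J / G.N J * (120 * R.bh G J) := by ring
      _ ≤ G.t ^ 21 * G.lam J / G.N J * (G.t ^ 53 * G.lam J) :=
          mul_le_mul_of_nonneg_left (by linarith) (by positivity)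
      _ = G.t ^ 74 * (G.lam J ^ 2 / G.N J) := by ring
      _ ≤ G.t ^ 95 * (G.lam J ^ 2 / G.N J) := by
          gcongr
          · exact G.one_le_t
          · norm_num
  · have h2 := grow (X := fun j => G.lam (j + 1) / G.N j * R.bh G j) hlo hj.le
    have h3 := crude j
    linarith
  · rcases hj.eq_or_lt with rfl | hj'
    · simpa using crude J
    · have h2 := up_sum H h hj'
      have h3 := fall (X := fun j => G.lam (j + 1) / G.N j) hhi hj
      have h4 : (1 / 2 : ℝ) ^ (j - J) ≤ 1 := pow_le_one₀ (by norm_num) (by norm_num)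
      have h5 : G.lam (j + 1) / G.N j ≤ G.lam (J + 1) / G.N J := by nlinarith
      have h6 : G.lam (j + 1) / G.N j * (R.nl G j t + R.nc G j t) ≤
          G.lam (J + 1) / G.N J * (R.bh G J * (1 / 2) ^ (j - J)) :=
        mul_le_mul h5 h2 (add_nonneg (R.nl_nonneg G j t) (R.nc_nonneg G j t)) hJ.le
      have h7 : 0 ≤ G.lam (J + 1) / G.N J * (R.bh G J * (1 / 2) ^ (j - J)) := by positivity
      have h8 := key j
      linarith

lemma Low_le (i : ℕ) : G.m0 * R.Low G i t ≤ 20 * R.bh G i := by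
  have h1 := low_le H (f := fun j => R.nu G j t) (c := 11) (by norm_num) (nu_le H h) i
  have h2 := H.bh_pos i
  simp only [Raw.nu, Finset.sum_add_distrib] at h1
  unfold Raw.Low Raw.LowL Raw.LowY
  linarith

lemma LowL_le (i : ℕ) : G.m0 * R.LowL G i t ≤ 20 * R.bh G i := by
  have h1 := low_le H (f := fun j => R.nl G j t) (c := 10) (by norm_num) h.nl i
  have h2 := H.bh_pos i
  unfold Raw.LowL
  linarith

lemma LowY_le (i : ℕ) : G.Wc * G.m0 * R.LowY G i t ≤ 40 * G.t ^ 50 * R.bh G i := by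
  have hW := G.Wc_pos
  have ht := G.t_pos
  have h1 := low_le H (f := fun j => R.ny G j t) (c := G.t ^ 50 / G.Wc * 30) (by positivity)
    (fun j => by
      rw [R.ny_eq, mul_assoc]
      exact mul_le_mul_of_nonneg_left (h.nc j) (by positivity)) i
  unfold Raw.LowY
  rw [mul_assoc]
  refine (mul_le_mul_of_nonneg_left h1 hW.le).trans (le_of_eq ?_)
  field_simp
  ring

lemma ET_le (m : ℕ) : G.N m ^ 2 * R.ET m t ≤ 10 ^ 7 * R.bh G m ^ 2 := by
  have hN := G.N_pos m
  have h1 := H.ET_le m t (2 * (101 * (R.bh G m ^ 2 / G.N m ^ 2))) h.t0 fun M =>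
    high_le (by positivity) fun j hj => by
      have h2 := fall (X := fun j => R.bh G j ^ 2 / G.N j ^ 2) (fun j => by
        have h1 := Y_succ H j
        have h2 := big G (k := 21) (by norm_num)
        have h3 : 0 ≤ R.bh G (j + 1) ^ 2 / G.N (j + 1) ^ 2 := by positivity
        nlinarith) hj
      have hNj := G.N_pos j
      have h3 : R.lev j t ≤ 10 * (R.bh G j / G.N j) := by
        rw [← mul_div_assoc, le_div_iff₀' hNj]
        exact h.nl j
      have h4 : R.ch G j t ≤ R.bh G j / G.N j := by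
        rw [le_div_iff₀' hNj]
        have := ch_le_nc (G := G) (R := R) (t := t) j
        have := h.nc j
        linarith
      have h5 := pow_le_pow_left₀ (R.lev_nonneg j t) h3 2
      have h6 := pow_le_pow_left₀ (R.ch_nonneg G j t) h4 2
      rw [mul_pow, div_pow] at h5
      rw [div_pow] at h6
      linarith
  calc G.N m ^ 2 * R.ET m t ≤ G.N m ^ 2 * (10 ^ 4 * (2 * (101 * (R.bh G m ^ 2 / G.N m ^ 2)))) := by
        gcongr
    _ = 2020000 * R.bh G m ^ 2 := by
        field_simp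
        ring
    _ ≤ 10 ^ 7 * R.bh G m ^ 2 := by
        gcongr
        norm_num

/-- The backscatter from much higher levels. -/
lemma ET_far (i : ℕ) : G.m0 * (G.N i ^ 2 * R.ET (i + G.kk - 1) t) ≤
    10 ^ 7 * G.t ^ 21 * R.bh G i ^ 2 := by
  obtain ⟨k, hk⟩ : ∃ k, G.kk = k + 1 := ⟨G.kk - 1, by have := G.ten_le_kk; omega⟩
  have hm : G.m0 = G.t ^ 21 * (G.t ^ 21) ^ k := by
    unfold Geo.m0
    rw [G.La_eq, hk, pow_succ']
  rw [show i + G.kk - 1 = i + k by omega, hm]
  have h1 := ET_le H h (i + k)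
  have h2 := Y_add H i k
  have h3 := G.N_pos i
  have h4 := G.N_pos (i + k)
  have ht := G.t_pos
  have h5 : R.ET (i + k) t ≤ 10 ^ 7 * (R.bh G (i + k) ^ 2 / G.N (i + k) ^ 2) := by
    rw [← mul_div_assoc, le_div_iff₀' (by positivity)]
    exact h1
  calc G.t ^ 21 * (G.t ^ 21) ^ k * (G.N i ^ 2 * R.ET (i + k) t)
      ≤ G.t ^ 21 * (G.t ^ 21) ^ k *
          (G.N i ^ 2 * (10 ^ 7 * (R.bh G (i + k) ^ 2 / G.N (i + k) ^ 2))) := by gcongr
    _ = 10 ^ 7 * G.t ^ 21 * (G.N i ^ 2 *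
          ((G.t ^ 21) ^ k * (R.bh G (i + k) ^ 2 / G.N (i + k) ^ 2))) := by ring
    _ = 10 ^ 7 * G.t ^ 21 * R.bh G i ^ 2 := by
        rw [h2]
        field_simp

lemma ET_up {u : ℝ} (hu : Up G R J t u) {m : ℕ} (hm : J + 2 ≤ m) :
    G.Wc ^ 2 * (G.N m ^ 2 * R.ET m t) ≤ G.θ ^ (2 * (m - J - 1)) * (R.bh G (J + 1) * u) := by
  have hu0 : 0 ≤ u := (R.nl_nonneg G _ t).trans hu.nw
  have hN := G.N_pos m
  have hW := G.Wc_pos
  have hθ := G.θ_pos
  have hb := H.bh_pos (J + 1)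
  have hx := G.xs_pos
  obtain ⟨u0, hu0e⟩ : ∃ u0, u0 = 11 * G.xs * R.bh G (J + 1) := ⟨_, rfl⟩
  have hup := h.up
  rw [← hu0e] at hup
  have hu00 : 0 ≤ u0 := by rw [hu0e]; positivity
  have h1 := H.ET_le m t
    (2 * (2 * (G.θ ^ (2 * (m - J - 1)) * (u0 * u)) / (G.Wc ^ 2 * G.N m ^ 2))) h.t0 fun M =>
    high_le (by positivity) fun j hj => by
      have hNj := G.N_mono hj
      have a1 : 0 ≤ G.Wc * R.nl G j t := mul_nonneg hW.le (R.nl_nonneg G j t)
      have a2 := mul_le_mul (hup.l j (by omega)) (hu.l j (by omega)) a1 (by positivity)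
      have a3 := mul_le_mul (up_nc hup (j := j) (by omega)) (up_nc hu (j := j) (by omega))
        (R.nc_nonneg G j t) (by positivity)
      have a4 : G.θ ^ (j - J - 1) * u0 * (G.θ ^ (j - J - 1) * u) ≤
          G.θ ^ (2 * (m - J - 1)) * (u0 * u) * (1 / 2) ^ (j - m) := by
        have b1 : G.θ ^ (j - J - 1) * G.θ ^ (j - J - 1) ≤
            G.θ ^ (2 * (m - J - 1)) * (1 / 2) ^ (j - m) := by
          rw [← pow_add]
          refine (θ_anti G (a := 2 * (m - J - 1) + (j - m)) (by omega)).trans ?_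
          rw [pow_add]
          exact mul_le_mul_of_nonneg_left (θ_pow_le G _) (by positivity)
        have b2 := mul_le_mul_of_nonneg_right b1 (mul_nonneg hu00 hu0)
        linarith
      rw [div_mul_eq_mul_div, le_div_iff₀ (by positivity)]
      have a5 : (R.lev j t ^ 2 + R.ch G j t ^ 2) * (G.Wc ^ 2 * G.N m ^ 2) ≤
          (R.lev j t ^ 2 + R.ch G j t ^ 2) * (G.Wc ^ 2 * G.N j ^ 2) := by gcongr
      unfold Raw.nl at a2
      unfold Raw.nc at a3
      linarith
  have hx' := xs_le G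
  calc G.Wc ^ 2 * (G.N m ^ 2 * R.ET m t)
      ≤ G.Wc ^ 2 * (G.N m ^ 2 * (10 ^ 4 * (2 * (2 * (G.θ ^ (2 * (m - J - 1)) * (u0 * u)) /
          (G.Wc ^ 2 * G.N m ^ 2))))) := by gcongr
    _ = (440000 * G.xs) * (G.θ ^ (2 * (m - J - 1)) * (R.bh G (J + 1) * u)) := by
        rw [hu0e]
        field_simp
        ring
    _ ≤ 1 * (G.θ ^ (2 * (m - J - 1)) * (R.bh G (J + 1) * u)) := by
        gcongr
        linarith
    _ = _ := one_mul _

lemma l1_Z_le (j : ℕ) (o : Fin 4) : G.m0 * l1 (R.Z G j o t) ≤ 10 ^ 3 * R.bh G j := by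
  have hb := H.bh_pos j
  unfold Raw.Z
  split_ifs with hj
  · obtain ⟨i, rfl⟩ := Nat.exists_eq_add_of_le' hj
    rw [l1_rot, Nat.add_sub_cancel, H.bh_add_kk]
    have h1 := l1_add_le (R.B G i t) ((R.cq o : ℂ) • (sh ![0, G.P (i - 1), 0] * R.Cc G i t))
    rw [l1_smul, l1_sh_mul, Complex.norm_real, Real.norm_eq_abs] at h1
    have h2 := H.l1_B_le i t
    have h3 := H.l1_C_le i t
    have h4 := h.nl i
    have h5 : |R.cq o| ≤ 1 := by
      have a1 := H.cq_le' o
      have a2 := big G (k := 10) (by norm_num)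
      have a3 := abs_nonneg (R.cq o)
      nlinarith
    have h6 := mul_le_of_le_one_left (l1_nonneg (R.Cc G i t)) h5
    have h7 := H.bh_pos i
    have h8 := G.m0_pos
    rw [mul_left_comm]
    refine mul_le_mul_of_nonneg_left ?_ h8.le
    linarith
  · rw [l1_zero, mul_zero]
    positivity

lemma f_le (j : ℕ) (o : Fin 4) : G.m0 ^ 2 * ‖R.f G j o t‖ ≤
    10 ^ 3 * G.t ^ 11 * (G.lam (j + 1) * R.bh G (j + 1)) * ‖R.y j G.La t‖ := by
  have h1 := l1_Z_le H h (j + 1) o
  have h2 := (norm_pj_le (G.rc (j + 1)) _).trans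
    (norm_mul_le_l1' (R.y j G.La t) (R.Z G (j + 1) o t))
  have h3 := H.cf_lo
  have h4 := H.cf_hi
  have h5 := G.m0_pos
  have h6 := G.lam_pos (j + 1)
  have h7 : 0 ≤ R.cf * (2 * Real.pi * G.n (j + 1)) := by positivity
  have h8 := l1_nonneg (R.Z G (j + 1) o t)
  have ht := G.t_pos
  unfold Raw.f
  rw [norm_smul, Complex.norm_real, Real.norm_eq_abs, abs_of_nonneg h7]
  calc G.m0 ^ 2 * (R.cf * (2 * Real.pi * G.n (j + 1)) *
        ‖pj (G.rc (j + 1)) (R.y j G.La t * R.Z G (j + 1) o t)‖)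
      ≤ G.m0 ^ 2 * (R.cf * (2 * Real.pi * G.n (j + 1)) *
        (‖R.y j G.La t‖ * l1 (R.Z G (j + 1) o t))) := by gcongr
    _ = R.cf * (G.lam (j + 1) * (G.m0 * l1 (R.Z G (j + 1) o t))) * ‖R.y j G.La t‖ := by
        rw [G.lam_eq]
        ring
    _ ≤ G.t ^ 11 * (G.lam (j + 1) * (10 ^ 3 * R.bh G (j + 1))) * ‖R.y j G.La t‖ := by gcongr
    _ = _ := by ring

end Cr0

/-- The old levels are drivers. -/
lemma Bnd.old (H : IsNet G R) {AA : ℕ → ℝ} {E : ℝ} (h : Bnd G R J AA t E) {i : ℕ} (hi : i < J) :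
    |R.aa G i t - AA i| ≤ 1 / 10 ^ 19 ∧ l1 (R.B G i t) ≤ 11 * R.bh G i ∧
      ∃ mv κ, Drv G.t (G.rB i) mv κ (R.pB G i t) := by
  have hun := H.un_pos i
  have hA := h.oldA i hi
  have hb := H.bh_pos i
  have hc : ∀ o, ‖R.b i o t - ((AA i * R.un G i : ℝ) : ℂ) • G.φ i‖ ≤ 1 / 10 ^ 20 * R.un G i := by
    intro o
    have h1 := h.oldb i hi o
    have h2 : (0 : ℝ) ≤ (1 / 2) ^ (J + 1 - i) := by positivity
    nlinarith
  have hc' : ∀ o, ‖R.b i o t - ((AA i * R.un G i : ℝ) : ℂ) • G.φ i‖ ≤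
      1 / 10 ^ 20 * (AA i * R.un G i) := fun o => (hc o).trans (by nlinarith)
  obtain ⟨h1, h2⟩ := H.aa_close (by norm_num) hc
  refine ⟨h1.trans (by norm_num), h2.trans ?_, _, _,
    H.drv_of_close (a2 := 2 / 10 ^ 20) (mul_pos (by linarith) hun) (by norm_num) (by norm_num)
      hc' fun o o' => ?_⟩
  · rw [abs_of_nonneg (by linarith)]
    nlinarith
  · have h3 := norm_sub_le_norm_sub_add_norm_sub (R.b i o t)
      (((AA i * R.un G i : ℝ) : ℂ) • G.φ i) (R.b i o' t)
    rw [norm_sub_rev (((AA i * R.un G i : ℝ) : ℂ) • G.φ i) (R.b i o' t)] at h3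
    have h4 := hc' o
    have h5 := hc' o'
    linarith

end

end Pool.Agent.Work.MP_6bf1e5_an.Ell
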