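import Pool.Agent.Work.MP_6bf1e5_an.Ell.Modes

/-!
Self-similar sums of a smooth function supported in an annulus are symbols of order two.
-/

open Set Complex
open scoped InnerProductSpace ComplexConjugate Classical
open Pool.Agent.Work.MP_6bf1e5_an.B
open Pool.Agent.Work.MP_6bf1e5_an.Dec

namespace Pool.Agent.Work.MP_6bf1e5_an.Ell.Pd

noncomputable section

/-- The self-similar sum. -/
def ssum (L : ℝ) (g : R3 → M3) (ξ : R3) : M3 := ∑' j : ℕ, (L ^ j) ^ 2 • g ((L ^ j)⁻¹ • ξ)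

variable {g : R3 → M3} {a b L : ℝ}

/-- Near every point only finitely many terms are present. -/
lemma ssum_eq (ha : 0 < a) (hL : 2 ≤ L) (hs : ∀ ξ, g ξ ≠ 0 → a ≤ ‖ξ‖ ∧ ‖ξ‖ ≤ b) {R : ℝ} {J : ℕ}
    (hJ : R < a * L ^ J) {ξ : R3} (hξ : ‖ξ‖ ≤ R) :
    ssum L g ξ = ∑ j ∈ Finset.range J, (L ^ j) ^ 2 • g ((L ^ j)⁻¹ • ξ) := by
  refine tsum_eq_sum fun j hj => ?_
  have hj' : J ≤ j := by simpa using hj
  have L0 : 0 < L ^ j := by positivity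
  have hz : g ((L ^ j)⁻¹ • ξ) = 0 := by
    by_contra h
    have h1 := (hs _ h).1
    rw [norm_smul, norm_inv, Real.norm_of_nonneg L0.le, ← div_eq_inv_mul, le_div_iff₀ L0] at h1
    have h2 : a * L ^ J ≤ a * L ^ j := by gcongr; linarith
    linarith
  rw [hz, smul_zero]

lemma symbA_ev (ha : 0 < a) (hL : 2 ≤ L) (hs : ∀ ξ, g ξ ≠ 0 → a ≤ ‖ξ‖ ∧ ‖ξ‖ ≤ b) (ξ : R3) :
    ∃ J : ℕ, ssum L g =ᶠ[nhds ξ]
      fun η => ∑ j ∈ Finset.range J, (L ^ j) ^ 2 • g ((L ^ j)⁻¹ • η) := by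
  obtain ⟨J, hJ⟩ := pow_unbounded_of_one_lt ((‖ξ‖ + 1) / a) (by linarith : 1 < L)
  rw [div_lt_iff₀' ha] at hJ
  refine ⟨J, ?_⟩
  filter_upwards [Metric.ball_mem_nhds ξ one_pos] with η hη
  refine ssum_eq ha hL hs hJ ?_
  rw [mem_ball_iff_norm] at hη
  linarith [norm_le_norm_add_norm_sub' η ξ]

lemma symbA_term (hg : ContDiff ℝ (⊤ : ℕ∞) g) (r s : ℝ) :
    ContDiff ℝ (⊤ : ℕ∞) fun η : R3 => r • g (s • η) :=
  (hg.comp (contDiff_const_smul s)).const_smul r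

theorem ssum_smooth (hg : ContDiff ℝ (⊤ : ℕ∞) g) (ha : 0 < a) (hL : 2 ≤ L)
    (hs : ∀ ξ, g ξ ≠ 0 → a ≤ ‖ξ‖ ∧ ‖ξ‖ ≤ b) : ContDiff ℝ (⊤ : ℕ∞) (ssum L g) := by
  refine contDiff_iff_contDiffAt.mpr fun ξ => ?_
  obtain ⟨J, hJ⟩ := symbA_ev ha hL hs ξ
  exact (ContDiff.sum fun j _ => symbA_term hg _ _).contDiffAt.congr_of_eventuallyEq hJ

lemma symbA_geom (hL : 2 ≤ L) {R : ℝ} (hR : 0 ≤ R) (J : ℕ) :
    ∑ j ∈ Finset.range J, (if L ^ j ≤ R then L ^ j else 0) ≤ L ^ J ∧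
      ∑ j ∈ Finset.range J, (if L ^ j ≤ R then L ^ j else 0) ≤ 2 * R := by
  induction J with
  | zero => simp; linarith
  | succ J ih =>
    have L0 : 0 < L ^ J := by positivity
    have h : 2 * L ^ J ≤ L ^ (J + 1) := by rw [pow_succ']; gcongr
    rw [Finset.sum_range_succ]
    split_ifs with hc
    · constructor <;> linarith [ih.1]
    · constructor <;> linarith [ih.1, ih.2]

lemma symbA_rpow {ρ : ℝ} (h : 0 < ρ) (n : ℕ) : ρ ^ (2 - n : ℝ) = ρ ^ 2 * (ρ ^ n)⁻¹ := by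
  rw [Real.rpow_sub h, Real.rpow_natCast, Real.rpow_two, div_eq_mul_inv]

lemma symbA_scale (hg : ContDiff ℝ (⊤ : ℕ∞) g) (r s : ℝ) (n : ℕ) (ξ : R3) :
    iteratedFDeriv ℝ n (fun η : R3 => r • g (s • η)) ξ =
      (r * s ^ n) • iteratedFDeriv ℝ n g (s • ξ) := by
  have hn : ContDiff ℝ n g := hg.of_le (by exact_mod_cast le_top)
  rw [iteratedFDeriv_const_smul_apply' (f := fun η : R3 => g (s • η))
    (hn.comp (contDiff_const_smul s)).contDiffAt, iteratedFDeriv_comp_const_smul s hn, smul_smul]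

lemma symbA_bound (hg : ContDiff ℝ (⊤ : ℕ∞) g) (n : ℕ) (R : ℝ) :
    ∃ K : ℝ, 0 ≤ K ∧ ∀ ξ : R3, ‖ξ‖ ≤ R → ‖iteratedFDeriv ℝ n g ξ‖ ≤ K := by
  obtain ⟨K, hK⟩ := (isCompact_closedBall (0 : R3) R).exists_bound_of_continuousOn
    (hg.continuous_iteratedFDeriv (m := n) (by exact_mod_cast le_top)).continuousOn
  exact ⟨max K 0, le_max_right _ _, fun ξ h =>
    (hK ξ (by simpa using h)).trans (le_max_left _ _)⟩

theorem ssum_deriv (hg : ContDiff ℝ (⊤ : ℕ∞) g) (ha : 0 < a) (hL : 2 ≤ L)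
    (hs : ∀ ξ, g ξ ≠ 0 → a ≤ ‖ξ‖ ∧ ‖ξ‖ ≤ b) (n : ℕ) :
    ∃ C : ℝ, ∀ ξ, ‖iteratedFDeriv ℝ n (ssum L g) ξ‖ ≤ C * (1 + ‖ξ‖) ^ (2 - n : ℝ) := by
  obtain ⟨K, K0, hK⟩ := symbA_bound hg n b
  have supp : ∀ ξ, iteratedFDeriv ℝ n g ξ ≠ 0 → a ≤ ‖ξ‖ ∧ ‖ξ‖ ≤ b := fun ξ h =>
    closure_minimal (t := {ξ : R3 | a ≤ ‖ξ‖ ∧ ‖ξ‖ ≤ b}) hs
      ((isClosed_le continuous_const continuous_norm).inter
        (isClosed_le continuous_norm continuous_const)) (support_iteratedFDeriv_subset n h)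
  refine ⟨K * (1 + |b|) ^ n / a * (2 / a), fun ξ => ?_⟩
  obtain ⟨J, hJ⟩ := symbA_ev ha hL hs ξ
  rw [(hJ.iteratedFDeriv ℝ n).eq_of_nhds, iteratedFDeriv_fun_sum_apply fun j _ =>
    ((symbA_term hg _ _).of_le (by exact_mod_cast le_top)).contDiffAt]
  set ρ := 1 + ‖ξ‖ with hρ
  have ρ0 : 0 < ρ := by positivity
  have key : ∀ j : ℕ, ‖iteratedFDeriv ℝ n (fun η : R3 => (L ^ j) ^ 2 • g ((L ^ j)⁻¹ • η)) ξ‖ ≤
      K * (1 + |b|) ^ n / a * ρ * (ρ ^ n)⁻¹ * (if L ^ j ≤ ρ / a then L ^ j else 0) := by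
    intro j
    have L1 : 1 ≤ L ^ j := one_le_pow₀ (by linarith)
    generalize L ^ j = r at *
    have r0 : 0 < r := by linarith
    rw [symbA_scale hg]
    by_cases h : iteratedFDeriv ℝ n g (r⁻¹ • ξ) = 0
    · rw [h, smul_zero, norm_zero]
      split_ifs <;> positivity
    obtain ⟨h1, h2⟩ := supp _ h
    have h3 := hK _ h2
    rw [norm_smul, norm_inv, Real.norm_of_nonneg r0.le, ← div_eq_inv_mul] at h1 h2
    rw [le_div_iff₀ r0] at h1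
    rw [div_le_iff₀ r0] at h2
    have h4 : r ≤ ρ / a := by rw [le_div_iff₀ ha]; linarith
    have h5 : ρ ≤ (1 + |b|) * r := by
      have : b * r ≤ |b| * r := by gcongr; exact le_abs_self b
      linarith
    have h6 : r⁻¹ ≤ (1 + |b|) * ρ⁻¹ := by
      rw [← div_eq_mul_inv, ← one_div, div_le_div_iff₀ r0 ρ0]; linarith
    rw [if_pos h4, norm_smul, Real.norm_of_nonneg (by positivity)]
    calc _ ≤ r * (ρ / a) * ((1 + |b|) * ρ⁻¹) ^ n * K := by rw [pow_two]; gcongr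
      _ = _ := by rw [mul_pow, inv_pow]; ring
  refine (norm_sum_le _ _).trans ((Finset.sum_le_sum fun j _ => key j).trans ?_)
  rw [← Finset.mul_sum, symbA_rpow ρ0]
  calc _ ≤ K * (1 + |b|) ^ n / a * ρ * (ρ ^ n)⁻¹ * (2 * (ρ / a)) := by
        gcongr
        exact (symbA_geom hL (by positivity) J).2
    _ = _ := by ring

/-- The symbol `c |ξ|² I`. -/
def quad (c : ℝ) (ξ : R3) : M3 := fun i j => if i = j then c * ∑ l, ξ l ^ 2 else 0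

theorem quad_smooth (c : ℝ) : ContDiff ℝ (⊤ : ℕ∞) (quad c) := by
  refine contDiff_pi.mpr fun i => contDiff_pi.mpr fun j => ?_
  unfold quad
  split_ifs
  · exact contDiff_const.mul (ContDiff.sum fun l _ => (contDiff_apply ℝ ℝ l).pow 2)
  · exact contDiff_const

lemma symbA_hom (c s : ℝ) (ξ : R3) : quad c (s • ξ) = s ^ 2 • quad c ξ := by
  funext i j
  simp only [quad, Pi.smul_apply, smul_eq_mul, Fin.sum_univ_three]
  split_ifs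
  · ring
  · ring

theorem quad_deriv (c : ℝ) (n : ℕ) :
    ∃ C : ℝ, ∀ ξ, ‖iteratedFDeriv ℝ n (quad c) ξ‖ ≤ C * (1 + ‖ξ‖) ^ (2 - n : ℝ) := by
  obtain ⟨K, K0, hK⟩ := symbA_bound (quad_smooth c) n 1
  refine ⟨K, fun ξ => ?_⟩
  set ρ := 1 + ‖ξ‖ with hρ
  have ρ0 : 0 < ρ := by positivity
  have e : quad c = fun η : R3 => ρ ^ 2 • quad c (ρ⁻¹ • η) := by
    funext η
    rw [symbA_hom, smul_smul, ← mul_pow, mul_inv_cancel₀ ρ0.ne', one_pow, one_smul]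
  rw [e, symbA_scale (quad_smooth c), norm_smul, Real.norm_of_nonneg (by positivity),
    symbA_rpow ρ0, inv_pow, mul_comm K]
  gcongr
  refine hK _ ?_
  rw [norm_smul, norm_inv, Real.norm_of_nonneg ρ0.le, ← div_eq_inv_mul, div_le_one ρ0]
  linarith

/-- The difference is a symbol of order two. -/
theorem symbol_deriv (hg : ContDiff ℝ (⊤ : ℕ∞) g) (ha : 0 < a) (hL : 2 ≤ L)
    (hs : ∀ ξ, g ξ ≠ 0 → a ≤ ‖ξ‖ ∧ ‖ξ‖ ≤ b) (c : ℝ) (n : ℕ) :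
    ∃ C : ℝ, ∀ ξ, ‖iteratedFDeriv ℝ n (fun ξ => quad c ξ - ssum L g ξ) ξ‖ ≤
      C * (1 + ‖ξ‖) ^ (2 - n : ℝ) := by
  obtain ⟨C1, h1⟩ := quad_deriv c n
  obtain ⟨C2, h2⟩ := ssum_deriv hg ha hL hs n
  refine ⟨C1 + C2, fun ξ => ?_⟩
  rw [fun_iteratedFDeriv_sub_apply ((quad_smooth c).of_le (by exact_mod_cast le_top)).contDiffAt
    ((ssum_smooth hg ha hL hs).of_le (by exact_mod_cast le_top)).contDiffAt, add_mul]
  exact (norm_sub_le _ _).trans (add_le_add (h1 ξ) (h2 ξ))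

end

end Pool.Agent.Work.MP_6bf1e5_an.Ell.Pd
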