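import Pool.Agent.Work.MP_6bf1e5_an.Ell.SymbA
import Pool.Agent.Work.MP_6bf1e5_an.Ell.CoefA

/-!
The terms of the symbol.
-/

open Set Complex
open scoped InnerProductSpace ComplexConjugate Classical
open Pool.Agent.Work.MP_6bf1e5_an.B
open Pool.Agent.Work.MP_6bf1e5_an.Dec

namespace Pool.Agent.Work.MP_6bf1e5_an.Ell.Pd

noncomputable section

variable (G : Geo)

/-- The offset of the frequency `ξ` from the carrier of `F` moved by `g`. -/
def ofs (F : Fam) (g : Gp) (ξ : R3) : R3 := fun l =>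
  ((g.2 : ℤ) : ℝ) * ξ (l + g.1) / (2 * Real.pi) - F.ctr G l

/-- The damping removed near the teeth of `F` moved by `g`. -/
def ct (F : Fam) (g : Gp) (ξ : R3) : M3 := fun i j =>
  (if i = j then wid G F (ofs G F g ξ) * (G.C * ∑ l, ξ l ^ 2 - G.Gc F.ix) else 0) +
    chi G F (ofs G F g ξ) * (G.Gc F.ix - F.dd G) *
      (lp (WithLp.toLp 2 ξ) (ge g (F.e G)) i * ur (WithLp.toLp 2 ξ) (ge g (F.e G)) j)

/-- The family of the same kind with scale index `j`. -/
def at' (j : ℕ) : Fam → Fam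
  | .b _ => .b j
  | .c _ => .c j
  | .y _ i => .y j i

/-- The families with scale index `0`. -/
def fam0 : Finset Fam := insert (.b 0) (insert (.c 0) ((Finset.Icc 1 G.La).image (Fam.y 0)))

/-- The profile of the symbol. -/
def g0 (ξ : R3) : M3 := ∑ F ∈ fam0 G, ∑ g : Gp, ct G F g ξ

/-- The symbol. -/
def sig (ξ : R3) : M3 := quad G.C ξ - ssum G.La (g0 G) ξ

variable {G}

/-- Where the cutoff does not vanish the frequency lies in the open box of a tooth. -/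
lemma chi_ne_zero {F : Fam} {x : R3} (h : chi G F x ≠ 0) :
    ∃ c ∈ F.cens G, ∀ i, |x i - c i| < F.rad G i + 1 := by
  obtain ⟨c, hc, h1⟩ := Finset.exists_ne_zero_of_sum_ne_zero h
  exact ⟨c, hc, fun i => chi1_ne_zero h1 i⟩

lemma symbB_double {F : Fam} {x : R3} {c : Z3} (h : ∀ i, |x i - c i| < F.rad G i + 1) (i : Fin 3) :
    |x i - c i| < 2 * (F.rad G i + 1) := by
  have h1 := h i
  have h2 : (0 : ℝ) ≤ F.rad G i := Nat.cast_nonneg _
  linarith

lemma chi_bounds {F : Fam} (hF : F.ok G) (x : R3) : 0 ≤ chi G F x ∧ chi G F x ≤ 1 := by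
  refine ⟨Finset.sum_nonneg fun c _ => chi1_nonneg _ _, ?_⟩
  by_cases h : chi G F x = 0
  · rw [h]; exact zero_le_one
  · obtain ⟨c, hc, h1⟩ := chi_ne_zero h
    rw [(wid_tooth hF hc (symbB_double h1)).2]
    exact chi1_le_one _ _

lemma wid_le_one {F : Fam} (hF : F.ok G) (x : R3) : wid G F x ≤ 1 := by
  by_cases h : wid G F x = 0
  · rw [h]; exact zero_le_one
  · obtain ⟨c, hc, h1⟩ := wid_ne_zero h
    rw [(wid_tooth hF hc h1).1]
    exact wid1_le_one _ _

lemma wid_of_chi {F : Fam} (hF : F.ok G) {x : R3} (h : chi G F x ≠ 0) : wid G F x = 1 := by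
  obtain ⟨c, hc, h1⟩ := chi_ne_zero h
  rw [(wid_tooth hF hc (symbB_double h1)).1]
  exact wid1_one fun i => (h1 i).le

lemma symbB_sign (g : Gp) : ((g.2 : ℤ) : ℝ) = 1 ∨ ((g.2 : ℤ) : ℝ) = -1 := by
  rcases Int.units_eq_one_or g.2 with h | h <;> simp [h]

/-- The frequency in terms of the offset. -/
lemma symbB_xi (F : Fam) (g : Gp) (ξ : R3) (m : Fin 3) :
    ξ m = ((g.2 : ℤ) : ℝ) * (2 * Real.pi * (F.ctr G (m - g.1) + ofs G F g ξ (m - g.1))) := by
  have hp : (2 * Real.pi) ≠ 0 := by positivity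
  unfold ofs
  rw [sub_add_cancel]
  rcases symbB_sign g with h | h <;> rw [h] <;> field_simp <;> ring

lemma symbB_off (j : ℕ) (o : Fin 4) (i : Fin 3) : |(G.off j o i : ℝ)| ≤ G.n j := by
  have h : (0 : ℝ) ≤ G.n j := Nat.cast_nonneg _
  fin_cases o <;> fin_cases i <;> simp [Geo.off, h]

/-- The doubled boxes are small. -/
lemma symbB_ofs {F : Fam} {x : R3} {c : Z3} (hc : c ∈ F.cens G)
    (h : ∀ i, |x i - c i| ≤ 2 * (F.rad G i + 1)) (i : Fin 3) : |x i| ≤ G.P F.ix / 100 := by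
  have h1 : |x i| ≤ 2 * (G.n (F.ix + 1) : ℝ) := by
    have e1 : |x i| ≤ |x i - c i| + |(c i : ℝ)| := by
      have := abs_add_le (x i - c i) (c i : ℝ)
      rwa [sub_add_cancel] at this
    have e2 := h i
    cases F with
    | b j =>
      obtain ⟨o, rfl⟩ := mem_cens_b.1 hc
      have e3 := symbB_off (G := G) j o i
      have e4 : (1000 : ℝ) * (G.rb j i + 1) ≤ G.n j := by exact_mod_cast rb_small G j i
      have e5 : (G.n j : ℝ) ≤ G.n (j + 1) := by exact_mod_cast n_mono G (Nat.le_succ j)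
      have e6 : (0 : ℝ) ≤ G.n j := Nat.cast_nonneg _
      simp only [Fam.rad, Fam.ix] at e2 ⊢
      linarith
    | c j =>
      obtain ⟨o, rfl⟩ := mem_cens_c.1 hc
      have e3 := symbB_off (G := G) (j + 1) o i
      have e4 : (1000 : ℝ) * (G.rc (j + 1) i + 1) ≤ G.n (j + 1) := by
        exact_mod_cast rc_small G (j + 1) i
      have e6 : (0 : ℝ) ≤ G.n (j + 1) := Nat.cast_nonneg _
      simp only [Fam.rad, Fam.ix] at e2 ⊢
      linarith
    | y j k =>
      have e3 : c = 0 := by simpa [Fam.cens] using hc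
      have e4 : (4 : ℝ) * (G.ry j i + 1) = G.n (j + 1) := by exact_mod_cast ry_succ G j i
      have e6 : (0 : ℝ) ≤ G.n (j + 1) := Nat.cast_nonneg _
      subst e3
      simp only [Fam.rad, Fam.ix, Pi.zero_apply, Int.cast_zero, abs_zero] at e1 e2 ⊢
      linarith
  have h2 : 10 ^ 100 * G.n (F.ix + 1) ≤ G.P F.ix := by
    rw [P_eq]
    refine n_lt G ?_
    have := kk_big G
    have h3 : 2 ≤ 10 ^ 100 := by norm_num
    omega
  have h3 : 1000 * G.n (F.ix + 1) ≤ G.P F.ix :=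
    le_trans (Nat.mul_le_mul_right _ (by norm_num)) h2
  have h4 : (1000 : ℝ) * G.n (F.ix + 1) ≤ G.P F.ix := by exact_mod_cast h3
  have h5 : (0 : ℝ) ≤ G.n (F.ix + 1) := Nat.cast_nonneg _
  linarith

lemma symbB_La : (1000 : ℝ) ≤ G.La := by
  have h : 1000 ≤ G.La := le_trans (by norm_num) (La_big G)
  exact_mod_cast h

lemma symbB_P (j : ℕ) : 1000 * (G.P j : ℝ) ≤ G.P (j + 1) := by
  rw [P_succ, Nat.cast_mul]
  exact mul_le_mul_of_nonneg_right symbB_La (Nat.cast_nonneg _)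

lemma symbB_P_pos (j : ℕ) : (0 : ℝ) < G.P j := by
  have h := lam_pos G j
  unfold Geo.lam at h
  by_contra h1
  have h2 : (G.P j : ℝ) = 0 := le_antisymm (not_lt.1 h1) (Nat.cast_nonneg _)
  rw [h2, mul_zero] at h
  linarith

lemma symbB_ctr_lo (F : Fam) : ∃ l, (F.ctr G l : ℝ) = G.P F.ix := by
  cases F with
  | b j => exact ⟨0, by simp [Fam.ctr, Fam.ix]⟩
  | c j => exact ⟨1, by simp [Fam.ctr, Fam.ix]⟩
  | y j i => exact ⟨1, by simp [Fam.ctr, Fam.ix]⟩

lemma symbB_ctr_hi {F : Fam} (hF : F.ok G) (l : Fin 3) :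
    |(F.ctr G l : ℝ)| ≤ G.P (F.ix + 1) := by
  have h := (car_size (J := F.ix) (ci_le hF) (cg F)).2 l
  rw [← ctr_eq] at h
  exact_mod_cast h

lemma symbB_exp : 12 * (G.La : ℝ) ^ 2 ≤ Real.exp (G.t ^ 21 / 2) := by
  rw [← La_cast]
  have h := symbB_La (G := G)
  have h1 := Real.pow_div_factorial_le_exp ((G.La : ℝ) / 2) (by linarith) 3
  refine le_trans ?_ h1
  generalize (G.La : ℝ) = L at *
  have h2 : (Nat.factorial 3 : ℝ) = 6 := by norm_num [Nat.factorial]
  rw [h2]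
  nlinarith [mul_le_mul_of_nonneg_right h (sq_nonneg L)]

lemma symbB_sum (F : Fam) (g : Gp) (ξ : R3) :
    ∑ l, ξ l ^ 2 = (2 * Real.pi) ^ 2 * ∑ l, (F.ctr G l + ofs G F g ξ l) ^ 2 := by
  rw [Finset.mul_sum, ← Equiv.sum_comp (Equiv.subRight g.1)
    (fun l => (2 * Real.pi) ^ 2 * ((F.ctr G l : ℝ) + ofs G F g ξ l) ^ 2)]
  refine Finset.sum_congr rfl fun m _ => ?_
  rw [symbB_xi (G := G) F g ξ m, Equiv.subRight_apply]
  rcases symbB_sign g with h | h <;> rw [h] <;> ring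

/-- On the doubled boxes the frequency is comparable to the carrier. -/
lemma box_facts {F : Fam} (hF : F.ok G) (g : Gp) {ξ : R3} {c : Z3} (hc : c ∈ F.cens G)
    (h : ∀ i, |ofs G F g ξ i - c i| ≤ 2 * (F.rad G i + 1)) :
    G.lam F.ix / 4 ≤ ‖ξ‖ ∧ ‖ξ‖ ≤ 2 * G.lam (F.ix + 1) ∧ ∑ l, ξ l ^ 2 ≤ F.dd G ∧
      G.C * ∑ l, ξ l ^ 2 ≤ G.Gc F.ix ∧ lp (WithLp.toLp 2 ξ) (ge g (F.e G)) ≠ 0 := by
  have hx := symbB_ofs hc h
  have hP := symbB_P (G := G) F.ix
  have hP0 := symbB_P_pos (G := G) F.ix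
  have hp : 0 < 2 * Real.pi := by positivity
  have habs : ∀ m, |ξ m| = 2 * Real.pi * |F.ctr G (m - g.1) + ofs G F g ξ (m - g.1)| := by
    intro m
    rw [symbB_xi (G := G) F g ξ m, abs_mul, abs_mul, abs_of_pos hp]
    rcases symbB_sign g with h | h <;> rw [h] <;> simp
  have hhi : ∀ m, |ξ m| ≤ 2 * G.lam (F.ix + 1) := by
    intro m
    rw [habs]
    have e1 := abs_add_le (F.ctr G (m - g.1) : ℝ) (ofs G F g ξ (m - g.1))
    have e2 := symbB_ctr_hi hF (m - g.1)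
    have e3 := hx (m - g.1)
    unfold Geo.lam
    have e4 : |F.ctr G (m - g.1) + ofs G F g ξ (m - g.1)| ≤ 2 * (G.P (F.ix + 1) : ℝ) := by linarith
    calc _ ≤ 2 * Real.pi * (2 * (G.P (F.ix + 1) : ℝ)) := mul_le_mul_of_nonneg_left e4 hp.le
      _ = _ := by ring
  have hsq : ∑ l, ξ l ^ 2 ≤ 12 * G.lam (F.ix + 1) ^ 2 := by
    have e : ∀ m, ξ m ^ 2 ≤ (2 * G.lam (F.ix + 1)) ^ 2 := fun m => by
      rw [← sq_abs]
      exact pow_le_pow_left₀ (abs_nonneg _) (hhi m) 2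
    rw [Fin.sum_univ_three]
    linarith [e 0, e 1, e 2]
  obtain ⟨l0, hl0⟩ := symbB_ctr_lo (G := G) F
  refine ⟨?_, ?_, ?_, ?_, ?_⟩
  · refine le_trans ?_ (norm_le_pi_norm ξ (l0 + g.1))
    rw [Real.norm_eq_abs, habs, add_sub_cancel_right, hl0]
    have e1 := abs_le.1 (hx l0)
    have e2 : (G.P F.ix : ℝ) / 4 ≤ |G.P F.ix + ofs G F g ξ l0| :=
      le_trans (by linarith [e1.1]) (le_abs_self _)
    unfold Geo.lam
    calc _ = 2 * Real.pi * ((G.P F.ix : ℝ) / 4) := by ring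
      _ ≤ _ := mul_le_mul_of_nonneg_left e2 hp.le
  · have := lam_pos G (F.ix + 1)
    exact (pi_norm_le_iff_of_nonneg (by linarith)).2 fun m => hhi m
  · cases F with
    | b j =>
      rw [symbB_sum (G := G) (.b j) g ξ, Fin.sum_univ_three]
      have e0 := abs_le.1 (hx 0)
      have e1 := abs_le.1 (hx 1)
      have e2 := abs_le.1 (hx 2)
      simp only [Fam.ix] at e0 e1 e2 hP0
      have e : (G.P j + ofs G (.b j) g ξ 0) ^ 2 + ofs G (.b j) g ξ 1 ^ 2 +
          ofs G (.b j) g ξ 2 ^ 2 ≤ 2 * (G.P j : ℝ) ^ 2 := by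
        nlinarith [e0.1, e0.2, e1.1, e1.2, e2.1, e2.2]
      have e' := mul_le_mul_of_nonneg_left e (sq_nonneg (2 * Real.pi))
      simp only [Fam.dd, Geo.d, Geo.lam, Fam.ctr]
      simp only [Matrix.cons_val_zero, Matrix.cons_val_one, Matrix.cons_val, Int.cast_natCast,
        Int.cast_zero, zero_add]
      linarith
    | c j =>
      rw [symbB_sum (G := G) (.c j) g ξ, Fin.sum_univ_three]
      have e0 := abs_le.1 (hx 0)
      have e1 := abs_le.1 (hx 1)
      have e2 := abs_le.1 (hx 2)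
      simp only [Fam.ix] at e0 e1 e2 hP0 hP
      have e : (G.P (j + 1) + ofs G (.c j) g ξ 0) ^ 2 + (G.P j + ofs G (.c j) g ξ 1) ^ 2 +
          ofs G (.c j) g ξ 2 ^ 2 ≤ 2 * (G.P (j + 1) : ℝ) ^ 2 := by
        generalize (G.P (j + 1) : ℝ) = Q at *
        generalize (G.P j : ℝ) = P at *
        generalize ofs G (.c j) g ξ 0 = a at *
        generalize ofs G (.c j) g ξ 1 = b at *
        generalize ofs G (.c j) g ξ 2 = d at *
        have a0 : (Q + a) ^ 2 ≤ (11 / 10 * Q) ^ 2 :=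
          sq_le_sq' (by linarith [e0.1]) (by linarith [e0.2])
        have a1 : (P + b) ^ 2 ≤ (1 / 10 * Q) ^ 2 :=
          sq_le_sq' (by linarith [e1.1]) (by linarith [e1.2])
        have a2 : d ^ 2 ≤ (1 / 10 * Q) ^ 2 :=
          sq_le_sq' (by linarith [e2.1]) (by linarith [e2.2])
        linarith [sq_nonneg Q]
      have e' := mul_le_mul_of_nonneg_left e (sq_nonneg (2 * Real.pi))
      simp only [Fam.dd, Geo.d, Geo.lam, Fam.ctr]
      simp only [Matrix.cons_val_zero, Matrix.cons_val_one, Matrix.cons_val, Int.cast_natCast,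
        Int.cast_zero, zero_add]
      linarith
    | y j i =>
      refine hsq.trans ?_
      simp only [Fam.ix, Fam.dd, Geo.D]
      rw [lam_succ, ← La_cast, mul_pow, ← mul_assoc, La_cast]
      refine mul_le_mul_of_nonneg_right ?_ (sq_nonneg _)
      rw [← La_cast]
      have := symbB_exp (G := G)
      rwa [← La_cast] at this
  · unfold Geo.Gc
    have hC : 0 ≤ G.C := (Real.exp_pos _).le
    calc _ ≤ G.C * (12 * G.lam (F.ix + 1) ^ 2) := mul_le_mul_of_nonneg_left hsq hC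
      _ = _ := by ring
  · obtain ⟨δ, hδ⟩ : ∃ δ : E3, δ = WithLp.toLp 2 fun l => 2 * Real.pi * ofs G F g ξ l := ⟨_, rfl⟩
    have e1 : (WithLp.toLp 2 ξ : E3) = ge g (xi (F.ctr G) + δ) := by
      ext m
      rw [hδ]
      simp only [ge, xi, PiLp.add_apply]
      rw [symbB_xi (G := G) F g ξ m]
      ring
    have e2 : 2 * Real.pi * G.P F.ix ≤ ‖xi (F.ctr G)‖ := by
      have := abs_xi_le (F.ctr G) l0
      rw [ax_eq_norm, hl0] at this
      exact (le_abs_self _).trans this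
    have e3 : ‖δ‖ ≤ 1 / 10 * (2 * Real.pi * G.P F.ix) := by
      rw [EuclideanSpace.norm_eq]
      refine Real.sqrt_le_iff.2 ⟨by positivity, ?_⟩
      have e : ∀ l, ‖δ l‖ ^ 2 ≤ (2 * Real.pi * (G.P F.ix / 100)) ^ 2 := fun l => by
        refine pow_le_pow_left₀ (norm_nonneg _) ?_ 2
        rw [hδ, Real.norm_eq_abs, abs_mul, abs_of_pos hp]
        exact mul_le_mul_of_nonneg_left (hx l) hp.le
      rw [Fin.sum_univ_three]
      linarith [e 0, e 1, e 2, sq_nonneg (2 * Real.pi * G.P F.ix)]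
    have e4 : xi (F.ctr G) ≠ 0 := by
      intro h0
      rw [h0, norm_zero] at e2
      nlinarith
    have e5 := lp_near (e_orth hF) (η := 1 / 10) (δ := δ) (by linarith) le_rfl e4
    rw [e1, lp_ge]
    intro h0
    have e6 := norm_ge g (lp (xi (F.ctr G) + δ) (F.e G))
    rw [h0, norm_zero] at e6
    rw [norm_eq_zero.1 e6.symm, zero_sub, norm_neg] at e5
    have := norm_e_lo G F
    linarith

lemma symbB_bmp (δ : ℝ) : ContDiff ℝ (⊤ : ℕ∞) (bmp δ) := by
  unfold bmp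
  exact (Real.smoothTransition.contDiff.comp ((contDiff_const.sub contDiff_id).div_const δ)).mul
    (Real.smoothTransition.contDiff.comp ((contDiff_const.add contDiff_id).div_const δ))

lemma symbB_ofs_smooth (F : Fam) (g : Gp) (l : Fin 3) :
    ContDiff ℝ (⊤ : ℕ∞) fun ξ : R3 => ofs G F g ξ l := by
  unfold ofs
  exact ((contDiff_const.mul (contDiff_apply ℝ ℝ (l + g.1))).div_const _).sub contDiff_const

lemma symbB_chi_smooth (F : Fam) (g : Gp) :
    ContDiff ℝ (⊤ : ℕ∞) fun ξ : R3 => chi G F (ofs G F g ξ) := by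
  unfold chi chi1
  refine ContDiff.sum fun c _ => contDiff_prod fun i _ => ?_
  exact (symbB_bmp _).comp (((symbB_ofs_smooth F g i).sub contDiff_const).div_const _)

lemma symbB_wid_smooth (F : Fam) (g : Gp) :
    ContDiff ℝ (⊤ : ℕ∞) fun ξ : R3 => wid G F (ofs G F g ξ) := by
  unfold wid wid1
  refine ContDiff.sum fun c _ => contDiff_prod fun i _ => ?_
  exact (symbB_bmp _).comp (((symbB_ofs_smooth F g i).sub contDiff_const).div_const _)

lemma symbB_sq_smooth : ContDiff ℝ (⊤ : ℕ∞) fun ξ : R3 => ∑ l, ξ l ^ 2 :=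
  ContDiff.sum fun l _ => (contDiff_apply ℝ ℝ l).pow 2

lemma symbB_norm_sq (v : E3) : ‖v‖ ^ 2 = ∑ l, v l ^ 2 := by
  rw [EuclideanSpace.norm_sq_eq]
  simp

lemma symbB_lp_apply (ξ : R3) (e : E3) (i : Fin 3) :
    lp (WithLp.toLp 2 ξ) e i = e i - (∑ l, e l * ξ l) / (∑ l, ξ l ^ 2) * ξ i := by
  unfold lp
  rw [symbB_norm_sq]
  simp [PiLp.inner_apply]

lemma symbB_lp_smooth {ξ : R3} (hξ : ξ ≠ 0) (e : E3) (i : Fin 3) :
    ContDiffAt ℝ (⊤ : ℕ∞) (fun ξ : R3 => lp (WithLp.toLp 2 ξ) e i) ξ := by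
  simp only [symbB_lp_apply]
  have h : ∑ l, ξ l ^ 2 ≠ 0 := by
    intro h0
    rw [Finset.sum_eq_zero_iff_of_nonneg fun _ _ => sq_nonneg _] at h0
    exact hξ (funext fun l => pow_eq_zero_iff (two_ne_zero) |>.1 (h0 l (Finset.mem_univ l)))
  have h1 : ContDiff ℝ (⊤ : ℕ∞) fun ξ : R3 => ∑ l, e l * ξ l :=
    ContDiff.sum fun l _ => contDiff_const.mul (contDiff_apply ℝ ℝ l)
  exact contDiffAt_const.sub ((h1.contDiffAt.div symbB_sq_smooth.contDiffAt h).mul
    (contDiff_apply ℝ ℝ i).contDiffAt)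

lemma symbB_ur_smooth {ξ : R3} (hξ : ξ ≠ 0) {e : E3} (he : lp (WithLp.toLp 2 ξ) e ≠ 0) (i : Fin 3) :
    ContDiffAt ℝ (⊤ : ℕ∞) (fun ξ : R3 => ur (WithLp.toLp 2 ξ) e i) ξ := by
  have e1 : (fun ξ : R3 => ur (WithLp.toLp 2 ξ) e i) = fun ξ : R3 =>
      (∑ l, lp (WithLp.toLp 2 ξ) e l ^ 2)⁻¹ * lp (WithLp.toLp 2 ξ) e i := by
    funext ξ
    rw [ur, symbB_norm_sq]
    simp
  rw [e1]
  refine ContDiffAt.mul (ContDiffAt.inv
    (ContDiffAt.sum fun l _ => (symbB_lp_smooth hξ e l).pow 2) ?_) (symbB_lp_smooth hξ e i)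
  rw [← symbB_norm_sq]
  exact pow_ne_zero 2 (norm_ne_zero_iff.2 he)

theorem ct_smooth {F : Fam} (hF : F.ok G) (g : Gp) : ContDiff ℝ (⊤ : ℕ∞) (ct G F g) := by
  refine contDiff_pi.2 fun i => contDiff_pi.2 fun j => ?_
  unfold ct
  refine ContDiff.add ?_ (contDiff_iff_contDiffAt.2 fun ξ => ?_)
  · split_ifs
    · exact (symbB_wid_smooth F g).mul ((contDiff_const.mul symbB_sq_smooth).sub contDiff_const)
    · exact contDiff_const
  by_cases h : ∃ c ∈ F.cens G, ∀ l, |ofs G F g ξ l - c l| ≤ F.rad G l + 1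
  · obtain ⟨c, hc, h1⟩ := h
    have h2 := box_facts hF g hc fun l => by
      have e1 := h1 l
      have e2 : (0 : ℝ) ≤ F.rad G l := Nat.cast_nonneg _
      linarith
    have h3 : ξ ≠ 0 := by
      intro h0
      have e1 := h2.1
      have e2 := lam_pos G F.ix
      rw [h0, norm_zero] at e1
      linarith
    exact ((symbB_chi_smooth F g).contDiffAt.mul contDiffAt_const).mul
      ((symbB_lp_smooth h3 _ i).mul (symbB_ur_smooth h3 h2.2.2.2.2 j))
  · have h1 : ∀ᶠ η in nhds ξ, ∀ c ∈ F.cens G, ∃ l, (F.rad G l : ℝ) + 1 < |ofs G F g η l - c l| := by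
      refine (Filter.eventually_all_finset _).2 fun c hc => ?_
      have e1 : ∃ l, (F.rad G l : ℝ) + 1 < |ofs G F g ξ l - c l| := by
        by_contra e2
        exact h ⟨c, hc, fun l => not_lt.1 fun e3 => e2 ⟨l, e3⟩⟩
      obtain ⟨l, hl⟩ := e1
      have e2 : Continuous fun η : R3 => |ofs G F g η l - c l| :=
        ((symbB_ofs_smooth F g l).continuous.sub continuous_const).abs
      exact (e2.continuousAt.eventually (lt_mem_nhds hl)).mono fun η hη => ⟨l, hη⟩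
    refine (contDiffAt_const (c := (0 : ℝ))).congr_of_eventuallyEq (h1.mono fun η hη => ?_)
    have e1 : chi G F (ofs G F g η) = 0 := by
      by_contra e2
      obtain ⟨c, hc, e3⟩ := chi_ne_zero e2
      obtain ⟨l, hl⟩ := hη c hc
      exact lt_asymm hl (e3 l)
    simp only [e1, zero_mul]

lemma symbB_lp_smul {s : ℝ} (hs : s ≠ 0) (ξ e : E3) : lp (s • ξ) e = lp ξ e := by
  unfold lp
  rw [real_inner_smul_left, norm_smul, smul_smul, mul_pow, Real.norm_eq_abs, sq_abs]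
  congr 2
  by_cases h : ‖ξ‖ = 0
  · simp [h]
  · field_simp

lemma symbB_n (j k : ℕ) : G.n (j + k) = G.La ^ j * G.n k := by
  unfold Geo.n
  ring

lemma symbB_Phom (j k : ℕ) : G.P (j + k) = G.La ^ j * G.P k := by
  unfold Geo.P
  rw [symbB_n, mul_assoc]

lemma symbB_lam (j k : ℕ) : G.lam (j + k) = (G.La : ℝ) ^ j * G.lam k := by
  unfold Geo.lam
  rw [symbB_Phom]
  push_cast
  ring

lemma symbB_off_hom (j k : ℕ) (o : Fin 4) (i : Fin 3) :
    (G.off (j + k) o i : ℝ) = (G.La : ℝ) ^ j * G.off k o i := by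
  fin_cases o <;> fin_cases i <;> simp [Geo.off, symbB_n]

lemma symbB_ctr_hom {F : Fam} (hF : F.ix = 0) (j : ℕ) (l : Fin 3) :
    ((at' j F).ctr G l : ℝ) = (G.La : ℝ) ^ j * F.ctr G l := by
  have h0 := symbB_Phom (G := G) j 0
  have h1 := symbB_Phom (G := G) j 1
  rw [add_zero] at h0
  cases F with
  | b i =>
    obtain rfl : i = 0 := hF
    fin_cases l <;> simp [at', Fam.ctr, h0]
  | c i =>
    obtain rfl : i = 0 := hF
    fin_cases l <;> simp [at', Fam.ctr, h0, h1]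
  | y i k =>
    obtain rfl : i = 0 := hF
    fin_cases l <;> simp [at', Fam.ctr, h0, mul_left_comm]

lemma symbB_rad_hom {F : Fam} (hF : F.ix = 0) (j : ℕ) (l : Fin 3) :
    ((at' j F).rad G l : ℝ) + 1 = (G.La : ℝ) ^ j * (F.rad G l + 1) := by
  cases F with
  | b i =>
    obtain rfl : i = 0 := hF
    exact_mod_cast rb_hom G j l
  | c i =>
    obtain rfl : i = 0 := hF
    exact_mod_cast rc_hom G j l
  | y i k =>
    obtain rfl : i = 0 := hF
    exact_mod_cast ry_hom G j l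

lemma symbB_cens_hom {F : Fam} (hF : F.ix = 0) (j : ℕ) (Φ : R3 → ℝ) :
    ∑ c ∈ (at' j F).cens G, Φ (fun l => c l) =
      ∑ c ∈ F.cens G, Φ fun l => (G.La : ℝ) ^ j * c l := by
  cases F with
  | b i =>
    obtain rfl : i = 0 := hF
    simp only [at', Fam.cens]
    rw [Finset.sum_image fun a _ b _ h => off_injective _ h,
      Finset.sum_image fun a _ b _ h => off_injective _ h]
    refine Finset.sum_congr rfl fun o _ => ?_
    congr 1
    funext l
    exact symbB_off_hom j 0 o l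
  | c i =>
    obtain rfl : i = 0 := hF
    simp only [at', Fam.cens]
    rw [Finset.sum_image fun a _ b _ h => off_injective _ h,
      Finset.sum_image fun a _ b _ h => off_injective _ h]
    refine Finset.sum_congr rfl fun o _ => ?_
    congr 1
    funext l
    exact symbB_off_hom j 1 o l
  | y i k => simp [at', Fam.cens]

lemma symbB_ofs_hom {F : Fam} (hF : F.ix = 0) (g : Gp) (j : ℕ) (ξ : R3) (l : Fin 3) :
    ofs G (at' j F) g ξ l = (G.La : ℝ) ^ j * ofs G F g (((G.La : ℝ) ^ j)⁻¹ • ξ) l := by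
  have hL : (G.La : ℝ) ^ j ≠ 0 := pow_ne_zero _ (by linarith [symbB_La (G := G)])
  unfold ofs
  rw [symbB_ctr_hom hF, Pi.smul_apply, smul_eq_mul]
  field_simp

lemma symbB_chi_hom {F : Fam} (hF : F.ix = 0) (g : Gp) (j : ℕ) (ξ : R3) :
    chi G (at' j F) (ofs G (at' j F) g ξ) = chi G F (ofs G F g (((G.La : ℝ) ^ j)⁻¹ • ξ)) := by
  have hL : (G.La : ℝ) ^ j ≠ 0 := pow_ne_zero _ (by linarith [symbB_La (G := G)])
  unfold chi
  rw [symbB_cens_hom hF j fun c => chi1 G ((at' j F).rad G) fun i => ofs G (at' j F) g ξ i - c i]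
  refine Finset.sum_congr rfl fun c _ => ?_
  unfold chi1
  refine Finset.prod_congr rfl fun i _ => ?_
  beta_reduce
  rw [symbB_rad_hom hF, symbB_ofs_hom hF, ← mul_sub, mul_div_mul_left _ _ hL]

lemma symbB_wid_hom {F : Fam} (hF : F.ix = 0) (g : Gp) (j : ℕ) (ξ : R3) :
    wid G (at' j F) (ofs G (at' j F) g ξ) = wid G F (ofs G F g (((G.La : ℝ) ^ j)⁻¹ • ξ)) := by
  have hL : (G.La : ℝ) ^ j ≠ 0 := pow_ne_zero _ (by linarith [symbB_La (G := G)])
  unfold wid
  rw [symbB_cens_hom hF j fun c => wid1 ((at' j F).rad G) fun i => ofs G (at' j F) g ξ i - c i]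
  refine Finset.sum_congr rfl fun c _ => ?_
  unfold wid1
  refine Finset.prod_congr rfl fun i _ => ?_
  beta_reduce
  rw [symbB_rad_hom hF, symbB_ofs_hom hF, ← mul_sub, mul_left_comm, mul_div_mul_left _ _ hL]

lemma symbB_Gc_hom {F : Fam} (hF : F.ix = 0) (j : ℕ) :
    G.Gc (at' j F).ix = ((G.La : ℝ) ^ j) ^ 2 * G.Gc F.ix := by
  have h : (at' j F).ix = j := by cases F <;> rfl
  rw [h, hF]
  unfold Geo.Gc
  rw [symbB_lam j 1, zero_add]
  ring

lemma symbB_dd_hom {F : Fam} (hF : F.ix = 0) (j : ℕ) :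
    (at' j F).dd G = ((G.La : ℝ) ^ j) ^ 2 * F.dd G := by
  have h0 := symbB_lam (G := G) j 0
  have h1 := symbB_lam (G := G) j 1
  rw [add_zero] at h0
  cases F with
  | b i =>
    obtain rfl : i = 0 := hF
    simp only [at', Fam.dd, Geo.d]
    rw [h0]
    ring
  | c i =>
    obtain rfl : i = 0 := hF
    simp only [at', Fam.dd, Geo.d]
    rw [h1, zero_add]
    ring
  | y i k =>
    obtain rfl : i = 0 := hF
    simp only [at', Fam.dd, Geo.D]
    rw [h0]
    ring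

theorem ct_hom {F : Fam} (hF : F.ix = 0) (g : Gp) (j : ℕ) (ξ : R3) :
    ((G.La : ℝ) ^ j) ^ 2 • ct G F g (((G.La : ℝ) ^ j)⁻¹ • ξ) = ct G (at' j F) g ξ := by
  have hL : (G.La : ℝ) ^ j ≠ 0 := pow_ne_zero _ (by linarith [symbB_La (G := G)])
  have he : (at' j F).e G = F.e G := by cases F <;> rfl
  have h1 : lp (WithLp.toLp 2 (((G.La : ℝ) ^ j)⁻¹ • ξ)) (ge g (F.e G)) =
      lp (WithLp.toLp 2 ξ) (ge g (F.e G)) := symbB_lp_smul (inv_ne_zero hL) (WithLp.toLp 2 ξ) _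
  have h2 : ((G.La : ℝ) ^ j) ^ 2 * ∑ l, (((G.La : ℝ) ^ j)⁻¹ • ξ) l ^ 2 = ∑ l, ξ l ^ 2 := by
    rw [Finset.mul_sum]
    refine Finset.sum_congr rfl fun l _ => ?_
    rw [Pi.smul_apply, smul_eq_mul]
    field_simp
  funext a b
  rw [Pi.smul_apply, Pi.smul_apply, smul_eq_mul]
  unfold ct ur
  rw [symbB_chi_hom hF, symbB_wid_hom hF, symbB_Gc_hom hF, symbB_dd_hom hF, he, h1, ← h2]
  split_ifs <;> ring

theorem ct_neg (F : Fam) (g : Gp) (ξ : R3) : ct G F g (-ξ) = ct G F (g.1, -g.2) ξ := by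
  have h1 : ofs G F g (-ξ) = ofs G F (g.1, -g.2) ξ := by
    funext l
    simp [ofs]
  have h2 : ge (g.1, -g.2) (F.e G) = -ge g (F.e G) := by
    ext l
    simp [ge]
  have h3 : lp (WithLp.toLp 2 (-ξ)) (ge g (F.e G)) = lp (WithLp.toLp 2 ξ) (ge g (F.e G)) := by
    have := symbB_lp_smul (s := -1) (by norm_num) (WithLp.toLp 2 ξ) (ge g (F.e G))
    rwa [neg_one_smul] at this
  have h4 : lp (WithLp.toLp 2 ξ) (-ge g (F.e G)) = -lp (WithLp.toLp 2 ξ) (ge g (F.e G)) := by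
    unfold lp
    rw [inner_neg_right, neg_div, neg_smul]
    abel
  funext a b
  unfold ct ur
  rw [h1, h2, h3, h4, norm_neg]
  simp

/-- At most one term is present at each frequency. -/
theorem ct_unique {F F' : Fam} (hF : F.ok G) (hF' : F'.ok G) {g g' : Gp} {ξ : R3}
    (h : wid G F (ofs G F g ξ) ≠ 0) (h' : wid G F' (ofs G F' g' ξ) ≠ 0) : F = F' ∧ g = g' := by
  obtain ⟨c, hc, h1⟩ := wid_ne_zero h
  obtain ⟨c', hc', h1'⟩ := wid_ne_zero h'
  have key : ∀ (F : Fam) (g : Gp) (c : Z3) (i : Fin 3),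
      |ξ i / (2 * Real.pi) - pt G F g c i| = |ofs G F g ξ (i - g.1) - c (i - g.1)| := by
    intro F g c i
    have e : ξ i / (2 * Real.pi) - pt G F g c i =
        ((g.2 : ℤ) : ℝ) * (ofs G F g ξ (i - g.1) - c (i - g.1)) := by
      unfold ofs pt gz
      rw [sub_add_cancel]
      push_cast [Pi.add_apply]
      rcases symbB_sign g with h | h <;> rw [h] <;> ring
    rw [e, abs_mul]
    rcases symbB_sign g with h | h <;> rw [h] <;> simp
  have := sep hF hF' hc hc' (g := g) (g' := g') fun i => by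
    have e1 := h1 (i - g.1)
    have e2 := h1' (i - g'.1)
    rw [← key] at e1 e2
    have e3 := abs_sub_le (pt G F g c i : ℝ) (ξ i / (2 * Real.pi)) (pt G F' g' c' i)
    rw [abs_sub_comm _ (ξ i / (2 * Real.pi))] at e3
    have e4 : |(pt G F g c i : ℝ) - pt G F' g' c' i| <
        2 * ((F.rad G (i - g.1) : ℝ) + 1) + 2 * ((F'.rad G (i - g'.1) : ℝ) + 1) := by linarith
    exact_mod_cast e4
  exact ⟨this.1, this.2.1⟩

end

end Pool.Agent.Work.MP_6bf1e5_an.Ell.Pd
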