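import Pool.Agent.Work.MP_6bf1e5_an.Ell.SymbB
import Pool.Agent.Work.MP_6bf1e5_an.Ell.SymbDef

/-!
The symbol.
-/

open Set Complex
open scoped InnerProductSpace ComplexConjugate Classical
open Pool.Agent.Work.MP_6bf1e5_an.B
open Pool.Agent.Work.MP_6bf1e5_an.Dec

namespace Pool.Agent.Work.MP_6bf1e5_an.Ell.Pd

noncomputable section

variable {G : Geo}

lemma SymbC_chi_zero {F : Fam} (hF : F.ok G) {x : R3} (h : wid G F x = 0) : chi G F x = 0 := by
  by_contra hc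
  rw [wid_of_chi hF hc] at h
  exact one_ne_zero h

lemma SymbC_ct_zero {F : Fam} (hF : F.ok G) {g : Gp} {ξ : R3}
    (h : wid G F (ofs G F g ξ) = 0) : ct G F g ξ = 0 := by
  funext i j
  simp [ct, h, SymbC_chi_zero hF h]

lemma SymbC_fam0 {F : Fam} (hF : F ∈ fam0 G) : F.ok G ∧ F.ix = 0 := by
  simp only [fam0, Finset.mem_insert, Finset.mem_image, Finset.mem_Icc] at hF
  rcases hF with rfl | rfl | ⟨i, hi, rfl⟩
  · exact ⟨trivial, rfl⟩
  · exact ⟨trivial, rfl⟩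
  · exact ⟨hi, rfl⟩

lemma SymbC_at_ok (j : ℕ) {F : Fam} (hF : F.ok G) : (at' j F).ok G := by
  cases F with
  | b _ => trivial
  | c _ => trivial
  | y _ _ => exact hF

lemma SymbC_at_ix (j : ℕ) (F : Fam) : (at' j F).ix = j := by
  cases F <;> rfl

lemma SymbC_exists_at {F : Fam} (hF : F.ok G) : ∃ F0 ∈ fam0 G, at' F.ix F0 = F := by
  cases F with
  | b j => exact ⟨.b 0, by simp [fam0], rfl⟩
  | c j => exact ⟨.c 0, by simp [fam0], rfl⟩
  | y j i =>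
    refine ⟨.y 0 i, ?_, rfl⟩
    simp only [fam0, Finset.mem_insert, Finset.mem_image, Finset.mem_Icc]
    exact Or.inr (Or.inr ⟨i, hF, rfl⟩)

lemma SymbC_at_inj {j : ℕ} {F F' : Fam} (h : F.ix = 0) (h' : F'.ix = 0)
    (H : at' j F = at' j F') : F = F' := by
  cases F <;> cases F' <;> simp_all [at', Fam.ix]

lemma SymbC_box {F : Fam} (hF : F.ok G) {g : Gp} {ξ : R3} (h : wid G F (ofs G F g ξ) ≠ 0) :
    G.lam F.ix / 4 ≤ ‖ξ‖ ∧ ‖ξ‖ ≤ 2 * G.lam (F.ix + 1) ∧ ∑ l, ξ l ^ 2 ≤ F.dd G ∧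
      G.C * ∑ l, ξ l ^ 2 ≤ G.Gc F.ix := by
  obtain ⟨c, hc, hh⟩ := wid_ne_zero h
  obtain ⟨a1, a2, a3, a4, -⟩ := box_facts hF g hc fun i => (hh i).le
  exact ⟨a1, a2, a3, a4⟩

lemma SymbC_supp (ξ : R3) (h : g0 G ξ ≠ 0) : G.lam 0 / 4 ≤ ‖ξ‖ ∧ ‖ξ‖ ≤ 2 * G.lam 1 := by
  obtain ⟨F, hF, h1⟩ := Finset.exists_ne_zero_of_sum_ne_zero h
  obtain ⟨g, -, h2⟩ := Finset.exists_ne_zero_of_sum_ne_zero h1
  obtain ⟨ok, ix⟩ := SymbC_fam0 hF
  have := SymbC_box ok (g := g) (ξ := ξ) fun hw => h2 (SymbC_ct_zero ok hw)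
  rw [ix] at this
  exact ⟨this.1, this.2.1⟩

lemma SymbC_La : (2 : ℝ) ≤ G.La := by
  have h := La_big G
  have h2 : 2 ≤ G.La := le_trans (by norm_num) h
  exact_mod_cast h2

lemma SymbC_a : 0 < G.lam 0 / 4 := by
  have := lam_pos G 0
  linarith

lemma SymbC_g0_smooth : ContDiff ℝ (⊤ : ℕ∞) (g0 G) := by
  unfold g0
  exact ContDiff.sum fun F hF => ContDiff.sum fun g _ => ct_smooth (SymbC_fam0 hF).1 g

lemma SymbC_ssum (ξ : R3) : ∃ J : ℕ,
    (∀ F g, F.ok G → wid G F (ofs G F g ξ) ≠ 0 → F.ix < J) ∧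
    ssum G.La (g0 G) ξ = ∑ j ∈ Finset.range J, ∑ F ∈ fam0 G, ∑ g : Gp, ct G (at' j F) g ξ := by
  have hL := SymbC_La (G := G)
  have ha := SymbC_a (G := G)
  obtain ⟨J, hJ⟩ := pow_unbounded_of_one_lt (‖ξ‖ / (G.lam 0 / 4)) (by linarith : (1 : ℝ) < G.La)
  rw [div_lt_iff₀ ha, mul_comm] at hJ
  refine ⟨J, fun F g hF h => ?_, ?_⟩
  · have h1 := (SymbC_box hF h).1
    rw [lam_pow] at h1
    have h2 : (G.La : ℝ) ^ F.ix < (G.La : ℝ) ^ J := by
      by_contra hc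
      have := mul_le_mul_of_nonneg_left (not_lt.1 hc) ha.le
      linarith
    exact (pow_lt_pow_iff_right₀ (by linarith)).1 h2
  · rw [ssum_eq ha hL SymbC_supp hJ le_rfl]
    refine Finset.sum_congr rfl fun j _ => ?_
    unfold g0
    rw [Finset.smul_sum]
    refine Finset.sum_congr rfl fun F hF => ?_
    rw [Finset.smul_sum]
    exact Finset.sum_congr rfl fun g _ => ct_hom (SymbC_fam0 hF).2 g j ξ

theorem sig_cases (ξ : R3) : (sig G ξ = quad G.C ξ ∧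
    ∀ F g, F.ok G → wid G F (ofs G F g ξ) = 0) ∨
    ∃ F g, F.ok G ∧ wid G F (ofs G F g ξ) ≠ 0 ∧ sig G ξ = quad G.C ξ - ct G F g ξ := by
  obtain ⟨J, hJ, hs⟩ := SymbC_ssum (G := G) ξ
  by_cases h : ∃ F g, F.ok G ∧ wid G F (ofs G F g ξ) ≠ 0
  · right
    obtain ⟨F, g, hF, hw⟩ := h
    refine ⟨F, g, hF, hw, ?_⟩
    obtain ⟨F0, hF0, e⟩ := SymbC_exists_at hF
    have key : ∀ j, ∀ F' ∈ fam0 G, ∀ g', (at' j F' = F → g' ≠ g) → ct G (at' j F') g' ξ = 0 := by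
      intro j F' hF' g' hne
      have ok := SymbC_at_ok j (SymbC_fam0 hF').1
      apply SymbC_ct_zero ok
      by_contra hc
      obtain ⟨e1, e2⟩ := ct_unique ok hF hc hw
      exact hne e1 e2
    unfold sig
    rw [hs, Finset.sum_eq_single_of_mem F.ix (Finset.mem_range.2 (hJ F g hF hw)),
      Finset.sum_eq_single_of_mem F0 hF0, Finset.sum_eq_single g, e]
    · intro g' _ hne
      exact key _ F0 hF0 g' fun _ => hne
    · intro hg
      exact absurd (Finset.mem_univ g) hg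
    · intro F' hF' hne
      refine Finset.sum_eq_zero fun g' _ => key _ F' hF' g' fun e1 => ?_
      exact absurd (SymbC_at_inj (SymbC_fam0 hF').2 (SymbC_fam0 hF0).2 (e1.trans e.symm)) hne
    · intro j _ hne
      refine Finset.sum_eq_zero fun F' hF' => Finset.sum_eq_zero fun g' _ =>
        key _ F' hF' g' fun e1 => ?_
      rw [← e1, SymbC_at_ix] at hne
      exact absurd rfl hne
  · left
    have h' : ∀ F g, F.ok G → wid G F (ofs G F g ξ) = 0 := by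
      intro F g hF
      by_contra hc
      exact h ⟨F, g, hF, hc⟩
    refine ⟨?_, h'⟩
    unfold sig
    rw [hs, Finset.sum_eq_zero, sub_zero]
    intro j _
    refine Finset.sum_eq_zero fun F hF => Finset.sum_eq_zero fun g _ => ?_
    have ok := SymbC_at_ok j (SymbC_fam0 hF).1
    exact SymbC_ct_zero ok (h' _ _ ok)

lemma SymbC_C : 1 ≤ G.C := by
  have := t_big G
  have h0 : (0 : ℝ) ≤ G.t := le_trans (by positivity) this
  exact Real.one_le_exp (by positivity)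

lemma SymbC_quad_row (c : ℝ) (ξ x : R3) (i : Fin 3) :
    ∑ j, quad c ξ i j * x j = (c * ∑ l, ξ l ^ 2) * x i := by
  simp [quad]

lemma SymbC_ct_row (F : Fam) (g : Gp) (ξ x : R3) (i : Fin 3) :
    ∑ j, ct G F g ξ i j * x j =
      wid G F (ofs G F g ξ) * (G.C * ∑ l, ξ l ^ 2 - G.Gc F.ix) * x i +
      chi G F (ofs G F g ξ) * (G.Gc F.ix - F.dd G) *
        (lp (WithLp.toLp 2 ξ) (ge g (F.e G)) i *
          ((‖lp (WithLp.toLp 2 ξ) (ge g (F.e G))‖ ^ 2)⁻¹ *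
            ∑ j, lp (WithLp.toLp 2 ξ) (ge g (F.e G)) j * x j)) := by
  simp only [ct, add_mul, Finset.sum_add_distrib, ite_mul, zero_mul, Finset.sum_ite_eq,
    Finset.mem_univ, if_true, ur, PiLp.smul_apply, smul_eq_mul, Finset.mul_sum]
  congr 1
  exact Finset.sum_congr rfl fun j _ => by ring

lemma SymbC_quad_form (c : ℝ) (ξ v : R3) :
    ∑ i, ∑ j, v i * quad c ξ i j * v j = (c * ∑ l, ξ l ^ 2) * ∑ i, v i ^ 2 := by
  rw [Finset.mul_sum]
  refine Finset.sum_congr rfl fun i _ => ?_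
  simp only [mul_assoc (v i)]
  rw [← Finset.mul_sum, SymbC_quad_row]
  ring

lemma SymbC_form (F : Fam) (g : Gp) (ξ v : R3) : ∃ q : ℝ, 0 ≤ q ∧ q ≤ ∑ i, v i ^ 2 ∧
    ∑ i, ∑ j, v i * (quad G.C ξ - ct G F g ξ) i j * v j =
      (G.C * ∑ l, ξ l ^ 2) * ∑ i, v i ^ 2 +
        wid G F (ofs G F g ξ) * (G.Gc F.ix - G.C * ∑ l, ξ l ^ 2) * ∑ i, v i ^ 2 -
        chi G F (ofs G F g ξ) * (G.Gc F.ix - F.dd G) * q := by
  set l := lp (WithLp.toLp 2 ξ) (ge g (F.e G)) with hl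
  refine ⟨(‖l‖ ^ 2)⁻¹ * (∑ j, l j * v j) ^ 2, by positivity, ?_, ?_⟩
  · have h1 := Finset.sum_mul_sq_le_sq_mul_sq Finset.univ (fun j => l j) v
    have h2 : ‖l‖ ^ 2 = ∑ j, l j ^ 2 := by
      rw [EuclideanSpace.norm_sq_eq]; simp [sq_abs]
    rw [← h2] at h1
    have h3 : 0 ≤ ∑ i, v i ^ 2 := by positivity
    by_cases h0 : ‖l‖ ^ 2 = 0
    · rw [h0, inv_zero, zero_mul]; exact h3
    · have hp : 0 < ‖l‖ ^ 2 := lt_of_le_of_ne (by positivity) (Ne.symm h0)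
      rw [inv_mul_le_iff₀ hp]
      exact h1
  · have e : ∀ i, ∑ j, v i * (quad G.C ξ - ct G F g ξ) i j * v j =
        v i * (∑ j, quad G.C ξ i j * v j - ∑ j, ct G F g ξ i j * v j) := by
      intro i
      rw [← Finset.sum_sub_distrib, Finset.mul_sum]
      exact Finset.sum_congr rfl fun j _ => by simp only [Pi.sub_apply]; ring
    simp only [e, SymbC_quad_row, SymbC_ct_row, ← hl]
    generalize (∑ l, ξ l ^ 2) = X
    generalize (‖l‖ ^ 2)⁻¹ = Y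
    simp only [Fin.sum_univ_three]
    ring

lemma SymbC_lower (ξ v : R3) :
    (∑ i, ξ i ^ 2) * ∑ i, v i ^ 2 ≤ ∑ i, ∑ j, v i * sig G ξ i j * v j := by
  have hC := SymbC_C (G := G)
  have hX : 0 ≤ ∑ i, ξ i ^ 2 := by positivity
  have hV : 0 ≤ ∑ i, v i ^ 2 := by positivity
  have h1 : (∑ i, ξ i ^ 2) * ∑ i, v i ^ 2 ≤ (G.C * ∑ l, ξ l ^ 2) * ∑ i, v i ^ 2 :=
    mul_le_mul_of_nonneg_right (by nlinarith) hV
  rcases sig_cases (G := G) ξ with ⟨h, -⟩ | ⟨F, g, hF, hw, h⟩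
  · rw [h, SymbC_quad_form]; exact h1
  · obtain ⟨q, q0, q1, e⟩ := SymbC_form (G := G) F g ξ v
    obtain ⟨-, -, a3, a4⟩ := SymbC_box hF hw
    rw [h, e]
    by_cases hc : chi G F (ofs G F g ξ) = 0
    · rw [hc, zero_mul, zero_mul, sub_zero]
      have : 0 ≤ wid G F (ofs G F g ξ) * (G.Gc F.ix - G.C * ∑ l, ξ l ^ 2) * ∑ i, v i ^ 2 :=
        mul_nonneg (mul_nonneg (wid_nonneg _ _) (by linarith)) hV
      linarith
    · rw [wid_of_chi hF hc]
      obtain ⟨c0, c1⟩ := chi_bounds hF (ofs G F g ξ)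
      have hd := dd_le_Gc G F
      have h2 : chi G F (ofs G F g ξ) * (G.Gc F.ix - F.dd G) * q ≤
          1 * (G.Gc F.ix - F.dd G) * ∑ i, v i ^ 2 :=
        mul_le_mul (mul_le_mul_of_nonneg_right c1 (by linarith)) q1 q0 (by linarith)
      have h3 := mul_le_mul_of_nonneg_right a3 hV
      linarith

lemma SymbC_upper (ξ v : R3) : ∑ i, ∑ j, v i * sig G ξ i j * v j ≤
    192 * G.C * (G.t ^ 21) ^ 2 * (∑ i, ξ i ^ 2) * ∑ i, v i ^ 2 := by
  have hC := SymbC_C (G := G)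
  have hX : 0 ≤ ∑ i, ξ i ^ 2 := by positivity
  have hV : 0 ≤ ∑ i, v i ^ 2 := by positivity
  have ht : (1 : ℝ) ≤ (G.t ^ 21) ^ 2 := by
    have h1 : (1 : ℝ) ≤ G.t := le_trans (by norm_num) (t_big G)
    exact one_le_pow₀ (one_le_pow₀ h1)
  rcases sig_cases (G := G) ξ with ⟨h, -⟩ | ⟨F, g, hF, hw, h⟩
  · rw [h, SymbC_quad_form]
    refine mul_le_mul_of_nonneg_right (mul_le_mul_of_nonneg_right ?_ hX) hV
    nlinarith
  · obtain ⟨q, q0, q1, e⟩ := SymbC_form (G := G) F g ξ v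
    obtain ⟨a1, -, -, a4⟩ := SymbC_box hF hw
    rw [h, e]
    obtain ⟨c0, -⟩ := chi_bounds hF (ofs G F g ξ)
    have hd := dd_le_Gc G F
    have h2 : 0 ≤ chi G F (ofs G F g ξ) * (G.Gc F.ix - F.dd G) * q :=
      mul_nonneg (mul_nonneg c0 (by linarith)) q0
    have h3 : wid G F (ofs G F g ξ) * (G.Gc F.ix - G.C * ∑ l, ξ l ^ 2) * ∑ i, v i ^ 2 ≤
        1 * (G.Gc F.ix - G.C * ∑ l, ξ l ^ 2) * ∑ i, v i ^ 2 :=
      mul_le_mul_of_nonneg_right
        (mul_le_mul_of_nonneg_right (wid_le_one hF _) (by linarith)) hV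
    have hn : ‖ξ‖ ^ 2 ≤ ∑ i, ξ i ^ 2 := by
      have h4 : ‖ξ‖ ≤ √(∑ i, ξ i ^ 2) := by
        refine (pi_norm_le_iff_of_nonneg (Real.sqrt_nonneg _)).2 fun i => ?_
        rw [Real.norm_eq_abs]
        apply Real.abs_le_sqrt
        exact Finset.single_le_sum (f := fun i => ξ i ^ 2) (fun _ _ => by positivity)
          (Finset.mem_univ i)
      calc ‖ξ‖ ^ 2 ≤ √(∑ i, ξ i ^ 2) ^ 2 := pow_le_pow_left₀ (norm_nonneg _) h4 2
        _ = _ := Real.sq_sqrt hX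
    have hl := lam_pos G F.ix
    have h5 : G.lam F.ix ^ 2 ≤ 16 * ∑ i, ξ i ^ 2 := by
      have : G.lam F.ix ^ 2 ≤ (4 * ‖ξ‖) ^ 2 := pow_le_pow_left₀ (by linarith) (by linarith) 2
      linarith
    have h6 : G.Gc F.ix ≤ 192 * G.C * (G.t ^ 21) ^ 2 * ∑ i, ξ i ^ 2 := by
      unfold Geo.Gc
      rw [lam_succ, mul_pow]
      have h7 : 0 ≤ 12 * G.C * (G.t ^ 21) ^ 2 := by positivity
      have := mul_le_mul_of_nonneg_left h5 h7
      linarith
    have h7 := mul_le_mul_of_nonneg_right h6 hV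
    linarith

lemma SymbC_quad_symm (c : ℝ) (ξ : R3) (i j : Fin 3) : quad c ξ i j = quad c ξ j i := by
  simp only [quad, eq_comm]

lemma SymbC_symm (ξ : R3) (i j : Fin 3) : sig G ξ i j = sig G ξ j i := by
  rcases sig_cases (G := G) ξ with ⟨h, -⟩ | ⟨F, g, -, -, h⟩
  · rw [h, SymbC_quad_symm]
  · rw [h]
    simp only [Pi.sub_apply, ct, ur, PiLp.smul_apply, smul_eq_mul]
    rw [SymbC_quad_symm]
    simp only [eq_comm (a := i) (b := j)]
    ring

lemma SymbC_g0_neg (ξ : R3) : g0 G (-ξ) = g0 G ξ := by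
  unfold g0
  refine Finset.sum_congr rfl fun F _ => ?_
  simp only [ct_neg]
  exact Equiv.sum_comp ((Equiv.refl (Fin 3)).prodCongr (Equiv.neg ℤˣ)) fun g => ct G F g ξ

lemma SymbC_even (ξ : R3) : sig G (-ξ) = sig G ξ := by
  unfold sig ssum
  simp only [smul_neg, SymbC_g0_neg]
  congr 1
  funext i j
  simp [quad]

lemma SymbC_ofs (F : Fam) (g : Gp) (h : Z3) :
    ofs G F g (Sy.fq (pt G F g h)) = fun i => (h i : ℝ) := by
  funext l
  have hp : (2 * Real.pi) ≠ 0 := by positivity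
  have hu : (((g.2 : ℤ) : ℝ)) * ((g.2 : ℤ) : ℝ) = 1 := by
    rcases Int.units_eq_one_or g.2 with e | e <;> simp [e]
  simp only [ofs, Sy.fq, pt, gz, add_sub_cancel_right, Pi.add_apply]
  push_cast
  field_simp
  linear_combination ((F.ctr G l : ℝ) + h l) * hu

lemma SymbC_exists_pt (F : Fam) (g : Gp) (k : Z3) : ∃ h, k = pt G F g h := by
  refine ⟨gzE g k - F.ctr G, ?_⟩
  rw [pt, add_sub_cancel]
  exact ((gzE g).left_inv k).symm

lemma SymbC_lat (k : Z3) (x : E3) (i : Fin 3) :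
    ∑ j, sig G (Sy.fq k) i j * x j = AR G k x i := by
  have hA : AR G k x i = sc G k * x i - dm G k * Pj G k x i := rfl
  rw [hA]
  rcases sig_cases (G := G) (Sy.fq k) with ⟨h, hz⟩ | ⟨F, g, hF, hw, h⟩
  · have hN : ¬Near G k := by
      rintro ⟨⟨F, g, h'⟩, ok, hw, e⟩
      have := hz F g ok
      rw [e, SymbC_ofs] at this
      exact hw this
    have hAct : ¬Act G k := by
      rintro ⟨⟨F, g, h'⟩, ok, hS, e⟩
      exact hN ⟨⟨F, g, h'⟩, ok, by rw [wid_S ok hS]; exact one_ne_zero, e⟩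
    rw [h, SymbC_quad_row, Sy.sum_fq_sq, sc, dm, dif_neg hN, dif_neg hAct]
    ring
  · obtain ⟨h', rfl⟩ := SymbC_exists_pt (G := G) F g k
    have e : ∑ j, (quad G.C (Sy.fq (pt G F g h')) - ct G F g (Sy.fq (pt G F g h'))) i j * x j =
        ∑ j, quad G.C (Sy.fq (pt G F g h')) i j * x j -
          ∑ j, ct G F g (Sy.fq (pt G F g h')) i j * x j := by
      rw [← Finset.sum_sub_distrib]
      exact Finset.sum_congr rfl fun j _ => by simp only [Pi.sub_apply]; ring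
    rw [h, e, SymbC_quad_row, SymbC_ct_row, Sy.sum_fq_sq]
    rw [SymbC_ofs] at hw ⊢
    have hax : ax (pt G F g h') = ax (F.ctr G + h') := ax_gz _ _
    rw [sc_near hF g hw, hax]
    by_cases hS : h' ∈ F.S G
    · rw [dm_pt hF g hS, Pj, vec_pt hF g hS]
      have e1 : (WithLp.toLp 2 (Sy.fq (pt G F g h')) : E3) = xi (pt G F g h') := rfl
      rw [e1]
      have e2 : ∀ l : E3, ⟪l, x⟫_ℝ = ∑ j, l j * x j := by
        intro l
        simp [PiLp.inner_apply, mul_comm]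
      simp only [ur, PiLp.smul_apply, smul_eq_mul, e2]
      ring
    · have hc : chi G F (fun i => (h' i : ℝ)) = 0 := by
        by_contra hc
        obtain ⟨c, hc1, hc2⟩ := chi_ne_zero hc
        refine hS (mem_S.2 ⟨c, hc1, mem_bx.2 fun l => ?_⟩)
        have h1 := hc2 l
        have h2 : |h' l - c l| < (F.rad G l : ℤ) + 1 := by exact_mod_cast h1
        simp only [Pi.sub_apply]
        omega
      have hAct : ¬Act G (pt G F g h') := by
        rintro ⟨⟨F', g', h''⟩, ok, hS', e'⟩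
        obtain ⟨e1, -, e3⟩ := near_unique hF ok hw
          (by rw [wid_S ok hS']; exact one_ne_zero) e'
        simp only at e1 e3 hS'
        rw [← e1, ← e3] at hS'
        exact hS hS'
      rw [hc, dm, dif_neg hAct]
      ring

theorem symb_sig : Symb G (sig G) := by
  refine ⟨⟨?_, SymbC_symm, SymbC_even, SymbC_lower, ⟨_, SymbC_upper⟩, fun n => ?_⟩, SymbC_lat⟩
  · exact (quad_smooth _).sub (ssum_smooth SymbC_g0_smooth SymbC_a SymbC_La SymbC_supp)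
  · exact symbol_deriv SymbC_g0_smooth SymbC_a SymbC_La SymbC_supp G.C n

end

end Pool.Agent.Work.MP_6bf1e5_an.Ell.Pd
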