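import Pool.Agent.Work.MP_6bf1e5_an.Ell.Sums

/-!
Static estimates for the new level and the current ladder.
-/

open Set Complex Filter Topology
open scoped InnerProductSpace ComplexConjugate
open Pool.Agent.Work.MP_6bf1e5_an.B (Z3 R3)
open Pool.Agent.Work.MP_6bf1e5_an.Dec

namespace Pool.Agent.Work.MP_6bf1e5_an.Ell

noncomputable section

namespace Geo

variable (G : Geo)

lemma upp_t_le {m : ℕ} (hm : 1 ≤ m) : G.t ≤ G.t ^ m := by
  simpa using G.pow_le hm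

lemma upp_exp {k : ℕ} (hk : k ≤ 1000) {x : ℝ} (hx : G.t ≤ 10 * x) : G.t ^ k ≤ Real.exp x := by
  refine (G.pow_le_exp hk).trans (Real.exp_le_exp.mpr ?_)
  have := G.t_pos
  rw [div_le_iff₀ (by positivity)]
  linarith

lemma upp_m0 : G.t ^ 200 ≤ G.m0 := by
  refine (G.upp_exp (by norm_num) ?_).trans G.m0_lo
  have := G.upp_t_le (m := 19) (by norm_num)
  have := G.t_pos
  linarith

lemma upp_Wc : G.t ^ 100 ≤ G.Wc := by
  refine G.upp_exp (by norm_num) ?_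
  have := G.upp_t_le (m := 20) (by norm_num)
  have := G.t_pos
  linarith

lemma upp_one_le_pow (k : ℕ) : 1 ≤ G.t ^ k := one_le_pow₀ G.one_le_t

lemma upp_θ_le : G.θ ≤ 1 := inv_le_one_of_one_le₀ (G.upp_one_le_pow 10)

lemma upp_xs_le : 11 * G.xs ≤ 1 := by
  have h1 := G.pow_lt (a := 0) (b := 30) (by norm_num)
  have h2 := pow_pos G.t_pos 30
  unfold xs
  rw [← div_eq_mul_inv, div_le_one h2]
  linarith

lemma upp_tau0 : 9 * 10 ^ 6 * G.t ^ 21 * G.tau0 ≤ Real.exp (-G.t ^ 19) := by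
  have h1 := G.tau0_le
  have h2 := G.pow_lt (a := 21) (b := 22) (by norm_num)
  have h3 : G.t ^ 22 ≤ Real.exp (98 * G.t ^ 19) := by
    refine G.upp_exp (by norm_num) ?_
    have := G.upp_t_le (m := 19) (by norm_num)
    have := G.t_pos
    linarith
  have h4 : Real.exp (-G.t ^ 19) = Real.exp (98 * G.t ^ 19) * Real.exp (-(99 * G.t ^ 19)) := by
    rw [← Real.exp_add]; ring_nf
  have h5 := pow_pos G.t_pos 21
  rw [h4]
  exact mul_le_mul (by linarith) h1 G.tau0_pos.le (Real.exp_pos _).le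

lemma upp_tau0' : G.tau0 ≤ 1 := by
  refine G.tau0_le.trans (Real.exp_le_one_iff.mpr ?_)
  have := pow_pos G.t_pos 19
  linarith

lemma upp_D (j : ℕ) : 72 * G.t ^ 74 * G.lam j ^ 2 ≤ Real.exp (-G.t ^ 19) * G.D j := by
  have h2 := G.pow_lt (a := 74) (b := 75) (by norm_num)
  have h3 : G.t ^ 75 ≤ Real.exp (-G.t ^ 19 + G.t ^ 21 / 2) := by
    refine G.upp_exp (by norm_num) ?_
    have := G.upp_t_le (m := 19) (by norm_num)
    have := G.pow_lt (a := 19) (b := 21) (by norm_num)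
    have := G.t_pos
    linarith
  have h5 := pow_pos G.t_pos 74
  unfold D
  rw [← mul_assoc, ← Real.exp_add]
  exact mul_le_mul_of_nonneg_right (by linarith) (sq_nonneg _)

lemma upp_D' (j : ℕ) : G.t ^ 112 * G.lam j ^ 2 ≤ Real.exp (-(G.t ^ 21 / 3)) * G.D j := by
  have h3 : G.t ^ 112 ≤ Real.exp (-(G.t ^ 21 / 3) + G.t ^ 21 / 2) := by
    refine G.upp_exp (by norm_num) ?_
    have := G.upp_t_le (m := 21) (by norm_num)
    have := G.t_pos
    linarith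
  unfold D
  rw [← mul_assoc, ← Real.exp_add]
  exact mul_le_mul_of_nonneg_right h3 (sq_nonneg _)

lemma upp_exp19 : Real.exp (-G.t ^ 19) ≤ (G.t ^ 60)⁻¹ := by
  rw [Real.exp_neg]
  refine inv_anti₀ (pow_pos G.t_pos _) (G.upp_exp (by norm_num) ?_)
  have := G.upp_t_le (m := 19) (by norm_num)
  have := G.t_pos
  linarith

lemma upp_rho {i : ℕ} (hi : i ≤ G.La) : (1 + (G.t ^ 30)⁻¹) ^ i ≤ 3 / 2 := by
  have t0 := G.t_pos
  have h0 : 0 < (G.t ^ 30)⁻¹ := by positivity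
  have h1 : (1 + (G.t ^ 30)⁻¹) ^ i ≤ Real.exp ((G.t ^ 30)⁻¹) ^ i :=
    pow_le_pow_left₀ (by positivity) (by linarith [Real.add_one_le_exp (G.t ^ 30)⁻¹]) i
  rw [← Real.exp_nat_mul] at h1
  have h2 : (i : ℝ) ≤ G.t ^ 21 := by rw [← G.La_eq]; exact_mod_cast hi
  have h3 : (i : ℝ) * (G.t ^ 30)⁻¹ ≤ 1 / 4 := by
    have := G.pow_lt (a := 21) (b := 30) (by norm_num)
    rw [← div_eq_mul_inv, div_le_iff₀ (by positivity)]
    have := pow_pos t0 21
    linarith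
  have h4 : Real.exp (1 / 4) ≤ 3 / 2 := by
    have := Real.exp_bound_div_one_sub_of_interval' (x := 1 / 4) (by norm_num) (by norm_num)
    linarith
  exact h1.trans ((Real.exp_le_exp.mpr h3).trans h4)

end Geo

variable {G : Geo} {R : Raw} {J : ℕ} {t : ℝ}

lemma l1_rot (o : Fin 4) (f : V) : l1 (rot o f) = l1 f := by
  fin_cases o <;> simp [rot, l1_tau, l1_dag]

/-- The coefficient of the seed. -/
def Kf (G : Geo) (R : Raw) (J : ℕ) (z : ℝ) : ℝ := R.cf * (2 * Real.pi * G.n (J + 1)) * z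

lemma Fs_eq_Kf (z a : ℝ) : R.Fs G J z a = Kf G R J z * R.Yq G J a G.La := rfl

namespace IsNet

variable (H : IsNet G R)

include H

lemma upp_lam_bh (j : ℕ) : 10 ^ 6 * G.lam (j + 1) * R.bh G j ≤ G.t ^ 74 * G.lam j ^ 2 := by
  have h1 := H.bh_hi j
  have h2 := G.lam_pos j
  have h3 := pow_pos G.t_pos 21
  have h4 := H.bh_pos j
  rw [G.lam_succ]
  calc 10 ^ 6 * (G.t ^ 21 * G.lam j) * R.bh G j
      = G.t ^ 21 * G.lam j * (10 ^ 6 * R.bh G j) := by ring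
    _ ≤ G.t ^ 21 * G.lam j * (G.t ^ 53 * G.lam j) :=
      mul_le_mul_of_nonneg_left (by linarith) (by positivity)
    _ = _ := by ring

lemma upp_bh_le (j : ℕ) : R.bh G j ≤ G.t ^ 53 * G.lam j := by
  have h1 := H.bh_hi j
  have h4 := H.bh_pos j
  linarith

lemma Kf_bounds {z : ℝ} (h0 : 2 * R.bh G (J + 1) ≤ z * G.m0) (h1 : z * G.m0 ≤ 10 * R.bh G (J + 1)) :
    0 < Kf G R J z ∧ G.lam (J + 1) * R.bh G (J + 1) / G.m0 ^ 2 ≤ Kf G R J z / 2 ∧
      Kf G R J z ≤ (G.t ^ 60)⁻¹ * G.d (J + 1) := by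
  have m0 := G.m0_pos
  have hl := G.lam_pos (J + 1)
  have hb := H.bh_pos (J + 1)
  have t0 := G.t_pos
  have e : Kf G R J z = R.cf * G.lam (J + 1) * (z * G.m0) / G.m0 ^ 2 := by
    rw [Kf, G.lam_eq]; field_simp
  have c1 := H.cf_lo
  have c2 := H.cf_hi
  have lo : G.lam (J + 1) * R.bh G (J + 1) / G.m0 ^ 2 ≤ Kf G R J z / 2 := by
    rw [e, div_div, div_le_div_iff₀ (by positivity) (by positivity)]
    have : 1 * G.lam (J + 1) * (2 * R.bh G (J + 1)) ≤ R.cf * G.lam (J + 1) * (z * G.m0) := by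
      gcongr
    nlinarith [sq_pos_of_pos m0]
  refine ⟨?_, lo, ?_⟩
  · have : 0 < G.lam (J + 1) * R.bh G (J + 1) / G.m0 ^ 2 := by positivity
    linarith
  · rw [e, div_le_iff₀ (by positivity)]
    have h2 := H.bh_hi (J + 1)
    have h3 : G.t ^ 124 ≤ G.m0 ^ 2 := by
      have := G.upp_m0
      have h5 := G.pow_le (a := 62) (b := 200) (by norm_num)
      calc G.t ^ 124 = (G.t ^ 62) ^ 2 := by ring
        _ ≤ _ := by gcongr; linarith
    calc R.cf * G.lam (J + 1) * (z * G.m0)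
        ≤ G.t ^ 11 * G.lam (J + 1) * (G.t ^ 53 * G.lam (J + 1)) := by
          gcongr ?_ * _ * ?_
          · linarith
          · linarith
      _ = (G.t ^ 60)⁻¹ * G.lam (J + 1) ^ 2 * G.t ^ 124 := by field_simp
      _ ≤ (G.t ^ 60)⁻¹ * G.d (J + 1) * G.m0 ^ 2 := by
        have := G.d_pos (J + 1)
        gcongr
        unfold Geo.d; linarith [sq_nonneg (G.lam (J + 1))]

lemma upp_f_le {z : ℝ} (o : Fin 4) (hZ : l1 (R.Z G (J + 1) o t) ≤ 101 / 100 * z) :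
    ‖R.f G J o t‖ ≤ 101 / 100 * Kf G R J z * ‖R.y J G.La t‖ := by
  have c1 := H.cf_lo
  have h0 : 0 ≤ R.cf * (2 * Real.pi * G.n (J + 1)) := by positivity
  rw [Raw.f, norm_smul, Complex.norm_real, Real.norm_of_nonneg h0]
  have h1 := (norm_pj_le (G.rc (J + 1)) _).trans
    (norm_mul_le_l1' (R.y J G.La t) (R.Z G (J + 1) o t))
  calc _ ≤ R.cf * (2 * Real.pi * G.n (J + 1)) * (‖R.y J G.La t‖ * (101 / 100 * z)) := by
        gcongr
        exact h1.trans (by gcongr)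
    _ = _ := by rw [Kf]; ring

lemma upp_sigma {g0 E : ℝ} (hc : Cur G R J g0 t E) (ha : 0 < R.aa G J t) (y : V) :
    R.kap G J * ‖R.A G J t * y‖ ≤ G.d (J + 1) * R.aa G J t * ‖y‖ := by
  have h1 := H.kap_A ha
  have h2 : ‖R.pp G J t * y‖ ≤ ‖y‖ := hc.drv.tau.norm_mul_le y
  have h3 : ‖((R.kap G J : ℂ) • R.A G J t) * y‖ = R.kap G J * ‖R.A G J t * y‖ := by
    rw [smul_mul_assoc, norm_smul, Complex.norm_real, Real.norm_of_nonneg (H.kap_pos J).le]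
  have h4 : 0 ≤ G.d (J + 1) * R.aa G J t := (mul_pos (G.d_pos _) ha).le
  rw [← h3, h1, smul_mul_assoc, norm_smul, Complex.norm_real, Real.norm_of_nonneg h4]
  gcongr

lemma upp_B_mul {g0 E : ℝ} (hc : Cur G R J g0 t E) (ha : 0 < R.aa G J t) (y : V) :
    ‖R.B G J t * y‖ ≤ R.bh G J * R.aa G J t * ‖y‖ := by
  have h4 : 0 ≤ R.bh G J * R.aa G J t := (mul_pos (H.bh_pos _) ha).le
  rw [H.B_eq ha, smul_mul_assoc, norm_smul, Complex.norm_real, Real.norm_of_nonneg h4]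
  gcongr
  exact hc.drv.norm_mul_le y

lemma upp_y0 {g0 E : ℝ} (hc : Cur G R J g0 t E) (ha : 0 < R.aa G J t) :
    ‖R.y J 0 t‖ ≤ 2 * R.Yq G J (R.aa G J t) 0 / G.N J := by
  have hu := H.un_pos J
  have hN := G.N_pos J
  have hO := H.Om_lo
  have h1 : ∀ o, ‖R.b J o t‖ ≤ 2 * (R.aa G J t * R.un G J) := by
    intro o
    have h2 := hc.clb o
    have h3 := norm_add_le (R.b J o t - ((R.aa G J t * R.un G J : ℝ) : ℂ) • G.φ J)
      (((R.aa G J t * R.un G J : ℝ) : ℂ) • G.φ J)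
    have h4 : 0 < R.aa G J t * R.un G J := by positivity
    rw [sub_add_cancel, norm_smul, G.norm_φ, Complex.norm_real, Real.norm_of_nonneg h4.le] at h3
    linarith
  have h2 := H.norm_comb_le J h1
  have h3 : R.Om * R.un G J * G.N J ≤ R.bh G J := by
    rw [← H.un_mul J]
    have : G.N J ≤ l1 (G.φ J) := le_l1_ph _
    calc R.Om * R.un G J * G.N J = R.un G J * (R.Om * G.N J) := by ring
      _ ≤ _ := by gcongr
  rw [H.y0, Raw.A, norm_tau, R.Yq_zero, le_div_iff₀ hN]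
  calc ‖R.B G J t‖ * G.N J ≤ R.Om * (2 * (R.aa G J t * R.un G J)) * G.N J := by gcongr; exact h2
    _ = 2 * R.aa G J t * (R.Om * R.un G J * G.N J) := by ring
    _ ≤ 2 * R.aa G J t * R.bh G J := by gcongr
    _ = _ := by ring

omit H in
lemma upp_y_le {AA : ℕ → ℝ} {E : ℝ} (h : Bnd G R J AA t E) {i : ℕ} (h1 : 1 ≤ i) (h2 : i ≤ G.La) :
    G.N J * ‖R.y J i t‖ ≤ E * R.bh G J := by
  have h3 := R.y_le_ch G J h1 h2 t
  have h4 := h.cury
  have h5 : 1 ≤ G.Wc := (G.upp_one_le_pow 100).trans G.upp_Wc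
  have h6 := R.ch_nonneg G J t
  have hN := G.N_pos J
  refine le_trans ?_ h4
  unfold Raw.nc
  gcongr
  nlinarith

/-- The errors of the new level. -/
lemma upp_ebc {z X : ℝ} (h : Cr0 G R J t) (hj : Jb G R J t) (hu : Up G R J t (G.N (J + 1) * X))
    (fl : Real.exp (-G.t ^ 50) * R.bh G (J + 1) ≤ G.N (J + 1) * X)
    (h0 : 2 * R.bh G (J + 1) ≤ z * G.m0) (h1 : z * G.m0 ≤ 10 * R.bh G (J + 1)) {F : ℝ}
    (hy : Kf G R J z * ‖R.y J G.La t‖ ≤ 3 * F + Kf G R J z * X) :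
    R.eb G (J + 1) t + R.ec G J t ≤ Real.exp (-(3 * G.t ^ 19)) * (2 * G.d (J + 1) * X + 3 / 2 * F) := by
  obtain ⟨k0, k1, k2⟩ := H.Kf_bounds h0 h1
  have hN := G.N_pos (J + 1)
  have hd := G.d_pos (J + 1)
  have hX : 0 < X := by
    have := H.bh_pos (J + 1)
    have : 0 < G.N (J + 1) * X := lt_of_lt_of_le (by positivity) fl
    exact (mul_pos_iff_of_pos_left hN).1 this
  have h2 := h.err_new H hu hj fl
  have h3 : (G.t ^ 60)⁻¹ ≤ 1 := inv_le_one_of_one_le₀ (G.upp_one_le_pow _)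
  have h4 : Kf G R J z ≤ G.d (J + 1) := k2.trans (by nlinarith)
  have h5 : G.lam (J + 1) * R.bh G (J + 1) / G.m0 ^ 2 * ‖R.y J G.La t‖ ≤
      3 / 2 * F + G.d (J + 1) * X := by
    have : G.lam (J + 1) * R.bh G (J + 1) / G.m0 ^ 2 * ‖R.y J G.La t‖ ≤
        Kf G R J z / 2 * ‖R.y J G.La t‖ := by gcongr
    have : Kf G R J z * X ≤ G.d (J + 1) * X := by gcongr
    have : 0 ≤ G.d (J + 1) * X := by positivity
    linarith
  refine le_of_mul_le_mul_left (h2.trans ?_) hN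
  have he := Real.exp_pos (-(3 * G.t ^ 19))
  calc _ = G.N (J + 1) * (Real.exp (-(3 * G.t ^ 19)) * (G.d (J + 1) * X +
        G.lam (J + 1) * R.bh G (J + 1) / G.m0 ^ 2 * ‖R.y J G.La t‖)) := by ring
    _ ≤ _ := by gcongr _ * (_ * ?_); linarith

end IsNet

lemma upp_ey_num {T l l' bh N a X Yi Y1 D τ nl Lo Lo' yi y1 y2 lv et jk x : ℝ}
    (hT : 0 < T) (hl : 0 < l) (hbh : 0 < bh) (hN : 0 < N) (ha : 0 < a) (ha' : a ≤ 11) (hX : 0 < X)
    (hY1 : 0 < Y1) (hYi : 0 < Yi) (hτ : 0 < τ) (hτ1 : τ ≤ 1) (e : l' = T ^ 21 * l)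
    (hQ : 10 ^ 6 * l' * bh ≤ T ^ 74 * l ^ 2) (h1 : 9 * 10 ^ 6 * T ^ 21 * τ ≤ x)
    (h2 : 72 * T ^ 74 * l ^ 2 ≤ x * D) (h3 : l * (bh * a) * Yi ≤ 3 * (D * Y1))
    (nl0 : 0 ≤ nl) (nl1 : nl ≤ a * bh / 2) (Lo0 : 0 ≤ Lo) (Lo1 : Lo ≤ Lo') (Lo2 : Lo' ≤ bh)
    (yi0 : 0 ≤ yi) (yi1 : yi ≤ 3 * Yi / N + X) (y10 : 0 ≤ y1) (y11 : y1 ≤ 3 * Y1 / N + X)
    (y20 : 0 ≤ y2) (y21 : y2 ≤ 3 * Y1 / N + X) (lv0 : 0 ≤ lv) (lv1 : lv ≤ X)
    (et1 : et ≤ bh * X) (jk1 : jk ≤ l ^ 2 * X) (hD : 0 < D) :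
    10 ^ 6 * l' * (τ * nl * yi + (nl + Lo') * (y2 + lv) + Lo * y1 + et) + 10 * jk ≤
      x * (D * Y1 / N) + (30 * T ^ 74 + 10) * l ^ 2 * X := by
  have hl' : 0 < l' := by rw [e]; positivity
  have Lo3 : 0 ≤ Lo' := Lo0.trans Lo1
  have a1 : τ * nl * yi ≤ τ * (a * bh / 2) * (3 * Yi / N + X) := by gcongr
  have a2 : (nl + Lo') * (y2 + lv) ≤ (11 * bh / 2 + bh) * (3 * Y1 / N + X + X) := by
    gcongr
    refine nl1.trans ?_
    gcongr
  have a3 : Lo * y1 ≤ bh * (3 * Y1 / N + X) := by gcongr; linarith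
  have a4 : τ * (a * bh / 2) * X ≤ 1 * (11 * bh / 2) * X := by gcongr
  have a5 : 10 ^ 6 * l' * (τ * (a * bh / 2) * (3 * Yi / N)) ≤ x / 2 * (D * Y1 / N) := by
    calc _ = (10 ^ 6 * T ^ 21 * τ) * (3 / 2) * (l * (bh * a) * Yi) / N := by rw [e]; ring
      _ ≤ (10 ^ 6 * T ^ 21 * τ) * (3 / 2) * (3 * (D * Y1)) / N := by gcongr
      _ = (9 * 10 ^ 6 * T ^ 21 * τ) / 2 * (D * Y1 / N) := by ring
      _ ≤ _ := by gcongr
  have a6 : 10 ^ 6 * l' * bh * (36 * (Y1 / N)) ≤ x / 2 * (D * Y1 / N) := by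
    calc _ ≤ T ^ 74 * l ^ 2 * (36 * (Y1 / N)) := by gcongr
      _ = 72 * T ^ 74 * l ^ 2 / 2 * (Y1 / N) := by ring
      _ ≤ x * D / 2 * (Y1 / N) := by gcongr
      _ = _ := by ring
  have a7 : 10 ^ 6 * l' * bh * (30 * X) ≤ T ^ 74 * l ^ 2 * (30 * X) := by gcongr
  have a8 : τ * nl * yi + (nl + Lo') * (y2 + lv) + Lo * y1 + et ≤
      τ * (a * bh / 2) * (3 * Yi / N) + bh * (36 * (Y1 / N)) + bh * (30 * X) := by
    have b1 : 0 ≤ bh * (Y1 / N) := by positivity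
    have b2 : 0 ≤ bh * X := by positivity
    have b3 : (11 * bh / 2 + bh) * (3 * Y1 / N + X + X) =
        39 / 2 * (bh * (Y1 / N)) + 13 * (bh * X) := by ring
    have b4 : bh * (3 * Y1 / N + X) = 3 * (bh * (Y1 / N)) + bh * X := by ring
    have b5 : τ * (a * bh / 2) * (3 * Yi / N + X) =
        τ * (a * bh / 2) * (3 * Yi / N) + τ * (a * bh / 2) * X := by ring
    linarith
  have a9 : 10 ^ 6 * l' * (τ * nl * yi + (nl + Lo') * (y2 + lv) + Lo * y1 + et) ≤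
      10 ^ 6 * l' * (τ * (a * bh / 2) * (3 * Yi / N) + bh * (36 * (Y1 / N)) + bh * (30 * X)) := by
    gcongr
  linarith

/-- The errors of the rungs. -/
lemma IsNet.upp_ey (H : IsNet G R) {AA : ℕ → ℝ} {E X g0 : ℝ} (h : Bnd G R J AA t E)
    (hc : Cur G R J g0 t E) (ha : 0 < R.aa G J t) (ha' : R.aa G J t ≤ 11) (hj : Jb G R J t)
    (hu : Up G R J t (G.N (J + 1) * X))
    (fl : Real.exp (-G.t ^ 50) * R.bh G (J + 1) ≤ G.N (J + 1) * X)
    (hy : ∀ i ≤ G.La, ‖R.y J i t‖ ≤ 3 * R.Yq G J (R.aa G J t) i / G.N J + X) {i : ℕ}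
    (hi : i < G.La) :
    R.ey G J i t ≤ Real.exp (-G.t ^ 19) * (G.D J * R.Yq G J (R.aa G J t) (i + 1) / G.N J) +
      (30 * G.t ^ 74 + 10) * G.lam J ^ 2 * X := by
  have h0 := h.cr0 H
  have hN := G.N_pos J
  have hN' := G.N_pos (J + 1)
  have hb := H.bh_pos J
  have hb' := H.bh_pos (J + 1)
  have hl := G.lam_pos J
  have t0 := G.t_pos
  have hX : 0 < X := by
    have : 0 < G.N (J + 1) * X := lt_of_lt_of_le (by positivity) fl
    exact (mul_pos_iff_of_pos_left hN').1 this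
  have hE : 0 < E := G.xs_pos.trans_le h.Elo
  have Y1 := H.Yq_pos J ha (i + 1)
  have Yi := H.Yq_pos J ha i
  have kk := G.ten_le_kk
  refine upp_ey_num (a := R.aa G J t) (Yi := R.Yq G J (R.aa G J t) i) (bh := R.bh G J) t0 hl hb hN
    ha ha' hX Y1 Yi G.tau0_pos G.upp_tau0' (G.lam_succ J) (H.upp_lam_bh J) G.upp_tau0 (G.upp_D J)
    ?_ (R.nl_nonneg G J t) ?_ (R.Low_nonneg G J t) (R.Low_succ G J t) ?_ (norm_nonneg _)
    (hy i hi.le) (norm_nonneg _) (hy _ hi) (norm_nonneg _) ?_ (R.lev_nonneg _ _) ?_ ?_ ?_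
    (G.D_pos J)
  · rw [R.Yq_succ]
    have := H.cy_lo (i + 1)
    have h2 : 0 < G.lam J * (R.bh G J * R.aa G J t) * R.Yq G J (R.aa G J t) i := by positivity
    nlinarith
  · have h1 := h.curl
    have h2 := H.un_hi J
    have h3 := (abs_le.mp hc.near).1
    have h4 := H.un_pos J
    unfold Raw.nl
    calc G.N J * R.lev J t ≤ G.N J * (4 * (E * R.un G J)) := by gcongr
      _ = E / 4 * (16 * (G.N J * R.un G J)) := by ring
      _ ≤ (R.aa G J t / 2) * R.bh G J := by gcongr ?_ * ?_; linarith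
      _ = _ := by ring
  · have h1 := h0.Low_le H (J + 1)
    rw [H.bh_succ] at h1
    have h2 := G.upp_m0
    have h3 := G.pow_lt (a := 21) (b := 200) (by norm_num)
    have h4 := pow_pos t0 21
    refine le_of_mul_le_mul_left (h1.trans ?_) G.m0_pos
    rw [← mul_assoc]
    gcongr
    linarith
  · rcases (show i + 2 ≤ G.La ∨ i + 2 = G.La + 1 by omega) with h1 | h1
    · refine (hy _ h1).trans ?_
      have h2 := H.Yq_succ_le J ha ha' (i + 1)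
      have h3 : Real.exp (-(G.t ^ 21 / 3)) ≤ 1 :=
        Real.exp_le_one_iff.mpr (by have := pow_pos t0 21; linarith)
      gcongr
      exact h2.trans (by nlinarith)
    · rw [h1, H.yend, norm_zero]; positivity
  · exact le_of_mul_le_mul_left hu.nw hN'
  · have h1 := h0.ET_up H hu (m := J + G.kk - 1) (by omega)
    have h2 : G.θ ^ (2 * (J + G.kk - 1 - J - 1)) ≤ 1 := pow_le_one₀ G.θ_pos.le G.upp_θ_le
    have h3 : G.N (J + 1) ≤ G.N (J + G.kk - 1) := G.N_mono (by omega)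
    have h4 : G.N J ≤ G.N (J + 1) := G.N_mono (by omega)
    have h5 := H.ET_nonneg (J + G.kk - 1) t
    have h6 : G.t ^ 61 ≤ G.Wc ^ 2 := by
      have := G.upp_Wc
      calc G.t ^ 61 ≤ G.t ^ 200 := G.pow_le (by norm_num)
        _ = (G.t ^ 100) ^ 2 := by ring
        _ ≤ _ := by gcongr
    have h7 : G.t ^ 61 * (G.N J * G.N (J + 1) * R.ET (J + G.kk - 1) t) ≤
        R.bh G (J + 1) * (G.N (J + 1) * X) := by
      calc _ ≤ G.Wc ^ 2 * (G.N (J + G.kk - 1) ^ 2 * R.ET (J + G.kk - 1) t) := by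
            rw [sq (G.N _)]
            have := G.N_pos (J + G.kk - 1)
            gcongr
            exact h4.trans h3
        _ ≤ _ := h1
        _ ≤ 1 * (R.bh G (J + 1) * (G.N (J + 1) * X)) := by gcongr
        _ = _ := one_mul _
    rw [H.bh_succ] at h7
    refine le_of_mul_le_mul_left (a := G.t ^ 21 * G.N (J + 1)) ?_ (by positivity)
    calc _ = G.t ^ 61 * (G.N J * G.N (J + 1) * R.ET (J + G.kk - 1) t) := by ring
      _ ≤ _ := h7
      _ = _ := by ring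
  · have h1 := H.jk_up hj (le_refl J)
    rw [Nat.sub_self, pow_zero, one_mul] at h1
    have h2 := G.N_succ_hi J
    have h3 : R.bh G J ≤ R.bh G (J + 1) := H.bh_mono (by omega)
    have h4 : G.t ^ 32 ≤ Real.exp (G.t ^ 60 - G.t ^ 50) := by
      refine G.upp_exp (by norm_num) ?_
      have := G.upp_t_le (m := 50) (by norm_num)
      have := G.pow_lt (a := 50) (b := 60) (by norm_num)
      linarith
    have h5 : R.bh G J ≤ Real.exp (G.t ^ 60) * (G.N J * X) := by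
      have e : Real.exp (G.t ^ 50) * Real.exp (-G.t ^ 50) = 1 := by rw [← Real.exp_add]; simp
      have e2 : Real.exp (G.t ^ 60) = Real.exp (G.t ^ 50) * Real.exp (G.t ^ 60 - G.t ^ 50) := by
        rw [← Real.exp_add]; ring_nf
      calc R.bh G J ≤ Real.exp (G.t ^ 50) * (Real.exp (-G.t ^ 50) * R.bh G (J + 1)) := by
            rw [← mul_assoc, e, one_mul]; exact h3
        _ ≤ Real.exp (G.t ^ 50) * (G.t ^ 32 * G.N J * X) := by
            gcongr _ * ?_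
            exact fl.trans (by gcongr)
        _ ≤ Real.exp (G.t ^ 50) * (Real.exp (G.t ^ 60 - G.t ^ 50) * G.N J * X) := by gcongr
        _ = _ := by rw [e2]; ring
    refine le_of_mul_le_mul_left (a := Real.exp (G.t ^ 60) * G.N J) ?_ (by positivity)
    calc _ = Real.exp (G.t ^ 60) * (G.N J * R.Jk t) := by ring
      _ ≤ G.lam J ^ 2 * R.bh G J := h1
      _ ≤ G.lam J ^ 2 * (Real.exp (G.t ^ 60) * (G.N J * X)) := by gcongr
      _ = _ := by ring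

/-- Barrier for four families. -/
theorem upp_barrier {a b : ℝ} {L M : ℕ} {A : ℝ → ℝ} {B C D : ℕ → ℝ → ℝ}
    (out : ∀ i, M ≤ i → ∀ t ∈ Icc a b, C i t ≤ 0 ∧ D i t ≤ 0)
    (cA : ContinuousOn A (Icc a b)) (cB : ∀ i < L, ContinuousOn (B i) (Icc a b))
    (cC : ∀ i, ContinuousOn (C i) (Icc a b)) (cD : ∀ i, ContinuousOn (D i) (Icc a b))
    (h0 : A a ≤ 0 ∧ (∀ i < L, B i a ≤ 0) ∧ (∀ i, C i a ≤ 0) ∧ ∀ i, D i a ≤ 0)
    (step : ∀ t ∈ Icc a b, (A t ≤ 0 ∧ (∀ i < L, B i t ≤ 0) ∧ (∀ i, C i t ≤ 0) ∧ ∀ i, D i t ≤ 0) →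
      (A t = 0 → ∃ e < 0, HasDerivWithinAt A e (Ici t) t) ∧
      (∀ i < L, B i t = 0 → ∃ e < 0, HasDerivWithinAt (B i) e (Ici t) t) ∧
      (∀ i, C i t = 0 → ∃ e < 0, HasDerivWithinAt (C i) e (Ici t) t) ∧
      (∀ i, D i t = 0 → ∃ e < 0, HasDerivWithinAt (D i) e (Ici t) t)) :
    ∀ t ∈ Icc a b, A t ≤ 0 ∧ (∀ i < L, B i t ≤ 0) ∧ (∀ i, C i t ≤ 0) ∧ ∀ i, D i t ≤ 0 := by
  let F : Unit ⊕ Fin L ⊕ ℕ ⊕ ℕ → ℝ → ℝ :=
    Sum.elim (fun _ => A) (Sum.elim (fun i => B i) (Sum.elim C D))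
  have eqv : ∀ t, (∀ i, F i t ≤ 0) ↔
      (A t ≤ 0 ∧ (∀ i < L, B i t ≤ 0) ∧ (∀ i, C i t ≤ 0) ∧ ∀ i, D i t ≤ 0) := by
    intro t
    simp only [F, Sum.forall, Sum.elim_inl, Sum.elim_inr, forall_const, Fin.forall_iff]
  let s : Set (Unit ⊕ Fin L ⊕ ℕ ⊕ ℕ) := range Sum.inl ∪ range (Sum.inr ∘ Sum.inl) ∪
    (Sum.inr ∘ Sum.inr ∘ Sum.inl) '' Iio M ∪ (Sum.inr ∘ Sum.inr ∘ Sum.inr) '' Iio M
  have fin : s.Finite := (((finite_range _).union (finite_range _)).union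
    ((finite_Iio M).image _)).union ((finite_Iio M).image _)
  have := family_barrier' (H := F) (a := a) (b := b) fin ?_ ?_ ((eqv a).2 h0) ?_
  · exact fun t ht => (eqv t).1 (this t ht)
  · rintro (i | i | i | i) hi t ht
    · exact absurd (Or.inl (Or.inl (Or.inl ⟨i, rfl⟩))) hi
    · exact absurd (Or.inl (Or.inl (Or.inr ⟨i, rfl⟩))) hi
    · exact (out i (not_lt.mp fun h => hi (Or.inl (Or.inr ⟨i, h, rfl⟩))) t ht).1
    · exact (out i (not_lt.mp fun h => hi (Or.inr ⟨i, h, rfl⟩)) t ht).2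
  · rintro (i | i | i | i)
    · exact cA
    · exact cB i i.2
    · exact cC i
    · exact cD i
  · intro t ht hp
    obtain ⟨s1, s2, s3, s4⟩ := step t (Ico_subset_Icc_self ht) ((eqv t).1 (hp t ⟨ht.1, le_rfl⟩))
    rintro (i | i | i | i)
    · exact s1
    · exact s2 i i.2
    · exact s3 i
    · exact s4 i

end

end Pool.Agent.Work.MP_6bf1e5_an.Ell
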