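import Pool.Agent.Work.MP_6bf1e5_an.Ell.Upper
import Pool.Agent.Work.MP_6bf1e5_an.Ell.Cur
import Pool.Agent.Work.MP_6bf1e5_an.Ell.Scal
import Pool.Agent.Work.MP_6bf1e5_an.Ell.UppA

/-!
Upper bounds for the new level and the current ladder.
-/

open Set Complex Filter Topology
open scoped InnerProductSpace ComplexConjugate
open Pool.Agent.Work.MP_6bf1e5_an.B (Z3 R3)
open Pool.Agent.Work.MP_6bf1e5_an.Dec

namespace Pool.Agent.Work.MP_6bf1e5_an.Ell

noncomputable section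

variable {G : Geo} {R : Raw} {j : ℕ} {t0 c g0 : ℝ} {AA : ℕ → ℝ}

/-- The amplitude of the low comb which seeds level `j + 2`. -/
def zz (G : Geo) (R : Raw) (j : ℕ) (AA : ℕ → ℝ) : ℝ := AA (j + 2 - G.kk) * R.bh G (j + 2 - G.kk)

namespace Run

variable (H : IsNet G R) (S : Run G R j AA t0 c g0)

include H S

lemma zz_bounds : 2 * R.bh G (j + 2) ≤ zz G R j AA * G.m0 ∧
    zz G R j AA * G.m0 ≤ 10 * R.bh G (j + 2) := by
  have h1 := S.st.kJ
  have h2 := G.ten_le_kk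
  obtain ⟨a1, a2⟩ := S.st.oldA (j + 2 - G.kk) (by omega)
  have e := H.bh_add_kk (j + 2 - G.kk)
  rw [show j + 2 - G.kk + G.kk = j + 2 by omega] at e
  have hb := H.bh_pos (j + 2)
  have e2 : zz G R j AA * G.m0 = AA (j + 2 - G.kk) * R.bh G (j + 2) := by
    rw [e, zz]; ring
  rw [e2]
  constructor <;> nlinarith

lemma aa_bounds {t : ℝ} (ht : t ∈ Icc t0 c) : 0 < R.aa G (j + 1) t ∧ R.aa G (j + 1) t ≤ 11 := by
  have h1 := abs_le.mp (S.cur H t ht).near
  have h2 := (S.bnd t ht).Elo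
  have h3 := (S.bnd t ht).Ehi
  have h4 := G.xs_pos
  constructor <;> linarith [h1.1, h1.2]

lemma exists_cmp : ∃ g, Cmp G R (j + 1) (zz G R j AA) t0 c g := by
  have ca : ContinuousOn (R.aa G (j + 1)) (Icc t0 c) :=
    (H.cont_aa _).mono fun s hs => S.st.t0.trans hs.1
  obtain ⟨g, h1, h2⟩ := exists_lin (s := fun t => G.d (j + 2) * (R.aa G (j + 1) t - 1))
    (g := fun t => R.Fs G (j + 1) (zz G R j AA) 1 * R.aa G (j + 1) t ^ (G.La + 1)) S.st.t0 S.le
    (continuousOn_const.mul (ca.sub continuousOn_const)) (continuousOn_const.mul (ca.pow _))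
    (Real.exp (G.t ^ 22) * R.bh G (j + 2))
  refine ⟨g, h1, fun t ht => ?_⟩
  rw [R.Fs_eq]
  exact h2 t ht

lemma sc {g : ℝ → ℝ} (hg : Cmp G R (j + 1) (zz G R j AA) t0 c g) :
    Sc G.t (G.d (j + 1)) g0 (R.Fs G (j + 1) (zz G R j AA) 1) (R.bh G (j + 2)) t0 c G.La
      (R.aa G (j + 1)) g := by
  have m0 : t0 ∈ Icc t0 c := ⟨le_rfl, S.le⟩
  have n0 := abs_le.mp (S.cur H t0 m0).near
  have e0 : Ex t0 (AA (j + 1)) g0 t0 = AA (j + 1) := by simp [Ex]
  rw [e0] at n0
  obtain ⟨a1, a2⟩ := S.st.curA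
  have x0 := G.xs_pos
  obtain ⟨z1, z2⟩ := S.zz_bounds H
  obtain ⟨f1, f2⟩ := H.Fs_bounds (j + 1) z1 z2
  rw [G.d_succ] at f1 f2
  refine ⟨G.t_big, G.La_eq, G.d_pos _, H.bh_pos _, S.st.t0, S.le, ?_, S.g0_lo, S.g0_hi, ?_, ?_,
    (S.aa_bounds H ⟨S.le, le_rfl⟩).2, fun t ht => ⟨(S.aa_bounds H ht).1, (S.cur H t ht).grow⟩,
    f1, f2, hg.init, fun t ht => ?_⟩
  · rw [← G.d_mul_Δ (j + 1)]
    exact mul_le_mul_of_nonneg_left (by linarith [S.le']) (G.d_pos _).le
  · change G.xs / 2 ≤ _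
    linarith [n0.1]
  · change _ ≤ 2000 * G.xs
    linarith [n0.2]
  · have := hg.ode t ht
    rwa [R.Fs_eq, G.d_succ] at this

lemma l1_Z_le {t : ℝ} (ht : t ∈ Icc t0 c) (o : Fin 4) :
    l1 (R.Z G (j + 2) o t) ≤ 101 / 100 * zz G R j AA := by
  have h1 := S.st.kJ
  have h2 := G.ten_le_kk
  have hB := S.bnd t ht
  have hi : j + 2 - G.kk < j + 1 := by omega
  obtain ⟨a1, a2⟩ := hB.oldA _ hi
  have hu := H.un_pos (j + 2 - G.kk)
  have hb := H.bh_pos (j + 2 - G.kk)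
  have h3 := (H.aa_close (a1 := 1 / 10 ^ 20) (by norm_num) fun o => (hB.oldb _ hi o).trans (by
    have : (0 : ℝ) ≤ (1 / 2) ^ (j + 1 + 1 - (j + 2 - G.kk)) := by positivity
    nlinarith)).2
  rw [abs_of_nonneg (by linarith)] at h3
  have h4 := (H.l1_C_le (j + 2 - G.kk) t).trans
    (mul_le_mul_of_nonneg_left ((hB.cr0 H).nl _) (by norm_num))
  have h5 : 10 ^ 50 * |R.cq o| ≤ 1 := by
    refine le_trans ?_ (H.cq_le' o)
    have := G.upp_one_le_pow 10
    have := abs_nonneg (R.cq o)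
    nlinarith
  rw [Raw.Z, if_pos (by omega), l1_rot]
  refine (l1_add_le _ _).trans ?_
  rw [l1_smul, l1_sh_mul, Complex.norm_real, Real.norm_eq_abs, zz]
  have h6 : |R.cq o| * l1 (R.Cc G (j + 2 - G.kk) t) ≤ 1 / 10 ^ 50 * (40 * (10 * R.bh G (j + 2 - G.kk))) :=
    mul_le_mul (by linarith) h4 (l1_nonneg _) (by norm_num)
  nlinarith

lemma exists_X {g : ℝ → ℝ} (hg : Cmp G R (j + 1) (zz G R j AA) t0 c g) :
    ∃ X : ℝ → ℝ, G.N (j + 1) * X t0 = 10 * Real.exp (G.t ^ 22) * R.bh G (j + 2) ∧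
      ∀ t ∈ Icc t0 c, 0 < X t ∧ X t ≤ 20 * g t / G.N (j + 1) ∧
        Real.exp (-G.t ^ 50) * R.bh G (j + 2) ≤ G.N (j + 2) * X t ∧ ∃ X', HD X X' t ∧
          (G.d (j + 2) * (R.aa G (j + 1) t - 1) + (G.t ^ 50)⁻¹ * G.d (j + 2)) * X t +
            10 * (R.Fs G (j + 1) (zz G R j AA) (R.aa G (j + 1) t) / G.N (j + 1)) ≤ X' := by
  have T0 := G.t_pos
  have hN := G.N_pos (j + 1)
  have hb' := H.bh_pos (j + 2)
  have hd := G.d_pos (j + 1)
  have hd' := G.d_pos (j + 2)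
  obtain ⟨z1, z2⟩ := S.zz_bounds H
  obtain ⟨k0, -, -⟩ := H.Kf_bounds z1 z2
  refine ⟨fun t => 10 * (g t * Real.exp ((G.t ^ 50)⁻¹ * G.d (j + 2) * (t - t0))) / G.N (j + 1),
    ?_, fun t ht => ?_⟩
  · simp only [sub_self, mul_zero, Real.exp_zero, mul_one, hg.init]
    field_simp
  have g1 := (S.sc H hg).floor t ht
  have g0' : 0 < g t := lt_of_lt_of_le (by positivity) g1
  have e1 : 1 ≤ Real.exp ((G.t ^ 50)⁻¹ * G.d (j + 2) * (t - t0)) :=
    Real.one_le_exp (mul_nonneg (by positivity) (by linarith [ht.1]))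
  have e2 : Real.exp ((G.t ^ 50)⁻¹ * G.d (j + 2) * (t - t0)) ≤ 2 := by
    have h1 : G.d (j + 1) * (t - t0) ≤ 2 * G.t :=
      le_trans (mul_le_mul_of_nonneg_left (by linarith [ht.2]) hd.le) (S.sc H hg).dur
    have h2 : (G.t ^ 50)⁻¹ * G.d (j + 2) * (t - t0) ≤ 1 / 2 := by
      rw [G.d_succ (j + 1)]
      have h3 := G.pow_lt (a := 43) (b := 50) (by norm_num)
      have h4 := pow_pos T0 43
      calc _ = G.t ^ 42 * (G.d (j + 1) * (t - t0)) / G.t ^ 50 := by ring
        _ ≤ G.t ^ 42 * (2 * G.t) / G.t ^ 50 := by gcongr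
        _ ≤ 1 / 2 := by
          rw [div_le_iff₀ (by positivity)]
          have : G.t ^ 42 * (2 * G.t) = 2 * G.t ^ 43 := by ring
          linarith
    have h5 := Real.exp_bound_div_one_sub_of_interval' (x := 1 / 2) (by norm_num) (by norm_num)
    have := Real.exp_le_exp.mpr h2
    linarith
  refine ⟨by positivity, ?_, ?_, _, (((hg.ode t ht).fun_mul
    (((hasDerivWithinAt_id t _).sub_const t0).const_mul _).exp).const_mul 10).div_const _, ?_⟩
  · refine div_le_div_of_nonneg_right ?_ hN.le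
    nlinarith
  · have NN : G.N (j + 1) ≤ G.N (j + 2) := G.N_mono (by omega)
    have h1 : Real.exp (-G.t ^ 50) ≤ Real.exp (-G.t ^ 44) :=
      Real.exp_le_exp.mpr (by linarith [G.pow_le (a := 44) (b := 50) (by norm_num)])
    calc Real.exp (-G.t ^ 50) * R.bh G (j + 2) ≤ Real.exp (-G.t ^ 44) * R.bh G (j + 2) := by gcongr
      _ ≤ 10 * (g t * Real.exp ((G.t ^ 50)⁻¹ * G.d (j + 2) * (t - t0))) := by nlinarith
      _ = G.N (j + 1) * (10 * (g t * Real.exp ((G.t ^ 50)⁻¹ * G.d (j + 2) * (t - t0))) /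
          G.N (j + 1)) := by field_simp
      _ ≤ _ := by gcongr
  · have F0 : 0 < R.Fs G (j + 1) (zz G R j AA) (R.aa G (j + 1) t) / G.N (j + 1) := by
      have := H.Yq_pos (j + 1) (S.aa_bounds H ht).1 G.La
      rw [Fs_eq_Kf]; positivity
    have h1 := mul_le_mul_of_nonneg_left e1 F0.le
    simp only [id]
    rw [mul_one] at h1
    refine le_trans (add_le_add_right (mul_le_mul_of_nonneg_left h1 (by norm_num)) _) (le_of_eq ?_)
    rw [show j + 1 + 1 = j + 2 from rfl]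
    ring

omit H S in
lemma _root_.Pool.Agent.Work.MP_6bf1e5_an.Ell.upp_inner {n : N3} {l : ℝ} {v : Z3 → ℝ}
    (h : Lay n l v) (D : ℝ) {y s r : V} {xs xr : ℝ} (hs : ‖s‖ ≤ xs) (hr : ‖r‖ ≤ xr) :
    (⟪y, s - (D : ℂ) • y - mulr v y + r⟫_ℂ).re ≤ ‖y‖ * (xs + xr - D * ‖y‖) := by
  have h1 := h.re_inner y
  have h2 : ‖s + r‖ ≤ xs + xr := (norm_add_le _ _).trans (by linarith)
  have h3 := (Complex.re_le_norm _).trans ((norm_inner_le_norm (𝕜 := ℂ) y (s + r)).trans
    (mul_le_mul_of_nonneg_left h2 (norm_nonneg _)))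
  have h4 : (⟪y, (D : ℂ) • y⟫_ℂ).re = D * ‖y‖ ^ 2 := by
    rw [inner_smul_right, Complex.re_ofReal_mul, ← RCLike.re_to_complex,
      ← @norm_sq_eq_re_inner ℂ]
  rw [show s - (D : ℂ) • y - mulr v y + r = s + r - (D : ℂ) • y - mulr v y by abel,
    inner_sub_right, inner_sub_right, Complex.sub_re, Complex.sub_re, h4]
  linarith

theorem upp {g : ℝ → ℝ} (hg : Cmp G R (j + 1) (zz G R j AA) t0 c g) :
    ∀ t ∈ Icc t0 c, Upp G R (j + 1) (zz G R j AA) t (g t) := by
  obtain ⟨X, X0, hX⟩ := S.exists_X H hg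
  obtain ⟨z1, z2⟩ := S.zz_bounds H
  obtain ⟨k0, k1, k2⟩ := H.Kf_bounds z1 z2
  have T0 := G.t_pos
  have hN := G.N_pos (j + 1)
  have hN' := G.N_pos (j + 2)
  have hb := H.bh_pos (j + 1)
  have hb' := H.bh_pos (j + 2)
  have hd' := G.d_pos (j + 2)
  have hl := G.lam_pos (j + 1)
  have θ0 := G.θ_pos
  have sub : Icc t0 c ⊆ Ici 0 := fun s hs => S.st.t0.trans hs.1
  set ε := Real.exp (-(G.t ^ 21 / 3)) with hε
  have ε0 : 0 < ε := Real.exp_pos _
  have ε1 : ε ≤ 1 := Real.exp_le_one_iff.mpr (by have := pow_pos T0 21; linarith)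
  set ρ := 1 + (G.t ^ 30)⁻¹ with hρ
  have ρ0 : 0 < (G.t ^ 30)⁻¹ := by positivity
  have ρ1 : ∀ i : ℕ, 1 ≤ ρ ^ i := fun i => one_le_pow₀ (by linarith)
  let Bf : ℕ → ℝ → ℝ := fun i t =>
    2 * ρ ^ i * R.Yq G (j + 1) (R.aa G (j + 1) t) i / G.N (j + 1) + ε * X t
  have Bf0 : ∀ i, ∀ t ∈ Icc t0 c, 0 < Bf i t := fun i t ht => by
    have := H.Yq_pos (j + 1) (S.aa_bounds H ht).1 i
    have := (hX t ht).1
    have := ρ1 i
    positivity
  have dX : ∀ t ∈ Icc t0 c, ∃ X', HD X X' t ∧ -(G.d (j + 2) * X t) ≤ X' := fun t ht => by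
    obtain ⟨x1, -, -, X', x2, x3⟩ := hX t ht
    refine ⟨X', x2, le_trans ?_ x3⟩
    have a0 := (S.aa_bounds H ht).1
    have := H.Yq_pos (j + 1) a0 G.La
    rw [Fs_eq_Kf]
    have h1 : 0 ≤ 10 * (Kf G R (j + 1) (zz G R j AA) * R.Yq G (j + 1) (R.aa G (j + 1) t) G.La /
      G.N (j + 1)) := by positivity
    have h2 : 0 ≤ (G.d (j + 2) * R.aa G (j + 1) t + (G.t ^ 50)⁻¹ * G.d (j + 2)) * X t := by
      positivity
    linarith
  have dB : ∀ i, ∀ t ∈ Icc t0 c, ∃ B', HD (Bf i) B' t ∧ -(ε * (G.d (j + 2) * X t)) ≤ B' := by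
    intro i t ht
    obtain ⟨X', x1, x2⟩ := dX t ht
    obtain ⟨a', h1, h2, -⟩ := (S.cur H t ht).grow
    have a0 := (S.aa_bounds H ht).1
    have g00 : 0 < g0 := by have := G.d_pos (j + 1); linarith [S.g0_lo]
    have a'0 : 0 ≤ a' := le_trans (by positivity) h2
    have e : Bf i = fun t => 2 * ρ ^ i * (R.Yq G (j + 1) 1 i * R.aa G (j + 1) t ^ (i + 1)) /
        G.N (j + 1) + ε * X t := by
      funext s; simp only [Bf]; rw [R.Yq_eq]
    rw [e]
    refine ⟨_, ((((h1.fun_pow (i + 1)).const_mul _).const_mul _).div_const _).fun_add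
      (x1.const_mul ε), ?_⟩
    have := H.Yq_pos (j + 1) one_pos i
    have := ρ1 i
    have h3 : 0 ≤ 2 * ρ ^ i * (R.Yq G (j + 1) 1 i *
      (((i + 1 : ℕ) : ℝ) * R.aa G (j + 1) t ^ (i + 1 - 1) * a')) / G.N (j + 1) := by positivity
    linarith [mul_le_mul_of_nonneg_left x2 ε0.le]
  have cX : ContinuousOn X (Icc t0 c) :=
    contOn_of_HD S.st.t0 fun t ht => (dX t ht).imp fun _ h => h.1
  have clev : ∀ i, ContinuousOn (R.lev i) (Icc t0 c) := fun i => (H.cont_lev i).mono sub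
  -- consequences of the barrier inequalities at one time
  have stat : ∀ t ∈ Icc t0 c, (R.lev (j + 2) t - X t ≤ 0 ∧
      (∀ i < G.La, ‖R.y (j + 1) (i + 1) t‖ ^ 2 - Bf (i + 1) t ^ 2 ≤ 0) ∧
      (∀ i, R.nc G (j + 2 + i) t - G.θ ^ (i + 1) * (G.N (j + 2) * X t) ≤ 0) ∧
      ∀ i, G.Wc * R.nl G (j + 3 + i) t - G.θ ^ (i + 1) * (G.N (j + 2) * X t) ≤ 0) →
      Up G R (j + 1) t (G.N (j + 2) * X t) ∧ (∀ i ≤ G.La, ‖R.y (j + 1) i t‖ ≤ Bf i t) ∧
      ∀ i ≤ G.La, ‖R.y (j + 1) i t‖ ≤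
        3 * R.Yq G (j + 1) (R.aa G (j + 1) t) i / G.N (j + 1) + ε * X t := by
    rintro t ht ⟨p1, p2, p3, p4⟩
    have a0 := (S.aa_bounds H ht).1
    have hy : ∀ i ≤ G.La, ‖R.y (j + 1) i t‖ ≤ Bf i t := by
      intro i hi
      rcases i with _ | i
      · have h1 := H.upp_y0 (S.cur H t ht) a0
        have := (hX t ht).1
        simp only [Bf, pow_zero, mul_one]
        linarith [mul_pos ε0 this]
      · exact (pow_le_pow_iff_left₀ (norm_nonneg _) (Bf0 _ t ht).le two_ne_zero).mp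
          (sub_nonpos.mp (p2 i hi))
    refine ⟨⟨?_, fun i hi => ?_, fun i hi => ?_⟩, hy, fun i hi => (hy i hi).trans ?_⟩
    · exact mul_le_mul_of_nonneg_left (by linarith) hN'.le
    · obtain ⟨m, rfl⟩ := Nat.exists_eq_add_of_le hi
      rw [show j + 1 + 1 + m - (j + 1) = m + 1 by omega]
      linarith [p3 m]
    · obtain ⟨m, rfl⟩ := Nat.exists_eq_add_of_le hi
      rw [show j + 1 + 2 + m - (j + 1) - 1 = m + 1 by omega]
      linarith [p4 m]
    · have h1 := G.upp_rho hi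
      have h2 := H.Yq_pos (j + 1) a0 i
      simp only [Bf]
      gcongr ?_ * _ / _ + _
      linarith
  have ebc : ∀ t ∈ Icc t0 c, Up G R (j + 1) t (G.N (j + 2) * X t) →
      (∀ i ≤ G.La, ‖R.y (j + 1) i t‖ ≤
        3 * R.Yq G (j + 1) (R.aa G (j + 1) t) i / G.N (j + 1) + ε * X t) →
      Kf G R (j + 1) (zz G R j AA) * ‖R.y (j + 1) G.La t‖ ≤
        3 * (R.Fs G (j + 1) (zz G R j AA) (R.aa G (j + 1) t) / G.N (j + 1)) +
          Kf G R (j + 1) (zz G R j AA) * X t ∧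
      R.eb G (j + 2) t + R.ec G (j + 1) t ≤ Real.exp (-(3 * G.t ^ 19)) * (2 * G.d (j + 2) * X t +
        3 / 2 * (R.Fs G (j + 1) (zz G R j AA) (R.aa G (j + 1) t) / G.N (j + 1))) := by
    intro t ht hu hy
    have x0 := (hX t ht).1
    have h1 : Kf G R (j + 1) (zz G R j AA) * ‖R.y (j + 1) G.La t‖ ≤
        3 * (R.Fs G (j + 1) (zz G R j AA) (R.aa G (j + 1) t) / G.N (j + 1)) +
          Kf G R (j + 1) (zz G R j AA) * X t := by
      have h2 := (hy _ le_rfl).trans (add_le_add_right (mul_le_of_le_one_left x0.le ε1) _)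
      refine (mul_le_mul_of_nonneg_left h2 k0.le).trans (le_of_eq ?_)
      rw [Fs_eq_Kf]; ring
    exact ⟨h1, H.upp_ebc ((S.bnd t ht).cr0 H) (S.jb t ht) hu (hX t ht).2.2.1 z1 z2 h1⟩
  have ey : ∀ t ∈ Icc t0 c, Up G R (j + 1) t (G.N (j + 2) * X t) →
      (∀ i ≤ G.La, ‖R.y (j + 1) i t‖ ≤
        3 * R.Yq G (j + 1) (R.aa G (j + 1) t) i / G.N (j + 1) + ε * X t) → ∀ i < G.La,
      R.ey G (j + 1) i t ≤ Real.exp (-G.t ^ 19) *
        (G.D (j + 1) * R.Yq G (j + 1) (R.aa G (j + 1) t) (i + 1) / G.N (j + 1)) +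
        G.t ^ 110 / 20 * G.lam (j + 1) ^ 2 * X t := by
    intro t ht hu hy i hi
    have x0 := (hX t ht).1
    refine (H.upp_ey (S.bnd t ht) (S.cur H t ht) (S.aa_bounds H ht).1 (S.aa_bounds H ht).2
      (S.jb t ht) hu (hX t ht).2.2.1 (fun i hi => (hy i hi).trans
        (add_le_add_right (mul_le_of_le_one_left x0.le ε1) _)) hi).trans ?_
    gcongr
    have h1 := G.pow_lt (a := 74) (b := 110) (by norm_num)
    have h2 := G.upp_one_le_pow 74
    linarith
  obtain ⟨M, hM⟩ := H.high (j + 1) c (u := Real.exp (-G.t ^ 50) * R.bh G (j + 2)) (by positivity)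
  have main := upp_barrier (a := t0) (b := c) (L := G.La) (M := M)
    (A := fun t => R.lev (j + 2) t - X t)
    (B := fun i t => ‖R.y (j + 1) (i + 1) t‖ ^ 2 - Bf (i + 1) t ^ 2)
    (C := fun i t => R.nc G (j + 2 + i) t - G.θ ^ (i + 1) * (G.N (j + 2) * X t))
    (D := fun i t => G.Wc * R.nl G (j + 3 + i) t - G.θ ^ (i + 1) * (G.N (j + 2) * X t))
    ?_ ((clev _).sub cX) ?_ ?_ ?_ ?_ ?_
  · intro t ht
    obtain ⟨u1, -, u2⟩ := stat t ht (main t ht)
    obtain ⟨x0, x1, -⟩ := hX t ht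
    have a0 := (S.aa_bounds H ht).1
    refine ⟨by linarith [(main t ht).1], fun i hi => (u2 i hi).trans (by gcongr),
      fun i hi => (ey t ht u1 u2 i hi).trans ?_, (ebc t ht u1 u2).2.trans ?_⟩
    · have : G.t ^ 110 / 20 * G.lam (j + 1) ^ 2 * X t ≤
          G.t ^ 110 / 20 * G.lam (j + 1) ^ 2 * (20 * g t / G.N (j + 1)) := by gcongr
      refine add_le_add_right (this.trans (le_of_eq ?_)) _
      ring
    · have F0 : 0 < R.Fs G (j + 1) (zz G R j AA) (R.aa G (j + 1) t) / G.N (j + 1) := by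
        have := H.Yq_pos (j + 1) a0 G.La
        rw [Fs_eq_Kf]; positivity
      have h1 : 40 * Real.exp (-(3 * G.t ^ 19)) ≤ Real.exp (-(2 * G.t ^ 19)) := by
        have e : Real.exp (-(2 * G.t ^ 19)) = Real.exp (G.t ^ 19) * Real.exp (-(3 * G.t ^ 19)) := by
          rw [← Real.exp_add]; ring_nf
        rw [e]
        gcongr
        have := Real.add_one_le_exp (G.t ^ 19)
        have := G.pow_lt (a := 0) (b := 19) (by norm_num)
        linarith
      have h2 : G.d (j + 2) * X t ≤ G.d (j + 2) * (20 * g t / G.N (j + 1)) := by gcongr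
      have h3 : 0 < G.d (j + 2) * X t := by positivity
      calc _ ≤ Real.exp (-(3 * G.t ^ 19)) * (40 * ((R.Fs G (j + 1) (zz G R j AA) (R.aa G (j + 1) t) +
            G.d (j + 2) * g t) / G.N (j + 1))) := by
            gcongr _ * ?_
            have e : (R.Fs G (j + 1) (zz G R j AA) (R.aa G (j + 1) t) + G.d (j + 2) * g t) /
                G.N (j + 1) = R.Fs G (j + 1) (zz G R j AA) (R.aa G (j + 1) t) / G.N (j + 1) +
                G.d (j + 2) * (20 * g t / G.N (j + 1)) / 20 := by ring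
            rw [e]
            linarith
        _ = 40 * Real.exp (-(3 * G.t ^ 19)) * ((R.Fs G (j + 1) (zz G R j AA) (R.aa G (j + 1) t) +
            G.d (j + 2) * g t) / G.N (j + 1)) := by ring
        _ ≤ _ := by
            refine mul_le_mul_of_nonneg_right h1 ?_
            rw [add_div, mul_div_assoc]
            have h4 : 0 ≤ g t / G.N (j + 1) := by
              have : 20 * g t / G.N (j + 1) = 20 * (g t / G.N (j + 1)) := by ring
              linarith
            positivity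
  · intro i hi t ht
    have fl := (hX t ht).2.2.1
    have h1 := (hM (j + 2 + i) (by omega) t ⟨sub ht, ht.2⟩).1
    have h2 := (hM (j + 3 + i) (by omega) t ⟨sub ht, ht.2⟩).2
    rw [show j + 2 + i - (j + 1) = i + 1 by omega] at h1
    rw [show j + 3 + i - (j + 1) - 1 = i + 1 by omega] at h2
    have h3 := mul_le_mul_of_nonneg_left fl (pow_pos θ0 (i + 1)).le
    constructor <;> linarith
  · intro i hi
    refine contOn_of_HD S.st.t0 fun t ht => ?_
    obtain ⟨r, -, h1⟩ := H.eqY (j + 1) i t hi (sub ht)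
    obtain ⟨B', h2, -⟩ := dB (i + 1) t ht
    exact ⟨_, h1.normsq.fun_sub (h2.fun_pow 2)⟩
  · intro i
    exact (continuousOn_const.mul (continuousOn_const.mul ((H.cont_ch _).mono sub))).sub
      (continuousOn_const.mul (continuousOn_const.mul cX))
  · intro i
    exact (continuousOn_const.mul (continuousOn_const.mul (clev _))).sub
      (continuousOn_const.mul (continuousOn_const.mul cX))
  · have m0 : t0 ∈ Icc t0 c := ⟨le_rfl, S.le⟩
    have hB := S.bnd t0 m0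
    have E1 := hB.Ehi
    have e22 : 2 ≤ ε * Real.exp (G.t ^ 22) := by
      rw [hε, ← Real.exp_add]
      have := Real.add_one_le_exp (-(G.t ^ 21 / 3) + G.t ^ 22)
      have := G.pow_lt (a := 21) (b := 22) (by norm_num)
      have := G.upp_one_le_pow 21
      linarith
    have e23 : 1 ≤ Real.exp (G.t ^ 22) := Real.one_le_exp (by positivity)
    have NN : G.N (j + 1) ≤ G.N (j + 2) := G.N_mono (by omega)
    have bb : R.bh G (j + 1) ≤ R.bh G (j + 2) := H.bh_mono (by omega)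
    have x0 := (hX t0 m0).1
    have hu : Up G R (j + 1) t0 (G.N (j + 2) * X t0) := by
      refine hB.up.mono ?_
      have h1 := G.upp_xs_le
      have h2 := G.xs_pos
      have h3 : G.xs * Ex t0 (AA (j + 1)) g0 t0 ≤ 1 := by
        linarith [mul_le_mul_of_nonneg_left E1 h2.le]
      have h4 : G.N (j + 1) * X t0 ≤ G.N (j + 2) * X t0 := by gcongr
      have h5 : G.xs * Ex t0 (AA (j + 1)) g0 t0 * R.bh G (j + 2) ≤ 1 * R.bh G (j + 2) := by gcongr
      have h6 : 1 * R.bh G (j + 2) ≤ Real.exp (G.t ^ 22) * R.bh G (j + 2) := by gcongr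
      change _ * R.bh G (j + 2) ≤ _
      linarith
    refine ⟨?_, fun i hi => ?_, fun i => ?_, fun i => ?_⟩
    · exact sub_nonpos.mpr (le_of_mul_le_mul_left hu.nw hN')
    · refine sub_nonpos.mpr (pow_le_pow_left₀ (norm_nonneg _) ?_ 2)
      have h1 := IsNet.upp_y_le hB (i := i + 1) (by omega) hi
      have h2 : ‖R.y (j + 1) (i + 1) t0‖ ≤ ε * X t0 := by
        refine le_of_mul_le_mul_left (h1.trans ?_) hN
        have e : G.N (j + 1) * (ε * X t0) = 10 * (ε * Real.exp (G.t ^ 22)) * R.bh G (j + 2) := by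
          rw [mul_left_comm, X0]; ring
        rw [e]
        exact mul_le_mul (by linarith) bb hb.le (by positivity)
      have := H.Yq_pos (j + 1) (S.aa_bounds H m0).1 (i + 1)
      have := ρ1 (i + 1)
      refine h2.trans (le_add_of_nonneg_left ?_)
      positivity
    · have := hu.y (j + 2 + i) (by omega)
      rw [show j + 2 + i - (j + 1) = i + 1 by omega] at this
      exact sub_nonpos.mpr this
    · have := hu.l (j + 3 + i) (by omega)
      rw [show j + 3 + i - (j + 1) - 1 = i + 1 by omega] at this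
      exact sub_nonpos.mpr this
  · intro t ht hp
    obtain ⟨u1, u3, u2⟩ := stat t ht hp
    obtain ⟨x0, -, fl, X', x2, x3⟩ := hX t ht
    obtain ⟨a0, a1⟩ := S.aa_bounds H ht
    have hB := S.bnd t ht
    have h0 := hB.cr0 H
    have t0' : 0 ≤ t := sub ht
    refine ⟨fun e => ?_, fun i hi e => ?_, fun i e => ?_, fun i e => ?_⟩
    · have e' : R.lev (j + 2) t = X t := by linarith
      obtain ⟨D, d1, d2⟩ := H.lev_deriv (j := j + 1) t0' (e' ▸ x0)
        (H.upp_sigma (S.cur H t ht) a0) fun o => H.upp_f_le o (S.l1_Z_le H ht o)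
      refine ⟨D - X', ?_, HD.right (d1.fun_sub x2) t0'⟩
      obtain ⟨b1, b2⟩ := ebc t ht u1 u2
      have F0 : 0 < R.Fs G (j + 1) (zz G R j AA) (R.aa G (j + 1) t) / G.N (j + 1) := by
        have := H.Yq_pos (j + 1) a0 G.La
        rw [Fs_eq_Kf]; positivity
      change D ≤ _ * R.lev (j + 2) t + 2 * (_ + R.eb G (j + 2) t + _) at d2
      rw [e'] at d2
      have h1 : Real.exp (-(3 * G.t ^ 19)) ≤ (G.t ^ 60)⁻¹ :=
        le_trans (Real.exp_le_exp.mpr (by have := pow_pos T0 19; linarith)) G.upp_exp19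
      have h2 : 100 * (G.t ^ 60)⁻¹ ≤ (G.t ^ 50)⁻¹ := by
        have := G.pow_lt (a := 50) (b := 60) (by norm_num)
        have := pow_pos T0 50
        rw [← div_eq_mul_inv, ← one_div, div_le_div_iff₀ (by positivity) (by positivity)]
        linarith
      have h3 : (G.t ^ 50)⁻¹ ≤ 1 := inv_le_one_of_one_le₀ (G.upp_one_le_pow _)
      have h4 : 0 < (G.t ^ 60)⁻¹ := by positivity
      have h5 : Kf G R (j + 1) (zz G R j AA) * X t ≤ (G.t ^ 60)⁻¹ * G.d (j + 2) * X t := by gcongr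
      have h6 : Real.exp (-(3 * G.t ^ 19)) * (2 * G.d (j + 2) * X t +
        3 / 2 * (R.Fs G (j + 1) (zz G R j AA) (R.aa G (j + 1) t) / G.N (j + 1))) ≤
          (G.t ^ 60)⁻¹ * (2 * G.d (j + 2) * X t +
        3 / 2 * (R.Fs G (j + 1) (zz G R j AA) (R.aa G (j + 1) t) / G.N (j + 1))) := by gcongr
      have h7 : 0 < G.d (j + 2) * X t := by positivity
      have h8 : 100 * (G.t ^ 60)⁻¹ * (G.d (j + 2) * X t) ≤ (G.t ^ 50)⁻¹ * (G.d (j + 2) * X t) := by
        gcongr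
      have h9 : (G.t ^ 60)⁻¹ * (R.Fs G (j + 1) (zz G R j AA) (R.aa G (j + 1) t) / G.N (j + 1)) ≤
          1 * (R.Fs G (j + 1) (zz G R j AA) (R.aa G (j + 1) t) / G.N (j + 1)) := by
        gcongr; linarith
      have h10 : 0 < (G.t ^ 60)⁻¹ * (G.d (j + 2) * X t) := by positivity
      linarith
    · obtain ⟨r, r1, r2⟩ := H.eqY (j + 1) i t hi t0'
      obtain ⟨B', b1, b2⟩ := dB (i + 1) t ht
      have B0 := Bf0 (i + 1) t ht
      have e' : ‖R.y (j + 1) (i + 1) t‖ = Bf (i + 1) t :=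
        (pow_left_inj₀ (norm_nonneg _) B0.le two_ne_zero).mp (by linarith)
      refine ⟨_, ?_, HD.right (r2.normsq.fun_sub (b1.fun_pow 2)) t0'⟩
      have c0 : 0 ≤ R.cy (i + 1) * G.lam (j + 1) := by have := H.cy_lo (i + 1); positivity
      have h1 : ‖((R.cy (i + 1) * G.lam (j + 1) : ℝ) : ℂ) •
          pj (G.ry (j + 1)) (R.B G (j + 1) t * R.y (j + 1) i t)‖ ≤
          R.cy (i + 1) * G.lam (j + 1) * (R.bh G (j + 1) * R.aa G (j + 1) t * Bf i t) := by
        rw [norm_smul, Complex.norm_real, Real.norm_of_nonneg c0]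
        refine mul_le_mul_of_nonneg_left ((norm_pj_le _ _).trans
          ((H.upp_B_mul (S.cur H t ht) a0 _).trans ?_)) c0
        exact mul_le_mul_of_nonneg_left (u3 i hi.le) (by positivity)
      have h2 := upp_inner (H.layy (j + 1) (i + 1)) (G.D (j + 1)) h1 (r1.trans (ey t ht u1 u2 i hi))
        (y := R.y (j + 1) (i + 1) t)
      rw [e'] at h2
      have h3 : R.cy (i + 1) * G.lam (j + 1) * (R.bh G (j + 1) * R.aa G (j + 1) t * Bf i t) +
          (Real.exp (-G.t ^ 19) *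
            (G.D (j + 1) * R.Yq G (j + 1) (R.aa G (j + 1) t) (i + 1) / G.N (j + 1)) +
            G.t ^ 110 / 20 * G.lam (j + 1) ^ 2 * X t) - G.D (j + 1) * Bf (i + 1) t < B' := by
        refine lt_of_lt_of_le ?_ b2
        have Y1 := H.Yq_pos (j + 1) a0 (i + 1)
        have D0 := G.D_pos (j + 1)
        have W0 : 0 < G.D (j + 1) * R.Yq G (j + 1) (R.aa G (j + 1) t) (i + 1) / G.N (j + 1) := by
          positivity
        have q1 : R.cy (i + 1) * G.lam (j + 1) * (R.bh G (j + 1) * R.aa G (j + 1) t * Bf i t) =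
            2 * ρ ^ i * (G.D (j + 1) * R.Yq G (j + 1) (R.aa G (j + 1) t) (i + 1) / G.N (j + 1)) +
            ε * (R.cy (i + 1) * G.lam (j + 1) * (R.bh G (j + 1) * R.aa G (j + 1) t)) * X t := by
          rw [R.Yq_succ]; simp only [Bf]; ring
        have q2 : G.D (j + 1) * Bf (i + 1) t = 2 * ρ ^ i *
            (G.D (j + 1) * R.Yq G (j + 1) (R.aa G (j + 1) t) (i + 1) / G.N (j + 1)) +
            2 * (ρ ^ i * (G.t ^ 30)⁻¹) *
            (G.D (j + 1) * R.Yq G (j + 1) (R.aa G (j + 1) t) (i + 1) / G.N (j + 1)) +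
            ε * G.D (j + 1) * X t := by
          simp only [Bf]; rw [pow_succ ρ, hρ]; ring
        have q3 : Real.exp (-G.t ^ 19) ≤ 2 * (ρ ^ i * (G.t ^ 30)⁻¹) := by
          have h4 : (G.t ^ 60)⁻¹ ≤ (G.t ^ 30)⁻¹ := inv_anti₀ (by positivity) (G.pow_le (by norm_num))
          linarith [G.upp_exp19, mul_le_mul_of_nonneg_right (ρ1 i) ρ0.le]
        have q4 := mul_le_mul_of_nonneg_right q3 W0.le
        have q5 : ε * (R.cy (i + 1) * G.lam (j + 1) * (R.bh G (j + 1) * R.aa G (j + 1) t)) ≤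
            1 * (1 * G.lam (j + 1) * (G.t ^ 53 * G.lam (j + 1) * 11)) := by
          gcongr
          · exact H.cy_hi _
          · exact H.upp_bh_le _
        have q6 : ε * G.d (j + 2) ≤ 1 * (G.t ^ 42 * (2 * G.lam (j + 1) ^ 2)) := by
          gcongr
          exact (G.d_succ (j + 1)).le
        have q7 := G.upp_D' (j + 1)
        have q8 : ε * (R.cy (i + 1) * G.lam (j + 1) * (R.bh G (j + 1) * R.aa G (j + 1) t)) +
            G.t ^ 110 / 20 * G.lam (j + 1) ^ 2 + ε * G.d (j + 2) < ε * G.D (j + 1) := by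
          have p1 := G.pow_lt (a := 110) (b := 112) (by norm_num)
          have p2 := G.pow_le (a := 53) (b := 110) (by norm_num)
          have p3 := G.pow_le (a := 42) (b := 110) (by norm_num)
          have p4 := pow_pos T0 110
          have p5 : (11 * G.t ^ 53 + G.t ^ 110 / 20 + 2 * G.t ^ 42) * G.lam (j + 1) ^ 2 <
              G.t ^ 112 * G.lam (j + 1) ^ 2 := by
            gcongr; linarith
          linarith
        have q9 := mul_lt_mul_of_pos_right q8 x0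
        rw [q1, q2]
        linarith
      have h4 := mul_lt_mul_of_pos_left h3 B0
      simp only [Nat.cast_ofNat, Nat.add_one_sub_one, pow_one]
      linarith
    · obtain ⟨D, d1, d2⟩ := h0.up_y H u1 (S.jb t ht) fl (i := j + 2 + i) (by omega) (by
        rw [show j + 2 + i - (j + 1) = i + 1 by omega]; linarith)
      obtain ⟨X'', y1, y2⟩ := dX t ht
      refine ⟨_, ?_, HD.right (d1.fun_sub ((y1.const_mul _).const_mul _)) t0'⟩
      have e' : R.nc G (j + 2 + i) t = G.θ ^ (i + 1) * (G.N (j + 2) * X t) := by linarith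
      rw [e'] at d2
      have h1 : 0 < G.θ ^ (i + 1) * G.N (j + 2) := by positivity
      have h2 := mul_le_mul_of_nonneg_left y2 h1.le
      have h3 : 0 < G.θ ^ (i + 1) * G.N (j + 2) * (G.d (j + 2) * X t) := by positivity
      change D ≤ -(10 * G.d (j + 2) * _) at d2
      linarith
    · obtain ⟨D, d1, d2⟩ := h0.up_l H u1 (S.jb t ht) fl (i := j + 3 + i) (by omega) (by
        rw [show j + 3 + i - (j + 1) - 1 = i + 1 by omega]; linarith)
      obtain ⟨X'', y1, y2⟩ := dX t ht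
      refine ⟨_, ?_, HD.right ((d1.const_mul _).fun_sub ((y1.const_mul _).const_mul _)) t0'⟩
      have e' : G.Wc * R.nl G (j + 3 + i) t = G.θ ^ (i + 1) * (G.N (j + 2) * X t) := by linarith
      have d3 := mul_le_mul_of_nonneg_left d2 G.Wc_pos.le
      have h1 : 0 < G.θ ^ (i + 1) * G.N (j + 2) := by positivity
      have h2 := mul_le_mul_of_nonneg_left y2 h1.le
      have h3 : 0 < G.θ ^ (i + 1) * G.N (j + 2) * (G.d (j + 2) * X t) := by positivity
      have h4 : G.Wc * -(10 * G.d (j + 1 + 1) * R.nl G (j + 3 + i) t) =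
          -(10 * (G.θ ^ (i + 1) * G.N (j + 2) * (G.d (j + 2) * X t))) := by
        calc _ = -(10 * G.d (j + 2) * (G.Wc * R.nl G (j + 3 + i) t)) := by ring
          _ = _ := by rw [e']; ring
      linarith

/-- The new level does not grow while the current level is small. -/
theorem cross (e : R.nl G (j + 2) c = G.xs * Ex t0 (AA (j + 1)) g0 c * R.bh G (j + 2))
    (fr : ∃ᶠ t in 𝓝[>] c, G.xs * Ex t0 (AA (j + 1)) g0 t * R.bh G (j + 2) < R.nl G (j + 2) t) :
    2 / 5 ≤ R.aa G (j + 1) c := by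
  by_contra hcon
  have hlt : R.aa G (j + 1) c < 2 / 5 := not_le.mp hcon
  have ht : c ∈ Icc t0 c := ⟨S.le, le_rfl⟩
  have hB := S.bnd c ht
  have h0 := hB.cr0 H
  have T0 := G.t_pos
  have hN := G.N_pos (j + 1)
  have hN' := G.N_pos (j + 2)
  have hb := H.bh_pos (j + 1)
  have hb' := H.bh_pos (j + 2)
  have hd' := G.d_pos (j + 2)
  have hl' := G.lam_pos (j + 2)
  have m0 := G.m0_pos
  have x0 := G.xs_pos
  have E0 := hB.Elo
  have a0 := (S.aa_bounds H ht).1
  have hE : HD (Ex t0 (AA (j + 1)) g0) (g0 * Ex t0 (AA (j + 1)) g0 c) c := by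
    have := ((((hasDerivWithinAt_id c (Ici 0)).sub_const t0).const_mul g0).exp).const_mul
      (AA (j + 1))
    refine this.congr_deriv ?_
    simp only [Ex, id]; ring
  generalize hEE : Ex t0 (AA (j + 1)) g0 c = E at hB e E0 hE
  have Epos : 0 < E := x0.trans_le E0
  have u0 : 0 < G.xs * E * R.bh G (j + 2) := by positivity
  have fl : Real.exp (-G.t ^ 50) * R.bh G (j + 2) ≤ G.xs * E * R.bh G (j + 2) := by
    have h1 : Real.exp (-G.t ^ 50) ≤ (G.t ^ 60)⁻¹ :=
      le_trans (Real.exp_le_exp.mpr (by linarith [G.pow_le (a := 19) (b := 50) (by norm_num)]))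
        G.upp_exp19
    have h2 : (G.t ^ 60)⁻¹ = G.xs * G.xs := by unfold Geo.xs; field_simp
    have h3 : G.xs * G.xs ≤ G.xs * E := by gcongr
    gcongr ?_ * _
    linarith
  have lv : 0 < R.lev (j + 2) c := (mul_pos_iff_of_pos_left hN').1 (u0.trans_eq e.symm)
  -- the size of the last rung
  set W := G.N (j + 2) * (G.lam (j + 2) * R.bh G (j + 2) / G.m0 ^ 2) * ‖R.y (j + 1) G.La c‖ with hW
  have W0 : 0 ≤ W := by positivity
  have W1 : G.t ^ 20 * W ≤ G.d (j + 2) * (G.xs * E * R.bh G (j + 2)) := by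
    have h1 := IsNet.upp_y_le hB (i := G.La) (by have := G.ten_le_La; omega) le_rfl
    have h2 := G.N_succ_hi (j + 1)
    have h3 := H.upp_bh_le (j + 1)
    have h4 : G.lam (j + 1) ≤ G.lam (j + 2) := G.lam_mono (by omega)
    have h5 : G.t ^ 135 ≤ G.m0 ^ 2 := by
      have := G.upp_m0
      calc G.t ^ 135 ≤ G.t ^ 400 := G.pow_le (by norm_num)
        _ = (G.t ^ 200) ^ 2 := by ring
        _ ≤ _ := by gcongr
    have h6 : R.bh G (j + 1) ≤ G.t ^ 53 * G.lam (j + 2) := h3.trans (by gcongr)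
    calc G.t ^ 20 * W ≤ G.t ^ 20 * (G.t ^ 32 * G.N (j + 1) *
          (G.lam (j + 2) * R.bh G (j + 2) / G.t ^ 135) * ‖R.y (j + 1) G.La c‖) := by
          rw [hW]; gcongr
      _ = G.t ^ 52 / G.t ^ 135 * (G.lam (j + 2) * R.bh G (j + 2)) *
          (G.N (j + 1) * ‖R.y (j + 1) G.La c‖) := by ring
      _ ≤ G.t ^ 52 / G.t ^ 135 * (G.lam (j + 2) * R.bh G (j + 2)) *
          (E * (G.t ^ 53 * G.lam (j + 2))) := by
          gcongr _ * ?_
          exact h1.trans (by gcongr)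
      _ = G.lam (j + 2) ^ 2 * (G.xs * E * R.bh G (j + 2)) := by
          unfold Geo.xs; field_simp
      _ ≤ _ := by
          gcongr
          unfold Geo.d; linarith [sq_nonneg (G.lam (j + 2))]
  have hF : ∀ o, ‖R.f G (j + 1) o c‖ ≤ 10 ^ 3 * G.t ^ 11 * W / G.N (j + 2) := by
    intro o
    have h1 := h0.f_le H (j + 1) o
    refine le_of_mul_le_mul_left (h1.trans (le_of_eq ?_)) (pow_pos m0 2)
    rw [hW]; field_simp
  obtain ⟨D, d1, d2⟩ := H.lev_deriv (j := j + 1) hB.t0 lv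
    (H.upp_sigma (S.cur H c ht) a0) hF
  have er := h0.err_new H hB.up (S.jb c ht) fl
  have nc := not_cross (H := fun t => R.nl G (j + 2) t -
      G.xs * Ex t0 (AA (j + 1)) g0 t * R.bh G (j + 2)) (c := c) (by simp only [hEE]; linarith)
    (fr.mono fun t h => by linarith)
    (HD.right ((d1.const_mul (G.N (j + 2))).fun_sub ((hE.const_mul _).mul_const _)) hB.t0)
  have g00 : 0 < g0 := by have := G.d_pos (j + 1); linarith [S.g0_lo]
  have h1 : 0 ≤ G.xs * (g0 * E) * R.bh G (j + 2) := by positivity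
  have d3 := mul_le_mul_of_nonneg_left d2 hN'.le
  have h2 : G.N (j + 2) * ((G.d (j + 1 + 1) * R.aa G (j + 1) c - G.d (j + 1 + 1)) *
      R.lev (j + 1 + 1) c + 2 * (10 ^ 3 * G.t ^ 11 * W / G.N (j + 2) + R.eb G (j + 1 + 1) c +
        R.ec G (j + 1) c)) = (R.aa G (j + 1) c - 1) * (G.d (j + 2) * (G.xs * E * R.bh G (j + 2))) +
      2 * (10 ^ 3 * G.t ^ 11 * W) + 2 * (G.N (j + 2) * (R.eb G (j + 2) c + R.ec G (j + 1) c)) := by
    rw [← e, Raw.nl]; field_simp; ring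
  have h3 : Real.exp (-(3 * G.t ^ 19)) ≤ 1 / 100 := by
    have h4 : Real.exp (-(3 * G.t ^ 19)) ≤ (G.t ^ 60)⁻¹ :=
      le_trans (Real.exp_le_exp.mpr (by have := pow_pos T0 19; linarith)) G.upp_exp19
    refine h4.trans ?_
    rw [one_div]
    refine inv_anti₀ (by norm_num) ?_
    linarith [G.pow_lt (a := 0) (b := 60) (by norm_num)]
  have h4 : 0 < G.d (j + 2) * (G.xs * E * R.bh G (j + 2)) := by positivity
  have h5 : 10 ^ 100 * G.t ^ 11 * W ≤ G.t ^ 20 * W :=
    mul_le_mul_of_nonneg_right (G.pow_lt (by norm_num)) W0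
  have h6 : 1 * W ≤ G.t ^ 11 * W := mul_le_mul_of_nonneg_right (G.upp_one_le_pow 11) W0
  have h7 : Real.exp (-(3 * G.t ^ 19)) * (G.d (j + 2) * (G.xs * E * R.bh G (j + 2)) + W) ≤
      1 / 100 * (G.d (j + 2) * (G.xs * E * R.bh G (j + 2)) + W) := by gcongr
  have h8 := mul_lt_mul_of_pos_right hlt h4
  change G.N (j + 2) * (R.eb G (j + 2) c + R.ec G (j + 1) c) ≤
    _ * (G.d (j + 2) * (G.xs * E * R.bh G (j + 2)) + W) at er
  linarith

end Run

end

end Pool.Agent.Work.MP_6bf1e5_an.Ell
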