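import Pool.Agent.Work.MP_6bf1e5_an.Ell.Deriv
import Pool.Agent.Work.MP_6bf1e5_an.Ell.Sums

/-!
Ladders and upper levels are strongly damped.
-/

open Set Complex Filter Topology
open scoped InnerProductSpace ComplexConjugate
open Pool.Agent.Work.MP_6bf1e5_an.B (Z3 R3)
open Pool.Agent.Work.MP_6bf1e5_an.Dec

namespace Pool.Agent.Work.MP_6bf1e5_an.Ell

noncomputable section

variable {G : Geo} {R : Raw} {J : ℕ} {t : ℝ}

namespace UpperAux

lemma small {q c M ε : ℝ} (hq : 0 ≤ q) (hε : 0 ≤ ε) (hM : 1 ≤ ε * M) (h : M * q ≤ c) :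
    q ≤ ε * c :=
  calc q ≤ ε * M * q := le_mul_of_one_le_left hq hM
    _ = ε * (M * q) := by ring
    _ ≤ ε * c := by gcongr

lemma θ_le_one (G : Geo) : G.θ ≤ 1 := inv_le_one_of_one_le₀ (one_le_pow₀ G.one_le_t)

lemma θ_pow_le (G : Geo) {a b : ℕ} (h : a ≤ b) : G.θ ^ b ≤ G.θ ^ a :=
  pow_le_pow_of_le_one G.θ_pos.le (θ_le_one G) h

lemma θ_mul (G : Geo) : G.t ^ 10 * G.θ = 1 := mul_inv_cancel₀ (pow_pos G.t_pos _).ne'

lemma xs_le (G : Geo) : 10 ^ 100 * G.xs ≤ 1 := by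
  have h := G.pow_lt (show 0 < 30 by norm_num)
  have h0 : 0 < G.t ^ 30 := pow_pos G.t_pos _
  unfold Geo.xs
  rw [← div_eq_mul_inv, div_le_one h0]
  simpa using h

lemma pow_le_exp19 (G : Geo) {k : ℕ} (hk : k ≤ 1000) : G.t ^ k ≤ Real.exp (G.t ^ 19) := by
  refine (G.pow_le_exp hk).trans (Real.exp_le_exp.2 ?_)
  have h := G.pow_le (show 1 ≤ 19 by norm_num)
  have := G.t_pos
  rw [pow_one] at h
  linarith

lemma pow_mul_eps (G : Geo) {k : ℕ} (hk : k ≤ 1000) : G.t ^ k * Real.exp (-G.t ^ 19) ≤ 1 := by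
  rw [Real.exp_neg, ← div_eq_mul_inv, div_le_one (Real.exp_pos _)]
  exact pow_le_exp19 G hk

lemma eps_exp (G : Geo) {x : ℝ} (h : G.t ^ 19 ≤ x) : 1 ≤ Real.exp (-G.t ^ 19) * Real.exp x := by
  rw [← Real.exp_add]
  exact Real.one_le_exp (by linarith)

lemma eps_W (G : Geo) : 1 ≤ Real.exp (-G.t ^ 19) * G.Wc := eps_exp G (G.pow_le (by norm_num))

lemma eps_m0 (G : Geo) : 1 ≤ Real.exp (-G.t ^ 19) * G.m0 := by
  have := pow_pos G.t_pos 19
  exact (eps_exp G (x := 100 * G.t ^ 19) (by linarith)).trans (by gcongr; exact G.m0_lo)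

lemma one_le_m0 (G : Geo) : 1 ≤ G.m0 :=
  (Real.one_le_exp (by have := pow_pos G.t_pos 19; positivity)).trans G.m0_lo

lemma one_le_W (G : Geo) : 1 ≤ G.Wc := Real.one_le_exp (pow_pos G.t_pos 20).le

lemma tau0_eps (G : Geo) : G.tau0 ≤ Real.exp (-G.t ^ 19) := by
  have := pow_pos G.t_pos 19
  exact G.tau0_le.trans (Real.exp_le_exp.2 (by linarith))

lemma eps_le_one (G : Geo) : Real.exp (-G.t ^ 19) ≤ 1 := by
  simpa using pow_mul_eps G (k := 0) (by norm_num)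

lemma pow_W_le (G : Geo) {k : ℕ} (hk : k ≤ 1000) : G.t ^ k * G.Wc ≤ Real.exp (G.t ^ 21 / 4) := by
  have h1 := G.pow_lt (show 20 < 21 by norm_num)
  have h2 := G.pow_le (show 19 ≤ 20 by norm_num)
  have h3 := pow_pos G.t_pos 20
  calc _ ≤ Real.exp (G.t ^ 19) * Real.exp (G.t ^ 20) :=
        mul_le_mul_of_nonneg_right (pow_le_exp19 G hk) G.Wc_pos.le
    _ = Real.exp (G.t ^ 19 + G.t ^ 20) := (Real.exp_add _ _).symm
    _ ≤ _ := Real.exp_le_exp.2 (by linarith)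

lemma bh_le (H : IsNet G R) (i : ℕ) : R.bh G i ≤ G.t ^ 53 * G.lam i := by
  have := H.bh_hi i
  have := H.bh_pos i
  linarith

/-- The derivative of the weighted norm of a ladder. -/
lemma nc_base (H : IsNet G R) (h : Cr0 G R J t) (i : ℕ) (pos : 0 < R.nc G i t) :
    ∃ D, HD (R.nc G i) D t ∧ D ≤ -(G.D i * R.nc G i t) + G.t ^ 75 * G.lam i ^ 2 *
      (R.nc G i t + G.Wc * R.nl G i t + G.t ^ 11 * (G.Wc * R.nl G (i + 1) t)) +
      G.t ^ 73 * G.lam i * (G.Wc * (G.N i ^ 2 * R.ET (i + G.kk - 1) t)) +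
      G.t ^ 11 * G.Wc * (G.N i * R.Jk t) := by
  have hN := G.N_pos i
  have hW := G.Wc_pos
  have hT := G.t_pos
  have hL := G.lam_pos i
  have hb := H.bh_pos i
  have hc : 0 < R.ch G i t := (mul_pos_iff_of_pos_left hW).1 ((mul_pos_iff_of_pos_left hN).1 pos)
  obtain ⟨D, hD, le⟩ := H.ch_deriv h.t0 hc
  refine ⟨G.N i * (G.Wc * D), (hD.const_mul _).const_mul _, ?_⟩
  have hE := H.ET_nonneg (i + G.kk - 1) t
  have l0 := R.lev_nonneg i t
  have l1 := R.lev_nonneg (i + 1) t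
  have hlow : R.Low G (i + 1) t ≤ R.bh G i := by
    have a1 := small (R.Low_nonneg G (i + 1) t) (Real.exp_pos _).le (eps_m0 G) (h.Low_le H (i + 1))
    rw [H.bh_succ] at a1
    have a2 := pow_mul_eps G (k := 22) (by norm_num)
    have a3 := G.pow_lt (show 21 < 22 by norm_num)
    have a4 := Real.exp_pos (-G.t ^ 19)
    have a5 := pow_pos hT 21
    calc _ ≤ _ := a1
      _ = (20 * G.t ^ 21 * Real.exp (-G.t ^ 19)) * R.bh G i := by ring
      _ ≤ (G.t ^ 22 * Real.exp (-G.t ^ 19)) * R.bh G i := by gcongr; linarith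
      _ ≤ _ := mul_le_of_le_one_left hb.le a2
  have hS : 10 ^ 8 * G.lam (i + 1) * (R.nl G i t + R.Low G (i + 1) t) ≤
      G.t ^ 75 * G.lam i ^ 2 := by
    have a1 := h.nl i
    have a2 := bh_le H i
    have a3 := G.pow_lt (show 74 < 75 by norm_num)
    have a4 := pow_pos hT 74
    rw [G.lam_succ]
    calc _ ≤ 10 ^ 8 * (G.t ^ 21 * G.lam i) * (11 * (G.t ^ 53 * G.lam i)) := by gcongr; linarith
      _ = (11 * 10 ^ 8 * G.t ^ 74) * G.lam i ^ 2 := by ring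
      _ ≤ _ := by gcongr; linarith
  have hS2 : 10 ^ 8 * G.lam (i + 1) * G.t ^ 51 ≤ G.t ^ 73 * G.lam i := by
    have a3 := G.pow_lt (show 72 < 73 by norm_num)
    have a4 := pow_pos hT 72
    rw [G.lam_succ]
    calc _ = (10 ^ 8 * G.t ^ 72) * G.lam i := by ring
      _ ≤ _ := by gcongr; linarith
  have hl : G.N i * R.lev (i + 1) t ≤ R.nl G (i + 1) t :=
    mul_le_mul_of_nonneg_right (G.N_mono (Nat.le_succ i)) l1
  calc G.N i * (G.Wc * D) ≤ _ := mul_le_mul_of_nonneg_left (mul_le_mul_of_nonneg_left le hW.le) hN.le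
    _ = -(G.D i * R.nc G i t) + (10 ^ 8 * G.lam (i + 1) * (R.nl G i t + R.Low G (i + 1) t)) *
        (R.nc G i t + G.Wc * R.nl G i t + G.t ^ 11 * (G.Wc * (G.N i * R.lev (i + 1) t))) +
        (10 ^ 8 * G.lam (i + 1) * G.t ^ 51) * (G.Wc * (G.N i ^ 2 * R.ET (i + G.kk - 1) t)) +
        G.t ^ 11 * G.Wc * (G.N i * R.Jk t) := by
      unfold Raw.nc Raw.nl; ring
    _ ≤ _ := by
      have := R.nl_nonneg G i t
      gcongr

/-- The backscatter onto the upper levels. -/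
lemma et_up (H : IsNet G R) (h : Cr0 G R J t) {u : ℝ} (hu : Up G R J t u) (u0 : 0 ≤ u) {i : ℕ}
    (hi : J + 1 ≤ i) : G.Wc * (G.Wc * (G.N i ^ 2 * R.ET (i + G.kk - 1) t)) ≤
      R.bh G i * (G.θ ^ (i - J) * u) := by
  have hk := G.ten_le_kk
  have a1 := h.ET_up H hu (m := i + G.kk - 1) (by omega)
  have a2 : G.N i ≤ G.N (i + G.kk - 1) := G.N_mono (by omega)
  have a3 := θ_pow_le G (show i - J ≤ 2 * (i + G.kk - 1 - J - 1) by omega)
  have a4 := H.bh_mono hi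
  have hN := G.N_pos i
  have hW := G.Wc_pos
  have hE := H.ET_nonneg (i + G.kk - 1) t
  have hb := H.bh_pos (J + 1)
  have hθ := G.θ_pos
  calc _ = G.Wc ^ 2 * (G.N i ^ 2 * R.ET (i + G.kk - 1) t) := by ring
    _ ≤ G.Wc ^ 2 * (G.N (i + G.kk - 1) ^ 2 * R.ET (i + G.kk - 1) t) := by gcongr
    _ ≤ _ := a1
    _ ≤ G.θ ^ (i - J) * (R.bh G i * u) := by gcongr
    _ = _ := by ring

/-- The junk acting on the upper levels. -/
lemma jk_up' (H : IsNet G R) {u : ℝ} (hj : Jb G R J t)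
    (fl : Real.exp (-G.t ^ 50) * R.bh G (J + 1) ≤ u) {i : ℕ} (hi : J + 1 ≤ i) :
    G.Wc * (G.N i * R.Jk t) ≤ Real.exp (-G.t ^ 19) * (G.lam i ^ 2 * (G.θ ^ (i - J) * u)) := by
  have a1 := H.jk_up hj (show J ≤ i by omega)
  have a2 : R.bh G J ≤ Real.exp (G.t ^ 50) * u := by
    refine (H.bh_mono (Nat.le_succ J)).trans ?_
    calc R.bh G (J + 1) = Real.exp (G.t ^ 50) * (Real.exp (-G.t ^ 50) * R.bh G (J + 1)) := by
          rw [← mul_assoc, ← Real.exp_add]; simp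
      _ ≤ _ := by gcongr
  have a3 : 0 ≤ G.N i * R.Jk t := mul_nonneg (G.N_pos i).le (H.Jk_nonneg t)
  have hθ := G.θ_pos
  have a4 : G.Wc * Real.exp (G.t ^ 50) ≤ Real.exp (-G.t ^ 19) * Real.exp (G.t ^ 60) := by
    unfold Geo.Wc
    rw [← Real.exp_add, ← Real.exp_add]
    have b1 := G.pow_lt (show 50 < 60 by norm_num)
    have b2 := G.pow_le (show 19 ≤ 50 by norm_num)
    have b3 := G.pow_le (show 20 ≤ 50 by norm_num)
    have b4 := pow_pos G.t_pos 50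
    exact Real.exp_le_exp.2 (by linarith)
  have e0 := Real.exp_pos (G.t ^ 50)
  have e1 := Real.exp_pos (-G.t ^ 19)
  have e2 : Real.exp (G.t ^ 60) * (G.N i * R.Jk t) ≤
      Real.exp (G.t ^ 50) * (G.lam i ^ 2 * (G.θ ^ (i - J) * u)) :=
    calc _ ≤ _ := a1
      _ ≤ G.θ ^ (i - J) * (G.lam i ^ 2 * (Real.exp (G.t ^ 50) * u)) := by gcongr
      _ = _ := by ring
  have e3 : 0 ≤ G.lam i ^ 2 * (G.θ ^ (i - J) * u) :=
    (mul_nonneg_iff_of_pos_left e0).1 ((mul_nonneg (Real.exp_pos _).le a3).trans e2)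
  refine le_of_mul_le_mul_left ?_ (Real.exp_pos (G.t ^ 60))
  calc _ = G.Wc * (Real.exp (G.t ^ 60) * (G.N i * R.Jk t)) := by ring
    _ ≤ G.Wc * (Real.exp (G.t ^ 50) * (G.lam i ^ 2 * (G.θ ^ (i - J) * u))) := by
        have := G.Wc_pos; gcongr
    _ = (G.Wc * Real.exp (G.t ^ 50)) * (G.lam i ^ 2 * (G.θ ^ (i - J) * u)) := by ring
    _ ≤ (Real.exp (-G.t ^ 19) * Real.exp (G.t ^ 60)) * (G.lam i ^ 2 * (G.θ ^ (i - J) * u)) := by
        gcongr
    _ = _ := by ring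

lemma exp_half (G : Geo) : 2 * Real.exp (G.t ^ 21 / 4) ≤ Real.exp (G.t ^ 21 / 2) := by
  have h1 := G.pow_lt (show 0 < 21 by norm_num)
  have h2 := Real.add_one_le_exp (G.t ^ 21 / 4)
  have h3 := Real.exp_pos (G.t ^ 21 / 4)
  rw [show G.t ^ 21 / 2 = G.t ^ 21 / 4 + G.t ^ 21 / 4 by ring, Real.exp_add]
  gcongr
  rw [pow_zero] at h1
  linarith

/-- The final numerical inequality for the upper levels. -/
lemma num_l {T ε L b X : ℝ} (hT : (10 : ℝ) ^ 100 ≤ T) (hε : 0 ≤ ε) (h1 : T ^ 106 * ε ≤ 1)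
    (hL : 0 ≤ L) (hb : b ≤ T ^ 53 * L) (b0 : 0 ≤ b) (hX : 0 ≤ X) :
    ε * (10 ^ 3 * T ^ 11 * (L * b) * (T ^ 32 * X)) +
      (10 ^ 6 * L * (ε * (11 * b) * X + T ^ 50 * (ε * (30 * b)) * (X + X + X) +
        ε * b * (X + X) + ε * (20 * b) * X + ε * (b * X)) + 10 * (ε * (L ^ 2 * X))) +
      T ^ 12 * (L * (ε * (11 * b) * X + ε * (20 * b) * X +
        (ε * (20 * b) + ε * (20 * b)) * (T ^ 32 * X) + ε * (b * X)) + ε * (L ^ 2 * X)) ≤
      L ^ 2 * X / 4 := by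
  have T1 : 1 ≤ T := le_trans (by norm_num) hT
  have T0 : 0 ≤ T := by linarith
  have p : ∀ k : ℕ, k ≤ 50 → T ^ k ≤ T ^ 50 := fun k hk => pow_le_pow_right₀ T1 hk
  have p0 : 1 ≤ T ^ 50 := one_le_pow₀ T1
  have p1 := p 43 (by norm_num)
  have p2 := p 12 (by norm_num)
  have p3 := p 44 (by norm_num)
  have q1 : 1 ≤ T ^ 53 := one_le_pow₀ T1
  calc _ = (10 ^ 3 * T ^ 43 + 10 ^ 6 * (34 + 90 * T ^ 50) + (32 * T ^ 12 + 40 * T ^ 44)) *
        (ε * L * X) * b + (10 + T ^ 12) * (ε * L * X) * L := by ring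
    _ ≤ (10 ^ 9 * T ^ 50) * (ε * L * X) * (T ^ 53 * L) +
        (10 ^ 9 * T ^ 50) * (ε * L * X) * (T ^ 53 * L) := by
      gcongr
      · linarith
      · linarith
      · exact le_mul_of_one_le_left hL q1
    _ = (2 * 10 ^ 9 * T ^ 103 * ε) * (L ^ 2 * X) := by ring
    _ ≤ (1 / 4) * (L ^ 2 * X) := by
      gcongr
      have : 8 * 10 ^ 9 * T ^ 103 ≤ T ^ 106 :=
        calc _ ≤ T * T ^ 103 := by gcongr; linarith
          _ = T ^ 104 := by ring
          _ ≤ _ := pow_le_pow_right₀ T1 (by norm_num)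
      nlinarith
    _ = _ := by ring

end UpperAux

open UpperAux

namespace Cr0

variable (H : IsNet G R) (h : Cr0 G R J t)

include H h

/-- Arbitrary ladders. -/
theorem nc_deriv (i : ℕ) (pos : 0 < R.nc G i t) : ∃ D, HD (R.nc G i) D t ∧
    D ≤ -(G.D i / 2 * R.nc G i t) + Real.exp (-(G.t ^ 21 / 4)) * (G.D i * R.bh G i) +
      G.t ^ 11 * G.Wc * (G.N i * R.Jk t) := by
  obtain ⟨D, hD, le⟩ := nc_base H h i pos
  refine ⟨D, hD, le.trans ?_⟩
  have hW := G.Wc_pos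
  have hT := G.t_pos
  have hL := G.lam_pos i
  have hb := H.bh_pos i
  have a1 : G.t ^ 75 * G.lam i ^ 2 ≤ G.D i / 2 := by
    have b1 := pow_W_le G (k := 75) (by norm_num)
    have b2 := exp_half G
    have b3 : G.t ^ 75 ≤ G.t ^ 75 * G.Wc := le_mul_of_one_le_right (pow_pos hT _).le (one_le_W G)
    unfold Geo.D
    rw [mul_div_right_comm]
    gcongr
    linarith
  have a2 : Real.exp (-(G.t ^ 21 / 4)) * (G.D i * R.bh G i) =
      Real.exp (G.t ^ 21 / 4) * (G.lam i ^ 2 * R.bh G i) := by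
    unfold Geo.D
    rw [show G.t ^ 21 / 4 = -(G.t ^ 21 / 4) + G.t ^ 21 / 2 by ring_nf, Real.exp_add]
    ring_nf
  have a3 := h.nl i
  have a4 := h.nl (i + 1)
  rw [H.bh_succ] at a4
  have a5 : G.N i ^ 2 * R.ET (i + G.kk - 1) t ≤
      10 ^ 7 * G.t ^ 21 * (R.bh G i * (G.t ^ 53 * G.lam i)) := by
    have b1 := h.ET_far H i
    have b2 := bh_le H i
    have b3 : 0 ≤ G.N i ^ 2 * R.ET (i + G.kk - 1) t :=
      mul_nonneg (sq_nonneg _) (H.ET_nonneg _ _)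
    calc _ ≤ _ := le_mul_of_one_le_left b3 (one_le_m0 G)
      _ ≤ _ := b1
      _ ≤ _ := by rw [sq]; gcongr
  have a6 : G.t ^ 75 * G.lam i ^ 2 * (G.Wc * R.nl G i t + G.t ^ 11 * (G.Wc * R.nl G (i + 1) t)) +
      G.t ^ 73 * G.lam i * (G.Wc * (G.N i ^ 2 * R.ET (i + G.kk - 1) t)) ≤
      Real.exp (G.t ^ 21 / 4) * (G.lam i ^ 2 * R.bh G i) := by
    have b1 := G.pow_le (show 75 ≤ 147 by norm_num)
    have b2 := G.pow_le (show 107 ≤ 147 by norm_num)
    have b3 := G.pow_lt (show 147 < 148 by norm_num)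
    have b4 := pow_pos hT 147
    calc _ ≤ G.t ^ 75 * G.lam i ^ 2 * (G.Wc * (10 * R.bh G i) +
          G.t ^ 11 * (G.Wc * (10 * (G.t ^ 21 * R.bh G i)))) + G.t ^ 73 * G.lam i *
          (G.Wc * (10 ^ 7 * G.t ^ 21 * (R.bh G i * (G.t ^ 53 * G.lam i)))) := by gcongr
      _ = (10 * G.t ^ 75 + 10 * G.t ^ 107 + 10 ^ 7 * G.t ^ 147) * G.Wc *
          (G.lam i ^ 2 * R.bh G i) := by ring
      _ ≤ G.t ^ 148 * G.Wc * (G.lam i ^ 2 * R.bh G i) := by gcongr; linarith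
      _ ≤ _ := by gcongr; exact pow_W_le G (by norm_num)
  have a7 := mul_le_mul_of_nonneg_right a1 pos.le
  rw [a2]
  linarith

/-- Upper ladders. -/
theorem up_y {u : ℝ} (hu : Up G R J t u) (hj : Jb G R J t)
    (fl : Real.exp (-G.t ^ 50) * R.bh G (J + 1) ≤ u) {i : ℕ} (hi : J + 1 ≤ i)
    (e : R.nc G i t = G.θ ^ (i - J) * u) :
    ∃ D, HD (R.nc G i) D t ∧ D ≤ -(10 * G.d (J + 1) * R.nc G i t) := by
  have u0 : 0 < u := (mul_pos (Real.exp_pos _) (H.bh_pos _)).trans_le fl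
  have hθ := G.θ_pos
  have pos : 0 < R.nc G i t := by rw [e]; positivity
  obtain ⟨D, hD, le⟩ := nc_base H h i pos
  refine ⟨D, hD, le.trans ?_⟩
  have hW := G.Wc_pos
  have W1 := one_le_W G
  have hT := G.t_pos
  have hL := G.lam_pos i
  have hb := H.bh_pos i
  have a2 := et_up H h hu u0.le hi
  have a3 := jk_up' H hj fl hi
  have a4 := hu.l (i + 1) (by omega)
  rw [show i + 1 - J - 1 = i - J by omega] at a4
  have a1 : G.Wc * R.nl G i t ≤ G.Wc * (G.t ^ 10 * (G.θ ^ (i - J) * u)) := by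
    have b1 : G.t ^ 10 * (G.θ ^ (i - J) * u) = G.θ ^ (i - J - 1) * u := by
      rw [show i - J = i - J - 1 + 1 by omega, pow_succ, Nat.add_sub_cancel]
      linear_combination G.θ ^ (i - J - 1) * u * θ_mul G
    rw [b1]
    rcases hi.eq_or_lt with hi | hi
    · subst hi
      have := hu.nw
      rw [show J + 1 - J - 1 = 0 by omega, pow_zero, one_mul]
      gcongr
    · exact (hu.l i hi).trans (le_mul_of_one_le_left (by positivity) W1)
  rw [← e] at a1 a2 a3 a4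
  set X := R.nc G i t
  have a5 : G.Wc * (G.N i ^ 2 * R.ET (i + G.kk - 1) t) ≤ G.t ^ 53 * G.lam i * X := by
    have b1 := bh_le H i
    calc _ ≤ _ := le_mul_of_one_le_left
          (mul_nonneg hW.le (mul_nonneg (sq_nonneg _) (H.ET_nonneg _ _))) W1
      _ ≤ _ := a2
      _ ≤ _ := by gcongr
  have a6 : G.Wc * (G.N i * R.Jk t) ≤ G.lam i ^ 2 * X :=
    a3.trans (mul_le_of_le_one_left (by positivity) (eps_le_one G))
  have a7 : 10 * G.d (J + 1) ≤ 20 * G.lam i ^ 2 := by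
    have b1 := G.lam_mono hi
    have b2 := G.lam_pos (J + 1)
    unfold Geo.d
    rw [← mul_assoc]
    gcongr
    norm_num
  have a8 : G.t ^ 75 * G.lam i ^ 2 *
      (X + G.Wc * R.nl G i t + G.t ^ 11 * (G.Wc * R.nl G (i + 1) t)) +
      G.t ^ 73 * G.lam i * (G.Wc * (G.N i ^ 2 * R.ET (i + G.kk - 1) t)) +
      G.t ^ 11 * (G.Wc * (G.N i * R.Jk t)) + 10 * G.d (J + 1) * X ≤ G.D i * X := by
    have b0 := G.pow_le (show 0 ≤ 126 by norm_num)
    have b1 := G.pow_le (show 75 ≤ 126 by norm_num)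
    have b2 := G.pow_le (show 85 ≤ 126 by norm_num)
    have b3 := G.pow_le (show 86 ≤ 126 by norm_num)
    have b4 := G.pow_le (show 11 ≤ 126 by norm_num)
    have b5 := G.pow_lt (show 126 < 127 by norm_num)
    have b6 := pow_pos hT 126
    have b7 := pow_W_le G (k := 127) (by norm_num)
    have b8 := exp_half G
    have b9 := Real.exp_pos (G.t ^ 21 / 4)
    rw [pow_zero] at b0
    calc _ ≤ G.t ^ 75 * G.lam i ^ 2 * (X + G.Wc * (G.t ^ 10 * X) + G.t ^ 11 * X) +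
          G.t ^ 73 * G.lam i * (G.t ^ 53 * G.lam i * X) + G.t ^ 11 * (G.lam i ^ 2 * X) +
          20 * G.lam i ^ 2 * X := by gcongr
      _ = ((G.t ^ 75 + G.t ^ 86 + G.t ^ 126 + G.t ^ 11 + 20) * 1 + G.t ^ 85 * G.Wc) *
          (G.lam i ^ 2 * X) := by ring
      _ ≤ ((G.t ^ 75 + G.t ^ 86 + G.t ^ 126 + G.t ^ 11 + 20) * G.Wc + G.t ^ 85 * G.Wc) *
          (G.lam i ^ 2 * X) := by gcongr
      _ = (G.t ^ 75 + G.t ^ 86 + G.t ^ 126 + G.t ^ 11 + 20 + G.t ^ 85) * G.Wc *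
          (G.lam i ^ 2 * X) := by ring
      _ ≤ G.t ^ 127 * G.Wc * (G.lam i ^ 2 * X) := by gcongr; linarith
      _ ≤ Real.exp (G.t ^ 21 / 2) * (G.lam i ^ 2 * X) := by gcongr; linarith
      _ = _ := by unfold Geo.D; ring
  linarith

/-- Upper levels. -/
theorem up_l {u : ℝ} (hu : Up G R J t u) (hj : Jb G R J t)
    (fl : Real.exp (-G.t ^ 50) * R.bh G (J + 1) ≤ u) {i : ℕ} (hi : J + 2 ≤ i)
    (e : G.Wc * R.nl G i t = G.θ ^ (i - J - 1) * u) :
    ∃ D, HD (R.nl G i) D t ∧ D ≤ -(10 * G.d (J + 1) * R.nl G i t) := by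
  obtain ⟨j, rfl⟩ : ∃ j, i = j + 1 := ⟨i - 1, by omega⟩
  have hj1 : J + 1 ≤ j := by omega
  rw [show j + 1 - J - 1 = j - J by omega] at e
  have u0 : 0 < u := (mul_pos (Real.exp_pos _) (H.bh_pos _)).trans_le fl
  have hθ := G.θ_pos
  have hW := G.Wc_pos
  have W1 := one_le_W G
  have hT := G.t_pos
  have hL := G.lam_pos (j + 1)
  have hb := H.bh_pos (j + 1)
  have hN := G.N_pos (j + 1)
  have hε := Real.exp_pos (-G.t ^ 19)
  have hxs := xs_le G
  have xs0 := G.xs_pos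
  have X0 : 0 < G.θ ^ (j - J) * u := by positivity
  have pos : 0 < R.lev (j + 1) t :=
    (mul_pos_iff_of_pos_left hN).1 ((mul_pos_iff_of_pos_left hW).1 (e ▸ X0))
  have hY : G.θ ^ (j + 1 - J) * u ≤ G.θ ^ (j - J) * u :=
    mul_le_mul_of_nonneg_right (θ_pow_le G (by omega)) u0.le
  -- crude size of the upper levels
  have up : ∀ m, J + 1 ≤ m → R.nl G m t ≤ 11 * G.xs * R.bh G m ∧
      (J + 2 ≤ m → G.Wc * R.nl G m t ≤ R.bh G (J + 1)) := fun m hm => by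
    have b0 := H.bh_pos (J + 1)
    have b1 := H.bh_mono hm
    have b2 : J + 2 ≤ m → G.Wc * R.nl G m t ≤ 11 * G.xs * R.bh G (J + 1) := fun hm' =>
      (h.up.l m hm').trans (mul_le_of_le_one_left (by positivity)
        (pow_le_one₀ hθ.le (θ_le_one G)))
    refine ⟨le_trans ?_ (mul_le_mul_of_nonneg_left b1 (by positivity)), fun hm' =>
      (b2 hm').trans (mul_le_of_le_one_left b0.le (by linarith))⟩
    rcases hm.eq_or_lt with hm | hm
    · exact hm ▸ h.up.nw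
    · exact (le_mul_of_one_le_left (R.nl_nonneg G m t) W1).trans (b2 hm)
  have hσ : ∀ y, R.kap G j * ‖R.A G j t * y‖ ≤ G.d (j + 1) / 4 * ‖y‖ := fun y => by
    have b1 := norm_mul_le_l1 (R.A G j t) y
    have b2 : l1 (R.A G j t) ≤ 40 * (11 * G.xs * R.bh G j) := by
      rw [Raw.A, l1_tau]
      exact (H.l1_B_le j t).trans (by have := (up j hj1).1; gcongr)
    have b3 := H.kap_pos j
    have b4 := G.d_pos (j + 1)
    calc _ ≤ R.kap G j * (40 * (11 * G.xs * R.bh G j) * ‖y‖) := by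
          gcongr; exact b1.trans (by gcongr)
      _ = (R.kap G j * R.bh G j) * (440 * G.xs) * ‖y‖ := by ring
      _ ≤ G.d (j + 1) * (1 / 4) * ‖y‖ := by rw [H.kap_mul_bh]; gcongr; linarith
      _ = _ := by ring
  have hF : ∀ o, ‖R.f G j o t‖ ≤ Real.exp (-G.t ^ 19) *
      (10 ^ 3 * G.t ^ 11 * (G.lam (j + 1) * R.bh G (j + 1)) * ‖R.y j G.La t‖) := fun o =>
    small (norm_nonneg _) hε.le ((eps_m0 G).trans (by
      gcongr; exact le_self_pow₀ (one_le_m0 G) (by norm_num))) (h.f_le H j o)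
  obtain ⟨D, hD, le⟩ := H.lev_deriv h.t0 pos hσ hF
  refine ⟨G.N (j + 1) * D, hD.const_mul _, ?_⟩
  -- the individual error terms
  have l2 := R.lev_nonneg (j + 2) t
  have c0 := R.ch_nonneg G (j + 1) t
  have q1 : G.N (j + 1) * R.lev (j + 2) t ≤ R.nl G (j + 2) t :=
    mul_le_mul_of_nonneg_right (G.N_mono (Nat.le_succ _)) l2
  have r1 : G.Wc * (G.N (j + 1) * R.lev (j + 2) t) ≤ G.θ ^ (j - J) * u := by
    have := hu.l (j + 2) (by omega)
    rw [show j + 2 - J - 1 = j + 1 - J by omega] at this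
    exact (mul_le_mul_of_nonneg_left q1 hW.le).trans (this.trans hY)
  have r2 : G.Wc * (G.N (j + 1) * R.ch G (j + 1) t) ≤ G.θ ^ (j - J) * u := by
    rw [mul_left_comm]
    exact (hu.y (j + 1) (by omega)).trans hY
  have r3 : G.N (j + 1) * R.ch G (j + 1) t ≤ Real.exp (-G.t ^ 19) * (30 * R.bh G (j + 1)) :=
    small (by positivity) hε.le (eps_W G) (by rw [mul_left_comm]; exact h.nc (j + 1))
  have r4 : G.N (j + 1) * R.lev (j + 2) t ≤ Real.exp (-G.t ^ 19) * R.bh G (j + 1) :=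
    small (by positivity) hε.le (eps_W G) ((mul_le_mul_of_nonneg_left q1 hW.le).trans
      (((up (j + 2) (by omega)).2 (by omega)).trans (H.bh_mono (by omega))))
  have r5 : R.Low G (j + 1) t ≤ Real.exp (-G.t ^ 19) * (20 * R.bh G (j + 1)) :=
    small (R.Low_nonneg G _ t) hε.le (eps_m0 G) (h.Low_le H (j + 1))
  have r6 : G.Wc * (G.N (j + 1) ^ 2 * R.ET (j + G.kk) t) ≤
      Real.exp (-G.t ^ 19) * (R.bh G (j + 1) * (G.θ ^ (j - J) * u)) := by
    have := et_up H h hu u0.le (i := j + 1) (by omega)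
    rw [show j + 1 + G.kk - 1 = j + G.kk by omega] at this
    exact small (mul_nonneg hW.le (mul_nonneg (sq_nonneg _) (H.ET_nonneg _ _))) hε.le (eps_W G)
      (this.trans (by gcongr))
  have r7 : G.Wc * (G.N (j + 1) * R.Jk t) ≤
      Real.exp (-G.t ^ 19) * (G.lam (j + 1) ^ 2 * (G.θ ^ (j - J) * u)) :=
    (jk_up' H hj fl (i := j + 1) (by omega)).trans (by gcongr)
  have r8 : R.nu G j t ≤ 11 * R.bh G (j + 1) :=
    (h.nu_le H j).trans (by have := H.bh_mono (Nat.le_succ j); gcongr)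
  have r9 : G.Wc * (G.N (j + 1) * ‖R.y j G.La t‖) ≤ G.t ^ 32 * (G.θ ^ (j - J) * u) := by
    have b1 := R.y_le_ch G j (i := G.La) (by have := G.ten_le_La; omega) le_rfl t
    have b2 := G.N_succ_hi j
    have b3 := G.N_pos j
    calc _ ≤ G.Wc * (G.t ^ 32 * G.N j * R.ch G j t) := by gcongr
      _ = G.t ^ 32 * R.nc G j t := by unfold Raw.nc; ring
      _ ≤ _ := by have := hu.y j hj1; gcongr
  have LL := R.LowL_nonneg G (j + 1) t
  have LY := R.LowY_nonneg G (j + 1) t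
  have s1 : R.LowY G (j + 1) t ≤ Real.exp (-G.t ^ 19) * (20 * R.bh G (j + 1)) :=
    le_trans (le_add_of_nonneg_left LL) r5
  have s2 : G.tau0 / G.m0 * R.LowL G (j + 1) t ≤ Real.exp (-G.t ^ 19) * (20 * R.bh G (j + 1)) :=
    (mul_le_of_le_one_left LL ((div_le_one G.m0_pos).2 (((tau0_eps G).trans
      (eps_le_one G)).trans (one_le_m0 G)))).trans (le_trans (le_add_of_nonneg_right LY) r5)
  have τε := tau0_eps G
  have τ0 := G.tau0_pos
  have n0 := R.nu_nonneg G j t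
  have e' : G.Wc * (G.N (j + 1) * R.lev (j + 1) t) = G.θ ^ (j - J) * u := e
  set X := G.θ ^ (j - J) * u
  set ε := Real.exp (-G.t ^ 19)
  have key : G.Wc * (G.N (j + 1) * (ε * (10 ^ 3 * G.t ^ 11 * (G.lam (j + 1) * R.bh G (j + 1)) *
      ‖R.y j G.La t‖) + R.eb G (j + 1) t + R.ec G j t)) ≤ G.lam (j + 1) ^ 2 * X / 4 := by
    refine le_trans ?_ (num_l G.t_big hε.le (pow_mul_eps G (by norm_num)) hL.le
      (bh_le H (j + 1)) hb.le X0.le)
    calc _ = ε * (10 ^ 3 * G.t ^ 11 * (G.lam (j + 1) * R.bh G (j + 1)) *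
            (G.Wc * (G.N (j + 1) * ‖R.y j G.La t‖))) +
          (10 ^ 6 * G.lam (j + 1) *
            (G.tau0 * R.nu G j t * (G.Wc * (G.N (j + 1) * R.lev (j + 1) t)) +
              G.t ^ 50 * (G.N (j + 1) * R.ch G (j + 1) t) *
                (G.Wc * (G.N (j + 1) * R.ch G (j + 1) t) +
                  G.Wc * (G.N (j + 1) * R.lev (j + 1) t) +
                  G.Wc * (G.N (j + 1) * R.lev (j + 2) t)) +
              G.N (j + 1) * R.lev (j + 2) t * (G.Wc * (G.N (j + 1) * R.lev (j + 2) t) +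
                G.Wc * (G.N (j + 1) * R.ch G (j + 1) t)) +
              R.Low G (j + 1) t * (G.Wc * (G.N (j + 1) * R.lev (j + 1) t)) +
              G.Wc * (G.N (j + 1) ^ 2 * R.ET (j + G.kk) t)) +
            10 * (G.Wc * (G.N (j + 1) * R.Jk t))) +
          G.t ^ 12 * (G.lam (j + 1) *
            (G.tau0 * R.nu G j t * (G.Wc * (G.N (j + 1) * R.lev (j + 1) t)) +
              R.Low G (j + 1) t * (G.Wc * (G.N (j + 1) * R.lev (j + 1) t)) +
              (R.LowY G (j + 1) t + G.tau0 / G.m0 * R.LowL G (j + 1) t) *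
                (G.Wc * (G.N (j + 1) * ‖R.y j G.La t‖)) +
              G.Wc * (G.N (j + 1) ^ 2 * R.ET (j + G.kk) t)) +
            G.Wc * (G.N (j + 1) * R.Jk t)) := by
          unfold Raw.eb Raw.ec
          rw [show j + 1 + G.kk - 1 = j + G.kk by omega, Raw.pv]
          ring
      _ ≤ _ := by
          rw [e']
          gcongr
  have dd : 20 * G.d (J + 1) ≤ G.d (j + 1) := by
    have b1 := G.d_succ (J + 1)
    have b2 : G.d (J + 2) ≤ G.d (j + 1) := by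
      have := G.lam_mono hi
      have := G.lam_pos (J + 2)
      unfold Geo.d
      gcongr
    have b3 := G.pow_lt (show 0 < 42 by norm_num)
    have b4 := G.d_pos (J + 1)
    rw [pow_zero] at b3
    calc _ ≤ G.t ^ 42 * G.d (J + 1) := by gcongr; linarith
      _ ≤ _ := b1 ▸ b2
  refine le_of_mul_le_mul_left ?_ hW
  have fin := mul_le_mul_of_nonneg_left (mul_le_mul_of_nonneg_left le hN.le) hW.le
  have dd' := mul_le_mul_of_nonneg_right dd X0.le
  have hd : G.d (j + 1) = 2 * G.lam (j + 1) ^ 2 := rfl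
  calc _ ≤ _ := fin
    _ = -(3 / 4) * G.d (j + 1) * (G.Wc * (G.N (j + 1) * R.lev (j + 1) t)) + 2 * (G.Wc *
        (G.N (j + 1) * (ε * (10 ^ 3 * G.t ^ 11 * (G.lam (j + 1) * R.bh G (j + 1)) *
          ‖R.y j G.La t‖) + R.eb G (j + 1) t + R.ec G j t))) := by ring
    _ ≤ -(3 / 4) * G.d (j + 1) * X + 2 * (G.lam (j + 1) ^ 2 * X / 4) := by rw [e']; gcongr
    _ = -(1 / 2) * (G.d (j + 1) * X) := by rw [hd]; ring
    _ ≤ -(10 * G.d (J + 1) * X) := by linarith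
    _ = _ := by rw [← e]; ring

end Cr0

end

end Pool.Agent.Work.MP_6bf1e5_an.Ell
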