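import Pool.Agent.Work.MP_6bf1e5_an.Ell.YoungA
import Pool.Agent.Work.MP_6bf1e5_an.Ell.CoefA

/-!
The splitting of the transport operator.
-/

open Set Complex
open scoped InnerProductSpace ComplexConjugate Classical
open Pool.Agent.Work.MP_6bf1e5_an.B
open Pool.Agent.Work.MP_6bf1e5_an.Dec

namespace Pool.Agent.Work.MP_6bf1e5_an.Ell.Pd

noncomputable section

variable {G : Geo} {β : Z3 → E3}

lemma Tst_add (e : E3) (r0 : Z3) (n : N3) (X Y : Z3 → E3) :
    Tst e r0 n (fun r => X r + Y r) = Tst e r0 n X + Tst e r0 n Y := by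
  ext h
  simp only [Tst, AddMonoidAlgebra.coeff_add, Finsupp.add_apply, coeff_mk]
  split_ifs with hh
  · rw [inner_add_right]; push_cast; ring
  · simp

lemma Young_coeff_le (e : E3) (r0 : Z3) (n : N3) (X : Z3 → E3) (h : Z3) :
    ‖(Tst e r0 n X).coeff h‖ ≤ if h ∈ bx n then ‖e‖ * ‖X (r0 + h)‖ else 0 := by
  rw [Tst, coeff_mk]
  split_ifs with hh
  · rw [Complex.norm_real]
    exact (norm_inner_le_norm _ _).trans
      (mul_le_mul_of_nonneg_right (norm_lp_le _ _) (norm_nonneg _))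
  · simp

lemma Young_norm_mk_le {n : N3} {g : Z3 → ℝ} {K : ℝ} (hK : 0 ≤ K)
    (h : ∑ k ∈ bx n, g k ^ 2 ≤ K ^ 2) : ‖mk (bx n) fun k => ((g k : ℝ) : ℂ)‖ ≤ K := by
  refine (pow_le_pow_iff_left₀ (norm_nonneg _) hK two_ne_zero).mp ?_
  rw [norm_sq_eq (support_mk _ _)]
  refine le_trans (le_of_eq (Finset.sum_congr rfl fun k hk => ?_)) h
  rw [coeff_mk, if_pos hk, Complex.norm_real, Real.norm_eq_abs, sq_abs]

lemma norm_Tst_le (e : E3) (r0 : Z3) (n : N3) {X : Z3 → E3} {K : ℝ}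
    (h : L2 (fun k => ‖X k‖) K) : ‖Tst e r0 n X‖ ≤ ‖e‖ * K := by
  have h1 : ‖mk (bx n) fun k => ((‖X (r0 + k)‖ : ℝ) : ℂ)‖ ≤ K := by
    refine Young_norm_mk_le h.1 ?_
    have := h.2 ((bx n).image (r0 + ·))
    rwa [Finset.sum_image fun a _ b _ hab => add_left_cancel hab] at this
  refine le_trans (norm_le_of_coeff (norm_nonneg e) fun k => ?_)
    (mul_le_mul_of_nonneg_left h1 (norm_nonneg _))
  refine (Young_coeff_le e r0 n X k).trans ?_
  rw [coeff_mk]
  split_ifs with hk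
  · simp
  · simp

lemma BR_eq_RP (β : Z3 → E3) : BR β β = RP β fun _ _ => True := by
  funext r
  simp [BR, RP]

lemma Young_summable_ite {f : Z3 → E3} (hf : Summable f) (P : Z3 → Prop) [DecidablePred P] :
    Summable fun p => if P p then f p else 0 := by
  have := hf.indicator {p | P p}
  refine this.congr fun p => ?_
  simp [Set.indicator_apply]

/-- Splitting off one interaction. -/
lemma RP_split (H : Rapid β) {P : Z3 → Z3 → Prop} {W1 W2 : Set Z3} (hd : ∀ k ∈ W1, k ∉ W2)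
    (hP : ∀ p q, UPair W1 W2 p q → P p q) (r : Z3) :
    RP β P r = SB β W1 W2 r + RP β (fun p q => P p q ∧ ¬UPair W1 W2 p q) r := by
  have s0 := summable_tm H H r
  have s1 := Young_summable_ite s0 fun p => p ∈ W1 ∧ r - p ∈ W2
  have s2 := Young_summable_ite s0 fun p => p ∈ W2 ∧ r - p ∈ W1
  have s3 := @Young_summable_ite _ s0 (fun p => P p (r - p) ∧ ¬UPair W1 W2 p (r - p))
    fun _ => Classical.propDecidable _
  have e2 : ∀ p, (if (Equiv.subLeft r p) ∈ W2 ∧ r - (Equiv.subLeft r p) ∈ W1 then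
      tm β β (Equiv.subLeft r p) (r - (Equiv.subLeft r p)) else 0) =
      if p ∈ W1 ∧ r - p ∈ W2 then tm β β (r - p) p else 0 := by
    intro p
    simp only [Equiv.subLeft_apply, sub_sub_cancel, and_comm]
  have s2' : Summable fun p => if p ∈ W1 ∧ r - p ∈ W2 then tm β β (r - p) p else 0 :=
    (((Equiv.subLeft r).summable_iff.mpr s2).congr e2)
  have t2 : (∑' p, if p ∈ W1 ∧ r - p ∈ W2 then tm β β (r - p) p else 0) =
      ∑' p, if p ∈ W2 ∧ r - p ∈ W1 then tm β β p (r - p) else 0 := by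
    rw [← (Equiv.subLeft r).tsum_eq
      (fun p => if p ∈ W2 ∧ r - p ∈ W1 then tm β β p (r - p) else 0)]
    exact tsum_congr fun p => (e2 p).symm
  have hSB : SB β W1 W2 r = (∑' p, if p ∈ W1 ∧ r - p ∈ W2 then tm β β p (r - p) else 0) +
      ∑' p, if p ∈ W2 ∧ r - p ∈ W1 then tm β β p (r - p) else 0 := by
    rw [← t2, ← s1.tsum_add s2', SB]
    refine tsum_congr fun p => ?_
    split_ifs <;> simp
  rw [hSB, RP, RP, ← s1.tsum_add s2, ← (s1.add s2).tsum_add s3]
  refine tsum_congr fun p => ?_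
  by_cases a1 : p ∈ W1 ∧ r - p ∈ W2
  · have a2 : ¬(p ∈ W2 ∧ r - p ∈ W1) := fun h => hd p a1.1 h.1
    have u : UPair W1 W2 p (r - p) := Or.inl a1
    rw [if_pos (hP _ _ u), if_pos a1, if_neg a2, if_neg (fun h => h.2 u)]
    simp
  · by_cases a2 : p ∈ W2 ∧ r - p ∈ W1
    · have u : UPair W1 W2 p (r - p) := Or.inr a2
      rw [if_pos (hP _ _ u), if_neg a1, if_pos a2, if_neg (fun h => h.2 u)]
      simp
    · have u : ¬UPair W1 W2 p (r - p) := fun h => h.elim a1 a2
      rw [if_neg a1, if_neg a2]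
      simp [u]

lemma Young_nb_mem {W : Set Z3} {k : Z3} (h : k ∈ W) : nb β W k = ‖β k‖ := by
  simp [nb, h]

/-- The pointwise bound of the remaining interactions. -/
lemma Young_RP_le (H : Adm β) {ι : Type} [Fintype ι] {W1 W2 : ι → Set Z3}
    (hs : ∀ i r, Summable fun p => nb β (W1 i) p * nb β (W2 i) (r - p)) {P : Z3 → Z3 → Prop}
    {r : Z3} (hcase : ∀ p q, p + q = r → P p q → β p ≠ 0 → β q ≠ 0 →
      ∃ i, UPair (W1 i) (W2 i) p q) :
    ‖RP β P r‖ ≤ ax r * (2 * ∑ i, ∑' p, nb β (W1 i) p * nb β (W2 i) (r - p)) := by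
  have e2 : ∀ i p, nb β (W1 i) (Equiv.subLeft r p) * nb β (W2 i) (r - Equiv.subLeft r p) =
      nb β (W1 i) (r - p) * nb β (W2 i) p := by
    intro i p
    simp only [Equiv.subLeft_apply, sub_sub_cancel]
  have hs' : ∀ i, HasSum (fun p => nb β (W1 i) (r - p) * nb β (W2 i) p)
      (∑' p, nb β (W1 i) p * nb β (W2 i) (r - p)) := by
    intro i
    have := (Equiv.subLeft r).hasSum_iff.mpr (hs i r).hasSum
    exact this.congr_fun fun p => (e2 i p).symm
  have hsum : HasSum (fun p => ax r * ∑ i, (nb β (W1 i) p * nb β (W2 i) (r - p) +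
      nb β (W1 i) (r - p) * nb β (W2 i) p))
      (ax r * ∑ i, ((∑' p, nb β (W1 i) p * nb β (W2 i) (r - p)) +
        ∑' p, nb β (W1 i) p * nb β (W2 i) (r - p))) :=
    (hasSum_sum fun i _ => (hs i r).hasSum.add (hs' i)).mul_left _
  have := tsum_of_norm_bounded (f := fun p => if P p (r - p) then tm β β p (r - p) else 0) hsum
    fun p => by
      have nn : ∀ i, 0 ≤ nb β (W1 i) p * nb β (W2 i) (r - p) +
          nb β (W1 i) (r - p) * nb β (W2 i) p := fun i =>
        add_nonneg (mul_nonneg (nb_nonneg _ _ _) (nb_nonneg _ _ _))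
          (mul_nonneg (nb_nonneg _ _ _) (nb_nonneg _ _ _))
      have n0 := mul_nonneg (ax_nonneg r) (Finset.sum_nonneg fun i (_ : i ∈ Finset.univ) => nn i)
      split_ifs with hp
      · by_cases b1 : β p = 0
        · simpa [tm, b1] using n0
        by_cases b2 : β (r - p) = 0
        · simpa [tm, b2] using n0
        obtain ⟨i, hi⟩ := hcase p (r - p) (add_sub_cancel _ _) hp b1 b2
        have h1 := norm_tm_le H.div β p (r - p)
        rw [add_sub_cancel] at h1
        refine h1.trans (mul_le_mul_of_nonneg_left ?_ (ax_nonneg r))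
        refine le_trans ?_ (Finset.single_le_sum (fun i _ => nn i) (Finset.mem_univ i))
        rcases hi with ⟨a, b⟩ | ⟨a, b⟩
        · rw [Young_nb_mem a, Young_nb_mem b]
          exact le_add_of_nonneg_right (mul_nonneg (nb_nonneg _ _ _) (nb_nonneg _ _ _))
        · rw [Young_nb_mem a, Young_nb_mem b, mul_comm ‖β (r - p)‖]
          exact le_add_of_nonneg_left (mul_nonneg (nb_nonneg _ _ _) (nb_nonneg _ _ _))
      · simpa using n0
  refine this.trans (le_of_eq ?_)
  rw [Finset.sum_add_distrib, two_mul]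

/-- The remaining interactions. -/
theorem rest_le (H : Adm β) {ι : Type} [Fintype ι] {W1 W2 : ι → Set Z3} {K : ι → ℝ} {n : N3}
    (hK : ∀ i, Cv n (nb β (W1 i)) (nb β (W2 i)) (K i)) {P : Z3 → Z3 → Prop} {e : E3} {r0 : Z3}
    {c : ℝ} (hc : ∀ h ∈ bx n, ‖e‖ * ax (r0 + h) ≤ c)
    (hcase : ∀ h ∈ bx n, ∀ p q, p + q = r0 + h → P p q → β p ≠ 0 → β q ≠ 0 →
      ∃ i, UPair (W1 i) (W2 i) p q) :
    ‖Tst e r0 n (RP β P)‖ ≤ 2 * c * ∑ i, K i := by
  have c0 : 0 ≤ c := (mul_nonneg (norm_nonneg _) (ax_nonneg _)).trans (hc 0 (zero_mem_bx n))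
  set cv : ι → Z3 → ℝ := fun i h => ∑' p, nb β (W1 i) p * nb β (W2 i) (r0 + h - p) with hcv
  have cv0 : ∀ i h, 0 ≤ cv i h := fun i h =>
    tsum_nonneg fun p => mul_nonneg (nb_nonneg _ _ _) (nb_nonneg _ _ _)
  have h1 : ∀ i, ‖mk (bx n) fun h => ((cv i h : ℝ) : ℂ)‖ ≤ K i := fun i =>
    Young_norm_mk_le (hK i).1 ((hK i).2.2 r0)
  have h2 : ‖mk (bx n) fun h => ((∑ i, cv i h : ℝ) : ℂ)‖ ≤ ∑ i, K i := by
    have : (mk (bx n) fun h => ((∑ i, cv i h : ℝ) : ℂ)) =
        ∑ i, mk (bx n) fun h => ((cv i h : ℝ) : ℂ) := by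
      ext h
      simp only [AddMonoidAlgebra.coeff_sum, Finsupp.finsetSum_apply, coeff_mk]
      split_ifs with hh
      · push_cast; rfl
      · simp
    rw [this]
    exact (norm_sum_le _ _).trans (Finset.sum_le_sum fun i _ => h1 i)
  refine le_trans (norm_le_of_coeff (c := 2 * c) (by positivity) fun h => ?_)
    (mul_le_mul_of_nonneg_left h2 (by positivity))
  refine (Young_coeff_le e r0 n _ h).trans ?_
  rw [coeff_mk]
  split_ifs with hh
  · have s0 : 0 ≤ ∑ i, cv i h := Finset.sum_nonneg fun i _ => cv0 i h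
    rw [Complex.norm_real, Real.norm_of_nonneg s0]
    have h3 := Young_RP_le H (fun i => (hK i).2.1) (hcase h hh)
    calc ‖e‖ * ‖RP β P (r0 + h)‖ ≤ ‖e‖ * (ax (r0 + h) * (2 * ∑ i, cv i h)) :=
          mul_le_mul_of_nonneg_left h3 (norm_nonneg _)
      _ = ‖e‖ * ax (r0 + h) * (2 * ∑ i, cv i h) := by ring
      _ ≤ c * (2 * ∑ i, cv i h) := mul_le_mul_of_nonneg_right (hc h hh) (by positivity)
      _ = _ := by ring
  · simp

lemma Young_BR_split (H : Adm β) (r : Z3) :
    BR β β r = BR (act G β) (act G β) r + (BR β (jnk G β) r + BR (jnk G β) (act G β) r) := by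
  have a := (adm_act (G := G) H).rapid
  have j := (adm_jnk (G := G) H).rapid
  have s1 := summable_tm a a r
  have s2 := summable_tm H.rapid j r
  have s3 := summable_tm j a r
  rw [BR, BR, BR, BR, ← s2.tsum_add s3, ← s1.tsum_add (s2.add s3)]
  refine tsum_congr fun p => ?_
  simp only [tm, jnk, inner_sub_left, smul_sub, sub_smul]
  abel

/-- The interactions with the junk. -/
theorem junk_le (H : Adm β) (e : E3) (r0 : Z3) (n : N3) :
    ‖Tst e r0 n (BR β β) - Tst e r0 n (BR (act G β) (act G β))‖ ≤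
      ‖e‖ * ((∑' k, ‖β k‖) * √(∑' k, (ax k * ‖jnk G β k‖) ^ 2) +
        (∑' k, ‖jnk G β k‖) * √(∑' k, (ax k * ‖β k‖) ^ 2)) := by
  have a := (adm_act (G := G) H).rapid
  have j := (adm_jnk (G := G) H).rapid
  have e1 : BR β β = fun r => BR (act G β) (act G β) r +
      (BR β (jnk G β) r + BR (jnk G β) (act G β) r) := funext fun r => Young_BR_split H r
  have e2 : Tst e r0 n (BR β β) - Tst e r0 n (BR (act G β) (act G β)) =
      Tst e r0 n fun r => BR β (jnk G β) r + BR (jnk G β) (act G β) r := by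
    conv_lhs => rw [e1]
    rw [Tst_add e r0 n (BR (act G β) (act G β))]
    exact add_sub_cancel_left _ _
  rw [e2]
  refine norm_Tst_le e r0 n ?_
  have l1 := L2_BR H.rapid j
  have l2 := L2_BR j a
  have m : √(∑' k, (ax k * ‖act G β k‖) ^ 2) ≤ √(∑' k, (ax k * ‖β k‖) ^ 2) := by
    refine Real.sqrt_le_sqrt ((summable_sq_ax a).tsum_le_tsum (fun k => ?_)
      (summable_sq_ax H.rapid))
    have := ax_nonneg k
    have := norm_Pj_le G k (β k)
    rw [act]
    gcongr
  have l3 := l2.mono (mul_le_mul_of_nonneg_left m (tsum_nonneg fun k => norm_nonneg _))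
  refine (l1.add l3).of_le fun k => ?_
  rw [abs_of_nonneg (norm_nonneg _), abs_of_nonneg (by positivity)]
  exact norm_add_le _ _

end

end Pool.Agent.Work.MP_6bf1e5_an.Ell.Pd
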