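import Pool.Agent.Work.MP_6bf1e5_an.Ell.Arith

/-!
Convolution estimates.
-/

open Set Complex
open scoped InnerProductSpace ComplexConjugate Classical
open Pool.Agent.Work.MP_6bf1e5_an.B
open Pool.Agent.Work.MP_6bf1e5_an.Dec

namespace Pool.Agent.Work.MP_6bf1e5_an.Ell.Pd

noncomputable section

/-- Finite sums of `f` are at most `X`. -/
def L1 (f : Z3 → ℝ) (X : ℝ) : Prop := ∀ F : Finset Z3, ∑ k ∈ F, f k ≤ X

/-- Finite sums of squares of `f` are at most `X ^ 2`. -/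
def L2 (f : Z3 → ℝ) (X : ℝ) : Prop := 0 ≤ X ∧ ∀ F : Finset Z3, ∑ k ∈ F, f k ^ 2 ≤ X ^ 2

/-- The convolution of `f` and `g` has Euclidean norm at most `K` on all boxes with radii `n`. -/
def Cv (n : N3) (f g : Z3 → ℝ) (K : ℝ) : Prop :=
  0 ≤ K ∧ (∀ r, Summable fun p => f p * g (r - p)) ∧
    ∀ r0 : Z3, ∑ h ∈ bx n, (∑' p, f p * g (r0 + h - p)) ^ 2 ≤ K ^ 2

variable {G : Geo} {β : Z3 → E3}

lemma nb_nonneg (β : Z3 → E3) (W : Set Z3) (k : Z3) : 0 ≤ nb β W k := by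
  unfold nb
  exact Set.indicator_nonneg (fun _ _ => norm_nonneg _) k

lemma L1.nonneg {f : Z3 → ℝ} {X : ℝ} (h : L1 f X) : 0 ≤ X := by
  simpa using h ∅

lemma L1.mono {f : Z3 → ℝ} {X Y : ℝ} (h : L1 f X) (H : X ≤ Y) : L1 f Y := by
  exact fun F => (h F).trans H

lemma L2.mono {f : Z3 → ℝ} {X Y : ℝ} (h : L2 f X) (H : X ≤ Y) : L2 f Y := by
  exact ⟨h.1.trans H, fun F => (h.2 F).trans (pow_le_pow_left₀ h.1 H 2)⟩

lemma L1.of_le {f g : Z3 → ℝ} {X : ℝ} (h : L1 g X) (H : ∀ k, f k ≤ g k) : L1 f X := by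
  exact fun F => (Finset.sum_le_sum fun k _ => H k).trans (h F)

lemma L2.of_le {f g : Z3 → ℝ} {X : ℝ} (h : L2 g X) (H : ∀ k, |f k| ≤ |g k|) : L2 f X := by
  exact ⟨h.1, fun F => (Finset.sum_le_sum fun k _ => sq_le_sq.mpr (H k)).trans (h.2 F)⟩

lemma L1.add {f g : Z3 → ℝ} {X Y : ℝ} (h : L1 f X) (h' : L1 g Y) :
    L1 (fun k => f k + g k) (X + Y) := by
  intro F
  rw [Finset.sum_add_distrib]
  exact add_le_add (h F) (h' F)

lemma youngA_cs {f g : Z3 → ℝ} {X Y : ℝ} (h : L2 f X) (h' : L2 g Y) (F : Finset Z3) :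
    ∑ k ∈ F, f k * g k ≤ X * Y := by
  refine (abs_le_of_sq_le_sq' ?_ (mul_nonneg h.1 h'.1)).2
  refine (Finset.sum_mul_sq_le_sq_mul_sq F f g).trans ?_
  rw [mul_pow]
  exact mul_le_mul (h.2 F) (h'.2 F) (Finset.sum_nonneg fun _ _ => sq_nonneg _) (sq_nonneg _)

lemma youngA_comp {g : Z3 → ℝ} {Y : ℝ} (h : L2 g Y) {e : Z3 → Z3} (he : Function.Injective e) :
    L2 (fun p => g (e p)) Y := by
  refine ⟨h.1, fun F => ?_⟩
  have := h.2 (F.image e)
  rwa [Finset.sum_image fun _ _ _ _ H => he H] at this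

lemma youngA_pt {g : Z3 → ℝ} {Y : ℝ} (h : L2 g Y) (k : Z3) : g k ≤ Y := by
  have := h.2 {k}
  rw [Finset.sum_singleton] at this
  exact (abs_le_of_sq_le_sq' this h.1).2

lemma youngA_nb_union (β : Z3 → E3) (W W' : Set Z3) (k : Z3) :
    nb β (W ∪ W') k ≤ nb β W k + nb β W' k := by
  have a := nb_nonneg β W k
  have b := nb_nonneg β W' k
  by_cases h : k ∈ W
  · have e : nb β (W ∪ W') k = nb β W k := by
      unfold nb
      rw [Set.indicator_of_mem h, Set.indicator_of_mem (Set.mem_union_left _ h)]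
    linarith
  · by_cases h' : k ∈ W'
    · have e : nb β (W ∪ W') k = nb β W' k := by
        unfold nb
        rw [Set.indicator_of_mem h', Set.indicator_of_mem (Set.mem_union_right _ h')]
      linarith
    · have e : nb β (W ∪ W') k = 0 := by
        unfold nb
        rw [Set.indicator_of_notMem (by rintro (H | H); exacts [h H, h' H])]
      linarith

lemma youngA_nb_sum {ι : Type} (s : Finset ι) {W : ι → Set Z3} {U : Set Z3}
    (hU : ∀ k ∈ U, ∃ i ∈ s, k ∈ W i) (m : ℕ) (hm : m ≠ 0) (k : Z3) :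
    nb β U k ^ m ≤ ∑ i ∈ s, nb β (W i) k ^ m := by
  by_cases h : k ∈ U
  · obtain ⟨i, hi, hk⟩ := hU k h
    have e : nb β U k = nb β (W i) k := by
      unfold nb
      rw [Set.indicator_of_mem h, Set.indicator_of_mem hk]
    rw [e]
    exact Finset.single_le_sum (f := fun i => nb β (W i) k ^ m)
      (fun i _ => pow_nonneg (nb_nonneg _ _ _) _) hi
  · have e : nb β U k = 0 := by
      unfold nb
      rw [Set.indicator_of_notMem h]
    rw [e, zero_pow hm]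
    exact Finset.sum_nonneg fun i _ => pow_nonneg (nb_nonneg _ _ _) _

lemma L2.add {f g : Z3 → ℝ} {X Y : ℝ} (h : L2 f X) (h' : L2 g Y) :
    L2 (fun k => f k + g k) (X + Y) := by
  refine ⟨add_nonneg h.1 h'.1, fun F => ?_⟩
  have e : ∑ k ∈ F, (f k + g k) ^ 2 =
      ∑ k ∈ F, f k ^ 2 + 2 * ∑ k ∈ F, f k * g k + ∑ k ∈ F, g k ^ 2 := by
    rw [Finset.mul_sum, ← Finset.sum_add_distrib, ← Finset.sum_add_distrib]
    exact Finset.sum_congr rfl fun k _ => by ring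
  rw [e]
  linarith [h.2 F, h'.2 F, youngA_cs h h' F]

lemma L1.union {W W' : Set Z3} {X Y : ℝ} (h : L1 (nb β W) X) (h' : L1 (nb β W') Y) :
    L1 (nb β (W ∪ W')) (X + Y) := by
  exact (h.add h').of_le (youngA_nb_union β W W')

lemma L2.union {W W' : Set Z3} {X Y : ℝ} (h : L2 (nb β W) X) (h' : L2 (nb β W') Y) :
    L2 (nb β (W ∪ W')) (X + Y) := by
  refine (h.add h').of_le fun k => ?_
  rw [abs_of_nonneg (nb_nonneg _ _ _),
    abs_of_nonneg (add_nonneg (nb_nonneg _ _ _) (nb_nonneg _ _ _))]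
  exact youngA_nb_union β W W' k

lemma L1.biUnion {ι : Type} (s : Finset ι) {W : ι → Set Z3} {X : ι → ℝ}
    (h : ∀ i ∈ s, L1 (nb β (W i)) (X i)) {U : Set Z3} (hU : ∀ k ∈ U, ∃ i ∈ s, k ∈ W i) :
    L1 (nb β U) (∑ i ∈ s, X i) := by
  intro F
  calc ∑ k ∈ F, nb β U k ≤ ∑ k ∈ F, ∑ i ∈ s, nb β (W i) k :=
        Finset.sum_le_sum fun k _ => by simpa using youngA_nb_sum (β := β) s hU 1 one_ne_zero k
    _ = ∑ i ∈ s, ∑ k ∈ F, nb β (W i) k := Finset.sum_comm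
    _ ≤ _ := Finset.sum_le_sum fun i hi => h i hi F

lemma L2.biUnion {ι : Type} (s : Finset ι) {W : ι → Set Z3} {X : ι → ℝ}
    (h : ∀ i ∈ s, L2 (nb β (W i)) (X i)) {U : Set Z3} (hU : ∀ k ∈ U, ∃ i ∈ s, k ∈ W i) :
    L2 (nb β U) (√(∑ i ∈ s, X i ^ 2)) := by
  refine ⟨Real.sqrt_nonneg _, fun F => ?_⟩
  rw [Real.sq_sqrt (Finset.sum_nonneg fun _ _ => sq_nonneg _)]
  calc ∑ k ∈ F, nb β U k ^ 2 ≤ ∑ k ∈ F, ∑ i ∈ s, nb β (W i) k ^ 2 :=
        Finset.sum_le_sum fun k _ => youngA_nb_sum s hU 2 two_ne_zero k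
    _ = ∑ i ∈ s, ∑ k ∈ F, nb β (W i) k ^ 2 := Finset.sum_comm
    _ ≤ _ := Finset.sum_le_sum fun i hi => (h i hi).2 F

lemma L1.tsum_le {f : Z3 → ℝ} {X : ℝ} (h0 : ∀ k, 0 ≤ f k) (h : L1 f X) :
    Summable f ∧ ∑' k, f k ≤ X := by
  exact ⟨summable_of_sum_le h0 h, Real.tsum_le_of_sum_le h0 h⟩

lemma L2.tsum_le {f : Z3 → ℝ} {X : ℝ} (h : L2 f X) :
    (Summable fun k => f k ^ 2) ∧ √(∑' k, f k ^ 2) ≤ X := by
  refine ⟨summable_of_sum_le (fun _ => sq_nonneg _) h.2, ?_⟩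
  rw [Real.sqrt_le_left h.1]
  exact Real.tsum_le_of_sum_le (fun _ => sq_nonneg _) h.2

lemma L1_tsum {f : Z3 → ℝ} (h0 : ∀ k, 0 ≤ f k) (h : Summable f) : L1 f (∑' k, f k) := by
  exact fun F => h.sum_le_tsum F fun k _ => h0 k

lemma L2_tsum {f : Z3 → ℝ} (h : Summable fun k => f k ^ 2) : L2 f (√(∑' k, f k ^ 2)) := by
  refine ⟨Real.sqrt_nonneg _, fun F => ?_⟩
  rw [Real.sq_sqrt (tsum_nonneg fun _ => sq_nonneg _)]
  exact h.sum_le_tsum F fun k _ => sq_nonneg _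

lemma summable_sq_ax (H : Rapid β) : Summable fun k => (ax k * ‖β k‖) ^ 2 := by
  obtain ⟨M, hM⟩ := H 1
  refine Summable.of_nonneg_of_le (fun _ => sq_nonneg _) (fun k => ?_) (hM.summable.mul_right M)
  have h1 : ax k * ‖β k‖ ≤ w k ^ 1 * ‖β k‖ := by
    rw [pow_one]; exact mul_le_mul_of_nonneg_right (ax_le_w k) (norm_nonneg _)
  have h0 : 0 ≤ ax k * ‖β k‖ := mul_nonneg (ax_nonneg k) (norm_nonneg _)
  rw [pow_two]
  exact mul_le_mul h1 (h1.trans (hM.pt k)) h0 (h0.trans h1)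

/-- Young's inequality. -/
lemma young {f g : Z3 → ℝ} {X Y : ℝ} (f0 : ∀ k, 0 ≤ f k) (g0 : ∀ k, 0 ≤ g k) (hf : L1 f X)
    (hg : L2 g Y) : (∀ r, Summable fun p => f p * g (r - p)) ∧
      L2 (fun r => ∑' p, f p * g (r - p)) (X * Y) := by
  have X0 := hf.nonneg
  have sf := (hf.tsum_le f0).1
  have s1 : ∀ r, Summable fun p => f p * g (r - p) := fun r =>
    Summable.of_nonneg_of_le (fun p => mul_nonneg (f0 p) (g0 _))
      (fun p => mul_le_mul_of_nonneg_left (youngA_pt hg _) (f0 p)) (sf.mul_right Y)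
  have s2 : ∀ r, Summable fun p => f p * g (r - p) ^ 2 := fun r =>
    Summable.of_nonneg_of_le (fun p => mul_nonneg (f0 p) (sq_nonneg _))
      (fun p => mul_le_mul_of_nonneg_left (pow_le_pow_left₀ (g0 _) (youngA_pt hg _) 2) (f0 p))
      (sf.mul_right (Y ^ 2))
  refine ⟨s1, mul_nonneg X0 hg.1, fun F => ?_⟩
  have pt : ∀ r, (∑' p, f p * g (r - p)) ^ 2 ≤ X * ∑' p, f p * g (r - p) ^ 2 := by
    intro r
    have S0 : 0 ≤ ∑' p, f p * g (r - p) ^ 2 :=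
      tsum_nonneg fun p => mul_nonneg (f0 p) (sq_nonneg _)
    have a : L2 (fun p => √(f p)) √X := by
      refine ⟨Real.sqrt_nonneg _, fun F => ?_⟩
      rw [Real.sq_sqrt X0]
      simp only [Real.sq_sqrt (f0 _)]
      exact hf F
    have b : L2 (fun p => √(f p) * g (r - p)) √(∑' p, f p * g (r - p) ^ 2) := by
      refine ⟨Real.sqrt_nonneg _, fun F => ?_⟩
      rw [Real.sq_sqrt S0]
      simp only [mul_pow, Real.sq_sqrt (f0 _)]
      exact (s2 r).sum_le_tsum F fun p _ => mul_nonneg (f0 p) (sq_nonneg _)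
    have c : ∑' p, f p * g (r - p) ≤ √X * √(∑' p, f p * g (r - p) ^ 2) := by
      refine Real.tsum_le_of_sum_le (fun p => mul_nonneg (f0 p) (g0 _)) fun F => ?_
      refine le_trans (le_of_eq (Finset.sum_congr rfl fun p _ => ?_)) (youngA_cs a b F)
      rw [← mul_assoc, Real.mul_self_sqrt (f0 p)]
    refine (pow_le_pow_left₀ (tsum_nonneg fun p => mul_nonneg (f0 p) (g0 _)) c 2).trans ?_
    rw [mul_pow, Real.sq_sqrt X0, Real.sq_sqrt S0]
  calc ∑ r ∈ F, (∑' p, f p * g (r - p)) ^ 2 ≤ ∑ r ∈ F, X * ∑' p, f p * g (r - p) ^ 2 :=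
        Finset.sum_le_sum fun r _ => pt r
    _ = X * ∑' p, ∑ r ∈ F, f p * g (r - p) ^ 2 := by
        rw [← Finset.mul_sum, Summable.tsum_finsetSum fun r _ => s2 r]
    _ ≤ X * (X * Y ^ 2) := by
        refine mul_le_mul_of_nonneg_left ?_ X0
        refine Real.tsum_le_of_sum_le
          (fun p => Finset.sum_nonneg fun r _ => mul_nonneg (f0 p) (sq_nonneg _)) fun P => ?_
        calc ∑ p ∈ P, ∑ r ∈ F, f p * g (r - p) ^ 2 ≤ ∑ p ∈ P, f p * Y ^ 2 := by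
              refine Finset.sum_le_sum fun p _ => ?_
              rw [← Finset.mul_sum]
              exact mul_le_mul_of_nonneg_left
                ((youngA_comp hg (e := fun r => r - p) (sub_left_injective)).2 F) (f0 p)
          _ ≤ X * Y ^ 2 := by
              rw [← Finset.sum_mul]
              exact mul_le_mul_of_nonneg_right (hf P) (sq_nonneg _)
    _ = (X * Y) ^ 2 := by ring

lemma Cv_l1 (n : N3) {f g : Z3 → ℝ} {X Y : ℝ} (f0 : ∀ k, 0 ≤ f k) (g0 : ∀ k, 0 ≤ g k)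
    (hf : L1 f X) (hg : L2 g Y) : Cv n f g (X * Y) := by
  obtain ⟨s, h⟩ := young f0 g0 hf hg
  refine ⟨h.1, s, fun r0 => ?_⟩
  exact (youngA_comp h (e := fun k => r0 + k) (add_right_injective r0)).2 (bx n)

lemma Cv_l2 (n : N3) {f g : Z3 → ℝ} {X Y : ℝ} (f0 : ∀ k, 0 ≤ f k) (g0 : ∀ k, 0 ≤ g k)
    (hf : L2 f X) (hg : L2 g Y) : Cv n f g (3 * Nn n * (X * Y)) := by
  have c : ∀ r, L1 (fun p => f p * g (r - p)) (X * Y) := fun r =>
    youngA_cs hf (youngA_comp hg (e := fun p => r - p) sub_right_injective)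
  have n0 : ∀ r p, 0 ≤ f p * g (r - p) := fun r p => mul_nonneg (f0 p) (g0 _)
  have XY := mul_nonneg hf.1 hg.1
  have N0 := (Nn_pos n).le
  refine ⟨by positivity, fun r => ((c r).tsum_le (n0 r)).1, fun r0 => ?_⟩
  have k : ((bx n).card : ℝ) ≤ (3 * Nn n) ^ 2 := by
    have := pow_le_pow_left₀ (Real.sqrt_nonneg _) (sqrt_card_bx_le n) 2
    rwa [Real.sq_sqrt (Nat.cast_nonneg _)] at this
  calc ∑ h ∈ bx n, (∑' p, f p * g (r0 + h - p)) ^ 2 ≤ ∑ h ∈ bx n, (X * Y) ^ 2 :=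
        Finset.sum_le_sum fun h _ =>
          pow_le_pow_left₀ (tsum_nonneg (n0 _)) ((c _).tsum_le (n0 _)).2 2
    _ = (bx n).card * (X * Y) ^ 2 := by rw [Finset.sum_const, nsmul_eq_mul]
    _ ≤ (3 * Nn n) ^ 2 * (X * Y) ^ 2 := mul_le_mul_of_nonneg_right k (sq_nonneg _)
    _ = _ := by ring

lemma youngA_tm (β γ : Z3 → E3) (p q : Z3) : ‖tm β γ p q‖ ≤ ‖β p‖ * (ax q * ‖γ q‖) := by
  rw [tm, norm_smul, ← mul_assoc, ax_eq_norm]
  exact mul_le_mul_of_nonneg_right (norm_inner_le_norm _ _) (norm_nonneg _)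

lemma youngA_young {γ : Z3 → E3} (H : Rapid β) (H' : Rapid γ) :
    (∀ r, Summable fun p => ‖β p‖ * (ax (r - p) * ‖γ (r - p)‖)) ∧
      L2 (fun r => ∑' p, ‖β p‖ * (ax (r - p) * ‖γ (r - p)‖))
        ((∑' k, ‖β k‖) * √(∑' k, (ax k * ‖γ k‖) ^ 2)) := by
  obtain ⟨M, hM⟩ := H 0
  exact young (g := fun k => ax k * ‖γ k‖) (fun _ => norm_nonneg _)
    (fun k => mul_nonneg (ax_nonneg k) (norm_nonneg _))
    (L1_tsum (fun _ => norm_nonneg _) hM.summable_norm) (L2_tsum (summable_sq_ax H'))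

lemma norm_tm_le (dv : ∀ k, ⟪xi k, β k⟫_ℝ = 0) (γ : Z3 → E3) (p q : Z3) :
    ‖tm β γ p q‖ ≤ ax (p + q) * (‖β p‖ * ‖γ q‖) := by
  have e : ⟪β p, xi q⟫_ℝ = ⟪β p, xi (p + q)⟫_ℝ := by
    rw [xi_add, inner_add_right, real_inner_comm, real_inner_comm (xi p), dv p, zero_add,
      real_inner_comm]
  rw [tm, norm_smul, e, ← mul_assoc, ax_eq_norm, mul_comm ‖xi _‖]
  exact mul_le_mul_of_nonneg_right (norm_inner_le_norm _ _) (norm_nonneg _)

lemma summable_tm {γ : Z3 → E3} (H : Rapid β) (H' : Rapid γ) (r : Z3) :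
    Summable fun p => tm β γ p (r - p) := by
  exact Summable.of_norm_bounded ((youngA_young H H').1 r) fun p => youngA_tm β γ p _

/-- Pointwise bound of the transport operator. -/
lemma norm_BR_le (H : Adm β) (k : Z3) :
    ‖BR β β k‖ ≤ ax k * ∑' p, ‖β p‖ * ‖β (k - p)‖ := by
  obtain ⟨M, hM⟩ := H.rapid 0
  have s : Summable fun p => ‖β p‖ * ‖β (k - p)‖ :=
    Summable.of_nonneg_of_le (fun p => mul_nonneg (norm_nonneg _) (norm_nonneg _))
      (fun p => mul_le_mul_of_nonneg_left (hM.norm_le _) (norm_nonneg _))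
      (hM.summable_norm.mul_right M)
  refine tsum_of_norm_bounded (s.hasSum.mul_left (ax k)) fun p => ?_
  simpa using norm_tm_le H.div β p (k - p)

/-- The sum norm of the convolution of the sizes. -/
lemma L1_conv (H : Rapid β) :
    L1 (fun k => ∑' p, ‖β p‖ * ‖β (k - p)‖) ((∑' k, ‖β k‖) ^ 2) := by
  obtain ⟨M, hM⟩ := H 0
  have h := conv_hasSum (fun _ => norm_nonneg _) (fun _ => norm_nonneg _) hM.summable_norm
    hM.summable_norm
  have h2 := h.prod_fiberwise fun k => (h.summable.prod_factor k).hasSum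
  rw [pow_two]
  exact fun F => sum_le_hasSum F
    (fun k _ => tsum_nonneg fun p => mul_nonneg (norm_nonneg _) (norm_nonneg _)) h2

/-- The Euclidean norm of the transport operator. -/
lemma L2_BR {γ : Z3 → E3} (H : Rapid β) (H' : Rapid γ) :
    L2 (fun k => ‖BR β γ k‖) ((∑' k, ‖β k‖) * √(∑' k, (ax k * ‖γ k‖) ^ 2)) := by
  obtain ⟨s, h⟩ := youngA_young H H'
  refine h.of_le fun k => ?_
  rw [abs_of_nonneg (norm_nonneg _)]
  exact (tsum_of_norm_bounded (s k).hasSum fun p => youngA_tm β γ p _).trans (le_abs_self _)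

end

end Pool.Agent.Work.MP_6bf1e5_an.Ell.Pd
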